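import Pool.Agent.Lib.MP_79abb3_an.P25.Basic

/-!
Elementary properties of the operators `Eop`, `Top`.
-/

set_option autoImplicit false
set_option linter.unusedSectionVars false

open MeasureTheory Set Filter Topology Function
open scoped ENNReal

namespace Pool.Agent.Lib.MP_79abb3_an.P25

section
variable {H : ℝ} [hH : Fact (0 < H)]

theorem Eop_eq (k : ℝ) (f : CI H) {z : ℝ} (hz : z ∈ Icc (0:ℝ) H) :
    ex (Eop k f) z = ((Real.exp (-|k| * z) : ℝ) : ℂ) *
      ∫ x in (0:ℝ)..z, ((Real.exp (|k| * x) : ℝ) : ℂ) * ex f x := by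
  rw [Eop_apply k f hz, ← intervalIntegral.integral_const_mul]
  congr 1
  ext x
  have h : Real.exp (-|k| * (z - x)) = Real.exp (-|k| * z) * Real.exp (|k| * x) := by
    rw [← Real.exp_add]
    congr 1
    ring
  rw [h]
  push_cast
  ring

theorem Top_eq (k : ℝ) (f : CI H) {z : ℝ} (hz : z ∈ Icc (0:ℝ) H) :
    ex (Top k f) z = -(((Real.exp (|k| * z) : ℝ) : ℂ) *
      ∫ x in H..z, ((Real.exp (-|k| * x) : ℝ) : ℂ) * ex f x) := by
  rw [Top_apply k f hz, intervalIntegral.integral_symm z H, mul_neg, neg_neg,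
    ← intervalIntegral.integral_const_mul]
  congr 1
  ext x
  have h : Real.exp (-|k| * (x - z)) = Real.exp (|k| * z) * Real.exp (-|k| * x) := by
    rw [← Real.exp_add]
    congr 1
    ring
  rw [h]
  push_cast
  ring

theorem hasDerivAt_cexp (a z : ℝ) :
    HasDerivAt (fun z : ℝ => ((Real.exp (a * z) : ℝ) : ℂ)) (((a * Real.exp (a * z) : ℝ)) : ℂ) z := by
  have h1 : HasDerivAt (fun z : ℝ => Real.exp (a * z)) (a * Real.exp (a * z)) z := by
    have h2 := ((hasDerivAt_id z).const_mul a).exp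
    simp only [id_eq, mul_one] at h2
    rw [mul_comm]
    exact h2
  exact h1.ofReal_comp

theorem Eop_isD (k : ℝ) (f : CI H) : IsD (Eop k f) (f - |k| • Eop k f) := by
  intro z hz
  have hc : Continuous fun x : ℝ => ((Real.exp (|k| * x) : ℝ) : ℂ) * ex f x := by
    have := continuous_ex f
    exact Continuous.mul (by fun_prop) this
  have h1 : HasDerivAt (fun z : ℝ => ∫ x in (0:ℝ)..z, ((Real.exp (|k| * x) : ℝ) : ℂ) * ex f x)
      (((Real.exp (|k| * z) : ℝ) : ℂ) * ex f z) z :=
    intervalIntegral.integral_hasDerivAt_right (hc.intervalIntegrable _ _)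
      (hc.stronglyMeasurableAtFilter _ _) hc.continuousAt
  have h2 := (hasDerivAt_cexp (-|k|) z).mul h1
  have h3 : HasDerivWithinAt (ex (Eop k f)) _ (Icc 0 H) z :=
    h2.hasDerivWithinAt.congr (fun y hy => Eop_eq k f hy) (Eop_eq k f hz)
  refine h3.congr_deriv ?_
  rw [ex_sub, ex_rsmul, Eop_eq k f hz]
  have h4 : ((Real.exp (-|k| * z) : ℝ) : ℂ) * ((Real.exp (|k| * z) : ℝ) : ℂ) = 1 := by
    rw [← Complex.ofReal_mul, ← Real.exp_add]
    have : -|k| * z + |k| * z = 0 := by ring
    rw [this, Real.exp_zero, Complex.ofReal_one]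
  have h5 : ((Real.exp (-|k| * z) : ℝ) : ℂ) * (((Real.exp (|k| * z) : ℝ) : ℂ) * ex f z) =
      ex f z := by
    rw [← mul_assoc, h4, one_mul]
  rw [h5]
  push_cast
  ring

theorem Top_isD (k : ℝ) (f : CI H) : IsD (Top k f) (|k| • Top k f - f) := by
  intro z hz
  have hc : Continuous fun x : ℝ => ((Real.exp (-|k| * x) : ℝ) : ℂ) * ex f x := by
    have := continuous_ex f
    exact Continuous.mul (by fun_prop) this
  have h1 : HasDerivAt (fun z : ℝ => ∫ x in H..z, ((Real.exp (-|k| * x) : ℝ) : ℂ) * ex f x)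
      (((Real.exp (-|k| * z) : ℝ) : ℂ) * ex f z) z :=
    intervalIntegral.integral_hasDerivAt_right (hc.intervalIntegrable _ _)
      (hc.stronglyMeasurableAtFilter _ _) hc.continuousAt
  have h2 := ((hasDerivAt_cexp (|k|) z).mul h1).neg
  have h3 : HasDerivWithinAt (ex (Top k f)) _ (Icc 0 H) z :=
    h2.hasDerivWithinAt.congr (fun y hy => Top_eq k f hy) (Top_eq k f hz)
  refine h3.congr_deriv ?_
  rw [ex_sub, ex_rsmul, Top_eq k f hz]
  have h4 : ((Real.exp (|k| * z) : ℝ) : ℂ) * ((Real.exp (-|k| * z) : ℝ) : ℂ) = 1 := by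
    rw [← Complex.ofReal_mul, ← Real.exp_add]
    have : |k| * z + -|k| * z = 0 := by ring
    rw [this, Real.exp_zero, Complex.ofReal_one]
  have h5 : ((Real.exp (|k| * z) : ℝ) : ℂ) * (((Real.exp (-|k| * z) : ℝ) : ℂ) * ex f z) =
      ex f z := by
    rw [← mul_assoc, h4, one_mul]
  rw [h5]
  push_cast
  ring

theorem Eop_zero (k : ℝ) (f : CI H) : ex (Eop k f) 0 = 0 := by
  rw [Eop_apply k f ⟨le_refl _, hH.out.le⟩, intervalIntegral.integral_same]

theorem Top_H (k : ℝ) (f : CI H) : ex (Top k f) H = 0 := by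
  rw [Top_apply k f ⟨hH.out.le, le_refl _⟩, intervalIntegral.integral_same]

theorem integral_exp_le {κ : ℝ} (hκ : 0 < κ) (a : ℝ) :
    ∫ x in (0:ℝ)..a, Real.exp (-κ * x) ≤ 1 / κ := by
  have h1 : ∀ x ∈ uIcc (0:ℝ) a, HasDerivAt (fun x => -(1 / κ) * Real.exp (-κ * x))
      (Real.exp (-κ * x)) x := by
    intro x _
    have h2 := (((hasDerivAt_id x).const_mul (-κ)).exp).const_mul (-(1 / κ))
    refine h2.congr_deriv ?_
    simp only [id_eq, mul_one]
    field_simp
  rw [intervalIntegral.integral_eq_sub_of_hasDerivAt h1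
    (Continuous.intervalIntegrable (by fun_prop) _ _)]
  have h3 := Real.exp_pos (-κ * a)
  have h4 : 0 < 1 / κ := by positivity
  rw [mul_zero, Real.exp_zero]
  nlinarith

theorem norm_kEop_le (k : ℝ) (f : CI H) : |k| * ‖Eop k f‖ ≤ ‖f‖ := by
  rcases (abs_nonneg k).eq_or_lt with h0 | hk
  · rw [← h0, zero_mul]
    exact norm_nonneg _
  · rw [mul_comm, ← le_div_iff₀ hk]
    refine ci_norm_le (by positivity) fun z hz => ?_
    rw [Eop_apply k f hz]
    have h1 : ‖∫ x in (0:ℝ)..z, ((Real.exp (-|k| * (z - x)) : ℝ) : ℂ) * ex f x‖ ≤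
        ∫ x in (0:ℝ)..z, Real.exp (-|k| * (z - x)) * ‖f‖ := by
      apply intervalIntegral.norm_integral_le_of_norm_le hz.1
      · refine Filter.Eventually.of_forall fun x _ => ?_
        rw [norm_mul, Complex.norm_real, Real.norm_eq_abs, abs_of_pos (Real.exp_pos _)]
        exact mul_le_mul_of_nonneg_left (norm_ex_le f x) (Real.exp_pos _).le
      · exact Continuous.intervalIntegrable (by fun_prop) _ _
    refine h1.trans ?_
    rw [intervalIntegral.integral_mul_const]
    have h2 : ∫ x in (0:ℝ)..z, Real.exp (-|k| * (z - x)) =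
        ∫ x in (0:ℝ)..z, Real.exp (-|k| * x) := by
      have := intervalIntegral.integral_comp_sub_left (fun x => Real.exp (-|k| * x)) z
        (a := 0) (b := z)
      rw [sub_self, sub_zero] at this
      exact this
    rw [h2]
    calc (∫ x in (0:ℝ)..z, Real.exp (-|k| * x)) * ‖f‖ ≤ 1 / |k| * ‖f‖ :=
          mul_le_mul_of_nonneg_right (integral_exp_le hk z) (norm_nonneg _)
      _ = ‖f‖ / |k| := by ring

theorem norm_kTop_le (k : ℝ) (f : CI H) : |k| * ‖Top k f‖ ≤ ‖f‖ := by
  rcases (abs_nonneg k).eq_or_lt with h0 | hk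
  · rw [← h0, zero_mul]
    exact norm_nonneg _
  · rw [mul_comm, ← le_div_iff₀ hk]
    refine ci_norm_le (by positivity) fun z hz => ?_
    rw [Top_apply k f hz]
    have h1 : ‖∫ x in z..H, ((Real.exp (-|k| * (x - z)) : ℝ) : ℂ) * ex f x‖ ≤
        ∫ x in z..H, Real.exp (-|k| * (x - z)) * ‖f‖ := by
      apply intervalIntegral.norm_integral_le_of_norm_le hz.2
      · refine Filter.Eventually.of_forall fun x _ => ?_
        rw [norm_mul, Complex.norm_real, Real.norm_eq_abs, abs_of_pos (Real.exp_pos _)]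
        exact mul_le_mul_of_nonneg_left (norm_ex_le f x) (Real.exp_pos _).le
      · exact Continuous.intervalIntegrable (by fun_prop) _ _
    refine h1.trans ?_
    rw [intervalIntegral.integral_mul_const]
    have h2 : ∫ x in z..H, Real.exp (-|k| * (x - z)) =
        ∫ x in (0:ℝ)..(H - z), Real.exp (-|k| * x) := by
      have := intervalIntegral.integral_comp_sub_right (fun x => Real.exp (-|k| * x)) z
        (a := z) (b := H)
      rw [sub_self] at this
      exact this
    rw [h2]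
    calc (∫ x in (0:ℝ)..(H - z), Real.exp (-|k| * x)) * ‖f‖ ≤ 1 / |k| * ‖f‖ :=
          mul_le_mul_of_nonneg_right (integral_exp_le hk (H - z)) (norm_nonneg _)
      _ = ‖f‖ / |k| := by ring

theorem IsD.star {f f1 : CI H} (h : IsD f f1) : IsD (Star.star f) (Star.star f1) := by
  intro z hz
  exact (h z hz).star

theorem IsD.sub {f f1 g g1 : CI H} (h : IsD f f1) (h' : IsD g g1) : IsD (f - g) (f1 - g1) := by
  intro z hz
  exact (h z hz).sub (h' z hz)

/-- solutions of `d' = a d` that vanish somewhere vanish -/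
theorem ode_zero (a : ℝ) {d d1 : CI H} (hd : IsD d d1) (h : d1 = a • d) {z0 : ℝ}
    (hz0 : z0 ∈ Icc (0:ℝ) H) (h0 : ex d z0 = 0) : d = 0 := by
  let g : ℝ → ℂ := fun z => ((Real.exp (-a * z) : ℝ) : ℂ) * ex d z
  have hgc : ContinuousOn g (Icc 0 H) := by
    have := continuous_ex d
    exact (Continuous.mul (by fun_prop) this).continuousOn
  have hder : ∀ z ∈ Icc (0:ℝ) H, HasDerivWithinAt g 0 (Icc 0 H) z := by
    intro z hz
    have h1 := (hasDerivAt_cexp (-a) z).hasDerivWithinAt.mul (hd z hz)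
    refine h1.congr_deriv ?_
    rw [h, ex_rsmul]
    push_cast
    ring
  have hconst : ∀ z ∈ Icc (0:ℝ) H, g z = g 0 := by
    apply constant_of_has_deriv_right_zero hgc
    intro x hx
    exact (hder x ⟨hx.1, hx.2.le⟩).mono_of_mem_nhdsWithin (Icc_mem_nhdsGE_of_mem hx)
  apply ci_ext
  intro z hz
  have h1 : g z = g z0 := (hconst z hz).trans (hconst z0 hz0).symm
  have h2 : g z0 = 0 := by
    simp only [g]
    rw [h0, mul_zero]
  rw [h2] at h1
  rw [ex_zero]
  have h3 : ((Real.exp (-a * z) : ℝ) : ℂ) ≠ 0 := by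
    rw [Complex.ofReal_ne_zero]
    exact (Real.exp_pos _).ne'
  exact (mul_eq_zero.1 h1).resolve_left h3

/-- Uniqueness for `w' + |k| w = f`, `w(0) = 0`. -/
theorem Eop_unique (k : ℝ) {w w1 f : CI H} (hw : IsD w w1) (h0 : ex w 0 = 0)
    (h : w1 + |k| • w = f) : w = Eop k f := by
  have h1 := hw.sub (Eop_isD k f)
  have h2 : w - Eop k f = 0 := by
    apply ode_zero (-|k|) h1 _ (z0 := 0) ⟨le_refl _, hH.out.le⟩
    · rw [ex_sub, h0, Eop_zero, sub_zero]
    · rw [← h, smul_sub, neg_smul, neg_smul]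
      abel
  exact sub_eq_zero.1 h2

/-- Uniqueness for `w' - |k| w = -f`, `w(H) = 0`. -/
theorem Top_unique (k : ℝ) {w w1 f : CI H} (hw : IsD w w1) (h0 : ex w H = 0)
    (h : w1 - |k| • w = -f) : w = Top k f := by
  have h1 := hw.sub (Top_isD k f)
  have h2 : w - Top k f = 0 := by
    apply ode_zero (|k|) h1 _ (z0 := H) ⟨hH.out.le, le_refl _⟩
    · rw [ex_sub, h0, Top_H, sub_zero]
    · have h3 : w1 = |k| • w - f := by
        rw [sub_eq_iff_eq_add] at h
        rw [h]
        abel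
      rw [h3, smul_sub]
      abel
  exact sub_eq_zero.1 h2

theorem Eop_star (k : ℝ) (f : CI H) : Eop k (star f) = star (Eop k f) := by
  symm
  apply Eop_unique k (Eop_isD k f).star
  · rw [ex_star, Eop_zero, star_zero]
  · rw [star_sub, star_smul]
    simp

theorem Top_star (k : ℝ) (f : CI H) : Top k (star f) = star (Top k f) := by
  symm
  apply Top_unique k (Top_isD k f).star
  · rw [ex_star, Top_H, star_zero]
  · rw [star_sub, star_smul]
    simp

/-- `T_k` is the transpose of `E_k`. -/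
theorem Eop_Top_adj (k : ℝ) (f g : CI H) :
    ∫ z in (0:ℝ)..H, ex (Eop k f) z * ex g z = ∫ z in (0:ℝ)..H, ex f z * ex (Top k g) z := by
  have hcf := continuous_ex f
  have hcg := continuous_ex g
  have hce := continuous_ex (Eop k f)
  have hct := continuous_ex (Top k g)
  have h1 : ∫ z in (0:ℝ)..H, (ex f z * ex (Top k g) z - ex (Eop k f) z * ex g z) = 0 := by
    rw [intervalIntegral.integral_eq_sub_of_hasDerivAt_of_le hH.out.le
      (f := fun z => ex (Eop k f) z * ex (Top k g) z)]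
    · rw [Eop_zero, Top_H, zero_mul, mul_zero, sub_zero]
    · exact (hce.mul hct).continuousOn
    · intro x hx
      have hx' : x ∈ Icc (0:ℝ) H := ⟨hx.1.le, hx.2.le⟩
      have h2 := ((Eop_isD k f) x hx').mul ((Top_isD k g) x hx')
      have h3 := h2.hasDerivAt (Icc_mem_nhds hx.1 hx.2)
      refine h3.congr_deriv ?_
      rw [ex_sub, ex_sub, ex_rsmul, ex_rsmul]
      ring
    · exact Continuous.intervalIntegrable (by fun_prop) _ _
  rw [intervalIntegral.integral_sub (Continuous.intervalIntegrable (by fun_prop) _ _)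
    (Continuous.intervalIntegrable (by fun_prop) _ _)] at h1
  exact (sub_eq_zero.1 h1).symm

end

end Pool.Agent.Lib.MP_79abb3_an.P25
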