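import Pool.Agent.Lib.MP_79abb3_an.P25.DirDef

/-!
The system for the Fourier modes of 2.5D flows.

Fields in the strip `0 < z < H`: `u = (x g + h, v, w)` with `g, h, v, w` functions of `(t, y, z)`,
`v_y + w_z = -g`.  For the wave number `k` put `s = sign k`, `ν = v + i s w`.  The state is the pair
`(g, ν)`, and `w = -E_k (g + i k ν)`, `v = ν - i s w`, `Ω = w_y - v_z = -ν_z + |k| ν - i s g`.
-/

set_option autoImplicit false
set_option linter.unusedSectionVars false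

open MeasureTheory Set Filter Topology Function

namespace Pool.Agent.Lib.MP_79abb3_an.P25

/-- One mode `(g, ν)`. -/
abbrev Yn (H : ℝ) : Type := CI H × CI H

/-- One mode with derivatives: `((g, g_z, |k| g), (ν, ν_z, |k| ν))`. -/
abbrev Xn (H : ℝ) : Type := (CI H × CI H × CI H) × (CI H × CI H × CI H)

/-- `i sign(k)` -/
noncomputable def is (k : ℝ) : ℂ := Complex.I * ((Real.sign k : ℝ) : ℂ)

section
variable {H : ℝ} [hH : Fact (0 < H)]

/-- Vertical velocity of the mode `k`. -/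
noncomputable def om (k : ℝ) (y : Yn H) : CI H := -(Eop k y.1) - (is k * ((|k| : ℝ) : ℂ)) • Eop k y.2

/-- Horizontal (`y`) velocity of the mode `k`. -/
noncomputable def vv (k : ℝ) (y : Yn H) : CI H := y.2 - is k • om k y

/-- Vorticity `w_y - v_z` of the mode `k`. -/
noncomputable def Om (k : ℝ) (x : Xn H) : CI H := -x.2.2.1 + x.2.2.2 - is k • x.1.1

/-- Forget derivatives. -/
def jn (x : Xn H) : Yn H := (x.1.1, x.2.1)

/-- Convolution of families of modes (product in physical space). -/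
noncomputable def conv (a b : ℤ → CI H) (n : ℤ) : CI H := ∑' m, a m * b (n - m)

/-- `v ∂_y g' + w ∂_z g' + g g'` for the first family and the second (primed) family. -/
noncomputable def N0 (ω : ℝ) (x y : ℤ → Xn H) (n : ℤ) : CI H :=
  conv (fun m => vv (ω * m) (jn (x m))) (fun m => is (ω * m) • (y m).1.2.2) n +
  conv (fun m => om (ω * m) (jn (x m))) (fun m => (y m).1.2.1) n +
  conv (fun m => (x m).1.1) (fun m => (y m).1.1) n

/-- `-Ω w'` -/
noncomputable def N1 (ω : ℝ) (x y : ℤ → Xn H) (n : ℤ) : CI H :=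
  -conv (fun m => Om (ω * m) (x m)) (fun m => om (ω * m) (jn (y m))) n

/-- `Ω v'` -/
noncomputable def N2 (ω : ℝ) (x y : ℤ → Xn H) (n : ℤ) : CI H :=
  conv (fun m => Om (ω * m) (x m)) (fun m => vv (ω * m) (jn (y m))) n

/-- The second component of the right hand side from `N0, N1, N2` (one mode). -/
noncomputable def Rν (k : ℝ) (n0 n1 n2 : CI H) : CI H :=
  -n1 + |k| • Top k n1 - (Complex.I * (k : ℂ)) • Top k n2 - is k • Top k n0

/-- The bilinear right hand side (without pressure term `P(t)`). -/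
noncomputable def Bf (ω : ℝ) (x y : ℤ → Xn H) (n : ℤ) : Yn H :=
  (-N0 ω x y n, Rν (ω * n) (N0 ω x y n) (N1 ω x y n) (N2 ω x y n))

/-- Heat propagator of one mode, with derivatives. -/
noncomputable def Tn (S D : ℝ → (CI H →L[ℂ] CI H)) (k t : ℝ) (y : Yn H) : Xn H :=
  Real.exp (-k ^ 2 * t) • ((S t y.1, D t y.1, |k| • S t y.1), (S t y.2, D t y.2, |k| • S t y.2))

/-- Admissible weights for the modes. -/
structure Wt (CW : ℝ) (W : ℤ → ℝ) : Prop where
  one_le : ∀ n, 1 ≤ W n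
  sub : ∀ m n, W (m + n) ≤ CW * W m * W n
  zero : W 0 = 1

theorem is_zero : is 0 = 0 := by simp [is]

theorem norm_is_le (k : ℝ) : ‖is k‖ ≤ 1 := by
  rw [is, norm_mul, Complex.norm_I, one_mul, Complex.norm_real, Real.norm_eq_abs]
  rcases Real.sign_apply_eq k with h | h | h <;> rw [h] <;> norm_num

/-- `x ↦ jn x` as a continuous linear map -/
noncomputable def jnL (H : ℝ) [Fact (0 < H)] : Xn H →L[ℝ] Yn H :=
  ((ContinuousLinearMap.fst ℝ (CI H) (CI H × CI H)).comp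
    (ContinuousLinearMap.fst ℝ (CI H × CI H × CI H) (CI H × CI H × CI H))).prod
  ((ContinuousLinearMap.fst ℝ (CI H) (CI H × CI H)).comp
    (ContinuousLinearMap.snd ℝ (CI H × CI H × CI H) (CI H × CI H × CI H)))

@[simp] theorem jnL_apply (x : Xn H) : jnL H x = jn x := rfl

theorem norm_jnL_le (x : Xn H) : ‖jnL H x‖ ≤ 1 * ‖x‖ := by
  rw [one_mul]
  exact max_le ((norm_fst_le x.1).trans (norm_fst_le x)) ((norm_fst_le x.2).trans (norm_snd_le x))

/-- `j` on families. -/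
noncomputable def jL (H : ℝ) [Fact (0 < H)] : L1 (Xn H) →L[ℝ] L1 (Yn H) :=
  diagL (fun _ => jnL H) 1 (fun _ => norm_jnL_le)

@[simp] theorem jL_apply (x : L1 (Xn H)) (n : ℤ) : jL H x n = jn (x n) := rfl

/-- `y ↦ Tn S D k t y` as a continuous linear map -/
noncomputable def TnL (S D : ℝ → (CI H →L[ℂ] CI H)) (k t : ℝ) : Yn H →L[ℝ] Xn H :=
  Real.exp (-k ^ 2 * t) •
    (((((S t).restrictScalars ℝ).prod (((D t).restrictScalars ℝ).prod
        (|k| • (S t).restrictScalars ℝ))).comp (ContinuousLinearMap.fst ℝ (CI H) (CI H))).prod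
     ((((S t).restrictScalars ℝ).prod (((D t).restrictScalars ℝ).prod
        (|k| • (S t).restrictScalars ℝ))).comp (ContinuousLinearMap.snd ℝ (CI H) (CI H))))

@[simp] theorem TnL_apply (S D : ℝ → (CI H →L[ℂ] CI H)) (k t : ℝ) (y : Yn H) :
    TnL S D k t y = Tn S D k t y := rfl

theorem exp_sq_le (k : ℝ) {t : ℝ} (ht : 0 < t) : Real.exp (-k ^ 2 * t) * |k| ≤ (√t)⁻¹ := by
  have hs : 0 < √t := Real.sqrt_pos.2 ht
  rw [← mul_le_mul_iff_left₀ hs, inv_mul_cancel₀ hs.ne', mul_assoc]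
  have h1 : |k| * √t ≤ Real.exp (k ^ 2 * t) := by
    have h2 : (|k| * √t) ^ 2 = k ^ 2 * t := by
      rw [mul_pow, sq_abs, Real.sq_sqrt ht.le]
    have h3 := Real.add_one_le_exp (k ^ 2 * t)
    rw [← h2] at h3 ⊢
    nlinarith [sq_nonneg (|k| * √t - 1)]
  calc Real.exp (-k ^ 2 * t) * (|k| * √t) ≤ Real.exp (-k ^ 2 * t) * Real.exp (k ^ 2 * t) := by
        gcongr
    _ = 1 := by rw [← Real.exp_add]; simp

theorem norm_TnL_le {S D A : ℝ → (CI H →L[ℂ] CI H)} (hS : DirSG H S D A) (k : ℝ) {t : ℝ} (ht : 0 < t)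
    (y : Yn H) : ‖TnL S D k t y‖ ≤ max 1 (√t)⁻¹ * ‖y‖ := by
  have hs : 0 < √t := Real.sqrt_pos.2 ht
  have he : Real.exp (-k ^ 2 * t) ≤ 1 := by
    rw [Real.exp_le_one_iff]; nlinarith [sq_nonneg k]
  have he0 := Real.exp_pos (-k ^ 2 * t)
  have hk := exp_sq_le k ht
  have key : ∀ f : CI H, ‖f‖ ≤ ‖y‖ →
      ‖(Real.exp (-k ^ 2 * t) • (S t f, D t f, |k| • S t f) : CI H × CI H × CI H)‖ ≤
        max 1 (√t)⁻¹ * ‖y‖ := by
    intro f hf
    have h1 := hS.S_norm t ht f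
    have h2 := hS.D_norm t ht f
    have hy := norm_nonneg y
    have hf0 := norm_nonneg f
    have hm1 : 1 ≤ max 1 (√t)⁻¹ := le_max_left _ _
    have hm2 : (√t)⁻¹ ≤ max 1 (√t)⁻¹ := le_max_right _ _
    rw [norm_smul, Real.norm_eq_abs, abs_of_pos he0, Prod.norm_mk, Prod.norm_mk, norm_smul,
      Real.norm_eq_abs, abs_abs]
    have a1 : Real.exp (-k ^ 2 * t) * ‖S t f‖ ≤ max 1 (√t)⁻¹ * ‖y‖ := by
      calc _ ≤ 1 * ‖f‖ := by gcongr
        _ ≤ _ := by gcongr
    have a2 : Real.exp (-k ^ 2 * t) * ‖D t f‖ ≤ max 1 (√t)⁻¹ * ‖y‖ := by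
      calc _ ≤ 1 * ((√t)⁻¹ * ‖f‖) := by gcongr
        _ ≤ _ := by rw [one_mul]; gcongr
    have a3 : Real.exp (-k ^ 2 * t) * (|k| * ‖S t f‖) ≤ max 1 (√t)⁻¹ * ‖y‖ := by
      calc _ = (Real.exp (-k ^ 2 * t) * |k|) * ‖S t f‖ := by ring
        _ ≤ (√t)⁻¹ * ‖f‖ := by gcongr
        _ ≤ _ := by gcongr
    rcases le_total ‖D t f‖ (|k| * ‖S t f‖) with h | h
    · rw [max_eq_right h]
      rcases le_total ‖S t f‖ (|k| * ‖S t f‖) with h' | h'
      · rw [max_eq_right h']; exact a3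
      · rw [max_eq_left h']; exact a1
    · rw [max_eq_left h]
      rcases le_total ‖S t f‖ ‖D t f‖ with h' | h'
      · rw [max_eq_right h']; exact a2
      · rw [max_eq_left h']; exact a1
  exact max_le (key y.1 (norm_fst_le y)) (key y.2 (norm_snd_le y))

/-- The semigroup on families. -/
noncomputable def TT {S D A : ℝ → (CI H →L[ℂ] CI H)} (hS : DirSG H S D A) (ω t : ℝ) :
    L1 (Yn H) →L[ℝ] L1 (Xn H) :=
  if ht : 0 < t then diagL (fun n => TnL S D (ω * n) t) (max 1 (√t)⁻¹)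
    (fun n => norm_TnL_le hS (ω * n) ht) else 0

theorem TT_apply {S D A : ℝ → (CI H →L[ℂ] CI H)} (hS : DirSG H S D A) (ω : ℝ) {t : ℝ} (ht : 0 < t)
    (y : L1 (Yn H)) (n : ℤ) : TT hS ω t y n = Tn S D (ω * n) t (y n) := by
  rw [TT, dif_pos ht]; rfl

/-- `B` is the bilinear right hand side in the space with weight `W`. -/
def IsBW (ω : ℝ) (W : ℤ → ℝ) (B : L1 (Xn H) →L[ℝ] L1 (Xn H) →L[ℝ] L1 (Yn H)) : Prop :=
  ∀ x y : L1 (Xn H), ∀ n, (B x y) n =
    W n • Bf ω (fun m => (W m)⁻¹ • x m) (fun m => (W m)⁻¹ • y m) n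

/-- A mode with zero Dirichlet conditions, whose entries are compatible. -/
structure Dmode (k : ℝ) (x : Xn H) : Prop where
  d1 : IsD x.1.1 x.1.2.1
  d2 : IsD x.2.1 x.2.2.1
  e1 : x.1.2.2 = |k| • x.1.1
  e2 : x.2.2.2 = |k| • x.2.1
  z1 : ex x.1.1 0 = 0
  z2 : ex x.2.1 0 = 0
  h1 : ex x.1.1 H = 0
  h2 : ex x.2.1 H = 0

/-- The linear part coming from a background `U`. -/
noncomputable def lamU (B : L1 (Xn H) →L[ℝ] L1 (Xn H) →L[ℝ] L1 (Yn H)) (U : ℝ → L1 (Xn H)) (t : ℝ) :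
    L1 (Xn H) →L[ℝ] L1 (Yn H) := B (U t) + B.flip (U t)

/-- Families of modes of real functions. -/
def Sy {E : Type} [Star E] (x : ℤ → E) : Prop := ∀ n, x (-n) = star (x n)

end

end Pool.Agent.Lib.MP_79abb3_an.P25
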