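import Pool.Agent.Lib.MP_79abb3_an.P25.AbsDef
import Pool.Agent.Lib.MP_79abb3_an.P25.Modes

/-!
The heat semigroup on families of modes.
-/

set_option autoImplicit false
set_option linter.unusedSectionVars false

open MeasureTheory Set Filter Topology Function

namespace Pool.Agent.Lib.MP_79abb3_an.P25

/-- Dominated convergence in `ℓ¹`. -/
theorem tendsto_L1 {E : Type} [NormedAddCommGroup E] [NormedSpace ℝ E] {ι : Type} {l : Filter ι}
    {F : ι → L1 E} {x : L1 E} {g : ℤ → ℝ} (hg : Summable g) (hb : ∀ᶠ t in l, ∀ n, ‖F t n‖ ≤ g n)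
    (hx : ∀ n, ‖x n‖ ≤ g n) (hc : ∀ n, Tendsto (fun t => F t n) l (𝓝 (x n))) :
    Tendsto F l (𝓝 x) := by
  rw [tendsto_iff_norm_sub_tendsto_zero]
  have h1 : ∀ t, ‖F t - x‖ = ∑' n, ‖F t n - x n‖ := fun t => by
    rw [l1_norm]; rfl
  simp_rw [h1]
  have h2 : Tendsto (fun t => ∑' n, ‖F t n - x n‖) l (𝓝 (∑' _ : ℤ, (0:ℝ))) := by
    refine tendsto_tsum_of_dominated_convergence (bound := fun n => g n + g n) (hg.add hg)
      (fun n => ?_) ?_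
    · exact tendsto_iff_norm_sub_tendsto_zero.1 (hc n)
    · filter_upwards [hb] with t ht n
      rw [norm_norm]
      exact (norm_sub_le _ _).trans (add_le_add (ht n) (hx n))
  simpa using h2

section
variable {H : ℝ} [hH : Fact (0 < H)]

/-! MO-5: the semigroup. -/

theorem norm_jn_Tn_le {S D A : ℝ → (CI H →L[ℂ] CI H)} (hS : DirSG H S D A) (k : ℝ) {t : ℝ}
    (ht : 0 < t) (y : Yn H) : ‖jn (Tn S D k t y)‖ ≤ ‖y‖ := by
  have he : Real.exp (-k ^ 2 * t) ≤ 1 := by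
    rw [Real.exp_le_one_iff]; nlinarith [sq_nonneg k]
  have he0 := Real.exp_pos (-k ^ 2 * t)
  have key : ∀ f : CI H, ‖f‖ ≤ ‖y‖ → ‖Real.exp (-k ^ 2 * t) • S t f‖ ≤ ‖y‖ := by
    intro f hf
    rw [norm_smul, Real.norm_eq_abs, abs_of_pos he0]
    have h1 := hS.S_norm t ht f
    calc Real.exp (-k ^ 2 * t) * ‖S t f‖ ≤ 1 * ‖f‖ := by gcongr
      _ ≤ ‖y‖ := by rw [one_mul]; exact hf
  exact max_le (key y.1 (norm_fst_le y)) (key y.2 (norm_snd_le y))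

theorem Tn_sg {S D A : ℝ → (CI H →L[ℂ] CI H)} (hS : DirSG H S D A) (k : ℝ) {s t : ℝ}
    (hs : 0 < s) (ht : 0 < t) (y : Yn H) : Tn S D k (s + t) y = Tn S D k s (jn (Tn S D k t y)) := by
  have e1 : Real.exp (-k ^ 2 * (s + t)) = Real.exp (-k ^ 2 * s) * Real.exp (-k ^ 2 * t) := by
    rw [← Real.exp_add]; congr 1; ring
  have hsm : ∀ (L : CI H →L[ℂ] CI H) (c : ℝ) (f : CI H), L (c • f) = c • L f := fun L c f => by
    exact (L.restrictScalars ℝ).map_smul c f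
  simp only [Tn, jn, e1, Prod.smul_mk, hsm, hS.S_sg s t hs ht,
    hS.D_sg s t hs ht, smul_smul]
  refine Prod.ext (Prod.ext ?_ (Prod.ext ?_ ?_)) (Prod.ext ?_ (Prod.ext ?_ ?_)) <;>
    congr 1 <;> ring_nf

theorem Tn_cont {S D A : ℝ → (CI H →L[ℂ] CI H)} (hS : DirSG H S D A) (k : ℝ) (y : Yn H) :
    ContinuousOn (fun t => Tn S D k t y) (Ioi 0) := by
  have h1 : ∀ f : CI H, ContinuousOn (fun t => S t f) (Ioi 0) := fun f t ht =>
    (hS.S_time t ht f).continuousAt.continuousWithinAt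
  have h2 : ContinuousOn (fun t : ℝ => Real.exp (-k ^ 2 * t)) (Ioi 0) := by fun_prop
  refine ContinuousOn.smul h2 ?_
  exact ((h1 y.1).prodMk ((hS.D_cont y.1).prodMk ((h1 y.1).const_smul |k|))).prodMk
    ((h1 y.2).prodMk ((hS.D_cont y.2).prodMk ((h1 y.2).const_smul |k|)))

theorem norm_Tn_le {S D A : ℝ → (CI H →L[ℂ] CI H)} (hS : DirSG H S D A) (k : ℝ) {t : ℝ} (ht : 0 < t)
    (y : Yn H) : ‖Tn S D k t y‖ ≤ max 1 (√t)⁻¹ * ‖y‖ := norm_TnL_le hS k ht y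

theorem norm_TT_le {S D A : ℝ → (CI H →L[ℂ] CI H)} (hS : DirSG H S D A) (ω : ℝ) {t : ℝ}
    (ht : 0 < t) (y : L1 (Yn H)) : ‖TT hS ω t y‖ ≤ max 1 (√t)⁻¹ * ‖y‖ := by
  rw [TT, dif_pos ht]
  exact norm_diagL_le _ _ _ y

theorem max_one_inv_sqrt {t : ℝ} (ht : t ∈ Ioc (0:ℝ) 1) : max 1 (√t)⁻¹ = (√t)⁻¹ := by
  refine max_eq_right ?_
  rw [one_le_inv₀ (Real.sqrt_pos.2 ht.1)]
  exact Real.sqrt_le_one.2 ht.2

theorem sg_TT {S D A : ℝ → (CI H →L[ℂ] CI H)} (hS : DirSG H S D A) (ω : ℝ) {C : ℝ} (hC : 1 ≤ C) :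
    SG (jL H) (TT hS ω) C where
  one_le := hC
  jn := fun x => by
    have := norm_diagL_le (fun _ : ℤ => jnL H) 1 (fun _ => norm_jnL_le) x
    rwa [one_mul] at this
  b1 := fun t ht y => by
    have h1 := norm_TT_le hS ω ht.1 y
    rw [max_one_inv_sqrt ht] at h1
    have h2 : 0 ≤ (√t)⁻¹ * ‖y‖ := by positivity
    calc ‖TT hS ω t y‖ ≤ 1 * ((√t)⁻¹ * ‖y‖) := by rw [one_mul]; exact h1
      _ ≤ C * ((√t)⁻¹ * ‖y‖) := by gcongr
      _ = C * (√t)⁻¹ * ‖y‖ := by ring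
  b0 := fun t ht y => by
    have h1 : ‖jL H (TT hS ω t y)‖ ≤ ‖y‖ := by
      rw [l1_norm, l1_norm]
      refine Summable.tsum_le_tsum (fun n => ?_) (l1_summable _) (l1_summable y)
      rw [jL_apply, TT_apply hS ω ht.1]
      exact norm_jn_Tn_le hS _ ht.1 _
    calc ‖jL H (TT hS ω t y)‖ ≤ 1 * ‖y‖ := by rw [one_mul]; exact h1
      _ ≤ C * ‖y‖ := by gcongr
  sg := fun s t hs ht y => by
    refine lp.ext ?_
    funext n
    rw [TT_apply hS ω (add_pos hs ht), TT_apply hS ω hs, jL_apply, TT_apply hS ω ht]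
    exact Tn_sg hS _ hs ht _
  cont := fun y t0 ht0 => by
    have ht0' : (0:ℝ) < t0 := ht0
    refine ContinuousAt.continuousWithinAt ?_
    have hh : Ioi (t0 / 2) ∈ 𝓝 t0 := Ioi_mem_nhds (by linarith)
    have hbd : ∀ t ∈ Ioi (t0 / 2), ∀ n, ‖TT hS ω t y n‖ ≤ max 1 (√(t0 / 2))⁻¹ * ‖y n‖ := by
      intro t ht n
      have ht' : t0 / 2 < t := ht
      have ht1 : 0 < t := by linarith
      rw [TT_apply hS ω ht1]
      refine (norm_Tn_le hS _ ht1 _).trans ?_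
      have h3 : (√t)⁻¹ ≤ (√(t0 / 2))⁻¹ := by
        have h4 : 0 < √(t0 / 2) := Real.sqrt_pos.2 (by linarith)
        have h5 : √(t0 / 2) ≤ √t := Real.sqrt_le_sqrt ht'.le
        gcongr
      have h6 : max 1 (√t)⁻¹ ≤ max 1 (√(t0 / 2))⁻¹ := max_le_max le_rfl h3
      gcongr
    refine tendsto_L1 (g := fun n => max 1 (√(t0 / 2))⁻¹ * ‖y n‖) ((l1_summable y).mul_left _)
      ?_ (fun n => hbd t0 (by show t0 / 2 < t0; linarith) n) (fun n => ?_)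
    · filter_upwards [hh] with t ht n
      exact hbd t ht n
    · have h7 : ContinuousAt (fun t => Tn S D (ω * n) t (y n)) t0 :=
        (Tn_cont hS (ω * n) (y n)).continuousAt (Ioi_mem_nhds ht0')
      rw [TT_apply hS ω ht0']
      refine h7.tendsto.congr' ?_
      filter_upwards [Ioi_mem_nhds ht0'] with t ht
      rw [TT_apply hS ω ht]

/-! MO-6 -/

theorem TT_init {S D A : ℝ → (CI H →L[ℂ] CI H)} (hS : DirSG H S D A) (ω : ℝ) {x : L1 (Xn H)}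
    (hx : ∀ n : ℤ, Dmode (ω * n) (x n)) :
    Tendsto (fun t => TT hS ω t (jL H x)) (𝓝[>] 0) (𝓝 x) ∧
    ∀ t ∈ Ioc (0:ℝ) 1, ‖TT hS ω t (jL H x)‖ ≤ 1 * ‖x‖ := by
  have hself : 𝓝[>] (0:ℝ) ≤ 𝓝[>] 0 := le_rfl
  have hpos : ∀ᶠ t in 𝓝[>] (0:ℝ), 0 < t := self_mem_nhdsWithin
  -- the bound of one mode
  have hb1 : ∀ (k : ℝ) (z : Xn H), Dmode k z → ∀ t, 0 < t → ‖Tn S D k t (jn z)‖ ≤ ‖z‖ := by
    intro k z hz t ht
    have he : Real.exp (-k ^ 2 * t) ≤ 1 := by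
      rw [Real.exp_le_one_iff]; nlinarith [sq_nonneg k]
    have he0 := Real.exp_pos (-k ^ 2 * t)
    have hmul : ∀ f g : CI H, ‖f‖ ≤ ‖g‖ → ‖Real.exp (-k ^ 2 * t) • f‖ ≤ ‖g‖ := by
      intro f g hfg
      rw [norm_smul, Real.norm_eq_abs, abs_of_pos he0]
      calc Real.exp (-k ^ 2 * t) * ‖f‖ ≤ 1 * ‖g‖ := by gcongr
        _ = ‖g‖ := one_mul _
    have hk : ∀ f g : CI H, g = |k| • f → ‖|k| • S t f‖ ≤ ‖g‖ := by
      intro f g hg
      rw [hg, norm_smul, norm_smul]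
      have := hS.S_norm t ht f
      gcongr
    have z1 : ‖z.1.1‖ ≤ ‖z‖ := (norm_fst_le z.1).trans (norm_fst_le z)
    have z2 : ‖z.1.2.1‖ ≤ ‖z‖ := (norm_fst_le z.1.2).trans ((norm_snd_le z.1).trans (norm_fst_le z))
    have z3 : ‖z.1.2.2‖ ≤ ‖z‖ := (norm_snd_le z.1.2).trans ((norm_snd_le z.1).trans (norm_fst_le z))
    have z4 : ‖z.2.1‖ ≤ ‖z‖ := (norm_fst_le z.2).trans (norm_snd_le z)
    have z5 : ‖z.2.2.1‖ ≤ ‖z‖ := (norm_fst_le z.2.2).trans ((norm_snd_le z.2).trans (norm_snd_le z))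
    have z6 : ‖z.2.2.2‖ ≤ ‖z‖ := (norm_snd_le z.2.2).trans ((norm_snd_le z.2).trans (norm_snd_le z))
    have d1 := (hS.D_init z.1.1 z.1.2.1 hz.d1 hz.z1 hz.h1).2 t ht
    have d2 := (hS.D_init z.2.1 z.2.2.1 hz.d2 hz.z2 hz.h2).2 t ht
    refine max_le (max_le ?_ (max_le ?_ ?_)) (max_le ?_ (max_le ?_ ?_))
    · exact (hmul _ _ (hS.S_norm t ht _)).trans z1
    · exact (hmul _ _ d1).trans z2
    · exact (hmul _ _ (hk _ _ hz.e1)).trans z3
    · exact (hmul _ _ (hS.S_norm t ht _)).trans z4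
    · exact (hmul _ _ d2).trans z5
    · exact (hmul _ _ (hk _ _ hz.e2)).trans z6
  have hc1 : ∀ (k : ℝ) (z : Xn H), Dmode k z →
      Tendsto (fun t => Tn S D k t (jn z)) (𝓝[>] 0) (𝓝 z) := by
    intro k z hz
    have he : Tendsto (fun t : ℝ => Real.exp (-k ^ 2 * t)) (𝓝[>] 0) (𝓝 1) := by
      have h1 : Continuous fun t : ℝ => Real.exp (-k ^ 2 * t) := by fun_prop
      have h2 := h1.tendsto 0
      rw [mul_zero, Real.exp_zero] at h2
      exact h2.mono_left nhdsWithin_le_nhds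
    have s1 := hS.S_init z.1.1 hz.z1 hz.h1
    have s2 := hS.S_init z.2.1 hz.z2 hz.h2
    have d1 := (hS.D_init z.1.1 z.1.2.1 hz.d1 hz.z1 hz.h1).1
    have d2 := (hS.D_init z.2.1 z.2.2.1 hz.d2 hz.z2 hz.h2).1
    have hz' : z = (1:ℝ) • ((z.1.1, z.1.2.1, |k| • z.1.1), (z.2.1, z.2.2.1, |k| • z.2.1)) := by
      rw [one_smul, ← hz.e1, ← hz.e2]
    have key : Tendsto (fun t => Tn S D k t (jn z)) (𝓝[>] 0)
        (𝓝 ((1:ℝ) • ((z.1.1, z.1.2.1, |k| • z.1.1), (z.2.1, z.2.2.1, |k| • z.2.1)))) := by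
      refine Tendsto.smul he ?_
      exact (s1.prodMk_nhds (d1.prodMk_nhds (s1.const_smul |k|))).prodMk_nhds
        (s2.prodMk_nhds (d2.prodMk_nhds (s2.const_smul |k|)))
    rwa [← hz'] at key
  constructor
  · refine tendsto_L1 (g := fun n => ‖x n‖) (l1_summable x) ?_ (fun n => le_rfl) (fun n => ?_)
    · filter_upwards [hpos] with t ht n
      rw [TT_apply hS ω ht, jL_apply]
      exact hb1 _ _ (hx n) t ht
    · refine (hc1 _ _ (hx n)).congr' ?_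
      filter_upwards [hpos] with t ht
      rw [TT_apply hS ω ht, jL_apply]
  · intro t ht
    rw [one_mul, l1_norm, l1_norm]
    refine Summable.tsum_le_tsum (fun n => ?_) (l1_summable _) (l1_summable x)
    rw [TT_apply hS ω ht.1, jL_apply]
    exact hb1 _ _ (hx n) t ht.1

end

end Pool.Agent.Lib.MP_79abb3_an.P25
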