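import Pool.Agent.Lib.MP_79abb3_an.P25.AbsB
import Pool.Agent.Lib.MP_79abb3_an.P25.OpA
import Pool.Agent.Lib.MP_79abb3_an.P25.SgTT

/-!
MO-11: reality of mild solutions.
-/

set_option autoImplicit false
set_option linter.unusedSectionVars false

open MeasureTheory Set Filter Topology Function

namespace Pool.Agent.Lib.MP_79abb3_an.P25

theorem is_neg (k : ℝ) : is (-k) = -is k := by
  rw [is, is, Real.sign_neg]; push_cast; ring

theorem star_is (k : ℝ) : star (is k) = is (-k) := by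
  rw [is_neg, is, star_mul', Complex.star_def, Complex.conj_I, Complex.conj_ofReal]
  ring

instance prodNSG {E F : Type} [NormedAddCommGroup E] [StarAddMonoid E] [NormedStarGroup E]
    [NormedAddCommGroup F] [StarAddMonoid F] [NormedStarGroup F] : NormedStarGroup (E × F) where
  norm_star_le x := by
    rw [Prod.norm_def, Prod.norm_def, Prod.fst_star, Prod.snd_star, norm_star, norm_star]

section
variable {X Y : Type} [NormedAddCommGroup X] [NormedSpace ℝ X] [CompleteSpace X]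
  [NormedAddCommGroup Y] [NormedSpace ℝ Y] [CompleteSpace Y]

/-- Mild solutions and isometries commuting with all the data: the abstract statement. -/
theorem mild_conj_abs {j : X →L[ℝ] Y} {T : ℝ → (Y →L[ℝ] X)} {B : X →L[ℝ] X →L[ℝ] Y} {C : ℝ}
    (hT : SG j T C) (hB : BilB j B C) {s b M MF : ℝ} (hM : 0 ≤ M) (hsb : b ≤ s + 1)
    {Λ : ℝ → (X →L[ℝ] Y)} {F : ℝ → Y} (hc : Coef j s b M MF Λ F) (cX : X →L[ℝ] X) (cY : Y →L[ℝ] Y)
    (nX : ∀ x, ‖cX x‖ = ‖x‖) (nY : ∀ y, ‖cY y‖ = ‖y‖) (hj : ∀ x, j (cX x) = cY (j x))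
    (hTc : ∀ t y, T t (cY y) = cX (T t y)) (hBc : ∀ x y, B (cX x) (cX y) = cY (B x y))
    (hΛ : ∀ t ∈ Ioc s b, ∀ x, cY (Λ t x) = Λ t (cX x)) (hF : ∀ t ∈ Ioc s b, cY (F t) = F t)
    {u0 : Y} (hu0 : cY u0 = u0) {u : ℝ → X} (h : Mild j T B Λ F s b u0 u) :
    ∀ t ∈ Ioc s b, cX (u t) = u t := by
  obtain ⟨hNc, R1, hR1, hNb⟩ := Mild.rhs hT hB hM hc h
  have hint := (duhamel hT hsb hR1 hNc hNb).1
  have h' : Mild j T B Λ F s b u0 (fun t => cX (u t)) := by
    refine ⟨cX.continuous.comp_continuousOn h.cont, ?_, ?_⟩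
    · obtain ⟨R, hR⟩ := h.bd
      refine ⟨R, fun t ht => ?_⟩
      rw [hj, nX, nY]
      exact hR t ht
    · intro t ht
      have e := congrArg cX (h.eq t ht)
      rw [map_add, ← hTc, hu0,
        ← ContinuousLinearMap.intervalIntegral_comp_comm _ (hint t ht)] at e
      rw [e]
      congr 1
      refine intervalIntegral.integral_congr_ae (Filter.Eventually.of_forall fun r hr => ?_)
      rw [uIoc_of_le ht.1.le] at hr
      have hr' : r ∈ Ioc s b := ⟨hr.1, hr.2.trans ht.2⟩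
      rw [← hTc, map_add cY, map_add cY, ← hBc, hF r hr', hΛ r hr']
  exact fun t ht => (Mild.unique hT hB hsb hc h h' t ht).symm

end

theorem cjSum {E : Type} [NormedAddCommGroup E] [NormedSpace ℝ E] [StarAddMonoid E]
    [NormedStarGroup E] (x : L1 E) :
    Summable fun n : ℤ => ‖star (x (-n))‖ := by
  have h : Summable fun n : ℤ => ‖x (-n)‖ :=
    ((Equiv.neg ℤ).summable_iff (f := fun n : ℤ => ‖x n‖)).2 (l1_summable x)
  exact h.congr fun n => (norm_star _).symm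

theorem cjNorm {E : Type} [NormedAddCommGroup E] [NormedSpace ℝ E] [StarAddMonoid E]
    [NormedStarGroup E] (x : L1 E) :
    ‖(mkL1 (fun n : ℤ => star (x (-n))) (cjSum x) : L1 E)‖ = ‖x‖ := by
  rw [norm_mkL1, l1_norm]
  refine (tsum_congr fun n => norm_star _).trans ?_
  exact (Equiv.neg ℤ).tsum_eq fun n => ‖x n‖

/-- The conjugation `x ↦ (n ↦ star (x (-n)))`. -/
noncomputable def cjL (E : Type) [NormedAddCommGroup E] [NormedSpace ℝ E] [StarAddMonoid E]
    [NormedStarGroup E] [StarModule ℝ E] : L1 E →L[ℝ] L1 E :=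
  LinearMap.mkContinuous
    { toFun := fun x => mkL1 (fun n => star (x (-n))) (cjSum x)
      map_add' := fun x y => lp.ext (funext fun n => star_add (x (-n)) (y (-n)))
      map_smul' := fun c x => lp.ext (funext fun n => star_smul c (x (-n))) } 1 (fun x => by
      rw [one_mul]
      exact (cjNorm x).le)

section
variable {E : Type} [NormedAddCommGroup E] [NormedSpace ℝ E] [StarAddMonoid E]
    [NormedStarGroup E] [StarModule ℝ E]

@[simp] theorem cjL_apply (x : L1 E) (n : ℤ) : cjL E x n = star (x (-n)) := rfl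

theorem norm_cjL (x : L1 E) : ‖cjL E x‖ = ‖x‖ := by
  rw [l1_norm, l1_norm]
  simp only [cjL_apply, norm_star]
  exact (Equiv.neg ℤ).tsum_eq fun n => ‖x n‖

theorem cjL_eq_iff (x : L1 E) : cjL E x = x ↔ Sy (x : ℤ → E) := by
  constructor
  · intro h n
    have := congrArg (fun z : L1 E => z (-n)) h
    simp only [cjL_apply, neg_neg] at this
    exact this.symm
  · intro h
    ext n
    rw [cjL_apply, h n, star_star]

end

section
variable {H : ℝ} [hH : Fact (0 < H)]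

theorem Eop_neg (k : ℝ) (f : CI H) : Eop (-k) f = Eop k f :=
  ci_ext fun z hz => by rw [Eop_apply _ f hz, Eop_apply _ f hz, abs_neg]

theorem Top_neg (k : ℝ) (f : CI H) : Top (-k) f = Top k f :=
  ci_ext fun z hz => by rw [Top_apply _ f hz, Top_apply _ f hz, abs_neg]

theorem om_star (k : ℝ) (y : Yn H) : om (-k) (star y) = star (om k y) := by
  rw [om, om, star_sub, star_neg, star_smul, star_mul', star_is, Prod.fst_star, Prod.snd_star,
    Eop_neg, Eop_neg, Eop_star, Eop_star, abs_neg]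
  congr 3
  rw [Complex.star_def, Complex.conj_ofReal]

theorem vv_star (k : ℝ) (y : Yn H) : vv (-k) (star y) = star (vv k y) := by
  rw [vv, vv, star_sub, star_smul, star_is, om_star, Prod.snd_star]

theorem Om_star (k : ℝ) (x : Xn H) : Om (-k) (star x) = star (Om k x) := by
  rw [Om, Om, star_sub, star_add, star_neg, star_smul, star_is]
  rfl

theorem jn_star (x : Xn H) : jn (star x) = star (jn x) := rfl

theorem conv_star {a b a' b' : ℤ → CI H} (ha : ∀ m, a' m = star (a (-m)))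
    (hb : ∀ m, b' m = star (b (-m))) (n : ℤ) : conv a' b' n = star (conv a b (-n)) := by
  rw [conv, conv, tsum_star, ← (Equiv.neg ℤ).tsum_eq]
  refine tsum_congr fun m => ?_
  rw [ha, hb, star_mul', Equiv.neg_apply, neg_neg]
  congr 3
  ring

theorem N0_star (ω : ℝ) {x y x' y' : ℤ → Xn H} (hx : ∀ m, x' m = star (x (-m)))
    (hy : ∀ m, y' m = star (y (-m))) (n : ℤ) : N0 ω x' y' n = star (N0 ω x y (-n)) := by
  have hc : ∀ m : ℤ, ω * ((-m : ℤ) : ℝ) = -(ω * m) := fun m => by push_cast; ring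
  rw [N0, N0, star_add, star_add]
  congr 1
  · congr 1
    · refine conv_star (fun m => ?_) (fun m => ?_) n
      · rw [hx, jn_star, hc, ← vv_star, neg_neg]
      · rw [hy, hc, star_smul, star_is, neg_neg]; rfl
    · refine conv_star (fun m => ?_) (fun m => ?_) n
      · rw [hx, jn_star, hc, ← om_star, neg_neg]
      · rw [hy]; rfl
  · refine conv_star (fun m => ?_) (fun m => ?_) n
    · rw [hx]; rfl
    · rw [hy]; rfl

theorem N1_star (ω : ℝ) {x y x' y' : ℤ → Xn H} (hx : ∀ m, x' m = star (x (-m)))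
    (hy : ∀ m, y' m = star (y (-m))) (n : ℤ) : N1 ω x' y' n = star (N1 ω x y (-n)) := by
  have hc : ∀ m : ℤ, ω * ((-m : ℤ) : ℝ) = -(ω * m) := fun m => by push_cast; ring
  rw [N1, N1, star_neg]
  congr 1
  refine conv_star (fun m => ?_) (fun m => ?_) n
  · rw [hx, hc, ← Om_star, neg_neg]
  · rw [hy, jn_star, hc, ← om_star, neg_neg]

theorem N2_star (ω : ℝ) {x y x' y' : ℤ → Xn H} (hx : ∀ m, x' m = star (x (-m)))
    (hy : ∀ m, y' m = star (y (-m))) (n : ℤ) : N2 ω x' y' n = star (N2 ω x y (-n)) := by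
  have hc : ∀ m : ℤ, ω * ((-m : ℤ) : ℝ) = -(ω * m) := fun m => by push_cast; ring
  rw [N2, N2]
  refine conv_star (fun m => ?_) (fun m => ?_) n
  · rw [hx, hc, ← Om_star, neg_neg]
  · rw [hy, jn_star, hc, ← vv_star, neg_neg]

theorem Rν_star (k : ℝ) (n0 n1 n2 : CI H) :
    Rν (-k) (star n0) (star n1) (star n2) = star (Rν k n0 n1 n2) := by
  rw [Rν, Rν, star_sub, star_sub, star_add, star_neg, star_smul, star_smul, star_smul, star_is,
    Top_neg, Top_neg, Top_neg, Top_star, Top_star, Top_star, abs_neg]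
  congr 3
  rw [star_mul', Complex.star_def, Complex.conj_I, Complex.conj_ofReal]
  push_cast
  ring

theorem Bf_star (ω : ℝ) {x y x' y' : ℤ → Xn H} (hx : ∀ m, x' m = star (x (-m)))
    (hy : ∀ m, y' m = star (y (-m))) (n : ℤ) : Bf ω x' y' n = star (Bf ω x y (-n)) := by
  have hc : ω * (n : ℝ) = -(ω * ((-n : ℤ) : ℝ)) := by push_cast; ring
  rw [Bf, Bf, N0_star ω hx hy, N1_star ω hx hy, N2_star ω hx hy, hc, Rν_star]
  refine Prod.ext ?_ rfl
  exact (star_neg _).symm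

theorem star_rsmul_CI (c : ℝ) (f : CI H) : star (c • f) = c • star f :=
  ci_ext fun z hz => by
    rw [ex_star, ex_rsmul, ex_rsmul, ex_star, star_mul', Complex.star_def, Complex.conj_ofReal]

theorem star_rsmul_Yn (c : ℝ) (y : Yn H) : star (c • y) = c • star y :=
  Prod.ext (star_rsmul_CI c y.1) (star_rsmul_CI c y.2)

theorem star_rsmul_Xn (c : ℝ) (x : Xn H) : star (c • x) = c • star x :=
  Prod.ext (Prod.ext (star_rsmul_CI c x.1.1) (Prod.ext (star_rsmul_CI c x.1.2.1)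
    (star_rsmul_CI c x.1.2.2))) (Prod.ext (star_rsmul_CI c x.2.1)
    (Prod.ext (star_rsmul_CI c x.2.2.1) (star_rsmul_CI c x.2.2.2)))

theorem B_cj {ω : ℝ} {W : ℤ → ℝ} (hWs : ∀ n, W (-n) = W n)
    {B : L1 (Xn H) →L[ℝ] L1 (Xn H) →L[ℝ] L1 (Yn H)} (hBW : IsBW ω W B) (x y : L1 (Xn H)) :
    B (cjL _ x) (cjL _ y) = cjL _ (B x y) := by
  refine lp.ext (funext fun n => ?_)
  rw [hBW, cjL_apply, hBW, hWs, star_rsmul_Yn]
  rw [Bf_star (x := fun m => (W m)⁻¹ • x m) (y := fun m => (W m)⁻¹ • y m)]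
  · intro m
    rw [cjL_apply, star_rsmul_Xn, hWs]
  · intro m
    rw [cjL_apply, star_rsmul_Xn, hWs]

theorem Tn_star {S D A : ℝ → (CI H →L[ℂ] CI H)} (hS : DirSG H S D A) (k : ℝ) {t : ℝ} (ht : 0 < t)
    (y : Yn H) : Tn S D (-k) t (star y) = star (Tn S D k t y) := by
  rw [Tn, Tn, neg_sq]
  simp only [Prod.smul_mk, Prod.star_def, hS.S_star t ht, hS.D_star t ht, abs_neg, star_rsmul_CI]

theorem TT_cj {S D A : ℝ → (CI H →L[ℂ] CI H)} (hS : DirSG H S D A) (ω t : ℝ) (y : L1 (Yn H)) :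
    TT hS ω t (cjL _ y) = cjL _ (TT hS ω t y) := by
  by_cases ht : 0 < t
  · refine lp.ext (funext fun n => ?_)
    rw [TT_apply hS ω ht, cjL_apply, cjL_apply, TT_apply hS ω ht, ← Tn_star hS _ ht]
    congr 1
    push_cast
    ring
  · rw [TT, dif_neg ht]
    exact (map_zero (cjL (Xn H))).symm

theorem jL_cj (x : L1 (Xn H)) : jL H (cjL _ x) = cjL _ (jL H x) := by
  refine lp.ext (funext fun n => ?_)
  rfl

theorem completeSpace_L1_sym {E : Type} [NormedAddCommGroup E] [NormedSpace ℝ E]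
    [CompleteSpace E] : CompleteSpace (L1 E) := inferInstance

/-! MO-11: reality. -/

theorem Mild.sym {S D A : ℝ → (CI H →L[ℂ] CI H)} (hS : DirSG H S D A) {ω C : ℝ} {W : ℤ → ℝ}
    (hWs : ∀ n, W (-n) = W n) {B : L1 (Xn H) →L[ℝ] L1 (Xn H) →L[ℝ] L1 (Yn H)} (hBW : IsBW ω W B)
    (hB : BilB (jL H) B C) (hC : 1 ≤ C) {s b M MF : ℝ} (hM : 0 ≤ M) (hsb : b ≤ s + 1)
    {U : ℝ → L1 (Xn H)} {F : ℝ → L1 (Yn H)} (hc : Coef (jL H) s b M MF (lamU B U) F)
    (hU : ∀ t ∈ Ioc s b, Sy (U t)) (hF : ∀ t ∈ Ioc s b, Sy (F t))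
    {u0 : L1 (Yn H)} (hu0 : Sy u0) {u : ℝ → L1 (Xn H)}
    (h : Mild (jL H) (TT hS ω) B (lamU B U) F s b u0 u) : ∀ t ∈ Ioc s b, Sy (u t) := by
  have hXc : CompleteSpace (L1 (Xn H)) := completeSpace_L1_sym
  have hYc : CompleteSpace (L1 (Yn H)) := completeSpace_L1_sym
  refine fun t ht => (cjL_eq_iff (u t)).1 (mild_conj_abs (sg_TT hS ω hC) hB hM hsb hc (cjL (Xn H))
    (cjL (Yn H)) norm_cjL norm_cjL jL_cj (TT_cj hS ω) (B_cj hWs hBW) (fun r hr x => ?_)
    (fun r hr => (cjL_eq_iff (F r)).2 (hF r hr)) ((cjL_eq_iff u0).2 hu0) h t ht)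
  have hUr : cjL (Xn H) (U r) = U r := (cjL_eq_iff (U r)).2 (hU r hr)
  have h1 := B_cj hWs hBW (U r) x
  have h2 := B_cj hWs hBW x (U r)
  rw [hUr] at h1 h2
  exact (map_add (cjL (Yn H)) (B (U r) x) (B x (U r))).trans (congrArg₂ (· + ·) h1.symm h2.symm)

end

end Pool.Agent.Lib.MP_79abb3_an.P25
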