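import Pool.Agent.Lib.MP_79abb3_an.P25.Modes

/-!
Trajectories of the mode system in integrated form.
-/

set_option autoImplicit false
set_option linter.unusedSectionVars false

open MeasureTheory Set Filter Topology Function

namespace Pool.Agent.Lib.MP_79abb3_an.P25

section
variable {H : ℝ} [hH : Fact (0 < H)]

/-- A mode whose entries are compatible, with value zero at `z = 0`. -/
structure Cmode (k : ℝ) (x : Xn H) : Prop where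
  d1 : IsD x.1.1 x.1.2.1
  d2 : IsD x.2.1 x.2.2.1
  e1 : x.1.2.2 = |k| • x.1.1
  e2 : x.2.2.2 = |k| • x.2.1
  z1 : ex x.1.1 0 = 0
  z2 : ex x.2.1 0 = 0

theorem Dmode.cmode {k : ℝ} {x : Xn H} (h : Dmode k x) : Cmode k x :=
  ⟨h.d1, h.d2, h.e1, h.e2, h.z1, h.z2⟩

/-- Primitive from `0`. -/
noncomputable def prim (f : CI H) (y : ℝ) : ℂ := ∫ z in (0:ℝ)..y, ex f z

/-- `∫₀^y (f_zz - k² f + n)`, with `f1 = f_z`. -/
noncomputable def rh (k : ℝ) (f f1 n : CI H) (y : ℝ) : ℂ :=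
  ex f1 y - ex f1 0 - ((k ^ 2 : ℝ) : ℂ) * prim f y + prim n y

/-- `u` solves `∂_t u_n = (∂_z² - (ω n)²) u_n + G_n + (P, 0) δ_{n0}` on `[a,b]`, once integrated in
`z` and in `t`. -/
structure LT (ω a b : ℝ) (J : Set ℝ) (P : ℝ → ℝ) (G : ℝ → ℤ → Yn H) (u : ℝ → L1 (Xn H)) : Prop where
  count : J.Countable
  cY : ContinuousOn (fun t => jL H (u t)) (Icc a b)
  cX : ContinuousOn u (Icc a b \ J)
  cP : ContinuousOn P (Icc a b \ J)
  cG : ∀ n, ContinuousOn (fun t => G t n) (Icc a b \ J)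
  bd : ∃ R, ∀ t ∈ Icc a b \ J, |P t| ≤ R ∧ ‖u t‖ ≤ R ∧ ∀ n, ‖G t n‖ ≤ R
  cm : ∀ t ∈ Icc a b \ J, ∀ n : ℤ, Cmode (ω * n) (u t n)
  z : ∀ t ∈ Icc a b, ∀ n, ex (u t n).1.1 0 = 0 ∧ ex (u t n).2.1 0 = 0
  sy : ∀ t ∈ Icc a b, Sy (fun n => jn (u t n))
  eq : ∀ n : ℤ, ∀ y ∈ Icc (0:ℝ) H, ∀ t1 ∈ Icc a b, ∀ t2 ∈ Icc t1 b,
    prim (u t2 n).1.1 y - prim (u t1 n).1.1 y =
      ∫ s in t1..t2, (rh (ω * n) (u s n).1.1 (u s n).1.2.1 (G s n).1 y +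
        if n = 0 then ((P s * y : ℝ) : ℂ) else 0)
  eq' : ∀ n : ℤ, ∀ y ∈ Icc (0:ℝ) H, ∀ t1 ∈ Icc a b, ∀ t2 ∈ Icc t1 b,
    prim (u t2 n).2.1 y - prim (u t1 n).2.1 y =
      ∫ s in t1..t2, rh (ω * n) (u s n).2.1 (u s n).2.2.1 (G s n).2 y

/-- A trajectory of the nonlinear mode system. -/
def Traj (ω a b : ℝ) (J : Set ℝ) (P : ℝ → ℝ) (u : ℝ → L1 (Xn H)) : Prop :=
  LT ω a b J P (fun t => Bf ω (u t) (u t)) u

/-- The right hand side for a perturbation `u` of a background `U`, with forcing `F`. -/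
noncomputable def src (ω : ℝ) (U u : ℝ → L1 (Xn H)) (F : ℝ → L1 (Yn H)) (t : ℝ) (n : ℤ) : Yn H :=
  Bf ω (U t) (u t) n + Bf ω (u t) (U t) n + Bf ω (u t) (u t) n + F t n

/-- A perturbation `u` of the background `U`, with zero Dirichlet conditions. -/
structure PT (ω a b : ℝ) (U : ℝ → L1 (Xn H)) (F : ℝ → L1 (Yn H)) (u : ℝ → L1 (Xn H)) : Prop where
  lt : LT ω a b ∅ (fun _ => 0) (src ω U u F) u
  dm : ∀ t ∈ Icc a b, ∀ n : ℤ, Dmode (ω * n) (u t n)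
  sy : ∀ t ∈ Icc a b, Sy (u t)

/-- The family with the single mode `n = 0`, `(g, 0)`. -/
noncomputable def U0 (g g1 : CI H) : L1 (Xn H) := lp.single 1 (0:ℤ) (((g, g1, 0), (0, 0, 0)) : Xn H)

end

end Pool.Agent.Lib.MP_79abb3_an.P25
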