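import Pool.Agent.Lib.MP_79abb3_an.P25.Fld
import Pool.Agent.Lib.MP_79abb3_an.P25.SymA
import Pool.Agent.Lib.MP_79abb3_an.P25.TrajDef

/-!
FD-2: fields at a fixed time.
-/

set_option autoImplicit false
set_option linter.unusedSectionVars false

attribute [-instance] PreLp.ring SubfieldClass.toSubringClass SubringClass.toSubsemiringClass
  NonUnitalSubringClass.toNonUnitalSubsemiringClass RingConeClass.toSubsemiringClass
  SubsemiringClass.nonUnitalSubsemiringClass SubringClass.nonUnitalSubringClass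
  AddSubgroup.seminormedAddCommGroup SetLike.GradeZero.instSemiring SetLike.GradeZero.instCommRing
  SetLike.GradeZero.instCommSemiring SetLike.GradeZero.instRing LieAdmissibleAlgebra.toModule
  RightPreLieAlgebra.toModule LeftPreLieAlgebra.toModule

open MeasureTheory Set Filter Topology Function

namespace Pool.Agent.Lib.MP_79abb3_an.P25

section
variable {H : ℝ} [hH : Fact (0 < H)]

/-- `vv k` as a continuous linear map. -/
noncomputable def vvL (H : ℝ) [Fact (0 < H)] (k : ℝ) : Yn H →L[ℝ] CI H :=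
  LinearMap.mkContinuous
    { toFun := vv k
      map_add' := vv_add k
      map_smul' := fun c y => vv_smul k c y } (H + 2) (norm_vv_le k)

@[simp] theorem vvL_apply (k : ℝ) (y : Yn H) : vvL H k y = vv k y := rfl

/-- `om k` as a continuous linear map. -/
noncomputable def omL (H : ℝ) [Fact (0 < H)] (k : ℝ) : Yn H →L[ℝ] CI H :=
  LinearMap.mkContinuous
    { toFun := om k
      map_add' := om_add k
      map_smul' := fun c y => om_smul k c y } (H + 1) (norm_om_le k)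

@[simp] theorem omL_apply (k : ℝ) (y : Yn H) : omL H k y = om k y := rfl

theorem mv_cont (ω : ℝ) : ∃ A : L1 (Yn H) →L[ℝ] L1 (CI H), ∀ (x : L1 (Xn H)) (n : ℤ),
    A (jL H x) n = mv ω x n :=
  ⟨diagL (fun n : ℤ => vvL H (ω * n)) (H + 2) (fun n y => norm_vv_le (ω * n) y),
    fun x n => by rw [diagL_apply, jL_apply, vvL_apply, mv]⟩

theorem mw_cont (ω : ℝ) : ∃ A : L1 (Yn H) →L[ℝ] L1 (CI H), ∀ (x : L1 (Xn H)) (n : ℤ),
    A (jL H x) n = mw ω x n :=
  ⟨diagL (fun n : ℤ => omL H (ω * n)) (H + 1) (fun n y => norm_om_le (ω * n) y),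
    fun x n => by rw [diagL_apply, jL_apply, omL_apply, mw]⟩

theorem IsD.unique {f f1 f2 : CI H} (h1 : IsD f f1) (h2 : IsD f f2) : f1 = f2 :=
  ci_ext fun z hz => (uniqueDiffOn_Icc hH.out z hz).eq_deriv _ (h1 z hz) (h2 z hz)

theorem om_neg_int (ω : ℝ) (n : ℤ) : ω * ((-n : ℤ) : ℝ) = -(ω * n) := by push_cast; ring

/-- Reality of the derivatives. -/
theorem sy_of_cmode {ω : ℝ} {x : L1 (Xn H)} (hc : ∀ n : ℤ, Cmode (ω * n) (x n))
    (hs : Sy fun n => jn (x n)) : Sy x := by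
  intro n
  have h := hs n
  have h1 : (x (-n)).1.1 = star (x n).1.1 := congrArg Prod.fst h
  have h2 : (x (-n)).2.1 = star (x n).2.1 := congrArg Prod.snd h
  have h3 : (x (-n)).1.2.1 = star (x n).1.2.1 := by
    have h4 := (hc (-n)).d1
    rw [h1] at h4
    exact h4.unique (hc n).d1.star
  have h4 : (x (-n)).2.2.1 = star (x n).2.2.1 := by
    have h4 := (hc (-n)).d2
    rw [h2] at h4
    exact h4.unique (hc n).d2.star
  have h5 : (x (-n)).1.2.2 = star (x n).1.2.2 := by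
    rw [(hc (-n)).e1, (hc n).e1, h1, star_rsmul_CI, om_neg_int, abs_neg]
  have h6 : (x (-n)).2.2.2 = star (x n).2.2.2 := by
    rw [(hc (-n)).e2, (hc n).e2, h2, star_rsmul_CI, om_neg_int, abs_neg]
  exact Prod.ext (Prod.ext h1 (Prod.ext h3 h5)) (Prod.ext h2 (Prod.ext h4 h6))

/-! ### One mode -/

/-- `∂_z` of the vertical velocity of a mode. -/
noncomputable def om1 (k : ℝ) (x : Xn H) : CI H :=
  -(x.1.1 - |k| • Eop k x.1.1) - (is k * ((|k| : ℝ) : ℂ)) • (x.2.1 - |k| • Eop k x.2.1)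

/-- `∂_z` of the horizontal velocity of a mode. -/
noncomputable def vv1 (k : ℝ) (x : Xn H) : CI H := x.2.2.1 - is k • om1 k x

theorem IsD.neg {f f1 : CI H} (h : IsD f f1) : IsD (-f) (-f1) := fun z hz => (h z hz).neg

theorem IsD.fa_csmul (c : ℂ) {f f1 : CI H} (h : IsD f f1) : IsD (c • f) (c • f1) :=
  fun z hz => (h z hz).const_mul c

theorem om_isD (k : ℝ) (x : Xn H) : IsD (om k (jn x)) (om1 k x) :=
  (Eop_isD k x.1.1).neg.sub ((Eop_isD k x.2.1).fa_csmul _)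

theorem vv_isD {k : ℝ} {x : Xn H} (h : Cmode k x) : IsD (vv k (jn x)) (vv1 k x) :=
  h.d2.sub ((om_isD k x).fa_csmul _)

theorem is_sq_mul (k : ℝ) : is k * is k * ((|k| : ℝ) : ℂ) = -((|k| : ℝ) : ℂ) := by
  rcases lt_trichotomy k 0 with h | h | h
  · rw [is, Real.sign_of_neg h]
    have := Complex.I_mul_I
    push_cast
    linear_combination ((|k| : ℝ) : ℂ) * this
  · rw [h]; simp
  · rw [is, Real.sign_of_pos h]
    have := Complex.I_mul_I
    push_cast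
    linear_combination ((|k| : ℝ) : ℂ) * this

theorem mode_div (k : ℝ) (x : Xn H) :
    is k • (|k| • vv k (jn x)) + om1 k x = -x.1.1 := by
  refine ci_ext fun z _ => ?_
  have h := is_sq_mul k
  simp only [om1, vv, om, jn, ex_add, ex_sub, ex_neg, ex_smul, ex_rsmul]
  linear_combination (ex (Eop k x.1.1) z + is k * ((|k| : ℝ) : ℂ) * ex (Eop k x.2.1) z) * h

theorem mode_vor {k : ℝ} {x : Xn H} (hx : Cmode k x) :
    Om k x = is k • (|k| • om k (jn x)) + -vv1 k x := by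
  refine ci_ext fun z _ => ?_
  have h := is_sq_mul k
  simp only [Om, om1, vv1, om, jn, hx.e2, ex_add, ex_sub, ex_neg, ex_smul, ex_rsmul]
  linear_combination (ex x.2.1 z) * h

theorem n11 (x : Xn H) : ‖x.1.1‖ ≤ ‖x‖ := (norm_fst_le _).trans (norm_fst_le x)
theorem n121 (x : Xn H) : ‖x.1.2.1‖ ≤ ‖x‖ :=
  (norm_fst_le _).trans ((norm_snd_le _).trans (norm_fst_le x))
theorem n122 (x : Xn H) : ‖x.1.2.2‖ ≤ ‖x‖ :=
  (norm_snd_le _).trans ((norm_snd_le _).trans (norm_fst_le x))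
theorem n21 (x : Xn H) : ‖x.2.1‖ ≤ ‖x‖ := (norm_fst_le _).trans (norm_snd_le x)
theorem n221 (x : Xn H) : ‖x.2.2.1‖ ≤ ‖x‖ :=
  (norm_fst_le _).trans ((norm_snd_le _).trans (norm_snd_le x))
theorem n222 (x : Xn H) : ‖x.2.2.2‖ ≤ ‖x‖ :=
  (norm_snd_le _).trans ((norm_snd_le _).trans (norm_snd_le x))

theorem norm_is_smul_le (k : ℝ) (f : CI H) : ‖is k • f‖ ≤ ‖f‖ := by
  rw [norm_smul]
  exact mul_le_of_le_one_left (norm_nonneg _) (norm_is_le k)

theorem norm_abs_smul (k : ℝ) (f : CI H) : ‖|k| • f‖ = |k| * ‖f‖ := by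
  rw [norm_smul, Real.norm_eq_abs, abs_abs]

theorem norm_isabs_smul_le (k : ℝ) (f : CI H) : ‖(is k * ((|k| : ℝ) : ℂ)) • f‖ ≤ |k| * ‖f‖ := by
  rw [norm_smul, norm_mul, Complex.norm_real, Real.norm_eq_abs, abs_abs, mul_assoc]
  exact mul_le_of_le_one_left (by positivity) (norm_is_le k)

theorem abs_mul_norm_om {k : ℝ} {x : Xn H} (hx : Cmode k x) : |k| * ‖om k (jn x)‖ ≤ 2 * ‖x‖ := by
  have h1 := norm_kEop_le k x.1.1
  have h2 := norm_kEop_le k x.2.1
  have h3 := n11 x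
  have h4 := n222 x
  rw [hx.e2, norm_abs_smul] at h4
  have h5 := norm_isabs_smul_le k (Eop k x.2.1)
  have h6 : ‖om k (jn x)‖ ≤ ‖Eop k x.1.1‖ + |k| * ‖Eop k x.2.1‖ := by
    calc ‖om k (jn x)‖ ≤ ‖-(Eop k x.1.1)‖ + ‖(is k * ((|k| : ℝ) : ℂ)) • Eop k x.2.1‖ := norm_sub_le _ _
      _ ≤ _ := by rw [norm_neg]; gcongr
  have h7 := abs_nonneg k
  calc |k| * ‖om k (jn x)‖ ≤ |k| * (‖Eop k x.1.1‖ + |k| * ‖Eop k x.2.1‖) := by gcongr
    _ = |k| * ‖Eop k x.1.1‖ + |k| * (|k| * ‖Eop k x.2.1‖) := by ring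
    _ ≤ ‖x.1.1‖ + |k| * ‖x.2.1‖ := by gcongr
    _ ≤ 2 * ‖x‖ := by linarith

theorem norm_om1_le {k : ℝ} {x : Xn H} (hx : Cmode k x) : ‖om1 k x‖ ≤ 4 * ‖x‖ := by
  have h1 := norm_kEop_le k x.1.1
  have h2 := norm_kEop_le k x.2.1
  have h3 := n11 x
  have h4 := n222 x
  rw [hx.e2, norm_abs_smul] at h4
  have h7 := abs_nonneg k
  have h8 : ‖x.1.1 - |k| • Eop k x.1.1‖ ≤ 2 * ‖x‖ := by
    calc _ ≤ ‖x.1.1‖ + ‖|k| • Eop k x.1.1‖ := norm_sub_le _ _
      _ ≤ _ := by rw [norm_abs_smul]; linarith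
  have h9 : ‖(is k * ((|k| : ℝ) : ℂ)) • (x.2.1 - |k| • Eop k x.2.1)‖ ≤ 2 * ‖x‖ := by
    calc _ ≤ |k| * ‖x.2.1 - |k| • Eop k x.2.1‖ := norm_isabs_smul_le _ _
      _ ≤ |k| * (‖x.2.1‖ + ‖|k| • Eop k x.2.1‖) := by gcongr; exact norm_sub_le _ _
      _ = |k| * ‖x.2.1‖ + |k| * (|k| * ‖Eop k x.2.1‖) := by rw [norm_abs_smul]; ring
      _ ≤ |k| * ‖x.2.1‖ + |k| * ‖x.2.1‖ := by gcongr
      _ ≤ 2 * ‖x‖ := by linarith
  calc ‖om1 k x‖ ≤ ‖-(x.1.1 - |k| • Eop k x.1.1)‖ +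
        ‖(is k * ((|k| : ℝ) : ℂ)) • (x.2.1 - |k| • Eop k x.2.1)‖ := norm_sub_le _ _
    _ ≤ _ := by rw [norm_neg]; linarith

theorem abs_mul_norm_vv {k : ℝ} {x : Xn H} (hx : Cmode k x) : |k| * ‖vv k (jn x)‖ ≤ 3 * ‖x‖ := by
  have h1 := abs_mul_norm_om hx
  have h4 := n222 x
  rw [hx.e2, norm_abs_smul] at h4
  have h7 := abs_nonneg k
  have h5 : ‖vv k (jn x)‖ ≤ ‖x.2.1‖ + ‖om k (jn x)‖ := by
    calc ‖vv k (jn x)‖ ≤ ‖x.2.1‖ + ‖is k • om k (jn x)‖ := norm_sub_le _ _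
      _ ≤ _ := by gcongr; exact norm_is_smul_le _ _
  calc |k| * ‖vv k (jn x)‖ ≤ |k| * (‖x.2.1‖ + ‖om k (jn x)‖) := by gcongr
    _ = |k| * ‖x.2.1‖ + |k| * ‖om k (jn x)‖ := by ring
    _ ≤ 3 * ‖x‖ := by linarith

theorem norm_vv1_le {k : ℝ} {x : Xn H} (hx : Cmode k x) : ‖vv1 k x‖ ≤ 5 * ‖x‖ := by
  have h1 := norm_om1_le hx
  have h2 := n221 x
  calc ‖vv1 k x‖ ≤ ‖x.2.2.1‖ + ‖is k • om1 k x‖ := norm_sub_le _ _
    _ ≤ ‖x.2.2.1‖ + ‖om1 k x‖ := by gcongr; exact norm_is_smul_le _ _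
    _ ≤ _ := by linarith

/-! ### Families -/

theorem sum_le_of {E F : Type} [NormedAddCommGroup E] [NormedSpace ℝ E] [NormedAddCommGroup F] (x : L1 E) {a : ℤ → F}
    {C : ℝ} (h : ∀ n, ‖a n‖ ≤ C * ‖x n‖) : (Summable fun n => ‖a n‖) ∧ ∑' n, ‖a n‖ ≤ C * ‖x‖ := by
  have h1 := (l1_summable x).mul_left C
  have h2 : Summable fun n => ‖a n‖ := Summable.of_nonneg_of_le (fun n => norm_nonneg _) h h1
  refine ⟨h2, ?_⟩
  rw [l1_norm, ← tsum_mul_left]
  exact Summable.tsum_le_tsum h h2 h1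

theorem fld_good (ω : ℝ) (x : L1 (Xn H)) {a : ℤ → CI H} {C : ℝ} (h : ∀ n, ‖a n‖ ≤ C * ‖x n‖) :
    ContinuousOn (uncurry (fld ω a)) (univ ×ˢ Icc 0 H) ∧ ∀ y, ∀ z ∈ Icc 0 H, |fld ω a y z| ≤ C * ‖x‖ := by
  obtain ⟨h1, h2⟩ := sum_le_of x h
  exact ⟨(fld_cont h1).continuousOn, fun y z _ => (fld_abs_le h1 y z).trans h2⟩

theorem fld_zero_of (ω : ℝ) {a : ℤ → CI H} {z : ℝ} (h : ∀ n, ex (a n) z = 0) (y : ℝ) :
    fld ω a y z = 0 := by
  rw [fld]
  simp only [h, zero_mul, tsum_zero, Complex.zero_re]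

/-- All fields at a fixed time. -/
theorem fieldAt (H : ℝ) [Fact (0 < H)] : ∃ C0 : ℝ, 0 ≤ C0 ∧ ∀ (ω : ℝ) (x : L1 (Xn H)),
    (∀ n : ℤ, Cmode (ω * n) (x n)) → Sy x → ∃ vy vz wy wz : ℝ → ℝ → ℝ,
      FieldAt H (C0 * ‖x‖) (fld ω (m1 x)) (fld ω (m1y ω x)) (fld ω (m1z x)) (fld ω (mv ω x)) vy vz
        (fld ω (mw ω x)) wy wz (fld ω (mO ω x)) := by
  have hH0 : 0 < H := Fact.out
  refine ⟨H + 5, by linarith, fun ω x hc _ => ?_⟩
  let avy : ℤ → CI H := fun n => is (ω * n) • (|ω * n| • mv ω x n)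
  let avz : ℤ → CI H := fun n => vv1 (ω * n) (x n)
  let awy : ℤ → CI H := fun n => is (ω * n) • (|ω * n| • mw ω x n)
  let awz : ℤ → CI H := fun n => om1 (ω * n) (x n)
  have hup : ∀ {c : ℝ}, c ≤ H + 5 → ∀ {a : ℤ → CI H}, (∀ n, ‖a n‖ ≤ c * ‖x n‖) →
      ∀ n, ‖a n‖ ≤ (H + 5) * ‖x n‖ := fun {c} hcc {a} h n => (h n).trans (by gcongr)
  have b1 : ∀ n, ‖m1 x n‖ ≤ (H + 5) * ‖x n‖ := hup (c := 1) (by linarith) fun n => by
    rw [one_mul]; exact n11 (x n)
  have b2 : ∀ n, ‖m1y ω x n‖ ≤ (H + 5) * ‖x n‖ := hup (c := 1) (by linarith) fun n => by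
    rw [one_mul]; exact (norm_is_smul_le _ _).trans (n122 (x n))
  have b3 : ∀ n, ‖m1z x n‖ ≤ (H + 5) * ‖x n‖ := hup (c := 1) (by linarith) fun n => by
    rw [one_mul]; exact n121 (x n)
  have b4 : ∀ n, ‖mv ω x n‖ ≤ (H + 5) * ‖x n‖ := hup (c := H + 2) (by linarith) fun n =>
    (norm_vv_le _ _).trans (by gcongr; exact norm_jn_le _)
  have b5 : ∀ n, ‖avy n‖ ≤ (H + 5) * ‖x n‖ := hup (c := 3) (by linarith) fun n =>
    (norm_is_smul_le _ _).trans (by rw [norm_abs_smul]; exact abs_mul_norm_vv (hc n))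
  have b6 : ∀ n, ‖avz n‖ ≤ (H + 5) * ‖x n‖ := hup (c := 5) (by linarith) fun n =>
    norm_vv1_le (hc n)
  have b7 : ∀ n, ‖mw ω x n‖ ≤ (H + 5) * ‖x n‖ := hup (c := H + 1) (by linarith) fun n =>
    (norm_om_le _ _).trans (by gcongr; exact norm_jn_le _)
  have b8 : ∀ n, ‖awy n‖ ≤ (H + 5) * ‖x n‖ := hup (c := 2) (by linarith) fun n =>
    (norm_is_smul_le _ _).trans (by rw [norm_abs_smul]; exact abs_mul_norm_om (hc n))
  have b9 : ∀ n, ‖awz n‖ ≤ (H + 5) * ‖x n‖ := hup (c := 4) (by linarith) fun n =>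
    norm_om1_le (hc n)
  have b10 : ∀ n, ‖mO ω x n‖ ≤ (H + 5) * ‖x n‖ := hup (c := 3) (by linarith) fun n =>
    norm_Om_le _ _
  have s1 := (sum_le_of x b1).1
  have s2 := (sum_le_of x b2).1
  have s3 := (sum_le_of x b3).1
  have s4 := (sum_le_of x b4).1
  have s5 := (sum_le_of x b5).1
  have s6 := (sum_le_of x b6).1
  have s7 := (sum_le_of x b7).1
  have s8 := (sum_le_of x b8).1
  have s9 := (sum_le_of x b9).1
  have e1 : (fun n : ℤ => is (ω * n) • (|ω * n| • m1 x n)) = m1y ω x := by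
    funext n
    rw [m1y, (hc n).e1, m1]
  refine ⟨fld ω avy, fld ω avz, fld ω awy, fld ω awz, ?_, ?_, ?_, ?_, ?_, ?_, ?_, ?_, ?_, ?_⟩
  · intro f hf
    simp only [mem_insert_iff, mem_singleton_iff] at hf
    rcases hf with rfl | rfl | rfl | rfl | rfl | rfl | rfl | rfl | rfl | rfl
    · exact fld_good ω x b1
    · exact fld_good ω x b2
    · exact fld_good ω x b3
    · exact fld_good ω x b4
    · exact fld_good ω x b5
    · exact fld_good ω x b6
    · exact fld_good ω x b7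
    · exact fld_good ω x b8
    · exact fld_good ω x b9
    · exact fld_good ω x b10
  · intro y z _
    rw [← e1]
    refine fld_dy s1 ?_ y z
    refine (sum_le_of x (a := fun n => (x n).1.2.2) (C := 1) fun n => ?_).1.congr fun n => ?_
    · rw [one_mul]; exact n122 (x n)
    · rw [(hc n).e1, norm_abs_smul, m1]
  · intro y z hz
    exact fld_dz s1 s3 (fun n => (hc n).d1) y hz
  · intro y z _
    refine fld_dy s4 ?_ y z
    exact Summable.of_nonneg_of_le (fun n => by positivity) (fun n => abs_mul_norm_vv (hc n))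
      ((l1_summable x).mul_left 3)
  · intro y z hz
    exact fld_dz s4 s6 (fun n => vv_isD (hc n)) y hz
  · intro y z _
    refine fld_dy s7 ?_ y z
    exact Summable.of_nonneg_of_le (fun n => by positivity) (fun n => abs_mul_norm_om (hc n))
      ((l1_summable x).mul_left 2)
  · intro y z hz
    exact fld_dz s7 s9 (fun n => om_isD (ω * n) (x n)) y hz
  · intro y z _
    rw [← fld_add s5 s9, ← fld_neg]
    congr 1
    funext n
    exact mode_div (ω * n) (x n)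
  · intro y z _
    have h1 : mO ω x = fun n => awy n + -avz n := by
      funext n
      exact mode_vor (hc n)
    rw [h1, fld_add s8 (b := fun n => -avz n) (by simpa only [norm_neg] using s6), fld_neg]
    ring
  · intro y
    have hom : ∀ n : ℤ, ex (om (ω * n) (jn (x n))) 0 = 0 := fun n => by
      rw [om, ex_sub, ex_neg, ex_smul, Eop_zero, Eop_zero]
      simp
    refine ⟨fld_zero_of ω (fun n => (hc n).z1) y, fld_zero_of ω (fun n => ?_) y,
      fld_zero_of ω hom y⟩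
    rw [mv, vv, ex_sub, ex_smul, hom, mul_zero, sub_zero]
    exact (hc n).z2

/-! ### Nonlinear terms -/

theorem fa_wt_one : Wt 1 (fun _ : ℤ => (1:ℝ)) := ⟨fun _ => le_refl _, fun _ _ => by norm_num, rfl⟩

theorem conv_summable {a b : ℤ → CI H} (ha : Summable fun n => ‖a n‖) (hb : Summable fun n => ‖b n‖) :
    Summable fun n => ‖conv a b n‖ := by
  have := (conv_bound fa_wt_one (a := a) (b := b) (by simpa using ha) (by simpa using hb)).2.1
  simpa using this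

section sy
variable {ω : ℝ} {x : L1 (Xn H)} (hs : Sy x)
include hs

theorem Sy.m1 : Sy (m1 x) := fun n => by
  rw [P25.m1, P25.m1, hs n]; rfl
theorem Sy.m1z : Sy (m1z x) := fun n => by
  rw [P25.m1z, P25.m1z, hs n]; rfl
theorem Sy.m1y : Sy (m1y ω x) := fun n => by
  rw [P25.m1y, P25.m1y, hs n, om_neg_int, star_smul, star_is]; rfl
theorem Sy.mv : Sy (mv ω x) := fun n => by
  rw [P25.mv, P25.mv, hs n, om_neg_int, jn_star, vv_star]
theorem Sy.mw : Sy (mw ω x) := fun n => by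
  rw [P25.mw, P25.mw, hs n, om_neg_int, jn_star, om_star]
theorem Sy.mO : Sy (mO ω x) := fun n => by
  rw [P25.mO, P25.mO, hs n, om_neg_int, Om_star]

end sy

theorem m1_summable (x : L1 (Xn H)) : Summable fun n => ‖m1 x n‖ :=
  (sum_le_of x (C := 1) fun n => by rw [one_mul]; exact n11 (x n)).1
theorem m1z_summable (x : L1 (Xn H)) : Summable fun n => ‖m1z x n‖ :=
  (sum_le_of x (C := 1) fun n => by rw [one_mul]; exact n121 (x n)).1
theorem m1y_summable (ω : ℝ) (x : L1 (Xn H)) : Summable fun n => ‖m1y ω x n‖ :=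
  (sum_le_of x (C := 1) fun n => by
    rw [one_mul]; exact (norm_is_smul_le _ _).trans (n122 (x n))).1
theorem mv_summable (ω : ℝ) (x : L1 (Xn H)) : Summable fun n => ‖mv ω x n‖ :=
  (sum_le_of x (C := H + 2) fun n => (norm_vv_le _ _).trans (by
    have := hH.out
    gcongr; exact norm_jn_le _)).1
theorem mw_summable (ω : ℝ) (x : L1 (Xn H)) : Summable fun n => ‖mw ω x n‖ :=
  (sum_le_of x (C := H + 1) fun n => (norm_om_le _ _).trans (by
    have := hH.out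
    gcongr; exact norm_jn_le _)).1
theorem mO_summable (ω : ℝ) (x : L1 (Xn H)) : Summable fun n => ‖mO ω x n‖ :=
  (sum_le_of x (C := 3) fun _ => norm_Om_le _ _).1

/-- The nonlinear terms in physical space. -/
theorem fld_N {ω : ℝ} {x h : L1 (Xn H)} (hs : Sy x) (hs' : Sy h) (y z : ℝ) :
    fld ω (N0 ω x h) y z = fld ω (mv ω x) y z * fld ω (m1y ω h) y z +
      fld ω (mw ω x) y z * fld ω (m1z h) y z + fld ω (m1 x) y z * fld ω (m1 h) y z ∧
    fld ω (N1 ω x x) y z = -(fld ω (mO ω x) y z * fld ω (mw ω x) y z) ∧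
    fld ω (N2 ω x x) y z = fld ω (mO ω x) y z * fld ω (mv ω x) y z := by
  have c1 := conv_summable (mv_summable ω x) (m1y_summable ω h)
  have c2 := conv_summable (mw_summable ω x) (m1z_summable h)
  have c3 := conv_summable (m1_summable x) (m1_summable h)
  have c12 : Summable fun n => ‖conv (mv ω x) (m1y ω h) n + conv (mw ω x) (m1z h) n‖ :=
    Summable.of_nonneg_of_le (fun n => norm_nonneg _) (fun n => norm_add_le _ _) (c1.add c2)
  refine ⟨?_, ?_, ?_⟩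
  · have e : (N0 ω x h : ℤ → CI H) = fun n => (conv (mv ω x) (m1y ω h) n +
        conv (mw ω x) (m1z h) n) + conv (m1 x) (m1 h) n := rfl
    rw [e, fld_add c12 c3, fld_add c1 c2, fld_conv (mv_summable ω x) (m1y_summable ω h) hs.mv hs'.m1y,
      fld_conv (mw_summable ω x) (m1z_summable h) hs.mw hs'.m1z,
      fld_conv (m1_summable x) (m1_summable h) hs.m1 hs'.m1]
  · have e : (N1 ω x x : ℤ → CI H) = fun n => -conv (mO ω x) (mw ω x) n := rfl
    rw [e, fld_neg, fld_conv (mO_summable ω x) (mw_summable ω x) hs.mO hs.mw]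
  · have e : (N2 ω x x : ℤ → CI H) = conv (mO ω x) (mv ω x) := rfl
    rw [e, fld_conv (mO_summable ω x) (mv_summable ω x) hs.mO hs.mv]

end

end Pool.Agent.Lib.MP_79abb3_an.P25
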