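import Pool.Agent.Lib.MP_79abb3_an.P25.Modes
import Pool.Agent.Lib.MP_79abb3_an.P25.OpA

/-!
Algebra for the velocity pair of one mode.
-/

set_option autoImplicit false
set_option linter.unusedSectionVars false

open MeasureTheory Set Filter Topology Function

namespace Pool.Agent.Lib.MP_79abb3_an.P25

section
variable {H : ℝ} [hH : Fact (0 < H)]

/-! FD-5: algebra for the velocity pair. -/

/-- The bilinear pairing. -/
noncomputable def bpJ (f g : CI H) : ℂ := ∫ z in (0:ℝ)..H, ex f z * ex g z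

theorem bpJ_int (f g : CI H) : IntervalIntegrable (fun z => ex f z * ex g z) volume 0 H :=
  ((continuous_ex f).mul (continuous_ex g)).intervalIntegrable _ _

theorem bpJ_add_left (f f' g : CI H) : bpJ (f + f') g = bpJ f g + bpJ f' g := by
  unfold bpJ
  rw [← intervalIntegral.integral_add (bpJ_int f g) (bpJ_int f' g)]
  congr 1; ext z; rw [ex_add, add_mul]

theorem bpJ_sub_left (f f' g : CI H) : bpJ (f - f') g = bpJ f g - bpJ f' g := by
  unfold bpJ
  rw [← intervalIntegral.integral_sub (bpJ_int f g) (bpJ_int f' g)]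
  congr 1; ext z; rw [ex_sub, sub_mul]

theorem bpJ_neg_left (f g : CI H) : bpJ (-f) g = -bpJ f g := by
  unfold bpJ
  rw [← intervalIntegral.integral_neg]
  congr 1; ext z; rw [ex_neg, neg_mul]

theorem bpJ_smul_left (c : ℂ) (f g : CI H) : bpJ (c • f) g = c * bpJ f g := by
  unfold bpJ
  rw [← intervalIntegral.integral_const_mul]
  congr 1; ext z; rw [ex_smul, mul_assoc]

theorem bpJ_rsmul_left (c : ℝ) (f g : CI H) : bpJ (c • f) g = c * bpJ f g := by
  unfold bpJ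
  rw [← intervalIntegral.integral_const_mul]
  congr 1; ext z; rw [ex_rsmul, mul_assoc]

theorem bpJ_comm (f g : CI H) : bpJ f g = bpJ g f := by
  unfold bpJ
  congr 1; ext z; rw [mul_comm]

theorem bpJ_adj (k : ℝ) (f g : CI H) : bpJ (Eop k f) g = bpJ f (Top k g) := Eop_Top_adj k f g

theorem bpJ_adj' (k : ℝ) (f g : CI H) : bpJ (Top k f) g = bpJ f (Eop k g) := by
  rw [bpJ_comm, ← bpJ_adj, bpJ_comm]

theorem bp_is_mul_abs (k : ℝ) : is k * ((|k| : ℝ) : ℂ) = Complex.I * (k : ℂ) := by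
  unfold is
  rw [mul_assoc, ← Complex.ofReal_mul]
  congr 2
  rcases lt_trichotomy k 0 with h | h | h
  · rw [Real.sign_of_neg h, abs_of_neg h]; ring
  · rw [h]; simp
  · rw [Real.sign_of_pos h, abs_of_pos h]; ring

theorem bp_is_mul_is {k : ℝ} (hk : k ≠ 0) : is k * is k = -1 := by
  unfold is
  rcases hk.lt_or_gt with h | h
  · rw [Real.sign_of_neg h]; push_cast; linear_combination Complex.I_mul_I
  · rw [Real.sign_of_pos h]; push_cast; linear_combination Complex.I_mul_I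

theorem pair_vw (k : ℝ) (hk : k ≠ 0) (y : Yn H) {X2 X3 : ℝ → ℂ} (c2 : Continuous X2)
    (d3 : ∀ z, HasDerivAt X3 (Complex.I * (k : ℂ) * X2 z) z) (h0 : X3 0 = 0) (hH' : X3 H = 0) :
    ∫ z in (0:ℝ)..H, (ex (vv k y) z * X2 z + ex (om k y) z * X3 z) =
      (∫ z in (0:ℝ)..H, ex y.2 z * (X2 z - is k * X3 z)) -
        ((|k| : ℝ) : ℂ)⁻¹ * ∫ z in (0:ℝ)..H, ex y.1 z * X3 z := by
  have hH0 : 0 < H := hH.out
  have c3 : Continuous X3 := continuous_iff_continuousAt.2 fun z => (d3 z).continuousAt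
  set x2 : CI H := mkCI X2 c2.continuousOn with hx2
  set x3 : CI H := mkCI X3 c3.continuousOn with hx3
  have e2 : ∀ z ∈ Icc (0:ℝ) H, ex x2 z = X2 z := fun z hz => ex_mkCI _ hz
  have e3 : ∀ z ∈ Icc (0:ℝ) H, ex x3 z = X3 z := fun z hz => ex_mkCI _ hz
  have hκ : ((|k| : ℝ) : ℂ) ≠ 0 := by
    rw [Complex.ofReal_ne_zero]; exact abs_ne_zero.2 hk
  have hD : IsD x3 ((Complex.I * (k : ℂ)) • x2) := by
    intro z hz
    rw [ex_smul, e2 z hz]
    exact ((d3 z).hasDerivWithinAt).congr (fun w hw => e3 w hw) (e3 z hz)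
  have hT : ((|k| : ℝ) : ℂ)⁻¹ • x3 = Top k (x3 - is k • x2) := by
    have hD' : IsD (((|k| : ℝ) : ℂ)⁻¹ • x3) ((((|k| : ℝ) : ℂ)⁻¹ * (Complex.I * (k : ℂ))) • x2) := by
      intro z hz
      have := (hD z hz).const_mul (((|k| : ℝ) : ℂ)⁻¹)
      refine this.congr_deriv ?_
      rw [ex_smul, ex_smul]
      ring
    refine Top_unique k hD' ?_ ?_
    · rw [ex_smul, e3 H ⟨hH0.le, le_refl _⟩, hH', mul_zero]
    · apply ci_ext
      intro z hz
      simp only [ex_sub, ex_neg, ex_smul, ex_rsmul]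
      rw [← bp_is_mul_abs]
      field_simp
      ring
  have r1 : (∫ z in (0:ℝ)..H, (ex (vv k y) z * X2 z + ex (om k y) z * X3 z)) =
      bpJ (vv k y) x2 + bpJ (om k y) x3 := by
    unfold bpJ
    rw [← intervalIntegral.integral_add (bpJ_int _ _) (bpJ_int _ _)]
    apply intervalIntegral.integral_congr
    intro z hz
    rw [uIcc_of_le hH0.le] at hz
    simp only
    rw [e2 z hz, e3 z hz]
  have r2 : (∫ z in (0:ℝ)..H, ex y.2 z * (X2 z - is k * X3 z)) = bpJ y.2 (x2 - is k • x3) := by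
    unfold bpJ
    apply intervalIntegral.integral_congr
    intro z hz
    rw [uIcc_of_le hH0.le] at hz
    simp only
    rw [ex_sub, ex_smul, e2 z hz, e3 z hz]
  have r3 : (∫ z in (0:ℝ)..H, ex y.1 z * X3 z) = bpJ y.1 x3 := by
    unfold bpJ
    apply intervalIntegral.integral_congr
    intro z hz
    rw [uIcc_of_le hH0.le] at hz
    simp only
    rw [e3 z hz]
  have r4 : bpJ (om k y) (x3 - is k • x2) = -(((|k| : ℝ) : ℂ)⁻¹ * bpJ y.1 x3) - is k * bpJ y.2 x3 := by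
    unfold om
    rw [bpJ_sub_left, bpJ_neg_left, bpJ_smul_left, bpJ_adj, bpJ_adj, ← hT, bpJ_comm, bpJ_smul_left,
      bpJ_comm y.2, bpJ_smul_left, bpJ_comm x3 y.1, bpJ_comm x3 y.2]
    field_simp
  have r5 : bpJ (om k y) (x3 - is k • x2) = bpJ (om k y) x3 - is k * bpJ (om k y) x2 := by
    rw [bpJ_comm, bpJ_sub_left, bpJ_smul_left, bpJ_comm x3, bpJ_comm x2]
  have r6 : bpJ (vv k y) x2 = bpJ y.2 x2 - is k * bpJ (om k y) x2 := by
    unfold vv
    rw [bpJ_sub_left, bpJ_smul_left]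
  have r7 : bpJ y.2 (x2 - is k • x3) = bpJ y.2 x2 - is k * bpJ y.2 x3 := by
    rw [bpJ_comm, bpJ_sub_left, bpJ_smul_left, bpJ_comm x3, bpJ_comm x2]
  rw [r1, r2, r3, r6, r7]
  rw [r5] at r4
  linear_combination r4

theorem pair_src (k : ℝ) (hk : k ≠ 0) (n0 n1 n2 : CI H) {X2 X3 : ℝ → ℂ} (c2 : Continuous X2)
    (d3 : ∀ z, HasDerivAt X3 (Complex.I * (k : ℂ) * X2 z) z) (h0 : X3 0 = 0) (hH' : X3 H = 0) :
    (∫ z in (0:ℝ)..H, ex (Rν k n0 n1 n2) z * (X2 z - is k * X3 z)) +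
        ((|k| : ℝ) : ℂ)⁻¹ * ∫ z in (0:ℝ)..H, ex n0 z * X3 z =
      -∫ z in (0:ℝ)..H, (ex n1 z * X2 z + ex n2 z * X3 z) := by
  have hH0 : 0 < H := hH.out
  have c3 : Continuous X3 := continuous_iff_continuousAt.2 fun z => (d3 z).continuousAt
  set x2 : CI H := mkCI X2 c2.continuousOn with hx2
  set x3 : CI H := mkCI X3 c3.continuousOn with hx3
  have e2 : ∀ z ∈ Icc (0:ℝ) H, ex x2 z = X2 z := fun z hz => ex_mkCI _ hz
  have e3 : ∀ z ∈ Icc (0:ℝ) H, ex x3 z = X3 z := fun z hz => ex_mkCI _ hz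
  have hκ : ((|k| : ℝ) : ℂ) ≠ 0 := by
    rw [Complex.ofReal_ne_zero]; exact abs_ne_zero.2 hk
  have hss := bp_is_mul_is hk
  have hsk := bp_is_mul_abs k
  have hD : IsD x3 ((Complex.I * (k : ℂ)) • x2) := by
    intro z hz
    rw [ex_smul, e2 z hz]
    exact ((d3 z).hasDerivWithinAt).congr (fun w hw => e3 w hw) (e3 z hz)
  have hE : (-(is k * ((|k| : ℝ) : ℂ)⁻¹)) • x3 = Eop k (x2 - is k • x3) := by
    have hD' : IsD ((-(is k * ((|k| : ℝ) : ℂ)⁻¹)) • x3) x2 := by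
      intro z hz
      have := (hD z hz).const_mul (-(is k * ((|k| : ℝ) : ℂ)⁻¹))
      refine this.congr_deriv ?_
      rw [ex_smul, ← hsk]
      field_simp
      linear_combination (-ex x2 z) * hss
    refine Eop_unique k hD' ?_ ?_
    · rw [ex_smul, e3 0 ⟨le_refl _, hH0.le⟩, h0, mul_zero]
    · apply ci_ext
      intro z hz
      simp only [ex_sub, ex_add, ex_smul, ex_rsmul]
      field_simp
      ring
  have r1 : (∫ z in (0:ℝ)..H, ex (Rν k n0 n1 n2) z * (X2 z - is k * X3 z)) =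
      bpJ (Rν k n0 n1 n2) (x2 - is k • x3) := by
    unfold bpJ
    apply intervalIntegral.integral_congr
    intro z hz
    rw [uIcc_of_le hH0.le] at hz
    simp only
    rw [ex_sub, ex_smul, e2 z hz, e3 z hz]
  have r2 : (∫ z in (0:ℝ)..H, (ex n1 z * X2 z + ex n2 z * X3 z)) = bpJ n1 x2 + bpJ n2 x3 := by
    unfold bpJ
    rw [← intervalIntegral.integral_add (bpJ_int _ _) (bpJ_int _ _)]
    apply intervalIntegral.integral_congr
    intro z hz
    rw [uIcc_of_le hH0.le] at hz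
    simp only
    rw [e2 z hz, e3 z hz]
  have r3 : (∫ z in (0:ℝ)..H, ex n0 z * X3 z) = bpJ n0 x3 := by
    unfold bpJ
    apply intervalIntegral.integral_congr
    intro z hz
    rw [uIcc_of_le hH0.le] at hz
    simp only
    rw [e3 z hz]
  have r4 : ∀ n : CI H, bpJ (Top k n) (x2 - is k • x3) = -(is k * ((|k| : ℝ) : ℂ)⁻¹) * bpJ n x3 := by
    intro n
    rw [bpJ_adj', ← hE, bpJ_comm, bpJ_smul_left, bpJ_comm]
  have r5 : bpJ n1 (x2 - is k • x3) = bpJ n1 x2 - is k * bpJ n1 x3 := by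
    rw [bpJ_comm, bpJ_sub_left, bpJ_smul_left, bpJ_comm x3, bpJ_comm x2]
  rw [r1, r2, r3]
  unfold Rν
  rw [bpJ_sub_left, bpJ_sub_left, bpJ_add_left, bpJ_neg_left, bpJ_rsmul_left, bpJ_smul_left,
    bpJ_smul_left, r4, r4, r4, r5, ← hsk]
  field_simp
  linear_combination (((|k| : ℝ) : ℂ) * bpJ n2 x3 + bpJ n0 x3) * hss

end

end Pool.Agent.Lib.MP_79abb3_an.P25
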