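import Pool.Agent.Lib.MP_79abb3_an.P25.GaussDef

/-!
Gaussian averages on the line.
-/

set_option autoImplicit false

open MeasureTheory Set Filter Topology Function

namespace Pool.Agent.Lib.MP_79abb3_an.P25

/-! ### The kernels -/

theorem gK0_nonneg (t x : ℝ) : 0 ≤ gK0 t x := by unfold gK0; positivity

theorem gK0_even (t x : ℝ) : gK0 t (-x) = gK0 t x := by unfold gK0; simp

theorem gK1_odd (t x : ℝ) : gK1 t (-x) = -gK1 t x := by unfold gK1; rw [gK0_even]; ring

theorem gK2_even (t x : ℝ) : gK2 t (-x) = gK2 t x := by unfold gK2; rw [gK0_even]; ring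

theorem continuous_gK0 (t : ℝ) : Continuous (gK0 t) := by unfold gK0; fun_prop

theorem continuous_gK1 (t : ℝ) : Continuous (gK1 t) := by
  have h := continuous_gK0 t
  have : gK1 t = fun x => -(x / (2 * t)) * gK0 t x := rfl
  rw [this]; fun_prop

theorem continuous_gK2 (t : ℝ) : Continuous (gK2 t) := by
  have h := continuous_gK0 t
  have : gK2 t = fun x => (x ^ 2 / (4 * t ^ 2) - 1 / (2 * t)) * gK0 t x := rfl
  rw [this]; fun_prop

theorem hasDerivAt_gK0 {t : ℝ} (ht : 0 < t) (x : ℝ) : HasDerivAt (gK0 t) (gK1 t x) x := by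
  have h1 : HasDerivAt (fun x : ℝ => -x ^ 2 / (4 * t)) (-(2 * x) / (4 * t)) x := by
    have h2 := ((hasDerivAt_pow 2 x).neg).div_const (4 * t)
    refine (h2.congr_deriv ?_)
    norm_num
  have h3 := (h1.exp).const_mul (√(4 * Real.pi * t))⁻¹
  refine h3.congr_deriv ?_
  unfold gK1 gK0
  field_simp
  ring

theorem hasDerivAt_gK1 {t : ℝ} (ht : 0 < t) (x : ℝ) : HasDerivAt (gK1 t) (gK2 t x) x := by
  have h1 : HasDerivAt (fun x : ℝ => -(x / (2 * t))) (-(1 / (2 * t))) x :=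
    ((hasDerivAt_id x).div_const (2 * t)).neg
  have h2 := h1.mul (hasDerivAt_gK0 ht x)
  refine h2.congr_deriv ?_
  unfold gK2 gK1
  field_simp
  ring

theorem hasDerivAt_gK0_time {t : ℝ} (ht : 0 < t) (x : ℝ) :
    HasDerivAt (fun s => gK0 s x) (gK2 t x) t := by
  have hpi := Real.pi_pos
  have h0 : 0 < 4 * Real.pi * t := by positivity
  have h1 : HasDerivAt (fun s : ℝ => 4 * Real.pi * s) (4 * Real.pi) t := by
    simpa using (hasDerivAt_id t).const_mul (4 * Real.pi)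
  have h2 := (h1.sqrt h0.ne').inv (Real.sqrt_pos.2 h0).ne'
  have h3 : HasDerivAt (fun s : ℝ => -x ^ 2 / (4 * s)) (x ^ 2 / (4 * t ^ 2)) t := by
    have h4 : HasDerivAt (fun s : ℝ => 4 * s) 4 t := by
      simpa using (hasDerivAt_id t).const_mul (4 : ℝ)
    have h5 := (hasDerivAt_const t (-x ^ 2)).div h4 (by positivity)
    refine h5.congr_deriv ?_
    field_simp
    ring
  have h6 := h2.mul h3.exp
  have hs : √(4 * Real.pi * t) ^ 2 = 4 * Real.pi * t := Real.sq_sqrt h0.le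
  have hs0 : 0 < √(4 * Real.pi * t) := Real.sqrt_pos.2 h0
  have h7 : HasDerivAt (fun s => gK0 s x)
      (-(4 * Real.pi / (2 * √(4 * Real.pi * t))) / √(4 * Real.pi * t) ^ 2 *
        Real.exp (-x ^ 2 / (4 * t)) +
        (√(4 * Real.pi * t))⁻¹ * (Real.exp (-x ^ 2 / (4 * t)) * (x ^ 2 / (4 * t ^ 2)))) t := h6
  refine h7.congr_deriv ?_
  unfold gK2 gK0
  rw [hs]
  field_simp
  ring

/-- Common Gaussian bound for the kernels near a given time. -/
theorem gK_dom {t : ℝ} (ht : 0 < t) : ∃ C > 0, ∀ t' x y : ℝ, t / 2 ≤ t' → t' ≤ 2 * t →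
    |y - x| ≤ 1 →
    |gK0 t' y| ≤ C * Real.exp (-(1 / (32 * t)) * x ^ 2) ∧
    |gK1 t' y| ≤ C * Real.exp (-(1 / (32 * t)) * x ^ 2) ∧
    |gK2 t' y| ≤ C * Real.exp (-(1 / (32 * t)) * x ^ 2) := by
  have hpi := Real.pi_pos
  set S := (√(4 * Real.pi * (t / 2)))⁻¹ with hS
  have hS0 : 0 < S := by positivity
  set A := ((1 + 2 / t) + 16 * t * (1 / t + 1 / t ^ 2)) * Real.exp (1 / (16 * t)) with hA
  have hA0 : 0 < A := by positivity
  refine ⟨S * A, by positivity, fun t' x y h1 h2 hxy => ?_⟩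
  have ht' : 0 < t' := by linarith
  -- the shift
  have hyx : x ^ 2 / 2 - 1 ≤ y ^ 2 := by
    have h3 : (y - x) ^ 2 ≤ 1 := by
      have := abs_nonneg (y - x)
      rw [← sq_abs]; nlinarith
    nlinarith [sq_nonneg (2 * y - x)]
  have hE : Real.exp (-y ^ 2 / (16 * t)) ≤
      Real.exp (1 / (16 * t)) * Real.exp (-(1 / (32 * t)) * x ^ 2) := by
    rw [← Real.exp_add]
    refine Real.exp_le_exp.2 ?_
    have : 1 / (16 * t) + -(1 / (32 * t)) * x ^ 2 - -y ^ 2 / (16 * t) =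
        (y ^ 2 - (x ^ 2 / 2 - 1)) / (16 * t) := by field_simp; ring
    have h4 : 0 ≤ (y ^ 2 - (x ^ 2 / 2 - 1)) / (16 * t) := by
      apply div_nonneg (by linarith) (by positivity)
    linarith
  -- the polynomial factor
  have hP : ((1 + 2 / t) + (1 / t + 1 / t ^ 2) * y ^ 2) * Real.exp (-y ^ 2 / (8 * t)) ≤
      ((1 + 2 / t) + 16 * t * (1 / t + 1 / t ^ 2)) * Real.exp (-y ^ 2 / (16 * t)) := by
    have h5 : Real.exp (-y ^ 2 / (8 * t)) =
        Real.exp (-y ^ 2 / (16 * t)) * Real.exp (-y ^ 2 / (16 * t)) := by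
      rw [← Real.exp_add]; congr 1; field_simp; ring
    have h6 : y ^ 2 * Real.exp (-y ^ 2 / (16 * t)) ≤ 16 * t := by
      have h7 := Real.add_one_le_exp (y ^ 2 / (16 * t))
      have h8 : y ^ 2 ≤ 16 * t * Real.exp (y ^ 2 / (16 * t)) := by
        have : y ^ 2 = 16 * t * (y ^ 2 / (16 * t)) := by field_simp
        calc y ^ 2 = 16 * t * (y ^ 2 / (16 * t)) := this
          _ ≤ 16 * t * Real.exp (y ^ 2 / (16 * t)) := by
            gcongr; linarith
      have h9 : Real.exp (y ^ 2 / (16 * t)) * Real.exp (-y ^ 2 / (16 * t)) = 1 := by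
        rw [← Real.exp_add, ← Real.exp_zero]; congr 1; ring
      calc y ^ 2 * Real.exp (-y ^ 2 / (16 * t))
          ≤ 16 * t * Real.exp (y ^ 2 / (16 * t)) * Real.exp (-y ^ 2 / (16 * t)) := by gcongr
        _ = 16 * t := by rw [mul_assoc, h9, mul_one]
    have h10 : Real.exp (-y ^ 2 / (16 * t)) ≤ 1 := by
      rw [Real.exp_le_one_iff]
      apply div_nonpos_of_nonpos_of_nonneg (by nlinarith [sq_nonneg y]) (by positivity)
    rw [h5, ← mul_assoc]
    refine mul_le_mul_of_nonneg_right ?_ (Real.exp_pos _).le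
    rw [add_mul]
    refine add_le_add ?_ ?_
    · exact mul_le_of_le_one_right (by positivity) h10
    · calc (1 / t + 1 / t ^ 2) * y ^ 2 * Real.exp (-y ^ 2 / (16 * t))
          = (1 / t + 1 / t ^ 2) * (y ^ 2 * Real.exp (-y ^ 2 / (16 * t))) := by ring
        _ ≤ (1 / t + 1 / t ^ 2) * (16 * t) := by gcongr
        _ = 16 * t * (1 / t + 1 / t ^ 2) := by ring
  have hK0 : gK0 t' y ≤ S * Real.exp (-y ^ 2 / (8 * t)) := by
    unfold gK0
    refine mul_le_mul ?_ ?_ (Real.exp_pos _).le hS0.le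
    · rw [hS]
      refine inv_anti₀ (Real.sqrt_pos.2 (by positivity)) (Real.sqrt_le_sqrt (by gcongr))
    · refine Real.exp_le_exp.2 ?_
      rw [div_le_div_iff₀ (by positivity) (by positivity)]
      nlinarith [sq_nonneg y, mul_nonneg (sq_nonneg y) (sub_nonneg.2 h2)]
  have key : ((1 + 2 / t) + (1 / t + 1 / t ^ 2) * y ^ 2) * gK0 t' y ≤
      S * A * Real.exp (-(1 / (32 * t)) * x ^ 2) := by
    calc ((1 + 2 / t) + (1 / t + 1 / t ^ 2) * y ^ 2) * gK0 t' y
        ≤ ((1 + 2 / t) + (1 / t + 1 / t ^ 2) * y ^ 2) * (S * Real.exp (-y ^ 2 / (8 * t))) := by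
          gcongr
      _ = S * (((1 + 2 / t) + (1 / t + 1 / t ^ 2) * y ^ 2) * Real.exp (-y ^ 2 / (8 * t))) := by ring
      _ ≤ S * (((1 + 2 / t) + 16 * t * (1 / t + 1 / t ^ 2)) * Real.exp (-y ^ 2 / (16 * t))) := by
          gcongr
      _ ≤ S * (((1 + 2 / t) + 16 * t * (1 / t + 1 / t ^ 2)) *
          (Real.exp (1 / (16 * t)) * Real.exp (-(1 / (32 * t)) * x ^ 2))) := by gcongr
      _ = S * A * Real.exp (-(1 / (32 * t)) * x ^ 2) := by rw [hA]; ring
  have hg0 := gK0_nonneg t' y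
  have hinv : 1 / t' ≤ 2 / t := by
    rw [div_le_div_iff₀ ht' ht]; linarith
  have hinv0 : 0 < 1 / t' := by positivity
  refine ⟨?_, ?_, ?_⟩
  · rw [abs_of_nonneg hg0]
    refine le_trans ?_ key
    refine le_mul_of_one_le_left hg0 ?_
    have : 0 ≤ 2 / t + (1 / t + 1 / t ^ 2) * y ^ 2 := by positivity
    linarith
  · unfold gK1
    rw [abs_mul, abs_of_nonneg hg0]
    refine le_trans ?_ key
    refine mul_le_mul_of_nonneg_right ?_ hg0
    rw [abs_neg, abs_div, abs_of_pos (by positivity : (0:ℝ) < 2 * t')]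
    have h11 : |y| ≤ (1 + y ^ 2) / 2 := by
      rw [← sq_abs y]; nlinarith [sq_nonneg (|y| - 1)]
    calc |y| / (2 * t') = (1 / t') * (|y| / 2) := by field_simp
      _ ≤ (2 / t) * (((1 + y ^ 2) / 2) / 2) := by gcongr
      _ = (1 / 2) * (1 / t) + (1 / 2) * (1 / t) * y ^ 2 := by ring
      _ ≤ (1 + 2 / t) + (1 / t + 1 / t ^ 2) * y ^ 2 := by
        have h12 : 0 < 1 / t := by positivity
        have h13 : 2 / t = 2 * (1 / t) := by ring
        have h14 : 0 < 1 / t ^ 2 := by positivity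
        rw [h13]
        nlinarith [sq_nonneg y, mul_nonneg h12.le (sq_nonneg y), mul_nonneg h14.le (sq_nonneg y)]
  · unfold gK2
    rw [abs_mul, abs_of_nonneg hg0]
    refine le_trans ?_ key
    refine mul_le_mul_of_nonneg_right ?_ hg0
    have h15 : |y ^ 2 / (4 * t' ^ 2) - 1 / (2 * t')| ≤ y ^ 2 / (4 * t' ^ 2) + 1 / (2 * t') := by
      have a1 : 0 ≤ y ^ 2 / (4 * t' ^ 2) := by positivity
      have a2 : 0 ≤ 1 / (2 * t') := by positivity
      rw [abs_le]; constructor <;> linarith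
    refine h15.trans ?_
    have h16 : y ^ 2 / (4 * t' ^ 2) = y ^ 2 / 4 * (1 / t') ^ 2 := by field_simp
    have h17 : 1 / (2 * t') = (1 / t') / 2 := by field_simp
    rw [h16, h17]
    have h18 : y ^ 2 / 4 * (1 / t') ^ 2 ≤ y ^ 2 / 4 * (2 / t) ^ 2 := by gcongr
    have h19 : y ^ 2 / 4 * (2 / t) ^ 2 = 1 / t ^ 2 * y ^ 2 := by field_simp; norm_num
    have h20 : 0 ≤ 1 / t * y ^ 2 := by positivity
    have h21 : 0 < 2 / t := by positivity
    nlinarith

theorem integrable_dom (C t : ℝ) (ht : 0 < t) :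
    Integrable fun x : ℝ => C * Real.exp (-(1 / (32 * t)) * x ^ 2) :=
  (integrable_exp_neg_mul_sq (by positivity)).const_mul C

theorem integrable_gK0 {t : ℝ} (ht : 0 < t) : Integrable (gK0 t) := by
  obtain ⟨C, -, hC⟩ := gK_dom ht
  refine (integrable_dom C t ht).mono' (continuous_gK0 t).aestronglyMeasurable (ae_of_all _ fun x => ?_)
  exact (hC t x x (by linarith) (by linarith) (by simp)).1

theorem integrable_gK1 {t : ℝ} (ht : 0 < t) : Integrable (gK1 t) := by
  obtain ⟨C, -, hC⟩ := gK_dom ht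
  refine (integrable_dom C t ht).mono' (continuous_gK1 t).aestronglyMeasurable (ae_of_all _ fun x => ?_)
  exact (hC t x x (by linarith) (by linarith) (by simp)).2.1

theorem integrable_gK2 {t : ℝ} (ht : 0 < t) : Integrable (gK2 t) := by
  obtain ⟨C, -, hC⟩ := gK_dom ht
  refine (integrable_dom C t ht).mono' (continuous_gK2 t).aestronglyMeasurable (ae_of_all _ fun x => ?_)
  exact (hC t x x (by linarith) (by linarith) (by simp)).2.2

theorem integral_gK0 {t : ℝ} (ht : 0 < t) : ∫ x, gK0 t x = 1 := by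
  have hpi := Real.pi_pos
  have h := integral_gaussian (1 / (4 * t))
  have h1 : (fun x => gK0 t x) = fun x => (√(4 * Real.pi * t))⁻¹ * Real.exp (-(1 / (4 * t)) * x ^ 2) := by
    funext x
    unfold gK0
    congr 2
    field_simp
  rw [h1, integral_const_mul, h]
  have h2 : Real.pi / (1 / (4 * t)) = 4 * Real.pi * t := by field_simp
  rw [h2, inv_mul_cancel₀ (Real.sqrt_pos.2 (by positivity)).ne']

theorem integrable_sq_gK0 {t : ℝ} (ht : 0 < t) : Integrable fun x => x ^ 2 * gK0 t x := by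
  have h1 : (fun x => x ^ 2 * gK0 t x) = fun x => 4 * t ^ 2 * gK2 t x + 2 * t * gK0 t x := by
    funext x
    unfold gK2
    field_simp
    ring
  rw [h1]
  exact ((integrable_gK2 ht).const_mul _).add ((integrable_gK0 ht).const_mul _)

theorem integral_gK2 {t : ℝ} (ht : 0 < t) : ∫ x, gK2 t x = 0 :=
  integral_eq_zero_of_hasDerivAt_of_integrable (hasDerivAt_gK1 ht) (integrable_gK2 ht)
    (integrable_gK1 ht)

theorem integral_sq_gK0 {t : ℝ} (ht : 0 < t) : ∫ x, x ^ 2 * gK0 t x = 2 * t := by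
  have h1 : (fun x => x ^ 2 * gK0 t x) = fun x => 4 * t ^ 2 * gK2 t x + 2 * t * gK0 t x := by
    funext x
    unfold gK2
    field_simp
    ring
  rw [h1, integral_add ((integrable_gK2 ht).const_mul _) ((integrable_gK0 ht).const_mul _),
    integral_const_mul, integral_const_mul, integral_gK2 ht, integral_gK0 ht]
  ring

theorem integral_abs_gK0 {t : ℝ} (ht : 0 < t) : ∫ x, |gK0 t x| = 1 := by
  rw [← integral_gK0 ht]
  congr 1
  funext x
  exact abs_of_nonneg (gK0_nonneg t x)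

theorem integral_abs_gK1 {t : ℝ} (ht : 0 < t) : ∫ x, |gK1 t x| ≤ (√t)⁻¹ := by
  have hs : 0 < √t := Real.sqrt_pos.2 ht
  have hst : √t ^ 2 = t := Real.sq_sqrt ht.le
  have h1 : ∀ x, |gK1 t x| ≤ (4 * t * √t)⁻¹ * (x ^ 2 * gK0 t x) + √t / (4 * t) * gK0 t x := by
    intro x
    unfold gK1
    rw [abs_mul, abs_of_nonneg (gK0_nonneg t x), ← mul_assoc, ← add_mul]
    refine mul_le_mul_of_nonneg_right ?_ (gK0_nonneg t x)
    rw [abs_neg, abs_div, abs_of_pos (by positivity : (0:ℝ) < 2 * t)]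
    have h2 : (4 * t * √t)⁻¹ * x ^ 2 + √t / (4 * t) - |x| / (2 * t) =
        (|x| - √t) ^ 2 / (4 * t * √t) := by
      rw [← sq_abs x]
      field_simp
      rw [sub_sq, hst]
      ring_nf
      try rw [hst]
      try ring
    have h3 : 0 ≤ (|x| - √t) ^ 2 / (4 * t * √t) := by positivity
    linarith
  have i1 := (integrable_sq_gK0 ht).const_mul (4 * t * √t)⁻¹
  have i2 := (integrable_gK0 ht).const_mul (√t / (4 * t))
  calc ∫ x, |gK1 t x| ≤ ∫ x, ((4 * t * √t)⁻¹ * (x ^ 2 * gK0 t x) + √t / (4 * t) * gK0 t x) :=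
        integral_mono (integrable_gK1 ht).abs (i1.add i2) h1
    _ = (4 * t * √t)⁻¹ * (2 * t) + √t / (4 * t) := by
        rw [integral_add i1 i2, integral_const_mul, integral_const_mul, integral_sq_gK0 ht,
          integral_gK0 ht, mul_one]
    _ ≤ (√t)⁻¹ := by
        have h4 : (4 * t * √t)⁻¹ * (2 * t) = (√t)⁻¹ / 2 := by field_simp; norm_num
        have h5 : √t / (4 * t) = (√t)⁻¹ / 4 := by
          field_simp
          rw [hst]
        rw [h4, h5]
        have : 0 < (√t)⁻¹ := by positivity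
        linarith

theorem integral_abs_gK2 {t : ℝ} (ht : 0 < t) : ∫ x, |gK2 t x| ≤ t⁻¹ := by
  have h1 : ∀ x, |gK2 t x| ≤ (4 * t ^ 2)⁻¹ * (x ^ 2 * gK0 t x) + (2 * t)⁻¹ * gK0 t x := by
    intro x
    unfold gK2
    rw [abs_mul, abs_of_nonneg (gK0_nonneg t x), ← mul_assoc, ← add_mul]
    refine mul_le_mul_of_nonneg_right ?_ (gK0_nonneg t x)
    have a1 : 0 ≤ x ^ 2 / (4 * t ^ 2) := by positivity
    have a2 : 0 ≤ 1 / (2 * t) := by positivity
    have a3 : (4 * t ^ 2)⁻¹ * x ^ 2 = x ^ 2 / (4 * t ^ 2) := by ring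
    have a4 : (2 * t)⁻¹ = 1 / (2 * t) := by ring
    rw [a3, a4, abs_le]
    constructor <;> linarith
  have i1 := (integrable_sq_gK0 ht).const_mul (4 * t ^ 2)⁻¹
  have i2 := (integrable_gK0 ht).const_mul (2 * t)⁻¹
  calc ∫ x, |gK2 t x| ≤ ∫ x, ((4 * t ^ 2)⁻¹ * (x ^ 2 * gK0 t x) + (2 * t)⁻¹ * gK0 t x) :=
        integral_mono (integrable_gK2 ht).abs (i1.add i2) h1
    _ = (4 * t ^ 2)⁻¹ * (2 * t) + (2 * t)⁻¹ := by
        rw [integral_add i1 i2, integral_const_mul, integral_const_mul, integral_sq_gK0 ht,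
          integral_gK0 ht, mul_one]
    _ ≤ t⁻¹ := by
        refine le_of_eq ?_
        field_simp
        norm_num

/-! ### Convolutions -/

/-- Convolution of a kernel with a function. -/
noncomputable def cv (K : ℝ → ℝ) (h : ℝ → ℂ) (z : ℝ) : ℂ := ∫ x, ((K (z - x) : ℝ) : ℂ) * h x

theorem gP0_eq (t : ℝ) (h : ℝ → ℂ) : gP0 t h = cv (gK0 t) h := rfl
theorem gP1_eq (t : ℝ) (h : ℝ → ℂ) : gP1 t h = cv (gK1 t) h := rfl
theorem gP2_eq (t : ℝ) (h : ℝ → ℂ) : gP2 t h = cv (gK2 t) h := rfl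

theorem cv_eq (K : ℝ → ℝ) (h : ℝ → ℂ) (z : ℝ) : cv K h z = ∫ x, ((K x : ℝ) : ℂ) * h (z - x) := by
  have := integral_sub_left_eq_self (fun x => ((K x : ℝ) : ℂ) * h (z - x)) volume z
  rw [← this]
  unfold cv
  simp

variable {M : ℝ} {h : ℝ → ℂ}

theorem BM.nonneg (hh : BM M h) : 0 ≤ M := (norm_nonneg _).trans (hh.bd 0)

theorem BM.shift (hh : BM M h) (z : ℝ) : BM M (fun x => h (z - x)) where
  meas := hh.meas.comp_quasiMeasurePreserving
    (Measure.measurePreserving_sub_left volume z).quasiMeasurePreserving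
  bd := fun x => hh.bd _

theorem BM.int (hh : BM M h) {K : ℝ → ℝ} (hK : Integrable K) :
    Integrable fun x => ((K x : ℝ) : ℂ) * h x :=
  hK.ofReal.mul_bdd hh.meas (ae_of_all _ hh.bd)

theorem BM.int' (hh : BM M h) {K : ℝ → ℝ} (hK : Integrable K) (z : ℝ) :
    Integrable fun x => ((K (z - x) : ℝ) : ℂ) * h x :=
  hh.int (hK.comp_sub_left z)

theorem BM.norm_int_le (hh : BM M h) {K : ℝ → ℝ} (hK : Integrable K) :
    ‖∫ x, ((K x : ℝ) : ℂ) * h x‖ ≤ (∫ x, |K x|) * M := by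
  calc ‖∫ x, ((K x : ℝ) : ℂ) * h x‖ ≤ ∫ x, |K x| * M := by
        refine norm_integral_le_of_norm_le (hK.abs.mul_const M) (ae_of_all _ fun x => ?_)
        rw [norm_mul, Complex.norm_real, Real.norm_eq_abs]
        exact mul_le_mul_of_nonneg_left (hh.bd x) (abs_nonneg _)
    _ = (∫ x, |K x|) * M := integral_mul_const _ _

theorem BM.cv_norm (hh : BM M h) {K : ℝ → ℝ} (hK : Integrable K) (z : ℝ) :
    ‖cv K h z‖ ≤ (∫ x, |K x|) * M := by
  rw [cv_eq]
  exact (hh.shift z).norm_int_le hK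

theorem BM.P0_norm (hh : BM M h) {t : ℝ} (ht : 0 < t) (z : ℝ) : ‖gP0 t h z‖ ≤ M := by
  have := hh.cv_norm (integrable_gK0 ht) z
  rwa [integral_abs_gK0 ht, one_mul] at this

theorem BM.P1_norm (hh : BM M h) {t : ℝ} (ht : 0 < t) (z : ℝ) : ‖gP1 t h z‖ ≤ (√t)⁻¹ * M :=
  (hh.cv_norm (integrable_gK1 ht) z).trans
    (mul_le_mul_of_nonneg_right (integral_abs_gK1 ht) hh.nonneg)

theorem BM.P2_norm (hh : BM M h) {t : ℝ} (ht : 0 < t) (z : ℝ) : ‖gP2 t h z‖ ≤ t⁻¹ * M :=
  (hh.cv_norm (integrable_gK2 ht) z).trans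
    (mul_le_mul_of_nonneg_right (integral_abs_gK2 ht) hh.nonneg)

/-- Continuity of convolutions. -/
theorem BM.cv_cont (hh : BM M h) {K : ℝ → ℝ} (hK : Continuous K) {D : ℝ → ℝ} (hD : Integrable D)
    (hb : ∀ x y, |y - x| ≤ 1 → |K y| ≤ D x) : Continuous (cv K h) := by
  refine continuous_iff_continuousAt.2 fun z => ?_
  refine continuousAt_of_dominated (bound := fun x => D (z - x) * M) ?_ ?_ ?_ ?_
  · refine Eventually.of_forall fun z' => ?_
    exact (Complex.continuous_ofReal.comp (hK.comp (continuous_const.sub continuous_id))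
      ).aestronglyMeasurable.mul hh.meas
  · filter_upwards [Metric.ball_mem_nhds z one_pos] with z' hz'
    refine ae_of_all _ fun x => ?_
    rw [norm_mul, Complex.norm_real, Real.norm_eq_abs]
    rw [Metric.mem_ball, Real.dist_eq] at hz'
    have h1 := hb (z - x) (z' - x) (by
      have : z' - x - (z - x) = z' - z := by ring
      rw [this]; exact hz'.le)
    exact mul_le_mul h1 (hh.bd x) (norm_nonneg _) ((abs_nonneg _).trans h1)
  · exact (hD.comp_sub_left z).mul_const M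
  · refine ae_of_all _ fun x => ?_
    exact ((Complex.continuous_ofReal.comp (hK.comp (continuous_id.sub continuous_const))).mul
      continuous_const).continuousAt

/-- Derivatives of convolutions. -/
theorem BM.cv_der (hh : BM M h) {K K' : ℝ → ℝ} (hK : ∀ x, HasDerivAt K (K' x) x)
    (hK' : Continuous K') (hi : Integrable K) {D : ℝ → ℝ} (hD : Integrable D)
    (hb : ∀ x y, |y - x| ≤ 1 → |K' y| ≤ D x) (z : ℝ) : HasDerivAt (cv K h) (cv K' h z) z := by
  have hKc : Continuous K := continuous_iff_continuousAt.2 fun x => (hK x).continuousAt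
  refine (hasDerivAt_integral_of_dominated_loc_of_deriv_le (F := fun z x => ((K (z - x) : ℝ) : ℂ) * h x)
    (F' := fun z x => ((K' (z - x) : ℝ) : ℂ) * h x) (bound := fun x => D (z - x) * M)
    (Metric.ball_mem_nhds z one_pos) ?_ (hh.int' hi z) ?_ ?_ ?_ ?_).2
  · refine Eventually.of_forall fun z' => ?_
    exact (Complex.continuous_ofReal.comp (hKc.comp (continuous_const.sub continuous_id))
      ).aestronglyMeasurable.mul hh.meas
  · exact (Complex.continuous_ofReal.comp (hK'.comp (continuous_const.sub continuous_id))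
      ).aestronglyMeasurable.mul hh.meas
  · refine ae_of_all _ fun x z' hz' => ?_
    rw [norm_mul, Complex.norm_real, Real.norm_eq_abs]
    rw [Metric.mem_ball, Real.dist_eq] at hz'
    have h1 := hb (z - x) (z' - x) (by
      have : z' - x - (z - x) = z' - z := by ring
      rw [this]; exact hz'.le)
    exact mul_le_mul h1 (hh.bd x) (norm_nonneg _) ((abs_nonneg _).trans h1)
  · exact (hD.comp_sub_left z).mul_const M
  · refine ae_of_all _ fun x z' _ => ?_
    have h1 : HasDerivAt (fun z : ℝ => K (z - x)) (K' (z' - x)) z' := by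
      simpa using (hK (z' - x)).comp_sub_const z' x
    exact h1.ofReal_comp.mul_const (h x)

theorem BM.P0_der (hh : BM M h) {t : ℝ} (ht : 0 < t) (z : ℝ) :
    HasDerivAt (gP0 t h) (gP1 t h z) z := by
  obtain ⟨C, -, hC⟩ := gK_dom ht
  exact hh.cv_der (hasDerivAt_gK0 ht) (continuous_gK1 t) (integrable_gK0 ht) (integrable_dom C t ht)
    (fun x y hxy => (hC t x y (by linarith) (by linarith) hxy).2.1) z

theorem BM.P1_der (hh : BM M h) {t : ℝ} (ht : 0 < t) (z : ℝ) :
    HasDerivAt (gP1 t h) (gP2 t h z) z := by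
  obtain ⟨C, -, hC⟩ := gK_dom ht
  exact hh.cv_der (hasDerivAt_gK1 ht) (continuous_gK2 t) (integrable_gK1 ht) (integrable_dom C t ht)
    (fun x y hxy => (hC t x y (by linarith) (by linarith) hxy).2.2) z

theorem BM.P0_cont (hh : BM M h) {t : ℝ} (ht : 0 < t) : Continuous (gP0 t h) :=
  continuous_iff_continuousAt.2 fun z => (hh.P0_der ht z).continuousAt

theorem BM.P1_cont (hh : BM M h) {t : ℝ} (ht : 0 < t) : Continuous (gP1 t h) :=
  continuous_iff_continuousAt.2 fun z => (hh.P1_der ht z).continuousAt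

theorem BM.P2_cont (hh : BM M h) {t : ℝ} (ht : 0 < t) : Continuous (gP2 t h) := by
  obtain ⟨C, -, hC⟩ := gK_dom ht
  exact hh.cv_cont (continuous_gK2 t) (integrable_dom C t ht)
    (fun x y hxy => (hC t x y (by linarith) (by linarith) hxy).2.2)

/-! ### Semigroup -/

theorem BM.P0_bm (hh : BM M h) {t : ℝ} (ht : 0 < t) : BM M (gP0 t h) :=
  ⟨(hh.P0_cont ht).aestronglyMeasurable, hh.P0_norm ht⟩

theorem gK0_conv {s t : ℝ} (hs : 0 < s) (ht : 0 < t) (z x : ℝ) :
    ∫ y, gK0 s (z - y) * gK0 t (y - x) = gK0 (s + t) (z - x) := by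
  have hpi := Real.pi_pos
  set m := (t * z + s * x) / (s + t) with hm
  have h1 : ∀ y, gK0 s (z - y) * gK0 t (y - x) =
      ((√(4 * Real.pi * s))⁻¹ * (√(4 * Real.pi * t))⁻¹ * Real.exp (-(z - x) ^ 2 / (4 * (s + t)))) *
        Real.exp (-((s + t) / (4 * s * t)) * (y - m) ^ 2) := by
    intro y
    unfold gK0
    have h2 : Real.exp (-(z - y) ^ 2 / (4 * s)) * Real.exp (-(y - x) ^ 2 / (4 * t)) =
        Real.exp (-(z - x) ^ 2 / (4 * (s + t))) * Real.exp (-((s + t) / (4 * s * t)) * (y - m) ^ 2) := by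
      rw [← Real.exp_add, ← Real.exp_add]
      congr 1
      rw [hm]
      field_simp
      ring
    calc (√(4 * Real.pi * s))⁻¹ * Real.exp (-(z - y) ^ 2 / (4 * s)) *
          ((√(4 * Real.pi * t))⁻¹ * Real.exp (-(y - x) ^ 2 / (4 * t)))
        = (√(4 * Real.pi * s))⁻¹ * (√(4 * Real.pi * t))⁻¹ *
          (Real.exp (-(z - y) ^ 2 / (4 * s)) * Real.exp (-(y - x) ^ 2 / (4 * t))) := by ring
      _ = _ := by rw [h2]; ring
  have h3 : ∫ y, Real.exp (-((s + t) / (4 * s * t)) * (y - m) ^ 2) =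
      √(Real.pi / ((s + t) / (4 * s * t))) := by
    rw [integral_sub_right_eq_self (fun y => Real.exp (-((s + t) / (4 * s * t)) * y ^ 2)) m,
      integral_gaussian]
  simp_rw [h1]
  rw [integral_const_mul, h3]
  unfold gK0
  have h4 : √(Real.pi / ((s + t) / (4 * s * t))) =
      √(4 * Real.pi * s) * √(4 * Real.pi * t) * (√(4 * Real.pi * (s + t)))⁻¹ := by
    rw [← Real.sqrt_mul (by positivity), ← Real.sqrt_inv, ← Real.sqrt_mul (by positivity)]
    congr 1
    field_simp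
  rw [h4]
  have h5 : 0 < √(4 * Real.pi * s) := Real.sqrt_pos.2 (by positivity)
  have h6 : 0 < √(4 * Real.pi * t) := Real.sqrt_pos.2 (by positivity)
  field_simp

theorem BM.P0_sg (hh : BM M h) {s t : ℝ} (hs : 0 < s) (ht : 0 < t) (z : ℝ) :
    gP0 (s + t) h z = gP0 s (gP0 t h) z := by
  have hmeas : AEStronglyMeasurable (fun p : ℝ × ℝ => h p.2) (volume.prod volume) :=
    hh.meas.comp_quasiMeasurePreserving Measure.quasiMeasurePreserving_snd
  have hc : Continuous fun p : ℝ × ℝ => gK0 s (z - p.1) * gK0 t (p.1 - p.2) :=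
    ((continuous_gK0 s).comp (by fun_prop)).mul ((continuous_gK0 t).comp (by fun_prop))
  have h1 : Integrable (fun p : ℝ × ℝ => gK0 s (z - p.1) * gK0 t (p.1 - p.2))
      (volume.prod volume) := by
    rw [integrable_prod_iff hc.aestronglyMeasurable]
    constructor
    · refine ae_of_all _ fun y => ?_
      exact ((integrable_gK0 ht).comp_sub_left y).const_mul (gK0 s (z - y))
    · have h2 : (fun y => ∫ x, ‖gK0 s (z - y) * gK0 t (y - x)‖) = fun y => gK0 s (z - y) := by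
        funext y
        have h3 : ∀ x, ‖gK0 s (z - y) * gK0 t (y - x)‖ = gK0 s (z - y) * gK0 t (y - x) := fun x => by
          rw [Real.norm_eq_abs, abs_of_nonneg (mul_nonneg (gK0_nonneg _ _) (gK0_nonneg _ _))]
        simp_rw [h3]
        rw [integral_const_mul, integral_sub_left_eq_self (fun x => gK0 t x) volume y,
          integral_gK0 ht, mul_one]
      rw [h2]
      exact (integrable_gK0 hs).comp_sub_left z
  have h4 : Integrable (uncurry fun y x : ℝ =>
      ((gK0 s (z - y) * gK0 t (y - x) : ℝ) : ℂ) * h x) (volume.prod volume) :=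
    h1.ofReal.mul_bdd hmeas (ae_of_all _ fun p => hh.bd p.2)
  have h5 := integral_integral_swap h4
  have h6 : gP0 s (gP0 t h) z = ∫ y, ∫ x, ((gK0 s (z - y) * gK0 t (y - x) : ℝ) : ℂ) * h x := by
    unfold gP0
    congr 1
    funext y
    rw [← integral_const_mul]
    congr 1
    funext x
    push_cast
    ring
  rw [h6, h5]
  unfold gP0
  congr 1
  funext x
  rw [integral_mul_const]
  congr 1
  rw [← gK0_conv hs ht z x]
  exact integral_ofReal.symm

theorem BM.P1_sg (hh : BM M h) {s t : ℝ} (hs : 0 < s) (ht : 0 < t) (z : ℝ) :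
    gP1 (s + t) h z = gP1 s (gP0 t h) z := by
  have h1 := hh.P0_der (add_pos hs ht) z
  have h2 := (hh.P0_bm ht).P0_der hs z
  have h3 : gP0 (s + t) h = gP0 s (gP0 t h) := funext fun z => hh.P0_sg hs ht z
  rw [h3] at h1
  exact h1.unique h2

theorem BM.P2_sg (hh : BM M h) {s t : ℝ} (hs : 0 < s) (ht : 0 < t) (z : ℝ) :
    gP2 (s + t) h z = gP2 s (gP0 t h) z := by
  have h1 := hh.P1_der (add_pos hs ht) z
  have h2 := (hh.P0_bm ht).P1_der hs z
  have h3 : gP1 (s + t) h = gP1 s (gP0 t h) := funext fun z => hh.P1_sg hs ht z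
  rw [h3] at h1
  exact h1.unique h2

/-! ### Continuity in time -/

theorem time_nhds {t : ℝ} (ht : 0 < t) : ∀ᶠ t' in 𝓝 t, t / 2 ≤ t' ∧ t' ≤ 2 * t := by
  have := Icc_mem_nhds (show t / 2 < t by linarith) (show t < 2 * t by linarith)
  filter_upwards [this] with t' h
  exact h

theorem cv_sub (hh : BM M h) {K L : ℝ → ℝ} (hK : Integrable K) (hL : Integrable L) (z : ℝ) :
    cv K h z - cv L h z = cv (fun x => K x - L x) h z := by
  unfold cv
  rw [← integral_sub (hh.int' hK z) (hh.int' hL z)]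
  congr 1
  funext x
  push_cast
  ring

theorem l1_time {K : ℝ → ℝ → ℝ} (hK : ∀ t, Continuous (K t))
    (hKt : ∀ t > 0, ∀ x, ContinuousAt (fun s => K s x) t)
    (hd : ∀ t > 0, ∃ C : ℝ, ∀ t' x : ℝ, t / 2 ≤ t' → t' ≤ 2 * t →
      |K t' x| ≤ C * Real.exp (-(1 / (32 * t)) * x ^ 2)) {t : ℝ} (ht : 0 < t) :
    Tendsto (fun t' => ∫ x, |K t' x - K t x|) (𝓝 t) (𝓝 0) := by
  obtain ⟨C, hC⟩ := hd t ht
  have h0 : (0:ℝ) = ∫ x : ℝ, (0:ℝ) := by simp
  rw [h0]
  refine tendsto_integral_filter_of_dominated_convergence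
    (fun x => 2 * (C * Real.exp (-(1 / (32 * t)) * x ^ 2))) ?_ ?_ ?_ ?_
  · exact Eventually.of_forall fun t' => (((hK t').sub (hK t)).abs).aestronglyMeasurable
  · filter_upwards [time_nhds ht] with t' ht'
    refine ae_of_all _ fun x => ?_
    rw [Real.norm_eq_abs, abs_abs]
    have h1 := hC t' x ht'.1 ht'.2
    have h2 := hC t x (by linarith) (by linarith)
    calc |K t' x - K t x| ≤ |K t' x| + |K t x| := abs_sub _ _
      _ ≤ _ := by linarith
  · exact (integrable_dom C t ht).const_mul 2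
  · refine ae_of_all _ fun x => ?_
    have h3 := hKt t ht x
    have h4 : ContinuousAt (fun s => |K s x - K t x|) t := (h3.sub continuousAt_const).abs
    have h5 := h4.tendsto
    simpa using h5

theorem tendsto_zero_eps {F : ℝ → ℝ} {t : ℝ} (h : Tendsto F (𝓝 t) (𝓝 0)) {ε : ℝ} (hε : 0 < ε) :
    ∃ δ > 0, ∀ t', |t' - t| < δ → F t' ≤ ε := by
  obtain ⟨δ, hδ, h1⟩ := (Metric.tendsto_nhds_nhds.1 h) ε hε
  refine ⟨δ, hδ, fun t' ht' => ?_⟩
  have := h1 (x := t') (by rwa [Real.dist_eq])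
  rw [Real.dist_eq, sub_zero] at this
  exact (le_abs_self _).trans this.le

theorem continuousAt_gK0_time {t : ℝ} (ht : 0 < t) (x : ℝ) : ContinuousAt (fun s => gK0 s x) t :=
  (hasDerivAt_gK0_time ht x).continuousAt

theorem continuousAt_gK1_time {t : ℝ} (ht : 0 < t) (x : ℝ) : ContinuousAt (fun s => gK1 s x) t := by
  have h1 : ContinuousAt (fun s : ℝ => -(x / (2 * s))) t := by
    have : 2 * t ≠ 0 := by positivity
    fun_prop (disch := assumption)
  exact h1.mul (continuousAt_gK0_time ht x)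

theorem continuousAt_gK2_time {t : ℝ} (ht : 0 < t) (x : ℝ) : ContinuousAt (fun s => gK2 s x) t := by
  have h1 : ContinuousAt (fun s : ℝ => (x ^ 2 / (4 * s ^ 2) - 1 / (2 * s))) t := by
    have h2 : 2 * t ≠ 0 := by positivity
    have h3 : 4 * t ^ 2 ≠ 0 := by positivity
    fun_prop (disch := assumption)
  exact h1.mul (continuousAt_gK0_time ht x)

/-- Continuity in time, uniformly in `z` and in `h`. -/
theorem P1_time {t : ℝ} (ht : 0 < t) {ε : ℝ} (hε : 0 < ε) : ∃ δ > 0, ∀ t' > 0, |t' - t| < δ →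
    ∀ (M : ℝ) (h : ℝ → ℂ), BM M h → ∀ z, ‖gP1 t' h z - gP1 t h z‖ ≤ ε * M := by
  obtain ⟨δ, hδ, h1⟩ := tendsto_zero_eps (l1_time (K := gK1) continuous_gK1
    (fun t ht x => continuousAt_gK1_time ht x) (fun t ht => by
      obtain ⟨C, -, hC⟩ := gK_dom ht
      exact ⟨C, fun t' x a b => (hC t' x x a b (by simp)).2.1⟩) ht) hε
  refine ⟨δ, hδ, fun t' ht' hd M h hh z => ?_⟩
  rw [gP1_eq, gP1_eq, cv_sub hh (integrable_gK1 ht') (integrable_gK1 ht)]
  refine (hh.cv_norm ((integrable_gK1 ht').sub (integrable_gK1 ht)) z).trans ?_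
  exact mul_le_mul_of_nonneg_right (h1 t' hd) hh.nonneg

theorem P2_time {t : ℝ} (ht : 0 < t) {ε : ℝ} (hε : 0 < ε) : ∃ δ > 0, ∀ t' > 0, |t' - t| < δ →
    ∀ (M : ℝ) (h : ℝ → ℂ), BM M h → ∀ z, ‖gP2 t' h z - gP2 t h z‖ ≤ ε * M := by
  obtain ⟨δ, hδ, h1⟩ := tendsto_zero_eps (l1_time (K := gK2) continuous_gK2
    (fun t ht x => continuousAt_gK2_time ht x) (fun t ht => by
      obtain ⟨C, -, hC⟩ := gK_dom ht
      exact ⟨C, fun t' x a b => (hC t' x x a b (by simp)).2.2⟩) ht) hε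
  refine ⟨δ, hδ, fun t' ht' hd M h hh z => ?_⟩
  rw [gP2_eq, gP2_eq, cv_sub hh (integrable_gK2 ht') (integrable_gK2 ht)]
  refine (hh.cv_norm ((integrable_gK2 ht').sub (integrable_gK2 ht)) z).trans ?_
  exact mul_le_mul_of_nonneg_right (h1 t' hd) hh.nonneg

/-- Continuity in time of `gP0`. -/
theorem P0_time_cont {t : ℝ} (ht : 0 < t) {ε : ℝ} (hε : 0 < ε) : ∃ δ > 0, ∀ t' > 0, |t' - t| < δ →
    ∀ (M : ℝ) (h : ℝ → ℂ), BM M h → ∀ z, ‖gP0 t' h z - gP0 t h z‖ ≤ ε * M := by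
  obtain ⟨δ, hδ, h1⟩ := tendsto_zero_eps (l1_time (K := gK0) continuous_gK0
    (fun t ht x => continuousAt_gK0_time ht x) (fun t ht => by
      obtain ⟨C, -, hC⟩ := gK_dom ht
      exact ⟨C, fun t' x a b => (hC t' x x a b (by simp)).1⟩) ht) hε
  refine ⟨δ, hδ, fun t' ht' hd M h hh z => ?_⟩
  rw [gP0_eq, gP0_eq, cv_sub hh (integrable_gK0 ht') (integrable_gK0 ht)]
  refine (hh.cv_norm ((integrable_gK0 ht').sub (integrable_gK0 ht)) z).trans ?_
  exact mul_le_mul_of_nonneg_right (h1 t' hd) hh.nonneg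

/-- The error of the first order expansion in time. -/
noncomputable def gE (t t' x : ℝ) : ℝ := gK0 t' x - gK0 t x - (t' - t) * gK2 t x

theorem integrable_gE {t t' : ℝ} (ht : 0 < t) (ht' : 0 < t') : Integrable (gE t t') :=
  ((integrable_gK0 ht').sub (integrable_gK0 ht)).sub ((integrable_gK2 ht).const_mul _)

theorem gE_tendsto {t : ℝ} (ht : 0 < t) :
    Tendsto (fun t' => ∫ x, |gE t t' x| / |t' - t|) (𝓝 t) (𝓝 0) := by
  obtain ⟨C, hC0, hC⟩ := gK_dom ht
  have h0 : (0:ℝ) = ∫ x : ℝ, (0:ℝ) := by simp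
  rw [h0]
  refine tendsto_integral_filter_of_dominated_convergence
    (fun x => 2 * (C * Real.exp (-(1 / (32 * t)) * x ^ 2))) ?_ ?_ ?_ ?_
  · refine Eventually.of_forall fun t' => Continuous.aestronglyMeasurable ?_
    have h1 := continuous_gK0 t'
    have h2 := continuous_gK0 t
    have h3 := continuous_gK2 t
    have h4 : (fun x => |gE t t' x| / |t' - t|) =
      fun x => |gK0 t' x - gK0 t x - (t' - t) * gK2 t x| / |t' - t| := rfl
    rw [h4]
    fun_prop
  · filter_upwards [time_nhds ht] with t' ht'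
    refine ae_of_all _ fun x => ?_
    have hB : 0 ≤ C * Real.exp (-(1 / (32 * t)) * x ^ 2) := by positivity
    rw [Real.norm_eq_abs, abs_div, abs_abs, abs_abs]
    refine div_le_of_le_mul₀ (abs_nonneg _) (by positivity) ?_
    have h1 : |gK0 t' x - gK0 t x| ≤ C * Real.exp (-(1 / (32 * t)) * x ^ 2) * |t' - t| := by
      have := Convex.norm_image_sub_le_of_norm_hasDerivWithin_le (f := fun s => gK0 s x)
        (f' := fun s => gK2 s x) (C := C * Real.exp (-(1 / (32 * t)) * x ^ 2))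
        (s := Icc (t / 2) (2 * t)) (x := t) (y := t')
        (fun s hs => (hasDerivAt_gK0_time (by linarith [hs.1]) x).hasDerivWithinAt)
        (fun s hs => (hC s x x hs.1 hs.2 (by simp)).2.2) (convex_Icc _ _)
        ⟨by linarith, by linarith⟩ ⟨ht'.1, ht'.2⟩
      simpa [Real.norm_eq_abs] using this
    have h2 : |(t' - t) * gK2 t x| ≤ C * Real.exp (-(1 / (32 * t)) * x ^ 2) * |t' - t| := by
      rw [abs_mul, mul_comm]
      refine mul_le_mul_of_nonneg_right ?_ (abs_nonneg _)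
      exact (hC t x x (by linarith) (by linarith) (by simp)).2.2
    calc |gE t t' x| ≤ |gK0 t' x - gK0 t x| + |(t' - t) * gK2 t x| := abs_sub _ _
      _ ≤ _ := by linarith
  · exact (integrable_dom C t ht).const_mul 2
  · refine ae_of_all _ fun x => ?_
    have h1 := (hasDerivAt_gK0_time ht x)
    rw [hasDerivAt_iff_isLittleO] at h1
    rw [Metric.tendsto_nhds]
    intro ε hε
    have h2 := h1.def (half_pos hε)
    filter_upwards [h2] with t' h3
    rw [Real.dist_eq, sub_zero, abs_div, abs_abs, abs_abs]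
    have h4 : |gE t t' x| ≤ ε / 2 * |t' - t| := by
      simpa [gE, smul_eq_mul, Real.norm_eq_abs] using h3
    refine lt_of_le_of_lt (div_le_of_le_mul₀ (abs_nonneg _) (by positivity) h4) (by linarith)

/-- Time derivative, uniformly in `z` and in `h`. -/
theorem P0_time {t : ℝ} (ht : 0 < t) {ε : ℝ} (hε : 0 < ε) : ∃ δ > 0, ∀ t' > 0, |t' - t| < δ →
    ∀ (M : ℝ) (h : ℝ → ℂ), BM M h → ∀ z,
      ‖gP0 t' h z - gP0 t h z - (((t' - t) : ℝ) : ℂ) * gP2 t h z‖ ≤ ε * |t' - t| * M := by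
  obtain ⟨δ, hδ, h1⟩ := tendsto_zero_eps (gE_tendsto ht) hε
  refine ⟨δ, hδ, fun t' ht' hd M h hh z => ?_⟩
  have h2 : gP0 t' h z - gP0 t h z - (((t' - t) : ℝ) : ℂ) * gP2 t h z = cv (gE t t') h z := by
    rw [gP0_eq, gP0_eq, gP2_eq, cv_sub hh (integrable_gK0 ht') (integrable_gK0 ht)]
    have e1 : (((t' - t) : ℝ) : ℂ) * cv (gK2 t) h z = cv (fun x => (t' - t) * gK2 t x) h z := by
      unfold cv
      rw [← integral_const_mul]
      congr 1
      funext x
      push_cast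
      ring
    rw [e1, cv_sub hh (K := fun x => gK0 t' x - gK0 t x) ((integrable_gK0 ht').sub (integrable_gK0 ht))
      ((integrable_gK2 ht).const_mul _)]
    rfl
  rw [h2]
  refine (hh.cv_norm (integrable_gE ht ht') z).trans ?_
  refine mul_le_mul_of_nonneg_right ?_ hh.nonneg
  have h3 := h1 t' hd
  rw [integral_div] at h3
  rcases eq_or_ne t' t with h4 | h4
  · subst h4
    have : (fun x => |gE t' t' x|) = fun _ => 0 := by
      funext x; unfold gE; simp
    rw [this]; simp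
  · have h5 : 0 < |t' - t| := abs_pos.2 (sub_ne_zero.2 h4)
    rwa [div_le_iff₀ h5] at h3

/-! ### Initial behaviour -/

theorem BM.init (hh : BM M h) {t : ℝ} (ht : 0 < t) {z d ε : ℝ} (hd : 0 < d) (hε : 0 ≤ ε)
    (hz : ∀ x, |x| < d → ‖h (z - x) - h z‖ ≤ ε) :
    ‖gP0 t h z - h z‖ ≤ ε + 2 * M / d ^ 2 * (2 * t) := by
  have h1 : gP0 t h z - h z = ∫ x, ((gK0 t x : ℝ) : ℂ) * (h (z - x) - h z) := by
    have h2 : ∫ x, ((gK0 t x : ℝ) : ℂ) * h z = h z := by
      rw [integral_mul_const]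
      have h3 : ∫ x, ((gK0 t x : ℝ) : ℂ) = 1 := by
        have := integral_ofReal (f := gK0 t) (𝕜 := ℂ) (μ := volume)
        rw [integral_gK0 ht] at this
        simpa using this
      rw [h3, one_mul]
    rw [gP0_eq, cv_eq]
    have h4 : ∫ x, ((gK0 t x : ℝ) : ℂ) * (h (z - x) - h z) =
        ∫ x, (((gK0 t x : ℝ) : ℂ) * h (z - x) - ((gK0 t x : ℝ) : ℂ) * h z) := by
      congr 1; funext x; ring
    have h5 : Integrable fun x => ((gK0 t x : ℝ) : ℂ) * h z :=
      (integrable_gK0 ht).ofReal.mul_const _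
    have h6 : Integrable fun x => ((gK0 t x : ℝ) : ℂ) * h (z - x) :=
      (hh.shift z).int (integrable_gK0 ht)
    rw [h4, integral_sub h6 h5, h2]
  rw [h1]
  have hM := hh.nonneg
  have h5 : ∀ x, ‖((gK0 t x : ℝ) : ℂ) * (h (z - x) - h z)‖ ≤
      ε * gK0 t x + 2 * M / d ^ 2 * (x ^ 2 * gK0 t x) := by
    intro x
    rw [norm_mul, Complex.norm_real, Real.norm_eq_abs, abs_of_nonneg (gK0_nonneg t x)]
    have h6 : ‖h (z - x) - h z‖ ≤ ε + 2 * M / d ^ 2 * x ^ 2 := by
      rcases lt_or_ge |x| d with h7 | h7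
      · have := hz x h7
        have : 0 ≤ 2 * M / d ^ 2 * x ^ 2 := by positivity
        linarith
      · have h8 : ‖h (z - x) - h z‖ ≤ 2 * M := by
          refine (norm_sub_le _ _).trans ?_
          linarith [hh.bd (z - x), hh.bd z]
        have h9 : d ^ 2 ≤ x ^ 2 := by
          rw [← sq_abs x]
          exact pow_le_pow_left₀ hd.le h7 2
        have h10 : 2 * M ≤ 2 * M / d ^ 2 * x ^ 2 := by
          have : 2 * M = 2 * M / d ^ 2 * d ^ 2 := by field_simp
          calc 2 * M = 2 * M / d ^ 2 * d ^ 2 := this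
            _ ≤ 2 * M / d ^ 2 * x ^ 2 := by gcongr
        linarith
    have h11 := mul_le_mul_of_nonneg_left h6 (gK0_nonneg t x)
    refine h11.trans (le_of_eq ?_)
    ring
  have i1 := (integrable_gK0 ht).const_mul ε
  have i2 := (integrable_sq_gK0 ht).const_mul (2 * M / d ^ 2)
  refine (norm_integral_le_of_norm_le (i1.add i2) (ae_of_all _ h5)).trans (le_of_eq ?_)
  rw [integral_add' i1 i2, integral_const_mul, integral_const_mul, integral_sq_gK0 ht,
    integral_gK0 ht, mul_one]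

theorem init_delta {M d ε : ℝ} (hM : 0 ≤ M) (hd : 0 < d) (hε : 0 < ε) :
    ∃ δ > 0, ∀ t ∈ Ioo 0 δ, ε / 2 + 2 * M / d ^ 2 * (2 * t) ≤ ε := by
  refine ⟨ε * d ^ 2 / (8 * (M + 1)), by positivity, fun t ht => ?_⟩
  have h1 : 2 * M / d ^ 2 * (2 * t) ≤ ε / 2 := by
    have h2 : t * (8 * (M + 1)) ≤ ε * d ^ 2 := by
      have := ht.2.le
      rwa [le_div_iff₀ (by positivity)] at this
    rw [div_mul_eq_mul_div, div_le_iff₀ (by positivity)]
    nlinarith [ht.1]
  linarith

/-- Initial behaviour for uniformly continuous functions. -/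
theorem BM.P0_init (hh : BM M h) (hu : UniformContinuous h) {ε : ℝ} (hε : 0 < ε) :
    ∃ δ > 0, ∀ t ∈ Ioo 0 δ, ∀ z, ‖gP0 t h z - h z‖ ≤ ε := by
  obtain ⟨d, hd, h1⟩ := Metric.uniformContinuous_iff.1 hu (ε / 2) (half_pos hε)
  obtain ⟨δ, hδ, h2⟩ := init_delta hh.nonneg hd hε
  refine ⟨δ, hδ, fun t ht z => ?_⟩
  refine (hh.init ht.1 hd (half_pos hε).le fun x hx => ?_).trans (h2 t ht)
  have := h1 (a := z - x) (b := z) (by
    rw [Real.dist_eq]; simpa using hx)
  rw [dist_eq_norm] at this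
  exact this.le

/-- Local initial behaviour. -/
theorem BM.P0_loc (hh : BM M h) {a b : ℝ} (hc : ContinuousOn h (Icc a b)) {β ε : ℝ} (hβ : 0 < β)
    (hε : 0 < ε) : ∃ δ > 0, ∀ t ∈ Ioo 0 δ, ∀ z ∈ Icc (a + β) (b - β), ‖gP0 t h z - h z‖ ≤ ε := by
  have hu := isCompact_Icc.uniformContinuousOn_of_continuous hc
  obtain ⟨d, hd, h1⟩ := Metric.uniformContinuousOn_iff.1 hu (ε / 2) (half_pos hε)
  have hd' : 0 < min d β := lt_min hd hβ
  obtain ⟨δ, hδ, h2⟩ := init_delta hh.nonneg hd' hε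
  refine ⟨δ, hδ, fun t ht z hz => ?_⟩
  refine (hh.init ht.1 hd' (half_pos hε).le fun x hx => ?_).trans (h2 t ht)
  have hx1 : |x| < d := hx.trans_le (min_le_left _ _)
  have hx2 : |x| < β := hx.trans_le (min_le_right _ _)
  rw [abs_lt] at hx2
  have := h1 (z - x) ⟨by linarith [hz.1], by linarith [hz.2]⟩ z
    ⟨by linarith [hz.1], by linarith [hz.2]⟩ (by rw [Real.dist_eq]; simpa using hx1)
  rw [dist_eq_norm] at this
  exact this.le

/-- Derivative of the initial function. -/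
theorem BM.P1_of_der {M' : ℝ} {h' : ℝ → ℂ} (hh : BM M h) (hh' : BM M' h') (hc : Continuous h')
    (hd : ∀ z, HasDerivAt h (h' z) z) {t : ℝ} (ht : 0 < t) (z : ℝ) : gP1 t h z = gP0 t h' z := by
  have h1 := hh.P0_der ht z
  have h2 : HasDerivAt (gP0 t h) (gP0 t h' z) z := by
    have e1 : gP0 t h = fun z => ∫ x, ((gK0 t x : ℝ) : ℂ) * h (z - x) := by
      funext z; exact cv_eq _ _ _
    have e2 : gP0 t h' z = ∫ x, ((gK0 t x : ℝ) : ℂ) * h' (z - x) := cv_eq _ _ _
    rw [e1, e2]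
    refine (hasDerivAt_integral_of_dominated_loc_of_deriv_le
      (F := fun z x => ((gK0 t x : ℝ) : ℂ) * h (z - x))
      (F' := fun z x => ((gK0 t x : ℝ) : ℂ) * h' (z - x)) (bound := fun x => gK0 t x * M')
      (Metric.ball_mem_nhds z one_pos) ?_ ?_ ?_ ?_ ?_ ?_).2
    · exact Eventually.of_forall fun z' => ((hh.shift z').int (integrable_gK0 ht)).aestronglyMeasurable
    · exact (hh.shift z).int (integrable_gK0 ht)
    · exact ((hh'.shift z).int (integrable_gK0 ht)).aestronglyMeasurable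
    · refine ae_of_all _ fun x z' _ => ?_
      rw [norm_mul, Complex.norm_real, Real.norm_eq_abs, abs_of_nonneg (gK0_nonneg t x)]
      exact mul_le_mul_of_nonneg_left (hh'.bd _) (gK0_nonneg t x)
    · exact (integrable_gK0 ht).mul_const M'
    · refine ae_of_all _ fun x z' _ => ?_
      have h3 : HasDerivAt (fun z : ℝ => h (z - x)) (h' (z' - x)) z' := by
        simpa using (hd (z' - x)).comp_sub_const z' x
      exact h3.const_mul _
  exact h1.unique h2

theorem P0_star (t : ℝ) (h : ℝ → ℂ) (z : ℝ) : gP0 t (fun x => star (h x)) z = star (gP0 t h z) := by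
  unfold gP0
  have h1 := integral_conj (𝕜 := ℂ) (μ := volume) (f := fun x => ((gK0 t (z - x) : ℝ) : ℂ) * h x)
  have h2 : star (∫ x, ((gK0 t (z - x) : ℝ) : ℂ) * h x) =
      (starRingEnd ℂ) (∫ x, ((gK0 t (z - x) : ℝ) : ℂ) * h x) := rfl
  rw [h2, ← h1]
  congr 1
  funext x
  rw [map_mul, Complex.conj_ofReal]
  rfl

theorem P1_star (t : ℝ) (h : ℝ → ℂ) (z : ℝ) : gP1 t (fun x => star (h x)) z = star (gP1 t h z) := by
  unfold gP1
  have h1 := integral_conj (𝕜 := ℂ) (μ := volume) (f := fun x => ((gK1 t (z - x) : ℝ) : ℂ) * h x)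
  have h2 : star (∫ x, ((gK1 t (z - x) : ℝ) : ℂ) * h x) =
      (starRingEnd ℂ) (∫ x, ((gK1 t (z - x) : ℝ) : ℂ) * h x) := rfl
  rw [h2, ← h1]
  congr 1
  funext x
  rw [map_mul, Complex.conj_ofReal]
  rfl

end Pool.Agent.Lib.MP_79abb3_an.P25
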