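import Pool.Agent.Lib.MP_79abb3_an.P25.DirDef
import Pool.Agent.Lib.MP_79abb3_an.P25.Gauss

/-!
Existence of the Dirichlet heat semigroup on `[0,H]`.
-/

set_option autoImplicit false
set_option linter.unusedSectionVars false

open MeasureTheory Set Filter Topology Function

namespace Pool.Agent.Lib.MP_79abb3_an.P25

namespace Dir

/-! ### Odd periodic functions -/

/-- `F` is odd and `2H`-periodic. -/
structure OP (H : ℝ) (F : ℝ → ℂ) : Prop where
  odd : ∀ x, F (-x) = -F x
  per : ∀ x, F (x + 2 * H) = F x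

theorem OP.zero {H : ℝ} {F : ℝ → ℂ} (h : OP H F) : F 0 = 0 := by
  have := h.odd 0
  rw [neg_zero] at this
  exact self_eq_neg.1 this

theorem OP.atH {H : ℝ} {F : ℝ → ℂ} (h : OP H F) : F H = 0 := by
  have h1 := h.odd H
  have h2 := h.per (-H)
  rw [show -H + 2 * H = H by ring] at h2
  rw [← h2] at h1
  exact self_eq_neg.1 h1

theorem exists_shift {H : ℝ} (hH : 0 < H) (x : ℝ) : ∃ (n : ℤ), x - n * (2 * H) ∈ Ico (-H) H := by
  refine ⟨toIcoDiv (by positivity : 0 < 2 * H) (-H) x, ?_⟩
  have h1 := sub_toIcoDiv_zsmul_mem_Ico (by positivity : 0 < 2 * H) (-H) x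
  rw [zsmul_eq_mul] at h1
  rw [show -H + 2 * H = H by ring] at h1
  exact h1

theorem per_int {H : ℝ} {F : ℝ → ℂ} (h : ∀ x, F (x + 2 * H) = F x) (n : ℤ) (x : ℝ) :
    F (x - n * (2 * H)) = F x := by
  have : Function.Periodic F (2 * H) := h
  exact this.sub_int_mul_eq n

/-- Odd periodic functions which agree on `[0,H]` are equal. -/
theorem OP.ext {H : ℝ} (hH : 0 < H) {F G : ℝ → ℂ} (hF : OP H F) (hG : OP H G)
    (h : ∀ x ∈ Icc 0 H, F x = G x) : F = G := by
  funext x
  obtain ⟨n, hn⟩ := exists_shift hH x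
  rw [← per_int hF.per n x, ← per_int hG.per n x]
  rcases le_total 0 (x - n * (2 * H)) with h0 | h0
  · exact h _ ⟨h0, hn.2.le⟩
  · have := h (-(x - n * (2 * H))) ⟨by linarith, by linarith [hn.1]⟩
    rw [hF.odd, hG.odd] at this
    exact neg_injective this

/-- Odd periodic functions which agree on `(0,H)` are equal. -/
theorem OP.ext' {H : ℝ} (hH : 0 < H) {F G : ℝ → ℂ} (hF : OP H F) (hG : OP H G)
    (h : ∀ x ∈ Ioo 0 H, F x = G x) : F = G := by
  refine hF.ext hH hG fun x hx => ?_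
  rcases eq_or_lt_of_le hx.1 with h0 | h0
  · rw [← h0, hF.zero, hG.zero]
  rcases eq_or_lt_of_le hx.2 with h1 | h1
  · rw [h1, hF.atH, hG.atH]
  exact h x ⟨h0, h1⟩

/-- Continuous periodic functions are uniformly continuous. -/
theorem uc_of_per {H : ℝ} (hH : 0 < H) {F : ℝ → ℂ} (h : ∀ x, F (x + 2 * H) = F x)
    (hc : Continuous F) : UniformContinuous F := by
  rw [Metric.uniformContinuous_iff]
  intro ε hε
  have h1 : UniformContinuousOn F (Icc (-(2 * H)) (2 * H)) :=
    isCompact_Icc.uniformContinuousOn_of_continuous hc.continuousOn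
  rw [Metric.uniformContinuousOn_iff] at h1
  obtain ⟨δ, hδ, h2⟩ := h1 ε hε
  refine ⟨min δ H, lt_min hδ hH, fun {x y} hxy => ?_⟩
  obtain ⟨n, hn⟩ := exists_shift hH x
  have hxy' : |x - y| < H := lt_of_lt_of_le hxy (min_le_right _ _)
  rw [abs_lt] at hxy'
  have h3 := h2 (x - n * (2 * H)) ⟨by linarith [hn.1], by linarith [hn.2]⟩ (y - n * (2 * H))
    ⟨by linarith [hn.1], by linarith [hn.2]⟩ (by
      rw [dist_sub_right]
      exact lt_of_lt_of_le hxy (min_le_left _ _))
  rwa [per_int h, per_int h] at h3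

/-! ### The triangle wave -/

/-- The distance to `2Hℤ`. -/
noncomputable def rho (H x : ℝ) : ℝ := (H / Real.pi) * Real.arccos (Real.cos (Real.pi * x / H))

/-- The sign of `sin (π x / H)`. -/
noncomputable def sgn (H x : ℝ) : ℝ :=
  if 0 < Real.sin (Real.pi * x / H) then 1 else if Real.sin (Real.pi * x / H) < 0 then -1 else 0

section wave
variable {H : ℝ} (hH : 0 < H)
include hH

theorem rho_mem (x : ℝ) : rho H x ∈ Icc 0 H := by
  have hpi := Real.pi_pos
  constructor
  · exact mul_nonneg (by positivity) (Real.arccos_nonneg _)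
  · calc rho H x ≤ (H / Real.pi) * Real.pi :=
        mul_le_mul_of_nonneg_left (Real.arccos_le_pi _) (by positivity)
      _ = H := by field_simp

theorem rho_of_mem {x : ℝ} (hx : x ∈ Icc 0 H) : rho H x = x := by
  have hpi := Real.pi_pos
  rw [rho, Real.arccos_cos]
  · field_simp
  · have := hx.1; positivity
  · rw [div_le_iff₀ hH]
    exact mul_le_mul_of_nonneg_left hx.2 hpi.le

theorem rho_neg (x : ℝ) : rho H (-x) = rho H x := by
  rw [rho, rho, show Real.pi * (-x) / H = -(Real.pi * x / H) by ring, Real.cos_neg]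

theorem rho_per (x : ℝ) : rho H (x + 2 * H) = rho H x := by
  rw [rho, rho, show Real.pi * (x + 2 * H) / H = Real.pi * x / H + 2 * Real.pi by field_simp,
    Real.cos_add_two_pi]

theorem continuous_rho : Continuous (rho H) := by
  unfold rho
  exact continuous_const.mul (Real.continuous_arccos.comp
    (Real.continuous_cos.comp (by fun_prop)))

theorem sgn_neg (x : ℝ) : sgn H (-x) = -sgn H x := by
  rw [sgn, sgn, show Real.pi * (-x) / H = -(Real.pi * x / H) by ring, Real.sin_neg]
  rcases lt_trichotomy (Real.sin (Real.pi * x / H)) 0 with h | h | h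
  · rw [if_pos (by linarith), if_neg (by linarith), if_pos h]; ring
  · rw [h]; simp
  · rw [if_neg (by linarith), if_pos (by linarith), if_pos h]

theorem sgn_per (x : ℝ) : sgn H (x + 2 * H) = sgn H x := by
  rw [sgn, sgn, show Real.pi * (x + 2 * H) / H = Real.pi * x / H + 2 * Real.pi by field_simp,
    Real.sin_add_two_pi]

theorem sgn_of_mem {x : ℝ} (hx : x ∈ Ioo 0 H) : sgn H x = 1 := by
  have hpi := Real.pi_pos
  rw [sgn, if_pos]
  apply Real.sin_pos_of_pos_of_lt_pi
  · have := hx.1; positivity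
  · rw [div_lt_iff₀ hH]
    exact mul_lt_mul_of_pos_left hx.2 hpi

theorem abs_sgn_le (x : ℝ) : |sgn H x| ≤ 1 := by
  rw [sgn]
  split_ifs <;> simp

theorem measurable_sgn : Measurable (sgn H) := by
  have hs : Continuous fun x : ℝ => Real.sin (Real.pi * x / H) :=
    Real.continuous_sin.comp (by fun_prop)
  unfold sgn
  refine Measurable.ite (measurableSet_lt measurable_const hs.measurable) measurable_const ?_
  exact Measurable.ite (measurableSet_lt hs.measurable measurable_const) measurable_const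
    measurable_const

/-- The sign is locally constant where the sine does not vanish. -/
theorem sgn_eventually {x : ℝ} (hx : Real.sin (Real.pi * x / H) ≠ 0) :
    ∀ᶠ y in 𝓝 x, sgn H y = sgn H x := by
  have hs : Continuous fun x : ℝ => Real.sin (Real.pi * x / H) :=
    Real.continuous_sin.comp (by fun_prop)
  rcases lt_or_gt_of_ne hx with h | h
  · have := hs.continuousAt.eventually (gt_mem_nhds h)
    filter_upwards [this] with y hy
    rw [sgn, sgn, if_neg (by linarith), if_pos hy, if_neg (by linarith), if_pos h]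
  · have := hs.continuousAt.eventually (lt_mem_nhds h)
    filter_upwards [this] with y hy
    rw [sgn, sgn, if_pos hy, if_pos h]

theorem rho_of_sin_eq_zero {x : ℝ} (hx : Real.sin (Real.pi * x / H) = 0) :
    rho H x = 0 ∨ rho H x = H := by
  have hpi := Real.pi_pos
  have h1 : Real.cos (Real.pi * x / H) ^ 2 = 1 := by
    have := Real.sin_sq_add_cos_sq (Real.pi * x / H)
    rw [hx] at this
    linarith
  rw [sq] at h1
  rcases mul_self_eq_one_iff.1 h1 with h | h
  · left; rw [rho, h, Real.arccos_one, mul_zero]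
  · right; rw [rho, h, Real.arccos_neg_one]; field_simp

end wave

/-! ### Extensions of functions on `[0,H]` -/

section ext
variable {H : ℝ} [hH : Fact (0 < H)]

/-- The odd `2H`-periodic extension. -/
noncomputable def oext (f : CI H) (x : ℝ) : ℂ := ((sgn H x : ℝ) : ℂ) * ex f (rho H x)

/-- The even `2H`-periodic extension. -/
noncomputable def eext (f : CI H) (x : ℝ) : ℂ := ex f (rho H x)

theorem oext_OP (f : CI H) : OP H (oext f) :=
  ⟨fun x => by rw [oext, oext, sgn_neg hH.out, rho_neg hH.out]; push_cast; ring,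
    fun x => by rw [oext, oext, sgn_per hH.out, rho_per hH.out]⟩

theorem oext_of_mem (f : CI H) {x : ℝ} (hx : x ∈ Ioo 0 H) : oext f x = ex f x := by
  rw [oext, sgn_of_mem hH.out hx, rho_of_mem hH.out ⟨hx.1.le, hx.2.le⟩]; simp

theorem oext_of_mem' (f : CI H) (h0 : ex f 0 = 0) (h1 : ex f H = 0) {x : ℝ} (hx : x ∈ Icc 0 H) :
    oext f x = ex f x := by
  rcases eq_or_lt_of_le hx.1 with h | h
  · rw [← h, (oext_OP f).zero, h0]
  rcases eq_or_lt_of_le hx.2 with h' | h'
  · rw [h', (oext_OP f).atH, h1]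
  exact oext_of_mem f ⟨h, h'⟩

theorem eext_of_mem (f : CI H) {x : ℝ} (hx : x ∈ Icc 0 H) : eext f x = ex f x := by
  rw [eext, rho_of_mem hH.out hx]

theorem eext_per (f : CI H) (x : ℝ) : eext f (x + 2 * H) = eext f x := by
  rw [eext, eext, rho_per hH.out]

theorem eext_neg (f : CI H) (x : ℝ) : eext f (-x) = eext f x := by
  rw [eext, eext, rho_neg hH.out]

theorem continuous_eext (f : CI H) : Continuous (eext f) :=
  (continuous_ex f).comp (continuous_rho hH.out)

theorem norm_oext_le (f : CI H) (x : ℝ) : ‖oext f x‖ ≤ ‖f‖ := by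
  rw [oext, norm_mul, Complex.norm_real, Real.norm_eq_abs]
  calc |sgn H x| * ‖ex f (rho H x)‖ ≤ 1 * ‖f‖ :=
        mul_le_mul (abs_sgn_le hH.out x) (norm_ex_le f _) (norm_nonneg _) zero_le_one
    _ = ‖f‖ := one_mul _

theorem bm_oext (f : CI H) : BM ‖f‖ (oext f) where
  meas := by
    have h1 : Measurable (oext f) := by
      unfold oext
      exact (Complex.measurable_ofReal.comp (measurable_sgn hH.out)).mul
        ((continuous_ex f).comp (continuous_rho hH.out)).measurable
    exact h1.aestronglyMeasurable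
  bd := norm_oext_le f

theorem bm_eext (f : CI H) : BM ‖f‖ (eext f) where
  meas := (continuous_eext f).aestronglyMeasurable
  bd := fun _ => norm_ex_le f _

theorem continuous_oext (f : CI H) (h0 : ex f 0 = 0) (h1 : ex f H = 0) :
    Continuous (oext f) := by
  rw [continuous_iff_continuousAt]
  intro x
  by_cases hx : Real.sin (Real.pi * x / H) = 0
  · have hz : eext f x = 0 := by
      rw [eext]
      rcases rho_of_sin_eq_zero hH.out hx with h | h
      · rw [h, h0]
      · rw [h, h1]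
    have hz' : oext f x = 0 := by
      rw [oext, show ex f (rho H x) = 0 from hz, mul_zero]
    rw [ContinuousAt, hz']
    have h2 : Tendsto (fun y => ‖eext f y‖) (𝓝 x) (𝓝 0) := by
      have := (continuous_eext f).norm.continuousAt (x := x)
      rw [ContinuousAt, hz, norm_zero] at this
      exact this
    refine squeeze_zero_norm (fun y => ?_) h2
    rw [oext, norm_mul, Complex.norm_real, Real.norm_eq_abs]
    calc |sgn H y| * ‖ex f (rho H y)‖ ≤ 1 * ‖eext f y‖ :=
          mul_le_mul_of_nonneg_right (abs_sgn_le hH.out y) (norm_nonneg _)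
      _ = ‖eext f y‖ := one_mul _
  · have h2 := sgn_eventually hH.out hx
    have h3 : ContinuousAt (fun y => ((sgn H x : ℝ) : ℂ) * eext f y) x :=
      (continuous_const.mul (continuous_eext f)).continuousAt
    refine h3.congr ?_
    filter_upwards [h2] with y hy
    rw [oext, hy, eext]

theorem uc_oext (f : CI H) (h0 : ex f 0 = 0) (h1 : ex f H = 0) : UniformContinuous (oext f) :=
  uc_of_per hH.out (oext_OP f).per (continuous_oext f h0 h1)

theorem uc_eext (f : CI H) : UniformContinuous (eext f) :=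
  uc_of_per hH.out (eext_per f) (continuous_eext f)

/-- The derivative of the odd extension is the even extension of the derivative. -/
theorem hasDerivAt_oext (f f1 : CI H) (hf : IsD f f1) (h0 : ex f 0 = 0) (h1 : ex f H = 0)
    (z : ℝ) : HasDerivAt (oext f) (eext f1 z) z := by
  have hHp := hH.out
  let G : ℝ → ℂ := fun x => ∫ y in (0:ℝ)..x, eext f1 y
  have hc := continuous_eext f1
  have hG : ∀ z, HasDerivAt G (eext f1 z) z := fun z =>
    intervalIntegral.integral_hasDerivAt_right (hc.intervalIntegrable _ _)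
      hc.aestronglyMeasurable.stronglyMeasurableAtFilter hc.continuousAt
  have hGf : ∀ x ∈ Icc 0 H, G x = ex f x := by
    intro x hx
    have h2 : ∫ y in (0:ℝ)..x, eext f1 y = ex f x - ex f 0 := by
      apply intervalIntegral.integral_eq_sub_of_hasDeriv_right
      · exact (continuous_ex f).continuousOn
      · intro y hy
        rw [min_eq_left hx.1, max_eq_right hx.1] at hy
        have hyI : y ∈ Icc 0 H := ⟨hy.1.le, hy.2.le.trans hx.2⟩
        rw [eext_of_mem f1 hyI]
        have h3 := hf y hyI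
        have h4 : Icc (0:ℝ) H ∈ 𝓝 y := Icc_mem_nhds hy.1 (hy.2.trans_le hx.2)
        exact (h3.hasDerivAt h4).hasDerivWithinAt
      · exact hc.intervalIntegrable _ _
    show (∫ y in (0:ℝ)..x, eext f1 y) = ex f x
    rw [h2, h0, sub_zero]
  have hGodd : ∀ x, G (-x) = -G x := by
    intro x
    show (∫ y in (0:ℝ)..(-x), eext f1 y) = -∫ y in (0:ℝ)..x, eext f1 y
    have h2 := intervalIntegral.integral_comp_neg (a := 0) (b := x) (fun y => eext f1 y)
    simp only [eext_neg, neg_zero] at h2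
    rw [h2, intervalIntegral.integral_symm (-x) 0]
  have hGper : ∀ x, G (x + 2 * H) = G x := by
    intro x
    have h2 : G (x + 2 * H) - G x = ∫ y in x..(x + 2 * H), eext f1 y := by
      show (∫ y in (0:ℝ)..(x + 2 * H), eext f1 y) - (∫ y in (0:ℝ)..x, eext f1 y) = _
      rw [intervalIntegral.integral_interval_sub_left (hc.intervalIntegrable _ _)
        (hc.intervalIntegrable _ _)]
    have h3 : ∫ y in x..(x + 2 * H), eext f1 y = ∫ y in (-H)..(-H + 2 * H), eext f1 y :=
      Function.Periodic.intervalIntegral_add_eq (eext_per f1) x (-H)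
    have h4 : ∫ y in (-H)..(-H + 2 * H), eext f1 y = G H - G (-H) := by
      show _ = (∫ y in (0:ℝ)..H, eext f1 y) - (∫ y in (0:ℝ)..(-H), eext f1 y)
      rw [intervalIntegral.integral_interval_sub_left (hc.intervalIntegrable _ _)
        (hc.intervalIntegrable _ _)]
      rw [show -H + 2 * H = H by ring]
    rw [hGodd, hGf H ⟨hHp.le, le_rfl⟩, h1] at h4
    rw [h3, h4] at h2
    simpa [sub_eq_zero] using h2
  have hGO : OP H G := ⟨hGodd, hGper⟩
  have : oext f = G := (oext_OP f).ext hHp hGO fun x hx => by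
    rw [oext_of_mem' f h0 h1 hx, hGf x hx]
  rw [this]
  exact hG z

theorem oext_add (f g : CI H) : oext (f + g) = fun x => oext f x + oext g x := by
  funext x; simp only [oext, ex_add]; ring

theorem oext_smul (c : ℂ) (f : CI H) : oext (c • f) = fun x => c * oext f x := by
  funext x; simp only [oext, ex_smul]; ring

theorem oext_star (f : CI H) : oext (star f) = fun x => star (oext f x) := by
  funext x
  simp only [oext, ex_star, star_mul']
  congr 1
  exact (Complex.conj_ofReal _).symm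

end ext

/-! ### Convolutions -/

/-- Convolution with a real kernel. -/
noncomputable def cv (K : ℝ → ℝ) (h : ℝ → ℂ) (z : ℝ) : ℂ := ∫ x, ((K (z - x) : ℝ) : ℂ) * h x

theorem cv_integrable {K : ℝ → ℝ} (hK : Integrable K) {M : ℝ} {h : ℝ → ℂ} (hh : BM M h) (z : ℝ) :
    Integrable fun x => ((K (z - x) : ℝ) : ℂ) * h x :=
  ((hK.comp_sub_left z).ofReal (𝕜 := ℂ)).mul_bdd hh.meas (Eventually.of_forall hh.bd)

theorem cv_add {K : ℝ → ℝ} (hK : Integrable K) {M M' : ℝ} {h h' : ℝ → ℂ} (hh : BM M h)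
    (hh' : BM M' h') (z : ℝ) : cv K (fun x => h x + h' x) z = cv K h z + cv K h' z := by
  unfold cv
  rw [← integral_add (cv_integrable hK hh z) (cv_integrable hK hh' z)]
  simp only [mul_add]

theorem cv_smul (K : ℝ → ℝ) (c : ℂ) (h : ℝ → ℂ) (z : ℝ) :
    cv K (fun x => c * h x) z = c * cv K h z := by
  unfold cv
  rw [← integral_const_mul]
  congr 1
  funext x
  ring

theorem cv_odd {K : ℝ → ℝ} (hK : ∀ x, K (-x) = K x) {h : ℝ → ℂ} (hh : ∀ x, h (-x) = -h x)
    (z : ℝ) : cv K h (-z) = -cv K h z := by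
  unfold cv
  rw [← integral_neg, ← integral_neg_eq_self]
  congr 1
  funext x
  rw [hh, show -z - -x = -(z - x) by ring, hK]
  ring

theorem cv_per (K : ℝ → ℝ) {h : ℝ → ℂ} {T : ℝ} (hh : ∀ x, h (x + T) = h x) (z : ℝ) :
    cv K h (z + T) = cv K h z := by
  unfold cv
  rw [← integral_add_right_eq_self _ T]
  congr 1
  funext x
  rw [hh, show z + T - (x + T) = z - x by ring]

theorem OP.cv {H : ℝ} {F : ℝ → ℂ} (hF : OP H F) {K : ℝ → ℝ} (hK : ∀ x, K (-x) = K x) :
    OP H (cv K F) :=
  ⟨cv_odd hK hF.odd, cv_per K hF.per⟩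

/-- The operator on `C([0,H])` given by a kernel. -/
noncomputable def op {H : ℝ} [hH : Fact (0 < H)] (K : ℝ → ℝ) (hK : Integrable K) (C : ℝ)
    (hn : ∀ M h, BM M h → ∀ z, ‖cv K h z‖ ≤ C * M) (hc : ∀ M h, BM M h → Continuous (cv K h)) :
    CI H →L[ℂ] CI H :=
  LinearMap.mkContinuous
    { toFun := fun f => mkCI (cv K (oext f)) (hc _ _ (bm_oext f)).continuousOn
      map_add' := fun f g => ci_ext fun z hz => by
        rw [ex_add, ex_mkCI _ hz, ex_mkCI _ hz, ex_mkCI _ hz, oext_add,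
          cv_add hK (bm_oext f) (bm_oext g)]
      map_smul' := fun c f => ci_ext fun z hz => by
        rw [RingHom.id_apply, ex_smul, ex_mkCI _ hz, ex_mkCI _ hz, oext_smul, cv_smul] } C
    (fun f => by
      have h0 : 0 ≤ C * ‖f‖ := (norm_nonneg _).trans (hn _ _ (bm_oext f) 0)
      refine ci_norm_le h0 fun z hz => ?_
      show ‖ex (mkCI (cv K (oext f)) (hc _ _ (bm_oext f)).continuousOn) z‖ ≤ _
      rw [ex_mkCI _ hz]
      exact hn _ _ (bm_oext f) z)

theorem ex_op {H : ℝ} [hH : Fact (0 < H)] (K : ℝ → ℝ) (hK : Integrable K) (C : ℝ)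
    (hn : ∀ M h, BM M h → ∀ z, ‖cv K h z‖ ≤ C * M) (hc : ∀ M h, BM M h → Continuous (cv K h))
    (f : CI H) {z : ℝ} (hz : z ∈ Icc 0 H) : ex (op K hK C hn hc f) z = cv K (oext f) z :=
  ex_mkCI (hc _ _ (bm_oext f)).continuousOn hz

/-! ### Kernels -/

theorem gK0_neg (t x : ℝ) : gK0 t (-x) = gK0 t x := by simp [gK0]
theorem gK2_neg (t x : ℝ) : gK2 t (-x) = gK2 t x := by simp [gK2, gK0]

theorem exp_eq (t x : ℝ) : Real.exp (-x ^ 2 / (4 * t)) = Real.exp (-(1 / (4 * t)) * x ^ 2) := by
  congr 1; ring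

theorem int_gK0 {t : ℝ} (ht : 0 < t) : Integrable (gK0 t) := by
  have h := (integrable_exp_neg_mul_sq (b := 1 / (4 * t)) (by positivity)).const_mul
    (√(4 * Real.pi * t))⁻¹
  refine h.congr (Eventually.of_forall fun x => ?_)
  simp only [gK0, exp_eq]

theorem int_gK1 {t : ℝ} (ht : 0 < t) : Integrable (gK1 t) := by
  have h := (integrable_mul_exp_neg_mul_sq (b := 1 / (4 * t)) (by positivity)).const_mul
    (-(1 / (2 * t)) * (√(4 * Real.pi * t))⁻¹)
  refine h.congr (Eventually.of_forall fun x => ?_)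
  simp only [gK1, gK0, exp_eq]
  ring

theorem int_gK2 {t : ℝ} (ht : 0 < t) : Integrable (gK2 t) := by
  have h := (integrable_rpow_mul_exp_neg_mul_sq (b := 1 / (4 * t)) (by positivity)
    (s := 2) (by norm_num)).const_mul (1 / (4 * t ^ 2) * (√(4 * Real.pi * t))⁻¹)
  refine (h.sub ((int_gK0 ht).const_mul (1 / (2 * t)))).congr (Eventually.of_forall fun x => ?_)
  simp only [gK2, gK0, exp_eq, Real.rpow_two, Pi.sub_apply]
  ring

section ops
variable {H : ℝ} [hH : Fact (0 < H)]

open Classical in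
/-- The heat semigroup. -/
noncomputable def Sop (t : ℝ) : CI H →L[ℂ] CI H :=
  if ht : 0 < t then op (gK0 t) (int_gK0 ht) 1
    (fun _ _ hh z => by rw [one_mul]; exact hh.P0_norm ht z) (fun _ _ hh => hh.P0_cont ht) else 0

open Classical in
/-- Its first derivative. -/
noncomputable def Dop (t : ℝ) : CI H →L[ℂ] CI H :=
  if ht : 0 < t then op (gK1 t) (int_gK1 ht) (√t)⁻¹
    (fun _ _ hh z => hh.P1_norm ht z) (fun _ _ hh => hh.P1_cont ht) else 0

open Classical in
/-- Its second derivative. -/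
noncomputable def Aop (t : ℝ) : CI H →L[ℂ] CI H :=
  if ht : 0 < t then op (gK2 t) (int_gK2 ht) t⁻¹
    (fun _ _ hh z => hh.P2_norm ht z) (fun _ _ hh => hh.P2_cont ht) else 0

theorem ex_Sop {t : ℝ} (ht : 0 < t) (f : CI H) {z : ℝ} (hz : z ∈ Icc 0 H) :
    ex (Sop t f) z = gP0 t (oext f) z := by
  rw [Sop, dif_pos ht]; exact ex_op _ _ _ _ _ f hz

theorem ex_Dop {t : ℝ} (ht : 0 < t) (f : CI H) {z : ℝ} (hz : z ∈ Icc 0 H) :
    ex (Dop t f) z = gP1 t (oext f) z := by
  rw [Dop, dif_pos ht]; exact ex_op _ _ _ _ _ f hz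

theorem ex_Aop {t : ℝ} (ht : 0 < t) (f : CI H) {z : ℝ} (hz : z ∈ Icc 0 H) :
    ex (Aop t f) z = gP2 t (oext f) z := by
  rw [Aop, dif_pos ht]; exact ex_op _ _ _ _ _ f hz

theorem OP_P0 (t : ℝ) (f : CI H) : OP H (gP0 t (oext f)) :=
  (oext_OP f).cv (gK0_neg t)

theorem OP_P2 (t : ℝ) (f : CI H) : OP H (gP2 t (oext f)) :=
  (oext_OP f).cv (gK2_neg t)

theorem oext_Sop {t : ℝ} (ht : 0 < t) (f : CI H) : oext (Sop t f) = gP0 t (oext f) :=
  (oext_OP _).ext' hH.out (OP_P0 t f) fun x hx => by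
    rw [oext_of_mem _ hx, ex_Sop ht f ⟨hx.1.le, hx.2.le⟩]

/-- Uniform continuity in time from a kernel estimate. -/
theorem cont_of_time {T : ℝ → (CI H →L[ℂ] CI H)} {G : ℝ → (ℝ → ℂ) → ℝ → ℂ}
    (hT : ∀ t, 0 < t → ∀ f : CI H, ∀ z ∈ Icc 0 H, ex (T t f) z = G t (oext f) z)
    (hG : ∀ t, 0 < t → ∀ ε, 0 < ε → ∃ δ > 0, ∀ t' > 0, |t' - t| < δ →
      ∀ (M : ℝ) (h : ℝ → ℂ), BM M h → ∀ z, ‖G t' h z - G t h z‖ ≤ ε * M) (f : CI H) :
    ContinuousOn (fun t => T t f) (Ioi 0) := by
  intro t ht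
  rw [Metric.continuousWithinAt_iff]
  intro ε hε
  obtain ⟨δ, hδ, h⟩ := hG t ht (ε / (2 * (‖f‖ + 1))) (by positivity)
  refine ⟨δ, hδ, fun {t'} ht' htt => ?_⟩
  rw [dist_eq_norm]
  have h1 : ‖T t' f - T t f‖ ≤ ε / 2 := by
    refine ci_norm_le (by positivity) fun z hz => ?_
    rw [ex_sub, hT t' ht' f z hz, hT t ht f z hz]
    refine (h t' ht' htt _ _ (bm_oext f) z).trans ?_
    rw [div_mul_eq_mul_div, div_le_div_iff₀ (by positivity) (by positivity)]
    nlinarith [norm_nonneg f, hε]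
  linarith

theorem S_time (t : ℝ) (ht : 0 < t) (f : CI H) :
    HasDerivAt (fun t => Sop t f) (Aop t f) t := by
  rw [hasDerivAt_iff_isLittleO, Asymptotics.isLittleO_iff]
  intro c hc
  obtain ⟨δ, hδ, h⟩ := P0_time ht (show 0 < c / (‖f‖ + 1) by positivity)
  filter_upwards [Ioi_mem_nhds ht, Metric.ball_mem_nhds t hδ] with t' ht' htt
  refine ci_norm_le (by positivity) fun z hz => ?_
  rw [ex_sub, ex_sub, ex_rsmul, ex_Sop ht' f hz, ex_Sop ht f hz, ex_Aop ht f hz]
  refine (h t' ht' htt _ _ (bm_oext f) z).trans ?_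
  rw [Real.norm_eq_abs]
  have h1 : c / (‖f‖ + 1) * |t' - t| * ‖f‖ = c * |t' - t| * (‖f‖ / (‖f‖ + 1)) := by ring
  rw [h1]
  have h2 : ‖f‖ / (‖f‖ + 1) ≤ 1 := by
    rw [div_le_one (by positivity)]; linarith
  exact mul_le_of_le_one_right (by positivity) h2

theorem S_norm (t : ℝ) (ht : 0 < t) (f : CI H) : ‖Sop t f‖ ≤ ‖f‖ :=
  ci_norm_le (norm_nonneg _) fun z hz => by
    rw [ex_Sop ht f hz]; exact (bm_oext f).P0_norm ht z

theorem S_loc (f : CI H) (β : ℝ) (hβ : β > 0) (ε : ℝ) (hε : ε > 0) :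
    ∃ δ > 0, ∀ t ∈ Ioo 0 δ, ∀ z ∈ Icc β (H - β), ‖ex (Sop t f) z - ex f z‖ ≤ ε := by
  have hc : ContinuousOn (oext f) (Icc (β / 2) (H - β / 2)) := by
    refine (continuous_ex f).continuousOn.congr fun x hx => ?_
    exact oext_of_mem f ⟨by linarith [hx.1], by linarith [hx.2]⟩
  obtain ⟨δ, hδ, h⟩ := (bm_oext f).P0_loc hc (half_pos hβ) hε
  refine ⟨δ, hδ, fun t ht z hz => ?_⟩
  have h1 := h t ht z ⟨by linarith [hz.1], by linarith [hz.2]⟩
  have hzI : z ∈ Ioo 0 H := ⟨by linarith [hz.1], by linarith [hz.2]⟩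
  rw [oext_of_mem f hzI] at h1
  rw [ex_Sop ht.1 f ⟨hzI.1.le, hzI.2.le⟩]
  exact h1

theorem S_L2 (f : CI H) :
    Tendsto (fun t => ∫ z in (0:ℝ)..H, ‖ex (Sop t f) z - ex f z‖ ^ 2) (𝓝[>] 0) (𝓝 0) := by
  have h0 : 𝓝 (0:ℝ) = 𝓝 (∫ z in (0:ℝ)..H, (0:ℝ)) := by simp
  rw [h0]
  have hHp := hH.out
  have hne : ∀ᵐ z : ℝ, z ≠ H := by
    have : ({H} : Set ℝ)ᶜ ∈ ae volume := compl_mem_ae_iff.2 (by simp)
    exact this
  refine intervalIntegral.tendsto_integral_filter_of_dominated_convergence
    (fun _ => (2 * ‖f‖) ^ 2) ?_ ?_ ?_ ?_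
  · refine Eventually.of_forall fun t => ?_
    exact (((continuous_ex _).sub (continuous_ex f)).norm.pow 2).aestronglyMeasurable
  · filter_upwards [self_mem_nhdsWithin] with t ht
    refine Eventually.of_forall fun z _ => ?_
    rw [norm_pow, norm_norm]
    gcongr
    calc ‖ex (Sop t f) z - ex f z‖ ≤ ‖ex (Sop t f) z‖ + ‖ex f z‖ := norm_sub_le _ _
      _ ≤ ‖f‖ + ‖f‖ := add_le_add ((norm_ex_le _ _).trans (S_norm t ht f)) (norm_ex_le _ _)
      _ = 2 * ‖f‖ := by ring
  · exact intervalIntegrable_const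
  · filter_upwards [hne] with z hz hz'
    rw [uIoc_of_le hHp.le] at hz'
    have hz1 : z < H := lt_of_le_of_ne hz'.2 hz
    have hz0 : 0 < z := hz'.1
    have h1 : Tendsto (fun t => ‖ex (Sop t f) z - ex f z‖) (𝓝[>] 0) (𝓝 0) := by
      rw [Metric.tendsto_nhdsWithin_nhds]
      intro ε hε
      obtain ⟨δ, hδ, h⟩ := S_loc f (min z (H - z)) (lt_min hz0 (by linarith)) (ε / 2) (by positivity)
      refine ⟨δ, hδ, fun {t} ht htt => ?_⟩
      have h2 := h t ⟨ht, by
        rw [Real.dist_eq, sub_zero, abs_of_pos ht] at htt; exact htt⟩ z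
        ⟨min_le_left _ _, by linarith [min_le_right z (H - z)]⟩
      rw [Real.dist_eq, sub_zero, abs_of_nonneg (norm_nonneg _)]
      linarith
    have h2 := h1.pow 2
    simpa using h2

end ops

end Dir

open Dir in
/-- Existence of the Dirichlet heat semigroup on `[0,H]`. -/
theorem exists_dir (H : ℝ) [Fact (0 < H)] : ∃ S D A : ℝ → (CI H →L[ℂ] CI H), DirSG H S D A := by
  have hHp : (0:ℝ) < H := Fact.out
  have hz0 : (0:ℝ) ∈ Icc 0 H := ⟨le_rfl, hHp.le⟩
  have hzH : H ∈ Icc 0 H := ⟨hHp.le, le_rfl⟩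
  refine ⟨Sop, Dop, Aop, ?_⟩
  exact
    { S_norm := S_norm
      D_norm := fun t ht f => ci_norm_le (by positivity) fun z hz => by
        rw [ex_Dop ht f hz]; exact (bm_oext f).P1_norm ht z
      A_norm := fun t ht f => ci_norm_le (by positivity) fun z hz => by
        rw [ex_Aop ht f hz]; exact (bm_oext f).P2_norm ht z
      S_der := fun t ht f z hz => by
        rw [ex_Dop ht f hz]
        exact ((bm_oext f).P0_der ht z).hasDerivWithinAt.congr (fun y hy => ex_Sop ht f hy)
          (ex_Sop ht f hz)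
      D_der := fun t ht f z hz => by
        rw [ex_Aop ht f hz]
        exact ((bm_oext f).P1_der ht z).hasDerivWithinAt.congr (fun y hy => ex_Dop ht f hy)
          (ex_Dop ht f hz)
      S_zero := fun t ht f => by rw [ex_Sop ht f hz0, (OP_P0 t f).zero]
      S_H := fun t ht f => by rw [ex_Sop ht f hzH, (OP_P0 t f).atH]
      S_sg := fun s t hs ht f => ci_ext fun z hz => by
        rw [ex_Sop (add_pos hs ht) f hz, ex_Sop hs _ hz, oext_Sop ht, (bm_oext f).P0_sg hs ht]
      D_sg := fun s t hs ht f => ci_ext fun z hz => by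
        rw [ex_Dop (add_pos hs ht) f hz, ex_Dop hs _ hz, oext_Sop ht, (bm_oext f).P1_sg hs ht]
      A_sg := fun s t hs ht f => ci_ext fun z hz => by
        rw [ex_Aop (add_pos hs ht) f hz, ex_Aop hs _ hz, oext_Sop ht, (bm_oext f).P2_sg hs ht]
      S_time := S_time
      D_cont := fun f => cont_of_time (G := gP1) (fun t ht f z hz => ex_Dop ht f hz)
        (fun t ht ε hε => P1_time ht hε) f
      A_cont := fun f => cont_of_time (G := gP2) (fun t ht f z hz => ex_Aop ht f hz)
        (fun t ht ε hε => P2_time ht hε) f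
      S_init := fun f h0 h1 => by
        rw [Metric.tendsto_nhdsWithin_nhds]
        intro ε hε
        obtain ⟨δ, hδ, h⟩ := (bm_oext f).P0_init (uc_oext f h0 h1) (half_pos hε)
        refine ⟨δ, hδ, fun {t} ht htt => ?_⟩
        rw [Real.dist_eq, sub_zero, abs_of_pos ht] at htt
        rw [dist_eq_norm]
        have h2 : ‖Sop t f - f‖ ≤ ε / 2 := ci_norm_le (by positivity) fun z hz => by
          rw [ex_sub, ex_Sop ht f hz, ← oext_of_mem' f h0 h1 hz]
          exact h t ⟨ht, htt⟩ z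
        linarith
      D_init := fun f f1 hf h0 h1 => by
        have key : ∀ t, 0 < t → ∀ z, gP1 t (oext f) z = gP0 t (eext f1) z := fun t ht z =>
          (bm_oext f).P1_of_der (bm_eext f1) (continuous_eext f1) (hasDerivAt_oext f f1 hf h0 h1)
            ht z
        constructor
        · rw [Metric.tendsto_nhdsWithin_nhds]
          intro ε hε
          obtain ⟨δ, hδ, h⟩ := (bm_eext f1).P0_init (uc_eext f1) (half_pos hε)
          refine ⟨δ, hδ, fun {t} ht htt => ?_⟩
          rw [Real.dist_eq, sub_zero, abs_of_pos ht] at htt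
          rw [dist_eq_norm]
          have h2 : ‖Dop t f - f1‖ ≤ ε / 2 := ci_norm_le (by positivity) fun z hz => by
            rw [ex_sub, ex_Dop ht f hz, key t ht, ← eext_of_mem f1 hz]
            exact h t ⟨ht, htt⟩ z
          linarith
        · intro t ht
          refine ci_norm_le (norm_nonneg _) fun z hz => ?_
          rw [ex_Dop ht f hz, key t ht]
          exact (bm_eext f1).P0_norm ht z
      S_L2 := S_L2
      S_loc := S_loc
      S_star := fun t ht f => ci_ext fun z hz => by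
        rw [ex_star, ex_Sop ht _ hz, ex_Sop ht _ hz, oext_star, P0_star]
      D_star := fun t ht f => ci_ext fun z hz => by
        rw [ex_star, ex_Dop ht _ hz, ex_Dop ht _ hz, oext_star, P1_star] }

end Pool.Agent.Lib.MP_79abb3_an.P25
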