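import Pool.Agent.Lib.MP_79abb3_an.P25.LTops

/-!
Infinite concatenation of trajectories.
-/

set_option autoImplicit false
set_option linter.unusedSectionVars false

attribute [-instance] PreLp.ring SubfieldClass.toSubringClass SubringClass.toSubsemiringClass
  NonUnitalSubringClass.toNonUnitalSubsemiringClass RingConeClass.toSubsemiringClass
  SubsemiringClass.nonUnitalSubsemiringClass SubringClass.nonUnitalSubringClass
  AddSubgroup.seminormedAddCommGroup SetLike.GradeZero.instSemiring SetLike.GradeZero.instCommRing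
  SetLike.GradeZero.instCommSemiring SetLike.GradeZero.instRing LieAdmissibleAlgebra.toModule
  RightPreLieAlgebra.toModule LeftPreLieAlgebra.toModule

open MeasureTheory Set Filter Topology Function

namespace Pool.Agent.Lib.MP_79abb3_an.P25

section
variable {H : ℝ} [hH : Fact (0 < H)]

/-- A version of `LT.congr` where the values at the exceptional times only have to agree after
`jn`. -/
theorem LT.congr_jn {ω a b : ℝ} {J : Set ℝ} {P P' : ℝ → ℝ} {G G' : ℝ → ℤ → Yn H}
    {u u' : ℝ → L1 (Xn H)} (h : LT ω a b J P G u) (hP : ∀ t ∈ Icc a b \ J, P' t = P t)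
    (hG : ∀ t ∈ Icc a b \ J, ∀ n, G' t n = G t n) (hu : ∀ t ∈ Icc a b \ J, u' t = u t)
    (hj : ∀ t ∈ Icc a b, ∀ n, jn (u' t n) = jn (u t n)) : LT ω a b J P' G' u' := by
  have hae : ∀ t1 ∈ Icc a b, ∀ t2 ∈ Icc t1 b, ∀ᵐ s ∂volume, s ∈ uIoc t1 t2 → s ∈ Icc a b \ J := by
    intro t1 ht1 t2 ht2
    filter_upwards [h.count.ae_notMem volume] with s hs hs'
    rw [uIoc_of_le ht2.1] at hs'
    exact ⟨⟨ht1.1.trans hs'.1.le, hs'.2.trans ht2.2⟩, hs⟩
  refine ⟨h.count, ?_, h.cX.congr hu, h.cP.congr hP, fun n => (h.cG n).congr fun t ht => hG t ht n,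
    ?_, ?_, ?_, ?_, ?_, ?_⟩
  · refine h.cY.congr fun t ht => ?_
    ext n : 2
    exact hj t ht n
  · obtain ⟨R, hR⟩ := h.bd
    refine ⟨R, fun t ht => ?_⟩
    rw [hP t ht, hu t ht]
    exact ⟨(hR t ht).1, (hR t ht).2.1, fun n => by rw [hG t ht n]; exact (hR t ht).2.2 n⟩
  · intro t ht n
    rw [hu t ht]
    exact h.cm t ht n
  · intro t ht n
    have e := hj t ht n
    have e1 : (u' t n).1.1 = (u t n).1.1 := congrArg (fun p : Yn H => p.1) e
    have e2 : (u' t n).2.1 = (u t n).2.1 := congrArg (fun p : Yn H => p.2) e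
    rw [e1, e2]
    exact h.z t ht n
  · intro t ht n
    show jn (u' t (-n)) = star (jn (u' t n))
    rw [hj t ht n, hj t ht (-n)]
    exact h.sy t ht n
  · intro n y hy t1 ht1 t2 ht2
    have e1 : (u' t1 n).1.1 = (u t1 n).1.1 := congrArg (fun p : Yn H => p.1) (hj t1 ht1 n)
    have e2 : (u' t2 n).1.1 = (u t2 n).1.1 :=
      congrArg (fun p : Yn H => p.1) (hj t2 ⟨ht1.1.trans ht2.1, ht2.2⟩ n)
    rw [e1, e2, h.eq n y hy t1 ht1 t2 ht2]
    refine intervalIntegral.integral_congr_ae ?_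
    filter_upwards [hae t1 ht1 t2 ht2] with s hs hs'
    rw [hu s (hs hs'), hP s (hs hs'), hG s (hs hs') n]
  · intro n y hy t1 ht1 t2 ht2
    have e1 : (u' t1 n).2.1 = (u t1 n).2.1 := congrArg (fun p : Yn H => p.2) (hj t1 ht1 n)
    have e2 : (u' t2 n).2.1 = (u t2 n).2.1 :=
      congrArg (fun p : Yn H => p.2) (hj t2 ⟨ht1.1.trans ht2.1, ht2.2⟩ n)
    rw [e1, e2, h.eq' n y hy t1 ht1 t2 ht2]
    refine intervalIntegral.integral_congr_ae ?_
    filter_upwards [hae t1 ht1 t2 ht2] with s hs hs'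
    rw [hu s (hs hs'), hG s (hs hs') n]

/-- The primitive as a continuous linear map. -/
noncomputable def primCL (y : ℝ) : CI H →L[ℝ] ℂ :=
  LinearMap.mkContinuous
    { toFun := fun f => prim f y
      map_add' := fun f g => by
        show ∫ z in (0:ℝ)..y, ex (f + g) z = _
        simp only [ex_add]
        exact intervalIntegral.integral_add ((continuous_ex f).intervalIntegrable _ _)
          ((continuous_ex g).intervalIntegrable _ _)
      map_smul' := fun c f => by
        show ∫ z in (0:ℝ)..y, ex (c • f) z = _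
        simp only [ex_rsmul]
        rw [intervalIntegral.integral_const_mul]
        simp [prim] } |y| (fun f => by
      have := intervalIntegral.norm_integral_le_of_norm_le_const (a := 0) (b := y) (C := ‖f‖)
        (f := ex f) fun x _ => norm_ex_le f x
      rw [sub_zero, mul_comm] at this
      exact this)

@[simp] theorem primCL_apply (y : ℝ) (f : CI H) : primCL y f = prim f y := rfl

theorem continuousOn_rh {k y : ℝ} {f f1 g : ℝ → CI H} {S : Set ℝ} (hf : ContinuousOn f S)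
    (hf1 : ContinuousOn f1 S) (hg : ContinuousOn g S) :
    ContinuousOn (fun s => rh k (f s) (f1 s) (g s) y) S := by
  have h1 := (evL (H := H) y).continuous.comp_continuousOn hf1
  have h2 := (evL (H := H) 0).continuous.comp_continuousOn hf1
  have h3 := (primCL (H := H) y).continuous.comp_continuousOn hf
  have h4 := (primCL (H := H) y).continuous.comp_continuousOn hg
  exact ((h1.sub h2).sub (continuousOn_const.mul h3)).add h4

theorem norm_rh_le {k y R : ℝ} {f f1 g : CI H} (hf : ‖f‖ ≤ R) (hf1 : ‖f1‖ ≤ R) (hg : ‖g‖ ≤ R) :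
    ‖rh k f f1 g y‖ ≤ (2 + k ^ 2 * |y| + |y|) * R := by
  have h1 := (norm_ex_le f1 y).trans hf1
  have h2 := (norm_ex_le f1 0).trans hf1
  have h3 : ‖((k ^ 2 : ℝ) : ℂ) * prim f y‖ ≤ k ^ 2 * (|y| * R) := by
    rw [norm_mul, Complex.norm_real, Real.norm_eq_abs, abs_of_nonneg (sq_nonneg k)]
    exact mul_le_mul_of_nonneg_left ((norm_prim_le f y).trans
      (mul_le_mul_of_nonneg_left hf (abs_nonneg y))) (sq_nonneg k)
  have h4 : ‖prim g y‖ ≤ |y| * R :=
    (norm_prim_le g y).trans (mul_le_mul_of_nonneg_left hg (abs_nonneg y))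
  have h5 : ‖rh k f f1 g y‖ ≤ ‖ex f1 y‖ + ‖ex f1 0‖ + ‖((k ^ 2 : ℝ) : ℂ) * prim f y‖ + ‖prim g y‖ := by
    unfold rh
    refine (norm_add_le _ _).trans (add_le_add ((norm_sub_le _ _).trans (add_le_add
      (norm_sub_le _ _) le_rfl)) le_rfl)
  nlinarith

theorem intervalIntegrable_of_off {a b C : ℝ} {J : Set ℝ} (hJ : J.Countable) {φ : ℝ → ℂ}
    (hφ : ContinuousOn φ (Icc a b \ J)) (hb : ∀ t ∈ Icc a b \ J, ‖φ t‖ ≤ C) :
    ∀ t1 ∈ Icc a b, ∀ t2 ∈ Icc a b, IntervalIntegrable φ volume t1 t2 := by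
  have hI : IntegrableOn φ (Icc a b) volume := by
    have h1 : IntegrableOn φ (Icc a b \ J) volume := by
      refine ⟨hφ.aestronglyMeasurable (measurableSet_Icc.diff hJ.measurableSet), ?_⟩
      refine HasFiniteIntegral.restrict_of_bounded (C := C) ?_ ?_
      · exact (measure_mono sdiff_subset).trans_lt (by rw [Real.volume_Icc]; exact ENNReal.ofReal_lt_top)
      · filter_upwards [ae_restrict_mem (measurableSet_Icc.diff hJ.measurableSet)] with t ht
        exact hb t ht
    exact h1.congr_set_ae (sdiff_null_ae_eq_self (hJ.measure_zero volume)).symm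
  intro t1 ht1 t2 ht2
  have hsub : uIcc t1 t2 ⊆ Icc a b := by
    rw [uIcc]
    exact Icc_subset_Icc (le_inf ht1.1 ht2.1) (sup_le ht1.2 ht2.2)
  exact ⟨hI.mono_set ((Ioc_subset_Icc_self.trans (Icc_subset_uIcc)).trans hsub),
    hI.mono_set ((Ioc_subset_Icc_self.trans (Icc_subset_uIcc')).trans hsub)⟩

theorem integral_eq_of_lt {a b : ℝ} (hab : a < b) {F φ : ℝ → ℂ} (hF : ContinuousOn F (Icc a b))
    (hφ : IntervalIntegrable φ volume a b)
    (h : ∀ t ∈ Ico a b, F t - F a = ∫ s in a..t, φ s) : F b - F a = ∫ s in a..b, φ s := by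
  have h1 : ContinuousOn (fun t => ∫ s in a..t, φ s) (Icc a b) := by
    have := intervalIntegral.continuousOn_primitive_interval' hφ left_mem_uIcc
    rwa [uIcc_of_le hab.le] at this
  have hb : b ∈ Icc a b := ⟨hab.le, le_rfl⟩
  have h2 : Tendsto (fun t => F t - F a) (𝓝[Ico a b] b) (𝓝 (F b - F a)) :=
    ((hF b hb).mono Ico_subset_Icc_self).sub tendsto_const_nhds
  have h3 : Tendsto (fun t => ∫ s in a..t, φ s) (𝓝[Ico a b] b) (𝓝 (∫ s in a..b, φ s)) :=
    (h1 b hb).mono Ico_subset_Icc_self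
  have h4 : (fun t => F t - F a) =ᶠ[𝓝[Ico a b] b] fun t => ∫ s in a..t, φ s :=
    eventually_of_mem self_mem_nhdsWithin fun t ht => h t ht
  have : (𝓝[Ico a b] b).NeBot := by
    rw [← mem_closure_iff_nhdsWithin_neBot, closure_Ico hab.ne]
    exact hb
  exact tendsto_nhds_unique (h2.congr' h4) h3

/-- Infinite concatenation of trajectories, with the values of the result. -/
theorem Traj.iglue_full {ω b R : ℝ} {s : ℕ → ℝ} (hs : StrictMono s) (hlim : Tendsto s atTop (𝓝 b))
    {J : ℕ → Set ℝ} {P : ℕ → ℝ → ℝ} {u : ℕ → ℝ → L1 (Xn H)} {η : ℕ → ℝ}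
    (h : ∀ k, Traj ω (s k) (s (k + 1)) (J k) (P k) (u k))
    (hR : ∀ k, ∀ t ∈ Icc (s k) (s (k + 1)), |P k t| ≤ R ∧ ‖u k t‖ ≤ R)
    (hg : ∀ k, ∀ n, jn (u k (s (k + 1)) n) = jn (u (k + 1) (s (k + 1)) n))
    (hη : Tendsto η atTop (𝓝 0)) (hb : ∀ k, ∀ t ∈ Icc (s k) (s (k + 1)), ‖jL H (u k t)‖ ≤ η k) :
    ∃ (J' : Set ℝ) (P' : ℝ → ℝ) (u' : ℝ → L1 (Xn H)), Traj ω (s 0) b J' P' u' ∧
      (u' (s 0) = u 0 (s 0)) ∧ u' b = 0 ∧
      (∀ k t, s k ≤ t → t < s (k + 1) → P' t = P k t ∧ u' t = u k t) ∧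
      (∀ t, (∀ k, P k t = 0) → P' t = 0) := by
  classical
  have hsb : ∀ k, s k < b := fun k =>
    lt_of_lt_of_le (hs (Nat.lt_succ_self k)) (hs.monotone.ge_of_tendsto hlim (k + 1))
  have hex : ∀ t, t < b → ∃ k, t < s (k + 1) := by
    intro t ht
    obtain ⟨k, hk⟩ := ((tendsto_order.1 hlim).1 t ht).exists
    exact ⟨k, hk.trans (hs (Nat.lt_succ_self k))⟩
  let N : ℝ → ℕ := fun t => if ht : t < b then Nat.find (hex t ht) else 0
  have hN : ∀ k t, s k ≤ t → t < s (k + 1) → N t = k := by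
    intro k t h1 h2
    have ht : t < b := h2.trans (hsb _)
    show (if ht : t < b then Nat.find (hex t ht) else 0) = k
    rw [dif_pos ht, Nat.find_eq_iff]
    refine ⟨h2, fun j hj => ?_⟩
    rw [not_lt]
    exact (hs.monotone (Nat.succ_le_of_lt hj)).trans h1
  -- every time in `[s 0, b)` lies in a piece
  have hpiece : ∀ t, s 0 ≤ t → t < b → s (N t) ≤ t ∧ t < s (N t + 1) := by
    intro t h0 ht
    have e : N t = Nat.find (hex t ht) := dif_pos ht
    have h2 : t < s (N t + 1) := by rw [e]; exact Nat.find_spec (hex t ht)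
    refine ⟨?_, h2⟩
    rcases Nat.eq_zero_or_pos (N t) with h3 | h3
    · rw [h3]; exact h0
    · obtain ⟨m, hm⟩ : ∃ m, N t = m + 1 := ⟨N t - 1, by omega⟩
      have h4 : m < Nat.find (hex t ht) := by rw [← e]; omega
      have h5 := Nat.find_min (hex t ht) h4
      rw [hm]
      exact not_lt.1 h5
  set J' : Set ℝ := (⋃ k, J k) ∪ range s ∪ {b} with hJ'
  have hJc : J'.Countable :=
    ((countable_iUnion fun k => (h k).count).union (countable_range s)).union
      (countable_singleton b)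
  have hJk : ∀ k, J k ⊆ J' := fun k x hx => Or.inl (Or.inl (mem_iUnion.2 ⟨k, hx⟩))
  have hsJ : ∀ k, s k ∈ J' := fun k => Or.inl (Or.inr ⟨k, rfl⟩)
  have hbJ : b ∈ J' := Or.inr rfl
  let v : ℝ → L1 (Xn H) := fun t => if t < b then u (N t) t else 0
  let Q : ℝ → ℝ := fun t => if t < b then P (N t) t else 0
  have hvk : ∀ k t, s k ≤ t → t < s (k + 1) → v t = u k t := by
    intro k t h1 h2
    have ht : t < b := h2.trans (hsb _)
    show (if t < b then u (N t) t else 0) = u k t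
    rw [if_pos ht, hN k t h1 h2]
  have hQk : ∀ k t, s k ≤ t → t < s (k + 1) → Q t = P k t := by
    intro k t h1 h2
    have ht : t < b := h2.trans (hsb _)
    show (if t < b then P (N t) t else 0) = P k t
    rw [if_pos ht, hN k t h1 h2]
  have hvs : ∀ k, ∀ t ∈ Icc (s k) (s (k + 1)), ∀ n, jn (v t n) = jn (u k t n) := by
    intro k t ht n
    rcases eq_or_lt_of_le ht.2 with h1 | h1
    · rw [h1, hg k n, hvk (k + 1) (s (k + 1)) le_rfl (hs (Nat.lt_succ_self _))]
    · rw [hvk k t ht.1 h1]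
  have hne : ∀ {k : ℕ} {t : ℝ}, t ∉ J' → t ≠ s k := fun ht h => ht (h ▸ hsJ _)
  have H1 : ∀ k, LT ω (s k) (s (k + 1)) J' Q (fun t => Bf ω (v t) (v t)) v := by
    intro k
    have hlt : ∀ t ∈ Icc (s k) (s (k + 1)) \ J', t < s (k + 1) := fun t ht =>
      lt_of_le_of_ne ht.1.2 (hne ht.2)
    refine (LT.mono (h k) le_rfl le_rfl (hJk k) hJc).congr_jn ?_ ?_ ?_ (hvs k)
    · intro t ht
      exact hQk k t ht.1.1 (hlt t ht)
    · intro t ht n
      show Bf ω (v t) (v t) n = Bf ω (u k t) (u k t) n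
      rw [hvk k t ht.1.1 (hlt t ht)]
    · intro t ht
      exact hvk k t ht.1.1 (hlt t ht)
  have H2 : ∀ n, LT ω (s 0) (s (n + 1)) J' Q (fun t => Bf ω (v t) (v t)) v := by
    intro n
    induction n with
    | zero => exact H1 0
    | succ n ih =>
      have e := ih.glue (H1 (n + 1)) (hs.monotone (Nat.zero_le _))
        (hs.monotone (Nat.le_succ _)) (fun _ => rfl)
      simp only [ite_self] at e
      refine LT.mono e le_rfl le_rfl ?_ hJc
      rintro x ((hx | hx) | hx)
      · exact hx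
      · exact hx
      · rw [mem_singleton_iff.1 hx]; exact hsJ _
  have hvb : v b = 0 := if_neg (lt_irrefl b)
  have hI : ∀ {t : ℝ}, t ∈ Icc (s 0) b \ J' → t < b := fun ht =>
    lt_of_le_of_ne ht.1.2 fun h => ht.2 (h ▸ hbJ)
  -- continuity off `J'` is local
  have hloc : ∀ {E : Type} [TopologicalSpace E] (F : ℝ → E),
      (∀ n, ContinuousOn F (Icc (s 0) (s (n + 1)) \ J')) → ContinuousOn F (Icc (s 0) b \ J') := by
    intro E _ F hF t ht
    obtain ⟨n, hn⟩ := hex t (hI ht)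
    refine (hF n t ⟨⟨ht.1.1, hn.le⟩, ht.2⟩).mono_of_mem_nhdsWithin ?_
    filter_upwards [self_mem_nhdsWithin, mem_nhdsWithin_of_mem_nhds (Iio_mem_nhds hn)] with p hp hp'
    exact ⟨⟨hp.1.1, le_of_lt hp'⟩, hp.2⟩
  have hcY : ContinuousOn (fun t => jL H (v t)) (Icc (s 0) b) := by
    intro t ht
    rcases eq_or_lt_of_le ht.2 with htb | htb
    · -- the final time
      subst htb
      rw [Metric.continuousWithinAt_iff]
      intro ε hε
      obtain ⟨K, hK⟩ := eventually_atTop.1 ((tendsto_order.1 hη).2 ε hε)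
      refine ⟨t - s K, sub_pos.2 (hsb K), ?_⟩
      intro t' ht' hd
      rw [hvb, map_zero, dist_zero_right]
      rcases eq_or_lt_of_le ht'.2 with htb' | htb'
      · rw [htb', hvb, map_zero, norm_zero]; exact hε
      · have hKt : s K < t' := by
          have := (abs_lt.1 (by rwa [Real.dist_eq] at hd)).1
          linarith
        have hp := hpiece t' ht'.1 htb'
        have hKN : K ≤ N t' := by
          by_contra hcon
          have h3 : N t' + 1 ≤ K := by omega
          have h4 := hs.monotone h3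
          linarith [hp.2]
        rw [hvk (N t') t' hp.1 hp.2]
        exact lt_of_le_of_lt (hb (N t') t' ⟨hp.1, hp.2.le⟩) (hK _ hKN)
    · obtain ⟨n, hn⟩ := hex t htb
      refine ((H2 n).cY t ⟨ht.1, hn.le⟩).mono_of_mem_nhdsWithin ?_
      filter_upwards [self_mem_nhdsWithin, mem_nhdsWithin_of_mem_nhds (Iio_mem_nhds hn)] with p hp hp'
      exact ⟨hp.1, le_of_lt hp'⟩
  obtain ⟨C0, hC0, hBf⟩ := Bf_bound H
  have hR0 : 0 ≤ R := (norm_nonneg _).trans
    (hR 0 (s 0) ⟨le_rfl, hs.monotone (Nat.zero_le _)⟩).2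
  have hbd : ∀ t ∈ Icc (s 0) b, |Q t| ≤ R ∧ ‖v t‖ ≤ R := by
    intro t ht
    rcases eq_or_lt_of_le ht.2 with htb | htb
    · have e1 : Q t = 0 := by rw [htb]; exact if_neg (lt_irrefl b)
      rw [e1, htb, hvb, abs_zero, norm_zero]
      exact ⟨hR0, hR0⟩
    · have hp := hpiece t ht.1 htb
      rw [hvk _ t hp.1 hp.2, hQk _ t hp.1 hp.2]
      exact hR _ t ⟨hp.1, hp.2.le⟩
  have hW1 : Wt 1 (fun _ => (1:ℝ)) := ⟨fun _ => le_rfl, fun _ _ => by norm_num, rfl⟩
  have hBv : ∀ t ∈ Icc (s 0) b, ∀ n, ‖Bf ω (v t) (v t) n‖ ≤ C0 * 1 * (R * R + R * R) := by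
    intro t ht n
    have h1 : Summable fun n => (fun _ => (1:ℝ)) n * ‖v t n‖ := by
      simpa using l1_summable (v t)
    obtain ⟨h2, h3⟩ := hBf ω 1 (fun _ => 1) hW1 (v t) (v t) h1 h1
    have h4 : ‖Bf ω (v t) (v t) n‖ ≤ ∑' n, (1:ℝ) * ‖Bf ω (v t) (v t) n‖ := by
      have h5 := h2.le_tsum n fun m _ => mul_nonneg zero_le_one (norm_nonneg _)
      rwa [one_mul] at h5
    refine h4.trans (h3.trans ?_)
    have h6 : ∑' n, (1:ℝ) * ‖v t n‖ ≤ R := by
      simp only [one_mul]
      rw [← l1_norm]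
      exact (hbd t ht).2
    have h7 : ∑' n, (1:ℝ) * ‖jn (v t n)‖ ≤ R := by
      refine le_trans ?_ h6
      have h8 : Summable fun n => (1:ℝ) * ‖jn (v t n)‖ := by
        simpa using l1_summable (jL H (v t))
      exact h8.tsum_le_tsum (fun n => by rw [one_mul, one_mul]; exact norm_jn_le _) h1
    have h9 : 0 ≤ ∑' n, (1:ℝ) * ‖v t n‖ := tsum_nonneg fun n => by positivity
    have h10 : 0 ≤ ∑' n, (1:ℝ) * ‖jn (v t n)‖ := tsum_nonneg fun n => by positivity
    have hC1 : 0 ≤ C0 * 1 := by linarith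
    refine mul_le_mul_of_nonneg_left (add_le_add ?_ ?_) hC1
    · exact mul_le_mul h7 h6 h9 hR0
    · exact mul_le_mul h6 h7 h10 hR0
  set RB : ℝ := max R (C0 * 1 * (R * R + R * R)) with hRB
  have hcX := hloc v fun n => (H2 n).cX
  have hcP := hloc Q fun n => (H2 n).cP
  have hcG : ∀ n, ContinuousOn (fun t => Bf ω (v t) (v t) n) (Icc (s 0) b \ J') := fun n =>
    hloc _ fun m => (H2 m).cG n
  -- the components
  have hxn : ∀ t ∈ Icc (s 0) b \ J', ∀ n, ‖v t n‖ ≤ RB := by
    intro t ht n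
    have h1 : ‖v t n‖ ≤ ‖v t‖ := lp.norm_apply_le_norm (by simp) (v t) n
    exact h1.trans ((hbd t ht.1).2.trans (le_max_left _ _))
  have hcn : ∀ n, ContinuousOn (fun t => v t n) (Icc (s 0) b \ J') := by
    intro n
    have h1 : Continuous fun x : L1 (Xn H) => x n :=
      (continuous_apply n).comp (lp.uniformContinuous_coe (E := fun _ : ℤ => Xn H)).continuous
    exact h1.comp_continuousOn hcX
  have hcG1 : ∀ n, ContinuousOn (fun t => (Bf ω (v t) (v t) n).1) (Icc (s 0) b \ J') := fun n =>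
    continuous_fst.comp_continuousOn (hcG n)
  have hcG2 : ∀ n, ContinuousOn (fun t => (Bf ω (v t) (v t) n).2) (Icc (s 0) b \ J') := fun n =>
    continuous_snd.comp_continuousOn (hcG n)
  have hc1 : ∀ n, ContinuousOn (fun t => (v t n).1.1) (Icc (s 0) b \ J') := fun n =>
    (continuous_fst.comp continuous_fst).comp_continuousOn (hcn n)
  have hc2 : ∀ n, ContinuousOn (fun t => (v t n).1.2.1) (Icc (s 0) b \ J') := fun n =>
    (continuous_fst.comp (continuous_snd.comp continuous_fst)).comp_continuousOn (hcn n)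
  have hc3 : ∀ n, ContinuousOn (fun t => (v t n).2.1) (Icc (s 0) b \ J') := fun n =>
    (continuous_fst.comp continuous_snd).comp_continuousOn (hcn n)
  have hc4 : ∀ n, ContinuousOn (fun t => (v t n).2.2.1) (Icc (s 0) b \ J') := fun n =>
    (continuous_fst.comp (continuous_snd.comp continuous_snd)).comp_continuousOn (hcn n)
  -- continuity in time of the integrated components
  have hcYn : ∀ n, ContinuousOn (fun t => jn (v t n)) (Icc (s 0) b) := by
    intro n
    have h1 : Continuous fun x : L1 (Yn H) => x n :=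
      (continuous_apply n).comp (lp.uniformContinuous_coe (E := fun _ : ℤ => Yn H)).continuous
    exact h1.comp_continuousOn hcY
  have hcY1 : ∀ n, ∀ y : ℝ, ContinuousOn (fun t => prim (v t n).1.1 y) (Icc (s 0) b) := by
    intro n y
    have h1 : Continuous fun p : Yn H => primCL y p.1 := (primCL y).continuous.comp continuous_fst
    exact h1.comp_continuousOn (hcYn n)
  have hcY2 : ∀ n, ∀ y : ℝ, ContinuousOn (fun t => prim (v t n).2.1 y) (Icc (s 0) b) := by
    intro n y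
    have h1 : Continuous fun p : Yn H => primCL y p.2 := (primCL y).continuous.comp continuous_snd
    exact h1.comp_continuousOn (hcYn n)
  have hQ0 : ∀ t, (∀ k, P k t = 0) → Q t = 0 := by
    intro t ht
    show (if t < b then P (N t) t else 0) = 0
    split_ifs
    · exact ht _
    · rfl
  refine ⟨J', Q, v, ⟨hJc, hcY, hcX, hcP, hcG, ?_, ?_, ?_, ?_, ?_, ?_⟩, ?_, hvb,
    fun k t h1 h2 => ⟨hQk k t h1 h2, hvk k t h1 h2⟩, hQ0⟩
  · exact ⟨RB, fun t ht => ⟨(hbd t ht.1).1.trans (le_max_left _ _),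
      (hbd t ht.1).2.trans (le_max_left _ _), fun n => (hBv t ht.1 n).trans (le_max_right _ _)⟩⟩
  · intro t ht n
    obtain ⟨m, hm⟩ := hex t (hI ht)
    exact (H2 m).cm t ⟨⟨ht.1.1, hm.le⟩, ht.2⟩ n
  · intro t ht n
    rcases eq_or_lt_of_le ht.2 with htb | htb
    · rw [htb, hvb]
      exact ⟨rfl, rfl⟩
    · obtain ⟨m, hm⟩ := hex t htb
      exact (H2 m).z t ⟨ht.1, hm.le⟩ n
  · intro t ht
    rcases eq_or_lt_of_le ht.2 with htb | htb
    · rw [htb, hvb]
      intro n
      show ((0 : CI H), (0 : CI H)) = star ((0 : CI H), (0 : CI H))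
      exact (star_zero (R := CI H × CI H)).symm
    · obtain ⟨m, hm⟩ := hex t htb
      exact (H2 m).sy t ⟨ht.1, hm.le⟩
  · intro n y hy t1 ht1 t2 ht2
    rcases eq_or_lt_of_le ht2.2 with htb | htb
    · rcases eq_or_lt_of_le ht2.1 with h12 | h12
      · rw [h12, sub_self, intervalIntegral.integral_same]
      · subst htb
        refine integral_eq_of_lt (F := fun t => prim (v t n).1.1 y) h12
          ((hcY1 n y).mono (Icc_subset_Icc_left ht1.1)) ?_ ?_
        · refine intervalIntegrable_of_off (C := (2 + (ω * n) ^ 2 * |y| + |y|) * RB + R * |y|) hJc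
            (a := s 0) (b := t2) ?_ ?_ t1 ht1 t2 ⟨ht1.1.trans h12.le, le_rfl⟩
          · refine (continuousOn_rh (hc1 n) (hc2 n) (hcG1 n)).add ?_
            by_cases hn : n = 0
            · simp only [if_pos hn]
              exact Complex.continuous_ofReal.comp_continuousOn (hcP.mul continuousOn_const)
            · simp only [if_neg hn]
              exact continuousOn_const
          · intro t ht
            refine (norm_add_le _ _).trans (add_le_add ?_ ?_)
            · have h1 := hxn t ht n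
              have h2 := (hBv t ht.1 n).trans (le_max_right R _)
              exact norm_rh_le ((norm_fst_le _).trans ((norm_fst_le _).trans h1))
                ((norm_fst_le _).trans ((norm_snd_le _).trans ((norm_fst_le _).trans h1)))
                ((norm_fst_le _).trans h2)
            · split_ifs
              · rw [Complex.norm_real, norm_mul, Real.norm_eq_abs, Real.norm_eq_abs]
                exact mul_le_mul_of_nonneg_right (hbd t ht.1).1 (abs_nonneg y)
              · rw [norm_zero]; positivity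
        · intro t ht
          obtain ⟨m, hm⟩ := hex t ht.2
          exact (H2 m).eq n y hy t1 ⟨ht1.1, ht.1.trans hm.le⟩ t ⟨ht.1, hm.le⟩
    · obtain ⟨m, hm⟩ := hex t2 htb
      exact (H2 m).eq n y hy t1 ⟨ht1.1, ht2.1.trans hm.le⟩ t2 ⟨ht2.1, hm.le⟩
  · intro n y hy t1 ht1 t2 ht2
    rcases eq_or_lt_of_le ht2.2 with htb | htb
    · rcases eq_or_lt_of_le ht2.1 with h12 | h12
      · rw [h12, sub_self, intervalIntegral.integral_same]
      · subst htb
        refine integral_eq_of_lt (F := fun t => prim (v t n).2.1 y) h12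
          ((hcY2 n y).mono (Icc_subset_Icc_left ht1.1)) ?_ ?_
        · refine intervalIntegrable_of_off (C := (2 + (ω * n) ^ 2 * |y| + |y|) * RB) hJc
            (a := s 0) (b := t2) ?_ ?_ t1 ht1 t2 ⟨ht1.1.trans h12.le, le_rfl⟩
          · exact continuousOn_rh (hc3 n) (hc4 n) (hcG2 n)
          · intro t ht
            have h1 := hxn t ht n
            have h2 := (hBv t ht.1 n).trans (le_max_right R _)
            exact norm_rh_le ((norm_fst_le _).trans ((norm_snd_le _).trans h1))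
              ((norm_fst_le _).trans ((norm_snd_le _).trans ((norm_snd_le _).trans h1)))
              ((norm_snd_le _).trans h2)
        · intro t ht
          obtain ⟨m, hm⟩ := hex t ht.2
          exact (H2 m).eq' n y hy t1 ⟨ht1.1, ht.1.trans hm.le⟩ t ⟨ht.1, hm.le⟩
    · obtain ⟨m, hm⟩ := hex t2 htb
      exact (H2 m).eq' n y hy t1 ⟨ht1.1, ht2.1.trans hm.le⟩ t2 ⟨ht2.1, hm.le⟩
  · exact hvk 0 (s 0) le_rfl (hs Nat.zero_lt_one)

/-- Infinite concatenation of trajectories. -/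
theorem Traj.iglue {ω b R : ℝ} {s : ℕ → ℝ} (hs : StrictMono s) (hlim : Tendsto s atTop (𝓝 b))
    {J : ℕ → Set ℝ} {P : ℕ → ℝ → ℝ} {u : ℕ → ℝ → L1 (Xn H)} {η : ℕ → ℝ}
    (h : ∀ k, Traj ω (s k) (s (k + 1)) (J k) (P k) (u k))
    (hR : ∀ k, ∀ t ∈ Icc (s k) (s (k + 1)), |P k t| ≤ R ∧ ‖u k t‖ ≤ R)
    (hg : ∀ k, ∀ n, jn (u k (s (k + 1)) n) = jn (u (k + 1) (s (k + 1)) n))
    (hη : Tendsto η atTop (𝓝 0)) (hb : ∀ k, ∀ t ∈ Icc (s k) (s (k + 1)), ‖jL H (u k t)‖ ≤ η k) :
    ∃ (J' : Set ℝ) (P' : ℝ → ℝ) (u' : ℝ → L1 (Xn H)), Traj ω (s 0) b J' P' u' ∧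
      (u' (s 0) = u 0 (s 0)) ∧ u' b = 0 := by
  obtain ⟨J', P', u', h1, h2, h3, -⟩ := Traj.iglue_full hs hlim h hR hg hη hb
  exact ⟨J', P', u', h1, h2, h3⟩

/-- Infinite concatenation of trajectories without pressure gradient. -/
theorem Traj.iglue_zero {ω b R : ℝ} {s : ℕ → ℝ} (hs : StrictMono s) (hlim : Tendsto s atTop (𝓝 b))
    {J : ℕ → Set ℝ} {u : ℕ → ℝ → L1 (Xn H)} {η : ℕ → ℝ}
    (h : ∀ k, Traj ω (s k) (s (k + 1)) (J k) (fun _ => 0) (u k))
    (hR : ∀ k, ∀ t ∈ Icc (s k) (s (k + 1)), ‖u k t‖ ≤ R)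
    (hg : ∀ k, ∀ n, jn (u k (s (k + 1)) n) = jn (u (k + 1) (s (k + 1)) n))
    (hη : Tendsto η atTop (𝓝 0)) (hb : ∀ k, ∀ t ∈ Icc (s k) (s (k + 1)), ‖jL H (u k t)‖ ≤ η k) :
    ∃ (J' : Set ℝ) (u' : ℝ → L1 (Xn H)), Traj ω (s 0) b J' (fun _ => 0) u' ∧
      (u' (s 0) = u 0 (s 0)) ∧ u' b = 0 := by
  obtain ⟨J', P', u', h1, h2, h3, -, h5⟩ := Traj.iglue_full hs hlim h
    (fun k t ht => ⟨by
      rw [abs_zero]
      exact (norm_nonneg _).trans (hR k t ht), hR k t ht⟩) hg hη hb
  have e : P' = fun _ => 0 := funext fun t => h5 t fun _ => rfl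
  rw [e] at h1
  exact ⟨J', u', h1, h2, h3⟩

end

end Pool.Agent.Lib.MP_79abb3_an.P25
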