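import Pool.Agent.Lib.MP_79abb3_an.P25.AbsDef
import Pool.Agent.Lib.MP_79abb3_an.P25.Modes
import Pool.Agent.Lib.MP_79abb3_an.P25.OpA

/-!
Convolutions of families of modes, the weighted bilinear estimate, and the bilinear map on
weighted spaces.
-/

set_option autoImplicit false
set_option linter.unusedSectionVars false

open MeasureTheory Set Filter Topology Function

namespace Pool.Agent.Lib.MP_79abb3_an.P25

section
variable {H : ℝ} [hH : Fact (0 < H)]

/-! MO-2: convolutions. -/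

theorem Wt.nonneg {CW : ℝ} {W : ℤ → ℝ} (hW : Wt CW W) (n : ℤ) : 0 ≤ W n :=
  zero_le_one.trans (hW.one_le n)

theorem Wt.pos {CW : ℝ} {W : ℤ → ℝ} (hW : Wt CW W) (n : ℤ) : 0 < W n :=
  zero_lt_one.trans_le (hW.one_le n)

theorem Wt.one_le_C {CW : ℝ} {W : ℤ → ℝ} (hW : Wt CW W) : 1 ≤ CW := by
  have := hW.sub 0 0
  rw [add_zero, hW.zero] at this
  linarith

/-- The summable double family behind a convolution. -/
theorem summable_shear {α β : ℤ → ℝ} (ha : Summable α) (hb : Summable β)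
    (ha0 : ∀ n, 0 ≤ α n) (hb0 : ∀ n, 0 ≤ β n) :
    (Summable fun p : ℤ × ℤ => α p.2 * β (p.1 - p.2)) ∧
      ∑' p : ℤ × ℤ, α p.2 * β (p.1 - p.2) = (∑' n, α n) * ∑' n, β n := by
  have h1 : Summable fun p : ℤ × ℤ => α p.1 * β p.2 := ha.mul_of_nonneg hb ha0 hb0
  let e : ℤ × ℤ ≃ ℤ × ℤ :=
    { toFun := fun p => (p.2, p.1 - p.2)
      invFun := fun p => (p.1 + p.2, p.1)
      left_inv := fun p => by simp
      right_inv := fun p => by simp }
  refine ⟨(e.summable_iff (f := fun p : ℤ × ℤ => α p.1 * β p.2)).2 h1, ?_⟩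
  rw [ha.tsum_mul_tsum hb h1]
  exact e.tsum_eq (fun p : ℤ × ℤ => α p.1 * β p.2)

theorem conv_bound {CW : ℝ} {W : ℤ → ℝ} (hW : Wt CW W) {a b : ℤ → CI H}
    (ha : Summable fun n => W n * ‖a n‖) (hb : Summable fun n => W n * ‖b n‖) :
    (∀ n, Summable fun m => a m * b (n - m)) ∧ (Summable fun n => W n * ‖conv a b n‖) ∧
      ∑' n, W n * ‖conv a b n‖ ≤ CW * (∑' n, W n * ‖a n‖) * ∑' n, W n * ‖b n‖ := by
  have hα0 : ∀ n, 0 ≤ W n * ‖a n‖ := fun n => mul_nonneg (hW.nonneg n) (norm_nonneg _)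
  have hβ0 : ∀ n, 0 ≤ W n * ‖b n‖ := fun n => mul_nonneg (hW.nonneg n) (norm_nonneg _)
  have hC := hW.one_le_C
  obtain ⟨h1, h2⟩ := summable_shear ha hb hα0 hβ0
  have h3 : ∀ n, Summable fun m => (W m * ‖a m‖) * (W (n - m) * ‖b (n - m)‖) :=
    fun n => h1.prod_factor n
  have h4 : ∀ n m, ‖a m * b (n - m)‖ ≤ (W m * ‖a m‖) * (W (n - m) * ‖b (n - m)‖) := by
    intro n m
    refine (norm_mul_le _ _).trans ?_
    have h5 : ‖a m‖ ≤ W m * ‖a m‖ := le_mul_of_one_le_left (norm_nonneg _) (hW.one_le m)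
    have h6 : ‖b (n - m)‖ ≤ W (n - m) * ‖b (n - m)‖ :=
      le_mul_of_one_le_left (norm_nonneg _) (hW.one_le _)
    exact mul_le_mul h5 h6 (norm_nonneg _) (hα0 m)
  have h7 : ∀ n, Summable fun m => ‖a m * b (n - m)‖ := fun n =>
    Summable.of_nonneg_of_le (fun m => norm_nonneg _) (h4 n) (h3 n)
  have h8 : ∀ n, W n * ‖conv a b n‖ ≤
      CW * ∑' m, (W m * ‖a m‖) * (W (n - m) * ‖b (n - m)‖) := by
    intro n
    calc W n * ‖conv a b n‖ ≤ W n * ∑' m, ‖a m * b (n - m)‖ :=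
          mul_le_mul_of_nonneg_left (norm_tsum_le_tsum_norm (h7 n)) (hW.nonneg n)
      _ = ∑' m, W n * ‖a m * b (n - m)‖ := tsum_mul_left.symm
      _ ≤ ∑' m, CW * ((W m * ‖a m‖) * (W (n - m) * ‖b (n - m)‖)) := by
          refine Summable.tsum_le_tsum (fun m => ?_) ((h7 n).mul_left _) ((h3 n).mul_left _)
          have h9 := hW.sub m (n - m)
          rw [add_sub_cancel] at h9
          calc W n * ‖a m * b (n - m)‖ ≤ (CW * W m * W (n - m)) * (‖a m‖ * ‖b (n - m)‖) :=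
                mul_le_mul h9 (norm_mul_le _ _) (norm_nonneg _)
                  (mul_nonneg (mul_nonneg (by linarith) (hW.nonneg _)) (hW.nonneg _))
            _ = _ := by ring
      _ = _ := tsum_mul_left
  have h10 : Summable fun n => CW * ∑' m, (W m * ‖a m‖) * (W (n - m) * ‖b (n - m)‖) :=
    h1.prod.mul_left _
  have h11 : Summable fun n => W n * ‖conv a b n‖ :=
    Summable.of_nonneg_of_le (fun n => mul_nonneg (hW.nonneg n) (norm_nonneg _)) h8 h10
  refine ⟨fun n => Summable.of_norm (h7 n), h11, ?_⟩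
  calc ∑' n, W n * ‖conv a b n‖ ≤ ∑' n, CW * ∑' m, (W m * ‖a m‖) * (W (n - m) * ‖b (n - m)‖) :=
        Summable.tsum_le_tsum h8 h11 h10
    _ = CW * ∑' n, ∑' m, (W m * ‖a m‖) * (W (n - m) * ‖b (n - m)‖) := tsum_mul_left
    _ = CW * ∑' p : ℤ × ℤ, (W p.2 * ‖a p.2‖) * (W (p.1 - p.2) * ‖b (p.1 - p.2)‖) := by
        rw [h1.tsum_prod]
    _ = CW * (∑' n, W n * ‖a n‖) * ∑' n, W n * ‖b n‖ := by rw [h2, mul_assoc]

/-- Pointwise value of a convolution. -/
theorem ex_conv {a b : ℤ → CI H} {n : ℤ} (h : Summable fun m => a m * b (n - m)) (z : ℝ) :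
    ex (conv a b n) z = ∑' m, ex (a m) z * ex (b (n - m)) z := by
  rw [conv, ← evL_apply, (evL z).map_tsum h]
  simp

/-! Linearity of convolutions. -/

theorem conv_add_left {a a' b : ℤ → CI H} {n : ℤ} (h : Summable fun m => a m * b (n - m))
    (h' : Summable fun m => a' m * b (n - m)) :
    conv (fun m => a m + a' m) b n = conv a b n + conv a' b n := by
  simp only [conv]
  rw [← h.tsum_add h']
  simp only [add_mul]

theorem conv_add_right {a b b' : ℤ → CI H} {n : ℤ} (h : Summable fun m => a m * b (n - m))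
    (h' : Summable fun m => a m * b' (n - m)) :
    conv a (fun m => b m + b' m) n = conv a b n + conv a b' n := by
  simp only [conv]
  rw [← h.tsum_add h']
  simp only [mul_add]

theorem conv_smul_left (c : ℝ) (a b : ℤ → CI H) (n : ℤ) :
    conv (fun m => c • a m) b n = c • conv a b n := by
  simp only [conv]
  rw [← tsum_const_smul'']
  simp only [smul_mul_assoc]

theorem conv_smul_right (c : ℝ) (a b : ℤ → CI H) (n : ℤ) :
    conv a (fun m => c • b m) n = c • conv a b n := by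
  simp only [conv]
  rw [← tsum_const_smul'']
  simp only [mul_smul_comm]

/-! MO-3: the weighted bilinear estimate. -/

theorem norm_om_le (k : ℝ) (y : Yn H) : ‖om k y‖ ≤ (H + 1) * ‖y‖ := by
  have hH0 := hH.out
  have h1 := norm_Eop_le k y.1
  have h2 := norm_kEop_le k y.2
  have h3 := norm_fst_le y
  have h4 := norm_snd_le y
  have h5 : ‖(is k * ((|k| : ℝ) : ℂ)) • Eop k y.2‖ ≤ ‖y.2‖ := by
    rw [norm_smul, norm_mul, Complex.norm_real, Real.norm_eq_abs, abs_abs, mul_assoc]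
    exact (mul_le_of_le_one_left (by positivity) (norm_is_le k)).trans h2
  calc ‖om k y‖ ≤ ‖-(Eop k y.1)‖ + ‖(is k * ((|k| : ℝ) : ℂ)) • Eop k y.2‖ := norm_sub_le _ _
    _ ≤ H * ‖y.1‖ + ‖y.2‖ := by rw [norm_neg]; gcongr
    _ ≤ H * ‖y‖ + ‖y‖ := by gcongr
    _ = _ := by ring

theorem norm_vv_le (k : ℝ) (y : Yn H) : ‖vv k y‖ ≤ (H + 2) * ‖y‖ := by
  have h1 := norm_om_le k y
  have h4 := norm_snd_le y
  have h5 : ‖is k • om k y‖ ≤ ‖om k y‖ := by
    rw [norm_smul]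
    exact mul_le_of_le_one_left (norm_nonneg _) (norm_is_le k)
  calc ‖vv k y‖ ≤ ‖y.2‖ + ‖is k • om k y‖ := norm_sub_le _ _
    _ ≤ ‖y‖ + (H + 1) * ‖y‖ := by linarith
    _ = _ := by ring

theorem norm_Om_le (k : ℝ) (x : Xn H) : ‖Om k x‖ ≤ 3 * ‖x‖ := by
  have h1 : ‖x.2.2.1‖ ≤ ‖x‖ := (norm_fst_le _).trans ((norm_snd_le _).trans (norm_snd_le x))
  have h2 : ‖x.2.2.2‖ ≤ ‖x‖ := (norm_snd_le _).trans ((norm_snd_le _).trans (norm_snd_le x))
  have h3 : ‖x.1.1‖ ≤ ‖x‖ := (norm_fst_le _).trans (norm_fst_le x)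
  have h5 : ‖is k • x.1.1‖ ≤ ‖x.1.1‖ := by
    rw [norm_smul]
    exact mul_le_of_le_one_left (norm_nonneg _) (norm_is_le k)
  calc ‖Om k x‖ ≤ ‖-x.2.2.1 + x.2.2.2‖ + ‖is k • x.1.1‖ := norm_sub_le _ _
    _ ≤ ‖-x.2.2.1‖ + ‖x.2.2.2‖ + ‖is k • x.1.1‖ := by gcongr; exact norm_add_le _ _
    _ ≤ 3 * ‖x‖ := by rw [norm_neg]; linarith

theorem norm_Rν_le (k : ℝ) (n0 n1 n2 : CI H) :
    ‖Rν k n0 n1 n2‖ ≤ H * ‖n0‖ + 2 * ‖n1‖ + ‖n2‖ := by
  have h1 : ‖|k| • Top k n1‖ ≤ ‖n1‖ := by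
    rw [norm_smul, Real.norm_eq_abs, abs_abs]; exact norm_kTop_le k n1
  have h2 : ‖(Complex.I * (k : ℂ)) • Top k n2‖ ≤ ‖n2‖ := by
    rw [norm_smul, norm_mul, Complex.norm_I, one_mul, Complex.norm_real, Real.norm_eq_abs]
    exact norm_kTop_le k n2
  have h3 : ‖is k • Top k n0‖ ≤ H * ‖n0‖ := by
    rw [norm_smul]
    exact (mul_le_of_le_one_left (norm_nonneg _) (norm_is_le k)).trans (norm_Top_le k n0)
  calc ‖Rν k n0 n1 n2‖ ≤ ‖-n1 + |k| • Top k n1 - (Complex.I * (k : ℂ)) • Top k n2‖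
        + ‖is k • Top k n0‖ := norm_sub_le _ _
    _ ≤ ‖-n1 + |k| • Top k n1‖ + ‖(Complex.I * (k : ℂ)) • Top k n2‖ + ‖is k • Top k n0‖ := by
        gcongr; exact norm_sub_le _ _
    _ ≤ ‖-n1‖ + ‖|k| • Top k n1‖ + ‖(Complex.I * (k : ℂ)) • Top k n2‖ + ‖is k • Top k n0‖ := by
        gcongr; exact norm_add_le _ _
    _ ≤ H * ‖n0‖ + 2 * ‖n1‖ + ‖n2‖ := by rw [norm_neg]; linarith

theorem norm_jn_le (x : Xn H) : ‖jn x‖ ≤ ‖x‖ := by
  have := norm_jnL_le x
  rwa [one_mul] at this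

/-- Weighted summability and comparison. -/
theorem ws_le {CW : ℝ} {W : ℤ → ℝ} (hW : Wt CW W) {E F : Type} [NormedAddCommGroup E]
    [NormedAddCommGroup F] {x : ℤ → E} {a : ℤ → F} {c : ℝ} (hx : Summable fun n => W n * ‖x n‖)
    (h : ∀ n, ‖a n‖ ≤ c * ‖x n‖) :
    (Summable fun n => W n * ‖a n‖) ∧ ∑' n, W n * ‖a n‖ ≤ c * ∑' n, W n * ‖x n‖ := by
  have h1 : ∀ n, W n * ‖a n‖ ≤ c * (W n * ‖x n‖) := fun n => by
    calc W n * ‖a n‖ ≤ W n * (c * ‖x n‖) := mul_le_mul_of_nonneg_left (h n) (hW.nonneg n)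
      _ = _ := by ring
  have h2 := hx.mul_left c
  have h3 : Summable fun n => W n * ‖a n‖ :=
    Summable.of_nonneg_of_le (fun n => mul_nonneg (hW.nonneg n) (norm_nonneg _)) h1 h2
  exact ⟨h3, (Summable.tsum_le_tsum h1 h3 h2).trans_eq tsum_mul_left⟩

theorem tsum_w_nonneg {CW : ℝ} {W : ℤ → ℝ} (hW : Wt CW W) {E : Type} [NormedAddCommGroup E]
    (x : ℤ → E) : 0 ≤ ∑' n, W n * ‖x n‖ :=
  tsum_nonneg fun n => mul_nonneg (hW.nonneg n) (norm_nonneg _)

theorem ws_add {CW : ℝ} {W : ℤ → ℝ} (hW : Wt CW W) {E : Type} [NormedAddCommGroup E]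
    {a b : ℤ → E} (ha : Summable fun n => W n * ‖a n‖) (hb : Summable fun n => W n * ‖b n‖) :
    (Summable fun n => W n * ‖a n + b n‖) ∧
      ∑' n, W n * ‖a n + b n‖ ≤ (∑' n, W n * ‖a n‖) + ∑' n, W n * ‖b n‖ := by
  have h1 : ∀ n, W n * ‖a n + b n‖ ≤ W n * ‖a n‖ + W n * ‖b n‖ := fun n => by
    rw [← mul_add]
    exact mul_le_mul_of_nonneg_left (norm_add_le _ _) (hW.nonneg n)
  have h3 : Summable fun n => W n * ‖a n + b n‖ :=
    Summable.of_nonneg_of_le (fun n => mul_nonneg (hW.nonneg n) (norm_nonneg _)) h1 (ha.add hb)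
  exact ⟨h3, (Summable.tsum_le_tsum h1 h3 (ha.add hb)).trans_eq (ha.tsum_add hb)⟩

/-- Convolutions of images of families. -/
theorem conv_img {CW : ℝ} {W : ℤ → ℝ} (hW : Wt CW W) {E F : Type} [NormedAddCommGroup E]
    [NormedAddCommGroup F] {x : ℤ → E} {y : ℤ → F} {a b : ℤ → CI H} {c d : ℝ}
    (_hd : 0 ≤ d) (hc : 0 ≤ c)
    (hx : Summable fun n => W n * ‖x n‖) (hy : Summable fun n => W n * ‖y n‖)
    (ha : ∀ n, ‖a n‖ ≤ c * ‖x n‖) (hb : ∀ n, ‖b n‖ ≤ d * ‖y n‖) :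
    (∀ n, Summable fun m => a m * b (n - m)) ∧ (Summable fun n => W n * ‖conv a b n‖) ∧
      ∑' n, W n * ‖conv a b n‖ ≤ c * d * (CW * ((∑' n, W n * ‖x n‖) * ∑' n, W n * ‖y n‖)) := by
  obtain ⟨h1, h2⟩ := ws_le hW hx ha
  obtain ⟨h3, h4⟩ := ws_le hW hy hb
  obtain ⟨h5, h6, h7⟩ := conv_bound hW h1 h3
  refine ⟨h5, h6, h7.trans ?_⟩
  have hC := hW.one_le_C
  have := tsum_w_nonneg hW x
  have := tsum_w_nonneg hW y
  have := tsum_w_nonneg hW a
  have := tsum_w_nonneg hW b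
  calc CW * (∑' n, W n * ‖a n‖) * ∑' n, W n * ‖b n‖
      ≤ CW * (c * ∑' n, W n * ‖x n‖) * (d * ∑' n, W n * ‖y n‖) := by gcongr
    _ = _ := by ring

theorem Bf_bound (H : ℝ) [Fact (0 < H)] : ∃ C0 : ℝ, 1 ≤ C0 ∧ ∀ (ω CW : ℝ) (W : ℤ → ℝ), Wt CW W →
    ∀ x y : ℤ → Xn H, (Summable fun n => W n * ‖x n‖) → (Summable fun n => W n * ‖y n‖) →
    (Summable fun n => W n * ‖Bf ω x y n‖) ∧
    ∑' n, W n * ‖Bf ω x y n‖ ≤ C0 * CW * ((∑' n, W n * ‖jn (x n)‖) * (∑' n, W n * ‖y n‖) +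
      (∑' n, W n * ‖x n‖) * (∑' n, W n * ‖jn (y n)‖)) := by
  have hH0 : 0 < H := Fact.out
  refine ⟨(1 + H) * (2 * H + 4) + (9 * H + 12), by nlinarith, ?_⟩
  intro ω CW W hW x y hx hy
  have hC := hW.one_le_C
  have hjx := (ws_le (a := fun n => jn (x n)) (c := 1) hW hx fun n => by
    rw [one_mul]; exact norm_jn_le _).1
  have hjy := (ws_le (a := fun n => jn (y n)) (c := 1) hW hy fun n => by
    rw [one_mul]; exact norm_jn_le _).1
  -- components of `N0`
  obtain ⟨-, a1, a2⟩ := conv_img (H := H) (x := fun m => jn (x m)) (y := y)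
    (a := fun m => vv (ω * m) (jn (x m)))
    (b := fun m => is (ω * m) • (y m).1.2.2) (c := H + 2) (d := 1) hW (by norm_num) (by linarith)
    hjx hy (fun m => norm_vv_le _ _) (fun m => by
      rw [one_mul, norm_smul]
      exact (mul_le_of_le_one_left (norm_nonneg _) (norm_is_le _)).trans
        ((norm_snd_le _).trans ((norm_snd_le _).trans (norm_fst_le (y m)))))
  obtain ⟨-, b1, b2⟩ := conv_img (H := H) (x := fun m => jn (x m)) (y := y)
    (a := fun m => om (ω * m) (jn (x m)))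
    (b := fun m => (y m).1.2.1) (c := H + 1) (d := 1) hW (by norm_num) (by linarith)
    hjx hy (fun m => norm_om_le _ _) (fun m => by
      rw [one_mul]
      exact ((norm_fst_le _).trans ((norm_snd_le _).trans (norm_fst_le (y m)))))
  obtain ⟨-, c1, c2⟩ := conv_img (H := H) (x := fun m => jn (x m)) (y := y)
    (a := fun m => (x m).1.1)
    (b := fun m => (y m).1.1) (c := 1) (d := 1) hW (by norm_num) (by norm_num)
    hjx hy (fun m => by rw [one_mul]; exact norm_fst_le (jn (x m))) (fun m => by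
      rw [one_mul]
      exact ((norm_fst_le _).trans (norm_fst_le (y m))))
  obtain ⟨-, d1, d2⟩ := conv_img (H := H) (x := x) (y := fun m => jn (y m))
    (a := fun m => Om (ω * m) (x m))
    (b := fun m => om (ω * m) (jn (y m))) (c := 3) (d := H + 1) hW (by linarith) (by norm_num)
    hx hjy (fun m => norm_Om_le _ _) (fun m => norm_om_le _ _)
  obtain ⟨-, e1, e2⟩ := conv_img (H := H) (x := x) (y := fun m => jn (y m))
    (a := fun m => Om (ω * m) (x m))
    (b := fun m => vv (ω * m) (jn (y m))) (c := 3) (d := H + 2) hW (by linarith) (by norm_num)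
    hx hjy (fun m => norm_Om_le _ _) (fun m => norm_vv_le _ _)
  set P := CW * ((∑' n, W n * ‖jn (x n)‖) * ∑' n, W n * ‖y n‖) with hP
  set Q := CW * ((∑' n, W n * ‖x n‖) * ∑' n, W n * ‖jn (y n)‖) with hQ
  have hP0 : 0 ≤ P := mul_nonneg (by linarith) (mul_nonneg (tsum_w_nonneg hW _) (tsum_w_nonneg hW _))
  have hQ0 : 0 ≤ Q := mul_nonneg (by linarith) (mul_nonneg (tsum_w_nonneg hW _) (tsum_w_nonneg hW _))
  obtain ⟨f1, f2⟩ := ws_add hW a1 b1
  obtain ⟨g1, g2⟩ := ws_add hW f1 c1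
  have hN0s : Summable fun n => W n * ‖N0 ω x y n‖ := g1
  have hN0 : ∑' n, W n * ‖N0 ω x y n‖ ≤ (2 * H + 4) * P := by
    refine g2.trans ?_
    calc _ ≤ ((H + 2) * 1 * P + (H + 1) * 1 * P) + 1 * 1 * P :=
          add_le_add (f2.trans (add_le_add a2 b2)) c2
      _ = _ := by ring
  have hN1s : Summable fun n => W n * ‖N1 ω x y n‖ := by
    simp only [N1, norm_neg]; exact d1
  have hN1 : ∑' n, W n * ‖N1 ω x y n‖ ≤ 3 * (H + 1) * Q := by
    simp only [N1, norm_neg]; exact d2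
  have hN2s : Summable fun n => W n * ‖N2 ω x y n‖ := e1
  have hN2 : ∑' n, W n * ‖N2 ω x y n‖ ≤ 3 * (H + 2) * Q := e2
  have key : ∀ n, W n * ‖Bf ω x y n‖ ≤ (1 + H) * (W n * ‖N0 ω x y n‖) +
      (2 * (W n * ‖N1 ω x y n‖) + W n * ‖N2 ω x y n‖) := by
    intro n
    have h1 : ‖Bf ω x y n‖ ≤ (1 + H) * ‖N0 ω x y n‖ + (2 * ‖N1 ω x y n‖ + ‖N2 ω x y n‖) := by
      refine max_le ?_ ?_
      · show ‖-N0 ω x y n‖ ≤ _
        rw [norm_neg]
        have := norm_nonneg (N0 ω x y n)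
        have := norm_nonneg (N1 ω x y n)
        have := norm_nonneg (N2 ω x y n)
        nlinarith
      · show ‖Rν (ω * n) (N0 ω x y n) (N1 ω x y n) (N2 ω x y n)‖ ≤ _
        have := norm_Rν_le (ω * n) (N0 ω x y n) (N1 ω x y n) (N2 ω x y n)
        have := norm_nonneg (N0 ω x y n)
        linarith
    calc W n * ‖Bf ω x y n‖ ≤ W n * ((1 + H) * ‖N0 ω x y n‖ + (2 * ‖N1 ω x y n‖ + ‖N2 ω x y n‖)) :=
          mul_le_mul_of_nonneg_left h1 (hW.nonneg n)
      _ = _ := by ring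
  have hs : Summable fun n => (1 + H) * (W n * ‖N0 ω x y n‖) +
      (2 * (W n * ‖N1 ω x y n‖) + W n * ‖N2 ω x y n‖) :=
    (hN0s.mul_left _).add ((hN1s.mul_left _).add hN2s)
  have hB : Summable fun n => W n * ‖Bf ω x y n‖ :=
    Summable.of_nonneg_of_le (fun n => mul_nonneg (hW.nonneg n) (norm_nonneg _)) key hs
  refine ⟨hB, ?_⟩
  calc ∑' n, W n * ‖Bf ω x y n‖ ≤ ∑' n, ((1 + H) * (W n * ‖N0 ω x y n‖) +
      (2 * (W n * ‖N1 ω x y n‖) + W n * ‖N2 ω x y n‖)) := Summable.tsum_le_tsum key hB hs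
    _ = (1 + H) * (∑' n, W n * ‖N0 ω x y n‖) + (2 * (∑' n, W n * ‖N1 ω x y n‖) +
        ∑' n, W n * ‖N2 ω x y n‖) := by
        rw [Summable.tsum_add (hN0s.mul_left _) ((hN1s.mul_left _).add hN2s),
          Summable.tsum_add (hN1s.mul_left _) hN2s, tsum_mul_left, tsum_mul_left]
    _ ≤ (1 + H) * ((2 * H + 4) * P) + (2 * (3 * (H + 1) * Q) + 3 * (H + 2) * Q) := by gcongr
    _ ≤ ((1 + H) * (2 * H + 4) + (9 * H + 12)) * (P + Q) := by
        have h1 : 0 ≤ (9 * H + 12) * P := by positivity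
        have h2 : 0 ≤ (1 + H) * (2 * H + 4) * Q := by positivity
        nlinarith
    _ = _ := by rw [hP, hQ]; ring

/-! MO-4: the bilinear map on weighted spaces. -/

theorem ci_smul_add (c : ℝ) (f g : CI H) : c • (f + g) = c • f + c • g := by
  refine ci_ext fun t _ => ?_
  simp only [ex_add, ex_rsmul]
  ring

theorem ci_smul_comm (c d : ℝ) (f : CI H) : c • d • f = d • c • f := by
  refine ci_ext fun t _ => ?_
  simp only [ex_rsmul]
  ring

theorem ci_smul_neg (c : ℝ) (f : CI H) : c • -f = -(c • f) := by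
  refine ci_ext fun t _ => ?_
  simp only [ex_rsmul, ex_neg]
  ring

theorem Yn_smul_add (c : ℝ) (f g : Yn H) : c • (f + g) = c • f + c • g :=
  Prod.ext (ci_smul_add c f.1 g.1) (ci_smul_add c f.2 g.2)

theorem Yn_smul_comm (c d : ℝ) (f : Yn H) : c • d • f = d • c • f :=
  Prod.ext (ci_smul_comm c d f.1) (ci_smul_comm c d f.2)

theorem Xn_smul_add (c : ℝ) (f g : Xn H) : c • (f + g) = c • f + c • g :=
  Prod.ext (Prod.ext (ci_smul_add c f.1.1 g.1.1) (Yn_smul_add c f.1.2 g.1.2))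
    (Prod.ext (ci_smul_add c f.2.1 g.2.1) (Yn_smul_add c f.2.2 g.2.2))

theorem Xn_smul_comm (c d : ℝ) (f : Xn H) : c • d • f = d • c • f :=
  Prod.ext (Prod.ext (ci_smul_comm c d f.1.1) (Yn_smul_comm c d f.1.2))
    (Prod.ext (ci_smul_comm c d f.2.1) (Yn_smul_comm c d f.2.2))

theorem jn_add (x y : Xn H) : jn (x + y) = jn x + jn y := rfl
theorem jn_smul (c : ℝ) (x : Xn H) : jn (c • x) = c • jn x := rfl

theorem Eop_rsmul (k c : ℝ) (f : CI H) : Eop k (c • f) = c • Eop k f :=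
  (Eop k).map_smul_of_tower c f
theorem Top_rsmul (k c : ℝ) (f : CI H) : Top k (c • f) = c • Top k f :=
  (Top k).map_smul_of_tower c f

theorem om_add (k : ℝ) (y z : Yn H) : om k (y + z) = om k y + om k z := by
  refine ci_ext fun t _ => ?_
  simp only [om, Prod.fst_add, Prod.snd_add, map_add, ex_add, ex_sub, ex_neg, ex_smul]
  ring

theorem om_smul (k c : ℝ) (y : Yn H) : om k (c • y) = c • om k y := by
  refine ci_ext fun t _ => ?_
  simp only [om, Prod.smul_fst, Prod.smul_snd, Eop_rsmul, ex_sub, ex_neg, ex_smul, ex_rsmul]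
  ring

theorem vv_add (k : ℝ) (y z : Yn H) : vv k (y + z) = vv k y + vv k z := by
  refine ci_ext fun t _ => ?_
  simp only [vv, om_add, Prod.snd_add, ex_add, ex_sub, ex_smul]
  ring

theorem vv_smul (k c : ℝ) (y : Yn H) : vv k (c • y) = c • vv k y := by
  refine ci_ext fun t _ => ?_
  simp only [vv, om_smul, Prod.smul_snd, ex_sub, ex_smul, ex_rsmul]
  ring

theorem Om_add (k : ℝ) (x y : Xn H) : Om k (x + y) = Om k x + Om k y := by
  refine ci_ext fun t _ => ?_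
  simp only [Om, Prod.fst_add, Prod.snd_add, ex_add, ex_sub, ex_neg, ex_smul]
  ring

theorem Om_smul (k c : ℝ) (x : Xn H) : Om k (c • x) = c • Om k x := by
  refine ci_ext fun t _ => ?_
  simp only [Om, Prod.smul_fst, Prod.smul_snd, ex_add, ex_sub, ex_neg, ex_smul, ex_rsmul]
  ring

theorem Rν_add (k : ℝ) (a b c a' b' c' : CI H) :
    Rν k (a + a') (b + b') (c + c') = Rν k a b c + Rν k a' b' c' := by
  refine ci_ext fun t _ => ?_
  simp only [Rν, map_add, ex_add, ex_sub, ex_neg, ex_smul, ex_rsmul]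
  ring

theorem Rν_smul (k r : ℝ) (a b c : CI H) : Rν k (r • a) (r • b) (r • c) = r • Rν k a b c := by
  refine ci_ext fun t _ => ?_
  simp only [Rν, Top_rsmul, ex_add, ex_sub, ex_neg, ex_smul, ex_rsmul]
  ring

/-- The factors of the convolutions in `Bf`. -/
noncomputable def A1 (ω : ℝ) (x : ℤ → Xn H) (m : ℤ) : CI H := vv (ω * m) (jn (x m))
/-- second factor -/
noncomputable def A2 (ω : ℝ) (x : ℤ → Xn H) (m : ℤ) : CI H := om (ω * m) (jn (x m))
/-- third factor -/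
noncomputable def A3 (x : ℤ → Xn H) (m : ℤ) : CI H := (x m).1.1
/-- fourth factor -/
noncomputable def A4 (ω : ℝ) (x : ℤ → Xn H) (m : ℤ) : CI H := Om (ω * m) (x m)
/-- fifth factor -/
noncomputable def A5 (ω : ℝ) (x : ℤ → Xn H) (m : ℤ) : CI H := is (ω * m) • (x m).1.2.2
/-- sixth factor -/
noncomputable def A6 (x : ℤ → Xn H) (m : ℤ) : CI H := (x m).1.2.1

theorem N0_eq (ω : ℝ) (x y : ℤ → Xn H) (n : ℤ) : N0 ω x y n =
    conv (A1 ω x) (A5 ω y) n + conv (A2 ω x) (A6 y) n + conv (A3 x) (A3 y) n := rfl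
theorem N1_eq (ω : ℝ) (x y : ℤ → Xn H) (n : ℤ) : N1 ω x y n = -conv (A4 ω x) (A2 ω y) n := rfl
theorem N2_eq (ω : ℝ) (x y : ℤ → Xn H) (n : ℤ) : N2 ω x y n = conv (A4 ω x) (A1 ω y) n := rfl

section factors
variable (ω c : ℝ) (x y : ℤ → Xn H)

theorem A1_add : A1 ω (fun m => x m + y m) = fun m => A1 ω x m + A1 ω y m := by
  funext m; exact vv_add (ω * m) (jn (x m)) (jn (y m))
theorem A2_add : A2 ω (fun m => x m + y m) = fun m => A2 ω x m + A2 ω y m := by
  funext m; exact om_add (ω * m) (jn (x m)) (jn (y m))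
theorem A3_add : A3 (fun m => x m + y m) = fun m => A3 x m + A3 y m := rfl
theorem A4_add : A4 ω (fun m => x m + y m) = fun m => A4 ω x m + A4 ω y m := by
  funext m; exact Om_add (ω * m) (x m) (y m)
theorem A5_add : A5 ω (fun m => x m + y m) = fun m => A5 ω x m + A5 ω y m := by
  funext m
  refine ci_ext fun t _ => ?_
  simp only [A5, Prod.fst_add, Prod.snd_add, ex_add, ex_smul]
  ring
theorem A6_add : A6 (fun m => x m + y m) = fun m => A6 x m + A6 y m := rfl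

theorem A1_smul : A1 ω (fun m => c • x m) = fun m => c • A1 ω x m := by
  funext m; exact vv_smul (ω * m) c (jn (x m))
theorem A2_smul : A2 ω (fun m => c • x m) = fun m => c • A2 ω x m := by
  funext m; exact om_smul (ω * m) c (jn (x m))
theorem A3_smul : A3 (fun m => c • x m) = fun m => c • A3 x m := rfl
theorem A4_smul : A4 ω (fun m => c • x m) = fun m => c • A4 ω x m := by
  funext m; exact Om_smul (ω * m) c (x m)
theorem A5_smul : A5 ω (fun m => c • x m) = fun m => c • A5 ω x m := by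
  funext m
  refine ci_ext fun t _ => ?_
  simp only [A5, Prod.smul_fst, Prod.smul_snd, ex_smul, ex_rsmul]
  ring
theorem A6_smul : A6 (fun m => c • x m) = fun m => c • A6 x m := rfl

end factors

/-- All convolutions in `Bf ω x y` converge. -/
structure CS (ω : ℝ) (x y : ℤ → Xn H) : Prop where
  a : ∀ n : ℤ, Summable fun m : ℤ => A1 ω x m * A5 ω y (n - m)
  b : ∀ n : ℤ, Summable fun m : ℤ => A2 ω x m * A6 y (n - m)
  c : ∀ n : ℤ, Summable fun m : ℤ => A3 x m * A3 y (n - m)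
  d : ∀ n : ℤ, Summable fun m : ℤ => A4 ω x m * A2 ω y (n - m)
  e : ∀ n : ℤ, Summable fun m : ℤ => A4 ω x m * A1 ω y (n - m)

theorem cs_of {CW : ℝ} {W : ℤ → ℝ} (hW : Wt CW W) (ω : ℝ) {x y : ℤ → Xn H}
    (hx : Summable fun n => W n * ‖x n‖) (hy : Summable fun n => W n * ‖y n‖) : CS ω x y := by
  have hH0 := hH.out
  have hjx := (ws_le (a := fun n => jn (x n)) (c := 1) hW hx fun n => by
    rw [one_mul]; exact norm_jn_le _).1
  have hjy := (ws_le (a := fun n => jn (y n)) (c := 1) hW hy fun n => by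
    rw [one_mul]; exact norm_jn_le _).1
  constructor
  · exact (conv_img (H := H) (x := fun m => jn (x m)) (y := y)
      (a := A1 ω x) (b := A5 ω y) (c := H + 2) (d := 1) hW (by norm_num) (by linarith)
      hjx hy (fun m => norm_vv_le _ _) (fun m => by
        rw [one_mul, A5, norm_smul]
        exact (mul_le_of_le_one_left (norm_nonneg _) (norm_is_le _)).trans
          ((norm_snd_le _).trans ((norm_snd_le _).trans (norm_fst_le (y m)))))).1
  · exact (conv_img (H := H) (x := fun m => jn (x m)) (y := y)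
      (a := A2 ω x) (b := A6 y) (c := H + 1) (d := 1) hW (by norm_num) (by linarith)
      hjx hy (fun m => norm_om_le _ _) (fun m => by
        rw [one_mul]
        exact ((norm_fst_le _).trans ((norm_snd_le _).trans (norm_fst_le (y m)))))).1
  · exact (conv_img (H := H) (x := fun m => jn (x m)) (y := y)
      (a := A3 x) (b := A3 y) (c := 1) (d := 1) hW (by norm_num) (by norm_num)
      hjx hy (fun m => by rw [one_mul]; exact norm_fst_le (jn (x m))) (fun m => by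
        rw [one_mul]
        exact ((norm_fst_le _).trans (norm_fst_le (y m))))).1
  · exact (conv_img (H := H) (x := x) (y := fun m => jn (y m))
      (a := A4 ω x) (b := A2 ω y) (c := 3) (d := H + 1) hW (by linarith) (by norm_num)
      hx hjy (fun m => norm_Om_le _ _) (fun m => norm_om_le _ _)).1
  · exact (conv_img (H := H) (x := x) (y := fun m => jn (y m))
      (a := A4 ω x) (b := A1 ω y) (c := 3) (d := H + 2) hW (by linarith) (by norm_num)
      hx hjy (fun m => norm_Om_le _ _) (fun m => norm_vv_le _ _)).1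

theorem Bf_of_N {ω : ℝ} {x y x' y' x'' y'' : ℤ → Xn H} {n : ℤ}
    (h0 : N0 ω x'' y'' n = N0 ω x y n + N0 ω x' y' n)
    (h1 : N1 ω x'' y'' n = N1 ω x y n + N1 ω x' y' n)
    (h2 : N2 ω x'' y'' n = N2 ω x y n + N2 ω x' y' n) :
    Bf ω x'' y'' n = Bf ω x y n + Bf ω x' y' n := by
  rw [Bf, h0, h1, h2, Rν_add]
  refine Prod.ext ?_ rfl
  show -(N0 ω x y n + N0 ω x' y' n) = -N0 ω x y n + -N0 ω x' y' n
  exact neg_add _ _

theorem Bf_of_N_smul {ω c : ℝ} {x y x'' y'' : ℤ → Xn H} {n : ℤ}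
    (h0 : N0 ω x'' y'' n = c • N0 ω x y n)
    (h1 : N1 ω x'' y'' n = c • N1 ω x y n)
    (h2 : N2 ω x'' y'' n = c • N2 ω x y n) :
    Bf ω x'' y'' n = c • Bf ω x y n := by
  rw [Bf, h0, h1, h2, Rν_smul]
  refine Prod.ext ?_ rfl
  exact (ci_smul_neg c (N0 ω x y n)).symm

theorem Bf_add_left {ω : ℝ} {x x' y : ℤ → Xn H} (h : CS ω x y) (h' : CS ω x' y) (n : ℤ) :
    Bf ω (fun m => x m + x' m) y n = Bf ω x y n + Bf ω x' y n := by
  refine Bf_of_N ?_ ?_ ?_
  · rw [N0_eq, N0_eq, N0_eq, A1_add, A2_add, A3_add, conv_add_left (h.a n) (h'.a n),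
      conv_add_left (h.b n) (h'.b n), conv_add_left (h.c n) (h'.c n)]
    abel
  · rw [N1_eq, N1_eq, N1_eq, A4_add, conv_add_left (h.d n) (h'.d n)]
    abel
  · rw [N2_eq, N2_eq, N2_eq, A4_add, conv_add_left (h.e n) (h'.e n)]

theorem Bf_add_right {ω : ℝ} {x y y' : ℤ → Xn H} (h : CS ω x y) (h' : CS ω x y') (n : ℤ) :
    Bf ω x (fun m => y m + y' m) n = Bf ω x y n + Bf ω x y' n := by
  refine Bf_of_N ?_ ?_ ?_
  · rw [N0_eq, N0_eq, N0_eq, A5_add, A6_add, A3_add, conv_add_right (h.a n) (h'.a n),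
      conv_add_right (h.b n) (h'.b n), conv_add_right (h.c n) (h'.c n)]
    abel
  · rw [N1_eq, N1_eq, N1_eq, A2_add, conv_add_right (h.d n) (h'.d n)]
    abel
  · rw [N2_eq, N2_eq, N2_eq, A1_add, conv_add_right (h.e n) (h'.e n)]

theorem Bf_smul_left (ω c : ℝ) (x y : ℤ → Xn H) (n : ℤ) :
    Bf ω (fun m => c • x m) y n = c • Bf ω x y n := by
  refine Bf_of_N_smul ?_ ?_ ?_
  · rw [N0_eq, N0_eq, A1_smul, A2_smul, A3_smul, conv_smul_left, conv_smul_left, conv_smul_left]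
    refine ci_ext fun t _ => ?_
    simp only [ex_add, ex_rsmul]
    ring
  · rw [N1_eq, N1_eq, A4_smul, conv_smul_left]
    exact (ci_smul_neg _ _).symm
  · rw [N2_eq, N2_eq, A4_smul, conv_smul_left]

theorem Bf_smul_right (ω c : ℝ) (x y : ℤ → Xn H) (n : ℤ) :
    Bf ω x (fun m => c • y m) n = c • Bf ω x y n := by
  refine Bf_of_N_smul ?_ ?_ ?_
  · rw [N0_eq, N0_eq, A5_smul, A6_smul, A3_smul, conv_smul_right, conv_smul_right, conv_smul_right]
    refine ci_ext fun t _ => ?_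
    simp only [ex_add, ex_rsmul]
    ring
  · rw [N1_eq, N1_eq, A2_smul, conv_smul_right]
    exact (ci_smul_neg _ _).symm
  · rw [N2_eq, N2_eq, A1_smul, conv_smul_right]

/-- The family `W⁻¹ x`. -/
noncomputable def wd (W : ℤ → ℝ) (x : L1 (Xn H)) (m : ℤ) : Xn H := (W m)⁻¹ • x m

theorem wd_add (W : ℤ → ℝ) (x y : L1 (Xn H)) : wd W (x + y) = fun m => wd W x m + wd W y m := by
  funext m
  exact Xn_smul_add (W m)⁻¹ (x m) (y m)

theorem wd_smul (W : ℤ → ℝ) (c : ℝ) (x : L1 (Xn H)) : wd W (c • x) = fun m => c • wd W x m := by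
  funext m
  exact Xn_smul_comm (W m)⁻¹ c (x m)

theorem wd_norm {CW : ℝ} {W : ℤ → ℝ} (hW : Wt CW W) (x : L1 (Xn H)) (n : ℤ) :
    W n * ‖wd W x n‖ = ‖x n‖ := by
  rw [wd, norm_smul, norm_inv, Real.norm_eq_abs, abs_of_pos (hW.pos n),
    mul_inv_cancel_left₀ (hW.pos n).ne']

theorem wd_summable {CW : ℝ} {W : ℤ → ℝ} (hW : Wt CW W) (x : L1 (Xn H)) :
    Summable fun n => W n * ‖wd W x n‖ := by
  simp only [wd_norm hW]; exact l1_summable x

theorem wd_jn_norm {CW : ℝ} {W : ℤ → ℝ} (hW : Wt CW W) (x : L1 (Xn H)) (n : ℤ) :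
    W n * ‖jn (wd W x n)‖ = ‖jL H x n‖ := by
  rw [wd, jn_smul, norm_smul, norm_inv, Real.norm_eq_abs, abs_of_pos (hW.pos n),
    mul_inv_cancel_left₀ (hW.pos n).ne', jL_apply]

theorem norm_W_Bf {CW : ℝ} {W : ℤ → ℝ} (hW : Wt CW W) (ω : ℝ) (x y : ℤ → Xn H) (n : ℤ) :
    ‖W n • Bf ω x y n‖ = W n * ‖Bf ω x y n‖ := by
  rw [norm_smul, Real.norm_eq_abs, abs_of_pos (hW.pos n)]

theorem exists_BW (H : ℝ) [Fact (0 < H)] : ∃ C0 : ℝ, 1 ≤ C0 ∧ ∀ (ω CW : ℝ) (W : ℤ → ℝ), 1 ≤ CW → Wt CW W →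
    ∃ B : L1 (Xn H) →L[ℝ] L1 (Xn H) →L[ℝ] L1 (Yn H), IsBW ω W B ∧ BilB (jL H) B (C0 * CW) := by
  obtain ⟨C0, hC0, hB⟩ := Bf_bound H
  refine ⟨C0, hC0, ?_⟩
  intro ω CW W hCW hW
  have hs : ∀ x y : L1 (Xn H), Summable fun n => ‖W n • Bf ω (wd W x) (wd W y) n‖ := fun x y => by
    simp only [norm_W_Bf hW]
    exact (hB ω CW W hW _ _ (wd_summable hW x) (wd_summable hW y)).1
  have hcs : ∀ x y : L1 (Xn H), CS ω (wd W x) (wd W y) := fun x y =>
    cs_of hW ω (wd_summable hW x) (wd_summable hW y)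
  have hbil : ∀ x y : L1 (Xn H), ‖mkL1 (fun n => W n • Bf ω (wd W x) (wd W y) n) (hs x y)‖ ≤
      C0 * CW * (‖jL H x‖ * ‖y‖ + ‖x‖ * ‖jL H y‖) := fun x y => by
    have h1 := (hB ω CW W hW _ _ (wd_summable hW x) (wd_summable hW y)).2
    simp only [wd_norm hW, wd_jn_norm hW] at h1
    rw [norm_mkL1, l1_norm (jL H x), l1_norm (jL H y), l1_norm x, l1_norm y]
    simp only [norm_W_Bf hW]
    exact h1
  have hj : ∀ x : L1 (Xn H), ‖jL H x‖ ≤ ‖x‖ := fun x => by
    have := norm_diagL_le (fun _ : ℤ => jnL H) 1 (fun _ => norm_jnL_le) x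
    rwa [one_mul] at this
  let f : L1 (Xn H) →ₗ[ℝ] L1 (Xn H) →ₗ[ℝ] L1 (Yn H) :=
    LinearMap.mk₂ ℝ (fun x y => mkL1 (fun n => W n • Bf ω (wd W x) (wd W y) n) (hs x y))
      (fun x x' y => by
        ext1
        funext n
        show W n • Bf ω (wd W (x + x')) (wd W y) n = W n • Bf ω (wd W x) (wd W y) n +
          W n • Bf ω (wd W x') (wd W y) n
        rw [wd_add, Bf_add_left (hcs x y) (hcs x' y)]
        exact Yn_smul_add _ _ _)
      (fun c x y => by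
        ext1
        funext n
        show W n • Bf ω (wd W (c • x)) (wd W y) n = c • (W n • Bf ω (wd W x) (wd W y) n)
        rw [wd_smul, Bf_smul_left]
        exact Yn_smul_comm _ _ _)
      (fun x y y' => by
        ext1
        funext n
        show W n • Bf ω (wd W x) (wd W (y + y')) n = W n • Bf ω (wd W x) (wd W y) n +
          W n • Bf ω (wd W x) (wd W y') n
        rw [wd_add, Bf_add_right (hcs x y) (hcs x y')]
        exact Yn_smul_add _ _ _)
      (fun c x y => by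
        ext1
        funext n
        show W n • Bf ω (wd W x) (wd W (c • y)) n = c • (W n • Bf ω (wd W x) (wd W y) n)
        rw [wd_smul, Bf_smul_right]
        exact Yn_smul_comm _ _ _)
  refine ⟨f.mkContinuous₂ (C0 * CW * 2) fun x y => ?_, fun x y n => rfl, fun x y => hbil x y⟩
  refine (hbil x y).trans ?_
  have h1 := hj x
  have h2 := hj y
  have h3 := norm_nonneg x
  have h4 := norm_nonneg y
  calc C0 * CW * (‖jL H x‖ * ‖y‖ + ‖x‖ * ‖jL H y‖) ≤ C0 * CW * (‖x‖ * ‖y‖ + ‖x‖ * ‖y‖) := by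
        gcongr
    _ = _ := by ring

end

end Pool.Agent.Lib.MP_79abb3_an.P25
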