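import Pool.Agent.Lib.MP_79abb3_an.P25.FldDef
import Pool.Agent.Lib.MP_79abb3_an.P25.BW

/-!
Calculus of `fld` (job FD-1).
-/

set_option autoImplicit false
set_option linter.unusedSectionVars false

attribute [-instance] PreLp.ring SubfieldClass.toSubringClass SubringClass.toSubsemiringClass
  NonUnitalSubringClass.toNonUnitalSubsemiringClass RingConeClass.toSubsemiringClass
  SubsemiringClass.nonUnitalSubsemiringClass SubringClass.nonUnitalSubringClass
  AddSubgroup.seminormedAddCommGroup SetLike.GradeZero.instSemiring SetLike.GradeZero.instCommRing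
  SetLike.GradeZero.instCommSemiring SetLike.GradeZero.instRing LieAdmissibleAlgebra.toModule
  RightPreLieAlgebra.toModule LeftPreLieAlgebra.toModule

open MeasureTheory Set Filter Topology Function

namespace Pool.Agent.Lib.MP_79abb3_an.P25

section
variable {H : ℝ} [hH : Fact (0 < H)]

/-! FD-1: calculus of `fld`. -/

theorem ee_norm (ω : ℝ) (n : ℤ) (y : ℝ) : ‖ee ω n y‖ = 1 := by
  rw [ee, mul_comm, Complex.norm_exp_ofReal_mul_I]

theorem ee_neg (ω : ℝ) (n : ℤ) (y : ℝ) : ee ω (-n) y = star (ee ω n y) := by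
  rw [ee, ee, Complex.star_def, ← Complex.exp_conj, map_mul, Complex.conj_I, Complex.conj_ofReal]
  congr 1
  push_cast
  ring

theorem ee_add (ω : ℝ) (m n : ℤ) (y : ℝ) : ee ω (m + n) y = ee ω m y * ee ω n y := by
  rw [ee, ee, ee, ← Complex.exp_add]
  congr 1
  push_cast
  ring

theorem fld_ee_continuous (ω : ℝ) (n : ℤ) : Continuous (ee ω n) := by
  unfold ee
  fun_prop

theorem fld_term_le {ω : ℝ} (a : ℤ → CI H) (n : ℤ) (y z : ℝ) :
    ‖ex (a n) z * ee ω n y‖ ≤ ‖a n‖ := by
  rw [norm_mul, ee_norm, mul_one]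
  exact norm_ex_le _ _

theorem fld_summable {ω : ℝ} {a : ℤ → CI H} (ha : Summable fun n => ‖a n‖) (y z : ℝ) :
    Summable fun n : ℤ => ex (a n) z * ee ω n y :=
  Summable.of_norm_bounded ha fun n => fld_term_le a n y z

theorem fld_abs_le {ω : ℝ} {a : ℤ → CI H} (ha : Summable fun n => ‖a n‖) (y z : ℝ) :
    |fld ω a y z| ≤ ∑' n, ‖a n‖ := by
  refine (Complex.abs_re_le_norm _).trans ?_
  exact tsum_of_norm_bounded ha.hasSum fun n => fld_term_le a n y z

theorem fld_add {ω : ℝ} {a b : ℤ → CI H} (ha : Summable fun n => ‖a n‖) (hb : Summable fun n => ‖b n‖)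
    (y z : ℝ) : fld ω (fun n => a n + b n) y z = fld ω a y z + fld ω b y z := by
  unfold fld
  rw [← Complex.add_re, ← (fld_summable ha y z).tsum_add (fld_summable hb y z)]
  simp only [ex_add, add_mul]

theorem fld_neg {ω : ℝ} (a : ℤ → CI H) (y z : ℝ) : fld ω (fun n => -a n) y z = -fld ω a y z := by
  unfold fld
  rw [← Complex.neg_re, ← tsum_neg]
  simp only [ex_neg, neg_mul]

/-- Real valued sums. -/
theorem fld_real {ω : ℝ} {a : ℤ → CI H} (_ha : Summable fun n => ‖a n‖) (hs : Sy a) (y z : ℝ) :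
    ∑' n : ℤ, ex (a n) z * ee ω n y = ((fld ω a y z : ℝ) : ℂ) := by
  unfold fld
  rw [eq_comm, ← Complex.conj_eq_iff_re, Complex.conj_tsum, ← (Equiv.neg ℤ).tsum_eq]
  refine tsum_congr fun n => ?_
  rw [Equiv.neg_apply, map_mul, hs n, ee_neg, ex_star]
  simp

/-- Products. -/
theorem fld_conv {ω : ℝ} {a b : ℤ → CI H} (ha : Summable fun n => ‖a n‖) (hb : Summable fun n => ‖b n‖)
    (hs : Sy a) (hs' : Sy b) (y z : ℝ) : fld ω (conv a b) y z = fld ω a y z * fld ω b y z := by
  have hW : Wt 1 (fun _ : ℤ => (1:ℝ)) := ⟨fun _ => le_rfl, fun _ _ => by norm_num, rfl⟩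
  have hc := (conv_bound hW (a := a) (b := b) (by simpa using ha) (by simpa using hb)).1
  have h1 : ((∑' n : ℤ, ex (a n) z * ee ω n y) * ∑' n : ℤ, ex (b n) z * ee ω n y) =
      ∑' n : ℤ, ex (conv a b n) z * ee ω n y := by
    have hsa : Summable fun n : ℤ => ‖ex (a n) z * ee ω n y‖ :=
      Summable.of_nonneg_of_le (fun _ => norm_nonneg _) (fun n => fld_term_le a n y z) ha
    have hsb : Summable fun n : ℤ => ‖ex (b n) z * ee ω n y‖ :=
      Summable.of_nonneg_of_le (fun _ => norm_nonneg _) (fun n => fld_term_le b n y z) hb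
    have hsum := summable_mul_of_summable_norm hsa hsb
    let e : ℤ × ℤ ≃ ℤ × ℤ :=
      { toFun := fun p => (p.2, p.1 - p.2)
        invFun := fun p => (p.1 + p.2, p.1)
        left_inv := fun p => by simp
        right_inv := fun p => by simp }
    rw [tsum_mul_tsum_of_summable_norm hsa hsb, ← e.tsum_eq]
    have h2 : Summable fun p : ℤ × ℤ =>
        (ex (a (e p).1) z * ee ω (e p).1 y) * (ex (b (e p).2) z * ee ω (e p).2 y) :=
      (e.summable_iff (f := fun p : ℤ × ℤ => (ex (a p.1) z * ee ω p.1 y) *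
        (ex (b p.2) z * ee ω p.2 y))).2 hsum
    rw [h2.tsum_prod]
    refine tsum_congr fun n => ?_
    rw [ex_conv (hc n), ← tsum_mul_right]
    refine tsum_congr fun m => ?_
    show (ex (a m) z * ee ω m y) * (ex (b (n - m)) z * ee ω (n - m) y) = _
    have h3 : ee ω n y = ee ω m y * ee ω (n - m) y := by
      rw [← ee_add, add_sub_cancel]
    rw [h3]
    ring
  rw [fld_real ha hs, fld_real hb hs'] at h1
  have h2 := congrArg Complex.re h1
  rw [← Complex.ofReal_mul, Complex.ofReal_re] at h2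
  rw [h2, fld]

theorem fld_cont {ω : ℝ} {a : ℤ → CI H} (ha : Summable fun n => ‖a n‖) :
    Continuous (fun p : ℝ × ℝ => fld ω a p.1 p.2) := by
  unfold fld
  refine Complex.continuous_re.comp ?_
  refine continuous_tsum (fun n => ?_) ha fun n p => fld_term_le a n p.1 p.2
  exact ((continuous_ex (a n)).comp continuous_snd).mul ((fld_ee_continuous ω n).comp continuous_fst)

theorem fld_sub_abs_le {ω : ℝ} (a b : L1 (CI H)) (y z : ℝ) :
    |fld ω a y z - fld ω b y z| ≤ ‖a - b‖ := by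
  have h1 : fld ω a y z = fld ω (fun n => (a - b) n + b n) y z := by
    congr 1
    ext1 n
    simp
  rw [h1, fld_add (l1_summable (a - b)) (l1_summable b), add_sub_cancel_right, l1_norm]
  exact fld_abs_le (l1_summable (a - b)) y z

theorem fld_cont_joint {ω : ℝ} :
    Continuous (fun q : L1 (CI H) × ℝ × ℝ => fld ω q.1 q.2.1 q.2.2) := by
  rw [continuous_iff_continuousAt]
  rintro ⟨a0, p0⟩
  rw [Metric.continuousAt_iff']
  intro ε hε
  have h1 : ∀ᶠ q : L1 (CI H) × ℝ × ℝ in 𝓝 (a0, p0), dist q.1 a0 < ε / 2 :=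
    (continuous_fst.continuousAt (x := (a0, p0))).eventually (Metric.ball_mem_nhds _ (half_pos hε))
  have h2 : ContinuousAt (fun q : L1 (CI H) × ℝ × ℝ => fld ω a0 q.2.1 q.2.2) (a0, p0) :=
    ((fld_cont (ω := ω) (l1_summable a0)).comp continuous_snd).continuousAt
  have h3 := (Metric.continuousAt_iff'.1 h2) (ε / 2) (half_pos hε)
  filter_upwards [h1, h3] with q hq1 hq2
  calc dist (fld ω q.1 q.2.1 q.2.2) (fld ω a0 p0.1 p0.2)
      ≤ dist (fld ω q.1 q.2.1 q.2.2) (fld ω a0 q.2.1 q.2.2) +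
        dist (fld ω a0 q.2.1 q.2.2) (fld ω a0 p0.1 p0.2) := dist_triangle _ _ _
    _ < ε / 2 + ε / 2 := by
        refine add_lt_add_of_le_of_lt ?_ hq2
        rw [Real.dist_eq]
        exact (fld_sub_abs_le q.1 a0 _ _).trans (by rw [← dist_eq_norm]; exact hq1.le)
    _ = ε := add_halves ε

/-- Joint continuity in time. -/
theorem fld_cont_time {ω : ℝ} {s : Set ℝ} {a : ℝ → L1 (CI H)} (ha : ContinuousOn a s) :
    ContinuousOn (fun q : ℝ × ℝ × ℝ => fld ω (a q.1) q.2.1 q.2.2) (s ×ˢ univ) := by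
  have h := (fld_cont_joint (H := H) (ω := ω)).comp_continuousOn
    (f := fun q : ℝ × ℝ × ℝ => (a q.1, q.2)) (s := s ×ˢ univ)
    ((ha.comp continuousOn_fst fun p hp => hp.1).prodMk continuousOn_snd)
  exact h

theorem fld_is_mul_abs (k : ℝ) : is k * ((|k| : ℝ) : ℂ) = Complex.I * (k : ℂ) := by
  rw [is, mul_assoc, ← Complex.ofReal_mul]
  congr 2
  rcases lt_trichotomy k 0 with h | h | h
  · rw [Real.sign_of_neg h, abs_of_neg h]; ring
  · rw [h]; simp
  · rw [Real.sign_of_pos h, abs_of_pos h]; ring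

theorem fld_dy {ω : ℝ} {a : ℤ → CI H} (ha : Summable fun n => ‖a n‖)
    (ha' : Summable fun n : ℤ => |ω * n| * ‖a n‖) (y z : ℝ) :
    HasDerivAt (fun y => fld ω a y z) (fld ω (fun n : ℤ => is (ω * n) • (|ω * n| • a n)) y z) y := by
  have h1 : ∀ (n : ℤ) (y : ℝ), HasDerivAt (fun y => ex (a n) z * ee ω n y)
      (ex (is (ω * n) • (|ω * n| • a n)) z * ee ω n y) y := by
    intro n y
    have h2 : HasDerivAt (fun y : ℝ => ee ω n y) (Complex.I * ((ω * n : ℝ) : ℂ) * ee ω n y) y := by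
      have h3 : HasDerivAt (fun y : ℝ => Complex.I * ((ω * n * y : ℝ) : ℂ))
          (Complex.I * ((ω * n : ℝ) : ℂ)) y := by
        have h4 : HasDerivAt (fun y : ℝ => ω * n * y) (ω * n) y := by
          simpa using (hasDerivAt_id y).const_mul (ω * n)
        exact h4.ofReal_comp.const_mul Complex.I
      exact h3.cexp.congr_deriv (mul_comm _ _)
    refine (h2.const_mul (ex (a n) z)).congr_deriv ?_
    rw [ex_smul, ex_rsmul, ← mul_assoc (is _), fld_is_mul_abs]
    ring
  have h6 := hasDerivAt_tsum ha' h1 (fun n y => by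
    rw [norm_mul, ee_norm, mul_one]
    refine (norm_ex_le _ _).trans ?_
    rw [norm_smul, norm_smul, Real.norm_eq_abs, abs_abs]
    exact mul_le_of_le_one_left (by positivity) (norm_is_le _)) (y₀ := y)
    (fld_summable ha y z) y
  exact (Complex.reCLM.hasFDerivAt.comp_hasDerivAt y h6)

theorem fld_isD_integral {f f1 : CI H} (hd : IsD f f1) {z : ℝ} (hz : z ∈ Icc 0 H) :
    ex f z = ex f 0 + ∫ x in (0:ℝ)..z, ex f1 x := by
  have h1 : ∫ x in (0:ℝ)..z, ex f1 x = ex f z - ex f 0 := by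
    refine intervalIntegral.integral_eq_sub_of_hasDerivAt_of_le hz.1
      (continuous_ex f).continuousOn (fun x hx => ?_) ((continuous_ex f1).intervalIntegrable _ _)
    have hx' : x ∈ Icc (0:ℝ) H := ⟨hx.1.le, hx.2.le.trans hz.2⟩
    exact (hd x hx').hasDerivAt (Icc_mem_nhds hx.1 (hx.2.trans_le hz.2))
  rw [h1]
  ring

theorem fld_dz {ω : ℝ} {a a1 : ℤ → CI H} (ha : Summable fun n => ‖a n‖)
    (ha1 : Summable fun n => ‖a1 n‖) (hd : ∀ n, IsD (a n) (a1 n)) (y : ℝ) {z : ℝ} (hz : z ∈ Icc 0 H) :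
    HasDerivWithinAt (fun z => fld ω a y z) (fld ω a1 y z) (Icc 0 H) z := by
  have h1 : ∀ (n : ℤ) (z : ℝ), HasDerivAt
      (fun z => (ex (a n) 0 + ∫ x in (0:ℝ)..z, ex (a1 n) x) * ee ω n y)
      (ex (a1 n) z * ee ω n y) z := by
    intro n z
    have h2 : HasDerivAt (fun z => ∫ x in (0:ℝ)..z, ex (a1 n) x) (ex (a1 n) z) z :=
      (continuous_ex (a1 n)).integral_hasStrictDerivAt 0 z |>.hasDerivAt
    exact (h2.const_add _).mul_const _
  have h3 := hasDerivAt_tsum ha1 h1 (fun n z => fld_term_le a1 n y z) (y₀ := 0) (by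
    simpa using fld_summable (ω := ω) ha y 0) z
  have h4 : HasDerivAt
      (fun z => (∑' n : ℤ, (ex (a n) 0 + ∫ x in (0:ℝ)..z, ex (a1 n) x) * ee ω n y).re)
      (fld ω a1 y z) z := Complex.reCLM.hasFDerivAt.comp_hasDerivAt z h3
  refine h4.hasDerivWithinAt.congr (fun x hx => ?_) ?_
  · unfold fld
    congr 1
    exact tsum_congr fun n => by rw [fld_isD_integral (hd n) hx]
  · unfold fld
    congr 1
    exact tsum_congr fun n => by rw [fld_isD_integral (hd n) hz]

end

end Pool.Agent.Lib.MP_79abb3_an.P25
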