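import Pool.Agent.Lib.MP_79abb3_an.P25.FldDef

/-!
FD-3: Fourier coefficients of test functions and pairing.
-/

set_option autoImplicit false
set_option linter.unusedSectionVars false

open MeasureTheory Set Filter Topology Function

namespace Pool.Agent.Lib.MP_79abb3_an.P25

namespace PairAux

theorem ee_norm1 (ω : ℝ) (n : ℤ) (y : ℝ) : ‖ee ω n y‖ = 1 := by
  rw [ee, mul_comm, Complex.norm_exp_ofReal_mul_I]

theorem ee_cont (ω : ℝ) (n : ℤ) : Continuous (ee ω n) := by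
  unfold ee
  fun_prop

theorem ee_deriv (ω : ℝ) (n : ℤ) (y : ℝ) :
    HasDerivAt (ee ω n) ((Complex.I * ((ω * n : ℝ) : ℂ)) * ee ω n y) y := by
  have h1 : HasDerivAt (fun y : ℝ => ((ω * n * y : ℝ) : ℂ)) ((ω * n : ℝ) : ℂ) y := by
    have h2 : HasDerivAt (fun y : ℝ => ω * n * y) (ω * n) y := by
      simpa using (hasDerivAt_id y).const_mul (ω * n)
    exact h2.ofReal_comp
  have h3 := (h1.const_mul Complex.I).cexp
  refine h3.congr_deriv ?_
  rw [ee]
  ring

variable {H T : ℝ} {Ψ : ℝ × ℝ × ℝ → ℝ}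

theorem bounds (h : IsT3 T H Ψ) : ∃ R C : ℝ, 0 ≤ R ∧ 0 ≤ C ∧
    (∀ t y z, y ∉ Icc (-R) R → Ψ (t, y, z) = 0) ∧ ∀ q, |Ψ q| ≤ C := by
  obtain ⟨R, hR⟩ := h.cpt.isCompact.isBounded.exists_norm_le
  obtain ⟨C, hC⟩ := h.smooth.continuous.bounded_above_of_compact_support h.cpt
  refine ⟨max R 0, C, le_max_right _ _, (norm_nonneg _).trans (hC (0, 0, 0)), ?_, hC⟩
  intro t y z hy
  by_contra h0
  have h1 : (t, y, z) ∈ tsupport Ψ := subset_tsupport _ h0
  have h2 := hR _ h1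
  have h3 : |y| ≤ ‖(t, y, z)‖ := by
    have e1 : ‖((y, z) : ℝ × ℝ)‖ ≤ ‖(t, y, z)‖ := norm_snd_le (t, y, z)
    have e2 : ‖y‖ ≤ ‖((y, z) : ℝ × ℝ)‖ := norm_fst_le (y, z)
    exact e2.trans e1
  have h4 : |y| ≤ max R 0 := (h3.trans h2).trans (le_max_left _ _)
  exact hy ⟨(abs_le.1 h4).1, (abs_le.1 h4).2⟩

theorem zero_of_z (h : IsT3 T H Ψ) {t y z : ℝ} (hz : z ∉ Ioo 0 H) : Ψ (t, y, z) = 0 := by
  by_contra h0
  exact hz (h.supp (subset_tsupport _ h0)).2.2

theorem zero_of_t (h : IsT3 T H Ψ) {t : ℝ} (ht : t ∉ Ioo 0 T) (p : ℝ × ℝ) : Ψ (t, p) = 0 := by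
  by_contra h0
  exact ht (h.supp (subset_tsupport _ h0)).1

theorem d_e (h : IsT3 T H Ψ) (e : ℝ × ℝ × ℝ) : IsT3 T H (fun q => fderiv ℝ Ψ q e) where
  smooth := (h.smooth.fderiv_right (m := ((⊤ : ℕ∞) : WithTop ℕ∞)) (by
    simp)).clm_apply contDiff_const
  cpt := h.cpt.fderiv_apply ℝ e
  supp := (tsupport_fderiv_apply_subset ℝ e).trans h.supp

theorem line_deriv (h : IsT3 T H Ψ) (q e : ℝ × ℝ × ℝ) {γ : ℝ → ℝ × ℝ × ℝ} {s : ℝ}
    (hγ : HasDerivAt γ e s) (hq : γ s = q) :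
    HasDerivAt (fun s => Ψ (γ s)) (fderiv ℝ Ψ q e) s := by
  have h1 : HasFDerivAt Ψ (fderiv ℝ Ψ (γ s)) (γ s) :=
    (h.smooth.differentiable (by simp)).differentiableAt.hasFDerivAt
  rw [← hq]
  exact h1.comp_hasDerivAt s hγ

theorem ker_cont (h : IsT3 T H Ψ) (ω : ℝ) (n : ℤ) :
    Continuous (fun q : (ℝ × ℝ) × ℝ => ((Ψ (q.1.1, q.2, q.1.2) : ℝ) : ℂ) * ee ω n q.2) := by
  have h1 := h.smooth.continuous
  have h2 := ee_cont ω n
  have h3 : Continuous fun q : (ℝ × ℝ) × ℝ => Ψ (q.1.1, q.2, q.1.2) := h1.comp (by fun_prop)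
  exact (Complex.continuous_ofReal.comp h3).mul (h2.comp continuous_snd)

theorem ker_cont1 (h : IsT3 T H Ψ) (ω : ℝ) (n : ℤ) (t z : ℝ) :
    Continuous (fun y : ℝ => ((Ψ (t, y, z) : ℝ) : ℂ) * ee ω n y) :=
  (ker_cont h ω n).comp (f := fun y : ℝ => (((t, z) : ℝ × ℝ), y)) (by fun_prop)

theorem ker_int (h : IsT3 T H Ψ) (ω : ℝ) (n : ℤ) (t z : ℝ) :
    Integrable (fun y : ℝ => ((Ψ (t, y, z) : ℝ) : ℂ) * ee ω n y) := by
  obtain ⟨R, C, _, _, hR, _⟩ := bounds h
  refine (ker_cont1 h ω n t z).integrable_of_hasCompactSupport ?_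
  refine HasCompactSupport.intro (isCompact_Icc (a := -R) (b := R)) fun y hy => ?_
  rw [hR t y z hy, Complex.ofReal_zero, zero_mul]

theorem norm_ker (ω : ℝ) (n : ℤ) (q : ℝ × ℝ × ℝ) (y : ℝ) :
    ‖((Ψ q : ℝ) : ℂ) * ee ω n y‖ = |Ψ q| := by
  rw [norm_mul, ee_norm1, mul_one, Complex.norm_real, Real.norm_eq_abs]

end PairAux

open PairAux

section
variable {H : ℝ} [hH : Fact (0 < H)]

/-! FD-3: Fourier coefficients of test functions. -/

theorem IsT3.d_t {T : ℝ} {Ψ : ℝ × ℝ × ℝ → ℝ} (h : IsT3 T H Ψ) : IsT3 T H (pt Ψ) := d_e h _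
theorem IsT3.d_y {T : ℝ} {Ψ : ℝ × ℝ × ℝ → ℝ} (h : IsT3 T H Ψ) : IsT3 T H (py Ψ) := d_e h _
theorem IsT3.d_z {T : ℝ} {Ψ : ℝ × ℝ × ℝ → ℝ} (h : IsT3 T H Ψ) : IsT3 T H (pz Ψ) := d_e h _

theorem IsT3.hat_cont {T : ℝ} {Ψ : ℝ × ℝ × ℝ → ℝ} (h : IsT3 T H Ψ) (ω : ℝ) (n : ℤ) :
    Continuous (fun p : ℝ × ℝ => hat ω Ψ n p.1 p.2) := by
  obtain ⟨R, C, _, _, hR, _⟩ := bounds h
  have h1 := continuous_parametric_integral_of_continuous (μ := volume) (s := Icc (-R) R)
    (f := fun (p : ℝ × ℝ) (y : ℝ) => ((Ψ (p.1, y, p.2) : ℝ) : ℂ) * ee ω n y)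
    (ker_cont h ω n) isCompact_Icc
  refine h1.congr fun p => ?_
  rw [hat]
  refine setIntegral_eq_integral_of_forall_compl_eq_zero fun y hy => ?_
  rw [hR _ y _ hy, Complex.ofReal_zero, zero_mul]

theorem IsT3.hat_t {T : ℝ} {Ψ : ℝ × ℝ × ℝ → ℝ} (h : IsT3 T H Ψ) (ω : ℝ) (n : ℤ) (t z : ℝ) :
    HasDerivAt (fun t => hat ω Ψ n t z) (hat ω (pt Ψ) n t z) t := by
  obtain ⟨R, C, _, hC, hR, hb⟩ := bounds h.d_t
  have h1 := hasDerivAt_integral_of_dominated_loc_of_deriv_le (μ := volume) (x₀ := t)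
    (F := fun t y => ((Ψ (t, y, z) : ℝ) : ℂ) * ee ω n y)
    (F' := fun t y => ((pt Ψ (t, y, z) : ℝ) : ℂ) * ee ω n y)
    (bound := (Icc (-R) R).indicator (fun _ => C)) (s := univ) univ_mem
    (Eventually.of_forall fun t => (ker_cont1 h ω n t z).aestronglyMeasurable)
    (ker_int h ω n t z) (ker_cont1 h.d_t ω n t z).aestronglyMeasurable
    (ae_of_all _ fun y s _ => ?_) ?_ (ae_of_all _ fun y s _ => ?_)
  · exact h1.2
  · rw [norm_ker]
    by_cases hy : y ∈ Icc (-R) R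
    · rw [indicator_of_mem hy]; exact hb _
    · rw [indicator_of_notMem hy, hR _ _ _ hy, abs_zero]
  · exact (integrable_indicator_iff measurableSet_Icc).2 (integrableOn_const (by simp))
  · refine HasDerivAt.mul_const ?_ _
    refine HasDerivAt.ofReal_comp ?_
    refine line_deriv h (s, y, z) (1, 0, 0) (γ := fun s => (s, y, z)) ?_ rfl
    exact (hasDerivAt_id s).prodMk ((hasDerivAt_const s y).prodMk (hasDerivAt_const s z))

theorem IsT3.hat_z {T : ℝ} {Ψ : ℝ × ℝ × ℝ → ℝ} (h : IsT3 T H Ψ) (ω : ℝ) (n : ℤ) (t z : ℝ) :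
    HasDerivAt (fun z => hat ω Ψ n t z) (hat ω (pz Ψ) n t z) z := by
  obtain ⟨R, C, _, hC, hR, hb⟩ := bounds h.d_z
  have h1 := hasDerivAt_integral_of_dominated_loc_of_deriv_le (μ := volume) (x₀ := z)
    (F := fun z y => ((Ψ (t, y, z) : ℝ) : ℂ) * ee ω n y)
    (F' := fun z y => ((pz Ψ (t, y, z) : ℝ) : ℂ) * ee ω n y)
    (bound := (Icc (-R) R).indicator (fun _ => C)) (s := univ) univ_mem
    (Eventually.of_forall fun z => (ker_cont1 h ω n t z).aestronglyMeasurable)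
    (ker_int h ω n t z) (ker_cont1 h.d_z ω n t z).aestronglyMeasurable
    (ae_of_all _ fun y s _ => ?_) ?_ (ae_of_all _ fun y s _ => ?_)
  · exact h1.2
  · rw [norm_ker]
    by_cases hy : y ∈ Icc (-R) R
    · rw [indicator_of_mem hy]; exact hb _
    · rw [indicator_of_notMem hy, hR _ _ _ hy, abs_zero]
  · exact (integrable_indicator_iff measurableSet_Icc).2 (integrableOn_const (by simp))
  · refine HasDerivAt.mul_const ?_ _
    refine HasDerivAt.ofReal_comp ?_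
    refine line_deriv h (t, y, s) (0, 0, 1) (γ := fun s => (t, y, s)) ?_ rfl
    exact (hasDerivAt_const s t).prodMk ((hasDerivAt_const s y).prodMk (hasDerivAt_id s))

theorem IsT3.hat_y {T : ℝ} {Ψ : ℝ × ℝ × ℝ → ℝ} (h : IsT3 T H Ψ) (ω : ℝ) (n : ℤ) (t z : ℝ) :
    hat ω (py Ψ) n t z = -(Complex.I * ((ω * n : ℝ) : ℂ)) * hat ω Ψ n t z := by
  have hd : ∀ y, HasDerivAt (fun y => ((Ψ (t, y, z) : ℝ) : ℂ) * ee ω n y)
      (((py Ψ (t, y, z) : ℝ) : ℂ) * ee ω n y +
        (Complex.I * ((ω * n : ℝ) : ℂ)) * (((Ψ (t, y, z) : ℝ) : ℂ) * ee ω n y)) y := by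
    intro y
    have h1 : HasDerivAt (fun y => Ψ (t, y, z)) (py Ψ (t, y, z)) y :=
      line_deriv h (t, y, z) (0, 1, 0) (γ := fun y => (t, y, z))
        ((hasDerivAt_const y t).prodMk ((hasDerivAt_id y).prodMk (hasDerivAt_const y z))) rfl
    refine (h1.ofReal_comp.mul (ee_deriv ω n y)).congr_deriv ?_
    ring
  have i1 := ker_int h ω n t z
  have i2 := ker_int h.d_y ω n t z
  have i3 := i1.const_mul (Complex.I * ((ω * n : ℝ) : ℂ))
  have h2 := integral_eq_zero_of_hasDerivAt_of_integrable hd (i2.add i3) i1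
  rw [integral_add i2 i3, integral_const_mul] at h2
  have h3 : hat ω (py Ψ) n t z + Complex.I * ((ω * n : ℝ) : ℂ) * hat ω Ψ n t z = 0 := h2
  linear_combination h3

theorem IsT3.hat_supp {T : ℝ} (hT : 0 < T) {Ψ : ℝ × ℝ × ℝ → ℝ} (h : IsT3 T H Ψ) (ω : ℝ) : ∃ a b c d : ℝ, 0 < a ∧
    a ≤ b ∧ b < T ∧ 0 < c ∧ c ≤ d ∧ d < H ∧ ∀ (n : ℤ) (t z : ℝ), ¬(t ∈ Icc a b ∧ z ∈ Icc c d) →
      hat ω Ψ n t z = 0 := by
  have hH0 := hH.out
  rcases (tsupport Ψ).eq_empty_or_nonempty with he | hne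
  · refine ⟨T / 2, T / 2, H / 2, H / 2, by linarith, le_rfl, by linarith, by linarith, le_rfl,
      by linarith, fun n t z _ => ?_⟩
    have h0 : ∀ q, Ψ q = 0 := fun q => by
      by_contra h0
      have h1 : q ∈ tsupport Ψ := subset_tsupport _ h0
      rw [he] at h1
      exact h1
    rw [hat]
    simp [h0]
  · have hK : IsCompact (tsupport Ψ) := h.cpt
    obtain ⟨q1, hq1, hm1⟩ := hK.exists_isMinOn hne (f := fun q : ℝ × ℝ × ℝ => q.1)
      continuous_fst.continuousOn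
    obtain ⟨q2, hq2, hm2⟩ := hK.exists_isMaxOn hne (f := fun q : ℝ × ℝ × ℝ => q.1)
      continuous_fst.continuousOn
    obtain ⟨q3, hq3, hm3⟩ := hK.exists_isMinOn hne (f := fun q : ℝ × ℝ × ℝ => q.2.2)
      (continuous_snd.comp continuous_snd).continuousOn
    obtain ⟨q4, hq4, hm4⟩ := hK.exists_isMaxOn hne (f := fun q : ℝ × ℝ × ℝ => q.2.2)
      (continuous_snd.comp continuous_snd).continuousOn
    refine ⟨q1.1, q2.1, q3.2.2, q4.2.2, (h.supp hq1).1.1, hm1 hq2, (h.supp hq2).1.2,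
      (h.supp hq3).2.2.1, hm3 hq4, (h.supp hq4).2.2.2, fun n t z hn => ?_⟩
    have h0 : ∀ y, Ψ (t, y, z) = 0 := fun y => by
      by_contra h0
      have h1 : (t, y, z) ∈ tsupport Ψ := subset_tsupport _ h0
      exact hn ⟨⟨hm1 h1, hm2 h1⟩, hm3 h1, hm4 h1⟩
    rw [hat]
    simp [h0]

theorem IsT3.hat_bd {T : ℝ} {Ψ : ℝ × ℝ × ℝ → ℝ} (h : IsT3 T H Ψ) (ω : ℝ) : ∃ C : ℝ, 0 ≤ C ∧
    ∀ (n : ℤ) (t z : ℝ), ‖hat ω Ψ n t z‖ ≤ C := by
  obtain ⟨R, C, hR0, hC, hR, hb⟩ := bounds h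
  refine ⟨C * (2 * R), by positivity, fun n t z => ?_⟩
  rw [hat, ← setIntegral_eq_integral_of_forall_compl_eq_zero (s := Icc (-R) R) (fun y hy => by
    rw [hR _ y _ hy, Complex.ofReal_zero, zero_mul])]
  have h1 := norm_setIntegral_le_of_norm_le_const (μ := volume) (s := Icc (-R) R) (C := C)
    (f := fun y => ((Ψ (t, y, z) : ℝ) : ℂ) * ee ω n y) (by simp) (fun y _ => by
      rw [norm_ker]; exact hb _)
  refine h1.trans (le_of_eq ?_)
  rw [Real.volume_real_Icc_of_le (by linarith)]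
  ring

/-- Pairing of a family of modes with a test function. -/
theorem pairing {ω T R : ℝ} {J : Set ℝ} (hJ : J.Countable) {Ψ : ℝ × ℝ × ℝ → ℝ} (h : IsT3 T H Ψ)
    {a : ℝ → ℤ → CI H} (ha : ∀ t ∈ Icc 0 T \ J, Summable (fun n => ‖a t n‖) ∧ ∑' n, ‖a t n‖ ≤ R)
    (hc : ∀ n, ContinuousOn (fun t => a t n) (Icc 0 T \ J)) :
    (Summable fun n : ℤ => ‖∫ t in (0:ℝ)..T, ∫ z in (0:ℝ)..H, ex (a t n) z * hat ω Ψ n t z‖) ∧
    ∫ q : ℝ × ℝ × ℝ, fld ω (a q.1) q.2.1 q.2.2 * Ψ q =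
      (∑' n : ℤ, ∫ t in (0:ℝ)..T, ∫ z in (0:ℝ)..H, ex (a t n) z * hat ω Ψ n t z).re := by
  have hH0 := hH.out
  set S : Set (ℝ × ℝ × ℝ) := (Icc 0 T \ J) ×ˢ univ with hS
  have hSm : MeasurableSet S := (measurableSet_Icc.diff hJ.measurableSet).prod MeasurableSet.univ
  set F : ℤ → ℝ × ℝ × ℝ → ℂ := fun n => S.indicator fun q =>
    ex (a q.1 n) q.2.2 * (((Ψ q : ℝ) : ℂ) * ee ω n q.2.1) with hF
  have hΨi : Integrable Ψ := h.smooth.continuous.integrable_of_hasCompactSupport h.cpt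
  have hFm : ∀ n, AEStronglyMeasurable (F n) := by
    intro n
    refine (aestronglyMeasurable_indicator_iff hSm).2 ?_
    refine ContinuousOn.aestronglyMeasurable ?_ hSm
    have c1 : ContinuousOn (fun q : ℝ × ℝ × ℝ => ex (a q.1 n) q.2.2) S := by
      have := continuousOn_ex (hc n)
      exact this.comp (f := fun q : ℝ × ℝ × ℝ => (q.1, q.2.2)) (by fun_prop)
        fun q hq => ⟨hq.1, mem_univ _⟩
    have c2 : Continuous fun q : ℝ × ℝ × ℝ => ((Ψ q : ℝ) : ℂ) * ee ω n q.2.1 :=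
      (Complex.continuous_ofReal.comp h.smooth.continuous).mul
        ((ee_cont ω n).comp (continuous_fst.comp continuous_snd))
    exact c1.mul c2.continuousOn
  have hFn : ∀ n q, q ∈ S → ‖F n q‖ ≤ ‖a q.1 n‖ * |Ψ q| := by
    intro n q hq
    rw [hF]
    simp only
    rw [indicator_of_mem hq, norm_mul, norm_ker]
    exact mul_le_mul_of_nonneg_right (norm_ex_le _ _) (abs_nonneg _)
  have hFn0 : ∀ n q, q ∉ S → F n q = 0 := fun n q hq => indicator_of_notMem hq _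
  have hfin : ∀ (s : Finset ℤ) (q), ∑ n ∈ s, ‖F n q‖ ≤ |R| * |Ψ q| := by
    intro s q
    by_cases hq : q ∈ S
    · calc ∑ n ∈ s, ‖F n q‖ ≤ ∑ n ∈ s, ‖a q.1 n‖ * |Ψ q| := Finset.sum_le_sum fun n _ => hFn n q hq
        _ = (∑ n ∈ s, ‖a q.1 n‖) * |Ψ q| := (Finset.sum_mul _ _ _).symm
        _ ≤ |R| * |Ψ q| := by
            refine mul_le_mul_of_nonneg_right ?_ (abs_nonneg _)
            have h1 := ha q.1 hq.1
            exact ((h1.1.sum_le_tsum s fun n _ => norm_nonneg _).trans h1.2).trans (le_abs_self R)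
    · rw [Finset.sum_eq_zero fun n _ => by rw [hFn0 n q hq, norm_zero]]
      positivity
  have hFi : ∀ n, Integrable (F n) := by
    intro n
    refine Integrable.mono' (hΨi.abs.const_mul |R|) (hFm n) (ae_of_all _ fun q => ?_)
    have := hfin {n} q
    rwa [Finset.sum_singleton] at this
  have hsumI : Summable fun n => ∫ q, ‖F n q‖ := by
    refine summable_of_sum_le (c := ∫ q, |R| * |Ψ q|)
      (fun n => integral_nonneg fun q => norm_nonneg _) fun s => ?_
    rw [← integral_finsetSum s fun n _ => (hFi n).norm]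
    exact integral_mono (integrable_finsetSum s fun n _ => (hFi n).norm)
      (hΨi.abs.const_mul |R|) fun q => hfin s q
  -- value of the integrals
  have hval : ∀ n, ∫ q, F n q = ∫ t in (0:ℝ)..T, ∫ z in (0:ℝ)..H, ex (a t n) z * hat ω Ψ n t z := by
    intro n
    have e1 : ∫ q, F n q = ∫ t, ∫ p : ℝ × ℝ, F n (t, p) := by
      have := hFi n
      rw [Measure.volume_eq_prod] at this ⊢
      exact integral_prod (F n) this
    rw [e1]
    rcases le_or_gt 0 T with hT | hT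
    · rw [intervalIntegral.integral_of_le hT]
      have e2 : ∫ t, ∫ p : ℝ × ℝ, F n (t, p) = ∫ t in Ioc 0 T, ∫ p : ℝ × ℝ, F n (t, p) := by
        symm
        refine setIntegral_eq_integral_of_forall_compl_eq_zero fun t ht => ?_
        have : ∀ p : ℝ × ℝ, F n (t, p) = 0 := fun p => by
          by_cases hq : (t, p) ∈ S
          · rw [hF]
            simp only
            rw [indicator_of_mem hq, zero_of_t h (t := t) (fun h' => ht ⟨h'.1, h'.2.le⟩) p]
            simp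
          · exact hFn0 n _ hq
        simp only [this, integral_zero]
      rw [e2]
      refine setIntegral_congr_ae measurableSet_Ioc ?_
      have hJ0 : ∀ᵐ t : ℝ, t ∉ J := measure_eq_zero_iff_ae_notMem.1 (hJ.measure_zero volume)
      filter_upwards [hJ0] with t htJ ht
      have htS : t ∈ Icc 0 T \ J := ⟨⟨ht.1.le, ht.2⟩, htJ⟩
      have e3 : ∀ p : ℝ × ℝ, F n (t, p) = ex (a t n) p.2 * (((Ψ (t, p) : ℝ) : ℂ) * ee ω n p.1) := by
        intro p
        rw [hF]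
        simp only
        rw [indicator_of_mem (show (t, p) ∈ S from ⟨htS, mem_univ _⟩)]
      simp only [e3]
      have hint : Integrable fun p : ℝ × ℝ =>
          ex (a t n) p.2 * (((Ψ (t, p) : ℝ) : ℂ) * ee ω n p.1) := by
        have cc : Continuous fun p : ℝ × ℝ =>
            ex (a t n) p.2 * (((Ψ (t, p) : ℝ) : ℂ) * ee ω n p.1) := by
          refine ((continuous_ex _).comp continuous_snd).mul ((Complex.continuous_ofReal.comp
            (h.smooth.continuous.comp (by fun_prop))).mul ((ee_cont ω n).comp continuous_fst))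
        refine cc.integrable_of_hasCompactSupport ?_
        obtain ⟨R1, hR1⟩ := h.cpt.isCompact.isBounded.exists_norm_le
        refine HasCompactSupport.intro (isCompact_closedBall (0 : ℝ × ℝ) R1) fun p hp => ?_
        have : Ψ (t, p) = 0 := by
          by_contra h0
          have h1 := hR1 _ (subset_tsupport _ h0)
          have h2 : ‖p‖ ≤ ‖(t, p)‖ := norm_snd_le (t, p)
          exact hp (by rw [mem_closedBall_zero_iff]; exact h2.trans h1)
        rw [this]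
        simp
      have e4 : ∫ p : ℝ × ℝ, ex (a t n) p.2 * (((Ψ (t, p) : ℝ) : ℂ) * ee ω n p.1) =
          ∫ z, ∫ y, ex (a t n) z * (((Ψ (t, y, z) : ℝ) : ℂ) * ee ω n y) := by
        rw [Measure.volume_eq_prod] at hint ⊢
        exact integral_prod_symm _ hint
      rw [e4]
      have e5 : ∀ z, ∫ y, ex (a t n) z * (((Ψ (t, y, z) : ℝ) : ℂ) * ee ω n y) =
          ex (a t n) z * hat ω Ψ n t z := fun z => by
        rw [integral_const_mul, hat]
      simp only [e5]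
      rw [intervalIntegral.integral_of_le hH0.le]
      symm
      refine setIntegral_eq_integral_of_forall_compl_eq_zero fun z hz => ?_
      have : hat ω Ψ n t z = 0 := by
        rw [hat]
        have : ∀ y, Ψ (t, y, z) = 0 := fun y => zero_of_z h (fun h' => hz ⟨h'.1, h'.2.le⟩)
        simp [this]
      rw [this, mul_zero]
    · -- `T < 0`: everything vanishes
      have hΨ0 : ∀ q, Ψ q = 0 := fun q => zero_of_t h (t := q.1) (fun h' => by
        have := h'.1.trans h'.2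
        linarith) q.2
      have h1 : ∀ t (p : ℝ × ℝ), F n (t, p) = 0 := fun t p => by
        by_cases hq : (t, p) ∈ S
        · rw [hF]
          simp only
          rw [indicator_of_mem hq, hΨ0]
          simp
        · exact hFn0 n _ hq
      have h2 : ∀ t z, hat ω Ψ n t z = 0 := fun t z => by
        rw [hat]; simp [hΨ0]
      simp [h1, h2]
  have hsumV : Summable fun n : ℤ =>
      ‖∫ t in (0:ℝ)..T, ∫ z in (0:ℝ)..H, ex (a t n) z * hat ω Ψ n t z‖ := by
    refine Summable.of_nonneg_of_le (fun n => norm_nonneg _) (fun n => ?_) hsumI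
    rw [← hval n]
    exact norm_integral_le_integral_norm _
  refine ⟨hsumV, ?_⟩
  -- real parts
  have hG := hasSum_integral_of_summable_integral_norm (μ := volume)
    (F := fun n q => (F n q).re) (fun n => (hFi n).re) (by
      refine Summable.of_nonneg_of_le (fun n => integral_nonneg fun q => norm_nonneg _)
        (fun n => ?_) hsumI
      refine integral_mono (hFi n).re.norm (hFi n).norm fun q => ?_
      exact Complex.abs_re_le_norm _)
  have hre : ∀ n, ∫ q, (F n q).re = (∫ q, F n q).re := fun n => by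
    exact integral_re (hFi n)
  have hS2 : Summable fun n => ∫ q, F n q := by
    refine Summable.of_norm ?_
    simpa only [hval] using hsumV
  have h1 : (∑' n, ∫ q, F n q).re = ∑' n, ∫ q, (F n q).re := by
    rw [Complex.re_tsum hS2]
    exact tsum_congr fun n => (hre n).symm
  have h2 : ∫ q : ℝ × ℝ × ℝ, fld ω (a q.1) q.2.1 q.2.2 * Ψ q = ∫ q, ∑' n, (F n q).re := by
    refine integral_congr_ae ?_
    have hJ0 : ∀ᵐ q : ℝ × ℝ × ℝ, q.1 ∉ J := by
      have h3 : ∀ᵐ t : ℝ, t ∉ J := measure_eq_zero_iff_ae_notMem.1 (hJ.measure_zero volume)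
      rw [Measure.volume_eq_prod]
      exact (Measure.quasiMeasurePreserving_fst (μ := (volume : Measure ℝ))
        (ν := (volume : Measure (ℝ × ℝ)))).ae h3
    filter_upwards [hJ0] with q hq
    by_cases hqT : q.1 ∈ Icc 0 T
    · have hqS : q ∈ S := ⟨⟨hqT, hq⟩, mem_univ _⟩
      have e1 : ∀ n, F n q = (ex (a q.1 n) q.2.2 * ee ω n q.2.1) * ((Ψ q : ℝ) : ℂ) := fun n => by
        rw [hF]
        simp only
        rw [indicator_of_mem hqS]
        ring
      have hsum : Summable fun n => ex (a q.1 n) q.2.2 * ee ω n q.2.1 := by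
        refine Summable.of_norm (Summable.of_nonneg_of_le (fun n => norm_nonneg _) (fun n => ?_)
          (ha q.1 ⟨hqT, hq⟩).1)
        rw [norm_mul, ee_norm1, mul_one]
        exact norm_ex_le _ _
      have e2 : ∑' n, (F n q).re = (∑' n, F n q).re := by
        rw [Complex.re_tsum]
        simp only [e1]
        exact hsum.mul_right _
      rw [e2]
      simp only [e1]
      rw [tsum_mul_right, Complex.re_mul_ofReal, fld]
    · have hΨ0 : Ψ q = 0 := zero_of_t h (t := q.1) (fun h' => hqT ⟨h'.1.le, h'.2.le⟩) q.2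
      have e1 : ∀ n, F n q = 0 := fun n => hFn0 n q fun h' => hqT h'.1.1
      simp [e1, hΨ0]
  rw [h2, ← hG.tsum_eq, ← h1]
  simp only [hval]

end

end Pool.Agent.Lib.MP_79abb3_an.P25
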