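import Pool.Agent.Lib.MP_79abb3_an.P25.FldDef

/-!
Integration by parts in the strip at a fixed time.
-/

set_option autoImplicit false
set_option linter.unusedSectionVars false

open MeasureTheory Set Filter Topology Function

namespace Pool.Agent.Lib.MP_79abb3_an.P25

namespace PartsAux

theorem slice_cpt {T H : ℝ} {Ψ : ℝ × ℝ × ℝ → ℝ} (hΨ : IsT3 T H Ψ) (t : ℝ) :
    HasCompactSupport (fun p : ℝ × ℝ => Ψ (t, p)) :=
  hΨ.cpt.comp_isClosedEmbedding (g := fun p : ℝ × ℝ => (t, p))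
    (Function.LeftInverse.isClosedEmbedding (f := Prod.snd) (fun _ => rfl) continuous_snd
      (by fun_prop))

theorem slice_supp {T H : ℝ} {Ψ : ℝ × ℝ × ℝ → ℝ} (hΨ : IsT3 T H Ψ) (t : ℝ) :
    tsupport (fun p : ℝ × ℝ => Ψ (t, p)) ⊆ univ ×ˢ Ioo 0 H := by
  intro p hp
  have h1 : (t, p) ∈ tsupport Ψ := by
    have h2 := tsupport_comp_subset_preimage Ψ (f := fun p : ℝ × ℝ => (t, p)) (by fun_prop)
    exact h2 hp
  exact (hΨ.supp h1).2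

theorem deriv_supp {Ψ : ℝ × ℝ × ℝ → ℝ} (e : ℝ × ℝ × ℝ) :
    tsupport (fun q => fderiv ℝ Ψ q e) ⊆ tsupport Ψ :=
  tsupport_fderiv_apply_subset ℝ e

theorem isT3_deriv {T H : ℝ} {Ψ : ℝ × ℝ × ℝ → ℝ} (hΨ : IsT3 T H Ψ) (e : ℝ × ℝ × ℝ) :
    IsT3 T H (fun q => fderiv ℝ Ψ q e) where
  smooth := by
    have h1 : ContDiff ℝ ((⊤ : ℕ∞) : WithTop ℕ∞) (fderiv ℝ Ψ) :=
      hΨ.smooth.fderiv_right (m := ((⊤ : ℕ∞) : WithTop ℕ∞)) (by simp)
    exact h1.clm_apply contDiff_const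
  cpt := hΨ.cpt.fderiv_apply (𝕜 := ℝ) e
  supp := (deriv_supp e).trans hΨ.supp

/-- `b χ` is continuous if `b` is continuous in the strip and `χ` is supported in the open strip -/
theorem cont_mul {H : ℝ} {b χ : ℝ × ℝ → ℝ} (hb : ContinuousOn b (univ ×ˢ Icc 0 H))
    (hχ : Continuous χ) (hs : tsupport χ ⊆ univ ×ˢ Ioo 0 H) : Continuous (fun p => b p * χ p) := by
  rw [continuous_iff_continuousAt]
  intro p
  by_cases hp : p ∈ tsupport χ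
  · have h1 := hs hp
    have h2 : (univ ×ˢ Icc 0 H : Set (ℝ × ℝ)) ∈ 𝓝 p :=
      prod_mem_nhds univ_mem (Icc_mem_nhds h1.2.1 h1.2.2)
    exact (hb.continuousAt h2).mul hχ.continuousAt
  · have h1 : χ =ᶠ[𝓝 p] 0 := notMem_tsupport_iff_eventuallyEq.1 hp
    have h2 : (fun p => b p * χ p) =ᶠ[𝓝 p] fun _ => 0 := by
      filter_upwards [h1] with x hx
      rw [hx]; simp
    exact (continuousAt_congr h2).2 continuousAt_const

/-- Test data in two variables. -/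
structure T2 (H : ℝ) (χ χy χz : ℝ × ℝ → ℝ) : Prop where
  c : Continuous χ
  cy : Continuous χy
  cz : Continuous χz
  k : HasCompactSupport χ
  ky : HasCompactSupport χy
  kz : HasCompactSupport χz
  s : tsupport χ ⊆ univ ×ˢ Ioo 0 H
  sy : tsupport χy ⊆ univ ×ˢ Ioo 0 H
  sz : tsupport χz ⊆ univ ×ˢ Ioo 0 H
  dy : ∀ y z, HasDerivAt (fun y => χ (y, z)) (χy (y, z)) y
  dz : ∀ y z, HasDerivAt (fun z => χ (y, z)) (χz (y, z)) z

theorem t2 {T H : ℝ} {Ψ : ℝ × ℝ × ℝ → ℝ} (hΨ : IsT3 T H Ψ) (t : ℝ) :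
    T2 H (fun p => Ψ (t, p)) (fun p => py Ψ (t, p)) (fun p => pz Ψ (t, p)) := by
  have hy : IsT3 T H (py Ψ) := isT3_deriv hΨ (0, 1, 0)
  have hz : IsT3 T H (pz Ψ) := isT3_deriv hΨ (0, 0, 1)
  have hd : ∀ q, HasFDerivAt Ψ (fderiv ℝ Ψ q) q := fun q =>
    (hΨ.smooth.differentiable (by simp) q).hasFDerivAt
  refine ⟨hΨ.smooth.continuous.comp (by fun_prop), hy.smooth.continuous.comp (by fun_prop),
    hz.smooth.continuous.comp (by fun_prop), slice_cpt hΨ t, slice_cpt hy t, slice_cpt hz t,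
    slice_supp hΨ t, slice_supp hy t, slice_supp hz t, ?_, ?_⟩
  · intro y z
    have h1 : HasDerivAt (fun y : ℝ => ((t, y, z) : ℝ × ℝ × ℝ)) (0, 1, 0) y :=
      (hasDerivAt_const y t).prodMk ((hasDerivAt_id y).prodMk (hasDerivAt_const y z))
    exact (hd (t, y, z)).comp_hasDerivAt y h1
  · intro y z
    have h1 : HasDerivAt (fun z : ℝ => ((t, y, z) : ℝ × ℝ × ℝ)) (0, 0, 1) z :=
      (hasDerivAt_const z t).prodMk ((hasDerivAt_const z y).prodMk (hasDerivAt_id z))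
    exact (hd (t, y, z)).comp_hasDerivAt z h1

theorem int_mul {H : ℝ} {b χ : ℝ × ℝ → ℝ} (hb : ContinuousOn b (univ ×ˢ Icc 0 H))
    (hχ : Continuous χ) (hk : HasCompactSupport χ) (hs : tsupport χ ⊆ univ ×ˢ Ioo 0 H) :
    Integrable (fun p => b p * χ p) :=
  (cont_mul hb hχ hs).integrable_of_hasCompactSupport (hk.mul_left (f := b))

theorem eq_zero {H : ℝ} {χ : ℝ × ℝ → ℝ} (hs : tsupport χ ⊆ univ ×ˢ Ioo 0 H) {p : ℝ × ℝ}
    (hp : p.2 ∉ Ioo 0 H) : χ p = 0 := by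
  by_contra h
  exact hp (hs (subset_tsupport χ h)).2

theorem emb1 (z : ℝ) : IsClosedEmbedding (fun y : ℝ => ((y, z) : ℝ × ℝ)) :=
  Function.LeftInverse.isClosedEmbedding (f := Prod.fst) (fun _ => rfl) continuous_fst
      (by fun_prop)

theorem emb2 (y : ℝ) : IsClosedEmbedding (fun z : ℝ => ((y, z) : ℝ × ℝ)) :=
  Function.LeftInverse.isClosedEmbedding (f := Prod.snd) (fun _ => rfl) continuous_snd
      (by fun_prop)

theorem zero_y {H : ℝ} {χ χy χz : ℝ × ℝ → ℝ} (hχ : T2 H χ χy χz) {a ay : ℝ → ℝ → ℝ}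
    (ca : ContinuousOn (uncurry a) (univ ×ˢ Icc 0 H))
    (cay : ContinuousOn (uncurry ay) (univ ×ˢ Icc 0 H))
    (da : ∀ y, ∀ z ∈ Icc 0 H, HasDerivAt (fun y => a y z) (ay y z) y) :
    Integrable (fun p : ℝ × ℝ => ay p.1 p.2 * χ p + a p.1 p.2 * χy p) ∧
    ∫ p : ℝ × ℝ, (ay p.1 p.2 * χ p + a p.1 p.2 * χy p) = 0 := by
  have c1 : Continuous (fun p : ℝ × ℝ => ay p.1 p.2 * χ p) := cont_mul cay hχ.c hχ.s
  have c2 : Continuous (fun p : ℝ × ℝ => a p.1 p.2 * χy p) := cont_mul ca hχ.cy hχ.sy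
  have c3 : Continuous (fun p : ℝ × ℝ => a p.1 p.2 * χ p) := cont_mul ca hχ.c hχ.s
  have k1 : HasCompactSupport (fun p : ℝ × ℝ => ay p.1 p.2 * χ p) :=
    hχ.k.mul_left (f := fun p : ℝ × ℝ => ay p.1 p.2)
  have k2 : HasCompactSupport (fun p : ℝ × ℝ => a p.1 p.2 * χy p) :=
    hχ.ky.mul_left (f := fun p : ℝ × ℝ => a p.1 p.2)
  have k3 : HasCompactSupport (fun p : ℝ × ℝ => a p.1 p.2 * χ p) :=
    hχ.k.mul_left (f := fun p : ℝ × ℝ => a p.1 p.2)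
  have I : Integrable (fun p : ℝ × ℝ => ay p.1 p.2 * χ p + a p.1 p.2 * χy p) :=
    (c1.integrable_of_hasCompactSupport k1).add (c2.integrable_of_hasCompactSupport k2)
  refine ⟨I, ?_⟩
  have hI := I
  rw [Measure.volume_eq_prod] at hI ⊢
  rw [integral_prod_symm _ hI]
  refine integral_eq_zero_of_ae (Eventually.of_forall fun z => ?_)
  simp only [Pi.zero_apply]
  by_cases hz : z ∈ Icc 0 H
  · refine integral_eq_zero_of_hasDerivAt_of_integrable (f := fun y => a y z * χ (y, z))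
      (fun y => (da y z hz).mul (hχ.dy y z)) ?_ ?_
    · exact ((c1.add c2).comp (emb1 z).continuous).integrable_of_hasCompactSupport
        ((k1.add k2).comp_isClosedEmbedding (emb1 z))
    · exact (c3.comp (emb1 z).continuous).integrable_of_hasCompactSupport
        (k3.comp_isClosedEmbedding (emb1 z))
  · have hz' : z ∉ Ioo 0 H := fun h => hz (Ioo_subset_Icc_self h)
    have h1 : ∀ y : ℝ, ay y z * χ (y, z) + a y z * χy (y, z) = 0 := by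
      intro y
      rw [eq_zero hχ.s (p := (y, z)) hz', eq_zero hχ.sy (p := (y, z)) hz']
      ring
    simp only [h1, integral_zero]

theorem zero_z {H : ℝ} {χ χy χz : ℝ × ℝ → ℝ} (hχ : T2 H χ χy χz) {a az : ℝ → ℝ → ℝ}
    (ca : ContinuousOn (uncurry a) (univ ×ˢ Icc 0 H))
    (caz : ContinuousOn (uncurry az) (univ ×ˢ Icc 0 H))
    (da : ∀ y, ∀ z ∈ Icc 0 H, HasDerivWithinAt (fun z => a y z) (az y z) (Icc 0 H) z) :
    Integrable (fun p : ℝ × ℝ => az p.1 p.2 * χ p + a p.1 p.2 * χz p) ∧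
    ∫ p : ℝ × ℝ, (az p.1 p.2 * χ p + a p.1 p.2 * χz p) = 0 := by
  have c1 : Continuous (fun p : ℝ × ℝ => az p.1 p.2 * χ p) := cont_mul caz hχ.c hχ.s
  have c2 : Continuous (fun p : ℝ × ℝ => a p.1 p.2 * χz p) := cont_mul ca hχ.cz hχ.sz
  have c3 : Continuous (fun p : ℝ × ℝ => a p.1 p.2 * χ p) := cont_mul ca hχ.c hχ.s
  have k1 : HasCompactSupport (fun p : ℝ × ℝ => az p.1 p.2 * χ p) :=
    hχ.k.mul_left (f := fun p : ℝ × ℝ => az p.1 p.2)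
  have k2 : HasCompactSupport (fun p : ℝ × ℝ => a p.1 p.2 * χz p) :=
    hχ.kz.mul_left (f := fun p : ℝ × ℝ => a p.1 p.2)
  have k3 : HasCompactSupport (fun p : ℝ × ℝ => a p.1 p.2 * χ p) :=
    hχ.k.mul_left (f := fun p : ℝ × ℝ => a p.1 p.2)
  have I : Integrable (fun p : ℝ × ℝ => az p.1 p.2 * χ p + a p.1 p.2 * χz p) :=
    (c1.integrable_of_hasCompactSupport k1).add (c2.integrable_of_hasCompactSupport k2)
  refine ⟨I, ?_⟩
  have hI := I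
  rw [Measure.volume_eq_prod] at hI ⊢
  rw [integral_prod _ hI]
  refine integral_eq_zero_of_ae (Eventually.of_forall fun y => ?_)
  simp only [Pi.zero_apply]
  refine integral_eq_zero_of_hasDerivAt_of_integrable (f := fun z => a y z * χ (y, z))
      (fun z => ?_) ?_ ?_
  · by_cases hz : z ∈ Ioo 0 H
    · exact ((da y z (Ioo_subset_Icc_self hz)).hasDerivAt (Icc_mem_nhds hz.1 hz.2)).mul (hχ.dz y z)
    · have h0 : (y, z) ∉ tsupport χ := fun h => hz (hχ.s h).2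
      have h1 : χ =ᶠ[𝓝 (y, z)] 0 := notMem_tsupport_iff_eventuallyEq.1 h0
      have h2 : ∀ᶠ w in 𝓝 z, χ (y, w) = 0 :=
        ((emb2 y).continuous.continuousAt (x := z)).eventually h1
      rw [eq_zero hχ.s (p := (y, z)) hz, eq_zero hχ.sz (p := (y, z)) hz, mul_zero, mul_zero,
        add_zero]
      refine (hasDerivAt_const z (0:ℝ)).congr_of_eventuallyEq ?_
      filter_upwards [h2] with w hw
      rw [hw, mul_zero]
  · exact ((c1.add c2).comp (emb2 y).continuous).integrable_of_hasCompactSupport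
        ((k1.add k2).comp_isClosedEmbedding (emb2 y))
  · exact (c3.comp (emb2 y).continuous).integrable_of_hasCompactSupport
        (k3.comp_isClosedEmbedding (emb2 y))

theorem zadd {f g : ℝ × ℝ → ℝ} (hf : Integrable f ∧ ∫ p, f p = 0)
    (hg : Integrable g ∧ ∫ p, g p = 0) :
    Integrable (fun p => f p + g p) ∧ ∫ p, (f p + g p) = 0 :=
  ⟨hf.1.add hg.1, by rw [integral_add hf.1 hg.1, hf.2, hg.2, add_zero]⟩

theorem zsubc {f g : ℝ × ℝ → ℝ} (c : ℝ) (hf : Integrable f ∧ ∫ p, f p = 0)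
    (hg : Integrable g ∧ ∫ p, g p = 0) :
    Integrable (fun p => f p - c * g p) ∧ ∫ p, (f p - c * g p) = 0 :=
  ⟨hf.1.sub (hg.1.const_mul c), by
    rw [integral_sub hf.1 (hg.1.const_mul c), integral_const_mul, hf.2, hg.2, mul_zero, sub_zero]⟩

end PartsAux

open PartsAux

section
variable {H : ℝ} [hH : Fact (0 < H)]

/-! FD-6 -/

/-- Integration by parts at a fixed time. -/
theorem FieldAt.parts {C : ℝ} {g gy gz v vy vz w wy wz O : ℝ → ℝ → ℝ}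
    (h : FieldAt H C g gy gz v vy vz w wy wz O) {f fy fz : ℝ → ℝ → ℝ}
    (cf : ContinuousOn (uncurry f) (univ ×ˢ Icc 0 H)) (cfy : ContinuousOn (uncurry fy) (univ ×ˢ Icc 0 H))
    (cfz : ContinuousOn (uncurry fz) (univ ×ˢ Icc 0 H))
    (dfy : ∀ y, ∀ z ∈ Icc 0 H, HasDerivAt (fun y => f y z) (fy y z) y)
    (dfz : ∀ y, ∀ z ∈ Icc 0 H, HasDerivWithinAt (fun z => f y z) (fz y z) (Icc 0 H) z)
    {T : ℝ} {Ψ : ℝ × ℝ × ℝ → ℝ} (hΨ : IsT3 T H Ψ) (t : ℝ) :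
    ∫ p : ℝ × ℝ, (f p.1 p.2 * (v p.1 p.2 * py Ψ (t, p) + w p.1 p.2 * pz Ψ (t, p)) -
      2 * g p.1 p.2 * f p.1 p.2 * Ψ (t, p)) =
    -∫ p : ℝ × ℝ, (v p.1 p.2 * fy p.1 p.2 + w p.1 p.2 * fz p.1 p.2 + g p.1 p.2 * f p.1 p.2) * Ψ (t, p) := by
  have hχ := t2 hΨ t
  have cg := (h.c g (by simp)).1
  have cv := (h.c v (by simp)).1
  have cvy := (h.c vy (by simp)).1
  have cw := (h.c w (by simp)).1
  have cwz := (h.c wz (by simp)).1
  obtain ⟨I1, E1⟩ := zero_y hχ (a := fun y z => f y z * v y z)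
    (ay := fun y z => fy y z * v y z + f y z * vy y z) (cf.mul cv) ((cfy.mul cv).add (cf.mul cvy))
    (fun y z hz => (dfy y z hz).mul (h.dvy y z hz))
  obtain ⟨I2, E2⟩ := zero_z hχ (a := fun y z => f y z * w y z)
    (az := fun y z => fz y z * w y z + f y z * wz y z) (cf.mul cw) ((cfz.mul cw).add (cf.mul cwz))
    (fun y z hz => (dfz y z hz).mul (h.dwz y z hz))
  have J1 : Integrable (fun p : ℝ × ℝ =>
      (v p.1 p.2 * fy p.1 p.2 + w p.1 p.2 * fz p.1 p.2 + g p.1 p.2 * f p.1 p.2) * Ψ (t, p)) :=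
    int_mul (((cv.mul cfy).add (cw.mul cfz)).add (cg.mul cf)) hχ.c hχ.k hχ.s
  have e : ∀ p : ℝ × ℝ, f p.1 p.2 * (v p.1 p.2 * py Ψ (t, p) + w p.1 p.2 * pz Ψ (t, p)) -
      2 * g p.1 p.2 * f p.1 p.2 * Ψ (t, p) =
      (((fy p.1 p.2 * v p.1 p.2 + f p.1 p.2 * vy p.1 p.2) * Ψ (t, p) +
        (f p.1 p.2 * v p.1 p.2) * py Ψ (t, p)) +
      ((fz p.1 p.2 * w p.1 p.2 + f p.1 p.2 * wz p.1 p.2) * Ψ (t, p) +
        (f p.1 p.2 * w p.1 p.2) * pz Ψ (t, p))) -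
      (v p.1 p.2 * fy p.1 p.2 + w p.1 p.2 * fz p.1 p.2 + g p.1 p.2 * f p.1 p.2) * Ψ (t, p) := by
    intro p
    by_cases hp : p.2 ∈ Ioo 0 H
    · have hd := h.div p.1 p.2 (Ioo_subset_Icc_self hp)
      linear_combination (-(f p.1 p.2 * Ψ (t, p))) * hd
    · rw [eq_zero hχ.s hp, eq_zero hχ.sy hp, eq_zero hχ.sz hp]
      ring
  simp only [e]
  obtain ⟨A1, A2⟩ := zadd ⟨I1, E1⟩ ⟨I2, E2⟩
  rw [integral_sub A1 J1, A2]
  ring

theorem FieldAt.parts2 {C : ℝ} {g gy gz v vy vz w wy wz O : ℝ → ℝ → ℝ}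
    (h : FieldAt H C g gy gz v vy vz w wy wz O) {T : ℝ} {Φ₂ Φ₃ : ℝ × ℝ × ℝ → ℝ} (h2 : IsT3 T H Φ₂)
    (h3 : IsT3 T H Φ₃) (hdiv : ∀ q, py Φ₂ q + pz Φ₃ q = 0) (t : ℝ) :
    ∫ p : ℝ × ℝ, (-(g p.1 p.2 * (v p.1 p.2 * Φ₂ (t, p) + w p.1 p.2 * Φ₃ (t, p))) +
      v p.1 p.2 * (v p.1 p.2 * py Φ₂ (t, p) + w p.1 p.2 * pz Φ₂ (t, p)) +
      w p.1 p.2 * (v p.1 p.2 * py Φ₃ (t, p) + w p.1 p.2 * pz Φ₃ (t, p))) =
    ∫ p : ℝ × ℝ, (O p.1 p.2 * w p.1 p.2 * Φ₂ (t, p) - O p.1 p.2 * v p.1 p.2 * Φ₃ (t, p)) := by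
  have hχ := t2 h2 t
  have hξ := t2 h3 t
  have cv := (h.c v (by simp)).1
  have cvy := (h.c vy (by simp)).1
  have cvz := (h.c vz (by simp)).1
  have cw := (h.c w (by simp)).1
  have cwy := (h.c wy (by simp)).1
  have cwz := (h.c wz (by simp)).1
  have cO := (h.c O (by simp)).1
  obtain ⟨I1, E1⟩ := zero_y hχ (a := fun y z => v y z * v y z)
    (ay := fun y z => vy y z * v y z + v y z * vy y z) (cv.mul cv) ((cvy.mul cv).add (cv.mul cvy))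
    (fun y z hz => (h.dvy y z hz).mul (h.dvy y z hz))
  obtain ⟨I2, E2⟩ := zero_z hχ (a := fun y z => v y z * w y z)
    (az := fun y z => vz y z * w y z + v y z * wz y z) (cv.mul cw) ((cvz.mul cw).add (cv.mul cwz))
    (fun y z hz => (h.dvz y z hz).mul (h.dwz y z hz))
  obtain ⟨I3, E3⟩ := zero_y hξ (a := fun y z => w y z * v y z)
    (ay := fun y z => wy y z * v y z + w y z * vy y z) (cw.mul cv) ((cwy.mul cv).add (cw.mul cvy))
    (fun y z hz => (h.dwy y z hz).mul (h.dvy y z hz))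
  obtain ⟨I4, E4⟩ := zero_z hξ (a := fun y z => w y z * w y z)
    (az := fun y z => wz y z * w y z + w y z * wz y z) (cw.mul cw) ((cwz.mul cw).add (cw.mul cwz))
    (fun y z hz => (h.dwz y z hz).mul (h.dwz y z hz))
  have cq : ContinuousOn (uncurry fun y z => v y z * v y z + w y z * w y z) (univ ×ˢ Icc 0 H) :=
    (cv.mul cv).add (cw.mul cw)
  obtain ⟨I5, E5⟩ := zero_y hχ (a := fun y z => v y z * v y z + w y z * w y z)
    (ay := fun y z => (vy y z * v y z + v y z * vy y z) + (wy y z * w y z + w y z * wy y z)) cq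
    (((cvy.mul cv).add (cv.mul cvy)).add ((cwy.mul cw).add (cw.mul cwy)))
    (fun y z hz => ((h.dvy y z hz).mul (h.dvy y z hz)).add ((h.dwy y z hz).mul (h.dwy y z hz)))
  obtain ⟨I6, E6⟩ := zero_z hξ (a := fun y z => v y z * v y z + w y z * w y z)
    (az := fun y z => (vz y z * v y z + v y z * vz y z) + (wz y z * w y z + w y z * wz y z)) cq
    (((cvz.mul cv).add (cv.mul cvz)).add ((cwz.mul cw).add (cw.mul cwz)))
    (fun y z hz => ((h.dvz y z hz).mul (h.dvz y z hz)).add ((h.dwz y z hz).mul (h.dwz y z hz)))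
  have J1 : Integrable (fun p : ℝ × ℝ => O p.1 p.2 * w p.1 p.2 * Φ₂ (t, p)) :=
    int_mul (b := fun p : ℝ × ℝ => O p.1 p.2 * w p.1 p.2) (cO.mul cw) hχ.c hχ.k hχ.s
  have J2 : Integrable (fun p : ℝ × ℝ => O p.1 p.2 * v p.1 p.2 * Φ₃ (t, p)) :=
    int_mul (b := fun p : ℝ × ℝ => O p.1 p.2 * v p.1 p.2) (cO.mul cv) hξ.c hξ.k hξ.s
  have e : ∀ p : ℝ × ℝ, (-(g p.1 p.2 * (v p.1 p.2 * Φ₂ (t, p) + w p.1 p.2 * Φ₃ (t, p))) +
      v p.1 p.2 * (v p.1 p.2 * py Φ₂ (t, p) + w p.1 p.2 * pz Φ₂ (t, p)) +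
      w p.1 p.2 * (v p.1 p.2 * py Φ₃ (t, p) + w p.1 p.2 * pz Φ₃ (t, p))) =
      ((((((vy p.1 p.2 * v p.1 p.2 + v p.1 p.2 * vy p.1 p.2) * Φ₂ (t, p) +
        (v p.1 p.2 * v p.1 p.2) * py Φ₂ (t, p)) +
      ((vz p.1 p.2 * w p.1 p.2 + v p.1 p.2 * wz p.1 p.2) * Φ₂ (t, p) +
        (v p.1 p.2 * w p.1 p.2) * pz Φ₂ (t, p))) +
      ((wy p.1 p.2 * v p.1 p.2 + w p.1 p.2 * vy p.1 p.2) * Φ₃ (t, p) +
        (w p.1 p.2 * v p.1 p.2) * py Φ₃ (t, p))) +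
      ((wz p.1 p.2 * w p.1 p.2 + w p.1 p.2 * wz p.1 p.2) * Φ₃ (t, p) +
        (w p.1 p.2 * w p.1 p.2) * pz Φ₃ (t, p))) -
      (1 / 2) * (
      ((((vy p.1 p.2 * v p.1 p.2 + v p.1 p.2 * vy p.1 p.2) +
        (wy p.1 p.2 * w p.1 p.2 + w p.1 p.2 * wy p.1 p.2)) * Φ₂ (t, p) +
        (v p.1 p.2 * v p.1 p.2 + w p.1 p.2 * w p.1 p.2) * py Φ₂ (t, p)) +
      (((vz p.1 p.2 * v p.1 p.2 + v p.1 p.2 * vz p.1 p.2) +
        (wz p.1 p.2 * w p.1 p.2 + w p.1 p.2 * wz p.1 p.2)) * Φ₃ (t, p) +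
        (v p.1 p.2 * v p.1 p.2 + w p.1 p.2 * w p.1 p.2) * pz Φ₃ (t, p))))) +
      (O p.1 p.2 * w p.1 p.2 * Φ₂ (t, p) - O p.1 p.2 * v p.1 p.2 * Φ₃ (t, p)) := by
    intro p
    by_cases hp : p.2 ∈ Ioo 0 H
    · have hd := h.div p.1 p.2 (Ioo_subset_Icc_self hp)
      have hv := h.vor p.1 p.2 (Ioo_subset_Icc_self hp)
      have hq := hdiv (t, p)
      linear_combination (-(v p.1 p.2 * Φ₂ (t, p) + w p.1 p.2 * Φ₃ (t, p))) * hd +
        (1 / 2) * (v p.1 p.2 * v p.1 p.2 + w p.1 p.2 * w p.1 p.2) * hq -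
        (w p.1 p.2 * Φ₂ (t, p) - v p.1 p.2 * Φ₃ (t, p)) * hv
    · rw [eq_zero hχ.s hp, eq_zero hχ.sy hp, eq_zero hχ.sz hp, eq_zero hξ.s hp, eq_zero hξ.sy hp,
        eq_zero hξ.sz hp]
      ring
  simp only [e]
  obtain ⟨A1, A2⟩ := zsubc (1 / 2) (zadd (zadd (zadd ⟨I1, E1⟩ ⟨I2, E2⟩) ⟨I3, E3⟩) ⟨I4, E4⟩)
    (zadd ⟨I5, E5⟩ ⟨I6, E6⟩)
  have J3 : Integrable (fun p : ℝ × ℝ => O p.1 p.2 * w p.1 p.2 * Φ₂ (t, p) -
      O p.1 p.2 * v p.1 p.2 * Φ₃ (t, p)) := J1.sub J2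
  rw [integral_add A1 J3, A2, zero_add]

theorem FieldAt.parts3 {C : ℝ} {g gy gz v vy vz w wy wz O : ℝ → ℝ → ℝ}
    (h : FieldAt H C g gy gz v vy vz w wy wz O) {T : ℝ} {Ψ : ℝ × ℝ × ℝ → ℝ} (hΨ : IsT3 T H Ψ) (t : ℝ) :
    ∫ p : ℝ × ℝ, (-(g p.1 p.2 * Ψ (t, p)) + v p.1 p.2 * py Ψ (t, p) + w p.1 p.2 * pz Ψ (t, p)) = 0 := by
  have hχ := t2 hΨ t
  have cv := (h.c v (by simp)).1
  have cvy := (h.c vy (by simp)).1
  have cw := (h.c w (by simp)).1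
  have cwz := (h.c wz (by simp)).1
  obtain ⟨I1, E1⟩ := zero_y hχ (a := v) (ay := vy) cv cvy h.dvy
  obtain ⟨I2, E2⟩ := zero_z hχ (a := w) (az := wz) cw cwz h.dwz
  have e : ∀ p : ℝ × ℝ, (-(g p.1 p.2 * Ψ (t, p)) + v p.1 p.2 * py Ψ (t, p) +
      w p.1 p.2 * pz Ψ (t, p)) =
      (vy p.1 p.2 * Ψ (t, p) + v p.1 p.2 * py Ψ (t, p)) +
      (wz p.1 p.2 * Ψ (t, p) + w p.1 p.2 * pz Ψ (t, p)) := by
    intro p
    by_cases hp : p.2 ∈ Ioo 0 H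
    · have hd := h.div p.1 p.2 (Ioo_subset_Icc_self hp)
      linear_combination (-(Ψ (t, p))) * hd
    · rw [eq_zero hχ.s hp, eq_zero hχ.sy hp, eq_zero hχ.sz hp]
      ring
  simp only [e]
  rw [integral_add I1 I2, E1, E2, add_zero]

end

end Pool.Agent.Lib.MP_79abb3_an.P25
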