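import Pool.Agent.Lib.MP_79abb3_an.P25.Basic

/-!
The Dirichlet heat semigroup on `[0,H]` (definition of the properties that are used).
-/

set_option autoImplicit false
set_option linter.unusedSectionVars false

open MeasureTheory Set Filter Topology Function

namespace Pool.Agent.Lib.MP_79abb3_an.P25

/-- `S t` is the heat semigroup on `[0,H]` with zero Dirichlet conditions, `D t = ∂_z S t`,
`A t = ∂_z² S t = ∂_t S t`. -/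
structure DirSG (H : ℝ) [Fact (0 < H)] (S D A : ℝ → (CI H →L[ℂ] CI H)) : Prop where
  S_norm : ∀ t, 0 < t → ∀ f, ‖S t f‖ ≤ ‖f‖
  D_norm : ∀ t, 0 < t → ∀ f, ‖D t f‖ ≤ (√t)⁻¹ * ‖f‖
  A_norm : ∀ t, 0 < t → ∀ f, ‖A t f‖ ≤ t⁻¹ * ‖f‖
  S_der : ∀ t, 0 < t → ∀ f, IsD (S t f) (D t f)
  D_der : ∀ t, 0 < t → ∀ f, IsD (D t f) (A t f)
  S_zero : ∀ t, 0 < t → ∀ f, ex (S t f) 0 = 0
  S_H : ∀ t, 0 < t → ∀ f, ex (S t f) H = 0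
  S_sg : ∀ s t, 0 < s → 0 < t → ∀ f, S (s + t) f = S s (S t f)
  D_sg : ∀ s t, 0 < s → 0 < t → ∀ f, D (s + t) f = D s (S t f)
  A_sg : ∀ s t, 0 < s → 0 < t → ∀ f, A (s + t) f = A s (S t f)
  S_time : ∀ t, 0 < t → ∀ f, HasDerivAt (fun t => S t f) (A t f) t
  D_cont : ∀ f, ContinuousOn (fun t => D t f) (Ioi 0)
  A_cont : ∀ f, ContinuousOn (fun t => A t f) (Ioi 0)
  S_init : ∀ f, ex f 0 = 0 → ex f H = 0 → Tendsto (fun t => S t f) (𝓝[>] 0) (𝓝 f)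
  D_init : ∀ f f1, IsD f f1 → ex f 0 = 0 → ex f H = 0 →
    Tendsto (fun t => D t f) (𝓝[>] 0) (𝓝 f1) ∧ ∀ t, 0 < t → ‖D t f‖ ≤ ‖f1‖
  S_L2 : ∀ f, Tendsto (fun t => ∫ z in (0:ℝ)..H, ‖ex (S t f) z - ex f z‖ ^ 2) (𝓝[>] 0) (𝓝 0)
  S_loc : ∀ f, ∀ β > 0, ∀ ε > 0, ∃ δ > 0, ∀ t ∈ Ioo 0 δ, ∀ z ∈ Icc β (H - β),
    ‖ex (S t f) z - ex f z‖ ≤ ε
  S_star : ∀ t, 0 < t → ∀ f, S t (star f) = star (S t f)
  D_star : ∀ t, 0 < t → ∀ f, D t (star f) = star (D t f)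

end Pool.Agent.Lib.MP_79abb3_an.P25
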