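import Pool.Agent.Lib.MP_79abb3_an.P25.AbsA
import Pool.Agent.Lib.MP_79abb3_an.P25.DirDef
import Pool.Agent.Lib.MP_79abb3_an.P25.OpA

/-!
Interior regularity of mild solutions of the heat equation with a source.
-/

set_option autoImplicit false
set_option linter.unusedSectionVars false
set_option linter.unusedVariables false

open MeasureTheory Set Filter Topology Function

namespace Pool.Agent.Lib.MP_79abb3_an.P25

namespace Regu

/-! ### Scalar facts -/

/-- the weight `τ^(-3/4)` -/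
noncomputable def rgq (τ : ℝ) : ℝ := (√τ)⁻¹ * (√√τ)⁻¹

theorem rgq_nonneg (τ : ℝ) : 0 ≤ rgq τ := by unfold rgq; positivity

theorem sqrt_sqrt_pos {τ : ℝ} (h : 0 < τ) : 0 < √√τ := Real.sqrt_pos.2 (Real.sqrt_pos.2 h)

theorem sqrt_sqrt_sq (τ : ℝ) : √√τ ^ 2 = √τ := Real.sq_sqrt (Real.sqrt_nonneg _)

theorem sqrt_sqrt_four {τ : ℝ} (h : 0 ≤ τ) : √√τ ^ 4 = τ := by
  have h1 : √√τ ^ 4 = (√√τ ^ 2) ^ 2 := by ring
  rw [h1, sqrt_sqrt_sq, Real.sq_sqrt h]

theorem rgq_eq {τ : ℝ} (h : 0 < τ) : τ⁻¹ * √√τ = rgq τ := by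
  have h0 := sqrt_sqrt_pos h
  have h3 : τ⁻¹ * √√τ = (√√τ ^ 4)⁻¹ * √√τ := by rw [sqrt_sqrt_four h.le]
  have h4 : (√τ)⁻¹ * (√√τ)⁻¹ = (√√τ ^ 2)⁻¹ * (√√τ)⁻¹ := by rw [sqrt_sqrt_sq]
  rw [rgq, h3, h4]
  have h5 : √√τ ≠ 0 := h0.ne'
  generalize √√τ = a at h5
  field_simp

theorem rgq_anti {a b : ℝ} (ha : 0 < a) (hab : a ≤ b) : rgq b ≤ rgq a := by
  unfold rgq
  have h0 := sqrt_sqrt_pos ha
  have h1 : 0 < √a := Real.sqrt_pos.2 ha
  gcongr

theorem rgq_half {τ : ℝ} (h : 0 < τ) : rgq (τ / 2) ≤ 4 * rgq τ := by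
  have h0 := sqrt_sqrt_pos h
  have h1 : 0 < √τ := Real.sqrt_pos.2 h
  have e1 : √(τ / 2) = √τ / √2 := Real.sqrt_div h.le 2
  have e2 : √√(τ / 2) = √√τ / √√2 := by rw [e1, Real.sqrt_div (Real.sqrt_nonneg _)]
  have h2 : √2 ≤ 2 := by
    rw [Real.sqrt_le_left (by norm_num)]
    norm_num
  have h3 : √√2 ≤ 2 := by
    rw [Real.sqrt_le_left (by norm_num)]
    linarith
  have h4 : 0 < √2 := by positivity
  have h5 : 0 < √√2 := by positivity
  rw [rgq, rgq, e2, e1, inv_div, inv_div]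
  have e3 : √2 / √τ * (√√2 / √√τ) = (√2 * √√2) * ((√τ)⁻¹ * (√√τ)⁻¹) := by
    field_simp
  rw [e3]
  refine mul_le_mul_of_nonneg_right ?_ (by positivity)
  nlinarith

theorem rgq_mul {x : ℝ} (hx : 0 ≤ x) (y : ℝ) : rgq (x * y) = rgq x * rgq y := by
  rw [rgq, rgq, rgq, Real.sqrt_mul hx, Real.sqrt_mul (Real.sqrt_nonneg x), mul_inv, mul_inv]
  ring

theorem rgq_rpow {τ : ℝ} (h : 0 < τ) : rgq τ = τ ^ (-(3 / 4) : ℝ) := by
  rw [rgq, Real.sqrt_eq_rpow, Real.sqrt_eq_rpow, ← Real.rpow_mul h.le, ← Real.rpow_neg h.le,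
    ← Real.rpow_neg h.le, ← Real.rpow_add h]
  norm_num

theorem intervalIntegrable_rgq {L : ℝ} (hL : 0 ≤ L) : IntervalIntegrable rgq volume 0 L := by
  have h1 : IntervalIntegrable (fun τ : ℝ => τ ^ (-(3 / 4) : ℝ)) volume 0 L :=
    intervalIntegral.intervalIntegrable_rpow' (by norm_num)
  rw [intervalIntegrable_iff_integrableOn_Ioc_of_le hL] at *
  exact h1.congr_fun (fun τ hτ => (rgq_rpow hτ.1).symm) measurableSet_Ioc

/-- `min(1,x) ≤ x^(1/4)` -/
theorem le_sqrt_sqrt_of_le_one {x : ℝ} (h0 : 0 ≤ x) (h1 : x ≤ 1) : x ≤ √√x := by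
  have h2 : √√x ≤ 1 := by
    rw [Real.sqrt_le_one, Real.sqrt_le_one]
    exact h1
  have h3 := sqrt_sqrt_four h0
  have h4 := Real.sqrt_nonneg (√x)
  calc x = √√x ^ 4 := h3.symm
    _ ≤ √√x ^ 1 := pow_le_pow_of_le_one h4 h2 (by norm_num)
    _ = √√x := pow_one _

theorem one_le_sqrt_sqrt {x : ℝ} (h1 : 1 ≤ x) : 1 ≤ √√x := by
  rw [Real.one_le_sqrt, Real.one_le_sqrt]
  exact h1

theorem sqrt_sqrt_div {a : ℝ} (h : 0 ≤ a) (b : ℝ) : √√(a / b) = √√a * (√√b)⁻¹ := by
  rw [Real.sqrt_div h, Real.sqrt_div (Real.sqrt_nonneg _), div_eq_mul_inv]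

/-- integrability from a bound -/
theorem rg_int {E : Type} [NormedAddCommGroup E] [NormedSpace ℝ E] {G : ℝ → E} {s t : ℝ}
    (hst : s ≤ t) (hG : ContinuousOn G (Ioo s t)) {B : ℝ → ℝ} (hB : IntervalIntegrable B volume s t)
    (hle : ∀ r ∈ Ioo s t, ‖G r‖ ≤ B r) : IntervalIntegrable G volume s t := by
  rw [intervalIntegrable_iff_integrableOn_Ioo_of_le hst] at *
  exact Integrable.mono' hB (hG.aestronglyMeasurable measurableSet_Ioo)
    ((ae_restrict_iff' measurableSet_Ioo).2 (ae_of_all _ hle))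

section
variable {H : ℝ} [hH : Fact (0 < H)]

/-! ### Joint continuity -/

theorem rg_joint {T : ℝ → (CI H →L[ℂ] CI H)} {β : ℝ → ℝ} (hβ : ContinuousOn β (Ioi 0))
    (hb : ∀ t, 0 < t → ∀ g, ‖T t g‖ ≤ β t * ‖g‖) (hc : ∀ g, ContinuousOn (fun t => T t g) (Ioi 0)) :
    ContinuousOn (fun p : ℝ × CI H => T p.1 p.2) (Ioi 0 ×ˢ univ) := by
  rintro ⟨t0, g0⟩ ⟨ht0, -⟩
  have h1 : (fun p : ℝ × CI H => T p.1 p.2) = fun p => T p.1 (p.2 - g0) + T p.1 g0 := by
    funext p
    rw [← map_add, sub_add_cancel]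
  rw [h1]
  refine ContinuousWithinAt.add ?_ ?_
  · have h2 : T t0 (g0 - g0) = 0 := by rw [sub_self, map_zero]
    show Tendsto _ _ (𝓝 (T t0 (g0 - g0)))
    rw [h2]
    refine squeeze_zero_norm' (a := fun p : ℝ × CI H => β p.1 * ‖p.2 - g0‖) ?_ ?_
    · filter_upwards [self_mem_nhdsWithin] with p hp
      exact hb p.1 hp.1 _
    · have h3 : ContinuousWithinAt (fun p : ℝ × CI H => β p.1 * ‖p.2 - g0‖) (Ioi 0 ×ˢ univ)
          (t0, g0) := by
        refine ContinuousWithinAt.mul ?_ (by fun_prop)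
        exact ContinuousWithinAt.comp (x := ((t0, g0) : ℝ × CI H)) (g := β)
          (f := fun p : ℝ × CI H => p.1) (hβ t0 ht0) (continuous_fst.continuousWithinAt)
          fun p hp => hp.1
      have h4 := h3.tendsto
      simpa using h4
  · exact ContinuousWithinAt.comp (x := ((t0, g0) : ℝ × CI H)) (g := fun t => T t g0)
      (f := fun p : ℝ × CI H => p.1) (hc g0 t0 ht0) (continuous_fst.continuousWithinAt)
      fun p hp => hp.1

theorem rg_comp {T : ℝ → (CI H →L[ℂ] CI H)} {β : ℝ → ℝ} (hβ : ContinuousOn β (Ioi 0))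
    (hb : ∀ t, 0 < t → ∀ g, ‖T t g‖ ≤ β t * ‖g‖) (hc : ∀ g, ContinuousOn (fun t => T t g) (Ioi 0))
    {U : Set ℝ} {τ : ℝ → ℝ} {n : ℝ → CI H} (hτ : ContinuousOn τ U) (hτ0 : ∀ x ∈ U, 0 < τ x)
    (hn : ContinuousOn n U) : ContinuousOn (fun x => T (τ x) (n x)) U :=
  (rg_joint hβ hb hc).comp (hτ.prodMk hn) fun x hx => ⟨hτ0 x hx, mem_univ _⟩

/-! ### Hölder bounds -/

/-- the bounds that are used for `S` and for `D` -/
structure RG (T : ℝ → (CI H →L[ℂ] CI H)) (L κ : ℝ) : Prop where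
  nn : 0 ≤ κ
  b : ∀ τ ∈ Ioc 0 L, ∀ g, ‖T τ g‖ ≤ κ * (√τ)⁻¹ * ‖g‖
  d : ∀ τ, 0 < τ → ∀ τ', τ ≤ τ' → τ' ≤ L → ∀ g,
    ‖T τ' g - T τ g‖ ≤ κ * √√(τ' - τ) * rgq τ * ‖g‖

theorem rg_S_diff {S D A : ℝ → (CI H →L[ℂ] CI H)} (hS : DirSG H S D A) {τ τ' : ℝ} (h0 : 0 < τ)
    (h : τ ≤ τ') (g : CI H) : ‖S τ' g - S τ g‖ ≤ 2 * (√√(τ' - τ) * (√√τ)⁻¹) * ‖g‖ := by
  have hx : 0 ≤ (τ' - τ) / τ := div_nonneg (by linarith) h0.le
  have key : √√(τ' - τ) * (√√τ)⁻¹ = √√((τ' - τ) / τ) := (sqrt_sqrt_div (by linarith) τ).symm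
  rw [key]
  have hg := norm_nonneg g
  rcases le_or_gt ((τ' - τ) / τ) 1 with h1 | h1
  · have h2 : ‖S τ' g - S τ g‖ ≤ (τ⁻¹ * ‖g‖) * ‖τ' - τ‖ := by
      refine Convex.norm_image_sub_le_of_norm_hasDerivWithin_le (f := fun t => S t g)
        (f' := fun t => A t g) (s := Icc τ τ') ?_ ?_ (convex_Icc _ _)
        (left_mem_Icc.2 h) (right_mem_Icc.2 h)
      · intro x hx
        exact (hS.S_time x (by linarith [hx.1]) g).hasDerivWithinAt
      · intro x hx
        refine (hS.A_norm x (by linarith [hx.1]) g).trans ?_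
        gcongr
        exact hx.1
    rw [Real.norm_of_nonneg (by linarith)] at h2
    have h3 := le_sqrt_sqrt_of_le_one hx h1
    calc ‖S τ' g - S τ g‖ ≤ (τ⁻¹ * ‖g‖) * (τ' - τ) := h2
      _ = (τ' - τ) / τ * ‖g‖ := by ring
      _ ≤ √√((τ' - τ) / τ) * ‖g‖ := by gcongr
      _ ≤ 2 * √√((τ' - τ) / τ) * ‖g‖ := by
        gcongr
        have := Real.sqrt_nonneg (√((τ' - τ) / τ))
        linarith
  · have h3 := one_le_sqrt_sqrt h1.le
    calc ‖S τ' g - S τ g‖ ≤ ‖S τ' g‖ + ‖S τ g‖ := norm_sub_le _ _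
      _ ≤ ‖g‖ + ‖g‖ := add_le_add (hS.S_norm _ (by linarith) g) (hS.S_norm _ h0 g)
      _ = 2 * 1 * ‖g‖ := by ring
      _ ≤ 2 * √√((τ' - τ) / τ) * ‖g‖ := by gcongr

theorem rg_S {S D A : ℝ → (CI H →L[ℂ] CI H)} (hS : DirSG H S D A) {L : ℝ} (hL : 0 < L) :
    RG S L (2 * √L) := by
  refine ⟨by positivity, ?_, ?_⟩
  · intro τ hτ g
    refine (hS.S_norm τ hτ.1 g).trans ?_
    have h1 : 0 < √τ := Real.sqrt_pos.2 hτ.1
    have h2 : √τ ≤ √L := Real.sqrt_le_sqrt hτ.2
    have h3 : 1 ≤ √L * (√τ)⁻¹ := by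
      rw [← div_eq_mul_inv, one_le_div h1]
      exact h2
    have hg := norm_nonneg g
    nlinarith
  · intro τ hτ τ' h h' g
    refine (rg_S_diff hS hτ h g).trans ?_
    have h1 : 0 < √τ := Real.sqrt_pos.2 hτ
    have h2 : √τ ≤ √L := Real.sqrt_le_sqrt (by linarith)
    have h3 : 1 ≤ √L * (√τ)⁻¹ := by
      rw [← div_eq_mul_inv, one_le_div h1]
      exact h2
    have hg := norm_nonneg g
    have h4 : 0 ≤ √√(τ' - τ) * (√√τ)⁻¹ := by positivity
    calc 2 * (√√(τ' - τ) * (√√τ)⁻¹) * ‖g‖ = 2 * (√√(τ' - τ) * (√√τ)⁻¹) * 1 * ‖g‖ := by ring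
      _ ≤ 2 * (√√(τ' - τ) * (√√τ)⁻¹) * (√L * (√τ)⁻¹) * ‖g‖ := by gcongr
      _ = 2 * √L * √√(τ' - τ) * rgq τ * ‖g‖ := by
        rw [rgq]
        ring

theorem rg_D {S D A : ℝ → (CI H →L[ℂ] CI H)} (hS : DirSG H S D A) (L : ℝ) : RG D L 8 := by
  refine ⟨by norm_num, ?_, ?_⟩
  · intro τ hτ g
    refine (hS.D_norm τ hτ.1 g).trans ?_
    have h1 : 0 ≤ (√τ)⁻¹ * ‖g‖ := by positivity
    linarith
  · intro τ hτ τ' h h' g
    have ha : 0 < τ / 2 := by linarith
    have e1 : D τ' g = D (τ / 2) (S (τ' - τ / 2) g) := by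
      rw [← hS.D_sg (τ / 2) (τ' - τ / 2) ha (by linarith) g]
      congr 2
      ring
    have e2 : D τ g = D (τ / 2) (S (τ / 2) g) := by
      rw [← hS.D_sg (τ / 2) (τ / 2) ha ha g]
      congr 2
      ring
    rw [e1, e2, ← map_sub]
    refine (hS.D_norm _ ha _).trans ?_
    have h3 := rg_S_diff hS ha (show τ / 2 ≤ τ' - τ / 2 by linarith) g
    have e3 : τ' - τ / 2 - τ / 2 = τ' - τ := by ring
    rw [e3] at h3
    have h4 := rgq_half hτ
    have hg := norm_nonneg g
    calc (√(τ / 2))⁻¹ * ‖S (τ' - τ / 2) g - S (τ / 2) g‖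
        ≤ (√(τ / 2))⁻¹ * (2 * (√√(τ' - τ) * (√√(τ / 2))⁻¹) * ‖g‖) := by gcongr
      _ = 2 * √√(τ' - τ) * rgq (τ / 2) * ‖g‖ := by
        rw [rgq]
        ring
      _ ≤ 2 * √√(τ' - τ) * (4 * rgq τ) * ‖g‖ := by gcongr
      _ = 8 * √√(τ' - τ) * rgq τ * ‖g‖ := by ring

theorem S_cont {S D A : ℝ → (CI H →L[ℂ] CI H)} (hS : DirSG H S D A) (g : CI H) :
    ContinuousOn (fun t => S t g) (Ioi 0) := fun t ht =>
  (hS.S_time t ht g).continuousAt.continuousWithinAt

/-- Hölder continuity of mild solutions -/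
theorem rg_holder {T : ℝ → (CI H →L[ℂ] CI H)} {β : ℝ → ℝ} (hβ : ContinuousOn β (Ioi 0))
    (hb : ∀ t, 0 < t → ∀ g, ‖T t g‖ ≤ β t * ‖g‖) (hc : ∀ g, ContinuousOn (fun t => T t g) (Ioi 0))
    {s b κ : ℝ} (hT : RG T (b - s) κ)
    {f0 : CI H} {n F : ℝ → CI H} (hn : ContinuousOn n (Icc s b))
    (hF : ∀ t ∈ Ioc s b, F t = T (t - s) f0 + ∫ r in s..t, T (t - r) (n r)) :
    ∀ s' ∈ Ioc s b, ∃ C, 0 ≤ C ∧ ∀ t ∈ Icc s' b, ∀ t' ∈ Icc s' b, ‖F t - F t'‖ ≤ C * √√|t - t'| := by
  intro s' hs'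
  have hκ := hT.nn
  obtain ⟨M, hM⟩ := isCompact_Icc.exists_bound_of_continuousOn hn
  have hM0 : 0 ≤ M := (norm_nonneg _).trans (hM b ⟨by linarith [hs'.1, hs'.2], le_rfl⟩)
  have hL : 0 < b - s := by linarith [hs'.1, hs'.2]
  set Q := ∫ τ in (0:ℝ)..(b - s), rgq τ with hQ
  -- the case `t ≤ t'`
  have key : ∀ t t', s' ≤ t → t ≤ t' → t' ≤ b → ‖F t' - F t‖ ≤
      (κ * rgq (s' - s) * ‖f0‖ + κ * M * Q + 2 * κ * M * √√(b - s)) * √√(t' - t) := by
    intro t t' h1 h2 h3
    have hst : s < t := by linarith [hs'.1]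
    have hG : ∀ u ∈ Icc t t', ContinuousOn (fun r => T (u - r) (n r)) (Ioo s t) := by
      intro u hu
      refine rg_comp hβ hb hc (by fun_prop) (fun x hx => by linarith [hx.2, hu.1]) (hn.mono ?_)
      intro x hx
      exact ⟨hx.1.le, by linarith [hx.2]⟩
    have hG' : ContinuousOn (fun r => T (t' - r) (n r)) (Ioo t t') := by
      refine rg_comp hβ hb hc (by fun_prop) (fun x hx => by linarith [hx.2]) (hn.mono ?_)
      intro x hx
      exact ⟨by linarith [hx.1], by linarith [hx.2]⟩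
    have hisq : ∀ a c d : ℝ, IntervalIntegrable (fun r : ℝ => κ * (√(a - r))⁻¹ * M) volume c d := by
      intro a c d
      exact ((intervalIntegrable_isq' a c d).const_mul κ).mul_const M
    have i1 : IntervalIntegrable (fun r => T (t - r) (n r)) volume s t := by
      refine rg_int hst.le (hG t ⟨le_rfl, h2⟩) (hisq t s t) fun r hr => ?_
      refine (hT.b (t - r) ⟨by linarith [hr.2], by linarith [hr.1]⟩ _).trans ?_
      have := hM r ⟨hr.1.le, by linarith [hr.2]⟩
      gcongr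
    have i2 : IntervalIntegrable (fun r => T (t' - r) (n r)) volume s t := by
      refine rg_int hst.le (hG t' ⟨h2, le_rfl⟩) (hisq t' s t) fun r hr => ?_
      refine (hT.b (t' - r) ⟨by linarith [hr.2], by linarith [hr.1]⟩ _).trans ?_
      have := hM r ⟨hr.1.le, by linarith [hr.2]⟩
      gcongr
    have i3 : IntervalIntegrable (fun r => T (t' - r) (n r)) volume t t' := by
      refine rg_int h2 hG' (hisq t' t t') fun r hr => ?_
      refine (hT.b (t' - r) ⟨by linarith [hr.2], by linarith [hr.1]⟩ _).trans ?_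
      have := hM r ⟨by linarith [hr.1], by linarith [hr.2]⟩
      gcongr
    have e1 : F t' - F t = (T (t' - s) f0 - T (t - s) f0) +
        (∫ r in s..t, (T (t' - r) (n r) - T (t - r) (n r))) + ∫ r in t..t', T (t' - r) (n r) := by
      rw [hF t' ⟨by linarith, h3⟩, hF t ⟨hst, by linarith⟩, intervalIntegral.integral_sub i2 i1,
        ← intervalIntegral.integral_add_adjacent_intervals i2 i3]
      abel
    rw [e1]
    have b1 : ‖T (t' - s) f0 - T (t - s) f0‖ ≤ κ * rgq (s' - s) * ‖f0‖ * √√(t' - t) := by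
      have h4 := hT.d (t - s) (by linarith) (t' - s) (by linarith) (by linarith) f0
      have e2 : t' - s - (t - s) = t' - t := by ring
      rw [e2] at h4
      refine h4.trans ?_
      have h5 : rgq (t - s) ≤ rgq (s' - s) := rgq_anti (by linarith [hs'.1]) (by linarith)
      calc κ * √√(t' - t) * rgq (t - s) * ‖f0‖ ≤ κ * √√(t' - t) * rgq (s' - s) * ‖f0‖ := by gcongr
        _ = κ * rgq (s' - s) * ‖f0‖ * √√(t' - t) := by ring
    have iq : IntervalIntegrable (fun r => rgq (t - r)) volume s t := by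
      have h5 := (intervalIntegrable_rgq (L := t - s) (by linarith)).comp_sub_left t
      rw [sub_zero, sub_sub_cancel] at h5
      exact h5.symm
    have b2 : ‖∫ r in s..t, (T (t' - r) (n r) - T (t - r) (n r))‖ ≤ κ * M * Q * √√(t' - t) := by
      have h4 : ‖∫ r in s..t, (T (t' - r) (n r) - T (t - r) (n r))‖ ≤
          ∫ r in s..t, κ * √√(t' - t) * M * rgq (t - r) := by
        refine intervalIntegral.norm_integral_le_of_norm_le hst.le ?_ (iq.const_mul _)
        have hne : ∀ᵐ r : ℝ, r ≠ t := by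
          rw [ae_iff]
          simp
        filter_upwards [hne] with r hr hr'
        have hrt : r < t := lt_of_le_of_ne hr'.2 hr
        have h5 := hT.d (t - r) (by linarith) (t' - r) (by linarith) (by linarith [hr'.1]) (n r)
        have e2 : t' - r - (t - r) = t' - t := by ring
        rw [e2] at h5
        refine h5.trans ?_
        have h6 := hM r ⟨hr'.1.le, by linarith⟩
        have h7 := rgq_nonneg (t - r)
        calc κ * √√(t' - t) * rgq (t - r) * ‖n r‖ ≤ κ * √√(t' - t) * rgq (t - r) * M := by gcongr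
          _ = κ * √√(t' - t) * M * rgq (t - r) := by ring
      refine h4.trans ?_
      rw [intervalIntegral.integral_const_mul,
        intervalIntegral.integral_comp_sub_left (fun r => rgq r) t, sub_self]
      have h5 : ∫ τ in (0:ℝ)..(t - s), rgq τ ≤ Q := by
        rw [hQ]
        refine intervalIntegral.integral_mono_interval le_rfl (by linarith) (by linarith)
          (ae_of_all _ fun x => rgq_nonneg x) (intervalIntegrable_rgq hL.le)
      calc κ * √√(t' - t) * M * ∫ τ in (0:ℝ)..(t - s), rgq τ ≤ κ * √√(t' - t) * M * Q := by gcongr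
        _ = κ * M * Q * √√(t' - t) := by ring
    have b3 : ‖∫ r in t..t', T (t' - r) (n r)‖ ≤ 2 * κ * M * √√(b - s) * √√(t' - t) := by
      have h4 : ‖∫ r in t..t', T (t' - r) (n r)‖ ≤ ∫ r in t..t', κ * (√(t' - r))⁻¹ * M := by
        refine intervalIntegral.norm_integral_le_of_norm_le h2 ?_ (hisq t' t t')
        have hne : ∀ᵐ r : ℝ, r ≠ t' := by
          rw [ae_iff]
          simp
        filter_upwards [hne] with r hr hr'
        have hrt : r < t' := lt_of_le_of_ne hr'.2 hr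
        refine (hT.b (t' - r) ⟨by linarith, by linarith [hr'.1]⟩ _).trans ?_
        have := hM r ⟨by linarith [hr'.1], by linarith⟩
        gcongr
      refine h4.trans ?_
      rw [intervalIntegral.integral_mul_const, intervalIntegral.integral_const_mul,
        integral_isqR h2]
      have h5 : √(t' - t) = √√(t' - t) * √√(t' - t) := by
        rw [← sqrt_sqrt_sq (t' - t)]
        ring_nf
        rw [Real.sqrt_sq (Real.sqrt_nonneg _)]
      have h6 : √√(t' - t) ≤ √√(b - s) := Real.sqrt_le_sqrt (Real.sqrt_le_sqrt (by linarith))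
      calc κ * (2 * √(t' - t)) * M = κ * (2 * (√√(t' - t) * √√(t' - t))) * M :=
            congrArg (fun x => κ * (2 * x) * M) h5
        _ ≤ κ * (2 * (√√(b - s) * √√(t' - t))) * M := by
            gcongr
        _ = 2 * κ * M * √√(b - s) * √√(t' - t) := by ring
    calc ‖(T (t' - s) f0 - T (t - s) f0) +
        (∫ r in s..t, (T (t' - r) (n r) - T (t - r) (n r))) + ∫ r in t..t', T (t' - r) (n r)‖
        ≤ κ * rgq (s' - s) * ‖f0‖ * √√(t' - t) + κ * M * Q * √√(t' - t) +
          2 * κ * M * √√(b - s) * √√(t' - t) :=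
          (norm_add₃_le).trans (add_le_add (add_le_add b1 b2) b3)
      _ = _ := by ring
  have hQ0 : 0 ≤ Q := intervalIntegral.integral_nonneg hL.le fun x _ => rgq_nonneg x
  have hq0 := rgq_nonneg (s' - s)
  refine ⟨κ * rgq (s' - s) * ‖f0‖ + κ * M * Q + 2 * κ * M * √√(b - s), by positivity, ?_⟩
  intro t ht t' ht'
  rcases le_total t t' with h | h
  · rw [norm_sub_rev, abs_sub_comm, abs_of_nonneg (sub_nonneg.2 h)]
    exact key t t' ht.1 h ht'.2
  · rw [abs_of_nonneg (sub_nonneg.2 h)]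
    exact key t' t ht'.1 h ht.2

/-! ### Integrals and evaluations -/

theorem ex_int {F : ℝ → CI H} {a b : ℝ} (hF : IntervalIntegrable F volume a b) (z : ℝ) :
    ex (∫ r in a..b, F r) z = ∫ r in a..b, ex (F r) z :=
  ((evL z).intervalIntegral_comp_comm hF).symm

theorem clm_int (T : CI H →L[ℂ] CI H) {F : ℝ → CI H} {a b : ℝ}
    (hF : IntervalIntegrable F volume a b) : T (∫ r in a..b, F r) = ∫ r in a..b, T (F r) :=
  (T.intervalIntegral_comp_comm hF).symm

theorem clm_intble (T : CI H →L[ℂ] CI H) {F : ℝ → CI H} {a b : ℝ}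
    (hF : IntervalIntegrable F volume a b) : IntervalIntegrable (fun r => T (F r)) volume a b :=
  ⟨T.integrable_comp hF.1, T.integrable_comp hF.2⟩

theorem ex_intble {F : ℝ → CI H} {a b : ℝ} (hF : IntervalIntegrable F volume a b) (z : ℝ) :
    IntervalIntegrable (fun r => ex (F r) z) volume a b :=
  ⟨(evL z).integrable_comp hF.1, (evL z).integrable_comp hF.2⟩

theorem isD_iff_ev {f f1 : CI H} :
    IsD f f1 ↔ ∀ z ∈ Icc (0:ℝ) H, ex f z - ex f 0 = ex (Eop 0 f1) z := by
  have hE : IsD (Eop 0 f1) f1 := by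
    have h1 := Eop_isD 0 f1
    have e : f1 - |(0:ℝ)| • Eop 0 f1 = f1 := by
      rw [abs_zero]
      exact (congrArg (f1 - ·) (zero_smul ℝ (Eop 0 f1))).trans (sub_zero f1)
    rwa [e] at h1
  constructor
  · intro h z hz
    let c : CI H := ContinuousMap.const _ (ex f 0)
    have hc : IsD c 0 := fun z _ => hasDerivWithinAt_const _ _ _
    have h1 : IsD (f - c) f1 := by
      have h2 := h.sub hc
      rwa [sub_zero] at h2
    have h3 : f - c = Eop 0 f1 := by
      refine Eop_unique 0 h1 (sub_self _) ?_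
      rw [abs_zero]
      exact (congrArg (f1 + ·) (zero_smul ℝ (f - c))).trans (add_zero f1)
    rw [← h3]
    rfl
  · intro h z hz
    have h1 : HasDerivWithinAt (fun x => ex (Eop 0 f1) x + ex f 0) (ex f1 z) (Icc 0 H) z :=
      (hE z hz).add_const _
    refine h1.congr (fun x hx => ?_) ?_
    · rw [← h x hx, sub_add_cancel]
    · rw [← h z hz, sub_add_cancel]

theorem isD_add {f f1 g g1 : CI H} (h : IsD f f1) (h' : IsD g g1) : IsD (f + g) (f1 + g1) :=
  fun z hz => (h z hz).add (h' z hz)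

theorem ae_ne_pt (t : ℝ) : ∀ᵐ r : ℝ, r ≠ t := by
  rw [ae_iff]
  simp

theorem isD_integral {F F1 : ℝ → CI H} {a b : ℝ} (hab : a ≤ b)
    (hF : IntervalIntegrable F volume a b) (hF1 : IntervalIntegrable F1 volume a b)
    (h : ∀ r ∈ Ioo a b, IsD (F r) (F1 r)) : IsD (∫ r in a..b, F r) (∫ r in a..b, F1 r) := by
  rw [isD_iff_ev]
  intro z hz
  rw [clm_int (Eop 0) hF1, ex_int hF, ex_int hF, ex_int (clm_intble (Eop 0) hF1),
    ← intervalIntegral.integral_sub (ex_intble hF z) (ex_intble hF 0)]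
  refine intervalIntegral.integral_congr_ae ?_
  filter_upwards [ae_ne_pt b] with r hr hr'
  rw [uIoc_of_le hab] at hr'
  exact isD_iff_ev.1 (h r ⟨hr'.1, lt_of_le_of_ne hr'.2 hr⟩) z hz

section SG
variable {S D A : ℝ → (CI H →L[ℂ] CI H)}

theorem cont_isq : ContinuousOn (fun t : ℝ => (√t)⁻¹) (Ioi 0) := by
  refine ContinuousOn.inv₀ (by fun_prop) fun t ht => ?_
  exact (Real.sqrt_pos.2 ht).ne'

theorem cont_inv : ContinuousOn (fun t : ℝ => t⁻¹) (Ioi 0) :=
  ContinuousOn.inv₀ (by fun_prop) fun t ht => (ne_of_gt ht)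

theorem S_comp (hS : DirSG H S D A) {U : Set ℝ} {τ : ℝ → ℝ} {n : ℝ → CI H}
    (hτ : ContinuousOn τ U) (hτ0 : ∀ x ∈ U, 0 < τ x) (hn : ContinuousOn n U) :
    ContinuousOn (fun x => S (τ x) (n x)) U :=
  rg_comp (β := fun _ => 1) continuousOn_const
    (fun t ht g => by rw [one_mul]; exact hS.S_norm t ht g) (S_cont hS) hτ hτ0 hn

theorem D_comp (hS : DirSG H S D A) {U : Set ℝ} {τ : ℝ → ℝ} {n : ℝ → CI H}
    (hτ : ContinuousOn τ U) (hτ0 : ∀ x ∈ U, 0 < τ x) (hn : ContinuousOn n U) :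
    ContinuousOn (fun x => D (τ x) (n x)) U :=
  rg_comp (β := fun t => (√t)⁻¹) cont_isq (fun t ht g => hS.D_norm t ht g) hS.D_cont hτ hτ0 hn

theorem A_comp (hS : DirSG H S D A) {U : Set ℝ} {τ : ℝ → ℝ} {n : ℝ → CI H}
    (hτ : ContinuousOn τ U) (hτ0 : ∀ x ∈ U, 0 < τ x) (hn : ContinuousOn n U) :
    ContinuousOn (fun x => A (τ x) (n x)) U :=
  rg_comp (β := fun t => t⁻¹) cont_inv (fun t ht g => hS.A_norm t ht g) hS.A_cont hτ hτ0 hn

theorem S_sub_eq (hS : DirSG H S D A) {a b : ℝ} (ha : 0 < a) (hab : a ≤ b) (g : CI H) :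
    ∫ t in a..b, A t g = S b g - S a g := by
  refine intervalIntegral.integral_eq_sub_of_hasDerivAt (f := fun t => S t g) ?_ ?_
  · intro x hx
    rw [uIcc_of_le hab] at hx
    exact hS.S_time x (by linarith [hx.1]) g
  · refine ContinuousOn.intervalIntegrable ?_
    rw [uIcc_of_le hab]
    exact (hS.A_cont g).mono fun x hx => lt_of_lt_of_le ha hx.1

theorem S_pt (hS : DirSG H S D A) (g : CI H) {x : ℝ} (hx : x ∈ Ioo 0 H) :
    Tendsto (fun η => ex (S η g) x) (𝓝[>] 0) (𝓝 (ex g x)) := by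
  rw [Metric.tendsto_nhds]
  intro ε hε
  have hβ : 0 < min x (H - x) := lt_min hx.1 (by linarith [hx.2])
  obtain ⟨δ, hδ, h⟩ := hS.S_loc g _ hβ (ε / 2) (by linarith)
  have h1 : Ioo (0:ℝ) δ ∈ 𝓝[>] (0:ℝ) := Ioo_mem_nhdsGT hδ
  filter_upwards [h1] with η hη
  rw [dist_eq_norm]
  refine lt_of_le_of_lt (h η hη x ⟨min_le_left _ _, ?_⟩) (by linarith)
  linarith [min_le_right x (H - x)]

theorem ci_zero_of_S (hS : DirSG H S D A) {g : CI H} (h : ∀ η, 0 < η → S η g = 0) : g = 0 := by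
  have hH0 := hH.out
  have h1 : ∀ x ∈ Ioo 0 H, ex g x = 0 := by
    intro x hx
    have h2 := S_pt hS g hx
    have h3 : Tendsto (fun η : ℝ => ex (S η g) x) (𝓝[>] 0) (𝓝 0) := by
      refine tendsto_const_nhds.congr' ?_
      filter_upwards [self_mem_nhdsWithin] with η hη
      rw [h η hη, ex_zero]
    exact tendsto_nhds_unique h2 h3
  have h4 : IsClosed {x | ex g x = 0} := isClosed_eq (continuous_ex g) continuous_const
  have h5 : closure (Ioo 0 H) ⊆ {x | ex g x = 0} := h4.closure_subset_iff.2 h1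
  rw [closure_Ioo hH0.ne] at h5
  exact ci_ext fun z hz => h5 hz

theorem SA_comm (hS : DirSG H S D A) {η τ : ℝ} (hη : 0 < η) (hτ : 0 < τ) (g : CI H) :
    S η (A τ g) = A (η + τ) g := by
  have h1 : HasDerivAt (fun t => S η (S t g)) (S η (A τ g)) τ :=
    ((S η).restrictScalars ℝ).hasFDerivAt.comp_hasDerivAt τ (hS.S_time τ hτ g)
  have h2 : HasDerivAt (fun t => S (η + t) g) (A (η + τ) g) τ := by
    have h3 := hS.S_time (η + τ) (by linarith) g
    exact HasDerivAt.comp_const_add η τ h3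
  have h4 : (fun t => S η (S t g)) =ᶠ[𝓝 τ] fun t => S (η + t) g := by
    filter_upwards [Ioi_mem_nhds hτ] with t ht
    exact (hS.S_sg η t hη ht g).symm
  exact h1.unique (h2.congr_of_eventuallyEq h4)

theorem intble_D (hS : DirSG H S D A) {s t : ℝ} (hst : s ≤ t) {n : ℝ → CI H} {M : ℝ}
    (hn : ContinuousOn n (Icc s t)) (hM : ∀ r ∈ Icc s t, ‖n r‖ ≤ M) :
    IntervalIntegrable (fun r => D (t - r) (n r)) volume s t := by
  refine rg_int hst ?_ ((intervalIntegrable_isq' t s t).mul_const M) fun r hr => ?_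
  · exact D_comp hS (by fun_prop) (fun x hx => by linarith [hx.2]) (hn.mono Ioo_subset_Icc_self)
  · refine (hS.D_norm _ (by linarith [hr.2]) _).trans ?_
    have := hM r ⟨hr.1.le, hr.2.le⟩
    gcongr

theorem intble_S (hS : DirSG H S D A) {s t : ℝ} (hst : s ≤ t) {n : ℝ → CI H} {M : ℝ}
    (hn : ContinuousOn n (Icc s t)) (hM : ∀ r ∈ Icc s t, ‖n r‖ ≤ M) {u : ℝ} (hu : t ≤ u) :
    IntervalIntegrable (fun r => S (u - r) (n r)) volume s t := by
  refine rg_int hst ?_ (intervalIntegrable_const (c := M)) fun r hr => ?_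
  · exact S_comp hS (by fun_prop) (fun x hx => by linarith [hx.2]) (hn.mono Ioo_subset_Icc_self)
  · exact (hS.S_norm _ (by linarith [hr.2]) _).trans (hM r ⟨hr.1.le, hr.2.le⟩)

/-- the derivative of `∫₀^τ D σ m dσ` -/
theorem isD_intD (hS : DirSG H S D A) {τ : ℝ} (hτ : 0 < τ) (m : CI H) :
    IsD (∫ σ in (0:ℝ)..τ, D σ m) (S τ m - m) := by
  have hH0 := hH.out
  have iD : IntervalIntegrable (fun σ => D σ m) volume 0 τ := by
    refine rg_int hτ.le ?_ ((intervalIntegrable_isq 0 τ).mul_const ‖m‖) fun r hr => ?_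
    · exact (hS.D_cont m).mono fun x hx => hx.1
    · exact hS.D_norm _ hr.1 _
  rw [isD_iff_ev]
  intro z hz
  -- the formula with lower limit `η`
  have hη : ∀ η ∈ Ioo 0 τ, (∫ σ in η..τ, (ex (D σ m) z - ex (D σ m) 0)) =
      ex (Eop 0 (S τ m - S η m)) z := by
    intro η hη
    have hsub : Icc η τ ⊆ Ioi 0 := fun x hx => lt_of_lt_of_le hη.1 hx.1
    have iA : IntervalIntegrable (fun σ => A σ m) volume η τ := by
      refine ContinuousOn.intervalIntegrable ?_
      rw [uIcc_of_le hη.2.le]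
      exact (hS.A_cont m).mono hsub
    rw [← S_sub_eq hS hη.1 hη.2.le m, clm_int _ iA, ex_int (clm_intble _ iA)]
    refine intervalIntegral.integral_congr fun σ hσ => ?_
    rw [uIcc_of_le hη.2.le] at hσ
    exact isD_iff_ev.1 (hS.D_der σ (hsub hσ) m) z hz
  have iz : IntervalIntegrable (fun σ => ex (D σ m) z - ex (D σ m) 0) volume 0 τ :=
    (ex_intble iD z).sub (ex_intble iD 0)
  rw [ex_int iD, ex_int iD, ← intervalIntegral.integral_sub (ex_intble iD z) (ex_intble iD 0)]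
  have hI : Ioo (0:ℝ) τ ∈ 𝓝[>] (0:ℝ) := Ioo_mem_nhdsGT hτ
  -- limit of the left side
  have l1 : Tendsto (fun η => ∫ σ in η..τ, (ex (D σ m) z - ex (D σ m) 0)) (𝓝[>] 0)
      (𝓝 (∫ σ in (0:ℝ)..τ, (ex (D σ m) z - ex (D σ m) 0))) := by
    have h1 : ContinuousOn (fun η => ∫ σ in η..τ, (ex (D σ m) z - ex (D σ m) 0)) (uIcc 0 τ) :=
      intervalIntegral.continuousOn_primitive_interval_left ((intervalIntegrable_iff' (by finiteness)).1 iz)
    have h2 := (h1 0 left_mem_uIcc).tendsto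
    refine h2.mono_left ?_
    rw [← nhdsWithin_Ioo_eq_nhdsGT hτ, uIcc_of_le hτ.le]
    exact nhdsWithin_mono _ Ioo_subset_Icc_self
  -- limit of the right side
  have l2 : Tendsto (fun η => ex (Eop 0 (S τ m - S η m)) z) (𝓝[>] 0)
      (𝓝 (ex (Eop 0 (S τ m - m)) z)) := by
    have h1 : Tendsto (fun η => ex (Eop 0 (S η m)) z) (𝓝[>] 0) (𝓝 (ex (Eop 0 m) z)) := by
      simp only [Eop_apply 0 _ hz]
      refine intervalIntegral.tendsto_integral_filter_of_dominated_convergence (fun _ => ‖m‖)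
        ?_ ?_ (intervalIntegrable_const) ?_
      · refine Eventually.of_forall fun η => Continuous.aestronglyMeasurable ?_
        have := continuous_ex (S η m)
        fun_prop
      · filter_upwards [self_mem_nhdsWithin] with η hη
        refine ae_of_all _ fun x _ => ?_
        rw [abs_zero, neg_zero, zero_mul, Real.exp_zero, Complex.ofReal_one, one_mul]
        exact (norm_ex_le _ _).trans (hS.S_norm η hη m)
      · filter_upwards [ae_ne_pt H] with x hx hx'
        rw [uIoc_of_le hz.1] at hx'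
        refine Tendsto.const_mul _ (S_pt hS m ⟨hx'.1, lt_of_le_of_ne (hx'.2.trans hz.2) hx⟩)
    have h2 : (fun η => ex (Eop 0 (S τ m - S η m)) z) =
        fun η => ex (Eop 0 (S τ m)) z - ex (Eop 0 (S η m)) z := by
      funext η
      rw [map_sub, ex_sub]
    rw [h2, map_sub, ex_sub]
    exact h1.const_sub _
  refine tendsto_nhds_unique l1 (l2.congr' ?_)
  filter_upwards [hI] with η h
  exact (hη η h).symm

/-! ### Convolution with `S` -/

/-- the Duhamel integral is differentiable after smoothing -/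
theorem hasDeriv_SV (hS : DirSG H S D A) {s b : ℝ} {n v : ℝ → CI H} (hn : ContinuousOn n (Icc s b))
    (hv : ∀ t ∈ Ioc s b, v t = ∫ r in s..t, S (t - r) (n r)) {η : ℝ} (hη : 0 < η) {x : ℝ}
    (hx : x ∈ Ioo s b) :
    HasDerivWithinAt (fun y => S η (v y)) (A η (v x) + S η (n x)) (Ioi x) x := by
  obtain ⟨M, hM⟩ := isCompact_Icc.exists_bound_of_continuousOn hn
  have hsub : Icc x b ⊆ Icc s b := Icc_subset_Icc_left hx.1.le
  -- restart
  have e1 : ∀ y ∈ Ioc x b, S η (v y) = S (η + (y - x)) (v x) +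
      ∫ r in x..y, S (η + (y - r)) (n r) := by
    intro y hy
    have i1 : IntervalIntegrable (fun r => S (y - r) (n r)) volume s x :=
      intble_S hS hx.1.le (hn.mono (Icc_subset_Icc_right hx.2.le))
        (fun r hr => hM r ⟨hr.1, hr.2.trans hx.2.le⟩) hy.1.le
    have i2 : IntervalIntegrable (fun r => S (y - r) (n r)) volume x y :=
      intble_S hS hy.1.le (hn.mono (Icc_subset_Icc hx.1.le hy.2))
        (fun r hr => hM r ⟨hx.1.le.trans hr.1, hr.2.trans hy.2⟩) le_rfl
    have i3 : IntervalIntegrable (fun r => S (x - r) (n r)) volume s x :=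
      intble_S hS hx.1.le (hn.mono (Icc_subset_Icc_right hx.2.le))
        (fun r hr => hM r ⟨hr.1, hr.2.trans hx.2.le⟩) le_rfl
    rw [hv y ⟨hx.1.trans hy.1, hy.2⟩, hv x ⟨hx.1, hx.2.le⟩,
      ← intervalIntegral.integral_add_adjacent_intervals i1 i2, map_add, clm_int _ i1,
      clm_int _ i2, clm_int _ i3]
    congr 1
    · refine intervalIntegral.integral_congr_ae ?_
      filter_upwards [ae_ne_pt x] with r hr hr'
      rw [uIoc_of_le hx.1.le] at hr'
      have hrx : r < x := lt_of_le_of_ne hr'.2 hr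
      rw [← hS.S_sg η (y - r) hη (by linarith [hy.1]), ← hS.S_sg _ _ (by linarith [hy.1])
        (by linarith : 0 < x - r)]
      congr 2
      ring
    · refine intervalIntegral.integral_congr_ae ?_
      filter_upwards [ae_ne_pt y] with r hr hr'
      rw [uIoc_of_le hy.1.le] at hr'
      have hrx : r < y := lt_of_le_of_ne hr'.2 hr
      rw [← hS.S_sg η (y - r) hη (by linarith)]
  -- the two derivatives
  have d1 : HasDerivWithinAt (fun y => S (η + (y - x)) (v x)) (A η (v x)) (Ioi x) x := by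
    have h1 : HasDerivAt (fun t => S t (v x)) (A η (v x)) (η + (x - x)) := by
      rw [sub_self, add_zero]
      exact hS.S_time η hη (v x)
    have h2 : HasDerivAt (fun y : ℝ => η + (y - x)) 1 x := by
      have := ((hasDerivAt_id x).sub_const x).const_add η
      simpa using this
    have h3 := HasDerivAt.scomp x h1 h2
    rw [one_smul] at h3
    exact h3.hasDerivWithinAt
  have d2 : HasDerivWithinAt (fun y => ∫ r in x..y, S (η + (y - r)) (n r)) (S η (n x)) (Ioi x) x := by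
    rw [hasDerivWithinAt_iff_isLittleO, Asymptotics.isLittleO_iff]
    intro c hc
    -- continuity at `(η, n x)`
    have hj := rg_joint (T := S) (β := fun _ => 1) continuousOn_const
      (fun t ht g => by rw [one_mul]; exact hS.S_norm t ht g) (S_cont hS)
    have hj' : ContinuousAt (fun p : ℝ × CI H => S p.1 p.2) (η, n x) :=
      hj.continuousAt (prod_mem_nhds (Ioi_mem_nhds hη) univ_mem)
    obtain ⟨δ, hδ, hδ'⟩ := Metric.continuousAt_iff.1 hj' c hc
    have hnx : ContinuousWithinAt n (Icc s b) x := hn x ⟨hx.1.le, hx.2.le⟩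
    obtain ⟨ρ, hρ, hρ'⟩ := Metric.continuousWithinAt_iff.1 hnx δ hδ
    have hI : Ioo x (min b (x + min δ ρ)) ∈ 𝓝[>] x :=
      Ioo_mem_nhdsGT (lt_min hx.2 (by linarith [lt_min hδ hρ]))
    filter_upwards [hI] with y hy
    have hyb : y < b := lt_of_lt_of_le hy.2 (min_le_left _ _)
    have hyδ : y < x + min δ ρ := lt_of_lt_of_le hy.2 (min_le_right _ _)
    have hyδ' : y - x < δ := by linarith [min_le_left δ ρ]
    have hyρ' : y - x < ρ := by linarith [min_le_right δ ρ]
    have hcont : ContinuousOn (fun r => S (η + (y - r)) (n r)) (uIcc x y) := by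
      rw [uIcc_of_le hy.1.le]
      refine S_comp hS (by fun_prop) (fun r hr => by linarith [hr.2]) (hn.mono ?_)
      exact Icc_subset_Icc hx.1.le hyb.le
    have e2 : (∫ r in x..y, S (η + (y - r)) (n r)) - (∫ r in x..x, S (η + (x - r)) (n r)) -
        (y - x) • S η (n x) = ∫ r in x..y, (S (η + (y - r)) (n r) - S η (n x)) := by
      rw [intervalIntegral.integral_same, sub_zero,
        intervalIntegral.integral_sub hcont.intervalIntegrable intervalIntegrable_const,
        intervalIntegral.integral_const]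
    rw [e2, Real.norm_eq_abs]
    refine intervalIntegral.norm_integral_le_of_norm_le_const fun r hr => ?_
    rw [uIoc_of_le hy.1.le] at hr
    have h5 : dist (η + (y - r), n r) (η, n x) < δ := by
      rw [Prod.dist_eq, max_lt_iff]
      constructor
      · rw [Real.dist_eq, add_sub_cancel_left, abs_of_nonneg (by linarith [hr.2])]
        linarith [hr.1]
      · refine hρ' ⟨by linarith [hx.1, hr.1], by linarith [hr.2]⟩ ?_
        rw [Real.dist_eq, abs_of_nonneg (by linarith [hr.1])]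
        linarith [hr.2]
    have h6 := hδ' h5
    rw [dist_eq_norm] at h6
    exact h6.le
  have d3 := d1.add d2
  refine d3.congr_of_eventuallyEq ?_ ?_
  · have hI : Ioo x b ∈ 𝓝[>] x := Ioo_mem_nhdsGT hx.2
    filter_upwards [hI] with y hy
    exact e1 y ⟨hy.1, hy.2.le⟩
  · show S η (v x) = S (η + (x - x)) (v x) + ∫ r in x..x, S (η + (x - r)) (n r)
    rw [intervalIntegral.integral_same, sub_self, add_zero, add_zero]

theorem hold_ext {s b : ℝ} {n : ℝ → CI H} (hn : ContinuousOn n (Icc s b))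
    (hn4 : ∀ s' ∈ Ioc s b, ∃ C, ∀ t ∈ Icc s' b, ∀ t' ∈ Icc s' b, ‖n t - n t'‖ ≤ C * √(√|t - t'|)) :
    ∀ s' ∈ Ioc s b, ∃ C, 0 ≤ C ∧ ∀ t ∈ Icc s' b, ∀ r ∈ Icc s t, ‖n r - n t‖ ≤ C * √√(t - r) := by
  intro s' hs'
  obtain ⟨M, hM⟩ := isCompact_Icc.exists_bound_of_continuousOn hn
  have hM0 : 0 ≤ M := (norm_nonneg _).trans (hM b ⟨by linarith [hs'.1, hs'.2], le_rfl⟩)
  set a := (s + s') / 2 with ha
  have ha1 : s < a := by rw [ha]; linarith [hs'.1]
  have ha2 : a < s' := by rw [ha]; linarith [hs'.1]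
  obtain ⟨C, hC⟩ := hn4 a ⟨ha1, by linarith [hs'.2]⟩
  have hq : 0 < √√(s' - a) := sqrt_sqrt_pos (by linarith)
  refine ⟨|C| + 2 * M / √√(s' - a), by positivity, fun t ht r hr => ?_⟩
  have h0 := Real.sqrt_nonneg (√(t - r))
  rcases le_total a r with h | h
  · have h1 := hC r ⟨h, by linarith [hr.2, ht.2]⟩ t ⟨by linarith [ht.1], ht.2⟩
    rw [abs_sub_comm, abs_of_nonneg (by linarith [hr.2])] at h1
    have h2 : C * √√(t - r) ≤ |C| * √√(t - r) := by
      gcongr
      exact le_abs_self C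
    have h3 : 0 ≤ 2 * M / √√(s' - a) * √√(t - r) := by positivity
    rw [add_mul]
    linarith
  · have h1 : ‖n r - n t‖ ≤ 2 * M := by
      have h2 := hM r ⟨hr.1, by linarith [hr.2, ht.2]⟩
      have h3 := hM t ⟨by linarith [hr.1, hr.2], ht.2⟩
      linarith [norm_sub_le (n r) (n t)]
    have h2 : √√(s' - a) ≤ √√(t - r) :=
      Real.sqrt_le_sqrt (Real.sqrt_le_sqrt (by linarith [ht.1]))
    have h3 : 2 * M ≤ 2 * M / √√(s' - a) * √√(t - r) := by
      rw [div_mul_eq_mul_div, le_div_iff₀ hq]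
      gcongr
    have h4 : 0 ≤ |C| * √√(t - r) := by positivity
    rw [add_mul]
    linarith

/-- integrability of `A(t-r)(n r - n t)` -/
theorem intble_A (hS : DirSG H S D A) {s t : ℝ} (hst : s ≤ t) {n : ℝ → CI H} {C : ℝ}
    (hn : ContinuousOn n (Icc s t)) (hC : ∀ r ∈ Icc s t, ‖n r - n t‖ ≤ C * √√(t - r)) :
    IntervalIntegrable (fun r => A (t - r) (n r - n t)) volume s t := by
  have iq : IntervalIntegrable (fun r => rgq (t - r)) volume s t := by
    have h5 := (intervalIntegrable_rgq (L := t - s) (by linarith)).comp_sub_left t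
    rw [sub_zero, sub_sub_cancel] at h5
    exact h5.symm
  refine rg_int hst ?_ (iq.const_mul C) fun r hr => ?_
  · exact A_comp hS (by fun_prop) (fun x hx => by linarith [hx.2])
      ((hn.mono Ioo_subset_Icc_self).sub continuousOn_const)
  · have h0 : 0 < t - r := by linarith [hr.2]
    refine (hS.A_norm _ h0 _).trans ?_
    have h1 := hC r ⟨hr.1.le, hr.2.le⟩
    calc (t - r)⁻¹ * ‖n r - n t‖ ≤ (t - r)⁻¹ * (C * √√(t - r)) := by gcongr
      _ = C * ((t - r)⁻¹ * √√(t - r)) := by ring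
      _ = C * rgq (t - r) := by rw [rgq_eq h0]

/-- continuity of `∫ A(t-r)(n r - n t)` -/
theorem cont_AI (hS : DirSG H S D A) {s b : ℝ} {n : ℝ → CI H} (hn : ContinuousOn n (Icc s b))
    (hn4 : ∀ s' ∈ Ioc s b, ∃ C, 0 ≤ C ∧ ∀ t ∈ Icc s' b, ∀ r ∈ Icc s t, ‖n r - n t‖ ≤ C * √√(t - r)) :
    ContinuousOn (fun t => ∫ r in s..t, A (t - r) (n r - n t)) (Ioc s b) := by
  have e1 : ∀ t ∈ Ioc s b, (∫ r in s..t, A (t - r) (n r - n t)) =
      (t - s) • ∫ u in (0:ℝ)..1, A ((t - s) * u) (n (t - (t - s) * u) - n t) := by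
    intro t ht
    have hts : t - s ≠ 0 := by linarith [ht.1]
    have h1 := intervalIntegral.integral_comp_sub_mul (a := 0) (b := 1)
      (fun r => A (t - r) (n r - n t)) hts t
    have e2 : ∀ u : ℝ, t - (t - (t - s) * u) = (t - s) * u := fun u => by ring
    simp only [e2] at h1
    rw [h1, smul_smul, mul_inv_cancel₀ hts, one_smul, mul_one, mul_zero, sub_zero, sub_sub_cancel]
  refine ContinuousOn.congr ?_ e1
  refine ContinuousOn.smul (f := fun t => t - s) (by fun_prop) ?_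
  intro t0 ht0
  set a := (s + t0) / 2 with ha
  have ha1 : s < a := by rw [ha]; linarith [ht0.1]
  have ha2 : a < t0 := by rw [ha]; linarith [ht0.1]
  obtain ⟨C, hC0, hC⟩ := hn4 a ⟨ha1, by linarith [ht0.2]⟩
  -- near `t0`
  have hnear : Ioc s b ∩ Ioi a ∈ 𝓝[Ioc s b] t0 :=
    inter_mem_nhdsWithin _ (Ioi_mem_nhds ha2)
  have hmem : ∀ t ∈ Ioc s b, ∀ u ∈ Ioc (0:ℝ) 1, t - (t - s) * u ∈ Icc s t := by
    intro t ht u hu
    have h1 : 0 ≤ (t - s) * u := mul_nonneg (by linarith [ht.1]) hu.1.le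
    have h2 : (t - s) * u ≤ t - s := by
      have := mul_le_mul_of_nonneg_left hu.2 (by linarith [ht.1] : 0 ≤ t - s)
      linarith
    exact ⟨by linarith, by linarith⟩
  refine intervalIntegral.continuousWithinAt_of_dominated_interval
    (bound := fun u => C * rgq (a - s) * rgq u) ?_ ?_ ?_ ?_
  · filter_upwards [self_mem_nhdsWithin] with t ht
    rw [uIoc_of_le zero_le_one]
    refine ContinuousOn.aestronglyMeasurable ?_ measurableSet_Ioc
    refine A_comp hS (by fun_prop) (fun u hu => mul_pos (by linarith [ht.1]) hu.1) ?_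
    refine ContinuousOn.sub ?_ continuousOn_const
    refine hn.comp (by fun_prop) fun u hu => ?_
    have h1 := hmem t ht u hu
    exact ⟨h1.1, h1.2.trans ht.2⟩
  · filter_upwards [hnear] with t ht
    refine ae_of_all _ fun u hu => ?_
    rw [uIoc_of_le zero_le_one] at hu
    have hts : 0 < t - s := by linarith [ht.1.1]
    have h0 : 0 < (t - s) * u := mul_pos hts hu.1
    have h1 := hmem t ht.1 u hu
    have h2 := hC t ⟨le_of_lt ht.2, ht.1.2⟩ _ h1
    rw [sub_sub_cancel] at h2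
    refine (hS.A_norm _ h0 _).trans ?_
    have h3 : rgq (t - s) ≤ rgq (a - s) :=
      rgq_anti (by linarith) (by linarith [le_of_lt (show a < t from ht.2)])
    have h4 := rgq_nonneg u
    calc ((t - s) * u)⁻¹ * ‖n (t - (t - s) * u) - n t‖
        ≤ ((t - s) * u)⁻¹ * (C * √√((t - s) * u)) := by gcongr
      _ = C * (((t - s) * u)⁻¹ * √√((t - s) * u)) := by ring
      _ = C * (rgq (t - s) * rgq u) := by rw [rgq_eq h0, rgq_mul hts.le]
      _ ≤ C * (rgq (a - s) * rgq u) := by gcongr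
      _ = C * rgq (a - s) * rgq u := by ring
  · exact (intervalIntegrable_rgq zero_le_one).const_mul _
  · refine ae_of_all _ fun u hu => ?_
    rw [uIoc_of_le zero_le_one] at hu
    refine A_comp hS (U := Ioc s b) (τ := fun t => (t - s) * u)
      (n := fun t => n (t - (t - s) * u) - n t) (by fun_prop)
      (fun t ht => mul_pos (by linarith [ht.1]) hu.1) ?_ t0 ht0
    refine ContinuousOn.sub ?_ (hn.mono Ioc_subset_Icc_self)
    refine hn.comp (by fun_prop) fun t ht => ?_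
    have h1 := hmem t ht u hu
    exact ⟨h1.1, h1.2.trans ht.2⟩

/-- the Duhamel integral is continuously differentiable -/
theorem duh_int (hS : DirSG H S D A) {s b : ℝ} {n v : ℝ → CI H} (hn : ContinuousOn n (Icc s b))
    (hn4 : ∀ s' ∈ Ioc s b, ∃ C, 0 ≤ C ∧ ∀ t ∈ Icc s' b, ∀ r ∈ Icc s t, ‖n r - n t‖ ≤ C * √√(t - r))
    (hv : ∀ t ∈ Ioc s b, v t = ∫ r in s..t, S (t - r) (n r)) {t1 t2 : ℝ} (h1 : s < t1)
    (h12 : t1 ≤ t2) (h2 : t2 ≤ b) :
    v t2 - v t1 = ∫ x in t1..t2, ((∫ r in s..x, A (x - r) (n r - n x)) + S (x - s) (n x)) := by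
  have hsb : s < b := by linarith
  obtain ⟨M, hM⟩ := isCompact_Icc.exists_bound_of_continuousOn hn
  have hsub : Icc t1 t2 ⊆ Ioc s b := fun x hx => ⟨by linarith [hx.1], by linarith [hx.2]⟩
  have hnc : ContinuousOn n (Icc t1 t2) := hn.mono (hsub.trans Ioc_subset_Icc_self)
  -- continuity of `v`
  have hvc : ContinuousOn v (Icc t1 t2) := by
    obtain ⟨C1, hC10, hC1⟩ := rg_holder (β := fun _ => 1) (f0 := 0) (F := v) continuousOn_const
      (fun t ht g => by rw [one_mul]; exact hS.S_norm t ht g) (S_cont hS)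
      (rg_S hS (sub_pos.2 hsb)) hn (fun t ht => by rw [map_zero, zero_add]; exact hv t ht) t1
      ⟨h1, by linarith⟩
    intro x hx
    rw [ContinuousWithinAt, tendsto_iff_norm_sub_tendsto_zero]
    have h3 : Tendsto (fun y => C1 * √√|y - x|) (𝓝[Icc t1 t2] x) (𝓝 0) := by
      have h4 : Continuous fun y : ℝ => C1 * √√|y - x| := by fun_prop
      have h5 := h4.tendsto x
      simp only [sub_self, abs_zero, Real.sqrt_zero, mul_zero] at h5
      exact h5.mono_left nhdsWithin_le_nhds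
    refine squeeze_zero' (Eventually.of_forall fun y => norm_nonneg _) ?_ h3
    filter_upwards [self_mem_nhdsWithin] with y hy
    exact hC1 y ⟨hy.1, by linarith [hy.2]⟩ x ⟨hx.1, by linarith [hx.2]⟩
  have hwc : ContinuousOn (fun x => (∫ r in s..x, A (x - r) (n r - n x)) + S (x - s) (n x))
      (Ioc s b) := by
    refine (cont_AI hS hn hn4).add ?_
    exact S_comp hS (by fun_prop) (fun x hx => by linarith [hx.1]) (hn.mono Ioc_subset_Icc_self)
  have hwi : IntervalIntegrable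
      (fun x => (∫ r in s..x, A (x - r) (n r - n x)) + S (x - s) (n x)) volume t1 t2 := by
    refine ContinuousOn.intervalIntegrable ?_
    rw [uIcc_of_le h12]
    exact hwc.mono hsub
  rw [← sub_eq_zero]
  refine ci_zero_of_S hS fun η hη => ?_
  -- the smoothed integrand
  have key : ∀ x ∈ Ioc s b, A η (v x) + S η (n x) =
      S η ((∫ r in s..x, A (x - r) (n r - n x)) + S (x - s) (n x)) := by
    intro x hx
    obtain ⟨C, hC0, hC⟩ := hn4 x hx
    have hCx := hC x ⟨le_rfl, hx.2⟩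
    have hnx : ContinuousOn n (Icc s x) := hn.mono (Icc_subset_Icc_right hx.2)
    have i1 : IntervalIntegrable (fun r => S (x - r) (n r)) volume s x :=
      intble_S hS hx.1.le hnx (fun r hr => hM r ⟨hr.1, hr.2.trans hx.2⟩) le_rfl
    have i2 := intble_A hS hx.1.le hnx hCx
    have hpos : ∀ r ∈ Icc s x, 0 < η + (x - r) := fun r hr => by linarith [hr.2]
    have i3 : IntervalIntegrable (fun r => A (η + (x - r)) (n r)) volume s x := by
      refine ContinuousOn.intervalIntegrable ?_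
      rw [uIcc_of_le hx.1.le]
      exact A_comp hS (by fun_prop) hpos hnx
    have i4 : IntervalIntegrable (fun r => A (η + (x - r)) (n x)) volume s x := by
      refine ContinuousOn.intervalIntegrable ?_
      rw [uIcc_of_le hx.1.le]
      exact A_comp hS (by fun_prop) hpos continuousOn_const
    have e1 : A η (v x) = ∫ r in s..x, A (η + (x - r)) (n r) := by
      rw [hv x hx, clm_int _ i1]
      refine intervalIntegral.integral_congr_ae ?_
      filter_upwards [ae_ne_pt x] with r hr hr'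
      rw [uIoc_of_le hx.1.le] at hr'
      have hrx : r < x := lt_of_le_of_ne hr'.2 hr
      exact (hS.A_sg η (x - r) hη (by linarith) _).symm
    have e2 : S η (∫ r in s..x, A (x - r) (n r - n x)) =
        (∫ r in s..x, A (η + (x - r)) (n r)) - ∫ r in s..x, A (η + (x - r)) (n x) := by
      rw [clm_int _ i2, ← intervalIntegral.integral_sub i3 i4]
      refine intervalIntegral.integral_congr_ae ?_
      filter_upwards [ae_ne_pt x] with r hr hr'
      rw [uIoc_of_le hx.1.le] at hr'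
      have hrx : r < x := lt_of_le_of_ne hr'.2 hr
      rw [SA_comm hS hη (by linarith), map_sub]
    have e3 : (∫ r in s..x, A (η + (x - r)) (n x)) = S (η + (x - s)) (n x) - S η (n x) := by
      have h5 := intervalIntegral.integral_comp_sub_left (fun y => A y (n x)) (a := s) (b := x)
        (η + x)
      have e4 : ∀ r : ℝ, η + x - r = η + (x - r) := fun r => by ring
      simp only [e4, sub_self, add_zero] at h5
      rw [h5, S_sub_eq hS hη (by linarith [hx.1])]
    rw [map_add, e1, e2, e3, ← hS.S_sg η (x - s) hη (by linarith [hx.1])]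
    abel
  have e1 : S η (v t2) - S η (v t1) = ∫ x in t1..t2, (A η (v x) + S η (n x)) := by
    symm
    refine intervalIntegral.integral_eq_sub_of_hasDeriv_right (f := fun y => S η (v y)) ?_ ?_ ?_
    · rw [uIcc_of_le h12]
      exact (S η).continuous.comp_continuousOn hvc
    · intro x hx
      rw [min_eq_left h12, max_eq_right h12] at hx
      exact hasDeriv_SV hS hn hv hη ⟨by linarith [hx.1], by linarith [hx.2]⟩
    · refine ContinuousOn.intervalIntegrable ?_
      rw [uIcc_of_le h12]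
      exact ((A η).continuous.comp_continuousOn hvc).add ((S η).continuous.comp_continuousOn hnc)
  rw [map_sub, map_sub, clm_int _ hwi, e1, sub_eq_zero]
  refine intervalIntegral.integral_congr fun x hx => ?_
  rw [uIcc_of_le h12] at hx
  exact key x (hsub hx)

end SG


end

end Regu

open Regu

/-! BA-6: interior regularity. -/

theorem regularity {H : ℝ} [Fact (0 < H)] {S D A : ℝ → (CI H →L[ℂ] CI H)} (hS : DirSG H S D A)
    {s b R : ℝ} {f0 : CI H} {n f f1 : ℝ → CI H} (hn : ContinuousOn n (Icc s b))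
    (hf : ∀ t ∈ Ioc s b, f t = S (t - s) f0 + ∫ r in s..t, S (t - r) (n r))
    (hf1 : ∀ t ∈ Ioc s b, f1 t = D (t - s) f0 + ∫ r in s..t, D (t - r) (n r))
    (hn4 : ∀ s' ∈ Ioc s b, ∃ C, ∀ t ∈ Icc s' b, ∀ t' ∈ Icc s' b, ‖n t - n t'‖ ≤ C * √(√|t - t'|)) :
    ∃ f2 : ℝ → ℝ → ℂ, ContinuousOn (uncurry f2) (Ioc s b ×ˢ Ioo 0 H) ∧
      (∀ t ∈ Ioc s b, ∀ z ∈ Ioo 0 H, HasDerivAt (fun x => ex (f1 t) x) (f2 t z) z) ∧
      ∀ t ∈ Ioc s b, ∀ z ∈ Ioo 0 H,
        HasDerivWithinAt (fun r => ex (f r) z) (f2 t z + ex (n t) z) (Iic t) t := by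
  have hn5 := hold_ext hn hn4
  obtain ⟨M, hM⟩ := isCompact_Icc.exists_bound_of_continuousOn hn
  -- the second derivative plus the source
  set W : ℝ → CI H := fun t => A (t - s) f0 +
    ((∫ r in s..t, A (t - r) (n r - n t)) + S (t - s) (n t)) with hW
  have hA0 : ContinuousOn (fun t => A (t - s) f0) (Ioc s b) :=
    A_comp hS (by fun_prop) (fun x hx => by linarith [hx.1]) continuousOn_const
  have hWc : ContinuousOn W (Ioc s b) := by
    refine hA0.add ((cont_AI hS hn hn5).add ?_)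
    exact S_comp hS (by fun_prop) (fun x hx => by linarith [hx.1]) (hn.mono Ioc_subset_Icc_self)
  refine ⟨fun t z => ex (W t - n t) z, ?_, ?_, ?_⟩
  · have h1 := continuousOn_ex (hWc.sub (hn.mono Ioc_subset_Icc_self))
    exact h1.mono (prod_mono_right (subset_univ _))
  · intro t ht z hz
    obtain ⟨C, hC0, hC⟩ := hn5 t ht
    have hCt := hC t ⟨le_rfl, ht.2⟩
    have hnt : ContinuousOn n (Icc s t) := hn.mono (Icc_subset_Icc_right ht.2)
    have hts : 0 < t - s := by linarith [ht.1]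
    have i1 : IntervalIntegrable (fun r => D (t - r) (n r)) volume s t :=
      intble_D hS ht.1.le hnt (fun r hr => hM r ⟨hr.1, hr.2.trans ht.2⟩)
    have i2 : IntervalIntegrable (fun r => D (t - r) (n t)) volume s t :=
      intble_D hS ht.1.le (n := fun _ => n t) continuousOn_const (M := M)
        (fun r hr => hM t ⟨ht.1.le, ht.2⟩)
    have i3 := intble_A hS ht.1.le hnt hCt
    have i4 : IntervalIntegrable (fun r => D (t - r) (n r - n t)) volume s t := by
      have h1 := i1.sub i2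
      refine h1.congr fun r _ => ?_
      exact (map_sub (D (t - r)) (n r) (n t)).symm
    have d1 : IsD (D (t - s) f0) (A (t - s) f0) := hS.D_der _ hts f0
    have d2 : IsD (∫ r in s..t, D (t - r) (n r - n t)) (∫ r in s..t, A (t - r) (n r - n t)) :=
      isD_integral ht.1.le i4 i3 fun r hr => hS.D_der _ (by linarith [hr.2]) _
    have d3 : IsD (∫ r in s..t, D (t - r) (n t)) (S (t - s) (n t) - n t) := by
      have h1 := isD_intD hS hts (n t)
      have h2 := intervalIntegral.integral_comp_sub_left (fun σ => D σ (n t)) (a := s) (b := t) t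
      rw [sub_self] at h2
      rw [h2]
      exact h1
    have d4 := isD_add (isD_add d1 d2) d3
    have e1 : D (t - s) f0 + (∫ r in s..t, D (t - r) (n r - n t)) + (∫ r in s..t, D (t - r) (n t)) =
        f1 t := by
      rw [hf1 t ht, add_assoc, ← intervalIntegral.integral_add i4 i2]
      congr 1
      refine intervalIntegral.integral_congr fun r _ => ?_
      show D (t - r) (n r - n t) + D (t - r) (n t) = D (t - r) (n r)
      rw [← map_add, sub_add_cancel]
    have e2 : A (t - s) f0 + (∫ r in s..t, A (t - r) (n r - n t)) + (S (t - s) (n t) - n t) =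
        W t - n t := by
      show _ = A (t - s) f0 + ((∫ r in s..t, A (t - r) (n r - n t)) + S (t - s) (n t)) - n t
      rw [add_assoc, add_sub_assoc, add_sub_assoc]
    rw [e1, e2] at d4
    exact (d4 z ⟨hz.1.le, hz.2.le⟩).hasDerivAt (Icc_mem_nhds hz.1 hz.2)
  · intro t ht z _
    set t1 := (s + t) / 2 with ht1
    have h1 : s < t1 := by rw [ht1]; linarith [ht.1]
    have h2 : t1 < t := by rw [ht1]; linarith [ht.1]
    have hsub : Icc t1 t ⊆ Ioc s b := fun x hx => ⟨by linarith [hx.1], by linarith [hx.2, ht.2]⟩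
    -- integrated equation
    have key : ∀ y ∈ Icc t1 t, f y = f t1 + ∫ x in t1..y, W x := by
      intro y hy
      have hy2 : y ≤ b := hy.2.trans ht.2
      have h3 := duh_int hS hn hn5 (v := fun t => ∫ r in s..t, S (t - r) (n r)) (fun _ _ => rfl)
        h1 hy.1 hy2
      have hsub' : Icc t1 y ⊆ Ioc s b := fun x hx => ⟨by linarith [hx.1], by linarith [hx.2]⟩
      have i1 : IntervalIntegrable (fun x => A (x - s) f0) volume t1 y := by
        refine ContinuousOn.intervalIntegrable ?_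
        rw [uIcc_of_le hy.1]
        exact hA0.mono hsub'
      have i2 : IntervalIntegrable
          (fun x => (∫ r in s..x, A (x - r) (n r - n x)) + S (x - s) (n x)) volume t1 y := by
        refine ContinuousOn.intervalIntegrable ?_
        rw [uIcc_of_le hy.1]
        refine ContinuousOn.mono ?_ hsub'
        refine (cont_AI hS hn hn5).add ?_
        exact S_comp hS (by fun_prop) (fun x hx => by linarith [hx.1])
          (hn.mono Ioc_subset_Icc_self)
      have h4 : (∫ x in t1..y, A (x - s) f0) = S (y - s) f0 - S (t1 - s) f0 := by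
        rw [intervalIntegral.integral_comp_sub_right (fun x => A x f0) s]
        exact S_sub_eq hS (by linarith) (by linarith [hy.1]) f0
      have h5 : (∫ x in t1..y, W x) = (∫ x in t1..y, A (x - s) f0) +
          ∫ x in t1..y, ((∫ r in s..x, A (x - r) (n r - n x)) + S (x - s) (n x)) :=
        intervalIntegral.integral_add i1 i2
      rw [h5, ← h3, h4, hf y ⟨by linarith [hy.1], hy2⟩, hf t1 ⟨h1, by linarith [hy.1]⟩]
      abel
    have d1 : HasDerivWithinAt (fun y => ∫ x in t1..y, W x) (W t) (Iic t) t := by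
      refine intervalIntegral.integral_hasDerivWithinAt_right ?_ ?_ ?_
      · refine ContinuousOn.intervalIntegrable ?_
        rw [uIcc_of_le h2.le]
        exact hWc.mono hsub
      · refine (hWc.mono hsub).stronglyMeasurableAtFilter_nhdsWithin measurableSet_Icc t
          |>.filter_mono ?_
        rw [nhdsWithin_Icc_eq_nhdsLE h2]
      · have h3 : ContinuousWithinAt W (Icc t1 t) t := (hWc.mono hsub) t ⟨h2.le, le_rfl⟩
        rw [ContinuousWithinAt, nhdsWithin_Icc_eq_nhdsLE h2] at h3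
        exact h3
    have d2 : HasDerivWithinAt f (W t) (Iic t) t := by
      refine (d1.const_add (f t1)).congr_of_eventuallyEq ?_ (key t ⟨h2.le, le_rfl⟩)
      have h3 : Icc t1 t ∈ 𝓝[≤] t := Icc_mem_nhdsLE h2
      filter_upwards [h3] with y hy
      exact key y hy
    have d3 : HasDerivWithinAt (fun r => ex (f r) z) (ex (W t) z) (Iic t) t :=
      (evL z).hasFDerivAt.comp_hasDerivWithinAt t d2
    have e3 : ex (W t - n t) z + ex (n t) z = ex (W t) z := by
      rw [ex_sub, sub_add_cancel]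
    rw [e3]
    exact d3

theorem holder {H : ℝ} [Fact (0 < H)] {S D A : ℝ → (CI H →L[ℂ] CI H)} (hS : DirSG H S D A)
    {s b : ℝ} {f0 : CI H} {n f f1 : ℝ → CI H} (hn : ContinuousOn n (Icc s b))
    (hf : ∀ t ∈ Ioc s b, f t = S (t - s) f0 + ∫ r in s..t, S (t - r) (n r))
    (hf1 : ∀ t ∈ Ioc s b, f1 t = D (t - s) f0 + ∫ r in s..t, D (t - r) (n r)) :
    ∀ s' ∈ Ioc s b, ∃ C, ∀ t ∈ Icc s' b, ∀ t' ∈ Icc s' b,
      ‖f t - f t'‖ ≤ C * √(√|t - t'|) ∧ ‖f1 t - f1 t'‖ ≤ C * √(√|t - t'|) := by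
  intro s' hs'
  have hL : 0 < b - s := by linarith [hs'.1, hs'.2]
  obtain ⟨C1, hC10, hC1⟩ := rg_holder (β := fun _ => 1) continuousOn_const
    (fun t ht g => by rw [one_mul]; exact hS.S_norm t ht g) (S_cont hS) (rg_S hS hL) hn hf s' hs'
  have hβ : ContinuousOn (fun t : ℝ => (√t)⁻¹) (Ioi 0) := by
    refine ContinuousOn.inv₀ (by fun_prop) fun t ht => ?_
    exact (Real.sqrt_pos.2 ht).ne'
  obtain ⟨C2, hC20, hC2⟩ := rg_holder (β := fun t => (√t)⁻¹) hβ
    (fun t ht g => hS.D_norm t ht g) hS.D_cont (rg_D hS (b - s)) hn hf1 s' hs'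
  refine ⟨C1 + C2, fun t ht t' ht' => ⟨(hC1 t ht t' ht').trans ?_, (hC2 t ht t' ht').trans ?_⟩⟩
  · have := Real.sqrt_nonneg (√|t - t'|)
    gcongr
    linarith
  · have := Real.sqrt_nonneg (√|t - t'|)
    gcongr
    linarith

end Pool.Agent.Lib.MP_79abb3_an.P25
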