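import Pool.Agent.Lib.MP_79abb3_an.P25.LTops
import Pool.Agent.Lib.MP_79abb3_an.P25.Regu

/-!
The tested equations of one mode.
-/

set_option autoImplicit false
set_option linter.unusedSectionVars false
set_option linter.unusedVariables false

open MeasureTheory Set Filter Topology Function

namespace Pool.Agent.Lib.MP_79abb3_an.P25

namespace Tst

open Regu

section
variable {H : ℝ} [hH : Fact (0 < H)]

/-- integrability of functions that are bounded and continuous off a countable set -/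
theorem ii_ci {E : Type} [NormedAddCommGroup E] [NormedSpace ℝ E] {φ : ℝ → E} {a b t1 t2 R : ℝ}
    {J : Set ℝ} (hJ : J.Countable)
    (hc : ContinuousOn φ (Icc a b \ J)) (hb : ∀ t ∈ Icc a b \ J, ‖φ t‖ ≤ R) (h1 : t1 ∈ Icc a b)
    (h2 : t2 ∈ Icc a b) : IntervalIntegrable φ volume t1 t2 := by
  rw [intervalIntegrable_iff]
  have hsub : uIoc t1 t2 ⊆ Icc a b := fun t ht => by
    rw [mem_uIoc] at ht
    rcases ht with ht | ht
    · exact ⟨h1.1.trans ht.1.le, ht.2.trans h2.2⟩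
    · exact ⟨h2.1.trans ht.1.le, ht.2.trans h1.2⟩
  have hae : volume.restrict (uIoc t1 t2 \ J) = volume.restrict (uIoc t1 t2) :=
    Measure.restrict_congr_set (sdiff_null_ae_eq_self (hJ.measure_zero volume))
  have hms : MeasurableSet (uIoc t1 t2 \ J) := measurableSet_uIoc.diff hJ.measurableSet
  have hsub' : uIoc t1 t2 \ J ⊆ Icc a b \ J := sdiff_subset_sdiff_left hsub
  have hm : AEStronglyMeasurable φ (volume.restrict (uIoc t1 t2)) := by
    rw [← hae]
    exact (hc.mono hsub').aestronglyMeasurable hms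
  have hfin : IntegrableOn (fun _ : ℝ => R) (uIoc t1 t2) := by
    have := (intervalIntegrable_const (μ := volume) (a := t1) (b := t2) (c := R))
    rwa [intervalIntegrable_iff] at this
  refine Integrable.mono' hfin hm ?_
  rw [← hae, ae_restrict_iff' hms]
  exact ae_of_all _ fun t ht => hb t (hsub' ht)

/-- curves of continuous functions -/
noncomputable def cvM (ψ : ℝ → ℝ → ℂ) (h : Continuous (uncurry ψ)) : C(ℝ, CI H) :=
  ContinuousMap.curry (⟨fun p : ℝ × Icc (0:ℝ) H => ψ p.1 p.2,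
    h.comp (continuous_fst.prodMk (continuous_subtype_val.comp continuous_snd))⟩)

theorem ex_cvM (ψ : ℝ → ℝ → ℂ) (h : Continuous (uncurry ψ)) (t : ℝ) {z : ℝ}
    (hz : z ∈ Icc (0:ℝ) H) : ex (cvM (H := H) ψ h t) z = ψ t z := by
  rw [ex_apply _ hz]
  rfl

/-- time derivative in the norm -/
theorem cvM_dt {ψ ψt : ℝ → ℝ → ℂ} (h : Continuous (uncurry ψ)) (ht : Continuous (uncurry ψt))
    (dt : ∀ t z, HasDerivAt (fun t => ψ t z) (ψt t z) t) (t : ℝ) :
    HasDerivAt (fun t => cvM (H := H) ψ h t) (cvM ψt ht t) t := by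
  have e1 : (fun t => cvM (H := H) ψ h t) =
      fun t => cvM ψ h 0 + ∫ s in (0:ℝ)..t, cvM (H := H) ψt ht s := by
    funext u
    refine ci_ext fun z hz => ?_
    rw [ex_add, ex_cvM _ _ _ hz, ex_cvM _ _ _ hz,
      ex_int ((cvM (H := H) ψt ht).continuous.intervalIntegrable 0 u)]
    have h1 : (∫ s in (0:ℝ)..u, ex (cvM (H := H) ψt ht s) z) = ∫ s in (0:ℝ)..u, ψt s z :=
      intervalIntegral.integral_congr fun s _ => ex_cvM _ _ _ hz
    rw [h1, intervalIntegral.integral_eq_sub_of_hasDerivAt (fun s _ => dt s z)]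
    · ring
    · have h2 : Continuous fun s => ψt s z := ht.comp (continuous_id.prodMk continuous_const)
      exact h2.intervalIntegrable _ _
  rw [e1]
  exact (intervalIntegral.integral_hasDerivAt_right
    ((cvM (H := H) ψt ht).continuous.intervalIntegrable 0 t)
    ((cvM (H := H) ψt ht).continuous.stronglyMeasurableAtFilter _ _)
    ((cvM (H := H) ψt ht).continuous.continuousAt)).const_add _

/-- space derivative -/
theorem cvM_dz {ψ ψz : ℝ → ℝ → ℂ} (h : Continuous (uncurry ψ)) (hz : Continuous (uncurry ψz))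
    (dz : ∀ t z, HasDerivAt (fun z => ψ t z) (ψz t z) z) (t : ℝ) :
    IsD (cvM (H := H) ψ h t) (cvM ψz hz t) := by
  intro z hz'
  rw [ex_cvM _ _ _ hz']
  exact ((dz t z).hasDerivWithinAt).congr (fun x hx => ex_cvM _ _ _ hx) (ex_cvM _ _ _ hz')

/-- the integral over `[0,H]` -/
noncomputable def LH (H : ℝ) [Fact (0 < H)] : CI H →L[ℝ] ℂ := primL H

theorem LH_apply (f : CI H) : LH H f = ∫ z in (0:ℝ)..H, ex f z := rfl

theorem ex_Eop0 (f : CI H) {z : ℝ} (hz : z ∈ Icc (0:ℝ) H) : ex (Eop 0 f) z = prim f z := by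
  rw [Eop_apply 0 f hz, prim]
  refine intervalIntegral.integral_congr fun x _ => ?_
  simp

theorem LH_isD {g g1 : CI H} (h : IsD g g1) : LH H g1 = ex g H - ex g 0 := by
  have hH' : H ∈ Icc (0:ℝ) H := ⟨hH.out.le, le_rfl⟩
  rw [isD_iff_ev.1 h H hH', ex_Eop0 _ hH']
  rfl

theorem IsD_mul {a a1 b b1 : CI H} (ha : IsD a a1) (hb : IsD b b1) :
    IsD (a * b) (a1 * b + a * b1) := fun z hz => (ha z hz).mul (hb z hz)

theorem LH_parts {a a1 b b1 : CI H} (ha : IsD a a1) (hb : IsD b b1) (h0 : ex b 0 = 0)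
    (hH' : ex b H = 0) : LH H (a * b1) = - LH H (a1 * b) := by
  have h := LH_isD (IsD_mul ha hb)
  rw [map_add, ex_mul, ex_mul, h0, hH', mul_zero, mul_zero, sub_zero] at h
  exact eq_neg_of_add_eq_zero_right h

theorem isD_Eop0 (f : CI H) : IsD (Eop 0 f) f := by
  rw [isD_iff_ev]
  intro z hz
  rw [Eop_zero, sub_zero]

theorem isD_const (c : ℂ) : IsD (ContinuousMap.const _ c : CI H) 0 :=
  fun z _ => hasDerivWithinAt_const _ _ _

/-- product with a factor vanishing at the point -/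
theorem hasDerivAt_mul_zero {g k : ℝ → CI H} {k' : CI H} {t : ℝ} (hg : ContinuousAt g t)
    (hk : HasDerivAt k k' t) (h0 : k t = 0) : HasDerivAt (fun u => g u * k u) (g t * k') t := by
  rw [hasDerivAt_iff_tendsto_slope]
  have h1 := hk.tendsto_slope
  have h2 : slope (fun u => g u * k u) t = fun u => g u * slope k t u := by
    funext u
    rw [slope_def_module, slope_def_module, h0, mul_zero, sub_zero, sub_zero, mul_smul_comm]
  rw [h2]
  exact (hg.tendsto.mono_left nhdsWithin_le_nhds).mul h1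

/-- right hand side as an element of `C([0,H])` -/
noncomputable def rC (k : ℝ) (f f1 m : CI H) : CI H :=
  f1 - ContinuousMap.const _ (ex f1 0) - (k ^ 2) • Eop 0 f + Eop 0 m

theorem ex_rC (k : ℝ) (f f1 m : CI H) {z : ℝ} (hz : z ∈ Icc (0:ℝ) H) :
    ex (rC k f f1 m) z = rh k f f1 m z := by
  rw [rC, ex_add, ex_sub, ex_sub, ex_rsmul, ex_Eop0 _ hz, ex_Eop0 _ hz, rh]
  rfl

/-- constants, as a continuous linear map -/
noncomputable def cst (H : ℝ) [Fact (0 < H)] : ℂ →L[ℝ] CI H :=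
  LinearMap.mkContinuous
    { toFun := fun c => ContinuousMap.const _ c
      map_add' := fun _ _ => rfl
      map_smul' := fun _ _ => rfl } 1 (fun c => by
      rw [one_mul]
      exact ci_norm_le (norm_nonneg _) fun z _ => le_rfl)

theorem cst_apply (c : ℂ) : cst H c = (ContinuousMap.const _ c : CI H) := rfl

theorem rC_eq (k : ℝ) (f f1 m : CI H) :
    rC k f f1 m = f1 - cst H (evL 0 f1) - (k ^ 2) • Eop 0 f + Eop 0 m := rfl

theorem rC_cont {k : ℝ} {f f1 m : ℝ → CI H} {s : Set ℝ} (cf : ContinuousOn f s)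
    (cf1 : ContinuousOn f1 s) (cm : ContinuousOn m s) :
    ContinuousOn (fun t => rC k (f t) (f1 t) (m t)) s := by
  have h1 : ContinuousOn (fun t => cst H (evL 0 (f1 t))) s :=
    ((cst H).continuous.comp (evL (H := H) 0).continuous).comp_continuousOn cf1
  have h2 : ContinuousOn (fun t => (k ^ 2) • Eop 0 (f t)) s :=
    ((Eop (H := H) 0).continuous.comp_continuousOn cf).const_smul (k ^ 2)
  have h3 : ContinuousOn (fun t => Eop 0 (m t)) s :=
    (Eop (H := H) 0).continuous.comp_continuousOn cm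
  exact ((cf1.sub h1).sub h2).add h3

theorem rC_bd {k R Rf : ℝ} {f f1 m : CI H} (hf : ‖f‖ ≤ Rf) (hf1 : ‖f1‖ ≤ R) (hm : ‖m‖ ≤ R) :
    ‖rC k f f1 m‖ ≤ R + R + k ^ 2 * (H * Rf) + H * R := by
  have hH0 := hH.out
  have h1 : ‖cst H (evL 0 f1)‖ ≤ R := by
    refine (ci_norm_le (norm_nonneg (ex f1 0)) fun z _ => le_rfl).trans ?_
    exact (norm_ex_le _ _).trans hf1
  have h2 : ‖(k ^ 2) • Eop 0 f‖ ≤ k ^ 2 * (H * Rf) := by
    rw [norm_smul, Real.norm_of_nonneg (sq_nonneg k)]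
    have := norm_Eop_le 0 f
    gcongr
    exact this.trans (by gcongr)
  have h3 : ‖Eop 0 m‖ ≤ H * R := (norm_Eop_le 0 m).trans (by gcongr)
  rw [rC_eq]
  calc ‖f1 - cst H (evL 0 f1) - (k ^ 2) • Eop 0 f + Eop 0 m‖
      ≤ ‖f1 - cst H (evL 0 f1) - (k ^ 2) • Eop 0 f‖ + ‖Eop 0 m‖ := norm_add_le _ _
    _ ≤ ‖f1 - cst H (evL 0 f1)‖ + ‖(k ^ 2) • Eop 0 f‖ + ‖Eop 0 m‖ := by
      gcongr
      exact norm_sub_le _ _
    _ ≤ ‖f1‖ + ‖cst H (evL 0 f1)‖ + ‖(k ^ 2) • Eop 0 f‖ + ‖Eop 0 m‖ := by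
      gcongr
      exact norm_sub_le _ _
    _ ≤ R + R + k ^ 2 * (H * Rf) + H * R := by gcongr

theorem tested_aux {k T R : ℝ} {J : Set ℝ} (hJ : J.Countable) {f f1 m : ℝ → CI H} (hT : 0 ≤ T)
    (cf : ContinuousOn f (Icc 0 T)) (cf1 : ContinuousOn f1 (Icc 0 T \ J))
    (cm : ContinuousOn m (Icc 0 T \ J)) (bf1 : ∀ t ∈ Icc 0 T \ J, ‖f1 t‖ ≤ R)
    (bm : ∀ t ∈ Icc 0 T \ J, ‖m t‖ ≤ R) (hd : ∀ t ∈ Icc 0 T \ J, IsD (f t) (f1 t))
    (heq : ∀ y ∈ Icc (0:ℝ) H, ∀ t1 ∈ Icc 0 T, ∀ t2 ∈ Icc t1 T, prim (f t2) y - prim (f t1) y =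
      ∫ s in t1..t2, rh k (f s) (f1 s) (m s) y)
    {ψ ψt ψz ψzz : ℝ → ℝ → ℂ} (c0 : Continuous (uncurry ψ))
    (c1 : Continuous (uncurry ψt)) (c2 : Continuous (uncurry ψz)) (c3 : Continuous (uncurry ψzz))
    (dt : ∀ t z, HasDerivAt (fun t => ψ t z) (ψt t z) t)
    (dz : ∀ t z, HasDerivAt (fun z => ψ t z) (ψz t z) z)
    (dzz : ∀ t z, HasDerivAt (fun z => ψz t z) (ψzz t z) z) {a b c d : ℝ} (ha : 0 < a) (hb : b < T)
    (hc : 0 < c) (hd' : d < H) (hsupp : ∀ t z, ¬(t ∈ Icc a b ∧ z ∈ Icc c d) → ψ t z = 0) :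
    ∫ t in (0:ℝ)..T, ∫ z in (0:ℝ)..H, ex (f t) z *
        (ψt t z + (ψzz t z - ((k ^ 2 : ℝ) : ℂ) * ψ t z)) =
      -∫ t in (0:ℝ)..T, ∫ z in (0:ℝ)..H, ex (m t) z * ψ t z := by
  have hH0 := hH.out
  have h0H : (0:ℝ) ∈ Icc (0:ℝ) H := ⟨le_rfl, hH0.le⟩
  have hHH : H ∈ Icc (0:ℝ) H := ⟨hH0.le, le_rfl⟩
  obtain ⟨Rf, hRf⟩ := isCompact_Icc.exists_bound_of_continuousOn cf
  set Ψ : ℝ → CI H := fun t => cvM ψ c0 t with hΨ
  set Ψt : ℝ → CI H := fun t => cvM ψt c1 t with hΨt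
  set Ψz : ℝ → CI H := fun t => cvM ψz c2 t with hΨz
  set Ψzz : ℝ → CI H := fun t => cvM ψzz c3 t with hΨzz
  have cΨ : Continuous Ψ := (cvM ψ c0).continuous
  have cΨt : Continuous Ψt := (cvM ψt c1).continuous
  have cΨz : Continuous Ψz := (cvM ψz c2).continuous
  have cΨzz : Continuous Ψzz := (cvM ψzz c3).continuous
  -- boundary values
  have v0 : ∀ t, ex (Ψ t) 0 = 0 := fun t => by
    rw [hΨ, ex_cvM _ _ _ h0H]
    exact hsupp t 0 fun h => by linarith [h.2.1]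
  have vH : ∀ t, ex (Ψ t) H = 0 := fun t => by
    rw [hΨ, ex_cvM _ _ _ hHH]
    exact hsupp t H fun h => by linarith [h.2.2]
  have vz0 : ∀ t, ex (Ψz t) 0 = 0 := fun t => by
    rw [hΨz, ex_cvM _ _ _ h0H]
    have h1 : (fun z => ψ t z) =ᶠ[𝓝 0] fun _ => 0 := by
      filter_upwards [Iio_mem_nhds hc] with z hz
      exact hsupp t z fun h => by linarith [h.2.1, show z < c from hz]
    exact (dz t 0).unique ((hasDerivAt_const (0:ℝ) (0:ℂ)).congr_of_eventuallyEq h1)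
  have vzH : ∀ t, ex (Ψz t) H = 0 := fun t => by
    rw [hΨz, ex_cvM _ _ _ hHH]
    have h1 : (fun z => ψ t z) =ᶠ[𝓝 H] fun _ => 0 := by
      filter_upwards [Ioi_mem_nhds hd'] with z hz
      exact hsupp t z fun h => by linarith [h.2.2, show d < z from hz]
    exact (dz t H).unique ((hasDerivAt_const (H:ℝ) (0:ℂ)).congr_of_eventuallyEq h1)
  have dΨ : ∀ t, IsD (Ψ t) (Ψz t) := fun t => cvM_dz c0 c2 dz t
  have dΨz : ∀ t, IsD (Ψz t) (Ψzz t) := fun t => cvM_dz c2 c3 dzz t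
  -- the primitive
  set r : ℝ → CI H := fun t => rC k (f t) (f1 t) (m t) with hr
  have cr : ContinuousOn r (Icc 0 T \ J) := rC_cont (cf.mono sdiff_subset) cf1 cm
  have br : ∀ t ∈ Icc 0 T \ J, ‖r t‖ ≤ R + R + k ^ 2 * (H * Rf) + H * R := fun t ht =>
    rC_bd (hRf t ht.1) (bf1 t ht) (bm t ht)
  have ir : ∀ t1 ∈ Icc 0 T, ∀ t2 ∈ Icc 0 T, IntervalIntegrable r volume t1 t2 :=
    fun t1 h1 t2 h2 => ii_ci hJ cr br h1 h2
  have hT0 : (0:ℝ) ∈ Icc 0 T := ⟨le_rfl, hT⟩
  have eF : ∀ u ∈ Icc 0 T, Eop 0 (f u) = Eop 0 (f 0) + ∫ s in (0:ℝ)..u, r s := by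
    intro u hu
    refine ci_ext fun y hy => ?_
    rw [ex_add, ex_int (ir 0 hT0 u hu), ex_Eop0 _ hy, ex_Eop0 _ hy]
    have h1 := heq y hy 0 hT0 u hu
    have h2 : (∫ s in (0:ℝ)..u, ex (r s) y) = ∫ s in (0:ℝ)..u, rh k (f s) (f1 s) (m s) y :=
      intervalIntegral.integral_congr fun s _ => ex_rC _ _ _ _ hy
    rw [h2, ← h1]
    ring
  have dF : ∀ t ∈ Ioo 0 T \ J, HasDerivAt (fun u => Eop 0 (f u)) (r t) t := by
    intro t ht
    have hmem : t ∈ Icc 0 T \ J := ⟨⟨ht.1.1.le, ht.1.2.le⟩, ht.2⟩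
    have hnhds : Icc 0 T ∈ 𝓝 t := Icc_mem_nhds ht.1.1 ht.1.2
    have h1 : HasDerivAt (fun u => ∫ s in (0:ℝ)..u, r s) (r t) t := by
      refine intervalIntegral.integral_hasDerivAt_of_tendsto_ae_right (ir 0 hT0 t hmem.1) ?_ ?_
      · refine ⟨Ioc 0 T, Ioc_mem_nhds ht.1.1 ht.1.2, ?_⟩
        have h2 := ir 0 hT0 T ⟨hT, le_rfl⟩
        rw [intervalIntegrable_iff_integrableOn_Ioc_of_le hT] at h2
        exact h2.aestronglyMeasurable
      · refine (cr t hmem).tendsto.mono_left ?_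
        rw [nhdsWithin, le_inf_iff]
        refine ⟨inf_le_left, le_principal_iff.2 ?_⟩
        have h3 : Icc 0 T ∈ 𝓝 t ⊓ ae volume := mem_inf_of_left hnhds
        have h4 : Jᶜ ∈ 𝓝 t ⊓ ae volume := by
          refine mem_inf_of_right ?_
          exact ae_notMem_countable hJ
        exact inter_mem h3 h4
    refine (h1.const_add (Eop 0 (f 0))).congr_of_eventuallyEq ?_
    filter_upwards [hnhds] with u hu
    exact eF u hu
  -- the function `A`
  set A : ℝ → ℂ := fun u => LH H (f u * Ψ u) with hA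
  have cA : ContinuousOn A (Icc 0 T) :=
    (LH H).continuous.comp_continuousOn (cf.mul cΨ.continuousOn)
  have dA : ∀ t ∈ Ioo 0 T \ J, HasDerivAt A (LH H (f t * Ψt t) - LH H (r t * Ψz t)) t := by
    intro t ht
    have hft : ContinuousAt f t := cf.continuousAt (Icc_mem_nhds ht.1.1 ht.1.2)
    have h1 : HasDerivAt (fun u => Ψ u - Ψ t) (Ψt t) t := (cvM_dt c0 c1 dt t).sub_const _
    have h2 := hasDerivAt_mul_zero hft h1 (sub_self _)
    have h3 : HasDerivAt (fun u => LH H (f u * (Ψ u - Ψ t))) (LH H (f t * Ψt t)) t :=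
      (LH H).hasFDerivAt.comp_hasDerivAt t h2
    have h4 : HasDerivAt (fun u => LH H (Eop 0 (f u) * Ψz t)) (LH H (r t * Ψz t)) t :=
      (LH H).hasFDerivAt.comp_hasDerivAt t ((dF t ht).mul_const (Ψz t))
    have h5 := h3.sub h4
    refine h5.congr_of_eventuallyEq (Eventually.of_forall fun u => ?_)
    show LH H (f u * Ψ u) = LH H (f u * (Ψ u - Ψ t)) - LH H (Eop 0 (f u) * Ψz t)
    rw [LH_parts (isD_Eop0 (f u)) (dΨ t) (v0 t) (vH t), mul_sub, map_sub]
    ring
  -- the derivative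
  have eB : ∀ t ∈ Icc 0 T \ J, LH H (f t * Ψt t) - LH H (r t * Ψz t) =
      LH H (f t * (Ψt t + (Ψzz t - (k ^ 2) • Ψ t))) + LH H (m t * Ψ t) := by
    intro t ht
    have e1 : LH H (f1 t * Ψz t) = - LH H (f t * Ψzz t) := by
      have := LH_parts (hd t ht) (dΨz t) (vz0 t) (vzH t)
      rw [this, neg_neg]
    have e2 : LH H (cst H (evL 0 (f1 t)) * Ψz t) = 0 := by
      have := LH_parts (isD_const (evL 0 (f1 t))) (dΨ t) (v0 t) (vH t)
      rw [zero_mul, map_zero, neg_zero] at this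
      exact this
    have e3 : LH H (Eop 0 (f t) * Ψz t) = - LH H (f t * Ψ t) :=
      LH_parts (isD_Eop0 (f t)) (dΨ t) (v0 t) (vH t)
    have e4 : LH H (Eop 0 (m t) * Ψz t) = - LH H (m t * Ψ t) :=
      LH_parts (isD_Eop0 (m t)) (dΨ t) (v0 t) (vH t)
    have e5 : LH H (r t * Ψz t) = LH H (f1 t * Ψz t) - LH H (cst H (evL 0 (f1 t)) * Ψz t) -
        (k ^ 2) • LH H (Eop 0 (f t) * Ψz t) + LH H (Eop 0 (m t) * Ψz t) := by
      show LH H (rC k (f t) (f1 t) (m t) * Ψz t) = _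
      rw [rC_eq, add_mul, sub_mul, sub_mul, smul_mul_assoc, map_add, map_sub, map_sub, map_smul]
    have e6 : LH H (f t * (Ψt t + (Ψzz t - (k ^ 2) • Ψ t))) =
        LH H (f t * Ψt t) + (LH H (f t * Ψzz t) - (k ^ 2) • LH H (f t * Ψ t)) := by
      rw [mul_add, mul_sub, mul_smul_comm, map_add, map_sub, map_smul]
    rw [e5, e1, e2, e3, e4, e6, smul_neg]
    ring
  -- integrate
  have i1 : IntervalIntegrable (fun t => LH H (f t * (Ψt t + (Ψzz t - (k ^ 2) • Ψ t))))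
      volume 0 T := by
    have c5 : Continuous (fun t => Ψt t + (Ψzz t - (k ^ 2) • Ψ t)) :=
      cΨt.add (cΨzz.sub (cΨ.const_smul (k ^ 2)))
    have c6 : ContinuousOn (fun t => f t * (Ψt t + (Ψzz t - (k ^ 2) • Ψ t))) (Icc 0 T) :=
      ContinuousOn.mul cf c5.continuousOn
    have c7 : ContinuousOn (fun t => LH H (f t * (Ψt t + (Ψzz t - (k ^ 2) • Ψ t)))) (Icc 0 T) :=
      (LH H).continuous.comp_continuousOn c6
    refine ContinuousOn.intervalIntegrable ?_
    rw [uIcc_of_le hT]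
    exact c7
  have i2 : IntervalIntegrable (fun t => LH H (m t * Ψ t)) volume 0 T := by
    obtain ⟨RΨ, hRΨ⟩ := isCompact_Icc.exists_bound_of_continuousOn (cΨ.continuousOn (s := Icc 0 T))
    have c6 : ContinuousOn (fun t => m t * Ψ t) (Icc 0 T \ J) :=
      ContinuousOn.mul cm cΨ.continuousOn
    have c7 : ContinuousOn (fun t => LH H (m t * Ψ t)) (Icc 0 T \ J) :=
      (LH H).continuous.comp_continuousOn c6
    refine ii_ci (R := ‖LH H‖ * (R * RΨ)) hJ c7 (fun t ht => ?_) hT0 ⟨hT, le_rfl⟩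
    have h1 := bm t ht
    have h2 := hRΨ t ht.1
    have h3 : 0 ≤ R := (norm_nonneg _).trans h1
    have h4 : ‖m t * Ψ t‖ ≤ R * RΨ :=
      (norm_mul_le _ _).trans (mul_le_mul h1 h2 (norm_nonneg _) h3)
    exact ((LH H).le_opNorm _).trans (mul_le_mul_of_nonneg_left h4 (norm_nonneg _))
  have i3 : IntervalIntegrable (fun t => LH H (f t * Ψt t) - LH H (r t * Ψz t)) volume 0 T := by
    refine (i1.add i2).congr_ae ?_
    rw [uIoc_of_le hT, Filter.EventuallyEq, ae_restrict_iff' measurableSet_Ioc]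
    filter_upwards [ae_notMem_countable hJ] with t ht ht'
    exact (eB t ⟨⟨ht'.1.le, ht'.2⟩, ht⟩).symm
  have hfin := integral_eq_of_hasDerivAt_off_countable_of_le A _ hT hJ cA dA i3
  have hAT : A T = 0 := by
    have h1 : Ψ T = 0 := ci_ext fun z hz => by
      rw [hΨ, ex_cvM _ _ _ hz, ex_zero]
      exact hsupp T z fun h => by linarith [h.1.2]
    show LH H (f T * Ψ T) = 0
    rw [h1, mul_zero, map_zero]
  have hA0 : A 0 = 0 := by
    have h1 : Ψ 0 = 0 := ci_ext fun z hz => by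
      rw [hΨ, ex_cvM _ _ _ hz, ex_zero]
      exact hsupp 0 z fun h => by linarith [h.1.1]
    show LH H (f 0 * Ψ 0) = 0
    rw [h1, mul_zero, map_zero]
  rw [hAT, hA0, sub_zero] at hfin
  have hfin2 : (∫ t in (0:ℝ)..T, (LH H (f t * (Ψt t + (Ψzz t - (k ^ 2) • Ψ t))) +
      LH H (m t * Ψ t))) = 0 := by
    rw [← hfin]
    refine intervalIntegral.integral_congr_ae ?_
    filter_upwards [ae_notMem_countable hJ] with t ht ht'
    rw [uIoc_of_le hT] at ht'
    exact (eB t ⟨⟨ht'.1.le, ht'.2⟩, ht⟩).symm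
  rw [intervalIntegral.integral_add i1 i2] at hfin2
  have e1 : (∫ t in (0:ℝ)..T, LH H (f t * (Ψt t + (Ψzz t - (k ^ 2) • Ψ t)))) =
      ∫ t in (0:ℝ)..T, ∫ z in (0:ℝ)..H, ex (f t) z *
        (ψt t z + (ψzz t z - ((k ^ 2 : ℝ) : ℂ) * ψ t z)) := by
    refine intervalIntegral.integral_congr fun t _ => ?_
    rw [LH_apply]
    refine intervalIntegral.integral_congr fun z hz => ?_
    rw [uIcc_of_le hH0.le] at hz
    rw [ex_mul, ex_add, ex_sub, ex_rsmul, hΨ, hΨt, hΨzz, ex_cvM _ _ _ hz, ex_cvM _ _ _ hz,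
      ex_cvM _ _ _ hz]
  have e2 : (∫ t in (0:ℝ)..T, LH H (m t * Ψ t)) =
      ∫ t in (0:ℝ)..T, ∫ z in (0:ℝ)..H, ex (m t) z * ψ t z := by
    refine intervalIntegral.integral_congr fun t _ => ?_
    rw [LH_apply]
    refine intervalIntegral.integral_congr fun z hz => ?_
    rw [uIcc_of_le hH0.le] at hz
    rw [ex_mul, hΨ, ex_cvM _ _ _ hz]
  rw [e1, e2] at hfin2
  exact eq_neg_of_add_eq_zero_left hfin2

end

end Tst

open Tst

section
variable {H : ℝ} [hH : Fact (0 < H)]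

/-! FD-4: the tested equations of one mode. -/

theorem tested {ω T : ℝ} {J : Set ℝ} {P : ℝ → ℝ} {G : ℝ → ℤ → Yn H} {u : ℝ → L1 (Xn H)}
    (hT : 0 ≤ T) (h : LT ω 0 T J P G u) (n : ℤ) {ψ ψt ψz ψzz : ℝ → ℝ → ℂ} (c0 : Continuous (uncurry ψ))
    (c1 : Continuous (uncurry ψt)) (c2 : Continuous (uncurry ψz)) (c3 : Continuous (uncurry ψzz))
    (dt : ∀ t z, HasDerivAt (fun t => ψ t z) (ψt t z) t)
    (dz : ∀ t z, HasDerivAt (fun z => ψ t z) (ψz t z) z)
    (dzz : ∀ t z, HasDerivAt (fun z => ψz t z) (ψzz t z) z) {a b c d : ℝ} (ha : 0 < a) (hb : b < T)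
    (hc : 0 < c) (hd : d < H) (hsupp : ∀ t z, ¬(t ∈ Icc a b ∧ z ∈ Icc c d) → ψ t z = 0) :
    (∫ t in (0:ℝ)..T, ∫ z in (0:ℝ)..H, ex (u t n).1.1 z *
        (ψt t z + (ψzz t z - (((ω * n) ^ 2 : ℝ) : ℂ) * ψ t z)) =
      -∫ t in (0:ℝ)..T, ∫ z in (0:ℝ)..H, (ex (G t n).1 z + if n = 0 then (P t : ℂ) else 0) * ψ t z) ∧
    (∫ t in (0:ℝ)..T, ∫ z in (0:ℝ)..H, ex (u t n).2.1 z *
        (ψt t z + (ψzz t z - (((ω * n) ^ 2 : ℝ) : ℂ) * ψ t z)) =
      -∫ t in (0:ℝ)..T, ∫ z in (0:ℝ)..H, ex (G t n).2 z * ψ t z) := by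
  obtain ⟨R, hR⟩ := h.bd
  have cY : ContinuousOn (fun t => jn (u t n)) (Icc 0 T) :=
    (evN (Yn H) n).continuous.comp_continuousOn h.cY
  have cf1 : ContinuousOn (fun t => (u t n).1.1) (Icc 0 T) := by
    have h1 : ContinuousOn (fun t => (jn (u t n)).1) (Icc 0 T) := cY.fst
    exact h1
  have cf2 : ContinuousOn (fun t => (u t n).2.1) (Icc 0 T) := by
    have h1 : ContinuousOn (fun t => (jn (u t n)).2) (Icc 0 T) := cY.snd
    exact h1
  have cX : ContinuousOn (fun t => u t n) (Icc 0 T \ J) :=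
    (evN (Xn H) n).continuous.comp_continuousOn h.cX
  have bX : ∀ t ∈ Icc 0 T \ J, ‖u t n‖ ≤ R := fun t ht =>
    (norm_le_l1 n (u t)).trans (hR t ht).2.1
  constructor
  · have key := tested_aux (k := ω * n) (R := R + R) h.count (f := fun t => (u t n).1.1)
      (f1 := fun t => (u t n).1.2.1)
      (m := fun t => (G t n).1 + cst H (if n = 0 then (P t : ℂ) else 0)) hT
      cf1
      ((continuous_fst.comp (continuous_snd.comp continuous_fst)).comp_continuousOn cX)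
      ?_ ?_ ?_ (fun t ht => (h.cm t ht n).d1) ?_ c0 c1 c2 c3 dt dz dzz ha hb hc hd hsupp
    · rw [key]
      congr 1
    · refine (continuous_fst.comp_continuousOn (h.cG n)).add
        ((cst H).continuous.comp_continuousOn ?_)
      by_cases hn : n = 0
      · simp only [hn, if_true]
        exact Complex.continuous_ofReal.comp_continuousOn h.cP
      · simp only [hn, if_false]
        exact continuousOn_const
    · intro t ht
      have h1 := (hR t ht).2.1
      have h2 : 0 ≤ R := (norm_nonneg _).trans h1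
      have h3 : ‖(u t n).1.2.1‖ ≤ ‖u t n‖ :=
        (norm_fst_le _).trans ((norm_snd_le _).trans (norm_fst_le _))
      linarith [bX t ht]
    · intro t ht
      refine (norm_add_le _ _).trans (add_le_add ((norm_fst_le _).trans ((hR t ht).2.2 n)) ?_)
      refine (ci_norm_le (norm_nonneg (if n = 0 then (P t : ℂ) else 0)) fun z _ => le_rfl).trans ?_
      split_ifs
      · rw [Complex.norm_real]
        exact (hR t ht).1
      · rw [norm_zero]
        exact (norm_nonneg _).trans (hR t ht).2.1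
    · intro y hy t1 ht1 t2 ht2
      rw [h.eq n y hy t1 ht1 t2 ht2]
      refine intervalIntegral.integral_congr fun s _ => ?_
      simp only [rh, prim_add]
      have e1 : prim (cst H (if n = 0 then (P s : ℂ) else 0)) y =
          if n = 0 then ((P s * y : ℝ) : ℂ) else 0 := by
        have e2 : prim (cst H (if n = 0 then (P s : ℂ) else 0)) y =
            ∫ z in (0:ℝ)..y, (if n = 0 then (P s : ℂ) else 0) := rfl
        rw [e2, intervalIntegral.integral_const, sub_zero, Complex.real_smul]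
        split_ifs
        · push_cast
          ring
        · rw [mul_zero]
      rw [e1]
      ring
  · have key := tested_aux (k := ω * n) (R := R) h.count (f := fun t => (u t n).2.1)
      (f1 := fun t => (u t n).2.2.1)
      (m := fun t => (G t n).2) hT
      cf2
      ((continuous_fst.comp (continuous_snd.comp continuous_snd)).comp_continuousOn cX)
      (continuous_snd.comp_continuousOn (h.cG n)) ?_
      (fun t ht => (norm_snd_le _).trans ((hR t ht).2.2 n))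
      (fun t ht => (h.cm t ht n).d2) (fun y hy t1 ht1 t2 ht2 => h.eq' n y hy t1 ht1 t2 ht2)
      c0 c1 c2 c3 dt dz dzz ha hb hc hd hsupp
    · exact key
    · intro t ht
      have h3 : ‖(u t n).2.2.1‖ ≤ ‖u t n‖ :=
        (norm_fst_le _).trans ((norm_snd_le _).trans (norm_snd_le _))
      exact h3.trans (bX t ht)

end

end Pool.Agent.Lib.MP_79abb3_an.P25
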