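import Pool.Agent.Lib.MP_79abb3_an.P25.FldDef

/-!
Weak solutions in `(t, y, z)`.
-/

set_option autoImplicit false
set_option linter.unusedSectionVars false

open MeasureTheory Set Filter Topology Function

namespace Pool.Agent.Lib.MP_79abb3_an.P25

/-- Continuous functions `g, h, v, w` of `(t,y,z)` for which `(x g + h, v, w)` is a weak solution. -/
structure Weak (T H : ℝ) (g h v w : ℝ × ℝ × ℝ → ℝ) : Prop where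
  cg : ContinuousOn g (Icc 0 T ×ˢ (univ ×ˢ Icc 0 H))
  ch : ContinuousOn h (Icc 0 T ×ˢ (univ ×ˢ Icc 0 H))
  cv : ContinuousOn v (Icc 0 T ×ˢ (univ ×ˢ Icc 0 H))
  cw : ContinuousOn w (Icc 0 T ×ˢ (univ ×ˢ Icc 0 H))
  wd : ∀ Ψ, IsT3 T H Ψ → ∫ q, (-(g q * Ψ q) + v q * py Ψ q + w q * pz Ψ q) = 0
  wg : ∀ Ψ, IsT3 T H Ψ → (∀ t, ∫ p : ℝ × ℝ, Ψ (t, p) = 0) →
    ∫ q, (g q * (pt Ψ q + (py (py Ψ) q + pz (pz Ψ) q)) +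
      (g q * (v q * py Ψ q + w q * pz Ψ q) - 2 * g q * g q * Ψ q)) = 0
  wh : ∀ Ψ, IsT3 T H Ψ →
    ∫ q, (h q * (pt Ψ q + (py (py Ψ) q + pz (pz Ψ) q)) +
      (h q * (v q * py Ψ q + w q * pz Ψ q) - 2 * g q * h q * Ψ q)) = 0
  wv : ∀ Φ₂ Φ₃, IsT3 T H Φ₂ → IsT3 T H Φ₃ → (∀ q, py Φ₂ q + pz Φ₃ q = 0) →
    ∫ q, ((v q * (pt Φ₂ q + (py (py Φ₂) q + pz (pz Φ₂) q)) +
        w q * (pt Φ₃ q + (py (py Φ₃) q + pz (pz Φ₃) q))) +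
      (-(g q * (v q * Φ₂ q + w q * Φ₃ q)) + v q * (v q * py Φ₂ q + w q * pz Φ₂ q) +
        w q * (v q * py Φ₃ q + w q * pz Φ₃ q))) = 0

end Pool.Agent.Lib.MP_79abb3_an.P25
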