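import Pool.Agent.Lib.MP_79abb3_an.P25.FieldAt
import Pool.Agent.Lib.MP_79abb3_an.P25.PairAlg
import Pool.Agent.Lib.MP_79abb3_an.P25.Pairing
import Pool.Agent.Lib.MP_79abb3_an.P25.Parts
import Pool.Agent.Lib.MP_79abb3_an.P25.Tested
import Pool.Agent.Lib.MP_79abb3_an.P25.WeakDef

/-!
Mode solutions give weak solutions (FD-7).
-/

set_option autoImplicit false
set_option linter.unusedSectionVars false

attribute [-instance] PreLp.ring SubfieldClass.toSubringClass SubringClass.toSubsemiringClass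
  NonUnitalSubringClass.toNonUnitalSubsemiringClass RingConeClass.toSubsemiringClass
  SubsemiringClass.nonUnitalSubsemiringClass SubringClass.nonUnitalSubringClass
  AddSubgroup.seminormedAddCommGroup SetLike.GradeZero.instSemiring SetLike.GradeZero.instCommRing
  SetLike.GradeZero.instCommSemiring SetLike.GradeZero.instRing LieAdmissibleAlgebra.toModule
  RightPreLieAlgebra.toModule LeftPreLieAlgebra.toModule

open MeasureTheory Set Filter Topology Function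

namespace Pool.Agent.Lib.MP_79abb3_an.P25

section
variable {H : ℝ} [hH : Fact (0 < H)]

/-! Test functions. -/

theorem IsT3.wm_add {T : ℝ} {Ψ Φ : ℝ × ℝ × ℝ → ℝ} (h : IsT3 T H Ψ) (h' : IsT3 T H Φ) :
    IsT3 T H (fun q => Ψ q + Φ q) where
  smooth := h.smooth.add h'.smooth
  cpt := h.cpt.add h'.cpt
  supp := by
    have h1 : tsupport (fun q => Ψ q + Φ q) ⊆ tsupport Ψ ∪ tsupport Φ := by
      refine closure_minimal ?_ ((isClosed_tsupport _).union (isClosed_tsupport _))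
      exact (support_add Ψ Φ).trans (union_subset_union subset_closure subset_closure)
    exact h1.trans (union_subset h.supp h'.supp)

/-- The heat operator. -/
noncomputable def Lop (Ψ : ℝ × ℝ × ℝ → ℝ) (q : ℝ × ℝ × ℝ) : ℝ :=
  pt Ψ q + (py (py Ψ) q + pz (pz Ψ) q)

theorem IsT3.wm_L {T : ℝ} {Ψ : ℝ × ℝ × ℝ → ℝ} (h : IsT3 T H Ψ) : IsT3 T H (Lop Ψ) :=
  h.d_t.wm_add (h.d_y.d_y.wm_add h.d_z.d_z)

theorem IsT3.wm_zero {T : ℝ} {Ψ : ℝ × ℝ × ℝ → ℝ} (h : IsT3 T H Ψ) {t : ℝ} (ht : t ∉ Ioo 0 T)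
    (p : ℝ × ℝ) : Ψ (t, p) = 0 := by
  refine image_eq_zero_of_notMem_tsupport fun hm => ht ?_
  exact (h.supp hm).1

theorem IsT3.wm_zero' {T : ℝ} {Ψ : ℝ × ℝ × ℝ → ℝ} (h : IsT3 T H Ψ) {z : ℝ} (hz : z ∉ Ioo 0 H)
    (t y : ℝ) : Ψ (t, y, z) = 0 := by
  refine image_eq_zero_of_notMem_tsupport fun hm => hz ?_
  exact (h.supp hm).2.2

theorem IsT3.wm_slice {T : ℝ} {Ψ : ℝ × ℝ × ℝ → ℝ} (h : IsT3 T H Ψ) (ω : ℝ) (n : ℤ) (t z : ℝ) :
    Integrable (fun y : ℝ => ((Ψ (t, y, z) : ℝ) : ℂ) * ee ω n y) := by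
  have he := fld_ee_continuous ω n
  have hc : Continuous fun y : ℝ => (t, y, z) := by fun_prop
  have h0 := h.smooth.continuous
  refine Continuous.integrable_of_hasCompactSupport (by fun_prop) ?_
  have hcl : IsClosedEmbedding fun y : ℝ => (t, y, z) := by
    refine IsClosedEmbedding.of_continuous_injective_isClosedMap hc ?_ ?_
    · intro a b hab
      simpa using hab
    · intro C hC
      have : (fun y : ℝ => (t, y, z)) '' C = ({t} : Set ℝ) ×ˢ (C ×ˢ ({z} : Set ℝ)) := by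
        ext ⟨a, b, c⟩
        simp only [mem_image, Prod.mk.injEq, mem_prod, mem_singleton_iff]
        constructor
        · rintro ⟨y, hy, rfl, rfl, rfl⟩
          exact ⟨rfl, hy, rfl⟩
        · rintro ⟨rfl, hy, rfl⟩
          exact ⟨b, hy, rfl, rfl, rfl⟩
      rw [this]
      exact isClosed_singleton.prod (hC.prod isClosed_singleton)
  have h1 := h.cpt.comp_isClosedEmbedding hcl
  have h2 : HasCompactSupport fun y : ℝ => ((Ψ (t, y, z) : ℝ) : ℂ) :=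
    h1.comp_left (g := fun x : ℝ => (x : ℂ)) Complex.ofReal_zero
  exact h2.mul_right

theorem IsT3.wm_hat_add {T : ℝ} {Ψ Φ : ℝ × ℝ × ℝ → ℝ} (h : IsT3 T H Ψ) (h' : IsT3 T H Φ) (ω : ℝ)
    (n : ℤ) (t z : ℝ) : hat ω (fun q => Ψ q + Φ q) n t z = hat ω Ψ n t z + hat ω Φ n t z := by
  unfold hat
  rw [← integral_add (h.wm_slice ω n t z) (h'.wm_slice ω n t z)]
  refine integral_congr_ae (ae_of_all _ fun y => ?_)
  simp only
  push_cast
  ring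

theorem IsT3.wm_hat_L {T : ℝ} {Ψ : ℝ × ℝ × ℝ → ℝ} (h : IsT3 T H Ψ) (ω : ℝ) (n : ℤ) (t z : ℝ) :
    hat ω (Lop Ψ) n t z = hat ω (pt Ψ) n t z + (hat ω (pz (pz Ψ)) n t z -
      (((ω * n) ^ 2 : ℝ) : ℂ) * hat ω Ψ n t z) := by
  have h1 : hat ω (Lop Ψ) n t z = hat ω (pt Ψ) n t z +
      hat ω (fun q => py (py Ψ) q + pz (pz Ψ) q) n t z :=
    h.d_t.wm_hat_add (h.d_y.d_y.wm_add h.d_z.d_z) ω n t z
  have h2 : hat ω (fun q => py (py Ψ) q + pz (pz Ψ) q) n t z =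
      hat ω (py (py Ψ)) n t z + hat ω (pz (pz Ψ)) n t z :=
    h.d_y.d_y.wm_hat_add h.d_z.d_z ω n t z
  rw [h1, h2, h.d_y.hat_y, h.hat_y]
  push_cast
  have hI : Complex.I * Complex.I = -1 := Complex.I_mul_I
  linear_combination ((ω : ℂ) ^ 2 * (n : ℂ) ^ 2 * hat ω Ψ n t z) * hI

/-- Derivatives commute. -/
theorem wm_comm {Ψ : ℝ × ℝ × ℝ → ℝ} (h : ContDiff ℝ ((⊤ : ℕ∞) : WithTop ℕ∞) Ψ) (a b q : ℝ × ℝ × ℝ) :
    fderiv ℝ (fun q => fderiv ℝ Ψ q a) q b = fderiv ℝ (fun q => fderiv ℝ Ψ q b) q a := by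
  have hle : (2 : WithTop ℕ∞) ≤ ((⊤ : ℕ∞) : WithTop ℕ∞) :=
    WithTop.coe_le_coe.2 (le_top (a := (2 : ℕ∞)))
  have h1 : ContDiff ℝ 1 (fderiv ℝ Ψ) := (h.of_le hle).fderiv_right (m := 1) (by norm_num)
  have h2 : DifferentiableAt ℝ (fderiv ℝ Ψ) q := (h1.differentiable one_ne_zero) q
  have e : ∀ a : ℝ × ℝ × ℝ, fderiv ℝ (fun q => fderiv ℝ Ψ q a) q b =
      fderiv ℝ (fderiv ℝ Ψ) q b a := by
    intro a
    rw [fderiv_clm_apply h2 (differentiableAt_const a)]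
    simp
  have e' : ∀ b : ℝ × ℝ × ℝ, fderiv ℝ (fun q => fderiv ℝ Ψ q b) q a =
      fderiv ℝ (fderiv ℝ Ψ) q a b := by
    intro b
    rw [fderiv_clm_apply h2 (differentiableAt_const b)]
    simp
  have hs : IsSymmSndFDerivAt ℝ Ψ q := h.contDiffAt.isSymmSndFDerivAt (by
    simpa using hle)
  rw [e, e']
  exact hs b a

theorem wm_neg (Ψ : ℝ × ℝ × ℝ → ℝ) (a q : ℝ × ℝ × ℝ) :
    fderiv ℝ (fun q => -Ψ q) q a = -fderiv ℝ Ψ q a := by
  rw [fderiv_fun_neg]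
  rfl

/-- The divergence of `(L Φ₂, L Φ₃)` vanishes. -/
theorem wm_div_L {T : ℝ} {Φ₂ Φ₃ : ℝ × ℝ × ℝ → ℝ} (h2 : IsT3 T H Φ₂) (h3 : IsT3 T H Φ₃)
    (hdiv : ∀ q, py Φ₂ q + pz Φ₃ q = 0) (q : ℝ × ℝ × ℝ) : py (Lop Φ₂) q + pz (Lop Φ₃) q = 0 := by
  have hf : py Φ₂ = fun q => -pz Φ₃ q := by
    funext q
    linarith [hdiv q]
  have dd : ∀ {Ψ : ℝ × ℝ × ℝ → ℝ}, IsT3 T H Ψ → ∀ q, DifferentiableAt ℝ Ψ q := fun h q =>
    (h.smooth.differentiable (by simp)) q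
  have add3 : ∀ {A B C : ℝ × ℝ × ℝ → ℝ}, IsT3 T H A → IsT3 T H B → IsT3 T H C → ∀ a q,
      fderiv ℝ (fun q => A q + (B q + C q)) q a =
        fderiv ℝ A q a + (fderiv ℝ B q a + fderiv ℝ C q a) := by
    intro A B C hA hB hC a q
    have hBC : DifferentiableAt ℝ (fun q => B q + C q) q := (dd hB q).add (dd hC q)
    rw [fderiv_fun_add (dd hA q) hBC, fderiv_fun_add (dd hB q) (dd hC q)]
    rfl
  have e2 : py (Lop Φ₂) q = py (pt Φ₂) q + (py (py (py Φ₂)) q + py (pz (pz Φ₂)) q) :=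
    add3 h2.d_t h2.d_y.d_y h2.d_z.d_z _ q
  have e3 : pz (Lop Φ₃) q = pz (pt Φ₃) q + (pz (py (py Φ₃)) q + pz (pz (pz Φ₃)) q) :=
    add3 h3.d_t h3.d_y.d_y h3.d_z.d_z _ q
  have c1 : ∀ {Ψ : ℝ × ℝ × ℝ → ℝ}, IsT3 T H Ψ → py (pt Ψ) = pt (py Ψ) := fun h =>
    funext fun q => wm_comm h.smooth _ _ q
  have c2 : ∀ {Ψ : ℝ × ℝ × ℝ → ℝ}, IsT3 T H Ψ → pz (pt Ψ) = pt (pz Ψ) := fun h =>
    funext fun q => wm_comm h.smooth _ _ q
  have c3 : ∀ {Ψ : ℝ × ℝ × ℝ → ℝ}, IsT3 T H Ψ → pz (py Ψ) = py (pz Ψ) := fun h =>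
    funext fun q => wm_comm h.smooth _ _ q
  have f1 : py (pt Φ₂) q = -pt (pz Φ₃) q := by
    rw [c1 h2, hf]
    exact wm_neg _ _ _
  have f2 : py (pz (pz Φ₂)) q = -pz (pz (pz Φ₃)) q := by
    rw [← c3 h2.d_z, ← c3 h2, hf]
    have : pz (fun q => -pz Φ₃ q) = fun q => -pz (pz Φ₃) q := funext fun q => wm_neg _ _ _
    rw [this]
    exact wm_neg _ _ _
  have f3 : py (py (py Φ₂)) q = -py (py (pz Φ₃)) q := by
    rw [hf]
    have : py (fun q => -pz Φ₃ q) = fun q => -py (pz Φ₃) q := funext fun q => wm_neg _ _ _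
    rw [this]
    exact wm_neg _ _ _
  have f4 : pz (py (py Φ₃)) q = py (py (pz Φ₃)) q := by
    rw [c3 h3.d_y, c3 h3]
  rw [e2, e3, f1, f2, f3, f4, c2 h3]
  ring

/-- The relation between the Fourier coefficients of a divergence free pair. -/
theorem wm_hat_div {T : ℝ} {Φ₂ Φ₃ : ℝ × ℝ × ℝ → ℝ} (h2 : IsT3 T H Φ₂) (h3 : IsT3 T H Φ₃)
    (hdiv : ∀ q, py Φ₂ q + pz Φ₃ q = 0) (ω : ℝ) (n : ℤ) (t z : ℝ) :
    HasDerivAt (fun z => hat ω Φ₃ n t z)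
      (Complex.I * ((ω * n : ℝ) : ℂ) * hat ω Φ₂ n t z) z := by
  have h4 := h3.hat_z ω n t z
  have h5 : hat ω (pz Φ₃) n t z = Complex.I * ((ω * n : ℝ) : ℂ) * hat ω Φ₂ n t z := by
    have h6 : hat ω (pz Φ₃) n t z = -hat ω (py Φ₂) n t z := by
      unfold hat
      rw [← integral_neg]
      refine integral_congr_ae (ae_of_all _ fun y => ?_)
      have : pz Φ₃ (t, y, z) = -py Φ₂ (t, y, z) := by linarith [hdiv (t, y, z)]
      simp only [this]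
      push_cast
      ring
    rw [h6, h2.hat_y]
    ring
  rw [h5] at h4
  exact h4

theorem IsT3.wm_hat_zero {T : ℝ} {Ψ : ℝ × ℝ × ℝ → ℝ} (h : IsT3 T H Ψ) {z : ℝ} (hz : z ∉ Ioo 0 H)
    (ω : ℝ) (n : ℤ) (t : ℝ) : hat ω Ψ n t z = 0 := by
  unfold hat
  simp [h.wm_zero' hz]

/-- The zero mode of the second component of a divergence free pair. -/
theorem wm_hat_zero_mode {T : ℝ} {Φ₂ Φ₃ : ℝ × ℝ × ℝ → ℝ} (h2 : IsT3 T H Φ₂) (h3 : IsT3 T H Φ₃)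
    (hdiv : ∀ q, py Φ₂ q + pz Φ₃ q = 0) (ω : ℝ) (t z : ℝ) : hat ω Φ₃ 0 t z = 0 := by
  have h4 : ∀ z, HasDerivAt (fun z => hat ω Φ₃ 0 t z) 0 z := by
    intro z
    have := wm_hat_div h2 h3 hdiv ω 0 t z
    simpa using this
  have h5 := is_const_of_deriv_eq_zero (fun z => (h4 z).differentiableAt) (fun z => (h4 z).deriv) z 0
  rw [show hat ω Φ₃ 0 t z = hat ω Φ₃ 0 t 0 from h5]
  exact h3.wm_hat_zero (fun h => lt_irrefl _ h.1) ω 0 t

/-! Integrability. -/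

theorem wm_int1 {T : ℝ} {F : ℝ × ℝ × ℝ → ℝ} (hF : ContinuousOn F (Icc 0 T ×ˢ univ))
    {Θ : ℝ × ℝ × ℝ → ℝ} (hΘ : IsT3 T H Θ) : Integrable (fun q => F q * Θ q) := by
  have hsub : tsupport Θ ⊆ Icc 0 T ×ˢ univ := fun q hq => ⟨Ioo_subset_Icc_self (hΘ.supp hq).1, trivial⟩
  have h1 : IntegrableOn (fun q => F q * Θ q) (tsupport Θ) :=
    ((hF.mono hsub).mul hΘ.smooth.continuous.continuousOn).integrableOn_compact hΘ.cpt
  refine (integrableOn_iff_integrable_of_support_subset ?_).1 h1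
  intro q hq
  refine subset_closure ?_
  rw [mem_support] at hq ⊢
  exact right_ne_zero_of_mul hq

theorem IsT3.wm_int {T : ℝ} {Θ : ℝ × ℝ × ℝ → ℝ} (hΘ : IsT3 T H Θ) : Integrable Θ :=
  hΘ.smooth.continuous.integrable_of_hasCompactSupport hΘ.cpt

theorem wm_null {J : Set ℝ} (hJ : J.Countable) : ∀ᵐ q : ℝ × ℝ × ℝ, q.1 ∉ J := by
  have h : (volume : Measure (ℝ × ℝ × ℝ)) (J ×ˢ (univ : Set (ℝ × ℝ))) = 0 := by
    rw [Measure.volume_eq_prod, Measure.prod_prod, hJ.measure_zero, zero_mul]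
  have h2 := measure_eq_zero_iff_ae_notMem.1 h
  filter_upwards [h2] with q hq hq1
  exact hq ⟨hq1, trivial⟩

theorem wm_term_cont {S : Set ℝ} {ω : ℝ} {a : ℝ → ℤ → CI H} {n : ℤ}
    (hc : ContinuousOn (fun t => a t n) S) :
    ContinuousOn (fun q : ℝ × ℝ × ℝ => ex (a q.1 n) q.2.2 * ee ω n q.2.1) (S ×ˢ univ) := by
  have h1 := continuousOn_ex hc
  have h2 : ContinuousOn (fun q : ℝ × ℝ × ℝ => ex (a q.1 n) q.2.2) (S ×ˢ univ) :=
    h1.comp (f := fun q : ℝ × ℝ × ℝ => (q.1, q.2.2)) (by fun_prop) (fun q hq => ⟨hq.1, trivial⟩)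
  exact h2.mul ((fld_ee_continuous ω n).comp (by fun_prop : Continuous fun q : ℝ × ℝ × ℝ => q.2.1)).continuousOn

theorem wm_meas {S : Set ℝ} (hS : MeasurableSet S) {ω : ℝ} {a : ℝ → ℤ → CI H}
    (ha : ∀ t ∈ S, Summable fun n => ‖a t n‖) (hc : ∀ n, ContinuousOn (fun t => a t n) S) :
    AEStronglyMeasurable (fun q : ℝ × ℝ × ℝ => fld ω (a q.1) q.2.1 q.2.2)
      (volume.restrict (S ×ˢ univ)) := by
  have hS2 : MeasurableSet (S ×ˢ (univ : Set (ℝ × ℝ))) := hS.prod MeasurableSet.univ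
  have h1 : AEStronglyMeasurable (fun q : ℝ × ℝ × ℝ => ∑' n : ℤ, ex (a q.1 n) q.2.2 * ee ω n q.2.1)
      (volume.restrict (S ×ˢ univ)) := by
    refine aestronglyMeasurable_of_tendsto_ae (atTop : Filter (Finset ℤ))
      (f := fun s q => ∑ n ∈ s, ex (a q.1 n) q.2.2 * ee ω n q.2.1) ?_ ?_
    · intro s
      refine ContinuousOn.aestronglyMeasurable ?_ hS2
      exact continuousOn_finsetSum _ fun n _ => wm_term_cont (hc n)
    · refine (ae_restrict_iff' hS2).2 (ae_of_all _ fun q hq => ?_)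
      have h2 : Summable fun n : ℤ => ex (a q.1 n) q.2.2 * ee ω n q.2.1 := by
        refine Summable.of_norm_bounded (ha q.1 hq.1) fun n => ?_
        rw [norm_mul, ee_norm, mul_one]
        exact norm_ex_le _ _
      exact h2.hasSum
  exact Complex.continuous_re.comp_aestronglyMeasurable h1

theorem wm_int2 {ω T R : ℝ} {J : Set ℝ} (hJ : J.Countable) {Θ : ℝ × ℝ × ℝ → ℝ} (hΘ : IsT3 T H Θ)
    {a : ℝ → ℤ → CI H} (ha : ∀ t ∈ Icc 0 T \ J, Summable (fun n => ‖a t n‖) ∧ ∑' n, ‖a t n‖ ≤ R)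
    (hc : ∀ n, ContinuousOn (fun t => a t n) (Icc 0 T \ J)) :
    Integrable (fun q : ℝ × ℝ × ℝ => fld ω (a q.1) q.2.1 q.2.2 * Θ q) := by
  set S : Set ℝ := Icc 0 T \ J with hSdef
  have hS : MeasurableSet S := measurableSet_Icc.diff hJ.measurableSet
  have hS2 : MeasurableSet (S ×ˢ (univ : Set (ℝ × ℝ))) := hS.prod MeasurableSet.univ
  have h1 : IntegrableOn (fun q : ℝ × ℝ × ℝ => fld ω (a q.1) q.2.1 q.2.2 * Θ q) (S ×ˢ univ) := by
    refine (hΘ.wm_int.norm.const_mul R).integrableOn.mono'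
      ((wm_meas hS (fun t ht => (ha t ht).1) hc).mul
        hΘ.smooth.continuous.aestronglyMeasurable) ?_
    refine (ae_restrict_iff' hS2).2 (ae_of_all _ fun q hq => ?_)
    rw [norm_mul, Real.norm_eq_abs]
    refine mul_le_mul_of_nonneg_right ?_ (norm_nonneg _)
    exact (fld_abs_le (ha q.1 hq.1).1 _ _).trans (ha q.1 hq.1).2
  have h2 := h1.integrable_indicator hS2
  refine h2.congr ?_
  filter_upwards [wm_null hJ] with q hq
  by_cases hq1 : q ∈ S ×ˢ (univ : Set (ℝ × ℝ))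
  · rw [indicator_of_mem hq1]
  · rw [indicator_of_notMem hq1]
    have : q.1 ∉ Ioo 0 T := fun h => hq1 ⟨⟨Ioo_subset_Icc_self h, hq⟩, trivial⟩
    rw [show Θ q = Θ (q.1, q.2) from rfl, hΘ.wm_zero this, mul_zero]

/-- Fubini. -/
theorem wm_fub {J : Set ℝ} (hJ : J.Countable) {f g : ℝ × ℝ × ℝ → ℝ} (hf : Integrable f)
    (hg : Integrable g) (h : ∀ t ∉ J, ∫ p : ℝ × ℝ, f (t, p) = ∫ p : ℝ × ℝ, g (t, p)) :
    ∫ q, f q = ∫ q, g q := by
  rw [Measure.volume_eq_prod] at hf hg ⊢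
  rw [integral_prod _ hf, integral_prod _ hg]
  refine integral_congr_ae ?_
  filter_upwards [ae_notMem_countable hJ] with t ht using h t ht

/-! Families of modes. -/

theorem wm_W : Wt 1 (fun _ => (1:ℝ)) := ⟨fun _ => le_rfl, fun _ _ => by norm_num, rfl⟩

/-- Convolutions of families bounded by elements of `ℓ¹`. -/
theorem wm_conv {E F : Type} [NormedAddCommGroup E] [NormedAddCommGroup F] {x : ℤ → E} {y : ℤ → F}
    {a b : ℤ → CI H} {c d : ℝ} (hc : 0 ≤ c) (hd : 0 ≤ d) (hx : Summable fun n => ‖x n‖)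
    (hy : Summable fun n => ‖y n‖) (ha : ∀ n, ‖a n‖ ≤ c * ‖x n‖) (hb : ∀ n, ‖b n‖ ≤ d * ‖y n‖) :
    (∀ n, Summable fun m => a m * b (n - m)) ∧ (Summable fun n => ‖conv a b n‖) ∧
      ∑' n, ‖conv a b n‖ ≤ c * d * ((∑' n, ‖x n‖) * ∑' n, ‖y n‖) := by
  have h := conv_img (wm_W) hd hc (x := x) (y := y) (by simpa using hx) (by simpa using hy) ha hb
  simpa using h

theorem wm_add_sum {a b : ℤ → CI H} {A B : ℝ} (ha : (Summable fun n => ‖a n‖) ∧ ∑' n, ‖a n‖ ≤ A)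
    (hb : (Summable fun n => ‖b n‖) ∧ ∑' n, ‖b n‖ ≤ B) :
    (Summable fun n => ‖a n + b n‖) ∧ ∑' n, ‖a n + b n‖ ≤ A + B := by
  have h1 : Summable fun n => ‖a n + b n‖ :=
    Summable.of_nonneg_of_le (fun n => norm_nonneg _) (fun n => norm_add_le _ _) (ha.1.add hb.1)
  refine ⟨h1, ?_⟩
  calc ∑' n, ‖a n + b n‖ ≤ ∑' n, (‖a n‖ + ‖b n‖) :=
        h1.tsum_le_tsum (fun n => norm_add_le _ _) (ha.1.add hb.1)
    _ = (∑' n, ‖a n‖) + ∑' n, ‖b n‖ := ha.1.tsum_add hb.1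
    _ ≤ A + B := add_le_add ha.2 hb.2

theorem wm_sum_le {E : Type} [NormedAddCommGroup E] [NormedSpace ℝ E] {x : L1 (E)} {a : ℤ → CI H} {c : ℝ}
    (ha : ∀ n, ‖a n‖ ≤ c * ‖x n‖) : (Summable fun n => ‖a n‖) ∧ ∑' n, ‖a n‖ ≤ c * ‖x‖ := by
  have hx := (l1_summable x).mul_left c
  have h1 : Summable fun n => ‖a n‖ := Summable.of_nonneg_of_le (fun n => norm_nonneg _) ha hx
  refine ⟨h1, ?_⟩
  rw [l1_norm, ← tsum_mul_left]
  exact h1.tsum_le_tsum ha hx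

theorem wm_mv_le (ω : ℝ) (x : L1 (Xn H)) (n : ℤ) : ‖mv ω x n‖ ≤ (H + 2) * ‖x n‖ := by
  have hH0 := hH.out
  exact (norm_vv_le _ _).trans (mul_le_mul_of_nonneg_left (norm_jn_le _) (by linarith))

theorem wm_mw_le (ω : ℝ) (x : L1 (Xn H)) (n : ℤ) : ‖mw ω x n‖ ≤ (H + 1) * ‖x n‖ := by
  have hH0 := hH.out
  exact (norm_om_le _ _).trans (mul_le_mul_of_nonneg_left (norm_jn_le _) (by linarith))

theorem wm_m1_le (x : L1 (Xn H)) (n : ℤ) : ‖m1 x n‖ ≤ 1 * ‖x n‖ := by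
  rw [one_mul]
  exact (norm_fst_le _).trans (norm_fst_le _)

theorem wm_m1y_le (ω : ℝ) (x : L1 (Xn H)) (n : ℤ) : ‖m1y ω x n‖ ≤ 1 * ‖x n‖ := by
  unfold m1y
  rw [norm_smul]
  have h1 : ‖(x n).1.2.2‖ ≤ ‖x n‖ := (norm_snd_le _).trans ((norm_snd_le _).trans (norm_fst_le _))
  exact mul_le_mul (norm_is_le _) h1 (norm_nonneg _) zero_le_one

theorem wm_m1z_le (x : L1 (Xn H)) (n : ℤ) : ‖m1z x n‖ ≤ 1 * ‖x n‖ := by
  rw [one_mul]
  exact (norm_fst_le _).trans ((norm_snd_le _).trans (norm_fst_le _))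

theorem wm_N0 (ω : ℝ) (x y : L1 (Xn H)) : (Summable fun n => ‖N0 ω x y n‖) ∧
    ∑' n, ‖N0 ω x y n‖ ≤ (2 * H + 4) * (‖x‖ * ‖y‖) := by
  have hH0 := hH.out
  have h1 := wm_conv (by linarith) zero_le_one (l1_summable x) (l1_summable y) (wm_mv_le ω x)
    (wm_m1y_le ω y)
  have h2 := wm_conv (by linarith) zero_le_one (l1_summable x) (l1_summable y) (wm_mw_le ω x)
    (wm_m1z_le y)
  have h3 := wm_conv zero_le_one zero_le_one (l1_summable x) (l1_summable y) (wm_m1_le x)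
    (wm_m1_le y)
  rw [← l1_norm, ← l1_norm] at h1 h2 h3
  have h4 := wm_add_sum (wm_add_sum h1.2 h2.2) h3.2
  refine ⟨h4.1, h4.2.trans (le_of_eq ?_)⟩
  ring

theorem wm_Om_le (ω : ℝ) (x : L1 (Xn H)) (n : ℤ) : ‖Om (ω * n) (x n)‖ ≤ 3 * ‖x n‖ := norm_Om_le _ _

theorem wm_N1 (ω : ℝ) (x y : L1 (Xn H)) : (Summable fun n => ‖N1 ω x y n‖) ∧
    ∑' n, ‖N1 ω x y n‖ ≤ 3 * (H + 1) * (‖x‖ * ‖y‖) := by
  have hH0 := hH.out
  have h1 := wm_conv (by norm_num) (by linarith) (l1_summable x) (l1_summable y) (wm_Om_le ω x)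
    (wm_mw_le ω y)
  rw [← l1_norm, ← l1_norm] at h1
  have e : ∀ n, ‖N1 ω x y n‖ = ‖conv (fun m => Om (ω * m) (x m)) (mw ω y) n‖ := fun n => norm_neg _
  simp_rw [e]
  exact h1.2

theorem wm_N2 (ω : ℝ) (x y : L1 (Xn H)) : (Summable fun n => ‖N2 ω x y n‖) ∧
    ∑' n, ‖N2 ω x y n‖ ≤ 3 * (H + 2) * (‖x‖ * ‖y‖) := by
  have hH0 := hH.out
  have h1 := wm_conv (by norm_num) (by linarith) (l1_summable x) (l1_summable y) (wm_Om_le ω x)
    (wm_mv_le ω y)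
  rw [← l1_norm, ← l1_norm] at h1
  exact h1.2

/-- Convolution as a bounded bilinear map. -/
noncomputable def convB (n : ℤ) : L1 (CI H) →L[ℝ] L1 (CI H) →L[ℝ] CI H :=
  LinearMap.mkContinuous₂
    (LinearMap.mk₂ ℝ (fun a b : L1 (CI H) => conv a b n)
      (fun a a' b => by
        have h1 := (wm_conv zero_le_one zero_le_one (l1_summable a) (l1_summable b)
          (fun n => (one_mul ‖a n‖).ge) (fun n => (one_mul ‖b n‖).ge)).1 n
        have h2 := (wm_conv zero_le_one zero_le_one (l1_summable a') (l1_summable b)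
          (fun n => (one_mul ‖a' n‖).ge) (fun n => (one_mul ‖b n‖).ge)).1 n
        exact conv_add_left h1 h2)
      (fun c a b => conv_smul_left c _ _ _)
      (fun a b b' => by
        have h1 := (wm_conv zero_le_one zero_le_one (l1_summable a) (l1_summable b)
          (fun n => (one_mul ‖a n‖).ge) (fun n => (one_mul ‖b n‖).ge)).1 n
        have h2 := (wm_conv zero_le_one zero_le_one (l1_summable a) (l1_summable b')
          (fun n => (one_mul ‖a n‖).ge) (fun n => (one_mul ‖b' n‖).ge)).1 n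
        exact conv_add_right h1 h2)
      (fun c a b => conv_smul_right c _ _ _))
    1
    (fun a b => by
      have h1 := (wm_conv zero_le_one zero_le_one (l1_summable a) (l1_summable b)
          (fun n => (one_mul ‖a n‖).ge) (fun n => (one_mul ‖b n‖).ge)).2
      have h2 := h1.1.le_tsum n (fun m _ => norm_nonneg _)
      rw [← l1_norm, ← l1_norm] at h1
      show ‖conv a b n‖ ≤ 1 * ‖a‖ * ‖b‖
      calc ‖conv a b n‖ ≤ 1 * 1 * (‖a‖ * ‖b‖) := h2.trans h1.2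
        _ = 1 * ‖a‖ * ‖b‖ := by ring)

theorem convB_apply (n : ℤ) (a b : L1 (CI H)) : convB n a b = conv a b n := rfl

theorem wm_conv_cont {S : Set ℝ} {A B : ℝ → L1 (CI H)} (hA : ContinuousOn A S)
    (hB : ContinuousOn B S) (n : ℤ) : ContinuousOn (fun t => conv (A t) (B t) n) S := by
  have h := (convB (H := H) n).continuous₂.comp_continuousOn (hA.prodMk hB)
  exact h

/-- The vorticity as a continuous linear map. -/
noncomputable def OmC (k : ℝ) : Xn H →L[ℝ] CI H :=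
  LinearMap.mkContinuous
    { toFun := Om k
      map_add' := Om_add k
      map_smul' := fun c x => Om_smul k c x } 3 (norm_Om_le k)

noncomputable def OmL (ω : ℝ) : L1 (Xn H) →L[ℝ] L1 (CI H) :=
  diagL (fun n => OmC (ω * n)) 3 (fun _ x => norm_Om_le _ x)

theorem OmL_apply (ω : ℝ) (x : L1 (Xn H)) : (⇑(OmL ω x) : ℤ → CI H) = fun n : ℤ => Om (ω * n) (x n) := rfl

/-- First components as a family. -/
noncomputable def m1L (H : ℝ) [Fact (0 < H)] : L1 (Yn H) →L[ℝ] L1 (CI H) :=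
  diagL (fun _ => ContinuousLinearMap.fst ℝ (CI H) (CI H)) 1 (fun _ x => by
    rw [one_mul]; exact norm_fst_le x)

theorem m1L_apply (x : L1 (Xn H)) : (⇑(m1L H (jL H x)) : ℤ → CI H) = m1 x := rfl

section LT
variable {ω T : ℝ} {J : Set ℝ} {P : ℝ → ℝ} {G : ℝ → ℤ → Yn H} {u : ℝ → L1 (Xn H)}

theorem LT.wm_m1_cont (h : LT ω 0 T J P G u) :
    ContinuousOn (fun q : ℝ × ℝ × ℝ => fld ω (m1 (u q.1)) q.2.1 q.2.2) (Icc 0 T ×ˢ univ) :=
  fld_cont_time (a := fun t => m1L H (jL H (u t))) ((m1L H).continuous.comp_continuousOn h.cY)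

theorem LT.wm_mv_cont (h : LT ω 0 T J P G u) :
    ContinuousOn (fun q : ℝ × ℝ × ℝ => fld ω (mv ω (u q.1)) q.2.1 q.2.2) (Icc 0 T ×ˢ univ) := by
  obtain ⟨A, hA⟩ := mv_cont (H := H) ω
  have h1 := fld_cont_time (ω := ω) (a := fun t => A (jL H (u t))) (A.continuous.comp_continuousOn h.cY)
  have h2 : ∀ x : L1 (Xn H), (⇑(A (jL H x)) : ℤ → CI H) = mv ω x := fun x => funext fun n => hA x n
  simp_rw [h2] at h1
  exact h1

theorem LT.wm_mw_cont (h : LT ω 0 T J P G u) :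
    ContinuousOn (fun q : ℝ × ℝ × ℝ => fld ω (mw ω (u q.1)) q.2.1 q.2.2) (Icc 0 T ×ˢ univ) := by
  obtain ⟨A, hA⟩ := mw_cont (H := H) ω
  have h1 := fld_cont_time (ω := ω) (a := fun t => A (jL H (u t))) (A.continuous.comp_continuousOn h.cY)
  have h2 : ∀ x : L1 (Xn H), (⇑(A (jL H x)) : ℤ → CI H) = mw ω x := fun x => funext fun n => hA x n
  simp_rw [h2] at h1
  exact h1

theorem LT.wm_m1_n (h : LT ω 0 T J P G u) (n : ℤ) :
    ContinuousOn (fun t => m1 (u t) n) (Icc 0 T) :=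
  ((evN (CI H) n).comp (m1L H)).continuous.comp_continuousOn h.cY

theorem LT.wm_mv_n (h : LT ω 0 T J P G u) (n : ℤ) :
    ContinuousOn (fun t => mv ω (u t) n) (Icc 0 T) := by
  obtain ⟨A, hA⟩ := mv_cont (H := H) ω
  have h1 := ((evN (CI H) n).comp A).continuous.comp_continuousOn h.cY
  have h2 : ∀ x : L1 (Xn H), ((evN (CI H) n).comp A) (jL H x) = mv ω x n := fun x => hA x n
  exact h1.congr fun t _ => (h2 (u t)).symm

theorem LT.wm_mw_n (h : LT ω 0 T J P G u) (n : ℤ) :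
    ContinuousOn (fun t => mw ω (u t) n) (Icc 0 T) := by
  obtain ⟨A, hA⟩ := mw_cont (H := H) ω
  have h1 := ((evN (CI H) n).comp A).continuous.comp_continuousOn h.cY
  have h2 : ∀ x : L1 (Xn H), ((evN (CI H) n).comp A) (jL H x) = mw ω x n := fun x => hA x n
  exact h1.congr fun t _ => (h2 (u t)).symm

theorem LT.wm_N1_n (h : LT ω 0 T J P G u) (n : ℤ) :
    ContinuousOn (fun t => N1 ω (u t) (u t) n) (Icc 0 T \ J) := by
  obtain ⟨A, hA⟩ := mw_cont (H := H) ω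
  have h1 : ContinuousOn (fun t => A (jL H (u t))) (Icc 0 T \ J) :=
    (A.continuous.comp_continuousOn h.cY).mono sdiff_subset
  have h2 : ContinuousOn (fun t => OmL ω (u t)) (Icc 0 T \ J) :=
    (OmL (H := H) ω).continuous.comp_continuousOn h.cX
  have h3 := (wm_conv_cont h2 h1 n).neg
  have e : ∀ x : L1 (Xn H), -conv (⇑(OmL ω x)) (⇑(A (jL H x))) n = N1 ω x x n := by
    intro x
    have e1 : (⇑(A (jL H x)) : ℤ → CI H) = mw ω x := funext fun n => hA x n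
    rw [e1]
    rfl
  exact h3.congr fun t _ => (e (u t)).symm

theorem LT.wm_N2_n (h : LT ω 0 T J P G u) (n : ℤ) :
    ContinuousOn (fun t => N2 ω (u t) (u t) n) (Icc 0 T \ J) := by
  obtain ⟨A, hA⟩ := mv_cont (H := H) ω
  have h1 : ContinuousOn (fun t => A (jL H (u t))) (Icc 0 T \ J) :=
    (A.continuous.comp_continuousOn h.cY).mono sdiff_subset
  have h2 : ContinuousOn (fun t => OmL ω (u t)) (Icc 0 T \ J) :=
    (OmL (H := H) ω).continuous.comp_continuousOn h.cX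
  have h3 := wm_conv_cont h2 h1 n
  have e : ∀ x : L1 (Xn H), conv (⇑(OmL ω x)) (⇑(A (jL H x))) n = N2 ω x x n := by
    intro x
    have e1 : (⇑(A (jL H x)) : ℤ → CI H) = mv ω x := funext fun n => hA x n
    rw [e1]
    rfl
  exact h3.congr fun t _ => (e (u t)).symm

/-- Inner integrals in the time variable. -/
theorem wm_ii {T R : ℝ} {J : Set ℝ} (hJ : J.Countable) (hT : 0 ≤ T) {a : ℝ → CI H}
    (hc : ContinuousOn a (Icc 0 T \ J)) (hb : ∀ t ∈ Icc 0 T \ J, ‖a t‖ ≤ R) {ψ : ℝ → ℝ → ℂ}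
    (cψ : Continuous (uncurry ψ)) :
    IntervalIntegrable (fun t => ∫ z in (0:ℝ)..H, ex (a t) z * ψ t z) volume 0 T := by
  have hH0 := hH.out
  obtain ⟨B, hB⟩ := (isCompact_Icc.prod isCompact_Icc : IsCompact (Icc 0 T ×ˢ Icc 0 H)).exists_bound_of_continuousOn
    cψ.continuousOn
  have hB0 : 0 ≤ B := (norm_nonneg _).trans (hB (0, 0) ⟨⟨le_rfl, hT⟩, ⟨le_rfl, hH0.le⟩⟩)
  have hcont : ContinuousOn (fun t => ∫ z in (0:ℝ)..H, ex (a t) z * ψ t z) (Icc 0 T \ J) := by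
    intro t ht
    have h1 := continuousOn_ex hc
    refine intervalIntegral.continuousWithinAt_of_dominated_interval (bound := fun _ => R * B) ?_ ?_ ?_ ?_
    · refine Eventually.of_forall fun s => ?_
      exact ((continuous_ex (a s)).mul (cψ.comp (by fun_prop : Continuous fun z : ℝ => (s, z)))).aestronglyMeasurable
    · filter_upwards [self_mem_nhdsWithin] with s hs
      refine ae_of_all _ fun z hz => ?_
      rw [uIoc_of_le hH0.le] at hz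
      rw [norm_mul]
      exact mul_le_mul ((norm_ex_le _ _).trans (hb s hs)) (hB (s, z) ⟨hs.1, ⟨hz.1.le, hz.2⟩⟩)
        (norm_nonneg _) ((norm_nonneg _).trans (hb s hs))
    · exact intervalIntegrable_const
    · refine ae_of_all _ fun z _ => ?_
      have h2 : ContinuousWithinAt (fun s => ex (a s) z) (Icc 0 T \ J) t :=
        ((evL z).continuous.comp_continuousOn hc) t ht
      have h3 : ContinuousWithinAt (fun s => ψ s z) (Icc 0 T \ J) t :=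
        (cψ.comp (by fun_prop : Continuous fun s : ℝ => (s, z))).continuousWithinAt
      exact h2.mul h3
  refine ii_of_bdd_cont (R := R * B * H) hJ hcont (fun t ht => ?_) (left_mem_Icc.2 hT) (right_mem_Icc.2 hT)
  refine (intervalIntegral.norm_integral_le_of_norm_le_const (C := R * B) fun z hz => ?_).trans ?_
  · rw [uIoc_of_le hH0.le] at hz
    rw [norm_mul]
    exact mul_le_mul ((norm_ex_le _ _).trans (hb t ht)) (hB (t, z) ⟨ht.1, ⟨hz.1.le, hz.2⟩⟩)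
      (norm_nonneg _) ((norm_nonneg _).trans (hb t ht))
  · rw [sub_zero, abs_of_pos hH0]

theorem wm_zi {a : CI H} {ψ : ℝ → ℂ} (cψ : Continuous ψ) :
    IntervalIntegrable (fun z => ex a z * ψ z) volume 0 H :=
  ((continuous_ex a).mul cψ).intervalIntegrable _ _

/-- Continuity of Fourier coefficients in `z`. -/
theorem IsT3.wm_hat_cz {T : ℝ} {Ψ : ℝ × ℝ × ℝ → ℝ} (h : IsT3 T H Ψ) (ω : ℝ) (n : ℤ) (t : ℝ) :
    Continuous (fun z => hat ω Ψ n t z) :=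
  (h.hat_cont ω n).comp (by fun_prop : Continuous fun z : ℝ => (t, z))

/-- The tested equations. -/
theorem LT.wm_tested (hT : 0 < T) (h : LT ω 0 T J P G u) (n : ℤ) {Ψ Φ : ℝ × ℝ × ℝ → ℝ}
    (hΨ : IsT3 T H Ψ) (hΦ : IsT3 T H Φ) (c : ℂ) :
    (∫ t in (0:ℝ)..T, ∫ z in (0:ℝ)..H, ex (u t n).1.1 z *
        (hat ω (Lop Ψ) n t z - c * hat ω (Lop Φ) n t z) =
      -∫ t in (0:ℝ)..T, ∫ z in (0:ℝ)..H, (ex (G t n).1 z + if n = 0 then (P t : ℂ) else 0) *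
        (hat ω Ψ n t z - c * hat ω Φ n t z)) ∧
    (∫ t in (0:ℝ)..T, ∫ z in (0:ℝ)..H, ex (u t n).2.1 z *
        (hat ω (Lop Ψ) n t z - c * hat ω (Lop Φ) n t z) =
      -∫ t in (0:ℝ)..T, ∫ z in (0:ℝ)..H, ex (G t n).2 z * (hat ω Ψ n t z - c * hat ω Φ n t z)) := by
  obtain ⟨a1, b1, c1, d1, ha1, hab1, hb1, hc1, hcd1, hd1, hs1⟩ := hΨ.hat_supp hT ω
  obtain ⟨a2, b2, c2, d2, ha2, hab2, hb2, hc2, hcd2, hd2, hs2⟩ := hΦ.hat_supp hT ω
  have key := tested (u := u) hT.le h n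
    (ψ := fun t z => hat ω Ψ n t z - c * hat ω Φ n t z)
    (ψt := fun t z => hat ω (pt Ψ) n t z - c * hat ω (pt Φ) n t z)
    (ψz := fun t z => hat ω (pz Ψ) n t z - c * hat ω (pz Φ) n t z)
    (ψzz := fun t z => hat ω (pz (pz Ψ)) n t z - c * hat ω (pz (pz Φ)) n t z)
    ((hΨ.hat_cont ω n).sub (continuous_const.mul (hΦ.hat_cont ω n)))
    ((hΨ.d_t.hat_cont ω n).sub (continuous_const.mul (hΦ.d_t.hat_cont ω n)))
    ((hΨ.d_z.hat_cont ω n).sub (continuous_const.mul (hΦ.d_z.hat_cont ω n)))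
    ((hΨ.d_z.d_z.hat_cont ω n).sub (continuous_const.mul (hΦ.d_z.d_z.hat_cont ω n)))
    (fun t z => (hΨ.hat_t ω n t z).sub ((hΦ.hat_t ω n t z).const_mul c))
    (fun t z => (hΨ.hat_z ω n t z).sub ((hΦ.hat_z ω n t z).const_mul c))
    (fun t z => (hΨ.d_z.hat_z ω n t z).sub ((hΦ.d_z.hat_z ω n t z).const_mul c))
    (a := min a1 a2) (b := max b1 b2) (c := min c1 c2) (d := max d1 d2)
    (lt_min ha1 ha2) (max_lt hb1 hb2) (lt_min hc1 hc2) (max_lt hd1 hd2)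
    (fun t z htz => by
      rw [hs1 n t z, hs2 n t z, mul_zero, sub_zero]
      · intro hm
        exact htz ⟨⟨(min_le_right _ _).trans hm.1.1, hm.1.2.trans (le_max_right _ _)⟩,
          ⟨(min_le_right _ _).trans hm.2.1, hm.2.2.trans (le_max_right _ _)⟩⟩
      · intro hm
        exact htz ⟨⟨(min_le_left _ _).trans hm.1.1, hm.1.2.trans (le_max_left _ _)⟩,
          ⟨(min_le_left _ _).trans hm.2.1, hm.2.2.trans (le_max_left _ _)⟩⟩)
  have e : ∀ t z, hat ω (Lop Ψ) n t z - c * hat ω (Lop Φ) n t z =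
      (hat ω (pt Ψ) n t z - c * hat ω (pt Φ) n t z) +
      ((hat ω (pz (pz Ψ)) n t z - c * hat ω (pz (pz Φ)) n t z) - (((ω * n) ^ 2 : ℝ) : ℂ) *
        (hat ω Ψ n t z - c * hat ω Φ n t z)) := by
    intro t z
    rw [hΨ.wm_hat_L, hΦ.wm_hat_L]
    ring
  simp_rw [e]
  exact key

end LT

section LT
variable {ω T : ℝ} {J : Set ℝ} {P : ℝ → ℝ} {G : ℝ → ℤ → Yn H} {u : ℝ → L1 (Xn H)}

/-- The first equation, tested. -/
theorem LT.wm_scalar (hT : 0 < T) (h : LT ω 0 T J P G u) {N : ℝ → ℤ → CI H} {R' : ℝ}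
    (hN : ∀ t ∈ Icc 0 T \ J, Summable (fun n => ‖N t n‖) ∧ ∑' n, ‖N t n‖ ≤ R')
    (hNc : ∀ n, ContinuousOn (fun t => N t n) (Icc 0 T \ J)) (hG : ∀ t n, (G t n).1 = -N t n)
    {Ψ : ℝ × ℝ × ℝ → ℝ} (hΨ : IsT3 T H Ψ)
    (hP : ∀ t, (P t : ℂ) * ∫ z in (0:ℝ)..H, hat ω Ψ 0 t z = 0) :
    ∫ q : ℝ × ℝ × ℝ, fld ω (m1 (u q.1)) q.2.1 q.2.2 * Lop Ψ q =
      ∫ q : ℝ × ℝ × ℝ, fld ω (N q.1) q.2.1 q.2.2 * Ψ q := by
  obtain ⟨R, hR⟩ := h.bd
  have p1 := pairing (ω := ω) (R := 1 * R) h.count hΨ.wm_L (a := fun t => m1 (u t))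
    (fun t ht => by
      have h1 := wm_sum_le (wm_m1_le (u t))
      have h2 := (hR t ht).2.1
      exact ⟨h1.1, h1.2.trans (by linarith)⟩)
    (fun n => (h.wm_m1_n n).mono sdiff_subset)
  have p2 := pairing (ω := ω) h.count hΨ hN hNc
  rw [p1.2, p2.2]
  congr 1
  refine tsum_congr fun n => ?_
  have h3 := (h.wm_tested hT n hΨ hΨ 0).1
  simp only [zero_mul, sub_zero] at h3
  refine (show _ = _ from h3).trans ?_
  rw [← intervalIntegral.integral_neg]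
  refine intervalIntegral.integral_congr fun t _ => ?_
  have e1 : ∀ z, (ex (G t n).1 z + if n = 0 then (P t : ℂ) else 0) * hat ω Ψ n t z =
      (if n = 0 then (P t : ℂ) else 0) * hat ω Ψ n t z - ex (N t n) z * hat ω Ψ n t z := by
    intro z
    rw [hG, ex_neg]
    ring
  simp_rw [e1]
  have i1 : IntervalIntegrable (fun z => (if n = 0 then (P t : ℂ) else 0) * hat ω Ψ n t z)
      volume 0 H := (continuous_const.mul (hΨ.wm_hat_cz ω n t)).intervalIntegrable _ _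
  rw [intervalIntegral.integral_sub i1 (wm_zi (hΨ.wm_hat_cz ω n t)),
    intervalIntegral.integral_const_mul]
  have e2 : (if n = 0 then (P t : ℂ) else 0) * ∫ z in (0:ℝ)..H, hat ω Ψ n t z = 0 := by
    split_ifs with hn
    · rw [hn]; exact hP t
    · rw [zero_mul]
  rw [e2, zero_sub, neg_neg]

theorem IsT3.wm_slice2 {Ψ : ℝ × ℝ × ℝ → ℝ} (h : IsT3 T H Ψ) (t : ℝ) :
    Integrable (fun p : ℝ × ℝ => Ψ (t, p)) := by
  refine Continuous.integrable_of_hasCompactSupport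
    (h.smooth.continuous.comp (by fun_prop : Continuous fun p : ℝ × ℝ => (t, p))) ?_
  have hcl : IsClosedEmbedding fun p : ℝ × ℝ => (t, p) := by
    refine IsClosedEmbedding.of_continuous_injective_isClosedMap (by fun_prop) ?_ ?_
    · intro a b hab
      simpa using hab
    · intro C hC
      have : (fun p : ℝ × ℝ => (t, p)) '' C = ({t} : Set ℝ) ×ˢ C := by
        ext ⟨a, b⟩
        simp only [mem_image, Prod.mk.injEq, mem_prod, mem_singleton_iff]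
        constructor
        · rintro ⟨y, hy, rfl, rfl⟩
          exact ⟨rfl, hy⟩
        · rintro ⟨rfl, hy⟩
          exact ⟨b, hy, rfl, rfl⟩
      rw [this]
      exact isClosed_singleton.prod hC
  exact h.cpt.comp_isClosedEmbedding hcl

/-- Test functions of mean zero. -/
theorem IsT3.wm_mean {Ψ : ℝ × ℝ × ℝ → ℝ} (h : IsT3 T H Ψ) (hm : ∀ t, ∫ p : ℝ × ℝ, Ψ (t, p) = 0)
    (ω t : ℝ) : ∫ z in (0:ℝ)..H, hat ω Ψ 0 t z = 0 := by
  have e1 : ∀ z, hat ω Ψ 0 t z = ((∫ y, Ψ (t, y, z) : ℝ) : ℂ) := by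
    intro z
    unfold hat
    rw [← integral_complex_ofReal]
    refine integral_congr_ae (ae_of_all _ fun y => ?_)
    simp [ee]
  simp_rw [e1]
  rw [intervalIntegral.integral_ofReal]
  have e2 : ∫ z in (0:ℝ)..H, ∫ y, Ψ (t, y, z) = ∫ p : ℝ × ℝ, Ψ (t, p) := by
    have h2 := h.wm_slice2 t
    rw [Measure.volume_eq_prod] at h2 ⊢
    rw [integral_prod_symm _ h2, intervalIntegral.integral_of_le hH.out.le]
    refine setIntegral_eq_integral_of_forall_compl_eq_zero fun z hz => ?_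
    have : z ∉ Ioo 0 H := fun hz' => hz ⟨hz'.1, hz'.2.le⟩
    simp [h.wm_zero' this]
  rw [e2, hm, Complex.ofReal_zero]

/-- The weak form of the first equation, for a passive component `h`. -/
theorem LT.wm_first (hT : 0 < T) (h : LT ω 0 T J P G u) {P' : ℝ → ℝ} {G' : ℝ → ℤ → Yn H}
    {k : ℝ → L1 (Xn H)} (hk : LT ω 0 T J P' G' k) (hG : ∀ t n, (G' t n).1 = -N0 ω (u t) (k t) n)
    {Ψ : ℝ × ℝ × ℝ → ℝ} (hΨ : IsT3 T H Ψ)
    (hP : ∀ t, (P' t : ℂ) * ∫ z in (0:ℝ)..H, hat ω Ψ 0 t z = 0) :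
    ∫ q : ℝ × ℝ × ℝ, (fld ω (m1 (k q.1)) q.2.1 q.2.2 * (pt Ψ q + (py (py Ψ) q + pz (pz Ψ) q)) +
      (fld ω (m1 (k q.1)) q.2.1 q.2.2 * (fld ω (mv ω (u q.1)) q.2.1 q.2.2 * py Ψ q +
        fld ω (mw ω (u q.1)) q.2.1 q.2.2 * pz Ψ q) -
        2 * fld ω (m1 (u q.1)) q.2.1 q.2.2 * fld ω (m1 (k q.1)) q.2.1 q.2.2 * Ψ q)) = 0 := by
  have hH0 := hH.out
  obtain ⟨R, hR⟩ := h.bd
  obtain ⟨R', hR'⟩ := hk.bd
  have cg := h.wm_m1_cont
  have cv := h.wm_mv_cont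
  have cw := h.wm_mw_cont
  have ck := hk.wm_m1_cont
  have hNb : ∀ t ∈ Icc 0 T \ J, Summable (fun n => ‖N0 ω (u t) (k t) n‖) ∧
      ∑' n, ‖N0 ω (u t) (k t) n‖ ≤ (2 * H + 4) * (R * R') := by
    intro t ht
    have h1 := wm_N0 ω (u t) (k t)
    refine ⟨h1.1, h1.2.trans ?_⟩
    have h2 := (hR t ht).2.1
    have h3 := (hR' t ht).2.1
    refine mul_le_mul_of_nonneg_left ?_ (by linarith)
    exact mul_le_mul h2 h3 (norm_nonneg _) ((norm_nonneg _).trans h2)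
  have hNc : ∀ n, ContinuousOn (fun t => N0 ω (u t) (k t) n) (Icc 0 T \ J) := by
    intro n
    have h1 := (continuous_fst.comp_continuousOn (hk.cG n)).neg
    refine h1.congr fun t _ => ?_
    show N0 ω (u t) (k t) n = -(G' t n).1
    rw [hG, neg_neg]
  have iA : Integrable (fun q : ℝ × ℝ × ℝ => fld ω (m1 (k q.1)) q.2.1 q.2.2 * Lop Ψ q) :=
    wm_int1 ck hΨ.wm_L
  have iB : Integrable (fun q : ℝ × ℝ × ℝ => fld ω (m1 (k q.1)) q.2.1 q.2.2 *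
      (fld ω (mv ω (u q.1)) q.2.1 q.2.2 * py Ψ q + fld ω (mw ω (u q.1)) q.2.1 q.2.2 * pz Ψ q) -
        2 * fld ω (m1 (u q.1)) q.2.1 q.2.2 * fld ω (m1 (k q.1)) q.2.1 q.2.2 * Ψ q) := by
    have i1 := wm_int1 (ck.mul cv) hΨ.d_y
    have i2 := wm_int1 (ck.mul cw) hΨ.d_z
    have i3 := wm_int1 ((continuousOn_const (c := (2:ℝ))).mul (cg.mul ck)) hΨ
    refine ((i1.add i2).sub i3).congr (ae_of_all _ fun q => ?_)
    simp only [Pi.add_apply, Pi.sub_apply, Pi.mul_apply]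
    ring
  have iN := wm_int2 (ω := ω) h.count hΨ hNb hNc
  have hB : ∫ q : ℝ × ℝ × ℝ, (fld ω (m1 (k q.1)) q.2.1 q.2.2 *
      (fld ω (mv ω (u q.1)) q.2.1 q.2.2 * py Ψ q + fld ω (mw ω (u q.1)) q.2.1 q.2.2 * pz Ψ q) -
        2 * fld ω (m1 (u q.1)) q.2.1 q.2.2 * fld ω (m1 (k q.1)) q.2.1 q.2.2 * Ψ q) =
      ∫ q : ℝ × ℝ × ℝ, -(fld ω (N0 ω (u q.1) (k q.1)) q.2.1 q.2.2 * Ψ q) := by
    refine wm_fub h.count iB iN.neg fun t ht => ?_
    by_cases htT : t ∈ Ioo 0 T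
    · have ht' : t ∈ Icc 0 T \ J := ⟨Ioo_subset_Icc_self htT, ht⟩
      obtain ⟨C0, hC0, hfa⟩ := fieldAt H
      have su := sy_of_cmode (h.cm t ht') (h.sy t ht'.1)
      have sk := sy_of_cmode (hk.cm t ht') (hk.sy t ht'.1)
      obtain ⟨vy, vz, wy, wz, hF⟩ := hfa ω (u t) (h.cm t ht') su
      obtain ⟨vy', vz', wy', wz', hF'⟩ := hfa ω (k t) (hk.cm t ht') sk
      have h1 := hF.parts (hF'.c _ (by simp)).1 (hF'.c (fld ω (m1y ω (k t))) (by simp)).1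
        (hF'.c (fld ω (m1z (k t))) (by simp)).1 hF'.dgy hF'.dgz hΨ t
      refine h1.trans ?_
      rw [← integral_neg]
      refine integral_congr_ae (ae_of_all _ fun p => ?_)
      simp only
      rw [(fld_N su sk p.1 p.2).1]
    · have z0 : ∀ {Θ : ℝ × ℝ × ℝ → ℝ}, IsT3 T H Θ → ∀ p, Θ (t, p) = 0 := fun hΘ p => hΘ.wm_zero htT p
      simp only [z0 hΨ, z0 hΨ.d_y, z0 hΨ.d_z, mul_zero, add_zero, sub_zero, neg_zero]
  have hA := hk.wm_scalar hT hNb hNc hG hΨ hP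
  have e : ∀ q : ℝ × ℝ × ℝ, pt Ψ q + (py (py Ψ) q + pz (pz Ψ) q) = Lop Ψ q := fun q => rfl
  simp_rw [e]
  rw [integral_add iA iB, hA, hB, integral_neg, add_neg_cancel]

end LT

section LT
variable {ω T : ℝ} {J : Set ℝ} {P : ℝ → ℝ} {u : ℝ → L1 (Xn H)}

theorem LT.wm_cN0 {G : ℝ → ℤ → Yn H} {k : ℝ → L1 (Xn H)} (hk : LT ω 0 T J P G k)
    (hG : ∀ t n, (G t n).1 = -N0 ω (u t) (k t) n) (n : ℤ) :
    ContinuousOn (fun t => N0 ω (u t) (k t) n) (Icc 0 T \ J) := by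
  have h1 := (continuous_fst.comp_continuousOn (hk.cG n)).neg
  refine h1.congr fun t _ => ?_
  show N0 ω (u t) (k t) n = -(G t n).1
  rw [hG, neg_neg]

theorem wm_le_tsum {a : ℤ → CI H} {R : ℝ} (ha : (Summable fun n => ‖a n‖) ∧ ∑' n, ‖a n‖ ≤ R) (n : ℤ) :
    ‖a n‖ ≤ R := (ha.1.le_tsum n fun _ _ => norm_nonneg _).trans ha.2

/-- The equations for the velocity, mode by mode. -/
theorem LT.wm_modes (hω : 0 < ω) (hT : 0 < T) (h : LT ω 0 T J P (fun t => Bf ω (u t) (u t)) u)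
    {Φ₂ Φ₃ : ℝ × ℝ × ℝ → ℝ} (h2 : IsT3 T H Φ₂) (h3 : IsT3 T H Φ₃)
    (hdiv : ∀ q, py Φ₂ q + pz Φ₃ q = 0) (n : ℤ) :
    (∫ t in (0:ℝ)..T, ∫ z in (0:ℝ)..H, ex (mv ω (u t) n) z * hat ω (Lop Φ₂) n t z) +
      (∫ t in (0:ℝ)..T, ∫ z in (0:ℝ)..H, ex (mw ω (u t) n) z * hat ω (Lop Φ₃) n t z) =
    (∫ t in (0:ℝ)..T, ∫ z in (0:ℝ)..H, ex (N1 ω (u t) (u t) n) z * hat ω Φ₂ n t z) +
      ∫ t in (0:ℝ)..T, ∫ z in (0:ℝ)..H, ex (N2 ω (u t) (u t) n) z * hat ω Φ₃ n t z := by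
  have hH0 := hH.out
  obtain ⟨R, hR⟩ := h.bd
  by_cases hn : n = 0
  · subst hn
    have e0 : ω * ((0:ℤ) : ℝ) = 0 := by simp
    have z3 : ∀ t z, hat ω Φ₃ 0 t z = 0 := fun t z => wm_hat_zero_mode h2 h3 hdiv ω t z
    have z3' : ∀ t z, hat ω (Lop Φ₃) 0 t z = 0 := fun t z =>
      wm_hat_zero_mode h2.wm_L h3.wm_L (wm_div_L h2 h3 hdiv) ω t z
    have e1 : ∀ t z, ex (mv ω (u t) 0) z = ex (u t 0).2.1 z := by
      intro t z
      unfold mv vv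
      rw [e0, is_zero]
      simp [jn]
    have e2 : ∀ t z, ex (Bf ω (u t) (u t) 0).2 z = -ex (N1 ω (u t) (u t) 0) z := by
      intro t z
      unfold Bf Rν
      rw [e0, is_zero]
      simp
    have h4 := (h.wm_tested hT 0 h2 h2 0).2
    simp only [zero_mul, sub_zero] at h4
    simp only [z3, z3', mul_zero, intervalIntegral.integral_zero, add_zero, e1]
    rw [h4]
    simp only [e2, neg_mul, intervalIntegral.integral_neg, neg_neg]
  · have hk : ω * (n : ℝ) ≠ 0 := mul_ne_zero hω.ne' (by exact_mod_cast hn)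
    set k : ℝ := ω * (n : ℝ) with hkdef
    have hu : ∀ t ∈ Icc 0 T \ J, ‖u t‖ ≤ R := fun t ht => (hR t ht).2.1
    have hun : ∀ t ∈ Icc 0 T \ J, ‖u t n‖ ≤ R := fun t ht =>
      (lp.norm_apply_le_norm (by norm_num) (u t) n).trans (hu t ht)
    -- bounds of coefficients
    have bmv : ∀ t ∈ Icc 0 T \ J, ‖mv ω (u t) n‖ ≤ (H + 2) * R := fun t ht =>
      (wm_mv_le ω (u t) n).trans (mul_le_mul_of_nonneg_left (hun t ht) (by linarith))
    have bmw : ∀ t ∈ Icc 0 T \ J, ‖mw ω (u t) n‖ ≤ (H + 1) * R := fun t ht =>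
      (wm_mw_le ω (u t) n).trans (mul_le_mul_of_nonneg_left (hun t ht) (by linarith))
    have bγ : ∀ t ∈ Icc 0 T \ J, ‖(u t n).1.1‖ ≤ R := fun t ht =>
      ((norm_fst_le _).trans (norm_fst_le _)).trans (hun t ht)
    have bν : ∀ t ∈ Icc 0 T \ J, ‖(u t n).2.1‖ ≤ R := fun t ht =>
      ((norm_fst_le _).trans (norm_snd_le _)).trans (hun t ht)
    have hRR : ∀ t ∈ Icc 0 T \ J, ‖u t‖ * ‖u t‖ ≤ R * R := fun t ht =>
      mul_le_mul (hu t ht) (hu t ht) (norm_nonneg _) ((norm_nonneg _).trans (hu t ht))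
    have bN0 : ∀ t ∈ Icc 0 T \ J, ‖N0 ω (u t) (u t) n‖ ≤ (2 * H + 4) * (R * R) := fun t ht =>
      (wm_le_tsum (wm_N0 ω (u t) (u t)) n).trans (mul_le_mul_of_nonneg_left (hRR t ht) (by linarith))
    have bN1 : ∀ t ∈ Icc 0 T \ J, ‖N1 ω (u t) (u t) n‖ ≤ 3 * (H + 1) * (R * R) := fun t ht =>
      (wm_le_tsum (wm_N1 ω (u t) (u t)) n).trans (mul_le_mul_of_nonneg_left (hRR t ht) (by linarith))
    have bN2 : ∀ t ∈ Icc 0 T \ J, ‖N2 ω (u t) (u t) n‖ ≤ 3 * (H + 2) * (R * R) := fun t ht =>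
      (wm_le_tsum (wm_N2 ω (u t) (u t)) n).trans (mul_le_mul_of_nonneg_left (hRR t ht) (by linarith))
    have bR : ∀ t ∈ Icc 0 T \ J, ‖(Bf ω (u t) (u t) n).2‖ ≤ R := fun t ht =>
      (norm_snd_le _).trans ((hR t ht).2.2 n)
    -- continuity of coefficients
    have cmv := (h.wm_mv_n n).mono (sdiff_subset : Icc 0 T \ J ⊆ Icc 0 T)
    have cmw := (h.wm_mw_n n).mono (sdiff_subset : Icc 0 T \ J ⊆ Icc 0 T)
    have cγ : ContinuousOn (fun t => (u t n).1.1) (Icc 0 T \ J) :=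
      (h.wm_m1_n n).mono (sdiff_subset : Icc 0 T \ J ⊆ Icc 0 T)
    have cν : ContinuousOn (fun t => (u t n).2.1) (Icc 0 T \ J) := by
      have h1 := ((evN (Xn H) n).continuous.comp_continuousOn h.cX)
      exact (continuous_fst.comp continuous_snd).comp_continuousOn h1
    have cN0 := h.wm_cN0 (u := u) (fun t n => rfl) n
    have cN1 := h.wm_N1_n n
    have cN2 := h.wm_N2_n n
    have cR : ContinuousOn (fun t => (Bf ω (u t) (u t) n).2) (Icc 0 T \ J) :=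
      continuous_snd.comp_continuousOn (h.cG n)
    -- continuity of test functions
    have x2 : Continuous (uncurry (hat ω (Lop Φ₂) n)) := h2.wm_L.hat_cont ω n
    have x3 : Continuous (uncurry (hat ω (Lop Φ₃) n)) := h3.wm_L.hat_cont ω n
    have p2 : Continuous (uncurry (hat ω Φ₂ n)) := h2.hat_cont ω n
    have p3 : Continuous (uncurry (hat ω Φ₃ n)) := h3.hat_cont ω n
    have x23 : Continuous (uncurry fun t z => hat ω (Lop Φ₂) n t z - is k * hat ω (Lop Φ₃) n t z) :=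
      x2.sub (continuous_const.mul x3)
    have p23 : Continuous (uncurry fun t z => hat ω Φ₂ n t z - is k * hat ω Φ₃ n t z) :=
      p2.sub (continuous_const.mul p3)
    -- the tested equations
    have t2 := (h.wm_tested hT n h2 h3 (is k)).2
    have t1 := (h.wm_tested hT n h3 h3 0).1
    simp only [zero_mul, sub_zero, if_neg hn, add_zero] at t1
    have t1' : ∫ t in (0:ℝ)..T, ∫ z in (0:ℝ)..H, ex (u t n).1.1 z * hat ω (Lop Φ₃) n t z =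
        ∫ t in (0:ℝ)..T, ∫ z in (0:ℝ)..H, ex (N0 ω (u t) (u t) n) z * hat ω Φ₃ n t z := by
      rw [t1]
      have e5 : ∀ t z, ex (Bf ω (u t) (u t) n).1 z * hat ω Φ₃ n t z =
          -(ex (N0 ω (u t) (u t) n) z * hat ω Φ₃ n t z) := by
        intro t z
        unfold Bf
        rw [ex_neg]
        ring
      simp_rw [e5]
      simp only [intervalIntegral.integral_neg, neg_neg]
    -- left hand side
    have L1' : (∫ t in (0:ℝ)..T, ∫ z in (0:ℝ)..H, ex (mv ω (u t) n) z * hat ω (Lop Φ₂) n t z) +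
      (∫ t in (0:ℝ)..T, ∫ z in (0:ℝ)..H, ex (mw ω (u t) n) z * hat ω (Lop Φ₃) n t z) =
      (∫ t in (0:ℝ)..T, ∫ z in (0:ℝ)..H, ex (u t n).2.1 z *
        (hat ω (Lop Φ₂) n t z - is k * hat ω (Lop Φ₃) n t z)) -
      ((|k| : ℝ) : ℂ)⁻¹ * ∫ t in (0:ℝ)..T, ∫ z in (0:ℝ)..H, ex (u t n).1.1 z *
        hat ω (Lop Φ₃) n t z := by
      rw [← intervalIntegral.integral_add (wm_ii h.count hT.le cmv bmv x2)
        (wm_ii h.count hT.le cmw bmw x3), ← intervalIntegral.integral_const_mul,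
        ← intervalIntegral.integral_sub (wm_ii h.count hT.le cν bν x23)
        ((wm_ii h.count hT.le cγ bγ x3).const_mul _)]
      refine intervalIntegral.integral_congr fun t _ => ?_
      have hpv := pair_vw k hk (jn (u t n)) (X2 := fun z => hat ω (Lop Φ₂) n t z)
        (X3 := fun z => hat ω (Lop Φ₃) n t z) (h2.wm_L.wm_hat_cz ω n t)
        (fun z => wm_hat_div h2.wm_L h3.wm_L (wm_div_L h2 h3 hdiv) ω n t z)
        (h3.wm_L.wm_hat_zero (fun h => lt_irrefl _ h.1) ω n t)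
        (h3.wm_L.wm_hat_zero (fun h => lt_irrefl _ h.2) ω n t)
      rw [← intervalIntegral.integral_add (wm_zi (h2.wm_L.wm_hat_cz ω n t))
        (wm_zi (h3.wm_L.wm_hat_cz ω n t))]
      exact hpv
    have L2' : (∫ t in (0:ℝ)..T, ∫ z in (0:ℝ)..H, ex (Bf ω (u t) (u t) n).2 z *
        (hat ω Φ₂ n t z - is k * hat ω Φ₃ n t z)) +
      ((|k| : ℝ) : ℂ)⁻¹ * (∫ t in (0:ℝ)..T, ∫ z in (0:ℝ)..H, ex (N0 ω (u t) (u t) n) z *
        hat ω Φ₃ n t z) =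
      -((∫ t in (0:ℝ)..T, ∫ z in (0:ℝ)..H, ex (N1 ω (u t) (u t) n) z * hat ω Φ₂ n t z) +
      ∫ t in (0:ℝ)..T, ∫ z in (0:ℝ)..H, ex (N2 ω (u t) (u t) n) z * hat ω Φ₃ n t z) := by
      rw [← intervalIntegral.integral_const_mul,
        ← intervalIntegral.integral_add (wm_ii h.count hT.le cR bR p23)
        ((wm_ii h.count hT.le cN0 bN0 p3).const_mul _),
        ← intervalIntegral.integral_add (wm_ii h.count hT.le cN1 bN1 p2)
        (wm_ii h.count hT.le cN2 bN2 p3), ← intervalIntegral.integral_neg]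
      refine intervalIntegral.integral_congr fun t _ => ?_
      have hps := pair_src k hk (N0 ω (u t) (u t) n) (N1 ω (u t) (u t) n) (N2 ω (u t) (u t) n)
        (X2 := fun z => hat ω Φ₂ n t z)
        (X3 := fun z => hat ω Φ₃ n t z) (h2.wm_hat_cz ω n t)
        (fun z => wm_hat_div h2 h3 hdiv ω n t z)
        (h3.wm_hat_zero (fun h => lt_irrefl _ h.1) ω n t)
        (h3.wm_hat_zero (fun h => lt_irrefl _ h.2) ω n t)
      rw [intervalIntegral.integral_add (wm_zi (h2.wm_hat_cz ω n t))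
        (wm_zi (h3.wm_hat_cz ω n t))] at hps
      exact hps
    rw [L1', t2, t1']
    linear_combination (-1 : ℂ) * L2'

/-- The weak form of the equations for the velocity. -/
theorem LT.wm_velocity (hω : 0 < ω) (hT : 0 < T) (h : LT ω 0 T J P (fun t => Bf ω (u t) (u t)) u)
    {Φ₂ Φ₃ : ℝ × ℝ × ℝ → ℝ} (h2 : IsT3 T H Φ₂) (h3 : IsT3 T H Φ₃)
    (hdiv : ∀ q, py Φ₂ q + pz Φ₃ q = 0) :
    ∫ q : ℝ × ℝ × ℝ, ((fld ω (mv ω (u q.1)) q.2.1 q.2.2 * (pt Φ₂ q + (py (py Φ₂) q + pz (pz Φ₂) q)) +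
        fld ω (mw ω (u q.1)) q.2.1 q.2.2 * (pt Φ₃ q + (py (py Φ₃) q + pz (pz Φ₃) q))) +
      (-(fld ω (m1 (u q.1)) q.2.1 q.2.2 * (fld ω (mv ω (u q.1)) q.2.1 q.2.2 * Φ₂ q +
          fld ω (mw ω (u q.1)) q.2.1 q.2.2 * Φ₃ q)) +
        fld ω (mv ω (u q.1)) q.2.1 q.2.2 * (fld ω (mv ω (u q.1)) q.2.1 q.2.2 * py Φ₂ q +
          fld ω (mw ω (u q.1)) q.2.1 q.2.2 * pz Φ₂ q) +
        fld ω (mw ω (u q.1)) q.2.1 q.2.2 * (fld ω (mv ω (u q.1)) q.2.1 q.2.2 * py Φ₃ q +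
          fld ω (mw ω (u q.1)) q.2.1 q.2.2 * pz Φ₃ q))) = 0 := by
  have hH0 := hH.out
  obtain ⟨R, hR⟩ := h.bd
  have cg := h.wm_m1_cont
  have cv := h.wm_mv_cont
  have cw := h.wm_mw_cont
  have hu : ∀ t ∈ Icc 0 T \ J, ‖u t‖ ≤ R := fun t ht => (hR t ht).2.1
  have hRR : ∀ t ∈ Icc 0 T \ J, ‖u t‖ * ‖u t‖ ≤ R * R := fun t ht =>
    mul_le_mul (hu t ht) (hu t ht) (norm_nonneg _) ((norm_nonneg _).trans (hu t ht))
  have sN1 : ∀ t ∈ Icc 0 T \ J, Summable (fun n => ‖N1 ω (u t) (u t) n‖) ∧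
      ∑' n, ‖N1 ω (u t) (u t) n‖ ≤ 3 * (H + 1) * (R * R) := fun t ht =>
    ⟨(wm_N1 ω (u t) (u t)).1, (wm_N1 ω (u t) (u t)).2.trans
      (mul_le_mul_of_nonneg_left (hRR t ht) (by linarith))⟩
  have sN2 : ∀ t ∈ Icc 0 T \ J, Summable (fun n => ‖N2 ω (u t) (u t) n‖) ∧
      ∑' n, ‖N2 ω (u t) (u t) n‖ ≤ 3 * (H + 2) * (R * R) := fun t ht =>
    ⟨(wm_N2 ω (u t) (u t)).1, (wm_N2 ω (u t) (u t)).2.trans
      (mul_le_mul_of_nonneg_left (hRR t ht) (by linarith))⟩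
  have smv : ∀ t ∈ Icc 0 T \ J, Summable (fun n => ‖mv ω (u t) n‖) ∧
      ∑' n, ‖mv ω (u t) n‖ ≤ (H + 2) * R := fun t ht =>
    ⟨(wm_sum_le (wm_mv_le ω (u t))).1, (wm_sum_le (wm_mv_le ω (u t))).2.trans
      (mul_le_mul_of_nonneg_left (hu t ht) (by linarith))⟩
  have smw : ∀ t ∈ Icc 0 T \ J, Summable (fun n => ‖mw ω (u t) n‖) ∧
      ∑' n, ‖mw ω (u t) n‖ ≤ (H + 1) * R := fun t ht =>
    ⟨(wm_sum_le (wm_mw_le ω (u t))).1, (wm_sum_le (wm_mw_le ω (u t))).2.trans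
      (mul_le_mul_of_nonneg_left (hu t ht) (by linarith))⟩
  have q1 := pairing (ω := ω) h.count h2.wm_L smv (fun n => (h.wm_mv_n n).mono sdiff_subset)
  have q2 := pairing (ω := ω) h.count h3.wm_L smw (fun n => (h.wm_mw_n n).mono sdiff_subset)
  have q3 := pairing (ω := ω) h.count h2 sN1 (fun n => h.wm_N1_n n)
  have q4 := pairing (ω := ω) h.count h3 sN2 (fun n => h.wm_N2_n n)
  have hA : (∫ q : ℝ × ℝ × ℝ, fld ω (mv ω (u q.1)) q.2.1 q.2.2 * Lop Φ₂ q) +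
      (∫ q : ℝ × ℝ × ℝ, fld ω (mw ω (u q.1)) q.2.1 q.2.2 * Lop Φ₃ q) =
      (∫ q : ℝ × ℝ × ℝ, fld ω (N1 ω (u q.1) (u q.1)) q.2.1 q.2.2 * Φ₂ q) +
      ∫ q : ℝ × ℝ × ℝ, fld ω (N2 ω (u q.1) (u q.1)) q.2.1 q.2.2 * Φ₃ q := by
    rw [q1.2, q2.2, q3.2, q4.2, ← Complex.add_re, ← Complex.add_re,
      ← q1.1.of_norm.tsum_add q2.1.of_norm, ← q3.1.of_norm.tsum_add q4.1.of_norm]
    congr 1
    exact tsum_congr fun n => h.wm_modes hω hT h2 h3 hdiv n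
  have iA2 := wm_int1 cv h2.wm_L
  have iA3 := wm_int1 cw h3.wm_L
  have iB : Integrable (fun q : ℝ × ℝ × ℝ => -(fld ω (m1 (u q.1)) q.2.1 q.2.2 *
      (fld ω (mv ω (u q.1)) q.2.1 q.2.2 * Φ₂ q + fld ω (mw ω (u q.1)) q.2.1 q.2.2 * Φ₃ q)) +
        fld ω (mv ω (u q.1)) q.2.1 q.2.2 * (fld ω (mv ω (u q.1)) q.2.1 q.2.2 * py Φ₂ q +
          fld ω (mw ω (u q.1)) q.2.1 q.2.2 * pz Φ₂ q) +
        fld ω (mw ω (u q.1)) q.2.1 q.2.2 * (fld ω (mv ω (u q.1)) q.2.1 q.2.2 * py Φ₃ q +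
          fld ω (mw ω (u q.1)) q.2.1 q.2.2 * pz Φ₃ q)) := by
    have i1 := wm_int1 (cg.mul cv) h2
    have i2 := wm_int1 (cg.mul cw) h3
    have i3 := wm_int1 (cv.mul cv) h2.d_y
    have i4 := wm_int1 (cv.mul cw) h2.d_z
    have i5 := wm_int1 (cw.mul cv) h3.d_y
    have i6 := wm_int1 (cw.mul cw) h3.d_z
    refine (((((i3.add i4).add i5).add i6).sub i1).sub i2).congr (ae_of_all _ fun q => ?_)
    simp only [Pi.add_apply, Pi.sub_apply, Pi.mul_apply]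
    ring
  have iN1 := wm_int2 (ω := ω) h.count h2 sN1 (fun n => h.wm_N1_n n)
  have iN2 := wm_int2 (ω := ω) h.count h3 sN2 (fun n => h.wm_N2_n n)
  have hB : ∫ q : ℝ × ℝ × ℝ, (-(fld ω (m1 (u q.1)) q.2.1 q.2.2 *
      (fld ω (mv ω (u q.1)) q.2.1 q.2.2 * Φ₂ q + fld ω (mw ω (u q.1)) q.2.1 q.2.2 * Φ₃ q)) +
        fld ω (mv ω (u q.1)) q.2.1 q.2.2 * (fld ω (mv ω (u q.1)) q.2.1 q.2.2 * py Φ₂ q +
          fld ω (mw ω (u q.1)) q.2.1 q.2.2 * pz Φ₂ q) +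
        fld ω (mw ω (u q.1)) q.2.1 q.2.2 * (fld ω (mv ω (u q.1)) q.2.1 q.2.2 * py Φ₃ q +
          fld ω (mw ω (u q.1)) q.2.1 q.2.2 * pz Φ₃ q)) =
      ∫ q : ℝ × ℝ × ℝ, -(fld ω (N1 ω (u q.1) (u q.1)) q.2.1 q.2.2 * Φ₂ q +
        fld ω (N2 ω (u q.1) (u q.1)) q.2.1 q.2.2 * Φ₃ q) := by
    refine wm_fub h.count iB (iN1.add iN2).neg fun t ht => ?_
    by_cases htT : t ∈ Ioo 0 T
    · have ht' : t ∈ Icc 0 T \ J := ⟨Ioo_subset_Icc_self htT, ht⟩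
      obtain ⟨C0, hC0, hfa⟩ := fieldAt H
      have su := sy_of_cmode (h.cm t ht') (h.sy t ht'.1)
      obtain ⟨vy, vz, wy, wz, hF⟩ := hfa ω (u t) (h.cm t ht') su
      have h4 := hF.parts2 h2 h3 hdiv t
      refine h4.trans ?_
      refine integral_congr_ae (ae_of_all _ fun p => ?_)
      simp only
      rw [(fld_N su su p.1 p.2).2.1, (fld_N su su p.1 p.2).2.2]
      ring
    · have z0 : ∀ {Θ : ℝ × ℝ × ℝ → ℝ}, IsT3 T H Θ → ∀ p, Θ (t, p) = 0 := fun hΘ p => hΘ.wm_zero htT p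
      simp only [z0 h2, z0 h2.d_y, z0 h2.d_z, z0 h3, z0 h3.d_y, z0 h3.d_z, mul_zero, add_zero, neg_zero]
  have e : ∀ (Ψ : ℝ × ℝ × ℝ → ℝ) (q : ℝ × ℝ × ℝ), pt Ψ q + (py (py Ψ) q + pz (pz Ψ) q) = Lop Ψ q :=
    fun Ψ q => rfl
  simp_rw [e]
  have iA23 : Integrable (fun q : ℝ × ℝ × ℝ => fld ω (mv ω (u q.1)) q.2.1 q.2.2 * Lop Φ₂ q +
      fld ω (mw ω (u q.1)) q.2.1 q.2.2 * Lop Φ₃ q) := iA2.add iA3
  rw [integral_add iA23 iB, hB, integral_neg, integral_add iN1 iN2, ← hA, integral_add iA2 iA3]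
  ring

end LT

/-! FD-7: mode solutions give weak solutions. -/

theorem weak_of_modes {ω T : ℝ} (hω : 0 < ω) (hT : 0 < T) {J : Set ℝ} {P : ℝ → ℝ} {u h : ℝ → L1 (Xn H)}
    (hu : Traj ω 0 T J P u)
    (hh : LT ω 0 T J (fun _ => 0) (fun t n => (-N0 ω (u t) (h t) n, 0)) h) :
    Weak T H (fun q => fld ω (m1 (u q.1)) q.2.1 q.2.2) (fun q => fld ω (m1 (h q.1)) q.2.1 q.2.2)
      (fun q => fld ω (mv ω (u q.1)) q.2.1 q.2.2) (fun q => fld ω (mw ω (u q.1)) q.2.1 q.2.2) where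
  cg := hu.wm_m1_cont.mono (prod_mono subset_rfl (subset_univ _))
  ch := hh.wm_m1_cont.mono (prod_mono subset_rfl (subset_univ _))
  cv := hu.wm_mv_cont.mono (prod_mono subset_rfl (subset_univ _))
  cw := hu.wm_mw_cont.mono (prod_mono subset_rfl (subset_univ _))
  wd := by
    intro Ψ hΨ
    have i1 := wm_int1 hu.wm_m1_cont hΨ
    have i2 := wm_int1 hu.wm_mv_cont hΨ.d_y
    have i3 := wm_int1 hu.wm_mw_cont hΨ.d_z
    have e : ∫ q : ℝ × ℝ × ℝ, (-(fld ω (m1 (u q.1)) q.2.1 q.2.2 * Ψ q) +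
        fld ω (mv ω (u q.1)) q.2.1 q.2.2 * py Ψ q + fld ω (mw ω (u q.1)) q.2.1 q.2.2 * pz Ψ q) =
        ∫ q : ℝ × ℝ × ℝ, (0:ℝ) := by
      refine wm_fub hu.count ((i1.neg.add i2).add i3) (integrable_zero _ _ _) fun t ht => ?_
      by_cases htT : t ∈ Ioo 0 T
      · have ht' : t ∈ Icc 0 T \ J := ⟨Ioo_subset_Icc_self htT, ht⟩
        obtain ⟨C0, hC0, hfa⟩ := fieldAt H
        have su := sy_of_cmode (hu.cm t ht') (hu.sy t ht'.1)
        obtain ⟨vy, vz, wy, wz, hF⟩ := hfa ω (u t) (hu.cm t ht') su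
        rw [integral_zero]
        exact hF.parts3 hΨ t
      · have z0 : ∀ {Θ : ℝ × ℝ × ℝ → ℝ}, IsT3 T H Θ → ∀ p, Θ (t, p) = 0 :=
          fun hΘ p => hΘ.wm_zero htT p
        simp only [z0 hΨ, z0 hΨ.d_y, z0 hΨ.d_z, mul_zero, add_zero, neg_zero]
    rw [e, integral_zero]
  wg := by
    intro Ψ hΨ hm
    exact hu.wm_first hT hu (fun t n => rfl) hΨ (fun t => by rw [hΨ.wm_mean hm, mul_zero])
  wh := by
    intro Ψ hΨ
    exact hu.wm_first hT hh (fun t n => rfl) hΨ (fun t => by simp)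
  wv := by
    intro Φ₂ Φ₃ h2 h3 hdiv
    exact hu.wm_velocity hω hT h2 h3 hdiv

theorem wm_lip {f fy fz : ℝ → ℝ → ℝ} {C : ℝ}
    (hy : ∀ y, ∀ z ∈ Icc 0 H, HasDerivAt (fun y => f y z) (fy y z) y)
    (hz : ∀ y, ∀ z ∈ Icc 0 H, HasDerivWithinAt (fun z => f y z) (fz y z) (Icc 0 H) z)
    (hby : ∀ y, ∀ z ∈ Icc 0 H, |fy y z| ≤ C) (hbz : ∀ y, ∀ z ∈ Icc 0 H, |fz y z| ≤ C)
    {p q : ℝ × ℝ} (hp : p ∈ (univ : Set ℝ) ×ˢ Icc 0 H) (hq : q ∈ (univ : Set ℝ) ×ˢ Icc 0 H) :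
    |f p.1 p.2 - f q.1 q.2| ≤ 2 * C * dist p q := by
  have hC : 0 ≤ C := (abs_nonneg _).trans (hby p.1 p.2 hp.2)
  have h1 : ‖f p.1 p.2 - f q.1 p.2‖ ≤ C * ‖p.1 - q.1‖ :=
    (convex_univ : Convex ℝ (univ : Set ℝ)).norm_image_sub_le_of_norm_hasDerivWithin_le
      (f := fun y => f y p.2) (f' := fun y => fy y p.2)
      (fun y _ => (hy y p.2 hp.2).hasDerivWithinAt) (fun y _ => hby y p.2 hp.2) trivial trivial
  have h2 : ‖f q.1 p.2 - f q.1 q.2‖ ≤ C * ‖p.2 - q.2‖ :=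
    (convex_Icc (0:ℝ) H).norm_image_sub_le_of_norm_hasDerivWithin_le
      (f := fun z => f q.1 z) (f' := fun z => fz q.1 z)
      (fun z hz' => hz q.1 z hz') (fun z hz' => hbz q.1 z hz') hq.2 hp.2
  have h3 : ‖p.1 - q.1‖ ≤ dist p q := by
    rw [← dist_eq_norm, Prod.dist_eq]; exact le_max_left _ _
  have h4 : ‖p.2 - q.2‖ ≤ dist p q := by
    rw [← dist_eq_norm, Prod.dist_eq]; exact le_max_right _ _
  have h5 : f p.1 p.2 - f q.1 q.2 = (f p.1 p.2 - f q.1 p.2) + (f q.1 p.2 - f q.1 q.2) := by ring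
  rw [h5]
  calc |(f p.1 p.2 - f q.1 p.2) + (f q.1 p.2 - f q.1 q.2)| ≤
      |f p.1 p.2 - f q.1 p.2| + |f q.1 p.2 - f q.1 q.2| := abs_add_le _ _
    _ ≤ C * dist p q + C * dist p q := by
      refine add_le_add ?_ ?_
      · exact h1.trans (mul_le_mul_of_nonneg_left h3 hC)
      · exact h2.trans (mul_le_mul_of_nonneg_left h4 hC)
    _ = 2 * C * dist p q := by ring

theorem wm_dense {T : ℝ} (hT : 0 < T) {J : Set ℝ} (hJ : J.Countable) :
    Icc 0 T ⊆ closure (Icc 0 T \ J) := by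
  have h1 : Ioo 0 T ⊆ closure (Ioo 0 T ∩ Jᶜ) := (hJ.dense_compl ℝ).open_subset_closure_inter isOpen_Ioo
  have h2 : closure (Ioo 0 T ∩ Jᶜ) ⊆ closure (Icc 0 T \ J) :=
    closure_mono fun t ht => ⟨Ioo_subset_Icc_self ht.1, ht.2⟩
  intro t ht
  have h3 : t ∈ closure (Ioo 0 T) := by rw [closure_Ioo hT.ne]; exact ht
  exact closure_minimal (h1.trans h2) isClosed_closure h3

theorem wm_extend {T : ℝ} (hT : 0 < T) {J : Set ℝ} (hJ : J.Countable) {φ : ℝ → ℝ} {c : ℝ}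
    (hφ : ContinuousOn φ (Icc 0 T)) (h : ∀ t ∈ Icc 0 T \ J, φ t ≤ c) {t : ℝ} (ht : t ∈ Icc 0 T) :
    φ t ≤ c := by
  have h1 : (𝓝[Icc 0 T \ J] t).NeBot := mem_closure_iff_nhdsWithin_neBot.1 (wm_dense hT hJ ht)
  have h2 : Tendsto φ (𝓝[Icc 0 T \ J] t) (𝓝 (φ t)) := (hφ t ht).mono sdiff_subset
  refine le_of_tendsto h2 ?_
  filter_upwards [self_mem_nhdsWithin] with s hs using h s hs

/-- Lipschitz bounds. -/
theorem lip_of_modes {ω T : ℝ} (hT : 0 < T) {J : Set ℝ} {P : ℝ → ℝ} {G : ℝ → ℤ → Yn H}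
    {u : ℝ → L1 (Xn H)} (hu : LT ω 0 T J P G u) : ∃ K : NNReal, ∀ t ∈ Icc 0 T,
      LipschitzOnWith K (fun p : ℝ × ℝ => fld ω (m1 (u t)) p.1 p.2) (univ ×ˢ Icc 0 H) ∧
      LipschitzOnWith K (fun p : ℝ × ℝ => fld ω (mv ω (u t)) p.1 p.2) (univ ×ˢ Icc 0 H) ∧
      LipschitzOnWith K (fun p : ℝ × ℝ => fld ω (mw ω (u t)) p.1 p.2) (univ ×ˢ Icc 0 H) := by
  obtain ⟨R, hR⟩ := hu.bd
  obtain ⟨C0, hC0, hfa⟩ := fieldAt H
  refine ⟨Real.toNNReal (2 * (C0 * |R|)), fun t ht => ?_⟩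
  have hK0 : 0 ≤ 2 * (C0 * |R|) := by positivity
  have hgen : ∀ (F : ℝ → ℝ → ℝ → ℝ),
      ContinuousOn (fun q : ℝ × ℝ × ℝ => F q.1 q.2.1 q.2.2) (Icc 0 T ×ˢ univ) →
      (∀ s ∈ Icc 0 T \ J, ∀ p ∈ (univ : Set ℝ) ×ˢ Icc 0 H, ∀ q ∈ (univ : Set ℝ) ×ˢ Icc 0 H,
        |F s p.1 p.2 - F s q.1 q.2| ≤ 2 * (C0 * |R|) * dist p q) →
      LipschitzOnWith (Real.toNNReal (2 * (C0 * |R|))) (fun p : ℝ × ℝ => F t p.1 p.2)
        (univ ×ˢ Icc 0 H) := by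
    intro F hF hb
    refine LipschitzOnWith.of_dist_le_mul fun p hp q hq => ?_
    rw [Real.coe_toNNReal _ hK0, Real.dist_eq]
    have hc : ∀ p : ℝ × ℝ, ContinuousOn (fun s => F s p.1 p.2) (Icc 0 T) := fun p =>
      hF.comp (f := fun s : ℝ => (s, p)) (by fun_prop) (fun s hs => ⟨hs, trivial⟩)
    exact wm_extend hT hu.count ((hc p).sub (hc q)).abs (fun s hs => hb s hs p hp q hq) ht
  have hpt : ∀ s ∈ Icc 0 T \ J, ∃ vy vz wy wz : ℝ → ℝ → ℝ,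
      FieldAt H (C0 * ‖u s‖) (fld ω (m1 (u s))) (fld ω (m1y ω (u s))) (fld ω (m1z (u s)))
        (fld ω (mv ω (u s))) vy vz (fld ω (mw ω (u s))) wy wz (fld ω (mO ω (u s))) := fun s hs =>
    hfa ω (u s) (hu.cm s hs) (sy_of_cmode (hu.cm s hs) (hu.sy s hs.1))
  have hCR : ∀ s ∈ Icc 0 T \ J, C0 * ‖u s‖ ≤ C0 * |R| := fun s hs =>
    mul_le_mul_of_nonneg_left ((hR s hs).2.1.trans (le_abs_self R)) hC0
  refine ⟨hgen (fun s => fld ω (m1 (u s))) hu.wm_m1_cont ?_, hgen (fun s => fld ω (mv ω (u s))) hu.wm_mv_cont ?_,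
    hgen (fun s => fld ω (mw ω (u s))) hu.wm_mw_cont ?_⟩
  · intro s hs p hp q hq
    obtain ⟨vy, vz, wy, wz, hF⟩ := hpt s hs
    exact wm_lip hF.dgy hF.dgz (fun y z hz => ((hF.c (fld ω (m1y ω (u s))) (by simp)).2 y z hz).trans (hCR s hs))
      (fun y z hz => ((hF.c (fld ω (m1z (u s))) (by simp)).2 y z hz).trans (hCR s hs)) hp hq
  · intro s hs p hp q hq
    obtain ⟨vy, vz, wy, wz, hF⟩ := hpt s hs
    exact wm_lip hF.dvy hF.dvz (fun y z hz => ((hF.c vy (by simp)).2 y z hz).trans (hCR s hs))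
      (fun y z hz => ((hF.c vz (by simp)).2 y z hz).trans (hCR s hs)) hp hq
  · intro s hs p hp q hq
    obtain ⟨vy, vz, wy, wz, hF⟩ := hpt s hs
    exact wm_lip hF.dwy hF.dwz (fun y z hz => ((hF.c wy (by simp)).2 y z hz).trans (hCR s hs))
      (fun y z hz => ((hF.c wz (by simp)).2 y z hz).trans (hCR s hs)) hp hq

end

end Pool.Agent.Lib.MP_79abb3_an.P25
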