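import Pool.Agent.Lib.MP_79abb3_an.P25.FldDef

/-!
Fourier series in `y` of functions of `(y, z)` vanishing for large `|y|`.
-/

set_option autoImplicit false
set_option linter.unusedSectionVars false

open MeasureTheory Set Filter Topology Function

namespace Pool.Agent.Lib.MP_79abb3_an.P25

/-- Fourier coefficients in `y ∈ [-Y, Y]`. -/
noncomputable def fco (Y : ℝ) (F : ℝ × ℝ → ℝ) (n : ℤ) (z : ℝ) : ℂ :=
  ((2 * Y : ℝ) : ℂ)⁻¹ * ∫ y in (-Y)..Y, ((F (y, z) : ℝ) : ℂ) * star (ee (Real.pi / Y) n y)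

theorem fo_ee_continuous (ω : ℝ) (n : ℤ) : Continuous (ee ω n) := by
  unfold ee
  fun_prop

theorem fo_norm_ee (ω : ℝ) (n : ℤ) (y : ℝ) : ‖ee ω n y‖ = 1 := by
  rw [ee, mul_comm, Complex.norm_exp_ofReal_mul_I]

theorem fo_ee_neg (ω : ℝ) (n : ℤ) (y : ℝ) : ee ω (-n) y = star (ee ω n y) := by
  rw [ee, ee]
  show _ = (starRingEnd ℂ) _
  rw [← Complex.exp_conj, map_mul, Complex.conj_I, Complex.conj_ofReal]
  congr 1
  push_cast
  ring

theorem fo_hasDerivAt_ee (ω : ℝ) (n : ℤ) (y : ℝ) :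
    HasDerivAt (ee ω n) (ee ω n y * (Complex.I * ((ω * n : ℝ) : ℂ))) y := by
  unfold ee
  have h1 : HasDerivAt (fun y : ℝ => ((ω * n * y : ℝ) : ℂ)) ((ω * n : ℝ) : ℂ) y := by
    have := ((hasDerivAt_id y).const_mul (ω * n)).ofReal_comp
    simpa using this
  exact (h1.const_mul Complex.I).cexp

/-- The decay of the Fourier coefficients: integration by parts. -/
theorem fo_hasDerivAt_y {F : ℝ × ℝ → ℝ} (hF : ContDiff ℝ 1 F) (y z : ℝ) :
    HasDerivAt (fun y => ((F (y, z) : ℝ) : ℂ)) ((fderiv ℝ F (y, z) (1, 0) : ℝ) : ℂ) y := by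
  have h1 : HasFDerivAt F (fderiv ℝ F (y, z)) (y, z) :=
    (hF.differentiable (by norm_num)).differentiableAt.hasFDerivAt
  have h2 : HasDerivAt (fun y : ℝ => (y, z)) ((1:ℝ), (0:ℝ)) y :=
    (hasDerivAt_id y).prodMk (hasDerivAt_const y z)
  exact (h1.comp_hasDerivAt y h2).ofReal_comp

theorem fo_hasDerivAt_z {F : ℝ × ℝ → ℝ} (hF : ContDiff ℝ 1 F) (y z : ℝ) :
    HasDerivAt (fun z => ((F (y, z) : ℝ) : ℂ)) ((fderiv ℝ F (y, z) (0, 1) : ℝ) : ℂ) z := by
  have h1 : HasFDerivAt F (fderiv ℝ F (y, z)) (y, z) :=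
    (hF.differentiable (by norm_num)).differentiableAt.hasFDerivAt
  have h2 : HasDerivAt (fun z : ℝ => (y, z)) ((0:ℝ), (1:ℝ)) z :=
    (hasDerivAt_const z y).prodMk (hasDerivAt_id z)
  exact (h1.comp_hasDerivAt z h2).ofReal_comp

theorem fo_contDiff {m k : WithTop ℕ∞} {F : ℝ × ℝ → ℝ} (hF : ContDiff ℝ k F) (hk : m + 1 ≤ k)
    (v : ℝ × ℝ) : ContDiff ℝ m (fun p => fderiv ℝ F p v) :=
  (hF.fderiv_right hk).clm_apply contDiff_const

theorem fo_continuous_y {F : ℝ × ℝ → ℝ} (hF : Continuous F) (ω : ℝ) (n : ℤ) (z : ℝ) :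
    Continuous fun y => ((F (y, z) : ℝ) : ℂ) * star (ee ω n y) := by
  have h1 : Continuous fun y : ℝ => ((F (y, z) : ℝ) : ℂ) :=
    Complex.continuous_ofReal.comp (hF.comp (by fun_prop))
  exact h1.mul (continuous_star.comp (fo_ee_continuous ω n))

/-- Integration by parts in `y`. -/
theorem fco_dy {Y : ℝ} {F : ℝ × ℝ → ℝ} (hF : ContDiff ℝ 1 F) (n : ℤ) (z : ℝ)
    (h0 : F (-Y, z) = 0) (h1 : F (Y, z) = 0) :
    fco Y (fun p => fderiv ℝ F p (1, 0)) n z =
      Complex.I * ((Real.pi / Y * n : ℝ) : ℂ) * fco Y F n z := by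
  set ω : ℝ := Real.pi / Y with hω
  have hD : ContDiff ℝ 0 (fun p => fderiv ℝ F p (1, 0)) := fo_contDiff hF (by norm_num) _
  have hv : ∀ y, HasDerivAt (fun y => star (ee ω n y))
      (star (ee ω n y * (Complex.I * ((ω * n : ℝ) : ℂ)))) y := fun y =>
    (fo_hasDerivAt_ee ω n y).star
  have hv' : ∀ y, star (ee ω n y * (Complex.I * ((ω * n : ℝ) : ℂ))) =
      -(Complex.I * ((ω * n : ℝ) : ℂ)) * star (ee ω n y) := by
    intro y
    rw [star_mul, star_mul]
    show (starRingEnd ℂ) ((ω * n : ℝ) : ℂ) * (starRingEnd ℂ) Complex.I * _ = _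
    rw [Complex.conj_I, Complex.conj_ofReal]
    ring
  have e := intervalIntegral.integral_deriv_mul_eq_sub (a := -Y) (b := Y)
    (u := fun y => ((F (y, z) : ℝ) : ℂ)) (v := fun y => star (ee ω n y))
    (u' := fun y => ((fderiv ℝ F (y, z) (1, 0) : ℝ) : ℂ))
    (v' := fun y => star (ee ω n y * (Complex.I * ((ω * n : ℝ) : ℂ))))
    (fun y _ => fo_hasDerivAt_y hF y z) (fun y _ => hv y)
    ((Complex.continuous_ofReal.comp (hD.continuous.comp (by fun_prop))).intervalIntegrable _ _)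
    ((continuous_star.comp ((fo_ee_continuous ω n).mul continuous_const)).intervalIntegrable _ _)
  rw [h0, h1] at e
  simp only [Complex.ofReal_zero, zero_mul, sub_zero, hv'] at e
  have i1 : IntervalIntegrable (fun y => ((fderiv ℝ F (y, z) (1, 0) : ℝ) : ℂ) * star (ee ω n y))
      volume (-Y) Y := (fo_continuous_y hD.continuous ω n z).intervalIntegrable _ _
  have i2 : IntervalIntegrable (fun y => -(Complex.I * ((ω * n : ℝ) : ℂ)) *
      (((F (y, z) : ℝ) : ℂ) * star (ee ω n y))) volume (-Y) Y :=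
    ((fo_continuous_y hF.continuous ω n z).const_mul _).intervalIntegrable _ _
  have e2 : ∫ y in (-Y)..Y, (((fderiv ℝ F (y, z) (1, 0) : ℝ) : ℂ) * star (ee ω n y) +
      -(Complex.I * ((ω * n : ℝ) : ℂ)) * (((F (y, z) : ℝ) : ℂ) * star (ee ω n y))) = 0 := by
    rw [← e]
    refine intervalIntegral.integral_congr fun y _ => ?_
    ring
  rw [intervalIntegral.integral_add i1 i2, intervalIntegral.integral_const_mul] at e2
  have e3 := add_eq_zero_iff_eq_neg.1 e2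
  rw [fco, fco, e3]
  ring

theorem fco_continuous {F : ℝ × ℝ → ℝ} (hF : Continuous F) (Y : ℝ) (n : ℤ) :
    Continuous (fco Y F n) := by
  unfold fco
  refine continuous_const.mul ?_
  refine intervalIntegral.continuous_parametric_intervalIntegral_of_continuous' ?_ _ _
  have h1 : Continuous fun p : ℝ × ℝ => ((F (p.2, p.1) : ℝ) : ℂ) :=
    Complex.continuous_ofReal.comp (hF.comp (by fun_prop))
  exact h1.mul (continuous_star.comp ((fo_ee_continuous _ n).comp continuous_snd))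

theorem fco_hasDerivAt {F : ℝ × ℝ → ℝ} (hF : ContDiff ℝ 1 F) (Y : ℝ) (n : ℤ) (z : ℝ) :
    HasDerivAt (fco Y F n) (fco Y (fun p => fderiv ℝ F p (0, 1)) n z) z := by
  unfold fco
  refine HasDerivAt.const_mul _ ?_
  have hD : Continuous (fun p => fderiv ℝ F p (0, 1)) :=
    (fo_contDiff (m := 0) hF (by norm_num) _).continuous
  obtain ⟨C, hC⟩ := (isCompact_uIcc (a := -Y) (b := Y)).prod (isCompact_Icc (a := z - 1) (b := z + 1))
    |>.exists_bound_of_continuousOn hD.continuousOn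
  refine (intervalIntegral.hasDerivAt_integral_of_dominated_loc_of_deriv_le
    (F := fun z y => ((F (y, z) : ℝ) : ℂ) * star (ee (Real.pi / Y) n y))
    (F' := fun z y => ((fderiv ℝ F (y, z) (0, 1) : ℝ) : ℂ) * star (ee (Real.pi / Y) n y))
    (s := Icc (z - 1) (z + 1)) (bound := fun _ => C)
    (Icc_mem_nhds (by linarith) (by linarith)) ?_ ?_ ?_ ?_ ?_ ?_).2
  · exact Eventually.of_forall fun z' =>
      (fo_continuous_y hF.continuous _ n z').aestronglyMeasurable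
  · exact (fo_continuous_y hF.continuous _ n z).intervalIntegrable _ _
  · exact (fo_continuous_y hD _ n z).aestronglyMeasurable
  · refine Eventually.of_forall fun y hy z' hz' => ?_
    rw [norm_mul, norm_star, fo_norm_ee, mul_one, Complex.norm_real]
    exact hC (y, z') ⟨uIoc_subset_uIcc hy, hz'⟩
  · exact intervalIntegrable_const
  · refine Eventually.of_forall fun y _ z' _ => ?_
    exact (fo_hasDerivAt_z hF y z').mul_const _

theorem fco_star (Y : ℝ) (F : ℝ × ℝ → ℝ) (n : ℤ) (z : ℝ) :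
    fco Y F (-n) z = star (fco Y F n z) := by
  rw [fco, fco, star_mul']
  have h1 : star (((2 * Y : ℝ) : ℂ)⁻¹) = ((2 * Y : ℝ) : ℂ)⁻¹ := by
    rw [star_inv₀]
    congr 1
    exact Complex.conj_ofReal _
  rw [h1]
  congr 1
  have h2 : star (∫ y in (-Y)..Y, ((F (y, z) : ℝ) : ℂ) * star (ee (Real.pi / Y) n y)) =
      ∫ y in (-Y)..Y, star (((F (y, z) : ℝ) : ℂ) * star (ee (Real.pi / Y) n y)) := by
    simp only [intervalIntegral]
    rw [star_sub]
    congr 1
    · exact integral_conj.symm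
    · exact integral_conj.symm
  rw [h2]
  refine intervalIntegral.integral_congr fun y _ => ?_
  rw [star_mul', star_star, fo_ee_neg, star_star]
  congr 1
  exact (Complex.conj_ofReal _).symm

/-- Functions vanishing for `|y| > Y - 1`. -/
def VanY (Y : ℝ) (F : ℝ × ℝ → ℝ) : Prop := ∀ y z, Y - 1 < |y| → F (y, z) = 0

theorem VanY.fderiv {Y : ℝ} {F : ℝ × ℝ → ℝ} (h : VanY Y F) (v : ℝ × ℝ) :
    VanY Y (fun p => fderiv ℝ F p v) := by
  intro y z hy
  have h1 : F =ᶠ[𝓝 (y, z)] fun _ => 0 := by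
    have h2 : IsOpen {p : ℝ × ℝ | Y - 1 < |p.1|} :=
      isOpen_lt continuous_const (continuous_abs.comp continuous_fst)
    filter_upwards [h2.mem_nhds (show (y, z) ∈ {p : ℝ × ℝ | Y - 1 < |p.1|} from hy)] with p hp
    exact h p.1 p.2 hp
  have h3 : _root_.fderiv ℝ F (y, z) = 0 := by
    rw [h1.fderiv_eq]
    exact fderiv_const_apply _
  show _root_.fderiv ℝ F (y, z) v = 0
  rw [h3]
  rfl

theorem fco_decay {Y : ℝ} (hY : 0 < Y) (m : ℕ) : ∀ {F : ℝ × ℝ → ℝ}, ContDiff ℝ m F → VanY Y F →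
    ∃ C : ℝ, 0 ≤ C ∧ ∀ (n : ℤ), ∀ z ∈ Icc 0 Y, |Real.pi / Y * n| ^ m * ‖fco Y F n z‖ ≤ C := by
  induction m with
  | zero =>
    intro F hF _
    obtain ⟨C, hC⟩ := (isCompact_uIcc (a := -Y) (b := Y)).prod (isCompact_Icc (a := (0:ℝ)) (b := Y))
      |>.exists_bound_of_continuousOn hF.continuous.continuousOn
    have hC0 : 0 ≤ C := (norm_nonneg _).trans (hC (Y, Y) ⟨right_mem_uIcc, hY.le, le_rfl⟩)
    refine ⟨C, hC0, fun n z hz => ?_⟩
    rw [pow_zero, one_mul, fco, norm_mul]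
    have h1 : ‖∫ y in (-Y)..Y, ((F (y, z) : ℝ) : ℂ) * star (ee (Real.pi / Y) n y)‖ ≤
        C * |Y - -Y| := by
      refine intervalIntegral.norm_integral_le_of_norm_le_const fun y hy => ?_
      rw [norm_mul, norm_star, fo_norm_ee, mul_one, Complex.norm_real]
      exact hC (y, z) ⟨uIoc_subset_uIcc hy, hz⟩
    have h2 : |Y - -Y| = 2 * Y := by rw [abs_of_pos (by linarith)]; ring
    rw [h2] at h1
    have h3 : ‖((2 * Y : ℝ) : ℂ)⁻¹‖ = (2 * Y)⁻¹ := by
      rw [norm_inv, Complex.norm_real, Real.norm_eq_abs, abs_of_pos (by linarith)]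
    rw [h3]
    calc (2 * Y)⁻¹ * ‖∫ y in (-Y)..Y, ((F (y, z) : ℝ) : ℂ) * star (ee (Real.pi / Y) n y)‖
        ≤ (2 * Y)⁻¹ * (C * (2 * Y)) := mul_le_mul_of_nonneg_left h1 (by positivity)
      _ = C := by field_simp
  | succ m ih =>
    intro F hF hv
    obtain ⟨C, hC0, hC⟩ := ih (F := fun p => fderiv ℝ F p (1, 0))
      (fo_contDiff hF (by push_cast; exact le_rfl) _) (hv.fderiv _)
    refine ⟨C, hC0, fun n z hz => ?_⟩
    have h1 : ContDiff ℝ 1 F := hF.of_le (by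
      push_cast
      exact le_add_self)
    have h2 := fco_dy h1 n z (hv (-Y) z (by rw [abs_neg, abs_of_pos hY]; linarith))
      (hv Y z (by rw [abs_of_pos hY]; linarith))
    have h3 := hC n z hz
    rw [h2, norm_mul, norm_mul, Complex.norm_I, one_mul, Complex.norm_real, Real.norm_eq_abs] at h3
    rw [pow_succ, mul_assoc]
    exact h3

theorem fo_summable {Y C : ℝ} (hY : 0 < Y) {f : ℤ → ℝ} (hf : ∀ n, 0 ≤ f n)
    (h : ∀ n : ℤ, |Real.pi / Y * n| ^ 2 * f n ≤ C) : Summable f := by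
  have h1 : Summable fun n : ℤ => C * (Y / Real.pi) ^ 2 * (1 / (n:ℝ) ^ 2) :=
    (Real.summable_one_div_int_pow.2 (by norm_num)).mul_left _
  refine Summable.of_norm_bounded_eventually h1 ?_
  have h2 : ∀ᶠ n : ℤ in cofinite, n ≠ 0 := by
    rw [eventually_cofinite]
    simp
  filter_upwards [h2] with n hn
  rw [Real.norm_eq_abs, abs_of_nonneg (hf n)]
  have h3 : (n:ℝ) ≠ 0 := Int.cast_ne_zero.2 hn
  have h4 : 0 < (n:ℝ) ^ 2 := by positivity
  have h5 := h n
  have hpi := Real.pi_pos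
  rw [sq_abs, mul_pow, div_pow] at h5
  rw [div_pow, mul_one_div, le_div_iff₀ h4]
  have h6 : f n * (n:ℝ) ^ 2 = Y ^ 2 / Real.pi ^ 2 * (Real.pi ^ 2 / Y ^ 2 * (n:ℝ) ^ 2 * f n) := by
    field_simp
  rw [h6, mul_comm C]
  exact mul_le_mul_of_nonneg_left h5 (by positivity)

/-- Fourier inversion on `[-Y, Y]`. -/
theorem fo_inversion {Y : ℝ} (hY : 0 < Y) {F : ℝ × ℝ → ℝ} (hF : Continuous F) (hv : VanY Y F)
    (z : ℝ) (hs : Summable fun n => fco Y F n z) {y : ℝ} (hy : |y| ≤ Y) :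
    HasSum (fun n => fco Y F n z * ee (Real.pi / Y) n y) ((F (y, z) : ℝ) : ℂ) := by
  have : Fact (0 < 2 * Y) := ⟨by linarith⟩
  have hv1 : F (-Y, z) = 0 := hv (-Y) z (by rw [abs_neg, abs_of_pos hY]; linarith)
  have hv2 : F (Y, z) = 0 := hv Y z (by rw [abs_of_pos hY]; linarith)
  set g : ℝ → ℂ := fun y => ((F (y, z) : ℝ) : ℂ) with hg
  have hgc : Continuous g := Complex.continuous_ofReal.comp (hF.comp (by fun_prop))
  have hYY : -Y + 2 * Y = Y := by ring
  set G : C(AddCircle (2 * Y), ℂ) := ⟨AddCircle.liftIco (2 * Y) (-Y) g,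
    AddCircle.liftIco_continuous (by rw [hYY]; simp only [hg, hv1, hv2]) hgc.continuousOn⟩ with hG
  have hGa : ∀ x : ℝ, x ∈ Ico (-Y) (-Y + 2 * Y) → G (x : AddCircle (2 * Y)) = g x := by
    intro x hx
    show AddCircle.liftIco (2 * Y) (-Y) g (x : AddCircle (2 * Y)) = g x
    exact AddCircle.liftIco_coe_apply hx
  have hfour : ∀ (n : ℤ) (x : ℝ), fourier n (x : AddCircle (2 * Y)) = ee (Real.pi / Y) n x := by
    intro n x
    rw [fourier_coe_apply, ee]
    congr 1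
    push_cast
    have : (Y : ℂ) ≠ 0 := by exact_mod_cast hY.ne'
    field_simp
  have hcoef : ∀ n, fourierCoeff G n = fco Y F n z := by
    intro n
    rw [fourierCoeff_eq_intervalIntegral _ _ (-Y), hYY, fco]
    have h1 : ((1 / (2 * Y) : ℝ)) • (∫ x in (-Y)..Y, fourier (-n) (x : AddCircle (2 * Y)) • G x) =
        ((2 * Y : ℝ) : ℂ)⁻¹ * ∫ x in (-Y)..Y, fourier (-n) (x : AddCircle (2 * Y)) • G x := by
      rw [Complex.real_smul]
      congr 1
      push_cast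
      ring
    rw [h1]
    congr 1
    refine intervalIntegral.integral_congr_Ioo_of_le (by linarith) fun x hx => ?_
    have h2 : G (x : AddCircle (2 * Y)) = g x := hGa x ⟨hx.1.le, by rw [hYY]; exact hx.2⟩
    rw [h2, hfour, fo_ee_neg, smul_eq_mul, mul_comm]
  have hsum : Summable (fourierCoeff G) := by
    have : fourierCoeff G = fun n => fco Y F n z := funext hcoef
    rw [this]
    exact hs
  have hval : G (y : AddCircle (2 * Y)) = ((F (y, z) : ℝ) : ℂ) := by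
    rcases (abs_le.1 hy).2.lt_or_eq with h | h
    · exact hGa y ⟨(abs_le.1 hy).1, by rw [hYY]; exact h⟩
    · have h1 : (y : AddCircle (2 * Y)) = ((-Y : ℝ) : AddCircle (2 * Y)) := by
        rw [h, ← AddCircle.coe_add_period (2 * Y) (-Y), hYY]
      rw [h1]
      have h2 : G ((-Y : ℝ) : AddCircle (2 * Y)) = g (-Y) :=
        hGa (-Y) ⟨le_rfl, by rw [hYY]; linarith⟩
      rw [h2, h]
      simp only [hg, hv1, hv2]
  have h := has_pointwise_sum_fourier_series_of_summable hsum (y : AddCircle (2 * Y))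
  rw [hval] at h
  have e : (fun i => fourierCoeff G i • fourier i (y : AddCircle (2 * Y))) =
      fun n => fco Y F n z * ee (Real.pi / Y) n y := by
    funext n
    rw [hcoef, hfour, smul_eq_mul]
  rwa [e] at h

theorem fo_main {Y : ℝ} [hYf : Fact (0 < Y)] {F : ℝ × ℝ → ℝ} (hF : ContDiff ℝ 3 F)
    (hv : VanY Y F) : ∃ c c1 : ℤ → CI Y,
      (∀ n, ∀ z ∈ Icc 0 Y, ex (c n) z = fco Y F n z) ∧
      (∀ n, ∀ z ∈ Icc 0 Y, ex (c1 n) z = fco Y (fun p => fderiv ℝ F p (0, 1)) n z) ∧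
      (∀ n, IsD (c n) (c1 n)) ∧ (Summable fun n => ‖c n‖) ∧
      (Summable fun n : ℤ => |(n : ℝ)| * ‖c n‖) ∧ (Summable fun n => ‖c1 n‖) ∧ Sy c ∧ Sy c1 ∧
      (∀ y z, |y| ≤ Y → z ∈ Icc 0 Y → fld (Real.pi / Y) c y z = F (y, z)) ∧
      (∀ n, ∀ z ∈ Icc 0 Y, fco Y (fun p => fderiv ℝ F p (1, 0)) n z =
        Complex.I * ((Real.pi / Y * n : ℝ) : ℂ) * ex (c n) z) := by
  have hY : 0 < Y := hYf.out
  have hpi := Real.pi_pos
  have hF1 : ContDiff ℝ 1 F := hF.of_le (by norm_num)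
  have hF2 : ContDiff ℝ (2 : ℕ) F := hF.of_le (by norm_num)
  have hF3 : ContDiff ℝ (3 : ℕ) F := hF
  have hD2 : ContDiff ℝ (2 : ℕ) (fun p => fderiv ℝ F p (0, 1)) := fo_contDiff hF (by norm_num) _
  have hvD : VanY Y (fun p => fderiv ℝ F p (0, 1)) := hv.fderiv _
  have hc : ∀ n, ContinuousOn (fco Y F n) (Icc 0 Y) := fun n =>
    (fco_continuous hF1.continuous Y n).continuousOn
  have hc1 : ∀ n, ContinuousOn (fco Y (fun p => fderiv ℝ F p (0, 1)) n) (Icc 0 Y) := fun n =>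
    (fco_continuous hD2.continuous Y n).continuousOn
  obtain ⟨C3, hC30, hC3⟩ := fco_decay hY 3 hF3 hv
  obtain ⟨C2, hC20, hC2⟩ := fco_decay hY 2 hF2 hv
  obtain ⟨D2, hD20, hD2'⟩ := fco_decay hY 2 hD2 hvD
  have hbound : ∀ {a : CI Y} {φ : ℝ → ℂ} {k C : ℝ}, 0 ≤ k → 0 ≤ C → (∀ z ∈ Icc 0 Y, ex a z = φ z) →
      (∀ z ∈ Icc 0 Y, k * ‖φ z‖ ≤ C) → k * ‖a‖ ≤ C := by
    intro a φ k C hk hC h1 h2
    rcases hk.eq_or_lt with h | h
    · rw [← h, zero_mul]; exact hC
    · rw [mul_comm, ← le_div_iff₀ h]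
      refine ci_norm_le (by positivity) fun z hz => ?_
      rw [h1 z hz, le_div_iff₀ h, mul_comm]
      exact h2 z hz
  have e0 : ∀ n, ∀ z ∈ Icc 0 Y, ex (mkCI (fco Y F n) (hc n)) z = fco Y F n z := fun n z hz =>
    ex_mkCI _ hz
  have e1 : ∀ n, ∀ z ∈ Icc 0 Y, ex (mkCI (fco Y (fun p => fderiv ℝ F p (0, 1)) n) (hc1 n)) z =
      fco Y (fun p => fderiv ℝ F p (0, 1)) n z := fun n z hz => ex_mkCI _ hz
  have s0 : Summable fun n => ‖mkCI (fco Y F n) (hc n)‖ :=
    fo_summable hY (fun n => norm_nonneg _) (C := C2) fun n =>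
      hbound (by positivity) hC20 (e0 n) fun z hz => hC2 n z hz
  refine ⟨fun n => mkCI (fco Y F n) (hc n),
    fun n => mkCI (fco Y (fun p => fderiv ℝ F p (0, 1)) n) (hc1 n), e0, e1, ?_, s0, ?_, ?_, ?_, ?_,
    ?_, ?_⟩
  · intro n z hz
    rw [e1 n z hz]
    exact ((fco_hasDerivAt hF1 Y n z).hasDerivWithinAt).congr (fun x hx => e0 n x hx) (e0 n z hz)
  · refine fo_summable hY (fun n => by positivity) (C := C3 * (Y / Real.pi)) fun n => ?_
    have h1 : |Real.pi / Y * n| ^ 3 * ‖mkCI (fco Y F n) (hc n)‖ ≤ C3 :=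
      hbound (by positivity) hC30 (e0 n) fun z hz => hC3 n z hz
    have h2 : |(n:ℝ)| = Y / Real.pi * |Real.pi / Y * n| := by
      rw [abs_mul, abs_of_pos (by positivity : 0 < Real.pi / Y)]
      field_simp
    calc |Real.pi / Y * n| ^ 2 * (|(n:ℝ)| * ‖mkCI (fco Y F n) (hc n)‖)
        = (|Real.pi / Y * n| ^ 3 * ‖mkCI (fco Y F n) (hc n)‖) * (Y / Real.pi) := by
          rw [h2]; ring
      _ ≤ C3 * (Y / Real.pi) := mul_le_mul_of_nonneg_right h1 (by positivity)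
  · exact fo_summable hY (fun n => norm_nonneg _) (C := D2) fun n =>
      hbound (by positivity) hD20 (e1 n) fun z hz => hD2' n z hz
  · intro n
    refine ci_ext fun z hz => ?_
    rw [ex_star, e0 n z hz, e0 (-n) z hz]
    exact fco_star Y F n z
  · intro n
    refine ci_ext fun z hz => ?_
    rw [ex_star, e1 n z hz, e1 (-n) z hz]
    exact fco_star Y _ n z
  · intro y z hy hz
    have h1 : Summable fun n => fco Y F n z := by
      refine Summable.of_norm_bounded s0 fun n => ?_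
      rw [← e0 n z hz]
      exact norm_ex_le _ _
    have h2 := fo_inversion hY hF1.continuous hv z h1 hy
    have h3 : (fun n => ex (mkCI (fco Y F n) (hc n)) z * ee (Real.pi / Y) n y) =
        fun n => fco Y F n z * ee (Real.pi / Y) n y := by
      funext n
      rw [e0 n z hz]
    rw [fld, h3, h2.tsum_eq, Complex.ofReal_re]
  · intro n z hz
    rw [e0 n z hz]
    exact fco_dy hF1 n z (hv (-Y) z (by rw [abs_neg, abs_of_pos hY]; linarith))
      (hv Y z (by rw [abs_of_pos hY]; linarith))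

theorem fourier {r : ℝ} [Fact (0 < r + 2)] (hr : 0 < r) {F : ℝ × ℝ → ℝ} (hF : ContDiff ℝ 3 F)
    (hs : ∀ y z, r + 1 ≤ |y| → F (y, z) = 0) : ∃ c c1 : ℤ → CI (r + 2),
      (∀ n, ∀ z ∈ Icc 0 (r + 2), ex (c n) z = fco (r + 2) F n z) ∧
      (∀ n, ∀ z ∈ Icc 0 (r + 2), ex (c1 n) z = fco (r + 2) (fun p => fderiv ℝ F p (0, 1)) n z) ∧
      (∀ n, IsD (c n) (c1 n)) ∧ (Summable fun n => ‖c n‖) ∧
      (Summable fun n : ℤ => |(n : ℝ)| * ‖c n‖) ∧ (Summable fun n => ‖c1 n‖) ∧ Sy c ∧ Sy c1 ∧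
      (∀ y z, |y| ≤ r + 2 → z ∈ Icc 0 (r + 2) → fld (Real.pi / (r + 2)) c y z = F (y, z)) ∧
      (∀ n, ∀ z ∈ Icc 0 (r + 2), fco (r + 2) (fun p => fderiv ℝ F p (1, 0)) n z =
        Complex.I * ((Real.pi / (r + 2) * n : ℝ) : ℂ) * ex (c n) z) :=
  fo_main hF fun y z hy => hs y z (by linarith)

end Pool.Agent.Lib.MP_79abb3_an.P25
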