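import Pool.Agent.Lib.MP_79abb3_an.P25.Fld
import Pool.Agent.Lib.MP_79abb3_an.P25.Fourier

/-!
FD-9b: the modes of the data.
-/

set_option autoImplicit false
set_option linter.unusedSectionVars false

open MeasureTheory Set Filter Topology Function

namespace Pool.Agent.Lib.MP_79abb3_an.P25

section
variable {H : ℝ} [hH : Fact (0 < H)]

theorem dt_is_neg (k : ℝ) : is (-k) = star (is k) := by
  have h : Real.sign (-k) = -Real.sign k := by
    rcases lt_trichotomy k 0 with h | h | h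
    · rw [Real.sign_of_neg h, Real.sign_of_pos (by linarith)]; ring
    · rw [h]; simp
    · rw [Real.sign_of_pos h, Real.sign_of_neg (by linarith)]
  rw [is, is, h, star_mul']
  have h1 : star Complex.I = -Complex.I := Complex.conj_I
  have h2 : star ((Real.sign k : ℝ) : ℂ) = ((Real.sign k : ℝ) : ℂ) := Complex.conj_ofReal _
  rw [h1, h2]
  push_cast
  ring

theorem dt_is_sq (k : ℝ) : Complex.I * (k : ℂ) * is k = -((|k| : ℝ) : ℂ) := by
  rw [← fld_is_mul_abs, is]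
  rcases lt_trichotomy k 0 with h | h | h
  · rw [Real.sign_of_neg h]
    push_cast
    linear_combination ((|k| : ℝ) : ℂ) * Complex.I_mul_I
  · rw [h]; simp
  · rw [Real.sign_of_pos h]
    push_cast
    linear_combination ((|k| : ℝ) : ℂ) * Complex.I_mul_I

theorem IsD.da_add {f f1 g g1 : CI H} (h : IsD f f1) (h' : IsD g g1) : IsD (f + g) (f1 + g1) := by
  intro z hz
  exact (h z hz).add (h' z hz)

theorem IsD.da_csmul {f f1 : CI H} (h : IsD f f1) (c : ℂ) : IsD (c • f) (c • f1) := by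
  intro z hz
  exact (h z hz).const_mul c

/-- Families from their components. -/
theorem dt_build {ω : ℝ} {g g1 ν ν1 : ℤ → CI H} (s1 : Summable fun n => ‖g n‖)
    (s2 : Summable fun n : ℤ => |(n : ℝ)| * ‖g n‖) (s3 : Summable fun n => ‖g1 n‖)
    (t1 : Summable fun n => ‖ν n‖) (t2 : Summable fun n : ℤ => |(n : ℝ)| * ‖ν n‖)
    (t3 : Summable fun n => ‖ν1 n‖) (d : ∀ n, IsD (g n) (g1 n)) (d' : ∀ n, IsD (ν n) (ν1 n))
    (z : ∀ n, ex (g n) 0 = 0) (z' : ∀ n, ex (ν n) 0 = 0) (h : ∀ n, ex (g n) H = 0)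
    (h' : ∀ n, ex (ν n) H = 0) (y1 : Sy g) (y2 : Sy g1) (y3 : Sy ν) (y4 : Sy ν1) :
    ∃ x : L1 (Xn H), (∀ n : ℤ, x n = ((g n, g1 n, |ω * n| • g n), (ν n, ν1 n, |ω * n| • ν n))) ∧
      (∀ n : ℤ, Dmode (ω * n) (x n)) ∧ Sy x := by
  have hs : Summable fun n : ℤ =>
      ‖(((g n, g1 n, |ω * n| • g n), (ν n, ν1 n, |ω * n| • ν n)) : Xn H)‖ := by
    refine Summable.of_nonneg_of_le (fun n => norm_nonneg _) (fun n => ?_)
      ((((s1.add s3).add (s2.mul_left |ω|)).add ((t1.add t3).add (t2.mul_left |ω|))))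
    have a1 := norm_nonneg (g n)
    have a2 := norm_nonneg (g1 n)
    have a3 := norm_nonneg (ν n)
    have a4 := norm_nonneg (ν1 n)
    have a5 : 0 ≤ |ω| * (|(n : ℝ)| * ‖g n‖) := by positivity
    have a6 : 0 ≤ |ω| * (|(n : ℝ)| * ‖ν n‖) := by positivity
    have e1 : ‖|ω * n| • g n‖ = |ω| * (|(n : ℝ)| * ‖g n‖) := by
      rw [norm_smul, Real.norm_eq_abs, abs_abs, abs_mul, mul_assoc]
    have e2 : ‖|ω * n| • ν n‖ = |ω| * (|(n : ℝ)| * ‖ν n‖) := by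
      rw [norm_smul, Real.norm_eq_abs, abs_abs, abs_mul, mul_assoc]
    rw [Prod.norm_mk, Prod.norm_mk, Prod.norm_mk, Prod.norm_mk, Prod.norm_mk, e1, e2]
    refine max_le (max_le ?_ (max_le ?_ ?_)) (max_le ?_ (max_le ?_ ?_)) <;> linarith
  refine ⟨mkL1 (fun n : ℤ => (((g n, g1 n, |ω * n| • g n), (ν n, ν1 n, |ω * n| • ν n)) : Xn H)) hs,
    fun n => rfl, fun n => ⟨d n, d' n, rfl, rfl, z n, z' n, h n, h' n⟩, fun n => ?_⟩
  have e : |ω * ((-n : ℤ) : ℝ)| = |ω * n| := by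
    rw [Int.cast_neg, mul_neg, abs_neg]
  have key : ∀ f : ℤ → CI H, Sy f → |ω * ((-n : ℤ) : ℝ)| • f (-n) = star (|ω * n| • f n) := by
    intro f hf
    rw [e, hf n]
    apply ci_ext
    intro z _
    rw [ex_rsmul, ex_star, ex_star, ex_rsmul, star_mul']
    congr 1
    exact (Complex.conj_ofReal _).symm
  rw [mkL1_apply, mkL1_apply, key g y1, key ν y3, y1 n, y2 n, y3 n, y4 n]
  rfl

/-- `(g, ν)` gives back `w` and `v`. -/
theorem dt_om {k : ℝ} {g v w w1 : CI H} (hw : IsD w w1) (h0 : ex w 0 = 0)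
    (hg : g = -((Complex.I * (k : ℂ)) • v + w1)) : om k (g, v + is k • w) = w := by
  have h1 : w = Eop k (w1 + |k| • w) := Eop_unique k hw h0 rfl
  have h2 : g + (is k * ((|k| : ℝ) : ℂ)) • (v + is k • w) = -(w1 + |k| • w) := by
    rw [hg, fld_is_mul_abs]
    apply ci_ext
    intro z _
    simp only [ex_add, ex_neg, ex_smul, ex_rsmul]
    linear_combination (ex w z) * dt_is_sq k
  have h3 : om k (g, v + is k • w) = -(Eop k (g + (is k * ((|k| : ℝ) : ℂ)) • (v + is k • w))) := by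
    have e1 : ∀ (c : ℂ) (u : CI H), Eop k (g + c • u) = Eop k g + c • Eop k u := by
      intro c u
      rw [map_add, map_smul]
    rw [e1]
    show -(Eop k g) - (is k * ((|k| : ℝ) : ℂ)) • Eop k (v + is k • w) = _
    abel
  rw [h3, h2, map_neg, neg_neg, ← h1]

theorem dt_vv {k : ℝ} {g v w w1 : CI H} (hw : IsD w w1) (h0 : ex w 0 = 0)
    (hg : g = -((Complex.I * (k : ℂ)) • v + w1)) : vv k (g, v + is k • w) = v := by
  rw [vv, dt_om hw h0 hg]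
  simp only
  rw [add_sub_cancel_right]

end

/-- The cut-off. -/
noncomputable def dt_bump (r : ℝ) (hr : 0 < r) : ContDiffBump (0 : ℝ) :=
  ⟨r + 1 / 4, r + 1 / 2, by linarith, by linarith⟩

/-- Data with cut-off. -/
noncomputable def dcut (r : ℝ) (hr : 0 < r) (F : ℝ × ℝ → ℝ) (p : ℝ × ℝ) : ℝ :=
  dt_bump r hr p.1 * dt_bump r hr p.2 * F p

theorem dcut_contDiff {r : ℝ} (hr : 0 < r) {m : ℕ} {F : ℝ × ℝ → ℝ} (hF : ContDiff ℝ m F) :
    ContDiff ℝ m (dcut r hr F) :=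
  ((((dt_bump r hr).contDiff).comp contDiff_fst).mul
    (((dt_bump r hr).contDiff).comp contDiff_snd)).mul hF

theorem dcut_near {r : ℝ} (hr : 0 < r) (F : ℝ × ℝ → ℝ) {y z : ℝ} (hy : |y| ≤ r) (hz : |z| ≤ r) :
    dcut r hr F =ᶠ[𝓝 (y, z)] F := by
  have h2 : IsOpen {p : ℝ × ℝ | |p.1| < r + 1 / 4 ∧ |p.2| < r + 1 / 4} :=
    (isOpen_lt (continuous_abs.comp continuous_fst) continuous_const).inter
      (isOpen_lt (continuous_abs.comp continuous_snd) continuous_const)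
  filter_upwards [h2.mem_nhds (show (y, z) ∈ {p : ℝ × ℝ | |p.1| < r + 1 / 4 ∧ |p.2| < r + 1 / 4} from
    ⟨by linarith, by linarith⟩)] with p hp
  have h3 : ∀ x : ℝ, |x| < r + 1 / 4 → dt_bump r hr x = 1 := by
    intro x hx
    apply (dt_bump r hr).one_of_mem_closedBall
    rw [mem_closedBall_zero_iff, Real.norm_eq_abs]
    exact hx.le
  rw [dcut, h3 _ hp.1, h3 _ hp.2, one_mul, one_mul]

theorem dcut_zero {r : ℝ} (hr : 0 < r) (F : ℝ × ℝ → ℝ) {y z : ℝ} (h : r + 1 / 2 ≤ |y| ∨ r + 1 / 2 ≤ |z|) :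
    dcut r hr F (y, z) = 0 := by
  have h3 : ∀ x : ℝ, r + 1 / 2 ≤ |x| → dt_bump r hr x = 0 := by
    intro x hx
    apply (dt_bump r hr).zero_of_le_dist
    rw [dist_zero_right, Real.norm_eq_abs]
    exact hx
  rcases h with h | h
  · rw [dcut, h3 _ h, zero_mul, zero_mul]
  · rw [dcut, h3 _ h, mul_zero, zero_mul]

theorem dcut_far {r : ℝ} (hr : 0 < r) (F : ℝ × ℝ → ℝ) {y z : ℝ} (h : r + 1 ≤ |y| ∨ r + 1 ≤ |z|) :
    dcut r hr F =ᶠ[𝓝 (y, z)] fun _ => 0 := by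
  have h2 : IsOpen {p : ℝ × ℝ | r + 1 / 2 < |p.1| ∨ r + 1 / 2 < |p.2|} :=
    (isOpen_lt continuous_const (continuous_abs.comp continuous_fst)).union
      (isOpen_lt continuous_const (continuous_abs.comp continuous_snd))
  filter_upwards [h2.mem_nhds (show (y, z) ∈ {p : ℝ × ℝ | r + 1 / 2 < |p.1| ∨ r + 1 / 2 < |p.2|} by
    rcases h with h | h
    · left; show r + 1 / 2 < |y|; linarith
    · right; show r + 1 / 2 < |z|; linarith)] with p hp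
  exact dcut_zero hr F (y := p.1) (z := p.2) (hp.imp le_of_lt le_of_lt)

theorem dcut_fderiv_far {r : ℝ} (hr : 0 < r) (F : ℝ × ℝ → ℝ) {y z : ℝ}
    (h : r + 1 ≤ |y| ∨ r + 1 ≤ |z|) (v : ℝ × ℝ) : fderiv ℝ (dcut r hr F) (y, z) v = 0 := by
  rw [(dcut_far hr F h).fderiv_eq, fderiv_const_apply]
  rfl

theorem dcut_dy0 {r : ℝ} (hr : 0 < r) {F : ℝ × ℝ → ℝ} (hF : ContDiff ℝ 1 F) (h : ∀ y, F (y, 0) = 0)
    (y : ℝ) : fderiv ℝ (dcut r hr F) (y, 0) (1, 0) = 0 := by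
  have h1 := fo_hasDerivAt_y (dcut_contDiff (m := 1) hr hF) y 0
  have h2 : (fun y => ((dcut r hr F (y, 0) : ℝ) : ℂ)) = fun _ => 0 := by
    funext y
    rw [dcut, h y, mul_zero, Complex.ofReal_zero]
  rw [h2] at h1
  exact Complex.ofReal_eq_zero.1 (h1.unique (hasDerivAt_const y 0))

theorem dcut_dz0 {r : ℝ} (hr : 0 < r) {F : ℝ × ℝ → ℝ} (hF : ContDiff ℝ 1 F) (h : ∀ y, F (y, 0) = 0)
    (h' : ∀ y, fderiv ℝ F (y, 0) (0, 1) = 0) (y : ℝ) :
    fderiv ℝ (dcut r hr F) (y, 0) (0, 1) = 0 := by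
  have h1 := fo_hasDerivAt_z (dcut_contDiff (m := 1) hr hF) y 0
  have hb : DifferentiableAt ℝ (dt_bump r hr) 0 :=
    ((dt_bump r hr).contDiff (n := 1)).differentiable (by norm_num) 0
  have h2 := (hb.hasDerivAt.ofReal_comp.mul (fo_hasDerivAt_z hF y 0)).const_mul
    (((dt_bump r hr y : ℝ) : ℂ))
  have h3 : (fun z => ((dcut r hr F (y, z) : ℝ) : ℂ)) = fun z => ((dt_bump r hr y : ℝ) : ℂ) *
      ((((dt_bump r hr z : ℝ) : ℂ)) * ((F (y, z) : ℝ) : ℂ)) := by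
    funext z
    rw [dcut]
    push_cast
    ring
  rw [h3] at h1
  have h4 := h1.unique h2
  rw [h y, h' y] at h4
  simpa using h4

theorem fco_zero {Y : ℝ} {F : ℝ × ℝ → ℝ} {n : ℤ} {z : ℝ} (h : ∀ y, F (y, z) = 0) :
    fco Y F n z = 0 := by
  rw [fco]
  have : (fun y => ((F (y, z) : ℝ) : ℂ) * star (ee (Real.pi / Y) n y)) = fun _ => 0 := by
    funext y
    rw [h y, Complex.ofReal_zero, zero_mul]
  rw [this]
  simp

theorem fco_negadd {Y : ℝ} {F G : ℝ × ℝ → ℝ} (hF : Continuous F) (hG : Continuous G) (n : ℤ) (z : ℝ) :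
    fco Y (fun p => -(F p + G p)) n z = -(fco Y F n z + fco Y G n z) := by
  have e : ∀ K : ℝ × ℝ → ℝ, Continuous K → IntervalIntegrable
      (fun y => ((K (y, z) : ℝ) : ℂ) * star (ee (Real.pi / Y) n y)) volume (-Y) Y := by
    intro K hK
    apply Continuous.intervalIntegrable
    have h1 : Continuous fun y : ℝ => K (y, z) := hK.comp (by fun_prop)
    have h2 := fo_ee_continuous (Real.pi / Y) n
    exact (Complex.continuous_ofReal.comp h1).mul h2.star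
  have h := intervalIntegral.integral_add (e F hF) (e G hG)
  simp only [fco]
  rw [← mul_add, ← h, ← mul_neg, ← intervalIntegral.integral_neg]
  congr 2
  funext y
  push_cast
  ring

theorem dcut_fourier {r : ℝ} [Fact (0 < r + 2)] (hr : 0 < r) {F : ℝ × ℝ → ℝ} (hF : ContDiff ℝ 3 F)
    (hs : ∀ y z, r + 1 ≤ |y| ∨ r + 1 ≤ |z| → F (y, z) = 0) (h0 : ∀ y, F (y, 0) = 0) :
    ∃ c c1 : ℤ → CI (r + 2),
      (∀ n, ∀ z ∈ Icc 0 (r + 2), ex (c n) z = fco (r + 2) F n z) ∧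
      (∀ n, ∀ z ∈ Icc 0 (r + 2), ex (c1 n) z = fco (r + 2) (fun p => fderiv ℝ F p (0, 1)) n z) ∧
      (∀ n, IsD (c n) (c1 n)) ∧ (Summable fun n => ‖c n‖) ∧
      (Summable fun n : ℤ => |(n : ℝ)| * ‖c n‖) ∧ (Summable fun n => ‖c1 n‖) ∧ Sy c ∧ Sy c1 ∧
      (∀ y z, |y| ≤ r + 2 → z ∈ Icc 0 (r + 2) → fld (Real.pi / (r + 2)) c y z = F (y, z)) ∧
      (∀ n, ∀ z ∈ Icc 0 (r + 2), fco (r + 2) (fun p => fderiv ℝ F p (1, 0)) n z =
        Complex.I * ((Real.pi / (r + 2) * n : ℝ) : ℂ) * ex (c n) z) ∧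
      (∀ n, ex (c n) 0 = 0) ∧ (∀ n, ex (c n) (r + 2) = 0) := by
  obtain ⟨c, c1, p1, p2, p3, p4, p5, p6, p7, p8, p9, p10⟩ := fourier hr hF
    (fun y z h => hs y z (Or.inl h))
  refine ⟨c, c1, p1, p2, p3, p4, p5, p6, p7, p8, p9, p10, fun n => ?_, fun n => ?_⟩
  · rw [p1 n 0 ⟨le_refl _, by linarith⟩]
    exact fco_zero h0
  · rw [p1 n (r + 2) ⟨by linarith, le_refl _⟩]
    exact fco_zero fun y => hs y (r + 2) (Or.inr (by rw [abs_of_pos (by linarith)]; linarith))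

theorem data_modes {r : ℝ} [Fact (0 < r + 2)] (hr : 0 < r) {v0 w0 h0 : ℝ × ℝ → ℝ}
    (hv : ContDiff ℝ 4 v0) (hw : ContDiff ℝ 4 w0) (hh : ContDiff ℝ 3 h0) (bv : ∀ y, v0 (y, 0) = 0)
    (bw : ∀ y, w0 (y, 0) = 0) (bw' : ∀ y, fderiv ℝ w0 (y, 0) (0, 1) = 0) (bh : ∀ y, h0 (y, 0) = 0) :
    ∃ x0 y0 : L1 (Xn (r + 2)), (∀ n : ℤ, Dmode (Real.pi / (r + 2) * n) (x0 n)) ∧ Sy x0 ∧
      (∀ n : ℤ, Dmode (Real.pi / (r + 2) * n) (y0 n)) ∧ Sy y0 ∧ (∀ n, (y0 n).2 = 0) ∧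
      ∀ y z, |y| ≤ r → z ∈ Icc 0 r →
        fld (Real.pi / (r + 2)) (m1 x0) y z =
          -(fderiv ℝ v0 (y, z) (1, 0) + fderiv ℝ w0 (y, z) (0, 1)) ∧
        fld (Real.pi / (r + 2)) (mv (Real.pi / (r + 2)) x0) y z = v0 (y, z) ∧
        fld (Real.pi / (r + 2)) (mw (Real.pi / (r + 2)) x0) y z = w0 (y, z) ∧
        fld (Real.pi / (r + 2)) (m1 y0) y z = h0 (y, z) := by
  have cV : ContDiff ℝ (4 : ℕ) (dcut r hr v0) := dcut_contDiff (m := 4) hr hv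
  have cW : ContDiff ℝ (4 : ℕ) (dcut r hr w0) := dcut_contDiff (m := 4) hr hw
  have ch : ContDiff ℝ (3 : ℕ) (dcut r hr h0) := dcut_contDiff (m := 3) hr hh
  have hv1 : ContDiff ℝ 1 v0 := hv.of_le (by norm_num)
  have hw1 : ContDiff ℝ 1 w0 := hw.of_le (by norm_num)
  have h34 : (3 : WithTop ℕ∞) + 1 ≤ (4 : ℕ) := by norm_num
  have cVy : ContDiff ℝ 3 (fun p => fderiv ℝ (dcut r hr v0) p (1, 0)) := fo_contDiff cV h34 _
  have cWz : ContDiff ℝ 3 (fun p => fderiv ℝ (dcut r hr w0) p (0, 1)) := fo_contDiff cW h34 _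
  have cg : ContDiff ℝ 3 (fun p => -(fderiv ℝ (dcut r hr v0) p (1, 0) +
      fderiv ℝ (dcut r hr w0) p (0, 1))) := (cVy.add cWz).neg
  have hz0 : ∀ (F : ℝ × ℝ → ℝ), (∀ y, F (y, 0) = 0) → ∀ y, dcut r hr F (y, 0) = 0 := by
    intro F hF y
    rw [dcut, hF y, mul_zero]
  have hfar : ∀ (F : ℝ × ℝ → ℝ), ∀ y z, r + 1 ≤ |y| ∨ r + 1 ≤ |z| → dcut r hr F (y, z) = 0 :=
    fun F y z h => dcut_zero hr F (h.imp (fun h => by linarith) fun h => by linarith)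
  obtain ⟨g, g1, g_1, g_2, g_3, g_4, g_5, g_6, g_7, g_8, g_9, g_10, g_11, g_12⟩ :=
    dcut_fourier hr cg
    (fun y z h => by
      show -(fderiv ℝ (dcut r hr v0) (y, z) (1, 0) + fderiv ℝ (dcut r hr w0) (y, z) (0, 1)) = 0
      rw [dcut_fderiv_far hr v0 h, dcut_fderiv_far hr w0 h, add_zero, neg_zero])
    (fun y => by
      show -(fderiv ℝ (dcut r hr v0) (y, 0) (1, 0) + fderiv ℝ (dcut r hr w0) (y, 0) (0, 1)) = 0
      rw [dcut_dy0 hr hv1 bv, dcut_dz0 hr hw1 bw bw', add_zero, neg_zero])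
  obtain ⟨V, V1, V_1, V_2, V_3, V_4, V_5, V_6, V_7, V_8, V_9, V_10, V_11, V_12⟩ :=
    dcut_fourier hr (cV.of_le (by norm_num)) (hfar v0) (hz0 v0 bv)
  obtain ⟨W, W1, W_1, W_2, W_3, W_4, W_5, W_6, W_7, W_8, W_9, W_10, W_11, W_12⟩ :=
    dcut_fourier hr (cW.of_le (by norm_num)) (hfar w0) (hz0 w0 bw)
  obtain ⟨h, h1, h_1, h_2, h_3, h_4, h_5, h_6, h_7, h_8, h_9, h_10, h_11, h_12⟩ :=
    dcut_fourier hr ch (hfar h0) (hz0 h0 bh)
  have hgn : ∀ n : ℤ, g n = -((Complex.I * ((Real.pi / (r + 2) * n : ℝ) : ℂ)) • V n + W1 n) := by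
    intro n
    apply ci_ext
    intro z hz
    rw [g_1 n z hz, fco_negadd cVy.continuous cWz.continuous, V_10 n z hz, ex_neg, ex_add, ex_smul,
      W_2 n z hz]
  have hsum : ∀ (a b : ℤ → CI (r + 2)) (f : ℤ → ℝ), (∀ n, 0 ≤ f n) →
      (Summable fun n => f n * ‖a n‖) → (Summable fun n => f n * ‖b n‖) →
      Summable fun n : ℤ => f n * ‖a n + is (Real.pi / (r + 2) * n) • b n‖ := by
    intro a b f hf ha hb
    refine Summable.of_nonneg_of_le (fun n => mul_nonneg (hf n) (norm_nonneg _)) (fun n => ?_)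
      (ha.add hb)
    have h1 : ‖a n + is (Real.pi / (r + 2) * n) • b n‖ ≤ ‖a n‖ + ‖b n‖ := by
      refine (norm_add_le _ _).trans ?_
      gcongr
      rw [norm_smul]
      exact mul_le_of_le_one_left (norm_nonneg _) (norm_is_le _)
    calc _ ≤ f n * (‖a n‖ + ‖b n‖) := mul_le_mul_of_nonneg_left h1 (hf n)
      _ = _ := by ring
  have hsum1 : ∀ (a b : ℤ → CI (r + 2)), (Summable fun n => ‖a n‖) → (Summable fun n => ‖b n‖) →
      Summable fun n : ℤ => ‖a n + is (Real.pi / (r + 2) * n) • b n‖ := by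
    intro a b ha hb
    have := hsum a b (fun _ => 1) (fun _ => zero_le_one) (by simpa using ha) (by simpa using hb)
    simpa using this
  have hsy : ∀ (a b : ℤ → CI (r + 2)), Sy a → Sy b →
      Sy fun n : ℤ => a n + is (Real.pi / (r + 2) * n) • b n := by
    intro a b ha hb n
    show a (-n) + is (Real.pi / (r + 2) * ((-n : ℤ) : ℝ)) • b (-n) =
      star (a n + is (Real.pi / (r + 2) * n) • b n)
    rw [star_add, star_smul, ha n, hb n, Int.cast_neg, mul_neg, dt_is_neg]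
  have hz' : ∀ (z : ℝ), (∀ n, ex (V n) z = 0) → (∀ n, ex (W n) z = 0) →
      ∀ n : ℤ, ex (V n + is (Real.pi / (r + 2) * n) • W n) z = 0 := by
    intro z h1 h2 n
    rw [ex_add, ex_smul, h1 n, h2 n, mul_zero, add_zero]
  obtain ⟨x0, x0e, x0d, x0s⟩ := dt_build (ω := Real.pi / (r + 2)) (g := g) (g1 := g1)
    (ν := fun n : ℤ => V n + is (Real.pi / (r + 2) * n) • W n)
    (ν1 := fun n : ℤ => V1 n + is (Real.pi / (r + 2) * n) • W1 n)
    g_4 g_5 g_6 (hsum1 V W V_4 W_4) (hsum V W _ (fun n => abs_nonneg _) V_5 W_5)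
    (hsum1 V1 W1 V_6 W_6) g_3 (fun n => (V_3 n).da_add ((W_3 n).da_csmul _)) g_11 (hz' 0 V_11 W_11)
    g_12 (hz' (r + 2) V_12 W_12) g_7 g_8 (hsy V W V_7 W_7) (hsy V1 W1 V_8 W_8)
  have z0 : Summable fun n : ℤ => ‖(0 : CI (r + 2))‖ := by simpa using summable_zero
  have z1 : Summable fun n : ℤ => |(n : ℝ)| * ‖(0 : CI (r + 2))‖ := by simpa using summable_zero
  have zs : Sy fun _ : ℤ => (0 : CI (r + 2)) := fun n => (star_zero _).symm
  have zd : ∀ _ : ℤ, IsD (0 : CI (r + 2)) (0 : CI (r + 2)) :=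
    fun _ z _ => hasDerivWithinAt_const z _ 0
  obtain ⟨y0, y0e, y0d, y0s⟩ := dt_build (ω := Real.pi / (r + 2)) (g := h) (g1 := h1)
    (ν := fun _ : ℤ => 0) (ν1 := fun _ : ℤ => 0) h_4 h_5 h_6 z0 z1 z0 h_3 zd h_11 (fun _ => rfl)
    h_12 (fun _ => rfl) h_7 h_8 zs zs
  refine ⟨x0, y0, x0d, x0s, y0d, y0s, fun n => ?_, fun y z hy hz => ?_⟩
  · rw [y0e n]
    show ((0 : CI (r + 2)), (0 : CI (r + 2)), |Real.pi / (r + 2) * n| • (0 : CI (r + 2))) = 0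
    have e0 : |Real.pi / (r + 2) * n| • (0 : CI (r + 2)) = 0 := by
      apply ci_ext
      intro z _
      rw [ex_rsmul, ex_zero, mul_zero]
    rw [e0]
    rfl
  have hy2 : |y| ≤ r + 2 := by linarith
  have hz2 : z ∈ Icc 0 (r + 2) := ⟨hz.1, by linarith [hz.2]⟩
  have hzr : |z| ≤ r := by rw [abs_of_nonneg hz.1]; exact hz.2
  have m1x : m1 x0 = g := by
    funext n
    rw [m1, x0e n]
  have mwx : mw (Real.pi / (r + 2)) x0 = W := by
    funext n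
    rw [mw, x0e n]
    exact dt_om (W_3 n) (W_11 n) (hgn n)
  have mvx : mv (Real.pi / (r + 2)) x0 = V := by
    funext n
    rw [mv, x0e n]
    exact dt_vv (W_3 n) (W_11 n) (hgn n)
  have m1y' : m1 y0 = h := by
    funext n
    rw [m1, y0e n]
  refine ⟨?_, ?_, ?_, ?_⟩
  · rw [m1x, g_9 y z hy2 hz2, (dcut_near hr v0 hy hzr).fderiv_eq,
      (dcut_near hr w0 hy hzr).fderiv_eq]
  · rw [mvx, V_9 y z hy2 hz2, (dcut_near hr v0 hy hzr).eq_of_nhds]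
  · rw [mwx, W_9 y z hy2 hz2, (dcut_near hr w0 hy hzr).eq_of_nhds]
  · rw [m1y', h_9 y z hy2 hz2, (dcut_near hr h0 hy hzr).eq_of_nhds]

end Pool.Agent.Lib.MP_79abb3_an.P25
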