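import Pool.Agent.Lib.MP_79abb3_an.P25.Modes

/-!
Parameters, weights and norms of the energy method.
-/

set_option autoImplicit false
set_option linter.unusedSectionVars false

open MeasureTheory Set Filter Topology Function

namespace Pool.Agent.Lib.MP_79abb3_an.P25

/-- Strain rate `a(t) = t/(t²+ε²)`. -/
noncomputable def aa (ε t : ℝ) : ℝ := t / (t ^ 2 + ε ^ 2)

/-- Pressure `P = a' + a²`. -/
noncomputable def PP (ε t : ℝ) : ℝ := ε ^ 2 / (t ^ 2 + ε ^ 2) ^ 2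

/-- `ℓ = ε/√(t²+ε²)`, `ℓ' = -aℓ`. -/
noncomputable def el (ε t : ℝ) : ℝ := ε / √(t ^ 2 + ε ^ 2)

/-- Length scale `L = ℓ + √t`. -/
noncomputable def LL (ε t : ℝ) : ℝ := el ε t + √t

/-- Exponential rate of the weight in `z`. -/
noncomputable def be (ε t : ℝ) : ℝ := 1 / (100 * LL ε t)

/-- `λ = 100 |k|` -/
noncomputable def la (k : ℝ) : ℝ := 100 * |k|

/-- Relative weight of `γ`. -/
noncomputable def th (ε k t : ℝ) : ℝ := 7500 * LL ε t / (1 + la k * LL ε t)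

/-- `σ = λL/(1+λL)` -/
noncomputable def sg (ε k t : ℝ) : ℝ := la k * LL ε t / (1 + la k * LL ε t)

/-- Weight of the mode with wave number `k`. -/
noncomputable def WW (ε k t : ℝ) : ℝ :=
  (1 + 2 * la k) ^ 61 * (1 + la k * el ε t) ^ 30 / (1 + la k * √t) ^ 60

/-- Growth factor. -/
noncomputable def qq (ε t : ℝ) : ℝ := (1 + t ^ 2 / ε ^ 2) ^ (1 / 20 : ℝ)

section
variable {H : ℝ} [hH : Fact (0 < H)]

/-- Weighted `L²` norm on `[0,H]`, with weight `exp(2bz)`. -/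
noncomputable def nrm (b : ℝ) (f : CI H) : ℝ := √(∫ z in (0:ℝ)..H, Real.exp (2 * b * z) * ‖ex f z‖ ^ 2)

/-- Weighted real inner product. -/
noncomputable def inn (b : ℝ) (f g : CI H) : ℝ :=
  ∫ z in (0:ℝ)..H, Real.exp (2 * b * z) * (ex f z * star (ex g z)).re

/-- Weighted inner product with the additional factor `z`. -/
noncomputable def zin (b : ℝ) (f : CI H) : ℝ :=
  ∫ z in (0:ℝ)..H, z * (Real.exp (2 * b * z) * ‖ex f z‖ ^ 2)

/-- Energy of a mode. -/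
noncomputable def En (b θ : ℝ) (x : Xn H) : ℝ := √(nrm b x.2.1 ^ 2 + θ ^ 2 * nrm b x.1.1 ^ 2)

/-- Dissipation of a mode. -/
noncomputable def Dn (b θ : ℝ) (x : Xn H) : ℝ :=
  √((nrm b (x.2.2.1 + b • x.2.1) ^ 2 + nrm b x.2.2.2 ^ 2) +
    θ ^ 2 * (nrm b (x.1.2.1 + b • x.1.1) ^ 2 + nrm b x.1.2.2 ^ 2))

/-- Facts on the base profile at the time `t` that are used in the energy estimate. -/
structure BaseAt (ε t : ℝ) (g g1 : CI H) : Prop where
  re : ∀ z ∈ Icc (0:ℝ) H, (ex g z).im = 0 ∧ (ex g1 z).im = 0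
  d : IsD g g1
  z : ex g 0 = 0
  h : (ex g H).re = aa ε t
  nn : ∀ z ∈ Icc (0:ℝ) H, 0 ≤ (ex g z).re
  le : ∀ z ∈ Icc (0:ℝ) H, (ex g z).re ≤ aa ε t
  low : ∀ z ∈ Icc (0:ℝ) H, aa ε t * Real.tanh (3 * (z / √t) / 4) ≤ (ex g z).re
  mono : ∀ z ∈ Icc (0:ℝ) H, 0 ≤ (ex g1 z).re
  star : ∀ z ∈ Icc (0:ℝ) H, z * (ex g1 z).re ≤ (ex g z).re
  up : ∀ z ∈ Icc (0:ℝ) H, (ex g1 z).re ≤ 2 * aa ε t / √t

/-- The linear part of the right hand side for a perturbation `x` (mode `k`) of the base flow `g`. -/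
noncomputable def Lam (k : ℝ) (g g1 : CI H) (x : Xn H) : Yn H :=
  (Eop 0 g * x.1.2.1 - (2:ℝ) • (g * x.1.1) - g1 * om k (jn x),
   Eop 0 g * x.2.2.1 + |k| • Top k (g * x.2.1) - (3 * is k) • Top k (g * x.1.1) -
     is k • Top k (g1 * om k (jn x)))

end

end Pool.Agent.Lib.MP_79abb3_an.P25
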