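import Pool.Agent.Lib.MP_79abb3_an.P25.BW
import Pool.Agent.Lib.MP_79abb3_an.P25.EnDef
import Pool.Agent.Lib.MP_79abb3_an.P25.TrajDef

/-!
The linear part of the source.
-/

set_option autoImplicit false
set_option linter.unusedSectionVars false

open MeasureTheory Set Filter Topology Function

namespace Pool.Agent.Lib.MP_79abb3_an.P25

section
variable {H : ℝ} [hH : Fact (0 < H)]

theorem U0_apply_zero (g g1 : CI H) : U0 g g1 0 = (((g, g1, 0), (0, 0, 0)) : Xn H) := by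
  rw [U0]
  exact lp.single_apply_self (E := fun _ : ℤ => Xn H) 1 0 _

theorem U0_apply_ne (g g1 : CI H) {m : ℤ} (hm : m ≠ 0) : U0 g g1 m = 0 := by
  rw [U0]
  exact lp.single_apply_ne (E := fun _ : ℤ => Xn H) 1 0 _ hm

theorem conv_single_left {a b : ℤ → CI H} (ha : ∀ m, m ≠ 0 → a m = 0) (n : ℤ) :
    conv a b n = a 0 * b n := by
  rw [conv, tsum_eq_single 0 fun m hm => by rw [ha m hm, zero_mul], sub_zero]

theorem conv_single_right {a b : ℤ → CI H} (hb : ∀ m, m ≠ 0 → b m = 0) (n : ℤ) :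
    conv a b n = a n * b 0 := by
  rw [conv, tsum_eq_single n fun m hm => by
    rw [hb (n - m) (sub_ne_zero.2 (Ne.symm hm)), mul_zero], sub_self]

theorem om_zero_arg (k : ℝ) : om k (0 : Yn H) = 0 := by
  refine ci_ext fun t _ => ?_
  simp [om]

theorem vv_zero_arg (k : ℝ) : vv k (0 : Yn H) = 0 := by
  refine ci_ext fun t _ => ?_
  simp [vv, om_zero_arg]

theorem Om_zero_arg (k : ℝ) : Om k (0 : Xn H) = 0 := by
  refine ci_ext fun t _ => ?_
  simp [Om]

theorem jn_zero : jn (0 : Xn H) = 0 := rfl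

section U0
variable (ω : ℝ) (g g1 : CI H)

theorem A1_U0_ne {m : ℤ} (hm : m ≠ 0) : A1 ω (U0 g g1) m = 0 := by
  rw [A1, U0_apply_ne g g1 hm, jn_zero, vv_zero_arg]
theorem A2_U0_ne {m : ℤ} (hm : m ≠ 0) : A2 ω (U0 g g1) m = 0 := by
  rw [A2, U0_apply_ne g g1 hm, jn_zero, om_zero_arg]
theorem A3_U0_ne {m : ℤ} (hm : m ≠ 0) : A3 (U0 g g1) m = 0 := by
  rw [A3, U0_apply_ne g g1 hm]; rfl
theorem A4_U0_ne {m : ℤ} (hm : m ≠ 0) : A4 ω (U0 g g1) m = 0 := by
  rw [A4, U0_apply_ne g g1 hm, Om_zero_arg]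
theorem A5_U0_ne {m : ℤ} (hm : m ≠ 0) : A5 ω (U0 g g1) m = 0 := by
  rw [A5, U0_apply_ne g g1 hm]
  refine ci_ext fun t _ => ?_
  simp
theorem A6_U0_ne {m : ℤ} (hm : m ≠ 0) : A6 (U0 g g1) m = 0 := by
  rw [A6, U0_apply_ne g g1 hm]; rfl

theorem A2_U0 : A2 ω (U0 g g1) 0 = -Eop 0 g := by
  rw [A2, U0_apply_zero]
  refine ci_ext fun t _ => ?_
  simp [om, jn, is_zero]

theorem A1_U0 : A1 ω (U0 g g1) 0 = 0 := by
  rw [A1, U0_apply_zero]
  refine ci_ext fun t _ => ?_
  simp [vv, jn, is_zero]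

theorem A3_U0 : A3 (U0 g g1) 0 = g := by
  rw [A3, U0_apply_zero]

theorem A4_U0 : A4 ω (U0 g g1) 0 = 0 := by
  rw [A4, U0_apply_zero]
  refine ci_ext fun t _ => ?_
  simp [Om, is_zero]

theorem A5_U0 : A5 ω (U0 g g1) 0 = 0 := by
  rw [A5, U0_apply_zero]
  refine ci_ext fun t _ => ?_
  simp

theorem A6_U0 : A6 (U0 g g1) 0 = g1 := by
  rw [A6, U0_apply_zero]

end U0

/-- `T f' = -f + |k| T f` if `f(H) = 0`. -/
theorem Top_deriv (k : ℝ) {f f1 : CI H} (hf : IsD f f1) (h0 : ex f H = 0) :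
    Top k f1 = -f + |k| • Top k f := by
  symm
  apply Top_unique k (w1 := -f1 + |k| • (|k| • Top k f - f))
  · intro z hz
    exact (hf z hz).neg.add ((Top_isD k f z hz).const_smul |k|)
  · rw [ex_add, ex_neg, h0, ex_rsmul, Top_H]
    simp
  · refine ci_ext fun t _ => ?_
    simp only [ex_add, ex_sub, ex_neg, ex_rsmul]
    ring

theorem IsD.mul {f f1 g g1 : CI H} (hf : IsD f f1) (hg : IsD g g1) :
    IsD (f * g) (f1 * g + f * g1) := by
  intro z hz
  exact (hf z hz).mul (hg z hz)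

theorem Eop_zero_isD (f : CI H) : IsD (Eop 0 f) f := by
  have h1 := Eop_isD 0 f
  have h2 : f - |(0:ℝ)| • Eop 0 f = f := by
    refine ci_ext fun t _ => ?_
    simp
  rwa [h2] at h1

/-- EN-4: the linear part of the source. -/
theorem lin_source {ω : ℝ} {g g1 : CI H} {u : L1 (Xn H)} {n : ℤ} (hd : Dmode (ω * n) (u n)) :
    Bf ω (U0 g g1) u n + Bf ω u (U0 g g1) n = Lam (ω * n) g g1 (u n) := by
  have h1 : N0 ω (U0 g g1) u n = -(Eop 0 g * (u n).1.2.1) + g * (u n).1.1 := by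
    rw [N0_eq, conv_single_left (fun m hm => A1_U0_ne ω g g1 hm),
      conv_single_left (fun m hm => A2_U0_ne ω g g1 hm),
      conv_single_left (fun m hm => A3_U0_ne g g1 hm), A1_U0, A2_U0, A3_U0]
    refine ci_ext fun t _ => ?_
    simp [A6, A3]
  have h2 : N0 ω u (U0 g g1) n = om (ω * n) (jn (u n)) * g1 + (u n).1.1 * g := by
    rw [N0_eq, conv_single_right (fun m hm => A5_U0_ne ω g g1 hm),
      conv_single_right (fun m hm => A6_U0_ne g g1 hm),
      conv_single_right (fun m hm => A3_U0_ne g g1 hm), A5_U0, A6_U0, A3_U0, mul_zero, zero_add]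
    rfl
  have h3 : N1 ω (U0 g g1) u n = 0 := by
    rw [N1_eq, conv_single_left (fun m hm => A4_U0_ne ω g g1 hm), A4_U0, zero_mul, neg_zero]
  have h4 : N1 ω u (U0 g g1) n = Om (ω * n) (u n) * Eop 0 g := by
    rw [N1_eq, conv_single_right (fun m hm => A2_U0_ne ω g g1 hm), A2_U0]
    refine ci_ext fun t _ => ?_
    simp [A4]
  have h5 : N2 ω (U0 g g1) u n = 0 := by
    rw [N2_eq, conv_single_left (fun m hm => A4_U0_ne ω g g1 hm), A4_U0, zero_mul]
  have h6 : N2 ω u (U0 g g1) n = 0 := by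
    rw [N2_eq, conv_single_right (fun m hm => A1_U0_ne ω g g1 hm), A1_U0, mul_zero]
  rw [Bf, Bf, h1, h2, h3, h4, h5, h6, Lam]
  have hG := Eop_zero_isD g
  have e1 := Top_deriv (ω * n) (hG.mul hd.d2) (by rw [ex_mul, hd.h2, mul_zero])
  have e2 := Top_deriv (ω * n) (hG.mul hd.d1) (by rw [ex_mul, hd.h1, mul_zero])
  rw [map_add] at e1 e2
  have e3 : Om (ω * n) (u n) * Eop 0 g = -(Eop 0 g * (u n).2.2.1) + |ω * n| • (Eop 0 g * (u n).2.1)
      - is (ω * n) • (Eop 0 g * (u n).1.1) := by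
    refine ci_ext fun t _ => ?_
    rw [ex_mul, Om, hd.e2]
    simp only [ex_add, ex_sub, ex_neg, ex_smul, ex_rsmul, ex_mul]
    ring
  rw [e3]
  refine Prod.ext ?_ ?_
  · refine ci_ext fun t _ => ?_
    show ex (-(-(Eop 0 g * (u n).1.2.1) + g * (u n).1.1) +
      -(om (ω * n) (jn (u n)) * g1 + (u n).1.1 * g)) t = _
    simp only [ex_add, ex_sub, ex_neg, ex_rsmul, ex_mul]
    push_cast
    ring
  · refine ci_ext fun t _ => ?_
    show ex (Rν (ω * n) (-(Eop 0 g * (u n).1.2.1) + g * (u n).1.1) 0 0 +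
      Rν (ω * n) (om (ω * n) (jn (u n)) * g1 + (u n).1.1 * g)
        (-(Eop 0 g * (u n).2.2.1) + |ω * n| • (Eop 0 g * (u n).2.1) -
          is (ω * n) • (Eop 0 g * (u n).1.1)) 0) t = _
    have e1' := congrArg (fun f => ex f t) e1
    have e2' := congrArg (fun f => ex f t) e2
    simp only [ex_add, ex_neg, ex_rsmul, ex_mul] at e1' e2'
    simp only [Rν, map_add, map_sub, map_neg, map_zero, Top_rsmul, map_smul, ex_add, ex_sub, ex_neg,
      ex_smul, ex_rsmul, ex_mul, ex_zero]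
    rw [mul_comm (om (ω * n) (jn (u n))) g1, mul_comm (u n).1.1 g]
    linear_combination (-((|ω * n| : ℝ) : ℂ)) * e1' + is (ω * n) * e2'

theorem norm_U0_le (g g1 : CI H) : ‖U0 g g1‖ ≤ ‖g‖ + ‖g1‖ := by
  rw [U0, lp.norm_single (by norm_num)]
  have h1 := norm_nonneg g
  have h2 := norm_nonneg g1
  refine max_le (max_le (by simp only; linarith) (max_le (by simp only; linarith) ?_)) ?_
  · simp only [norm_zero]; positivity
  · simp only [Prod.mk_zero_zero, norm_zero]; positivity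

theorem U0_continuous : Continuous (fun p : CI H × CI H => U0 p.1 p.2) := by
  have h1 : Continuous (fun x : Xn H => (lp.single (E := fun _ : ℤ => Xn H) 1 (0:ℤ) x)) :=
    (lp.isometry_single (E := fun _ : ℤ => Xn H) (p := 1) (0:ℤ)).continuous
  exact h1.comp ((continuous_fst.prodMk (continuous_snd.prodMk continuous_const)).prodMk
    continuous_const)

end

end Pool.Agent.Lib.MP_79abb3_an.P25
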