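import Pool.Agent.Lib.MP_79abb3_an.P25.AbsA
import Pool.Agent.Lib.MP_79abb3_an.P25.OpA
import Pool.Agent.Lib.MP_79abb3_an.P25.SgTT

/-!
Mild solutions of the system for the modes: the single modes.
-/

set_option autoImplicit false
set_option linter.unusedSectionVars false

open MeasureTheory Set Filter Topology Function

namespace Pool.Agent.Lib.MP_79abb3_an.P25

/-- Evaluation of a family at `n`. -/
noncomputable def evN (E : Type) [NormedAddCommGroup E] [NormedSpace ℝ E] (n : ℤ) : L1 E →L[ℝ] E :=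
  LinearMap.mkContinuous
    { toFun := fun x => x n
      map_add' := fun _ _ => rfl
      map_smul' := fun _ _ => rfl } 1
    (fun x => by rw [one_mul]; exact lp.norm_apply_le_norm one_ne_zero x n)

@[simp] theorem evN_apply {E : Type} [NormedAddCommGroup E] [NormedSpace ℝ E] (n : ℤ) (x : L1 E) :
    evN E n x = x n := rfl

theorem norm_le_l1 {E : Type} [NormedAddCommGroup E] [NormedSpace ℝ E] (n : ℤ) (x : L1 E) :
    ‖x n‖ ≤ ‖x‖ := lp.norm_apply_le_norm one_ne_zero x n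

theorem clm_intervalIntegrable {E F : Type} [NormedAddCommGroup E] [NormedSpace ℝ E]
    [NormedAddCommGroup F] [NormedSpace ℝ F] (L : E →L[ℝ] F) {f : ℝ → E} {a b : ℝ}
    (hf : IntervalIntegrable f volume a b) : IntervalIntegrable (fun r => L (f r)) volume a b :=
  ⟨L.integrable_comp hf.1, L.integrable_comp hf.2⟩

theorem complete_L1 (E : Type) [NormedAddCommGroup E] [NormedSpace ℝ E] [CompleteSpace E] :
    CompleteSpace (L1 E) := inferInstance

/-- `O((t-s)^{-1/2})` is integrable. -/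
theorem intervalIntegrable_inv_sqrt (s b : ℝ) :
    IntervalIntegrable (fun t => (√(t - s))⁻¹) volume s b := by
  have h1 : IntervalIntegrable (fun x : ℝ => x ^ (-(1 / 2) : ℝ)) volume (s - s) (b - s) :=
    intervalIntegral.intervalIntegrable_rpow' (by norm_num)
  have h2 := h1.comp_sub_right s
  simp only [sub_add_cancel] at h2
  rcases le_total s b with hsb | hsb
  · refine h2.congr fun t ht => ?_
    rw [uIoc_of_le hsb] at ht
    show (t - s) ^ (-(1 / 2) : ℝ) = (√(t - s))⁻¹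
    rw [Real.rpow_neg (by linarith [ht.1]), Real.sqrt_eq_rpow]
  · -- here the square root vanishes
    have h3 : ∀ t ∈ uIoc s b, (√(t - s))⁻¹ = 0 := fun t ht => by
      rw [uIoc_of_ge hsb] at ht
      rw [Real.sqrt_eq_zero_of_nonpos (by linarith [ht.2]), inv_zero]
    exact (intervalIntegrable_const (c := (0:ℝ))).congr fun t ht => (h3 t ht).symm

/-- A continuous function on `(s,b]` which is `O((t-s)^{-1/2})` is integrable. -/
theorem intervalIntegrable_of_sing {E : Type} [NormedAddCommGroup E] [NormedSpace ℝ E]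
    {s b R : ℝ} (hsb : s ≤ b) {n : ℝ → E}
    (hc : ContinuousOn n (Ioc s b)) (hb : ∀ t ∈ Ioc s b, ‖n t‖ ≤ R * (√(t - s))⁻¹) :
    IntervalIntegrable n volume s b := by
  rw [intervalIntegrable_iff_integrableOn_Ioc_of_le hsb]
  have h1 : IntegrableOn (fun t => R * (√(t - s))⁻¹) (Ioc s b) := by
    rw [← intervalIntegrable_iff_integrableOn_Ioc_of_le hsb]
    exact (intervalIntegrable_inv_sqrt s b).const_mul R
  refine Integrable.mono' h1 (hc.aestronglyMeasurable measurableSet_Ioc) ?_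
  rw [ae_restrict_iff' measurableSet_Ioc]
  exact ae_of_all _ hb

section
variable {H : ℝ} [hH : Fact (0 < H)]

/-! ### The conditions `Dmode` as linear equations -/

theorem isD_iff {f f1 : CI H} : (IsD f f1 ∧ ex f 0 = 0) ↔ f = Eop 0 f1 := by
  constructor
  · rintro ⟨h, h0⟩
    refine Eop_unique 0 h h0 ?_
    rw [abs_zero]
    exact (congrArg (f1 + ·) (zero_smul ℝ f)).trans (add_zero f1)
  · rintro rfl
    refine ⟨?_, Eop_zero 0 f1⟩
    have h1 := Eop_isD 0 f1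
    have e : f1 - |(0:ℝ)| • Eop 0 f1 = f1 := by
      rw [abs_zero]
      exact (congrArg (f1 - ·) (zero_smul ℝ (Eop 0 f1))).trans (sub_zero f1)
    rwa [e] at h1

/-- projections -/
noncomputable def q1 (H : ℝ) [Fact (0 < H)] : Xn H →L[ℝ] CI H :=
  (ContinuousLinearMap.fst ℝ (CI H) (CI H × CI H)).comp
    (ContinuousLinearMap.fst ℝ (CI H × CI H × CI H) (CI H × CI H × CI H))
noncomputable def q2 (H : ℝ) [Fact (0 < H)] : Xn H →L[ℝ] CI H :=
  (ContinuousLinearMap.fst ℝ (CI H) (CI H)).comp ((ContinuousLinearMap.snd ℝ (CI H) (CI H × CI H)).comp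
    (ContinuousLinearMap.fst ℝ (CI H × CI H × CI H) (CI H × CI H × CI H)))
noncomputable def q3 (H : ℝ) [Fact (0 < H)] : Xn H →L[ℝ] CI H :=
  (ContinuousLinearMap.snd ℝ (CI H) (CI H)).comp ((ContinuousLinearMap.snd ℝ (CI H) (CI H × CI H)).comp
    (ContinuousLinearMap.fst ℝ (CI H × CI H × CI H) (CI H × CI H × CI H)))
noncomputable def q4 (H : ℝ) [Fact (0 < H)] : Xn H →L[ℝ] CI H :=
  (ContinuousLinearMap.fst ℝ (CI H) (CI H × CI H)).comp
    (ContinuousLinearMap.snd ℝ (CI H × CI H × CI H) (CI H × CI H × CI H))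
noncomputable def q5 (H : ℝ) [Fact (0 < H)] : Xn H →L[ℝ] CI H :=
  (ContinuousLinearMap.fst ℝ (CI H) (CI H)).comp ((ContinuousLinearMap.snd ℝ (CI H) (CI H × CI H)).comp
    (ContinuousLinearMap.snd ℝ (CI H × CI H × CI H) (CI H × CI H × CI H)))
noncomputable def q6 (H : ℝ) [Fact (0 < H)] : Xn H →L[ℝ] CI H :=
  (ContinuousLinearMap.snd ℝ (CI H) (CI H)).comp ((ContinuousLinearMap.snd ℝ (CI H) (CI H × CI H)).comp
    (ContinuousLinearMap.snd ℝ (CI H × CI H × CI H) (CI H × CI H × CI H)))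

theorem q1_apply (x : Xn H) : q1 H x = x.1.1 := rfl
theorem q2_apply (x : Xn H) : q2 H x = x.1.2.1 := rfl
theorem q3_apply (x : Xn H) : q3 H x = x.1.2.2 := rfl
theorem q4_apply (x : Xn H) : q4 H x = x.2.1 := rfl
theorem q5_apply (x : Xn H) : q5 H x = x.2.2.1 := rfl
theorem q6_apply (x : Xn H) : q6 H x = x.2.2.2 := rfl

/-- The defect of the conditions `Dmode`. -/
noncomputable def dfL (k : ℝ) : Xn H →L[ℝ] ((CI H × CI H) × (CI H × CI H)) × (ℂ × ℂ) :=
  (((q1 H - ((Eop 0).restrictScalars ℝ).comp (q2 H)).prod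
      (q4 H - ((Eop 0).restrictScalars ℝ).comp (q5 H))).prod
    ((q3 H - |k| • q1 H).prod (q6 H - |k| • q4 H))).prod
  (((evL H).comp (q1 H)).prod ((evL H).comp (q4 H)))

theorem dfL_apply (k : ℝ) (x : Xn H) : dfL k x =
    (((x.1.1 - Eop 0 x.1.2.1, x.2.1 - Eop 0 x.2.2.1), (x.1.2.2 - |k| • x.1.1, x.2.2.2 - |k| • x.2.1)),
      (ex x.1.1 H, ex x.2.1 H)) := rfl

theorem dmode_iff (k : ℝ) (x : Xn H) : Dmode k x ↔ dfL k x = 0 := by
  constructor
  · intro h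
    rw [dfL_apply, ← isD_iff.1 ⟨h.d1, h.z1⟩, ← isD_iff.1 ⟨h.d2, h.z2⟩, h.e1, h.e2, h.h1, h.h2]
    simp only [sub_self]
    rfl
  · intro h
    rw [dfL_apply] at h
    have h1 : x.1.1 - Eop 0 x.1.2.1 = 0 := congrArg (fun y => y.1.1.1) h
    have h2 : x.2.1 - Eop 0 x.2.2.1 = 0 := congrArg (fun y => y.1.1.2) h
    have h3 : x.1.2.2 - |k| • x.1.1 = 0 := congrArg (fun y => y.1.2.1) h
    have h4 : x.2.2.2 - |k| • x.2.1 = 0 := congrArg (fun y => y.1.2.2) h
    have h5 : ex x.1.1 H = 0 := congrArg (fun y => y.2.1) h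
    have h6 : ex x.2.1 H = 0 := congrArg (fun y => y.2.2) h
    have a1 := isD_iff.2 (sub_eq_zero.1 h1)
    have a2 := isD_iff.2 (sub_eq_zero.1 h2)
    exact ⟨a1.1, a2.1, sub_eq_zero.1 h3, sub_eq_zero.1 h4, a1.2, a2.2, h5, h6⟩

theorem IsD.rsmul {f f1 : CI H} (h : IsD f f1) (c : ℝ) : IsD (c • f) (c • f1) := by
  intro z hz
  exact (h z hz).const_mul (c : ℂ)

theorem Tn_dmode {S D A : ℝ → (CI H →L[ℂ] CI H)} (hS : DirSG H S D A) (k : ℝ) {t : ℝ} (ht : 0 < t)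
    (y : Yn H) : Dmode k (Tn S D k t y) where
  d1 := (hS.S_der t ht y.1).rsmul _
  d2 := (hS.S_der t ht y.2).rsmul _
  e1 := smul_comm _ _ _
  e2 := smul_comm _ _ _
  z1 := by
    show ex (Real.exp (-k ^ 2 * t) • S t y.1) 0 = 0
    rw [ex_rsmul, hS.S_zero t ht, mul_zero]
  z2 := by
    show ex (Real.exp (-k ^ 2 * t) • S t y.2) 0 = 0
    rw [ex_rsmul, hS.S_zero t ht, mul_zero]
  h1 := by
    show ex (Real.exp (-k ^ 2 * t) • S t y.1) H = 0
    rw [ex_rsmul, hS.S_H t ht, mul_zero]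
  h2 := by
    show ex (Real.exp (-k ^ 2 * t) • S t y.2) H = 0
    rw [ex_rsmul, hS.S_H t ht, mul_zero]

/-! ### MO-10: mode-wise mild formula. -/

theorem Mild.mode_aux {S D A : ℝ → (CI H →L[ℂ] CI H)} (hS : DirSG H S D A) {ω C : ℝ}
    {B : L1 (Xn H) →L[ℝ] L1 (Xn H) →L[ℝ] L1 (Yn H)} (hB : BilB (jL H) B C) (hC : 1 ≤ C)
    {s b M MF : ℝ} (hM : 0 ≤ M) (hsb : b ≤ s + 1)
    {Λ : ℝ → (L1 (Xn H) →L[ℝ] L1 (Yn H))} {F : ℝ → L1 (Yn H)} (hc : Coef (jL H) s b M MF Λ F)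
    {u0 : L1 (Yn H)} {u : ℝ → L1 (Xn H)} (h : Mild (jL H) (TT hS ω) B Λ F s b u0 u) :
    ∀ t ∈ Ioc s b, ∀ n : ℤ,
      IntervalIntegrable (fun r => Tn S D (ω * n) (t - r) ((Λ r (u r) + B (u r) (u r) + F r) n))
        volume s t ∧
      u t n = Tn S D (ω * n) (t - s) (u0 n) +
        ∫ r in s..t, Tn S D (ω * n) (t - r) ((Λ r (u r) + B (u r) (u r) + F r) n) := by
  intro t ht n
  have : CompleteSpace (L1 (Xn H)) := complete_L1 (Xn H)
  obtain ⟨hNc, R, hR, hNb⟩ := Mild.rhs (sg_TT hS ω hC) hB hM hc h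
  have hI := (duhamel (sg_TT hS ω hC) hsb hR hNc hNb).1 t ht
  have hI2 := clm_intervalIntegrable (evN (Xn H) n) hI
  have hcong : ∀ r ∈ Ioo s t, evN (Xn H) n (TT hS ω (t - r) (Λ r (u r) + B (u r) (u r) + F r)) =
      Tn S D (ω * n) (t - r) ((Λ r (u r) + B (u r) (u r) + F r) n) := fun r hr => by
    rw [evN_apply, TT_apply hS ω (by linarith [hr.2])]
  constructor
  · refine hI2.congr_uIoo fun r hr => ?_
    rw [uIoo_of_le ht.1.le] at hr
    exact hcong r hr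
  · have h1 := congrArg (evN (Xn H) n) (h.eq t ht)
    rw [map_add, ← ContinuousLinearMap.intervalIntegral_comp_comm _ hI] at h1
    rw [intervalIntegral.integral_congr_Ioo_of_le ht.1.le hcong, evN_apply, evN_apply,
      TT_apply hS ω (by linarith [ht.1])] at h1
    exact h1

theorem Mild.mode {S D A : ℝ → (CI H →L[ℂ] CI H)} (hS : DirSG H S D A) {ω C : ℝ}
    {B : L1 (Xn H) →L[ℝ] L1 (Xn H) →L[ℝ] L1 (Yn H)} (hB : BilB (jL H) B C) (hC : 1 ≤ C)
    {s b M MF : ℝ} (hM : 0 ≤ M) (hsb : b ≤ s + 1)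
    {Λ : ℝ → (L1 (Xn H) →L[ℝ] L1 (Yn H))} {F : ℝ → L1 (Yn H)} (hc : Coef (jL H) s b M MF Λ F)
    {u0 : L1 (Yn H)} {u : ℝ → L1 (Xn H)} (h : Mild (jL H) (TT hS ω) B Λ F s b u0 u) :
    ∀ t ∈ Ioc s b, ∀ n : ℤ, u t n = Tn S D (ω * n) (t - s) (u0 n) +
      ∫ r in s..t, Tn S D (ω * n) (t - r) ((Λ r (u r) + B (u r) (u r) + F r) n) :=
  fun t ht n => (Mild.mode_aux hS hB hC hM hsb hc h t ht n).2

/-! ### MO-7: mild solutions consist of compatible modes. -/

theorem Mild.dmode {S D A : ℝ → (CI H →L[ℂ] CI H)} (hS : DirSG H S D A) {ω C : ℝ}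
    {B : L1 (Xn H) →L[ℝ] L1 (Xn H) →L[ℝ] L1 (Yn H)} (hB : BilB (jL H) B C) (hC : 1 ≤ C)
    {s b M MF : ℝ} (hM : 0 ≤ M) (hsb : b ≤ s + 1)
    {Λ : ℝ → (L1 (Xn H) →L[ℝ] L1 (Yn H))} {F : ℝ → L1 (Yn H)} (hc : Coef (jL H) s b M MF Λ F)
    {u0 : L1 (Yn H)} {u : ℝ → L1 (Xn H)} (h : Mild (jL H) (TT hS ω) B Λ F s b u0 u) :
    ∀ t ∈ Ioc s b, ∀ n : ℤ, Dmode (ω * n) (u t n) := by
  intro t ht n
  obtain ⟨hI, he⟩ := Mild.mode_aux hS hB hC hM hsb hc h t ht n
  rw [dmode_iff, he, map_add, ← ContinuousLinearMap.intervalIntegral_comp_comm _ hI]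
  have h0 : ∀ r ∈ Ioo s t, dfL (ω * n) (Tn S D (ω * n) (t - r)
      ((Λ r (u r) + B (u r) (u r) + F r) n)) = (fun _ : ℝ => 0) r := fun r hr =>
    (dmode_iff _ _).1 (Tn_dmode hS _ (by linarith [hr.2]) _)
  rw [intervalIntegral.integral_congr_Ioo_of_le ht.1.le h0,
    (dmode_iff _ _).1 (Tn_dmode hS _ (by linarith [ht.1]) _)]
  simp

/-! ### MO-9: summable bounds. -/

theorem Mild.sum_bounds {S D A : ℝ → (CI H →L[ℂ] CI H)} (hS : DirSG H S D A) {ω C : ℝ}
    {B : L1 (Xn H) →L[ℝ] L1 (Xn H) →L[ℝ] L1 (Yn H)} (hB : BilB (jL H) B C) (hC : 1 ≤ C)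
    {s b M MF : ℝ} (hM : 0 ≤ M) (hsb : b ≤ s + 1)
    {Λ : ℝ → (L1 (Xn H) →L[ℝ] L1 (Yn H))} {F : ℝ → L1 (Yn H)} (hc : Coef (jL H) s b M MF Λ F)
    {u0 : L1 (Yn H)} {u : ℝ → L1 (Xn H)} (h : Mild (jL H) (TT hS ω) B Λ F s b u0 u) :
    ∃ c : ℤ → ℝ, Summable c ∧ ∀ n, (∀ t ∈ Ioc s b, ‖jn (u t n)‖ ≤ c n) ∧
      ∫ t in s..b, ‖(Λ t (u t) + B (u t) (u t) + F t) n‖ ≤ c n := by
  rcases le_or_gt b s with hbs | hbs
  · refine ⟨fun _ => 0, summable_zero, fun n => ⟨fun t ht => ?_, ?_⟩⟩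
    · exact absurd (ht.1.trans_le ht.2) (not_lt.2 hbs)
    · rw [intervalIntegral.integral_symm, neg_nonpos]
      exact intervalIntegral.integral_nonneg hbs fun t _ => norm_nonneg _
  have : CompleteSpace (L1 (Xn H)) := complete_L1 (Xn H)
  obtain ⟨hNc, R, hR, hNb⟩ := Mild.rhs (sg_TT hS ω hC) hB hM hc h
  have hNI : IntervalIntegrable (fun t => Λ t (u t) + B (u t) (u t) + F t) volume s b :=
    intervalIntegrable_of_sing hbs.le hNc hNb
  have hNn : ∀ n : ℤ, IntervalIntegrable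
      (fun t => ‖(Λ t (u t) + B (u t) (u t) + F t) n‖) volume s b := fun n =>
    (clm_intervalIntegrable (evN (Yn H) n) hNI).norm
  have hJ0 : ∀ n : ℤ, 0 ≤ ∫ t in s..b, ‖(Λ t (u t) + B (u t) (u t) + F t) n‖ := fun n =>
    intervalIntegral.integral_nonneg hbs.le fun t _ => norm_nonneg _
  refine ⟨fun n => ‖u0 n‖ + ∫ t in s..b, ‖(Λ t (u t) + B (u t) (u t) + F t) n‖, ?_, fun n =>
    ⟨fun t ht => ?_, ?_⟩⟩
  · refine (l1_summable u0).add ?_
    refine summable_of_sum_le (c := ∫ t in s..b, ‖Λ t (u t) + B (u t) (u t) + F t‖) hJ0 fun G => ?_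
    rw [← intervalIntegral.integral_finsetSum fun n _ => hNn n]
    refine intervalIntegral.integral_mono_on hbs.le ?_ hNI.norm fun t _ => ?_
    · have h3 := IntervalIntegrable.sum G fun n _ => hNn n
      refine h3.congr fun t _ => ?_
      simp only [Finset.sum_apply]
    · rw [l1_norm]
      exact (l1_summable _).sum_le_tsum G fun n _ => norm_nonneg _
  · obtain ⟨hI, he⟩ := Mild.mode_aux hS hB hC hM hsb hc h t ht n
    have he2 : jn (u t n) = jn (Tn S D (ω * n) (t - s) (u0 n)) +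
        ∫ r in s..t, jn (Tn S D (ω * n) (t - r) ((Λ r (u r) + B (u r) (u r) + F r) n)) := by
      have h1 := congrArg (jnL H) he
      rw [map_add, ← ContinuousLinearMap.intervalIntegral_comp_comm _ hI] at h1
      exact h1
    rw [he2]
    refine (norm_add_le _ _).trans (add_le_add ?_ ?_)
    · exact norm_jn_Tn_le hS _ (by linarith [ht.1]) _
    · have hsub : IntervalIntegrable
          (fun r => ‖(Λ r (u r) + B (u r) (u r) + F r) n‖) volume s t :=
        (hNn n).mono_set' (by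
          rw [uIoc_of_le ht.1.le, uIoc_of_le hbs.le]
          exact Ioc_subset_Ioc_right ht.2)
      have h2 : ‖∫ r in s..t, jn (Tn S D (ω * n) (t - r) ((Λ r (u r) + B (u r) (u r) + F r) n))‖ ≤
          ∫ r in s..t, ‖(Λ r (u r) + B (u r) (u r) + F r) n‖ := by
        refine intervalIntegral.norm_integral_le_of_norm_le ht.1.le ?_ hsub
        filter_upwards [Measure.ae_ne volume t] with r hr1 hr2
        exact norm_jn_Tn_le hS _ (sub_pos.2 (lt_of_le_of_ne hr2.2 hr1)) _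
      refine h2.trans ?_
      refine intervalIntegral.integral_mono_interval le_rfl ht.1.le ht.2 ?_ (hNn n)
      exact ae_of_all _ fun r => norm_nonneg _
  · exact le_add_of_nonneg_left (norm_nonneg _)

end

end Pool.Agent.Lib.MP_79abb3_an.P25
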