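import Pool.Agent.Lib.MP_79abb3_an.P25.AbsDef
import Pool.Agent.Lib.MP_79abb3_an.P25.Modes

/-!
Change of weight for mild solutions of the mode system.
-/

set_option autoImplicit false
set_option linter.unusedSectionVars false

open MeasureTheory Set Filter Topology Function

namespace Pool.Agent.Lib.MP_79abb3_an.P25

theorem completeSpace_L1 {E : Type} [NormedAddCommGroup E] [NormedSpace ℝ E] [CompleteSpace E] :
    CompleteSpace (L1 E) := inferInstance

/-- Multiplication of the modes by real factors in `[0,1]`. -/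
noncomputable def scaleL (E : Type) [NormedAddCommGroup E] [NormedSpace ℝ E] (c : ℤ → ℝ)
    (hc : ∀ n, |c n| ≤ 1) : L1 E →L[ℝ] L1 E :=
  diagL (fun n => c n • ContinuousLinearMap.id ℝ E) 1 (fun n x => by
    rw [smul_apply, ContinuousLinearMap.id_apply, norm_smul, Real.norm_eq_abs]
    exact mul_le_mul_of_nonneg_right (hc n) (norm_nonneg x))

@[simp] theorem scaleL_apply {E : Type} [NormedAddCommGroup E] [NormedSpace ℝ E] (c : ℤ → ℝ)
    (hc : ∀ n, |c n| ≤ 1) (x : L1 E) (n : ℤ) : scaleL E c hc x n = c n • x n := rfl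

theorem norm_scaleL_le {E : Type} [NormedAddCommGroup E] [NormedSpace ℝ E] (c : ℤ → ℝ)
    (hc : ∀ n, |c n| ≤ 1) (x : L1 E) : ‖scaleL E c hc x‖ ≤ ‖x‖ := by
  have := norm_diagL_le (fun n => c n • ContinuousLinearMap.id ℝ E) 1 (fun n x => by
    rw [smul_apply, ContinuousLinearMap.id_apply, norm_smul, Real.norm_eq_abs]
    exact mul_le_mul_of_nonneg_right (hc n) (norm_nonneg x)) x
  rwa [one_mul] at this

section
variable {H : ℝ} [hH : Fact (0 < H)]

theorem jL_scaleL (c : ℤ → ℝ) (hc : ∀ n, |c n| ≤ 1) (x : L1 (Xn H)) :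
    jL H (scaleL (Xn H) c hc x) = scaleL (Yn H) c hc (jL H x) := by
  refine lp.ext ?_
  funext n
  rw [jL_apply, scaleL_apply, scaleL_apply, jL_apply]
  rfl

theorem TT_scaleL {S D A : ℝ → (CI H →L[ℂ] CI H)} (hS : DirSG H S D A) (ω t : ℝ) (c : ℤ → ℝ)
    (hc : ∀ n, |c n| ≤ 1) (y : L1 (Yn H)) :
    TT hS ω t (scaleL (Yn H) c hc y) = scaleL (Xn H) c hc (TT hS ω t y) := by
  by_cases ht : 0 < t
  · refine lp.ext ?_
    funext n
    rw [TT_apply hS ω ht, scaleL_apply, scaleL_apply, TT_apply hS ω ht, ← TnL_apply, map_smul,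
      TnL_apply]
  · have h0 : TT hS ω t = 0 := by rw [TT, dif_neg ht]
    rw [h0]
    simp

/-! MO-8: change of weight. -/

theorem Mild.rescale {S D A : ℝ → (CI H →L[ℂ] CI H)} (hS : DirSG H S D A) {ω CW CW' : ℝ} {W W' : ℤ → ℝ}
    (hW : Wt CW W) (hW' : Wt CW' W') (hle : ∀ n, W' n ≤ W n)
    {B B' : L1 (Xn H) →L[ℝ] L1 (Xn H) →L[ℝ] L1 (Yn H)} (hB : IsBW ω W B) (hB' : IsBW ω W' B')
    {s b : ℝ} {U U' : ℝ → L1 (Xn H)} {F F' : ℝ → L1 (Yn H)}
    (hU : ∀ t ∈ Ioc s b, ∀ n, U' t n = (W' n / W n) • U t n)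
    (hF : ∀ t ∈ Ioc s b, ∀ n, F' t n = (W' n / W n) • F t n)
    {u0 u0' : L1 (Yn H)} (hu0 : ∀ n, u0' n = (W' n / W n) • u0 n) {u : ℝ → L1 (Xn H)}
    (hi : ∀ t ∈ Ioc s b, IntervalIntegrable
      (fun r => TT hS ω (t - r) (lamU B U r (u r) + B (u r) (u r) + F r)) volume s t)
    (h : Mild (jL H) (TT hS ω) B (lamU B U) F s b u0 u) :
    ∃ u' : ℝ → L1 (Xn H), (∀ t n, u' t n = (W' n / W n) • u t n) ∧
      Mild (jL H) (TT hS ω) B' (lamU B' U') F' s b u0' u' := by
  have hXc : CompleteSpace (L1 (Xn H)) := completeSpace_L1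
  have hp : ∀ n, 0 < W n := fun n => lt_of_lt_of_le one_pos (hW.one_le n)
  have hp' : ∀ n, 0 < W' n := fun n => lt_of_lt_of_le one_pos (hW'.one_le n)
  have hc : ∀ n, |W' n / W n| ≤ 1 := by
    intro n
    rw [abs_of_pos (div_pos (hp' n) (hp n)), div_le_one (hp n)]
    exact hle n
  set c : ℤ → ℝ := fun n => W' n / W n with hcdef
  set RX := scaleL (Xn H) c hc with hRX
  set RY := scaleL (Yn H) c hc with hRY
  have hBR : ∀ x y, RY (B x y) = B' (RX x) (RX y) := by
    intro x y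
    refine lp.ext ?_
    funext n
    rw [hB' (RX x) (RX y) n, hRY, scaleL_apply, hB x y n, smul_smul]
    have e1 : c n * W n = W' n := div_mul_cancel₀ _ (hp n).ne'
    have e2 : ∀ z : L1 (Xn H), (fun m => (W' m)⁻¹ • RX z m) = fun m => (W m)⁻¹ • z m := by
      intro z
      funext m
      rw [hRX, scaleL_apply, smul_smul]
      congr 1
      show (W' m)⁻¹ * (W' m / W m) = (W m)⁻¹
      have := (hp' m).ne'
      have := (hp m).ne'
      field_simp
    rw [e1, e2, e2]
  have hU' : ∀ t ∈ Ioc s b, U' t = RX (U t) := fun t ht => lp.ext (funext fun n => hU t ht n)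
  have hF' : ∀ t ∈ Ioc s b, F' t = RY (F t) := fun t ht => lp.ext (funext fun n => hF t ht n)
  have hu0' : u0' = RY u0 := lp.ext (funext fun n => hu0 n)
  refine ⟨fun t => RX (u t), fun t n => rfl, ?_, ?_, ?_⟩
  · exact RX.continuous.comp_continuousOn h.cont
  · obtain ⟨R, hR⟩ := h.bd
    refine ⟨R, fun t ht => ?_⟩
    obtain ⟨h1, h2⟩ := hR t ht
    constructor
    · refine le_trans ?_ h1
      have := norm_scaleL_le c hc (u t)
      gcongr
    · rw [hRX, jL_scaleL]
      exact (norm_scaleL_le c hc _).trans h2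
  · intro t ht
    show RX (u t) = _
    have h1 : ∫ r in s..t, RX (TT hS ω (t - r) (lamU B U r (u r) + B (u r) (u r) + F r)) =
        RX (∫ r in s..t, TT hS ω (t - r) (lamU B U r (u r) + B (u r) (u r) + F r)) :=
      RX.intervalIntegral_comp_comm (hi t ht)
    rw [h.eq t ht, map_add, ← h1, hu0', hRY, TT_scaleL, ← hRX]
    congr 1
    refine intervalIntegral.integral_congr_ae (Eventually.of_forall fun r hr => ?_)
    rw [uIoc_of_le ht.1.le] at hr
    have hr' : r ∈ Ioc s b := ⟨hr.1, hr.2.trans ht.2⟩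
    rw [hRX, ← TT_scaleL, ← hRY, ← hRX]
    congr 1
    simp only [lamU, add_apply, ContinuousLinearMap.flip_apply, map_add, hBR, hU' r hr', hF' r hr']

end

end Pool.Agent.Lib.MP_79abb3_an.P25
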