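import Pool.Agent.Lib.MP_79abb3_an.P25.AbsDef
import Pool.Agent.Lib.MP_79abb3_an.Duh

/-!
Abstract semilinear parabolic equations: Duhamel integrals.
-/

set_option autoImplicit false
set_option linter.unusedSectionVars false
set_option linter.unusedVariables false

open MeasureTheory Set Filter Topology Function

namespace Pool.Agent.Lib.MP_79abb3_an.P25

/-! ### Scalar integrals -/

theorem one_le_inv_sqrt {x : ℝ} (h0 : 0 < x) (h1 : x ≤ 1) : 1 ≤ (√x)⁻¹ := by
  have hs : 0 < √x := Real.sqrt_pos.2 h0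
  rw [le_inv_comm₀ one_pos hs, inv_one]
  exact Real.sqrt_le_one.2 h1

theorem intervalIntegrable_isqL (s a b : ℝ) :
    IntervalIntegrable (fun r : ℝ => (√(r - s))⁻¹) volume a b := by
  have := (intervalIntegrable_isq (a - s) (b - s)).comp_sub_right s
  simpa using this

theorem integral_isqL {s t : ℝ} (h : s ≤ t) : ∫ r in s..t, (√(r - s))⁻¹ = 2 * √(t - s) := by
  have := intervalIntegral.integral_comp_sub_right (fun r : ℝ => (√r)⁻¹) (a := s) (b := t) s
  rw [this, sub_self, integral_isq (by linarith)]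

theorem integral_isqR {s t : ℝ} (h : s ≤ t) : ∫ r in s..t, (√(t - r))⁻¹ = 2 * √(t - s) := by
  have := intervalIntegral.integral_comp_sub_left (fun r : ℝ => (√r)⁻¹) (a := s) (b := t) t
  rw [this, sub_self, integral_isq (by linarith)]

theorem integral_beta_le_four {t : ℝ} (ht : 0 < t) :
    ∫ s in (0:ℝ)..t, (√(t - s))⁻¹ * (√s)⁻¹ ≤ 4 := by
  have hi := intervalIntegrable_beta ht
  have hsub : uIcc (0:ℝ) (t / 2) ⊆ uIcc 0 t := by
    rw [uIcc_of_le (by linarith), uIcc_of_le ht.le]
    exact Icc_subset_Icc_right (by linarith)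
  have hsub' : uIcc (t / 2) t ⊆ uIcc 0 t := by
    rw [uIcc_of_le (by linarith), uIcc_of_le ht.le]
    exact Icc_subset_Icc_left (by linarith)
  have h1 : ∫ s in (0:ℝ)..(t / 2), (√(t - s))⁻¹ * (√s)⁻¹ ≤ 2 := by
    have hle : ∫ s in (0:ℝ)..(t / 2), (√(t - s))⁻¹ * (√s)⁻¹ ≤
        ∫ s in (0:ℝ)..(t / 2), (√(t / 2))⁻¹ * (√s)⁻¹ := by
      refine intervalIntegral.integral_mono_on (by linarith) (hi.mono_set hsub)
        ((intervalIntegrable_isq 0 (t / 2)).const_mul _) ?_
      intro x hx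
      have h3 : 0 < √(t / 2) := Real.sqrt_pos.2 (by linarith)
      have h4 : √(t / 2) ≤ √(t - x) := Real.sqrt_le_sqrt (by linarith [hx.2])
      gcongr
    refine hle.trans (le_of_eq ?_)
    rw [intervalIntegral.integral_const_mul, integral_isq (by linarith)]
    have h3 : √(t / 2) ≠ 0 := (Real.sqrt_pos.2 (by linarith)).ne'
    field_simp
  have h2 : ∫ s in (t / 2)..t, (√(t - s))⁻¹ * (√s)⁻¹ ≤ 2 := by
    have := intervalIntegral.integral_comp_sub_left (fun s : ℝ => (√(t - s))⁻¹ * (√s)⁻¹)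
      (a := t / 2) (b := t) t
    rw [sub_self] at this
    have h3 : t - t / 2 = t / 2 := by ring
    rw [h3] at this
    rw [← this] at h1
    refine le_trans (le_of_eq ?_) h1
    congr 1
    ext s
    rw [sub_sub_cancel, mul_comm]
  rw [← intervalIntegral.integral_add_adjacent_intervals (hi.mono_set hsub) (hi.mono_set hsub')]
  linarith

theorem intervalIntegrable_betaS {s t : ℝ} (h : s < t) :
    IntervalIntegrable (fun r : ℝ => (√(t - r))⁻¹ * (√(r - s))⁻¹) volume s t := by
  have := (intervalIntegrable_beta (t := t - s) (by linarith)).comp_sub_right s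
  simp only [zero_add, sub_add_cancel] at this
  refine this.congr fun r _ => ?_
  show (√(t - s - (r - s)))⁻¹ * (√(r - s))⁻¹ = (√(t - r))⁻¹ * (√(r - s))⁻¹
  congr 3
  ring

theorem integral_betaS_le {s t : ℝ} (h : s < t) :
    ∫ r in s..t, (√(t - r))⁻¹ * (√(r - s))⁻¹ ≤ 4 := by
  have h1 := integral_beta_le_four (t := t - s) (by linarith)
  have h2 := intervalIntegral.integral_comp_sub_right
    (fun r : ℝ => (√(t - s - r))⁻¹ * (√r)⁻¹) (a := s) (b := t) s
  rw [sub_self] at h2
  rw [← h2] at h1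
  refine le_trans (le_of_eq ?_) h1
  congr 1
  ext r
  congr 3
  ring

section Abs
variable {X Y : Type} [NormedAddCommGroup X] [NormedSpace ℝ X] [CompleteSpace X]
  [NormedAddCommGroup Y] [NormedSpace ℝ Y] [CompleteSpace Y]
  {j : X →L[ℝ] Y} {T : ℝ → (Y →L[ℝ] X)} {B : X →L[ℝ] X →L[ℝ] Y} {C : ℝ}

/-- Joint continuity of the semigroup along curves. -/
theorem SG.contAt (hT : SG j T C) {Z : Type} [TopologicalSpace Z] {S : Set Z} {f : Z → ℝ}
    {n : Z → Y} {z0 : Z} (hz : z0 ∈ S) (hf : ContinuousWithinAt f S z0)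
    (hmem : ∀ z ∈ S, f z ∈ Ioc (0:ℝ) 1) (hn : ContinuousWithinAt n S z0) :
    ContinuousWithinAt (fun z => T (f z) (n z)) S z0 := by
  have h0 := hmem z0 hz
  have hs0 : √(f z0) ≠ 0 := (Real.sqrt_pos.2 h0.1).ne'
  have h1 : Tendsto (fun z => C * (√(f z))⁻¹) (𝓝[S] z0) (𝓝 (C * (√(f z0))⁻¹)) := by
    have : ContinuousWithinAt (fun z => C * (√(f z))⁻¹) S z0 :=
      continuousWithinAt_const.mul ((hf.sqrt).inv₀ hs0)
    exact this
  have h2 : Tendsto (fun z => ‖n z - n z0‖) (𝓝[S] z0) (𝓝 0) :=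
    tendsto_iff_norm_sub_tendsto_zero.1 hn
  have h3 : Tendsto (fun z => ‖T (f z) (n z0) - T (f z0) (n z0)‖) (𝓝[S] z0) (𝓝 0) := by
    have hc : ContinuousAt (fun t => T t (n z0)) (f z0) :=
      (hT.cont (n z0)).continuousAt (Ioi_mem_nhds h0.1)
    exact tendsto_iff_norm_sub_tendsto_zero.1 (hc.comp_continuousWithinAt hf)
  have hlim := (h1.mul h2).add h3
  rw [mul_zero, add_zero] at hlim
  refine tendsto_iff_norm_sub_tendsto_zero.2 ?_
  refine squeeze_zero' (Eventually.of_forall fun _ => norm_nonneg _) ?_ hlim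
  filter_upwards [self_mem_nhdsWithin] with z hzS
  calc ‖T (f z) (n z) - T (f z0) (n z0)‖
      = ‖T (f z) (n z - n z0) + (T (f z) (n z0) - T (f z0) (n z0))‖ := by
        rw [map_sub]; congr 1; abel
    _ ≤ ‖T (f z) (n z - n z0)‖ + ‖T (f z) (n z0) - T (f z0) (n z0)‖ := norm_add_le _ _
    _ ≤ _ := by
        gcongr
        exact hT.b1 (f z) (hmem z hzS) _

theorem SG.contOn_int (hT : SG j T C) {s b : ℝ} (hsb : b ≤ s + 1) {n : ℝ → Y}
    (hc : ContinuousOn n (Ioc s b)) {t : ℝ} (ht : t ≤ b) :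
    ContinuousOn (fun r => T (t - r) (n r)) (Ioo s t) := by
  intro r hr
  refine hT.contAt hr (by fun_prop) ?_ ((hc r ⟨hr.1, by linarith [hr.2]⟩).mono ?_)
  · intro z hz
    exact ⟨by linarith [hz.2], by linarith [hz.1]⟩
  · intro z hz
    exact ⟨hz.1, by linarith [hz.2]⟩

theorem SG.aesm_int (hT : SG j T C) {s b : ℝ} (hsb : b ≤ s + 1) {n : ℝ → Y}
    (hc : ContinuousOn n (Ioc s b)) {t : ℝ} (ht : t ≤ b) :
    AEStronglyMeasurable (fun r => T (t - r) (n r)) (volume.restrict (Ioc s t)) := by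
  rw [← restrict_Ioo_eq_restrict_Ioc]
  exact (hT.contOn_int hsb hc ht).aestronglyMeasurable measurableSet_Ioo

/-- AB-1. Properties of the Duhamel integral `∫_s^t T(t-r) n(r) dr` for a source `n` which is
`O((t-s)^{-1/2})`. -/
theorem duhamel (hT : SG j T C) {s b R : ℝ} (hsb : b ≤ s + 1) {n : ℝ → Y} (hR : 0 ≤ R)
    (hc : ContinuousOn n (Ioc s b)) (hb : ∀ t ∈ Ioc s b, ‖n t‖ ≤ R * (√(t - s))⁻¹) :
    (∀ t ∈ Ioc s b, IntervalIntegrable (fun r => T (t - r) (n r)) volume s t) ∧
    (∀ t ∈ Ioc s b, ‖∫ r in s..t, T (t - r) (n r)‖ ≤ 4 * C * R) ∧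
    (∀ t ∈ Ioc s b, ‖j (∫ r in s..t, T (t - r) (n r))‖ ≤ 2 * C * R * √(t - s)) ∧
    ContinuousOn (fun t => ∫ r in s..t, T (t - r) (n r)) (Ioc s b) ∧
    (∀ a ∈ Ioo s b, ∀ t ∈ Ioc a b, (∫ r in s..t, T (t - r) (n r)) =
      T (t - a) (j (∫ r in s..a, T (a - r) (n r))) + ∫ r in a..t, T (t - r) (n r)) := by
  have hC1 := hT.one_le
  have hC0 : 0 ≤ C := by linarith
  have hbound : ∀ t ∈ Ioc s b, ∀ r ∈ Ioo s t,
      ‖T (t - r) (n r)‖ ≤ C * R * ((√(t - r))⁻¹ * (√(r - s))⁻¹) := by
    intro t ht r hr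
    calc ‖T (t - r) (n r)‖ ≤ C * (√(t - r))⁻¹ * ‖n r‖ :=
          hT.b1 (t - r) ⟨by linarith [hr.2], by linarith [hr.1, ht.2]⟩ _
      _ ≤ C * (√(t - r))⁻¹ * (R * (√(r - s))⁻¹) := by
          gcongr
          exact hb r ⟨hr.1, by linarith [hr.2, ht.2]⟩
      _ = _ := by ring
  have hae : ∀ t : ℝ, ∀ᵐ r : ℝ, r ≠ t := fun t => by
    have : (volume : Measure ℝ) {t} = 0 := Real.volume_singleton
    rw [ae_iff]
    simp
  have hI : ∀ t ∈ Ioc s b, IntervalIntegrable (fun r => T (t - r) (n r)) volume s t := by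
    intro t ht
    rw [intervalIntegrable_iff_integrableOn_Ioc_of_le ht.1.le]
    have hg := ((intervalIntegrable_betaS ht.1).const_mul (C * R))
    rw [intervalIntegrable_iff_integrableOn_Ioc_of_le ht.1.le] at hg
    refine Integrable.mono' hg (hT.aesm_int hsb hc ht.2) ?_
    rw [ae_restrict_iff' measurableSet_Ioc]
    filter_upwards [hae t] with r hr hrm
    exact hbound t ht r ⟨hrm.1, lt_of_le_of_ne hrm.2 hr⟩
  refine ⟨hI, ?_, ?_, ?_, ?_⟩
  · intro t ht
    refine (intervalIntegral.norm_integral_le_of_norm_le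
      (g := fun r => C * R * ((√(t - r))⁻¹ * (√(r - s))⁻¹)) ht.1.le ?_
      ((intervalIntegrable_betaS ht.1).const_mul (C * R))).trans ?_
    · filter_upwards [hae t] with r hr hrm
      exact hbound t ht r ⟨hrm.1, lt_of_le_of_ne hrm.2 hr⟩
    · rw [intervalIntegral.integral_const_mul]
      have := integral_betaS_le ht.1
      have h2 : 0 ≤ C * R := by positivity
      nlinarith
  · intro t ht
    rw [← j.intervalIntegral_comp_comm (hI t ht)]
    refine (intervalIntegral.norm_integral_le_of_norm_le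
      (g := fun r => C * R * (√(r - s))⁻¹) ht.1.le ?_
      ((intervalIntegrable_isqL s s t).const_mul (C * R))).trans ?_
    · filter_upwards [hae t] with r hr hrm
      have hrt : r < t := lt_of_le_of_ne hrm.2 hr
      calc ‖j (T (t - r) (n r))‖ ≤ C * ‖n r‖ :=
            hT.b0 (t - r) ⟨by linarith, by linarith [hrm.1, ht.2]⟩ _
        _ ≤ C * (R * (√(r - s))⁻¹) := by
            gcongr
            exact hb r ⟨hrm.1, by linarith [ht.2]⟩
        _ = _ := by ring
    · rw [intervalIntegral.integral_const_mul, integral_isqL ht.1.le]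
      exact le_of_eq (by ring)
  · -- continuity
    intro t0 ht0
    have hcv : ∀ t ∈ Ioc s b, (∫ r in s..t, T (t - r) (n r)) =
        ∫ x in (0:ℝ)..1, (t - s) • T ((t - s) * (1 - x)) (n (s + (t - s) * x)) := by
      intro t ht
      rw [intervalIntegral.integral_smul]
      have h1 := intervalIntegral.smul_integral_comp_add_mul (fun r => T (t - r) (n r))
        (a := 0) (b := 1) (t - s) s
      rw [mul_zero, mul_one, add_zero, add_sub_cancel] at h1
      rw [← h1]
      congr 2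
      ext x
      congr 2
      ring
    have hmain : ContinuousWithinAt (fun t => ∫ x in (0:ℝ)..1,
        (t - s) • T ((t - s) * (1 - x)) (n (s + (t - s) * x))) (Ioc s b) t0 := by
      refine intervalIntegral.continuousWithinAt_of_dominated_interval
        (bound := fun x => C * R * ((√(1 - x))⁻¹ * (√x)⁻¹)) ?_ ?_
        ((intervalIntegrable_beta one_pos).const_mul (C * R)) ?_
      · filter_upwards [self_mem_nhdsWithin] with t ht
        rw [uIoc_of_le zero_le_one, ← restrict_Ioo_eq_restrict_Ioc]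
        refine ContinuousOn.aestronglyMeasurable ?_ measurableSet_Ioo
        have hp : 0 < t - s := by linarith [ht.1]
        intro x hx
        refine ContinuousWithinAt.const_smul (hT.contAt hx (by fun_prop) ?_ ?_) _
        · intro z hz
          have h1 : 0 < 1 - z := by linarith [hz.2]
          have h2 : 0 < z := hz.1
          refine ⟨by positivity, ?_⟩
          have h3 : t - s ≤ 1 := by linarith [ht.2]
          nlinarith
        · have h4 : ContinuousOn (fun x => n (s + (t - s) * x)) (Ioo 0 1) := by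
            refine hc.comp (by fun_prop) ?_
            intro z hz
            have h1 : 0 < 1 - z := by linarith [hz.2]
            have h2 : 0 < z := hz.1
            have h5 : 0 < (t - s) * z := by positivity
            have h6 : 0 < (t - s) * (1 - z) := by positivity
            refine ⟨by linarith, ?_⟩
            have h3 : t ≤ b := ht.2
            nlinarith
          exact h4 x hx
      · filter_upwards [self_mem_nhdsWithin] with t ht
        filter_upwards [hae 1] with x hx1 hx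
        rw [uIoc_of_le zero_le_one] at hx
        have hp : 0 < t - s := by linarith [ht.1]
        have h1 : 0 < 1 - x := by
          have := lt_of_le_of_ne hx.2 hx1
          linarith
        have h2 : 0 < x := hx.1
        have h5 : 0 < (t - s) * x := by positivity
        have h6 : 0 < (t - s) * (1 - x) := by positivity
        have hr : s + (t - s) * x ∈ Ioo s t := ⟨by linarith, by nlinarith⟩
        have h7 := hbound t ht _ hr
        have e1 : t - (s + (t - s) * x) = (t - s) * (1 - x) := by ring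
        have e2 : s + (t - s) * x - s = (t - s) * x := by ring
        rw [e1, e2, Real.sqrt_mul hp.le, Real.sqrt_mul hp.le] at h7
        rw [norm_smul, Real.norm_of_nonneg hp.le]
        have hsq : √(t - s) * √(t - s) = t - s := Real.mul_self_sqrt hp.le
        have hsp : 0 < √(t - s) := Real.sqrt_pos.2 hp
        calc (t - s) * ‖T ((t - s) * (1 - x)) (n (s + (t - s) * x))‖
            ≤ (t - s) * (C * R * ((√(t - s) * √(1 - x))⁻¹ * (√(t - s) * √x)⁻¹)) := by gcongr
          _ = (√(t - s) * √(t - s)) * (C * R * ((√(t - s) * √(1 - x))⁻¹ *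
                (√(t - s) * √x)⁻¹)) := by rw [hsq]
          _ = C * R * ((√(1 - x))⁻¹ * (√x)⁻¹) := by
              rw [mul_inv, mul_inv]
              field_simp
      · filter_upwards [hae 1] with x hx1 hx
        rw [uIoc_of_le zero_le_one] at hx
        have h1 : 0 < 1 - x := by
          have := lt_of_le_of_ne hx.2 hx1
          linarith
        have h2 : 0 < x := hx.1
        refine ContinuousWithinAt.smul (by fun_prop) (hT.contAt ht0 (by fun_prop) ?_ ?_)
        · intro t ht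
          have hp : 0 < t - s := by linarith [ht.1]
          refine ⟨by positivity, ?_⟩
          have h3 : t - s ≤ 1 := by linarith [ht.2]
          nlinarith
        · have h4 : ContinuousOn (fun t => n (s + (t - s) * x)) (Ioc s b) := by
            refine hc.comp (by fun_prop) ?_
            intro t ht
            have hp : 0 < t - s := by linarith [ht.1]
            have h5 : 0 < (t - s) * x := by positivity
            refine ⟨by linarith, ?_⟩
            have h6 : 0 < (t - s) * (1 - x) := by positivity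
            have h3 : t ≤ b := ht.2
            nlinarith
          exact h4 t0 ht0
    exact hmain.congr (fun t ht => hcv t ht) (hcv t0 ht0)
  · intro a ha t ht
    have hsa : s < a := ha.1
    have hat : a < t := ht.1
    have htm : t ∈ Ioc s b := ⟨by linarith, ht.2⟩
    have ham : a ∈ Ioc s b := ⟨ha.1, ha.2.le⟩
    have hi := hI t htm
    have h1 : IntervalIntegrable (fun r => T (t - r) (n r)) volume s a := by
      refine hi.mono_set ?_
      rw [uIcc_of_le hsa.le, uIcc_of_le (by linarith)]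
      exact Icc_subset_Icc_right hat.le
    have h2 : IntervalIntegrable (fun r => T (t - r) (n r)) volume a t := by
      refine hi.mono_set ?_
      rw [uIcc_of_le hat.le, uIcc_of_le (by linarith)]
      exact Icc_subset_Icc_left hsa.le
    rw [← intervalIntegral.integral_add_adjacent_intervals h1 h2]
    congr 1
    have h3 := ((T (t - a)).comp j).intervalIntegral_comp_comm (hI a ham)
    rw [ContinuousLinearMap.comp_apply] at h3
    rw [← h3]
    refine intervalIntegral.integral_congr_ae ?_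
    filter_upwards [hae a] with r hr hrm
    rw [uIoc_of_le hsa.le] at hrm
    have hra : r < a := lt_of_le_of_ne hrm.2 hr
    rw [ContinuousLinearMap.comp_apply, ← hT.sg (t - a) (a - r) (by linarith) (by linarith)]
    congr 2
    ring

/-- AB-2. The same for bounded sources. -/
theorem duhamel_bdd (hT : SG j T C) {s b R : ℝ} (hsb : b ≤ s + 1) {n : ℝ → Y} (hR : 0 ≤ R)
    (hc : ContinuousOn n (Ioc s b)) (hb : ∀ t ∈ Ioc s b, ‖n t‖ ≤ R) :
    (∀ t ∈ Ioc s b, ‖∫ r in s..t, T (t - r) (n r)‖ ≤ 2 * C * R * √(t - s)) := by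
  have hC1 := hT.one_le
  have hC0 : 0 ≤ C := by linarith
  intro t ht
  have hae : ∀ᵐ r : ℝ, r ≠ t := by
    have : (volume : Measure ℝ) {t} = 0 := Real.volume_singleton
    rw [ae_iff]
    simp
  refine (intervalIntegral.norm_integral_le_of_norm_le
    (g := fun r => C * R * (√(t - r))⁻¹) ht.1.le ?_
    ((intervalIntegrable_isq' t s t).const_mul (C * R))).trans ?_
  · filter_upwards [hae] with r hr hrm
    have hrt : r < t := lt_of_le_of_ne hrm.2 hr
    calc ‖T (t - r) (n r)‖ ≤ C * (√(t - r))⁻¹ * ‖n r‖ :=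
          hT.b1 (t - r) ⟨by linarith, by linarith [hrm.1, ht.2]⟩ _
      _ ≤ C * (√(t - r))⁻¹ * R := by
          gcongr
          exact hb r ⟨hrm.1, by linarith [ht.2]⟩
      _ = _ := by ring
  · rw [intervalIntegral.integral_const_mul, integral_isqR ht.1.le]
    exact le_of_eq (by ring)

/-- Continuity of the right hand side for a continuous curve. -/
theorem continuousOn_rhs {s b M MF : ℝ} (hM : 0 ≤ M) (hn : ∀ x, ‖j x‖ ≤ ‖x‖)
    {Λ : ℝ → (X →L[ℝ] Y)} {F : ℝ → Y} (hC : Coef j s b M MF Λ F) {v : ℝ → X}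
    (hv : ContinuousOn v (Ioc s b)) :
    ContinuousOn (fun t => Λ t (v t) + B (v t) (v t) + F t) (Ioc s b) := by
  have h1 : ContinuousOn (fun t => Λ t (v t)) (Ioc s b) := by
    intro t0 ht0
    have hpos : 0 < t0 - s := by linarith [ht0.1]
    have hsq : Tendsto (fun t => M * (1 + (√(t - s))⁻¹)) (𝓝[Ioc s b] t0)
        (𝓝 (M * (1 + (√(t0 - s))⁻¹))) := by
      have : ContinuousAt (fun t => M * (1 + (√(t - s))⁻¹)) t0 := by
        have h2 : √(t0 - s) ≠ 0 := (Real.sqrt_pos.2 hpos).ne'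
        fun_prop (disch := assumption)
      exact this.tendsto.mono_left nhdsWithin_le_nhds
    have hd : Tendsto (fun t => ‖v t - v t0‖) (𝓝[Ioc s b] t0) (𝓝 0) := by
      have := (hv t0 ht0).tendsto
      have := (tendsto_iff_norm_sub_tendsto_zero.1 this)
      exact this
    have hL : Tendsto (fun t => ‖Λ t (v t0) - Λ t0 (v t0)‖) (𝓝[Ioc s b] t0) (𝓝 0) :=
      tendsto_iff_norm_sub_tendsto_zero.1 (hC.cΛ (v t0) t0 ht0)
    have hlim := (hsq.mul hd).add hL
    rw [mul_zero, add_zero] at hlim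
    refine tendsto_iff_norm_sub_tendsto_zero.2 ?_
    refine squeeze_zero' (Eventually.of_forall fun _ => norm_nonneg _) ?_ hlim
    filter_upwards [self_mem_nhdsWithin] with t ht
    have hpt : 0 < t - s := by linarith [ht.1]
    calc ‖Λ t (v t) - Λ t0 (v t0)‖ = ‖Λ t (v t - v t0) + (Λ t (v t0) - Λ t0 (v t0))‖ := by
          rw [map_sub]; congr 1; abel
      _ ≤ ‖Λ t (v t - v t0)‖ + ‖Λ t (v t0) - Λ t0 (v t0)‖ := norm_add_le _ _
      _ ≤ M * (1 + (√(t - s))⁻¹) * ‖v t - v t0‖ + ‖Λ t (v t0) - Λ t0 (v t0)‖ := by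
          gcongr
          refine (hC.bΛ t ht _).trans ?_
          rw [mul_assoc]
          gcongr
          rw [add_mul, one_mul]
          gcongr
          exact hn _
  have h2 : ContinuousOn (fun t => B (v t) (v t)) (Ioc s b) :=
    (B.continuous.comp_continuousOn hv).clm_apply hv
  exact (h1.add h2).add hC.cF

/-- Bound of the bilinear term. -/
theorem norm_B_self_le (hB : BilB j B C) (hC : 0 ≤ C) {x : X} {R : ℝ} (hR : ‖j x‖ ≤ R) :
    ‖B x x‖ ≤ 2 * C * R * ‖x‖ := by
  refine (hB x x).trans ?_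
  have : C * (‖j x‖ * ‖x‖ + ‖x‖ * ‖j x‖) = 2 * C * ‖j x‖ * ‖x‖ := by ring
  rw [this]
  gcongr

/-- Bound of the right hand side for a curve satisfying the bounds of a mild solution. -/
theorem norm_rhs_le (hB : BilB j B C) (hC0 : 0 ≤ C) {s b M MF R : ℝ} (hM : 0 ≤ M)
    {Λ : ℝ → (X →L[ℝ] Y)} {F : ℝ → Y} (hC : Coef j s b M MF Λ F) {v : ℝ → X} (hR0 : 0 ≤ R)
    (hbd : ∀ t ∈ Ioc s b, √(t - s) * ‖v t‖ ≤ R ∧ ‖j (v t)‖ ≤ R) :
    ∀ t ∈ Ioc s b, ‖Λ t (v t) + B (v t) (v t) + F t‖ ≤
      (2 * M * R + 2 * C * R * R + MF) * (√(t - s))⁻¹ := by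
  intro t ht
  have hpt : 0 < t - s := by linarith [ht.1]
  have hsq : 0 < √(t - s) := Real.sqrt_pos.2 hpt
  have h1 := hbd t ht
  have hu : ‖v t‖ ≤ R * (√(t - s))⁻¹ := by
    rw [← div_eq_mul_inv, le_div_iff₀ hsq, mul_comm]
    exact h1.1
  calc ‖Λ t (v t) + B (v t) (v t) + F t‖ ≤ ‖Λ t (v t)‖ + ‖B (v t) (v t)‖ + ‖F t‖ :=
        norm_add₃_le
    _ ≤ M * (‖v t‖ + (√(t - s))⁻¹ * ‖j (v t)‖) + 2 * C * R * ‖v t‖ + MF * (√(t - s))⁻¹ := by
        gcongr
        · exact hC.bΛ t ht _
        · exact norm_B_self_le hB hC0 h1.2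
        · exact hC.bF t ht
    _ ≤ M * (R * (√(t - s))⁻¹ + (√(t - s))⁻¹ * R) + 2 * C * R * (R * (√(t - s))⁻¹) +
        MF * (√(t - s))⁻¹ := by
        gcongr
        exact h1.2
    _ = _ := by ring

/-- AB-5. Continuity of the right hand side along a solution. -/
theorem Mild.rhs (hT : SG j T C) (hB : BilB j B C) {s b M MF : ℝ} (hM : 0 ≤ M)
    {Λ : ℝ → (X →L[ℝ] Y)} {F : ℝ → Y} (hC : Coef j s b M MF Λ F) {u0 : Y} {u : ℝ → X}
    (h : Mild j T B Λ F s b u0 u) :
    ContinuousOn (fun t => Λ t (u t) + B (u t) (u t) + F t) (Ioc s b) ∧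
    ∃ R, 0 ≤ R ∧ ∀ t ∈ Ioc s b, ‖Λ t (u t) + B (u t) (u t) + F t‖ ≤ R * (√(t - s))⁻¹ := by
  have hC0 : 0 ≤ C := by linarith [hT.one_le]
  refine ⟨continuousOn_rhs hM hT.jn hC h.cont, ?_⟩
  obtain ⟨R, hR⟩ := h.bd
  by_cases hsb : s < b
  · have hR0 : 0 ≤ R := (norm_nonneg _).trans (hR b ⟨hsb, le_rfl⟩).2
    have hMF : 0 ≤ MF := by
      have h1 := (norm_nonneg _).trans (hC.bF b ⟨hsb, le_rfl⟩)
      have h2 : 0 < (√(b - s))⁻¹ := inv_pos.2 (Real.sqrt_pos.2 (by linarith))
      exact nonneg_of_mul_nonneg_left h1 h2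
    exact ⟨_, by positivity, norm_rhs_le hB hC0 hM hC hR0 hR⟩
  · refine ⟨0, le_rfl, fun t ht => ?_⟩
    exact absurd (ht.1.trans_le ht.2) hsb

end Abs

end Pool.Agent.Lib.MP_79abb3_an.P25
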