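import Pool.Agent.Lib.MP_79abb3_an.P25.TrajDef
import Pool.Agent.Lib.MP_79abb3_an.P25.AbsA

/-!
TR-3: the integrated equation for mild solutions of one equation.
-/

set_option autoImplicit false
set_option linter.unusedSectionVars false

open MeasureTheory Set Filter Topology Function

namespace Pool.Agent.Lib.MP_79abb3_an.P25

section
variable {H : ℝ} [hH : Fact (0 < H)]

/-- Heat propagators of one scalar mode. -/
noncomputable def Sk (S : ℝ → (CI H →L[ℂ] CI H)) (k t : ℝ) (f : CI H) : CI H :=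
  Real.exp (-k ^ 2 * t) • S t f

/-! ### Fubini on a triangle -/

private theorem ii_of_bound {E : Type} [NormedAddCommGroup E] {F : ℝ → E} {a b : ℝ} (hab : a ≤ b)
    (hF : ContinuousOn F (Ioo a b)) {g : ℝ → ℝ} (hg : IntervalIntegrable g volume a b)
    (hb : ∀ x ∈ Ioo a b, ‖F x‖ ≤ g x) : IntervalIntegrable F volume a b := by
  rw [intervalIntegrable_iff_integrableOn_Ioo_of_le hab] at hg ⊢
  refine Integrable.mono' hg (hF.aestronglyMeasurable measurableSet_Ioo) ?_
  rw [ae_restrict_iff' measurableSet_Ioo]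
  exact ae_of_all _ hb

private theorem tri {k : ℝ → ℝ → ℂ} {s t C : ℝ} (ht : s < t)
    (hk : ContinuousOn (uncurry k) {p | s < p.1 ∧ p.1 < p.2 ∧ p.2 ≤ t})
    (hb : ∀ r r', s < r → r < r' → r' ≤ t → ‖k r r'‖ ≤ C * ((√(r' - r))⁻¹ * (√(r - s))⁻¹)) :
    (∫ r in s..t, ∫ r' in r..t, k r r' = ∫ r' in s..t, ∫ r in s..r', k r r') ∧
    IntervalIntegrable (fun r => ∫ r' in r..t, k r r') volume s t ∧
    IntervalIntegrable (fun r' => ∫ r in s..r', k r r') volume s t := by
  have hC : 0 ≤ C := by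
    have h1 := hb ((s + t) / 2) t (by linarith) (by linarith) le_rfl
    have h2 := (norm_nonneg _).trans h1
    have h3 : 0 < (√(t - (s + t) / 2))⁻¹ * (√((s + t) / 2 - s))⁻¹ := by
      have h4 : 0 < √(t - (s + t) / 2) := Real.sqrt_pos.2 (by linarith)
      have h5 : 0 < √((s + t) / 2 - s) := Real.sqrt_pos.2 (by linarith)
      positivity
    exact nonneg_of_mul_nonneg_left h2 h3
  set U : Set (ℝ × ℝ) := {p | s < p.1 ∧ p.1 < p.2 ∧ p.2 ≤ t} with hU
  have hUm : MeasurableSet U := by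
    refine (measurableSet_lt measurable_const measurable_fst).inter
      ((measurableSet_lt measurable_fst measurable_snd).inter
      (measurableSet_le measurable_snd measurable_const))
  classical
  set K : ℝ × ℝ → ℂ := U.indicator (uncurry k) with hK
  have hKm : Measurable K := by
    rw [hK, ← piecewise_eq_indicator]
    exact hk.measurable_piecewise continuousOn_const hUm
  set f : ℝ → ℝ := (Ioc 0 (t - s)).indicator fun s => (√s)⁻¹ with hf
  set f' : ℝ → ℝ := (Ioc s t).indicator fun r => (√(r - s))⁻¹ with hf'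
  have hfi : Integrable f := by
    rw [hf, integrable_indicator_iff measurableSet_Ioc]
    have := intervalIntegrable_isq 0 (t - s)
    rwa [intervalIntegrable_iff_integrableOn_Ioc_of_le (by linarith)] at this
  have hfi' : Integrable f' := by
    rw [hf', integrable_indicator_iff measurableSet_Ioc]
    have := intervalIntegrable_isqL s s t
    rwa [intervalIntegrable_iff_integrableOn_Ioc_of_le ht.le] at this
  have hc : Integrable (fun p : ℝ × ℝ => f' p.2 * f (p.1 - p.2)) (volume.prod volume) :=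
    hfi'.convolution_integrand (ContinuousLinearMap.mul ℝ ℝ) hfi
  have hKi : Integrable K (volume.prod volume) := by
    have h1 : Integrable (fun p : ℝ × ℝ => C * (f' p.1 * f (p.2 - p.1))) (volume.prod volume) :=
      hc.swap.const_mul C
    refine h1.mono' hKm.aestronglyMeasurable (ae_of_all _ fun p => ?_)
    have hfn : ∀ x, 0 ≤ f x := fun x => indicator_nonneg (fun _ _ => by positivity) x
    have hfn' : ∀ x, 0 ≤ f' x := fun x => indicator_nonneg (fun _ _ => by positivity) x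
    by_cases hp : p ∈ U
    · have h2 : K p = k p.1 p.2 := by rw [hK, indicator_of_mem hp]; rfl
      have h3 : f' p.1 = (√(p.1 - s))⁻¹ := by
        rw [hf', indicator_of_mem]
        exact ⟨hp.1, hp.2.1.le.trans hp.2.2⟩
      have h4 : f (p.2 - p.1) = (√(p.2 - p.1))⁻¹ := by
        rw [hf, indicator_of_mem]
        exact ⟨by linarith [hp.2.1], by linarith [hp.1, hp.2.2]⟩
      rw [h2, h3, h4]
      refine (hb _ _ hp.1 hp.2.1 hp.2.2).trans (le_of_eq ?_)
      ring
    · have h2 : K p = 0 := by rw [hK, indicator_of_notMem hp]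
      rw [h2, norm_zero]
      have := hfn' p.1
      have := hfn (p.2 - p.1)
      positivity
  have hsw := integral_integral_swap (f := fun s s' => K (s, s')) (μ := volume) (ν := volume) hKi
  have hLe : ∀ r ∈ Ioc s t, ∫ r' in r..t, k r r' = ∫ r', K (r, r') := by
    intro r hs
    rw [intervalIntegral.integral_of_le hs.2, ← integral_indicator measurableSet_Ioc]
    congr 1
    ext s'
    by_cases h : s' ∈ Ioc r t
    · rw [indicator_of_mem h, hK, indicator_of_mem (show (r, s') ∈ U from ⟨hs.1, h.1, h.2⟩)]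
      rfl
    · rw [indicator_of_notMem h, hK, indicator_of_notMem]
      exact fun h' => h ⟨h'.2.1, h'.2.2⟩
  have hRe : ∀ r' ∈ Ioc s t, ∫ r in s..r', k r r' = ∫ r, K (r, r') := by
    intro s' hs
    rw [intervalIntegral.integral_of_le hs.1.le, integral_Ioc_eq_integral_Ioo,
      ← integral_indicator measurableSet_Ioo]
    congr 1
    ext r
    by_cases h : r ∈ Ioo s s'
    · rw [indicator_of_mem h, hK, indicator_of_mem (show (r, s') ∈ U from ⟨h.1, h.2, hs.2⟩)]
      rfl
    · rw [indicator_of_notMem h, hK, indicator_of_notMem]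
      exact fun h' => h ⟨h'.1, h'.2.1⟩
  have hL : ∫ r in s..t, ∫ r' in r..t, k r r' = ∫ r, ∫ r', K (r, r') := by
    rw [intervalIntegral.integral_of_le ht.le]
    rw [← setIntegral_eq_integral_of_forall_compl_eq_zero (s := Ioc s t)
      (f := fun s => ∫ s', K (s, s'))]
    · exact setIntegral_congr_fun measurableSet_Ioc fun r hs => hLe r hs
    · intro r hs
      have : ∀ s', K (r, s') = 0 := fun s' => by
        rw [hK, indicator_of_notMem]
        exact fun h' => hs ⟨h'.1, h'.2.1.le.trans h'.2.2⟩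
      simp [this]
  have hR : ∫ r' in s..t, ∫ r in s..r', k r r' = ∫ r', ∫ r, K (r, r') := by
    rw [intervalIntegral.integral_of_le ht.le]
    rw [← setIntegral_eq_integral_of_forall_compl_eq_zero (s := Ioc s t)
      (f := fun s' => ∫ s, K (s, s'))]
    · exact setIntegral_congr_fun measurableSet_Ioc fun r' hs => hRe r' hs
    · intro s' hs
      have : ∀ s, K (s, s') = 0 := fun s => by
        rw [hK, indicator_of_notMem]
        exact fun h' => hs ⟨h'.1.trans h'.2.1, h'.2.2⟩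
      simp [this]
  refine ⟨by rw [hL, hR, hsw], ?_, ?_⟩
  · rw [intervalIntegrable_iff_integrableOn_Ioc_of_le ht.le]
    refine (hKi.integral_prod_left.integrableOn (s := Ioc s t)).congr_fun (fun r hr => ?_)
      measurableSet_Ioc
    exact (hLe r hr).symm
  · rw [intervalIntegrable_iff_integrableOn_Ioc_of_le ht.le]
    refine (hKi.integral_prod_right.integrableOn (s := Ioc s t)).congr_fun (fun r hr => ?_)
      measurableSet_Ioc
    exact (hRe r hr).symm

/-! ### Primitives as a continuous linear functional -/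

private theorem ex_ii (f : CI H) (a b : ℝ) : IntervalIntegrable (ex f) volume a b :=
  (continuous_ex f).intervalIntegrable a b

private noncomputable def primL (y : ℝ) : CI H →L[ℝ] ℂ :=
  LinearMap.mkContinuous
    { toFun := fun f => prim f y
      map_add' := fun f g => by
        simp only [prim]
        rw [← intervalIntegral.integral_add (ex_ii f 0 y) (ex_ii g 0 y)]
        rfl
      map_smul' := fun c f => by
        simp only [prim, RingHom.id_apply]
        rw [← intervalIntegral.integral_smul]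
        congr 1 } |y| (fun f => by
    have := intervalIntegral.norm_integral_le_of_norm_le_const (a := 0) (b := y) (f := ex f)
      (C := ‖f‖) (fun z _ => norm_ex_le f z)
    rw [sub_zero, mul_comm] at this
    exact this)

private theorem primL_apply (y : ℝ) (f : CI H) : primL y f = prim f y := rfl

private theorem norm_prim_le {y : ℝ} (hy : y ∈ Icc (0:ℝ) H) (f : CI H) : ‖prim f y‖ ≤ H * ‖f‖ := by
  have := intervalIntegral.norm_integral_le_of_norm_le_const (a := 0) (b := y) (f := ex f)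
      (C := ‖f‖) (fun z _ => norm_ex_le f z)
  rw [sub_zero, abs_of_nonneg hy.1] at this
  refine this.trans ?_
  rw [mul_comm]
  exact mul_le_mul_of_nonneg_right hy.2 (norm_nonneg _)

/-- the time derivative of `u ↦ prim (Sk S k u g) y` -/
private noncomputable def Ps (S D : ℝ → (CI H →L[ℂ] CI H)) (k y u : ℝ) (g : CI H) : ℂ :=
  ex (Sk D k u g) y - ex (Sk D k u g) 0 - ((k ^ 2 : ℝ) : ℂ) * prim (Sk S k u g) y

private theorem exp_le_one' {k u : ℝ} (hu : 0 ≤ u) : Real.exp (-k ^ 2 * u) ≤ 1 := by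
  rw [Real.exp_le_one_iff]
  have := sq_nonneg k
  nlinarith

private theorem norm_Sk_le {S : ℝ → (CI H →L[ℂ] CI H)} {k u c : ℝ} (hu : 0 < u)
    {g : CI H} (hS : ‖S u g‖ ≤ c) : ‖Sk S k u g‖ ≤ c := by
  have hc : 0 ≤ c := (norm_nonneg _).trans hS
  have : ‖Sk S k u g‖ ≤ Real.exp (-k ^ 2 * u) * ‖S u g‖ := by
    refine ci_norm_le (by positivity) fun z _ => ?_
    rw [Sk, ex_rsmul, norm_mul, Complex.norm_real, Real.norm_eq_abs, abs_of_pos (Real.exp_pos _)]
    gcongr
    exact norm_ex_le _ z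
  refine this.trans ?_
  calc Real.exp (-k ^ 2 * u) * ‖S u g‖ ≤ 1 * c := by
        gcongr
        exact exp_le_one' hu.le
    _ = c := one_mul c

private theorem prim_A {S D A : ℝ → (CI H →L[ℂ] CI H)} (hS : DirSG H S D A) {u : ℝ} (hu : 0 < u)
    (g : CI H) {y : ℝ} (hy : y ∈ Icc (0:ℝ) H) :
    prim (A u g) y = ex (D u g) y - ex (D u g) 0 := by
  rw [prim]
  apply intervalIntegral.integral_eq_sub_of_hasDerivAt_of_le hy.1
  · exact (continuous_ex _).continuousOn
  · intro x hx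
    have hx' : x ∈ Ioo (0:ℝ) H := ⟨hx.1, hx.2.trans_le hy.2⟩
    exact (hS.D_der u hu g x (Ioo_subset_Icc_self hx')).hasDerivAt (Icc_mem_nhds hx'.1 hx'.2)
  · exact ex_ii _ _ _

private theorem Ph_der {S D A : ℝ → (CI H →L[ℂ] CI H)} (hS : DirSG H S D A) (k : ℝ) {u : ℝ}
    (hu : 0 < u) (g : CI H) {y : ℝ} (hy : y ∈ Icc (0:ℝ) H) :
    HasDerivAt (fun u => prim (Sk S k u g) y) (Ps S D k y u g) u := by
  have h1 : HasDerivAt (fun u => primL (H := H) y (S u g)) (primL y (A u g)) u :=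
    (primL y).hasFDerivAt.comp_hasDerivAt u (hS.S_time u hu g)
  have h2 : HasDerivAt (fun u : ℝ => Real.exp (-k ^ 2 * u)) (Real.exp (-k ^ 2 * u) * (-k ^ 2)) u := by
    have := ((hasDerivAt_id u).const_mul (-k ^ 2)).exp
    simpa using this
  have h3 := h2.smul h1
  have e1 : (fun u => prim (Sk S k u g) y) =
      fun u => Real.exp (-k ^ 2 * u) • primL (H := H) y (S u g) := by
    ext v
    rw [← primL_apply, Sk, map_smul]
  rw [e1]
  refine h3.congr_deriv ?_
  rw [Ps, primL_apply, primL_apply, prim_A hS hu g hy]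
  have e2 : prim (Sk S k u g) y = (Real.exp (-k ^ 2 * u) : ℂ) * prim (S u g) y := by
    rw [← primL_apply, Sk, map_smul, Complex.real_smul, primL_apply]
  rw [e2, Sk, ex_rsmul, ex_rsmul, Complex.real_smul, Complex.real_smul]
  push_cast
  ring

private theorem Ps_le {S D A : ℝ → (CI H →L[ℂ] CI H)} (hS : DirSG H S D A) (k : ℝ) {u T : ℝ}
    (hu : 0 < u) (huT : u ≤ T) (g : CI H) {y : ℝ} (hy : y ∈ Icc (0:ℝ) H) :
    ‖Ps S D k y u g‖ ≤ (2 + k ^ 2 * H * √T) * ((√u)⁻¹ * ‖g‖) := by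
  have hH0 := hH.out
  have h1 : ‖Sk D k u g‖ ≤ (√u)⁻¹ * ‖g‖ := norm_Sk_le hu (hS.D_norm u hu g)
  have h2 : ‖Sk S k u g‖ ≤ ‖g‖ := norm_Sk_le hu (hS.S_norm u hu g)
  have hsu : 0 < √u := Real.sqrt_pos.2 hu
  have h3 : 1 ≤ √T * (√u)⁻¹ := by
    rw [← div_eq_mul_inv, one_le_div hsu]
    exact Real.sqrt_le_sqrt huT
  have h4 : ‖((k ^ 2 : ℝ) : ℂ) * prim (Sk S k u g) y‖ ≤ k ^ 2 * (H * ‖g‖) := by
    rw [norm_mul, Complex.norm_real, Real.norm_eq_abs, abs_of_nonneg (sq_nonneg k)]
    refine mul_le_mul_of_nonneg_left ?_ (sq_nonneg k)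
    exact (norm_prim_le hy _).trans (mul_le_mul_of_nonneg_left h2 hH0.le)
  have h5 : k ^ 2 * (H * ‖g‖) ≤ k ^ 2 * (H * ‖g‖) * (√T * (√u)⁻¹) :=
    le_mul_of_one_le_right (by positivity) h3
  calc ‖Ps S D k y u g‖ ≤ ‖ex (Sk D k u g) y - ex (Sk D k u g) 0‖ +
        ‖((k ^ 2 : ℝ) : ℂ) * prim (Sk S k u g) y‖ := norm_sub_le _ _
    _ ≤ (‖ex (Sk D k u g) y‖ + ‖ex (Sk D k u g) 0‖) + k ^ 2 * (H * ‖g‖) :=
        add_le_add (norm_sub_le _ _) h4
    _ ≤ ((√u)⁻¹ * ‖g‖ + (√u)⁻¹ * ‖g‖) + k ^ 2 * (H * ‖g‖) * (√T * (√u)⁻¹) := by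
        have h6 := (norm_ex_le (Sk D k u g) y).trans h1
        have h7 := (norm_ex_le (Sk D k u g) 0).trans h1
        linarith
    _ = _ := by ring

/-! ### Joint continuity -/

private theorem joint_cont {T : ℝ → (CI H →L[ℂ] CI H)} {c : ℝ → ℝ}
    (hc : ∀ u, 0 < u → ∀ g, ‖T u g‖ ≤ c u * ‖g‖) (cc : ContinuousOn c (Ioi 0))
    (hT : ∀ g, ContinuousOn (fun u => T u g) (Ioi 0)) {Z : Type} [TopologicalSpace Z] {U : Set Z}
    {φ : Z → ℝ} {m : Z → CI H} (hφ : ContinuousOn φ U) (hpos : ∀ z ∈ U, 0 < φ z)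
    (hm : ContinuousOn m U) : ContinuousOn (fun z => T (φ z) (m z)) U := by
  intro z0 hz
  have h0 := hpos z0 hz
  have h1 : Tendsto (fun z => c (φ z)) (𝓝[U] z0) (𝓝 (c (φ z0))) :=
    (cc.continuousAt (Ioi_mem_nhds h0)).comp_continuousWithinAt (hφ z0 hz)
  have h2 : Tendsto (fun z => ‖m z - m z0‖) (𝓝[U] z0) (𝓝 0) :=
    tendsto_iff_norm_sub_tendsto_zero.1 (hm z0 hz)
  have h3 : Tendsto (fun z => ‖T (φ z) (m z0) - T (φ z0) (m z0)‖) (𝓝[U] z0) (𝓝 0) := by
    have hc : ContinuousAt (fun t => T t (m z0)) (φ z0) :=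
      (hT (m z0)).continuousAt (Ioi_mem_nhds h0)
    exact tendsto_iff_norm_sub_tendsto_zero.1 (hc.comp_continuousWithinAt (hφ z0 hz))
  have hlim := (h1.mul h2).add h3
  rw [mul_zero, add_zero] at hlim
  refine tendsto_iff_norm_sub_tendsto_zero.2 ?_
  refine squeeze_zero' (Eventually.of_forall fun _ => norm_nonneg _) ?_ hlim
  filter_upwards [self_mem_nhdsWithin] with z hzS
  calc ‖T (φ z) (m z) - T (φ z0) (m z0)‖
      = ‖T (φ z) (m z - m z0) + (T (φ z) (m z0) - T (φ z0) (m z0))‖ := by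
        rw [map_sub]; congr 1; abel
    _ ≤ ‖T (φ z) (m z - m z0)‖ + ‖T (φ z) (m z0) - T (φ z0) (m z0)‖ := norm_add_le _ _
    _ ≤ _ := by
        gcongr
        exact hc (φ z) (hpos z hzS) _

private theorem Sk_cont {T : ℝ → (CI H →L[ℂ] CI H)} {c : ℝ → ℝ} (k : ℝ)
    (hc : ∀ u, 0 < u → ∀ g, ‖T u g‖ ≤ c u * ‖g‖) (cc : ContinuousOn c (Ioi 0))
    (hT : ∀ g, ContinuousOn (fun u => T u g) (Ioi 0)) {Z : Type} [TopologicalSpace Z] {U : Set Z}
    {φ : Z → ℝ} {m : Z → CI H} (hφ : ContinuousOn φ U) (hpos : ∀ z ∈ U, 0 < φ z)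
    (hm : ContinuousOn m U) : ContinuousOn (fun z => Sk T k (φ z) (m z)) U := by
  have h1 := joint_cont hc cc hT hφ hpos hm
  have h2 : ContinuousOn (fun z => Real.exp (-k ^ 2 * φ z)) U :=
    (continuousOn_const.mul hφ).rexp
  exact h2.smul h1

private theorem SkS_cont {S D A : ℝ → (CI H →L[ℂ] CI H)} (hS : DirSG H S D A) (k : ℝ)
    {Z : Type} [TopologicalSpace Z] {U : Set Z}
    {φ : Z → ℝ} {m : Z → CI H} (hφ : ContinuousOn φ U) (hpos : ∀ z ∈ U, 0 < φ z)
    (hm : ContinuousOn m U) : ContinuousOn (fun z => Sk S k (φ z) (m z)) U :=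
  Sk_cont k (c := fun _ => 1) (fun u hu g => by rw [one_mul]; exact hS.S_norm u hu g)
    continuousOn_const (fun g u hu => (hS.S_time u hu g).continuousAt.continuousWithinAt)
    hφ hpos hm

private theorem SkD_cont {S D A : ℝ → (CI H →L[ℂ] CI H)} (hS : DirSG H S D A) (k : ℝ)
    {Z : Type} [TopologicalSpace Z] {U : Set Z}
    {φ : Z → ℝ} {m : Z → CI H} (hφ : ContinuousOn φ U) (hpos : ∀ z ∈ U, 0 < φ z)
    (hm : ContinuousOn m U) : ContinuousOn (fun z => Sk D k (φ z) (m z)) U :=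
  Sk_cont k (c := fun u => (√u)⁻¹) (fun u hu g => hS.D_norm u hu g)
    (Real.continuous_sqrt.continuousOn.inv₀ fun _ hu => (Real.sqrt_pos.2 hu).ne')
    hS.D_cont hφ hpos hm

private theorem Ps_cont {S D A : ℝ → (CI H →L[ℂ] CI H)} (hS : DirSG H S D A) (k y : ℝ)
    {Z : Type} [TopologicalSpace Z] {U : Set Z}
    {φ : Z → ℝ} {m : Z → CI H} (hφ : ContinuousOn φ U) (hpos : ∀ z ∈ U, 0 < φ z)
    (hm : ContinuousOn m U) : ContinuousOn (fun z => Ps S D k y (φ z) (m z)) U := by
  have h1 := SkD_cont hS k hφ hpos hm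
  have h2 := SkS_cont hS k hφ hpos hm
  have h3 : ContinuousOn (fun z => evL (H := H) y (Sk D k (φ z) (m z))) U :=
    (evL (H := H) y).continuous.comp_continuousOn h1
  have h4 : ContinuousOn (fun z => evL (H := H) 0 (Sk D k (φ z) (m z))) U :=
    (evL (H := H) 0).continuous.comp_continuousOn h1
  have h5 : ContinuousOn (fun z => primL (H := H) y (Sk S k (φ z) (m z))) U :=
    (primL (H := H) y).continuous.comp_continuousOn h2
  exact (h3.sub h4).sub (continuousOn_const.mul h5)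

/-! ### The equation for the free part -/

private theorem prim_init {S D A : ℝ → (CI H →L[ℂ] CI H)} (hS : DirSG H S D A) (g : CI H) {y : ℝ}
    (hy : y ∈ Icc (0:ℝ) H) :
    Tendsto (fun u => prim (S u g) y) (𝓝[>] 0) (𝓝 (prim g y)) := by
  have hH0 := hH.out
  rw [Metric.tendsto_nhds]
  intro ε hε
  have hδ : 0 < ε / (H + 2) := by positivity
  have h1 := (hS.S_L2 g).eventually (gt_mem_nhds (show (0:ℝ) < (ε / (H + 2)) ^ 2 by positivity))
  filter_upwards [h1] with u hu
  set δ := ε / (H + 2) with hδd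
  have hc : Continuous fun z => ‖ex (S u g) z - ex g z‖ :=
    ((continuous_ex _).sub (continuous_ex _)).norm
  have h2 : prim (S u g) y - prim g y = ∫ z in (0:ℝ)..y, (ex (S u g) z - ex g z) := by
    rw [prim, prim, intervalIntegral.integral_sub (ex_ii _ _ _) (ex_ii _ _ _)]
  have h3 : ‖prim (S u g) y - prim g y‖ ≤ ∫ z in (0:ℝ)..H, ‖ex (S u g) z - ex g z‖ := by
    rw [h2]
    refine (intervalIntegral.norm_integral_le_integral_norm hy.1).trans ?_
    exact intervalIntegral.integral_mono_interval le_rfl hy.1 hy.2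
      (ae_of_all _ fun z => norm_nonneg _) (hc.intervalIntegrable _ _)
  have h4 : ∫ z in (0:ℝ)..H, ‖ex (S u g) z - ex g z‖ ≤
      ∫ z in (0:ℝ)..H, (δ + δ⁻¹ * ‖ex (S u g) z - ex g z‖ ^ 2) := by
    refine intervalIntegral.integral_mono_on hH0.le (hc.intervalIntegrable _ _)
      ((continuous_const.add (continuous_const.mul (hc.pow 2))).intervalIntegrable _ _) ?_
    intro z _
    set d := ‖ex (S u g) z - ex g z‖
    have hd : 0 ≤ d := norm_nonneg _
    by_cases hdδ : d ≤ δ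
    · have : 0 ≤ δ⁻¹ * d ^ 2 := by positivity
      linarith
    · push Not at hdδ
      have : d ≤ δ⁻¹ * d ^ 2 := by
        rw [inv_mul_eq_div, le_div_iff₀ hδ]
        nlinarith
      linarith
  have h5 : ∫ z in (0:ℝ)..H, (δ + δ⁻¹ * ‖ex (S u g) z - ex g z‖ ^ 2) =
      H * δ + δ⁻¹ * ∫ z in (0:ℝ)..H, ‖ex (S u g) z - ex g z‖ ^ 2 := by
    have hc2 : Continuous fun z => δ⁻¹ * ‖ex (S u g) z - ex g z‖ ^ 2 :=
      continuous_const.mul (hc.pow 2)
    rw [intervalIntegral.integral_add intervalIntegrable_const (hc2.intervalIntegrable _ _),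
      intervalIntegral.integral_const, intervalIntegral.integral_const_mul, sub_zero, smul_eq_mul]
  have h6 : δ⁻¹ * ∫ z in (0:ℝ)..H, ‖ex (S u g) z - ex g z‖ ^ 2 ≤ δ := by
    rw [inv_mul_le_iff₀ hδ]
    nlinarith
  rw [dist_eq_norm]
  have h7 : ε = (H + 2) * δ := by
    rw [hδd]
    field_simp
  rw [h7]
  nlinarith

private theorem Sk_init {S D A : ℝ → (CI H →L[ℂ] CI H)} (hS : DirSG H S D A) (k : ℝ) (g : CI H)
    {y : ℝ} (hy : y ∈ Icc (0:ℝ) H) :
    Tendsto (fun u => prim (Sk S k u g) y) (𝓝[>] 0) (𝓝 (prim g y)) := by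
  have h1 := prim_init hS g hy
  have h2 : Tendsto (fun u : ℝ => Real.exp (-k ^ 2 * u)) (𝓝[>] 0) (𝓝 1) := by
    have h3 : Continuous fun u : ℝ => Real.exp (-k ^ 2 * u) := by fun_prop
    have h4 := h3.tendsto 0
    rw [mul_zero, Real.exp_zero] at h4
    exact h4.mono_left nhdsWithin_le_nhds
  have h3 := h2.smul h1
  rw [one_smul] at h3
  refine h3.congr fun u => ?_
  rw [← primL_apply, ← primL_apply, Sk, map_smul]

private theorem Ps_ii {S D A : ℝ → (CI H →L[ℂ] CI H)} (hS : DirSG H S D A) (k : ℝ) {r t : ℝ}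
    (hrt : r ≤ t) (g : CI H) {y : ℝ} (hy : y ∈ Icc (0:ℝ) H) :
    IntervalIntegrable (fun τ => Ps S D k y (τ - r) g) volume r t := by
  have h1 := ((intervalIntegrable_isqL r r t).mul_const ‖g‖).const_mul (2 + k ^ 2 * H * √(t - r))
  refine ii_of_bound hrt ?_ h1 ?_
  · exact Ps_cont hS k y (by fun_prop) (fun τ hτ => by linarith [hτ.1]) continuousOn_const
  · intro τ hτ
    exact Ps_le hS k (by linarith [hτ.1]) (by linarith [hτ.2]) g hy

private theorem Sk_eq {S D A : ℝ → (CI H →L[ℂ] CI H)} (hS : DirSG H S D A) (k : ℝ) {r t : ℝ}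
    (hrt : r < t) (g : CI H) {y : ℝ} (hy : y ∈ Icc (0:ℝ) H) :
    prim (Sk S k (t - r) g) y = prim g y + ∫ τ in r..t, Ps S D k y (τ - r) g := by
  have h1 := Ps_ii hS k hrt.le g hy
  have h2 : ∫ τ in r..t, Ps S D k y (τ - r) g = prim (Sk S k (t - r) g) y - prim g y := by
    refine intervalIntegral.integral_eq_sub_of_hasDerivAt_of_tendsto (f := fun τ =>
      prim (Sk S k (τ - r) g) y) hrt ?_ h1 ?_ ?_
    · intro τ hτ
      have h3 := Ph_der hS k (u := τ - r) (by linarith [hτ.1]) g hy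
      exact h3.comp_sub_const τ r
    · have h3 : Tendsto (fun τ : ℝ => τ - r) (𝓝[>] r) (𝓝[>] 0) := by
        refine tendsto_nhdsWithin_of_tendsto_nhds_of_eventually_within _ ?_ ?_
        · have h4 : Continuous fun τ : ℝ => τ - r := by fun_prop
          have h5 := h4.tendsto r
          rw [sub_self] at h5
          exact h5.mono_left nhdsWithin_le_nhds
        · filter_upwards [self_mem_nhdsWithin] with τ hτ
          rw [mem_Ioi] at hτ ⊢
          linarith
      exact (Sk_init hS k g hy).comp h3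
    · have h3 := Ph_der hS k (u := t - r) (by linarith) g hy
      have h4 : HasDerivAt (fun τ => prim (Sk S k (τ - r) g) y) (Ps S D k y (t - r) g) t :=
        h3.comp_sub_const t r
      exact h4.continuousAt.tendsto.mono_left nhdsWithin_le_nhds
  rw [h2]
  ring

/-! ### The equation from the initial time -/

private theorem ti_base {S D A : ℝ → (CI H →L[ℂ] CI H)} (hS : DirSG H S D A) {k s b : ℝ}
    {f0 : CI H} {n f f1 : ℝ → CI H} {R : ℝ} (hn : ContinuousOn n (Ioc s b))
    (hb : ∀ t ∈ Ioc s b, ‖n t‖ ≤ R * (√(t - s))⁻¹)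
    (hf : ∀ t ∈ Ioc s b, f t = Sk S k (t - s) f0 + ∫ r in s..t, Sk S k (t - r) (n r))
    (hf1 : ∀ t ∈ Ioc s b, f1 t = Sk D k (t - s) f0 + ∫ r in s..t, Sk D k (t - r) (n r))
    {y : ℝ} (hy : y ∈ Icc (0:ℝ) H) : ∀ t ∈ Ioc s b,
      prim (f t) y = prim f0 y + ∫ τ in s..t, rh k (f τ) (f1 τ) (n τ) y ∧
      IntervalIntegrable (fun τ => rh k (f τ) (f1 τ) (n τ) y) volume s t := by
  intro t ht
  have hH0 := hH.out
  have hpos : ∀ r ∈ Ioo s t, 0 < (√(r - s))⁻¹ := fun r hr => by
    have : 0 < √(r - s) := Real.sqrt_pos.2 (by linarith [hr.1])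
    positivity
  -- integrability of the integrands
  have iS : ∀ τ ∈ Ioc s b, IntervalIntegrable (fun r => Sk S k (τ - r) (n r)) volume s τ := by
    intro τ hτ
    refine ii_of_bound hτ.1.le ?_ ((intervalIntegrable_isqL s s τ).const_mul R) ?_
    · exact SkS_cont hS k (by fun_prop) (fun r hr => by linarith [hr.2])
        (hn.mono fun r hr => ⟨hr.1, hr.2.le.trans hτ.2⟩)
    · intro r hr
      exact norm_Sk_le (by linarith [hr.2]) ((hS.S_norm _ (by linarith [hr.2]) _).trans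
        (hb r ⟨hr.1, hr.2.le.trans hτ.2⟩))
  have iD : ∀ τ ∈ Ioc s b, IntervalIntegrable (fun r => Sk D k (τ - r) (n r)) volume s τ := by
    intro τ hτ
    refine ii_of_bound hτ.1.le ?_ ((intervalIntegrable_betaS hτ.1).const_mul R) ?_
    · exact SkD_cont hS k (by fun_prop) (fun r hr => by linarith [hr.2])
        (hn.mono fun r hr => ⟨hr.1, hr.2.le.trans hτ.2⟩)
    · intro r hr
      have h1 : ‖D (τ - r) (n r)‖ ≤ (√(τ - r))⁻¹ * (R * (√(r - s))⁻¹) :=
        (hS.D_norm _ (by linarith [hr.2]) _).trans (mul_le_mul_of_nonneg_left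
          (hb r ⟨hr.1, hr.2.le.trans hτ.2⟩) (by positivity))
      have h2 := norm_Sk_le (k := k) (by linarith [hr.2]) h1
      refine h2.trans (le_of_eq ?_)
      ring
  have iP : ∀ τ ∈ Ioc s b, IntervalIntegrable (fun r => prim (n r) y) volume s τ := by
    intro τ hτ
    refine ii_of_bound hτ.1.le ?_ ((intervalIntegrable_isqL s s τ).const_mul (H * R)) ?_
    · exact (primL (H := H) y).continuous.comp_continuousOn
        (hn.mono fun r hr => ⟨hr.1, hr.2.le.trans hτ.2⟩)
    · intro r hr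
      refine (norm_prim_le hy _).trans ?_
      rw [mul_assoc]
      exact mul_le_mul_of_nonneg_left (hb r ⟨hr.1, hr.2.le.trans hτ.2⟩) hH0.le
  -- the kernel
  have hcont : ContinuousOn (uncurry fun r τ => Ps S D k y (τ - r) (n r))
      {p | s < p.1 ∧ p.1 < p.2 ∧ p.2 ≤ t} := by
    refine Ps_cont hS k y (Z := ℝ × ℝ) (φ := fun p => p.2 - p.1) (m := fun p => n p.1)
      (by fun_prop) (fun p hp => by linarith [hp.2.1]) ?_
    exact hn.comp continuousOn_fst fun p hp => ⟨hp.1, hp.2.1.le.trans (hp.2.2.trans ht.2)⟩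
  have hbd : ∀ r r', s < r → r < r' → r' ≤ t → ‖Ps S D k y (r' - r) (n r)‖ ≤
      ((2 + k ^ 2 * H * √(t - s)) * R) * ((√(r' - r))⁻¹ * (√(r - s))⁻¹) := by
    intro r r' h1 h2 h3
    have h4 := Ps_le hS k (u := r' - r) (T := t - s) (by linarith) (by linarith) (n r) hy
    have h5 := hb r ⟨h1, by linarith [ht.2]⟩
    have h6 : 0 ≤ (2 + k ^ 2 * H * √(t - s)) * (√(r' - r))⁻¹ := by positivity
    calc ‖Ps S D k y (r' - r) (n r)‖ ≤ (2 + k ^ 2 * H * √(t - s)) * ((√(r' - r))⁻¹ * ‖n r‖) := h4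
      _ = (2 + k ^ 2 * H * √(t - s)) * (√(r' - r))⁻¹ * ‖n r‖ := by ring
      _ ≤ (2 + k ^ 2 * H * √(t - s)) * (√(r' - r))⁻¹ * (R * (√(r - s))⁻¹) :=
          mul_le_mul_of_nonneg_left h5 h6
      _ = _ := by ring
  obtain ⟨t1, t2, t3⟩ := tri ht.1 hcont hbd
  -- the right hand side
  have hrh : ∀ τ ∈ Ioc s b, rh k (f τ) (f1 τ) (n τ) y =
      Ps S D k y (τ - s) f0 + (∫ r in s..τ, Ps S D k y (τ - r) (n r)) + prim (n τ) y := by
    intro τ hτ
    have e1 : prim (f τ) y = prim (Sk S k (τ - s) f0) y +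
        ∫ r in s..τ, prim (Sk S k (τ - r) (n r)) y := by
      have := (primL (H := H) y).intervalIntegral_comp_comm (iS τ hτ)
      simp only [primL_apply] at this
      rw [this, hf τ hτ, ← primL_apply, map_add]
      rfl
    have e2 : ∀ z : ℝ, ex (f1 τ) z = ex (Sk D k (τ - s) f0) z +
        ∫ r in s..τ, ex (Sk D k (τ - r) (n r)) z := by
      intro z
      have := (evL (H := H) z).intervalIntegral_comp_comm (iD τ hτ)
      simp only [evL_apply] at this
      rw [this, hf1 τ hτ, ex_add]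
    have i1 : ∀ z : ℝ, IntervalIntegrable (fun r => ex (Sk D k (τ - r) (n r)) z) volume s τ := by
      intro z
      have h := (iD τ hτ)
      exact ⟨(evL (H := H) z).integrable_comp h.1, (evL (H := H) z).integrable_comp h.2⟩
    have i2 : IntervalIntegrable (fun r => prim (Sk S k (τ - r) (n r)) y) volume s τ := by
      have h := (iS τ hτ)
      exact ⟨(primL (H := H) y).integrable_comp h.1, (primL (H := H) y).integrable_comp h.2⟩
    have e3 : ∫ r in s..τ, Ps S D k y (τ - r) (n r) =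
        (∫ r in s..τ, ex (Sk D k (τ - r) (n r)) y) - (∫ r in s..τ, ex (Sk D k (τ - r) (n r)) 0) -
          ((k ^ 2 : ℝ) : ℂ) * ∫ r in s..τ, prim (Sk S k (τ - r) (n r)) y := by
      simp only [Ps]
      rw [intervalIntegral.integral_sub ((i1 y).sub (i1 0)) (i2.const_mul _),
        intervalIntegral.integral_sub (i1 y) (i1 0), intervalIntegral.integral_const_mul]
    rw [rh, e1, e2 y, e2 0, e3, Ps]
    ring
  have i0 := Ps_ii hS k ht.1.le f0 hy
  have hI : IntervalIntegrable (fun τ => rh k (f τ) (f1 τ) (n τ) y) volume s t := by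
    have h := (i0.add t3).add (iP t ht)
    rw [intervalIntegrable_iff_integrableOn_Ioc_of_le ht.1.le] at h ⊢
    refine h.congr_fun (fun τ hτ => ?_) measurableSet_Ioc
    exact (hrh τ ⟨hτ.1, hτ.2.trans ht.2⟩).symm
  refine ⟨?_, hI⟩
  have e4 : ∫ τ in s..t, rh k (f τ) (f1 τ) (n τ) y =
      (∫ τ in s..t, Ps S D k y (τ - s) f0) +
        (∫ τ in s..t, ∫ r in s..τ, Ps S D k y (τ - r) (n r)) + ∫ τ in s..t, prim (n τ) y := by
    rw [← intervalIntegral.integral_add i0 t3, ← intervalIntegral.integral_add (i0.add t3) (iP t ht)]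
    rw [intervalIntegral.integral_of_le ht.1.le, intervalIntegral.integral_of_le ht.1.le]
    refine setIntegral_congr_fun measurableSet_Ioc fun τ hτ => ?_
    exact hrh τ ⟨hτ.1, hτ.2.trans ht.2⟩
  have e5 : prim (f t) y = prim (Sk S k (t - s) f0) y +
      ∫ r in s..t, prim (Sk S k (t - r) (n r)) y := by
    have := (primL (H := H) y).intervalIntegral_comp_comm (iS t ht)
    simp only [primL_apply] at this
    rw [this, hf t ht, ← primL_apply, map_add]
    rfl
  have e6 : ∫ r in s..t, prim (Sk S k (t - r) (n r)) y =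
      (∫ r in s..t, prim (n r) y) + ∫ r in s..t, ∫ τ in r..t, Ps S D k y (τ - r) (n r) := by
    rw [← intervalIntegral.integral_add (iP t ht) t2]
    rw [intervalIntegral.integral_of_le ht.1.le, intervalIntegral.integral_of_le ht.1.le,
      integral_Ioc_eq_integral_Ioo, integral_Ioc_eq_integral_Ioo]
    refine setIntegral_congr_fun measurableSet_Ioo fun r hr => ?_
    exact Sk_eq hS k hr.2 (n r) hy
  rw [e5, e6, e4, Sk_eq hS k ht.1 f0 hy, t1]
  ring

theorem ti_mode {S D A : ℝ → (CI H →L[ℂ] CI H)} (hS : DirSG H S D A) {k s b : ℝ}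
    {f0 : CI H} {n f f1 : ℝ → CI H} {R : ℝ} (hn : ContinuousOn n (Ioc s b))
    (hb : ∀ t ∈ Ioc s b, ‖n t‖ ≤ R * (√(t - s))⁻¹)
    (hf : ∀ t ∈ Ioc s b, f t = Sk S k (t - s) f0 + ∫ r in s..t, Sk S k (t - r) (n r))
    (hf1 : ∀ t ∈ Ioc s b, f1 t = Sk D k (t - s) f0 + ∫ r in s..t, Sk D k (t - r) (n r)) :
    ∀ t1 ∈ Ioc s b, ∀ t2 ∈ Icc t1 b, ∀ y ∈ Icc (0:ℝ) H,
      prim (f t2) y - prim (f t1) y = ∫ r in t1..t2, rh k (f r) (f1 r) (n r) y := by
  intro t1 h1 t2 h2 y hy
  obtain ⟨a1, b1⟩ := ti_base hS hn hb hf hf1 hy t1 h1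
  obtain ⟨a2, b2⟩ := ti_base hS hn hb hf hf1 hy t2 ⟨h1.1.trans_le h2.1, h2.2⟩
  rw [a1, a2, ← intervalIntegral.integral_interval_sub_left b2 b1]
  ring

end

end Pool.Agent.Lib.MP_79abb3_an.P25
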