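import Pool.Agent.Lib.MP_79abb3_an.P25.AbsC
import Pool.Agent.Lib.MP_79abb3_an.P25.BW
import Pool.Agent.Lib.MP_79abb3_an.P25.MildMode
import Pool.Agent.Lib.MP_79abb3_an.P25.Rescale
import Pool.Agent.Lib.MP_79abb3_an.P25.SymA
import Pool.Agent.Lib.MP_79abb3_an.P25.TI

/-!
TR-5: local existence of perturbations.
-/

set_option autoImplicit false
set_option linter.unusedSectionVars false

attribute [-instance] SubfieldClass.toSubringClass SubringClass.toSubsemiringClass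
  NonUnitalSubringClass.toNonUnitalSubsemiringClass PreLp.ring RingConeClass.toSubsemiringClass
  SubsemiringClass.nonUnitalSubsemiringClass SubringClass.nonUnitalSubringClass
  AddSubgroup.seminormedAddCommGroup SetLike.GradeZero.instSemiring SetLike.GradeZero.instCommRing
  SetLike.GradeZero.instCommSemiring SetLike.GradeZero.instRing LieAdmissibleAlgebra.toModule
  RightPreLieAlgebra.toModule LeftPreLieAlgebra.toModule

open MeasureTheory Set Filter Topology Function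

namespace Pool.Agent.Lib.MP_79abb3_an.P25

/-! ### Arithmetic -/

theorem lept_ar0 {X C MF M Q m q : ℝ} (h1 : X ≤ 2 * C * ((M + 2 * C * Q) * m + MF) * q) (hm : 0 ≤ m)
    (hsm : 2 * C * (q * (M + 2 * C * Q)) ≤ 1 / 2) : X ≤ 2 * C * (q * MF) + m / 2 := by
  have h8 : 2 * C * (q * (M + 2 * C * Q)) * m ≤ 1 / 2 * m := mul_le_mul_of_nonneg_right hsm hm
  have h7 : 2 * C * ((M + 2 * C * Q) * m + MF) * q =
      2 * C * (q * (M + 2 * C * Q)) * m + 2 * C * (q * MF) := by ring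
  rw [h7] at h1
  linarith

theorem lept_ar1 {C R a q : ℝ} (hC : 1 ≤ C) (ha : 0 ≤ a) (hq : 0 ≤ q) :
    2 * C * R + a + q ≤ 2 * C * (R + a + q) := by
  have h1 : 1 * (a + q) ≤ 2 * C * (a + q) :=
    mul_le_mul_of_nonneg_right (by linarith) (add_nonneg ha hq)
  linarith

theorem lept_ar2 {C S q : ℝ} (hC : 1 ≤ C) (hS : 0 ≤ S) (hq : 0 ≤ q) : S ≤ 9 * C * (S + q) := by
  have h1 : 1 * (S + q) ≤ 9 * C * (S + q) :=
    mul_le_mul_of_nonneg_right (by linarith) (add_nonneg hS hq)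
  linarith

theorem lept_ar3 {C S q : ℝ} (hC : 1 ≤ C) (hS : 0 ≤ S) (hq : 0 ≤ q) :
    2 * S + 4 * C * q ≤ 9 * C * (S + q) := by
  have h1 : 2 * S ≤ 9 * C * S := mul_le_mul_of_nonneg_right (by linarith) hS
  have h2 : 4 * C * q ≤ 9 * C * q := mul_le_mul_of_nonneg_right (by linarith) hq
  linarith

theorem lept_ar4 {C R a q r : ℝ} (hC : 1 ≤ C) (ha : 0 ≤ a) (hq : 0 ≤ q) (hr : 0 ≤ r)
    (h : r * (R + a + q) ≤ 1 / (432 * C ^ 4)) :
    r * (2 * C * R + a + q) ≤ 1 / (216 * C ^ 3) := by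
  have hCp : 0 < C := by linarith
  calc r * (2 * C * R + a + q) ≤ r * (2 * C * (R + a + q)) :=
        mul_le_mul_of_nonneg_left (lept_ar1 hC ha hq) hr
    _ = 2 * C * (r * (R + a + q)) := by ring
    _ ≤ 2 * C * (1 / (432 * C ^ 4)) := mul_le_mul_of_nonneg_left h (by linarith)
    _ = _ := by field_simp; ring

theorem lept_ar5 {C R a q r : ℝ} (hC : 1 ≤ C) (hR : 0 ≤ R) (hr : 0 ≤ r)
    (h : r * (R + a + q) ≤ 1 / (432 * C ^ 4)) :
    2 * C * (r * (4 * C * R + 2 * C * (9 * C * (a + q)))) ≤ 1 / 2 := by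
  have hCp : 0 < C := by linarith
  have h0 : C ≤ C ^ 2 := le_self_pow₀ hC two_ne_zero
  have h3 : 4 * C ≤ 18 * C ^ 2 := by linarith
  have h4 : 4 * C * R ≤ 18 * C ^ 2 * R := mul_le_mul_of_nonneg_right h3 hR
  have h5 : 4 * C * R + 2 * C * (9 * C * (a + q)) ≤ 18 * C ^ 2 * (R + a + q) := by linarith
  calc 2 * C * (r * (4 * C * R + 2 * C * (9 * C * (a + q))))
      ≤ 2 * C * (r * (18 * C ^ 2 * (R + a + q))) :=
        mul_le_mul_of_nonneg_left (mul_le_mul_of_nonneg_left h5 hr) (by linarith)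
    _ = 36 * C ^ 3 * (r * (R + a + q)) := by ring
    _ ≤ 36 * C ^ 3 * (1 / (432 * C ^ 4)) := mul_le_mul_of_nonneg_left h (by positivity)
    _ = 1 / (12 * C) := by field_simp; norm_num
    _ ≤ 1 / 2 := by
      rw [div_le_div_iff₀ (by positivity) (by norm_num)]
      linarith

theorem lept_ar6 {C R x y p r X Y : ℝ} (hC : 0 ≤ C) (hx : 0 ≤ x) (hy : 0 ≤ y) (hp : p ≤ R)
    (hr : r ≤ R) (hX : X ≤ C * (p * x + r * y)) (hY : Y ≤ C * (y * r + x * p)) :
    X + Y ≤ 2 * C * R * (x + y) := by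
  have h1 : p * x ≤ R * x := mul_le_mul_of_nonneg_right hp hx
  have h2 : r * y ≤ R * y := mul_le_mul_of_nonneg_right hr hy
  have h3 : C * (p * x + r * y) ≤ C * (R * x + R * y) :=
    mul_le_mul_of_nonneg_left (add_le_add h1 h2) hC
  have h4 : C * (y * r + x * p) = C * (p * x + r * y) := by ring
  have h5 : 2 * C * R * (x + y) = C * (R * x + R * y) + C * (R * x + R * y) := by ring
  rw [h5]
  exact add_le_add (hX.trans h3) (hY.trans (h4.le.trans h3))

section Abs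
variable {X Y : Type} [NormedAddCommGroup X] [NormedSpace ℝ X] [CompleteSpace X]
  [NormedAddCommGroup Y] [NormedSpace ℝ Y] [CompleteSpace Y]
  {j : X →L[ℝ] Y} {T : ℝ → (Y →L[ℝ] X)} {B : X →L[ℝ] X →L[ℝ] Y} {C : ℝ}

/-- Estimate in `X` for mild solutions, when `T t u0` is bounded in `X` and the norm in `Y` is
small. -/
theorem Mild.boundX (hT : SG j T C) (hB : BilB j B C) {s τ M MF Q X0 : ℝ} (hτ : 0 < τ) (hτ1 : τ ≤ 1)
    (hM : 0 ≤ M) (hMF : 0 ≤ MF) (hQ : 0 ≤ Q) {Λ : ℝ → (X →L[ℝ] Y)} {F : ℝ → Y}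
    (cΛ : ∀ x, ContinuousOn (fun t => Λ t x) (Ioc s (s + τ))) (cF : ContinuousOn F (Ioc s (s + τ)))
    (bΛ : ∀ t ∈ Ioc s (s + τ), ∀ x, ‖Λ t x‖ ≤ M * ‖x‖) (bF : ∀ t ∈ Ioc s (s + τ), ‖F t‖ ≤ MF)
    {u0 : Y} {u : ℝ → X} (hx : ∀ t ∈ Ioc (0:ℝ) 1, ‖T t u0‖ ≤ X0)
    (hu : Mild j T B Λ F s (s + τ) u0 u) (hub' : ∀ t ∈ Ioc s (s + τ), ‖j (u t)‖ ≤ Q)
    (hsm : 2 * C * (√τ * (M + 2 * C * Q)) ≤ 1 / 2) :
    ∀ t ∈ Ioc s (s + τ), ‖u t‖ ≤ 2 * X0 + 4 * C * (√τ * MF) := by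
  have hC1 := hT.one_le
  have hC0 : 0 ≤ C := zero_le_one.trans hC1
  have hCQ : 0 ≤ 2 * C * Q := mul_nonneg (mul_nonneg zero_le_two hC0) hQ
  obtain ⟨hcont, R2, hR20, hR2⟩ := hu.bdd (M := M + MF) hT hB (add_le_add_right hτ1 s)
    (add_nonneg hM hMF) cΛ cF
    (fun t ht x => (bΛ t ht x).trans
      (mul_le_mul_of_nonneg_right (le_add_of_nonneg_right hMF) (norm_nonneg x)))
    (fun t ht => (bF t ht).trans (le_add_of_nonneg_left hM)) hx
  -- improvement of a bound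
  have himp : ∀ m, 0 ≤ m → (∀ t ∈ Ioc s (s + τ), ‖u t‖ ≤ m) →
      ∀ t ∈ Ioc s (s + τ), ‖u t‖ ≤ X0 + 2 * C * (√τ * MF) + m / 2 := by
    intro m hm hb t ht
    have hN : ∀ t ∈ Ioc s (s + τ), ‖Λ t (u t) + B (u t) (u t) + F t‖ ≤
        (M + 2 * C * Q) * m + MF := by
      intro t ht
      rw [add_mul]
      exact norm_add₃_le.trans (add_le_add (add_le_add
        ((bΛ t ht (u t)).trans (mul_le_mul_of_nonneg_left (hb t ht) hM))
        ((norm_B_self_le hB hC0 (hub' t ht)).trans (mul_le_mul_of_nonneg_left (hb t ht) hCQ)))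
        (bF t ht))
    have hR0 : 0 ≤ (M + 2 * C * Q) * m + MF := add_nonneg (mul_nonneg (add_nonneg hM hCQ) hm) hMF
    have hd := duhamel_bdd hT (add_le_add_right hτ1 s) (R := (M + 2 * C * Q) * m + MF)
      hR0 hcont hN t ht
    have hts : √(t - s) ≤ √τ := Real.sqrt_le_sqrt (sub_le_iff_le_add'.2 ht.2)
    have h1 : ‖T (t - s) u0‖ ≤ X0 :=
      hx (t - s) ⟨sub_pos.2 ht.1, (sub_le_iff_le_add'.2 ht.2).trans hτ1⟩
    rw [hu.eq t ht, add_assoc]
    exact (norm_add_le _ _).trans (add_le_add h1 (lept_ar0 (hd.trans (mul_le_mul_of_nonneg_left hts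
      (mul_nonneg (mul_nonneg zero_le_two hC0) hR0))) hm hsm))
  -- conclude with the supremum
  have hne : ((fun t => ‖u t‖) '' Ioc s (s + τ)).Nonempty :=
    ⟨_, s + τ, ⟨lt_add_of_pos_right s hτ, le_rfl⟩, rfl⟩
  have hbdd : BddAbove ((fun t => ‖u t‖) '' Ioc s (s + τ)) := by
    refine ⟨R2, ?_⟩
    rintro _ ⟨t, ht, rfl⟩
    exact hR2 t ht
  obtain ⟨m, hm⟩ : ∃ m, m = sSup ((fun t => ‖u t‖) '' Ioc s (s + τ)) := ⟨_, rfl⟩
  have hmb : ∀ t ∈ Ioc s (s + τ), ‖u t‖ ≤ m := fun t ht => by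
    rw [hm]; exact le_csSup hbdd ⟨t, ht, rfl⟩
  have hm0 : 0 ≤ m := (norm_nonneg _).trans (hmb (s + τ) ⟨lt_add_of_pos_right s hτ, le_rfl⟩)
  have hmm : m ≤ X0 + 2 * C * (√τ * MF) + m / 2 := by
    refine hm.le.trans (csSup_le hne ?_)
    rintro _ ⟨t, ht, rfl⟩
    exact himp m hm0 hmb t ht
  intro t ht
  refine (hmb t ht).trans ?_
  clear * - hmm
  linarith

theorem lept_proj {E G : Type} [NormedAddCommGroup E] [NormedSpace ℝ E] [CompleteSpace E]
    [NormedAddCommGroup G] [NormedSpace ℝ G] [CompleteSpace G] (L : E →L[ℝ] G) {g : ℝ → E}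
    {s t : ℝ} (hI : IntervalIntegrable g volume s t) {x y : E} (he : x = y + ∫ r in s..t, g r) :
    L x = L y + ∫ r in s..t, L (g r) := by
  rw [he, map_add, ContinuousLinearMap.intervalIntegral_comp_comm _ hI]

theorem lept_cc {E G : Type} [NormedAddCommGroup E] [NormedSpace ℝ E]
    [NormedAddCommGroup G] [NormedSpace ℝ G] (L : E →L[ℝ] G) {g : ℝ → E} {K : Set ℝ}
    (hg : ContinuousOn g K) : ContinuousOn (fun t => L (g t)) K :=
  L.continuous.comp_continuousOn hg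

end Abs

theorem lept_cB {X Y : Type} [NormedAddCommGroup X] [NormedSpace ℝ X] [NormedAddCommGroup Y]
    [NormedSpace ℝ Y] {B : X →L[ℝ] X →L[ℝ] Y} {V W : ℝ → X} {K : Set ℝ}
    (hV : ContinuousOn V K) (hW : ContinuousOn W K) : ContinuousOn (fun t => B (V t) (W t)) K :=
  (B.continuous.comp_continuousOn hV).clm_apply hW

section
variable {H : ℝ} [hH : Fact (0 < H)]

/-! ### Primitives -/

theorem lept_norm_prim_le (f : CI H) {y : ℝ} (hy : y ∈ Icc (0:ℝ) H) : ‖prim f y‖ ≤ H * ‖f‖ := by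
  refine (intervalIntegral.norm_integral_le_of_norm_le_const (C := ‖f‖) fun x hx => norm_ex_le f x).trans ?_
  rw [sub_zero, abs_of_nonneg hy.1, mul_comm]
  have := hy.2
  gcongr

theorem lept_prim_add (f g : CI H) (y : ℝ) : prim (f + g) y = prim f y + prim g y := by
  rw [prim, prim, prim, ← intervalIntegral.integral_add]
  · rfl
  · exact (continuous_ex f).intervalIntegrable _ _
  · exact (continuous_ex g).intervalIntegrable _ _

theorem lept_prim_rsmul (c : ℝ) (f : CI H) (y : ℝ) : prim (c • f) y = c * prim f y := by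
  rw [prim, prim, ← intervalIntegral.integral_const_mul]
  rfl

/-- `prim` as a continuous linear map. -/
noncomputable def pmL (H : ℝ) [Fact (0 < H)] (y : ℝ) (hy : y ∈ Icc (0:ℝ) H) : CI H →L[ℝ] ℂ :=
  LinearMap.mkContinuous
    { toFun := fun f => prim f y
      map_add' := fun f g => lept_prim_add f g y
      map_smul' := fun c f => by
        rw [lept_prim_rsmul]
        simp } H (fun f => lept_norm_prim_le f hy)

theorem lept_pmL_apply (y : ℝ) (hy : y ∈ Icc (0:ℝ) H) (f : CI H) : pmL H y hy f = prim f y := rfl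

/-- Continuity in time of the right hand side `rh`. -/
theorem lept_continuousOn_rh (k : ℝ) {y : ℝ} (hy : y ∈ Icc (0:ℝ) H) {f f1 n : ℝ → CI H} {s : Set ℝ}
    (hf : ContinuousOn f s) (hf1 : ContinuousOn f1 s) (hn : ContinuousOn n s) :
    ContinuousOn (fun t => rh k (f t) (f1 t) (n t) y) s := by
  have h1 : ContinuousOn (fun t => ex (f1 t) y) s := (evL y).continuous.comp_continuousOn hf1
  have h2 : ContinuousOn (fun t => ex (f1 t) 0) s := (evL 0).continuous.comp_continuousOn hf1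
  have h3 : ContinuousOn (fun t => prim (f t) y) s := (pmL H y hy).continuous.comp_continuousOn hf
  have h4 : ContinuousOn (fun t => prim (n t) y) s := (pmL H y hy).continuous.comp_continuousOn hn
  exact ((h1.sub h2).sub (continuousOn_const.mul h3)).add h4


/-! ### Coefficients -/

theorem lept_norm_jL_le (x : L1 (Xn H)) : ‖jL H x‖ ≤ ‖x‖ := by
  have := norm_diagL_le (fun _ : ℤ => jnL H) 1 (fun _ => norm_jnL_le) x
  rwa [one_mul] at this

theorem lept_lam_cont {B : L1 (Xn H) →L[ℝ] L1 (Xn H) →L[ℝ] L1 (Yn H)} {U : ℝ → L1 (Xn H)}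
    {s : Set ℝ} (cU : ContinuousOn U s) (x : L1 (Xn H)) :
    ContinuousOn (fun t => lamU B U t x) s := by
  have h1 : ContinuousOn (fun t => B (U t) x) s := lept_cB cU continuousOn_const
  have h2 : ContinuousOn (fun t => B x (U t)) s := lept_cB continuousOn_const cU
  exact h1.add h2

theorem lept_lam_bound {B : L1 (Xn H) →L[ℝ] L1 (Xn H) →L[ℝ] L1 (Yn H)} {C R : ℝ} (hC : 1 ≤ C)
    (hB : BilB (jL H) B C) {U : ℝ → L1 (Xn H)} {t : ℝ} (hR : 0 ≤ R) (hU : ‖U t‖ ≤ R) (x : L1 (Xn H)) :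
    ‖lamU B U t x‖ ≤ 2 * C * R * (‖x‖ + ‖jL H x‖) := by
  have h3 : ‖jL H (U t)‖ ≤ R := (lept_norm_jL_le _).trans hU
  exact (norm_add_le _ _).trans
    (lept_ar6 (zero_le_one.trans hC) (norm_nonneg x) (norm_nonneg _) h3 hU (hB (U t) x) (hB x (U t)))

theorem lept_coef {B : L1 (Xn H) →L[ℝ] L1 (Xn H) →L[ℝ] L1 (Yn H)} {C R MF s τ : ℝ} (hC : 1 ≤ C)
    (hB : BilB (jL H) B C) (hτ1 : τ ≤ 1) (hR : 0 ≤ R) (hMF : 0 ≤ MF) {U : ℝ → L1 (Xn H)}
    {F : ℝ → L1 (Yn H)} (cU : ContinuousOn U (Icc s (s + τ))) (cF : ContinuousOn F (Icc s (s + τ)))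
    (hbd : ∀ t ∈ Icc s (s + τ), ‖U t‖ ≤ R ∧ ‖F t‖ ≤ MF) :
    Coef (jL H) s (s + τ) (2 * C * R) MF (lamU B U) F := by
  have hCR : 0 ≤ 2 * C * R := mul_nonneg (mul_nonneg zero_le_two (zero_le_one.trans hC)) hR
  have h2 : ∀ t ∈ Ioc s (s + τ), 1 ≤ (√(t - s))⁻¹ := fun t ht =>
    one_le_inv_sqrt (x := t - s) (sub_pos.2 ht.1) ((sub_le_iff_le_add'.2 ht.2).trans hτ1)
  refine ⟨fun x => lept_lam_cont (cU.mono Ioc_subset_Icc_self) x, cF.mono Ioc_subset_Icc_self, ?_, ?_⟩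
  · intro t ht x
    exact (lept_lam_bound hC hB hR (hbd t (Ioc_subset_Icc_self ht)).1 x).trans
      (mul_le_mul_of_nonneg_left (add_le_add le_rfl
        (le_mul_of_one_le_left (norm_nonneg _) (h2 t ht))) hCR)
  · intro t ht
    exact (hbd t (Ioc_subset_Icc_self ht)).2.trans (le_mul_of_one_le_right hMF (h2 t ht))

theorem lept_lam_bound' {B : L1 (Xn H) →L[ℝ] L1 (Xn H) →L[ℝ] L1 (Yn H)} {C R : ℝ} (hC : 1 ≤ C)
    (hB : BilB (jL H) B C) {U : ℝ → L1 (Xn H)} {t : ℝ} (hR : 0 ≤ R) (hU : ‖U t‖ ≤ R) (x : L1 (Xn H)) :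
    ‖lamU B U t x‖ ≤ 4 * C * R * ‖x‖ := by
  have h3 : 0 ≤ 2 * C * R := mul_nonneg (mul_nonneg zero_le_two (zero_le_one.trans hC)) hR
  have h4 : 2 * C * R * (‖x‖ + ‖x‖) = 4 * C * R * ‖x‖ := by ring
  exact (lept_lam_bound hC hB hR hU x).trans ((mul_le_mul_of_nonneg_left
    (add_le_add le_rfl (lept_norm_jL_le x)) h3).trans h4.le)

theorem lept_wt_one : Wt 1 (fun _ : ℤ => (1:ℝ)) := ⟨fun _ => le_rfl, fun _ _ => by norm_num, rfl⟩

theorem lept_B1 {ω : ℝ} {B : L1 (Xn H) →L[ℝ] L1 (Xn H) →L[ℝ] L1 (Yn H)}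
    (hB : IsBW ω (fun _ => 1) B) (x y : L1 (Xn H)) (n : ℤ) : (B x y) n = Bf ω x y n := by
  rw [hB x y n]
  have h1 : (fun m : ℤ => ((1:ℝ))⁻¹ • x m) = fun m => x m := by
    funext m; rw [inv_one]; exact one_smul _ _
  have h2 : (fun m : ℤ => ((1:ℝ))⁻¹ • y m) = fun m => y m := by
    funext m; rw [inv_one]; exact one_smul _ _
  rw [h1, h2]
  exact one_smul _ _


/-! ### From mild solutions to perturbations -/

theorem lept_ext {f g : ℝ → ℂ} {s b : ℝ} (hsb : s < b) (cf : ContinuousOn f (Icc s b))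
    (cg : ContinuousOn g (Icc s b))
    (h : ∀ t1 ∈ Ioc s b, ∀ t2 ∈ Icc t1 b, f t2 - f t1 = ∫ r in t1..t2, g r) :
    ∀ t1 ∈ Icc s b, ∀ t2 ∈ Icc t1 b, f t2 - f t1 = ∫ r in t1..t2, g r := by
  have hI : IntervalIntegrable g volume s b := by
    refine ContinuousOn.intervalIntegrable ?_
    rwa [uIcc_of_le hsb.le]
  have hG : ContinuousOn (fun t => ∫ r in s..t, g r) (Icc s b) := by
    have := intervalIntegral.continuousOn_primitive_interval' hI (a := s) left_mem_uIcc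
    rwa [uIcc_of_le hsb.le] at this
  have hII : ∀ t1 ∈ Icc s b, ∀ t2 ∈ Icc s b, IntervalIntegrable g volume t1 t2 := by
    intro t1 h1 t2 h2
    refine hI.mono_set ?_
    rw [uIcc_of_le hsb.le]
    exact uIcc_subset_Icc h1 h2
  have hs : s ∈ Icc s b := ⟨le_rfl, hsb.le⟩
  have hb : b ∈ Icc s b := ⟨hsb.le, le_rfl⟩
  have key : EqOn (fun t => f t - ∫ r in s..t, g r) (fun _ => f b - ∫ r in s..b, g r) (Icc s b) := by
    refine EqOn.of_subset_closure (s := Ioc s b) ?_ (cf.sub hG) continuousOn_const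
      Ioc_subset_Icc_self (by rw [closure_Ioc hsb.ne])
    intro t ht
    have h1 := h t ht b ⟨ht.2, le_rfl⟩
    have h2 := intervalIntegral.integral_add_adjacent_intervals
      (hII s hs t (Ioc_subset_Icc_self ht)) (hII t (Ioc_subset_Icc_self ht) b hb)
    show f t - ∫ r in s..t, g r = f b - ∫ r in s..b, g r
    rw [← h2, ← h1]
    ring
  intro t1 h1 t2 h2
  have h2' : t2 ∈ Icc s b := ⟨h1.1.trans h2.1, h2.2⟩
  have k1 := key h1
  have k2 := key h2'
  have h3 := intervalIntegral.integral_add_adjacent_intervals (hII s hs t1 h1) (hII t1 h1 t2 h2')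
  have k3 : f t1 - ∫ r in s..t1, g r = f t2 - ∫ r in s..t2, g r := k1.trans k2.symm
  rw [← h3] at k3
  linear_combination -k3

theorem lept_src {ω : ℝ} {B : L1 (Xn H) →L[ℝ] L1 (Xn H) →L[ℝ] L1 (Yn H)}
    (hB : IsBW ω (fun _ => 1) B) (U u : ℝ → L1 (Xn H)) (F : ℝ → L1 (Yn H)) (t : ℝ) (n : ℤ) :
    (lamU B U t (u t) + B (u t) (u t) + F t) n = src ω U u F t n := by
  unfold src
  rw [← lept_B1 hB, ← lept_B1 hB, ← lept_B1 hB]
  rfl

theorem lept_two {S D A : ℝ → (CI H →L[ℂ] CI H)} (hS : DirSG H S D A) {ω s b R : ℝ}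
    {N : ℝ → L1 (Yn H)} {v : ℝ → L1 (Xn H)} {w : L1 (Yn H)} (hNc : ContinuousOn N (Ioc s b))
    (hNb : ∀ t ∈ Ioc s b, ‖N t‖ ≤ R * (√(t - s))⁻¹)
    (hma : ∀ t ∈ Ioc s b, ∀ n : ℤ,
      IntervalIntegrable (fun r => Tn S D (ω * n) (t - r) (N r n)) volume s t ∧
      v t n = Tn S D (ω * n) (t - s) (w n) + ∫ r in s..t, Tn S D (ω * n) (t - r) (N r n)) (n : ℤ) :
    (∀ t1 ∈ Ioc s b, ∀ t2 ∈ Icc t1 b, ∀ y ∈ Icc (0:ℝ) H,
      prim (v t2 n).1.1 y - prim (v t1 n).1.1 y =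
      ∫ r in t1..t2, rh (ω * n) (v r n).1.1 (v r n).1.2.1 (N r n).1 y) ∧
    (∀ t1 ∈ Ioc s b, ∀ t2 ∈ Icc t1 b, ∀ y ∈ Icc (0:ℝ) H,
      prim (v t2 n).2.1 y - prim (v t1 n).2.1 y =
      ∫ r in t1..t2, rh (ω * n) (v r n).2.1 (v r n).2.2.1 (N r n).2 y) := by
  have hn : ContinuousOn (fun t => N t n) (Ioc s b) := lept_cc (evN (Yn H) n) hNc
  have hb : ∀ t ∈ Ioc s b, ‖N t n‖ ≤ R * (√(t - s))⁻¹ := fun t ht =>
    (norm_le_l1 n _).trans (hNb t ht)
  exact ⟨ti_mode (H := H) hS (k := ω * n) (s := s) (b := b) (f0 := (w n).1)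
      (n := fun t => (N t n).1) (f := fun t => (v t n).1.1) (f1 := fun t => (v t n).1.2.1) (R := R)
      (continuous_fst.comp_continuousOn hn) (fun t ht => (norm_fst_le _).trans (hb t ht))
      (fun t ht => lept_proj (q1 H) (hma t ht n).1 (hma t ht n).2)
      (fun t ht => lept_proj (q2 H) (hma t ht n).1 (hma t ht n).2),
    ti_mode (H := H) hS (k := ω * n) (s := s) (b := b) (f0 := (w n).2)
      (n := fun t => (N t n).2) (f := fun t => (v t n).2.1) (f1 := fun t => (v t n).2.2.1) (R := R)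
      (continuous_snd.comp_continuousOn hn) (fun t ht => (norm_snd_le _).trans (hb t ht))
      (fun t ht => lept_proj (q4 H) (hma t ht n).1 (hma t ht n).2)
      (fun t ht => lept_proj (q5 H) (hma t ht n).1 (hma t ht n).2)⟩

theorem lept_PT {S D A : ℝ → (CI H →L[ℂ] CI H)} (hS : DirSG H S D A) {ω C s τ R MF : ℝ}
    {B : L1 (Xn H) →L[ℝ] L1 (Xn H) →L[ℝ] L1 (Yn H)} (hBW : IsBW ω (fun _ => 1) B)
    (hB : BilB (jL H) B C) (hC : 1 ≤ C) (hτ : 0 < τ) (hτ1 : τ ≤ 1) (hR : 0 ≤ R) (hMF : 0 ≤ MF)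
    {U : ℝ → L1 (Xn H)} {F : ℝ → L1 (Yn H)} (cU : ContinuousOn U (Icc s (s + τ)))
    (cF : ContinuousOn F (Icc s (s + τ))) (hbd : ∀ t ∈ Icc s (s + τ), ‖U t‖ ≤ R ∧ ‖F t‖ ≤ MF)
    (hU : ∀ t ∈ Icc s (s + τ), Sy (U t)) (hF : ∀ t ∈ Icc s (s + τ), Sy (F t)) {x0 : L1 (Xn H)}
    (hx : ∀ n : ℤ, Dmode (ω * n) (x0 n)) (hs : Sy x0) {v : ℝ → L1 (Xn H)}
    (h : Mild (jL H) (TT hS ω) B (lamU B U) F s (s + τ) (jL H x0) v) :
    PT ω s (s + τ) U F (fun t => if t ≤ s then x0 else v t) := by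
  have hXc : CompleteSpace (L1 (Xn H)) := completeSpace_L1
  have hYc : CompleteSpace (L1 (Yn H)) := completeSpace_L1
  have hT : SG (jL H) (TT hS ω) C := sg_TT hS ω hC
  have hM : 0 ≤ 2 * C * R := mul_nonneg (mul_nonneg zero_le_two (zero_le_one.trans hC)) hR
  have hM4 : 0 ≤ 4 * C * R := mul_nonneg (mul_nonneg (by norm_num) (zero_le_one.trans hC)) hR
  have hsb : s + τ ≤ s + 1 := add_le_add_right hτ1 s
  have hsb' : s < s + τ := lt_add_of_pos_right s hτ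
  have hc := lept_coef hC hB hτ1 hR hMF cU cF hbd
  have hdm := Mild.dmode hS hB hC hM hsb hc h
  have hsj : Sy (jL H x0) := by
    intro n
    rw [jL_apply, jL_apply, hs n]
    rfl
  have hsym := Mild.sym hS (fun _ => rfl) hBW hB hC hM hsb hc
    (fun t ht => hU t (Ioc_subset_Icc_self ht)) (fun t ht => hF t (Ioc_subset_Icc_self ht)) hsj h
  have hreg := Mild.reg (M := 4 * C * R + MF) hT hB hsb hsb' (add_nonneg hM4 hMF)
    (fun x => lept_lam_cont (cU.mono Ioc_subset_Icc_self) x) (cF.mono Ioc_subset_Icc_self)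
    (fun t ht x => (lept_lam_bound' hC hB hR (hbd t (Ioc_subset_Icc_self ht)).1 x).trans
      (mul_le_mul_of_nonneg_right (le_add_of_nonneg_right hMF) (norm_nonneg x)))
    (fun t ht => (hbd t (Ioc_subset_Icc_self ht)).2.trans (le_add_of_nonneg_left hM4))
    (TT_init hS ω hx).1 h
  obtain ⟨hlim, -⟩ := hreg
  set b := s + τ with hb
  set u : ℝ → L1 (Xn H) := fun t => if t ≤ s then x0 else v t with hu
  have hus : u s = x0 := if_pos le_rfl
  have huv : ∀ t, s < t → u t = v t := fun t ht => if_neg (not_le.2 ht)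
  have cu : ContinuousOn u (Icc s b) := by
    intro t ht
    rcases eq_or_lt_of_le ht.1 with hst | hst
    · subst hst
      rw [ContinuousWithinAt, hus]
      have h1 : Icc s b ⊆ insert s (Ioi s) := by
        intro r hr
        rcases eq_or_lt_of_le hr.1 with h | h
        · exact Or.inl h.symm
        · exact Or.inr h
      refine Tendsto.mono_left ?_ (nhdsWithin_mono _ h1)
      rw [nhdsWithin_insert]
      refine Tendsto.sup ?_ ?_
      · rw [tendsto_pure_left]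
        intro V hV
        rw [hus]
        exact mem_of_mem_nhds hV
      · refine hlim.congr' ?_
        filter_upwards [self_mem_nhdsWithin] with r hr
        exact (huv r hr).symm
    · have h2 : ContinuousWithinAt u (Ioc s b) t :=
        (h.cont t ⟨hst, ht.2⟩).congr (fun r hr => huv r hr.1) (huv t hst)
      refine h2.mono_of_mem_nhdsWithin ?_
      rw [mem_nhdsWithin]
      exact ⟨Ioi s, isOpen_Ioi, hst, fun r hr => ⟨hr.1, hr.2.2⟩⟩
  -- the source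
  have cN : ContinuousOn (fun t => lamU B U t (u t) + B (u t) (u t) + F t) (Icc s b) := by
    have h1 : ContinuousOn (fun t => B (U t) (u t)) (Icc s b) := lept_cB cU cu
    have h2 : ContinuousOn (fun t => B (u t) (U t)) (Icc s b) := lept_cB cu cU
    have h3 : ContinuousOn (fun t => B (u t) (u t)) (Icc s b) := lept_cB cu cu
    exact ((h1.add h2).add h3).add cF
  have cNn : ∀ n : ℤ, ContinuousOn (fun t => src ω U u F t n) (Icc s b) := by
    intro n
    refine (lept_cc (evN (Yn H) n) cN).congr fun t _ => ?_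
    exact (lept_src hBW U u F t n).symm
  have hdm' : ∀ t ∈ Icc s b, ∀ n : ℤ, Dmode (ω * n) (u t n) := by
    intro t ht n
    rcases eq_or_lt_of_le ht.1 with hst | hst
    · rw [← hst, hus]
      exact hx n
    · rw [huv t hst]
      exact hdm t ⟨hst, ht.2⟩ n
  have hsy' : ∀ t ∈ Icc s b, Sy (u t) := by
    intro t ht
    rcases eq_or_lt_of_le ht.1 with hst | hst
    · rw [← hst, hus]
      exact hs
    · rw [huv t hst]
      exact hsym t ⟨hst, ht.2⟩
  have cun : ∀ n : ℤ, ContinuousOn (fun t => u t n) (Icc s b) := fun n => lept_cc (evN (Xn H) n) cu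
  obtain ⟨hNc, R3, hR3, hNb⟩ := Mild.rhs hT hB hM hc h
  have htw := lept_two hS hNc hNb (Mild.mode_aux hS hB hC hM hsb hc h)
  have hsrcv : ∀ r, s < r → ∀ n : ℤ, (lamU B U r (v r) + B (v r) (v r) + F r) n =
      src ω U u F r n := by
    intro r hr n
    rw [← huv r hr]
    exact lept_src hBW U u F r n
  have e1 : ∀ n : ℤ, ∀ t1 ∈ Ioc s b, ∀ t2 ∈ Icc t1 b, ∀ y ∈ Icc (0:ℝ) H,
      prim (u t2 n).1.1 y - prim (u t1 n).1.1 y =
      ∫ r in t1..t2, rh (ω * n) (u r n).1.1 (u r n).1.2.1 (src ω U u F r n).1 y := by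
    intro n t1 h1 t2 h2 y hy
    rw [huv t1 h1.1, huv t2 (h1.1.trans_le h2.1)]
    refine ((htw n).1 t1 h1 t2 h2 y hy).trans ?_
    refine intervalIntegral.integral_congr_ae (Eventually.of_forall fun r hr => ?_)
    rw [uIoc_of_le h2.1] at hr
    have hr' : s < r := h1.1.trans hr.1
    rw [← hsrcv r hr' n, huv r hr']
  have e2 : ∀ n : ℤ, ∀ t1 ∈ Ioc s b, ∀ t2 ∈ Icc t1 b, ∀ y ∈ Icc (0:ℝ) H,
      prim (u t2 n).2.1 y - prim (u t1 n).2.1 y =
      ∫ r in t1..t2, rh (ω * n) (u r n).2.1 (u r n).2.2.1 (src ω U u F r n).2 y := by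
    intro n t1 h1 t2 h2 y hy
    rw [huv t1 h1.1, huv t2 (h1.1.trans_le h2.1)]
    refine ((htw n).2 t1 h1 t2 h2 y hy).trans ?_
    refine intervalIntegral.integral_congr_ae (Eventually.of_forall fun r hr => ?_)
    rw [uIoc_of_le h2.1] at hr
    have hr' : s < r := h1.1.trans hr.1
    rw [← hsrcv r hr' n, huv r hr']
  obtain ⟨R1, hR1⟩ := isCompact_Icc.exists_bound_of_continuousOn cu
  obtain ⟨R2, hR2⟩ := isCompact_Icc.exists_bound_of_continuousOn cN
  refine ⟨⟨countable_empty, lept_cc (jL H) cu, ?_, continuousOn_const, ?_, ?_, ?_,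
    ?_, ?_, ?_, ?_⟩, hdm', hsy'⟩
  · rw [sdiff_empty]; exact cu
  · intro n; rw [sdiff_empty]; exact cNn n
  · refine ⟨max R1 R2, fun t ht => ?_⟩
    rw [sdiff_empty] at ht
    have h1 := hR1 t ht
    have h2 := hR2 t ht
    refine ⟨?_, h1.trans (le_max_left _ _), fun n => ?_⟩
    · rw [abs_zero]
      exact ((norm_nonneg _).trans h1).trans (le_max_left _ _)
    · rw [← lept_src hBW]
      exact ((norm_le_l1 n _).trans h2).trans (le_max_right _ _)
  · intro t ht n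
    rw [sdiff_empty] at ht
    exact (hdm' t ht n).cmode
  · intro t ht n
    exact ⟨(hdm' t ht n).z1, (hdm' t ht n).z2⟩
  · intro t ht n
    show jn (u t (-n)) = star (jn (u t n))
    rw [hsy' t ht n]
    rfl
  · intro n y hy
    have g1 : ContinuousOn (fun t => prim (u t n).1.1 y) (Icc s b) :=
      lept_cc (pmL H y hy) (lept_cc (q1 H) (cun n))
    have g2 : ContinuousOn (fun r => rh (ω * n) (u r n).1.1 (u r n).1.2.1 (src ω U u F r n).1 y)
        (Icc s b) :=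
      lept_continuousOn_rh (ω * n) hy (lept_cc (q1 H) (cun n)) (lept_cc (q2 H) (cun n))
        (continuous_fst.comp_continuousOn (cNn n))
    intro t1 h1 t2 h2
    have := lept_ext hsb' g1 g2 (fun t1 h1 t2 h2 => e1 n t1 h1 t2 h2 y hy) t1 h1 t2 h2
    rw [this]
    refine intervalIntegral.integral_congr_ae (Eventually.of_forall fun r _ => ?_)
    simp
  · intro n y hy
    have g1 : ContinuousOn (fun t => prim (u t n).2.1 y) (Icc s b) :=
      lept_cc (pmL H y hy) (lept_cc (q4 H) (cun n))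
    have g2 : ContinuousOn (fun r => rh (ω * n) (u r n).2.1 (u r n).2.2.1 (src ω U u F r n).2 y)
        (Icc s b) :=
      lept_continuousOn_rh (ω * n) hy (lept_cc (q4 H) (cun n)) (lept_cc (q5 H) (cun n))
        (continuous_snd.comp_continuousOn (cNn n))
    exact lept_ext hsb' g1 g2 (fun t1 h1 t2 h2 => e2 n t1 h1 t2 h2 y hy)


theorem lept_ci_smul_zero (c : ℝ) : c • (0 : CI H) = 0 := by
  refine ci_ext fun z _ => ?_
  rw [ex_rsmul, ex_zero, mul_zero]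

theorem lept_Yn_smul_zero (c : ℝ) : c • (0 : Yn H) = 0 :=
  Prod.ext (lept_ci_smul_zero c) (lept_ci_smul_zero c)

theorem lept_Xn_smul_zero (c : ℝ) : c • (0 : Xn H) = 0 :=
  Prod.ext (Prod.ext (lept_ci_smul_zero c) (Prod.ext (lept_ci_smul_zero c) (lept_ci_smul_zero c)))
    (Prod.ext (lept_ci_smul_zero c) (Prod.ext (lept_ci_smul_zero c) (lept_ci_smul_zero c)))

theorem lept_dmode_smul {k : ℝ} {x : Xn H} (h : Dmode k x) (c : ℝ) : Dmode k (c • x) where
  d1 := h.d1.rsmul c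
  d2 := h.d2.rsmul c
  e1 := by
    show c • x.1.2.2 = |k| • (c • x.1.1)
    rw [h.e1, ci_smul_comm]
  e2 := by
    show c • x.2.2.2 = |k| • (c • x.2.1)
    rw [h.e2, ci_smul_comm]
  z1 := by
    show ex (c • x.1.1) 0 = 0
    rw [ex_rsmul, h.z1, mul_zero]
  z2 := by
    show ex (c • x.2.1) 0 = 0
    rw [ex_rsmul, h.z2, mul_zero]
  h1 := by
    show ex (c • x.1.1) H = 0
    rw [ex_rsmul, h.h1, mul_zero]
  h2 := by
    show ex (c • x.2.1) H = 0
    rw [ex_rsmul, h.h2, mul_zero]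

/-! TR-5: local existence of perturbations. -/

/-- Admissible weights for the modes (constant one, even). -/
structure Wt1 (W : ℤ → ℝ) : Prop where
  wt : Wt 1 W
  even : ∀ n, W (-n) = W n

theorem LEPT (H : ℝ) [Fact (0 < H)] (hdir : ∃ S D A : ℝ → (CI H →L[ℂ] CI H), DirSG H S D A) :
    ∃ c > 0, ∃ K, 1 ≤ K ∧ ∀ (ω s τ R MF a : ℝ) (W : ℤ → ℝ) (U : ℝ → L1 (Xn H)) (F : ℝ → L1 (Yn H))
      (x0 : L1 (Xn H)), 0 < τ → τ ≤ 1 → 0 ≤ R → 0 ≤ MF → Wt1 W →
      ContinuousOn U (Icc s (s + τ)) → ContinuousOn F (Icc s (s + τ)) →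
      (∀ t ∈ Icc s (s + τ), ‖U t‖ ≤ R ∧ ‖F t‖ ≤ MF ∧ Sy (U t) ∧ Sy (F t) ∧
        ∀ n, W n ≠ 1 → U t n = 0 ∧ F t n = 0) →
      (∀ n : ℤ, Dmode (ω * n) (x0 n)) → Sy x0 → HasSum (fun n => W n * ‖jn (x0 n)‖) a →
      √τ * (R + a + √τ * MF) ≤ c →
      ∃ u : ℝ → L1 (Xn H), PT ω s (s + τ) U F u ∧ u s = x0 ∧
        (∀ t ∈ Ioc s (s + τ), Summable (fun n => W n * ‖u t n‖) ∧
          √(t - s) * ∑' n, W n * ‖u t n‖ ≤ K * (a + √τ * MF) ∧
          ∑' n, W n * ‖jn (u t n)‖ ≤ K * (a + √τ * MF)) ∧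
        (Summable (fun n => W n * ‖x0 n‖) → ∀ t ∈ Icc s (s + τ), Summable (fun n => W n * ‖u t n‖) ∧
          ∑' n, W n * ‖u t n‖ ≤ K * ((∑' n, W n * ‖x0 n‖) + √τ * MF)) := by
  obtain ⟨S, D, A, hS⟩ := hdir
  obtain ⟨C, hC, hBW⟩ := exists_BW H
  have hCp : 0 < C := zero_lt_one.trans_le hC
  refine ⟨1 / (432 * C ^ 4), by positivity, 9 * C, by linarith, ?_⟩
  intro ω s τ R MF a W U F x0 hτ hτ1 hR hMF hW cU cF hall hx hsy hsum hsm
  have hXc : CompleteSpace (L1 (Xn H)) := completeSpace_L1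
  have hYc : CompleteSpace (L1 (Yn H)) := completeSpace_L1
  obtain ⟨B, hB, hBb⟩ := hBW ω 1 W le_rfl hW.wt
  obtain ⟨B1, hB1, hB1b⟩ := hBW ω 1 (fun _ => 1) le_rfl lept_wt_one
  rw [mul_one] at hBb hB1b
  have hT : SG (jL H) (TT hS ω) C := sg_TT hS ω hC
  have hWp : ∀ n, 0 < W n := fun n => hW.wt.pos n
  have hbd : ∀ t ∈ Icc s (s + τ), ‖U t‖ ≤ R ∧ ‖F t‖ ≤ MF := fun t ht =>
    ⟨(hall t ht).1, (hall t ht).2.1⟩
  have hc := lept_coef hC hBb hτ1 hR hMF cU cF hbd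
  have hM : 0 ≤ 2 * C * R := mul_nonneg (mul_nonneg zero_le_two hCp.le) hR
  have hsb : s + τ ≤ s + 1 := add_le_add_right hτ1 s
  have hsqτ : 0 ≤ √τ := Real.sqrt_nonneg _
  have hq0 : 0 ≤ √τ * MF := mul_nonneg hsqτ hMF
  -- the weighted initial value
  have hnW : ∀ n, ‖W n • jn (x0 n)‖ = W n * ‖jn (x0 n)‖ := fun n => by
    rw [norm_smul, Real.norm_eq_abs, abs_of_pos (hWp n)]
  have hsu0 : Summable fun n => ‖W n • jn (x0 n)‖ := by
    simp only [hnW]; exact hsum.summable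
  obtain ⟨u0, hu0⟩ : ∃ u0 : L1 (Yn H), u0 = mkL1 (fun n => W n • jn (x0 n)) hsu0 := ⟨_, rfl⟩
  have hu0n : ‖u0‖ = a := by
    rw [hu0, norm_mkL1]
    simp only [hnW]
    exact hsum.tsum_eq
  have ha0 : 0 ≤ a := by rw [← hu0n]; exact norm_nonneg _
  have hA0 : 0 ≤ a + √τ * MF := add_nonneg ha0 hq0
  -- smallness
  have hsm1 : √τ * (2 * C * R + ‖u0‖ + √τ * MF) ≤ 1 / (216 * C ^ 3) := by
    rw [hu0n]
    exact lept_ar4 hC ha0 hq0 hsqτ hsm
  obtain ⟨ũ, hũ, hub⟩ := LE_exp hT hBb s τ (2 * C * R) MF u0 (lamU B U) F hτ hτ1 hM hMF hc hsm1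
  rw [hu0n] at hub
  -- unweighted solution
  obtain ⟨hNc, R3, hR3, hNb⟩ := Mild.rhs hT hBb hM hc hũ
  have hWU : ∀ t ∈ Ioc s (s + τ), ∀ n, U t n = (1 / W n) • U t n := by
    intro t ht n
    by_cases h1 : W n = 1
    · rw [h1, div_one]; exact (one_smul ℝ _).symm
    · rw [((hall t (Ioc_subset_Icc_self ht)).2.2.2.2 n h1).1]; exact (lept_Xn_smul_zero _).symm
  have hWF : ∀ t ∈ Ioc s (s + τ), ∀ n, F t n = (1 / W n) • F t n := by
    intro t ht n
    by_cases h1 : W n = 1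
    · rw [h1, div_one]; exact (one_smul ℝ _).symm
    · rw [((hall t (Ioc_subset_Icc_self ht)).2.2.2.2 n h1).2]; exact (lept_Yn_smul_zero _).symm
  obtain ⟨v, hv, hvM⟩ := Mild.rescale hS hW.wt lept_wt_one (fun n => hW.wt.one_le n) hB hB1
    (U := U) (U' := U) (F := F) (F' := F) hWU hWF (u0 := u0) (u0' := jL H x0)
    (fun n => by
      rw [jL_apply, hu0, mkL1_apply, smul_smul, one_div, inv_mul_cancel₀ (hWp n).ne']
      exact (one_smul ℝ _).symm)
    (fun t ht => (duhamel hT hsb hR3 hNc hNb).1 t ht) hũ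
  have hPT := lept_PT hS hB1 hB1b hC hτ hτ1 hR hMF cU cF hbd (fun t ht => (hall t ht).2.2.1)
    (fun t ht => (hall t ht).2.2.2.1) hx hsy hvM
  -- norms
  have hn1 : ∀ t n, W n * ‖v t n‖ = ‖ũ t n‖ := by
    intro t n
    rw [hv t n, norm_smul, Real.norm_eq_abs, abs_of_pos (one_div_pos.2 (hWp n)),
      ← mul_assoc, mul_one_div_cancel (hWp n).ne', one_mul]
  have hn2 : ∀ t n, W n * ‖jn (v t n)‖ = ‖jL H (ũ t) n‖ := by
    intro t n
    rw [hv t n, jn_smul, norm_smul, Real.norm_eq_abs, abs_of_pos (one_div_pos.2 (hWp n)),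
      ← mul_assoc, mul_one_div_cancel (hWp n).ne', one_mul, jL_apply]
  have hsumv : ∀ t, Summable fun n => W n * ‖v t n‖ := by
    intro t; simp only [hn1]; exact l1_summable _
  have htv : ∀ t, ∑' n, W n * ‖v t n‖ = ‖ũ t‖ := by
    intro t; simp only [hn1]; exact (l1_norm _).symm
  have htj : ∀ t, ∑' n, W n * ‖jn (v t n)‖ = ‖jL H (ũ t)‖ := by
    intro t; simp only [hn2]; exact (l1_norm _).symm
  have huv : ∀ t, s < t → (if t ≤ s then x0 else v t) = v t := fun t ht => if_neg (not_le.2 ht)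
  refine ⟨fun t => if t ≤ s then x0 else v t, hPT, if_pos le_rfl, ?_, ?_⟩
  · intro t ht
    simp only [huv t ht.1]
    refine ⟨hsumv t, ?_, ?_⟩
    · rw [htv]; exact (hub t ht).1
    · rw [htj]; exact (hub t ht).2
  · intro hsx t ht
    rcases eq_or_lt_of_le ht.1 with hst | hst
    · have e : (if t ≤ s then x0 else v t) = x0 := if_pos hst.ge
      simp only [e]
      refine ⟨hsx, ?_⟩
      exact lept_ar2 hC (tsum_nonneg fun n => mul_nonneg (hWp n).le (norm_nonneg _)) hq0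
    · simp only [huv t hst]
      refine ⟨hsumv t, ?_⟩
      rw [htv]
      -- the weighted initial value in `X`
      have hnX : ∀ n, ‖W n • x0 n‖ = W n * ‖x0 n‖ := fun n => by
        rw [norm_smul, Real.norm_eq_abs, abs_of_pos (hWp n)]
      have hsX : Summable fun n => ‖W n • x0 n‖ := by simp only [hnX]; exact hsx
      obtain ⟨y0, hy0⟩ : ∃ y0 : L1 (Xn H), y0 = mkL1 (fun n => W n • x0 n) hsX := ⟨_, rfl⟩
      have hy0n : ‖y0‖ = ∑' n, W n * ‖x0 n‖ := by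
        rw [hy0, norm_mkL1]; simp only [hnX]
      have hjy : jL H y0 = u0 := by
        rw [hy0, hu0]
        refine lp.ext ?_
        funext n
        rfl
      have hyD : ∀ n : ℤ, Dmode (ω * n) (y0 n) := by
        intro n
        rw [hy0]
        exact lept_dmode_smul (hx n) (W n)
      have hTT := (TT_init hS ω hyD).2
      rw [hjy, one_mul] at hTT
      have hQ : 0 ≤ 9 * C * (a + √τ * MF) := mul_nonneg (mul_nonneg (by norm_num) hCp.le) hA0
      have hsm2 : 2 * C * (√τ * (4 * C * R + 2 * C * (9 * C * (a + √τ * MF)))) ≤ 1 / 2 :=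
        lept_ar5 hC hR hsqτ hsm
      have hbx := Mild.boundX hT hBb hτ hτ1 (M := 4 * C * R) (MF := MF)
        (Q := 9 * C * (a + √τ * MF)) (X0 := ‖y0‖)
        (mul_nonneg (mul_nonneg (by norm_num) hCp.le) hR) hMF hQ
        (fun x => lept_lam_cont (cU.mono Ioc_subset_Icc_self) x) (cF.mono Ioc_subset_Icc_self)
        (fun t ht x => lept_lam_bound' hC hBb hR (hbd t (Ioc_subset_Icc_self ht)).1 x)
        (fun t ht => (hbd t (Ioc_subset_Icc_self ht)).2) (fun t ht => hTT t ht) hũ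
        (fun t ht => (hub t ht).2) hsm2 t ⟨hst, ht.2⟩
      rw [hy0n] at hbx
      exact hbx.trans (lept_ar3 hC
        (tsum_nonneg fun n => mul_nonneg (hWp n).le (norm_nonneg _)) hq0)

end

end Pool.Agent.Lib.MP_79abb3_an.P25
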