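import Pool.Agent.Lib.MP_79abb3_an.P25.EnDef
import Pool.Agent.Lib.MP_79abb3_an.P25.TrajDef

/-!
The energy identity for one mode (EN-5).
-/

set_option autoImplicit false
set_option linter.unusedSectionVars false

open MeasureTheory Set Filter Topology Function

namespace Pool.Agent.Lib.MP_79abb3_an.P25

section
variable {H : ℝ} [hH : Fact (0 < H)]

theorem ei_nrm_sq (b : ℝ) (f : CI H) :
    nrm b f ^ 2 = ∫ z in (0:ℝ)..H, Real.exp (2 * b * z) * ‖ex f z‖ ^ 2 := by
  rw [nrm, Real.sq_sqrt]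
  exact intervalIntegral.integral_nonneg hH.out.le (fun z _ => by positivity)

theorem ei_prim_norm_le (f : CI H) {y : ℝ} (hy : y ∈ Icc (0:ℝ) H) : ‖prim f y‖ ≤ H * ‖f‖ := by
  rw [prim]
  refine (intervalIntegral.norm_integral_le_of_norm_le_const (C := ‖f‖)
    fun x _ => norm_ex_le f x).trans ?_
  rw [sub_zero, abs_of_nonneg hy.1, mul_comm]
  gcongr
  exact hy.2

theorem ei_prim_sub (f g : CI H) (y : ℝ) : prim (f - g) y = prim f y - prim g y := by
  simp only [prim, ex_sub]
  exact intervalIntegral.integral_sub ((continuous_ex f).intervalIntegrable _ _)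
    ((continuous_ex g).intervalIntegrable _ _)

theorem ei_prim_continuous {y : ℝ} (hy : y ∈ Icc (0:ℝ) H) :
    Continuous (fun f : CI H => prim f y) := by
  have : LipschitzWith (Real.toNNReal H) (fun f : CI H => prim f y) :=
    LipschitzWith.of_dist_le_mul (fun f g => by
      rw [dist_eq_norm, dist_eq_norm, ← ei_prim_sub, Real.coe_toNNReal _ hH.out.le]
      exact ei_prim_norm_le _ hy)
  exact this.continuous

theorem ei_ex_continuous (y : ℝ) : Continuous (fun f : CI H => ex f y) := (evL y).continuous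

theorem ei_prim_hasDerivAt (f : CI H) (y : ℝ) : HasDerivAt (prim f) (ex f y) y := by
  have := (continuous_ex f)
  exact intervalIntegral.integral_hasDerivAt_right (this.intervalIntegrable _ _)
    (this.stronglyMeasurableAtFilter _ _) this.continuousAt

theorem ei_prim_cont (f : CI H) : Continuous (prim f) :=
  continuous_iff_continuousAt.2 fun y => (ei_prim_hasDerivAt f y).continuousAt

theorem ei_prim_zero (f : CI H) : prim f 0 = 0 := by simp [prim]

theorem ei_rh_continuousOn {k a b : ℝ} {f f1 n : ℝ → CI H} (cf : ContinuousOn f (Icc a b))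
    (cf1 : ContinuousOn f1 (Icc a b)) (cn : ContinuousOn n (Icc a b)) {y : ℝ}
    (hy : y ∈ Icc (0:ℝ) H) : ContinuousOn (fun s => rh k (f s) (f1 s) (n s) y) (Icc a b) := by
  unfold rh
  exact ((((ei_ex_continuous y).comp_continuousOn cf1).sub
    ((ei_ex_continuous 0).comp_continuousOn cf1)).sub
    (continuousOn_const.mul ((ei_prim_continuous hy).comp_continuousOn cf))).add
    ((ei_prim_continuous hy).comp_continuousOn cn)

theorem ei_rh_bound {k a b : ℝ} {f f1 n : ℝ → CI H} (cf : ContinuousOn f (Icc a b))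
    (cf1 : ContinuousOn f1 (Icc a b)) (cn : ContinuousOn n (Icc a b)) :
    ∃ C, ∀ s ∈ Icc a b, ∀ y ∈ Icc (0:ℝ) H, ‖rh k (f s) (f1 s) (n s) y‖ ≤ C := by
  obtain ⟨A, hA⟩ := isCompact_Icc.exists_bound_of_continuousOn cf
  obtain ⟨B, hB⟩ := isCompact_Icc.exists_bound_of_continuousOn cf1
  obtain ⟨D, hD⟩ := isCompact_Icc.exists_bound_of_continuousOn cn
  refine ⟨B + B + k ^ 2 * (H * A) + H * D, fun s hs y hy => ?_⟩
  have hH0 := hH.out
  unfold rh
  refine (norm_add_le _ _).trans (add_le_add ((norm_sub_le _ _).trans (add_le_add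
    ((norm_sub_le _ _).trans (add_le_add ((norm_ex_le _ _).trans (hB s hs))
      ((norm_ex_le _ _).trans (hB s hs)))) ?_)) ?_)
  · rw [norm_mul, Complex.norm_real, Real.norm_eq_abs, abs_of_nonneg (sq_nonneg k)]
    refine mul_le_mul_of_nonneg_left ((ei_prim_norm_le _ hy).trans ?_) (sq_nonneg k)
    exact mul_le_mul_of_nonneg_left (hA s hs) hH0.le
  · exact (ei_prim_norm_le _ hy).trans (mul_le_mul_of_nonneg_left (hD s hs) hH0.le)

/-- The primitive is differentiable in time. -/
theorem ei_prim_time {k a b : ℝ} {f f1 n : ℝ → CI H} (cf : ContinuousOn f (Icc a b))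
    (cf1 : ContinuousOn f1 (Icc a b)) (cn : ContinuousOn n (Icc a b))
    (he : ∀ y ∈ Icc (0:ℝ) H, ∀ t1 ∈ Icc a b, ∀ t2 ∈ Icc t1 b,
      prim (f t2) y - prim (f t1) y = ∫ s in t1..t2, rh k (f s) (f1 s) (n s) y)
    {t : ℝ} (ht : t ∈ Ioo a b) {y : ℝ} (hy : y ∈ Icc (0:ℝ) H) :
    HasDerivAt (fun s => prim (f s) y) (rh k (f t) (f1 t) (n t) y) t := by
  have c := ei_rh_continuousOn (k := k) cf cf1 cn hy
  have hab : a ≤ b := (ht.1.trans ht.2).le
  have h1 : HasDerivAt (fun s => prim (f a) y + ∫ τ in a..s, rh k (f τ) (f1 τ) (n τ) y)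
      (rh k (f t) (f1 t) (n t) y) t := by
    refine HasDerivAt.const_add _ ?_
    refine intervalIntegral.integral_hasDerivAt_right ?_ ?_ ?_
    · refine ContinuousOn.intervalIntegrable (c.mono ?_)
      rw [uIcc_of_le ht.1.le]
      exact Icc_subset_Icc_right ht.2.le
    · exact ContinuousOn.stronglyMeasurableAtFilter (s := Ioo a b) isOpen_Ioo
        (c.mono Ioo_subset_Icc_self) t ht
    · exact (c.mono Ioo_subset_Icc_self).continuousAt (isOpen_Ioo.mem_nhds ht)
  refine h1.congr_of_eventuallyEq ?_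
  filter_upwards [isOpen_Ioo.mem_nhds ht] with s hs
  have := he y hy a (left_mem_Icc.2 hab) s ⟨hs.1.le, hs.2.le⟩
  rw [← this]; ring

theorem ei_prim_diff {k a b : ℝ} {f f1 n : ℝ → CI H} {C : ℝ}
    (hC : ∀ s ∈ Icc a b, ∀ y ∈ Icc (0:ℝ) H, ‖rh k (f s) (f1 s) (n s) y‖ ≤ C)
    (he : ∀ y ∈ Icc (0:ℝ) H, ∀ t1 ∈ Icc a b, ∀ t2 ∈ Icc t1 b,
      prim (f t2) y - prim (f t1) y = ∫ s in t1..t2, rh k (f s) (f1 s) (n s) y)
    {t s : ℝ} (ht : t ∈ Icc a b) (hs : s ∈ Icc a b) {y : ℝ} (hy : y ∈ Icc (0:ℝ) H) :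
    ‖prim (f s) y - prim (f t) y‖ ≤ C * |s - t| := by
  wlog hst : t ≤ s generalizing s t with h
  · rw [norm_sub_rev, abs_sub_comm]
    exact h hs ht (le_of_not_ge hst)
  rw [he y hy t ht s ⟨hst, hs.2⟩]
  refine intervalIntegral.norm_integral_le_of_norm_le_const fun τ hτ => hC τ ?_ y hy
  rw [uIoc_of_le hst] at hτ
  exact ⟨ht.1.trans hτ.1.le, hτ.2.trans hs.2⟩

/-- Integration by parts against a primitive. -/
theorem ei_parts (g : CI H) {ψ ψ1 : ℝ → ℂ} (cψ : Continuous ψ) (cψ1 : Continuous ψ1)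
    (hψ : ∀ z ∈ Ioo (0:ℝ) H, HasDerivAt ψ (ψ1 z) z) (hψH : ψ H = 0) :
    ∫ z in (0:ℝ)..H, ex g z * ψ z = -∫ y in (0:ℝ)..H, prim g y * ψ1 y := by
  have h := intervalIntegral.integral_deriv_mul_eq_sub_of_hasDeriv_right (a := (0:ℝ)) (b := H)
    (u := prim g) (v := ψ) (u' := ex g) (v' := ψ1) (ei_prim_cont g).continuousOn cψ.continuousOn
    (fun z _ => (ei_prim_hasDerivAt g z).hasDerivWithinAt)
    (fun z hz => (hψ z (by rwa [min_eq_left hH.out.le, max_eq_right hH.out.le] at hz)).hasDerivWithinAt)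
    ((continuous_ex g).intervalIntegrable _ _) (cψ1.intervalIntegrable _ _)
  have h2 : IntervalIntegrable (fun z => ex g z * ψ z) volume 0 H :=
    ((continuous_ex g).mul cψ).intervalIntegrable _ _
  have h3 : IntervalIntegrable (fun z => prim g z * ψ1 z) volume 0 H :=
    ((ei_prim_cont g).mul cψ1).intervalIntegrable _ _
  rw [hψH, ei_prim_zero, mul_zero, zero_mul, sub_zero, intervalIntegral.integral_add h2 h3] at h
  exact eq_neg_of_add_eq_zero_left h

theorem ei_isD_hasDerivAt {f f1 : CI H} (hd : IsD f f1) {z : ℝ} (hz : z ∈ Ioo (0:ℝ) H) :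
    HasDerivAt (ex f) (ex f1 z) z :=
  (hd z ⟨hz.1.le, hz.2.le⟩).hasDerivAt (Icc_mem_nhds hz.1 hz.2)

/-- The test function. -/
theorem ei_test {f f1 : CI H} (hd : IsD f f1) (b : ℝ) {z : ℝ} (hz : z ∈ Ioo (0:ℝ) H) :
    HasDerivAt (fun z => (Real.exp (2 * b * z) : ℂ) * star (ex f z))
      ((Real.exp (2 * b * z) : ℂ) * star (ex f1 z) +
        2 * (b : ℂ) * ((Real.exp (2 * b * z) : ℂ) * star (ex f z))) z := by
  have h1 := (ei_isD_hasDerivAt hd hz).star
  have h2 : HasDerivAt (fun z : ℝ => Real.exp (2 * b * z)) (Real.exp (2 * b * z) * (2 * b)) z := by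
    have := ((hasDerivAt_id z).const_mul (2 * b)).exp
    simpa using this
  have h3 := h2.ofReal_comp
  refine (h3.mul h1).congr_deriv ?_
  push_cast
  ring

/-- The derivative of the test function. -/
noncomputable def eiT (b : ℝ) (f f1 : CI H) (z : ℝ) : ℂ :=
  (Real.exp (2 * b * z) : ℂ) * star (ex f1 z) +
    2 * (b : ℂ) * ((Real.exp (2 * b * z) : ℂ) * star (ex f z))

theorem ei_T_cont (b : ℝ) (f f1 : CI H) : Continuous (eiT b f f1) := by
  have h1 := continuous_ex f
  have h2 := continuous_ex f1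
  unfold eiT
  fun_prop

/-- The slope of the energy. -/
theorem ei_slope {β : ℝ → ℝ} {f f1 : ℝ → CI H} {t s : ℝ} (hdt : IsD (f t) (f1 t))
    (hds : IsD (f s) (f1 s)) (h0t : ex (f t) H = 0) (h0s : ex (f s) H = 0) :
    slope (fun t => nrm (β t) (f t) ^ 2) t s =
      (∫ z in (0:ℝ)..H, ((s - t)⁻¹ * (Real.exp (2 * β s * z) - Real.exp (2 * β t * z))) *
        ‖ex (f s) z‖ ^ 2) -
      (∫ y in (0:ℝ)..H, (((s - t)⁻¹ : ℝ) • (prim (f s) y - prim (f t) y)) *
        (eiT (β t) (f s) (f1 s) y + eiT (β t) (f t) (f1 t) y)).re := by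
  have c1 := continuous_ex (f s)
  have c2 := continuous_ex (f t)
  have c3 := continuous_ex (f1 s)
  have c4 := continuous_ex (f1 t)
  set ψ : ℝ → ℂ := fun z => (Real.exp (2 * β t * z) : ℂ) * star (ex (f s) z) +
    (Real.exp (2 * β t * z) : ℂ) * star (ex (f t) z) with hψ
  have hp := ei_parts (f s - f t) (ψ := ψ)
    (ψ1 := fun y => eiT (β t) (f s) (f1 s) y + eiT (β t) (f t) (f1 t) y)
    (by rw [hψ]; fun_prop) ((ei_T_cont _ _ _).add (ei_T_cont _ _ _))
    (fun z hz => (ei_test hds (β t) hz).add (ei_test hdt (β t) hz)) (by simp [hψ, h0t, h0s])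
  have e1 : ∀ z, (Real.exp (2 * β s * z) * ‖ex (f s) z‖ ^ 2) - Real.exp (2 * β t * z) * ‖ex (f t) z‖ ^ 2 =
      (Real.exp (2 * β s * z) - Real.exp (2 * β t * z)) * ‖ex (f s) z‖ ^ 2 +
      (ex (f s - f t) z * ψ z).re := by
    intro z
    have n1 : ‖ex (f s) z‖ ^ 2 = (ex (f s) z).re ^ 2 + (ex (f s) z).im ^ 2 := by
      rw [← Complex.normSq_eq_norm_sq, Complex.normSq_apply]; ring
    have n2 : ‖ex (f t) z‖ ^ 2 = (ex (f t) z).re ^ 2 + (ex (f t) z).im ^ 2 := by
      rw [← Complex.normSq_eq_norm_sq, Complex.normSq_apply]; ring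
    rw [n1, n2, hψ]
    simp only [ex_sub, Complex.mul_re, Complex.sub_re, Complex.sub_im, Complex.add_re, Complex.add_im,
      Complex.ofReal_re, Complex.ofReal_im, Complex.star_def, Complex.conj_re, Complex.conj_im,
      Complex.mul_im]
    ring
  have c5 : Continuous ψ := by rw [hψ]; fun_prop
  have c6 : Continuous (fun z => ex (f s - f t) z * ψ z) := (continuous_ex _).mul c5
  have e2 : ∫ z in (0:ℝ)..H, (ex (f s - f t) z * ψ z).re =
      (∫ z in (0:ℝ)..H, ex (f s - f t) z * ψ z).re :=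
    Complex.reCLM.intervalIntegral_comp_comm (c6.intervalIntegrable _ _)
  have e3 : ∫ y in (0:ℝ)..H, (((s - t)⁻¹ : ℝ) • (prim (f s) y - prim (f t) y)) *
        (eiT (β t) (f s) (f1 s) y + eiT (β t) (f t) (f1 t) y) =
      ((s - t)⁻¹ : ℝ) • ∫ y in (0:ℝ)..H, prim (f s - f t) y *
        (eiT (β t) (f s) (f1 s) y + eiT (β t) (f t) (f1 t) y) := by
    rw [← intervalIntegral.integral_smul]
    refine intervalIntegral.integral_congr fun y _ => ?_
    simp only [ei_prim_sub, smul_mul_assoc]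
  have e4 : ∫ z in (0:ℝ)..H, ((s - t)⁻¹ * (Real.exp (2 * β s * z) - Real.exp (2 * β t * z))) *
        ‖ex (f s) z‖ ^ 2 = (s - t)⁻¹ * ∫ z in (0:ℝ)..H, (Real.exp (2 * β s * z) -
          Real.exp (2 * β t * z)) * ‖ex (f s) z‖ ^ 2 := by
    rw [← intervalIntegral.integral_const_mul]
    refine intervalIntegral.integral_congr fun y _ => ?_
    ring
  rw [slope_def_field, ei_nrm_sq, ei_nrm_sq, ← intervalIntegral.integral_sub]
  · simp_rw [e1]
    rw [intervalIntegral.integral_add, e2, hp, e3, e4, Complex.neg_re, Complex.real_smul,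
      Complex.re_ofReal_mul]
    · ring
    · exact Continuous.intervalIntegrable (by fun_prop) _ _
    · exact (Complex.continuous_re.comp c6).intervalIntegrable _ _
  · exact Continuous.intervalIntegrable (by fun_prop) _ _
  · exact Continuous.intervalIntegrable (by fun_prop) _ _

theorem ei_dct {E : Type} [NormedAddCommGroup E] [NormedSpace ℝ E] {l : Filter ℝ}
    [l.IsCountablyGenerated] {F : ℝ → ℝ → E} {G : ℝ → E} {C : ℝ} (hF : ∀ᶠ s in l, Continuous (F s))
    (hb : ∀ᶠ s in l, ∀ z ∈ Icc (0:ℝ) H, ‖F s z‖ ≤ C)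
    (hl : ∀ z ∈ Icc (0:ℝ) H, Tendsto (fun s => F s z) l (𝓝 (G z))) :
    Tendsto (fun s => ∫ z in (0:ℝ)..H, F s z) l (𝓝 (∫ z in (0:ℝ)..H, G z)) := by
  refine intervalIntegral.tendsto_integral_filter_of_dominated_convergence (fun _ => C) ?_ ?_ ?_ ?_
  · filter_upwards [hF] with s hs using hs.aestronglyMeasurable
  · filter_upwards [hb] with s hs
    exact ae_of_all _ fun z hz => hs z (by
      rw [uIoc_of_le hH.out.le] at hz; exact ⟨hz.1.le, hz.2⟩)
  · exact intervalIntegrable_const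
  · exact ae_of_all _ fun z hz => hl z (by
      rw [uIoc_of_le hH.out.le] at hz; exact ⟨hz.1.le, hz.2⟩)

theorem ei_exp_sub_le (x y : ℝ) : |Real.exp x - Real.exp y| ≤ (Real.exp x + Real.exp y) * |x - y| := by
  have key : ∀ u v : ℝ, u ≤ v → |Real.exp v - Real.exp u| ≤ (Real.exp v + Real.exp u) * |v - u| := by
    intro u v huv
    have h1 : Real.exp u ≤ Real.exp v := Real.exp_le_exp.2 huv
    rw [abs_of_nonneg (by linarith), abs_of_nonneg (by linarith)]
    have h2 : u - v + 1 ≤ Real.exp (u - v) := Real.add_one_le_exp _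
    have h3 : Real.exp u = Real.exp v * Real.exp (u - v) := by rw [← Real.exp_add]; congr 1; ring
    have h4 := Real.exp_pos v
    have h5 := Real.exp_pos u
    have h6 : 0 ≤ Real.exp u * (v - u) := mul_nonneg h5.le (by linarith)
    nlinarith
  rcases le_total x y with h | h
  · rw [abs_sub_comm, add_comm, abs_sub_comm x y]
    exact key x y h
  · exact key y x h

/-- The limit value. -/
theorem ei_final {F F1 N : CI H} (hd : IsD F F1) (h0 : ex F 0 = 0) (h1 : ex F H = 0) (k b : ℝ) :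
    (∫ y in (0:ℝ)..H, rh k F F1 N y * (eiT b F F1 y + eiT b F F1 y)).re =
      2 * (nrm b (F1 + b • F) ^ 2 - b ^ 2 * nrm b F ^ 2 + k ^ 2 * nrm b F ^ 2 - inn b N F) := by
  have c1 := continuous_ex F
  have c2 := continuous_ex F1
  have c3 := continuous_ex N
  have cT := ei_T_cont b F F1
  have cP := ei_prim_cont F
  have cQ := ei_prim_cont N
  set φ : ℝ → ℂ := fun z => (Real.exp (2 * b * z) : ℂ) * star (ex F z) with hφ
  have cφ : Continuous φ := by rw [hφ]; fun_prop
  have hT0 : ∫ y in (0:ℝ)..H, eiT b F F1 y = 0 := by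
    have h2 := intervalIntegral.integral_eq_sub_of_hasDerivAt_of_le hH.out.le (f := φ)
      (f' := eiT b F F1) cφ.continuousOn (fun x hx => ei_test hd b hx) (cT.intervalIntegrable _ _)
    rw [h2]
    simp [hφ, h0, h1]
  have hF : ∫ z in (0:ℝ)..H, ex F z * φ z = -∫ y in (0:ℝ)..H, prim F y * eiT b F F1 y :=
    ei_parts F cφ cT (fun z hz => ei_test hd b hz) (by simp [hφ, h1])
  have hN : ∫ z in (0:ℝ)..H, ex N z * φ z = -∫ y in (0:ℝ)..H, prim N y * eiT b F F1 y :=
    ei_parts N cφ cT (fun z hz => ei_test hd b hz) (by simp [hφ, h1])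
  have i1 : IntervalIntegrable (fun y => ex F1 y * eiT b F F1 y) volume 0 H :=
    (c2.mul cT).intervalIntegrable _ _
  have i2 : IntervalIntegrable (fun y => ex F1 0 * eiT b F F1 y) volume 0 H :=
    (continuous_const.mul cT).intervalIntegrable _ _
  have i3 : IntervalIntegrable (fun y => ((k ^ 2 : ℝ) : ℂ) * (prim F y * eiT b F F1 y)) volume 0 H :=
    (continuous_const.mul (cP.mul cT)).intervalIntegrable _ _
  have i4 : IntervalIntegrable (fun y => prim N y * eiT b F F1 y) volume 0 H :=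
    (cQ.mul cT).intervalIntegrable _ _
  have e1 : ∫ y in (0:ℝ)..H, rh k F F1 N y * (eiT b F F1 y + eiT b F F1 y) =
      2 * ((∫ y in (0:ℝ)..H, ex F1 y * eiT b F F1 y) + ((k ^ 2 : ℝ) : ℂ) *
        (∫ z in (0:ℝ)..H, ex F z * φ z) - ∫ z in (0:ℝ)..H, ex N z * φ z) := by
    have e2 : ∀ y, rh k F F1 N y * (eiT b F F1 y + eiT b F F1 y) =
        2 * (ex F1 y * eiT b F F1 y - ex F1 0 * eiT b F F1 y -
          ((k ^ 2 : ℝ) : ℂ) * (prim F y * eiT b F F1 y) + prim N y * eiT b F F1 y) := by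
      intro y; unfold rh; ring
    simp_rw [e2]
    rw [intervalIntegral.integral_const_mul, intervalIntegral.integral_add ((i1.sub i2).sub i3) i4,
      intervalIntegral.integral_sub (i1.sub i2) i3, intervalIntegral.integral_sub i1 i2,
      intervalIntegral.integral_const_mul, intervalIntegral.integral_const_mul, hT0, hF, hN]
    ring
  have reI : ∀ {g : ℝ → ℂ}, Continuous g → (∫ z in (0:ℝ)..H, g z).re = ∫ z in (0:ℝ)..H, (g z).re :=
    fun cg => (Complex.reCLM.intervalIntegral_comp_comm (cg.intervalIntegrable _ _)).symm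
  have r1 : (∫ y in (0:ℝ)..H, ex F1 y * eiT b F F1 y).re = nrm b (F1 + b • F) ^ 2 - b ^ 2 * nrm b F ^ 2 := by
    rw [reI (g := fun y => ex F1 y * eiT b F F1 y) (c2.mul cT), ei_nrm_sq, ei_nrm_sq, ← intervalIntegral.integral_const_mul,
      ← intervalIntegral.integral_sub]
    · refine intervalIntegral.integral_congr fun y _ => ?_
      have n1 : ‖ex (F1 + b • F) y‖ ^ 2 = (ex (F1 + b • F) y).re ^ 2 + (ex (F1 + b • F) y).im ^ 2 := by
        rw [← Complex.normSq_eq_norm_sq, Complex.normSq_apply]; ring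
      have n2 : ‖ex F y‖ ^ 2 = (ex F y).re ^ 2 + (ex F y).im ^ 2 := by
        rw [← Complex.normSq_eq_norm_sq, Complex.normSq_apply]; ring
      rw [n1]
      simp only [n2, eiT, ex_add, ex_rsmul, Complex.mul_re, Complex.add_re, Complex.add_im,
        Complex.ofReal_re, Complex.ofReal_im, Complex.star_def, Complex.conj_re, Complex.conj_im,
        Complex.mul_im, Complex.re_ofNat, Complex.im_ofNat]
      ring
    · have := continuous_ex (F1 + b • F)
      exact Continuous.intervalIntegrable (by fun_prop) _ _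
    · exact Continuous.intervalIntegrable (by fun_prop) _ _
  have r2 : (∫ z in (0:ℝ)..H, ex F z * φ z).re = nrm b F ^ 2 := by
    rw [reI (g := fun y => ex F y * φ y) (c1.mul cφ), ei_nrm_sq]
    refine intervalIntegral.integral_congr fun y _ => ?_
    have n2 : ‖ex F y‖ ^ 2 = (ex F y).re ^ 2 + (ex F y).im ^ 2 := by
      rw [← Complex.normSq_eq_norm_sq, Complex.normSq_apply]; ring
    simp only [n2, hφ, Complex.mul_re, Complex.ofReal_re, Complex.ofReal_im, Complex.star_def,
      Complex.conj_re, Complex.conj_im, Complex.mul_im]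
    ring
  have r3 : (∫ z in (0:ℝ)..H, ex N z * φ z).re = inn b N F := by
    rw [reI (g := fun y => ex N y * φ y) (c3.mul cφ), inn]
    refine intervalIntegral.integral_congr fun y _ => ?_
    simp only [hφ, Complex.mul_re, Complex.ofReal_re, Complex.ofReal_im, Complex.star_def,
      Complex.conj_re, Complex.conj_im, Complex.mul_im]
    ring
  rw [e1]
  simp only [Complex.mul_re, Complex.add_re, Complex.sub_re, Complex.ofReal_re, Complex.ofReal_im,
    Complex.re_ofNat, Complex.im_ofNat, zero_mul, sub_zero, r1, r2, r3]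

/-! EN-5: the energy identity. -/

theorem energy_identity {k a b : ℝ} {f f1 n : ℝ → CI H} (cf : ContinuousOn f (Icc a b))
    (cf1 : ContinuousOn f1 (Icc a b)) (cn : ContinuousOn n (Icc a b))
    (hd : ∀ t ∈ Icc a b, IsD (f t) (f1 t)) (h0 : ∀ t ∈ Icc a b, ex (f t) 0 = 0 ∧ ex (f t) H = 0)
    (he : ∀ y ∈ Icc (0:ℝ) H, ∀ t1 ∈ Icc a b, ∀ t2 ∈ Icc t1 b,
      prim (f t2) y - prim (f t1) y = ∫ s in t1..t2, rh k (f s) (f1 s) (n s) y)
    {β : ℝ → ℝ} {β' t : ℝ} (ht : t ∈ Ioo a b) (hβ : HasDerivAt β β' t) :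
    HasDerivAt (fun t => nrm (β t) (f t) ^ 2)
      (2 * (β' * zin (β t) (f t) - nrm (β t) (f1 t + β t • f t) ^ 2 + β t ^ 2 * nrm (β t) (f t) ^ 2 -
        k ^ 2 * nrm (β t) (f t) ^ 2 + inn (β t) (n t) (f t))) t := by
  have hH0 := hH.out
  have ht' : t ∈ Icc a b := Ioo_subset_Icc_self ht
  have hnb : ∀ᶠ s in 𝓝[≠] t, s ∈ Ioo a b := mem_nhdsWithin_of_mem_nhds (isOpen_Ioo.mem_nhds ht)
  have hnb' : ∀ᶠ s in 𝓝[≠] t, s ∈ Icc a b := hnb.mono fun s hs => Ioo_subset_Icc_self hs
  have hle : 𝓝[≠] t ≤ 𝓝 t := nhdsWithin_le_nhds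
  -- pointwise continuity in time
  have pc : ∀ {g : ℝ → CI H}, ContinuousOn g (Icc a b) → ∀ z, Tendsto (fun s => ex (g s) z) (𝓝[≠] t)
      (𝓝 (ex (g t) z)) := by
    intro g cg z
    have h1 : ContinuousAt g t := (cg.mono Ioo_subset_Icc_self).continuousAt (isOpen_Ioo.mem_nhds ht)
    exact (((ei_ex_continuous z).tendsto _).comp (h1.tendsto)).mono_left hle
  obtain ⟨Mf, hMf⟩ := isCompact_Icc.exists_bound_of_continuousOn cf
  obtain ⟨Mg, hMg⟩ := isCompact_Icc.exists_bound_of_continuousOn cf1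
  obtain ⟨C, hC⟩ := ei_rh_bound (k := k) cf cf1 cn
  have hC0 : 0 ≤ C := (norm_nonneg _).trans (hC t ht' 0 ⟨le_rfl, hH0.le⟩)
  have hMf0 : 0 ≤ Mf := (norm_nonneg _).trans (hMf t ht')
  -- limit of the first integral
  have hA : Tendsto (fun s => ∫ z in (0:ℝ)..H, ((s - t)⁻¹ * (Real.exp (2 * β s * z) -
      Real.exp (2 * β t * z))) * ‖ex (f s) z‖ ^ 2) (𝓝[≠] t)
      (𝓝 (∫ z in (0:ℝ)..H, (Real.exp (2 * β t * z) * (2 * β' * z)) * ‖ex (f t) z‖ ^ 2)) := by
    refine ei_dct (C := (Real.exp (2 * (|β t| + 1) * H) + Real.exp (2 * (|β t| + 1) * H)) *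
      (2 * (|β'| + 1) * H) * Mf ^ 2) ?_ ?_ ?_
    · refine Eventually.of_forall fun s => ?_
      have := continuous_ex (f s)
      fun_prop
    · have hs1 : ∀ᶠ s in 𝓝[≠] t, |slope β t s| < |β'| + 1 := by
        have := (hasDerivAt_iff_tendsto_slope.1 hβ).abs
        exact this.eventually_lt_const (by linarith)
      have hs2 : ∀ᶠ s in 𝓝[≠] t, |β s| < |β t| + 1 := by
        have := (hβ.continuousAt.tendsto.mono_left hle).abs
        exact this.eventually_lt_const (by linarith)
      filter_upwards [hs1, hs2, hnb', self_mem_nhdsWithin] with s h1 h2 h3 h4 z hz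
      have h4' : s - t ≠ 0 := sub_ne_zero.2 h4
      have e0 : 0 ≤ |β t| := abs_nonneg _
      rw [norm_mul, norm_mul, norm_inv, Real.norm_eq_abs, Real.norm_eq_abs, norm_pow, norm_norm]
      have b1 : ‖ex (f s) z‖ ^ 2 ≤ Mf ^ 2 := by
        gcongr
        exact (norm_ex_le _ _).trans (hMf s h3)
      have b2 : |Real.exp (2 * β s * z) - Real.exp (2 * β t * z)| ≤
          (Real.exp (2 * (|β t| + 1) * H) + Real.exp (2 * (|β t| + 1) * H)) *
            (2 * (|β'| + 1) * H * |s - t|) := by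
        refine (ei_exp_sub_le _ _).trans ?_
        have q : ∀ c : ℝ, |c| ≤ |β t| + 1 → Real.exp (2 * c * z) ≤ Real.exp (2 * (|β t| + 1) * H) := by
          intro c hc
          rw [Real.exp_le_exp]
          have := le_abs_self c
          have h5 : 2 * c * z ≤ 2 * (|β t| + 1) * z := by
            have := hz.1
            nlinarith
          refine h5.trans ?_
          have := hz.2
          have h6 : 0 ≤ 2 * (|β t| + 1) := by positivity
          nlinarith
        have q2 : |2 * β s * z - 2 * β t * z| ≤ 2 * (|β'| + 1) * H * |s - t| := by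
          have e1 : 2 * β s * z - 2 * β t * z = 2 * z * (slope β t s) * (s - t) := by
            rw [slope_def_field]; field_simp
          rw [e1, abs_mul, abs_mul, abs_of_nonneg (by have := hz.1; positivity : 0 ≤ 2 * z)]
          have h7 : 2 * z * |slope β t s| ≤ 2 * (|β'| + 1) * H := by
            have a1 := hz.1
            have a2 := hz.2
            have a3 : 2 * z * |slope β t s| ≤ 2 * H * (|β'| + 1) := by
              gcongr
            linarith
          exact mul_le_mul_of_nonneg_right h7 (abs_nonneg _)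
        exact mul_le_mul (add_le_add (q _ h2.le) (q _ (by linarith))) q2 (abs_nonneg _) (by positivity)
      calc |s - t|⁻¹ * |Real.exp (2 * β s * z) - Real.exp (2 * β t * z)| * ‖ex (f s) z‖ ^ 2
          ≤ |s - t|⁻¹ * ((Real.exp (2 * (|β t| + 1) * H) + Real.exp (2 * (|β t| + 1) * H)) *
            (2 * (|β'| + 1) * H * |s - t|)) * Mf ^ 2 := by gcongr
        _ = (Real.exp (2 * (|β t| + 1) * H) + Real.exp (2 * (|β t| + 1) * H)) *
            (2 * (|β'| + 1) * H) * Mf ^ 2 := by
          have h5 : |s - t| ≠ 0 := abs_ne_zero.2 h4'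
          field_simp
    · intro z hz
      have d1 : HasDerivAt (fun s => Real.exp (2 * β s * z))
          (Real.exp (2 * β t * z) * (2 * β' * z)) t := ((hβ.const_mul 2).mul_const z).exp
      have d2 := hasDerivAt_iff_tendsto_slope.1 d1
      have d3 := ((pc cf z).norm.pow 2)
      refine (d2.mul d3).congr fun s => ?_
      rw [slope_def_field, div_eq_inv_mul]
  -- limit of the second integral
  have hB : Tendsto (fun s => ∫ y in (0:ℝ)..H, (((s - t)⁻¹ : ℝ) • (prim (f s) y - prim (f t) y)) *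
      (eiT (β t) (f s) (f1 s) y + eiT (β t) (f t) (f1 t) y)) (𝓝[≠] t)
      (𝓝 (∫ y in (0:ℝ)..H, rh k (f t) (f1 t) (n t) y *
        (eiT (β t) (f t) (f1 t) y + eiT (β t) (f t) (f1 t) y))) := by
    refine ei_dct (C := C * ((Real.exp (2 * |β t| * H) * Mg + 2 * |β t| *
      (Real.exp (2 * |β t| * H) * Mf)) + (Real.exp (2 * |β t| * H) * Mg + 2 * |β t| *
      (Real.exp (2 * |β t| * H) * Mf)))) ?_ ?_ ?_
    · refine Eventually.of_forall fun s => ?_
      have h1 := ei_prim_cont (f s)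
      have h2 := ei_prim_cont (f t)
      have h3 := ei_T_cont (β t) (f s) (f1 s)
      have h4 := ei_T_cont (β t) (f t) (f1 t)
      fun_prop
    · filter_upwards [hnb', self_mem_nhdsWithin] with s h3 h4 z hz
      have h4' : s - t ≠ 0 := sub_ne_zero.2 h4
      have bT : ∀ τ ∈ Icc a b, ‖eiT (β t) (f τ) (f1 τ) z‖ ≤ Real.exp (2 * |β t| * H) * Mg +
          2 * |β t| * (Real.exp (2 * |β t| * H) * Mf) := by
        intro τ hτ
        have q : Real.exp (2 * β t * z) ≤ Real.exp (2 * |β t| * H) := by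
          rw [Real.exp_le_exp]
          have h1 := le_abs_self (β t)
          have h2 := abs_nonneg (β t)
          have h5 : 2 * β t * z ≤ 2 * |β t| * z := by
            have := hz.1
            nlinarith
          refine h5.trans ?_
          have := hz.2
          nlinarith
        unfold eiT
        refine (norm_add_le _ _).trans (add_le_add ?_ ?_)
        · rw [norm_mul, Complex.norm_real, Real.norm_eq_abs, abs_of_pos (Real.exp_pos _), norm_star]
          exact mul_le_mul q ((norm_ex_le _ _).trans (hMg τ hτ)) (norm_nonneg _) (Real.exp_pos _).le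
        · rw [norm_mul, norm_mul, norm_mul, Complex.norm_real, Complex.norm_real, Real.norm_eq_abs,
            Real.norm_eq_abs, abs_of_pos (Real.exp_pos _), norm_star, Complex.norm_ofNat]
          refine mul_le_mul_of_nonneg_left ?_ (by positivity)
          exact mul_le_mul q ((norm_ex_le _ _).trans (hMf τ hτ)) (norm_nonneg _) (Real.exp_pos _).le
      rw [norm_mul, norm_smul, norm_inv, Real.norm_eq_abs]
      refine mul_le_mul ?_ ((norm_add_le _ _).trans (add_le_add (bT s h3) (bT t ht'))) (norm_nonneg _) hC0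
      have h5 := ei_prim_diff hC he ht' h3 hz
      have h6 : 0 < |s - t| := abs_pos.2 h4'
      rw [inv_mul_le_iff₀ h6, mul_comm]
      exact h5
    · intro z hz
      have d1 := hasDerivAt_iff_tendsto_slope.1 (ei_prim_time cf cf1 cn he ht hz)
      have d2 := pc cf z
      have d3 := pc cf1 z
      have d4 : Tendsto (fun s => eiT (β t) (f s) (f1 s) z + eiT (β t) (f t) (f1 t) z) (𝓝[≠] t)
          (𝓝 (eiT (β t) (f t) (f1 t) z + eiT (β t) (f t) (f1 t) z)) := by
        unfold eiT
        exact (((d3.star).const_mul _).add (((d2.star).const_mul _).const_mul _)).add_const _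
      refine (d1.mul d4).congr fun s => ?_
      rw [slope_def_module]
  -- the slope
  rw [hasDerivAt_iff_tendsto_slope]
  have hS := hA.sub ((Complex.continuous_re.tendsto _).comp hB)
  have hval : (∫ z in (0:ℝ)..H, (Real.exp (2 * β t * z) * (2 * β' * z)) * ‖ex (f t) z‖ ^ 2) -
      (∫ y in (0:ℝ)..H, rh k (f t) (f1 t) (n t) y *
        (eiT (β t) (f t) (f1 t) y + eiT (β t) (f t) (f1 t) y)).re =
      2 * (β' * zin (β t) (f t) - nrm (β t) (f1 t + β t • f t) ^ 2 + β t ^ 2 * nrm (β t) (f t) ^ 2 -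
        k ^ 2 * nrm (β t) (f t) ^ 2 + inn (β t) (n t) (f t)) := by
    rw [ei_final (hd t ht') (h0 t ht').1 (h0 t ht').2]
    have e5 : ∫ z in (0:ℝ)..H, (Real.exp (2 * β t * z) * (2 * β' * z)) * ‖ex (f t) z‖ ^ 2 =
        2 * β' * zin (β t) (f t) := by
      rw [zin, ← intervalIntegral.integral_const_mul]
      refine intervalIntegral.integral_congr fun y _ => ?_
      ring
    rw [e5]
    ring
  rw [← hval]
  refine hS.congr' ?_
  filter_upwards [hnb'] with s hs
  rw [ei_slope (hd t ht') (hd s hs) (h0 t ht').2 (h0 s hs).2]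
  rfl

end

end Pool.Agent.Lib.MP_79abb3_an.P25
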