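import Pool.Agent.Lib.MP_79abb3_an.P25.TrajDef
import Pool.Agent.Lib.MP_79abb3_an.P25.BW
import Pool.Agent.Lib.MP_79abb3_an.P25.MildMode

/-!
Operations on trajectories in integrated form.
-/

set_option autoImplicit false
set_option linter.unusedSectionVars false

attribute [-instance] PreLp.ring SubfieldClass.toSubringClass SubringClass.toSubsemiringClass
  NonUnitalSubringClass.toNonUnitalSubsemiringClass RingConeClass.toSubsemiringClass
  SubsemiringClass.nonUnitalSubsemiringClass SubringClass.nonUnitalSubringClass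
  AddSubgroup.seminormedAddCommGroup SetLike.GradeZero.instSemiring SetLike.GradeZero.instCommRing
  SetLike.GradeZero.instCommSemiring SetLike.GradeZero.instRing LieAdmissibleAlgebra.toModule
  RightPreLieAlgebra.toModule LeftPreLieAlgebra.toModule

open MeasureTheory Set Filter Topology Function

namespace Pool.Agent.Lib.MP_79abb3_an.P25

/-- Functions that are bounded and continuous off a countable set are integrable. -/
theorem ii_of_bdd_cont {φ : ℝ → ℂ} {a b t1 t2 R : ℝ} {J : Set ℝ} (hJ : J.Countable)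
    (hc : ContinuousOn φ (Icc a b \ J)) (hb : ∀ t ∈ Icc a b \ J, ‖φ t‖ ≤ R) (h1 : t1 ∈ Icc a b)
    (h2 : t2 ∈ Icc a b) : IntervalIntegrable φ volume t1 t2 := by
  rw [intervalIntegrable_iff]
  have hsub : uIoc t1 t2 ⊆ Icc a b := fun t ht => by
    rw [mem_uIoc] at ht
    rcases ht with ht | ht
    · exact ⟨h1.1.trans ht.1.le, ht.2.trans h2.2⟩
    · exact ⟨h2.1.trans ht.1.le, ht.2.trans h1.2⟩
  have hae : volume.restrict (uIoc t1 t2 \ J) = volume.restrict (uIoc t1 t2) :=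
    Measure.restrict_congr_set (sdiff_null_ae_eq_self (hJ.measure_zero volume))
  have hms : MeasurableSet (uIoc t1 t2 \ J) := measurableSet_uIoc.diff hJ.measurableSet
  have hsub' : uIoc t1 t2 \ J ⊆ Icc a b \ J := sdiff_subset_sdiff_left hsub
  have hm : AEStronglyMeasurable φ (volume.restrict (uIoc t1 t2)) := by
    rw [← hae]
    exact (hc.mono hsub').aestronglyMeasurable hms
  have hfin : IntegrableOn (fun _ : ℝ => R) (uIoc t1 t2) := by
    have := (intervalIntegrable_const (μ := volume) (a := t1) (b := t2) (c := R))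
    rwa [intervalIntegrable_iff] at this
  refine Integrable.mono' hfin hm ?_
  rw [← hae, ae_restrict_iff' hms]
  exact ae_of_all _ fun t ht => hb t (hsub' ht)

theorem ae_notMem_countable {J : Set ℝ} (hJ : J.Countable) : ∀ᵐ t : ℝ, t ∉ J :=
  measure_eq_zero_iff_ae_notMem.1 (hJ.measure_zero volume)

/-- Gluing of functions that are continuous off exceptional sets. -/
theorem glue_contOn {E : Type} [TopologicalSpace E] {f g : ℝ → E} {a b c : ℝ} {J J' : Set ℝ}
    (hf : ContinuousOn f (Icc a b \ J)) (hg : ContinuousOn g (Icc b c \ J')) :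
    ContinuousOn (fun t => if t ≤ b then f t else g t) (Icc a c \ (J ∪ J' ∪ {b})) := by
  rintro t ⟨ht, htJ⟩
  have hJ1 : t ∉ J := fun h => htJ (Or.inl (Or.inl h))
  have hJ2 : t ∉ J' := fun h => htJ (Or.inl (Or.inr h))
  have hb : t ≠ b := fun h => htJ (Or.inr h)
  rcases lt_or_gt_of_ne hb with h | h
  · have h1 : ContinuousWithinAt f (Icc a b \ J) t := hf t ⟨⟨ht.1, h.le⟩, hJ1⟩
    have h2 : ContinuousWithinAt f (Icc a c \ (J ∪ J' ∪ {b})) t := by
      refine h1.mono_of_mem_nhdsWithin ?_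
      have h3 : Iio b ∈ 𝓝[Icc a c \ (J ∪ J' ∪ {b})] t := nhdsWithin_le_nhds (Iio_mem_nhds h)
      filter_upwards [h3, self_mem_nhdsWithin] with s hs1 hs2
      exact ⟨⟨hs2.1.1, (show s < b from hs1).le⟩, fun hs3 => hs2.2 (Or.inl (Or.inl hs3))⟩
    refine h2.congr_of_eventuallyEq ?_ (if_pos h.le)
    filter_upwards [nhdsWithin_le_nhds (Iio_mem_nhds h)] with s hs
    exact if_pos (show s < b from hs).le
  · have h1 : ContinuousWithinAt g (Icc b c \ J') t := hg t ⟨⟨h.le, ht.2⟩, hJ2⟩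
    have h2 : ContinuousWithinAt g (Icc a c \ (J ∪ J' ∪ {b})) t := by
      refine h1.mono_of_mem_nhdsWithin ?_
      have h3 : Ioi b ∈ 𝓝[Icc a c \ (J ∪ J' ∪ {b})] t := nhdsWithin_le_nhds (Ioi_mem_nhds h)
      filter_upwards [h3, self_mem_nhdsWithin] with s hs1 hs2
      exact ⟨⟨(show b < s from hs1).le, hs2.1.2⟩, fun hs3 => hs2.2 (Or.inl (Or.inr hs3))⟩
    refine h2.congr_of_eventuallyEq ?_ (if_neg (not_le.2 h))
    filter_upwards [nhdsWithin_le_nhds (Ioi_mem_nhds h)] with s hs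
    exact if_neg (not_le.2 (show b < s from hs))

/-- Gluing of continuous functions. -/
theorem glue_contOn' {E : Type} [TopologicalSpace E] {f g : ℝ → E} {a b c : ℝ} (hab : a ≤ b)
    (hbc : b ≤ c) (hf : ContinuousOn f (Icc a b)) (hg : ContinuousOn g (Icc b c)) (h : f b = g b) :
    ContinuousOn (fun t => if t ≤ b then f t else g t) (Icc a c) := by
  rw [← Icc_union_Icc_eq_Icc hab hbc]
  refine ContinuousOn.union_of_isClosed ?_ ?_ isClosed_Icc isClosed_Icc
  · exact hf.congr fun t ht => if_pos ht.2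
  · refine hg.congr fun t ht => ?_
    rcases ht.1.eq_or_lt with h1 | h1
    · subst h1; simp [h]
    · exact if_neg (not_le.2 h1)

theorem glue_prim {Φ I : ℝ → ℂ} {a b c : ℝ} (hab : a ≤ b) (hbc : b ≤ c)
    (h1 : ∀ t1 ∈ Icc a b, ∀ t2 ∈ Icc t1 b, Φ t2 - Φ t1 = ∫ s in t1..t2, I s)
    (h2 : ∀ t1 ∈ Icc b c, ∀ t2 ∈ Icc t1 c, Φ t2 - Φ t1 = ∫ s in t1..t2, I s)
    (hi1 : IntervalIntegrable I volume a b) (hi2 : IntervalIntegrable I volume b c) :
    ∀ t1 ∈ Icc a c, ∀ t2 ∈ Icc t1 c, Φ t2 - Φ t1 = ∫ s in t1..t2, I s := by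
  intro t1 ht1 t2 ht2
  rcases le_or_gt t2 b with h | h
  · exact h1 t1 ⟨ht1.1, ht2.1.trans h⟩ t2 ⟨ht2.1, h⟩
  rcases le_or_gt b t1 with h' | h'
  · exact h2 t1 ⟨h', ht1.2⟩ t2 ht2
  · have e1 := h1 t1 ⟨ht1.1, h'.le⟩ b ⟨h'.le, le_rfl⟩
    have e2 := h2 b ⟨le_rfl, hbc⟩ t2 ⟨h.le, ht2.2⟩
    have i1 : IntervalIntegrable I volume t1 b := hi1.mono_set (by
      rw [uIcc_of_le h'.le, uIcc_of_le hab]
      exact Icc_subset_Icc_left ht1.1)
    have i2 : IntervalIntegrable I volume b t2 := hi2.mono_set (by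
      rw [uIcc_of_le h.le, uIcc_of_le hbc]
      exact Icc_subset_Icc_right ht2.2)
    rw [← intervalIntegral.integral_add_adjacent_intervals i1 i2, ← e1, ← e2]
    ring

section
variable {H : ℝ} [hH : Fact (0 < H)]

theorem prim_add (f g : CI H) (y : ℝ) : prim (f + g) y = prim f y + prim g y := by
  unfold prim
  rw [← intervalIntegral.integral_add ((continuous_ex f).intervalIntegrable _ _)
    ((continuous_ex g).intervalIntegrable _ _)]
  rfl

theorem prim_smul (c : ℝ) (f : CI H) (y : ℝ) : prim (c • f) y = c * prim f y := by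
  unfold prim
  rw [← intervalIntegral.integral_const_mul]
  rfl

theorem norm_prim_le (f : CI H) (y : ℝ) : ‖prim f y‖ ≤ |y| * ‖f‖ := by
  have h := intervalIntegral.norm_integral_le_of_norm_le_const (a := 0) (b := y) (f := ex f)
    (C := ‖f‖) (fun z _ => norm_ex_le f z)
  rw [sub_zero, mul_comm] at h
  exact h

/-- The primitive at `y` as a continuous linear map. -/
noncomputable def primL (y : ℝ) : CI H →L[ℝ] ℂ :=
  LinearMap.mkContinuous
    { toFun := fun f => prim f y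
      map_add' := fun f g => prim_add f g y
      map_smul' := fun c f => by
        rw [prim_smul, RingHom.id_apply, Complex.real_smul] } |y| (fun f => norm_prim_le f y)

theorem primL_apply (y : ℝ) (f : CI H) : primL y f = prim f y := rfl

/-- The part of the right hand side that depends on `u`. -/
noncomputable def rA (k : ℝ) (n : ℤ) (y : ℝ) (p q : Xn H →L[ℝ] CI H) : L1 (Xn H) →L[ℝ] ℂ :=
  ((evL y).comp q - (evL 0).comp q - (k ^ 2) • (primL y).comp p).comp (evN (Xn H) n)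

theorem rh_eq (k : ℝ) (n : ℤ) (y : ℝ) (p q : Xn H →L[ℝ] CI H) (x : L1 (Xn H)) (g : CI H) :
    rh k (p (x n)) (q (x n)) g y = rA k n y p q x + primL y g := by
  have h : rA k n y p q x = ex (q (x n)) y - ex (q (x n)) 0 - (k ^ 2) • prim (p (x n)) y := rfl
  rw [h, Complex.real_smul, primL_apply]
  rfl

/-- The integrands in `LT`. -/
theorem integrand_ok {a b y ω : ℝ} {J : Set ℝ} {P : ℝ → ℝ} {G : ℝ → CI H} {u : ℝ → L1 (Xn H)}
    (p q : Xn H →L[ℝ] CI H) (n : ℤ) (hJ : J.Countable) (cX : ContinuousOn u (Icc a b \ J))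
    (cP : ContinuousOn P (Icc a b \ J)) (cG : ContinuousOn G (Icc a b \ J)) {R : ℝ}
    (bP : ∀ t ∈ Icc a b \ J, |P t| ≤ R) (bu : ∀ t ∈ Icc a b \ J, ‖u t‖ ≤ R)
    (bG : ∀ t ∈ Icc a b \ J, ‖G t‖ ≤ R) {t1 t2 : ℝ} (h1 : t1 ∈ Icc a b) (h2 : t2 ∈ Icc a b) :
    IntervalIntegrable (fun s => rh (ω * n) (p (u s n)) (q (u s n)) (G s) y +
        if n = 0 then ((P s * y : ℝ) : ℂ) else 0) volume t1 t2 := by
  have hc1 : ContinuousOn (fun s => rA (ω * n) n y p q (u s)) (Icc a b \ J) :=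
    (rA (ω * n) n y p q).continuous.comp_continuousOn cX
  have hc2 : ContinuousOn (fun s => primL y (G s)) (Icc a b \ J) :=
    (primL y).continuous.comp_continuousOn cG
  have hc3 : ContinuousOn (fun s => if n = 0 then ((P s * y : ℝ) : ℂ) else 0) (Icc a b \ J) := by
    by_cases hn : n = 0
    · simp only [hn, if_true]
      exact Complex.continuous_ofReal.comp_continuousOn (cP.mul continuousOn_const)
    · simp only [hn, if_false]
      exact continuousOn_const
  refine ii_of_bdd_cont (a := a) (b := b)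
    (R := ‖rA (ω * n) n y p q‖ * R + ‖primL (H := H) y‖ * R + R * |y|) hJ ?_ ?_ h1 h2
  · refine ((hc1.add hc2).add hc3).congr fun s _ => ?_
    rw [rh_eq]
    rfl
  · intro t ht
    rw [rh_eq]
    have hR : 0 ≤ R := (abs_nonneg _).trans (bP t ht)
    refine (norm_add_le _ _).trans (add_le_add ((norm_add_le _ _).trans (add_le_add ?_ ?_)) ?_)
    · exact ((rA (ω * n) n y p q).le_opNorm _).trans
        (mul_le_mul_of_nonneg_left (bu t ht) (norm_nonneg _))
    · exact ((primL y).le_opNorm _).trans (mul_le_mul_of_nonneg_left (bG t ht) (norm_nonneg _))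
    · split_ifs
      · rw [Complex.norm_real, Real.norm_eq_abs, abs_mul]
        exact mul_le_mul_of_nonneg_right (bP t ht) (abs_nonneg _)
      · rw [norm_zero]; positivity

theorem LT.ii {ω a b : ℝ} {J : Set ℝ} {P : ℝ → ℝ} {G : ℝ → ℤ → Yn H} {u : ℝ → L1 (Xn H)}
    (h : LT ω a b J P G u) (n : ℤ) (y : ℝ) {t1 t2 : ℝ} (h1 : t1 ∈ Icc a b) (h2 : t2 ∈ Icc a b) :
    IntervalIntegrable (fun s => rh (ω * n) (u s n).1.1 (u s n).1.2.1 (G s n).1 y +
        if n = 0 then ((P s * y : ℝ) : ℂ) else 0) volume t1 t2 := by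
  obtain ⟨R, hR⟩ := h.bd
  exact integrand_ok (q1 H) (q2 H) n h.count h.cX h.cP
    (continuous_fst.comp_continuousOn (h.cG n)) (fun t ht => (hR t ht).1) (fun t ht => (hR t ht).2.1)
    (fun t ht => (norm_fst_le _).trans ((hR t ht).2.2 n)) h1 h2

theorem LT.ii' {ω a b : ℝ} {J : Set ℝ} {P : ℝ → ℝ} {G : ℝ → ℤ → Yn H} {u : ℝ → L1 (Xn H)}
    (h : LT ω a b J P G u) (n : ℤ) (y : ℝ) {t1 t2 : ℝ} (h1 : t1 ∈ Icc a b) (h2 : t2 ∈ Icc a b) :
    IntervalIntegrable (fun s => rh (ω * n) (u s n).2.1 (u s n).2.2.1 (G s n).2 y)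
      volume t1 t2 := by
  obtain ⟨R, hR⟩ := h.bd
  have h3 := integrand_ok (ω := ω) (y := y) (P := fun _ => 0) (R := R) (q4 H) (q5 H) n h.count h.cX
    continuousOn_const
    (continuous_snd.comp_continuousOn (h.cG n))
    (fun t ht => by rw [abs_zero]; exact (abs_nonneg _).trans (hR t ht).1)
    (fun t ht => (hR t ht).2.1)
    (fun t ht => (norm_snd_le _).trans ((hR t ht).2.2 n)) h1 h2
  refine h3.congr fun s _ => ?_
  simp only [zero_mul, Complex.ofReal_zero, ite_self, add_zero]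
  rfl

/-! TR-1: elementary operations on `LT`. -/

theorem LT.congr {ω a b : ℝ} {J : Set ℝ} {P P' : ℝ → ℝ} {G G' : ℝ → ℤ → Yn H} {u u' : ℝ → L1 (Xn H)}
    (h : LT ω a b J P G u) (hP : ∀ t ∈ Icc a b \ J, P' t = P t) (hG : ∀ t ∈ Icc a b \ J, ∀ n, G' t n = G t n)
    (hu : ∀ t ∈ Icc a b, u' t = u t) : LT ω a b J P' G' u' where
  count := h.count
  cY := h.cY.congr fun t ht => by rw [hu t ht]
  cX := h.cX.congr fun t ht => hu t ht.1
  cP := h.cP.congr hP
  cG := fun n => (h.cG n).congr fun t ht => hG t ht n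
  bd := by
    obtain ⟨R, hR⟩ := h.bd
    refine ⟨R, fun t ht => ?_⟩
    rw [hP t ht, hu t ht.1]
    exact ⟨(hR t ht).1, (hR t ht).2.1, fun n => by rw [hG t ht n]; exact (hR t ht).2.2 n⟩
  cm := fun t ht n => by rw [hu t ht.1]; exact h.cm t ht n
  z := fun t ht n => by rw [hu t ht]; exact h.z t ht n
  sy := fun t ht => by rw [hu t ht]; exact h.sy t ht
  eq := fun n y hy t1 ht1 t2 ht2 => by
    rw [hu t1 ht1, hu t2 ⟨ht1.1.trans ht2.1, ht2.2⟩, h.eq n y hy t1 ht1 t2 ht2]
    refine intervalIntegral.integral_congr_ae ?_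
    filter_upwards [ae_notMem_countable h.count] with s hs hs2
    rw [uIoc_of_le ht2.1] at hs2
    have hs3 : s ∈ Icc a b := ⟨ht1.1.trans hs2.1.le, hs2.2.trans ht2.2⟩
    rw [hu s hs3, hG s ⟨hs3, hs⟩, hP s ⟨hs3, hs⟩]
  eq' := fun n y hy t1 ht1 t2 ht2 => by
    rw [hu t1 ht1, hu t2 ⟨ht1.1.trans ht2.1, ht2.2⟩, h.eq' n y hy t1 ht1 t2 ht2]
    refine intervalIntegral.integral_congr_ae ?_
    filter_upwards [ae_notMem_countable h.count] with s hs hs2
    rw [uIoc_of_le ht2.1] at hs2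
    have hs3 : s ∈ Icc a b := ⟨ht1.1.trans hs2.1.le, hs2.2.trans ht2.2⟩
    rw [hu s hs3, hG s ⟨hs3, hs⟩]

theorem LT.mono {ω a b a' b' : ℝ} {J J' : Set ℝ} {P : ℝ → ℝ} {G : ℝ → ℤ → Yn H} {u : ℝ → L1 (Xn H)}
    (h : LT ω a b J P G u) (ha : a ≤ a') (hb : b' ≤ b) (hJ : J ⊆ J') (hJ' : J'.Countable) :
    LT ω a' b' J' P G u := by
  have hs1 : Icc a' b' ⊆ Icc a b := Icc_subset_Icc ha hb
  have hs2 : Icc a' b' \ J' ⊆ Icc a b \ J := sdiff_subset_sdiff hs1 hJ
  exact
  { count := hJ'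
    cY := h.cY.mono hs1
    cX := h.cX.mono hs2
    cP := h.cP.mono hs2
    cG := fun n => (h.cG n).mono hs2
    bd := by
      obtain ⟨R, hR⟩ := h.bd
      exact ⟨R, fun t ht => hR t (hs2 ht)⟩
    cm := fun t ht => h.cm t (hs2 ht)
    z := fun t ht => h.z t (hs1 ht)
    sy := fun t ht => h.sy t (hs1 ht)
    eq := fun n y hy t1 ht1 t2 ht2 => h.eq n y hy t1 (hs1 ht1) t2 ⟨ht2.1, ht2.2.trans hb⟩
    eq' := fun n y hy t1 ht1 t2 ht2 => h.eq' n y hy t1 (hs1 ht1) t2 ⟨ht2.1, ht2.2.trans hb⟩ }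

theorem LT.shift {ω a b : ℝ} {J : Set ℝ} {P : ℝ → ℝ} {G : ℝ → ℤ → Yn H} {u : ℝ → L1 (Xn H)}
    (h : LT ω a b J P G u) (d : ℝ) : LT ω (a + d) (b + d) ((fun t => t - d) ⁻¹' J)
      (fun t => P (t - d)) (fun t => G (t - d)) (fun t => u (t - d)) := by
  have hm : ∀ {t a b : ℝ}, t ∈ Icc (a + d) (b + d) → t - d ∈ Icc a b := fun ht =>
    ⟨by linarith [ht.1], by linarith [ht.2]⟩
  have hm1 : MapsTo (fun t => t - d) (Icc (a + d) (b + d)) (Icc a b) := fun t ht => hm ht
  have hm2 : MapsTo (fun t => t - d) (Icc (a + d) (b + d) \ ((fun t => t - d) ⁻¹' J))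
      (Icc a b \ J) := fun t ht => ⟨hm ht.1, ht.2⟩
  have hc : Continuous fun t : ℝ => t - d := by fun_prop
  exact
  { count := h.count.preimage (fun x y hxy => by simpa using hxy)
    cY := h.cY.comp hc.continuousOn hm1
    cX := h.cX.comp hc.continuousOn hm2
    cP := h.cP.comp hc.continuousOn hm2
    cG := fun n => (h.cG n).comp hc.continuousOn hm2
    bd := by
      obtain ⟨R, hR⟩ := h.bd
      exact ⟨R, fun t ht => hR (t - d) (hm2 ht)⟩
    cm := fun t ht => h.cm (t - d) (hm2 ht)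
    z := fun t ht => h.z (t - d) (hm ht)
    sy := fun t ht => h.sy (t - d) (hm ht)
    eq := fun n y hy t1 ht1 t2 ht2 => by
      rw [h.eq n y hy (t1 - d) (hm ht1) (t2 - d) ⟨by linarith [ht2.1], by linarith [ht2.2]⟩,
        ← intervalIntegral.integral_comp_sub_right (fun s =>
          (rh (ω * n) (u s n).1.1 (u s n).1.2.1 (G s n).1 y +
            if n = 0 then ((P s * y : ℝ) : ℂ) else 0)) d]
    eq' := fun n y hy t1 ht1 t2 ht2 => by
      rw [h.eq' n y hy (t1 - d) (hm ht1) (t2 - d) ⟨by linarith [ht2.1], by linarith [ht2.2]⟩,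
        ← intervalIntegral.integral_comp_sub_right (fun s =>
          rh (ω * n) (u s n).2.1 (u s n).2.2.1 (G s n).2 y) d] }

theorem IsD.add' {f f1 g g1 : CI H} (h : IsD f f1) (h' : IsD g g1) : IsD (f + g) (f1 + g1) :=
  fun z hz => (h z hz).add (h' z hz)

theorem Cmode.add {k : ℝ} {x y : Xn H} (hx : Cmode k x) (hy : Cmode k y) : Cmode k (x + y) where
  d1 := hx.d1.add' hy.d1
  d2 := hx.d2.add' hy.d2
  e1 := by
    show x.1.2.2 + y.1.2.2 = |k| • (x.1.1 + y.1.1)
    rw [hx.e1, hy.e1, ci_smul_add]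
  e2 := by
    show x.2.2.2 + y.2.2.2 = |k| • (x.2.1 + y.2.1)
    rw [hx.e2, hy.e2, ci_smul_add]
  z1 := by
    show ex (x.1.1 + y.1.1) 0 = 0
    rw [ex_add, hx.z1, hy.z1, add_zero]
  z2 := by
    show ex (x.2.1 + y.2.1) 0 = 0
    rw [ex_add, hx.z2, hy.z2, add_zero]

theorem LT.add {ω a b : ℝ} {J : Set ℝ} {P P' : ℝ → ℝ} {G G' : ℝ → ℤ → Yn H} {u u' : ℝ → L1 (Xn H)}
    (h : LT ω a b J P G u) (h' : LT ω a b J P' G' u') :
    LT ω a b J (fun t => P t + P' t) (fun t n => G t n + G' t n) (fun t => u t + u' t) where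
  count := h.count
  cY := (h.cY.add h'.cY).congr fun t _ => map_add _ _ _
  cX := h.cX.add h'.cX
  cP := h.cP.add h'.cP
  cG := fun n => (h.cG n).add (h'.cG n)
  bd := by
    obtain ⟨R, hR⟩ := h.bd
    obtain ⟨R', hR'⟩ := h'.bd
    refine ⟨R + R', fun t ht => ⟨?_, ?_, fun n => ?_⟩⟩
    · exact (abs_add_le _ _).trans (add_le_add (hR t ht).1 (hR' t ht).1)
    · exact (norm_add_le _ _).trans (add_le_add (hR t ht).2.1 (hR' t ht).2.1)
    · exact (norm_add_le _ _).trans (add_le_add ((hR t ht).2.2 n) ((hR' t ht).2.2 n))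
  cm := fun t ht n => (h.cm t ht n).add (h'.cm t ht n)
  z := fun t ht n => by
    have h1 := h.z t ht n
    have h2 := h'.z t ht n
    constructor
    · show ex ((u t n).1.1 + (u' t n).1.1) 0 = 0
      rw [ex_add, h1.1, h2.1, add_zero]
    · show ex ((u t n).2.1 + (u' t n).2.1) 0 = 0
      rw [ex_add, h1.2, h2.2, add_zero]
  sy := fun t ht n => by
    have h1 := h.sy t ht n
    have h2 := h'.sy t ht n
    show jn (u t (-n)) + jn (u' t (-n)) = star (jn (u t n) + jn (u' t n))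
    rw [star_add]
    exact congrArg₂ (· + ·) h1 h2
  eq := fun n y hy t1 ht1 t2 ht2 => by
    have h1 := h.eq n y hy t1 ht1 t2 ht2
    have h2 := h'.eq n y hy t1 ht1 t2 ht2
    have ht2' : t2 ∈ Icc a b := ⟨ht1.1.trans ht2.1, ht2.2⟩
    have e1 : prim (u t2 n + u' t2 n).1.1 y - prim (u t1 n + u' t1 n).1.1 y =
        (prim (u t2 n).1.1 y - prim (u t1 n).1.1 y) + (prim (u' t2 n).1.1 y - prim (u' t1 n).1.1 y) := by
      show prim ((u t2 n).1.1 + (u' t2 n).1.1) y - prim ((u t1 n).1.1 + (u' t1 n).1.1) y = _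
      rw [prim_add, prim_add]
      ring
    show prim (u t2 n + u' t2 n).1.1 y - prim (u t1 n + u' t1 n).1.1 y = _
    rw [e1, h1, h2, ← intervalIntegral.integral_add (h.ii n y ht1 ht2') (h'.ii n y ht1 ht2')]
    refine intervalIntegral.integral_congr fun s _ => ?_
    simp only
    have e2 : rh (ω * n) (u s n + u' s n).1.1 (u s n + u' s n).1.2.1 (G s n + G' s n).1 y =
        rh (ω * n) (u s n).1.1 (u s n).1.2.1 (G s n).1 y +
        rh (ω * n) (u' s n).1.1 (u' s n).1.2.1 (G' s n).1 y := by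
      show rh (ω * n) ((u s n).1.1 + (u' s n).1.1) ((u s n).1.2.1 + (u' s n).1.2.1)
        ((G s n).1 + (G' s n).1) y = _
      unfold rh
      rw [prim_add, prim_add, ex_add, ex_add]
      ring
    have e3 : (u s + u' s) n = u s n + u' s n := rfl
    rw [e3, e2]
    split_ifs
    · push_cast; ring
    · ring
  eq' := fun n y hy t1 ht1 t2 ht2 => by
    have h1 := h.eq' n y hy t1 ht1 t2 ht2
    have h2 := h'.eq' n y hy t1 ht1 t2 ht2
    have ht2' : t2 ∈ Icc a b := ⟨ht1.1.trans ht2.1, ht2.2⟩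
    have e1 : prim (u t2 n + u' t2 n).2.1 y - prim (u t1 n + u' t1 n).2.1 y =
        (prim (u t2 n).2.1 y - prim (u t1 n).2.1 y) + (prim (u' t2 n).2.1 y - prim (u' t1 n).2.1 y) := by
      show prim ((u t2 n).2.1 + (u' t2 n).2.1) y - prim ((u t1 n).2.1 + (u' t1 n).2.1) y = _
      rw [prim_add, prim_add]
      ring
    show prim (u t2 n + u' t2 n).2.1 y - prim (u t1 n + u' t1 n).2.1 y = _
    rw [e1, h1, h2, ← intervalIntegral.integral_add (h.ii' n y ht1 ht2') (h'.ii' n y ht1 ht2')]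
    refine intervalIntegral.integral_congr fun s _ => ?_
    simp only
    show rh (ω * n) (u s n).2.1 (u s n).2.2.1 (G s n).2 y +
        rh (ω * n) (u' s n).2.1 (u' s n).2.2.1 (G' s n).2 y =
      rh (ω * n) ((u s n).2.1 + (u' s n).2.1) ((u s n).2.2.1 + (u' s n).2.2.1)
        ((G s n).2 + (G' s n).2) y
    unfold rh
    rw [prim_add, prim_add, ex_add, ex_add]
    ring

/-- Concatenation. The sources only need to be bounded and continuous off the exceptional set. -/
theorem LT.glue {ω a b c : ℝ} {J J' : Set ℝ} {P P' : ℝ → ℝ} {G G' : ℝ → ℤ → Yn H}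
    {u u' : ℝ → L1 (Xn H)} (h : LT ω a b J P G u) (h' : LT ω b c J' P' G' u') (hab : a ≤ b) (hbc : b ≤ c)
    (hu : ∀ n, jn (u b n) = jn (u' b n)) :
    LT ω a c (J ∪ J' ∪ {b}) (fun t => if t ≤ b then P t else P' t)
      (fun t => if t ≤ b then G t else G' t) (fun t => if t ≤ b then u t else u' t) := by
  have hcase : ∀ t ∈ Icc a c \ (J ∪ J' ∪ {b}), (t ≤ b ∧ t ∈ Icc a b \ J) ∨
      (¬ t ≤ b ∧ t ∈ Icc b c \ J') := by
    rintro t ⟨ht, htJ⟩
    have hJ1 : t ∉ J := fun h => htJ (Or.inl (Or.inl h))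
    have hJ2 : t ∉ J' := fun h => htJ (Or.inl (Or.inr h))
    rcases le_or_gt t b with h1 | h1
    · exact Or.inl ⟨h1, ⟨ht.1, h1⟩, hJ1⟩
    · exact Or.inr ⟨not_le.2 h1, ⟨h1.le, ht.2⟩, hJ2⟩
  have hcase2 : ∀ t ∈ Icc a c, (t ≤ b ∧ t ∈ Icc a b) ∨ (¬ t ≤ b ∧ t ∈ Icc b c) := by
    intro t ht
    rcases le_or_gt t b with h1 | h1
    · exact Or.inl ⟨h1, ht.1, h1⟩
    · exact Or.inr ⟨not_le.2 h1, h1.le, ht.2⟩
  have hb1 : b ∈ Icc a b := ⟨hab, le_rfl⟩
  have ha1 : a ∈ Icc a b := ⟨le_rfl, hab⟩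
  have hb2 : b ∈ Icc b c := ⟨le_rfl, hbc⟩
  have hc2 : c ∈ Icc b c := ⟨hbc, le_rfl⟩
  refine
  { count := (h.count.union h'.count).union (countable_singleton b)
    cY := ?_
    cX := glue_contOn h.cX h'.cX
    cP := glue_contOn h.cP h'.cP
    cG := fun n => (glue_contOn (h.cG n) (h'.cG n)).congr fun t _ => by
      by_cases h1 : t ≤ b
      · simp [h1]
      · simp [h1]
    bd := ?_
    cm := ?_
    z := ?_
    sy := ?_
    eq := ?_
    eq' := ?_ }
  · have h1 : jL H (u b) = jL H (u' b) := by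
      refine lp.ext ?_
      funext n
      rw [jL_apply, jL_apply]
      exact hu n
    refine (glue_contOn' hab hbc h.cY h'.cY h1).congr fun t _ => ?_
    by_cases h2 : t ≤ b
    · simp only [if_pos h2]
    · simp only [if_neg h2]
  · obtain ⟨R, hR⟩ := h.bd
    obtain ⟨R', hR'⟩ := h'.bd
    refine ⟨max R R', fun t ht => ?_⟩
    rcases hcase t ht with ⟨h1, h2⟩ | ⟨h1, h2⟩
    · simp only [if_pos h1]
      exact ⟨(hR t h2).1.trans (le_max_left _ _), (hR t h2).2.1.trans (le_max_left _ _),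
        fun n => ((hR t h2).2.2 n).trans (le_max_left _ _)⟩
    · simp only [if_neg h1]
      exact ⟨(hR' t h2).1.trans (le_max_right _ _), (hR' t h2).2.1.trans (le_max_right _ _),
        fun n => ((hR' t h2).2.2 n).trans (le_max_right _ _)⟩
  · intro t ht n
    rcases hcase t ht with ⟨h1, h2⟩ | ⟨h1, h2⟩
    · simp only [if_pos h1]; exact h.cm t h2 n
    · simp only [if_neg h1]; exact h'.cm t h2 n
  · intro t ht n
    rcases hcase2 t ht with ⟨h1, h2⟩ | ⟨h1, h2⟩
    · simp only [if_pos h1]; exact h.z t h2 n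
    · simp only [if_neg h1]; exact h'.z t h2 n
  · intro t ht
    rcases hcase2 t ht with ⟨h1, h2⟩ | ⟨h1, h2⟩
    · simp only [if_pos h1]; exact h.sy t h2
    · simp only [if_neg h1]; exact h'.sy t h2
  · intro n y hy
    -- value of the primitive
    have hΦ : ∀ t ∈ Icc b c, prim ((if t ≤ b then u t else u' t) n).1.1 y = prim (u' t n).1.1 y := by
      intro t ht
      rcases ht.1.eq_or_lt with h1 | h1
      · subst h1
        rw [if_pos le_rfl]
        have := congrArg Prod.fst (hu n)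
        exact congrArg (fun f => prim f y) this
      · rw [if_neg (not_le.2 h1)]
    have hi1 : IntervalIntegrable (fun s => rh (ω * n) ((if s ≤ b then u s else u' s) n).1.1
        ((if s ≤ b then u s else u' s) n).1.2.1 ((if s ≤ b then G s else G' s) n).1 y +
        if n = 0 then (((if s ≤ b then P s else P' s) * y : ℝ) : ℂ) else 0) volume a b := by
      refine (h.ii n y ha1 hb1).congr fun s hs => ?_
      rw [uIoc_of_le hab] at hs
      simp only [if_pos hs.2]
    have hi2 : IntervalIntegrable (fun s => rh (ω * n) ((if s ≤ b then u s else u' s) n).1.1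
        ((if s ≤ b then u s else u' s) n).1.2.1 ((if s ≤ b then G s else G' s) n).1 y +
        if n = 0 then (((if s ≤ b then P s else P' s) * y : ℝ) : ℂ) else 0) volume b c := by
      refine (h'.ii n y hb2 hc2).congr fun s hs => ?_
      rw [uIoc_of_le hbc] at hs
      simp only [if_neg (not_le.2 hs.1)]
    refine glue_prim hab hbc ?_ ?_ hi1 hi2
    · intro t1 ht1 t2 ht2
      rw [if_pos ht1.2, if_pos ht2.2, h.eq n y hy t1 ht1 t2 ht2]
      refine intervalIntegral.integral_congr fun s hs => ?_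
      rw [uIcc_of_le ht2.1] at hs
      simp only [if_pos (hs.2.trans ht2.2)]
    · intro t1 ht1 t2 ht2
      rw [hΦ t1 ht1, hΦ t2 ⟨ht1.1.trans ht2.1, ht2.2⟩, h'.eq n y hy t1 ht1 t2 ht2]
      refine intervalIntegral.integral_congr_Ioo_of_le ht2.1 fun s hs => ?_
      simp only [if_neg (not_le.2 (lt_of_le_of_lt ht1.1 hs.1))]
  · intro n y hy
    have hΦ : ∀ t ∈ Icc b c, prim ((if t ≤ b then u t else u' t) n).2.1 y = prim (u' t n).2.1 y := by
      intro t ht
      rcases ht.1.eq_or_lt with h1 | h1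
      · subst h1
        rw [if_pos le_rfl]
        have := congrArg Prod.snd (hu n)
        exact congrArg (fun f => prim f y) this
      · rw [if_neg (not_le.2 h1)]
    have hi1 : IntervalIntegrable (fun s => rh (ω * n) ((if s ≤ b then u s else u' s) n).2.1
        ((if s ≤ b then u s else u' s) n).2.2.1 ((if s ≤ b then G s else G' s) n).2 y)
        volume a b := by
      refine (h.ii' n y ha1 hb1).congr fun s hs => ?_
      rw [uIoc_of_le hab] at hs
      simp only [if_pos hs.2]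
    have hi2 : IntervalIntegrable (fun s => rh (ω * n) ((if s ≤ b then u s else u' s) n).2.1
        ((if s ≤ b then u s else u' s) n).2.2.1 ((if s ≤ b then G s else G' s) n).2 y)
        volume b c := by
      refine (h'.ii' n y hb2 hc2).congr fun s hs => ?_
      rw [uIoc_of_le hbc] at hs
      simp only [if_neg (not_le.2 hs.1)]
    refine glue_prim hab hbc ?_ ?_ hi1 hi2
    · intro t1 ht1 t2 ht2
      rw [if_pos ht1.2, if_pos ht2.2, h.eq' n y hy t1 ht1 t2 ht2]
      refine intervalIntegral.integral_congr fun s hs => ?_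
      rw [uIcc_of_le ht2.1] at hs
      simp only [if_pos (hs.2.trans ht2.2)]
    · intro t1 ht1 t2 ht2
      rw [hΦ t1 ht1, hΦ t2 ⟨ht1.1.trans ht2.1, ht2.2⟩, h'.eq' n y hy t1 ht1 t2 ht2]
      refine intervalIntegral.integral_congr_Ioo_of_le ht2.1 fun s hs => ?_
      simp only [if_neg (not_le.2 (lt_of_le_of_lt ht1.1 hs.1))]

/-- Concatenation without a new exceptional time. -/
theorem LT.glue' {ω a b c : ℝ} {G G' : ℝ → ℤ → Yn H}
    {u u' : ℝ → L1 (Xn H)} (h : LT ω a b ∅ (fun _ => 0) G u) (h' : LT ω b c ∅ (fun _ => 0) G' u')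
    (hab : a ≤ b) (hbc : b ≤ c) (hu : u b = u' b) (hG : ∀ n, G b n = G' b n) :
    LT ω a c ∅ (fun _ => 0) (fun t => if t ≤ b then G t else G' t)
      (fun t => if t ≤ b then u t else u' t) := by
  have h0 := h.glue h' hab hbc (fun n => by rw [hu])
  have hP : (fun t : ℝ => if t ≤ b then (0:ℝ) else 0) = fun _ => 0 := by
    funext t; simp
  rw [hP] at h0
  have hcX := h.cX
  have hcX' := h'.cX
  have hcG := h.cG
  have hcG' := h'.cG
  rw [sdiff_empty] at hcX hcX'
  have hcase2 : ∀ t ∈ Icc a c, (t ≤ b ∧ t ∈ Icc a b) ∨ (¬ t ≤ b ∧ t ∈ Icc b c) := by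
    intro t ht
    rcases le_or_gt t b with h1 | h1
    · exact Or.inl ⟨h1, ht.1, h1⟩
    · exact Or.inr ⟨not_le.2 h1, h1.le, ht.2⟩
  exact
  { count := countable_empty
    cY := h0.cY
    cX := by
      rw [sdiff_empty]
      exact glue_contOn' hab hbc hcX hcX' hu
    cP := continuousOn_const
    cG := fun n => by
      have h1 := hcG n
      have h2 := hcG' n
      rw [sdiff_empty] at h1 h2 ⊢
      refine (glue_contOn' hab hbc h1 h2 (hG n)).congr fun t _ => ?_
      by_cases h1 : t ≤ b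
      · simp [h1]
      · simp [h1]
    bd := by
      obtain ⟨R, hR⟩ := h.bd
      obtain ⟨R', hR'⟩ := h'.bd
      refine ⟨max R R', fun t ht => ?_⟩
      rcases hcase2 t ht.1 with ⟨h1, h2⟩ | ⟨h1, h2⟩
      · have h3 := hR t ⟨h2, notMem_empty t⟩
        simp only [if_pos h1]
        exact ⟨h3.1.trans (le_max_left _ _), h3.2.1.trans (le_max_left _ _),
          fun n => (h3.2.2 n).trans (le_max_left _ _)⟩
      · have h3 := hR' t ⟨h2, notMem_empty t⟩
        simp only [if_neg h1]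
        exact ⟨h3.1.trans (le_max_right _ _), h3.2.1.trans (le_max_right _ _),
          fun n => (h3.2.2 n).trans (le_max_right _ _)⟩
    cm := fun t ht n => by
      rcases hcase2 t ht.1 with ⟨h1, h2⟩ | ⟨h1, h2⟩
      · simp only [if_pos h1]; exact h.cm t ⟨h2, notMem_empty t⟩ n
      · simp only [if_neg h1]; exact h'.cm t ⟨h2, notMem_empty t⟩ n
    z := h0.z
    sy := h0.sy
    eq := h0.eq
    eq' := h0.eq' }

end

end Pool.Agent.Lib.MP_79abb3_an.P25
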