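import Pool.Agent.Lib.MP_79abb3_an.P25.FlatScalar
import Pool.Agent.Lib.MP_79abb3_an.P25.LTops
import Pool.Agent.Lib.MP_79abb3_an.P25.SymA

/-!
P6-2: the linear step for families of modes.
-/

set_option autoImplicit false
set_option linter.unusedSectionVars false

open MeasureTheory Set Filter Topology Function

namespace Pool.Agent.Lib.MP_79abb3_an.P25

section
variable {H : ℝ} [hH : Fact (0 < H)]

/-- Uniqueness of derivatives. -/
private theorem IsD.unique {f f1 f2 : CI H} (h1 : IsD f f1) (h2 : IsD f f2) : f1 = f2 := by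
  apply ci_ext
  intro z hz
  exact (uniqueDiffOn_Icc hH.out z hz).eq_deriv _ (h1 z hz) (h2 z hz)

private theorem IsD.zero : IsD (0 : CI H) 0 := fun z _ => by
  have := hasDerivWithinAt_const z (Icc 0 H) (0:ℂ)
  exact this

private theorem IsD.csmul {f f1 : CI H} (h : IsD f f1) (c : ℂ) : IsD (c • f) (c • f1) := by
  intro z hz
  exact (h z hz).const_mul c

/-- Controlled scalar evolution. -/
structure Ev (T l K : ℝ) (f0 f1 : CI H) (F F' : ℝ → CI H) : Prop where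
  c : Continuous F
  c' : Continuous F'
  d : ∀ t ∈ Icc 0 T, IsD (F t) (F' t)
  z : ∀ t ∈ Icc 0 T, ex (F t) 0 = 0
  i : F 0 = f0
  e : F T = 0
  b : ∀ t ∈ Icc 0 l, ‖F t‖ ≤ K * ‖f0‖ ∧ ‖F' t‖ ≤ K * (‖f0‖ + ‖f1‖)
  b' : ∀ t ∈ Icc l T, ‖F t‖ ≤ ‖f0‖ * (K * Real.exp (K / l ^ 2)) ∧
    ‖F' t‖ ≤ ‖f0‖ * (K * Real.exp (K / l ^ 2))
  q : ∀ y ∈ Icc (0:ℝ) H, ∀ t1 ∈ Icc 0 T, ∀ t2 ∈ Icc t1 T,
    prim (F t2) y - prim (F t1) y = ∫ s in t1..t2, (ex (F' s) y - ex (F' s) 0)
  s : star f0 = f0 → ∀ t ∈ Icc 0 T, star (F t) = F t ∧ star (F' t) = F' t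

/-- A continuous function on a rectangle as a continuous function of time with values in `CI H`. -/
private theorem exists_curve {T : ℝ} (hT : 0 ≤ T) {f : ℝ → ℝ → ℝ}
    (hf : ContinuousOn (uncurry f) (Icc 0 T ×ˢ Icc 0 H)) :
    ∃ F : ℝ → CI H, Continuous F ∧ ∀ t ∈ Icc 0 T, ∀ z ∈ Icc 0 H, ex (F t) z = (f t z : ℂ) := by
  have hc : Continuous fun p : Icc (0:ℝ) T × Icc (0:ℝ) H => ((f p.1 p.2 : ℝ) : ℂ) := by
    refine Complex.continuous_ofReal.comp ?_
    have h1 : Continuous fun p : Icc (0:ℝ) T × Icc (0:ℝ) H => ((p.1 : ℝ), (p.2 : ℝ)) := by fun_prop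
    exact hf.comp_continuous h1 fun p => ⟨p.1.2, p.2.2⟩
  refine ⟨fun t => ContinuousMap.curry ⟨_, hc⟩ (projIcc 0 T hT t),
    (ContinuousMap.continuous _).comp continuous_projIcc, fun t ht z hz => ?_⟩
  have h2 : projIcc 0 T hT t = ⟨t, ht⟩ := projIcc_of_mem hT ht
  rw [ex_apply _ hz]
  simp only [h2]
  rfl

private theorem prim_of_real {f : CI H} {g : ℝ → ℝ} (h : ∀ z ∈ Icc 0 H, ex f z = (g z : ℂ)) {y : ℝ}
    (hy : y ∈ Icc (0:ℝ) H) : prim f y = ((∫ z in (0:ℝ)..y, g z : ℝ) : ℂ) := by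
  rw [prim, ← intervalIntegral.integral_ofReal]
  refine intervalIntegral.integral_congr fun z hz => ?_
  rw [uIcc_of_le hy.1] at hz
  exact h z ⟨hz.1, hz.2.trans hy.2⟩

private theorem star_of_real {f : CI H} {g : ℝ → ℝ} (h : ∀ z ∈ Icc 0 H, ex f z = (g z : ℂ)) :
    star f = f := by
  apply ci_ext
  intro z hz
  rw [ex_star, h z hz, Complex.star_def, Complex.conj_ofReal]

private theorem real_of_star {f : CI H} (h : star f = f) (z : ℝ) : ex f z = (((ex f z).re : ℝ) : ℂ) := by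
  have h1 : star (ex f z) = ex f z := by rw [← ex_star, h]
  rw [Complex.star_def] at h1
  exact (Complex.conj_eq_iff_re.1 h1).symm

theorem ev_real (hH1 : 1 ≤ H) : ∃ D K : ℝ, 1 ≤ D ∧ 1 ≤ K ∧ ∀ l ∈ Ioc (0:ℝ) 1, ∀ f0 f1 : CI H,
    star f0 = f0 → IsD f0 f1 → ex f0 0 = 0 →
    ∃ F F' : ℝ → CI H, Ev (l + l / D) l K f0 f1 F F' ∧
      ∀ t ∈ Icc 0 (l + l / D), star (F t) = F t ∧ star (F' t) = F' t := by
  obtain ⟨D, K, hD, hK, hfl⟩ := flat_scalar hH1
  refine ⟨D, K, hD, hK, fun l hl f0 f1 hs hd hz => ?_⟩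
  have hH0 := hH.out
  have hT : 0 ≤ l + l / D := by have := hl.1; positivity
  have hs1 : star f1 = f1 := by
    have h1 := hd.star
    rw [hs] at h1
    exact h1.unique hd
  obtain ⟨f, f', cf, cf', hfd, hf0, hfi, hfe, hfb, hfb', hfq⟩ := hfl l hl ‖f0‖ ‖f1‖
    (fun z => (ex f0 z).re) (fun z => (ex f1 z).re)
    (Complex.continuous_re.comp (continuous_ex f1)).continuousOn
    (fun z hz => by
      have := Complex.reCLM.hasFDerivAt.comp_hasDerivWithinAt z (hd z hz)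
      exact this)
    (by rw [hz]; rfl)
    (fun z _ => (Complex.abs_re_le_norm _).trans (norm_ex_le f0 z))
    (fun z _ => (Complex.abs_re_le_norm _).trans (norm_ex_le f1 z))
  obtain ⟨F, cF, hF⟩ := exists_curve hT cf
  obtain ⟨F', cF', hF'⟩ := exists_curve hT cf'
  have hlT : l ≤ l + l / D := by have := hl.1; have : 0 ≤ l / D := by positivity
                                 linarith
  have h0T : (0:ℝ) ∈ Icc 0 (l + l / D) := ⟨le_rfl, hT⟩
  have hTT : l + l / D ∈ Icc 0 (l + l / D) := ⟨hT, le_rfl⟩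
  have h0H : (0:ℝ) ∈ Icc 0 H := ⟨le_rfl, hH0.le⟩
  have hKe : 0 ≤ K * Real.exp (K / l ^ 2) := by positivity
  have hst : ∀ t ∈ Icc 0 (l + l / D), star (F t) = F t ∧ star (F' t) = F' t := fun t ht =>
    ⟨star_of_real (hF t ht), star_of_real (hF' t ht)⟩
  refine ⟨F, F', ⟨cF, cF', fun t ht => ?_, fun t ht => ?_, ?_, ?_, fun t ht => ?_, fun t ht => ?_,
    fun y hy t1 ht1 t2 ht2 => ?_, fun _ => hst⟩, hst⟩
  · intro z hz
    rw [hF' t ht z hz]
    exact (hfd t ht z hz).ofReal_comp.congr (fun y hy => hF t ht y hy) (hF t ht z hz)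
  · rw [hF t ht 0 h0H, hf0 t ht]; rfl
  · apply ci_ext
    intro z hz
    rw [hF 0 h0T z hz, hfi z hz, ← real_of_star hs z]
  · apply ci_ext
    intro z hz
    rw [hF _ hTT z hz, hfe z hz]; rfl
  · have ht' : t ∈ Icc 0 (l + l / D) := ⟨ht.1, ht.2.trans hlT⟩
    constructor
    · refine ci_norm_le (by positivity) fun z hz => ?_
      rw [hF t ht' z hz, Complex.norm_real]
      exact (hfb t ht z hz).1
    · refine ci_norm_le (by positivity) fun z hz => ?_
      rw [hF' t ht' z hz, Complex.norm_real]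
      exact (hfb t ht z hz).2
  · have ht' : t ∈ Icc 0 (l + l / D) := ⟨hl.1.le.trans ht.1, ht.2⟩
    constructor
    · refine ci_norm_le (by positivity) fun z hz => ?_
      rw [hF t ht' z hz, Complex.norm_real]
      exact (hfb' t ht z hz).1
    · refine ci_norm_le (by positivity) fun z hz => ?_
      rw [hF' t ht' z hz, Complex.norm_real]
      exact (hfb' t ht z hz).2
  · have ht2' : t2 ∈ Icc 0 (l + l / D) := ⟨ht1.1.trans ht2.1, ht2.2⟩
    rw [prim_of_real (hF t2 ht2') hy, prim_of_real (hF t1 ht1) hy, ← Complex.ofReal_sub,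
      hfq y hy t1 ht1 t2 ht2, ← intervalIntegral.integral_ofReal]
    refine intervalIntegral.integral_congr fun s hs' => ?_
    rw [uIcc_of_le ht2.1] at hs'
    have hs2 : s ∈ Icc 0 (l + l / D) := ⟨ht1.1.trans hs'.1, hs'.2.trans ht2.2⟩
    simp only [hF' s hs2 y hy, hF' s hs2 0 h0H, Complex.ofReal_sub]


private theorem prim_csmul (c : ℂ) (f : CI H) (y : ℝ) : prim (c • f) y = c * prim f y := by
  unfold prim
  rw [← intervalIntegral.integral_const_mul]
  rfl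

private theorem prim_star (f : CI H) (y : ℝ) : prim (star f) y = star (prim f y) := by
  unfold prim
  rw [Complex.star_def, ← intervalIntegral.intervalIntegral_conj]
  rfl

private theorem ci_csmul_zero (c : ℂ) : c • (0 : CI H) = 0 :=
  ci_ext fun z _ => by rw [ex_smul, ex_zero, mul_zero]

private theorem norm_star_CI (f : CI H) : ‖star f‖ = ‖f‖ := by
  refine le_antisymm (ci_norm_le (norm_nonneg _) fun z _ => ?_)
    (ci_norm_le (norm_nonneg _) fun z _ => ?_)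
  · rw [ex_star, norm_star]; exact norm_ex_le f z
  · have h := norm_ex_le (star f) z
    rwa [ex_star, norm_star] at h

private theorem IsD.cadd {f f1 g g1 : CI H} (h : IsD f f1) (h' : IsD g g1) : IsD (f + g) (f1 + g1) :=
  fun z hz => (h z hz).add (h' z hz)

private theorem continuous_exF {F : ℝ → CI H} (hF : Continuous F) (y : ℝ) :
    Continuous fun s => ex (F s) y := (evL y).continuous.comp hF

theorem ev_complex (hH1 : 1 ≤ H) : ∃ D K : ℝ, 1 ≤ D ∧ 1 ≤ K ∧ ∀ l ∈ Ioc (0:ℝ) 1, ∀ f0 f1 : CI H,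
    IsD f0 f1 → ex f0 0 = 0 → ∃ F F' : ℝ → CI H, Ev (l + l / D) l K f0 f1 F F' := by
  obtain ⟨D, K, hD, hK, hev⟩ := ev_real hH1
  refine ⟨D, 2 * K, hD, by linarith, fun l hl f0 f1 hd hz => ?_⟩
  have hl0 := hl.1
  have hT : 0 ≤ l + l / D := by positivity
  have hI : star Complex.I = -Complex.I := by rw [Complex.star_def, Complex.conj_I]
  -- decomposition
  have dec : ∀ f : CI H, f = (1 / 2 : ℂ) • (f + star f) +
      Complex.I • ((-Complex.I / 2 : ℂ) • (f - star f)) := fun f => by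
    apply ci_ext
    intro z _
    simp only [ex_add, ex_smul, ex_sub]
    linear_combination ((1 / 2) * (ex f z - ex (star f) z)) * Complex.I_sq
  have sa : ∀ f : CI H, star ((1 / 2 : ℂ) • (f + star f)) = (1 / 2 : ℂ) • (f + star f) := fun f => by
    apply ci_ext
    intro z _
    simp only [ex_star, ex_add, ex_smul, star_mul', star_add, star_star]
    have h2 : star (1 / 2 : ℂ) = 1 / 2 := by
      rw [Complex.star_def, map_div₀, map_one, Complex.conj_ofNat]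
    rw [h2]; ring
  have sb : ∀ f : CI H, star ((-Complex.I / 2 : ℂ) • (f - star f)) =
      (-Complex.I / 2 : ℂ) • (f - star f) := fun f => by
    apply ci_ext
    intro z _
    simp only [ex_star, ex_sub, ex_smul, star_mul', star_sub, star_star]
    have h2 : star (-Complex.I / 2 : ℂ) = Complex.I / 2 := by
      rw [Complex.star_def, map_div₀, map_neg, Complex.conj_I, Complex.conj_ofNat, neg_neg]
    rw [h2]; ring
  have na : ∀ f : CI H, ‖(1 / 2 : ℂ) • (f + star f)‖ ≤ ‖f‖ := fun f => by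
    rw [norm_smul]
    have h1 : ‖f + star f‖ ≤ ‖f‖ + ‖f‖ := (norm_add_le _ _).trans (by rw [norm_star_CI])
    have h2 : ‖(1 / 2 : ℂ)‖ = 1 / 2 := by norm_num
    rw [h2]; linarith
  have nb : ∀ f : CI H, ‖(-Complex.I / 2 : ℂ) • (f - star f)‖ ≤ ‖f‖ := fun f => by
    rw [norm_smul]
    have h1 : ‖f - star f‖ ≤ ‖f‖ + ‖f‖ := (norm_sub_le _ _).trans (by rw [norm_star_CI])
    have h2 : ‖(-Complex.I / 2 : ℂ)‖ = 1 / 2 := by
      rw [norm_div, norm_neg, Complex.norm_I]; norm_num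
    rw [h2]; linarith
  have hds := hd.star
  obtain ⟨A, A', eA, -⟩ := hev l hl ((1 / 2 : ℂ) • (f0 + star f0)) ((1 / 2 : ℂ) • (f1 + star f1))
    (sa f0) ((hd.cadd hds).csmul _) (by
      simp only [ex_smul, ex_add, ex_star, hz, star_zero, add_zero, mul_zero])
  obtain ⟨B, B', eB, -⟩ := hev l hl ((-Complex.I / 2 : ℂ) • (f0 - star f0))
    ((-Complex.I / 2 : ℂ) • (f1 - star f1))
    (sb f0) ((hd.sub hds).csmul _) (by
      simp only [ex_smul, ex_sub, ex_star, hz, star_zero, sub_zero, mul_zero])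
  have nI : ∀ f : CI H, ‖Complex.I • f‖ = ‖f‖ := fun f => by rw [norm_smul, Complex.norm_I, one_mul]
  have hf0 := norm_nonneg f0
  have hf1 := norm_nonneg f1
  refine ⟨fun t => A t + Complex.I • B t, fun t => A' t + Complex.I • B' t,
    ⟨eA.c.add (Continuous.const_smul eB.c Complex.I),
      eA.c'.add (Continuous.const_smul eB.c' Complex.I), fun t ht => ?_, fun t ht => ?_,
      ?_, ?_, fun t ht => ?_, fun t ht => ?_, fun y hy t1 ht1 t2 ht2 => ?_, fun hs t ht => ?_⟩⟩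
  · exact (eA.d t ht).cadd ((eB.d t ht).csmul _)
  · simp only [ex_add, ex_smul, eA.z t ht, eB.z t ht, mul_zero, add_zero]
  · simp only [eA.i, eB.i]
    exact (dec f0).symm
  · simp only [eA.e, eB.e, ci_csmul_zero, add_zero]
  · obtain ⟨a1, a2⟩ := eA.b t ht
    obtain ⟨b1, b2⟩ := eB.b t ht
    constructor
    · refine (norm_add_le _ _).trans ?_
      rw [nI]
      calc ‖A t‖ + ‖B t‖ ≤ K * ‖f0‖ + K * ‖f0‖ := by
            refine add_le_add (a1.trans ?_) (b1.trans ?_)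
            · gcongr; exact na f0
            · gcongr; exact nb f0
        _ = 2 * K * ‖f0‖ := by ring
    · refine (norm_add_le _ _).trans ?_
      rw [nI]
      calc ‖A' t‖ + ‖B' t‖ ≤ K * (‖f0‖ + ‖f1‖) + K * (‖f0‖ + ‖f1‖) := by
            refine add_le_add (a2.trans ?_) (b2.trans ?_)
            · gcongr
              · exact na f0
              · exact na f1
            · gcongr
              · exact nb f0
              · exact nb f1
        _ = 2 * K * (‖f0‖ + ‖f1‖) := by ring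
  · obtain ⟨a1, a2⟩ := eA.b' t ht
    obtain ⟨b1, b2⟩ := eB.b' t ht
    have hKe : 0 ≤ K * Real.exp (K / l ^ 2) := by positivity
    have hexp : Real.exp (K / l ^ 2) ≤ Real.exp (2 * K / l ^ 2) := by
      apply Real.exp_le_exp.2
      gcongr
      linarith
    have hfin : ‖f0‖ * (K * Real.exp (K / l ^ 2)) + ‖f0‖ * (K * Real.exp (K / l ^ 2)) ≤
        ‖f0‖ * (2 * K * Real.exp (2 * K / l ^ 2)) := by
      calc _ = ‖f0‖ * (2 * K * Real.exp (K / l ^ 2)) := by ring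
        _ ≤ _ := by gcongr
    constructor
    · refine (norm_add_le _ _).trans ?_
      rw [nI]
      refine (add_le_add (a1.trans ?_) (b1.trans ?_)).trans hfin
      · gcongr; exact na f0
      · gcongr; exact nb f0
    · refine (norm_add_le _ _).trans ?_
      rw [nI]
      refine (add_le_add (a2.trans ?_) (b2.trans ?_)).trans hfin
      · gcongr; exact na f0
      · gcongr; exact nb f0
  · have h1 := eA.q y hy t1 ht1 t2 ht2
    have h2 := eB.q y hy t1 ht1 t2 ht2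
    simp only [prim_add, prim_csmul, ex_add, ex_smul]
    have h3 : (∫ s in t1..t2, (ex (A' s) y + Complex.I * ex (B' s) y -
        (ex (A' s) 0 + Complex.I * ex (B' s) 0))) =
        (∫ s in t1..t2, (ex (A' s) y - ex (A' s) 0)) +
          Complex.I * ∫ s in t1..t2, (ex (B' s) y - ex (B' s) 0) := by
      rw [← intervalIntegral.integral_const_mul, ← intervalIntegral.integral_add]
      · refine intervalIntegral.integral_congr fun s _ => ?_
        ring
      · exact (Continuous.sub (continuous_exF eA.c' y)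
          (continuous_exF eA.c' 0)).intervalIntegrable _ _
      · exact (continuous_const.mul (Continuous.sub (continuous_exF eB.c' y)
          (continuous_exF eB.c' 0))).intervalIntegrable _ _
    rw [h3, ← h1, ← h2]
    ring
  · have hs1 : star f1 = f1 := by
      have h1 := hd.star
      rw [hs] at h1
      exact h1.unique hd
    have hb0 : (-Complex.I / 2 : ℂ) • (f0 - star f0) = 0 := by rw [hs, sub_self, smul_zero]
    have hb1 : (-Complex.I / 2 : ℂ) • (f1 - star f1) = 0 := by rw [hs1, sub_self, smul_zero]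
    have hB : B t = 0 ∧ B' t = 0 := by
      rcases le_total t l with h | h
      · obtain ⟨b1, b2⟩ := eB.b t ⟨ht.1, h⟩
        rw [hb0, norm_zero, mul_zero] at b1
        rw [hb0, hb1, norm_zero, add_zero, mul_zero] at b2
        exact ⟨norm_le_zero_iff.1 b1, norm_le_zero_iff.1 b2⟩
      · obtain ⟨b1, b2⟩ := eB.b' t ⟨h, ht.2⟩
        rw [hb0, norm_zero, zero_mul] at b1 b2
        exact ⟨norm_le_zero_iff.1 b1, norm_le_zero_iff.1 b2⟩
    obtain ⟨s1, s2⟩ := eA.s (sa f0) t ht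
    simp only [hB.1, hB.2, ci_csmul_zero, add_zero, s1, s2, and_self]

theorem Ev.star {T l K : ℝ} {f0 f1 : CI H} {F F' : ℝ → CI H} (h : Ev T l K f0 f1 F F') :
    Ev T l K (Star.star f0) (Star.star f1) (fun t => Star.star (F t)) (fun t => Star.star (F' t)) := by
  refine ⟨h.c.star, h.c'.star, fun t ht => (h.d t ht).star, fun t ht => ?_, ?_, ?_, fun t ht => ?_,
    fun t ht => ?_, fun y hy t1 ht1 t2 ht2 => ?_, fun hs t ht => ?_⟩
  · rw [ex_star, h.z t ht, star_zero]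
  · simp only [h.i]
  · simp only [h.e, star_zero]
  · simp only [norm_star_CI]; exact h.b t ht
  · simp only [norm_star_CI]; exact h.b' t ht
  · have h1 := h.q y hy t1 ht1 t2 ht2
    rw [prim_star, prim_star, ← star_sub, h1, Complex.star_def,
      ← intervalIntegral.intervalIntegral_conj]
    refine intervalIntegral.integral_congr fun s _ => ?_
    rw [map_sub]
    rfl
  · rw [star_star] at hs
    obtain ⟨s1, s2⟩ := h.s hs.symm t ht
    simp only [s1, s2, and_self]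

theorem Ev.zero {T l K : ℝ} {F F' : ℝ → CI H} (h : Ev T l K 0 0 F F') {t : ℝ}
    (ht : t ∈ Icc 0 T) : F t = 0 ∧ F' t = 0 := by
  rcases le_total t l with hl | hl
  · obtain ⟨b1, b2⟩ := h.b t ⟨ht.1, hl⟩
    rw [norm_zero, mul_zero] at b1
    rw [norm_zero, add_zero, mul_zero] at b2
    exact ⟨norm_le_zero_iff.1 b1, norm_le_zero_iff.1 b2⟩
  · obtain ⟨b1, b2⟩ := h.b' t ⟨hl, ht.2⟩
    rw [norm_zero, zero_mul] at b1 b2
    exact ⟨norm_le_zero_iff.1 b1, norm_le_zero_iff.1 b2⟩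

/-- Families. -/
theorem ev_family (hH1 : 1 ≤ H) : ∃ D K : ℝ, 1 ≤ D ∧ 1 ≤ K ∧ ∀ l ∈ Ioc (0:ℝ) 1,
    ∀ f0 f1 : ℤ → CI H, (∀ n, IsD (f0 n) (f1 n)) → (∀ n, ex (f0 n) 0 = 0) →
      (∀ n, f0 (-n) = star (f0 n)) → ∃ F F' : ℤ → ℝ → CI H,
        (∀ n, Ev (l + l / D) l K (f0 n) (f1 n) (F n) (F' n)) ∧
        ∀ n, ∀ t ∈ Icc 0 (l + l / D), F (-n) t = star (F n t) ∧ F' (-n) t = star (F' n t) := by
  obtain ⟨D, K, hD, hK, hev⟩ := ev_complex hH1
  refine ⟨D, K, hD, hK, fun l hl f0 f1 hd hz hs => ?_⟩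
  have hs1 : ∀ n, f1 (-n) = star (f1 n) := fun n => by
    have h1 := hd (-n)
    rw [hs n] at h1
    exact h1.unique (hd n).star
  choose F F' hF using fun n => hev l hl (f0 n) (f1 n) (hd n) (hz n)
  refine ⟨fun n => if 0 ≤ n then F n else fun t => star (F (-n) t),
    fun n => if 0 ≤ n then F' n else fun t => star (F' (-n) t), fun n => ?_, fun n t ht => ?_⟩
  · by_cases h : 0 ≤ n
    · simp only [h, if_true]
      exact hF n
    · simp only [h, if_false]
      have h1 := (hF (-n)).star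
      rwa [← hs, ← hs1, neg_neg] at h1
  · rcases lt_trichotomy n 0 with h | h | h
    · have h1 : ¬ 0 ≤ n := not_le.2 h
      have h2 : 0 ≤ -n := by omega
      simp only [h1, h2, if_true, if_false, star_star, and_self]
    · subst h
      have h3 : star (f0 0) = f0 0 := by
        have := hs 0
        rw [neg_zero] at this
        exact this.symm
      obtain ⟨s1, s2⟩ := (hF 0).s h3 t ht
      simp only [neg_zero, le_refl, if_true, s1, s2, and_self]
    · have h1 : 0 ≤ n := h.le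
      have h2 : ¬ 0 ≤ -n := by omega
      simp only [h1, h2, if_true, if_false, neg_neg, and_self]

/-- One component of the integrated equation. -/
theorem Ev.rh {T l K : ℝ} {f0 f1 : CI H} {F F' : ℝ → CI H} (h : Ev T l K f0 f1 F F') (k : ℝ)
    {y : ℝ} (hy : y ∈ Icc (0:ℝ) H) {t1 : ℝ} (ht1 : t1 ∈ Icc 0 T) {t2 : ℝ} (ht2 : t2 ∈ Icc t1 T) :
    prim (Real.exp (-k ^ 2 * t2) • F t2) y - prim (Real.exp (-k ^ 2 * t1) • F t1) y =
      ∫ s in t1..t2, P25.rh k (Real.exp (-k ^ 2 * s) • F s) (Real.exp (-k ^ 2 * s) • F' s) 0 y := by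
  have cψ : Continuous fun s => ex (F' s) y - ex (F' s) 0 :=
    (continuous_exF h.c' y).sub (continuous_exF h.c' 0)
  set Φ : ℝ → ℂ := fun t => prim (F t1) y + ∫ s in t1..t, (ex (F' s) y - ex (F' s) 0) with hΦ
  have dΦ : ∀ t, HasDerivAt Φ (ex (F' t) y - ex (F' t) 0) t := fun t => by
    have h1 := intervalIntegral.integral_hasDerivAt_right (cψ.intervalIntegrable t1 t)
      (cψ.stronglyMeasurableAtFilter _ _) cψ.continuousAt
    exact h1.const_add _
  have eΦ : ∀ t ∈ Icc t1 T, Φ t = prim (F t) y := fun t ht => by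
    have h1 := h.q y hy t1 ht1 t ht
    simp only [hΦ]
    rw [← h1]; ring
  have cΦ : Continuous Φ := continuous_iff_continuousAt.2 fun t => (dΦ t).continuousAt
  have dE : ∀ t, HasDerivAt (fun t => ((Real.exp (-k ^ 2 * t) : ℝ) : ℂ) * Φ t)
      (((Real.exp (-k ^ 2 * t) * (-k ^ 2) : ℝ) : ℂ) * Φ t +
        ((Real.exp (-k ^ 2 * t) : ℝ) : ℂ) * (ex (F' t) y - ex (F' t) 0)) t := fun t => by
    have h1 : HasDerivAt (fun t : ℝ => Real.exp (-k ^ 2 * t)) (Real.exp (-k ^ 2 * t) * (-k ^ 2)) t := by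
      have h2 : HasDerivAt (fun t : ℝ => -k ^ 2 * t) (-k ^ 2) t := by
        simpa using (hasDerivAt_id t).const_mul (-k ^ 2)
      exact h2.exp
    exact h1.ofReal_comp.mul (dΦ t)
  have ce : Continuous fun t : ℝ => Real.exp (-k ^ 2 * t) := by fun_prop
  have cD : Continuous fun t => ((Real.exp (-k ^ 2 * t) * (-k ^ 2) : ℝ) : ℂ) * Φ t +
        ((Real.exp (-k ^ 2 * t) : ℝ) : ℂ) * (ex (F' t) y - ex (F' t) 0) :=
    ((Complex.continuous_ofReal.comp (ce.mul continuous_const)).mul cΦ).add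
      ((Complex.continuous_ofReal.comp ce).mul cψ)
  have key := intervalIntegral.integral_eq_sub_of_hasDerivAt (fun t _ => dE t)
    (cD.intervalIntegrable t1 t2)
  rw [prim_smul, prim_smul, ← eΦ t2 ht2, ← eΦ t1 ⟨le_rfl, ht2.1.trans ht2.2⟩, ← key]
  refine intervalIntegral.integral_congr fun s hs => ?_
  rw [uIcc_of_le ht2.1] at hs
  have h0 : prim (0 : CI H) y = 0 := by simp [prim]
  simp only [P25.rh, ex_rsmul, prim_smul, h0, eΦ s ⟨hs.1, hs.2.trans ht2.2⟩]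
  push_cast
  ring

/-- One component with derivatives. -/
noncomputable def w3 (k τ : ℝ) (f f' : CI H) : CI H × CI H × CI H :=
  (Real.exp (-k ^ 2 * τ) • f, Real.exp (-k ^ 2 * τ) • f', |k| • (Real.exp (-k ^ 2 * τ) • f))

private theorem ci_rsmul_zero (c : ℝ) : c • (0 : CI H) = 0 :=
  ci_ext fun z _ => by rw [ex_rsmul, ex_zero, mul_zero]

private theorem ci_one_rsmul (f : CI H) : (1:ℝ) • f = f :=
  ci_ext fun z _ => by rw [ex_rsmul, Complex.ofReal_one, one_mul]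

theorem w3_zero (k τ : ℝ) : w3 k τ (0 : CI H) 0 = 0 := by
  rw [w3, ci_rsmul_zero, ci_rsmul_zero]; rfl

theorem w3_time0 (k : ℝ) (f f' : CI H) : w3 k 0 f f' = (f, f', |k| • f) := by
  rw [w3, mul_zero, Real.exp_zero, ci_one_rsmul, ci_one_rsmul]

theorem w3_star (k τ : ℝ) (f f' : CI H) : w3 (-k) τ (star f) (star f') = star (w3 k τ f f') := by
  rw [w3, w3, neg_sq, abs_neg]
  simp only [Prod.star_def, star_rsmul_CI]

theorem w3_cont {k : ℝ} {F F' : ℝ → CI H} (hF : Continuous F) (hF' : Continuous F') :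
    Continuous fun τ => w3 k τ (F τ) (F' τ) := by
  have ce : Continuous fun τ : ℝ => Real.exp (-k ^ 2 * τ) := by fun_prop
  exact (ce.smul hF).prodMk ((ce.smul hF').prodMk ((ce.smul hF).const_smul |k|))

theorem norm_w3_le {k τ A : ℝ} {f f' : CI H} (h1 : Real.exp (-k ^ 2 * τ) * ‖f‖ ≤ A)
    (h2 : Real.exp (-k ^ 2 * τ) * ‖f'‖ ≤ A) (h3 : Real.exp (-k ^ 2 * τ) * |k| * ‖f‖ ≤ A) :
    ‖w3 k τ f f'‖ ≤ A := by
  have he0 := Real.exp_pos (-k ^ 2 * τ)
  rw [w3, Prod.norm_mk, Prod.norm_mk, norm_smul, norm_smul, norm_smul, norm_smul, Real.norm_eq_abs,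
    Real.norm_eq_abs, abs_of_pos he0, abs_abs]
  refine max_le h1 (max_le h2 ?_)
  calc |k| * (Real.exp (-k ^ 2 * τ) * ‖f‖) = Real.exp (-k ^ 2 * τ) * |k| * ‖f‖ := by ring
    _ ≤ A := h3

theorem w3_small {k τ K : ℝ} (hK : 1 ≤ K) (hτ : 0 ≤ τ) {f f' f0 f1 : CI H} (h : ‖f‖ ≤ K * ‖f0‖)
    (h' : ‖f'‖ ≤ K * (‖f0‖ + ‖f1‖)) : ‖w3 k τ f f'‖ ≤ 2 * K * ‖((f0, f1, |k| • f0) : CI H × CI H × CI H)‖ := by
  have he0 := Real.exp_pos (-k ^ 2 * τ)
  have he : Real.exp (-k ^ 2 * τ) ≤ 1 := by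
    rw [Real.exp_le_one_iff]; nlinarith [sq_nonneg k]
  set N := ‖((f0, f1, |k| • f0) : CI H × CI H × CI H)‖ with hN
  have n0 : ‖f0‖ ≤ N := norm_fst_le ((f0, f1, |k| • f0) : CI H × CI H × CI H)
  have nn : ‖((f1, |k| • f0) : CI H × CI H)‖ ≤ N :=
    norm_snd_le ((f0, f1, |k| • f0) : CI H × CI H × CI H)
  have n1 : ‖f1‖ ≤ N := (norm_fst_le ((f1, |k| • f0) : CI H × CI H)).trans nn
  have n2 : |k| * ‖f0‖ ≤ N := by
    have h1 : ‖|k| • f0‖ ≤ N := (norm_snd_le ((f1, |k| • f0) : CI H × CI H)).trans nn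
    rwa [norm_smul, Real.norm_eq_abs, abs_abs] at h1
  have hN0 : 0 ≤ N := norm_nonneg _
  have hk := abs_nonneg k
  have hf := norm_nonneg f
  refine norm_w3_le ?_ ?_ ?_
  · calc Real.exp (-k ^ 2 * τ) * ‖f‖ ≤ 1 * (K * ‖f0‖) := by gcongr
      _ ≤ K * N := by rw [one_mul]; gcongr
      _ ≤ 2 * K * N := by nlinarith [mul_nonneg (by linarith : (0:ℝ) ≤ K) hN0]
  · calc Real.exp (-k ^ 2 * τ) * ‖f'‖ ≤ 1 * (K * (‖f0‖ + ‖f1‖)) := by gcongr
      _ ≤ K * (N + N) := by rw [one_mul]; gcongr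
      _ = 2 * K * N := by ring
  · calc Real.exp (-k ^ 2 * τ) * |k| * ‖f‖ ≤ 1 * |k| * (K * ‖f0‖) := by gcongr
      _ = K * (|k| * ‖f0‖) := by ring
      _ ≤ K * N := by gcongr
      _ ≤ 2 * K * N := by nlinarith [mul_nonneg (by linarith : (0:ℝ) ≤ K) hN0]

theorem w3_large {k τ l M : ℝ} (hM : 0 ≤ M) (hl : l ∈ Ioc (0:ℝ) 1) (hτ : l ≤ τ) {f f' f0 : CI H}
    (h : ‖f‖ ≤ ‖f0‖ * M) (h' : ‖f'‖ ≤ ‖f0‖ * M) :
    ‖w3 k τ f f'‖ ≤ M * Real.exp (1 / l ^ 2) * ‖f0‖ := by
  have hl0 := hl.1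
  have hτ0 : 0 < τ := hl0.trans_le hτ
  have he0 := Real.exp_pos (-k ^ 2 * τ)
  have he : Real.exp (-k ^ 2 * τ) ≤ 1 := by
    rw [Real.exp_le_one_iff]; nlinarith [sq_nonneg k]
  have hE : 1 ≤ Real.exp (1 / l ^ 2) := Real.one_le_exp (by positivity)
  have hs : (√τ)⁻¹ ≤ Real.exp (1 / l ^ 2) := by
    have h1 : l ^ 2 ≤ √τ := by
      rw [Real.le_sqrt (by positivity) hτ0.le]
      calc (l ^ 2) ^ 2 = l * l ^ 3 := by ring
        _ ≤ l * 1 := by gcongr; exact pow_le_one₀ hl0.le hl.2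
        _ ≤ τ := by rw [mul_one]; exact hτ
    calc (√τ)⁻¹ ≤ (l ^ 2)⁻¹ := by gcongr
      _ = 1 / l ^ 2 := by rw [one_div]
      _ ≤ 1 / l ^ 2 + 1 := by linarith
      _ ≤ Real.exp (1 / l ^ 2) := Real.add_one_le_exp _
  have hk := exp_sq_le k hτ0
  have hf0 := norm_nonneg f0
  have hfM : 0 ≤ ‖f0‖ * M := by positivity
  have hle : ‖f0‖ * M ≤ M * Real.exp (1 / l ^ 2) * ‖f0‖ := by
    calc ‖f0‖ * M = M * 1 * ‖f0‖ := by ring
      _ ≤ _ := by gcongr
  refine norm_w3_le ?_ ?_ ?_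
  · calc Real.exp (-k ^ 2 * τ) * ‖f‖ ≤ 1 * (‖f0‖ * M) := by gcongr
      _ ≤ _ := by rw [one_mul]; exact hle
  · calc Real.exp (-k ^ 2 * τ) * ‖f'‖ ≤ 1 * (‖f0‖ * M) := by gcongr
      _ ≤ _ := by rw [one_mul]; exact hle
  · calc Real.exp (-k ^ 2 * τ) * |k| * ‖f‖ ≤ Real.exp (1 / l ^ 2) * (‖f0‖ * M) := by
          gcongr
          exact hk.trans hs
      _ = _ := by ring

end

theorem lin_step {H : ℝ} [Fact (0 < H)] (hH : 1 ≤ H) : ∃ D K : ℝ, 1 ≤ D ∧ 1 ≤ K ∧
    ∀ (ω l : ℝ) (x0 : L1 (Xn H)), l ∈ Ioc (0:ℝ) 1 → (∀ n : ℤ, Cmode (ω * n) (x0 n)) → Sy x0 →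
      ∃ U : ℝ → L1 (Xn H), LT ω 0 (l + l / D) ∅ (fun _ => 0) (fun _ _ => 0) U ∧
        (∀ t ∈ Icc 0 (l + l / D), Sy (U t)) ∧ U 0 = x0 ∧ U (l + l / D) = 0 ∧
        (∀ t ∈ Icc 0 l, ‖U t‖ ≤ K * ‖x0‖ ∧ ‖jL H (U t)‖ ≤ K * ‖jL H x0‖) ∧
        (∀ t ∈ Icc l (l + l / D), ‖U t‖ ≤ K * Real.exp (K / l ^ 2) * ‖jL H x0‖) ∧
        ((∀ n, (x0 n).2 = 0) → ∀ t ∈ Icc 0 (l + l / D), ∀ n, (U t n).2 = 0) := by
  obtain ⟨D, K, hD, hK, hfam⟩ := ev_family hH
  refine ⟨D, 2 * K + 1, hD, by linarith, fun ω l x0 hl hc hs => ?_⟩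
  have hl0 := hl.1
  have hT : 0 ≤ l + l / D := by positivity
  have hlT : l ≤ l + l / D := by have : 0 ≤ l / D := by positivity
                                 linarith
  obtain ⟨F, F', hF, sF⟩ := hfam l hl (fun n => (x0 n).1.1) (fun n => (x0 n).1.2.1)
    (fun n => (hc n).d1) (fun n => (hc n).z1) (fun n => by simp only [hs n]; rfl)
  obtain ⟨G, G', hG, sG⟩ := hfam l hl (fun n => (x0 n).2.1) (fun n => (x0 n).2.2.1)
    (fun n => (hc n).d2) (fun n => (hc n).z2) (fun n => by simp only [hs n]; rfl)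
  have hx1 : ∀ n : ℤ, (x0 n).1 = ((x0 n).1.1, (x0 n).1.2.1, |ω * n| • (x0 n).1.1) := fun n => by
    rw [← (hc n).e1]
  have hx2 : ∀ n : ℤ, (x0 n).2 = ((x0 n).2.1, (x0 n).2.2.1, |ω * n| • (x0 n).2.1) := fun n => by
    rw [← (hc n).e2]
  set w : ℤ → ℝ → Xn H := fun n τ => (w3 (ω * n) τ (F n τ) (F' n τ), w3 (ω * n) τ (G n τ) (G' n τ))
    with hw
  have hK0 : 0 ≤ K := by linarith
  have hb1 : ∀ n : ℤ, ∀ τ ∈ Icc 0 l, ‖w n τ‖ ≤ 2 * K * ‖x0 n‖ := fun n τ hτ => by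
    obtain ⟨a1, a2⟩ := (hF n).b τ hτ
    obtain ⟨b1, b2⟩ := (hG n).b τ hτ
    refine max_le ((w3_small (k := ω * n) hK hτ.1 a1 a2).trans ?_)
      ((w3_small (k := ω * n) hK hτ.1 b1 b2).trans ?_)
    · rw [← hx1 n]
      gcongr
      exact norm_fst_le _
    · rw [← hx2 n]
      gcongr
      exact norm_snd_le _
  have hb1' : ∀ n : ℤ, ∀ τ ∈ Icc 0 l, ‖jn (w n τ)‖ ≤ K * ‖jn (x0 n)‖ := fun n τ hτ => by
    obtain ⟨a1, -⟩ := (hF n).b τ hτ
    obtain ⟨b1, -⟩ := (hG n).b τ hτ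
    have he0 := Real.exp_pos (-(ω * n) ^ 2 * τ)
    have he : Real.exp (-(ω * n) ^ 2 * τ) ≤ 1 := by
      rw [Real.exp_le_one_iff]; nlinarith [sq_nonneg (ω * n), hτ.1]
    have key : ∀ f f0 : CI H, ‖f‖ ≤ K * ‖f0‖ → ‖f0‖ ≤ ‖jn (x0 n)‖ →
        ‖Real.exp (-(ω * n) ^ 2 * τ) • f‖ ≤ K * ‖jn (x0 n)‖ := fun f f0 h1 h2 => by
      rw [norm_smul, Real.norm_eq_abs, abs_of_pos he0]
      calc Real.exp (-(ω * n) ^ 2 * τ) * ‖f‖ ≤ 1 * (K * ‖f0‖) := by gcongr
        _ ≤ _ := by rw [one_mul]; gcongr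
    exact max_le (key _ _ a1 (norm_fst_le (jn (x0 n)))) (key _ _ b1 (norm_snd_le (jn (x0 n))))
  have hb2 : ∀ n : ℤ, ∀ τ ∈ Icc l (l + l / D),
      ‖w n τ‖ ≤ K * Real.exp (K / l ^ 2) * Real.exp (1 / l ^ 2) * ‖jn (x0 n)‖ := fun n τ hτ => by
    obtain ⟨a1, a2⟩ := (hF n).b' τ hτ
    obtain ⟨b1, b2⟩ := (hG n).b' τ hτ
    refine max_le ((w3_large (k := ω * n) (by positivity) hl hτ.1 a1 a2).trans ?_)
      ((w3_large (k := ω * n) (by positivity) hl hτ.1 b1 b2).trans ?_)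
    · gcongr
      exact norm_fst_le (jn (x0 n))
    · gcongr
      exact norm_snd_le (jn (x0 n))
  set M := K * Real.exp (K / l ^ 2) * Real.exp (1 / l ^ 2) with hM
  have hM0 : 0 ≤ M := by positivity
  have hb : ∀ n : ℤ, ∀ τ ∈ Icc 0 (l + l / D), ‖w n τ‖ ≤ (2 * K + M) * ‖x0 n‖ := fun n τ hτ => by
    have hx := norm_nonneg (x0 n)
    rcases le_total τ l with h | h
    · refine (hb1 n τ ⟨hτ.1, h⟩).trans ?_
      gcongr
      linarith
    · refine (hb2 n τ ⟨h, hτ.2⟩).trans ?_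
      calc M * ‖jn (x0 n)‖ ≤ M * ‖x0 n‖ := by gcongr; exact norm_jn_le _
        _ ≤ _ := by gcongr; linarith
  have hsx := l1_summable x0
  have hsum : ∀ t : ℝ, Summable fun n => ‖w n (projIcc 0 (l + l / D) hT t)‖ := fun t =>
    Summable.of_nonneg_of_le (fun n => norm_nonneg _)
      (fun n => hb n _ (projIcc 0 (l + l / D) hT t).2) (hsx.mul_left (2 * K + M))
  set U : ℝ → L1 (Xn H) := fun t => mkL1 (fun n => w n (projIcc 0 (l + l / D) hT t)) (hsum t) with hU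
  have cw : ∀ n, Continuous (w n) := fun n =>
    (w3_cont (hF n).c (hF n).c').prodMk (w3_cont (hG n).c (hG n).c')
  have cU : Continuous U := continuous_iff_continuousAt.2 fun t =>
    tendsto_L1 (hsx.mul_left (2 * K + M))
      (Eventually.of_forall fun s n => hb n _ (projIcc 0 (l + l / D) hT s).2)
      (fun n => hb n _ (projIcc 0 (l + l / D) hT t).2)
      (fun n => (((cw n).comp (continuous_subtype_val.comp continuous_projIcc)).tendsto t))
  have eU : ∀ t ∈ Icc 0 (l + l / D), ∀ n, U t n = w n t := fun t ht n => by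
    simp only [hU, mkL1_apply, projIcc_of_mem hT ht]
  have h0T : (0:ℝ) ∈ Icc 0 (l + l / D) := ⟨le_rfl, hT⟩
  have hTT : l + l / D ∈ Icc 0 (l + l / D) := ⟨hT, le_rfl⟩
  have SU : ∀ t ∈ Icc 0 (l + l / D), Sy (U t) := fun t ht n => by
    rw [eU t ht, eU t ht]
    have hk : ω * ((-n : ℤ) : ℝ) = -(ω * n) := by push_cast; ring
    simp only [hw, (sF n t ht).1, (sF n t ht).2, (sG n t ht).1, (sG n t ht).2, hk, w3_star]
    rfl
  refine ⟨U, ⟨countable_empty, ((jL H).continuous.comp cU).continuousOn, cU.continuousOn,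
    continuousOn_const, fun _ => continuousOn_const, ⟨(2 * K + M) * ‖x0‖, fun t ht => ⟨?_, ?_, ?_⟩⟩,
    fun t ht n => ?_, fun t ht n => ?_, fun t ht n => ?_, fun n y hy t1 ht1 t2 ht2 => ?_,
    fun n y hy t1 ht1 t2 ht2 => ?_⟩, SU, ?_, ?_, fun t ht => ⟨?_, ?_⟩, fun t ht => ?_,
    fun h0 t ht n => ?_⟩
  · rw [abs_zero]; positivity
  · rw [l1_norm, l1_norm, ← tsum_mul_left]
    exact Summable.tsum_le_tsum (fun n => hb n _ (projIcc 0 (l + l / D) hT t).2) (hsum t)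
      (hsx.mul_left _)
  · intro n
    rw [norm_zero]; positivity
  · have ht' := ht.1
    rw [eU t ht' n]
    exact ⟨((hF n).d t ht').rsmul _, ((hG n).d t ht').rsmul _, rfl, rfl,
      by simp only [hw, w3, ex_rsmul, (hF n).z t ht', mul_zero],
      by simp only [hw, w3, ex_rsmul, (hG n).z t ht', mul_zero]⟩
  · rw [eU t ht n]
    exact ⟨by simp only [hw, w3, ex_rsmul, (hF n).z t ht, mul_zero],
      by simp only [hw, w3, ex_rsmul, (hG n).z t ht, mul_zero]⟩
  · change jn (U t (-n)) = star (jn (U t n))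
    rw [SU t ht n]
    rfl
  · have ht2' : t2 ∈ Icc 0 (l + l / D) := ⟨ht1.1.trans ht2.1, ht2.2⟩
    rw [eU t2 ht2' n, eU t1 ht1 n]
    have h1 := (hF n).rh (ω * n) hy ht1 ht2
    refine h1.trans ?_
    refine intervalIntegral.integral_congr fun s hs' => ?_
    rw [uIcc_of_le ht2.1] at hs'
    have hs2 : s ∈ Icc 0 (l + l / D) := ⟨ht1.1.trans hs'.1, hs'.2.trans ht2.2⟩
    simp only [eU s hs2 n, zero_mul, Complex.ofReal_zero, ite_self, add_zero]
    rfl
  · have ht2' : t2 ∈ Icc 0 (l + l / D) := ⟨ht1.1.trans ht2.1, ht2.2⟩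
    rw [eU t2 ht2' n, eU t1 ht1 n]
    have h1 := (hG n).rh (ω * n) hy ht1 ht2
    refine h1.trans ?_
    refine intervalIntegral.integral_congr fun s hs' => ?_
    rw [uIcc_of_le ht2.1] at hs'
    have hs2 : s ∈ Icc 0 (l + l / D) := ⟨ht1.1.trans hs'.1, hs'.2.trans ht2.2⟩
    simp only [eU s hs2 n]
    rfl
  · -- initial value
    refine lp.ext (funext fun n => ?_)
    rw [eU 0 h0T n]
    have f1 : F' n 0 = (x0 n).1.2.1 := by
      have := (hF n).d 0 h0T
      rw [(hF n).i] at this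
      exact this.unique (hc n).d1
    have g1 : G' n 0 = (x0 n).2.2.1 := by
      have := (hG n).d 0 h0T
      rw [(hG n).i] at this
      exact this.unique (hc n).d2
    simp only [hw, w3_time0, (hF n).i, (hG n).i, f1, g1]
    exact Prod.ext (hx1 n).symm (hx2 n).symm
  · refine lp.ext (funext fun n => ?_)
    rw [eU _ hTT n]
    have f1 : F' n (l + l / D) = 0 := by
      have := (hF n).d _ hTT
      rw [(hF n).e] at this
      exact this.unique IsD.zero
    have g1 : G' n (l + l / D) = 0 := by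
      have := (hG n).d _ hTT
      rw [(hG n).e] at this
      exact this.unique IsD.zero
    simp only [hw, (hF n).e, (hG n).e, f1, g1, w3_zero]
    rfl
  · have ht' : t ∈ Icc 0 (l + l / D) := ⟨ht.1, ht.2.trans hlT⟩
    rw [l1_norm, l1_norm, ← tsum_mul_left]
    refine Summable.tsum_le_tsum (fun n => ?_) (hsum t) (hsx.mul_left _)
    rw [eU t ht' n]
    refine (hb1 n t ht).trans ?_
    gcongr
    linarith
  · have ht' : t ∈ Icc 0 (l + l / D) := ⟨ht.1, ht.2.trans hlT⟩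
    rw [l1_norm, l1_norm, ← tsum_mul_left]
    refine Summable.tsum_le_tsum (fun n => ?_) (l1_summable _) ((l1_summable _).mul_left _)
    rw [jL_apply, jL_apply, eU t ht' n]
    refine (hb1' n t ht).trans ?_
    gcongr
    linarith
  · have ht' : t ∈ Icc 0 (l + l / D) := ⟨hl0.le.trans ht.1, ht.2⟩
    have hMle : M ≤ (2 * K + 1) * Real.exp ((2 * K + 1) / l ^ 2) := by
      have h1 : M = K * Real.exp ((K + 1) / l ^ 2) := by
        rw [hM, mul_assoc, ← Real.exp_add, add_div]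
      rw [h1]
      gcongr
      · linarith
      · linarith
    rw [l1_norm, l1_norm, ← tsum_mul_left]
    refine Summable.tsum_le_tsum (fun n => ?_) (hsum t) ((l1_summable _).mul_left _)
    rw [eU t ht' n, jL_apply]
    refine (hb2 n t ht).trans ?_
    gcongr
  · rw [eU t ht n]
    have h1 : (x0 n).2.1 = 0 := by rw [h0 n]; rfl
    have h2 : (x0 n).2.2.1 = 0 := by rw [h0 n]; rfl
    have h3 := hG n
    simp only [h1, h2] at h3
    obtain ⟨g1, g2⟩ := h3.zero ht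
    simp only [hw, g1, g2, w3_zero]

end Pool.Agent.Lib.MP_79abb3_an.P25
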