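import Pool.Agent.Lib.MP_79abb3_an.P25.BackPT
import Pool.Agent.Lib.MP_79abb3_an.P25.LEPT
import Pool.Agent.Lib.MP_79abb3_an.P25.LinStep

/-!
The nonlinear step.
-/

set_option autoImplicit false
set_option linter.unusedSectionVars false

open MeasureTheory Set Filter Topology Function

namespace Pool.Agent.Lib.MP_79abb3_an.P25

section
variable {H : ℝ} [hH : Fact (0 < H)]

private theorem norm_jL_le' (x : L1 (Xn H)) : ‖jL H x‖ ≤ ‖x‖ := by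
  have := norm_diagL_le (fun _ : ℤ => jnL H) 1 (fun _ => norm_jnL_le) x
  rwa [one_mul] at this

private theorem dmode_zero (k : ℝ) : Dmode k (0 : Xn H) where
  d1 := fun z _ => hasDerivWithinAt_const z _ (0:ℂ)
  d2 := fun z _ => hasDerivWithinAt_const z _ (0:ℂ)
  e1 := ci_ext fun z _ => by
    show ex (0 : CI H) z = ex (|k| • (0 : CI H)) z
    rw [ex_rsmul, ex_zero, mul_zero]
  e2 := ci_ext fun z _ => by
    show ex (0 : CI H) z = ex (|k| • (0 : CI H)) z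
    rw [ex_rsmul, ex_zero, mul_zero]
  z1 := rfl
  z2 := rfl
  h1 := rfl
  h2 := rfl

/-- gluing of perturbations of the same background -/
theorem PT.glue {ω a b c : ℝ} {U : ℝ → L1 (Xn H)} {F : ℝ → L1 (Yn H)} {p q : ℝ → L1 (Xn H)}
    (hp : PT ω a b U F p) (hq : PT ω b c U F q) (hab : a ≤ b) (hbc : b ≤ c) (h : p b = q b) :
    PT ω a c U F (fun t => if t ≤ b then p t else q t) := by
  refine ⟨?_, ?_, ?_⟩
  · refine (hp.lt.glue' hq.lt hab hbc h (fun n => ?_)).congr (fun t _ => rfl) (fun t _ n => ?_)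
      (fun t _ => rfl)
    · rw [src, src, h]
    · by_cases ht : t ≤ b
      · simp only [src, if_pos ht]
      · simp only [src, if_neg ht]
  · intro t ht n
    by_cases htb : t ≤ b
    · simp only [if_pos htb]
      exact hp.dm t ⟨ht.1, htb⟩ n
    · simp only [if_neg htb]
      exact hq.dm t ⟨(not_le.mp htb).le, ht.2⟩ n
  · intro t ht
    by_cases htb : t ≤ b
    · simp only [if_pos htb]
      exact hp.sy t ⟨ht.1, htb⟩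
    · simp only [if_neg htb]
      exact hq.sy t ⟨(not_le.mp htb).le, ht.2⟩

end

/-! real arithmetic -/

private theorem ar_j {s j c : ℝ} (hs1 : s ≤ 1) (hj : 0 ≤ j) (hjc : j ≤ c) (hc1 : c ≤ 1) :
    s * j ≤ 1 := by
  have h := mul_le_mul_of_nonneg_right hs1 hj
  linarith

private theorem ar1 {s K0 C0 x j c C1 E cL : ℝ} (hs : 0 ≤ s) (hs1 : s ≤ 1) (hK0 : 0 ≤ K0)
    (hC0 : 0 ≤ C0) (hC1 : 0 ≤ C1) (hj : 0 ≤ j) (hx : 0 ≤ x) (hc : 0 ≤ c) (hc1 : c ≤ 1)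
    (hjc : j ≤ c) (hsx : s * x ≤ c) (hE : E = K0 + 2 * C0 * K0 ^ 2 + C1) (hcE : c * E ≤ cL) :
    s * (K0 * x + 0 + s * (2 * C0 * K0 ^ 2 * j * x)) ≤ cL := by
  have h1 : s * (K0 * x + 0 + s * (2 * C0 * K0 ^ 2 * j * x)) =
      K0 * (s * x) + 2 * C0 * K0 ^ 2 * ((s * j) * (s * x)) := by ring
  rw [h1]
  have h3 : (s * j) * (s * x) ≤ 1 * c :=
    mul_le_mul (ar_j hs1 hj hjc hc1) hsx (mul_nonneg hs hx) zero_le_one
  rw [one_mul] at h3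
  have h4 := mul_le_mul_of_nonneg_left hsx hK0
  have h5 := mul_le_mul_of_nonneg_left h3 (by positivity : 0 ≤ 2 * C0 * K0 ^ 2)
  have h6 := mul_nonneg hc hC1
  rw [hE] at hcE
  linarith

private theorem ar2 {s m a2 c K0 C0 C1 E cL : ℝ} (hs : 0 ≤ s) (hs1 : s ≤ 1) (hm : 0 ≤ m)
    (hmc : m ≤ K0 * c) (ha : 0 ≤ a2) (hac : a2 ≤ C1 * c) (hc : 0 ≤ c) (hc1 : c ≤ 1)
    (hC0 : 0 ≤ C0) (hE : E = K0 + 2 * C0 * K0 ^ 2 + C1) (hcE : c * E ≤ cL) :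
    s * (m + a2 + s * (2 * C0 * m ^ 2)) ≤ cL := by
  have h2 : m ^ 2 ≤ K0 ^ 2 * c := by
    calc m ^ 2 ≤ (K0 * c) ^ 2 := pow_le_pow_left₀ hm hmc 2
      _ = K0 ^ 2 * (c * c) := by ring
      _ ≤ K0 ^ 2 * (c * 1) := by gcongr
      _ = K0 ^ 2 * c := by ring
  have h3 : s * (2 * C0 * m ^ 2) ≤ 2 * C0 * m ^ 2 := mul_le_of_le_one_left (by positivity) hs1
  have h4 : 2 * C0 * m ^ 2 ≤ 2 * C0 * (K0 ^ 2 * c) := by gcongr
  have h5 : s * (m + a2 + s * (2 * C0 * m ^ 2)) ≤ m + a2 + s * (2 * C0 * m ^ 2) :=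
    mul_le_of_le_one_left (by positivity) hs1
  rw [hE] at hcE
  linarith

private theorem ar3 {K0 e1 eK j x : ℝ} (he : e1 ^ 2 ≤ eK) (hj : 0 ≤ j) (_hx : 0 ≤ x)
    (hjx : j ≤ x) (heK : 1 ≤ eK) :
    (K0 * e1 * j) ^ 2 ≤ K0 ^ 2 * (eK * j * x) := by
  calc (K0 * e1 * j) ^ 2 = K0 ^ 2 * (e1 ^ 2 * j * j) := by ring
    _ ≤ K0 ^ 2 * (eK * j * x) := by gcongr

private theorem ar4 {K0 e1 eK j : ℝ} (he : e1 ^ 2 ≤ eK) (hj : 0 ≤ j) (h1 : eK * j ≤ 1) :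
    (K0 * e1 * j) ^ 2 ≤ K0 ^ 2 * j := by
  calc (K0 * e1 * j) ^ 2 = K0 ^ 2 * ((e1 ^ 2 * j) * j) := by ring
    _ ≤ K0 ^ 2 * ((eK * j) * j) := by gcongr
    _ ≤ K0 ^ 2 * (1 * j) := by gcongr
    _ = K0 ^ 2 * j := by ring

private theorem ar5 {P KL C0 K0 m2 C1 C3 y : ℝ} (hKL : 0 ≤ KL) (hC0 : 0 ≤ C0)
    (hP : P ≤ C1 * y) (hm : m2 ≤ K0 ^ 2 * y) (hC3 : C3 = KL * (C1 + 2 * C0 * K0 ^ 2)) :
    KL * (P + 2 * C0 * m2) ≤ C3 * y := by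
  have h1 : 2 * C0 * m2 ≤ 2 * C0 * (K0 ^ 2 * y) :=
    mul_le_mul_of_nonneg_left hm (by positivity)
  have h2 := mul_le_mul_of_nonneg_left (add_le_add hP h1) hKL
  rw [hC3]
  linarith

private theorem ar6 {K0 C1 C3 K x : ℝ} (hK0 : 0 ≤ K0) (hC1 : 0 ≤ C1) (hC3 : 0 ≤ C3)
    (hK : K = 2 * K0 + C1 + C3) (hx : 0 ≤ x) : K0 * x + C1 * 1 ≤ K * (x + 1) := by
  have h1 := mul_nonneg hK0 hx
  have h2 := mul_nonneg hC1 hx
  have h3 := mul_nonneg hC3 hx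
  rw [hK]
  linarith

private theorem ar7 {K0 C1 C3 K x : ℝ} (hK0 : 0 ≤ K0) (hC1 : 0 ≤ C1) (hC3 : 0 ≤ C3)
    (hK : K = 2 * K0 + C1 + C3) (hx : 0 ≤ x) : (K0 + C3) * 1 ≤ K * (x + 1) := by
  have h1 := mul_nonneg hK0 hx
  have h2 := mul_nonneg hC1 hx
  have h3 := mul_nonneg hC3 hx
  rw [hK]
  linarith

private theorem ar8 {K0 C1 C3 K eK j : ℝ} (hK0 : 0 ≤ K0) (hC1 : 0 ≤ C1) (hC3 : 0 ≤ C3)
    (hK : K = 2 * K0 + C1 + C3) (hj : 0 ≤ j) (he : 1 ≤ eK) :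
    K0 * j + C1 * j ≤ K * (eK * j) := by
  have h0 : j ≤ eK * j := le_mul_of_one_le_left hj he
  have h1 : K0 + C1 ≤ K := by rw [hK]; linarith
  calc K0 * j + C1 * j = (K0 + C1) * j := by ring
    _ ≤ K * (eK * j) := mul_le_mul h1 h0 hj (by rw [hK]; positivity)

private theorem ar9 {K0 K l : ℝ} (h : 2 * K0 ≤ K) (hK0 : 0 ≤ K0) :
    Real.exp (K0 / l ^ 2) ≤ Real.exp (K / l ^ 2) ∧
      Real.exp (K0 / l ^ 2) ^ 2 ≤ Real.exp (K / l ^ 2) := by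
  constructor
  · refine Real.exp_le_exp.mpr (div_le_div_of_nonneg_right (by linarith) (by positivity))
  · rw [← Real.exp_nat_mul]
    refine Real.exp_le_exp.mpr ?_
    have h1 : ((2:ℕ):ℝ) * (K0 / l ^ 2) = (2 * K0) / l ^ 2 := by push_cast; ring
    rw [h1]
    exact div_le_div_of_nonneg_right h (by positivity)

private theorem lept1 (H : ℝ) [Fact (0 < H)]
    (hdir : ∃ S D A : ℝ → (CI H →L[ℂ] CI H), DirSG H S D A) :
    ∃ c > 0, ∃ K : ℝ, 1 ≤ K ∧ ∀ (ω s τ R MF : ℝ) (U : ℝ → L1 (Xn H)) (F : ℝ → L1 (Yn H))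
      (x0 : L1 (Xn H)), 0 < τ → τ ≤ 1 → 0 ≤ R → 0 ≤ MF →
      ContinuousOn U (Icc s (s + τ)) → ContinuousOn F (Icc s (s + τ)) →
      (∀ t ∈ Icc s (s + τ), ‖U t‖ ≤ R ∧ ‖F t‖ ≤ MF ∧ Sy (U t) ∧ Sy (F t)) →
      (∀ n : ℤ, Dmode (ω * n) (x0 n)) → Sy x0 →
      √τ * (R + ‖jL H x0‖ + √τ * MF) ≤ c →
      ∃ u : ℝ → L1 (Xn H), PT ω s (s + τ) U F u ∧ u s = x0 ∧
        ∀ t ∈ Icc s (s + τ), ‖u t‖ ≤ K * (‖x0‖ + √τ * MF) := by
  obtain ⟨c, hc, K, hK, h⟩ := LEPT H hdir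
  refine ⟨c, hc, K, hK, fun ω s τ R MF U F x0 hτ hτ1 hR hMF hU hF hUF hd hs hcd => ?_⟩
  have hW1 : Wt1 (fun _ => (1:ℝ)) := ⟨wt_one, fun _ => rfl⟩
  obtain ⟨u, hu, hu0, -, hub⟩ := h ω s τ R MF ‖jL H x0‖ (fun _ => 1) U F x0 hτ hτ1 hR hMF hW1
    hU hF (fun t ht => ⟨(hUF t ht).1, (hUF t ht).2.1, (hUF t ht).2.2.1, (hUF t ht).2.2.2,
      fun n hn => absurd rfl hn⟩) hd hs
    (by
      have h1 := (l1_summable (jL H x0)).hasSum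
      rw [← l1_norm] at h1
      simpa using h1) hcd
  refine ⟨u, hu, hu0, fun t ht => ?_⟩
  have h1 := (hub (by simpa using l1_summable x0) t ht).2
  have e : ∀ y : L1 (Xn H), ∑' n, (1:ℝ) * ‖y n‖ = ‖y‖ := fun y => by
    rw [l1_norm]; simp
  rw [e, e] at h1
  exact h1

private theorem nl_force {H : ℝ} [Fact (0 < H)] {ω C0 T : ℝ} {U : ℝ → L1 (Xn H)}
    (hBW : ∃ B, IsBW ω (fun _ => 1) B ∧ BilB (jL H) B (C0 * 1))
    (hUc : ContinuousOn U (Icc 0 T)) (hUsy : ∀ t ∈ Icc 0 T, Sy (U t)) :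
    ∃ F : ℝ → L1 (Yn H), ContinuousOn F (Icc 0 T) ∧
      (∀ t, ‖F t‖ ≤ 2 * C0 * ‖jL H (U t)‖ * ‖U t‖) ∧ (∀ t ∈ Icc 0 T, Sy (F t)) ∧
      ∀ t n, F t n = Bf ω (U t) (U t) n := by
  obtain ⟨B, hBI, hBB⟩ := hBW
  rw [mul_one] at hBB
  refine ⟨fun t => B (U t) (U t), ?_, fun t => ?_, fun t ht => ?_, fun t n => ?_⟩
  · exact (B.continuous.comp_continuousOn hUc).clm_apply hUc
  · refine (hBB (U t) (U t)).trans (le_of_eq ?_)
    ring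
  · rw [← cjL_eq_iff]
    have h1 := B_cj (W := fun _ => 1) (fun _ => rfl) hBI (U t) (U t)
    rw [(cjL_eq_iff _).mpr (hUsy t ht)] at h1
    exact h1.symm
  · have h1 := hBI (U t) (U t) n
    simpa using h1

/-- everything about the pieces, in numbers -/
private theorem nl_asm {H : ℝ} [Fact (0 < H)] {ω l D K0 C1 C3 K eK j0 : ℝ} {x0 : L1 (Xn H)}
    {U p q : ℝ → L1 (Xn H)} {F : ℝ → L1 (Yn H)}
    (hK0 : 0 ≤ K0) (hC1 : 0 ≤ C1) (hC3 : 0 ≤ C3) (hK : K = 2 * K0 + C1 + C3)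
    (hl0 : 0 < l) (hlD : 0 < l / D) (hj0 : 0 ≤ j0) (hj1 : j0 ≤ 1) (heK : 1 ≤ eK)
    (hej : eK * j0 ≤ 1)
    (hUlt : LT ω 0 (l + l / D) ∅ (fun _ => 0) (fun _ _ => 0) U) (hU0 : U 0 = x0)
    (hUe : U (l + l / D) = 0)
    (hFn : ∀ t n, F t n = Bf ω (U t) (U t) n)
    (hUa : ∀ t ∈ Icc 0 l, ‖U t‖ ≤ K0 * ‖x0‖ ∧ ‖jL H (U t)‖ ≤ K0 * j0)
    (hUb : ∀ t ∈ Icc l (l + l / D), ‖U t‖ ≤ K0 * (eK * j0))
    (hp : PT ω 0 l U F p) (hp0 : p 0 = 0) (hq : PT ω l (l + l / D) U F q) (hql : q l = p l)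
    (hpn1 : ∀ t ∈ Icc 0 l, ‖p t‖ ≤ C1 * j0)
    (hqn1 : ∀ t ∈ Icc l (l + l / D), ‖q t‖ ≤ C3 * (eK * j0 * ‖x0‖))
    (hqn2 : ∀ t ∈ Icc l (l + l / D), ‖q t‖ ≤ C3 * j0) :
    ∃ u : ℝ → L1 (Xn H), Traj ω 0 (l + l / D) ∅ (fun _ => 0) u ∧ u 0 = x0 ∧
        (∀ n : ℤ, Dmode (ω * n) (u (l + l / D) n)) ∧ Sy (u (l + l / D)) ∧
        (∀ t ∈ Icc 0 (l + l / D), ‖u t‖ ≤ K * (‖x0‖ + 1) ∧ ‖jL H (u t)‖ ≤ K * (eK * j0)) ∧
        ‖u (l + l / D)‖ ≤ K * (eK * j0) * ‖x0‖ := by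
  have hx0n : 0 ≤ ‖x0‖ := norm_nonneg _
  have hUlt' : LT ω 0 (l + l / D) ∅ (fun _ => 0) (fun t n => Bf ω (U t) (U t) n - F t n) U :=
    hUlt.congr (fun t _ => rfl) (fun t _ n => by rw [hFn, sub_self]) (fun t _ => rfl)
  have hPT : PT ω 0 (l + l / D) U F (fun t => if t ≤ l then p t else q t) :=
    hp.glue hq hl0.le (by linarith) hql.symm
  have hend : ¬ l + l / D ≤ l := by linarith
  have hendm : l + l / D ∈ Icc l (l + l / D) := ⟨by linarith, le_rfl⟩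
  have hue : U (l + l / D) + (if l + l / D ≤ l then p (l + l / D) else q (l + l / D)) =
      q (l + l / D) := by rw [if_neg hend, hUe, zero_add]
  have hKC3 : C3 ≤ K := by rw [hK]; linarith
  have hKC : K0 + C3 ≤ K := by rw [hK]; linarith
  have hejn : 0 ≤ eK * j0 := mul_nonneg (zero_le_one.trans heK) hj0
  have hKn : 0 ≤ K := hC3.trans hKC3
  refine ⟨fun t => U t + (if t ≤ l then p t else q t), Traj.of_PT hUlt' hPT, ?_, ?_, ?_, ?_, ?_⟩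
  · show U 0 + (if (0:ℝ) ≤ l then p 0 else q 0) = x0
    rw [if_pos hl0.le, hp0, hU0, add_zero]
  · intro n
    show Dmode (ω * n) ((U (l + l / D) + (if l + l / D ≤ l then p (l + l / D) else q (l + l / D)) :
      L1 (Xn H)) n)
    rw [hue]
    exact hq.dm _ hendm n
  · show Sy ((U (l + l / D) + (if l + l / D ≤ l then p (l + l / D) else q (l + l / D)) :
      L1 (Xn H)))
    rw [hue]
    exact hq.sy _ hendm
  · intro t ht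
    show ‖U t + (if t ≤ l then p t else q t)‖ ≤ K * (‖x0‖ + 1) ∧
      ‖jL H (U t + (if t ≤ l then p t else q t))‖ ≤ K * (eK * j0)
    by_cases htl : t ≤ l
    · rw [if_pos htl]
      have h1 := hUa t ⟨ht.1, htl⟩
      have h2 := hpn1 t ⟨ht.1, htl⟩
      constructor
      · refine (norm_add_le _ _).trans ((add_le_add h1.1 (h2.trans
          (mul_le_mul_of_nonneg_left hj1 hC1))).trans (ar6 hK0 hC1 hC3 hK hx0n))
      · rw [map_add]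
        exact (norm_add_le _ _).trans ((add_le_add h1.2 ((norm_jL_le' _).trans h2)).trans
          (ar8 hK0 hC1 hC3 hK hj0 heK))
    · rw [if_neg htl]
      have htl' : t ∈ Icc l (l + l / D) := ⟨(not_le.mp htl).le, ht.2⟩
      have h1 := hUb t htl'
      have h2 : ‖q t‖ ≤ C3 * (eK * j0) :=
        (hqn2 t htl').trans (mul_le_mul_of_nonneg_left (le_mul_of_one_le_left hj0 heK) hC3)
      have h3 : ‖U t + q t‖ ≤ (K0 + C3) * (eK * j0) := by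
        refine (norm_add_le _ _).trans ((add_le_add h1 h2).trans (le_of_eq ?_))
        rw [add_mul]
      constructor
      · exact h3.trans ((mul_le_mul_of_nonneg_left hej (add_nonneg hK0 hC3)).trans
          (ar7 hK0 hC1 hC3 hK hx0n))
      · exact (norm_jL_le' _).trans (h3.trans (mul_le_mul_of_nonneg_right hKC hejn))
  · show ‖U (l + l / D) + (if l + l / D ≤ l then p (l + l / D) else q (l + l / D))‖ ≤
      K * (eK * j0) * ‖x0‖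
    rw [hue, mul_assoc K]
    exact (hqn1 _ hendm).trans (mul_le_mul_of_nonneg_right hKC3 (mul_nonneg hejn hx0n))

theorem nl_step {H : ℝ} [Fact (0 < H)] (hH : 1 ≤ H)
    (hdir : ∃ S D A : ℝ → (CI H →L[ℂ] CI H), DirSG H S D A) : ∃ D K c : ℝ, 1 ≤ D ∧ 1 ≤ K ∧ 0 < c ∧
    ∀ (ω l : ℝ) (x0 : L1 (Xn H)), l ∈ Ioc (0:ℝ) 1 → (∀ n : ℤ, Cmode (ω * n) (x0 n)) → Sy x0 →
      √l * ‖x0‖ ≤ c → Real.exp (K / l ^ 2) * ‖jL H x0‖ ≤ c →
      ∃ u : ℝ → L1 (Xn H), Traj ω 0 (l + l / D) ∅ (fun _ => 0) u ∧ u 0 = x0 ∧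
        (∀ n : ℤ, Dmode (ω * n) (u (l + l / D) n)) ∧ Sy (u (l + l / D)) ∧
        (∀ t ∈ Icc 0 (l + l / D), ‖u t‖ ≤ K * (‖x0‖ + 1) ∧
          ‖jL H (u t)‖ ≤ K * (Real.exp (K / l ^ 2) * ‖jL H x0‖)) ∧
        ‖u (l + l / D)‖ ≤ K * (Real.exp (K / l ^ 2) * ‖jL H x0‖) * ‖x0‖ := by
  obtain ⟨D, K0, hD, hK0, hlin⟩ := lin_step (H := H) hH
  obtain ⟨cL, hcL, KL, hKL, hLE⟩ := lept1 H hdir
  obtain ⟨C0, hC0, hBW⟩ := exists_BW H
  have hK0n : 0 ≤ K0 := zero_le_one.trans hK0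
  have hC0n : 0 ≤ C0 := zero_le_one.trans hC0
  have hKLn : 0 ≤ KL := zero_le_one.trans hKL
  -- constants
  obtain ⟨C1, hC1⟩ : ∃ C1, C1 = 2 * KL * C0 * K0 ^ 2 := ⟨_, rfl⟩
  obtain ⟨C3, hC3⟩ : ∃ C3, C3 = KL * (C1 + 2 * C0 * K0 ^ 2) := ⟨_, rfl⟩
  have hC1n : 0 ≤ C1 := by rw [hC1]; positivity
  have hC3n : 0 ≤ C3 := by rw [hC3]; positivity
  obtain ⟨K, hK⟩ : ∃ K, K = 2 * K0 + C1 + C3 := ⟨_, rfl⟩
  obtain ⟨E, hE⟩ : ∃ E, E = K0 + 2 * C0 * K0 ^ 2 + C1 := ⟨_, rfl⟩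
  have hEp : 0 < E := by rw [hE]; positivity
  obtain ⟨c, hcp, hc1, hcE⟩ : ∃ c : ℝ, 0 < c ∧ c ≤ 1 ∧ c * E ≤ cL :=
    ⟨min 1 (cL / E), lt_min one_pos (div_pos hcL hEp), min_le_left _ _,
      (le_div_iff₀ hEp).mp (min_le_right 1 (cL / E))⟩
  refine ⟨D, K, c, hD, by rw [hK]; linarith, hcp, ?_⟩
  intro ω l x0 hl hcm hsy hx hjx
  obtain ⟨U, hUlt, hUsy, hU0, hUe, hUa, hUb, -⟩ := hlin ω l x0 hl hcm hsy
  have hl0 : 0 < l := hl.1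
  have hl1 : l ≤ 1 := hl.2
  have hlD : 0 < l / D := div_pos hl0 (zero_lt_one.trans_le hD)
  have hlD1 : l / D ≤ 1 := (div_le_self hl0.le hD).trans hl1
  have hjxl := norm_jL_le' x0
  have hj0n : 0 ≤ ‖jL H x0‖ := norm_nonneg _
  have hx0n : 0 ≤ ‖x0‖ := norm_nonneg _
  have hUc : ContinuousOn U (Icc 0 (l + l / D)) := by
    have := hUlt.cX
    rwa [sdiff_empty] at this
  obtain ⟨F, hFc, hFb, hFs, hFn⟩ := nl_force (hBW ω 1 (fun _ => 1) le_rfl wt_one) hUc hUsy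
  obtain ⟨he1K, he2K⟩ := ar9 (l := l) (show 2 * K0 ≤ K by rw [hK]; linarith) hK0n
  have he1p : 1 ≤ Real.exp (K0 / l ^ 2) := Real.one_le_exp (div_nonneg hK0n (sq_nonneg l))
  obtain ⟨j0, hj0⟩ : ∃ j, j = ‖jL H x0‖ := ⟨_, rfl⟩
  obtain ⟨e1, he1⟩ : ∃ e, e = Real.exp (K0 / l ^ 2) := ⟨_, rfl⟩
  obtain ⟨eK, heK⟩ : ∃ e, e = Real.exp (K / l ^ 2) := ⟨_, rfl⟩
  rw [← hj0] at hjx hjxl hj0n
  rw [← hj0, ← heK]
  rw [← heK] at hjx he1K he2K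
  rw [← he1] at he1p he1K he2K
  rw [← he1, ← hj0] at hUb
  rw [← hj0] at hUa
  have heKp : 1 ≤ eK := he1p.trans he1K
  have hjc : j0 ≤ c := (le_mul_of_one_le_left hj0n heKp).trans hjx
  have hej : eK * j0 ≤ 1 := hjx.trans hc1
  obtain ⟨s, hs⟩ : ∃ s, s = √l := ⟨_, rfl⟩
  have hsl : 0 ≤ s := by rw [hs]; exact Real.sqrt_nonneg l
  have hsl1 : s ≤ 1 := by rw [hs]; exact Real.sqrt_le_one.mpr hl1
  rw [← hs] at hx
  -- first interval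
  have hsub1 : Icc (0:ℝ) (0 + l) ⊆ Icc 0 (l + l / D) := by
    rw [zero_add]
    exact Icc_subset_Icc_right (by linarith)
  have hMF1n : 0 ≤ 2 * C0 * K0 ^ 2 * j0 * ‖x0‖ := by positivity
  obtain ⟨p, hp, hp0, hpb⟩ := hLE ω 0 l (K0 * ‖x0‖) (2 * C0 * K0 ^ 2 * j0 * ‖x0‖) U F 0 hl0 hl1
    (mul_nonneg hK0n hx0n) hMF1n (hUc.mono hsub1) (hFc.mono hsub1)
    (fun t ht => by
      have h1 := hUa t (by rwa [zero_add] at ht)
      refine ⟨h1.1, (hFb t).trans ?_, hUsy t (hsub1 ht), hFs t (hsub1 ht)⟩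
      have h2 := mul_le_mul h1.2 h1.1 (norm_nonneg _) (mul_nonneg hK0n hj0n)
      have h3 := mul_le_mul_of_nonneg_left h2 (mul_nonneg zero_le_two hC0n)
      rw [← mul_assoc] at h3
      refine h3.trans (le_of_eq ?_)
      ring)
    (fun n => dmode_zero _) (fun n => (star_zero _).symm)
    (by
      rw [map_zero, norm_zero, ← hs]
      exact ar1 hsl hsl1 hK0n hC0n hC1n hj0n hx0n hcp.le hc1 hjc hx hE hcE)
  rw [zero_add] at hp hpb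
  rw [norm_zero, ← hs] at hpb
  have hpn : ∀ t ∈ Icc 0 l, ‖p t‖ ≤ C1 * (s * (j0 * ‖x0‖)) := by
    intro t ht
    refine (hpb t ht).trans (le_of_eq ?_)
    rw [hC1]
    ring
  have hpn1 : ∀ t ∈ Icc 0 l, ‖p t‖ ≤ C1 * j0 := by
    intro t ht
    refine (hpn t ht).trans (mul_le_mul_of_nonneg_left ?_ hC1n)
    have h1 : s * (j0 * ‖x0‖) = j0 * (s * ‖x0‖) := by ring
    rw [h1]
    exact mul_le_of_le_one_right hj0n (hx.trans hc1)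
  have hpn2 : ∀ t ∈ Icc 0 l, ‖p t‖ ≤ C1 * (j0 * ‖x0‖) := by
    intro t ht
    exact (hpn t ht).trans (mul_le_mul_of_nonneg_left
      (mul_le_of_le_one_left (mul_nonneg hj0n hx0n) hsl1) hC1n)
  -- second interval
  have hmn : 0 ≤ K0 * e1 * j0 := mul_nonneg (mul_nonneg hK0n (zero_le_one.trans he1p)) hj0n
  have hmK : K0 * e1 * j0 ≤ K0 * (eK * j0) := by
    rw [mul_assoc]
    exact mul_le_mul_of_nonneg_left (mul_le_mul_of_nonneg_right he1K hj0n) hK0n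
  have hm3 := ar3 (K0 := K0) he2K hj0n hx0n hjxl heKp
  have hm4 := ar4 (K0 := K0) he2K hj0n hej
  obtain ⟨m, hm⟩ : ∃ m, m = K0 * e1 * j0 := ⟨_, rfl⟩
  rw [← hm] at hmn hmK hm3 hm4 hUb
  have hmc : m ≤ K0 * c := hmK.trans (mul_le_mul_of_nonneg_left hjx hK0n)
  have hll : l ∈ Icc (0:ℝ) l := ⟨hl0.le, le_rfl⟩
  have ha2c : ‖jL H (p l)‖ ≤ C1 * c :=
    (norm_jL_le' _).trans ((hpn1 l hll).trans (mul_le_mul_of_nonneg_left hjc hC1n))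
  have hsub2 : Icc l (l + l / D) ⊆ Icc 0 (l + l / D) := Icc_subset_Icc_left hl0.le
  obtain ⟨q, hq, hql, hqb⟩ := hLE ω l (l / D) m (2 * C0 * m ^ 2) U F (p l) hlD hlD1
    hmn (by positivity) (hUc.mono hsub2) (hFc.mono hsub2)
    (fun t ht => by
      have h1 := hUb t ht
      refine ⟨h1, (hFb t).trans ?_, hUsy t (hsub2 ht), hFs t (hsub2 ht)⟩
      have h2 := mul_le_mul ((norm_jL_le' (U t)).trans h1) h1 (norm_nonneg _) hmn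
      have h3 := mul_le_mul_of_nonneg_left h2 (mul_nonneg zero_le_two hC0n)
      rw [← mul_assoc] at h3
      refine h3.trans (le_of_eq ?_)
      ring)
    (hp.dm l hll) (hp.sy l hll)
    (ar2 (Real.sqrt_nonneg _) (Real.sqrt_le_one.mpr hlD1) hmn hmc (norm_nonneg _) ha2c hcp.le hc1
      hC0n hE hcE)
  have hqn : ∀ t ∈ Icc l (l + l / D), ‖q t‖ ≤ KL * (‖p l‖ + 2 * C0 * m ^ 2) := by
    intro t ht
    refine (hqb t ht).trans (mul_le_mul_of_nonneg_left ?_ hKLn)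
    exact add_le_add le_rfl
      (mul_le_of_le_one_left (by positivity) (Real.sqrt_le_one.mpr hlD1))
  have hqn1 : ∀ t ∈ Icc l (l + l / D), ‖q t‖ ≤ C3 * (eK * j0 * ‖x0‖) := by
    intro t ht
    have h3 : j0 * ‖x0‖ ≤ eK * j0 * ‖x0‖ := by
      rw [mul_assoc]
      exact le_mul_of_one_le_left (mul_nonneg hj0n hx0n) heKp
    exact (hqn t ht).trans (ar5 hKLn hC0n
      ((hpn2 l hll).trans (mul_le_mul_of_nonneg_left h3 hC1n)) hm3 hC3)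
  have hqn2 : ∀ t ∈ Icc l (l + l / D), ‖q t‖ ≤ C3 * j0 := fun t ht =>
    (hqn t ht).trans (ar5 hKLn hC0n (hpn1 l hll) hm4 hC3)
  exact nl_asm hK0n hC1n hC3n hK hl0 hlD hj0n (hjc.trans hc1) heKp hej hUlt hU0 hUe hFn hUa
    (fun t ht => (hUb t ht).trans hmK) hp hp0 hq hql hpn1 hqn1 hqn2

end Pool.Agent.Lib.MP_79abb3_an.P25
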