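import Pool.Agent.Lib.MP_79abb3_an.P25.EnDef

/-!
EN-2: parameters.
-/

set_option autoImplicit false
set_option linter.unusedVariables false

open MeasureTheory Set Filter Topology Function

namespace Pool.Agent.Lib.MP_79abb3_an.P25

theorem par_pos {ε t : ℝ} (hε : 0 < ε) : 0 < t ^ 2 + ε ^ 2 := by positivity

theorem sq_der (ε t : ℝ) : HasDerivAt (fun t : ℝ => t ^ 2 + ε ^ 2) (2 * t) t := by
  have h := (hasDerivAt_pow 2 t).add_const (ε ^ 2)
  refine h.congr_deriv ?_
  norm_num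

theorem aa_der {ε t : ℝ} (hε : 0 < ε) : HasDerivAt (aa ε) (PP ε t - aa ε t ^ 2) t := by
  have hp := par_pos (t := t) hε
  have h := (hasDerivAt_id t).div (sq_der ε t) hp.ne'
  have h2 : HasDerivAt (aa ε) _ t := h
  refine h2.congr_deriv ?_
  unfold PP aa
  simp only [id_eq]
  field_simp
  ring

theorem aa_nonneg {ε t : ℝ} (hε : 0 < ε) (ht : 0 ≤ t) : 0 ≤ aa ε t := by
  unfold aa
  positivity

theorem el_pos {ε t : ℝ} (hε : 0 < ε) : 0 < el ε t := by
  have hp := par_pos (t := t) hε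
  unfold el
  positivity

theorem el_sq {ε t : ℝ} (hε : 0 < ε) : el ε t ^ 2 = ε ^ 2 / (t ^ 2 + ε ^ 2) := by
  have hp := par_pos (t := t) hε
  unfold el
  rw [div_pow, Real.sq_sqrt hp.le]

theorem el_le_one {ε t : ℝ} (hε : 0 < ε) : el ε t ≤ 1 := by
  have hp := par_pos (t := t) hε
  have h1 := el_sq (t := t) hε
  have h2 := el_pos (t := t) hε
  have h3 : el ε t ^ 2 ≤ 1 := by
    rw [h1, div_le_one hp]
    nlinarith [sq_nonneg t]
  by_contra hc
  push Not at hc
  nlinarith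

theorem el_der {ε t : ℝ} (hε : 0 < ε) : HasDerivAt (el ε) (-(aa ε t * el ε t)) t := by
  have hp := par_pos (t := t) hε
  have hs : 0 < √(t ^ 2 + ε ^ 2) := Real.sqrt_pos.2 hp
  have h1 := (sq_der ε t).sqrt hp.ne'
  have h := (hasDerivAt_const t ε).div h1 hs.ne'
  have h2 : HasDerivAt (el ε) _ t := h
  refine h2.congr_deriv ?_
  unfold aa el
  rw [Real.sq_sqrt hp.le]
  field_simp
  ring

theorem LL_der {ε t : ℝ} (hε : 0 < ε) (ht : 0 < t) :
    HasDerivAt (LL ε) (1 / (2 * √t) - aa ε t * el ε t) t := by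
  have h1 := (el_der (t := t) hε).add (Real.hasDerivAt_sqrt ht.ne')
  have h2 : HasDerivAt (LL ε) _ t := h1
  refine h2.congr_deriv ?_
  ring

theorem LL_bounds {ε t : ℝ} (hε : 0 < ε) (ht : 0 ≤ t) : 0 < LL ε t ∧ √t ≤ LL ε t ∧ el ε t ≤ LL ε t ∧
    0 < el ε t ∧ el ε t ≤ 1 ∧ LL ε t ≤ 1 + √t := by
  have h1 := el_pos (t := t) hε
  have h2 := el_le_one (t := t) hε
  have h3 := Real.sqrt_nonneg t
  unfold LL
  refine ⟨by linarith, by linarith, by linarith, h1, h2, by linarith⟩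

theorem LL_inv_sq {ε t : ℝ} (hε : 0 < ε) (ht : 0 ≤ t) : 1 / LL ε t ^ 2 ≤ 2 * (aa ε t + 1) := by
  obtain ⟨h1, h2, h3, h4, h5, h6⟩ := LL_bounds hε ht
  have ha := aa_nonneg hε ht
  have hp := par_pos (t := t) hε
  rcases le_or_gt ε t with h | h
  · have ht0 : 0 < t := lt_of_lt_of_le hε h
    have h7 : t ≤ LL ε t ^ 2 := by
      calc t = √t ^ 2 := (Real.sq_sqrt ht).symm
        _ ≤ LL ε t ^ 2 := pow_le_pow_left₀ (Real.sqrt_nonneg _) h2 2
    have h8 : 1 / LL ε t ^ 2 ≤ 1 / t := one_div_le_one_div_of_le ht0 h7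
    have h9 : 1 / t ≤ 2 * aa ε t := by
      unfold aa
      rw [div_le_iff₀ ht0]
      have : 2 * (t / (t ^ 2 + ε ^ 2)) * t = 2 * t ^ 2 / (t ^ 2 + ε ^ 2) := by ring
      rw [this, le_div_iff₀ hp]
      have := pow_le_pow_left₀ hε.le h 2
      linarith
    linarith
  · have h7 : 1 / 2 ≤ el ε t ^ 2 := by
      rw [el_sq hε, le_div_iff₀ hp]
      have := pow_le_pow_left₀ ht h.le 2
      linarith
    have h8 : 1 / 2 ≤ LL ε t ^ 2 := h7.trans (pow_le_pow_left₀ h4.le h3 2)
    have h9 : 1 / LL ε t ^ 2 ≤ 2 := by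
      rw [div_le_iff₀ (by positivity)]
      linarith
    linarith

theorem LL_log {ε t : ℝ} (hε : 0 < ε) (hε1 : ε ≤ 1) (ht : 0 < t) (ht1 : t ≤ 1) :
    (1 / (2 * √t) - aa ε t * el ε t) / LL ε t ≤ aa ε t / 2 + 1 / √t := by
  obtain ⟨h1, h2, h3, h4, h5, h6⟩ := LL_bounds hε ht.le
  have ha := aa_nonneg hε ht.le
  have hp := par_pos (t := t) hε
  have hst : 0 < √t := Real.sqrt_pos.2 ht
  have hsq : √t ^ 2 = t := Real.sq_sqrt ht.le
  rcases le_or_gt ε t with h | h
  · have hR : 0 < √(t ^ 2 + ε ^ 2) := Real.sqrt_pos.2 hp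
    have hR2 : √(t ^ 2 + ε ^ 2) ^ 2 = t ^ 2 + ε ^ 2 := Real.sq_sqrt hp.le
    have hR3 : √(t ^ 2 + ε ^ 2) ≤ 2 * t := by
      rw [Real.sqrt_le_left (by positivity)]
      have := pow_le_pow_left₀ hε.le h 2
      have := sq_nonneg t
      linarith
    have hes : ε ≤ √t := by
      apply Real.le_sqrt_of_sq_le
      have := mul_le_mul_of_nonneg_left hε1 hε.le
      linarith
    have h7 : el ε t ≤ 3 * aa ε t * √t := by
      unfold el aa
      rw [div_le_iff₀ hR]
      have : 3 * (t / (t ^ 2 + ε ^ 2)) * √t * √(t ^ 2 + ε ^ 2) =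
          (3 * t * √t * √(t ^ 2 + ε ^ 2)) / (t ^ 2 + ε ^ 2) := by ring
      rw [this, le_div_iff₀ hp]
      have h8 : ε * √(t ^ 2 + ε ^ 2) ≤ √t * (2 * t) :=
        mul_le_mul hes hR3 hR.le hst.le
      calc ε * (t ^ 2 + ε ^ 2) = (ε * √(t ^ 2 + ε ^ 2)) * √(t ^ 2 + ε ^ 2) := by
            rw [mul_assoc, ← sq, hR2]
        _ ≤ (√t * (2 * t)) * √(t ^ 2 + ε ^ 2) := by gcongr
        _ ≤ 3 * t * √t * √(t ^ 2 + ε ^ 2) := by
            apply mul_le_mul_of_nonneg_right _ hR.le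
            have := mul_pos ht hst
            linarith
    have h8 : 1 / (2 * √t) - aa ε t * √t / 2 = el ε t ^ 2 / (2 * √t) := by
      rw [el_sq hε]
      unfold aa
      have : √t * √t = t := by rw [← sq, hsq]
      field_simp
      rw [hsq]
      ring
    have h9 : el ε t ^ 2 / (2 * √t) ≤ 3 / 2 * (aa ε t * el ε t) := by
      rw [div_le_iff₀ (by positivity)]
      have := mul_le_mul_of_nonneg_left h7 h4.le
      linarith
    have h10 : 1 / (2 * √t) - aa ε t * el ε t ≤ aa ε t / 2 * LL ε t := by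
      unfold LL
      linarith
    have h11 : (1 / (2 * √t) - aa ε t * el ε t) / LL ε t ≤ aa ε t / 2 := by
      rw [div_le_iff₀ h1]
      exact h10
    have h12 : 0 ≤ 1 / √t := by positivity
    linarith
  · have h7 : 1 / 2 ≤ el ε t := by
      have h7 : 1 / 2 ≤ el ε t ^ 2 := by
        rw [el_sq hε, le_div_iff₀ hp]
        have := pow_le_pow_left₀ ht.le h.le 2
        linarith
      have := mul_le_mul_of_nonneg_left h5 h4.le
      linarith
    have h8 : 0 ≤ aa ε t * el ε t := by positivity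
    have h9 : (1 / (2 * √t) - aa ε t * el ε t) / LL ε t ≤ 1 / √t := by
      rw [div_le_iff₀ h1]
      have h10 : 1 / (2 * √t) ≤ 1 / √t * LL ε t := by
        have : 1 / (2 * √t) = 1 / √t * (1 / 2) := by
          field_simp
        rw [this]
        apply mul_le_mul_of_nonneg_left _ (by positivity)
        linarith
      linarith
    linarith

theorem la_nonneg (k : ℝ) : 0 ≤ la k := by
  unfold la
  positivity

theorem th_der {ε t k : ℝ} (hε : 0 < ε) (ht : 0 < t) : HasDerivAt (th ε k)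
    (th ε k t * ((1 / (2 * √t) - aa ε t * el ε t) / LL ε t / (1 + la k * LL ε t))) t := by
  obtain ⟨h1, h2, h3, h4, h5, h6⟩ := LL_bounds hε ht.le
  have hl := la_nonneg k
  have hq : 0 < 1 + la k * LL ε t := by positivity
  have hd := LL_der hε ht
  have h7 := (hd.const_mul 7500).div ((hd.const_mul (la k)).const_add 1) hq.ne'
  have h8 : HasDerivAt (th ε k) _ t := h7
  refine h8.congr_deriv ?_
  unfold th
  generalize 1 / (2 * √t) - aa ε t * el ε t = D
  field_simp
  ring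

theorem be_der {ε t : ℝ} (hε : 0 < ε) (ht : 0 < t) : HasDerivAt (be ε)
    (-((1 / (2 * √t) - aa ε t * el ε t) / (100 * LL ε t ^ 2))) t := by
  obtain ⟨h1, h2, h3, h4, h5, h6⟩ := LL_bounds hε ht.le
  have hd := LL_der hε ht
  have hq : 0 < 100 * LL ε t := by positivity
  have h7 := (hasDerivAt_const t (1:ℝ)).div (hd.const_mul 100) hq.ne'
  have h8 : HasDerivAt (be ε) _ t := h7
  refine h8.congr_deriv ?_
  generalize 1 / (2 * √t) - aa ε t * el ε t = D
  field_simp
  ring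

theorem frac_sub {x y : ℝ} (hx : 0 ≤ x) (hy : 0 ≤ y) :
    (x + y) / (1 + (x + y)) ≤ x / (1 + x) + y / (1 + y) := by
  rw [div_add_div _ _ (by positivity) (by positivity), div_le_div_iff₀ (by positivity)
    (by positivity)]
  have h1 : 0 ≤ x * y := by positivity
  have h2 : 0 ≤ x * y * x := by positivity
  have h3 : 0 ≤ x * y * y := by positivity
  linarith

theorem WW_alg {c P Q D D' : ℝ} (hP : 0 < P) (hQ : 0 < Q) :
    (c * (((30 : ℕ) : ℝ) * P ^ (30 - 1) * D) * Q ^ 60 - c * P ^ 30 * (((60 : ℕ) : ℝ) * Q ^ (60 - 1) * D')) /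
      (Q ^ 60) ^ 2 = c * P ^ 30 / Q ^ 60 * (30 * D / P - 60 * D' / Q) := by
  have h1 : P ^ 30 = P ^ 29 * P := pow_succ P 29
  have h2 : Q ^ 60 = Q ^ 59 * Q := pow_succ Q 59
  have h3 : 0 < Q ^ 59 := by positivity
  norm_num only
  rw [h1, h2]
  generalize P ^ 29 = P1
  generalize Q ^ 59 = Q1 at *
  field_simp

theorem WW_der {ε t k : ℝ} (hε : 0 < ε) (ht : 0 < t) : ∃ w, HasDerivAt (WW ε k) w t ∧
    w ≤ -(30 * aa ε t * sg ε k t) * WW ε k t := by
  obtain ⟨h1, h2, h3, h4, h5, h6⟩ := LL_bounds hε ht.le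
  have hl := la_nonneg k
  have ha := aa_nonneg hε ht.le
  have hst : 0 < √t := Real.sqrt_pos.2 ht
  have hsq : √t ^ 2 = t := Real.sq_sqrt ht.le
  have hP : 0 < 1 + la k * el ε t := by positivity
  have hQ : 0 < 1 + la k * √t := by positivity
  have dP : HasDerivAt (fun t => 1 + la k * el ε t) (la k * (-(aa ε t * el ε t))) t :=
    ((el_der (t := t) hε).const_mul (la k)).const_add 1
  have dQ : HasDerivAt (fun t : ℝ => 1 + la k * √t) (la k * (1 / (2 * √t))) t :=
    ((Real.hasDerivAt_sqrt ht.ne').const_mul (la k)).const_add 1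
  have d1 := ((dP.pow 30).const_mul ((1 + 2 * la k) ^ 61)).div (dQ.pow 60)
    (pow_pos hQ 60).ne'
  have d2 : HasDerivAt (WW ε k) _ t := d1
  have hw0 : 0 ≤ WW ε k t := by
    unfold WW
    positivity
  refine ⟨WW ε k t * (30 * (la k * (-(aa ε t * el ε t))) / (1 + la k * el ε t) -
    60 * (la k * (1 / (2 * √t))) / (1 + la k * √t)), d2.congr_deriv ?_, ?_⟩
  · unfold WW
    generalize la k * (-(aa ε t * el ε t)) = D
    generalize la k * (1 / (2 * √t)) = D'
    exact WW_alg hP hQ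
  · rw [mul_comm (WW ε k t)]
    apply mul_le_mul_of_nonneg_right _ hw0
    have e1 : 30 * (la k * (-(aa ε t * el ε t))) / (1 + la k * el ε t) =
        -(30 * (aa ε t * ((la k * el ε t) / (1 + la k * el ε t)))) := by ring
    have e2 : 60 * (la k * (1 / (2 * √t))) / (1 + la k * √t) =
        30 * (1 / t * ((la k * √t) / (1 + la k * √t))) := by
      have : 1 / t = 1 / √t * (1 / √t) := by
        rw [one_div_mul_one_div, ← sq, hsq]
      rw [this]
      field_simp
      ring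
    have h7 : aa ε t ≤ 1 / t := by
      unfold aa
      rw [div_le_div_iff₀ (par_pos hε) ht]
      have := sq_nonneg ε
      linarith
    have h8 := frac_sub (mul_nonneg hl h4.le) (mul_nonneg hl hst.le)
    have h9 : sg ε k t = (la k * el ε t + la k * √t) / (1 + (la k * el ε t + la k * √t)) := by
      unfold sg LL
      rw [mul_add]
    have h10 : 0 ≤ (la k * √t) / (1 + la k * √t) := by positivity
    have h11 := mul_le_mul_of_nonneg_right h7 h10
    have h12 := mul_le_mul_of_nonneg_left h8 ha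
    rw [← h9] at h12
    rw [e1, e2]
    generalize la k * el ε t / (1 + la k * el ε t) = X at *
    generalize la k * √t / (1 + la k * √t) = Y at *
    generalize sg ε k t = Z at *
    generalize 1 / t = T at *
    generalize aa ε t = U at *
    linarith

theorem qq_der {ε t : ℝ} (hε : 0 < ε) : HasDerivAt (qq ε) (aa ε t / 10 * qq ε t) t := by
  have hp := par_pos (t := t) hε
  have h0 : 0 < 1 + t ^ 2 / ε ^ 2 := by positivity
  have h1 : HasDerivAt (fun t : ℝ => 1 + t ^ 2 / ε ^ 2) (2 * t / ε ^ 2) t := by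
    have h := ((hasDerivAt_pow 2 t).div_const (ε ^ 2)).const_add 1
    refine h.congr_deriv ?_
    norm_num
  have h2 := h1.rpow_const (p := (1 / 20 : ℝ)) (Or.inl h0.ne')
  have h3 : HasDerivAt (qq ε) _ t := h2
  refine h3.congr_deriv ?_
  unfold qq aa
  rw [Real.rpow_sub_one h0.ne']
  have h4 : 0 < ε ^ 2 + t ^ 2 := by positivity
  field_simp
  ring

theorem qq_one_le {ε t : ℝ} : 1 ≤ qq ε t := by
  unfold qq
  apply Real.one_le_rpow _ (by norm_num)
  have : 0 ≤ t ^ 2 / ε ^ 2 := by positivity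
  linarith

/-! ### The weight as a function of `λ` -/

/-- abstract weight -/
noncomputable def WF (s e l : ℝ) : ℝ := (1 + 2 * l) * ((1 + 2 * l) / (1 + l * s)) ^ 60 * (1 + l * e) ^ 30

theorem WW_eq {ε t k : ℝ} : WW ε k t = WF (√t) (el ε t) (la k) := by
  unfold WW WF
  rw [div_pow, pow_succ (1 + 2 * la k) 60]
  generalize (1 + 2 * la k) ^ 60 = A
  generalize (1 + la k * √t) ^ 60 = B
  generalize (1 + la k * el ε t) ^ 30 = C
  ring

theorem hfrac_mono {s l m : ℝ} (hs : 0 ≤ s) (hs2 : s ≤ 1) (hl : 0 ≤ l) (hlm : l ≤ m) :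
    (1 + 2 * l) / (1 + l * s) ≤ (1 + 2 * m) / (1 + m * s) := by
  have hm : 0 ≤ m := hl.trans hlm
  rw [div_le_div_iff₀ (by positivity) (by positivity)]
  linarith [mul_nonneg (sub_nonneg.2 hlm) (by linarith : (0:ℝ) ≤ 2 - s)]

theorem hfrac_one_le {s l : ℝ} (hs : 0 ≤ s) (hs2 : s ≤ 1) (hl : 0 ≤ l) :
    1 ≤ (1 + 2 * l) / (1 + l * s) := by
  rw [one_le_div (by positivity)]
  have := mul_le_mul_of_nonneg_left hs2 hl
  linarith

theorem hfrac_sub {s x y : ℝ} (hs : 0 ≤ s) (hs2 : s ≤ 1) (hx : 0 ≤ x) (hy : 0 ≤ y) :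
    (1 + 2 * (x + y)) / (1 + (x + y) * s) ≤
      (1 + 2 * x) / (1 + x * s) * ((1 + 2 * y) / (1 + y * s)) := by
  rw [div_mul_div_comm, div_le_div_iff₀ (by positivity) (by positivity)]
  have h1 : (1 + 2 * x) * (1 + 2 * y) * (1 + (x + y) * s) -
      (1 + 2 * (x + y)) * ((1 + x * s) * (1 + y * s)) =
      x * y * (4 - s ^ 2 + (x + y) * (4 * s - 2 * s ^ 2)) := by ring
  have h2 : 0 ≤ x * y * (4 - s ^ 2 + (x + y) * (4 * s - 2 * s ^ 2)) := by
    apply mul_nonneg (mul_nonneg hx hy)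
    have h3' := mul_le_mul_of_nonneg_left hs2 hs
    have h3 : 0 ≤ 4 * s - 2 * s ^ 2 := by linarith
    have h4 : 0 ≤ 4 - s ^ 2 := by linarith
    have := mul_nonneg (add_nonneg hx hy) h3
    linarith
  linarith

theorem WF_mono {s e l m : ℝ} (hs : 0 ≤ s) (hs2 : s ≤ 1) (he : 0 ≤ e) (hl : 0 ≤ l) (hlm : l ≤ m) :
    WF s e l ≤ WF s e m := by
  have hm : 0 ≤ m := hl.trans hlm
  unfold WF
  have h1 := hfrac_mono hs hs2 hl hlm
  have h0 : 0 ≤ (1 + 2 * l) / (1 + l * s) := by positivity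
  have h2' := mul_le_mul_of_nonneg_right hlm he
  have h2 : 1 + l * e ≤ 1 + m * e := by linarith
  have h3 : ((1 + 2 * l) / (1 + l * s)) ^ 60 ≤ ((1 + 2 * m) / (1 + m * s)) ^ 60 :=
    pow_le_pow_left₀ h0 h1 60
  have h4 : (1 + l * e) ^ 30 ≤ (1 + m * e) ^ 30 := pow_le_pow_left₀ (by positivity) h2 30
  have h5 : 1 + 2 * l ≤ 1 + 2 * m := by linarith
  exact mul_le_mul (mul_le_mul h5 h3 (by positivity) (by positivity)) h4 (by positivity)
    (by positivity)

theorem WF_ge {s e l : ℝ} (hs : 0 ≤ s) (hs2 : s ≤ 1) (he : 0 ≤ e) (hl : 0 ≤ l) :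
    1 + 2 * l ≤ WF s e l := by
  unfold WF
  have h1 := hfrac_one_le hs hs2 hl
  have h2' := mul_nonneg hl he
  have h2 : 1 ≤ 1 + l * e := by linarith
  have h3 : 1 ≤ ((1 + 2 * l) / (1 + l * s)) ^ 60 := one_le_pow₀ h1
  have h4 : 1 ≤ (1 + l * e) ^ 30 := one_le_pow₀ h2
  have h5 : 0 ≤ 1 + 2 * l := by positivity
  calc 1 + 2 * l = (1 + 2 * l) * 1 * 1 := by ring
    _ ≤ (1 + 2 * l) * ((1 + 2 * l) / (1 + l * s)) ^ 60 * (1 + l * e) ^ 30 := by gcongr

theorem WF_sub {s e x y : ℝ} (hs : 0 ≤ s) (hs2 : s ≤ 1) (he : 0 ≤ e) (hx : 0 ≤ x) (hy : 0 ≤ y) :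
    WF s e (x + y) ≤ WF s e x * WF s e y := by
  unfold WF
  have h1 := hfrac_sub hs hs2 hx hy
  have h0 : 0 ≤ (1 + 2 * (x + y)) / (1 + (x + y) * s) := by positivity
  have h2 : 1 + (x + y) * e ≤ (1 + x * e) * (1 + y * e) := by
    have : 0 ≤ x * y * e * e := by positivity
    linarith
  have h3 := pow_le_pow_left₀ h0 h1 60
  have h4 := pow_le_pow_left₀ (by positivity : 0 ≤ 1 + (x + y) * e) h2 30
  have h5 : 1 + 2 * (x + y) ≤ (1 + 2 * x) * (1 + 2 * y) := by
    have : 0 ≤ x * y := by positivity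
    linarith
  rw [mul_pow] at h3 h4
  calc (1 + 2 * (x + y)) * ((1 + 2 * (x + y)) / (1 + (x + y) * s)) ^ 60 * (1 + (x + y) * e) ^ 30
      ≤ ((1 + 2 * x) * (1 + 2 * y)) * (((1 + 2 * x) / (1 + x * s)) ^ 60 *
        ((1 + 2 * y) / (1 + y * s)) ^ 60) * ((1 + x * e) ^ 30 * (1 + y * e) ^ 30) :=
        mul_le_mul (mul_le_mul h5 h3 (by positivity) (by positivity)) h4 (by positivity)
          (by positivity)
    _ = _ := by
        generalize ((1 + 2 * x) / (1 + x * s)) ^ 60 = A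
        generalize ((1 + 2 * y) / (1 + y * s)) ^ 60 = B
        generalize (1 + x * e) ^ 30 = C
        generalize (1 + y * e) ^ 30 = D
        ring

theorem sqrt_le_one' {t : ℝ} (ht1 : t ≤ 1) : √t ≤ 1 := by
  exact Real.sqrt_le_one.2 ht1

theorem WW_one_le {ε t k : ℝ} (hε : 0 < ε) (ht : 0 ≤ t) (ht1 : t ≤ 1) :
    1 ≤ WW ε k t ∧ 1 + 2 * la k ≤ WW ε k t := by
  have h1 := WF_ge (Real.sqrt_nonneg t) (sqrt_le_one' ht1) (el_pos (t := t) hε).le (la_nonneg k)
  rw [← WW_eq] at h1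
  have := la_nonneg k
  exact ⟨by linarith, h1⟩

theorem la_add_le (k l : ℝ) : la (k + l) ≤ la k + la l := by
  unfold la
  have := abs_add_le k l
  linarith

theorem WW_sub {ε t k l : ℝ} (hε : 0 < ε) (ht : 0 ≤ t) (ht1 : t ≤ 1) :
    WW ε (k + l) t ≤ WW ε k t * WW ε l t := by
  have hs := Real.sqrt_nonneg t
  have hs1 := sqrt_le_one' ht1
  have he := (el_pos (t := t) hε).le
  rw [WW_eq, WW_eq, WW_eq]
  exact (WF_mono hs hs1 he (la_nonneg _) (la_add_le k l)).trans
    (WF_sub hs hs1 he (la_nonneg _) (la_nonneg _))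

theorem th_pos {ε t k : ℝ} (hε : 0 < ε) (ht : 0 ≤ t) : 0 < th ε k t := by
  obtain ⟨h1, h2, h3, h4, h5, h6⟩ := LL_bounds hε ht
  have hl := la_nonneg k
  unfold th
  positivity

theorem WW_th_sub {ε t k l : ℝ} (hε : 0 < ε) (ht : 0 ≤ t) (ht1 : t ≤ 1) :
    WW ε (k + l) t * th ε (k + l) t ≤ 2 * WW ε k t * (WW ε l t * th ε l t) := by
  obtain ⟨h1, h2, h3, h4, h5, h6⟩ := LL_bounds hε ht
  have hs := Real.sqrt_nonneg t
  have hs1 := sqrt_le_one' ht1
  have hk := la_nonneg k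
  have hl := la_nonneg l
  have hkl := la_nonneg (k + l)
  have hwk := (WW_one_le (k := k) hε ht ht1).1
  have hwl := (WW_one_le (k := l) hε ht ht1)
  have hwkl := (WW_one_le (k := k + l) hε ht ht1).1
  have htl := th_pos (k := l) hε ht
  have htkl := th_pos (k := k + l) hε ht
  rcases le_or_gt (la l) (2 * la (k + l)) with h | h
  · have h7 : th ε (k + l) t ≤ 2 * th ε l t := by
      unfold th
      rw [mul_div_assoc', div_le_div_iff₀ (by positivity) (by positivity)]
      have h8 : 1 + la l * LL ε t ≤ 2 * (1 + la (k + l) * LL ε t) := by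
        have := mul_le_mul_of_nonneg_right h h1.le
        linarith
      have := mul_le_mul_of_nonneg_left h8 (by positivity : 0 ≤ 7500 * LL ε t)
      linarith
    calc WW ε (k + l) t * th ε (k + l) t ≤ (WW ε k t * WW ε l t) * (2 * th ε l t) :=
          mul_le_mul (WW_sub hε ht ht1) h7 htkl.le
            (mul_nonneg (by linarith) (by linarith [hwl.1]))
      _ = _ := by ring
  · have h7 : la (k + l) ≤ la k := by
      have h8 : la l ≤ la (k + l) + la k := by
        have := la_add_le (k + l) (-k)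
        have e1 : k + l + -k = l := by ring
        have e2 : la (-k) = la k := by
          unfold la
          rw [abs_neg]
        rw [e1, e2] at this
        exact this
      linarith
    have h8 : WW ε (k + l) t ≤ WW ε k t := by
      rw [WW_eq, WW_eq]
      exact WF_mono hs hs1 h4.le hkl h7
    have h9 : th ε (k + l) t ≤ th ε l t * WW ε l t := by
      have h10 : th ε (k + l) t ≤ 7500 * LL ε t := by
        unfold th
        apply div_le_self (by positivity)
        have : 0 ≤ la (k + l) * LL ε t := by positivity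
        linarith
      have h11 : 7500 * LL ε t = th ε l t * (1 + la l * LL ε t) := by
        unfold th
        rw [div_mul_cancel₀]
        positivity
      have h12 : 1 + la l * LL ε t ≤ WW ε l t := by
        have h13 : LL ε t ≤ 2 := by linarith
        have h14 := mul_le_mul_of_nonneg_left h13 hl
        linarith [hwl.2]
      rw [h11] at h10
      exact h10.trans (mul_le_mul_of_nonneg_left h12 htl.le)
    have h10 : WW ε (k + l) t * th ε (k + l) t ≤ WW ε k t * (th ε l t * WW ε l t) :=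
      mul_le_mul h8 h9 htkl.le (by linarith)
    have h11 : 0 ≤ WW ε k t * (th ε l t * WW ε l t) :=
      mul_nonneg (by linarith) (mul_nonneg htl.le (by linarith [hwl.1]))
    calc WW ε (k + l) t * th ε (k + l) t ≤ WW ε k t * (th ε l t * WW ε l t) := h10
      _ ≤ 2 * (WW ε k t * (th ε l t * WW ε l t)) := by linarith
      _ = _ := by ring

theorem WW_le {ε t k : ℝ} (hε : 0 < ε) (ht : 0 ≤ t) : WW ε k t ≤ (1 + 2 * la k) ^ 91 := by
  obtain ⟨h1, h2, h3, h4, h5, h6⟩ := LL_bounds hε ht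
  have hk := la_nonneg k
  have hs := Real.sqrt_nonneg t
  unfold WW
  have h7 : 1 ≤ (1 + la k * √t) ^ 60 := by
    apply one_le_pow₀
    have : 0 ≤ la k * √t := by positivity
    linarith
  have h8 : (1 + la k * el ε t) ^ 30 ≤ (1 + 2 * la k) ^ 30 := by
    apply pow_le_pow_left₀ (by positivity)
    have := mul_le_mul_of_nonneg_left h5 hk
    linarith
  calc (1 + 2 * la k) ^ 61 * (1 + la k * el ε t) ^ 30 / (1 + la k * √t) ^ 60
      ≤ (1 + 2 * la k) ^ 61 * (1 + la k * el ε t) ^ 30 := div_le_self (by positivity) h7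
    _ ≤ (1 + 2 * la k) ^ 61 * (1 + 2 * la k) ^ 30 :=
        mul_le_mul_of_nonneg_left h8 (by positivity)
    _ = _ := by rw [← pow_add]

theorem th_inv {ε t k : ℝ} (hε : 0 < ε) (ht : 0 < t) (ht1 : t ≤ 1) :
    0 < th ε k t ∧ th ε k t ≤ 15000 ∧ (th ε k t)⁻¹ ≤ 1 / √t + |k| ∧
    (|k| + be ε t)⁻¹ = th ε k t / 75 ∧ |k| * th ε k t = 75 * sg ε k t ∧ 0 ≤ sg ε k t ∧
    sg ε k t ≤ 1 ∧ 0 < be ε t ∧ be ε t ≤ 1 / √t / 100 := by
  obtain ⟨h1, h2, h3, h4, h5, h6⟩ := LL_bounds hε ht.le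
  have hst : 0 < √t := Real.sqrt_pos.2 ht
  have hs1 := sqrt_le_one' ht1
  have hk := la_nonneg k
  have hka := abs_nonneg k
  have hq : 0 < 1 + la k * LL ε t := by positivity
  have hlk : la k = 100 * |k| := rfl
  have hinv : 1 / LL ε t ≤ 1 / √t := one_div_le_one_div_of_le hst h2
  refine ⟨th_pos hε ht.le, ?_, ?_, ?_, ?_, ?_, ?_, ?_, ?_⟩
  · unfold th
    rw [div_le_iff₀ hq]
    have : 0 ≤ la k * LL ε t := by positivity
    linarith
  · have h7 : (th ε k t)⁻¹ = 1 / 7500 * (1 / LL ε t) + 1 / 75 * |k| := by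
      unfold th
      rw [hlk, inv_div]
      field_simp
      ring
    rw [h7]
    have : 0 ≤ 1 / √t := by positivity
    linarith
  · unfold be th
    rw [hlk] at hq ⊢
    have h7 : |k| + 1 / (100 * LL ε t) = (1 + 100 * |k| * LL ε t) / (100 * LL ε t) := by
      field_simp
      ring
    rw [h7, inv_div]
    field_simp
    ring
  · unfold th sg
    rw [hlk]
    ring
  · unfold sg
    positivity
  · unfold sg
    rw [div_le_one hq]
    linarith
  · unfold be
    positivity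
  · unfold be
    have : 1 / (100 * LL ε t) = 1 / LL ε t / 100 := by
      field_simp
    rw [this]
    linarith

end Pool.Agent.Lib.MP_79abb3_an.P25
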