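import Mathlib

/-!
EN-1: the function tanh.
-/

set_option autoImplicit false

open MeasureTheory Set Filter Topology Function

namespace Pool.Agent.Lib.MP_79abb3_an.P25

theorem tanh_hasDerivAt (y : ℝ) : HasDerivAt Real.tanh (1 - Real.tanh y ^ 2) y := by
  have hc := Real.cosh_pos y
  have h1 : HasDerivAt (fun y => Real.sinh y / Real.cosh y)
      ((Real.cosh y * Real.cosh y - Real.sinh y * Real.sinh y) / Real.cosh y ^ 2) y :=
    (Real.hasDerivAt_sinh y).div (Real.hasDerivAt_cosh y) hc.ne'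
  have h2 : Real.tanh = fun y => Real.sinh y / Real.cosh y := by
    ext y
    exact Real.tanh_eq_sinh_div_cosh y
  rw [h2]
  refine h1.congr_deriv ?_
  simp only
  field_simp

theorem tanh_eq_exp (y : ℝ) : Real.tanh y = 1 - 2 / (Real.exp (2 * y) + 1) := by
  have h1 : Real.exp (2 * y) = Real.exp y * Real.exp y := by
    rw [← Real.exp_add]; congr 1; ring
  have h2 : Real.exp (-y) = (Real.exp y)⁻¹ := Real.exp_neg y
  have h3 := Real.exp_pos y
  rw [Real.tanh_eq_sinh_div_cosh, Real.sinh_eq, Real.cosh_eq, h1, h2]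
  have h4 : 0 < Real.exp y * Real.exp y + 1 := by positivity
  field_simp
  ring

theorem tanh_lt_one' (y : ℝ) : Real.tanh y < 1 := by
  rw [tanh_eq_exp]
  have := Real.exp_pos (2 * y)
  have : 0 < 2 / (Real.exp (2 * y) + 1) := by positivity
  linarith

theorem tanh_nonneg' {y : ℝ} (hy : 0 ≤ y) : 0 ≤ Real.tanh y := by
  rw [tanh_eq_exp]
  have h1 : 1 ≤ Real.exp (2 * y) := Real.one_le_exp (by linarith)
  have : 2 / (Real.exp (2 * y) + 1) ≤ 1 := by
    rw [div_le_one (by linarith)]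
    linarith
  linarith

theorem mono_of_der {F F' : ℝ → ℝ} (h : ∀ y, HasDerivAt F (F' y) y) (h0 : ∀ y, 0 ≤ y → 0 ≤ F' y)
    {y : ℝ} (hy : 0 ≤ y) : F 0 ≤ F y := by
  have h1 : MonotoneOn F (Ici 0) := by
    apply monotoneOn_of_deriv_nonneg (convex_Ici 0)
    · exact fun x _ => (h x).continuousAt.continuousWithinAt
    · exact fun x _ => (h x).differentiableAt.differentiableWithinAt
    · intro x hx
      rw [interior_Ici] at hx
      rw [(h x).deriv]
      exact h0 x (le_of_lt hx)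
  exact h1 (mem_Ici.2 le_rfl) (mem_Ici.2 hy) hy

/-- `artanh φ ≥ φ + φ³/3` -/
theorem tanh_series {y : ℝ} (hy : 0 ≤ y) : Real.tanh y + Real.tanh y ^ 3 / 3 ≤ y := by
  have h : ∀ y : ℝ, HasDerivAt (fun y => y - (Real.tanh y + Real.tanh y ^ 3 / 3))
      (Real.tanh y ^ 4) y := by
    intro y
    have h1 := tanh_hasDerivAt y
    have h2 := (hasDerivAt_id y).sub (h1.add ((h1.pow 3).div_const 3))
    refine h2.congr_deriv ?_
    ring
  have h2 := mono_of_der h (fun y _ => by positivity) hy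
  simp only [Real.tanh_zero] at h2
  linarith

/-- `log cosh y ≥ tanh² y / 2` -/
theorem logcosh_ge {y : ℝ} (hy : 0 ≤ y) : Real.tanh y ^ 2 / 2 ≤ Real.log (Real.cosh y) := by
  have h : ∀ y : ℝ, HasDerivAt (fun y => Real.log (Real.cosh y) - Real.tanh y ^ 2 / 2)
      (Real.tanh y ^ 3) y := by
    intro y
    have h1 := tanh_hasDerivAt y
    have h3 := (Real.hasDerivAt_cosh y).log (Real.cosh_pos y).ne'
    have h2 := h3.sub ((h1.pow 2).div_const 2)
    refine h2.congr_deriv ?_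
    rw [← Real.tanh_eq_sinh_div_cosh]
    ring
  have h2 := mono_of_der h (fun y hy => by
    have := tanh_nonneg' hy
    positivity) hy
  simp only [Real.tanh_zero, Real.cosh_zero, Real.log_one] at h2
  linarith

theorem tanh_c1 {x : ℝ} (hx : 0 ≤ x) : 0 ≤ 1 - Real.tanh (3 * x / 4) +
    (-(9 / 8) * Real.tanh (3 * x / 4) * (1 - Real.tanh (3 * x / 4) ^ 2)) +
    x / 2 * (3 / 4 * (1 - Real.tanh (3 * x / 4) ^ 2)) := by
  have hy : 0 ≤ 3 * x / 4 := by positivity
  have h1 := tanh_series hy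
  have h2 := tanh_nonneg' hy
  have h3 := tanh_lt_one' (3 * x / 4)
  generalize Real.tanh (3 * x / 4) = p at *
  have h4 : 0 ≤ 1 + (1 + p) * (-(9 / 8) * p + 3 / 8 * x) := by
    have h5 : -(5 / 8) * p + p ^ 3 / 6 ≤ -(9 / 8) * p + 3 / 8 * x := by linarith
    have h6 : 0 ≤ 1 + (1 + p) * (-(5 / 8) * p + p ^ 3 / 6) := by
      have h7 : 1 + (1 + p) * (-(5 / 8) * p + p ^ 3 / 6) =
          1 / 12 + (1 - p) * (11 / 12 + 7 / 24 * p - p ^ 2 / 3 - p ^ 3 / 6) := by ring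
      rw [h7]
      have h8 : 0 ≤ 11 / 12 + 7 / 24 * p - p ^ 2 / 3 - p ^ 3 / 6 := by
        have : p ^ 2 ≤ 1 := by nlinarith
        have : p ^ 3 ≤ 1 := by
          calc p ^ 3 ≤ 1 ^ 3 := by gcongr
            _ = 1 := by norm_num
        linarith
      have := mul_nonneg (sub_nonneg.2 h3.le) h8
      linarith
    have := mul_le_mul_of_nonneg_left h5 (by linarith : (0:ℝ) ≤ 1 + p)
    linarith
  have h5 := mul_nonneg (sub_nonneg.2 h3.le) h4
  calc (0:ℝ) ≤ (1 - p) * (1 + (1 + p) * (-(9 / 8) * p + 3 / 8 * x)) := h5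
    _ = _ := by ring

/-- Here `4/3 log cosh(3x/4) = ∫₀^x tanh(3s/4) ds`. -/
theorem tanh_c2 {x : ℝ} (hx : 0 ≤ x) : 0 ≤ Real.tanh (3 * x / 4) * (1 - Real.tanh (3 * x / 4)) +
    (4 / 3 * Real.log (Real.cosh (3 * x / 4))) * (3 / 4 * (1 - Real.tanh (3 * x / 4) ^ 2)) +
    (-(9 / 8) * Real.tanh (3 * x / 4) * (1 - Real.tanh (3 * x / 4) ^ 2)) +
    x / 2 * (3 / 4 * (1 - Real.tanh (3 * x / 4) ^ 2)) := by
  have hy : 0 ≤ 3 * x / 4 := by positivity
  have h1 := tanh_series hy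
  have h2 := tanh_nonneg' hy
  have h3 := tanh_lt_one' (3 * x / 4)
  have h9 := logcosh_ge hy
  generalize Real.tanh (3 * x / 4) = p at *
  generalize Real.log (Real.cosh (3 * x / 4)) = q at *
  have h4 : 0 ≤ p + (1 + p) * (q + (-(9 / 8) * p + 3 / 8 * x)) := by
    have h5 : p ^ 2 / 2 + (-(5 / 8) * p + p ^ 3 / 6) ≤ q + (-(9 / 8) * p + 3 / 8 * x) := by
      linarith
    have h6 : 0 ≤ p + (1 + p) * (p ^ 2 / 2 + (-(5 / 8) * p + p ^ 3 / 6)) := by
      have h7 : p + (1 + p) * (p ^ 2 / 2 + (-(5 / 8) * p + p ^ 3 / 6)) =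
          p * (3 / 8 - p / 8 + 2 / 3 * p ^ 2 + p ^ 3 / 6) := by ring
      rw [h7]
      have h8 : 0 ≤ 3 / 8 - p / 8 + 2 / 3 * p ^ 2 + p ^ 3 / 6 := by
        have : 0 ≤ p ^ 2 := by positivity
        have : 0 ≤ p ^ 3 := by positivity
        linarith
      exact mul_nonneg h2 h8
    have := mul_le_mul_of_nonneg_left h5 (by linarith : (0:ℝ) ≤ 1 + p)
    linarith
  have h5 := mul_nonneg (sub_nonneg.2 h3.le) h4
  calc (0:ℝ) ≤ (1 - p) * (p + (1 + p) * (q + (-(9 / 8) * p + 3 / 8 * x))) := h5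
    _ = _ := by ring

/-- Lower bounds for tanh. -/
theorem tanh_num {y0 y : ℝ} (h0 : 0 ≤ y0) (h : y0 ≤ y) :
    1 - 2 / ((1 + 2 * y0 + (2 * y0) ^ 2 / 2 + (2 * y0) ^ 3 / 6 + (2 * y0) ^ 4 / 24) + 1) ≤
      Real.tanh y := by
  rw [tanh_eq_exp]
  have h1 : 1 + 2 * y0 + (2 * y0) ^ 2 / 2 + (2 * y0) ^ 3 / 6 + (2 * y0) ^ 4 / 24 ≤
      Real.exp (2 * y) := by
    have h2 := Real.sum_le_exp_of_nonneg (by linarith : (0:ℝ) ≤ 2 * y0) 5
    have h3 : Real.exp (2 * y0) ≤ Real.exp (2 * y) := Real.exp_le_exp.2 (by linarith)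
    refine le_trans (le_trans (le_of_eq ?_) h2) h3
    simp only [Finset.sum_range_succ, Finset.sum_range_zero, Nat.factorial]
    norm_num
  have h2 : 0 ≤ 1 + 2 * y0 + (2 * y0) ^ 2 / 2 + (2 * y0) ^ 3 / 6 + (2 * y0) ^ 4 / 24 := by
    positivity
  have h3 : 2 / (Real.exp (2 * y) + 1) ≤
      2 / ((1 + 2 * y0 + (2 * y0) ^ 2 / 2 + (2 * y0) ^ 3 / 6 + (2 * y0) ^ 4 / 24) + 1) := by
    apply div_le_div_of_nonneg_left (by norm_num) (by linarith) (by linarith)
  linarith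

theorem inv_sq_ge {x b : ℝ} (hx : 0 < x) (h : x ≤ b) : 9 / 40 / b ^ 2 ≤ 9 / 40 / x ^ 2 := by
  apply div_le_div_of_nonneg_left (by norm_num) (by positivity)
  exact pow_le_pow_left₀ hx.le h 2

theorem tanh_c3 {x : ℝ} (hx : 0 < x) : 2 / 5 ≤ Real.tanh (3 * x / 4) / 2 + 9 / 40 / x ^ 2 := by
  have h0 : 0 ≤ Real.tanh (3 * x / 4) := tanh_nonneg' (by positivity)
  have h1 : 0 ≤ 9 / 40 / x ^ 2 := by positivity
  rcases le_or_gt x (3 / 4) with h | h
  · have := inv_sq_ge hx h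
    norm_num at this ⊢
    linarith
  rcases le_or_gt x 1 with h' | h'
  · have h2 := inv_sq_ge hx h'
    have h3 := tanh_num (y0 := 9 / 16) (y := 3 * x / 4) (by norm_num) (by linarith)
    norm_num at h2 h3 ⊢
    linarith
  rcases le_or_gt x (3 / 2) with h'' | h''
  · have h2 := inv_sq_ge hx h''
    have h3 := tanh_num (y0 := 3 / 4) (y := 3 * x / 4) (by norm_num) (by linarith)
    norm_num at h2 h3 ⊢
    linarith
  rcases le_or_gt x 2 with h'' | h''
  · have h2 := inv_sq_ge hx h''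
    have h3 := tanh_num (y0 := 9 / 8) (y := 3 * x / 4) (by norm_num) (by linarith)
    norm_num at h2 h3 ⊢
    linarith
  · have h3 := tanh_num (y0 := 3 / 2) (y := 3 * x / 4) (by norm_num) (by linarith)
    norm_num at h3 ⊢
    linarith

theorem tanh_c4 {x : ℝ} (hx : 0 < x) :
    3 / 2 ≤ 5 / 2 * Real.tanh (3 * x / 4) + 9 / 40 / x ^ 2 := by
  have h0 : 0 ≤ Real.tanh (3 * x / 4) := tanh_nonneg' (by positivity)
  have h1 : 0 ≤ 9 / 40 / x ^ 2 := by positivity
  rcases le_or_gt x (38 / 100) with h | h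
  · have := inv_sq_ge hx h
    norm_num at this ⊢
    linarith
  rcases le_or_gt x (1 / 2) with h' | h'
  · have h2 := inv_sq_ge hx h'
    have h3 := tanh_num (y0 := 3 * (38 / 100) / 4) (y := 3 * x / 4) (by norm_num) (by linarith)
    norm_num at h2 h3 ⊢
    linarith
  rcases le_or_gt x (3 / 5) with h'' | h''
  · have h2 := inv_sq_ge hx h''
    have h3 := tanh_num (y0 := 3 * (1 / 2) / 4) (y := 3 * x / 4) (by norm_num) (by linarith)
    norm_num at h2 h3 ⊢
    linarith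
  rcases le_or_gt x (7 / 10) with h3 | h3
  · have h2 := inv_sq_ge hx h3
    have h3 := tanh_num (y0 := 3 * (3 / 5) / 4) (y := 3 * x / 4) (by norm_num) (by linarith)
    norm_num at h2 h3 ⊢
    linarith
  rcases le_or_gt x (17 / 20) with h4 | h4
  · have h2 := inv_sq_ge hx h4
    have h3 := tanh_num (y0 := 3 * (7 / 10) / 4) (y := 3 * x / 4) (by norm_num) (by linarith)
    norm_num at h2 h3 ⊢
    linarith
  rcases le_or_gt x (11 / 10) with h5 | h5
  · have h2 := inv_sq_ge hx h5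
    have h3 := tanh_num (y0 := 3 * (17 / 20) / 4) (y := 3 * x / 4) (by norm_num) (by linarith)
    norm_num at h2 h3 ⊢
    linarith
  · have h3 := tanh_num (y0 := 3 * (11 / 10) / 4) (y := 3 * x / 4) (by norm_num) (by linarith)
    norm_num at h3 ⊢
    linarith

theorem tanh_c5 {x : ℝ} (_hx : 0 ≤ x) :
    1 - Real.tanh (3 * x / 4) ≤ 2 * Real.exp (-(3 / 2 * x)) := by
  have h1 : 2 * (3 * x / 4) = 3 / 2 * x := by ring
  rw [tanh_eq_exp, h1, Real.exp_neg]
  have h2 := Real.exp_pos (3 / 2 * x)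
  have h3 : 2 / (Real.exp (3 / 2 * x) + 1) ≤ 2 / Real.exp (3 / 2 * x) := by
    apply div_le_div_of_nonneg_left (by norm_num) h2 (by linarith)
  rw [← div_eq_mul_inv]
  linarith

end Pool.Agent.Lib.MP_79abb3_an.P25
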