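import Pool.Agent.Lib.MP_79abb3_an.P25.Hardy
import Pool.Agent.Lib.MP_79abb3_an.P25.Par
import Pool.Agent.Lib.MP_79abb3_an.P25.Tanh

/-!
EN-6: the linear estimate for one mode.
-/

set_option autoImplicit false
set_option linter.unusedSectionVars false

open MeasureTheory Set Filter Topology Function

namespace Pool.Agent.Lib.MP_79abb3_an.P25

namespace ML

section
variable {H : ℝ} [hH : Fact (0 < H)]

/-! ### Linearity of `inn` -/

theorem inn_add (b : ℝ) (f g h : CI H) : inn b (f + g) h = inn b f h + inn b g h := by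
  have hf := continuous_ex f
  have hg := continuous_ex g
  have hh := continuous_ex h
  unfold inn
  rw [← intervalIntegral.integral_add]
  · congr 1
    ext z
    rw [ex_add, add_mul, Complex.add_re]
    ring
  · apply Continuous.intervalIntegrable
    exact Continuous.mul (by fun_prop) (Complex.continuous_re.comp (hf.mul hh.star))
  · apply Continuous.intervalIntegrable
    exact Continuous.mul (by fun_prop) (Complex.continuous_re.comp (hg.mul hh.star))

theorem inn_neg (b : ℝ) (f h : CI H) : inn b (-f) h = -inn b f h := by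
  unfold inn
  rw [← intervalIntegral.integral_neg]
  congr 1
  ext z
  rw [ex_neg, neg_mul, Complex.neg_re]
  ring

theorem inn_sub (b : ℝ) (f g h : CI H) : inn b (f - g) h = inn b f h - inn b g h := by
  rw [sub_eq_add_neg, inn_add, inn_neg, sub_eq_add_neg]

theorem inn_rsmul (b c : ℝ) (f h : CI H) : inn b (c • f) h = c * inn b f h := by
  unfold inn
  rw [← intervalIntegral.integral_const_mul]
  congr 1
  ext z
  rw [ex_rsmul, mul_assoc (c : ℂ), Complex.re_ofReal_mul]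
  ring

/-! ### The base profile -/

/-- `∫₀^z g` for the real part of `g`. -/
noncomputable def Gb (g : CI H) (z : ℝ) : ℝ := ∫ y in (0:ℝ)..z, (ex g y).re

theorem Gb_der (g : CI H) (z : ℝ) : HasDerivAt (Gb g) (ex g z).re z := by
  have hc : Continuous fun y => (ex g y).re := Complex.continuous_re.comp (continuous_ex g)
  exact intervalIntegral.integral_hasDerivAt_right (hc.intervalIntegrable _ _)
      (hc.stronglyMeasurableAtFilter _ _) hc.continuousAt

theorem Gb_cont (g : CI H) : Continuous (Gb g) :=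
  continuous_iff_continuousAt.2 fun z => (Gb_der g z).continuousAt

theorem Eop0 {g : CI H} (hre : ∀ z ∈ Icc (0:ℝ) H, (ex g z).im = 0) {z : ℝ} (hz : z ∈ Icc (0:ℝ) H) :
    ex (Eop 0 g) z = ((Gb g z : ℝ) : ℂ) := by
  rw [Eop_apply 0 g hz, Gb, ← intervalIntegral.integral_ofReal]
  apply intervalIntegral.integral_congr
  intro y hy
  rw [uIcc_of_le hz.1] at hy
  have hy' : y ∈ Icc (0:ℝ) H := ⟨hy.1, hy.2.trans hz.2⟩
  have h1 : ex g y = (((ex g y).re : ℝ) : ℂ) := by
    apply Complex.ext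
    · rw [Complex.ofReal_re]
    · rw [Complex.ofReal_im, hre y hy']
  show ((Real.exp (-|0| * (z - y)) : ℝ) : ℂ) * ex g y = (((ex g y).re : ℝ) : ℂ)
  rw [abs_zero, neg_zero, zero_mul, Real.exp_zero, Complex.ofReal_one, one_mul]
  exact h1

/-- The transport term. -/
theorem transport (b : ℝ) {g f f1 : CI H} (hre : ∀ z ∈ Icc (0:ℝ) H, (ex g z).im = 0)
    (hd : IsD f f1) (h0 : ex f 0 = 0) (h1 : ex f H = 0) :
    inn b (Eop 0 g * f1) f =
      -(1 / 2) * (∫ z in (0:ℝ)..H, Real.exp (2 * b * z) * ((ex g z).re * ‖ex f z‖ ^ 2)) -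
        b * ∫ z in (0:ℝ)..H, Real.exp (2 * b * z) * (Gb g z * ‖ex f z‖ ^ 2) := by
  have hcf := continuous_ex f
  have hcf1 := continuous_ex f1
  have hcg : Continuous fun y => (ex g y).re := Complex.continuous_re.comp (continuous_ex g)
  have hcG := Gb_cont g
  have hc1 : Continuous fun z => Real.exp (2 * b * z) * ((ex g z).re * ‖ex f z‖ ^ 2) := by
    fun_prop
  have hc2 : Continuous fun z => Real.exp (2 * b * z) * (Gb g z * ‖ex f z‖ ^ 2) := by
    fun_prop
  have hc3 : Continuous fun z => Real.exp (2 * b * z) * (Gb g z * (ex f1 z * star (ex f z)).re) := by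
    exact Continuous.mul (by fun_prop) (hcG.mul (Complex.continuous_re.comp (hcf1.mul hcf.star)))
  have e1 : inn b (Eop 0 g * f1) f =
      ∫ z in (0:ℝ)..H, Real.exp (2 * b * z) * (Gb g z * (ex f1 z * star (ex f z)).re) := by
    unfold inn
    apply intervalIntegral.integral_congr
    intro z hz
    rw [uIcc_of_le hH.out.le] at hz
    show Real.exp (2 * b * z) * (ex (Eop 0 g * f1) z * star (ex f z)).re = _
    rw [ex_mul, Eop0 hre hz, mul_assoc ((Gb g z : ℝ) : ℂ), Complex.re_ofReal_mul]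
  have e2 : ∫ z in (0:ℝ)..H, (2 * b * (Real.exp (2 * b * z) * (Gb g z * ‖ex f z‖ ^ 2)) +
      Real.exp (2 * b * z) * ((ex g z).re * ‖ex f z‖ ^ 2) +
      2 * (Real.exp (2 * b * z) * (Gb g z * (ex f1 z * star (ex f z)).re))) = 0 := by
    rw [intervalIntegral.integral_eq_sub_of_hasDerivAt_of_le hH.out.le
      (f := fun z => Real.exp (2 * b * z) * (Gb g z * ‖ex f z‖ ^ 2))]
    · rw [h0, h1]; simp
    · exact hc2.continuousOn
    · intro x hx
      have hx' : x ∈ Icc (0:ℝ) H := ⟨hx.1.le, hx.2.le⟩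
      have d1 : HasDerivAt (ex f) (ex f1 x) x := (hd x hx').hasDerivAt (Icc_mem_nhds hx.1 hx.2)
      have d2 := d1.norm_sq
      have d3 := (Gb_der g x).mul d2
      have d4 : HasDerivAt (fun z => Real.exp (2 * b * z)) (2 * b * Real.exp (2 * b * x)) x := by
        have := ((hasDerivAt_id x).const_mul (2 * b)).exp
        simp only [id_eq, mul_one] at this
        rw [mul_comm (2 * b)]
        exact this
      have d5 := d4.mul d3
      refine d5.congr_deriv ?_
      rw [Complex.inner]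
      have : (ex f1 x * (starRingEnd ℂ) (ex f x)).re = (ex f1 x * star (ex f x)).re := rfl
      rw [this, Pi.mul_apply]
      ring
    · exact ((((hc2.const_mul (2 * b)).add hc1).add (hc3.const_mul 2))).intervalIntegrable _ _
  rw [intervalIntegral.integral_add, intervalIntegral.integral_add,
    intervalIntegral.integral_const_mul, intervalIntegral.integral_const_mul] at e2
  · rw [e1]; linarith
  · exact (hc2.const_mul (2 * b)).intervalIntegrable _ _
  · exact hc1.intervalIntegrable _ _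
  · exact ((hc2.const_mul (2 * b)).add hc1).intervalIntegrable _ _
  · exact (hc3.const_mul 2).intervalIntegrable _ _

/-! ### Elementary facts on the parameters -/

theorem aa_nonneg {ε t : ℝ} (hε : 0 < ε) (ht : 0 ≤ t) : 0 ≤ aa ε t := by
  unfold aa; positivity

theorem aa_le {ε t : ℝ} (hε : 0 < ε) (ht : 0 < t) : aa ε t ≤ 1 / t := by
  unfold aa
  rw [div_le_div_iff₀ (by positivity) ht]
  nlinarith [sq_pos_of_pos hε]

/-- The local terms. -/
theorem local_bd {ε t b c κ : ℝ} (hε : 0 < ε) (ht : 0 < t) (hc : 0 ≤ c)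
    (hpt : ∀ x : ℝ, 0 < x → κ ≤ c * Real.tanh (3 * x / 4) + 9 / 40 / x ^ 2)
    {g g1 f f1 : CI H} (hg : BaseAt ε t g g1) (hd : IsD f f1) (h0 : ex f 0 = 0) :
    κ * aa ε t * nrm b f ^ 2 ≤
      c * (∫ z in (0:ℝ)..H, Real.exp (2 * b * z) * ((ex g z).re * ‖ex f z‖ ^ 2)) +
        9 / 10 * nrm b (f1 + b • f) ^ 2 := by
  obtain ⟨hi, hh⟩ := hardy (b := b) hd h0
  have hcf := continuous_ex f
  have hcg : Continuous fun y => (ex g y).re := Complex.continuous_re.comp (continuous_ex g)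
  have hc1 : Continuous fun z => Real.exp (2 * b * z) * ((ex g z).re * ‖ex f z‖ ^ 2) := by
    fun_prop
  have hc2 : Continuous fun z => Real.exp (2 * b * z) * ‖ex f z‖ ^ 2 := by
    fun_prop
  have ha := aa_nonneg hε ht.le
  have hat := aa_le hε ht
  have hs : 0 < √t := Real.sqrt_pos.2 ht
  have key : ∫ z in (0:ℝ)..H, κ * aa ε t * (Real.exp (2 * b * z) * ‖ex f z‖ ^ 2) ≤
      ∫ z in (0:ℝ)..H, (c * (Real.exp (2 * b * z) * ((ex g z).re * ‖ex f z‖ ^ 2)) +
        9 / 40 * (Real.exp (2 * b * z) * (‖ex f z‖ ^ 2 / z ^ 2))) := by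
    apply intervalIntegral.integral_mono_on hH.out.le
    · exact (hc2.const_mul _).intervalIntegrable _ _
    · exact ((hc1.const_mul _).intervalIntegrable _ _).add (hi.const_mul _)
    · intro z hz
      rcases hz.1.eq_or_lt with h | h
      · rw [← h, h0]; simp
      · have hx : 0 < z / √t := div_pos h hs
        have h3 := hpt _ hx
        have h4 := hg.low z hz
        have h5 : (z / √t) ^ 2 = z ^ 2 / t := by
          rw [div_pow, Real.sq_sqrt ht.le]
        rw [h5] at h3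
        have h6 : κ * aa ε t ≤ c * (ex g z).re + 9 / 40 / z ^ 2 := by
          have h7 : κ * aa ε t ≤ (c * Real.tanh (3 * (z / √t) / 4) + 9 / 40 / (z ^ 2 / t)) * aa ε t :=
            mul_le_mul_of_nonneg_right h3 ha
          have h8 : 9 / 40 / (z ^ 2 / t) * aa ε t ≤ 9 / 40 / z ^ 2 := by
            have h9 : 9 / 40 / (z ^ 2 / t) = 9 / 40 / z ^ 2 * t := by
              field_simp
            rw [h9]
            have h10 : t * aa ε t ≤ 1 := by
              calc t * aa ε t ≤ t * (1 / t) := mul_le_mul_of_nonneg_left hat ht.le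
                _ = 1 := by field_simp
            have h11 : 0 ≤ 9 / 40 / z ^ 2 := by positivity
            nlinarith
          have h12 : c * Real.tanh (3 * (z / √t) / 4) * aa ε t ≤ c * (ex g z).re := by
            have := mul_le_mul_of_nonneg_left h4 hc
            linarith
          linarith
        have h13 : 0 ≤ Real.exp (2 * b * z) * ‖ex f z‖ ^ 2 := by positivity
        have h14 := mul_le_mul_of_nonneg_right h6 h13
        refine h14.trans (le_of_eq ?_)
        ring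
  rw [intervalIntegral.integral_const_mul, ← nrm_sq, intervalIntegral.integral_add,
    intervalIntegral.integral_const_mul, intervalIntegral.integral_const_mul] at key
  · linarith
  · exact (hc1.const_mul _).intervalIntegrable _ _
  · exact hi.const_mul _

theorem int_exp {r : ℝ} (hr : 0 < r) (z : ℝ) :
    ∫ y in (0:ℝ)..z, Real.exp (-(r * y)) = (1 - Real.exp (-(r * z))) / r := by
  have h1 : ∀ x ∈ uIcc (0:ℝ) z, HasDerivAt (fun x => -(1 / r) * Real.exp (-(r * x)))
      (Real.exp (-(r * x))) x := by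
    intro x _
    have h2 := (((hasDerivAt_id x).const_mul r).neg.exp).const_mul (-(1 / r))
    refine h2.congr_deriv ?_
    simp only [id_eq, mul_one]
    field_simp
    rfl
  rw [intervalIntegral.integral_eq_sub_of_hasDerivAt h1
    (Continuous.intervalIntegrable (by fun_prop) _ _)]
  rw [mul_zero, neg_zero, Real.exp_zero]
  field_simp
  ring

/-- Lower bound for `∫₀^z g`. -/
theorem Gb_low {ε t : ℝ} (hε : 0 < ε) (ht : 0 < t) {g g1 : CI H} (hg : BaseAt ε t g g1) {z : ℝ}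
    (hz : z ∈ Icc (0:ℝ) H) : aa ε t * (z - 4 / 3 * √t) ≤ Gb g z := by
  have ha := aa_nonneg hε ht.le
  have hs : 0 < √t := Real.sqrt_pos.2 ht
  have hcg : Continuous fun y => (ex g y).re := Complex.continuous_re.comp (continuous_ex g)
  have hr : 0 < 3 / (2 * √t) := by positivity
  have h1 : ∫ y in (0:ℝ)..z, (aa ε t * (1 - 2 * Real.exp (-(3 / (2 * √t) * y)))) ≤ Gb g z := by
    unfold Gb
    apply intervalIntegral.integral_mono_on hz.1
    · exact Continuous.intervalIntegrable (by fun_prop) _ _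
    · exact hcg.intervalIntegrable _ _
    · intro y hy
      have hy' : y ∈ Icc (0:ℝ) H := ⟨hy.1, hy.2.trans hz.2⟩
      refine le_trans ?_ (hg.low y hy')
      apply mul_le_mul_of_nonneg_left _ ha
      have := tanh_c5 (x := y / √t) (div_nonneg hy.1 hs.le)
      have h2 : 3 / 2 * (y / √t) = 3 / (2 * √t) * y := by field_simp
      rw [h2] at this
      linarith
  refine le_trans ?_ h1
  rw [intervalIntegral.integral_const_mul, intervalIntegral.integral_sub,
    intervalIntegral.integral_const_mul, int_exp hr, intervalIntegral.integral_const]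
  · apply mul_le_mul_of_nonneg_left _ ha
    rw [smul_eq_mul, mul_one, sub_zero]
    have h3 := Real.exp_pos (-(3 / (2 * √t) * z))
    have h4 : 2 * ((1 - Real.exp (-(3 / (2 * √t) * z))) / (3 / (2 * √t))) =
        4 / 3 * √t * (1 - Real.exp (-(3 / (2 * √t) * z))) := by
      field_simp
      ring
    rw [h4]
    nlinarith [mul_pos hs h3]
  · exact Continuous.intervalIntegrable (by fun_prop) _ _
  · exact Continuous.intervalIntegrable (by fun_prop) _ _

/-- Transport and change of the weight. -/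
theorem trans_bd {ε t : ℝ} (hε : 0 < ε) (ht : 0 < t) {g g1 f : CI H} (hg : BaseAt ε t g g1) :
    -((1 / (2 * √t) - aa ε t * el ε t) / (100 * LL ε t ^ 2)) * zin (be ε t) f -
      be ε t * (∫ z in (0:ℝ)..H, Real.exp (2 * be ε t * z) * (Gb g z * ‖ex f z‖ ^ 2)) ≤
    1 / 75 * aa ε t * nrm (be ε t) f ^ 2 := by
  have ha := aa_nonneg hε ht.le
  have hs : 0 < √t := Real.sqrt_pos.2 ht
  obtain ⟨hL, hsL, hlL, hl0, hl1, hL1⟩ := LL_bounds hε ht.le
  have hcf := continuous_ex f
  have hcG := Gb_cont g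
  set b := be ε t with hb
  have hbL : b = 1 / (100 * LL ε t) := rfl
  have hb0 : 0 < b := by rw [hbL]; positivity
  rw [nrm_sq, zin, ← intervalIntegral.integral_const_mul, ← intervalIntegral.integral_const_mul,
    ← intervalIntegral.integral_const_mul, ← intervalIntegral.integral_sub]
  · apply intervalIntegral.integral_mono_on hH.out.le
    · exact Continuous.intervalIntegrable (by fun_prop) _ _
    · exact Continuous.intervalIntegrable (by fun_prop) _ _
    · intro z hz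
      have hG := Gb_low hε ht hg hz
      have hw : 0 ≤ Real.exp (2 * b * z) * ‖ex f z‖ ^ 2 := by positivity
      have h1 : -((1 / (2 * √t) - aa ε t * el ε t) / (100 * LL ε t ^ 2)) * z ≤ b * (aa ε t * z) := by
        have h2 : -((1 / (2 * √t) - aa ε t * el ε t) / (100 * LL ε t ^ 2)) ≤
            aa ε t * el ε t / (100 * LL ε t ^ 2) := by
          rw [← neg_div]
          apply div_le_div_of_nonneg_right _ (by positivity)
          have : 0 < 1 / (2 * √t) := by positivity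
          linarith
        have h3 : aa ε t * el ε t / (100 * LL ε t ^ 2) ≤ b * aa ε t := by
          rw [hbL, div_mul_eq_mul_div, one_mul, div_le_div_iff₀ (by positivity) (by positivity)]
          have : aa ε t * el ε t ≤ aa ε t * LL ε t := mul_le_mul_of_nonneg_left hlL ha
          nlinarith
        have h4 := mul_le_mul_of_nonneg_right (h2.trans h3) hz.1
        linarith
      have h5 : b * √t ≤ 1 / 100 := by
        rw [hbL, div_mul_eq_mul_div, one_mul, div_le_div_iff₀ (by positivity) (by positivity)]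
        linarith
      have h6 : -((1 / (2 * √t) - aa ε t * el ε t) / (100 * LL ε t ^ 2)) * z - b * Gb g z ≤
          1 / 75 * aa ε t := by
        have h7 := mul_le_mul_of_nonneg_left hG hb0.le
        have h8 := mul_le_mul_of_nonneg_left h5 ha
        nlinarith
      have h9 := mul_le_mul_of_nonneg_right h6 hw
      refine le_trans (le_of_eq ?_) h9
      ring
  · exact Continuous.intervalIntegrable (by fun_prop) _ _
  · exact Continuous.intervalIntegrable (by fun_prop) _ _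

theorem be_sqrt {ε t : ℝ} (hε : 0 < ε) (ht : 0 < t) : 0 < be ε t ∧ be ε t * √t ≤ 1 / 100 := by
  obtain ⟨hL, hsL, -⟩ := LL_bounds hε ht.le
  have hbL : be ε t = 1 / (100 * LL ε t) := rfl
  refine ⟨by rw [hbL]; positivity, ?_⟩
  rw [hbL, div_mul_eq_mul_div, one_mul, div_le_div_iff₀ (by positivity) (by positivity)]
  linarith

/-- The integral `∫ z g1² w`. -/
theorem K_bd {ε t : ℝ} (hε : 0 < ε) (ht : 0 < t) {g g1 : CI H} (hg : BaseAt ε t g g1) :
    ∫ z in (0:ℝ)..H, z * (Real.exp (2 * be ε t * z) * (ex g1 z).re ^ 2) ≤ 9 / 16 * aa ε t ^ 2 := by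
  have ha := aa_nonneg hε ht.le
  have hs : 0 < √t := Real.sqrt_pos.2 ht
  obtain ⟨hb0, hbs⟩ := be_sqrt hε ht
  set b := be ε t
  set a := aa ε t
  have hcg : Continuous fun y => (ex g y).re := Complex.continuous_re.comp (continuous_ex g)
  have hcg1 : Continuous fun y => (ex g1 y).re := Complex.continuous_re.comp (continuous_ex g1)
  -- step 1
  have h1 : ∫ z in (0:ℝ)..H, z * (Real.exp (2 * b * z) * (ex g1 z).re ^ 2) ≤
      ∫ z in (0:ℝ)..H, Real.exp (2 * b * z) * ((ex g z).re * (ex g1 z).re) := by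
    apply intervalIntegral.integral_mono_on hH.out.le
    · exact Continuous.intervalIntegrable (by fun_prop) _ _
    · exact Continuous.intervalIntegrable (by fun_prop) _ _
    · intro z hz
      have h2 := hg.star z hz
      have h3 := hg.mono z hz
      have h4 := mul_le_mul_of_nonneg_right h2 h3
      have h5 := mul_le_mul_of_nonneg_left h4 (Real.exp_pos (2 * b * z)).le
      refine le_trans (le_of_eq ?_) h5
      ring
  -- step 2
  have h2 : ∫ z in (0:ℝ)..H, (2 * b * (Real.exp (2 * b * z) * (a ^ 2 - (ex g z).re ^ 2)) -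
      2 * (Real.exp (2 * b * z) * ((ex g z).re * (ex g1 z).re))) = -a ^ 2 := by
    rw [intervalIntegral.integral_eq_sub_of_hasDerivAt_of_le hH.out.le
      (f := fun z => Real.exp (2 * b * z) * (a ^ 2 - (ex g z).re ^ 2))]
    · rw [hg.h, hg.z]; simp [a]
    · exact (Continuous.mul (by fun_prop) (by fun_prop)).continuousOn
    · intro x hx
      have hx' : x ∈ Icc (0:ℝ) H := ⟨hx.1.le, hx.2.le⟩
      have d1 : HasDerivAt (ex g) (ex g1 x) x := (hg.d x hx').hasDerivAt (Icc_mem_nhds hx.1 hx.2)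
      have d2 : HasDerivAt (fun z => (ex g z).re) (ex g1 x).re x := by
        have := (Complex.reCLM.hasFDerivAt (x := ex g x)).comp_hasDerivAt x d1
        exact this
      have d3 := (d2.pow 2).const_sub (a ^ 2)
      have d4 : HasDerivAt (fun z => Real.exp (2 * b * z)) (2 * b * Real.exp (2 * b * x)) x := by
        have := ((hasDerivAt_id x).const_mul (2 * b)).exp
        simp only [id_eq, mul_one] at this
        rw [mul_comm (2 * b)]
        exact this
      have d5 := d4.mul d3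
      refine d5.congr_deriv ?_
      simp only [Pi.pow_apply]
      ring
    · exact Continuous.intervalIntegrable (by fun_prop) _ _
  have hc1 : Continuous fun z => Real.exp (2 * b * z) * (a ^ 2 - (ex g z).re ^ 2) := by fun_prop
  have hc2 : Continuous fun z => Real.exp (2 * b * z) * ((ex g z).re * (ex g1 z).re) := by fun_prop
  rw [intervalIntegral.integral_sub ((hc1.const_mul _).intervalIntegrable _ _)
    ((hc2.const_mul _).intervalIntegrable _ _), intervalIntegral.integral_const_mul,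
    intervalIntegral.integral_const_mul] at h2
  -- step 3
  have hr : 0 < 3 / (2 * √t) - 2 * b := by
    have : 2 * b < 3 / (2 * √t) := by
      rw [lt_div_iff₀ (by positivity)]
      nlinarith
    linarith
  have h3 : ∫ z in (0:ℝ)..H, Real.exp (2 * b * z) * (a ^ 2 - (ex g z).re ^ 2) ≤
      ∫ z in (0:ℝ)..H, 4 * a ^ 2 * Real.exp (-((3 / (2 * √t) - 2 * b) * z)) := by
    apply intervalIntegral.integral_mono_on hH.out.le
    · exact hc1.intervalIntegrable _ _
    · exact Continuous.intervalIntegrable (by fun_prop) _ _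
    · intro z hz
      have h4 := hg.low z hz
      have h5 := tanh_c5 (x := z / √t) (div_nonneg hz.1 hs.le)
      have h6 : 3 / 2 * (z / √t) = 3 / (2 * √t) * z := by field_simp
      rw [h6] at h5
      have h7 := hg.le z hz
      have h8 := hg.nn z hz
      have h9 : a - (ex g z).re ≤ 2 * a * Real.exp (-(3 / (2 * √t) * z)) := by
        have := mul_le_mul_of_nonneg_left h5 ha
        linarith
      have h10 : a ^ 2 - (ex g z).re ^ 2 ≤ 4 * a ^ 2 * Real.exp (-(3 / (2 * √t) * z)) := by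
        calc a ^ 2 - (ex g z).re ^ 2 = (a - (ex g z).re) * (a + (ex g z).re) := by ring
          _ ≤ (2 * a * Real.exp (-(3 / (2 * √t) * z))) * (a + a) := by
              apply mul_le_mul h9 (by linarith) (by linarith)
              have := Real.exp_pos (-(3 / (2 * √t) * z))
              positivity
          _ = _ := by ring
      have h11 := mul_le_mul_of_nonneg_left h10 (Real.exp_pos (2 * b * z)).le
      refine h11.trans (le_of_eq ?_)
      have h12 : Real.exp (-((3 / (2 * √t) - 2 * b) * z)) =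
          Real.exp (2 * b * z) * Real.exp (-(3 / (2 * √t) * z)) := by
        rw [← Real.exp_add]; congr 1; ring
      rw [h12]
      ring
  rw [intervalIntegral.integral_const_mul, int_exp hr] at h3
  have h4 : b * ((1 - Real.exp (-((3 / (2 * √t) - 2 * b) * H))) / (3 / (2 * √t) - 2 * b)) ≤
      1 / 148 := by
    rw [← mul_div_assoc, div_le_iff₀ hr]
    have h5 := Real.exp_pos (-((3 / (2 * √t) - 2 * b) * H))
    have h6 : 150 * b ≤ 3 / (2 * √t) := by
      rw [le_div_iff₀ (by positivity)]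
      nlinarith
    nlinarith [mul_pos hb0 h5]
  have h5 : 2 * b * (∫ z in (0:ℝ)..H, Real.exp (2 * b * z) * (a ^ 2 - (ex g z).re ^ 2)) ≤
      8 * a ^ 2 * (1 / 148) := by
    have h6 := mul_le_mul_of_nonneg_left h3 (by linarith : 0 ≤ 2 * b)
    have h7 := mul_le_mul_of_nonneg_left h4 (by positivity : 0 ≤ 8 * a ^ 2)
    refine h6.trans (le_trans (le_of_eq ?_) h7)
    ring
  nlinarith [sq_nonneg a]

theorem om_bd {k b : ℝ} (hb : 0 ≤ b) (x : Xn H) {z : ℝ} (hz : z ∈ Icc (0:ℝ) H) :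
    ‖ex (om k (jn x)) z‖ ≤ √z * (nrm b x.1.1 + |k| * nrm b x.2.1) := by
  have h1 := Eop_sqrt (k := k) hb x.1.1 hz
  have h2 := Eop_sqrt (k := k) hb x.2.1 hz
  have h3 : ex (om k (jn x)) z = -(ex (Eop k x.1.1) z) - (is k * ((|k| : ℝ) : ℂ)) * ex (Eop k x.2.1) z := rfl
  rw [h3]
  refine (norm_sub_le _ _).trans ?_
  rw [norm_neg, norm_mul, norm_mul, Complex.norm_real, Real.norm_eq_abs, abs_abs]
  have h4 : ‖is k‖ * |k| * ‖ex (Eop k x.2.1) z‖ ≤ 1 * |k| * (√z * nrm b x.2.1) := by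
    gcongr
    exact norm_is_le k
  linarith

theorem g1om_bd {ε t k : ℝ} (hε : 0 < ε) (ht : 0 < t) {g g1 : CI H} (hg : BaseAt ε t g g1) (x : Xn H) :
    nrm (be ε t) (g1 * om k (jn x)) ≤
      3 / 4 * aa ε t * (nrm (be ε t) x.1.1 + |k| * nrm (be ε t) x.2.1) := by
  have ha := aa_nonneg hε ht.le
  obtain ⟨hb0, hbs⟩ := be_sqrt hε ht
  have hK := K_bd hε ht hg
  set b := be ε t
  set N := nrm b x.1.1 + |k| * nrm b x.2.1 with hN
  have hN0 : 0 ≤ N := by
    have h1 := nrm_nonneg b x.1.1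
    have h2 := nrm_nonneg b x.2.1
    positivity
  have hcg1 : Continuous fun y => (ex g1 y).re := Complex.continuous_re.comp (continuous_ex g1)
  have hc := continuous_ex (g1 * om k (jn x))
  refine (pow_le_pow_iff_left₀ (nrm_nonneg _ _) (by positivity) two_ne_zero).1 ?_
  rw [nrm_sq]
  have h1 : ∫ z in (0:ℝ)..H, Real.exp (2 * b * z) * ‖ex (g1 * om k (jn x)) z‖ ^ 2 ≤
      ∫ z in (0:ℝ)..H, N ^ 2 * (z * (Real.exp (2 * b * z) * (ex g1 z).re ^ 2)) := by
    apply intervalIntegral.integral_mono_on hH.out.le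
    · exact Continuous.intervalIntegrable (by fun_prop) _ _
    · exact Continuous.intervalIntegrable (by fun_prop) _ _
    · intro z hz
      have h2 := om_bd (k := k) hb0.le x hz
      have h3 : ex g1 z = (((ex g1 z).re : ℝ) : ℂ) := by
        apply Complex.ext
        · rw [Complex.ofReal_re]
        · rw [Complex.ofReal_im, (hg.re z hz).2]
      have h4 : ‖ex g1 z‖ ^ 2 = (ex g1 z).re ^ 2 := by
        rw [h3, Complex.norm_real, Real.norm_eq_abs, sq_abs, Complex.ofReal_re]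
      have h5 : ‖ex (om k (jn x)) z‖ ^ 2 ≤ z * N ^ 2 := by
        calc ‖ex (om k (jn x)) z‖ ^ 2 ≤ (√z * N) ^ 2 := by gcongr
          _ = z * N ^ 2 := by rw [mul_pow, Real.sq_sqrt hz.1]
      rw [ex_mul, norm_mul, mul_pow, h4]
      have h6 : 0 ≤ Real.exp (2 * b * z) * (ex g1 z).re ^ 2 := by positivity
      have h7 := mul_le_mul_of_nonneg_left h5 h6
      refine le_trans (le_of_eq ?_) (h7.trans (le_of_eq ?_))
      · ring
      · ring
  refine h1.trans ?_
  rw [intervalIntegral.integral_const_mul]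
  have h2 := mul_le_mul_of_nonneg_left hK (sq_nonneg N)
  refine h2.trans (le_of_eq ?_)
  ring

theorem inn_g {ε t b : ℝ} {g g1 : CI H} (hg : BaseAt ε t g g1) (f : CI H) :
    inn b (g * f) f = ∫ z in (0:ℝ)..H, Real.exp (2 * b * z) * ((ex g z).re * ‖ex f z‖ ^ 2) := by
  unfold inn
  apply intervalIntegral.integral_congr
  intro z hz
  rw [uIcc_of_le hH.out.le] at hz
  have h3 : ex g z = (((ex g z).re : ℝ) : ℂ) := by
    apply Complex.ext
    · rw [Complex.ofReal_re]
    · rw [Complex.ofReal_im, (hg.re z hz).1]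
  show Real.exp (2 * b * z) * (ex (g * f) z * star (ex f z)).re = _
  have h4 : (ex f z * star (ex f z)).re = ‖ex f z‖ ^ 2 := by
    have h5 : star (ex f z) = (starRingEnd ℂ) (ex f z) := rfl
    rw [h5, Complex.mul_conj, Complex.ofReal_re, Complex.normSq_eq_norm_sq]
  rw [ex_mul, mul_assoc (ex g z), h3, Complex.re_ofReal_mul, h4]

theorem norm_g_le {ε t : ℝ} {g g1 : CI H} (hg : BaseAt ε t g g1) {z : ℝ} (hz : z ∈ Icc (0:ℝ) H) :
    ‖ex g z‖ ≤ aa ε t := by
  have h3 : ex g z = (((ex g z).re : ℝ) : ℂ) := by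
    apply Complex.ext
    · rw [Complex.ofReal_re]
    · rw [Complex.ofReal_im, (hg.re z hz).1]
  rw [h3, Complex.norm_real, Real.norm_eq_abs, abs_of_nonneg (hg.nn z hz)]
  exact hg.le z hz

theorem be_sq {ε t : ℝ} (hε : 0 < ε) (ht : 0 < t) : be ε t ^ 2 ≤ (aa ε t + 1) / 5000 := by
  have h := LL_inv_sq hε ht.le
  have h1 : be ε t ^ 2 = 1 / LL ε t ^ 2 / 10000 := by
    unfold be
    rw [div_pow, mul_pow, one_pow, div_div]
    congr 1
    ring
  rw [h1]
  linarith

theorem ab_le (A B : ℝ) : A * B ≤ (A ^ 2 + B ^ 2) / 2 := by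
  have h := two_mul_le_add_sq A B
  linarith

theorem three_le {z : ℂ} (h : ‖z‖ ≤ 1) : ‖(3:ℂ)‖ * ‖z‖ ≤ 3 := by
  have : ‖(3:ℂ)‖ = 3 := by simp
  rw [this]; linarith

theorem two_div (r : ℝ) : 2 / r = 2 * (1 / r) := by ring

theorem hq_aux {X Y L l : ℝ} (h : X / L ≤ Y) (hY : 0 ≤ Y) (hl : 0 ≤ l * L) :
    X / L / (1 + l * L) ≤ Y := by
  rw [div_le_iff₀ (by linarith)]
  exact h.trans (le_mul_of_one_le_right hY (by linarith))

/-- Algebra at the end. -/
theorem final {a σ s κ b A G B θ Dν Dγ p zν zγ I1 I2 J1 J2 e1 e2 e3 e4 q : ℝ}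
    (ha : 0 ≤ a) (hσ : 0 ≤ σ) (hs : 1 ≤ s) (hb : b ^ 2 ≤ (a + 1) / 5000) (hG : 0 ≤ G)
    (hθ : 0 ≤ θ) (hB : B = θ * G) (hκθ : κ * θ = 75 * σ)
    (h1 : p * zν - b * I2 ≤ 1 / 75 * a * A ^ 2) (h2 : p * zγ - b * J2 ≤ 1 / 75 * a * G ^ 2)
    (h3 : 2 / 5 * a * A ^ 2 ≤ 1 / 2 * I1 + 9 / 10 * Dν ^ 2)
    (h4 : 3 / 2 * a * G ^ 2 ≤ 5 / 2 * J1 + 9 / 10 * Dγ ^ 2)
    (h5 : |e1| ≤ κ * (θ / 75 * (a * A)) * A) (h6 : |e2| ≤ 3 * (θ / 75 * (a * G)) * A)
    (h7 : |e3| ≤ θ / 75 * (3 / 4 * a * (G + κ * A)) * A)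
    (h8 : |e4| ≤ 3 / 4 * a * (G + κ * A) * G) (hq : q ≤ a / 2 + s) :
    (p * zν - Dν ^ 2 + b ^ 2 * A ^ 2 - κ ^ 2 * A ^ 2 + (-(1 / 2) * I1 - b * I2 + e1 - e2 - e3)) +
      θ ^ 2 * (p * zγ - Dγ ^ 2 + b ^ 2 * G ^ 2 - κ ^ 2 * G ^ 2 +
        (-(1 / 2) * J1 - b * J2 - 2 * J1 - e4)) + θ ^ 2 * q * G ^ 2 -
      30 * a * σ * (A ^ 2 + θ ^ 2 * G ^ 2) ≤
    -(1 / 10) * ((Dν ^ 2 + κ ^ 2 * A ^ 2) + θ ^ 2 * (Dγ ^ 2 + κ ^ 2 * G ^ 2)) +
      (2 * s - a / 5) * (A ^ 2 + θ ^ 2 * G ^ 2) := by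
  subst hB
  have hθ2 : 0 ≤ θ ^ 2 := sq_nonneg _
  have k1 : e1 ≤ σ * a * A ^ 2 := by
    linear_combination (le_abs_self e1) + h5 + (a * A ^ 2 / 75) * hκθ
  have k2 : -e2 ≤ 1 / 25 * a * (A * (θ * G)) := by
    linear_combination (neg_abs_le e2) + h6
  have k3 : -e3 ≤ 1 / 100 * a * (A * (θ * G)) + 3 / 4 * σ * a * A ^ 2 := by
    linear_combination (neg_abs_le e3) + h7 + (a * A ^ 2 / 100) * hκθ
  have k4 : θ ^ 2 * (-e4) ≤ 3 / 4 * a * (θ * G) ^ 2 + 225 / 4 * σ * a * (A * (θ * G)) := by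
    linear_combination θ ^ 2 * (neg_abs_le e4) + θ ^ 2 * h8 + 3 / 4 * a * A * (θ * G) * hκθ
  have k5 := mul_le_mul_of_nonneg_left h2 hθ2
  have k6 := mul_le_mul_of_nonneg_left h4 hθ2
  have k7 : q * (θ * G) ^ 2 ≤ (a / 2 + s) * (θ * G) ^ 2 :=
    mul_le_mul_of_nonneg_right hq (sq_nonneg _)
  have k8 : b ^ 2 * A ^ 2 ≤ (a + 1) / 5000 * A ^ 2 := mul_le_mul_of_nonneg_right hb (sq_nonneg _)
  have k9 : b ^ 2 * (θ * G) ^ 2 ≤ (a + 1) / 5000 * (θ * G) ^ 2 :=
    mul_le_mul_of_nonneg_right hb (sq_nonneg _)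
  have hAB : A * (θ * G) ≤ (A ^ 2 + (θ * G) ^ 2) / 2 := ab_le A (θ * G)
  have k10 : a * (A * (θ * G)) ≤ a * ((A ^ 2 + (θ * G) ^ 2) / 2) := mul_le_mul_of_nonneg_left hAB ha
  have k11 : σ * a * (A * (θ * G)) ≤ σ * a * ((A ^ 2 + (θ * G) ^ 2) / 2) :=
    mul_le_mul_of_nonneg_left hAB (mul_nonneg hσ ha)
  have k12 : 0 ≤ a * A ^ 2 := mul_nonneg ha (sq_nonneg _)
  have k13 : 0 ≤ a * (θ * G) ^ 2 := mul_nonneg ha (sq_nonneg _)
  have k14 : 0 ≤ σ * a * A ^ 2 := mul_nonneg (mul_nonneg hσ ha) (sq_nonneg _)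
  have k15 : 0 ≤ σ * a * (θ * G) ^ 2 := mul_nonneg (mul_nonneg hσ ha) (sq_nonneg _)
  have k16 : A ^ 2 ≤ s * A ^ 2 := le_mul_of_one_le_left (sq_nonneg A) hs
  have k17 : (θ * G) ^ 2 ≤ s * (θ * G) ^ 2 := le_mul_of_one_le_left (sq_nonneg _) hs
  have k18 : 0 ≤ κ ^ 2 * A ^ 2 := mul_nonneg (sq_nonneg _) (sq_nonneg _)
  have k19 : 0 ≤ κ ^ 2 * (θ * G) ^ 2 := mul_nonneg (sq_nonneg _) (sq_nonneg _)
  have k20 : 0 ≤ A ^ 2 := sq_nonneg A
  have k21 : 0 ≤ (θ * G) ^ 2 := sq_nonneg _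
  linear_combination h1 + h3 + k5 + k6 + k1 + k2 + k3 + k4 + k7 + k8 + k9 + (1 / 20) * k10 +
    (225 / 4) * k11 + (1211 / 7500) * k12 + (43 / 3750) * k13 + (1 / 8) * k14 + (15 / 8) * k15 +
    2 * k16 + k17 + (9 / 10) * k18 + (9 / 10) * k19 + (9999 / 5000) * k20 + (4999 / 5000) * k21

end

end ML

section
variable {H : ℝ} [hH : Fact (0 < H)]

theorem mode_linear {ε t k : ℝ} (hε : 0 < ε) (hε1 : ε ≤ 1) (ht : 0 < t) (ht1 : t ≤ 1) {g g1 : CI H}
    (hg : BaseAt ε t g g1) {x : Xn H} (hx : Dmode k x) :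
    (-((1 / (2 * √t) - aa ε t * el ε t) / (100 * LL ε t ^ 2)) * zin (be ε t) x.2.1 -
        nrm (be ε t) (x.2.2.1 + be ε t • x.2.1) ^ 2 + be ε t ^ 2 * nrm (be ε t) x.2.1 ^ 2 -
        k ^ 2 * nrm (be ε t) x.2.1 ^ 2 + inn (be ε t) (Lam k g g1 x).2 x.2.1) +
    th ε k t ^ 2 *
      (-((1 / (2 * √t) - aa ε t * el ε t) / (100 * LL ε t ^ 2)) * zin (be ε t) x.1.1 -
        nrm (be ε t) (x.1.2.1 + be ε t • x.1.1) ^ 2 + be ε t ^ 2 * nrm (be ε t) x.1.1 ^ 2 -
        k ^ 2 * nrm (be ε t) x.1.1 ^ 2 + inn (be ε t) (Lam k g g1 x).1 x.1.1) +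
    th ε k t ^ 2 * ((1 / (2 * √t) - aa ε t * el ε t) / LL ε t / (1 + la k * LL ε t)) *
      nrm (be ε t) x.1.1 ^ 2 -
    30 * aa ε t * sg ε k t * En (be ε t) (th ε k t) x ^ 2 ≤
    -(1 / 10) * Dn (be ε t) (th ε k t) x ^ 2 +
      (2 / √t - aa ε t / 5) * En (be ε t) (th ε k t) x ^ 2 := by
  have ha := ML.aa_nonneg hε ht.le
  have hs : 0 < √t := Real.sqrt_pos.2 ht
  have hs1 : √t ≤ 1 := by
    rw [← Real.sqrt_one]; exact Real.sqrt_le_sqrt ht1
  obtain ⟨hθ0, -, -, hθi, hθσ, hσ0, hσ1, hb0, -⟩ := th_inv (k := k) hε ht ht1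
  have hLlog := LL_log hε hε1 ht ht1
  obtain ⟨hL, hsL, hlL, hl0, hl1, hL1⟩ := LL_bounds hε ht.le
  have hg1om := ML.g1om_bd (k := k) hε ht hg x
  have hlocν := ML.local_bd (b := be ε t) (c := 1 / 2) (κ := 2 / 5) hε ht (by norm_num)
    (fun x hx => by have := tanh_c3 hx; linarith) hg hx.d2 hx.z2
  have hlocγ := ML.local_bd (b := be ε t) (c := 5 / 2) (κ := 3 / 2) hε ht (by norm_num)
    (fun x hx => tanh_c4 hx) hg hx.d1 hx.z1
  have htrν := ML.trans_bd (f := x.2.1) hε ht hg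
  have htrγ := ML.trans_bd (f := x.1.1) hε ht hg
  have hEν := ML.transport (be ε t) (fun z hz => (hg.re z hz).1) hx.d2 hx.z2 hx.h2
  have hEγ := ML.transport (be ε t) (fun z hz => (hg.re z hz).1) hx.d1 hx.z1 hx.h1
  have hb2 := ML.be_sq hε ht
  have hgg := ML.inn_g (b := be ε t) hg x.1.1
  have hLam2 : inn (be ε t) (Lam k g g1 x).2 x.2.1 =
      inn (be ε t) (Eop 0 g * x.2.2.1) x.2.1 + inn (be ε t) (|k| • Top k (g * x.2.1)) x.2.1 -
        inn (be ε t) ((3 * is k) • Top k (g * x.1.1)) x.2.1 -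
        inn (be ε t) (is k • Top k (g1 * om k (jn x))) x.2.1 := by
    show inn (be ε t) (Eop 0 g * x.2.2.1 + |k| • Top k (g * x.2.1) - (3 * is k) • Top k (g * x.1.1) -
     is k • Top k (g1 * om k (jn x))) x.2.1 = _
    rw [ML.inn_sub, ML.inn_sub, ML.inn_add]
  have hLam1 : inn (be ε t) (Lam k g g1 x).1 x.1.1 =
      inn (be ε t) (Eop 0 g * x.1.2.1) x.1.1 - 2 * inn (be ε t) (g * x.1.1) x.1.1 -
        inn (be ε t) (g1 * om k (jn x)) x.1.1 := by
    show inn (be ε t) (Eop 0 g * x.1.2.1 - (2:ℝ) • (g * x.1.1) - g1 * om k (jn x)) x.1.1 = _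
    rw [ML.inn_sub, ML.inn_sub, ML.inn_rsmul]
  have hA := nrm_nonneg (be ε t) x.2.1
  have hG := nrm_nonneg (be ε t) x.1.1
  have his := norm_is_le k
  have hgν : nrm (be ε t) (g * x.2.1) ≤ aa ε t * nrm (be ε t) x.2.1 :=
    nrm_mul_le ha (fun z hz => ML.norm_g_le hg hz)
  have hgγ : nrm (be ε t) (g * x.1.1) ≤ aa ε t * nrm (be ε t) x.1.1 :=
    nrm_mul_le ha (fun z hz => ML.norm_g_le hg hz)
  have hT : ∀ f : CI H, nrm (be ε t) (Top k f) ≤ th ε k t / 75 * nrm (be ε t) f := by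
    intro f
    rw [← hθi]
    exact Top_nrm hb0 f
  have hθ75 : 0 ≤ th ε k t / 75 := div_nonneg hθ0.le (by norm_num)
  have b1 : |inn (be ε t) (|k| • Top k (g * x.2.1)) x.2.1| ≤
      |k| * (th ε k t / 75 * (aa ε t * nrm (be ε t) x.2.1)) * nrm (be ε t) x.2.1 := by
    refine (inn_le _ _ _).trans (mul_le_mul_of_nonneg_right ?_ hA)
    rw [nrm_rsmul, abs_abs]
    exact mul_le_mul_of_nonneg_left ((hT _).trans (mul_le_mul_of_nonneg_left hgν hθ75)) (abs_nonneg k)
  have b2 : |inn (be ε t) ((3 * is k) • Top k (g * x.1.1)) x.2.1| ≤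
      3 * (th ε k t / 75 * (aa ε t * nrm (be ε t) x.1.1)) * nrm (be ε t) x.2.1 := by
    refine (inn_le _ _ _).trans (mul_le_mul_of_nonneg_right ?_ hA)
    rw [nrm_smul, norm_mul]
    exact mul_le_mul (ML.three_le his) ((hT _).trans (mul_le_mul_of_nonneg_left hgγ hθ75))
      (nrm_nonneg _ _) (by norm_num)
  have b3 : |inn (be ε t) (is k • Top k (g1 * om k (jn x))) x.2.1| ≤
      th ε k t / 75 * (3 / 4 * aa ε t * (nrm (be ε t) x.1.1 + |k| * nrm (be ε t) x.2.1)) *
        nrm (be ε t) x.2.1 := by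
    refine (inn_le _ _ _).trans (mul_le_mul_of_nonneg_right ?_ hA)
    rw [nrm_smul]
    exact (mul_le_of_le_one_left (nrm_nonneg _ _) his).trans
      ((hT _).trans (mul_le_mul_of_nonneg_left hg1om hθ75))
  have b4 : |inn (be ε t) (g1 * om k (jn x)) x.1.1| ≤
      3 / 4 * aa ε t * (nrm (be ε t) x.1.1 + |k| * nrm (be ε t) x.2.1) * nrm (be ε t) x.1.1 :=
    (inn_le _ _ _).trans (mul_le_mul_of_nonneg_right hg1om hG)
  have hq : (1 / (2 * √t) - aa ε t * el ε t) / LL ε t / (1 + la k * LL ε t) ≤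
      aa ε t / 2 + 1 / √t :=
    ML.hq_aux hLlog (add_nonneg (div_nonneg ha (by norm_num)) (one_div_nonneg.2 hs.le))
      (mul_nonneg (la_nonneg k) hL.le)
  have hEn : En (be ε t) (th ε k t) x ^ 2 =
      nrm (be ε t) x.2.1 ^ 2 + th ε k t ^ 2 * nrm (be ε t) x.1.1 ^ 2 := by
    unfold En
    exact Real.sq_sqrt (add_nonneg (sq_nonneg _) (mul_nonneg (sq_nonneg _) (sq_nonneg _)))
  have hDn : Dn (be ε t) (th ε k t) x ^ 2 =
      (nrm (be ε t) (x.2.2.1 + be ε t • x.2.1) ^ 2 + |k| ^ 2 * nrm (be ε t) x.2.1 ^ 2) +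
      th ε k t ^ 2 * (nrm (be ε t) (x.1.2.1 + be ε t • x.1.1) ^ 2 +
        |k| ^ 2 * nrm (be ε t) x.1.1 ^ 2) := by
    unfold Dn
    rw [Real.sq_sqrt (add_nonneg (add_nonneg (sq_nonneg _) (sq_nonneg _))
      (mul_nonneg (sq_nonneg _) (add_nonneg (sq_nonneg _) (sq_nonneg _)))),
      hx.e1, hx.e2, nrm_rsmul, nrm_rsmul, abs_abs, mul_pow, mul_pow]
  have hfin := ML.final (a := aa ε t) (σ := sg ε k t) (s := 1 / √t) (κ := |k|) (b := be ε t)
    (A := nrm (be ε t) x.2.1) (G := nrm (be ε t) x.1.1) (θ := th ε k t)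
    (B := th ε k t * nrm (be ε t) x.1.1) ha hσ0
    ((one_le_div hs).2 hs1) hb2 hG hθ0.le rfl hθσ htrν htrγ
    hlocν hlocγ b1 b2 b3 b4 hq
  rw [hLam2, hLam1, hEν, hEγ, hgg, hEn, hDn]
  rw [sq_abs] at hfin ⊢
  rw [ML.two_div (√t)]
  exact hfin

end

end Pool.Agent.Lib.MP_79abb3_an.P25
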