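import Pool.Agent.Lib.MP_79abb3_an.P25.EnDef

/-!
Weighted energies of the modes of a perturbation.
-/

set_option autoImplicit false
set_option linter.unusedSectionVars false

open MeasureTheory Set Filter Topology Function

namespace Pool.Agent.Lib.MP_79abb3_an.P25

/-- Polynomial weights. -/
noncomputable def Wq (m : ℕ) (n : ℤ) : ℝ := (1 + |(n : ℝ)|) ^ m

section
variable {H : ℝ} [hH : Fact (0 < H)]

/-- Weighted energy of the mode `n`. -/
noncomputable def Ye (ε ω : ℝ) (u : ℝ → L1 (Xn H)) (n : ℤ) (t : ℝ) : ℝ :=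
  qq ε t * WW ε (ω * n) t * En (be ε t) (th ε (ω * n) t) (u t n)

/-- Weighted dissipation of the mode `n`. -/
noncomputable def De (ε ω : ℝ) (u : ℝ → L1 (Xn H)) (n : ℤ) (t : ℝ) : ℝ :=
  qq ε t * WW ε (ω * n) t * Dn (be ε t) (th ε (ω * n) t) (u t n)

/-- Weighted size of the quadratic terms. -/
noncomputable def Fe (ε ω : ℝ) (u : ℝ → L1 (Xn H)) (n : ℤ) (t : ℝ) : ℝ :=
  qq ε t * WW ε (ω * n) t * (nrm (be ε t) (Bf ω (u t) (u t) n).2 +
    th ε (ω * n) t * nrm (be ε t) (Bf ω (u t) (u t) n).1)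

/-- The base flow on `[0,1]`. -/
structure BaseFlow (ε : ℝ) (g g1 : ℝ → CI H) : Prop where
  c : ContinuousOn g (Icc 0 1)
  c1 : ContinuousOn g1 (Icc 0 1)
  at' : ∀ t ∈ Ioc (0:ℝ) 1, BaseAt ε t (g t) (g1 t)

end

end Pool.Agent.Lib.MP_79abb3_an.P25
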