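import Pool.Agent.Lib.MP_79abb3_an.P25.EnergyId
import Pool.Agent.Lib.MP_79abb3_an.P25.LinSrc
import Pool.Agent.Lib.MP_79abb3_an.P25.ModeLin
import Pool.Agent.Lib.MP_79abb3_an.P25.SumDef

/-!
The differential inequality of one mode.
-/

set_option autoImplicit false
set_option linter.unusedSectionVars false

open MeasureTheory Set Filter Topology Function

namespace Pool.Agent.Lib.MP_79abb3_an.P25

/-! Continuity of the parameters. -/

theorem mo_el_cont {ε : ℝ} (hε : 0 < ε) : Continuous (el ε) := by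
  have h1 : ∀ t : ℝ, √(t ^ 2 + ε ^ 2) ≠ 0 := fun t => (Real.sqrt_pos.2 (by positivity)).ne'
  exact continuous_const.div (by fun_prop) h1

theorem mo_LL_cont {ε : ℝ} (hε : 0 < ε) : Continuous (LL ε) :=
  (mo_el_cont hε).add Real.continuous_sqrt

theorem mo_LL_pos {ε t : ℝ} (hε : 0 < ε) : 0 < LL ε t := by
  have h1 : 0 < √(t ^ 2 + ε ^ 2) := Real.sqrt_pos.2 (by positivity)
  have h2 : 0 < el ε t := div_pos hε h1
  have h3 := Real.sqrt_nonneg t
  exact add_pos_of_pos_of_nonneg h2 h3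

theorem mo_la_nonneg (k : ℝ) : 0 ≤ la k := by unfold la; positivity

theorem mo_be_cont {ε : ℝ} (hε : 0 < ε) : Continuous (be ε) := by
  unfold be
  exact continuous_const.div (continuous_const.mul (mo_LL_cont hε)) fun t => by
    have := mo_LL_pos (ε := ε) (t := t) hε
    positivity

theorem mo_th_cont {ε k : ℝ} (hε : 0 < ε) : Continuous (th ε k) := by
  unfold th
  have hc := mo_LL_cont hε
  exact (continuous_const.mul hc).div (continuous_const.add (continuous_const.mul hc)) fun t => by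
    have h1 := mo_LL_pos (ε := ε) (t := t) hε
    have h2 := mo_la_nonneg k
    positivity

theorem mo_WW_cont {ε k : ℝ} (hε : 0 < ε) : Continuous (WW ε k) := by
  unfold WW
  have hc := mo_el_cont hε
  refine (continuous_const.mul ((continuous_const.add (continuous_const.mul hc)).pow 30)).div
    ((continuous_const.add (continuous_const.mul Real.continuous_sqrt)).pow 60) fun t => ?_
  have h2 := mo_la_nonneg k
  have h3 := Real.sqrt_nonneg t
  positivity

theorem mo_WW_pos {ε k t : ℝ} (hε : 0 < ε) : 0 < WW ε k t := by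
  unfold WW
  have h2 := mo_la_nonneg k
  have h3 := Real.sqrt_nonneg t
  have h4 : 0 < el ε t := div_pos hε (Real.sqrt_pos.2 (by positivity))
  positivity

theorem mo_qq_cont {ε : ℝ} (hε : 0 < ε) : Continuous (qq ε) := by
  unfold qq
  refine Continuous.rpow_const (by fun_prop) fun t => Or.inl ?_
  positivity

theorem mo_th_nonneg {ε k t : ℝ} (hε : 0 < ε) : 0 ≤ th ε k t := by
  unfold th
  have h1 := mo_LL_pos (ε := ε) (t := t) hε
  have h2 := mo_la_nonneg k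
  positivity

section
variable {H : ℝ} [hH : Fact (0 < H)]

theorem mo_nrm_cont {s : Set ℝ} {β : ℝ → ℝ} {f : ℝ → CI H} (hβ : Continuous β)
    (hf : ContinuousOn f s) : ContinuousOn (fun t => nrm (β t) (f t)) s :=
  nrm_continuous.comp_continuousOn (hβ.continuousOn.prodMk hf)

theorem mo_En_sq (b θ : ℝ) (x : Xn H) : En b θ x ^ 2 = nrm b x.2.1 ^ 2 + θ ^ 2 * nrm b x.1.1 ^ 2 := by
  unfold En
  exact Real.sq_sqrt (by positivity)

theorem mo_En_nonneg (b θ : ℝ) (x : Xn H) : 0 ≤ En b θ x := Real.sqrt_nonneg _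

theorem mo_nrm_le_En (b θ : ℝ) (x : Xn H) : nrm b x.2.1 ≤ En b θ x := by
  unfold En
  exact Real.le_sqrt_of_sq_le (by nlinarith [sq_nonneg (θ * nrm b x.1.1)])

theorem mo_th_nrm_le_En (b θ : ℝ) (x : Xn H) : θ * nrm b x.1.1 ≤ En b θ x := by
  unfold En
  exact Real.le_sqrt_of_sq_le (by nlinarith [sq_nonneg (nrm b x.2.1)])

/-- The quadratic form is continuous. -/
theorem mo_Bf_cont {ω a b : ℝ} {u : ℝ → L1 (Xn H)} (hu : ContinuousOn u (Icc a b)) (n : ℤ) :
    ContinuousOn (fun t => Bf ω (u t) (u t) n) (Icc a b) := by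
  obtain ⟨C0, _, hB⟩ := exists_BW H
  have hW1 : Wt 1 (fun _ => (1:ℝ)) := ⟨fun _ => le_rfl, fun _ _ => by norm_num, rfl⟩
  obtain ⟨B, hBW, _⟩ := hB ω 1 (fun _ => 1) le_rfl hW1
  have h1 : ContinuousOn (fun t => B (u t) (u t)) (Icc a b) := (B.continuous.comp_continuousOn hu).clm_apply hu
  have h2 : Continuous fun x : L1 (Yn H) => x n :=
    (continuous_apply n).comp (lp.uniformContinuous_coe (E := fun _ : ℤ => Yn H)).continuous
  refine (h2.comp_continuousOn h1).congr fun t _ => ?_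
  have h3 := hBW (u t) (u t) n
  simp only [inv_one, one_smul] at h3
  exact h3.symm

theorem mo_alg {q W w a σ N1 N2 θ τ L1 L2 B1 B2 R1 R2 F E D r : ℝ} (hW : 0 ≤ W)
    (hw : w ≤ -(30 * a * σ) * W) (hE2 : E ^ 2 = N2 + θ ^ 2 * N1) (ha : 0 ≤ a) (hB2 : B2 ≤ L2 + R2)
    (hB1 : B1 ≤ L1 + R1)
    (hlin : L2 + θ ^ 2 * L1 + θ ^ 2 * τ * N1 - 30 * a * σ * E ^ 2 ≤
      -(1 / 10) * D ^ 2 + (2 / r - a / 5) * E ^ 2) (hF : R2 + θ ^ 2 * R1 ≤ F * E) :
    2 * (q * W) * (a / 10 * q * W + q * w) * (N2 + θ ^ 2 * N1) +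
      (q * W) ^ 2 * (2 * B2 + (2 * θ * (θ * τ) * N1 + θ ^ 2 * (2 * B1))) ≤
      -(1 / 5) * (q * W * D) ^ 2 + 4 / r * (q * W * E) ^ 2 + 2 * (q * W * F) * (q * W * E) := by
  rw [← hE2]
  have h1 : 2 * q ^ 2 * W * E ^ 2 * w ≤ 2 * q ^ 2 * W * E ^ 2 * (-(30 * a * σ) * W) :=
    mul_le_mul_of_nonneg_left hw (by positivity)
  have h2 : (q * W) ^ 2 * (2 * B2 + (2 * θ * (θ * τ) * N1 + θ ^ 2 * (2 * B1))) ≤
      (q * W) ^ 2 * (2 * (L2 + R2) + (2 * θ * (θ * τ) * N1 + θ ^ 2 * (2 * (L1 + R1)))) := by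
    gcongr
  have h3 : (q * W) ^ 2 * (2 * (L2 + θ ^ 2 * L1 + θ ^ 2 * τ * N1 - 30 * a * σ * E ^ 2)) ≤
      (q * W) ^ 2 * (2 * (-(1 / 10) * D ^ 2 + (2 / r - a / 5) * E ^ 2)) := by
    gcongr
  have h4 : (q * W) ^ 2 * (2 * (R2 + θ ^ 2 * R1)) ≤ (q * W) ^ 2 * (2 * (F * E)) := by
    gcongr
  have h5 : 0 ≤ (q * W) ^ 2 * (a / 5 * E ^ 2) := by positivity
  have e1 : 2 * (q * W) * (a / 10 * q * W + q * w) * E ^ 2 =
      (q * W) ^ 2 * (a / 5 * E ^ 2) + 2 * q ^ 2 * W * E ^ 2 * w := by ring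
  have e2 : -(1 / 5) * (q * W * D) ^ 2 + 4 / r * (q * W * E) ^ 2 + 2 * (q * W * F) * (q * W * E) =
      (q * W) ^ 2 * (2 * (-(1 / 10) * D ^ 2 + (2 / r - a / 5) * E ^ 2)) +
      2 * ((q * W) ^ 2 * (a / 5 * E ^ 2)) + (q * W) ^ 2 * (2 * (F * E)) := by ring
  rw [e1, e2]
  linarith

/-- SA-1: the differential inequality of one mode. -/
theorem mode_ode {ε b ω : ℝ} (hε : 0 < ε) (hε1 : ε ≤ 1) (hb0 : 0 ≤ b)
    (hb : b ≤ 1) {g g1 : ℝ → CI H} (hg : BaseFlow ε g g1) {u : ℝ → L1 (Xn H)}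
    (hu : PT ω 0 b (fun t => U0 (g t) (g1 t)) (fun _ => 0) u) (n : ℤ) :
    ContinuousOn (Ye ε ω u n) (Icc 0 b) ∧ ContinuousOn (De ε ω u n) (Icc 0 b) ∧
    ContinuousOn (Fe ε ω u n) (Icc 0 b) ∧
    ∀ t ∈ Ioo 0 b, ∃ y', HasDerivAt (fun t => Ye ε ω u n t ^ 2) y' t ∧
      y' ≤ -(1 / 5) * De ε ω u n t ^ 2 + 4 / √t * Ye ε ω u n t ^ 2 +
        2 * Fe ε ω u n t * Ye ε ω u n t := by
  have hcu : ContinuousOn u (Icc 0 b) := by
    have := hu.lt.cX
    rwa [sdiff_empty] at this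
  have hcn : ContinuousOn (fun t => u t n) (Icc 0 b) := by
    have h1 : Continuous fun x : L1 (Xn H) => x n :=
      (continuous_apply n).comp (lp.uniformContinuous_coe (E := fun _ : ℤ => Xn H)).continuous
    exact h1.comp_continuousOn hcu
  have hcγ : ContinuousOn (fun t => (u t n).1.1) (Icc 0 b) :=
    (continuous_fst.comp continuous_fst).comp_continuousOn hcn
  have hcγ1 : ContinuousOn (fun t => (u t n).1.2.1) (Icc 0 b) :=
    (continuous_fst.comp (continuous_snd.comp continuous_fst)).comp_continuousOn hcn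
  have hcγ2 : ContinuousOn (fun t => (u t n).1.2.2) (Icc 0 b) :=
    (continuous_snd.comp (continuous_snd.comp continuous_fst)).comp_continuousOn hcn
  have hcν : ContinuousOn (fun t => (u t n).2.1) (Icc 0 b) :=
    (continuous_fst.comp continuous_snd).comp_continuousOn hcn
  have hcν1 : ContinuousOn (fun t => (u t n).2.2.1) (Icc 0 b) :=
    (continuous_fst.comp (continuous_snd.comp continuous_snd)).comp_continuousOn hcn
  have hcν2 : ContinuousOn (fun t => (u t n).2.2.2) (Icc 0 b) :=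
    (continuous_snd.comp (continuous_snd.comp continuous_snd)).comp_continuousOn hcn
  have hcB := mo_Bf_cont (ω := ω) hcu n
  have hcB1 : ContinuousOn (fun t => (Bf ω (u t) (u t) n).1) (Icc 0 b) :=
    continuous_fst.comp_continuousOn hcB
  have hcB2 : ContinuousOn (fun t => (Bf ω (u t) (u t) n).2) (Icc 0 b) :=
    continuous_snd.comp_continuousOn hcB
  have hbe := mo_be_cont hε
  have hth := mo_th_cont (k := ω * n) hε
  have hqW : Continuous fun t => qq ε t * WW ε (ω * n) t :=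
    (mo_qq_cont hε).mul (mo_WW_cont hε)
  have sm : ∀ {f : ℝ → CI H}, ContinuousOn f (Icc 0 b) →
      ContinuousOn (fun t => be ε t • f t) (Icc 0 b) := fun hf => by
    have h1 : Continuous fun p : ℝ × CI H => p.1 • p.2 := continuous_smul
    exact h1.comp_continuousOn (hbe.continuousOn.prodMk hf)
  refine ⟨?_, ?_, ?_, ?_⟩
  · refine hqW.continuousOn.mul (Real.continuous_sqrt.comp_continuousOn ?_)
    exact ((mo_nrm_cont hbe hcν).pow 2).add ((hth.continuousOn.pow 2).mul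
      ((mo_nrm_cont hbe hcγ).pow 2))
  · refine hqW.continuousOn.mul (Real.continuous_sqrt.comp_continuousOn ?_)
    exact (((mo_nrm_cont hbe (hcν1.add (sm hcν))).pow 2).add ((mo_nrm_cont hbe hcν2).pow 2)).add
      ((hth.continuousOn.pow 2).mul (((mo_nrm_cont hbe (hcγ1.add (sm hcγ))).pow 2).add
        ((mo_nrm_cont hbe hcγ2).pow 2)))
  · exact hqW.continuousOn.mul ((mo_nrm_cont hbe hcB2).add (hth.continuousOn.mul
      (mo_nrm_cont hbe hcB1)))
  intro t ht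
  have ht0 : 0 < t := ht.1
  have ht1 : t ≤ 1 := ht.2.le.trans hb
  have htI : t ∈ Icc 0 b := ⟨ht.1.le, ht.2.le⟩
  set U : ℝ → L1 (Xn H) := fun t => U0 (g t) (g1 t) with hU
  set S : ℝ → Yn H := fun t => src ω U u (fun _ => 0) t n with hS
  have hcS : ContinuousOn S (Icc 0 b) := by
    have := hu.lt.cG n
    rwa [sdiff_empty] at this
  have hcS1 : ContinuousOn (fun t => (S t).1) (Icc 0 b) := continuous_fst.comp_continuousOn hcS
  have hcS2 : ContinuousOn (fun t => (S t).2) (Icc 0 b) := continuous_snd.comp_continuousOn hcS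
  have hSeq : S t = Lam (ω * n) (g t) (g1 t) (u t n) + Bf ω (u t) (u t) n := by
    have h1 := lin_source (g := g t) (g1 := g1 t) (hu.dm t htI n)
    rw [← h1]
    show Bf ω (U t) (u t) n + Bf ω (u t) (U t) n + Bf ω (u t) (u t) n + (0 : L1 (Yn H)) n = _
    rw [show ((0 : L1 (Yn H)) n) = 0 from rfl, add_zero]
  have hβ := be_der (ε := ε) hε ht0
  -- the two energy identities
  have E2 := energy_identity (k := ω * n) (a := 0) (b := b) hcν hcν1 hcS2
    (fun t ht => (hu.dm t ht n).d2) (fun t ht => ⟨(hu.dm t ht n).z2, (hu.dm t ht n).h2⟩)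
    (fun y hy t1 ht1 t2 ht2 => hu.lt.eq' n y hy t1 ht1 t2 ht2) ht hβ
  have E1 := energy_identity (k := ω * n) (a := 0) (b := b) hcγ hcγ1 hcS1
    (fun t ht => (hu.dm t ht n).d1) (fun t ht => ⟨(hu.dm t ht n).z1, (hu.dm t ht n).h1⟩)
    (fun y hy t1 ht1 t2 ht2 => by
      have h1 := hu.lt.eq n y hy t1 ht1 t2 ht2
      simp only [zero_mul, Complex.ofReal_zero, ite_self, add_zero] at h1
      exact h1) ht hβ
  have hq := qq_der (ε := ε) (t := t) hε
  obtain ⟨w, hW, hw⟩ := WW_der (ε := ε) (t := t) (k := ω * n) hε ht0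
  have hθ := th_der (ε := ε) (t := t) (k := ω * n) hε ht0
  have hlin := mode_linear hε hε1 ht0 ht1 (hg.at' t ⟨ht0, ht1⟩) (hu.dm t htI n)
  set β := be ε t with hβdef
  set β' := -((1 / (2 * √t) - aa ε t * el ε t) / (100 * LL ε t ^ 2)) with hβ'
  set θ := th ε (ω * n) t with hθdef
  set τ := (1 / (2 * √t) - aa ε t * el ε t) / LL ε t / (1 + la (ω * n) * LL ε t) with hτ
  set q := qq ε t with hqdef
  set W := WW ε (ω * n) t with hWdef
  set x := u t n with hx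
  set a := aa ε t with ha
  set σ := sg ε (ω * n) t with hσ
  set E := En β θ x with hE
  set D := Dn β θ x with hD
  have hq0 : 0 ≤ q := by rw [hqdef]; unfold qq; positivity
  have hW0 : 0 < W := mo_WW_pos hε
  have hθ0 : 0 ≤ θ := mo_th_nonneg hε
  have ha0 : 0 ≤ a := by rw [ha]; unfold aa; positivity
  have hE2 : E ^ 2 = nrm β x.2.1 ^ 2 + θ ^ 2 * nrm β x.1.1 ^ 2 := mo_En_sq β θ x
  have hE0 : 0 ≤ E := mo_En_nonneg β θ x
  -- derivative of the product
  have hfun : (fun t => Ye ε ω u n t ^ 2) = fun t => (qq ε t * WW ε (ω * n) t) ^ 2 *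
      (nrm (be ε t) (u t n).2.1 ^ 2 + th ε (ω * n) t ^ 2 * nrm (be ε t) (u t n).1.1 ^ 2) := by
    funext t
    rw [Ye, mul_pow, mo_En_sq]
  rw [hfun]
  have hder := ((hq.mul hW).pow 2).mul (E2.add ((hθ.pow 2).mul E1))
  refine ⟨_, hder, ?_⟩
  have hS1 : inn β (S t).1 x.1.1 ≤ inn β (Lam (ω * n) (g t) (g1 t) x).1 x.1.1 +
      nrm β (Bf ω (u t) (u t) n).1 * nrm β x.1.1 := by
    rw [hSeq]
    show inn β ((Lam (ω * n) (g t) (g1 t) x).1 + (Bf ω (u t) (u t) n).1) x.1.1 ≤ _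
    rw [inn_add_left]
    have := (abs_le.1 (inn_le β (Bf ω (u t) (u t) n).1 x.1.1)).2
    linarith
  have hS2 : inn β (S t).2 x.2.1 ≤ inn β (Lam (ω * n) (g t) (g1 t) x).2 x.2.1 +
      nrm β (Bf ω (u t) (u t) n).2 * nrm β x.2.1 := by
    rw [hSeq]
    show inn β ((Lam (ω * n) (g t) (g1 t) x).2 + (Bf ω (u t) (u t) n).2) x.2.1 ≤ _
    rw [inn_add_left]
    have := (abs_le.1 (inn_le β (Bf ω (u t) (u t) n).2 x.2.1)).2
    linarith
  have hν := mo_nrm_le_En β θ x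
  have hγ := mo_th_nrm_le_En β θ x
  have hF : nrm β (Bf ω (u t) (u t) n).2 * nrm β x.2.1 +
      θ ^ 2 * (nrm β (Bf ω (u t) (u t) n).1 * nrm β x.1.1) ≤
      (nrm β (Bf ω (u t) (u t) n).2 + θ * nrm β (Bf ω (u t) (u t) n).1) * E := by
    have h1 := mul_le_mul_of_nonneg_left hν (nrm_nonneg β (Bf ω (u t) (u t) n).2)
    have h2 := mul_le_mul_of_nonneg_left hγ (mul_nonneg hθ0 (nrm_nonneg β (Bf ω (u t) (u t) n).1))
    nlinarith
  have hfin := mo_alg (q := q) (E := E) (D := D) (r := √t) hW0.le hw hE2 ha0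
    (B2 := β' * zin β x.2.1 - nrm β (x.2.2.1 + β • x.2.1) ^ 2 + β ^ 2 * nrm β x.2.1 ^ 2 -
      (ω * n) ^ 2 * nrm β x.2.1 ^ 2 + inn β (S t).2 x.2.1)
    (B1 := β' * zin β x.1.1 - nrm β (x.1.2.1 + β • x.1.1) ^ 2 + β ^ 2 * nrm β x.1.1 ^ 2 -
      (ω * n) ^ 2 * nrm β x.1.1 ^ 2 + inn β (S t).1 x.1.1)
    (R2 := nrm β (Bf ω (u t) (u t) n).2 * nrm β x.2.1)
    (R1 := nrm β (Bf ω (u t) (u t) n).1 * nrm β x.1.1)
    (by linarith only [hS2]) (by linarith only [hS1]) hlin hF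
  refine le_trans (le_of_eq ?_) hfin
  simp only [Pi.pow_apply, Pi.mul_apply, Pi.add_apply, Nat.cast_ofNat, ← hqdef, ← hWdef, ← hθdef,
    ← hx, ← hβdef]
  ring

end

end Pool.Agent.Lib.MP_79abb3_an.P25
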