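import Pool.Agent.Lib.MP_79abb3_an.P25.BaseB
import Pool.Agent.Lib.MP_79abb3_an.P25.TrajDef

/-!
Existence of the base flow on `[0,1]`.
-/

set_option autoImplicit false
set_option linter.unusedSectionVars false

open MeasureTheory Set Filter Topology Function

namespace Pool.Agent.Lib.MP_79abb3_an.P25

/-- The facts on solutions of the base equation from which the base flow is built. -/
structure BaseFacts (ε H : ℝ) : Prop where
  up : ∀ G G1 G2 : ℝ → ℝ → ℝ, BSol ε H 1 G G1 G2 →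
    ∀ t ∈ Ioc (0:ℝ) 1, ∀ z ∈ Icc 0 H, G t z ≤ 2 * aa ε t * z / √t
  mono : ∀ G G1 G2 : ℝ → ℝ → ℝ, BSol ε H 1 G G1 G2 →
    ∀ t ∈ Icc (0:ℝ) 1, ∀ z ∈ Icc 0 H, ∀ z' ∈ Icc z H, G t z ≤ G t z'
  star : ∀ G G1 G2 : ℝ → ℝ → ℝ, BSol ε H 1 G G1 G2 →
    ∀ t ∈ Icc (0:ℝ) 1, ∀ z ∈ Icc 0 H, ∀ z' ∈ Icc z H, z * G t z' ≤ z' * G t z
  step : ∃ δ > 0, ∀ (b : ℝ) (G G1 G2 : ℝ → ℝ → ℝ), 0 ≤ b → b ≤ 1 → BSol ε H b G G1 G2 →
    (∀ z ∈ Icc 0 H, |G b z| ≤ 1 / ε) → ∃ G' G1' G2', BSol ε H (b + δ) G' G1' G2'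

namespace BaseEx

/-! ### The solution on `[0,1]` -/

theorem restrict {ε H b b' : ℝ} {G G1 G2 : ℝ → ℝ → ℝ} (h : BSol ε H b G G1 G2)
    (hb : b' ≤ b) : BSol ε H b' G G1 G2 where
  cG := h.cG.mono (prod_mono (Icc_subset_Icc_right hb) subset_rfl)
  cG1 := h.cG1.mono (prod_mono (Icc_subset_Icc_right hb) subset_rfl)
  d1 := fun t ht => h.d1 t (Icc_subset_Icc_right hb ht)
  d2 := fun t ht => h.d2 t (Ioc_subset_Ioc_right hb ht)
  dt := fun t ht => h.dt t (Ioc_subset_Ioc_right hb ht)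
  init := h.init
  z0 := fun t ht => h.z0 t (Icc_subset_Icc_right hb ht)
  zH := fun t ht => h.zH t (Icc_subset_Icc_right hb ht)
  ti := fun y hy t1 ht1 t2 ht2 => h.ti y hy t1 (Icc_subset_Icc_right hb ht1) t2
    (Icc_subset_Icc_right hb ht2)

theorem trivial_sol (ε H : ℝ) : BSol ε H 0 (fun _ _ => 0) (fun _ _ => 0) (fun _ _ => 0) where
  cG := continuousOn_const
  cG1 := continuousOn_const
  d1 := fun t _ z _ => hasDerivWithinAt_const _ _ _
  d2 := fun _ ht => absurd (ht.1.trans_le ht.2) (lt_irrefl 0)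
  dt := fun _ ht => absurd (ht.1.trans_le ht.2) (lt_irrefl 0)
  init := fun _ _ => rfl
  z0 := fun _ _ => rfl
  zH := fun t ht => by
    have : t = 0 := le_antisymm ht.2 ht.1
    rw [this, aa, zero_div]
  ti := fun y hy t1 ht1 t2 ht2 => by
    have h1 : t1 = 0 := le_antisymm ht1.2 ht1.1
    have h2 : t2 = 0 := le_antisymm ht2.2 (h1 ▸ ht2.1)
    rw [h1, h2, intervalIntegral.integral_same, sub_self]

theorem baseEx_aa_le {ε t : ℝ} (hε : 0 < ε) : aa ε t ≤ 1 / ε := by
  rw [aa, div_le_div_iff₀ (by positivity) hε]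
  nlinarith [sq_nonneg (t - ε)]

theorem exists_BSol_one {ε H : ℝ} (hB : BaseFacts ε H) (hH : 0 < H) (hε : 0 < ε) :
    ∃ G G1 G2, BSol ε H 1 G G1 G2 := by
  obtain ⟨δ, hδ, hstep⟩ := hB.step
  have key : ∀ n : ℕ, ∃ (b : ℝ) (G G1 G2 : ℝ → ℝ → ℝ), 0 ≤ b ∧ min 1 (n * δ) ≤ b ∧
      BSol ε H b G G1 G2 := by
    intro n
    induction n with
    | zero => exact ⟨0, _, _, _, le_rfl, by simp, trivial_sol ε H⟩
    | succ n ih =>
      obtain ⟨b, G, G1, G2, hb, hnb, hG⟩ := ih
      rcases le_or_gt 1 b with h1 | h1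
      · exact ⟨b, G, G1, G2, hb, (min_le_left _ _).trans h1, hG⟩
      · have h2 : (n : ℝ) * δ ≤ b := by
          rcases min_le_iff.1 hnb with h | h
          · linarith
          · exact h
        have hbm : b ∈ Icc 0 b := ⟨hb, le_rfl⟩
        obtain ⟨G', G1', G2', hG'⟩ := hstep b G G1 G2 hb h1.le hG (fun z hz => by
          rw [abs_of_nonneg (hG.nonneg hH hε hb b hbm z hz)]
          exact (hG.le_aa hH hε hb b hbm z hz).trans (baseEx_aa_le hε))
        refine ⟨b + δ, G', G1', G2', by linarith, (min_le_right _ _).trans ?_, hG'⟩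
        push_cast
        linarith
  obtain ⟨n, hn⟩ := exists_nat_gt (1 / δ)
  obtain ⟨b, G, G1, G2, hb, hnb, hG⟩ := key n
  have h1 : 1 ≤ b := by
    refine le_trans ?_ hnb
    refine le_min le_rfl ?_
    rw [div_lt_iff₀ hδ] at hn
    exact hn.le
  exact ⟨G, G1, G2, restrict hG h1⟩

/-! ### Curves in `C([0,H])` -/

theorem baseEx_curve {H : ℝ} [Fact (0 < H)] (G : ℝ → ℝ → ℝ)
    (hG : ContinuousOn (uncurry G) (Icc 0 1 ×ˢ Icc 0 H)) :
    ∃ g : ℝ → CI H, Continuous g ∧
      ∀ t ∈ Icc (0:ℝ) 1, ∀ z ∈ Icc (0:ℝ) H, ex (g t) z = ((G t z : ℝ) : ℂ) := by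
  let F : C(ℝ × Icc (0:ℝ) H, ℂ) :=
    ⟨fun p => ((G (projIcc (0:ℝ) 1 zero_le_one p.1) p.2 : ℝ) : ℂ), by
      refine Complex.continuous_ofReal.comp ?_
      have h1 : Continuous fun p : ℝ × Icc (0:ℝ) H =>
          (((projIcc (0:ℝ) 1 zero_le_one p.1 : ℝ), (p.2 : ℝ)) : ℝ × ℝ) :=
        (continuous_subtype_val.comp (continuous_projIcc.comp continuous_fst)).prodMk
          (continuous_subtype_val.comp continuous_snd)
      exact hG.comp_continuous h1 (fun p => ⟨(projIcc (0:ℝ) 1 zero_le_one p.1).2, p.2.2⟩)⟩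
  refine ⟨fun t => F.curry t, F.curry.continuous, ?_⟩
  intro t ht z hz
  rw [ex_apply _ hz]
  change ((G (projIcc (0:ℝ) 1 zero_le_one t) z : ℝ) : ℂ) = _
  rw [projIcc_of_mem _ ht]

/-! ### Derivatives and monotonicity -/

theorem baseEx_deriv_nonneg {f : ℝ → ℝ} {f' x : ℝ} {s : Set ℝ} (h : HasDerivWithinAt f f' s x)
    (hu : UniqueDiffWithinAt ℝ s x) (h1 : ∀ y ∈ s, x ≤ y → f x ≤ f y)
    (h2 : ∀ y ∈ s, y ≤ x → f y ≤ f x) : 0 ≤ f' := by
  rw [hasDerivWithinAt_iff_tendsto_slope] at h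
  have hne : (𝓝[s \ {x}] x).NeBot := by
    have := hu.accPt
    rwa [accPt_principal_iff_nhdsWithin] at this
  refine ge_of_tendsto h ?_
  filter_upwards [self_mem_nhdsWithin] with y hy
  rw [slope_def_field]
  rcases le_total x y with hxy | hxy
  · exact div_nonneg (sub_nonneg.2 (h1 y hy.1 hxy)) (sub_nonneg.2 hxy)
  · exact div_nonneg_of_nonpos (sub_nonpos.2 (h2 y hy.1 hxy)) (sub_nonpos.2 hxy)

section facts
variable {ε H : ℝ} {G G1 G2 : ℝ → ℝ → ℝ}

theorem G1_nonneg (hB : BaseFacts ε H) (h : BSol ε H 1 G G1 G2) (hH : 0 < H) :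
    ∀ t ∈ Icc (0:ℝ) 1, ∀ z ∈ Icc 0 H, 0 ≤ G1 t z := by
  intro t ht z hz
  refine baseEx_deriv_nonneg (h.d1 t ht z hz) (uniqueDiffOn_Icc hH z hz) ?_ ?_
  · intro y hy hzy
    exact hB.mono G G1 G2 h t ht z hz y ⟨hzy, hy.2⟩
  · intro y hy hyz
    exact hB.mono G G1 G2 h t ht y hy z ⟨hyz, hz.2⟩

theorem zG1_le (hB : BaseFacts ε H) (h : BSol ε H 1 G G1 G2) (hH : 0 < H) :
    ∀ t ∈ Icc (0:ℝ) 1, ∀ z ∈ Icc 0 H, z * G1 t z ≤ G t z := by
  intro t ht z hz
  have h1 : HasDerivWithinAt (fun x => x * G t z - z * G t x) (1 * G t z - z * G1 t z)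
      (Icc 0 H) z :=
    ((hasDerivWithinAt_id z (Icc 0 H)).mul_const (G t z)).sub ((h.d1 t ht z hz).const_mul z)
  have h2 := baseEx_deriv_nonneg h1 (uniqueDiffOn_Icc hH z hz) (fun y hy hzy => by
      have := hB.star G G1 G2 h t ht z hz y ⟨hzy, hy.2⟩
      linarith) (fun y hy hyz => by
      have := hB.star G G1 G2 h t ht y hy z ⟨hyz, hz.2⟩
      linarith)
  linarith

theorem G1_le (hB : BaseFacts ε H) (h : BSol ε H 1 G G1 G2) (hH : 1 ≤ H) :
    ∀ t ∈ Ioc (0:ℝ) 1, ∀ z ∈ Icc 0 H, G1 t z ≤ 2 * aa ε t / √t := by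
  intro t ht z hz
  have hH0 : 0 < H := lt_of_lt_of_le one_pos hH
  have htI : t ∈ Icc (0:ℝ) 1 := ⟨ht.1.le, ht.2⟩
  rcases eq_or_lt_of_le hz.1 with h0 | h0
  · subst h0
    have h1 : HasDerivWithinAt (fun x => 2 * aa ε t / √t * x - G t x)
        (2 * aa ε t / √t * 1 - G1 t 0) (Icc 0 H) 0 :=
      ((hasDerivWithinAt_id (0:ℝ) (Icc 0 H)).const_mul (2 * aa ε t / √t)).sub (h.d1 t htI 0 hz)
    have h2 := baseEx_deriv_nonneg h1 (uniqueDiffOn_Icc hH0 0 hz) (fun y hy hzy => by
        have h3 := hB.up G G1 G2 h t ht y hy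
        have h4 := h.z0 t htI
        have h5 : 2 * aa ε t * y / √t = 2 * aa ε t / √t * y := by ring
        simp only [h4, mul_zero, sub_zero]
        linarith) (fun y hy hyz => by
        have : y = 0 := le_antisymm hyz hy.1
        rw [this])
    linarith
  · have h1 := zG1_le hB h hH0 t htI z hz
    have h2 := hB.up G G1 G2 h t ht z hz
    have h3 : 2 * aa ε t * z / √t = 2 * aa ε t / √t * z := by ring
    rw [h3] at h2
    have h4 : G1 t z * z ≤ 2 * aa ε t / √t * z := by linarith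
    exact le_of_mul_le_mul_right h4 h0

end facts

/-! ### The family `U0` and the bilinear term -/

section fam
variable {H : ℝ} [hH : Fact (0 < H)]

theorem U0_zero (g g1 : CI H) : U0 g g1 0 = (((g, g1, 0), (0, 0, 0)) : Xn H) :=
  lp.single_apply_self 1 (0:ℤ) _

theorem U0_ne (g g1 : CI H) {n : ℤ} (hn : n ≠ 0) : U0 g g1 n = 0 :=
  lp.single_apply_ne 1 (0:ℤ) _ hn

theorem ci_smul_zero' (c : ℂ) : c • (0 : CI H) = 0 :=
  ci_ext fun z _ => by simp only [ex_smul, ex_zero, mul_zero]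

theorem ci_zero_smul' (f : CI H) : (0:ℂ) • f = 0 :=
  ci_ext fun z _ => by simp only [ex_smul, ex_zero, zero_mul]

theorem ci_rsmul_zero' (c : ℝ) : c • (0 : CI H) = 0 :=
  ci_ext fun z _ => by simp only [ex_rsmul, ex_zero, mul_zero]

theorem ci_rzero_smul' (f : CI H) : (0:ℝ) • f = 0 :=
  ci_ext fun z _ => by simp only [ex_rsmul, ex_zero, Complex.ofReal_zero, zero_mul]

theorem om_zero' (k : ℝ) : om k (0 : Yn H) = 0 := by
  rw [om, Prod.fst_zero, Prod.snd_zero, map_zero, ci_smul_zero', neg_zero, sub_zero]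

theorem om_U0 (g : CI H) : om 0 (g, 0) = -(Eop 0 g) := by
  rw [om, map_zero, ci_smul_zero', sub_zero]

theorem jn_zero' : jn (0 : Xn H) = 0 := rfl

theorem conv_zero_right (a : ℤ → CI H) (n : ℤ) : conv a (fun _ => 0) n = 0 := by
  simp [conv]

theorem conv_zero_left (a : ℤ → CI H) (n : ℤ) : conv (fun _ => 0) a n = 0 := by
  simp [conv]

theorem conv_single (a b : ℤ → CI H) (ha : ∀ m, m ≠ 0 → a m = 0) (hb : ∀ m, m ≠ 0 → b m = 0)
    (n : ℤ) : conv a b n = if n = 0 then a 0 * b 0 else 0 := by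
  unfold conv
  rw [tsum_eq_single 0 (fun m hm => by rw [ha m hm, zero_mul]), sub_zero]
  split_ifs with h
  · rw [h]
  · rw [hb n h, mul_zero]

theorem N0_U0 (ω : ℝ) (g g1 : CI H) (n : ℤ) :
    N0 ω (U0 g g1) (U0 g g1) n = if n = 0 then -(Eop 0 g * g1) + g * g else 0 := by
  have h1 : (fun m : ℤ => is (ω * m) • (U0 g g1 m).1.2.2) = fun _ => 0 := by
    funext m
    rcases eq_or_ne m 0 with h | h
    · rw [h, U0_zero]; exact ci_smul_zero' _
    · rw [U0_ne g g1 h]; exact ci_smul_zero' _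
  unfold N0
  rw [h1, conv_zero_right, zero_add,
    conv_single (fun m : ℤ => om (ω * m) (jn (U0 g g1 m))) (fun m : ℤ => (U0 g g1 m).1.2.1)
      (fun m hm => by rw [U0_ne g g1 hm, jn_zero', om_zero'])
      (fun m hm => by rw [U0_ne g g1 hm]; rfl),
    conv_single (fun m : ℤ => (U0 g g1 m).1.1) (fun m : ℤ => (U0 g g1 m).1.1)
      (fun m hm => by rw [U0_ne g g1 hm]; rfl) (fun m hm => by rw [U0_ne g g1 hm]; rfl)]
  split_ifs with h
  · rw [U0_zero]
    have h2 : jn (((g, g1, 0), (0, 0, 0)) : Xn H) = (g, 0) := rfl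
    rw [h2, Int.cast_zero, mul_zero, om_U0]
    refine ci_ext fun z _ => ?_
    simp only [ex_add, ex_mul, ex_neg]
    ring
  · rw [add_zero]

theorem Om_U0 (ω : ℝ) (g g1 : CI H) (m : ℤ) : Om (ω * m) (U0 g g1 m) = 0 := by
  rcases eq_or_ne m 0 with h | h
  · rw [h, U0_zero, Om, Int.cast_zero, mul_zero, is_zero, ci_zero_smul']
    change -(0 : CI H) + 0 - 0 = 0
    rw [neg_zero, add_zero, sub_zero]
  · rw [U0_ne g g1 h, Om]
    change -(0 : CI H) + 0 - is (ω * m) • (0 : CI H) = 0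
    rw [neg_zero, add_zero, zero_sub, ci_smul_zero', neg_zero]

theorem N1_U0 (ω : ℝ) (g g1 : CI H) (n : ℤ) : N1 ω (U0 g g1) (U0 g g1) n = 0 := by
  have h1 : (fun m : ℤ => Om (ω * m) (U0 g g1 m)) = fun _ => 0 := funext (Om_U0 ω g g1)
  unfold N1
  rw [h1, conv_zero_left, neg_zero]

theorem N2_U0 (ω : ℝ) (g g1 : CI H) (n : ℤ) : N2 ω (U0 g g1) (U0 g g1) n = 0 := by
  have h1 : (fun m : ℤ => Om (ω * m) (U0 g g1 m)) = fun _ => 0 := funext (Om_U0 ω g g1)
  unfold N2
  rw [h1, conv_zero_left]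

theorem Rν_U0 (n : CI H) : Rν 0 n 0 0 = 0 := by
  rw [Rν, is_zero, map_zero, ci_zero_smul', ci_smul_zero', ci_rsmul_zero']
  simp only [neg_zero, add_zero, sub_zero]

theorem Rν_zero' (k : ℝ) : Rν k (0 : CI H) 0 0 = 0 := by
  rw [Rν, map_zero, ci_smul_zero', ci_smul_zero', ci_rsmul_zero']
  simp only [neg_zero, add_zero, sub_zero]

theorem Bf_U0 (ω : ℝ) (g g1 : CI H) (n : ℤ) :
    Bf ω (U0 g g1) (U0 g g1) n = if n = 0 then ((Eop 0 g * g1 - g * g, 0) : Yn H) else 0 := by
  unfold Bf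
  rw [N1_U0, N2_U0, N0_U0]
  split_ifs with h
  · subst h
    rw [Int.cast_zero, mul_zero, Rν_U0]
    refine Prod.ext ?_ rfl
    change -(-(Eop 0 g * g1) + g * g) = Eop 0 g * g1 - g * g
    abel
  · rw [Rν_zero', neg_zero]
    rfl

theorem U0_snd (g g1 : CI H) (n : ℤ) : (U0 g g1 n).2 = 0 := by
  rcases eq_or_ne n 0 with h | h
  · rw [h, U0_zero]; rfl
  · rw [U0_ne g g1 h]; rfl

theorem Bf_U0_snd (ω : ℝ) (g g1 : CI H) (n : ℤ) : (Bf ω (U0 g g1) (U0 g g1) n).2 = 0 := by
  rw [Bf_U0]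
  split_ifs <;> rfl

theorem isD_zero' : IsD (0 : CI H) 0 := fun z _ => hasDerivWithinAt_const z _ (0:ℂ)

theorem prim_zero' (y : ℝ) : prim (0 : CI H) y = 0 := by
  simp [prim]

theorem rh_zero' (k y : ℝ) : rh k (0 : CI H) 0 0 y = 0 := by
  simp [rh, prim_zero']

theorem continuous_U0 {g g1 : ℝ → CI H} (hg : Continuous g) (hg1 : Continuous g1) :
    Continuous fun t => U0 (g t) (g1 t) := by
  have h1 : Continuous fun t => (((g t, g1 t, 0), (0, 0, 0)) : Xn H) :=
    (hg.prodMk (hg1.prodMk continuous_const)).prodMk continuous_const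
  exact (lp.isometry_single (E := fun _ : ℤ => Xn H) (p := 1) (0:ℤ)).continuous.comp h1

end fam

theorem continuous_PP {ε : ℝ} (hε : 0 < ε) : Continuous (PP ε) := by
  unfold PP
  exact continuous_const.div (by fun_prop) (fun t => by positivity)

end BaseEx

open BaseEx in
/-- The base flow, from the facts `BaseFacts`. -/
theorem exists_base_of (H : ℝ) [Fact (0 < H)] (hH : 1 ≤ H) {ε : ℝ} (hε : 0 < ε)
    (hB : BaseFacts ε H) :
    ∃ g g1 : ℝ → CI H, ContinuousOn g (Icc 0 1) ∧ ContinuousOn g1 (Icc 0 1) ∧ g 0 = 0 ∧ g1 0 = 0 ∧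
      (∀ t ∈ Ioc 0 1, BaseAt ε t (g t) (g1 t)) ∧
      ∀ ω, LT ω 0 1 ∅ (PP ε) (fun t => Bf ω (U0 (g t) (g1 t)) (U0 (g t) (g1 t)))
        (fun t => U0 (g t) (g1 t)) := by
  have hH0 : 0 < H := lt_of_lt_of_le one_pos hH
  obtain ⟨G, G1, G2, h⟩ := exists_BSol_one hB hH0 hε
  obtain ⟨g, hg, hgG⟩ := baseEx_curve G h.cG
  obtain ⟨g1, hg1, hg1G⟩ := baseEx_curve G1 h.cG1
  have hD : ∀ t ∈ Icc (0:ℝ) 1, IsD (g t) (g1 t) := by
    intro t ht z hz
    rw [hg1G t ht z hz]
    exact (h.d1 t ht z hz).ofReal_comp.congr (fun y hy => hgG t ht y hy) (hgG t ht z hz)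
  have h01 : (0:ℝ) ∈ Icc (0:ℝ) 1 := ⟨le_rfl, zero_le_one⟩
  have h0H : (0:ℝ) ∈ Icc (0:ℝ) H := ⟨le_rfl, hH0.le⟩
  have hHH : H ∈ Icc (0:ℝ) H := ⟨hH0.le, le_rfl⟩
  have hg0 : g 0 = 0 := ci_ext fun z hz => by
    rw [hgG 0 h01 z hz, h.init z hz, Complex.ofReal_zero, ex_zero]
  have hg10 : g1 0 = 0 := ci_ext fun z hz => by
    have h1 := hD 0 h01 z hz
    rw [hg0] at h1
    exact (uniqueDiffOn_Icc hH0 z hz).eq_deriv _ h1 (isD_zero' z hz)
  have hz0 : ∀ t ∈ Icc (0:ℝ) 1, ex (g t) 0 = 0 := fun t ht => by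
    rw [hgG t ht 0 h0H, h.z0 t ht, Complex.ofReal_zero]
  refine ⟨g, g1, hg.continuousOn, hg1.continuousOn, hg0, hg10, ?_, ?_⟩
  · intro t ht
    have htI : t ∈ Icc (0:ℝ) 1 := ⟨ht.1.le, ht.2⟩
    have hre : ∀ z ∈ Icc 0 H, (ex (g t) z).re = G t z := fun z hz => by
      rw [hgG t htI z hz, Complex.ofReal_re]
    have hre1 : ∀ z ∈ Icc 0 H, (ex (g1 t) z).re = G1 t z := fun z hz => by
      rw [hg1G t htI z hz, Complex.ofReal_re]
    exact
      { re := fun z hz => by
          rw [hgG t htI z hz, hg1G t htI z hz]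
          exact ⟨Complex.ofReal_im _, Complex.ofReal_im _⟩
        d := hD t htI
        z := hz0 t htI
        h := by rw [hre H hHH, h.zH t htI]
        nn := fun z hz => by rw [hre z hz]; exact h.nonneg hH0 hε zero_le_one t htI z hz
        le := fun z hz => by rw [hre z hz]; exact h.le_aa hH0 hε zero_le_one t htI z hz
        low := fun z hz => by rw [hre z hz]; exact h.low hH0 hε zero_le_one t ht z hz
        mono := fun z hz => by rw [hre1 z hz]; exact G1_nonneg hB h hH0 t htI z hz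
        star := fun z hz => by rw [hre z hz, hre1 z hz]; exact zG1_le hB h hH0 t htI z hz
        up := fun z hz => by rw [hre1 z hz]; exact G1_le hB h hH t ht z hz }
  · intro ω
    have hU : Continuous fun t => U0 (g t) (g1 t) := continuous_U0 hg hg1
    have hPP := continuous_PP hε
    have hBc : Continuous fun t => ((Eop 0 (g t) * g1 t - g t * g t, 0) : Yn H) :=
      ((((Eop 0).continuous.comp hg).mul hg1).sub (hg.mul hg)).prodMk continuous_const
    have hBf : ∀ t n, Bf ω (U0 (g t) (g1 t)) (U0 (g t) (g1 t)) n =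
        if n = 0 then ((Eop 0 (g t) * g1 t - g t * g t, 0) : Yn H) else 0 :=
      fun t n => Bf_U0 ω (g t) (g1 t) n
    exact
      { count := countable_empty
        cY := ((jL H).continuous.comp hU).continuousOn
        cX := hU.continuousOn
        cP := hPP.continuousOn
        cG := fun n => by
          simp only [hBf]
          split_ifs with h
          · exact hBc.continuousOn
          · exact continuousOn_const
        bd := by
          have hF : Continuous fun t => |PP ε t| + ‖U0 (g t) (g1 t)‖ +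
              ‖((Eop 0 (g t) * g1 t - g t * g t, 0) : Yn H)‖ := (hPP.abs.add hU.norm).add hBc.norm
          obtain ⟨R, hR⟩ := (isCompact_Icc (a := (0:ℝ)) (b := 1)).exists_bound_of_continuousOn
            hF.continuousOn
          refine ⟨R, fun t ht => ?_⟩
          have h1 := hR t ht.1
          have h2 := abs_nonneg (PP ε t)
          have h3 := norm_nonneg (U0 (g t) (g1 t))
          have h4 := norm_nonneg ((Eop 0 (g t) * g1 t - g t * g t, 0) : Yn H)
          rw [Real.norm_eq_abs, abs_of_nonneg (by positivity)] at h1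
          refine ⟨by linarith, by linarith, fun n => ?_⟩
          rw [hBf]
          split_ifs with h
          · linarith
          · rw [norm_zero]; linarith
        cm := fun t ht n => by
          rcases eq_or_ne n 0 with h | h
          · rw [h, U0_zero]
            exact
              { d1 := hD t ht.1
                d2 := isD_zero'
                e1 := by
                  change (0 : CI H) = |ω * ((0:ℤ) : ℝ)| • g t
                  rw [Int.cast_zero, mul_zero, abs_zero, ci_rzero_smul']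
                e2 := (ci_rsmul_zero' _).symm
                z1 := hz0 t ht.1
                z2 := rfl }
          · rw [U0_ne _ _ h]
            exact
              { d1 := isD_zero'
                d2 := isD_zero'
                e1 := (ci_rsmul_zero' _).symm
                e2 := (ci_rsmul_zero' _).symm
                z1 := rfl
                z2 := rfl }
        z := fun t ht n => by
          rcases eq_or_ne n 0 with h | h
          · rw [h, U0_zero]
            exact ⟨hz0 t ht, rfl⟩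
          · rw [U0_ne _ _ h]
            exact ⟨rfl, rfl⟩
        sy := fun t ht n => by
          rcases eq_or_ne n 0 with h | h
          · simp only [h, neg_zero, U0_zero]
            refine Prod.ext ?_ ?_
            · change g t = star (g t)
              refine ci_ext fun z hz => ?_
              rw [ex_star, hgG t ht z hz, Complex.star_def, Complex.conj_ofReal]
            · change (0 : CI H) = star 0
              rw [star_zero]
          · have h' : -n ≠ 0 := neg_ne_zero.2 h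
            simp only [U0_ne _ _ h, U0_ne _ _ h']
            change (0 : Yn H) = star 0
            rw [star_zero]
        eq := fun n y hy t1 ht1 t2 ht2 => by
          have ht2' : t2 ∈ Icc (0:ℝ) 1 := ⟨ht1.1.trans ht2.1, ht2.2⟩
          rcases eq_or_ne n 0 with hn | hn
          · subst hn
            have hp : ∀ t ∈ Icc (0:ℝ) 1, ∀ x ∈ Icc 0 H, prim (g t) x =
                ((∫ z in (0:ℝ)..x, G t z : ℝ) : ℂ) := by
              intro t ht x hx
              rw [prim, ← intervalIntegral.integral_ofReal]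
              refine intervalIntegral.integral_congr fun z hz => ?_
              rw [uIcc_of_le hx.1] at hz
              exact hgG t ht z ⟨hz.1, hz.2.trans hx.2⟩
            have hE : ∀ t ∈ Icc (0:ℝ) 1, ∀ x ∈ Icc 0 H, ex (Eop 0 (g t)) x =
                ((∫ z in (0:ℝ)..x, G t z : ℝ) : ℂ) := by
              intro t ht x hx
              rw [← hp t ht x hx, Eop_apply 0 _ hx, prim]
              refine intervalIntegral.integral_congr fun z _ => ?_
              simp
            have hN : ∀ t ∈ Icc (0:ℝ) 1, prim (Eop 0 (g t) * g1 t - g t * g t) y =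
                ((∫ z in (0:ℝ)..y, ((∫ x in (0:ℝ)..z, G t x) * G1 t z - G t z ^ 2) : ℝ) : ℂ) := by
              intro t ht
              rw [prim, ← intervalIntegral.integral_ofReal]
              refine intervalIntegral.integral_congr fun z hz => ?_
              rw [uIcc_of_le hy.1] at hz
              have hz' : z ∈ Icc 0 H := ⟨hz.1, hz.2.trans hy.2⟩
              simp only [ex_sub, ex_mul]
              rw [hE t ht z hz', hgG t ht z hz', hg1G t ht z hz']
              push_cast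
              ring
            simp only [U0_zero, hBf, if_true]
            rw [hp t2 ht2' y hy, hp t1 ht1 y hy, ← Complex.ofReal_sub, h.ti y hy t1 ht1 t2 ht2,
              ← intervalIntegral.integral_ofReal]
            refine intervalIntegral.integral_congr fun s hs => ?_
            rw [uIcc_of_le ht2.1] at hs
            have hs' : s ∈ Icc (0:ℝ) 1 := ⟨ht1.1.trans hs.1, hs.2.trans ht2.2⟩
            simp only [rh]
            rw [hN s hs', hg1G s hs' y hy, hg1G s hs' 0 h0H]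
            push_cast
            ring
          · simp only [U0_ne _ _ hn, hBf, if_neg hn, add_zero]
            change prim (0 : CI H) y - prim (0 : CI H) y =
              ∫ s in t1..t2, rh (ω * n) (0 : CI H) 0 0 y
            simp only [rh_zero', prim_zero', sub_self, intervalIntegral.integral_zero]
        eq' := fun n y hy t1 ht1 t2 ht2 => by
          simp only [U0_snd, Bf_U0_snd]
          change prim (0 : CI H) y - prim (0 : CI H) y =
            ∫ s in t1..t2, rh (ω * n) (0 : CI H) 0 0 y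
          simp only [rh_zero', prim_zero', sub_self, intervalIntegral.integral_zero] }



end Pool.Agent.Lib.MP_79abb3_an.P25
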