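import Mathlib

/-!
Navier-Stokes trajectories in domains of `ℝ³` (MP_79abb3_an).
-/

set_option autoImplicit false

open MeasureTheory Set Function
open scoped ContDiff

namespace Pool.Agent.Lib.MP_79abb3_an.P25

/-- `∂_t`; points are `(t, x, y, z)`. -/
noncomputable def dt (φ : ℝ × ℝ × ℝ × ℝ → ℝ) (q : ℝ × ℝ × ℝ × ℝ) : ℝ := fderiv ℝ φ q (1, 0, 0, 0)

/-- `∂_x` -/
noncomputable def dx (φ : ℝ × ℝ × ℝ × ℝ → ℝ) (q : ℝ × ℝ × ℝ × ℝ) : ℝ := fderiv ℝ φ q (0, 1, 0, 0)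

/-- `∂_y` -/
noncomputable def dy (φ : ℝ × ℝ × ℝ × ℝ → ℝ) (q : ℝ × ℝ × ℝ × ℝ) : ℝ := fderiv ℝ φ q (0, 0, 1, 0)

/-- `∂_z` -/
noncomputable def dz (φ : ℝ × ℝ × ℝ × ℝ → ℝ) (q : ℝ × ℝ × ℝ × ℝ) : ℝ := fderiv ℝ φ q (0, 0, 0, 1)

/-- The Laplacian in the space variables `(x, y, z)`. -/
noncomputable def lap (φ : ℝ × ℝ × ℝ × ℝ → ℝ) (q : ℝ × ℝ × ℝ × ℝ) : ℝ :=
  dx (dx φ) q + dy (dy φ) q + dz (dz φ) q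

/-- Test functions `φ ∈ C_c^∞((0,T) × Ω)`. -/
structure IsTest (T : ℝ) (Ω : Set (ℝ × ℝ × ℝ)) (φ : ℝ × ℝ × ℝ × ℝ → ℝ) : Prop where
  smooth : ContDiff ℝ ∞ φ
  cpt : HasCompactSupport φ
  supp : tsupport φ ⊆ Ioo 0 T ×ˢ Ω

/-- `u = (u₁, u₂, u₃)` is a trajectory on `[0,T]` of the Navier-Stokes system with viscosity one in the
open set `Ω ⊂ ℝ³` with no-slip condition on `∂Ω ∖ Γ`: `u` is continuous on `[0,T] × closure Ω`,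
Lipschitz in space uniformly in time, vanishes on the wall `∂Ω ∖ Γ`, is divergence free in `(0,T) × Ω`
in the sense of distributions, and satisfies
`∫ (u · ∂_t φ + u · Δφ + ∑_{ij} u_i u_j ∂_j φ_i) = 0` for all divergence free vector fields `φ` whose
components are in `C_c^∞((0,T) × Ω)`. -/
structure IsTrajectory (Ω Γ : Set (ℝ × ℝ × ℝ)) (T : ℝ) (u₁ u₂ u₃ : ℝ × ℝ × ℝ × ℝ → ℝ) : Prop where
  cont₁ : ContinuousOn u₁ (Icc 0 T ×ˢ closure Ω)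
  cont₂ : ContinuousOn u₂ (Icc 0 T ×ˢ closure Ω)
  cont₃ : ContinuousOn u₃ (Icc 0 T ×ˢ closure Ω)
  lip : ∃ K, ∀ t ∈ Icc 0 T, LipschitzOnWith K (fun q : ℝ × ℝ × ℝ => u₁ (t, q)) (closure Ω) ∧
    LipschitzOnWith K (fun q : ℝ × ℝ × ℝ => u₂ (t, q)) (closure Ω) ∧
    LipschitzOnWith K (fun q : ℝ × ℝ × ℝ => u₃ (t, q)) (closure Ω)
  wall : ∀ t ∈ Icc 0 T, ∀ q ∈ frontier Ω \ Γ, u₁ (t, q) = 0 ∧ u₂ (t, q) = 0 ∧ u₃ (t, q) = 0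
  div : ∀ φ, IsTest T Ω φ → ∫ z, (u₁ z * dx φ z + u₂ z * dy φ z + u₃ z * dz φ z) = 0
  ns : ∀ φ₁ φ₂ φ₃, IsTest T Ω φ₁ → IsTest T Ω φ₂ → IsTest T Ω φ₃ →
    (∀ z, dx φ₁ z + dy φ₂ z + dz φ₃ z = 0) →
    ∫ z, ((u₁ z * dt φ₁ z + u₂ z * dt φ₂ z + u₃ z * dt φ₃ z) +
      (u₁ z * lap φ₁ z + u₂ z * lap φ₂ z + u₃ z * lap φ₃ z) +
      (u₁ z * (u₁ z * dx φ₁ z + u₂ z * dy φ₁ z + u₃ z * dz φ₁ z) +
       u₂ z * (u₁ z * dx φ₂ z + u₂ z * dy φ₂ z + u₃ z * dz φ₂ z) +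
       u₃ z * (u₁ z * dx φ₃ z + u₂ z * dy φ₃ z + u₃ z * dz φ₃ z))) = 0

end Pool.Agent.Lib.MP_79abb3_an.P25
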