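import Pool.Agent.Lib.MP_79abb3_an.P25.WeakDef
import Pool.Agent.Lib.MP_79abb3_an.P25.Def3

/-!
From weak solutions in `(t, y, z)` to weak solutions in `(t, x, y, z)`: moments in `x` of test functions.
-/

set_option autoImplicit false
set_option linter.unusedSectionVars false

open MeasureTheory Set Filter Topology Function
open scoped Convolution

namespace Pool.Agent.Lib.MP_79abb3_an.P25

/-- Insert the coordinate `x`. -/
def ins (q : ℝ × ℝ × ℝ) (x : ℝ) : ℝ × ℝ × ℝ × ℝ := (q.1, x, q.2.1, q.2.2)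

/-- Test functions of `(t, x, y, z)`. -/
structure TF (T H : ℝ) (φ : ℝ × ℝ × ℝ × ℝ → ℝ) : Prop where
  smooth : ContDiff ℝ ((⊤ : ℕ∞) : WithTop ℕ∞) φ
  cpt : HasCompactSupport φ
  supp : tsupport φ ⊆ {z | z.1 ∈ Ioo 0 T ∧ z.2.2.2 ∈ Ioo 0 H}

/-- Moments in `x`. -/
noncomputable def mom (j : ℕ) (φ : ℝ × ℝ × ℝ × ℝ → ℝ) (q : ℝ × ℝ × ℝ) : ℝ :=
  ∫ x, x ^ j * φ (ins q x)

theorem IsTest.tf {T H : ℝ} {Ω : Set (ℝ × ℝ × ℝ)} (hΩ : ∀ q ∈ Ω, 0 < q.2.2 ∧ q.2.2 < H)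
    {φ : ℝ × ℝ × ℝ × ℝ → ℝ} (h : IsTest T Ω φ) : TF T H φ :=
  ⟨h.smooth, h.cpt, fun z hz => ⟨(h.supp hz).1, hΩ _ (h.supp hz).2⟩⟩

theorem TF.dv {T H : ℝ} {φ : ℝ × ℝ × ℝ × ℝ → ℝ} (h : TF T H φ) (v : ℝ × ℝ × ℝ × ℝ) :
    TF T H (fun z => fderiv ℝ φ z v) where
  smooth := (h.smooth.fderiv_right (by norm_cast)).clm_apply contDiff_const
  cpt := h.cpt.fderiv_apply ℝ v
  supp := (tsupport_fderiv_apply_subset ℝ v).trans h.supp

theorem T3.dv {T H : ℝ} {Ψ : ℝ × ℝ × ℝ → ℝ} (h : IsT3 T H Ψ) (v : ℝ × ℝ × ℝ) :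
    IsT3 T H (fun z => fderiv ℝ Ψ z v) where
  smooth := (h.smooth.fderiv_right (by norm_cast)).clm_apply contDiff_const
  cpt := h.cpt.fderiv_apply ℝ v
  supp := (tsupport_fderiv_apply_subset ℝ v).trans h.supp

theorem ins_contDiff : ContDiff ℝ ((⊤ : ℕ∞) : WithTop ℕ∞) (fun p : (ℝ × ℝ × ℝ) × ℝ => ins p.1 p.2) := by
  unfold ins
  fun_prop

theorem ins_continuous : Continuous (fun p : (ℝ × ℝ × ℝ) × ℝ => ins p.1 p.2) :=
  ins_contDiff.continuous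

theorem ins_continuous' (q : ℝ × ℝ × ℝ) : Continuous (ins q) :=
  ins_continuous.comp (by fun_prop : Continuous fun x : ℝ => (q, x))

theorem TF.zero_out {T H : ℝ} {φ : ℝ × ℝ × ℝ × ℝ → ℝ} (h : TF T H φ) :
    ∃ R : ℝ, 0 < R ∧ ∀ z : ℝ × ℝ × ℝ × ℝ, z.2.1 ∉ Icc (-R) R → z ∉ tsupport φ := by
  obtain ⟨R, hR⟩ := h.cpt.isCompact.exists_bound_of_continuousOn
    (f := fun z : ℝ × ℝ × ℝ × ℝ => z.2.1) (by fun_prop)
  refine ⟨max R 1, lt_max_of_lt_right one_pos, fun z hz hz' => hz ?_⟩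
  have h1 := (hR z hz').trans (le_max_left R 1)
  exact abs_le.1 h1

theorem TF.int1 {T H : ℝ} {φ : ℝ × ℝ × ℝ × ℝ → ℝ} (h : TF T H φ) (j : ℕ) (q : ℝ × ℝ × ℝ) :
    Integrable fun x => x ^ j * φ (ins q x) := by
  obtain ⟨R, -, hR⟩ := h.zero_out
  refine Continuous.integrable_of_hasCompactSupport ?_ ?_
  · exact (continuous_pow j).mul (h.smooth.continuous.comp (ins_continuous' q))
  · refine HasCompactSupport.intro (isCompact_Icc (a := -R) (b := R)) fun x hx => ?_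
    rw [image_eq_zero_of_notMem_tsupport (hR (ins q x) hx), mul_zero]

theorem TF.mom_contDiff {T H : ℝ} {φ : ℝ × ℝ × ℝ × ℝ → ℝ} (h : TF T H φ) (j : ℕ) :
    ContDiff ℝ ((⊤ : ℕ∞) : WithTop ℕ∞) (mom j φ) := by
  obtain ⟨R, -, hR⟩ := h.zero_out
  have e : mom j φ = fun q => ((fun x : ℝ => (-x) ^ j) ⋆[ContinuousLinearMap.lsmul ℝ ℝ, volume]
      (fun x => φ (ins q x))) 0 := by
    funext q
    rw [convolution_def, mom, ← integral_neg_eq_self]
    refine integral_congr_ae (Eventually.of_forall fun x => ?_)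
    simp
  rw [e, ← contDiffOn_univ]
  refine contDiffOn_convolution_right_with_param_comp (n := ⊤) (ContinuousLinearMap.lsmul ℝ ℝ)
    (v := fun _ => (0:ℝ)) contDiffOn_const isOpen_univ (isCompact_Icc (a := -R) (b := R)) ?_ ?_ ?_
  · intro q x _ hx
    exact image_eq_zero_of_notMem_tsupport (hR (ins q x) hx)
  · exact (by fun_prop : Continuous fun x : ℝ => (-x) ^ j).locallyIntegrable
  · exact (h.smooth.comp ins_contDiff).contDiffOn

theorem TF.mom_isT3 {T H : ℝ} {φ : ℝ × ℝ × ℝ × ℝ → ℝ} (h : TF T H φ) (j : ℕ) :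
    IsT3 T H (mom j φ) := by
  set K : Set (ℝ × ℝ × ℝ) := (fun z : ℝ × ℝ × ℝ × ℝ => (z.1, z.2.2)) '' tsupport φ with hK
  have hKc : IsCompact K := h.cpt.isCompact.image (by fun_prop)
  have hz : ∀ q, q ∉ K → mom j φ q = 0 := by
    intro q hq
    rw [mom]
    refine (integral_congr_ae (Eventually.of_forall fun x => ?_)).trans (integral_zero ℝ ℝ)
    have : ins q x ∉ tsupport φ := fun h' => hq ⟨ins q x, h', rfl⟩
    show x ^ j * φ (ins q x) = 0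
    rw [image_eq_zero_of_notMem_tsupport this, mul_zero]
  have hs : tsupport (mom j φ) ⊆ K := by
    refine closure_minimal ?_ hKc.isClosed
    intro q hq
    by_contra hcon
    exact hq (hz q hcon)
  refine ⟨h.mom_contDiff j, hKc.of_isClosed_subset (isClosed_tsupport _) hs, ?_⟩
  refine hs.trans ?_
  rintro _ ⟨z, hz1, rfl⟩
  exact ⟨(h.supp hz1).1, mem_univ _, (h.supp hz1).2⟩

/-- Differentiation of the moments. -/
theorem TF.mom_fderiv {T H : ℝ} {φ : ℝ × ℝ × ℝ × ℝ → ℝ} (h : TF T H φ) (j : ℕ)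
    (q : ℝ × ℝ × ℝ) (a b c : ℝ) :
    fderiv ℝ (mom j φ) q (a, b, c) = mom j (fun z => fderiv ℝ φ z (a, 0, b, c)) q := by
  have hd := h.dv (a, 0, b, c)
  obtain ⟨R, -, hR⟩ := hd.zero_out
  obtain ⟨C, hC⟩ := hd.cpt.exists_bound_of_continuous hd.smooth.continuous
  -- the line
  have hl : ∀ s : ℝ, HasDerivAt (fun s : ℝ => q + s • (a, b, c)) (a, b, c) s := by
    intro s
    have := ((hasDerivAt_id s).smul_const (a, b, c)).const_add q
    simpa using this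
  have h1 : HasDerivAt (fun s : ℝ => mom j φ (q + s • (a, b, c))) (fderiv ℝ (mom j φ) q (a, b, c))
      0 := by
    have h2 : HasFDerivAt (mom j φ) (fderiv ℝ (mom j φ) q) (q + (0:ℝ) • (a, b, c)) := by
      rw [zero_smul, add_zero]
      exact ((h.mom_contDiff j).differentiable (by norm_num)).differentiableAt.hasFDerivAt
    exact h2.comp_hasDerivAt 0 (hl 0)
  have hφ : ∀ s x : ℝ, HasDerivAt (fun s : ℝ => x ^ j * φ (ins (q + s • (a, b, c)) x))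
      (x ^ j * fderiv ℝ φ (ins (q + s • (a, b, c)) x) (a, 0, b, c)) s := by
    intro s x
    have h3 : HasDerivAt (fun s : ℝ => ins (q + s • (a, b, c)) x) (a, 0, b, c) s := by
      have h4 : HasDerivAt (fun s : ℝ => ((q.1 + s * a, x, q.2.1 + s * b, q.2.2 + s * c) :
          ℝ × ℝ × ℝ × ℝ)) (a, 0, b, c) s := by
        refine HasDerivAt.prodMk ?_ (HasDerivAt.prodMk (hasDerivAt_const s x) (HasDerivAt.prodMk ?_ ?_))
        · simpa using ((hasDerivAt_id s).mul_const a).const_add q.1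
        · simpa using ((hasDerivAt_id s).mul_const b).const_add q.2.1
        · simpa using ((hasDerivAt_id s).mul_const c).const_add q.2.2
      exact h4
    have h5 : HasFDerivAt φ (fderiv ℝ φ (ins (q + s • (a, b, c)) x)) (ins (q + s • (a, b, c)) x) :=
      (h.smooth.differentiable (by norm_num)).differentiableAt.hasFDerivAt
    exact (h5.comp_hasDerivAt s h3).const_mul _
  have h6 := (hasDerivAt_integral_of_dominated_loc_of_deriv_le (μ := volume)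
    (F := fun (s x : ℝ) => x ^ j * φ (ins (q + s • (a, b, c)) x))
    (F' := fun (s x : ℝ) => x ^ j * fderiv ℝ φ (ins (q + s • (a, b, c)) x) (a, 0, b, c))
    (x₀ := (0:ℝ)) (s := univ) (bound := (Icc (-R) R).indicator fun x => |x| ^ j * C)
    univ_mem (Eventually.of_forall fun s => (h.int1 j _).aestronglyMeasurable) (h.int1 j _)
    (hd.int1 j _).aestronglyMeasurable ?_ ?_ (Eventually.of_forall fun x s _ => hφ s x)).2
  · have h7 := h1.unique h6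
    rw [h7, mom]
    simp only [zero_smul, add_zero]
  · refine Eventually.of_forall fun x s _ => ?_
    by_cases hx : x ∈ Icc (-R) R
    · rw [indicator_of_mem hx, norm_mul, norm_pow, Real.norm_eq_abs]
      exact mul_le_mul_of_nonneg_left (hC _) (by positivity)
    · rw [indicator_of_notMem hx]
      have h8 := image_eq_zero_of_notMem_tsupport (hR (ins (q + s • (a, b, c)) x) hx)
      rw [h8, mul_zero, norm_zero]
  · exact ((by fun_prop : Continuous fun x : ℝ => |x| ^ j * C).continuousOn.integrableOn_compact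
      isCompact_Icc).integrable_indicator measurableSet_Icc

/-- Moments of `∂_x`. -/
theorem TF.mom_dx {T H : ℝ} {φ : ℝ × ℝ × ℝ × ℝ → ℝ} (h : TF T H φ) (j : ℕ) (q : ℝ × ℝ × ℝ) :
    mom j (dx φ) q = -(j * mom (j - 1) φ q) := by
  have hd := h.dv (0, 1, 0, 0)
  have h1 : ∀ x, HasDerivAt (fun x => φ (ins q x)) (dx φ (ins q x)) x := by
    intro x
    have h3 : HasDerivAt (fun x : ℝ => ins q x) (0, 1, 0, 0) x := by
      have h4 : HasDerivAt (fun x : ℝ => ((q.1, x, q.2.1, q.2.2) : ℝ × ℝ × ℝ × ℝ)) (0, 1, 0, 0) x :=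
        (hasDerivAt_const x q.1).prodMk ((hasDerivAt_id x).prodMk ((hasDerivAt_const x q.2.1).prodMk
          (hasDerivAt_const x q.2.2)))
      exact h4
    have h5 : HasFDerivAt φ (fderiv ℝ φ (ins q x)) (ins q x) :=
      (h.smooth.differentiable (by norm_num)).differentiableAt.hasFDerivAt
    exact h5.comp_hasDerivAt x h3
  have h2 := integral_mul_deriv_eq_deriv_mul_of_integrable (u := fun x : ℝ => x ^ j)
    (u' := fun x : ℝ => j * x ^ (j - 1)) (v := fun x => φ (ins q x)) (v' := fun x => dx φ (ins q x))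
    (fun x _ => hasDerivAt_pow j x) (fun x _ => h1 x) (hd.int1 j q) (by
      have := (h.int1 (j - 1) q).const_mul (j : ℝ)
      refine this.congr (Eventually.of_forall fun x => ?_)
      simp only [Pi.mul_apply]
      ring) (h.int1 j q)
  rw [mom, h2, mom, ← integral_const_mul]
  congr 1
  refine integral_congr_ae (Eventually.of_forall fun x => ?_)
  simp only
  ring

theorem fub {F : ℝ × ℝ × ℝ × ℝ → ℝ} (hF : Integrable F) : ∫ z, F z = ∫ q, ∫ x, F (ins q x) := by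
  set e : (ℝ × ℝ × ℝ) × ℝ ≃ᵐ ℝ × ℝ × ℝ × ℝ :=
    (MeasurableEquiv.prodAssoc (α := ℝ) (β := ℝ × ℝ) (γ := ℝ)).trans
      ((MeasurableEquiv.refl ℝ).prodCongr MeasurableEquiv.prodComm) with he
  have h1 : MeasurePreserving (MeasurableEquiv.prodAssoc (α := ℝ) (β := ℝ × ℝ) (γ := ℝ))
      volume volume := volume_preserving_prodAssoc
  have h2 : MeasurePreserving ((MeasurableEquiv.refl ℝ).prodCongr
      (MeasurableEquiv.prodComm (α := ℝ × ℝ) (β := ℝ))) volume volume :=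
    (MeasurePreserving.id volume).prod Measure.measurePreserving_swap
  have h3 : MeasurePreserving e volume volume := h2.comp h1
  rw [← h3.integral_comp e.measurableEmbedding F]
  have h4 : Integrable (fun r : (ℝ × ℝ × ℝ) × ℝ => F (e r)) volume :=
    (h3.integrable_comp_emb e.measurableEmbedding).2 hF
  exact integral_prod _ h4

/-- Integrable with a given integral. -/
def HI (f : ℝ → ℝ) (I : ℝ) : Prop := Integrable f ∧ ∫ x, f x = I

theorem HI.add {f g : ℝ → ℝ} {I J : ℝ} (hf : HI f I) (hg : HI g J) :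
    HI (fun x => f x + g x) (I + J) :=
  ⟨hf.1.add hg.1, by rw [integral_add hf.1 hg.1, hf.2, hg.2]⟩

theorem HI.cmul {f : ℝ → ℝ} {I : ℝ} (hf : HI f I) (c : ℝ) : HI (fun x => c * f x) (c * I) :=
  ⟨hf.1.const_mul c, by rw [integral_const_mul, hf.2]⟩

theorem HI.eq {f g : ℝ → ℝ} {I J : ℝ} (hf : HI f I) (h : ∀ x, g x = f x) (hI : I = J) :
    ∫ x, g x = J := by
  rw [← hI, ← hf.2]
  exact integral_congr_ae (Eventually.of_forall h)

theorem TF.hi {T H : ℝ} {φ : ℝ × ℝ × ℝ × ℝ → ℝ} (h : TF T H φ) (j : ℕ) (q : ℝ × ℝ × ℝ) :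
    HI (fun x => x ^ j * φ (ins q x)) (mom j φ q) := ⟨h.int1 j q, rfl⟩

theorem int_of_CK {X : Type} [TopologicalSpace X] [T2Space X] [MeasureSpace X]
    [OpensMeasurableSpace X] [IsFiniteMeasureOnCompacts (volume : Measure X)] {K : Set X}
    (hK : IsCompact K) {G : X → ℝ} (hG : ContinuousOn G K) (h0 : ∀ z, z ∉ K → G z = 0) :
    Integrable G := by
  have h1 : IntegrableOn G K := hG.integrableOn_compact hK
  refine (integrableOn_iff_integrable_of_support_subset fun z hz => ?_).1 h1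
  by_contra hcon
  exact hz (h0 z hcon)

theorem fd_zero {E : Type} [NormedAddCommGroup E] [NormedSpace ℝ E] {f : E → ℝ} {z : E}
    (h : z ∉ tsupport f) (v : E) : fderiv ℝ f z v = 0 := by
  rw [image_eq_zero_of_notMem_tsupport (fun h' => h (tsupport_fderiv_subset ℝ h'))]
  rfl

theorem fd_zero2 {E : Type} [NormedAddCommGroup E] [NormedSpace ℝ E] {f : E → ℝ} {z : E}
    (h : z ∉ tsupport f) (v w : E) : fderiv ℝ (fun z => fderiv ℝ f z v) z w = 0 :=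
  fd_zero (fun h' => h (tsupport_fderiv_apply_subset ℝ v h')) w

/-- The integral of a derivative vanishes. -/
theorem T3.int_py {T H : ℝ} {A : ℝ × ℝ × ℝ → ℝ} (h : IsT3 T H A) (t : ℝ) :
    Integrable (fun p : ℝ × ℝ => py A (t, p)) ∧ ∫ p : ℝ × ℝ, py A (t, p) = 0 := by
  have hd := T3.dv h (0, 1, 0)
  obtain ⟨R, hR⟩ := h.cpt.isCompact.exists_bound_of_continuousOn
    (f := fun z : ℝ × ℝ × ℝ => z.2) (by fun_prop)
  have hout : ∀ q : ℝ × ℝ × ℝ, q ∈ tsupport A → q.2 ∈ Icc (-R) R ×ˢ Icc (-R) R := by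
    intro q hq
    have h1 := hR q hq
    exact ⟨abs_le.1 ((norm_fst_le q.2).trans h1), abs_le.1 ((norm_snd_le q.2).trans h1)⟩
  have hc : Continuous (py A) := hd.smooth.continuous
  have hi : Integrable (fun p : ℝ × ℝ => py A (t, p)) := by
    refine int_of_CK (isCompact_Icc.prod isCompact_Icc (s := Icc (-R) R) (t := Icc (-R) R))
      (hc.comp (by fun_prop)).continuousOn fun p hp => ?_
    exact fd_zero (fun h' => hp (hout (t, p) h')) _
  refine ⟨hi, ?_⟩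
  have e := integral_prod_symm (μ := (volume : Measure ℝ)) (ν := (volume : Measure ℝ)) _ hi
  have e1 : ∫ p : ℝ × ℝ, py A (t, p) = ∫ z : ℝ, ∫ y : ℝ, py A (t, y, z) := e
  rw [e1]
  refine (integral_congr_ae (Eventually.of_forall fun z => ?_)).trans (integral_zero ℝ ℝ)
  refine integral_eq_zero_of_hasDerivAt_of_integrable (f := fun y => A (t, y, z)) ?_ ?_ ?_
  · intro y
    have h3 : HasDerivAt (fun y : ℝ => ((t, y, z) : ℝ × ℝ × ℝ)) (0, 1, 0) y :=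
      (hasDerivAt_const y t).prodMk ((hasDerivAt_id y).prodMk (hasDerivAt_const y z))
    exact (h.smooth.differentiable (by norm_num)).differentiableAt.hasFDerivAt.comp_hasDerivAt y h3
  · refine int_of_CK (isCompact_Icc (a := -R) (b := R)) (hc.comp (by fun_prop)).continuousOn
      fun y hy => ?_
    exact fd_zero (fun h' => hy (hout (t, y, z) h').1) _
  · refine int_of_CK (isCompact_Icc (a := -R) (b := R))
      (h.smooth.continuous.comp (by fun_prop)).continuousOn fun y hy => ?_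
    exact image_eq_zero_of_notMem_tsupport (fun h' => hy (hout (t, y, z) h').1)

theorem T3.int_pz {T H : ℝ} {A : ℝ × ℝ × ℝ → ℝ} (h : IsT3 T H A) (t : ℝ) :
    Integrable (fun p : ℝ × ℝ => pz A (t, p)) ∧ ∫ p : ℝ × ℝ, pz A (t, p) = 0 := by
  have hd := T3.dv h (0, 0, 1)
  obtain ⟨R, hR⟩ := h.cpt.isCompact.exists_bound_of_continuousOn
    (f := fun z : ℝ × ℝ × ℝ => z.2) (by fun_prop)
  have hout : ∀ q : ℝ × ℝ × ℝ, q ∈ tsupport A → q.2 ∈ Icc (-R) R ×ˢ Icc (-R) R := by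
    intro q hq
    have h1 := hR q hq
    exact ⟨abs_le.1 ((norm_fst_le q.2).trans h1), abs_le.1 ((norm_snd_le q.2).trans h1)⟩
  have hc : Continuous (pz A) := hd.smooth.continuous
  have hi : Integrable (fun p : ℝ × ℝ => pz A (t, p)) := by
    refine int_of_CK (isCompact_Icc.prod isCompact_Icc (s := Icc (-R) R) (t := Icc (-R) R))
      (hc.comp (by fun_prop)).continuousOn fun p hp => ?_
    exact fd_zero (fun h' => hp (hout (t, p) h')) _
  refine ⟨hi, ?_⟩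
  have e := integral_prod (μ := (volume : Measure ℝ)) (ν := (volume : Measure ℝ)) _ hi
  have e1 : ∫ p : ℝ × ℝ, pz A (t, p) = ∫ y : ℝ, ∫ z : ℝ, pz A (t, y, z) := e
  rw [e1]
  refine (integral_congr_ae (Eventually.of_forall fun y => ?_)).trans (integral_zero ℝ ℝ)
  refine integral_eq_zero_of_hasDerivAt_of_integrable (f := fun z => A (t, y, z)) ?_ ?_ ?_
  · intro z
    have h3 : HasDerivAt (fun z : ℝ => ((t, y, z) : ℝ × ℝ × ℝ)) (0, 0, 1) z :=
      (hasDerivAt_const z t).prodMk ((hasDerivAt_const z y).prodMk (hasDerivAt_id z))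
    exact (h.smooth.differentiable (by norm_num)).differentiableAt.hasFDerivAt.comp_hasDerivAt z h3
  · refine int_of_CK (isCompact_Icc (a := -R) (b := R)) (hc.comp (by fun_prop)).continuousOn
      fun z hz => ?_
    exact fd_zero (fun h' => hz (hout (t, y, z) h').2) _
  · refine int_of_CK (isCompact_Icc (a := -R) (b := R))
      (h.smooth.continuous.comp (by fun_prop)).continuousOn fun z hz => ?_
    exact image_eq_zero_of_notMem_tsupport (fun h' => hz (hout (t, y, z) h').2)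

/-! ### The main statement -/

theorem co_div {X : Type} [TopologicalSpace X] {K : Set X} {u₁ u₂ u₃ a b c : X → ℝ}
    (h1 : ContinuousOn u₁ K) (h2 : ContinuousOn u₂ K) (h3 : ContinuousOn u₃ K)
    (ha : Continuous a) (hb : Continuous b) (hc : Continuous c) :
    ContinuousOn (fun z => u₁ z * a z + u₂ z * b z + u₃ z * c z) K := by
  have := ha.continuousOn (s := K)
  have := hb.continuousOn (s := K)
  have := hc.continuousOn (s := K)
  fun_prop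

theorem TF.mdt {T H : ℝ} {φ : ℝ × ℝ × ℝ × ℝ → ℝ} (h : TF T H φ) (j : ℕ) (q : ℝ × ℝ × ℝ) :
    mom j (dt φ) q = pt (mom j φ) q := (h.mom_fderiv j q 1 0 0).symm

theorem TF.mdy {T H : ℝ} {φ : ℝ × ℝ × ℝ × ℝ → ℝ} (h : TF T H φ) (j : ℕ) (q : ℝ × ℝ × ℝ) :
    mom j (dy φ) q = py (mom j φ) q := (h.mom_fderiv j q 0 1 0).symm

theorem TF.mdz {T H : ℝ} {φ : ℝ × ℝ × ℝ × ℝ → ℝ} (h : TF T H φ) (j : ℕ) (q : ℝ × ℝ × ℝ) :
    mom j (dz φ) q = pz (mom j φ) q := (h.mom_fderiv j q 0 0 1).symm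

theorem TF.tdt {T H : ℝ} {φ : ℝ × ℝ × ℝ × ℝ → ℝ} (h : TF T H φ) : TF T H (dt φ) := h.dv _
theorem TF.tdx {T H : ℝ} {φ : ℝ × ℝ × ℝ × ℝ → ℝ} (h : TF T H φ) : TF T H (dx φ) := h.dv _
theorem TF.tdy {T H : ℝ} {φ : ℝ × ℝ × ℝ × ℝ → ℝ} (h : TF T H φ) : TF T H (dy φ) := h.dv _
theorem TF.tdz {T H : ℝ} {φ : ℝ × ℝ × ℝ × ℝ → ℝ} (h : TF T H φ) : TF T H (dz φ) := h.dv _

theorem TF.mdyy {T H : ℝ} {φ : ℝ × ℝ × ℝ × ℝ → ℝ} (h : TF T H φ) (j : ℕ) (q : ℝ × ℝ × ℝ) :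
    mom j (dy (dy φ)) q = py (py (mom j φ)) q := by
  rw [h.tdy.mdy]
  have e : mom j (dy φ) = py (mom j φ) := funext fun q => h.mdy j q
  rw [e]

theorem TF.mdzz {T H : ℝ} {φ : ℝ × ℝ × ℝ × ℝ → ℝ} (h : TF T H φ) (j : ℕ) (q : ℝ × ℝ × ℝ) :
    mom j (dz (dz φ)) q = pz (pz (mom j φ)) q := by
  rw [h.tdz.mdz]
  have e : mom j (dz φ) = pz (mom j φ) := funext fun q => h.mdz j q
  rw [e]

theorem TF.mdx0 {T H : ℝ} {φ : ℝ × ℝ × ℝ × ℝ → ℝ} (h : TF T H φ) (q : ℝ × ℝ × ℝ) :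
    mom 0 (dx φ) q = 0 := by rw [h.mom_dx]; simp

theorem TF.mdx1 {T H : ℝ} {φ : ℝ × ℝ × ℝ × ℝ → ℝ} (h : TF T H φ) (q : ℝ × ℝ × ℝ) :
    mom 1 (dx φ) q = -mom 0 φ q := by rw [h.mom_dx]; simp

theorem TF.mdx2 {T H : ℝ} {φ : ℝ × ℝ × ℝ × ℝ → ℝ} (h : TF T H φ) (q : ℝ × ℝ × ℝ) :
    mom 2 (dx φ) q = -(2 * mom 1 φ q) := by rw [h.mom_dx]; norm_num

theorem TF.mdxx0 {T H : ℝ} {φ : ℝ × ℝ × ℝ × ℝ → ℝ} (h : TF T H φ) (q : ℝ × ℝ × ℝ) :
    mom 0 (dx (dx φ)) q = 0 := h.tdx.mdx0 q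

theorem TF.mdxx1 {T H : ℝ} {φ : ℝ × ℝ × ℝ × ℝ → ℝ} (h : TF T H φ) (q : ℝ × ℝ × ℝ) :
    mom 1 (dx (dx φ)) q = 0 := by rw [h.tdx.mdx1, h.mdx0, neg_zero]

theorem co_ns {X : Type} [TopologicalSpace X] {K : Set X} {u₁ u₂ u₃ : X → ℝ}
    (h1 : ContinuousOn u₁ K) (h2 : ContinuousOn u₂ K) (h3 : ContinuousOn u₃ K)
    {t₁ t₂ t₃ l₁ l₂ l₃ a₁ b₁ c₁ a₂ b₂ c₂ a₃ b₃ c₃ : X → ℝ} (ht₁ : Continuous t₁)
    (ht₂ : Continuous t₂) (ht₃ : Continuous t₃) (hl₁ : Continuous l₁) (hl₂ : Continuous l₂)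
    (hl₃ : Continuous l₃) (ha₁ : Continuous a₁) (hb₁ : Continuous b₁) (hc₁ : Continuous c₁)
    (ha₂ : Continuous a₂) (hb₂ : Continuous b₂) (hc₂ : Continuous c₂) (ha₃ : Continuous a₃)
    (hb₃ : Continuous b₃) (hc₃ : Continuous c₃) :
    ContinuousOn (fun z => ((u₁ z * t₁ z + u₂ z * t₂ z + u₃ z * t₃ z) +
        (u₁ z * l₁ z + u₂ z * l₂ z + u₃ z * l₃ z) +
        (u₁ z * (u₁ z * a₁ z + u₂ z * b₁ z + u₃ z * c₁ z) +
         u₂ z * (u₁ z * a₂ z + u₂ z * b₂ z + u₃ z * c₂ z) +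
         u₃ z * (u₁ z * a₃ z + u₂ z * b₃ z + u₃ z * c₃ z)))) K :=
  ((co_div h1 h2 h3 ht₁ ht₂ ht₃).add (co_div h1 h2 h3 hl₁ hl₂ hl₃)).add
    (((h1.mul (co_div h1 h2 h3 ha₁ hb₁ hc₁)).add (h2.mul (co_div h1 h2 h3 ha₂ hb₂ hc₂))).add
      (h3.mul (co_div h1 h2 h3 ha₃ hb₃ hc₃)))

theorem TF.lap_cont {T H : ℝ} {φ : ℝ × ℝ × ℝ × ℝ → ℝ} (h : TF T H φ) : Continuous (lap φ) :=
  (h.tdx.tdx.smooth.continuous.add h.tdy.tdy.smooth.continuous).add h.tdz.tdz.smooth.continuous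

theorem lap_zero {φ : ℝ × ℝ × ℝ × ℝ → ℝ} {z : ℝ × ℝ × ℝ × ℝ} (h : z ∉ tsupport φ) :
    lap φ z = 0 := by
  have e1 : dx (dx φ) z = 0 := fd_zero2 h _ _
  have e2 : dy (dy φ) z = 0 := fd_zero2 h _ _
  have e3 : dz (dz φ) z = 0 := fd_zero2 h _ _
  rw [lap, e1, e2, e3]
  simp

section
variable {H : ℝ} [hH : Fact (0 < H)]

/-- The three integrands over `(t, y, z)` are integrable. -/
theorem Weak.intg {T : ℝ} {g h v w : ℝ × ℝ × ℝ → ℝ} (hw : Weak T H g h v w)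
    {f : ℝ × ℝ × ℝ → ℝ} (cf : ContinuousOn f (Icc 0 T ×ˢ (univ ×ˢ Icc 0 H)))
    {Ψ : ℝ × ℝ × ℝ → ℝ} (hΨ : IsT3 T H Ψ) :
    Integrable fun q => (f q * (pt Ψ q + (py (py Ψ) q + pz (pz Ψ) q)) +
      (f q * (v q * py Ψ q + w q * pz Ψ q) - 2 * g q * f q * Ψ q)) := by
  have hK : tsupport Ψ ⊆ Icc 0 T ×ˢ (univ ×ˢ Icc 0 H) := fun q hq =>
    ⟨Ioo_subset_Icc_self (hΨ.supp hq).1, mem_univ _, Ioo_subset_Icc_self (hΨ.supp hq).2.2⟩
  have cg := hw.cg.mono hK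
  have cv := hw.cv.mono hK
  have cw := hw.cw.mono hK
  have cf' := cf.mono hK
  have c0 : ContinuousOn Ψ (tsupport Ψ) := hΨ.smooth.continuous.continuousOn
  have c1 : ContinuousOn (pt Ψ) (tsupport Ψ) := (T3.dv hΨ _).smooth.continuous.continuousOn
  have c2 : ContinuousOn (py Ψ) (tsupport Ψ) := (T3.dv hΨ _).smooth.continuous.continuousOn
  have c3 : ContinuousOn (pz Ψ) (tsupport Ψ) := (T3.dv hΨ _).smooth.continuous.continuousOn
  have c4 : ContinuousOn (py (py Ψ)) (tsupport Ψ) :=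
    (T3.dv (T3.dv hΨ _) _).smooth.continuous.continuousOn
  have c5 : ContinuousOn (pz (pz Ψ)) (tsupport Ψ) :=
    (T3.dv (T3.dv hΨ _) _).smooth.continuous.continuousOn
  refine int_of_CK hΨ.cpt.isCompact ((cf'.mul (c1.add (c4.add c5))).add
    ((cf'.mul ((cv.mul c2).add (cw.mul c3))).sub (((continuousOn_const.mul cg).mul cf').mul c0)))
    fun z hz => ?_
  have e0 : Ψ z = 0 := image_eq_zero_of_notMem_tsupport hz
  have e1 : pt Ψ z = 0 := fd_zero hz _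
  have e2 : py Ψ z = 0 := fd_zero hz _
  have e3 : pz Ψ z = 0 := fd_zero hz _
  have e4 : py (py Ψ) z = 0 := fd_zero2 hz _ _
  have e5 : pz (pz Ψ) z = 0 := fd_zero2 hz _ _
  rw [e0, e1, e2, e3, e4, e5]
  ring

theorem Weak.intv {T : ℝ} {g h v w : ℝ × ℝ × ℝ → ℝ} (hw : Weak T H g h v w)
    {Φ₂ Φ₃ : ℝ × ℝ × ℝ → ℝ} (h2 : IsT3 T H Φ₂) (h3 : IsT3 T H Φ₃) :
    Integrable fun q => ((v q * (pt Φ₂ q + (py (py Φ₂) q + pz (pz Φ₂) q)) +
        w q * (pt Φ₃ q + (py (py Φ₃) q + pz (pz Φ₃) q))) +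
      (-(g q * (v q * Φ₂ q + w q * Φ₃ q)) + v q * (v q * py Φ₂ q + w q * pz Φ₂ q) +
        w q * (v q * py Φ₃ q + w q * pz Φ₃ q))) := by
  set K := tsupport Φ₂ ∪ tsupport Φ₃ with hKd
  have hK : K ⊆ Icc 0 T ×ˢ (univ ×ˢ Icc 0 H) := by
    rintro q (hq | hq)
    · exact ⟨Ioo_subset_Icc_self (h2.supp hq).1, mem_univ _, Ioo_subset_Icc_self (h2.supp hq).2.2⟩
    · exact ⟨Ioo_subset_Icc_self (h3.supp hq).1, mem_univ _, Ioo_subset_Icc_self (h3.supp hq).2.2⟩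
  have cg := hw.cg.mono hK
  have cv := hw.cv.mono hK
  have cw := hw.cw.mono hK
  have key : ∀ {Φ : ℝ × ℝ × ℝ → ℝ}, IsT3 T H Φ → ContinuousOn Φ K ∧ ContinuousOn (pt Φ) K ∧
      ContinuousOn (py Φ) K ∧ ContinuousOn (pz Φ) K ∧ ContinuousOn (py (py Φ)) K ∧
      ContinuousOn (pz (pz Φ)) K := fun hΦ =>
    ⟨hΦ.smooth.continuous.continuousOn, (T3.dv hΦ _).smooth.continuous.continuousOn,
      (T3.dv hΦ _).smooth.continuous.continuousOn, (T3.dv hΦ _).smooth.continuous.continuousOn,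
      (T3.dv (T3.dv hΦ _) _).smooth.continuous.continuousOn,
      (T3.dv (T3.dv hΦ _) _).smooth.continuous.continuousOn⟩
  obtain ⟨a0, a1, a2, a3, a4, a5⟩ := key h2
  obtain ⟨b0, b1, b2, b3, b4, b5⟩ := key h3
  refine int_of_CK (h2.cpt.isCompact.union h3.cpt.isCompact)
    (((cv.mul (a1.add (a4.add a5))).add (cw.mul (b1.add (b4.add b5)))).add
      (((cg.mul ((cv.mul a0).add (cw.mul b0))).neg.add (cv.mul ((cv.mul a2).add (cw.mul a3)))).add
        (cw.mul ((cv.mul b2).add (cw.mul b3))))) fun z hz => ?_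
  have z2 : z ∉ tsupport Φ₂ := fun h => hz (Or.inl h)
  have z3 : z ∉ tsupport Φ₃ := fun h => hz (Or.inr h)
  have key2 : ∀ {Φ : ℝ × ℝ × ℝ → ℝ}, z ∉ tsupport Φ → Φ z = 0 ∧ pt Φ z = 0 ∧ py Φ z = 0 ∧
      pz Φ z = 0 ∧ py (py Φ) z = 0 ∧ pz (pz Φ) z = 0 := fun hz =>
    ⟨image_eq_zero_of_notMem_tsupport hz, fd_zero hz _, fd_zero hz _, fd_zero hz _,
      fd_zero2 hz _ _, fd_zero2 hz _ _⟩
  obtain ⟨e0, e1, e2, e3, e4, e5⟩ := key2 z2
  obtain ⟨f0, f1, f2, f3, f4, f5⟩ := key2 z3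
  rw [e0, e1, e2, e3, e4, e5, f0, f1, f2, f3, f4, f5]
  ring

theorem Weak.traj {T : ℝ} (hT : 0 < T) {g h v w : ℝ × ℝ × ℝ → ℝ} (hw : Weak T H g h v w)
    {Ω : Set (ℝ × ℝ × ℝ)} (hΩ : ∀ q ∈ Ω, 0 < q.2.2 ∧ q.2.2 < H) {u₁ u₂ u₃ : ℝ × ℝ × ℝ × ℝ → ℝ}
    (h1 : ∀ t x y z, u₁ (t, x, y, z) = x * g (t, y, z) + h (t, y, z))
    (h2 : ∀ t x y z, u₂ (t, x, y, z) = v (t, y, z)) (h3 : ∀ t x y z, u₃ (t, x, y, z) = w (t, y, z)) :
    (∀ φ, IsTest T Ω φ → ∫ z, (u₁ z * dx φ z + u₂ z * dy φ z + u₃ z * dz φ z) = 0) ∧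
    (∀ φ₁ φ₂ φ₃, IsTest T Ω φ₁ → IsTest T Ω φ₂ → IsTest T Ω φ₃ →
      (∀ z, dx φ₁ z + dy φ₂ z + dz φ₃ z = 0) →
      ∫ z, ((u₁ z * dt φ₁ z + u₂ z * dt φ₂ z + u₃ z * dt φ₃ z) +
        (u₁ z * lap φ₁ z + u₂ z * lap φ₂ z + u₃ z * lap φ₃ z) +
        (u₁ z * (u₁ z * dx φ₁ z + u₂ z * dy φ₁ z + u₃ z * dz φ₁ z) +
         u₂ z * (u₁ z * dx φ₂ z + u₂ z * dy φ₂ z + u₃ z * dz φ₂ z) +
         u₃ z * (u₁ z * dx φ₃ z + u₂ z * dy φ₃ z + u₃ z * dz φ₃ z))) = 0) := by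
  have g1 : ∀ q x, u₁ (ins q x) = x * g q + h q := fun q x => h1 q.1 x q.2.1 q.2.2
  have g2 : ∀ q x, u₂ (ins q x) = v q := fun q x => h2 q.1 x q.2.1 q.2.2
  have g3 : ∀ q x, u₃ (ins q x) = w q := fun q x => h3 q.1 x q.2.1 q.2.2
  -- continuity of the fields
  have hco : ∀ K : Set (ℝ × ℝ × ℝ × ℝ), K ⊆ {z | z.1 ∈ Ioo 0 T ∧ z.2.2.2 ∈ Ioo 0 H} →
      ContinuousOn u₁ K ∧ ContinuousOn u₂ K ∧ ContinuousOn u₃ K := by
    intro K hK
    have hm : MapsTo (fun z : ℝ × ℝ × ℝ × ℝ => (z.1, z.2.2)) K (Icc 0 T ×ˢ (univ ×ˢ Icc 0 H)) :=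
      fun z hz => ⟨Ioo_subset_Icc_self (hK hz).1, mem_univ _, Ioo_subset_Icc_self (hK hz).2⟩
    have hc : ContinuousOn (fun z : ℝ × ℝ × ℝ × ℝ => (z.1, z.2.2)) K := by fun_prop
    have cg := hw.cg.comp hc hm
    have ch := hw.ch.comp hc hm
    have cv := hw.cv.comp hc hm
    have cw := hw.cw.comp hc hm
    have cx : ContinuousOn (fun z : ℝ × ℝ × ℝ × ℝ => z.2.1) K := by fun_prop
    exact ⟨((cx.mul cg).add ch).congr fun z _ => g1 (z.1, z.2.2) z.2.1,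
      cv.congr fun z _ => g2 (z.1, z.2.2) z.2.1, cw.congr fun z _ => g3 (z.1, z.2.2) z.2.1⟩
  constructor
  · intro φ hφ
    have hf := hφ.tf hΩ
    obtain ⟨k1, k2, k3⟩ := hco _ hf.supp
    have hint : Integrable fun z => u₁ z * dx φ z + u₂ z * dy φ z + u₃ z * dz φ z := by
      refine int_of_CK hf.cpt.isCompact (co_div k1 k2 k3 hf.tdx.smooth.continuous
        hf.tdy.smooth.continuous hf.tdz.smooth.continuous) fun z hz => ?_
      have e1 : dx φ z = 0 := fd_zero hz _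
      have e2 : dy φ z = 0 := fd_zero hz _
      have e3 : dz φ z = 0 := fd_zero hz _
      rw [e1, e2, e3]
      ring
    rw [fub hint, ← hw.wd _ (hf.mom_isT3 0)]
    refine integral_congr_ae (Eventually.of_forall fun q => ?_)
    refine ((((hf.tdx.hi 1 q).cmul (g q)).add ((hf.tdx.hi 0 q).cmul (h q))).add
      (((hf.tdy.hi 0 q).cmul (v q)).add ((hf.tdz.hi 0 q).cmul (w q)))).eq (fun x => ?_) ?_
    · rw [g1, g2, g3]
      ring
    · rw [hf.mdx1, hf.mdx0, hf.mdy, hf.mdz]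
      ring
  · intro φ₁ φ₂ φ₃ t1 t2 t3 hdiv
    have f1 := t1.tf hΩ
    have f2 := t2.tf hΩ
    have f3 := t3.tf hΩ
    set K := tsupport φ₁ ∪ tsupport φ₂ ∪ tsupport φ₃ with hKd
    have hK : K ⊆ {z | z.1 ∈ Ioo 0 T ∧ z.2.2.2 ∈ Ioo 0 H} :=
      union_subset (union_subset f1.supp f2.supp) f3.supp
    obtain ⟨k1, k2, k3⟩ := hco K hK
    have hint : Integrable fun z => ((u₁ z * dt φ₁ z + u₂ z * dt φ₂ z + u₃ z * dt φ₃ z) +
        (u₁ z * lap φ₁ z + u₂ z * lap φ₂ z + u₃ z * lap φ₃ z) +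
        (u₁ z * (u₁ z * dx φ₁ z + u₂ z * dy φ₁ z + u₃ z * dz φ₁ z) +
         u₂ z * (u₁ z * dx φ₂ z + u₂ z * dy φ₂ z + u₃ z * dz φ₂ z) +
         u₃ z * (u₁ z * dx φ₃ z + u₂ z * dy φ₃ z + u₃ z * dz φ₃ z))) := by
      refine int_of_CK ((f1.cpt.isCompact.union f2.cpt.isCompact).union f3.cpt.isCompact)
        (co_ns k1 k2 k3 f1.tdt.smooth.continuous f2.tdt.smooth.continuous f3.tdt.smooth.continuous
          f1.lap_cont f2.lap_cont f3.lap_cont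
          f1.tdx.smooth.continuous f1.tdy.smooth.continuous f1.tdz.smooth.continuous
          f2.tdx.smooth.continuous f2.tdy.smooth.continuous f2.tdz.smooth.continuous
          f3.tdx.smooth.continuous f3.tdy.smooth.continuous f3.tdz.smooth.continuous) fun z hz => ?_
      have z1 : z ∉ tsupport φ₁ := fun h => hz (Or.inl (Or.inl h))
      have z2 : z ∉ tsupport φ₂ := fun h => hz (Or.inl (Or.inr h))
      have z3 : z ∉ tsupport φ₃ := fun h => hz (Or.inr h)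
      have key2 : ∀ {φ : ℝ × ℝ × ℝ × ℝ → ℝ}, z ∉ tsupport φ → dt φ z = 0 ∧ dx φ z = 0 ∧
          dy φ z = 0 ∧ dz φ z = 0 ∧ lap φ z = 0 := fun hz =>
        ⟨fd_zero hz _, fd_zero hz _, fd_zero hz _, fd_zero hz _, lap_zero hz⟩
      obtain ⟨a1, a2, a3, a4, a5⟩ := key2 z1
      obtain ⟨b1, b2, b3, b4, b5⟩ := key2 z2
      obtain ⟨c1, c2, c3, c4, c5⟩ := key2 z3
      rw [a1, a2, a3, a4, a5, b1, b2, b3, b4, b5, c1, c2, c3, c4, c5]
      ring
    have T1 := f1.mom_isT3 1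
    have T10 := f1.mom_isT3 0
    have T2 := f2.mom_isT3 0
    have T3' := f3.mom_isT3 0
    -- divergence of the zeroth moments
    have hd0 : ∀ (j : ℕ) (q : ℝ × ℝ × ℝ),
        mom j (dx φ₁) q + mom j (dy φ₂) q + mom j (dz φ₃) q = 0 := by
      intro j q
      have e := (((f1.tdx.hi j q).add (f2.tdy.hi j q)).add (f3.tdz.hi j q)).eq (g := fun _ => 0)
        (fun x => by
          have := hdiv (ins q x)
          rw [← mul_add, ← mul_add, this, mul_zero]) rfl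
      rw [integral_zero] at e
      exact e.symm
    have hdiv0 : ∀ q, py (mom 0 φ₂) q + pz (mom 0 φ₃) q = 0 := by
      intro q
      have := hd0 0 q
      rwa [f1.mdx0, f2.mdy, f3.mdz, zero_add] at this
    have hmean : ∀ t, ∫ p : ℝ × ℝ, mom 1 φ₁ (t, p) = 0 := by
      intro t
      have A := T3.int_py (f2.mom_isT3 2) t
      have B := T3.int_pz (f3.mom_isT3 2) t
      have e : ∀ p : ℝ × ℝ, mom 1 φ₁ (t, p) =
          (1 / 2 : ℝ) * (py (mom 2 φ₂) (t, p) + pz (mom 2 φ₃) (t, p)) := by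
        intro p
        have := hd0 2 (t, p)
        rw [f1.mdx2, f2.mdy, f3.mdz] at this
        linarith
      simp only [e]
      rw [integral_const_mul, integral_add A.1 B.1, A.2, B.2]
      simp
    rw [fub hint]
    have I1 := hw.intg hw.cg T1
    have I2 := hw.intg hw.ch T10
    have I3 := hw.intv T2 T3'
    have e1 := hw.wg _ T1 hmean
    have e2 := hw.wh _ T10
    have e3 := hw.wv _ _ T2 T3' hdiv0
    have e4 := integral_add (I1.add I2) I3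
    have e5 := integral_add I1 I2
    have e6 : ∫ q, ∫ x, ((u₁ (ins q x) * dt φ₁ (ins q x) + u₂ (ins q x) * dt φ₂ (ins q x) +
          u₃ (ins q x) * dt φ₃ (ins q x)) +
        (u₁ (ins q x) * lap φ₁ (ins q x) + u₂ (ins q x) * lap φ₂ (ins q x) +
          u₃ (ins q x) * lap φ₃ (ins q x)) +
        (u₁ (ins q x) * (u₁ (ins q x) * dx φ₁ (ins q x) + u₂ (ins q x) * dy φ₁ (ins q x) +
            u₃ (ins q x) * dz φ₁ (ins q x)) +
         u₂ (ins q x) * (u₁ (ins q x) * dx φ₂ (ins q x) + u₂ (ins q x) * dy φ₂ (ins q x) +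
            u₃ (ins q x) * dz φ₂ (ins q x)) +
         u₃ (ins q x) * (u₁ (ins q x) * dx φ₃ (ins q x) + u₂ (ins q x) * dy φ₃ (ins q x) +
            u₃ (ins q x) * dz φ₃ (ins q x)))) =
        ∫ q, (((g q * (pt (mom 1 φ₁) q + (py (py (mom 1 φ₁)) q + pz (pz (mom 1 φ₁)) q)) +
            (g q * (v q * py (mom 1 φ₁) q + w q * pz (mom 1 φ₁) q) - 2 * g q * g q * mom 1 φ₁ q)) +
          (h q * (pt (mom 0 φ₁) q + (py (py (mom 0 φ₁)) q + pz (pz (mom 0 φ₁)) q)) +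
            (h q * (v q * py (mom 0 φ₁) q + w q * pz (mom 0 φ₁) q) -
              2 * g q * h q * mom 0 φ₁ q))) +
          ((v q * (pt (mom 0 φ₂) q + (py (py (mom 0 φ₂)) q + pz (pz (mom 0 φ₂)) q)) +
            w q * (pt (mom 0 φ₃) q + (py (py (mom 0 φ₃)) q + pz (pz (mom 0 φ₃)) q))) +
          (-(g q * (v q * mom 0 φ₂ q + w q * mom 0 φ₃ q)) +
            v q * (v q * py (mom 0 φ₂) q + w q * pz (mom 0 φ₂) q) +
            w q * (v q * py (mom 0 φ₃) q + w q * pz (mom 0 φ₃) q)))) := by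
      refine integral_congr_ae (Eventually.of_forall fun q => ?_)
      -- the pieces
      have P1 := (((f1.tdt.hi 1 q).cmul (g q)).add ((f1.tdt.hi 0 q).cmul (h q))).add
        (((f2.tdt.hi 0 q).cmul (v q)).add ((f3.tdt.hi 0 q).cmul (w q)))
      have P2 := ((((f1.tdx.tdx.hi 1 q).add (f1.tdy.tdy.hi 1 q)).add (f1.tdz.tdz.hi 1 q)).cmul
        (g q)).add ((((f1.tdx.tdx.hi 0 q).add (f1.tdy.tdy.hi 0 q)).add (f1.tdz.tdz.hi 0 q)).cmul (h q))
      have P3 := ((((f2.tdx.tdx.hi 0 q).add (f2.tdy.tdy.hi 0 q)).add (f2.tdz.tdz.hi 0 q)).cmul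
        (v q)).add ((((f3.tdx.tdx.hi 0 q).add (f3.tdy.tdy.hi 0 q)).add (f3.tdz.tdz.hi 0 q)).cmul (w q))
      have P4 := (((f1.tdx.hi 2 q).cmul (g q ^ 2)).add ((f1.tdx.hi 1 q).cmul (2 * g q * h q))).add
        ((f1.tdx.hi 0 q).cmul (h q ^ 2))
      have P5 := (((f1.tdy.hi 1 q).cmul (g q * v q)).add ((f1.tdy.hi 0 q).cmul (h q * v q))).add
        (((f1.tdz.hi 1 q).cmul (g q * w q)).add ((f1.tdz.hi 0 q).cmul (h q * w q)))
      have P6 := (((f2.tdx.hi 1 q).cmul (v q * g q)).add ((f2.tdx.hi 0 q).cmul (v q * h q))).add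
        (((f2.tdy.hi 0 q).cmul (v q * v q)).add ((f2.tdz.hi 0 q).cmul (v q * w q)))
      have P7 := (((f3.tdx.hi 1 q).cmul (w q * g q)).add ((f3.tdx.hi 0 q).cmul (w q * h q))).add
        (((f3.tdy.hi 0 q).cmul (w q * v q)).add ((f3.tdz.hi 0 q).cmul (w q * w q)))
      refine ((((((P1.add P2).add P3).add P4).add P5).add P6).add P7).eq (fun x => ?_) ?_
      · rw [g1, g2, g3, lap, lap, lap]
        ring
      · rw [f1.mdt, f1.mdt, f2.mdt, f3.mdt, f1.mdxx1, f1.mdxx0, f2.mdxx0, f3.mdxx0, f1.mdyy, f1.mdyy,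
          f2.mdyy, f3.mdyy, f1.mdzz, f1.mdzz, f2.mdzz, f3.mdzz, f1.mdx2, f1.mdx1, f1.mdx0, f1.mdy,
          f1.mdy, f1.mdz, f1.mdz, f2.mdx1, f2.mdx0, f2.mdy, f2.mdz, f3.mdx1, f3.mdx0, f3.mdy, f3.mdz]
        ring
    rw [e6]
    refine e4.trans ?_
    rw [e3, add_zero]
    refine e5.trans ?_
    rw [e1, e2, add_zero]

end

end Pool.Agent.Lib.MP_79abb3_an.P25
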