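import Pool.Agent.Lib.MP_79abb3_an.P25.WeakModes
import Pool.Agent.Lib.MP_79abb3_an.P25.Moments

/-!
From mode solutions to trajectories in `ℝ³`.
-/

set_option autoImplicit false
set_option linter.unusedSectionVars false

open MeasureTheory Set Filter Topology Function

namespace Pool.Agent.Lib.MP_79abb3_an.P25

section main

theorem Eop_at_zero {H : ℝ} [Fact (0 < H)] (k : ℝ) (f : CI H) : ex (Eop k f) 0 = 0 := by
  rw [Eop_apply k f ⟨le_rfl, (Fact.out : 0 < H).le⟩]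
  simp

theorem fld_zero_wall {H : ℝ} [Fact (0 < H)] {ω : ℝ} {a : ℤ → CI H} (h : ∀ n, ex (a n) 0 = 0) (y : ℝ) :
    fld ω a y 0 = 0 := by
  simp [fld, h]

theorem fld_of_zero {H : ℝ} [Fact (0 < H)] {ω : ℝ} {a : ℤ → CI H} (h : ∀ n, a n = 0) (y z : ℝ) :
    fld ω a y z = 0 := by
  simp [fld, h]

theorem mw_wall {H : ℝ} [Fact (0 < H)] (ω : ℝ) (x : L1 (Xn H)) (n : ℤ) : ex (mw ω x n) 0 = 0 := by
  rw [mw, om]
  simp only [ex_sub, ex_neg, ex_smul, Eop_at_zero, neg_zero, mul_zero, sub_zero]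

theorem mv_wall {H : ℝ} [Fact (0 < H)] (ω : ℝ) (x : L1 (Xn H)) (n : ℤ) (h : ex (x n).2.1 0 = 0) :
    ex (mv ω x n) 0 = 0 := by
  have h1 := mw_wall ω x n
  rw [mw] at h1
  rw [mv, vv]
  simp only [ex_sub, ex_smul, h1, mul_zero, sub_zero]
  exact h

theorem mw_zero {H : ℝ} [Fact (0 < H)] (ω : ℝ) (n : ℤ) : mw ω (0 : L1 (Xn H)) n = 0 := by
  show om _ (jn (0 : Xn H)) = 0
  have h : jn (0 : Xn H) = 0 := rfl
  rw [h, om]
  show -(Eop _ (0 : CI H)) - _ • Eop _ (0 : CI H) = 0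
  rw [(Eop _).map_zero]
  ext z
  simp

theorem mv_zero {H : ℝ} [Fact (0 < H)] (ω : ℝ) (n : ℤ) : mv ω (0 : L1 (Xn H)) n = 0 := by
  have h := mw_zero (H := H) ω n
  rw [mw] at h
  rw [mv, vv, h]
  ext z
  show (0 : ℂ) - is _ • (0 : ℂ) = 0
  simp

theorem closure_bounds {Ω : Set (ℝ × ℝ × ℝ)} (hb : Bornology.IsBounded Ω) (hpos : ∀ q ∈ Ω, 0 < q.2.2) :
    ∃ r : ℝ, 1 ≤ r ∧ ∀ q ∈ closure Ω, |q.1| ≤ r ∧ |q.2.1| ≤ r ∧ q.2.2 ∈ Icc 0 r := by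
  obtain ⟨r0, hr0⟩ := hb.subset_closedBall (0 : ℝ × ℝ × ℝ)
  have hsub : closure Ω ⊆ Metric.closedBall (0 : ℝ × ℝ × ℝ) (max r0 1) :=
    closure_minimal (hr0.trans (Metric.closedBall_subset_closedBall (le_max_left _ _)))
      Metric.isClosed_closedBall
  refine ⟨max r0 1, le_max_right _ _, fun q hq => ?_⟩
  have h1 := hsub hq
  rw [mem_closedBall_zero_iff] at h1
  have h2 : 0 ≤ q.2.2 := by
    have : closure Ω ⊆ {q : ℝ × ℝ × ℝ | 0 ≤ q.2.2} :=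
      closure_minimal (fun p hp => (hpos p hp).le)
        (isClosed_le continuous_const (continuous_snd.comp continuous_snd))
    exact this hq
  have h5 : |q.2.2| ≤ max r0 1 := ((norm_snd_le q.2).trans (norm_snd_le q)).trans h1
  exact ⟨(norm_fst_le q).trans h1, ((norm_fst_le q.2).trans (norm_snd_le q)).trans h1, h2,
    (le_abs_self _).trans h5⟩

theorem lip_affine {S : Set (ℝ × ℝ × ℝ)} {A : Set (ℝ × ℝ)} {f g : ℝ × ℝ → ℝ} {K1 K2 r Kg : NNReal}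
    (hS : ∀ q ∈ S, |q.1| ≤ r ∧ q.2 ∈ A) (hg : LipschitzOnWith K1 g A) (hf : LipschitzOnWith K2 f A)
    (hb : ∀ p, |g p| ≤ Kg) :
    LipschitzOnWith (r * K1 + Kg + K2) (fun q : ℝ × ℝ × ℝ => q.1 * g q.2 + f q.2) S := by
  refine LipschitzOnWith.of_dist_le_mul fun q hq q' hq' => ?_
  have a1 := hg.dist_le_mul q.2 (hS q hq).2 q'.2 (hS q' hq').2
  have a2 := hf.dist_le_mul q.2 (hS q hq).2 q'.2 (hS q' hq').2
  have a3 := hb q'.2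
  have a4 := (hS q hq).1
  have a5 : dist q.2 q'.2 ≤ dist q q' := by
    rw [Prod.dist_eq (x := q)]; exact le_max_right _ _
  have a6 : |q.1 - q'.1| ≤ dist q q' := by
    rw [Prod.dist_eq (x := q), Real.dist_eq]; exact le_max_left _ _
  rw [Real.dist_eq] at a1 a2 ⊢
  have e : q.1 * g q.2 + f q.2 - (q'.1 * g q'.2 + f q'.2) =
      q.1 * (g q.2 - g q'.2) + (q.1 - q'.1) * g q'.2 + (f q.2 - f q'.2) := by ring
  rw [e]
  have hd0 : 0 ≤ dist q q' := dist_nonneg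
  have hd2 : 0 ≤ dist q.2 q'.2 := dist_nonneg
  have r0 : (0:ℝ) ≤ r := r.2
  have k0 : (0:ℝ) ≤ K1 := K1.2
  have k2 : (0:ℝ) ≤ K2 := K2.2
  have b1 : |q.1 * (g q.2 - g q'.2)| ≤ r * (K1 * dist q q') := by
    rw [abs_mul]
    exact mul_le_mul a4 (a1.trans (mul_le_mul_of_nonneg_left a5 k0)) (abs_nonneg _) r0
  have b2 : |(q.1 - q'.1) * g q'.2| ≤ dist q q' * Kg := by
    rw [abs_mul]
    exact mul_le_mul a6 a3 (abs_nonneg _) hd0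
  have b3 : |f q.2 - f q'.2| ≤ K2 * dist q q' := a2.trans (mul_le_mul_of_nonneg_left a5 k2)
  have b4 := abs_add_le (q.1 * (g q.2 - g q'.2) + (q.1 - q'.1) * g q'.2) (f q.2 - f q'.2)
  have b5 := abs_add_le (q.1 * (g q.2 - g q'.2)) ((q.1 - q'.1) * g q'.2)
  have b6 : ((r * K1 + Kg + K2 : NNReal) : ℝ) * dist q q' =
      r * (K1 * dist q q') + dist q q' * Kg + K2 * dist q q' := by push_cast; ring
  rw [b6]
  linarith

theorem lip_snd {S : Set (ℝ × ℝ × ℝ)} {A : Set (ℝ × ℝ)} {g : ℝ × ℝ → ℝ} {K1 : NNReal}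
    (hS : ∀ q ∈ S, q.2 ∈ A) (hg : LipschitzOnWith K1 g A) :
    LipschitzOnWith K1 (fun q : ℝ × ℝ × ℝ => g q.2) S := by
  refine LipschitzOnWith.of_dist_le_mul fun q hq q' hq' => ?_
  refine (hg.dist_le_mul q.2 (hS q hq) q'.2 (hS q' hq')).trans ?_
  have a5 : dist q.2 q'.2 ≤ dist q q' := by
    rw [Prod.dist_eq (x := q)]; exact le_max_right _ _
  exact mul_le_mul_of_nonneg_left a5 K1.2

theorem m1_bound {H ω T : ℝ} [Fact (0 < H)] {u : ℝ → L1 (Xn H)}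
    (hu : ContinuousOn (fun t => jL H (u t)) (Icc 0 T)) :
    ∃ K : NNReal, ∀ t ∈ Icc 0 T, ∀ p : ℝ × ℝ, |fld ω (m1 (u t)) p.1 p.2| ≤ K := by
  obtain ⟨K, hK⟩ := isCompact_Icc.exists_bound_of_continuousOn hu
  refine ⟨⟨max K 0, le_max_right _ _⟩, fun t ht p => ?_⟩
  have h0 := l1_summable (jL H (u t))
  have h1 : Summable fun n => ‖m1 (u t) n‖ :=
    Summable.of_nonneg_of_le (fun n => norm_nonneg _) (fun n => norm_fst_le (jn (u t n))) h0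
  have h2 : ∑' n, ‖m1 (u t) n‖ ≤ ‖jL H (u t)‖ := by
    rw [l1_norm]
    exact Summable.tsum_le_tsum (fun n => norm_fst_le (jn (u t n))) h1 h0
  exact (fld_abs_le h1 p.1 p.2).trans (h2.trans ((hK t ht).trans (le_max_left _ _)))

/-- The trajectory in `ℝ³` from a weak solution in `(t,y,z)`. -/
theorem traj_of_weak {H T r : ℝ} [Fact (0 < H)] (hT : 0 < T) (hr : 0 ≤ r) (hrH : r < H)
    {g h v w : ℝ × ℝ × ℝ → ℝ} (W : Weak T H g h v w) {K1 K2 Kg : NNReal}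
    (hg : ∀ t ∈ Icc 0 T, ∀ p : ℝ × ℝ, |g (t, p)| ≤ Kg)
    (hl : ∀ t ∈ Icc 0 T, LipschitzOnWith K1 (fun p : ℝ × ℝ => g (t, p)) (univ ×ˢ Icc 0 H) ∧
      LipschitzOnWith K1 (fun p : ℝ × ℝ => v (t, p)) (univ ×ˢ Icc 0 H) ∧
      LipschitzOnWith K1 (fun p : ℝ × ℝ => w (t, p)) (univ ×ˢ Icc 0 H))
    (hl2 : ∀ t ∈ Icc 0 T, LipschitzOnWith K2 (fun p : ℝ × ℝ => h (t, p)) (univ ×ˢ Icc 0 H))
    (hw : ∀ t ∈ Icc 0 T, ∀ y, g (t, y, 0) = 0 ∧ h (t, y, 0) = 0 ∧ v (t, y, 0) = 0 ∧ w (t, y, 0) = 0)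
    {Ω Γ : Set (ℝ × ℝ × ℝ)} (hpos : ∀ q ∈ Ω, 0 < q.2.2) (hΓ : ∀ q ∈ frontier Ω \ Γ, q.2.2 = 0)
    (hcl : ∀ q ∈ closure Ω, |q.1| ≤ r ∧ |q.2.1| ≤ r ∧ q.2.2 ∈ Icc 0 r) :
    IsTrajectory Ω Γ T (fun q => q.2.1 * g (q.1, q.2.2) + h (q.1, q.2.2)) (fun q => v (q.1, q.2.2))
      (fun q => w (q.1, q.2.2)) := by
  have hΩ : ∀ q ∈ Ω, 0 < q.2.2 ∧ q.2.2 < H := fun q hq =>
    ⟨hpos q hq, (hcl q (subset_closure hq)).2.2.2.trans_lt hrH⟩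
  have hWt := W.traj hT hΩ (u₁ := fun q => q.2.1 * g (q.1, q.2.2) + h (q.1, q.2.2))
    (u₂ := fun q => v (q.1, q.2.2)) (u₃ := fun q => w (q.1, q.2.2)) (fun t x y z => rfl)
    (fun t x y z => rfl) (fun t x y z => rfl)
  have hmap : ∀ q : ℝ × ℝ × ℝ × ℝ, q ∈ Icc 0 T ×ˢ closure Ω →
      (q.1, q.2.2) ∈ Icc 0 T ×ˢ ((univ : Set ℝ) ×ˢ Icc 0 H) := by
    intro q hq
    have := (hcl q.2 hq.2).2.2
    exact ⟨hq.1, mem_univ _, this.1, this.2.trans hrH.le⟩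
  have hcm : Continuous fun q : ℝ × ℝ × ℝ × ℝ => (q.1, q.2.2) := by fun_prop
  have hstrip : ∀ q ∈ closure Ω, q.2 ∈ (univ : Set ℝ) ×ˢ Icc 0 H := fun q hq =>
    ⟨mem_univ _, (hcl q hq).2.2.1, (hcl q hq).2.2.2.trans hrH.le⟩
  refine ⟨?_, ?_, ?_, ?_, ?_, hWt.1, hWt.2⟩
  · exact ContinuousOn.add (ContinuousOn.mul (by fun_prop)
      (W.cg.comp hcm.continuousOn hmap)) (W.ch.comp hcm.continuousOn hmap)
  · exact W.cv.comp hcm.continuousOn hmap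
  · exact W.cw.comp hcm.continuousOn hmap
  · obtain ⟨r', hr'⟩ : ∃ r' : NNReal, (r' : ℝ) = r := ⟨⟨r, hr⟩, rfl⟩
    have hS : ∀ q ∈ closure Ω, |q.1| ≤ r' ∧ q.2 ∈ (univ : Set ℝ) ×ˢ Icc 0 H := fun q hq =>
      ⟨by rw [hr']; exact (hcl q hq).1, hstrip q hq⟩
    refine ⟨r' * K1 + Kg + K2 + K1, fun t ht => ?_⟩
    obtain ⟨l1, l2, l3⟩ := hl t ht
    have l4 := hl2 t ht
    have k1 := lip_affine hS l1 l4 (fun p => hg t ht p)
    have k2 := lip_snd hstrip l2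
    have k3 := lip_snd hstrip l3
    exact ⟨k1.weaken le_self_add, k2.weaken le_add_self, k3.weaken le_add_self⟩
  · intro t ht q hq
    have hz := hΓ q hq
    obtain ⟨a1, a2, a3, a4⟩ := hw t ht q.2.1
    have e : q.2 = (q.2.1, (0:ℝ)) := Prod.ext rfl hz
    show q.1 * g (t, q.2) + h (t, q.2) = 0 ∧ v (t, q.2) = 0 ∧ w (t, q.2) = 0
    rw [e, a1, a2, a3, a4]
    simp

/-- The trajectory in `ℝ³` from the modes. -/
theorem traj_of_modes {H ω T r : ℝ} [Fact (0 < H)] (hω : 0 < ω) (hT : 0 < T) (hr : 0 ≤ r) (hrH : r < H)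
    {J : Set ℝ} {P : ℝ → ℝ} {u h : ℝ → L1 (Xn H)} (hu : Traj ω 0 T J P u)
    (hh : LT ω 0 T J (fun _ => 0) (fun t n => (-N0 ω (u t) (h t) n, 0)) h)
    {Ω Γ : Set (ℝ × ℝ × ℝ)} (hpos : ∀ q ∈ Ω, 0 < q.2.2) (hΓ : ∀ q ∈ frontier Ω \ Γ, q.2.2 = 0)
    (hcl : ∀ q ∈ closure Ω, |q.1| ≤ r ∧ |q.2.1| ≤ r ∧ q.2.2 ∈ Icc 0 r) :
    IsTrajectory Ω Γ T (fun q => q.2.1 * fld ω (m1 (u q.1)) q.2.2.1 q.2.2.2 +
      fld ω (m1 (h q.1)) q.2.2.1 q.2.2.2) (fun q => fld ω (mv ω (u q.1)) q.2.2.1 q.2.2.2)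
      (fun q => fld ω (mw ω (u q.1)) q.2.2.1 q.2.2.2) := by
  obtain ⟨Kg, hKg⟩ := m1_bound (ω := ω) hu.cY
  obtain ⟨K1, hK1⟩ := lip_of_modes hT hu
  obtain ⟨K2, hK2⟩ := lip_of_modes hT hh
  refine traj_of_weak hT hr hrH (weak_of_modes hω hT hu hh) (K1 := K1) (K2 := K2) (Kg := Kg) ?_ ?_ ?_ ?_
    hpos hΓ hcl
  · intro t ht p
    exact hKg t ht p
  · intro t ht
    exact hK1 t ht
  · intro t ht
    exact (hK2 t ht).1
  · intro t ht y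
    have z1 := hu.z t ht
    have z2 := hh.z t ht
    exact ⟨fld_zero_wall (fun n => (z1 n).1) y, fld_zero_wall (fun n => (z2 n).1) y,
      fld_zero_wall (fun n => mv_wall ω (u t) n (z1 n).2) y,
      fld_zero_wall (fun n => mw_wall ω (u t) n) y⟩

end main

end Pool.Agent.Lib.MP_79abb3_an.P25
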