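import Pool.Agent.Lib.MP_79abb3_an.P25.Modes

/-!
From modes to functions of `(t, y, z)`.
-/

set_option autoImplicit false
set_option linter.unusedSectionVars false

open MeasureTheory Set Filter Topology Function

namespace Pool.Agent.Lib.MP_79abb3_an.P25

/-- `exp(i ω n y)` -/
noncomputable def ee (ω : ℝ) (n : ℤ) (y : ℝ) : ℂ := Complex.exp (Complex.I * ((ω * n * y : ℝ) : ℂ))

/-- Partial derivatives of functions of `(t, y, z)`. -/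
noncomputable def pt (Ψ : ℝ × ℝ × ℝ → ℝ) (q : ℝ × ℝ × ℝ) : ℝ := fderiv ℝ Ψ q (1, 0, 0)
noncomputable def py (Ψ : ℝ × ℝ × ℝ → ℝ) (q : ℝ × ℝ × ℝ) : ℝ := fderiv ℝ Ψ q (0, 1, 0)
noncomputable def pz (Ψ : ℝ × ℝ × ℝ → ℝ) (q : ℝ × ℝ × ℝ) : ℝ := fderiv ℝ Ψ q (0, 0, 1)

/-- Test functions of `(t, y, z)`. -/
structure IsT3 (T H : ℝ) (Ψ : ℝ × ℝ × ℝ → ℝ) : Prop where
  smooth : ContDiff ℝ ((⊤ : ℕ∞) : WithTop ℕ∞) Ψ
  cpt : HasCompactSupport Ψ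
  supp : tsupport Ψ ⊆ Ioo 0 T ×ˢ (univ ×ˢ Ioo 0 H)

/-- Fourier coefficients in `y` of a test function. -/
noncomputable def hat (ω : ℝ) (Ψ : ℝ × ℝ × ℝ → ℝ) (n : ℤ) (t z : ℝ) : ℂ :=
  ∫ y, ((Ψ (t, y, z) : ℝ) : ℂ) * ee ω n y

section
variable {H : ℝ} [hH : Fact (0 < H)]

/-- The real function with the modes `a n`. -/
noncomputable def fld (ω : ℝ) (a : ℤ → CI H) (y z : ℝ) : ℝ := (∑' n : ℤ, ex (a n) z * ee ω n y).re

/-- Modes of `v`. -/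
noncomputable def mv (ω : ℝ) (x : L1 (Xn H)) (n : ℤ) : CI H := vv (ω * n) (jn (x n))
/-- Modes of `w`. -/
noncomputable def mw (ω : ℝ) (x : L1 (Xn H)) (n : ℤ) : CI H := om (ω * n) (jn (x n))
/-- Modes of the vorticity. -/
noncomputable def mO (ω : ℝ) (x : L1 (Xn H)) (n : ℤ) : CI H := Om (ω * n) (x n)
/-- First component and its derivatives. -/
noncomputable def m1 (x : L1 (Xn H)) (n : ℤ) : CI H := (x n).1.1
noncomputable def m1y (ω : ℝ) (x : L1 (Xn H)) (n : ℤ) : CI H := is (ω * n) • (x n).1.2.2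
noncomputable def m1z (x : L1 (Xn H)) (n : ℤ) : CI H := (x n).1.2.1

/-- Fields in the `(y,z)` strip at a fixed time: `v_y + w_z = -g`, vorticity `O = w_y - v_z`. -/
structure FieldAt (H C : ℝ) (g gy gz v vy vz w wy wz O : ℝ → ℝ → ℝ) : Prop where
  c : ∀ f ∈ ({g, gy, gz, v, vy, vz, w, wy, wz, O} : Set (ℝ → ℝ → ℝ)),
    ContinuousOn (uncurry f) (univ ×ˢ Icc 0 H) ∧ ∀ y, ∀ z ∈ Icc 0 H, |f y z| ≤ C
  dgy : ∀ y, ∀ z ∈ Icc 0 H, HasDerivAt (fun y => g y z) (gy y z) y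
  dgz : ∀ y, ∀ z ∈ Icc 0 H, HasDerivWithinAt (fun z => g y z) (gz y z) (Icc 0 H) z
  dvy : ∀ y, ∀ z ∈ Icc 0 H, HasDerivAt (fun y => v y z) (vy y z) y
  dvz : ∀ y, ∀ z ∈ Icc 0 H, HasDerivWithinAt (fun z => v y z) (vz y z) (Icc 0 H) z
  dwy : ∀ y, ∀ z ∈ Icc 0 H, HasDerivAt (fun y => w y z) (wy y z) y
  dwz : ∀ y, ∀ z ∈ Icc 0 H, HasDerivWithinAt (fun z => w y z) (wz y z) (Icc 0 H) z
  div : ∀ y, ∀ z ∈ Icc 0 H, vy y z + wz y z = -g y z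
  vor : ∀ y, ∀ z ∈ Icc 0 H, O y z = wy y z - vz y z
  wall : ∀ y, g y 0 = 0 ∧ v y 0 = 0 ∧ w y 0 = 0

end

end Pool.Agent.Lib.MP_79abb3_an.P25
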