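import Pool.Agent.Lib.MP_79abb3_an.P25.AbsA

/-!
AB-4, AB-6: uniqueness of mild solutions and restriction to later intervals.
-/

set_option autoImplicit false
set_option linter.unusedSectionVars false

open MeasureTheory Set Filter Topology Function

namespace Pool.Agent.Lib.MP_79abb3_an.P25

private theorem ab_sqrt_mono {s a t : ℝ} (h : s ≤ a) : √(t - a) ≤ √(t - s) :=
  Real.sqrt_le_sqrt (sub_le_sub_left h t)

private theorem ab_sqrt_pos {s t : ℝ} (h : s < t) : 0 < √(t - s) :=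
  Real.sqrt_pos.2 (sub_pos.2 h)

private theorem ab_src {M R m qi nx ny nd jx jy jd C l b1 b2 : ℝ} (hM : 0 ≤ M) (hR : 0 ≤ R)
    (hC : 0 ≤ C) (hqi : 0 ≤ qi) (hnd0 : 0 ≤ nd) (hjd0 : 0 ≤ jd)
    (hny0 : 0 ≤ ny) (hjy0 : 0 ≤ jy)
    (hnd : nd ≤ m * qi) (hnx : nx ≤ R * qi) (hny : ny ≤ R * qi) (hjx : jx ≤ R)
    (hjy : jy ≤ R) (hjd : jd ≤ m)
    (hl : l ≤ M * (nd + qi * jd)) (hb1 : b1 ≤ C * (jx * nd + nx * jd))
    (hb2 : b2 ≤ C * (jd * ny + nd * jy)) :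
    l + b1 + b2 ≤ ((2 * M + 4 * C * R) * m) * qi := by
  have hm : 0 ≤ m := hjd0.trans hjd
  have hRq : 0 ≤ R * qi := mul_nonneg hR hqi
  have hmq : 0 ≤ m * qi := mul_nonneg hm hqi
  have d1 : l ≤ M * (m * qi + qi * m) := hl.trans
    (mul_le_mul_of_nonneg_left (add_le_add hnd (mul_le_mul_of_nonneg_left hjd hqi)) hM)
  have d2 : b1 ≤ C * (R * (m * qi) + (R * qi) * m) := hb1.trans
    (mul_le_mul_of_nonneg_left (add_le_add (mul_le_mul hjx hnd hnd0 hR)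
      (mul_le_mul hnx hjd hjd0 hRq)) hC)
  have d3 : b2 ≤ C * (m * (R * qi) + (m * qi) * R) := hb2.trans
    (mul_le_mul_of_nonneg_left (add_le_add (mul_le_mul hjd hny hny0 hm)
      (mul_le_mul hnd hjy hjy0 hmq)) hC)
  refine (add_le_add (add_le_add d1 d2) d3).trans (le_of_eq ?_)
  ring

private theorem ab_step {K m q qτ n jn C R' : ℝ} (hm : 0 ≤ m) (hK : 4 * C * K * qτ ≤ 1 / 2)
    (hR' : R' = K * m) (hq0 : 0 ≤ q) (hqτ : q ≤ qτ) (hn : 0 ≤ n) (hC : 0 ≤ C) (hK0 : 0 ≤ K)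
    (h1 : n ≤ 4 * C * R') (h2 : jn ≤ 2 * C * R' * q) :
    q * n ≤ 1 / 2 * m ∧ jn ≤ 1 / 2 * m := by
  subst hR'
  have hτ0 : 0 ≤ qτ := hq0.trans hqτ
  have hCKm : 0 ≤ C * (K * m) := mul_nonneg hC (mul_nonneg hK0 hm)
  have f : qτ * (4 * C * (K * m)) ≤ 1 / 2 * m := by
    have := mul_le_mul_of_nonneg_right hK hm
    calc qτ * (4 * C * (K * m)) = 4 * C * K * qτ * m := by ring
      _ ≤ 1 / 2 * m := this
  constructor
  · exact (mul_le_mul hqτ h1 hn hτ0).trans f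
  · have g1 : 2 * C * (K * m) * q ≤ 2 * C * (K * m) * qτ :=
      mul_le_mul_of_nonneg_left hqτ (by linarith)
    have g2 : 0 ≤ C * (K * m) * qτ := mul_nonneg hCKm hτ0
    linarith

private theorem ab_tau {K : ℝ} (hK0 : 0 ≤ K) :
    0 < ((2 * (K + 1))⁻¹) ^ 2 ∧ K * √(((2 * (K + 1))⁻¹) ^ 2) ≤ 1 / 2 := by
  have h1 : 0 < 2 * (K + 1) := by linarith
  have h2 : 0 < (2 * (K + 1))⁻¹ := inv_pos.2 h1
  refine ⟨pow_pos h2 2, ?_⟩
  rw [Real.sqrt_sq h2.le, ← div_eq_mul_inv, div_le_iff₀ h1]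
  linarith

section Abs
variable {X Y : Type} [NormedAddCommGroup X] [NormedSpace ℝ X] [CompleteSpace X]
  [NormedAddCommGroup Y] [NormedSpace ℝ Y] [CompleteSpace Y]
  {j : X →L[ℝ] Y} {T : ℝ → (Y →L[ℝ] X)} {B : X →L[ℝ] X →L[ℝ] Y} {C : ℝ}

/-- AB-6. Restriction to a later interval. -/
theorem Mild.restart (hT : SG j T C) (hB : BilB j B C) {s b M MF : ℝ} (hM : 0 ≤ M) (hsb : b ≤ s + 1)
    {Λ : ℝ → (X →L[ℝ] Y)} {F : ℝ → Y} (hC : Coef j s b M MF Λ F) {u0 : Y} {u : ℝ → X}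
    (h : Mild j T B Λ F s b u0 u) {a : ℝ} (ha : a ∈ Ioo s b) :
    Mild j T B Λ F a b (j (u a)) u := by
  obtain ⟨hNc, R, hR, hNb⟩ := Mild.rhs hT hB hM hC h
  obtain ⟨-, -, -, -, hsplit⟩ := duhamel hT hsb hR hNc hNb
  refine ⟨h.cont.mono (Ioc_subset_Ioc_left ha.1.le), ?_, ?_⟩
  · obtain ⟨R1, hR1⟩ := h.bd
    refine ⟨R1, fun t ht => ?_⟩
    have ht' : t ∈ Ioc s b := ⟨ha.1.trans ht.1, ht.2⟩
    exact ⟨le_trans (mul_le_mul_of_nonneg_right (ab_sqrt_mono ha.1.le) (norm_nonneg (u t)))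
      (hR1 t ht').1, (hR1 t ht').2⟩
  · intro t ht
    have ht' : t ∈ Ioc s b := ⟨ha.1.trans ht.1, ht.2⟩
    have e1 := h.eq t ht'
    have e2 := h.eq a ⟨ha.1, ha.2.le⟩
    have e3 := hsplit a ha t ht
    have e4 : T (t - s) u0 = T (t - a) (j (T (a - s) u0)) := by
      have h5 := hT.sg (t - a) (a - s) (sub_pos.2 ht.1) (sub_pos.2 ha.1) u0
      rwa [sub_add_sub_cancel] at h5
    have e5 : j (u a) = j (T (a - s) u0) +
        j (∫ r in s..a, T (a - r) (Λ r (u r) + B (u r) (u r) + F r)) :=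
      (congrArg j e2).trans (j.map_add _ _)
    have e6 : T (t - a) (j (u a)) = T (t - a) (j (T (a - s) u0)) +
        T (t - a) (j (∫ r in s..a, T (a - r) (Λ r (u r) + B (u r) (u r) + F r))) :=
      (congrArg (T (t - a)) e5).trans ((T (t - a)).map_add _ _)
    rw [e6, add_assoc, ← e4]
    exact e1.trans (congrArg (fun z => T (t - s) u0 + z) e3)

/-- The same with the coefficients. -/
theorem Coef.restart {s b M MF : ℝ} (hM : 0 ≤ M)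
    {Λ : ℝ → (X →L[ℝ] Y)} {F : ℝ → Y} (hC : Coef j s b M MF Λ F) {a : ℝ} (ha : a ∈ Ioo s b) :
    Coef j a b M MF Λ F := by
  have hMF : 0 ≤ MF := by
    have h1 := hC.bF b ⟨ha.1.trans ha.2, le_rfl⟩
    have h2 : 0 < (√(b - s))⁻¹ := inv_pos.2 (ab_sqrt_pos (ha.1.trans ha.2))
    exact le_of_mul_le_mul_right (by rw [zero_mul]; exact (norm_nonneg _).trans h1) h2
  have key : ∀ t ∈ Ioc a b, (√(t - s))⁻¹ ≤ (√(t - a))⁻¹ := fun t ht =>
    inv_anti₀ (ab_sqrt_pos ht.1) (ab_sqrt_mono ha.1.le)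
  refine ⟨fun x => (hC.cΛ x).mono (Ioc_subset_Ioc_left ha.1.le),
    hC.cF.mono (Ioc_subset_Ioc_left ha.1.le), fun t ht x => ?_, fun t ht => ?_⟩
  · refine (hC.bΛ t ⟨ha.1.trans ht.1, ht.2⟩ x).trans ?_
    exact mul_le_mul_of_nonneg_left (add_le_add le_rfl
      (mul_le_mul_of_nonneg_right (key t ht) (norm_nonneg (j x)))) hM
  · exact (hC.bF t ⟨ha.1.trans ht.1, ht.2⟩).trans (mul_le_mul_of_nonneg_left (key t ht) hMF)

private theorem ab_diff (hT : SG j T C) {s b : ℝ} (hsb : b ≤ s + 1)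
    {Λ : ℝ → (X →L[ℝ] Y)} {F : ℝ → Y} {u0 : Y} {u u' : ℝ → X} {R1 R1' : ℝ}
    (h : Mild j T B Λ F s b u0 u) (h' : Mild j T B Λ F s b u0 u') {N N' : ℝ → Y}
    (hN : ∀ t, N t = Λ t (u t) + B (u t) (u t) + F t)
    (hN' : ∀ t, N' t = Λ t (u' t) + B (u' t) (u' t) + F t)
    (hR1 : 0 ≤ R1) (hR1' : 0 ≤ R1') (hNc : ContinuousOn N (Ioc s b))
    (hNc' : ContinuousOn N' (Ioc s b)) (hNb : ∀ t ∈ Ioc s b, ‖N t‖ ≤ R1 * (√(t - s))⁻¹)
    (hNb' : ∀ t ∈ Ioc s b, ‖N' t‖ ≤ R1' * (√(t - s))⁻¹) :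
    ∀ t ∈ Ioc s b, u t - u' t = ∫ r in s..t, T (t - r) (N r - N' r) := by
  have hint := (duhamel hT hsb hR1 hNc hNb).1
  have hint' := (duhamel hT hsb hR1' hNc' hNb').1
  intro t ht
  have e : u t = T (t - s) u0 + ∫ r in s..t, T (t - r) (N r) := by
    rw [show N = fun t => Λ t (u t) + B (u t) (u t) + F t from funext hN]
    exact h.eq t ht
  have e' : u' t = T (t - s) u0 + ∫ r in s..t, T (t - r) (N' r) := by
    rw [show N' = fun t => Λ t (u' t) + B (u' t) (u' t) + F t from funext hN']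
    exact h'.eq t ht
  have e3 : (∫ r in s..t, T (t - r) (N r - N' r)) =
      (∫ r in s..t, T (t - r) (N r)) - ∫ r in s..t, T (t - r) (N' r) :=
    (intervalIntegral.integral_congr fun r _ => (T (t - r)).map_sub _ _).trans
      (intervalIntegral.integral_sub (hint t ht) (hint' t ht))
  rw [e3, e, e', add_sub_add_left_eq_sub]

private theorem ab_srcN (hB : BilB j B C) {s b M MF R : ℝ}
    (hM : 0 ≤ M) (hR : 0 ≤ R) (hC0 : 0 ≤ C)
    {Λ : ℝ → (X →L[ℝ] Y)} {F : ℝ → Y} (hC : Coef j s b M MF Λ F) {t m : ℝ} (ht : t ∈ Ioc s b)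
    {x y : X} (c : √(t - s) * ‖x‖ ≤ R ∧ ‖j x‖ ≤ R) (c' : √(t - s) * ‖y‖ ≤ R ∧ ‖j y‖ ≤ R)
    (h1 : √(t - s) * ‖x - y‖ ≤ m) (h2 : ‖j (x - y)‖ ≤ m) :
    ‖(Λ t x + B x x + F t) - (Λ t y + B y y + F t)‖ ≤
      ((2 * M + 4 * C * R) * m) * (√(t - s))⁻¹ := by
  have hpos : 0 < √(t - s) := ab_sqrt_pos ht.1
  have e : (Λ t x + B x x + F t) - (Λ t y + B y y + F t) =
      Λ t (x - y) + B x (x - y) + B (x - y) y := by
    rw [(Λ t).map_sub, (B x).map_sub, B.map_sub, _root_.sub_apply]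
    abel
  have n1 : ‖x - y‖ ≤ m * (√(t - s))⁻¹ := by
    rw [← div_eq_mul_inv, le_div_iff₀ hpos, mul_comm]; exact h1
  have n2 : ‖x‖ ≤ R * (√(t - s))⁻¹ := by
    rw [← div_eq_mul_inv, le_div_iff₀ hpos, mul_comm]; exact c.1
  have n3 : ‖y‖ ≤ R * (√(t - s))⁻¹ := by
    rw [← div_eq_mul_inv, le_div_iff₀ hpos, mul_comm]; exact c'.1
  rw [e]
  exact norm_add₃_le.trans (ab_src hM hR hC0 (inv_pos.2 hpos).le (norm_nonneg _) (norm_nonneg _)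
    (norm_nonneg _) (norm_nonneg _) n1 n2 n3 c.2 c'.2 h2 (hC.bΛ t ht (x - y)) (hB x (x - y))
    (hB (x - y) y))

private theorem ab_zero {R : ℝ} {s t : ℝ} {x y : X} (c : √(t - s) * ‖x‖ ≤ R ∧ ‖j x‖ ≤ R)
    (c' : √(t - s) * ‖y‖ ≤ R ∧ ‖j y‖ ≤ R) :
    √(t - s) * ‖x - y‖ ≤ 2 * R ∧ ‖j (x - y)‖ ≤ 2 * R := by
  have hq : 0 ≤ √(t - s) := Real.sqrt_nonneg _
  constructor
  · calc √(t - s) * ‖x - y‖ ≤ √(t - s) * (‖x‖ + ‖y‖) :=
          mul_le_mul_of_nonneg_left (norm_sub_le x y) hq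
      _ = √(t - s) * ‖x‖ + √(t - s) * ‖y‖ := mul_add _ _ _
      _ ≤ R + R := add_le_add c.1 c'.1
      _ = 2 * R := (two_mul R).symm
  · rw [j.map_sub]
    exact (norm_sub_le _ _).trans ((add_le_add c.2 c'.2).trans (two_mul R).ge)

/-- Local uniqueness with explicit time. -/
theorem Mild.unique_loc (hT : SG j T C) (hB : BilB j B C) {s b M MF R τ : ℝ} (hsb : b ≤ s + 1)
    (hM : 0 ≤ M) (hR : 0 ≤ R) (hτ : 4 * C * (2 * M + 4 * C * R) * √τ ≤ 1 / 2)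
    {Λ : ℝ → (X →L[ℝ] Y)} {F : ℝ → Y} (hC : Coef j s b M MF Λ F) {u0 : Y} {u u' : ℝ → X}
    (h : Mild j T B Λ F s b u0 u) (h' : Mild j T B Λ F s b u0 u')
    (hu : ∀ t ∈ Ioc s b, √(t - s) * ‖u t‖ ≤ R ∧ ‖j (u t)‖ ≤ R)
    (hu' : ∀ t ∈ Ioc s b, √(t - s) * ‖u' t‖ ≤ R ∧ ‖j (u' t)‖ ≤ R) :
    ∀ t ∈ Ioc s b, t ≤ s + τ → u t = u' t := by
  have hC0 : 0 ≤ C := zero_le_one.trans hT.one_le
  obtain ⟨hNc, R1, hR1, hNb⟩ := Mild.rhs hT hB hM hC h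
  obtain ⟨hNc', R1', hR1', hNb'⟩ := Mild.rhs hT hB hM hC h'
  obtain ⟨N, hN⟩ : ∃ N : ℝ → Y, N = fun t => Λ t (u t) + B (u t) (u t) + F t := ⟨_, rfl⟩
  obtain ⟨N', hN'⟩ : ∃ N' : ℝ → Y, N' = fun t => Λ t (u' t) + B (u' t) (u' t) + F t := ⟨_, rfl⟩
  rw [← hN] at hNc
  rw [← hN'] at hNc'
  have hNt : ∀ t, N t = Λ t (u t) + B (u t) (u t) + F t := fun t => congrFun hN t
  have hNt' : ∀ t, N' t = Λ t (u' t) + B (u' t) (u' t) + F t := fun t => congrFun hN' t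
  have hdiff := ab_diff hT hsb h h' hNt hNt' hR1 hR1' hNc hNc'
    (fun t ht => (hNt t).symm ▸ hNb t ht) (fun t ht => (hNt' t).symm ▸ hNb' t ht)
  have hsrc : ∀ t ∈ Ioc s b, ∀ m, √(t - s) * ‖u t - u' t‖ ≤ m → ‖j (u t - u' t)‖ ≤ m →
      ‖N t - N' t‖ ≤ ((2 * M + 4 * C * R) * m) * (√(t - s))⁻¹ := by
    intro t ht m h1 h2
    rw [hNt, hNt']
    exact ab_srcN hB hM hR hC0 hC ht (hu t ht) (hu' t ht) h1 h2
  clear hN hN' hNt hNt' hNb hNb' hC h h' hB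
  have hsub : Ioc s (min b (s + τ)) ⊆ Ioc s b := Ioc_subset_Ioc_right (min_le_left _ _)
  have hKK : 0 ≤ 2 * M + 4 * C * R :=
    add_nonneg (mul_nonneg zero_le_two hM) (mul_nonneg (mul_nonneg zero_le_four hC0) hR)
  have hiter : ∀ k : ℕ, ∀ t ∈ Ioc s (min b (s + τ)),
      √(t - s) * ‖u t - u' t‖ ≤ 2 * R * (1 / 2) ^ k ∧
      ‖j (u t - u' t)‖ ≤ 2 * R * (1 / 2) ^ k := by
    intro k
    induction k with
    | zero =>
      intro t ht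
      rw [pow_zero, mul_one]
      exact ab_zero (hu t (hsub ht)) (hu' t (hsub ht))
    | succ k ih =>
      intro t ht
      obtain ⟨m, hm⟩ : ∃ m : ℝ, m = 2 * R * (1 / 2 : ℝ) ^ k := ⟨_, rfl⟩
      rw [← hm] at ih
      have hm0 : 0 ≤ m := by
        rw [hm]; exact mul_nonneg (mul_nonneg zero_le_two hR) (pow_nonneg one_half_pos.le k)
      have hb1 : min b (s + τ) ≤ s + 1 := (min_le_left _ _).trans hsb
      obtain ⟨-, k1, k2, -, -⟩ := duhamel hT hb1 (mul_nonneg hKK hm0)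
        ((hNc.sub hNc').mono hsub) (fun r hr => hsrc r (hsub hr) m (ih r hr).1 (ih r hr).2)
      have k1 := k1 t ht
      have k2 := k2 t ht
      have hd := hdiff t (hsub ht)
      rw [pow_succ, ← mul_assoc, ← hm, mul_comm m]
      have hts : t - s ≤ τ := sub_le_iff_le_add'.2 (ht.2.trans (min_le_right b (s + τ)))
      exact ab_step hm0 hτ rfl (Real.sqrt_nonneg _) (Real.sqrt_le_sqrt hts) (norm_nonneg _) hC0
        hKK ((congrArg norm hd).le.trans k1) ((congrArg (fun z => ‖j z‖) hd).le.trans k2)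
  intro t ht htτ
  have htb : t ∈ Ioc s (min b (s + τ)) := ⟨ht.1, le_min ht.2 htτ⟩
  have hpos : 0 < √(t - s) := ab_sqrt_pos ht.1
  have hlim : Tendsto (fun k : ℕ => 2 * R * (1 / 2 : ℝ) ^ k) atTop (𝓝 (2 * R * 0)) :=
    (tendsto_pow_atTop_nhds_zero_of_lt_one one_half_pos.le one_half_lt_one).const_mul _
  have hle : √(t - s) * ‖u t - u' t‖ ≤ 2 * R * 0 :=
    ge_of_tendsto' hlim fun k => (hiter k t htb).1
  rw [mul_zero] at hle
  exact sub_eq_zero.1 (norm_le_zero_iff.1 (nonpos_of_mul_nonpos_right hle hpos))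

private theorem ab_mono {s a b R : ℝ} {v : ℝ → X} (hsa : s ≤ a)
    (hv : ∀ t ∈ Ioc s b, √(t - s) * ‖v t‖ ≤ R ∧ ‖j (v t)‖ ≤ R) :
    ∀ t ∈ Ioc a b, √(t - a) * ‖v t‖ ≤ R ∧ ‖j (v t)‖ ≤ R := by
  intro t ht
  have h := hv t (Ioc_subset_Ioc_left hsa ht)
  exact ⟨le_trans (mul_le_mul_of_nonneg_right (ab_sqrt_mono hsa) (norm_nonneg _)) h.1, h.2⟩

/-- AB-4. Uniqueness. -/
theorem Mild.unique (hT : SG j T C) (hB : BilB j B C) {s b M MF : ℝ} (hsb : b ≤ s + 1)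
    {Λ : ℝ → (X →L[ℝ] Y)} {F : ℝ → Y} (hC : Coef j s b M MF Λ F) {u0 : Y} {u u' : ℝ → X}
    (h : Mild j T B Λ F s b u0 u) (h' : Mild j T B Λ F s b u0 u') : ∀ t ∈ Ioc s b, u t = u' t := by
  have hC0 : 0 ≤ C := zero_le_one.trans hT.one_le
  -- replace `M` by `max M 0`
  obtain ⟨M', hM', hC'⟩ : ∃ M', 0 ≤ M' ∧ Coef j s b M' MF Λ F :=
    ⟨max M 0, le_max_right _ _, hC.cΛ, hC.cF, fun t ht x =>
      (hC.bΛ t ht x).trans (mul_le_mul_of_nonneg_right (le_max_left _ _)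
        (add_nonneg (norm_nonneg _) (mul_nonneg (inv_nonneg.2 (Real.sqrt_nonneg _))
          (norm_nonneg _)))), hC.bF⟩
  obtain ⟨R0, hR0⟩ := h.bd
  obtain ⟨R0', hR0'⟩ := h'.bd
  obtain ⟨R, hR, hRa, hRb⟩ : ∃ R : ℝ, 0 ≤ R ∧ R0 ≤ R ∧ R0' ≤ R :=
    ⟨max (max R0 R0') 0, le_max_right _ _, (le_max_left _ _).trans (le_max_left _ _),
      (le_max_right _ _).trans (le_max_left _ _)⟩
  have hu : ∀ t ∈ Ioc s b, √(t - s) * ‖u t‖ ≤ R ∧ ‖j (u t)‖ ≤ R := fun t ht =>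
    ⟨(hR0 t ht).1.trans hRa, (hR0 t ht).2.trans hRa⟩
  have hu' : ∀ t ∈ Ioc s b, √(t - s) * ‖u' t‖ ≤ R ∧ ‖j (u' t)‖ ≤ R := fun t ht =>
    ⟨(hR0' t ht).1.trans hRb, (hR0' t ht).2.trans hRb⟩
  obtain ⟨τ, hτ0, hτ⟩ : ∃ τ : ℝ, 0 < τ ∧ 4 * C * (2 * M' + 4 * C * R) * √τ ≤ 1 / 2 :=
    ⟨_, ab_tau (mul_nonneg (mul_nonneg zero_le_four hC0) (add_nonneg (mul_nonneg zero_le_two hM')
      (mul_nonneg (mul_nonneg zero_le_four hC0) hR)))⟩
  have hind : ∀ k : ℕ, ∀ t ∈ Ioc s b, t ≤ s + k * τ → u t = u' t := by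
    intro k
    induction k with
    | zero =>
      intro t ht h0
      rw [Nat.cast_zero, zero_mul, add_zero] at h0
      exact absurd ht.1 (not_lt.2 h0)
    | succ k ih =>
      intro t ht htk
      by_cases hk : t ≤ s + k * τ
      · exact ih t ht hk
      have hk' := not_le.1 hk
      have htk' : t ≤ s + k * τ + τ := by
        rw [Nat.cast_succ, add_mul, one_mul, ← add_assoc] at htk
        exact htk
      rcases Nat.eq_zero_or_pos k with hk0 | hkpos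
      · refine Mild.unique_loc hT hB hsb hM' hR hτ hC' h h' hu hu' t ht ?_
        rw [hk0, Nat.cast_zero, zero_mul, add_zero] at htk'
        exact htk'
      · have hkτ : 0 < (k : ℝ) * τ := mul_pos (Nat.cast_pos.2 hkpos) hτ0
        have haI : s + k * τ ∈ Ioo s b := ⟨lt_add_of_pos_right s hkτ, hk'.trans_le ht.2⟩
        have hua : u (s + k * τ) = u' (s + k * τ) := ih _ ⟨haI.1, haI.2.le⟩ le_rfl
        have r := Mild.restart hT hB hM' hsb hC' h haI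
        have r' := Mild.restart hT hB hM' hsb hC' h' haI
        rw [← hua] at r'
        exact Mild.unique_loc hT hB (hsb.trans (add_le_add haI.1.le le_rfl)) hM' hR hτ
          (Coef.restart hM' hC' haI) r r' (ab_mono haI.1.le hu) (ab_mono haI.1.le hu') t
          ⟨hk', ht.2⟩ htk'
  intro t ht
  obtain ⟨k, hk⟩ := exists_nat_gt ((t - s) / τ)
  rw [div_lt_iff₀ hτ0] at hk
  exact hind k t ht (sub_le_iff_le_add'.1 hk.le)

end Abs

end Pool.Agent.Lib.MP_79abb3_an.P25
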