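import Pool.Agent.Lib.MP_79abb3_an.P25.AbsLE

/-!
Abstract semilinear parabolic equations: regularity at the initial time, concatenation, and an
estimate in `X`.
-/

set_option autoImplicit false
set_option linter.unusedSectionVars false

open MeasureTheory Set Filter Topology Function

namespace Pool.Agent.Lib.MP_79abb3_an.P25

section Abs
variable {X Y : Type} [NormedAddCommGroup X] [NormedSpace ℝ X] [CompleteSpace X]
  [NormedAddCommGroup Y] [NormedSpace ℝ Y] [CompleteSpace Y]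
  {j : X →L[ℝ] Y} {T : ℝ → (Y →L[ℝ] X)} {B : X →L[ℝ] X →L[ℝ] Y} {C : ℝ}

/-- Boundedness in `X` of a mild solution when coefficients and `T t u0` are bounded. -/
theorem Mild.bdd (hT : SG j T C) (hB : BilB j B C) {s b M R1 : ℝ} (hsb : b ≤ s + 1)
    (hM : 0 ≤ M) {Λ : ℝ → (X →L[ℝ] Y)} {F : ℝ → Y} (cΛ : ∀ x, ContinuousOn (fun t => Λ t x) (Ioc s b))
    (cF : ContinuousOn F (Ioc s b)) (bΛ : ∀ t ∈ Ioc s b, ∀ x, ‖Λ t x‖ ≤ M * ‖x‖)
    (bF : ∀ t ∈ Ioc s b, ‖F t‖ ≤ M) {u0 : Y} {u : ℝ → X}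
    (hx : ∀ t ∈ Ioc (0:ℝ) 1, ‖T t u0‖ ≤ R1) (h : Mild j T B Λ F s b u0 u) :
    ContinuousOn (fun t => Λ t (u t) + B (u t) (u t) + F t) (Ioc s b) ∧
      ∃ R, 0 ≤ R ∧ ∀ t ∈ Ioc s b, ‖u t‖ ≤ R := by
  have hC1 := hT.one_le
  have hC0 : 0 ≤ C := by linarith
  have hcoef : Coef j s b M M Λ F := by
    refine ⟨cΛ, cF, fun t ht x => (bΛ t ht x).trans ?_, fun t ht => (bF t ht).trans ?_⟩
    · gcongr
      have : 0 ≤ (√(t - s))⁻¹ * ‖j x‖ := by positivity
      linarith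
    · have := one_le_inv_sqrt (x := t - s) (by linarith [ht.1]) (by linarith [ht.2])
      nlinarith
  have hcont := continuousOn_rhs (B := B) hM hT.jn hcoef h.cont
  refine ⟨hcont, ?_⟩
  obtain ⟨R, hR⟩ := h.bd
  set R' := |R| with hR'
  have hR0 : 0 ≤ R' := abs_nonneg _
  have hRR : R ≤ R' := le_abs_self _
  set Q := (M + 2 * C * R') * R' + M with hQ
  have hQ0 : 0 ≤ Q := by positivity
  have hsrc : ∀ t ∈ Ioc s b, ‖Λ t (u t) + B (u t) (u t) + F t‖ ≤ Q * (√(t - s))⁻¹ := by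
    intro t ht
    have hpt : 0 < t - s := by linarith [ht.1]
    have hsq : 0 < √(t - s) := Real.sqrt_pos.2 hpt
    have h1 := one_le_inv_sqrt (x := t - s) hpt (by linarith [ht.2])
    have hu : ‖u t‖ ≤ R' * (√(t - s))⁻¹ := by
      rw [← div_eq_mul_inv, le_div_iff₀ hsq, mul_comm]
      exact (hR t ht).1.trans hRR
    have hju : ‖j (u t)‖ ≤ R' := (hR t ht).2.trans hRR
    calc ‖Λ t (u t) + B (u t) (u t) + F t‖ ≤ ‖Λ t (u t)‖ + ‖B (u t) (u t)‖ + ‖F t‖ :=
          norm_add₃_le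
      _ ≤ M * ‖u t‖ + 2 * C * R' * ‖u t‖ + M := by
          gcongr
          · exact bΛ t ht _
          · exact norm_B_self_le hB hC0 hju
          · exact bF t ht
      _ ≤ M * (R' * (√(t - s))⁻¹) + 2 * C * R' * (R' * (√(t - s))⁻¹) + M * (√(t - s))⁻¹ := by
          gcongr
          nlinarith
      _ = Q * (√(t - s))⁻¹ := by rw [hQ]; ring
  obtain ⟨-, hd, -⟩ := duhamel hT hsb hQ0 hcont hsrc
  refine ⟨|R1| + 4 * C * Q, by positivity, fun t ht => ?_⟩
  rw [h.eq t ht]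
  refine (norm_add_le _ _).trans ?_
  gcongr
  · exact (hx (t - s) ⟨by linarith [ht.1], by linarith [ht.2]⟩).trans (le_abs_self _)
  · exact hd t ht

/-- AB-7. If the initial value comes from `x0 ∈ X` with `T t (j x0) → x0` in `X`, and the
coefficients are bounded near the initial time, then `u t → x0` in `X`. -/
theorem Mild.reg (hT : SG j T C) (hB : BilB j B C) {s b M : ℝ} (hsb : b ≤ s + 1) (hsb' : s < b)
    (hM : 0 ≤ M) {Λ : ℝ → (X →L[ℝ] Y)} {F : ℝ → Y} (cΛ : ∀ x, ContinuousOn (fun t => Λ t x) (Ioc s b))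
    (cF : ContinuousOn F (Ioc s b)) (bΛ : ∀ t ∈ Ioc s b, ∀ x, ‖Λ t x‖ ≤ M * ‖x‖)
    (bF : ∀ t ∈ Ioc s b, ‖F t‖ ≤ M) {x0 : X} {u : ℝ → X}
    (hx : Tendsto (fun t => T t (j x0)) (𝓝[>] 0) (𝓝 x0)) (h : Mild j T B Λ F s b (j x0) u) :
    Tendsto u (𝓝[>] s) (𝓝 x0) ∧ ∃ R, ∀ t ∈ Ioc s b, ‖u t‖ ≤ R := by
  have hC1 := hT.one_le
  have hC0 : 0 ≤ C := by linarith
  -- bound of `T t (j x0)`
  obtain ⟨R1, hR1⟩ : ∃ R1, ∀ t ∈ Ioc (0:ℝ) 1, ‖T t (j x0)‖ ≤ R1 := by
    have hev : ∀ᶠ t in 𝓝[>] (0:ℝ), ‖T t (j x0)‖ < ‖x0‖ + 1 :=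
      hx.norm.eventually (gt_mem_nhds (by linarith))
    rw [eventually_nhdsWithin_iff, Metric.eventually_nhds_iff] at hev
    obtain ⟨δ, hδ, hev⟩ := hev
    refine ⟨(‖x0‖ + 1) + C * (√δ)⁻¹ * ‖j x0‖, fun t ht => ?_⟩
    by_cases htd : t < δ
    · have h1 := hev (y := t) (by rw [Real.dist_eq, sub_zero, abs_of_pos ht.1]; exact htd) ht.1
      have : 0 ≤ C * (√δ)⁻¹ * ‖j x0‖ := by positivity
      linarith
    · have h1 := hT.b1 t ht (j x0)
      have h2 : C * (√t)⁻¹ * ‖j x0‖ ≤ C * (√δ)⁻¹ * ‖j x0‖ := by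
        have : √δ ≤ √t := Real.sqrt_le_sqrt (not_lt.1 htd)
        have hd : 0 < √δ := Real.sqrt_pos.2 hδ
        gcongr
      have : 0 ≤ ‖x0‖ + 1 := by positivity
      linarith
  obtain ⟨hcont, R2, hR20, hR2⟩ := h.bdd hT hB hsb hM cΛ cF bΛ bF hR1
  refine ⟨?_, R2, hR2⟩
  have hbd : ∀ t ∈ Ioc s b, ‖Λ t (u t) + B (u t) (u t) + F t‖ ≤ M * R2 + 2 * C * R2 * R2 + M := by
    intro t ht
    have hu := hR2 t ht
    have hju : ‖j (u t)‖ ≤ R2 := (hT.jn _).trans hu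
    calc ‖Λ t (u t) + B (u t) (u t) + F t‖ ≤ ‖Λ t (u t)‖ + ‖B (u t) (u t)‖ + ‖F t‖ :=
          norm_add₃_le
      _ ≤ M * ‖u t‖ + 2 * C * R2 * ‖u t‖ + M := by
          gcongr
          · exact bΛ t ht _
          · exact norm_B_self_le hB hC0 hju
          · exact bF t ht
      _ ≤ M * R2 + 2 * C * R2 * R2 + M := by gcongr
  have hd := duhamel_bdd hT hsb (R := M * R2 + 2 * C * R2 * R2 + M) (by positivity) hcont hbd
  set Q := 2 * C * (M * R2 + 2 * C * R2 * R2 + M) with hQ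
  have hts : Tendsto (fun t => t - s) (𝓝[>] s) (𝓝[>] 0) := by
    refine tendsto_nhdsWithin_iff.2 ⟨?_, ?_⟩
    · have : Tendsto (fun t : ℝ => t - s) (𝓝 s) (𝓝 (s - s)) := (continuous_sub_right s).tendsto s
      rw [sub_self] at this
      exact this.mono_left nhdsWithin_le_nhds
    · filter_upwards [self_mem_nhdsWithin] with t ht
      have : s < t := ht
      show 0 < t - s
      linarith
  have h1 : Tendsto (fun t => T (t - s) (j x0)) (𝓝[>] s) (𝓝 x0) := hx.comp hts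
  have hsq : Tendsto (fun t => Q * √(t - s)) (𝓝[>] s) (𝓝 0) := by
    have : Tendsto (fun t => Q * √(t - s)) (𝓝 s) (𝓝 (Q * √(s - s))) := by
      have : Continuous (fun t => Q * √(t - s)) := by fun_prop
      exact this.tendsto s
    rw [sub_self, Real.sqrt_zero, mul_zero] at this
    exact this.mono_left nhdsWithin_le_nhds
  have h2 : Tendsto (fun t => ∫ r in s..t, T (t - r) (Λ r (u r) + B (u r) (u r) + F r))
      (𝓝[>] s) (𝓝 0) := by
    refine tendsto_zero_iff_norm_tendsto_zero.2 ?_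
    refine squeeze_zero' (Eventually.of_forall fun _ => norm_nonneg _) ?_ hsq
    filter_upwards [Ioc_mem_nhdsGT hsb'] with t ht
    exact hd t ht
  have h3 := h1.add h2
  rw [add_zero] at h3
  refine h3.congr' ?_
  filter_upwards [Ioc_mem_nhdsGT hsb'] with t ht
  exact (h.eq t ht).symm

/-- AB-8. Concatenation. -/
theorem Mild.glue (hT : SG j T C) (hB : BilB j B C) {s a b M MF : ℝ} (hM : 0 ≤ M) (hsa : s < a)
    (hab : a < b) (hsb : b ≤ s + 1) {Λ : ℝ → (X →L[ℝ] Y)} {F : ℝ → Y} (hC : Coef j s b M MF Λ F)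
    {u0 : Y} {u u' : ℝ → X} (h : Mild j T B Λ F s a u0 u) (h' : Mild j T B Λ F a b (j (u a)) u')
    (hx : Tendsto (fun t => T t (j (u a))) (𝓝[>] 0) (𝓝 (u a))) :
    Mild j T B Λ F s b u0 (fun t => if t ≤ a then u t else u' t) := by
  have hC1 := hT.one_le
  have hC0 : 0 ≤ C := by linarith
  have hpa : 0 < a - s := by linarith
  have hsqa : 0 < √(a - s) := Real.sqrt_pos.2 hpa
  have hMF : 0 ≤ MF := by
    have h1 := (norm_nonneg _).trans (hC.bF b ⟨by linarith, le_rfl⟩)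
    have h2 : 0 < (√(b - s))⁻¹ := inv_pos.2 (Real.sqrt_pos.2 (by linarith))
    exact nonneg_of_mul_nonneg_left h1 h2
  have hsub : Ioc a b ⊆ Ioc s b := Ioc_subset_Ioc_left hsa.le
  have hinv : ∀ t ∈ Ioc a b, (√(t - s))⁻¹ ≤ (√(a - s))⁻¹ := by
    intro t ht
    have : √(a - s) ≤ √(t - s) := Real.sqrt_le_sqrt (by linarith [ht.1])
    gcongr
  obtain ⟨hlim, R', hR'⟩ := h'.reg (M := M * (1 + (√(a - s))⁻¹) + MF * (√(a - s))⁻¹) hT hB
    (by linarith) hab (by positivity) (fun x => (hC.cΛ x).mono hsub) (hC.cF.mono hsub)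
    (by
      intro t ht x
      refine (hC.bΛ t (hsub ht) x).trans ?_
      have h1 := hinv t ht
      have h2 : (√(t - s))⁻¹ * ‖j x‖ ≤ (√(a - s))⁻¹ * ‖x‖ := by
        gcongr
        exact hT.jn x
      have h3 : M * (‖x‖ + (√(t - s))⁻¹ * ‖j x‖) ≤ M * (‖x‖ + (√(a - s))⁻¹ * ‖x‖) := by gcongr
      have h4 : 0 ≤ MF * (√(a - s))⁻¹ * ‖x‖ := by positivity
      nlinarith)
    (by
      intro t ht
      refine (hC.bF t (hsub ht)).trans ?_
      have h1 := hinv t ht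
      have h2 : MF * (√(t - s))⁻¹ ≤ MF * (√(a - s))⁻¹ := by gcongr
      have h3 : 0 ≤ M * (1 + (√(a - s))⁻¹) := by positivity
      linarith) hx
  set v : ℝ → X := fun t => if t ≤ a then u t else u' t with hv
  have hvu : ∀ t, t ≤ a → v t = u t := fun t ht => if_pos ht
  have hvu' : ∀ t, a < t → v t = u' t := fun t ht => if_neg (not_le.2 ht)
  have hva : v a = u a := hvu a le_rfl
  have hcont : ContinuousOn v (Ioc s b) := by
    intro t ht
    rcases lt_trichotomy t a with hta | hta | hta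
    · have h1 : ContinuousWithinAt u (Ioc s a) t := h.cont t ⟨ht.1, hta.le⟩
      have h2 : ContinuousAt u t := h1.continuousAt (Ioc_mem_nhds ht.1 hta)
      have h3 : ContinuousAt v t := by
        refine h2.congr ?_
        filter_upwards [Iio_mem_nhds hta] with r hr
        exact (hvu r (le_of_lt hr)).symm
      exact h3.continuousWithinAt
    · subst hta
      have h1 : ContinuousWithinAt v (Ioc s t) t := by
        refine (h.cont t ⟨ht.1, le_rfl⟩).congr ?_ (hvu t le_rfl)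
        intro r hr
        exact hvu r hr.2
      have h2 : ContinuousWithinAt v (Ioc t b) t := by
        show Tendsto v (𝓝[Ioc t b] t) (𝓝 (v t))
        rw [hva]
        have h3 : Tendsto u' (𝓝[Ioc t b] t) (𝓝 (u t)) :=
          hlim.mono_left (nhdsWithin_mono _ Ioc_subset_Ioi_self)
        refine h3.congr' ?_
        filter_upwards [self_mem_nhdsWithin] with r hr
        exact (hvu' r hr.1).symm
      have h3 := h1.union h2
      rwa [Ioc_union_Ioc_eq_Ioc hsa.le hab.le] at h3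
    · have h1 : ContinuousWithinAt u' (Ioc a b) t := h'.cont t ⟨hta, ht.2⟩
      have h2 : ContinuousWithinAt v (Ioc a b) t := by
        refine h1.congr ?_ (hvu' t hta)
        intro r hr
        exact hvu' r hr.1
      refine h2.mono_of_mem_nhdsWithin ?_
      rw [mem_nhdsWithin]
      exact ⟨Ioi a, isOpen_Ioi, hta, fun r hr => ⟨hr.1, hr.2.2⟩⟩
  obtain ⟨R, hR⟩ := h.bd
  have hbd : ∀ t ∈ Ioc s b, √(t - s) * ‖v t‖ ≤ |R| + |R'| ∧ ‖j (v t)‖ ≤ |R| + |R'| := by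
    intro t ht
    by_cases hta : t ≤ a
    · rw [hvu t hta]
      have h1 := hR t ⟨ht.1, hta⟩
      have h2 := le_abs_self R
      have h3 := abs_nonneg R'
      exact ⟨by linarith [h1.1], by linarith [h1.2]⟩
    · rw [not_le] at hta
      rw [hvu' t hta]
      have h1 := hR' t ⟨hta, ht.2⟩
      have h2 := le_abs_self R'
      have h3 := abs_nonneg R
      have h4 : √(t - s) ≤ 1 := Real.sqrt_le_one.2 (by linarith [ht.2])
      have h5 : √(t - s) * ‖u' t‖ ≤ 1 * ‖u' t‖ := by gcongr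
      have h6 := hT.jn (u' t)
      exact ⟨by linarith, by linarith⟩
  have hRR : 0 ≤ |R| + |R'| := by positivity
  set R2 := |R| + |R'| with hR2
  -- the source
  have hNc := continuousOn_rhs (B := B) hM hT.jn hC hcont
  have hNb : ∀ t ∈ Ioc s b, ‖Λ t (v t) + B (v t) (v t) + F t‖ ≤
      (2 * M * R2 + 2 * C * R2 * R2 + MF) * (√(t - s))⁻¹ := by
    intro t ht
    have hpt : 0 < t - s := by linarith [ht.1]
    have hsq : 0 < √(t - s) := Real.sqrt_pos.2 hpt
    have h1 := hbd t ht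
    have hu : ‖v t‖ ≤ R2 * (√(t - s))⁻¹ := by
      rw [← div_eq_mul_inv, le_div_iff₀ hsq, mul_comm]
      exact h1.1
    calc ‖Λ t (v t) + B (v t) (v t) + F t‖ ≤ ‖Λ t (v t)‖ + ‖B (v t) (v t)‖ + ‖F t‖ :=
          norm_add₃_le
      _ ≤ M * (‖v t‖ + (√(t - s))⁻¹ * ‖j (v t)‖) + 2 * C * R2 * ‖v t‖ + MF * (√(t - s))⁻¹ := by
          gcongr
          · exact hC.bΛ t ht _
          · exact norm_B_self_le hB hC0 h1.2
          · exact hC.bF t ht
      _ ≤ M * (R2 * (√(t - s))⁻¹ + (√(t - s))⁻¹ * R2) + 2 * C * R2 * (R2 * (√(t - s))⁻¹) +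
          MF * (√(t - s))⁻¹ := by
          gcongr
          exact h1.2
      _ = _ := by ring
  obtain ⟨hi, -, -, -, hsplit⟩ := duhamel hT hsb (by positivity) hNc hNb
  refine ⟨hcont, ⟨R2, hbd⟩, fun t ht => ?_⟩
  -- equation on `(s, a]`
  have heqa : ∀ t ∈ Ioc s a, u t = T (t - s) u0 +
      ∫ r in s..t, T (t - r) (Λ r (v r) + B (v r) (v r) + F r) := by
    intro t ht
    rw [h.eq t ht]
    congr 1
    refine intervalIntegral.integral_congr_ae ?_
    refine Eventually.of_forall fun r hr => ?_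
    rw [uIoc_of_le ht.1.le] at hr
    rw [hvu r (hr.2.trans ht.2)]
  by_cases hta : t ≤ a
  · rw [hvu t hta]
    exact heqa t ⟨ht.1, hta⟩
  · rw [not_le] at hta
    rw [hvu' t hta, h'.eq t ⟨hta, ht.2⟩, hsplit a ⟨hsa, hab⟩ t ⟨hta, ht.2⟩]
    have h1 := heqa a ⟨hsa, le_rfl⟩
    have h2 : (∫ r in a..t, T (t - r) (Λ r (u' r) + B (u' r) (u' r) + F r)) =
        ∫ r in a..t, T (t - r) (Λ r (v r) + B (v r) (v r) + F r) := by
      refine intervalIntegral.integral_congr_ae ?_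
      refine Eventually.of_forall fun r hr => ?_
      rw [uIoc_of_le hta.le] at hr
      rw [hvu' r hr.1]
    rw [h2, ← add_assoc]
    congr 1
    rw [h1, map_add, map_add, ← hT.sg (t - a) (a - s) (by linarith) (by linarith)]
    congr 2
    congr 1
    ring

/-- AB-9. Estimate in `X` for data in `X`. -/
theorem LEX (hT : SG j T C) (hB : BilB j B C) : ∃ c > 0, ∃ K, 1 ≤ K ∧
    ∀ (s τ M MF : ℝ) (x0 : X) (Λ : ℝ → (X →L[ℝ] Y)) (F : ℝ → Y), 0 < τ → τ ≤ 1 → 0 ≤ M → 0 ≤ MF →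
      (∀ x, ContinuousOn (fun t => Λ t x) (Ioc s (s + τ))) → ContinuousOn F (Ioc s (s + τ)) →
      (∀ t ∈ Ioc s (s + τ), ∀ x, ‖Λ t x‖ ≤ M * ‖x‖) → (∀ t ∈ Ioc s (s + τ), ‖F t‖ ≤ MF) →
      (∀ t ∈ Ioc (0:ℝ) 1, ‖T t (j x0)‖ ≤ C * ‖x0‖) →
      √τ * (M + ‖x0‖ + √τ * MF) ≤ c →
      ∃ u, Mild j T B Λ F s (s + τ) (j x0) u ∧ ∀ t ∈ Ioc s (s + τ),
        ‖u t‖ ≤ K * (‖x0‖ + √τ * MF) := by
  obtain ⟨c, hc, K, hK, hLE⟩ := LE hT hB
  have hC1 := hT.one_le
  have hC0 : 0 ≤ C := by linarith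
  refine ⟨min c (1 / (8 * C ^ 2 * K)), lt_min hc (by positivity), 4 * C, by linarith, ?_⟩
  intro s τ M MF x0 Λ F hτ hτ1 hM hMF cΛ cF bΛ bF hx hsmall
  have hsmall1 := hsmall.trans (min_le_left _ _)
  have hsmall2 := hsmall.trans (min_le_right _ _)
  have hj : ‖j x0‖ ≤ ‖x0‖ := hT.jn x0
  have hsqτ : 0 ≤ √τ := Real.sqrt_nonneg _
  have hcoef : Coef j s (s + τ) M MF Λ F := by
    refine ⟨cΛ, cF, fun t ht x => (bΛ t ht x).trans ?_, fun t ht => (bF t ht).trans ?_⟩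
    · gcongr
      have : 0 ≤ (√(t - s))⁻¹ * ‖j x‖ := by positivity
      linarith
    · have := one_le_inv_sqrt (x := t - s) (by linarith [ht.1]) (by linarith [ht.2])
      nlinarith
  obtain ⟨u, hu, hub⟩ := hLE s τ M MF (j x0) Λ F hτ hτ1 hM hMF hcoef
    (le_trans (by gcongr) hsmall1)
  refine ⟨u, hu, ?_⟩
  set A := ‖x0‖ + √τ * MF with hA
  have hA0 : 0 ≤ A := by positivity
  have hub' : ∀ t ∈ Ioc s (s + τ), ‖j (u t)‖ ≤ K * A := by
    intro t ht
    refine (hub t ht).2.trans ?_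
    rw [hA]
    gcongr
  obtain ⟨hcont, R2, hR20, hR2⟩ := hu.bdd (M := M + MF) hT hB (by linarith) (by positivity) cΛ cF
    (fun t ht x => (bΛ t ht x).trans (by
      have : 0 ≤ MF * ‖x‖ := by positivity
      linarith)) (fun t ht => (bF t ht).trans (by linarith)) hx
  -- improvement of a bound
  have himp : ∀ m, 0 ≤ m → (∀ t ∈ Ioc s (s + τ), ‖u t‖ ≤ m) →
      ∀ t ∈ Ioc s (s + τ), ‖u t‖ ≤ 2 * C * A + m / 2 := by
    intro m hm hb t ht
    have hN : ∀ t ∈ Ioc s (s + τ), ‖Λ t (u t) + B (u t) (u t) + F t‖ ≤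
        (M + 2 * C * (K * A)) * m + MF := by
      intro t ht
      calc ‖Λ t (u t) + B (u t) (u t) + F t‖ ≤ ‖Λ t (u t)‖ + ‖B (u t) (u t)‖ + ‖F t‖ :=
            norm_add₃_le
        _ ≤ M * ‖u t‖ + 2 * C * (K * A) * ‖u t‖ + MF := by
            gcongr
            · exact bΛ t ht _
            · exact norm_B_self_le hB hC0 (hub' t ht)
            · exact bF t ht
        _ ≤ M * m + 2 * C * (K * A) * m + MF := by
            gcongr
            · exact hb t ht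
            · exact hb t ht
        _ = _ := by ring
    have hd := duhamel_bdd hT (by linarith) (R := (M + 2 * C * (K * A)) * m + MF)
      (by positivity) hcont hN t ht
    have hts : √(t - s) ≤ √τ := Real.sqrt_le_sqrt (by linarith [ht.2])
    have h1 : ‖T (t - s) (j x0)‖ ≤ C * ‖x0‖ :=
      hx (t - s) ⟨by linarith [ht.1], by linarith [ht.2]⟩
    have h2 : ‖u t‖ ≤ C * ‖x0‖ + 2 * C * ((M + 2 * C * (K * A)) * m + MF) * √τ := by
      rw [hu.eq t ht]
      refine (norm_add_le _ _).trans ?_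
      refine add_le_add h1 (hd.trans ?_)
      gcongr
    -- smallness
    have hCK : 1 ≤ C * K := by nlinarith
    have h3 : √τ * (M + 2 * C * (K * A)) ≤ 2 * C * K * (√τ * (M + A)) := by
      have : M + 2 * C * (K * A) ≤ 2 * C * K * (M + A) := by nlinarith
      calc √τ * (M + 2 * C * (K * A)) ≤ √τ * (2 * C * K * (M + A)) := by gcongr
        _ = _ := by ring
    have h4 : √τ * (M + A) ≤ 1 / (8 * C ^ 2 * K) := by
      rw [hA, ← add_assoc]; exact hsmall2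
    have h5 : 2 * C * (2 * C * K * (1 / (8 * C ^ 2 * K))) = 1 / 2 := by
      have hCne : C ≠ 0 := by positivity
      have hKne : K ≠ 0 := by positivity
      field_simp
      norm_num
    have h6 : 2 * C * (√τ * (M + 2 * C * (K * A))) ≤ 1 / 2 := by
      rw [← h5]
      refine mul_le_mul_of_nonneg_left (h3.trans ?_) (by positivity)
      exact mul_le_mul_of_nonneg_left h4 (by positivity)
    have h7 : 2 * C * ((M + 2 * C * (K * A)) * m + MF) * √τ =
        2 * C * (√τ * (M + 2 * C * (K * A))) * m + 2 * C * (√τ * MF) := by ring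
    rw [h7] at h2
    have h8 : 2 * C * (√τ * (M + 2 * C * (K * A))) * m ≤ 1 / 2 * m := by gcongr
    have h9 : C * ‖x0‖ + 2 * C * (√τ * MF) ≤ 2 * C * A := by
      rw [hA]
      have : 0 ≤ C * ‖x0‖ := by positivity
      nlinarith
    linarith
  -- conclude with the supremum
  have hne : ((fun t => ‖u t‖) '' Ioc s (s + τ)).Nonempty :=
    ⟨_, s + τ, ⟨by linarith, le_rfl⟩, rfl⟩
  have hbdd : BddAbove ((fun t => ‖u t‖) '' Ioc s (s + τ)) := by
    refine ⟨R2, ?_⟩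
    rintro _ ⟨t, ht, rfl⟩
    exact hR2 t ht
  set m := sSup ((fun t => ‖u t‖) '' Ioc s (s + τ)) with hm
  have hmb : ∀ t ∈ Ioc s (s + τ), ‖u t‖ ≤ m := fun t ht => le_csSup hbdd ⟨t, ht, rfl⟩
  have hm0 : 0 ≤ m := (norm_nonneg _).trans (hmb (s + τ) ⟨by linarith, le_rfl⟩)
  have hmm : m ≤ 2 * C * A + m / 2 := by
    refine csSup_le hne ?_
    rintro _ ⟨t, ht, rfl⟩
    exact himp m hm0 hmb t ht
  intro t ht
  have := hmb t ht
  linarith

end Abs

end Pool.Agent.Lib.MP_79abb3_an.P25
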