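import Mathlib

/-!
Abstract semilinear parabolic equations: definitions.
-/

set_option autoImplicit false
set_option linter.unusedSectionVars false

open MeasureTheory Set Filter Topology Function

namespace Pool.Agent.Lib.MP_79abb3_an.P25

section Abs
variable {X Y : Type} [NormedAddCommGroup X] [NormedSpace ℝ X] [CompleteSpace X]
  [NormedAddCommGroup Y] [NormedSpace ℝ Y] [CompleteSpace Y]

/-- A parabolic semigroup: `T t : Y → X` for `t > 0`, where `j : X → Y` is the natural map. -/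
structure SG (j : X →L[ℝ] Y) (T : ℝ → (Y →L[ℝ] X)) (C : ℝ) : Prop where
  one_le : 1 ≤ C
  jn : ∀ x, ‖j x‖ ≤ ‖x‖
  b1 : ∀ t ∈ Ioc (0:ℝ) 1, ∀ y, ‖T t y‖ ≤ C * (√t)⁻¹ * ‖y‖
  b0 : ∀ t ∈ Ioc (0:ℝ) 1, ∀ y, ‖j (T t y)‖ ≤ C * ‖y‖
  sg : ∀ s t, 0 < s → 0 < t → ∀ y, T (s + t) y = T s (j (T t y))
  cont : ∀ y, ContinuousOn (fun t => T t y) (Ioi 0)

/-- Bound on bilinear terms. -/
def BilB (j : X →L[ℝ] Y) (B : X →L[ℝ] X →L[ℝ] Y) (C : ℝ) : Prop :=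
  ∀ x y, ‖B x y‖ ≤ C * (‖j x‖ * ‖y‖ + ‖x‖ * ‖j y‖)

/-- Lower order coefficients on `(s, b]`, possibly singular at `s`: a linear part `Λ t` and a
forcing `F t`. -/
structure Coef (j : X →L[ℝ] Y) (s b M MF : ℝ) (Λ : ℝ → (X →L[ℝ] Y)) (F : ℝ → Y) : Prop where
  cΛ : ∀ x, ContinuousOn (fun t => Λ t x) (Ioc s b)
  cF : ContinuousOn F (Ioc s b)
  bΛ : ∀ t ∈ Ioc s b, ∀ x, ‖Λ t x‖ ≤ M * (‖x‖ + (√(t - s))⁻¹ * ‖j x‖)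
  bF : ∀ t ∈ Ioc s b, ‖F t‖ ≤ MF * (√(t - s))⁻¹

/-- Mild solutions on `(s, b]` of `u' = A u + Λ t u + B(u,u) + F t`, `u(s) = u0`. -/
structure Mild (j : X →L[ℝ] Y) (T : ℝ → (Y →L[ℝ] X)) (B : X →L[ℝ] X →L[ℝ] Y)
    (Λ : ℝ → (X →L[ℝ] Y)) (F : ℝ → Y) (s b : ℝ) (u0 : Y) (u : ℝ → X) : Prop where
  cont : ContinuousOn u (Ioc s b)
  bd : ∃ R, ∀ t ∈ Ioc s b, √(t - s) * ‖u t‖ ≤ R ∧ ‖j (u t)‖ ≤ R
  eq : ∀ t ∈ Ioc s b, u t = T (t - s) u0 +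
    ∫ r in s..t, T (t - r) (Λ r (u r) + B (u r) (u r) + F r)

end Abs

end Pool.Agent.Lib.MP_79abb3_an.P25
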