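import Pool.Agent.Lib.MP_79abb3_an.P25.AbsA

/-!
Local existence for abstract semilinear parabolic equations.
-/

set_option autoImplicit false
set_option linter.unusedSectionVars false

open MeasureTheory Set Filter Topology Function
open scoped BoundedContinuousFunction

namespace Pool.Agent.Lib.MP_79abb3_an.P25

section Abs
variable {X Y : Type} [NormedAddCommGroup X] [NormedSpace ℝ X] [CompleteSpace X]
  [NormedAddCommGroup Y] [NormedSpace ℝ Y] [CompleteSpace Y]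
  {j : X →L[ℝ] Y} {T : ℝ → (Y →L[ℝ] X)} {B : X →L[ℝ] X →L[ℝ] Y} {C : ℝ}

/-- The source given by a bounded continuous function. -/
noncomputable def srcN (s b : ℝ) (N : ↥(Ioc s b) →ᵇ Y) (r : ℝ) : Y :=
  open Classical in if h : r ∈ Ioc s b then (√(r - s))⁻¹ • N ⟨r, h⟩ else 0

theorem srcN_apply {s b : ℝ} (N : ↥(Ioc s b) →ᵇ Y) {r : ℝ} (h : r ∈ Ioc s b) :
    srcN s b N r = (√(r - s))⁻¹ • N ⟨r, h⟩ := by
  rw [srcN, dif_pos h]

theorem srcN_cont {s b : ℝ} (N : ↥(Ioc s b) →ᵇ Y) : ContinuousOn (srcN s b N) (Ioc s b) := by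
  rw [continuousOn_iff_continuous_domRestrict]
  have h1 : (Ioc s b).domRestrict (srcN s b N) = fun r => (√(r.1 - s))⁻¹ • N r := by
    funext r
    exact srcN_apply N r.2
  rw [h1]
  refine Continuous.smul ?_ N.continuous
  refine Continuous.inv₀ (by fun_prop) fun r => ?_
  have := r.2.1
  exact (Real.sqrt_pos.2 (by linarith)).ne'

theorem srcN_bound {s b : ℝ} (N : ↥(Ioc s b) →ᵇ Y) {R : ℝ} (hN : ‖N‖ ≤ R) :
    ∀ t ∈ Ioc s b, ‖srcN s b N t‖ ≤ R * (√(t - s))⁻¹ := by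
  intro t ht
  rw [srcN_apply N ht, norm_smul, norm_inv, Real.norm_of_nonneg (Real.sqrt_nonneg _), mul_comm]
  have := N.norm_coe_le_norm ⟨t, ht⟩
  gcongr
  exact this.trans hN

theorem srcN_sub {s b : ℝ} (N N' : ↥(Ioc s b) →ᵇ Y) (r : ℝ) :
    srcN s b (N - N') r = srcN s b N r - srcN s b N' r := by
  by_cases h : r ∈ Ioc s b
  · rw [srcN_apply _ h, srcN_apply _ h, srcN_apply _ h, ← smul_sub]; rfl
  · simp [srcN, h]

/-- The field given by a source. -/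
noncomputable def fldN (T : ℝ → (Y →L[ℝ] X)) (s b : ℝ) (u0 : Y) (N : ↥(Ioc s b) →ᵇ Y) (t : ℝ) : X :=
  T (t - s) u0 + ∫ r in s..t, T (t - r) (srcN s b N r)

theorem fldN_cont (hT : SG j T C) {s b : ℝ} (hsb : b ≤ s + 1) (u0 : Y) (N : ↥(Ioc s b) →ᵇ Y) :
    ContinuousOn (fldN T s b u0 N) (Ioc s b) := by
  have h1 := (duhamel hT hsb (norm_nonneg N) (srcN_cont N) (srcN_bound N le_rfl)).2.2.2.1
  refine ContinuousOn.add ?_ h1
  exact (hT.cont u0).comp (f := fun t => t - s) (by fun_prop) fun t ht => sub_pos.2 ht.1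

/-- Strong continuity and local bounds give continuity along a continuous curve. -/
theorem Coef.cont_comp {s b M MF : ℝ} {Λ : ℝ → (X →L[ℝ] Y)} {F : ℝ → Y} (hM : 0 ≤ M)
    (hj : ∀ x, ‖j x‖ ≤ ‖x‖) (hC : Coef j s b M MF Λ F) {u : ℝ → X} (hu : ContinuousOn u (Ioc s b)) :
    ContinuousOn (fun t => Λ t (u t)) (Ioc s b) := by
  intro t0 ht0
  have hb : ∀ t ∈ Ioc s b, ∀ x, ‖Λ t x‖ ≤ M * (1 + (√(t - s))⁻¹) * ‖x‖ := by
    intro t ht x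
    refine (hC.bΛ t ht x).trans ?_
    have h1 := hj x
    have h2 : 0 ≤ (√(t - s))⁻¹ := by positivity
    calc M * (‖x‖ + (√(t - s))⁻¹ * ‖j x‖) ≤ M * (‖x‖ + (√(t - s))⁻¹ * ‖x‖) := by gcongr
      _ = M * (1 + (√(t - s))⁻¹) * ‖x‖ := by ring
  have h1 : Tendsto (fun t => Λ t (u t0)) (𝓝[Ioc s b] t0) (𝓝 (Λ t0 (u t0))) := hC.cΛ (u t0) t0 ht0
  have h2 : Tendsto (fun t => Λ t (u t - u t0)) (𝓝[Ioc s b] t0) (𝓝 0) := by
    rw [tendsto_zero_iff_norm_tendsto_zero]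
    have h3 : Tendsto (fun t => M * (1 + (√(t - s))⁻¹) * ‖u t - u t0‖) (𝓝[Ioc s b] t0) (𝓝 0) := by
      have h4 : Tendsto (fun t => ‖u t - u t0‖) (𝓝[Ioc s b] t0) (𝓝 0) :=
        tendsto_iff_norm_sub_tendsto_zero.1 (hu t0 ht0)
      have h5 : Tendsto (fun t => M * (1 + (√(t - s))⁻¹)) (𝓝[Ioc s b] t0)
          (𝓝 (M * (1 + (√(t0 - s))⁻¹))) := by
        have h6 : √(t0 - s) ≠ 0 := (Real.sqrt_pos.2 (sub_pos.2 ht0.1)).ne'
        have h7 : ContinuousAt (fun t => M * (1 + (√(t - s))⁻¹)) t0 := by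
          have h8 : ContinuousAt (fun t => √(t - s)) t0 := by fun_prop
          exact continuousAt_const.mul (continuousAt_const.add (h8.inv₀ h6))
        exact h7.tendsto.mono_left nhdsWithin_le_nhds
      simpa using h5.mul h4
    refine squeeze_zero' (Eventually.of_forall fun t => norm_nonneg _) ?_ h3
    filter_upwards [self_mem_nhdsWithin] with t ht
    exact hb t ht _
  have h9 := h2.add h1
  rw [zero_add] at h9
  refine h9.congr fun t => ?_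
  rw [map_sub]; abel

theorem fldN_bound (hT : SG j T C) {s b R : ℝ} (hsb : b ≤ s + 1) (u0 : Y) (N : ↥(Ioc s b) →ᵇ Y)
    (hR : ‖N‖ ≤ R) : ∀ t ∈ Ioc s b, ‖fldN T s b u0 N t‖ ≤ C * (√(t - s))⁻¹ * ‖u0‖ + 4 * C * R ∧
      ‖j (fldN T s b u0 N t)‖ ≤ C * ‖u0‖ + 2 * C * R * √(t - s) := by
  intro t ht
  have h1 := duhamel hT hsb ((norm_nonneg N).trans hR) (srcN_cont N) (srcN_bound N hR)
  have ht1 : t - s ∈ Ioc (0:ℝ) 1 := ⟨sub_pos.2 ht.1, by linarith [ht.2]⟩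
  constructor
  · exact (norm_add_le _ _).trans (add_le_add (hT.b1 _ ht1 u0) (h1.2.1 t ht))
  · rw [fldN, map_add]
    exact (norm_add_le _ _).trans (add_le_add (hT.b0 _ ht1 u0) (h1.2.2.1 t ht))

theorem fldN_sub (hT : SG j T C) {s b : ℝ} (hsb : b ≤ s + 1) (u0 : Y) (N N' : ↥(Ioc s b) →ᵇ Y) :
    ∀ t ∈ Ioc s b, fldN T s b u0 N t - fldN T s b u0 N' t =
      ∫ r in s..t, T (t - r) (srcN s b (N - N') r) := by
  intro t ht
  have h1 := (duhamel hT hsb (norm_nonneg N) (srcN_cont N) (srcN_bound N le_rfl)).1 t ht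
  have h2 := (duhamel hT hsb (norm_nonneg N') (srcN_cont N') (srcN_bound N' le_rfl)).1 t ht
  simp_rw [fldN, srcN_sub, map_sub]
  rw [intervalIntegral.integral_sub h1 h2]
  abel

/-- The numerical inequalities of the local existence theorem. -/
theorem LE_num {C q M a : ℝ} (hC1 : 1 ≤ C) (hq : 0 ≤ q) (hM : 0 ≤ M) (ha : 0 ≤ a)
    (hsm : q * (M + a) * (216 * C ^ 3) ≤ 1) :
    18 * C * (q * M) + 162 * C ^ 3 * (q * a) ≤ 1 ∧
      6 * C * (q * M) + 108 * C ^ 3 * (q * a) ≤ 1 / 2 := by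
  have e8 : C ≤ C ^ 3 := le_self_pow₀ hC1 (by norm_num)
  have f1 : 0 ≤ q * M := mul_nonneg hq hM
  have f2 : 0 ≤ q * a := mul_nonneg hq ha
  have f0 : 0 ≤ C ^ 3 := pow_nonneg (zero_le_one.trans hC1) 3
  have f3 : C * (q * M) ≤ C ^ 3 * (q * M) := mul_le_mul_of_nonneg_right e8 f1
  have f4 : 0 ≤ C ^ 3 * (q * M) := mul_nonneg f0 f1
  have f5 : 0 ≤ C ^ 3 * (q * a) := mul_nonneg f0 f2
  have f6 : 216 * (C ^ 3 * (q * M)) + 216 * (C ^ 3 * (q * a)) ≤ 1 := by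
    refine le_trans (le_of_eq ?_) hsm
    ring
  rw [mul_assoc 18, mul_assoc 162, mul_assoc 6, mul_assoc 108]
  constructor <;> linarith only [f3, f4, f5, f6]

/-- Pointwise bound of the right hand side. -/
theorem LE_rhs {Λ : X →L[ℝ] Y} {F : Y} {p q M MF U a : ℝ} (hB : BilB j B C) (hC1 : 1 ≤ C)
    (hp : 0 < p) (hq : 0 < q) (hM : 0 ≤ M) (ha : 0 ≤ a) (hU : U = 9 * C * a)
    (hsm : q * (M + a) * (216 * C ^ 3) ≤ 1) (hMFa : q * MF ≤ a)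
    (bΛ : ∀ x, ‖Λ x‖ ≤ M * (‖x‖ + p⁻¹ * ‖j x‖)) (bF : ‖F‖ ≤ MF * p⁻¹) (w : X)
    (h1 : p * ‖w‖ ≤ U) (h2 : ‖j w‖ ≤ U) : ‖p • (Λ w + B w w + F)‖ ≤ 2 * a / q := by
  have hC0 : 0 ≤ C := zero_le_one.trans hC1
  have hU0 : 0 ≤ U := (mul_nonneg hp.le (norm_nonneg w)).trans h1
  have hpp : p * p⁻¹ = 1 := mul_inv_cancel₀ hp.ne'
  have e1 : p * ‖Λ w‖ ≤ 2 * M * U := by
    calc p * ‖Λ w‖ ≤ p * (M * (‖w‖ + p⁻¹ * ‖j w‖)) := mul_le_mul_of_nonneg_left (bΛ w) hp.le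
      _ = M * (p * ‖w‖ + (p * p⁻¹) * ‖j w‖) := by ring
      _ = M * (p * ‖w‖ + ‖j w‖) := by rw [hpp, one_mul]
      _ ≤ M * (U + U) := mul_le_mul_of_nonneg_left (add_le_add h1 h2) hM
      _ = 2 * M * U := by ring
  have e2 : p * ‖B w w‖ ≤ 2 * C * U ^ 2 := by
    calc p * ‖B w w‖ ≤ p * (C * (‖j w‖ * ‖w‖ + ‖w‖ * ‖j w‖)) :=
          mul_le_mul_of_nonneg_left (hB w w) hp.le
      _ = 2 * C * ((p * ‖w‖) * ‖j w‖) := by ring
      _ ≤ 2 * C * (U * U) := mul_le_mul_of_nonneg_left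
          (mul_le_mul h1 h2 (norm_nonneg _) hU0) (mul_nonneg two_pos.le hC0)
      _ = 2 * C * U ^ 2 := by ring
  have e3 : p * ‖F‖ ≤ MF := by
    calc p * ‖F‖ ≤ p * (MF * p⁻¹) := mul_le_mul_of_nonneg_left bF hp.le
      _ = MF * (p * p⁻¹) := by ring
      _ = MF := by rw [hpp, mul_one]
  have e4 : ‖p • (Λ w + B w w + F)‖ ≤ 2 * M * U + 2 * C * U ^ 2 + MF := by
    rw [norm_smul, Real.norm_of_nonneg hp.le]
    calc p * ‖Λ w + B w w + F‖ ≤ p * (‖Λ w‖ + ‖B w w‖ + ‖F‖) :=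
          mul_le_mul_of_nonneg_left
            ((norm_add_le _ _).trans (add_le_add (norm_add_le _ _) le_rfl)) hp.le
      _ = p * ‖Λ w‖ + p * ‖B w w‖ + p * ‖F‖ := by ring
      _ ≤ _ := add_le_add (add_le_add e1 e2) e3
  refine e4.trans ?_
  rw [le_div_iff₀ hq]
  have e6 : (2 * M * U + 2 * C * U ^ 2) * q ≤ a := by
    have e9 : (2 * M * U + 2 * C * U ^ 2) * q =
        (18 * C * (q * M) + 162 * C ^ 3 * (q * a)) * a := by
      rw [hU]; ring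
    rw [e9]
    exact (mul_le_mul_of_nonneg_right (LE_num hC1 hq.le hM ha hsm).1 ha).trans_eq (one_mul a)
  calc (2 * M * U + 2 * C * U ^ 2 + MF) * q = (2 * M * U + 2 * C * U ^ 2) * q + q * MF := by ring
    _ ≤ a + a := add_le_add e6 hMFa
    _ = 2 * a := by ring

/-- Pointwise Lipschitz estimate of the right hand side. -/
theorem LE_lip {Λ : X →L[ℝ] Y} {F : Y} {p q M U a d : ℝ} (hB : BilB j B C) (hC1 : 1 ≤ C)
    (hp : 0 < p) (hpq : p ≤ q) (hM : 0 ≤ M) (ha : 0 ≤ a) (hd : 0 ≤ d) (hU : U = 9 * C * a)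
    (hsm : q * (M + a) * (216 * C ^ 3) ≤ 1)
    (bΛ : ∀ x, ‖Λ x‖ ≤ M * (‖x‖ + p⁻¹ * ‖j x‖)) (v w : X)
    (x1 : p * ‖v‖ ≤ U) (x2 : ‖j v‖ ≤ U) (y1 : p * ‖w‖ ≤ U) (y2 : ‖j w‖ ≤ U)
    (hD1 : ‖v - w‖ ≤ 4 * C * d) (hD2 : ‖j (v - w)‖ ≤ 2 * C * d * p) :
    dist (p • (Λ v + B v v + F)) (p • (Λ w + B w w + F)) ≤ 1 / 2 * d := by
  have hC0 : 0 ≤ C := zero_le_one.trans hC1
  have hU0 : 0 ≤ U := (norm_nonneg _).trans x2
  have hpp : p⁻¹ * p = 1 := inv_mul_cancel₀ hp.ne'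
  have hdiff : (Λ v + B v v + F) - (Λ w + B w w + F) = Λ (v - w) + B v (v - w) + B (v - w) w := by
    have g1 : Λ (v - w) = Λ v - Λ w := map_sub _ _ _
    have g2 : B v (v - w) = B v v - B v w := map_sub _ _ _
    have g3 : B (v - w) w = B v w - B w w := by rw [map_sub]; rfl
    rw [g1, g2, g3]
    abel
  rw [dist_eq_norm, ← smul_sub, norm_smul, Real.norm_of_nonneg hp.le, hdiff]
  have e1 : ‖Λ (v - w)‖ ≤ 6 * C * M * d := by
    calc ‖Λ (v - w)‖ ≤ M * (‖v - w‖ + p⁻¹ * ‖j (v - w)‖) := bΛ _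
      _ ≤ M * (4 * C * d + p⁻¹ * (2 * C * d * p)) := mul_le_mul_of_nonneg_left
          (add_le_add hD1 (mul_le_mul_of_nonneg_left hD2 (inv_nonneg.2 hp.le))) hM
      _ = M * (4 * C * d + 2 * C * d * (p⁻¹ * p)) := by ring
      _ = 6 * C * M * d := by rw [hpp]; ring
  have e2 : ∀ z : X, p * ‖z‖ ≤ U → ‖j z‖ ≤ U →
      C * (‖j z‖ * ‖v - w‖ + ‖z‖ * ‖j (v - w)‖) ≤ 6 * C ^ 2 * U * d := by
    intro z hz1 hz2
    calc C * (‖j z‖ * ‖v - w‖ + ‖z‖ * ‖j (v - w)‖) ≤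
        C * (U * (4 * C * d) + ‖z‖ * (2 * C * d * p)) := mul_le_mul_of_nonneg_left
          (add_le_add (mul_le_mul hz2 hD1 (norm_nonneg _) hU0)
            (mul_le_mul_of_nonneg_left hD2 (norm_nonneg _))) hC0
      _ = C * (U * (4 * C * d) + 2 * C * d * (p * ‖z‖)) := by ring
      _ ≤ C * (U * (4 * C * d) + 2 * C * d * U) := mul_le_mul_of_nonneg_left
          (add_le_add le_rfl (mul_le_mul_of_nonneg_left hz1
            (mul_nonneg (mul_nonneg two_pos.le hC0) hd))) hC0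
      _ = 6 * C ^ 2 * U * d := by ring
  have e3 : ‖B v (v - w)‖ ≤ 6 * C ^ 2 * U * d := (hB _ _).trans (e2 v x1 x2)
  have e4 : ‖B (v - w) w‖ ≤ 6 * C ^ 2 * U * d := by
    refine (hB _ _).trans (le_trans (le_of_eq ?_) (e2 w y1 y2))
    ring
  have e5 : ‖Λ (v - w) + B v (v - w) + B (v - w) w‖ ≤ (6 * C * M + 108 * C ^ 3 * a) * d := by
    calc ‖Λ (v - w) + B v (v - w) + B (v - w) w‖ ≤
        ‖Λ (v - w)‖ + ‖B v (v - w)‖ + ‖B (v - w) w‖ :=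
          (norm_add_le _ _).trans (add_le_add (norm_add_le _ _) le_rfl)
      _ ≤ 6 * C * M * d + 6 * C ^ 2 * U * d + 6 * C ^ 2 * U * d :=
          add_le_add (add_le_add e1 e3) e4
      _ = (6 * C * M + 108 * C ^ 3 * a) * d := by rw [hU]; ring
  have e6 : 0 ≤ (6 * C * M + 108 * C ^ 3 * a) * d := (norm_nonneg _).trans e5
  calc p * ‖Λ (v - w) + B v (v - w) + B (v - w) w‖ ≤
      q * ((6 * C * M + 108 * C ^ 3 * a) * d) :=
        mul_le_mul hpq e5 (norm_nonneg _) (hp.le.trans hpq)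
    _ = (6 * C * (q * M) + 108 * C ^ 3 * (q * a)) * d := by ring
    _ ≤ 1 / 2 * d := mul_le_mul_of_nonneg_right
        (LE_num hC1 (hp.le.trans hpq) hM ha hsm).2 hd

/-- Bound of the field. -/
theorem LE_fld (hT : SG j T C) (hC1 : 1 ≤ C) {s b q a ρ U : ℝ} (hsb : b ≤ s + 1) (u0 : Y)
    (hsq : ∀ t ∈ Ioc s b, 0 < √(t - s) ∧ √(t - s) ≤ q) (ha : 0 ≤ a) (hu0a : ‖u0‖ ≤ a)
    (hρ0 : 0 ≤ ρ) (hρq : ρ * q = 2 * a) (hU : U = 9 * C * a) (N : ↥(Ioc s b) →ᵇ Y)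
    (hN : ‖N‖ ≤ ρ) : ∀ t ∈ Ioc s b,
      √(t - s) * ‖fldN T s b u0 N t‖ ≤ U ∧ ‖j (fldN T s b u0 N t)‖ ≤ U := by
  intro t ht
  obtain ⟨h1, h2⟩ := fldN_bound hT hsb u0 N hN t ht
  obtain ⟨h3, h4⟩ := hsq t ht
  generalize √(t - s) = p at h1 h2 h3 h4 ⊢
  generalize fldN T s b u0 N t = w at h1 h2 ⊢
  have hC0 : 0 ≤ C := zero_le_one.trans hC1
  have h5 : C * ‖u0‖ ≤ C * a := mul_le_mul_of_nonneg_left hu0a hC0
  have h6 : ρ * p ≤ 2 * a := by rw [← hρq]; exact mul_le_mul_of_nonneg_left h4 hρ0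
  have hpp : p * p⁻¹ = 1 := mul_inv_cancel₀ h3.ne'
  have h7 : 0 ≤ C * a := mul_nonneg hC0 ha
  have h8 : 4 * C * (ρ * p) ≤ 4 * C * (2 * a) :=
    mul_le_mul_of_nonneg_left h6 (mul_nonneg four_pos.le hC0)
  have h9 : 2 * C * (ρ * p) ≤ 2 * C * (2 * a) :=
    mul_le_mul_of_nonneg_left h6 (mul_nonneg two_pos.le hC0)
  constructor
  · calc p * ‖w‖ ≤ p * (C * p⁻¹ * ‖u0‖ + 4 * C * ρ) := mul_le_mul_of_nonneg_left h1 h3.le
      _ = C * ‖u0‖ * (p * p⁻¹) + 4 * C * (ρ * p) := by ring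
      _ = C * ‖u0‖ + 4 * C * (ρ * p) := by rw [hpp, mul_one]
      _ ≤ C * a + 4 * C * (2 * a) := add_le_add h5 h8
      _ = U := by rw [hU]; ring
  · calc ‖j w‖ ≤ C * ‖u0‖ + 2 * C * ρ * p := h2
      _ = C * ‖u0‖ + 2 * C * (ρ * p) := by ring
      _ ≤ C * a + 2 * C * (2 * a) := add_le_add h5 h9
      _ = 5 * (C * a) := by ring
      _ ≤ 9 * (C * a) := mul_le_mul_of_nonneg_right (by norm_num) h7
      _ = U := by rw [hU]; ring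

/-- The fixed point argument. -/
theorem LE_fix {s b ρ : ℝ} (hρ0 : 0 ≤ ρ) (G : (↥(Ioc s b) →ᵇ Y) → ℝ → Y)
    (hGc : ∀ N, ContinuousOn (G N) (Ioc s b))
    (hGb : ∀ N, ‖N‖ ≤ ρ → ∀ t ∈ Ioc s b, ‖G N t‖ ≤ ρ)
    (hGl : ∀ x y : ↥(Ioc s b) →ᵇ Y, ‖x‖ ≤ ρ → ‖y‖ ≤ ρ → ∀ t ∈ Ioc s b,
      dist (G x t) (G y t) ≤ 1 / 2 * dist x y) :
    ∃ N : ↥(Ioc s b) →ᵇ Y, ‖N‖ ≤ ρ ∧ ∀ r (hr : r ∈ Ioc s b), N ⟨r, hr⟩ = G N r := by
  have hΦc : ∀ N, Continuous fun t : ↥(Ioc s b) => G N t.1 := fun N =>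
    continuousOn_iff_continuous_domRestrict.1 (hGc N)
  let Z := {N : ↥(Ioc s b) →ᵇ Y // ‖N‖ ≤ ρ}
  have hZc : CompleteSpace Z := by
    have h1 : IsClosed {N : ↥(Ioc s b) →ᵇ Y | ‖N‖ ≤ ρ} := isClosed_le continuous_norm continuous_const
    exact h1.completeSpace_coe
  have hZn : Nonempty Z := ⟨⟨0, by rw [norm_zero]; exact hρ0⟩⟩
  let Φ : Z → Z := fun N => ⟨BoundedContinuousFunction.ofNormedAddCommGroup
    (fun t : ↥(Ioc s b) => G N.1 t.1) (hΦc N.1) ρ (fun t => hGb N.1 N.2 t.1 t.2),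
    BoundedContinuousFunction.norm_ofNormedAddCommGroup_le _ hρ0 _⟩
  have hΦ : ∀ x y : Z, dist (Φ x) (Φ y) ≤ (1/2 : ℝ) * dist x y := by
    intro x y
    rw [Subtype.dist_eq, Subtype.dist_eq, BoundedContinuousFunction.dist_le
      (mul_nonneg (by norm_num) dist_nonneg)]
    intro t
    exact hGl x.1 y.1 x.2 y.2 t.1 t.2
  have hc : ContractingWith (1/2 : NNReal) Φ := by
    refine ⟨by rw [← NNReal.coe_lt_coe]; norm_num, LipschitzWith.of_dist_le_mul fun x y => ?_⟩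
    refine (hΦ x y).trans (le_of_eq ?_)
    norm_num
  have hN : Φ (hc.fixedPoint Φ) = hc.fixedPoint Φ := hc.fixedPoint_isFixedPt
  refine ⟨(hc.fixedPoint Φ).1, (hc.fixedPoint Φ).2, fun r hr => ?_⟩
  have h2 := congrArg (fun z : Z => z.1 ⟨r, hr⟩) hN
  exact h2.symm

/-- AB-3. Local existence, with explicit constants. -/
theorem LE_exp (hT : SG j T C) (hB : BilB j B C) :
    ∀ (s τ M MF : ℝ) (u0 : Y) (Λ : ℝ → (X →L[ℝ] Y)) (F : ℝ → Y), 0 < τ → τ ≤ 1 → 0 ≤ M → 0 ≤ MF →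
      Coef j s (s + τ) M MF Λ F → √τ * (M + ‖u0‖ + √τ * MF) ≤ 1 / (216 * C ^ 3) →
      ∃ u, Mild j T B Λ F s (s + τ) u0 u ∧ ∀ t ∈ Ioc s (s + τ),
        √(t - s) * ‖u t‖ ≤ 9 * C * (‖u0‖ + √τ * MF) ∧ ‖j (u t)‖ ≤ 9 * C * (‖u0‖ + √τ * MF) := by
  have hC1 : 1 ≤ C := hT.one_le
  have hC0 : 0 < C := zero_lt_one.trans_le hC1
  intro s τ M MF u0 Λ F hτ hτ1 hM hMF hC hsm
  obtain ⟨b, hb⟩ : ∃ b, b = s + τ := ⟨_, rfl⟩
  obtain ⟨q, hq⟩ : ∃ q, q = √τ := ⟨_, rfl⟩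
  obtain ⟨a, ha⟩ : ∃ a, a = ‖u0‖ + q * MF := ⟨_, rfl⟩
  rw [← hb] at hC ⊢
  rw [← hq] at hsm ⊢
  rw [← ha]
  have hsb : b ≤ s + 1 := by rw [hb]; exact add_le_add le_rfl hτ1
  have hq0 : 0 < q := by rw [hq]; exact Real.sqrt_pos.2 hτ
  have hqM : 0 ≤ q * MF := mul_nonneg hq0.le hMF
  have ha0 : 0 ≤ a := by rw [ha]; exact add_nonneg (norm_nonneg _) hqM
  have hu0a : ‖u0‖ ≤ a := by rw [ha]; exact le_add_of_nonneg_right hqM
  have hMFa : q * MF ≤ a := by rw [ha]; exact le_add_of_nonneg_left (norm_nonneg _)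
  have hC3 : 0 < 216 * C ^ 3 := mul_pos (by norm_num) (pow_pos hC0 3)
  have hsm' : q * (M + a) * (216 * C ^ 3) ≤ 1 := by
    rw [add_assoc, ← ha, le_div_iff₀ hC3] at hsm
    exact hsm
  obtain ⟨ρ, hρ⟩ : ∃ ρ, ρ = 2 * a / q := ⟨_, rfl⟩
  have hρ0 : 0 ≤ ρ := by rw [hρ]; exact div_nonneg (mul_nonneg two_pos.le ha0) hq0.le
  have hρq : ρ * q = 2 * a := by rw [hρ, div_mul_cancel₀ _ hq0.ne']
  have hsq : ∀ t ∈ Ioc s b, 0 < √(t - s) ∧ √(t - s) ≤ q := by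
    intro t ht
    refine ⟨Real.sqrt_pos.2 (sub_pos.2 ht.1), ?_⟩
    rw [hq]
    refine Real.sqrt_le_sqrt ?_
    have := ht.2
    rw [hb] at this
    exact sub_le_iff_le_add'.2 this
  obtain ⟨U, hU⟩ : ∃ U, U = 9 * C * a := ⟨_, rfl⟩
  rw [← hU]
  have hfb : ∀ N : ↥(Ioc s b) →ᵇ Y, ‖N‖ ≤ ρ → ∀ t ∈ Ioc s b,
      √(t - s) * ‖fldN T s b u0 N t‖ ≤ U ∧ ‖j (fldN T s b u0 N t)‖ ≤ U := fun N hN =>
    LE_fld hT hC1 hsb u0 hsq ha0 hu0a hρ0 hρq hU N hN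
  -- the right hand side
  obtain ⟨g, hg⟩ : ∃ g : (↥(Ioc s b) →ᵇ Y) → ℝ → Y, g = fun N t =>
    Λ t (fldN T s b u0 N t) + B (fldN T s b u0 N t) (fldN T s b u0 N t) + F t := ⟨_, rfl⟩
  have hgt : ∀ N t, g N t = Λ t (fldN T s b u0 N t) +
      B (fldN T s b u0 N t) (fldN T s b u0 N t) + F t := fun N t => by rw [hg]
  have hgc : ∀ N, ContinuousOn (g N) (Ioc s b) := by
    intro N
    have h1 := fldN_cont hT hsb u0 N
    rw [hg]
    refine ((hC.cont_comp hM hT.jn h1).add ?_).add hC.cF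
    exact (B.continuous.comp_continuousOn h1).clm_apply h1
  have hbΛ : ∀ t ∈ Ioc s b, ∀ x, ‖Λ t x‖ ≤ M * (‖x‖ + (√(t - s))⁻¹ * ‖j x‖) := fun t ht x =>
    hC.bΛ t ht x
  have hbF : ∀ t ∈ Ioc s b, ‖F t‖ ≤ MF * (√(t - s))⁻¹ := fun t ht => hC.bF t ht
  have hGc : ∀ N, ContinuousOn (fun t => √(t - s) • g N t) (Ioc s b) := fun N =>
    ContinuousOn.smul (Continuous.continuousOn
      (Real.continuous_sqrt.comp (continuous_id.sub continuous_const))) (hgc N)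
  obtain ⟨N, hN1, hN2⟩ := LE_fix (Y := Y) hρ0 (fun N t => √(t - s) • g N t) hGc
    (fun N hN t ht => by
      show ‖√(t - s) • g N t‖ ≤ ρ
      rw [hρ, hgt]
      exact LE_rhs hB hC1 (hsq t ht).1 hq0 hM ha0 hU hsm' hMFa (hbΛ t ht) (hbF t ht) _
        (hfb N hN t ht).1 (hfb N hN t ht).2)
    (fun x y hx hy t ht => by
      show dist (√(t - s) • g x t) (√(t - s) • g y t) ≤ _
      rw [hgt, hgt]
      have hdu := fldN_sub hT hsb u0 x y t ht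
      have hD := duhamel hT hsb dist_nonneg (srcN_cont (x - y)) (srcN_bound (x - y)
        (le_of_eq (dist_eq_norm x y).symm))
      refine LE_lip hB hC1 (hsq t ht).1 (hsq t ht).2 hM ha0 dist_nonneg hU hsm' (hbΛ t ht) _ _
        (hfb x hx t ht).1 (hfb x hx t ht).2 (hfb y hy t ht).1 (hfb y hy t ht).2 ?_ ?_
      · rw [hdu]; exact hD.2.1 t ht
      · rw [hdu]; exact hD.2.2.1 t ht)
  have hN' : ∀ r (hr : r ∈ Ioc s b), srcN s b N r = g N r := by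
    intro r hr
    rw [srcN_apply _ hr, hN2 r hr]
    show (√(r - s))⁻¹ • √(r - s) • g N r = g N r
    rw [smul_smul, inv_mul_cancel₀ (hsq r hr).1.ne', one_smul]
  refine ⟨fldN T s b u0 N, ⟨fldN_cont hT hsb u0 N, ⟨U, hfb N hN1⟩, ?_⟩, fun t ht => hfb N hN1 t ht⟩
  intro t ht
  show T (t - s) u0 + _ = _
  congr 1
  refine intervalIntegral.integral_congr_ae (Eventually.of_forall fun r hr => ?_)
  rw [uIoc_of_le ht.1.le] at hr
  rw [hN' r ⟨hr.1, hr.2.trans ht.2⟩, hgt]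

/-- AB-3. Local existence. -/
theorem LE (hT : SG j T C) (hB : BilB j B C) : ∃ c > 0, ∃ K, 1 ≤ K ∧
    ∀ (s τ M MF : ℝ) (u0 : Y) (Λ : ℝ → (X →L[ℝ] Y)) (F : ℝ → Y), 0 < τ → τ ≤ 1 → 0 ≤ M → 0 ≤ MF →
      Coef j s (s + τ) M MF Λ F → √τ * (M + ‖u0‖ + √τ * MF) ≤ c →
      ∃ u, Mild j T B Λ F s (s + τ) u0 u ∧ ∀ t ∈ Ioc s (s + τ),
        √(t - s) * ‖u t‖ ≤ K * (‖u0‖ + √τ * MF) ∧ ‖j (u t)‖ ≤ K * (‖u0‖ + √τ * MF) := by
  have hC1 : 1 ≤ C := hT.one_le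
  have hC0 : 0 < C := by linarith
  exact ⟨1 / (216 * C ^ 3), by positivity, 9 * C, by linarith, LE_exp hT hB⟩

end Abs

end Pool.Agent.Lib.MP_79abb3_an.P25
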