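import Pool.Agent.Lib.MP_79abb3_an.P25.BaseA

/-!
BA-3: the upper barrier of the base flow at the wall.
-/

set_option autoImplicit false
set_option linter.unusedSectionVars false

open MeasureTheory Set Filter Topology Function

namespace Pool.Agent.Lib.MP_79abb3_an.P25

/-- The barrier `a ψ(z/√t)`, `ψ(x) = 2x - x²` for `x ≤ 1` and `1` for `x ≥ 1`. -/
noncomputable def upBar (ε t z : ℝ) : ℝ := (t - (max (√t - z) 0) ^ 2) / (t ^ 2 + ε ^ 2)

theorem upBar_lt {ε t z : ℝ} (ht : 0 ≤ t) (hz : z ≤ √t) :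
    upBar ε t z = (2 * z * √t - z ^ 2) / (t ^ 2 + ε ^ 2) := by
  unfold upBar
  rw [max_eq_left (by linarith)]
  congr 1
  have := Real.sq_sqrt ht
  nlinarith [this]

theorem upBar_ge {ε t z : ℝ} (hz : √t ≤ z) : upBar ε t z = aa ε t := by
  unfold upBar aa
  rw [max_eq_right (by linarith)]
  simp

theorem upBar_cont {ε : ℝ} (hε : 0 < ε) : Continuous (uncurry (upBar ε)) := by
  unfold upBar Function.uncurry
  refine Continuous.div (by fun_prop) (by fun_prop) ?_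
  intro p
  positivity

theorem up_second_test {h h1 : ℝ → ℝ} {h2 z0 : ℝ} (hh : ∀ᶠ z in 𝓝 z0, HasDerivAt h (h1 z) z)
    (hh2 : HasDerivAt h1 h2 z0) (hmax : IsLocalMax h z0) : h2 ≤ 0 := by
  by_contra hc
  push Not at hc
  have hd : deriv h =ᶠ[𝓝 z0] h1 := hh.mono fun z hz => hz.deriv
  have hdd : deriv (deriv h) z0 = h2 := by rw [hd.deriv_eq, hh2.deriv]
  have hd0 : deriv h z0 = 0 := hmax.deriv_eq_zero
  have hmin : IsLocalMin h z0 :=
    isLocalMin_of_deriv_deriv_pos (by rw [hdd]; exact hc) hd0 hh.self_of_nhds.continuousAt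
  have hconst : h =ᶠ[𝓝 z0] fun _ => h z0 := by
    filter_upwards [hmax, hmin] with z h1 h2 using le_antisymm h1 h2
  have h3 : deriv h =ᶠ[𝓝 z0] deriv (fun _ => h z0) := hconst.deriv
  have h4 : deriv (deriv h) z0 = 0 := by
    rw [h3.deriv_eq]
    simp
  linarith

theorem up_left_test {f : ℝ → ℝ} {c t0 : ℝ} (ht0 : 0 < t0) (hf : HasDerivWithinAt f c (Iic t0) t0)
    (hmax : ∀ t ∈ Icc 0 t0, f t ≤ f t0) : 0 ≤ c := by
  have h1 : HasDerivWithinAt f c (Iio t0) t0 := hf.mono Iio_subset_Iic_self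
  rw [hasDerivWithinAt_iff_tendsto_slope' (by simp)] at h1
  refine ge_of_tendsto h1 ?_
  have : Ioo 0 t0 ∈ 𝓝[<] t0 := Ioo_mem_nhdsLT ht0
  filter_upwards [this] with t ht
  rw [slope_def_field]
  have := hmax t ⟨ht.1.le, ht.2.le⟩
  exact div_nonneg_of_nonpos (by linarith) (by linarith [ht.2])

section max
variable {ε H b : ℝ} {G G1 G2 : ℝ → ℝ → ℝ}

/-- The final algebra of the comparison. -/
theorem up_algebra {ε s z q w A1 A2 I g St K : ℝ} (hε : 0 < ε) (hs : 0 < s) (hz : 0 < z)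
    (hzs : z < s) (hq : q = (s ^ 2) ^ 2 + ε ^ 2) (hw : 0 < w) (hA1 : A1 = (2 * s - 2 * z) / q)
    (hA2 : A2 ≤ -2 / q) (hI : I ≤ (z ^ 2 * s - z ^ 3 / 3) / q + w * z)
    (hg : g = (2 * z * s - z ^ 2) / q + w)
    (hSt : St = (z / s * q - (2 * z * s - z ^ 2) * (2 * s ^ 2)) / q ^ 2) (hK : K = 1 / ε) :
    A2 + I * A1 - g ^ 2 + ε ^ 2 / q ^ 2 - St < K * w := by
  have hq0 : 0 < q := by rw [hq]; positivity
  have hA1n : 0 ≤ A1 := by rw [hA1]; exact div_nonneg (by linarith) hq0.le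
  have h1 : I * A1 ≤ ((z ^ 2 * s - z ^ 3 / 3) / q + w * z) * A1 :=
    mul_le_mul_of_nonneg_right hI hA1n
  have hSn : 0 ≤ (2 * z * s - z ^ 2) / q := div_nonneg (by nlinarith) hq0.le
  have h2 : ((2 * z * s - z ^ 2) / q) ^ 2 ≤ g ^ 2 := by
    rw [hg]; exact pow_le_pow_left₀ hSn (by linarith) 2
  -- the positivity
  have hN : 0 < 2 / q - (z ^ 2 * s - z ^ 3 / 3) / q * A1 + ((2 * z * s - z ^ 2) / q) ^ 2
      - ε ^ 2 / q ^ 2 + St := by
    obtain ⟨x, hx⟩ : ∃ x, x = z / s := ⟨_, rfl⟩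
    have hzx : z = x * s := by rw [hx]; field_simp
    have hx0 : 0 < x := by rw [hx]; positivity
    have hx1 : x < 1 := by rw [hx, div_lt_one hs]; exact hzs
    have e : 2 / q - (z ^ 2 * s - z ^ 3 / 3) / q * A1 + ((2 * z * s - z ^ 2) / q) ^ 2
      - ε ^ 2 / q ^ 2 + St = (ε ^ 2 * (1 + x) +
        s ^ 4 * (2 - 3 * x + 4 * x ^ 2 - 4 / 3 * x ^ 3 + x ^ 4 / 3)) / q ^ 2 := by
      rw [hA1, hSt, ← hx, hzx]
      field_simp
      rw [hq]
      ring
    rw [e]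
    have : 0 < 2 - 3 * x + 4 * x ^ 2 - 4 / 3 * x ^ 3 + x ^ 4 / 3 := by
      have : x ^ 3 ≤ x ^ 2 := by nlinarith [sq_nonneg x]
      nlinarith [sq_nonneg (x - 9 / 16), pow_pos hx0 4]
    positivity
  have h3 : w * z * A1 ≤ K * w := by
    have : z * A1 ≤ K := by
      rw [hA1, hK, mul_div_assoc', div_le_div_iff₀ hq0 hε]
      have e1 : z * (2 * s - 2 * z) ≤ s ^ 2 / 2 := by nlinarith [sq_nonneg (s - 2 * z)]
      have e2 : s ^ 2 / 2 * ε ≤ 1 * q := by
        rw [hq]; nlinarith [sq_nonneg (s ^ 2 - ε)]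
      nlinarith [mul_le_mul_of_nonneg_right e1 hε.le]
    nlinarith
  have h4 : -2 / q = - (2 / q) := by ring
  rw [h4] at hA2
  have h5 : ((z ^ 2 * s - z ^ 3 / 3) / q + w * z) * A1 =
    (z ^ 2 * s - z ^ 3 / 3) / q * A1 + w * z * A1 := by ring
  linarith

theorem BSol.le_upBar (h : BSol ε H b G G1 G2) (hH : 1 ≤ H) (hε : 0 < ε) (hb : 0 ≤ b)
    (hb1 : b ≤ 1) : ∀ t ∈ Icc 0 b, ∀ z ∈ Icc 0 H, G t z ≤ upBar ε t z := by
  by_contra hcon
  push Not at hcon
  obtain ⟨ts, hts, zs, hzs, hlt⟩ := hcon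
  set K : ℝ := 1 / ε with hK
  set Φ : ℝ × ℝ → ℝ := fun p => Real.exp (-(K * p.1)) * (G p.1 p.2 - upBar ε p.1 p.2) with hΦ
  have hΦc : ContinuousOn Φ (Icc 0 b ×ˢ Icc 0 H) := by
    refine ContinuousOn.mul (by fun_prop) ?_
    exact h.cG.sub (upBar_cont hε).continuousOn
  obtain ⟨⟨t0, z0⟩, ⟨ht0, hz0⟩, hmax⟩ := (isCompact_Icc.prod isCompact_Icc).exists_isMaxOn
    ⟨(ts, zs), hts, hzs⟩ hΦc
  simp only at ht0 hz0
  have hmax' : ∀ t ∈ Icc 0 b, ∀ z ∈ Icc 0 H, Φ (t, z) ≤ Φ (t0, z0) :=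
    fun t ht z hz => hmax (show (t, z) ∈ Icc 0 b ×ˢ Icc 0 H from ⟨ht, hz⟩)
  have hpos : 0 < Φ (t0, z0) := by
    refine lt_of_lt_of_le ?_ (hmax' ts hts zs hzs)
    exact mul_pos (Real.exp_pos _) (by simpa using hlt)
  set w : ℝ := G t0 z0 - upBar ε t0 z0 with hw
  have hw0 : 0 < w := by
    have : 0 < Real.exp (-(K * t0)) * w := hpos
    exact (mul_pos_iff_of_pos_left (Real.exp_pos _)).1 this
  -- position
  have ht0' : 0 < t0 := by
    rcases ht0.1.lt_or_eq with h1 | h1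
    · exact h1
    · exfalso
      have e1 : G t0 z0 = 0 := by rw [← h1]; exact h.init z0 hz0
      have e2 : upBar ε t0 z0 = 0 := by
        rw [upBar_ge (by rw [← h1]; simpa using hz0.1), ← h1]; simp [aa]
      rw [e1, e2] at hw
      linarith
  have hz0' : 0 < z0 := by
    rcases hz0.1.lt_or_eq with h1 | h1
    · exact h1
    · exfalso
      have e1 : G t0 z0 = 0 := by rw [← h1]; exact h.z0 t0 ht0
      have e2 : upBar ε t0 z0 = 0 := by
        rw [upBar_lt ht0.1 (by rw [← h1]; positivity), ← h1]; simp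
      rw [e1, e2] at hw
      linarith
  have hzs0 : z0 < √t0 := by
    by_contra hc
    push Not at hc
    have e2 : upBar ε t0 z0 = aa ε t0 := upBar_ge hc
    have e1 : G t0 z0 ≤ aa ε t0 := h.le_aa (by linarith) hε hb t0 ht0 z0 hz0
    rw [e2] at hw
    linarith
  set s : ℝ := √t0 with hs
  have hs0 : 0 < s := Real.sqrt_pos.2 ht0'
  have hs2 : s ^ 2 = t0 := Real.sq_sqrt ht0'.le
  have hs1 : s ≤ 1 := by
    rw [hs]; exact Real.sqrt_le_one.2 (by linarith [ht0.2])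
  have hzH : z0 < H := by linarith
  set q : ℝ := t0 ^ 2 + ε ^ 2 with hq
  have hq0 : 0 < q := by positivity
  have ht0m : t0 ∈ Ioc 0 b := ⟨ht0', ht0.2⟩
  have hz0m : z0 ∈ Ioo 0 H := ⟨hz0', hzH⟩
  -- the fixed time inequality
  have hfix : ∀ z ∈ Icc 0 H, G t0 z - upBar ε t0 z ≤ w := by
    intro z hz
    have := hmax' t0 ht0 z hz
    simp only [hΦ] at this
    exact le_of_mul_le_mul_left this (Real.exp_pos _)
  have hbar : ∀ z, z ≤ s → upBar ε t0 z = (2 * z * s - z ^ 2) / q :=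
    fun z hz => upBar_lt ht0'.le hz
  have hloc : IsLocalMax (fun z => G t0 z - (2 * z * s - z ^ 2) / q) z0 := by
    have : Ioo 0 s ∈ 𝓝 z0 := Ioo_mem_nhds hz0' hzs0
    filter_upwards [this] with z hz
    have e1 := hfix z ⟨hz.1.le, by linarith [hz.2]⟩
    rw [hbar z hz.2.le] at e1
    rw [hw, hbar z0 hzs0.le] at e1
    exact e1
  have hd : ∀ᶠ z in 𝓝 z0, HasDerivAt (fun z => G t0 z - (2 * z * s - z ^ 2) / q)
      (G1 t0 z - (2 * s - 2 * z) / q) z := by
    have : Ioo 0 H ∈ 𝓝 z0 := Ioo_mem_nhds hz0' hzH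
    filter_upwards [this] with z hz
    have e1 : HasDerivAt (G t0) (G1 t0 z) z :=
      (h.d1 t0 ht0 z ⟨hz.1.le, hz.2.le⟩).hasDerivAt (Icc_mem_nhds hz.1 hz.2)
    have e2 : HasDerivAt (fun z : ℝ => (2 * z * s - z ^ 2) / q) ((2 * s - 2 * z) / q) z := by
      have e3 : HasDerivAt (fun z : ℝ => 2 * z * s) (2 * s) z := by
        simpa using ((hasDerivAt_id z).const_mul 2).mul_const s
      have e4 : HasDerivAt (fun z : ℝ => z ^ 2) (2 * z) z := by
        simpa using hasDerivAt_pow 2 z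
      exact (e3.sub e4).div_const q
    exact e1.sub e2
  have hd2 : HasDerivAt (fun z => G1 t0 z - (2 * s - 2 * z) / q) (G2 t0 z0 - (-2) / q) z0 := by
    have e1 : HasDerivAt (G1 t0) (G2 t0 z0) z0 := h.d2 t0 ht0m z0 hz0m
    have e2 : HasDerivAt (fun z : ℝ => (2 * s - 2 * z) / q) ((-2) / q) z0 := by
      have e3 : HasDerivAt (fun z : ℝ => 2 * s - 2 * z) (-2) z0 := by
        simpa using ((hasDerivAt_id z0).const_mul 2).const_sub (2 * s)
      exact e3.div_const q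
    exact e1.sub e2
  have hA1 : G1 t0 z0 = (2 * s - 2 * z0) / q := by
    have := hloc.hasDerivAt_eq_zero hd.self_of_nhds
    linarith
  have hA2 : G2 t0 z0 ≤ -2 / q := by
    have := up_second_test hd hd2 hloc
    linarith
  -- the integral
  have hI : (∫ x in (0:ℝ)..z0, G t0 x) ≤ (z0 ^ 2 * s - z0 ^ 3 / 3) / q + w * z0 := by
    have hGc : ContinuousOn (G t0) (Icc 0 H) := by
      have := h.cG.comp (f := fun z => (t0, z)) (s := Icc 0 H) (by fun_prop)
        (fun z hz => ⟨ht0, hz⟩)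
      exact this
    have hi1 : IntervalIntegrable (G t0) volume 0 z0 := by
      refine ContinuousOn.intervalIntegrable ?_
      rw [uIcc_of_le hz0'.le]
      exact hGc.mono (Icc_subset_Icc_right hzH.le)
    have hi2 : IntervalIntegrable (fun z => (2 * z * s - z ^ 2) / q + w) volume 0 z0 :=
      Continuous.intervalIntegrable (by fun_prop) _ _
    have e1 : (∫ x in (0:ℝ)..z0, G t0 x) ≤ ∫ x in (0:ℝ)..z0, ((2 * x * s - x ^ 2) / q + w) := by
      refine intervalIntegral.integral_mono_on hz0'.le hi1 hi2 ?_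
      intro x hx
      have := hfix x ⟨hx.1, by linarith [hx.2]⟩
      rw [hbar x (by linarith [hx.2])] at this
      linarith
    have e2 : (∫ x in (0:ℝ)..z0, ((2 * x * s - x ^ 2) / q + w)) =
        (z0 ^ 2 * s - z0 ^ 3 / 3) / q + w * z0 := by
      have e3 : ∀ x ∈ uIcc 0 z0, HasDerivAt (fun x : ℝ => (x ^ 2 * s - x ^ 3 / 3) / q + w * x)
          ((2 * x * s - x ^ 2) / q + w) x := by
        intro x _
        have a1 : HasDerivAt (fun x : ℝ => x ^ 2 * s) (2 * x * s) x := by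
          simpa using (hasDerivAt_pow 2 x).mul_const s
        have a2 : HasDerivAt (fun x : ℝ => x ^ 3 / 3) (x ^ 2) x := by
          have := (hasDerivAt_pow 3 x).div_const 3
          refine this.congr_deriv ?_
          push_cast
          ring
        have a3 : HasDerivAt (fun x : ℝ => w * x) w x := by
          simpa using (hasDerivAt_id x).const_mul w
        exact ((a1.sub a2).div_const q).add a3
      rw [intervalIntegral.integral_eq_sub_of_hasDerivAt e3 hi2]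
      simp
    linarith
  -- the time derivative
  have hSt : HasDerivAt (fun t : ℝ => (2 * z0 * √t - z0 ^ 2) / (t ^ 2 + ε ^ 2))
      ((z0 / s * q - (2 * z0 * s - z0 ^ 2) * (2 * s ^ 2)) / q ^ 2) t0 := by
    have a1 : HasDerivAt (fun t : ℝ => 2 * z0 * √t - z0 ^ 2) (z0 / s) t0 := by
      have := ((Real.hasDerivAt_sqrt ht0'.ne').const_mul (2 * z0)).sub_const (z0 ^ 2)
      refine this.congr_deriv ?_
      rw [← hs]
      field_simp
    have a2 : HasDerivAt (fun t : ℝ => t ^ 2 + ε ^ 2) (2 * s ^ 2) t0 := by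
      have := (hasDerivAt_pow 2 t0).add_const (ε ^ 2)
      refine this.congr_deriv ?_
      rw [hs2]
      norm_num
    have := a1.div a2 hq0.ne'
    exact this
  have hft : HasDerivWithinAt (fun t => Real.exp (-(K * t)) * (G t z0 -
      (2 * z0 * √t - z0 ^ 2) / (t ^ 2 + ε ^ 2)))
      (Real.exp (-(K * t0)) * (-K) * w + Real.exp (-(K * t0)) *
        ((G2 t0 z0 + (∫ x in (0:ℝ)..z0, G t0 x) * G1 t0 z0 - G t0 z0 ^ 2 + PP ε t0)
        - (z0 / s * q - (2 * z0 * s - z0 ^ 2) * (2 * s ^ 2)) / q ^ 2)) (Iic t0) t0 := by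
    have a1 : HasDerivAt (fun t => Real.exp (-(K * t))) (Real.exp (-(K * t0)) * (-K)) t0 := by
      have : HasDerivAt (fun t => -(K * t)) (-K) t0 := by
        have := ((hasDerivAt_id t0).const_mul K).neg
        refine this.congr_deriv ?_
        ring
      exact this.exp
    have a2 := (h.dt t0 ht0m z0 hz0m).sub hSt.hasDerivWithinAt
    have a3 := a1.hasDerivWithinAt.mul a2
    refine a3.congr_deriv ?_
    simp only [Pi.sub_apply]
    rw [hw, hbar z0 hzs0.le]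
  have hft' : HasDerivWithinAt (fun t => Φ (t, z0))
      (Real.exp (-(K * t0)) * (-K) * w + Real.exp (-(K * t0)) *
        ((G2 t0 z0 + (∫ x in (0:ℝ)..z0, G t0 x) * G1 t0 z0 - G t0 z0 ^ 2 + PP ε t0)
        - (z0 / s * q - (2 * z0 * s - z0 ^ 2) * (2 * s ^ 2)) / q ^ 2)) (Iic t0) t0 := by
    refine hft.congr_of_eventuallyEq ?_ ?_
    · have : ∀ᶠ t in 𝓝 t0, 0 < t ∧ z0 < √t := by
        refine (lt_mem_nhds ht0').and ?_
        exact (Real.continuous_sqrt.tendsto t0).eventually (lt_mem_nhds hzs0)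
      filter_upwards [this.filter_mono nhdsWithin_le_nhds] with t ht
      simp only [hΦ]
      rw [upBar_lt ht.1.le ht.2.le]
    · simp only [hΦ]
      rw [hbar z0 hzs0.le]
  have hc := up_left_test ht0' hft' (fun t ht => hmax' t ⟨ht.1, ht.2.trans ht0.2⟩ z0 hz0)
  have hc2 : K * w ≤ (G2 t0 z0 + (∫ x in (0:ℝ)..z0, G t0 x) * G1 t0 z0 - G t0 z0 ^ 2 + PP ε t0)
        - (z0 / s * q - (2 * z0 * s - z0 ^ 2) * (2 * s ^ 2)) / q ^ 2 := by
    have e0 := Real.exp_pos (-(K * t0))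
    have : 0 ≤ Real.exp (-(K * t0)) * ((G2 t0 z0 + (∫ x in (0:ℝ)..z0, G t0 x) * G1 t0 z0 - G t0 z0 ^ 2 + PP ε t0)
        - (z0 / s * q - (2 * z0 * s - z0 ^ 2) * (2 * s ^ 2)) / q ^ 2 - K * w) := by
      have e1 : Real.exp (-(K * t0)) * ((G2 t0 z0 + (∫ x in (0:ℝ)..z0, G t0 x) * G1 t0 z0 - G t0 z0 ^ 2 + PP ε t0)
        - (z0 / s * q - (2 * z0 * s - z0 ^ 2) * (2 * s ^ 2)) / q ^ 2 - K * w) =
        Real.exp (-(K * t0)) * (-K) * w + Real.exp (-(K * t0)) *
        ((G2 t0 z0 + (∫ x in (0:ℝ)..z0, G t0 x) * G1 t0 z0 - G t0 z0 ^ 2 + PP ε t0)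
        - (z0 / s * q - (2 * z0 * s - z0 ^ 2) * (2 * s ^ 2)) / q ^ 2) := by ring
      rw [e1]; exact hc
    have := nonneg_of_mul_nonneg_right this e0
    linarith
  have hPP : PP ε t0 = ε ^ 2 / q ^ 2 := rfl
  have hg : G t0 z0 = (2 * z0 * s - z0 ^ 2) / q + w := by
    rw [hw, hbar z0 hzs0.le]; ring
  have := up_algebra hε hs0 hz0' hzs0 (by rw [hs2]) hw0 hA1 hA2 hI hg rfl hK
  rw [hPP] at hc2
  linarith

/-! BA-3 -/
theorem BSol.up (h : BSol ε H b G G1 G2) (hH : 1 ≤ H) (hε : 0 < ε) (hb : 0 ≤ b) (hb1 : b ≤ 1) :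
    ∀ t ∈ Ioc 0 b, ∀ z ∈ Icc 0 H, G t z ≤ 2 * aa ε t * z / √t := by
  intro t ht z hz
  refine (h.le_upBar hH hε hb hb1 t ⟨ht.1.le, ht.2⟩ z hz).trans ?_
  have hs0 : 0 < √t := Real.sqrt_pos.2 ht.1
  have hs2 : √t ^ 2 = t := Real.sq_sqrt ht.1.le
  have hq0 : 0 < t ^ 2 + ε ^ 2 := by positivity
  rcases le_total z (√t) with h1 | h1
  · rw [upBar_lt ht.1.le h1]
    have : 2 * aa ε t * z / √t = (2 * z * √t) / (t ^ 2 + ε ^ 2) := by
      unfold aa
      field_simp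
      nlinarith [hs2]
    rw [this]
    exact div_le_div_of_nonneg_right (by nlinarith) hq0.le
  · rw [upBar_ge h1]
    have haa : 0 ≤ aa ε t := div_nonneg ht.1.le hq0.le
    rw [le_div_iff₀ hs0]
    nlinarith

end max

end Pool.Agent.Lib.MP_79abb3_an.P25
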