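import Pool.Agent.Lib.MP_79abb3_an.P25.BaseA

/-!
The base flow: monotonicity and star-shapedness (BA-4, BA-5).
-/

set_option autoImplicit false
set_option linter.unusedSectionVars false

open MeasureTheory Set Filter Topology Function

namespace Pool.Agent.Lib.MP_79abb3_an.P25

/-- The left derivative at a maximum is nonnegative. -/
private theorem left_nonneg_bd {φ : ℝ → ℝ} {a t d : ℝ} (hat : a < t)
    (hd : HasDerivWithinAt φ d (Iic t) t) (hm : ∀ s ∈ Icc a t, φ s ≤ φ t) : 0 ≤ d := by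
  have h2 : Tendsto (slope φ t) (𝓝[<] t) (𝓝 d) := by
    have := hasDerivWithinAt_iff_tendsto_slope.1 hd
    rwa [Iic_sdiff_right] at this
  refine ge_of_tendsto h2 ?_
  have h3 : Ioo a t ∈ 𝓝[<] t := Ioo_mem_nhdsLT hat
  filter_upwards [h3] with s hs
  rw [slope_def_field]
  have := hm s ⟨hs.1.le, hs.2.le⟩
  exact div_nonneg_of_nonpos (by linarith) (by linarith [hs.2])

/-- The maximum principle with one-sided derivatives. -/
private theorem maxp_bd {P : Type*} [TopologicalSpace P] {b : ℝ} {K : Set P} (hK : IsCompact K)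
    {f : ℝ → P → ℝ} (hf : ContinuousOn (uncurry f) (Icc 0 b ×ˢ K)) (h0 : ∀ p ∈ K, f 0 p ≤ 0)
    (hder : ∀ t ∈ Ioc 0 b, ∀ p ∈ K, 0 < f t p → (∀ q ∈ K, f t q ≤ f t p) →
      ∃ d < 0, HasDerivWithinAt (fun s => f s p) d (Iic t) t) :
    ∀ t ∈ Icc 0 b, ∀ p ∈ K, f t p ≤ 0 := by
  intro t1 ht1 p1 hp1
  by_contra hcon
  push Not at hcon
  have hcomp : IsCompact (Icc 0 t1 ×ˢ K) := isCompact_Icc.prod hK
  obtain ⟨⟨ts, ps⟩, hts, hmax⟩ := hcomp.exists_isMaxOn ⟨(t1, p1), ⟨⟨ht1.1, le_rfl⟩, hp1⟩⟩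
    (hf.mono (by gcongr; exact ht1.2))
  have hpos : 0 < f ts ps := lt_of_lt_of_le hcon (hmax (show (t1, p1) ∈ Icc 0 t1 ×ˢ K from
    ⟨⟨ht1.1, le_rfl⟩, hp1⟩))
  have hta : 0 < ts := by
    rcases eq_or_lt_of_le hts.1.1 with h | h
    · have h' : 0 = ts := h
      exact absurd hpos (not_lt.2 (by rw [← h']; exact h0 ps hts.2))
    · exact h
  obtain ⟨d, hd, hder'⟩ := hder ts ⟨hta, hts.1.2.trans ht1.2⟩ ps hts.2 hpos (fun q hq =>
    hmax (show (ts, q) ∈ Icc 0 t1 ×ˢ K from ⟨hts.1, hq⟩))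
  have := left_nonneg_bd hta hder' (fun s hs => hmax (show (s, ps) ∈ Icc 0 t1 ×ˢ K from
    ⟨⟨hs.1, hs.2.trans hts.1.2⟩, hts.2⟩))
  linarith

private theorem aa_der_bd {ε : ℝ} (hε : 0 < ε) (t : ℝ) :
    HasDerivAt (aa ε) (PP ε t - aa ε t ^ 2) t := by
  have h1 : t ^ 2 + ε ^ 2 ≠ 0 := by positivity
  have h2 : HasDerivAt (fun t : ℝ => t ^ 2 + ε ^ 2) (2 * t) t := by
    have := ((hasDerivAt_id t).pow 2).add_const (ε ^ 2)
    refine this.congr_deriv ?_
    simp
  have h3 := (hasDerivAt_id t).div h2 h1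
  refine (h3.congr_deriv ?_)
  simp only [PP, aa, id]
  field_simp
  ring

private theorem PP_pos_bd {ε : ℝ} (hε : 0 < ε) (t : ℝ) : 0 < PP ε t := by
  unfold PP
  positivity

private theorem aa_nonneg_bd {ε t : ℝ} (ht : 0 ≤ t) : 0 ≤ aa ε t := by
  unfold aa
  positivity

private theorem aa_cont_bd {ε : ℝ} (hε : 0 < ε) : Continuous (aa ε) :=
  continuous_iff_continuousAt.2 fun t => (aa_der_bd hε t).continuousAt

section max
variable {ε H b : ℝ} {G G1 G2 : ℝ → ℝ → ℝ}

private theorem BSol.dz_bd (h : BSol ε H b G G1 G2) {t : ℝ} (ht : t ∈ Icc 0 b) {z : ℝ}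
    (hz : z ∈ Ioo 0 H) : HasDerivAt (G t) (G1 t z) z :=
  (h.d1 t ht z ⟨hz.1.le, hz.2.le⟩).hasDerivAt (Icc_mem_nhds hz.1 hz.2)

private theorem BSol.cz_bd (h : BSol ε H b G G1 G2) {t : ℝ} (ht : t ∈ Icc 0 b) :
    ContinuousOn (G t) (Icc 0 H) := fun z hz => (h.d1 t ht z hz).continuousWithinAt

private theorem BSol.ii_bd (h : BSol ε H b G G1 G2) {t : ℝ} (ht : t ∈ Icc 0 b) {z z' : ℝ}
    (hz : 0 ≤ z) (hzz : z ≤ z') (hz' : z' ≤ H) : IntervalIntegrable (G t) volume z z' :=
  ((h.cz_bd ht).mono (Icc_subset_Icc hz hz')).intervalIntegrable_of_Icc hzz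

/-! BA-4 -/
theorem BSol.mono (h : BSol ε H b G G1 G2) (hH : 0 < H) (hε : 0 < ε) (hb : 0 ≤ b) :
    ∀ t ∈ Icc 0 b, ∀ z ∈ Icc 0 H, ∀ z' ∈ Icc z H, G t z ≤ G t z' := by
  have hnn := h.nonneg hH hε hb
  have hle := h.le_aa hH hε hb
  set K : Set (ℝ × ℝ) := (Icc 0 H ×ˢ Icc 0 H) ∩ {p | p.1 ≤ p.2} with hKdef
  have hK : IsCompact K := (isCompact_Icc.prod isCompact_Icc).inter_right
    (isClosed_le continuous_fst continuous_snd)
  have key : ∀ t ∈ Icc 0 b, ∀ p ∈ K, G t p.1 - G t p.2 ≤ 0 := by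
    refine maxp_bd (f := fun t (p : ℝ × ℝ) => G t p.1 - G t p.2) hK ?_ ?_ ?_
    · have c1 : ContinuousOn (fun q : ℝ × (ℝ × ℝ) => G q.1 q.2.1) (Icc 0 b ×ˢ K) :=
        h.cG.comp (f := fun q : ℝ × (ℝ × ℝ) => (q.1, q.2.1)) (by fun_prop)
          (fun q hq => ⟨hq.1, hq.2.1.1⟩)
      have c2 : ContinuousOn (fun q : ℝ × (ℝ × ℝ) => G q.1 q.2.2) (Icc 0 b ×ˢ K) :=
        h.cG.comp (f := fun q : ℝ × (ℝ × ℝ) => (q.1, q.2.2)) (by fun_prop)
          (fun q hq => ⟨hq.1, hq.2.1.2⟩)
      exact c1.sub c2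
    · intro p hp
      rw [h.init _ hp.1.1, h.init _ hp.1.2, sub_zero]
    · rintro t ht ⟨z, z'⟩ ⟨⟨hz, hz'⟩, hzz⟩ hpos hmax
      simp only at hz hz' hzz hpos hmax ⊢
      have ht' : t ∈ Icc 0 b := ⟨ht.1.le, ht.2⟩
      have hzz' : z < z' := by
        rcases eq_or_lt_of_le (show z ≤ z' from hzz) with h1 | h1
        · rw [h1, sub_self] at hpos
          exact absurd hpos (lt_irrefl _)
        · exact h1
      have hz0 : 0 < z := by
        rcases eq_or_lt_of_le hz.1 with h1 | h1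
        · rw [← h1, h.z0 t ht'] at hpos
          linarith [hnn t ht' z' hz']
        · exact h1
      have hz'H : z' < H := by
        rcases eq_or_lt_of_le hz'.2 with h1 | h1
        · rw [h1, h.zH t ht'] at hpos
          linarith [hle t ht' z hz]
        · exact h1
      have hzi : z ∈ Ioo 0 H := ⟨hz0, hzz'.trans hz'H⟩
      have hzi' : z' ∈ Ioo 0 H := ⟨hz0.trans hzz', hz'H⟩
      have m1 := second_max (f := G t) (f' := G1 t) (f'' := G2 t z) (p := z) (by
        filter_upwards [Ioo_mem_nhds hz0 hzz'] with q hq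
        have := hmax (q, z') ⟨⟨⟨hq.1.le, (hq.2.trans hz'H).le⟩, hz'⟩, hq.2.le⟩
        simp only at this
        linarith) (by
        filter_upwards [Ioo_mem_nhds hzi.1 hzi.2] with q hq
        exact h.dz_bd ht' hq) (h.d2 t ht z hzi)
      have m2 := second_max (f := fun q => - G t q) (f' := fun q => - G1 t q) (f'' := - G2 t z')
        (p := z') (by
        filter_upwards [Ioo_mem_nhds hzz' hz'H] with q hq
        have := hmax (z, q) ⟨⟨hz, ⟨(hz0.trans hq.1).le, hq.2.le⟩⟩, hq.1.le⟩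
        simp only at this
        linarith) (by
        filter_upwards [Ioo_mem_nhds hzi'.1 hzi'.2] with q hq
        exact (h.dz_bd ht' hq).neg) (h.d2 t ht z' hzi').neg
      have e1 : G1 t z = 0 := m1.1
      have e2 : G1 t z' = 0 := by linarith [m2.1]
      refine ⟨_, ?_, (h.dt t ht z hzi).sub (h.dt t ht z' hzi')⟩
      rw [e1, e2]
      have p1 := hnn t ht' z' hz'
      have p2 := m1.2
      have p3 := m2.2
      nlinarith
  intro t ht z hz z' hz'
  have := key t ht (z, z') ⟨⟨hz, ⟨hz.1.trans hz'.1, hz'.2⟩⟩, hz'.1⟩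
  simp only at this
  linarith

/-- Linear lower barrier. -/
private theorem BSol.lin_bd (h : BSol ε H b G G1 G2) (hH : 0 < H) (hε : 0 < ε) (hb : 0 ≤ b) :
    ∀ t ∈ Icc 0 b, ∀ z ∈ Icc 0 H, aa ε t * (z / H) ≤ G t z := by
  have hnn := h.nonneg hH hε hb
  have key : ∀ t ∈ Icc 0 b, ∀ z ∈ Icc 0 H, aa ε t * (z / H) - G t z ≤ 0 := by
    refine maxp_bd (f := fun t (z : ℝ) => aa ε t * (z / H) - G t z) isCompact_Icc ?_ ?_ ?_
    · have c1 : ContinuousOn (fun q : ℝ × ℝ => aa ε q.1 * (q.2 / H)) (Icc 0 b ×ˢ Icc 0 H) := by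
        have := (aa_cont_bd hε)
        fun_prop
      exact c1.sub h.cG
    · intro z hz
      rw [h.init z hz, sub_zero]
      unfold aa
      simp
    · intro t ht z hz hpos hmax
      have ht' : t ∈ Icc 0 b := ⟨ht.1.le, ht.2⟩
      have hz0 : 0 < z := by
        rcases eq_or_lt_of_le hz.1 with h1 | h1
        · rw [← h1, h.z0 t ht'] at hpos
          simp at hpos
        · exact h1
      have hzH : z < H := by
        rcases eq_or_lt_of_le hz.2 with h1 | h1
        · rw [h1, h.zH t ht', div_self hH.ne', mul_one, sub_self] at hpos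
          exact absurd hpos (lt_irrefl _)
        · exact h1
      have hzi : z ∈ Ioo 0 H := ⟨hz0, hzH⟩
      have hlin : ∀ q : ℝ, HasDerivAt (fun q : ℝ => aa ε t * (q / H)) (aa ε t * (1 / H)) q :=
        fun q => ((hasDerivAt_id q).div_const H).const_mul (aa ε t)
      have m1 := second_max (f := fun q => aa ε t * (q / H) - G t q)
        (f' := fun q => aa ε t * (1 / H) - G1 t q) (f'' := - G2 t z) (p := z) (by
        filter_upwards [Ioo_mem_nhds hz0 hzH] with q hq
        exact hmax q ⟨hq.1.le, hq.2.le⟩) (by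
        filter_upwards [Ioo_mem_nhds hz0 hzH] with q hq
        exact (hlin q).sub (h.dz_bd ht' hq)) ((h.d2 t ht z hzi).const_sub _)
      have e1 : G1 t z = aa ε t * (1 / H) := by linarith [m1.1]
      refine ⟨_, ?_, (((aa_der_bd hε t).hasDerivWithinAt).mul_const (z / H)).sub
        (h.dt t ht z hzi)⟩
      have hI : 0 ≤ ∫ x in (0:ℝ)..z, G t x :=
        intervalIntegral.integral_nonneg hz0.le fun x hx => hnn t ht' x ⟨hx.1, hx.2.trans hzH.le⟩
      have hG0 := hnn t ht' z hz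
      have ha0 : 0 ≤ aa ε t := aa_nonneg_bd ht.1.le
      have hPP := PP_pos_bd hε t
      have hr1 : z / H < 1 := (div_lt_one hH).2 hzH
      have hr0 : 0 < z / H := div_pos hz0 hH
      set r := z / H with hr
      set A := aa ε t with hA
      have q1 : G t z ^ 2 ≤ A ^ 2 * r ^ 2 := by
        have : G t z ≤ A * r := by linarith
        calc G t z ^ 2 ≤ (A * r) ^ 2 := by gcongr
          _ = _ := by ring
      have q2 : 0 ≤ (∫ x in (0:ℝ)..z, G t x) * G1 t z := by
        rw [e1]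
        positivity
      have q3 := m1.2
      have q4 : A ^ 2 * r ^ 2 ≤ A ^ 2 * r := by
        have : r ^ 2 ≤ r := by nlinarith
        gcongr
      have q5 : PP ε t * r < PP ε t := by nlinarith
      nlinarith
  intro t ht z hz
  have := key t ht z hz
  linarith

/-! BA-5 -/
theorem BSol.star (h : BSol ε H b G G1 G2) (hH : 0 < H) (hε : 0 < ε) (hb : 0 ≤ b) :
    ∀ t ∈ Icc 0 b, ∀ z ∈ Icc 0 H, ∀ z' ∈ Icc z H, z * G t z' ≤ z' * G t z := by
  have hnn := h.nonneg hH hε hb
  have hlin := h.lin_bd hH hε hb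
  have hmono := h.mono hH hε hb
  set K : Set (ℝ × ℝ) := (Icc 0 H ×ˢ Icc 0 H) ∩ {p | p.1 ≤ p.2} with hKdef
  have hK : IsCompact K := (isCompact_Icc.prod isCompact_Icc).inter_right
    (isClosed_le continuous_fst continuous_snd)
  have key : ∀ t ∈ Icc 0 b, ∀ p ∈ K, p.1 * G t p.2 - p.2 * G t p.1 ≤ 0 := by
    refine maxp_bd (f := fun t (p : ℝ × ℝ) => p.1 * G t p.2 - p.2 * G t p.1) hK ?_ ?_ ?_
    · have c1 : ContinuousOn (fun q : ℝ × (ℝ × ℝ) => G q.1 q.2.1) (Icc 0 b ×ˢ K) :=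
        h.cG.comp (f := fun q : ℝ × (ℝ × ℝ) => (q.1, q.2.1)) (by fun_prop)
          (fun q hq => ⟨hq.1, hq.2.1.1⟩)
      have c2 : ContinuousOn (fun q : ℝ × (ℝ × ℝ) => G q.1 q.2.2) (Icc 0 b ×ˢ K) :=
        h.cG.comp (f := fun q : ℝ × (ℝ × ℝ) => (q.1, q.2.2)) (by fun_prop)
          (fun q hq => ⟨hq.1, hq.2.1.2⟩)
      have c3 : ContinuousOn (fun q : ℝ × (ℝ × ℝ) => q.2.1) (Icc 0 b ×ˢ K) := by fun_prop
      have c4 : ContinuousOn (fun q : ℝ × (ℝ × ℝ) => q.2.2) (Icc 0 b ×ˢ K) := by fun_prop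
      exact (c3.mul c2).sub (c4.mul c1)
    · intro p hp
      rw [h.init _ hp.1.1, h.init _ hp.1.2, mul_zero, mul_zero, sub_zero]
    · rintro t ht ⟨z, z'⟩ ⟨⟨hz, hz'⟩, hzz⟩ hpos hmax
      simp only at hz hz' hzz hpos hmax ⊢
      have ht' : t ∈ Icc 0 b := ⟨ht.1.le, ht.2⟩
      have hzz' : z < z' := by
        rcases eq_or_lt_of_le (show z ≤ z' from hzz) with h1 | h1
        · rw [h1, sub_self] at hpos
          exact absurd hpos (lt_irrefl _)
        · exact h1
      have hz0 : 0 < z := by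
        rcases eq_or_lt_of_le hz.1 with h1 | h1
        · rw [← h1, h.z0 t ht'] at hpos
          simp at hpos
        · exact h1
      have hz'H : z' < H := by
        rcases eq_or_lt_of_le hz'.2 with h1 | h1
        · rw [h1, h.zH t ht'] at hpos
          have h2 := hlin t ht' z hz
          have h3 : aa ε t * (z / H) * H = z * aa ε t := by
            field_simp
          nlinarith
        · exact h1
      have hzi : z ∈ Ioo 0 H := ⟨hz0, hzz'.trans hz'H⟩
      have hzi' : z' ∈ Ioo 0 H := ⟨hz0.trans hzz', hz'H⟩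
      have m1 := second_max (f := fun q => q * G t z' - z' * G t q)
        (f' := fun q => G t z' - z' * G1 t q) (f'' := - (z' * G2 t z)) (p := z) (by
        filter_upwards [Ioo_mem_nhds hz0 hzz'] with q hq
        exact hmax (q, z') ⟨⟨⟨hq.1.le, (hq.2.trans hz'H).le⟩, hz'⟩, hq.2.le⟩) (by
        filter_upwards [Ioo_mem_nhds hzi.1 hzi.2] with q hq
        have := ((hasDerivAt_id q).mul_const (G t z')).sub ((h.dz_bd ht' hq).const_mul z')
        refine this.congr_deriv ?_
        ring) (((h.d2 t ht z hzi).const_mul z').const_sub _)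
      have m2 := second_max (f := fun q => z * G t q - q * G t z)
        (f' := fun q => z * G1 t q - G t z) (f'' := z * G2 t z')
        (p := z') (by
        filter_upwards [Ioo_mem_nhds hzz' hz'H] with q hq
        exact hmax (z, q) ⟨⟨hz, ⟨(hz0.trans hq.1).le, hq.2.le⟩⟩, hq.1.le⟩) (by
        filter_upwards [Ioo_mem_nhds hzi'.1 hzi'.2] with q hq
        have := ((h.dz_bd ht' hq).const_mul z).sub ((hasDerivAt_id q).mul_const (G t z))
        refine this.congr_deriv ?_
        ring) (((h.d2 t ht z' hzi').const_mul z).sub_const _)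
      have e1 : z' * G1 t z = G t z' := by linarith [m1.1]
      have e2 : z * G1 t z' = G t z := by linarith [m2.1]
      refine ⟨_, ?_, ((h.dt t ht z' hzi').const_mul z).sub ((h.dt t ht z hzi).const_mul z')⟩
      have hI : 0 ≤ ∫ x in (0:ℝ)..z, G t x :=
        intervalIntegral.integral_nonneg hz0.le fun x hx =>
          hnn t ht' x ⟨hx.1, hx.2.trans hz.2⟩
      have hp0 := hnn t ht' z hz
      have hq0 := hnn t ht' z' hz'
      have hpq := hmono t ht' z hz z' ⟨hzz, hz'.2⟩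
      have hPP := PP_pos_bd hε t
      have hJ : (∫ x in (0:ℝ)..z', G t x) - (∫ x in (0:ℝ)..z, G t x) ≤ (z' - z) * G t z' := by
        rw [← intervalIntegral.integral_add_adjacent_intervals (h.ii_bd ht' le_rfl hz.1 hz.2)
          (h.ii_bd ht' hz.1 hzz hz'.2), add_sub_cancel_left]
        have : ∫ x in z..z', G t x ≤ ∫ x in z..z', G t z' := by
          refine intervalIntegral.integral_mono_on hzz (h.ii_bd ht' hz.1 hzz hz'.2)
            intervalIntegrable_const fun x hx => ?_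
          exact hmono t ht' x ⟨hz.1.trans hx.1, hx.2.trans hz'.2⟩ z' ⟨hx.2, hz'.2⟩
        rwa [intervalIntegral.integral_const, smul_eq_mul] at this
      set I := ∫ x in (0:ℝ)..z, G t x with hIdef
      set I' := ∫ x in (0:ℝ)..z', G t x with hI'def
      set p := G t z with hp
      set q := G t z' with hq
      have hqpos : 0 < q := by
        by_contra hcon
        push Not at hcon
        have : z * q ≤ 0 := by nlinarith
        have : 0 ≤ z' * p := by
          have := hzi'.1.le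
          positivity
        linarith
      have g1 : z' * G2 t z ≥ 0 := by linarith [m1.2]
      have g2 : z * G2 t z' ≤ 0 := m2.2
      have k1 : z * (I' * G1 t z') = I' * p := by rw [← e2]; ring
      have k2 : z' * (I * G1 t z) = I * q := by rw [← e1]; ring
      have k3 : I' * p - I * q ≤ (z' - z) * q * p := by
        have s1 : (I' - I) * p ≤ (z' - z) * q * p := mul_le_mul_of_nonneg_right hJ hp0
        have s2 : 0 ≤ I * (q - p) := mul_nonneg hI (by linarith)
        nlinarith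
      have k4 : (p + q) * (z' * p - z * q) < 0 :=
        mul_neg_of_pos_of_neg (by linarith) (by linarith)
      have k5 : 0 < PP ε t * (z' - z) := mul_pos hPP (by linarith)
      nlinarith
  intro t ht z hz z' hz'
  have := key t ht (z, z') ⟨⟨hz, ⟨hz.1.trans hz'.1, hz'.2⟩⟩, hz'.1⟩
  simp only at this
  linarith

end max

end Pool.Agent.Lib.MP_79abb3_an.P25
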