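import Pool.Agent.Lib.MP_79abb3_an.P25.EnDef

/-!
The base flow: `G_t = G_zz + (∫₀^z G) G_z - G² + P`, `G(t,0) = 0`, `G(t,H) = a(t)`.
-/

set_option autoImplicit false
set_option linter.unusedSectionVars false

open MeasureTheory Set Filter Topology Function

namespace Pool.Agent.Lib.MP_79abb3_an.P25

/-- A solution of the base equation on `[0,b] × [0,H]` with `G1 = G_z`, `G2 = G_zz`, starting from `0`. -/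
structure BSol (ε H b : ℝ) (G G1 G2 : ℝ → ℝ → ℝ) : Prop where
  cG : ContinuousOn (uncurry G) (Icc 0 b ×ˢ Icc 0 H)
  cG1 : ContinuousOn (uncurry G1) (Icc 0 b ×ˢ Icc 0 H)
  d1 : ∀ t ∈ Icc 0 b, ∀ z ∈ Icc 0 H, HasDerivWithinAt (G t) (G1 t z) (Icc 0 H) z
  d2 : ∀ t ∈ Ioc 0 b, ∀ z ∈ Ioo 0 H, HasDerivAt (G1 t) (G2 t z) z
  dt : ∀ t ∈ Ioc 0 b, ∀ z ∈ Ioo 0 H, HasDerivWithinAt (fun s => G s z)
    (G2 t z + (∫ x in (0:ℝ)..z, G t x) * G1 t z - G t z ^ 2 + PP ε t) (Iic t) t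
  init : ∀ z ∈ Icc 0 H, G 0 z = 0
  z0 : ∀ t ∈ Icc 0 b, G t 0 = 0
  zH : ∀ t ∈ Icc 0 b, G t H = aa ε t
  ti : ∀ y ∈ Icc 0 H, ∀ t1 ∈ Icc 0 b, ∀ t2 ∈ Icc t1 b,
    (∫ z in (0:ℝ)..y, G t2 z) - (∫ z in (0:ℝ)..y, G t1 z) = ∫ s in t1..t2,
      (G1 s y - G1 s 0 + (∫ z in (0:ℝ)..y, ((∫ x in (0:ℝ)..z, G s x) * G1 s z - G s z ^ 2)) + PP ε s * y)

end Pool.Agent.Lib.MP_79abb3_an.P25
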