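import Pool.Agent.Lib.MP_79abb3_an.P25.AbsB
import Pool.Agent.Lib.MP_79abb3_an.P25.AbsC
import Pool.Agent.Lib.MP_79abb3_an.P25.BaseDef
import Pool.Agent.Lib.MP_79abb3_an.P25.MildMode
import Pool.Agent.Lib.MP_79abb3_an.P25.Regu
import Pool.Agent.Lib.MP_79abb3_an.P25.TI

/-!
The base flow: one step.
-/

set_option autoImplicit false
set_option linter.unusedSectionVars false

open MeasureTheory Set Filter Topology Function

namespace Pool.Agent.Lib.MP_79abb3_an.P25

section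
variable {H : ℝ} [hH : Fact (0 < H)]

/-! ### The abstract setting -/

/-- The propagator with the derivative. -/
noncomputable def bsT (S D : ℝ → (CI H →L[ℂ] CI H)) (t : ℝ) : CI H →L[ℝ] CI H × CI H :=
  if 0 < t then ((S t).restrictScalars ℝ).prod ((D t).restrictScalars ℝ) else 0

theorem bsT_pos (S D : ℝ → (CI H →L[ℂ] CI H)) {t : ℝ} (ht : 0 < t) (f : CI H) :
    bsT S D t f = (S t f, D t f) := by
  rw [bsT, if_pos ht]; rfl

/-- The coordinate function. -/
noncomputable def bsz (H : ℝ) : CI H := mkCI (fun z => (z : ℂ)) (by fun_prop)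

theorem bs_ex_bsz {z : ℝ} (hz : z ∈ Icc (0:ℝ) H) : ex (bsz H) z = (z : ℂ) := ex_mkCI _ hz

theorem bs_norm_bsz_le : ‖bsz H‖ ≤ H :=
  ci_norm_le hH.out.le fun z hz => by
    rw [bs_ex_bsz hz, Complex.norm_real, Real.norm_eq_abs, abs_of_nonneg hz.1]
    exact hz.2

theorem bs_ex_one (z : ℝ) : ex (1 : CI H) z = 1 := rfl

/-- The bilinear term. -/
noncomputable def bsB (H : ℝ) [Fact (0 < H)] :
    (CI H × CI H) →L[ℝ] (CI H × CI H) →L[ℝ] CI H :=
  (ContinuousLinearMap.mul ℝ (CI H)).bilinearComp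
      (((Eop 0 : CI H →L[ℂ] CI H).restrictScalars ℝ).comp (ContinuousLinearMap.fst ℝ (CI H) (CI H)))
      (ContinuousLinearMap.snd ℝ (CI H) (CI H)) -
    (ContinuousLinearMap.mul ℝ (CI H)).bilinearComp (ContinuousLinearMap.fst ℝ (CI H) (CI H))
      (ContinuousLinearMap.fst ℝ (CI H) (CI H))

theorem bsB_apply (x y : CI H × CI H) : bsB H x y = Eop 0 x.1 * y.2 - x.1 * y.1 := rfl

/-- The linear term. -/
noncomputable def bsL (H : ℝ) [Fact (0 < H)] (a : ℝ) : (CI H × CI H) →L[ℝ] CI H :=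
  a • ((ContinuousLinearMap.mul ℝ (CI H) ((1 / (2 * H)) • (bsz H * bsz H))).comp
      (ContinuousLinearMap.snd ℝ (CI H) (CI H)) +
    (1 / H) • (((Eop 0 : CI H →L[ℂ] CI H).restrictScalars ℝ).comp
      (ContinuousLinearMap.fst ℝ (CI H) (CI H))) -
    (2 / H) • (ContinuousLinearMap.mul ℝ (CI H) (bsz H)).comp
      (ContinuousLinearMap.fst ℝ (CI H) (CI H)))

theorem bsL_apply (a : ℝ) (x : CI H × CI H) : bsL H a x =
    a • (((1 / (2 * H)) • (bsz H * bsz H)) * x.2 + (1 / H) • Eop 0 x.1 - (2 / H) • (bsz H * x.1)) :=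
  rfl

/-- The forcing. -/
noncomputable def bsF (H : ℝ) [Fact (0 < H)] (a P : ℝ) : CI H :=
  P • (1 : CI H) - ((P - a ^ 2) / H) • bsz H - (a ^ 2 / (2 * H ^ 2)) • (bsz H * bsz H)

theorem bs_SG {S D A : ℝ → (CI H →L[ℂ] CI H)} (hS : DirSG H S D A) :
    SG (ContinuousLinearMap.fst ℝ (CI H) (CI H)) (bsT S D) (H + 1) where
  one_le := by linarith [hH.out]
  jn x := norm_fst_le x
  b1 t ht y := by
    have h1 := one_le_inv_sqrt ht.1 ht.2
    have hH0 := hH.out
    have hy := norm_nonneg y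
    rw [bsT_pos S D ht.1]
    have h2 : 1 * (√t)⁻¹ * ‖y‖ ≤ (H + 1) * (√t)⁻¹ * ‖y‖ := by
      gcongr
      linarith
    refine le_trans ?_ h2
    rw [one_mul]
    refine max_le ((hS.S_norm t ht.1 y).trans ?_) (hS.D_norm t ht.1 y)
    exact le_mul_of_one_le_left hy h1
  b0 t ht y := by
    rw [bsT_pos S D ht.1]
    have hH0 := hH.out
    have hy := norm_nonneg y
    have h1 := hS.S_norm t ht.1 y
    have h2 : ‖(ContinuousLinearMap.fst ℝ (CI H) (CI H)) (S t y, D t y)‖ = ‖S t y‖ := rfl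
    rw [h2]
    nlinarith
  sg s t hs ht y := by
    rw [bsT_pos S D (by positivity), bsT_pos S D hs, bsT_pos S D ht, hS.S_sg s t hs ht,
      hS.D_sg s t hs ht]
    rfl
  cont y := by
    have h1 : ContinuousOn (fun t => (S t y, D t y)) (Ioi 0) :=
      ContinuousOn.prodMk (fun t ht => (hS.S_time t ht y).continuousAt.continuousWithinAt)
        (hS.D_cont y)
    exact h1.congr fun t ht => bsT_pos S D ht y

theorem bs_BilB : BilB (ContinuousLinearMap.fst ℝ (CI H) (CI H)) (bsB H) (H + 1) := by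
  intro x y
  rw [bsB_apply]
  have hH0 := hH.out
  have h1 : ‖Eop 0 x.1 * y.2‖ ≤ H * ‖x.1‖ * ‖y‖ := by
    refine (norm_mul_le _ _).trans ?_
    have := norm_Eop_le 0 x.1
    have := norm_snd_le y
    gcongr
  have h2 : ‖x.1 * y.1‖ ≤ ‖x.1‖ * ‖y‖ := by
    refine (norm_mul_le _ _).trans ?_
    have := norm_fst_le y
    gcongr
  have h3 : ‖(ContinuousLinearMap.fst ℝ (CI H) (CI H)) x‖ = ‖x.1‖ := rfl
  have h4 : 0 ≤ ‖x‖ * ‖(ContinuousLinearMap.fst ℝ (CI H) (CI H)) y‖ := by positivity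
  rw [h3]
  calc ‖Eop 0 x.1 * y.2 - x.1 * y.1‖ ≤ ‖Eop 0 x.1 * y.2‖ + ‖x.1 * y.1‖ := norm_sub_le _ _
    _ ≤ H * ‖x.1‖ * ‖y‖ + ‖x.1‖ * ‖y‖ := add_le_add h1 h2
    _ = (H + 1) * (‖x.1‖ * ‖y‖) := by ring
    _ ≤ _ := by
      have : 0 ≤ H + 1 := by linarith
      gcongr
      linarith

theorem bs_norm_bsL_le {a : ℝ} (x : CI H × CI H) : ‖bsL H a x‖ ≤ |a| * (H + 3) * ‖x‖ := by
  have hH0 := hH.out
  rw [bsL_apply, norm_smul, Real.norm_eq_abs, mul_assoc]
  have hb := bs_norm_bsz_le (H := H)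
  have hx1 := norm_fst_le x
  have hx2 := norm_snd_le x
  have hx := norm_nonneg x
  have h1 : ‖((1 / (2 * H)) • (bsz H * bsz H)) * x.2‖ ≤ H * ‖x‖ := by
    refine (norm_mul_le _ _).trans ?_
    rw [norm_smul, Real.norm_eq_abs, abs_of_pos (by positivity)]
    have h2 : ‖bsz H * bsz H‖ ≤ H * H := (norm_mul_le _ _).trans (by gcongr)
    calc 1 / (2 * H) * ‖bsz H * bsz H‖ * ‖x.2‖ ≤ 1 / (2 * H) * (H * H) * ‖x‖ := by gcongr
      _ = H / 2 * ‖x‖ := by field_simp
      _ ≤ H * ‖x‖ := by gcongr; linarith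
  have h2 : ‖(1 / H) • Eop 0 x.1‖ ≤ ‖x‖ := by
    rw [norm_smul, Real.norm_eq_abs, abs_of_pos (by positivity)]
    calc 1 / H * ‖Eop 0 x.1‖ ≤ 1 / H * (H * ‖x‖) := by
          have := norm_Eop_le 0 x.1
          gcongr
          exact this.trans (by gcongr)
      _ = ‖x‖ := by field_simp
  have h3 : ‖(2 / H) • (bsz H * x.1)‖ ≤ 2 * ‖x‖ := by
    rw [norm_smul, Real.norm_eq_abs, abs_of_pos (by positivity)]
    calc 2 / H * ‖bsz H * x.1‖ ≤ 2 / H * (H * ‖x‖) := by
          gcongr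
          exact (norm_mul_le _ _).trans (by gcongr)
      _ = 2 * ‖x‖ := by field_simp
  gcongr
  refine (norm_sub_le _ _).trans ?_
  have h4 := norm_add_le (((1 / (2 * H)) • (bsz H * bsz H)) * x.2) ((1 / H) • Eop 0 x.1)
  linarith

theorem bs_norm_bsF_le {a P A : ℝ} (ha : |a| ≤ A) (hP : |P| ≤ A ^ 2) : ‖bsF H a P‖ ≤ 4 * A ^ 2 := by
  have hH0 := hH.out
  have hb := bs_norm_bsz_le (H := H)
  have hA : 0 ≤ A := (abs_nonneg a).trans ha
  have ha2 : a ^ 2 ≤ A ^ 2 := by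
    rw [← sq_abs a]
    gcongr
  have h1 : ‖P • (1 : CI H)‖ ≤ A ^ 2 := by
    rw [norm_smul, Real.norm_eq_abs]
    have h2 : ‖(1 : CI H)‖ ≤ 1 := ci_norm_le zero_le_one fun z _ => by rw [bs_ex_one]; simp
    calc |P| * ‖(1 : CI H)‖ ≤ A ^ 2 * 1 := by gcongr
      _ = A ^ 2 := mul_one _
  have h2 : ‖((P - a ^ 2) / H) • bsz H‖ ≤ 2 * A ^ 2 := by
    rw [norm_smul, Real.norm_eq_abs, abs_div, abs_of_pos hH0]
    have h3 : |P - a ^ 2| ≤ 2 * A ^ 2 := by
      have h4 := abs_le.1 hP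
      rw [abs_le]
      constructor <;> nlinarith [sq_nonneg a]
    calc |P - a ^ 2| / H * ‖bsz H‖ ≤ 2 * A ^ 2 / H * H := by gcongr
      _ = 2 * A ^ 2 := by field_simp
  have h3 : ‖(a ^ 2 / (2 * H ^ 2)) • (bsz H * bsz H)‖ ≤ A ^ 2 := by
    rw [norm_smul, Real.norm_eq_abs, abs_of_nonneg (by positivity)]
    have h4 : ‖bsz H * bsz H‖ ≤ H * H := (norm_mul_le _ _).trans (by gcongr)
    calc a ^ 2 / (2 * H ^ 2) * ‖bsz H * bsz H‖ ≤ A ^ 2 / (2 * H ^ 2) * (H * H) := by gcongr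
      _ = A ^ 2 / 2 := by field_simp
      _ ≤ A ^ 2 := by nlinarith [sq_nonneg A]
  have h4 := norm_sub_le (P • (1 : CI H)) (((P - a ^ 2) / H) • bsz H)
  have h5 := norm_sub_le (P • (1 : CI H) - ((P - a ^ 2) / H) • bsz H)
    ((a ^ 2 / (2 * H ^ 2)) • (bsz H * bsz H))
  rw [bsF]
  linarith

/-! ### The coefficients -/

theorem bs_aa_abs_le {ε : ℝ} (hε : 0 < ε) (t : ℝ) : |aa ε t| ≤ 1 / ε := by
  have h0 : 0 < t ^ 2 + ε ^ 2 := by positivity
  rw [aa, abs_div, abs_of_pos h0, div_le_div_iff₀ h0 hε, one_mul, ← sq_abs t]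
  nlinarith [sq_nonneg (|t| - ε), abs_nonneg t, sq_nonneg (|t|)]

theorem bs_PP_abs_le {ε : ℝ} (hε : 0 < ε) (t : ℝ) : |PP ε t| ≤ (1 / ε) ^ 2 := by
  have h0 : 0 < t ^ 2 + ε ^ 2 := by positivity
  rw [PP, abs_of_nonneg (by positivity), div_pow, one_pow, div_le_div_iff₀ (by positivity)
    (by positivity), one_mul]
  have h1 : 0 ≤ t ^ 2 := sq_nonneg t
  have h2 : 0 < ε ^ 2 := by positivity
  nlinarith [mul_nonneg h1 h1, mul_nonneg h1 h2.le]

theorem bs_aa_hasDerivAt {ε : ℝ} (hε : 0 < ε) (t : ℝ) :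
    HasDerivAt (aa ε) (PP ε t - aa ε t ^ 2) t := by
  have h0 : t ^ 2 + ε ^ 2 ≠ 0 := by positivity
  have h1 : HasDerivAt (fun t : ℝ => t ^ 2 + ε ^ 2) (2 * t) t := by
    simpa using (hasDerivAt_pow 2 t).add_const (ε ^ 2)
  have h2 := (hasDerivAt_id t).div h1 h0
  refine h2.congr_deriv ?_
  rw [PP, aa]
  simp only [id]
  field_simp
  ring

theorem bs_continuous_aa {ε : ℝ} (hε : 0 < ε) : Continuous (aa ε) :=
  continuous_iff_continuousAt.2 fun t => (bs_aa_hasDerivAt hε t).continuousAt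

theorem bs_continuous_PP {ε : ℝ} (hε : 0 < ε) : Continuous (PP ε) := by
  unfold PP
  refine Continuous.div (by fun_prop) (by fun_prop) fun t => ?_
  positivity



/-! ### Stars -/

theorem bs_star_smul (c : ℝ) (f : CI H) : star (c • f) = c • star f :=
  ci_ext fun z _ => by
    rw [ex_star, ex_rsmul, ex_rsmul, ex_star, star_mul']
    simp

theorem bs_star_bsz : star (bsz H) = bsz H :=
  ci_ext fun z hz => by
    rw [ex_star, bs_ex_bsz hz]
    simp

theorem bsL_star (a : ℝ) (x : CI H × CI H) : bsL H a (star x) = star (bsL H a x) := by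
  rw [bsL_apply, bsL_apply, bs_star_smul, star_sub, star_add, star_mul', bs_star_smul, star_mul',
    bs_star_smul, bs_star_smul, star_mul', bs_star_bsz, Prod.fst_star, Prod.snd_star, Eop_star]

theorem bsB_star (x y : CI H × CI H) : bsB H (star x) (star y) = star (bsB H x y) := by
  rw [bsB_apply, bsB_apply, star_sub, star_mul', star_mul', Prod.fst_star, Prod.snd_star,
    Prod.fst_star, Eop_star]

theorem bsF_star (a P : ℝ) : star (bsF H a P) = bsF H a P := by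
  rw [bsF, star_sub, star_sub, bs_star_smul, bs_star_smul, bs_star_smul, star_mul', bs_star_bsz,
    star_one]

theorem bsT_star {S D A : ℝ → (CI H →L[ℂ] CI H)} (hS : DirSG H S D A) (t : ℝ) (f : CI H) :
    bsT S D t (star f) = star (bsT S D t f) := by
  by_cases ht : 0 < t
  · rw [bsT_pos S D ht, bsT_pos S D ht, hS.S_star t ht, hS.D_star t ht]
    rfl
  · rw [bsT, if_neg ht]
    simp

theorem bs_norm_star (x : CI H × CI H) : ‖star x‖ ≤ ‖x‖ := by
  have h1 : star x = (star x.1, star x.2) := rfl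
  rw [h1]
  refine max_le ?_ ?_
  · exact (norm_star x.1).le.trans (norm_fst_le x)
  · exact (norm_star x.2).le.trans (norm_snd_le x)

/-- The right hand side. -/
noncomputable def bsn (ε r : ℝ) (x : CI H × CI H) : CI H :=
  bsL H (aa ε r) x + bsB H x x + bsF H (aa ε r) (PP ε r)

theorem bs_Coef {ε : ℝ} (hε : 0 < ε) {s b : ℝ} (hb : b ≤ s + 1) :
    Coef (ContinuousLinearMap.fst ℝ (CI H) (CI H)) s b (1 / ε * (H + 3)) (4 * (1 / ε) ^ 2)
      (fun t => bsL H (aa ε t)) (fun t => bsF H (aa ε t) (PP ε t)) where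
  cΛ x := by
    refine Continuous.continuousOn ?_
    simp only [bsL_apply]
    exact (bs_continuous_aa hε).smul continuous_const
  cF := by
    refine Continuous.continuousOn ?_
    unfold bsF
    have h1 := bs_continuous_aa hε
    have h2 := bs_continuous_PP hε
    fun_prop
  bΛ t ht x := by
    have hH0 := hH.out
    have h1 := bs_norm_bsL_le (a := aa ε t) x
    have h2 := bs_aa_abs_le hε t
    have h3 : 0 ≤ (√(t - s))⁻¹ * ‖(ContinuousLinearMap.fst ℝ (CI H) (CI H)) x‖ := by positivity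
    calc ‖bsL H (aa ε t) x‖ ≤ |aa ε t| * (H + 3) * ‖x‖ := h1
      _ ≤ 1 / ε * (H + 3) * (‖x‖ + (√(t - s))⁻¹ * ‖(ContinuousLinearMap.fst ℝ (CI H) (CI H)) x‖) := by
        gcongr
        linarith
  bF t ht := by
    have h1 := bs_norm_bsF_le (H := H) (bs_aa_abs_le hε t) (bs_PP_abs_le hε t)
    have h2 := one_le_inv_sqrt (x := t - s) (by linarith [ht.1]) (by linarith [ht.2])
    refine h1.trans ?_
    have h3 : 0 ≤ 4 * (1 / ε) ^ 2 := by positivity
    nlinarith

theorem bs_star_integral (f : ℝ → CI H × CI H) (a b : ℝ) :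
    star (∫ r in a..b, f r) = ∫ r in a..b, star (f r) := by
  have h : ∀ μ : Measure ℝ, star (∫ r, f r ∂μ) = ∫ r, star (f r) ∂μ := fun μ =>
    ((starL' ℝ : (CI H × CI H) ≃L[ℝ] (CI H × CI H)).integral_comp_comm f).symm
  rw [intervalIntegral, intervalIntegral, star_sub, h, h]

theorem bs_Mild_star {S D A : ℝ → (CI H →L[ℂ] CI H)} (hS : DirSG H S D A) {ε s b : ℝ} {u0 : CI H}
    {u : ℝ → CI H × CI H}
    (h : Mild (ContinuousLinearMap.fst ℝ (CI H) (CI H)) (bsT S D) (bsB H)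
      (fun t => bsL H (aa ε t)) (fun t => bsF H (aa ε t) (PP ε t)) s b u0 u) :
    Mild (ContinuousLinearMap.fst ℝ (CI H) (CI H)) (bsT S D) (bsB H)
      (fun t => bsL H (aa ε t)) (fun t => bsF H (aa ε t) (PP ε t)) s b (star u0)
      (fun t => star (u t)) where
  cont := continuous_star.comp_continuousOn h.cont
  bd := by
    obtain ⟨R, hR⟩ := h.bd
    refine ⟨R, fun t ht => ?_⟩
    obtain ⟨h1, h2⟩ := hR t ht
    constructor
    · refine le_trans ?_ h1
      have := bs_norm_star (u t)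
      gcongr
    · refine le_trans (le_of_eq ?_) h2
      exact norm_star (u t).1
  eq t ht := by
    have h1 := congrArg star (h.eq t ht)
    rw [star_add] at h1
    show star (u t) = _
    rw [h1, bsT_star hS]
    congr 1
    rw [bs_star_integral]
    refine intervalIntegral.integral_congr fun r _ => ?_
    show star (bsT S D (t - r) _) = _
    rw [← bsT_star hS, star_add, star_add, bsL_star, bsB_star, bsF_star]


/-! ### Local solutions -/

/-- the linear constraints -/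
noncomputable def bsC (H : ℝ) [Fact (0 < H)] : (CI H × CI H) →L[ℝ] CI H × ℂ :=
  (ContinuousLinearMap.fst ℝ (CI H) (CI H) -
    ((Eop 0 : CI H →L[ℂ] CI H).restrictScalars ℝ).comp (ContinuousLinearMap.snd ℝ (CI H) (CI H))).prod
  ((evL H).comp (ContinuousLinearMap.fst ℝ (CI H) (CI H)))

theorem bsC_apply (x : CI H × CI H) : bsC H x = (x.1 - Eop 0 x.2, ex x.1 H) := rfl

theorem bsC_iff (x : CI H × CI H) :
    bsC H x = 0 ↔ (IsD x.1 x.2 ∧ ex x.1 0 = 0) ∧ ex x.1 H = 0 := by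
  rw [bsC_apply, isD_iff, Prod.mk_eq_zero, sub_eq_zero]

theorem bsC_bsT {S D A : ℝ → (CI H →L[ℂ] CI H)} (hS : DirSG H S D A) (t : ℝ) (f : CI H) :
    bsC H (bsT S D t f) = 0 := by
  by_cases ht : 0 < t
  · rw [bsT_pos S D ht, bsC_iff]
    exact ⟨⟨hS.S_der t ht f, hS.S_zero t ht f⟩, hS.S_H t ht f⟩
  · rw [bsT, if_neg ht]
    simp

theorem bs_ae (t : ℝ) : ∀ᵐ r : ℝ, r ≠ t := by
  have : (volume : Measure ℝ) {t} = 0 := Real.volume_singleton
  rw [ae_iff]
  simp

theorem bs_solve {S D A : ℝ → (CI H →L[ℂ] CI H)} (hS : DirSG H S D A) {ε : ℝ} (hε : 0 < ε) :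
    ∃ δ ∈ Ioc (0:ℝ) 1, ∀ (s : ℝ) (x0 : CI H × CI H), IsD x0.1 x0.2 → ex x0.1 0 = 0 →
      ex x0.1 H = 0 → star x0 = x0 → ‖x0.1‖ ≤ 2 / ε →
      ∃ v : ℝ → CI H × CI H, v s = x0 ∧ ContinuousOn v (Icc s (s + δ)) ∧
        (∀ t ∈ Icc s (s + δ), star (v t) = v t ∧ IsD (v t).1 (v t).2 ∧ ex (v t).1 0 = 0 ∧
          ex (v t).1 H = 0) ∧
        (∀ t ∈ Ioc s (s + δ), (v t).1 = S (t - s) x0.1 + ∫ r in s..t, S (t - r) (bsn ε r (v r))) ∧
        (∀ t ∈ Ioc s (s + δ), (v t).2 = D (t - s) x0.1 + ∫ r in s..t, D (t - r) (bsn ε r (v r))) := by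
  have hH0 := hH.out
  have hT := bs_SG hS
  obtain ⟨c, hc, K, hK, hLE⟩ := LE hT (bs_BilB (H := H))
  set M := 1 / ε * (H + 3) with hM
  set MF := 4 * (1 / ε) ^ 2 with hMF
  have hM0 : 0 ≤ M := by positivity
  have hMF0 : 0 ≤ MF := by positivity
  set Q := M + 2 / ε + MF with hQ
  have hQ0 : 0 < Q := by positivity
  refine ⟨min 1 ((c / Q) ^ 2), ⟨lt_min one_pos (by positivity), min_le_left _ _⟩, ?_⟩
  set δ := min 1 ((c / Q) ^ 2) with hδ
  have hδ0 : 0 < δ := lt_min one_pos (by positivity)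
  have hδ1 : δ ≤ 1 := min_le_left _ _
  intro s x0 hx1 hx2 hx3 hx4 hx5
  have hsb : s + δ ≤ s + 1 := by linarith
  have hss : s < s + δ := by linarith
  have hsq1 : √δ ≤ 1 := Real.sqrt_le_one.2 hδ1
  have hsq2 : √δ ≤ c / Q := by
    have h1 : √δ ≤ √((c / Q) ^ 2) := Real.sqrt_le_sqrt (min_le_right _ _)
    rwa [Real.sqrt_sq (by positivity)] at h1
  have hco := bs_Coef (H := H) hε hsb
  obtain ⟨u, hu, -⟩ := hLE s δ M MF x0.1 _ _ hδ0 hδ1 hM0 hMF0 hco (by
    calc √δ * (M + ‖x0.1‖ + √δ * MF) ≤ √δ * (M + 2 / ε + 1 * MF) := by gcongr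
      _ = √δ * Q := by rw [hQ, one_mul]
      _ ≤ c / Q * Q := by gcongr
      _ = c := by field_simp)
  -- regularity at the initial time
  have hcont : ∀ x : CI H × CI H, Continuous fun t => bsL H (aa ε t) x := by
    intro x
    simp only [bsL_apply]
    exact (bs_continuous_aa hε).smul continuous_const
  have hcontF : Continuous fun t => bsF H (aa ε t) (PP ε t) := by
    unfold bsF
    have h1 := bs_continuous_aa hε
    have h2 := bs_continuous_PP hε
    fun_prop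
  have hx : Tendsto (fun t => bsT S D t ((ContinuousLinearMap.fst ℝ (CI H) (CI H)) x0)) (𝓝[>] 0)
      (𝓝 x0) := by
    have h1 := (hS.S_init x0.1 hx2 hx3).prodMk_nhds (hS.D_init x0.1 x0.2 hx1 hx2 hx3).1
    refine h1.congr' ?_
    filter_upwards [self_mem_nhdsWithin] with t ht
    exact (bsT_pos S D ht _).symm
  obtain ⟨hreg, -⟩ := Mild.reg hT (bs_BilB (H := H)) hsb hss (M := M + MF) (by positivity)
    (Λ := fun t => bsL H (aa ε t)) (F := fun t => bsF H (aa ε t) (PP ε t))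
    (fun x => (hcont x).continuousOn) hcontF.continuousOn
    (fun t _ x => by
      refine (bs_norm_bsL_le x).trans ?_
      have h2 := bs_aa_abs_le hε t
      calc |aa ε t| * (H + 3) * ‖x‖ ≤ 1 / ε * (H + 3) * ‖x‖ := by gcongr
        _ ≤ (M + MF) * ‖x‖ := by gcongr; linarith)
    (fun t _ => (bs_norm_bsF_le (bs_aa_abs_le hε t) (bs_PP_abs_le hε t)).trans (by linarith))
    hx hu
  -- the source
  obtain ⟨hrc, R, hR0, hRb⟩ := Mild.rhs hT (bs_BilB (H := H)) hM0 hco hu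
  have hI := (duhamel hT hsb hR0 hrc hRb).1
  set v : ℝ → CI H × CI H := fun t => if t ≤ s then x0 else u t with hv
  have hvs : v s = x0 := if_pos le_rfl
  have hvu : ∀ t ∈ Ioc s (s + δ), v t = u t := fun t ht => if_neg (not_le.2 ht.1)
  have hvc : ContinuousOn v (Icc s (s + δ)) := by
    intro t ht
    rcases eq_or_lt_of_le ht.1 with h1 | h1
    · rw [← h1, ← Ioc_insert_left hss.le, continuousWithinAt_insert_self]
      have h2 : Tendsto u (𝓝[Ioc s (s + δ)] s) (𝓝 (v s)) := by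
        rw [hvs]
        exact hreg.mono_left (nhdsWithin_mono _ fun t ht => ht.1)
      refine h2.congr' ?_
      filter_upwards [self_mem_nhdsWithin] with r hr
      exact (hvu r hr).symm
    · have h2 : ContinuousWithinAt u (Ioc s (s + δ)) t := hu.cont t ⟨h1, ht.2⟩
      have h3 : ContinuousWithinAt v (Ioc s (s + δ)) t :=
        h2.congr (fun r hr => hvu r hr) (hvu t ⟨h1, ht.2⟩)
      refine h3.mono_of_mem_nhdsWithin ?_
      have h4 : Icc s (s + δ) ∩ Ioi s ∈ 𝓝[Icc s (s + δ)] t :=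
        inter_mem_nhdsWithin _ (Ioi_mem_nhds h1)
      refine mem_of_superset h4 fun r hr => ⟨hr.2, hr.1.2⟩
  have hn : ∀ t ∈ Ioc s (s + δ), ∀ᵐ r : ℝ, r ∈ uIoc s t → bsn ε r (v r) =
      bsL H (aa ε r) (u r) + bsB H (u r) (u r) + bsF H (aa ε r) (PP ε r) := by
    intro t ht
    refine Eventually.of_forall fun r hr => ?_
    rw [uIoc_of_le ht.1.le] at hr
    rw [hvu r ⟨hr.1, hr.2.trans ht.2⟩]
    rfl
  have heq : ∀ t ∈ Ioc s (s + δ), ∀ {E : Type} [NormedAddCommGroup E] [NormedSpace ℝ E]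
      [CompleteSpace E] (L : (CI H × CI H) →L[ℝ] E),
      L (u t) = L (bsT S D (t - s) x0.1) + ∫ r in s..t, L (bsT S D (t - r) (bsn ε r (v r))) := by
    intro t ht E _ _ _ L
    rw [hu.eq t ht, map_add]
    congr 1
    rw [← L.intervalIntegral_comp_comm (hI t ht)]
    refine intervalIntegral.integral_congr_ae ?_
    filter_upwards [hn t ht] with r h1 h2
    rw [h1 h2]
  refine ⟨v, hvs, hvc, ?_, ?_, ?_⟩
  · intro t ht
    rcases eq_or_lt_of_le ht.1 with h1 | h1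
    · rw [← h1, hvs]
      exact ⟨hx4, hx1, hx2, hx3⟩
    · have ht' : t ∈ Ioc s (s + δ) := ⟨h1, ht.2⟩
      rw [hvu t ht']
      refine ⟨?_, ?_⟩
      · have h2 := bs_Mild_star hS hu
        have h3 : star x0.1 = x0.1 := congrArg Prod.fst hx4
        rw [h3] at h2
        exact (Mild.unique hT (bs_BilB (H := H)) hsb hco h2 hu) t ht'
      · have h2 : bsC H (u t) = 0 := by
          rw [heq t ht' (bsC H), bsC_bsT hS, zero_add]
          simp only [bsC_bsT hS]
          simp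
        obtain ⟨⟨h3, h4⟩, h5⟩ := (bsC_iff _).1 h2
        exact ⟨h3, h4, h5⟩
  · intro t ht
    have h1 := heq t ht (ContinuousLinearMap.fst ℝ (CI H) (CI H))
    rw [bsT_pos S D (by linarith [ht.1])] at h1
    rw [hvu t ht]
    refine h1.trans ?_
    show S (t - s) x0.1 + _ = _
    congr 1
    refine intervalIntegral.integral_congr_ae ?_
    filter_upwards [bs_ae t] with r hr hrt
    rw [uIoc_of_le ht.1.le] at hrt
    rw [bsT_pos S D (by linarith [lt_of_le_of_ne hrt.2 hr])]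
    rfl
  · intro t ht
    have h1 := heq t ht (ContinuousLinearMap.snd ℝ (CI H) (CI H))
    rw [bsT_pos S D (by linarith [ht.1])] at h1
    rw [hvu t ht]
    refine h1.trans ?_
    show D (t - s) x0.1 + _ = _
    congr 1
    refine intervalIntegral.integral_congr_ae ?_
    filter_upwards [bs_ae t] with r hr hrt
    rw [uIoc_of_le ht.1.le] at hrt
    rw [bsT_pos S D (by linarith [lt_of_le_of_ne hrt.2 hr])]
    rfl


/-! ### Hölder continuity -/

/-- Bounded and Hölder continuous with exponent `1/4` on `[s,b]`. -/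
def BsHol {E : Type} [NormedAddCommGroup E] (s b : ℝ) (g : ℝ → E) : Prop :=
  ∃ C, 0 ≤ C ∧ (∀ t ∈ Icc s b, ‖g t‖ ≤ C) ∧
    ∀ t ∈ Icc s b, ∀ t' ∈ Icc s b, ‖g t - g t'‖ ≤ C * √(√|t - t'|)

section BsHol
variable {E F G : Type} [NormedAddCommGroup E] [NormedSpace ℝ E] [NormedAddCommGroup F]
  [NormedSpace ℝ F] [NormedAddCommGroup G] [NormedSpace ℝ G] {s b : ℝ}

theorem BsHol.add {g g' : ℝ → E} (h : BsHol s b g) (h' : BsHol s b g') : BsHol s b (fun t => g t + g' t) := by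
  obtain ⟨C, hC, h1, h2⟩ := h
  obtain ⟨C', hC', h1', h2'⟩ := h'
  refine ⟨C + C', by positivity, fun t ht => (norm_add_le _ _).trans (add_le_add (h1 t ht) (h1' t ht)),
    fun t ht t' ht' => ?_⟩
  have h3 : g t + g' t - (g t' + g' t') = (g t - g t') + (g' t - g' t') := by abel
  rw [h3, add_mul]
  exact (norm_add_le _ _).trans (add_le_add (h2 t ht t' ht') (h2' t ht t' ht'))

theorem BsHol.clm {g : ℝ → E} (h : BsHol s b g) (L : E →L[ℝ] F) : BsHol s b (fun t => L (g t)) := by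
  obtain ⟨C, hC, h1, h2⟩ := h
  refine ⟨‖L‖ * C, by positivity, fun t ht => (L.le_opNorm _).trans (by have := h1 t ht; gcongr),
    fun t ht t' ht' => ?_⟩
  rw [← map_sub, mul_assoc]
  exact (L.le_opNorm _).trans (by have := h2 t ht t' ht'; gcongr)

theorem BsHol.neg {g : ℝ → E} (h : BsHol s b g) : BsHol s b (fun t => -g t) := by
  obtain ⟨C, hC, h1, h2⟩ := h
  refine ⟨C, hC, fun t ht => by rw [norm_neg]; exact h1 t ht, fun t ht t' ht' => ?_⟩
  have h3 : -g t - -g t' = -(g t - g t') := by abel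
  rw [h3, norm_neg]
  exact h2 t ht t' ht'

theorem BsHol.sub {g g' : ℝ → E} (h : BsHol s b g) (h' : BsHol s b g') : BsHol s b (fun t => g t - g' t) := by
  have := h.add h'.neg
  simpa only [← sub_eq_add_neg] using this

theorem BsHol.bil {g : ℝ → E} {g' : ℝ → F} (h : BsHol s b g) (h' : BsHol s b g')
    (L : E →L[ℝ] F →L[ℝ] G) : BsHol s b (fun t => L (g t) (g' t)) := by
  obtain ⟨C, hC, h1, h2⟩ := h
  obtain ⟨C', hC', h1', h2'⟩ := h'
  have hL := norm_nonneg L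
  refine ⟨2 * (‖L‖ * C * C'), by positivity, fun t ht => ?_, fun t ht t' ht' => ?_⟩
  · have h3 := L.le_opNorm₂ (g t) (g' t)
    have h4 : ‖L‖ * ‖g t‖ * ‖g' t‖ ≤ ‖L‖ * C * C' := by
      have := h1 t ht
      have := h1' t ht
      gcongr
    have h5 : 0 ≤ ‖L‖ * C * C' := by positivity
    linarith
  · have h3 : L (g t) (g' t) - L (g t') (g' t') = L (g t - g t') (g' t) + L (g t') (g' t - g' t') := by
      rw [map_sub, map_sub, sub_apply]
      abel
    rw [h3]
    have h4 := L.le_opNorm₂ (g t - g t') (g' t)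
    have h5 := L.le_opNorm₂ (g t') (g' t - g' t')
    have h6 : ‖L‖ * ‖g t - g t'‖ * ‖g' t‖ ≤ ‖L‖ * (C * √(√|t - t'|)) * C' := by
      have := h2 t ht t' ht'
      have := h1' t ht
      gcongr
    have h7 : ‖L‖ * ‖g t'‖ * ‖g' t - g' t'‖ ≤ ‖L‖ * C * (C' * √(√|t - t'|)) := by
      have := h2' t ht t' ht'
      have := h1 t' ht'
      gcongr
    have h8 := norm_add_le (L (g t - g t') (g' t)) (L (g t') (g' t - g' t'))
    nlinarith

theorem BsHol.const (c : E) : BsHol s b (fun _ => c) :=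
  ⟨‖c‖, norm_nonneg _, fun _ _ => le_rfl, fun t _ t' _ => by
    rw [sub_self, norm_zero]
    positivity⟩

theorem bs_le_sqrt_sqrt {x : ℝ} (h0 : 0 ≤ x) (h1 : x ≤ 1) : x ≤ √(√x) := by
  have h2 : x ≤ √x := Real.le_sqrt_of_sq_le (by nlinarith)
  exact h2.trans (Real.sqrt_le_sqrt h2)

theorem bs_abs_sub_le_of_mem {s b t t' : ℝ} (ht : t ∈ Icc s b) (ht' : t' ∈ Icc s b) :
    |t - t'| ≤ b - s := by
  rw [abs_le]
  constructor <;> linarith [ht.1, ht.2, ht'.1, ht'.2]

theorem BsHol.id (hb : b ≤ s + 1) : BsHol s b (fun t => t) := by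
  refine ⟨1 + |s| + |b|, by positivity, fun t ht => ?_, fun t ht t' ht' => ?_⟩
  · rw [Real.norm_eq_abs, abs_le]
    constructor <;> linarith [ht.1, ht.2, neg_abs_le s, le_abs_self b, abs_nonneg s, abs_nonneg b]
  · rw [Real.norm_eq_abs]
    have h1 := bs_le_sqrt_sqrt (abs_nonneg (t - t')) ((bs_abs_sub_le_of_mem ht ht').trans (by linarith))
    have h2 : 0 ≤ √(√|t - t'|) := by positivity
    have h3 : 0 ≤ (|s| + |b|) * √(√|t - t'|) := by positivity
    linarith

theorem BsHol.mul {g g' : ℝ → ℝ} (h : BsHol s b g) (h' : BsHol s b g') : BsHol s b (fun t => g t * g' t) :=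
  h.bil h' (ContinuousLinearMap.mul ℝ ℝ)

theorem BsHol.smul {g : ℝ → ℝ} {g' : ℝ → E} (h : BsHol s b g) (h' : BsHol s b g') :
    BsHol s b (fun t => g t • g' t) :=
  h.bil h' (ContinuousLinearMap.lsmul ℝ ℝ)

theorem BsHol.dd {ε : ℝ} (hε : 0 < ε) (hb : b ≤ s + 1) : BsHol s b (fun t => (t ^ 2 + ε ^ 2)⁻¹) := by
  obtain ⟨C, hC, h1, h2⟩ := (BsHol.id hb).mul (BsHol.id hb)
  have hε2 : 0 < ε ^ 2 := by positivity
  have h3 : ∀ t : ℝ, (t ^ 2 + ε ^ 2)⁻¹ ≤ (ε ^ 2)⁻¹ := fun t => by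
    gcongr
    nlinarith [sq_nonneg t]
  refine ⟨(ε ^ 2)⁻¹ + (ε ^ 2)⁻¹ * (ε ^ 2)⁻¹ * C, by positivity, fun t ht => ?_,
    fun t ht t' ht' => ?_⟩
  · rw [Real.norm_eq_abs, abs_of_pos (by positivity)]
    have : 0 ≤ (ε ^ 2)⁻¹ * (ε ^ 2)⁻¹ * C := by positivity
    linarith [h3 t]
  · have h4 : (t ^ 2 + ε ^ 2)⁻¹ - (t' ^ 2 + ε ^ 2)⁻¹ =
        -((t ^ 2 + ε ^ 2)⁻¹ * (t' ^ 2 + ε ^ 2)⁻¹ * (t * t - t' * t')) := by
      field_simp
      ring
    rw [h4, norm_neg, norm_mul, norm_mul, Real.norm_eq_abs, Real.norm_eq_abs,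
      abs_of_pos (by positivity : 0 < (t ^ 2 + ε ^ 2)⁻¹),
      abs_of_pos (by positivity : 0 < (t' ^ 2 + ε ^ 2)⁻¹)]
    have h5 := h2 t ht t' ht'
    have h6 : (t ^ 2 + ε ^ 2)⁻¹ * (t' ^ 2 + ε ^ 2)⁻¹ * ‖t * t - t' * t'‖ ≤
        (ε ^ 2)⁻¹ * (ε ^ 2)⁻¹ * (C * √(√|t - t'|)) := by
      have := h3 t
      have := h3 t'
      gcongr
    have h7 : 0 ≤ (ε ^ 2)⁻¹ * √(√|t - t'|) := by positivity
    nlinarith

theorem BsHol.aa {ε : ℝ} (hε : 0 < ε) (hb : b ≤ s + 1) : BsHol s b (aa ε) :=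
  (BsHol.id hb).mul (BsHol.dd hε hb)

theorem BsHol.PP {ε : ℝ} (hε : 0 < ε) (hb : b ≤ s + 1) : BsHol s b (PP ε) := by
  have h1 := (BsHol.const (s := s) (b := b) (ε ^ 2)).mul ((BsHol.dd hε hb).mul (BsHol.dd hε hb))
  convert h1 using 2 with t
  rw [P25.PP, div_eq_mul_inv, sq (t ^ 2 + ε ^ 2), mul_inv]

end BsHol

theorem bsn_hol {ε : ℝ} (hε : 0 < ε) {s b : ℝ} (hb : b ≤ s + 1) {v : ℝ → CI H × CI H}
    (h1 : BsHol s b (fun t => (v t).1)) (h2 : BsHol s b (fun t => (v t).2)) :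
    BsHol s b (fun t => bsn ε t (v t)) := by
  have ha := BsHol.aa hε hb
  have hP := BsHol.PP hε hb
  have hE : BsHol s b (fun t => Eop 0 (v t).1) :=
    h1.clm ((Eop 0 : CI H →L[ℂ] CI H).restrictScalars ℝ)
  have hL : BsHol s b (fun t => bsL H (aa ε t) (v t)) :=
    ha.smul (((h2.clm (ContinuousLinearMap.mul ℝ (CI H) ((1 / (2 * H)) • (bsz H * bsz H)))).add
      ((BsHol.const (1 / H)).smul hE)).sub
      ((BsHol.const (2 / H)).smul (h1.clm (ContinuousLinearMap.mul ℝ (CI H) (bsz H)))))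
  have hB : BsHol s b (fun t => bsB H (v t) (v t)) :=
    (hE.bil h2 (ContinuousLinearMap.mul ℝ (CI H))).sub
      (h1.bil h1 (ContinuousLinearMap.mul ℝ (CI H)))
  have hF : BsHol s b (fun t => bsF H (aa ε t) (PP ε t)) := by
    have h3 := ((hP.smul (BsHol.const (1 : CI H))).sub
      (((hP.sub (ha.mul ha)).mul (BsHol.const (1 / H))).smul (BsHol.const (bsz H)))).sub
      (((ha.mul ha).mul (BsHol.const (1 / (2 * H ^ 2)))).smul (BsHol.const (bsz H * bsz H)))
    convert h3 using 2 with t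
    rw [bsF]
    congr 2
    · congr 2
      ring
    · ring
  exact (hL.add hB).add hF


/-! ### Continuity of the integrated right hand side -/

theorem bs_cont_int {ε : ℝ} (hε : 0 < ε) {a b : ℝ} (hab : a ≤ b) {G G1 : ℝ → ℝ → ℝ}
    (hG : ContinuousOn (uncurry G) (Icc a b ×ˢ Icc 0 H))
    (hG1 : ContinuousOn (uncurry G1) (Icc a b ×ˢ Icc 0 H)) {y : ℝ} (hy : y ∈ Icc (0:ℝ) H) :
    ContinuousOn (fun s => G1 s y - G1 s 0 + (∫ z in (0:ℝ)..y, ((∫ x in (0:ℝ)..z, G s x) * G1 s z -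
      G s z ^ 2)) + PP ε s * y) (Icc a b) := by
  have hH0 := hH.out
  have hext : ∀ F : ℝ → ℝ → ℝ, ContinuousOn (uncurry F) (Icc a b ×ˢ Icc 0 H) →
      ∃ F' : ℝ → ℝ → ℝ, Continuous (uncurry F') ∧
        ∀ t ∈ Icc a b, ∀ z ∈ Icc (0:ℝ) H, F' t z = F t z := by
    intro F hF
    refine ⟨fun t z => F (projIcc a b hab t) (projIcc 0 H hH0.le z), ?_, ?_⟩
    · refine hF.comp_continuous (f := fun p : ℝ × ℝ =>
        (((projIcc a b hab p.1 : Icc a b) : ℝ), ((projIcc 0 H hH0.le p.2 : Icc (0:ℝ) H) : ℝ))) ?_ ?_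
      · exact (continuous_subtype_val.comp (continuous_projIcc.comp continuous_fst)).prodMk
          (continuous_subtype_val.comp (continuous_projIcc.comp continuous_snd))
      · intro p
        exact ⟨Subtype.coe_prop _, Subtype.coe_prop _⟩
    · intro t ht z hz
      simp only [projIcc_of_mem _ ht, projIcc_of_mem _ hz]
  obtain ⟨F, hF, hFe⟩ := hext G hG
  obtain ⟨F1, hF1, hF1e⟩ := hext G1 hG1
  have h1 : Continuous fun p : ℝ × ℝ => ∫ x in (0:ℝ)..p.2, F p.1 x := by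
    refine intervalIntegral.continuous_parametric_intervalIntegral_of_continuous ?_ continuous_snd
    exact hF.comp (by fun_prop : Continuous fun q : (ℝ × ℝ) × ℝ => (q.1.1, q.2))
  have h2 : Continuous fun s : ℝ => ∫ z in (0:ℝ)..y, ((∫ x in (0:ℝ)..z, F s x) * F1 s z -
      F s z ^ 2) := by
    refine intervalIntegral.continuous_parametric_intervalIntegral_of_continuous' ?_ 0 y
    exact (h1.mul hF1).sub (hF.pow 2)
  have h3 : Continuous fun s : ℝ => F1 s y - F1 s 0 + (∫ z in (0:ℝ)..y,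
      ((∫ x in (0:ℝ)..z, F s x) * F1 s z - F s z ^ 2)) + PP ε s * y := by
    have h4 : Continuous fun s : ℝ => F1 s y :=
      hF1.comp (by fun_prop : Continuous fun s : ℝ => (s, y))
    have h5 : Continuous fun s : ℝ => F1 s 0 :=
      hF1.comp (by fun_prop : Continuous fun s : ℝ => (s, (0:ℝ)))
    have h6 := bs_continuous_PP hε
    fun_prop
  refine h3.continuousOn.congr fun s hs => ?_
  have h00 : (0:ℝ) ∈ Icc (0:ℝ) H := ⟨le_rfl, hH0.le⟩
  have h7 : ∫ z in (0:ℝ)..y, ((∫ x in (0:ℝ)..z, G s x) * G1 s z - G s z ^ 2) =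
      ∫ z in (0:ℝ)..y, ((∫ x in (0:ℝ)..z, F s x) * F1 s z - F s z ^ 2) := by
    refine intervalIntegral.integral_congr fun z hz => ?_
    rw [uIcc_of_le hy.1] at hz
    have hz' : z ∈ Icc (0:ℝ) H := ⟨hz.1, hz.2.trans hy.2⟩
    have h8 : ∫ x in (0:ℝ)..z, G s x = ∫ x in (0:ℝ)..z, F s x := by
      refine intervalIntegral.integral_congr fun x hx => ?_
      rw [uIcc_of_le hz.1] at hx
      exact (hFe s hs x ⟨hx.1, hx.2.trans hz'.2⟩).symm
    rw [h8, hFe s hs z hz', hF1e s hs z hz']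
  rw [h7, ← hF1e s hs y hy, ← hF1e s hs 0 h00]

/-! ### The lift -/

/-- the new profile -/
noncomputable def bsG (H ε : ℝ) [Fact (0 < H)] (v : ℝ → CI H × CI H) (t z : ℝ) : ℝ :=
  aa ε t * z / H + (ex (v t).1 z).re

/-- its derivative -/
noncomputable def bsG1 (H ε : ℝ) [Fact (0 < H)] (v : ℝ → CI H × CI H) (t z : ℝ) : ℝ :=
  aa ε t / H + (ex (v t).2 z).re

theorem bs_ex_of_star {f : CI H} (h : star f = f) (z : ℝ) : ex f z = ((ex f z).re : ℂ) := by
  have h1 : star (ex f z) = ex f z := by rw [← ex_star, h]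
  exact (Complex.conj_eq_iff_re.1 h1).symm

theorem bs_Eop0_apply (f : CI H) {z : ℝ} (hz : z ∈ Icc (0:ℝ) H) : ex (Eop 0 f) z = prim f z := by
  rw [Eop_apply 0 f hz, prim]
  refine intervalIntegral.integral_congr fun x _ => ?_
  simp

theorem bs_prim_of_star {f : CI H} (h : star f = f) (z : ℝ) :
    prim f z = ((∫ x in (0:ℝ)..z, (ex f x).re : ℝ) : ℂ) := by
  rw [prim, ← intervalIntegral.integral_ofReal]
  exact intervalIntegral.integral_congr fun x _ => bs_ex_of_star h x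

theorem bs_continuous_re_ex (f : CI H) : Continuous fun x => (ex f x).re :=
  Complex.continuous_re.comp (continuous_ex f)

theorem integral_bsG {ε : ℝ} (v : ℝ → CI H × CI H) (t z : ℝ) :
    ∫ x in (0:ℝ)..z, bsG H ε v t x = aa ε t * z ^ 2 / (2 * H) + ∫ x in (0:ℝ)..z, (ex (v t).1 x).re := by
  have hH0 := hH.out
  have h1 : ∫ x in (0:ℝ)..z, bsG H ε v t x =
      (∫ x in (0:ℝ)..z, aa ε t * x / H) + ∫ x in (0:ℝ)..z, (ex (v t).1 x).re := by
    rw [← intervalIntegral.integral_add]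
    · rfl
    · exact (by fun_prop : Continuous fun x : ℝ => aa ε t * x / H).intervalIntegrable _ _
    · exact (bs_continuous_re_ex _).intervalIntegrable _ _
  rw [h1]
  congr 1
  have h2 : ∀ x : ℝ, aa ε t * x / H = aa ε t / H * x := fun x => by ring
  simp only [h2]
  rw [intervalIntegral.integral_const_mul, integral_id]
  ring

/-- The equation for the lift. -/
theorem bs_identity {ε : ℝ} {v : ℝ → CI H × CI H} {t : ℝ} (hv : star (v t) = v t) {z : ℝ}
    (hz : z ∈ Icc (0:ℝ) H) :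
    (∫ x in (0:ℝ)..z, bsG H ε v t x) * bsG1 H ε v t z - bsG H ε v t z ^ 2 + PP ε t =
      (ex (bsn ε t (v t)) z).re + (PP ε t - aa ε t ^ 2) * z / H := by
  have hH0 := hH.out
  have h1 : star (v t).1 = (v t).1 := congrArg Prod.fst hv
  have h2 : star (v t).2 = (v t).2 := congrArg Prod.snd hv
  obtain ⟨p, e1⟩ : ∃ p : ℝ, ex (v t).1 z = (p : ℂ) := ⟨_, bs_ex_of_star h1 z⟩
  obtain ⟨p1, e2⟩ : ∃ p : ℝ, ex (v t).2 z = (p : ℂ) := ⟨_, bs_ex_of_star h2 z⟩
  have e3 := bs_prim_of_star h1 z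
  have h3 : ex (bsn ε t (v t)) z = ((aa ε t * (1 / (2 * H) * (z * z) * (ex (v t).2 z).re +
      1 / H * (∫ x in (0:ℝ)..z, (ex (v t).1 x).re) - 2 / H * (z * (ex (v t).1 z).re)) +
      ((∫ x in (0:ℝ)..z, (ex (v t).1 x).re) * (ex (v t).2 z).re -
        (ex (v t).1 z).re * (ex (v t).1 z).re) +
      (PP ε t * 1 - (PP ε t - aa ε t ^ 2) / H * z - aa ε t ^ 2 / (2 * H ^ 2) * (z * z)) : ℝ) : ℂ) := by
    rw [bsn, ex_add, ex_add, bsL_apply, bsB_apply, bsF]
    simp only [ex_rsmul, ex_add, ex_sub, ex_mul, bs_ex_bsz hz, bs_ex_one, bs_Eop0_apply _ hz]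
    rw [e3, e1, e2, Complex.ofReal_re, Complex.ofReal_re]
    push_cast
    ring
  rw [h3, Complex.ofReal_re, integral_bsG, bsG, bsG1]
  field_simp
  ring

theorem bs_hasDerivWithinAt_re {f : ℝ → ℂ} {f' : ℂ} {s : Set ℝ} {z : ℝ} (h : HasDerivWithinAt f f' s z) :
    HasDerivWithinAt (fun x => (f x).re) f'.re s z :=
  Complex.reCLM.hasFDerivAt.comp_hasDerivWithinAt z h

theorem bs_hasDerivAt_re {f : ℝ → ℂ} {f' : ℂ} {z : ℝ} (h : HasDerivAt f f' z) :
    HasDerivAt (fun x => (f x).re) f'.re z :=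
  Complex.reCLM.hasFDerivAt.comp_hasDerivAt z h

theorem bsG_der {ε : ℝ} {v : ℝ → CI H × CI H} {t : ℝ} (hv : IsD (v t).1 (v t).2) {z : ℝ}
    (hz : z ∈ Icc (0:ℝ) H) : HasDerivWithinAt (bsG H ε v t) (bsG1 H ε v t z) (Icc 0 H) z := by
  have h1 := bs_hasDerivWithinAt_re (hv z hz)
  have h2 : HasDerivWithinAt (fun x : ℝ => aa ε t * x / H) (aa ε t / H) (Icc 0 H) z := by
    have := (((hasDerivAt_id z).const_mul (aa ε t)).div_const H).hasDerivWithinAt (s := Icc 0 H)
    simpa using this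
  exact h2.add h1

theorem bs_Sk_zero (S : ℝ → (CI H →L[ℂ] CI H)) (t : ℝ) (f : CI H) : Sk S 0 t f = S t f := by
  simp [Sk]

/-- The integrated equation, including the initial time. -/
theorem bs_ti {S D A : ℝ → (CI H →L[ℂ] CI H)} (hS : DirSG H S D A) {s b : ℝ} (hb : b ≤ s + 1)
    {f0 : CI H} {n : ℝ → CI H} {v : ℝ → CI H × CI H} (hn : ContinuousOn n (Icc s b))
    (hvc : ContinuousOn v (Icc s b))
    (hf : ∀ t ∈ Ioc s b, (v t).1 = S (t - s) f0 + ∫ r in s..t, S (t - r) (n r))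
    (hf1 : ∀ t ∈ Ioc s b, (v t).2 = D (t - s) f0 + ∫ r in s..t, D (t - r) (n r)) :
    ∀ t1 ∈ Icc s b, ∀ t2 ∈ Icc t1 b, ∀ y ∈ Icc (0:ℝ) H,
      prim (v t2).1 y - prim (v t1).1 y =
        ∫ r in t1..t2, (ex (v r).2 y - ex (v r).2 0 + prim (n r) y) := by
  intro t1 ht1 t2 ht2 y hy
  obtain ⟨R, hR⟩ := isCompact_Icc.exists_bound_of_continuousOn hn
  have hR' : ∀ t ∈ Ioc s b, ‖n t‖ ≤ R * (√(t - s))⁻¹ := by
    intro t ht
    have h1 := hR t ⟨ht.1.le, ht.2⟩
    have h2 := one_le_inv_sqrt (x := t - s) (by linarith [ht.1]) (by linarith [ht.2])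
    have h3 : 0 ≤ R := (norm_nonneg _).trans h1
    nlinarith
  have hti := ti_mode hS (k := 0) (hn.mono Ioc_subset_Icc_self) hR'
    (f := fun t => (v t).1) (f1 := fun t => (v t).2) (f0 := f0)
    (fun t ht => by simp only [bs_Sk_zero]; exact hf t ht)
    (fun t ht => by simp only [bs_Sk_zero]; exact hf1 t ht)
  have hpos : ∀ t1 ∈ Ioc s b, ∀ t2 ∈ Icc t1 b, prim (v t2).1 y - prim (v t1).1 y =
        ∫ r in t1..t2, (ex (v r).2 y - ex (v r).2 0 + prim (n r) y) := by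
    intro t1 ht1 t2 ht2
    rw [hti t1 ht1 t2 ht2 y hy]
    refine intervalIntegral.integral_congr fun r _ => ?_
    simp [rh]
  rcases eq_or_lt_of_le ht1.1 with h1 | h1
  swap
  · exact hpos t1 ⟨h1, ht1.2⟩ t2 ht2
  rcases eq_or_lt_of_le ht2.1 with h2 | h2
  · rw [← h2, sub_self, intervalIntegral.integral_same]
  subst h1
  have hcont : ContinuousOn (fun r => ex (v r).2 y - ex (v r).2 0 + prim (n r) y) (Icc s b) := by
    have h3 : ContinuousOn (fun r => prim (n r) y) (Icc s b) := by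
      have h4 : ContinuousOn (fun r => evL y (Eop 0 (n r))) (Icc s b) :=
        ((evL y).continuous.comp (Eop (H := H) 0).continuous).comp_continuousOn hn
      exact h4.congr fun r _ => (bs_Eop0_apply (n r) hy).symm
    have h5 : ∀ x : ℝ, ContinuousOn (fun r => ex (v r).2 x) (Icc s b) := fun x =>
      ((evL x).continuous.comp continuous_snd).comp_continuousOn hvc
    exact ((h5 y).sub (h5 0)).add h3
  have hcP : ContinuousOn (fun t => prim (v t).1 y) (Icc s b) := by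
    have h4 : ContinuousOn (fun r => evL y (Eop 0 (v r).1)) (Icc s b) :=
      (((evL y).continuous.comp (Eop (H := H) 0).continuous).comp continuous_fst).comp_continuousOn hvc
    exact h4.congr fun r _ => (bs_Eop0_apply (v r).1 hy).symm
  have hsub : Icc s t2 ⊆ Icc s b := Icc_subset_Icc_right ht2.2
  have hint : IntervalIntegrable (fun r => ex (v r).2 y - ex (v r).2 0 + prim (n r) y) volume s t2 :=
    (hcont.mono hsub).intervalIntegrable_of_Icc ht2.1
  have hprim : ContinuousOn (fun t => ∫ r in t2..t, (ex (v r).2 y - ex (v r).2 0 + prim (n r) y))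
      (Icc s t2) := by
    have := intervalIntegral.continuousOn_primitive_interval' hint (right_mem_uIcc)
    rwa [uIcc_of_le ht2.1] at this
  have heq : EqOn (fun t => prim (v t2).1 y - prim (v t).1 y)
      (fun t => -∫ r in t2..t, (ex (v r).2 y - ex (v r).2 0 + prim (n r) y)) (Icc s t2) := by
    refine Set.EqOn.of_subset_closure (s := Ioc s t2) ?_ ?_ hprim.neg Ioc_subset_Icc_self ?_
    · intro t ht
      simp only
      rw [hpos t ⟨ht.1, ht.2.trans ht2.2⟩ t2 ⟨ht.2, ht2.2⟩, intervalIntegral.integral_symm]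
    · exact continuousOn_const.sub (hcP.mono hsub)
    · rw [closure_Ioc h2.ne]
  have h6 := heq ⟨le_rfl, ht2.1⟩
  simp only at h6
  rw [h6, intervalIntegral.integral_symm, neg_neg]


/-! ### One step -/

/-- the initial values of the perturbation -/
theorem bs_init {ε b : ℝ} {G G1 G2 : ℝ → ℝ → ℝ} (hε : 0 < ε) (hb : 0 ≤ b)
    (h : BSol ε H b G G1 G2) (hG : ∀ z ∈ Icc 0 H, |G b z| ≤ 1 / ε) :
    ∃ x0 : CI H × CI H, (∀ z ∈ Icc (0:ℝ) H, ex x0.1 z = ((G b z - aa ε b * z / H : ℝ) : ℂ)) ∧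
      (∀ z ∈ Icc (0:ℝ) H, ex x0.2 z = ((G1 b z - aa ε b / H : ℝ) : ℂ)) ∧ IsD x0.1 x0.2 ∧
      ex x0.1 0 = 0 ∧ ex x0.1 H = 0 ∧ star x0 = x0 ∧ ‖x0.1‖ ≤ 2 / ε := by
  have hH0 := hH.out
  have hbm : b ∈ Icc (0:ℝ) b := ⟨hb, le_rfl⟩
  have h00 : (0:ℝ) ∈ Icc (0:ℝ) H := ⟨le_rfl, hH0.le⟩
  have hHH : H ∈ Icc (0:ℝ) H := ⟨hH0.le, le_rfl⟩
  have hsec : ∀ F : ℝ → ℝ → ℝ, ContinuousOn (uncurry F) (Icc 0 b ×ˢ Icc 0 H) →
      ContinuousOn (F b) (Icc 0 H) := by
    intro F hF
    exact hF.comp (f := fun z : ℝ => (b, z)) (by fun_prop) fun z hz => ⟨hbm, hz⟩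
  have hc : ContinuousOn (fun z : ℝ => ((G b z - aa ε b * z / H : ℝ) : ℂ)) (Icc 0 H) :=
    Complex.continuous_ofReal.comp_continuousOn ((hsec G h.cG).sub (by fun_prop))
  have hc1 : ContinuousOn (fun z : ℝ => ((G1 b z - aa ε b / H : ℝ) : ℂ)) (Icc 0 H) :=
    Complex.continuous_ofReal.comp_continuousOn ((hsec G1 h.cG1).sub (by fun_prop))
  have e0 : ∀ z ∈ Icc (0:ℝ) H, ex (mkCI _ hc) z = ((G b z - aa ε b * z / H : ℝ) : ℂ) :=
    fun z hz => ex_mkCI hc hz
  have e1 : ∀ z ∈ Icc (0:ℝ) H, ex (mkCI _ hc1) z = ((G1 b z - aa ε b / H : ℝ) : ℂ) :=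
    fun z hz => ex_mkCI hc1 hz
  refine ⟨(mkCI _ hc, mkCI _ hc1), e0, e1, ?_, ?_, ?_, ?_, ?_⟩
  · intro z hz
    have h1 := (h.d1 b hbm z hz).sub
      (((hasDerivAt_id z).const_mul (aa ε b)).div_const H).hasDerivWithinAt
    have h2 : HasDerivWithinAt (fun x : ℝ => ((G b x - aa ε b * x / H : ℝ) : ℂ))
        ((G1 b z - aa ε b / H : ℝ) : ℂ) (Icc 0 H) z := by
      have h3 := h1.ofReal_comp
      simpa using h3
    rw [e1 z hz]
    exact h2.congr (fun x hx => e0 x hx) (e0 z hz)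
  · show ex (mkCI _ hc) 0 = 0
    rw [e0 0 h00, h.z0 b hbm]
    simp
  · show ex (mkCI _ hc) H = 0
    rw [e0 H hHH, h.zH b hbm]
    have : aa ε b - aa ε b * H / H = 0 := by field_simp; ring
    rw [this]
    simp
  · refine Prod.ext ?_ ?_
    · refine ci_ext fun z hz => ?_
      show ex (star (mkCI _ hc)) z = ex (mkCI _ hc) z
      rw [ex_star, e0 z hz]
      exact Complex.conj_ofReal _
    · refine ci_ext fun z hz => ?_
      show ex (star (mkCI _ hc1)) z = ex (mkCI _ hc1) z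
      rw [ex_star, e1 z hz]
      exact Complex.conj_ofReal _
  · refine ci_norm_le (by positivity) fun z hz => ?_
    show ‖ex (mkCI _ hc) z‖ ≤ 2 / ε
    rw [e0 z hz, Complex.norm_real, Real.norm_eq_abs]
    have h1 := hG z hz
    have h2 := bs_aa_abs_le hε b
    have h3 : |aa ε b * z / H| ≤ 1 / ε := by
      rw [abs_div, abs_mul, abs_of_pos hH0, abs_of_nonneg hz.1, div_le_iff₀ hH0]
      have := hz.1
      have := hz.2
      gcongr
    have h4 : (2:ℝ) / ε = 1 / ε + 1 / ε := by ring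
    rw [h4]
    exact (abs_sub _ _).trans (add_le_add h1 h3)

theorem base_step {ε H : ℝ} [Fact (0 < H)] (hε : 0 < ε)
    (hdir : ∃ S D A : ℝ → (CI H →L[ℂ] CI H), DirSG H S D A) :
    ∃ δ > 0, ∀ (b : ℝ) (G G1 G2 : ℝ → ℝ → ℝ), 0 ≤ b → b ≤ 1 → BSol ε H b G G1 G2 →
      (∀ z ∈ Icc 0 H, |G b z| ≤ 1 / ε) → ∃ G' G1' G2', BSol ε H (b + δ) G' G1' G2' := by
  have hH0 : 0 < H := Fact.out
  obtain ⟨S, D, A, hS⟩ := hdir
  obtain ⟨δ, ⟨hδ0, hδ1⟩, hsol⟩ := bs_solve hS hε
  refine ⟨δ, hδ0, ?_⟩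
  intro b G G1 G2 hb0 _ hB hG
  obtain ⟨x0, hx0, hx1, hx2, hx3, hx4, hx5, hx6⟩ := bs_init hε hb0 hB hG
  obtain ⟨v, hvb, hvc, hvp, hv1, hv2⟩ := hsol b x0 hx2 hx3 hx4 hx5 hx6
  have hbb : b < b + δ := by linarith
  have hbb1 : b + δ ≤ b + 1 := by linarith
  have hbm : b ∈ Icc b (b + δ) := ⟨le_rfl, hbb.le⟩
  have h00 : (0:ℝ) ∈ Icc (0:ℝ) H := ⟨le_rfl, hH0.le⟩
  have hHH : H ∈ Icc (0:ℝ) H := ⟨hH0.le, le_rfl⟩
  -- the source
  have hnc : ContinuousOn (fun r => bsn ε r (v r)) (Icc b (b + δ)) := by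
    have h1 : Continuous fun q : ℝ × (CI H × CI H) => bsn ε q.1 q.2 := by
      unfold bsn bsF
      simp only [bsL_apply, bsB_apply]
      have h2 := bs_continuous_aa hε
      have h3 := bs_continuous_PP hε
      have h4 := (Eop (H := H) 0).continuous
      fun_prop
    exact h1.comp_continuousOn (f := fun r => (r, v r)) (continuousOn_id.prodMk hvc)
  -- Hölder continuity
  have hhol : ∀ s' ∈ Ioc b (b + δ), ∃ C, ∀ t ∈ Icc s' (b + δ), ∀ t' ∈ Icc s' (b + δ),
      ‖bsn ε t (v t) - bsn ε t' (v t')‖ ≤ C * √(√|t - t'|) := by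
    intro s' hs'
    obtain ⟨C, hC⟩ := holder hS (f := fun t => (v t).1) (f1 := fun t => (v t).2) hnc hv1 hv2 s' hs'
    have hsub : Icc s' (b + δ) ⊆ Icc b (b + δ) := Icc_subset_Icc_left hs'.1.le
    obtain ⟨R, hR⟩ := isCompact_Icc.exists_bound_of_continuousOn (hvc.mono hsub)
    have hH1 : ∀ L : (CI H × CI H) →L[ℝ] CI H, (∀ x, ‖L x‖ ≤ ‖x‖) →
        (∀ t ∈ Icc s' (b + δ), ∀ t' ∈ Icc s' (b + δ), ‖L (v t) - L (v t')‖ ≤ C * √(√|t - t'|)) →
        BsHol s' (b + δ) (fun t => L (v t)) := by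
      intro L hL hL2
      refine ⟨max C 0 + max R 0, by positivity, fun t ht => ?_, fun t ht t' ht' => ?_⟩
      · exact ((hL _).trans (hR t ht)).trans (by
          have := le_max_left R 0
          have := le_max_right C 0
          linarith)
      · refine (hL2 t ht t' ht').trans ?_
        have h1 := le_max_left C 0
        have h2 := le_max_right R 0
        gcongr
        linarith
    have h1 := hH1 (ContinuousLinearMap.fst ℝ (CI H) (CI H)) norm_fst_le
      (fun t ht t' ht' => (hC t ht t' ht').1)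
    have h2 := hH1 (ContinuousLinearMap.snd ℝ (CI H) (CI H)) norm_snd_le
      (fun t ht t' ht' => (hC t ht t' ht').2)
    obtain ⟨C', -, -, hC'⟩ := bsn_hol hε (by linarith [hs'.1]) h1 h2
    exact ⟨C', hC'⟩
  obtain ⟨f2, hf2c, hf2d, hf2t⟩ := regularity hS (R := 0) (f := fun t => (v t).1)
    (f1 := fun t => (v t).2) hnc hv1 hv2 hhol
  -- the new solution
  have hgc : ContinuousOn (uncurry (bsG H ε v)) (Icc b (b + δ) ×ˢ Icc 0 H) := by
    have h1 : ContinuousOn (fun p : ℝ × ℝ => ex ((v p.1).1) p.2) (Icc b (b + δ) ×ˢ univ) :=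
      continuousOn_ex (f := fun t => (v t).1) (continuous_fst.comp_continuousOn hvc)
    have h2 : ContinuousOn (fun p : ℝ × ℝ => (ex ((v p.1).1) p.2).re) (Icc b (b + δ) ×ˢ Icc 0 H) :=
      Complex.continuous_re.comp_continuousOn (h1.mono (prod_mono_right (subset_univ _)))
    have h3 : Continuous fun p : ℝ × ℝ => aa ε p.1 * p.2 / H := by
      have := bs_continuous_aa hε
      fun_prop
    exact h3.continuousOn.add h2
  have hg1c : ContinuousOn (uncurry (bsG1 H ε v)) (Icc b (b + δ) ×ˢ Icc 0 H) := by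
    have h1 : ContinuousOn (fun p : ℝ × ℝ => ex ((v p.1).2) p.2) (Icc b (b + δ) ×ˢ univ) :=
      continuousOn_ex (f := fun t => (v t).2) (continuous_snd.comp_continuousOn hvc)
    have h2 : ContinuousOn (fun p : ℝ × ℝ => (ex ((v p.1).2) p.2).re) (Icc b (b + δ) ×ˢ Icc 0 H) :=
      Complex.continuous_re.comp_continuousOn (h1.mono (prod_mono_right (subset_univ _)))
    have h3 : Continuous fun p : ℝ × ℝ => aa ε p.1 / H := by
      have := bs_continuous_aa hε
      fun_prop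
    exact h3.continuousOn.add h2
  have hgb : ∀ z ∈ Icc (0:ℝ) H, bsG H ε v b z = G b z := by
    intro z hz
    rw [bsG, hvb, hx0 z hz, Complex.ofReal_re]
    ring
  have hg1b : ∀ z ∈ Icc (0:ℝ) H, bsG1 H ε v b z = G1 b z := by
    intro z hz
    rw [bsG1, hvb, hx1 z hz, Complex.ofReal_re]
    ring
  set G' : ℝ → ℝ → ℝ := fun t z => if t ≤ b then G t z else bsG H ε v t z with hG'
  set G1' : ℝ → ℝ → ℝ := fun t z => if t ≤ b then G1 t z else bsG1 H ε v t z with hG1'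
  set G2' : ℝ → ℝ → ℝ := fun t z => if t ≤ b then G2 t z else (f2 t z).re with hG2'
  have o0 : ∀ t ≤ b, G' t = G t := fun t ht => funext fun z => if_pos ht
  have o1 : ∀ t ≤ b, G1' t = G1 t := fun t ht => funext fun z => if_pos ht
  have o2 : ∀ t ≤ b, G2' t = G2 t := fun t ht => funext fun z => if_pos ht
  have m0 : ∀ t, b < t → G' t = bsG H ε v t := fun t ht => funext fun z => if_neg (not_le.2 ht)
  have m1 : ∀ t, b < t → G1' t = bsG1 H ε v t := fun t ht => funext fun z => if_neg (not_le.2 ht)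
  have m2 : ∀ t, b < t → G2' t = fun z => (f2 t z).re :=
    fun t ht => funext fun z => if_neg (not_le.2 ht)
  have n0 : ∀ t, b ≤ t → ∀ z ∈ Icc (0:ℝ) H, G' t z = bsG H ε v t z := by
    intro t ht z hz
    rcases eq_or_lt_of_le ht with h1 | h1
    · rw [← h1, o0 b le_rfl, hgb z hz]
    · rw [m0 t h1]
  have n1 : ∀ t, b ≤ t → ∀ z ∈ Icc (0:ℝ) H, G1' t z = bsG1 H ε v t z := by
    intro t ht z hz
    rcases eq_or_lt_of_le ht with h1 | h1
    · rw [← h1, o1 b le_rfl, hg1b z hz]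
    · rw [m1 t h1]
  have hunion : Icc 0 (b + δ) ×ˢ Icc (0:ℝ) H =
      (Icc 0 b ×ˢ Icc 0 H) ∪ (Icc b (b + δ) ×ˢ Icc 0 H) := by
    rw [← union_prod, Icc_union_Icc_eq_Icc hb0 hbb.le]
  have cG' : ContinuousOn (uncurry G') (Icc 0 (b + δ) ×ˢ Icc 0 H) := by
    rw [hunion]
    refine ContinuousOn.union_of_isClosed ?_ ?_ (isClosed_Icc.prod isClosed_Icc)
      (isClosed_Icc.prod isClosed_Icc)
    · exact hB.cG.congr fun p hp => congrFun (o0 p.1 hp.1.2) p.2
    · exact hgc.congr fun p hp => n0 p.1 hp.1.1 p.2 hp.2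
  have cG1' : ContinuousOn (uncurry G1') (Icc 0 (b + δ) ×ˢ Icc 0 H) := by
    rw [hunion]
    refine ContinuousOn.union_of_isClosed ?_ ?_ (isClosed_Icc.prod isClosed_Icc)
      (isClosed_Icc.prod isClosed_Icc)
    · exact hB.cG1.congr fun p hp => congrFun (o1 p.1 hp.1.2) p.2
    · exact hg1c.congr fun p hp => n1 p.1 hp.1.1 p.2 hp.2
  refine ⟨G', G1', G2', cG', cG1', ?_, ?_, ?_, ?_, ?_, ?_, ?_⟩
  · -- d1
    intro t ht z hz
    rcases le_or_gt t b with h1 | h1
    · rw [o0 t h1, o1 t h1]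
      exact hB.d1 t ⟨ht.1, h1⟩ z hz
    · rw [m0 t h1, m1 t h1]
      exact bsG_der (hvp t ⟨h1.le, ht.2⟩).2.1 hz
  · -- d2
    intro t ht z hz
    rcases le_or_gt t b with h1 | h1
    · rw [o1 t h1, o2 t h1]
      exact hB.d2 t ⟨ht.1, h1⟩ z hz
    · rw [m1 t h1, m2 t h1]
      exact (bs_hasDerivAt_re (hf2d t ⟨h1, ht.2⟩ z hz)).const_add _
  · -- dt
    intro t ht z hz
    rcases le_or_gt t b with h1 | h1
    · rw [o0 t h1, o1 t h1, o2 t h1]
      refine (hB.dt t ⟨ht.1, h1⟩ z hz).congr (fun s hs => ?_) ?_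
      · rw [o0 s (le_trans hs h1)]
      · rw [o0 t h1]
    · have htm : t ∈ Icc b (b + δ) := ⟨h1.le, ht.2⟩
      have hzm : z ∈ Icc (0:ℝ) H := Ioo_subset_Icc_self hz
      rw [m0 t h1, m1 t h1, m2 t h1]
      have h2 : HasDerivWithinAt (fun s => bsG H ε v s z)
          ((PP ε t - aa ε t ^ 2) * z / H + (f2 t z + ex (bsn ε t (v t)) z).re) (Iic t) t := by
        have h3 := bs_hasDerivWithinAt_re (hf2t t ⟨h1, ht.2⟩ z hz)
        have h4 : HasDerivWithinAt (fun s => aa ε s * z / H) ((PP ε t - aa ε t ^ 2) * z / H)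
            (Iic t) t := (((bs_aa_hasDerivAt hε t).mul_const z).div_const H).hasDerivWithinAt
        exact h4.add h3
      have h5 := bs_identity (ε := ε) (hvp t htm).1 hzm
      have h6 : (f2 t z).re + (∫ x in (0:ℝ)..z, bsG H ε v t x) * bsG1 H ε v t z -
          bsG H ε v t z ^ 2 + PP ε t =
          (PP ε t - aa ε t ^ 2) * z / H + (f2 t z + ex (bsn ε t (v t)) z).re := by
        rw [Complex.add_re]
        linarith
      rw [h6]
      refine h2.congr_of_eventuallyEq ?_ ?_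
      · have h7 : Ioi b ∈ 𝓝[Iic t] t := mem_nhdsWithin_of_mem_nhds (Ioi_mem_nhds h1)
        filter_upwards [h7] with s hs
        rw [m0 s hs]
      · rw [m0 t h1]
  · -- init
    intro z hz
    rw [o0 0 hb0]
    exact hB.init z hz
  · -- z0
    intro t ht
    rcases le_or_gt t b with h1 | h1
    · rw [o0 t h1]
      exact hB.z0 t ⟨ht.1, h1⟩
    · rw [m0 t h1, bsG, (hvp t ⟨h1.le, ht.2⟩).2.2.1]
      simp
  · -- zH
    intro t ht
    rcases le_or_gt t b with h1 | h1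
    · rw [o0 t h1]
      exact hB.zH t ⟨ht.1, h1⟩
    · rw [m0 t h1, bsG, (hvp t ⟨h1.le, ht.2⟩).2.2.2]
      simp only [Complex.zero_re, add_zero]
      field_simp
  · -- ti
    intro y hy
    set I : ℝ → ℝ := fun s => G1' s y - G1' s 0 + (∫ z in (0:ℝ)..y, ((∫ x in (0:ℝ)..z, G' s x) *
      G1' s z - G' s z ^ 2)) + PP ε s * y with hI
    have hIc : ContinuousOn I (Icc 0 (b + δ)) := bs_cont_int hε (by linarith) cG' cG1' hy
    -- old part
    have hold : ∀ t1 ∈ Icc 0 b, ∀ t2 ∈ Icc t1 b,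
        (∫ z in (0:ℝ)..y, G' t2 z) - (∫ z in (0:ℝ)..y, G' t1 z) = ∫ s in t1..t2, I s := by
      intro t1 ht1 t2 ht2
      rw [o0 t2 ht2.2, o0 t1 ht1.2, hB.ti y hy t1 ht1 t2 ht2]
      refine intervalIntegral.integral_congr fun s hs => ?_
      rw [uIcc_of_le ht2.1] at hs
      simp only [hI]
      rw [o0 s (hs.2.trans ht2.2), o1 s (hs.2.trans ht2.2)]
    -- new part
    have hnew : ∀ t1 ∈ Icc b (b + δ), ∀ t2 ∈ Icc t1 (b + δ),
        (∫ z in (0:ℝ)..y, G' t2 z) - (∫ z in (0:ℝ)..y, G' t1 z) = ∫ s in t1..t2, I s := by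
      intro t1 ht1 t2 ht2
      have hint : ∀ t ∈ Icc b (b + δ), ∀ z ∈ Icc (0:ℝ) H, ∫ x in (0:ℝ)..z, G' t x =
          aa ε t * z ^ 2 / (2 * H) + (prim (v t).1 z).re := by
        intro t ht z hz
        have h1 : ∫ x in (0:ℝ)..z, G' t x = ∫ x in (0:ℝ)..z, bsG H ε v t x := by
          refine intervalIntegral.integral_congr fun x hx => ?_
          rw [uIcc_of_le hz.1] at hx
          exact n0 t ht.1 x ⟨hx.1, hx.2.trans hz.2⟩
        have h2 : star (v t).1 = (v t).1 := congrArg Prod.fst (hvp t ht).1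
        rw [h1, integral_bsG, bs_prim_of_star h2, Complex.ofReal_re]
      have ht2' : t2 ∈ Icc b (b + δ) := ⟨ht1.1.trans ht2.1, ht2.2⟩
      rw [hint t2 ht2' y hy, hint t1 ht1 y hy]
      have h1 := bs_ti hS hbb1 hnc hvc hv1 hv2 t1 ht1 t2 ht2 y hy
      -- the perturbation part
      set h : ℝ → ℂ := fun r => ex (v r).2 y - ex (v r).2 0 + prim (bsn ε r (v r)) y with hh
      have hsub : Icc t1 t2 ⊆ Icc b (b + δ) := Icc_subset_Icc ht1.1 ht2.2
      have hhc : ContinuousOn h (Icc t1 t2) := by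
        have h3 : ContinuousOn (fun r => prim (bsn ε r (v r)) y) (Icc b (b + δ)) := by
          have h4 : ContinuousOn (fun r => evL y (Eop 0 (bsn ε r (v r)))) (Icc b (b + δ)) :=
            ((evL y).continuous.comp (Eop (H := H) 0).continuous).comp_continuousOn hnc
          exact h4.congr fun r _ => (bs_Eop0_apply _ hy).symm
        have h5 : ∀ x : ℝ, ContinuousOn (fun r => ex (v r).2 x) (Icc b (b + δ)) := fun x =>
          ((evL x).continuous.comp continuous_snd).comp_continuousOn hvc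
        exact (((h5 y).sub (h5 0)).add h3).mono hsub
      have hhi : IntervalIntegrable h volume t1 t2 := hhc.intervalIntegrable_of_Icc ht2.1
      have h2 : (prim (v t2).1 y).re - (prim (v t1).1 y).re = ∫ r in t1..t2, (h r).re := by
        have h3 := Complex.reCLM.intervalIntegral_comp_comm hhi
        simp only [Complex.reCLM_apply] at h3
        rw [h3, ← h1, Complex.sub_re]
      -- the linear part
      have h4 : aa ε t2 * y ^ 2 / (2 * H) - aa ε t1 * y ^ 2 / (2 * H) =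
          ∫ r in t1..t2, (PP ε r - aa ε r ^ 2) * y ^ 2 / (2 * H) := by
        have hc : Continuous fun r => (PP ε r - aa ε r ^ 2) * y ^ 2 / (2 * H) := by
          have := bs_continuous_aa hε
          have := bs_continuous_PP hε
          fun_prop
        rw [intervalIntegral.integral_eq_sub_of_hasDerivAt
          (f := fun r => aa ε r * y ^ 2 / (2 * H)) (fun r _ =>
            ((bs_aa_hasDerivAt hε r).mul_const (y ^ 2)).div_const (2 * H)) (hc.intervalIntegrable _ _)]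
      have h5 : IntervalIntegrable (fun r => (h r).re) volume t1 t2 :=
        (Complex.continuous_re.comp_continuousOn hhc).intervalIntegrable_of_Icc ht2.1
      have h6 : IntervalIntegrable (fun r => (PP ε r - aa ε r ^ 2) * y ^ 2 / (2 * H)) volume t1 t2 := by
        have hc : Continuous fun r => (PP ε r - aa ε r ^ 2) * y ^ 2 / (2 * H) := by
          have := bs_continuous_aa hε
          have := bs_continuous_PP hε
          fun_prop
        exact hc.intervalIntegrable _ _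
      have h7 : aa ε t2 * y ^ 2 / (2 * H) + (prim (v t2).1 y).re -
          (aa ε t1 * y ^ 2 / (2 * H) + (prim (v t1).1 y).re) =
          ∫ r in t1..t2, ((PP ε r - aa ε r ^ 2) * y ^ 2 / (2 * H) + (h r).re) := by
        rw [intervalIntegral.integral_add h6 h5, ← h4, ← h2]
        ring
      rw [h7]
      refine intervalIntegral.integral_congr fun r hr => ?_
      rw [uIcc_of_le ht2.1] at hr
      have hrm := hsub hr
      have hr' : r ∈ Icc b (b + δ) := hrm
      simp only [hI, hh]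
      rw [n1 r hrm.1 y hy, n1 r hrm.1 0 h00]
      have h8 : ∫ z in (0:ℝ)..y, ((∫ x in (0:ℝ)..z, G' r x) * G1' r z - G' r z ^ 2) =
          ∫ z in (0:ℝ)..y, ((ex (bsn ε r (v r)) z).re +
            ((PP ε r - aa ε r ^ 2) * z / H - PP ε r)) := by
        refine intervalIntegral.integral_congr fun z hz => ?_
        rw [uIcc_of_le hy.1] at hz
        have hz' : z ∈ Icc (0:ℝ) H := ⟨hz.1, hz.2.trans hy.2⟩
        have h9 : ∫ x in (0:ℝ)..z, G' r x = ∫ x in (0:ℝ)..z, bsG H ε v r x := by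
          refine intervalIntegral.integral_congr fun x hx => ?_
          rw [uIcc_of_le hz.1] at hx
          exact n0 r hrm.1 x ⟨hx.1, hx.2.trans hz'.2⟩
        have h10 := bs_identity (ε := ε) (hvp r hr').1 hz'
        rw [h9, n0 r hrm.1 z hz', n1 r hrm.1 z hz']
        linarith
      have h11 : ∫ z in (0:ℝ)..y, ((ex (bsn ε r (v r)) z).re +
            ((PP ε r - aa ε r ^ 2) * z / H - PP ε r)) =
          (prim (bsn ε r (v r)) y).re + ((PP ε r - aa ε r ^ 2) * y ^ 2 / (2 * H) - PP ε r * y) := by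
        rw [intervalIntegral.integral_add ((bs_continuous_re_ex _).intervalIntegrable _ _)
          ((by fun_prop : Continuous fun z : ℝ =>
            (PP ε r - aa ε r ^ 2) * z / H - PP ε r).intervalIntegrable _ _)]
        congr 1
        · have h12 := Complex.reCLM.intervalIntegral_comp_comm
            ((continuous_ex (bsn ε r (v r))).intervalIntegrable (μ := volume) 0 y)
          simp only [Complex.reCLM_apply] at h12
          rw [h12, prim]
        · have h13 : ∀ z : ℝ, (PP ε r - aa ε r ^ 2) * z / H - PP ε r =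
              (PP ε r - aa ε r ^ 2) / H * z - PP ε r := fun z => by ring
          simp only [h13]
          rw [intervalIntegral.integral_sub ((by fun_prop : Continuous fun z : ℝ =>
            (PP ε r - aa ε r ^ 2) / H * z).intervalIntegrable _ _)
            (by simp), intervalIntegral.integral_const_mul, integral_id,
            intervalIntegral.integral_const]
          simp only [smul_eq_mul]
          ring
      rw [h8, h11, bsG1, bsG1, Complex.add_re, Complex.sub_re]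
      ring
    -- both parts
    intro t1 ht1 t2 ht2
    rcases le_or_gt t2 b with h1 | h1
    · exact hold t1 ⟨ht1.1, ht2.1.trans h1⟩ t2 ⟨ht2.1, h1⟩
    rcases le_or_gt b t1 with h2 | h2
    · exact hnew t1 ⟨h2, ht1.2⟩ t2 ht2
    have h3 := hold t1 ⟨ht1.1, h2.le⟩ b ⟨h2.le, le_rfl⟩
    have h4 := hnew b hbm t2 ⟨h1.le, ht2.2⟩
    have h5 : IntervalIntegrable I volume t1 b :=
      (hIc.mono (Icc_subset_Icc ht1.1 hbb.le)).intervalIntegrable_of_Icc h2.le
    have h6 : IntervalIntegrable I volume b t2 :=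
      (hIc.mono (Icc_subset_Icc hb0 ht2.2)).intervalIntegrable_of_Icc h1.le
    have h7 := intervalIntegral.integral_add_adjacent_intervals h5 h6
    rw [← h7, ← h3, ← h4]
    ring


end

end Pool.Agent.Lib.MP_79abb3_an.P25
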