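import Pool.Agent.Lib.MP_79abb3_an.P25.BaseExC
import Pool.Agent.Lib.MP_79abb3_an.P25.BaseC
import Pool.Agent.Lib.MP_79abb3_an.P25.BaseD
import Pool.Agent.Lib.MP_79abb3_an.P25.BaseStep

/-!
BA-8: the base flow.
-/

set_option autoImplicit false
set_option linter.unusedSectionVars false

open MeasureTheory Set Filter Topology Function

namespace Pool.Agent.Lib.MP_79abb3_an.P25

theorem exists_base (H : ℝ) [Fact (0 < H)] (hH : 1 ≤ H)
    (hdir : ∃ S D A : ℝ → (CI H →L[ℂ] CI H), DirSG H S D A) {ε : ℝ} (hε : 0 < ε) :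
    ∃ g g1 : ℝ → CI H, ContinuousOn g (Icc 0 1) ∧ ContinuousOn g1 (Icc 0 1) ∧ g 0 = 0 ∧ g1 0 = 0 ∧
      (∀ t ∈ Ioc 0 1, BaseAt ε t (g t) (g1 t)) ∧
      ∀ ω, LT ω 0 1 ∅ (PP ε) (fun t => Bf ω (U0 (g t) (g1 t)) (U0 (g t) (g1 t)))
        (fun t => U0 (g t) (g1 t)) :=
  have hH0 : 0 < H := lt_of_lt_of_le one_pos hH
  exists_base_of H hH hε
    { up := fun _ _ _ h => h.up hH hε zero_le_one le_rfl
      mono := fun _ _ _ h => h.mono hH0 hε zero_le_one
      star := fun _ _ _ h => h.star hH0 hε zero_le_one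
      step := base_step hε hdir }

end Pool.Agent.Lib.MP_79abb3_an.P25
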