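import Pool.Agent.Lib.MP_79abb3_an.P25.EnDef
import Pool.Agent.Lib.MP_79abb3_an.P25.Tanh
import Pool.Agent.Lib.MP_79abb3_an.Stage1

/-!
SB-2: extension of the base profile.
-/

set_option autoImplicit false
set_option linter.unusedSectionVars false

open MeasureTheory Set Filter Topology Function

namespace Pool.Agent.Lib.MP_79abb3_an.P25

open Pool.Agent.Lib.MP_79abb3_an

/-- The odd extension of the base profile, linear beyond `H`. -/
theorem exists_ext {H : ℝ} [hHf : Fact (0 < H)] {ε t : ℝ} {g g1 : CI H} (hε : 0 < ε)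
    (ht : 0 < t) (hb : BaseAt ε t g g1) :
    ∃ E E' : ℝ → ℝ, Continuous E' ∧ (∀ y, HasDerivAt E (E' y) y) ∧ (∀ y, E (-y) = -E y) ∧
      (∀ z ∈ Icc 0 H, (E z : ℂ) = ex g z ∧ (E' z : ℂ) = ex g1 z) ∧ (∀ y, 0 ≤ y → 0 ≤ E y) ∧
      (∀ y, 0 ≤ E' y) ∧ (∀ y, E' y ≤ 2 * aa ε t / √t) ∧
      (∀ w, 0 ≤ w → ∀ y, 0 ≤ y → y ≤ H + w → E y ≤ aa ε t * ((H + w) / H)) := by
  have hH0 : 0 < H := hHf.out
  have haa : 0 < aa ε t := by unfold aa; positivity
  obtain ⟨E', hE'⟩ : ∃ E' : ℝ → ℝ, E' = fun z => (ex g1 |z|).re := ⟨_, rfl⟩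
  have cE' : Continuous E' := by
    rw [hE']
    exact Complex.continuous_re.comp ((continuous_ex g1).comp continuous_abs)
  obtain ⟨E, hE⟩ : ∃ E : ℝ → ℝ, E = fun y => ∫ z in (0:ℝ)..y, E' z := ⟨_, rfl⟩
  have dE : ∀ y, HasDerivAt E (E' y) y := fun y => by
    rw [hE]
    exact (cE'.integral_hasStrictDerivAt 0 y).hasDerivAt
  have cE : Continuous E := continuous_iff_continuousAt.2 fun y => (dE y).continuousAt
  have hpr : ∀ z, H ≤ z → ex g1 z = ex g1 H := fun z hz => by
    unfold ex
    congr 1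
    rw [projIcc_of_right_le _ hz, projIcc_right]
  have hE'nn : ∀ y, 0 ≤ E' y := fun y => by
    simp only [hE']
    rcases le_total |y| H with h | h
    · exact hb.mono _ ⟨abs_nonneg _, h⟩
    · rw [hpr _ h]
      exact hb.mono _ ⟨hH0.le, le_rfl⟩
  have hE'up : ∀ y, E' y ≤ 2 * aa ε t / √t := fun y => by
    simp only [hE']
    rcases le_total |y| H with h | h
    · exact hb.up _ ⟨abs_nonneg _, h⟩
    · rw [hpr _ h]
      exact hb.up _ ⟨hH0.le, le_rfl⟩
  have hodd : ∀ y, E (-y) = -E y := fun y => by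
    simp only [hE]
    have h1 : (∫ z in (0:ℝ)..y, E' z) = ∫ z in (0:ℝ)..y, E' (-z) := by
      refine intervalIntegral.integral_congr fun z _ => ?_
      simp only [hE', abs_neg]
    rw [h1, intervalIntegral.integral_comp_neg, neg_zero, intervalIntegral.integral_symm]
  -- on [0,H]
  have hEg : ∀ z ∈ Icc 0 H, E z = (ex g z).re := by
    intro z hz
    have h1 : ∫ y in (0:ℝ)..z, E' y = (ex g z).re - (ex g 0).re := by
      refine intervalIntegral.integral_eq_sub_of_hasDerivAt_of_le hz.1
        (f := fun y => (ex g y).re) (Complex.continuous_re.comp (continuous_ex g)).continuousOn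
        (fun y hy => ?_) (cE'.intervalIntegrable _ _)
      have hyH : y ∈ Icc 0 H := ⟨hy.1.le, hy.2.le.trans hz.2⟩
      have h2 := (hb.d y hyH).hasDerivAt (Icc_mem_nhds hy.1 (hy.2.trans_le hz.2))
      have h3 := Complex.reCLM.hasFDerivAt.comp_hasDerivAt y h2
      refine HasDerivAt.congr_deriv h3 ?_
      simp only [hE', abs_of_nonneg hy.1.le, Complex.reCLM_apply]
    rw [hE]
    simp only
    rw [h1, hb.z, Complex.zero_re, sub_zero]
  have hre : ∀ z ∈ Icc 0 H, (E z : ℂ) = ex g z ∧ (E' z : ℂ) = ex g1 z := by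
    intro z hz
    have h1 := hb.re z hz
    constructor
    · apply Complex.ext
      · rw [Complex.ofReal_re]; exact hEg z hz
      · rw [Complex.ofReal_im]; exact h1.1.symm
    · apply Complex.ext
      · rw [Complex.ofReal_re]; simp only [hE', abs_of_nonneg hz.1]
      · rw [Complex.ofReal_im]; exact h1.2.symm
  have hmono : Monotone E := by
    refine monotone_of_deriv_nonneg (fun y => (dE y).differentiableAt) fun y => ?_
    rw [(dE y).deriv]
    exact hE'nn y
  have hE0 : E 0 = 0 := by rw [hE]; simp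
  have hEH : E H = aa ε t := by rw [hEg H ⟨hH0.le, le_rfl⟩, hb.h]
  refine ⟨E, E', cE', dE, hodd, hre, fun y hy => ?_, hE'nn, hE'up, fun w hw y hy hyw => ?_⟩
  · rw [← hE0]; exact hmono hy
  · have h0 : E y ≤ E (H + w) := hmono hyw
    have h1 : E (H + w) - E H = (ex g1 H).re * w := by
      rw [hE]
      simp only
      rw [intervalIntegral.integral_interval_sub_left (cE'.intervalIntegrable _ _)
        (cE'.intervalIntegrable _ _)]
      have h2 : ∫ z in H..(H + w), E' z = ∫ z in H..(H + w), (ex g1 H).re := by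
        refine intervalIntegral.integral_congr fun z hz => ?_
        rw [uIcc_of_le (by linarith)] at hz
        simp only [hE']
        rw [abs_of_nonneg (hH0.le.trans hz.1), hpr z hz.1]
      rw [h2, intervalIntegral.integral_const, smul_eq_mul]
      ring
    have h3 := hb.star H ⟨hH0.le, le_rfl⟩
    rw [hb.h] at h3
    have h4 : (ex g1 H).re ≤ aa ε t / H := by
      rw [le_div_iff₀ hH0]
      linarith
    have h5 : (ex g1 H).re * w ≤ aa ε t / H * w := mul_le_mul_of_nonneg_right h4 hw
    have h6 : aa ε t * ((H + w) / H) = aa ε t + aa ε t / H * w := by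
      field_simp
    linarith

theorem tanh_low (y : ℝ) : 1 - Real.tanh y ≤ 2 * Real.exp (-2 * y) := by
  rw [tanh_eq_exp]
  have h1 := Real.exp_pos (2 * y)
  have h2 : Real.exp (-2 * y) = (Real.exp (2 * y))⁻¹ := by
    rw [← Real.exp_neg]; congr 1; ring
  rw [h2]
  have h3 : 2 / (Real.exp (2 * y) + 1) ≤ 2 / Real.exp (2 * y) :=
    div_le_div_of_nonneg_left (by norm_num) h1 (by linarith)
  rw [div_eq_mul_inv 2 (Real.exp (2 * y))] at h3
  linarith

theorem extend_base {H w : ℝ} [Fact (0 < H)] (hH : 1 ≤ H) (hw : 0 < w) (hw1 : w ≤ 1) : ∃ c > 0, c ≤ 1 / 2 ∧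
    ∀ (ε t : ℝ) (g g1 : CI H), 0 < ε → 0 < t → t ≤ 1 → BaseAt ε t g g1 →
      ∃ (M1 : ℝ) (e e' : ℝ → ℝ), 0 < M1 ∧ Adm (t * H / (H + w)) M1 (c * t) e e' ∧
        c * t ≤ t * H / (H + w) ∧
        (∀ z ∈ Icc 0 H, (e z : ℂ) = ex g z ∧ (e' z : ℂ) = ex g1 z) ∧ (∀ y, H + w ≤ y → e y = 0) ∧
        pot (fun _ => e) (t * H / (H + w)) (H + w) ≤
          2 * (H + w) * (2 * w + 2 * H * (ε ^ 2 / t ^ 2) + 4 / 3 * √t) := by
  obtain ⟨ζ, ζ', cζ', dζ, ζnn, ζle, ζone, ζz, ζz', ζe⟩ := exists_zeta (by linarith : 0 ≤ H) hw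
  have hcζ : Continuous ζ := continuous_iff_continuousAt.2 fun y => (dζ y).continuousAt
  obtain ⟨S0, hS0⟩ : ∃ S0, S0 = H + w := ⟨_, rfl⟩
  rw [← hS0] at ζz ζz'
  have hS00 : 0 < S0 := by rw [hS0]; linarith
  have hH0 : 0 < H := by linarith
  have hHS : H ≤ S0 := by rw [hS0]; linarith
  obtain ⟨c1, hc1⟩ := (isCompact_Icc (a := -S0) (b := S0)).exists_bound_of_continuousOn
    cζ'.continuousOn
  obtain ⟨Cz, hCz⟩ : ∃ Cz, Cz = max c1 0 := ⟨_, rfl⟩
  have hCz0 : 0 ≤ Cz := by rw [hCz]; exact le_max_right _ _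
  have hζ'b : ∀ y, |ζ' y| ≤ Cz := by
    intro y
    by_cases hy : S0 ≤ |y|
    · rw [ζz' y hy, abs_zero]; exact hCz0
    · push Not at hy
      have hyI : y ∈ Icc (-S0) S0 := ⟨by linarith only [neg_abs_le y, hy],
        by linarith only [le_abs_self y, hy]⟩
      rw [hCz]
      exact (hc1 y hyI).trans (le_max_left _ _)
  obtain ⟨B, hB⟩ : ∃ B, B = 2 * Cz + 2 := ⟨_, rfl⟩
  have hB0 : 0 < B := by rw [hB]; linarith
  obtain ⟨c, hc⟩ : ∃ c, c = min (1 / 2) ((1 / B) ^ 2) := ⟨_, rfl⟩
  have hc0 : 0 < c := by rw [hc]; exact lt_min (by norm_num) (by positivity)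
  have hc2 : c ≤ 1 / 2 := by rw [hc]; exact min_le_left _ _
  have hcB : √c ≤ 1 / B := by
    have : √c ≤ √((1 / B) ^ 2) := Real.sqrt_le_sqrt (by rw [hc]; exact min_le_right _ _)
    rwa [Real.sqrt_sq (by positivity)] at this
  refine ⟨c, hc0, hc2, ?_⟩
  intro ε t g g1 hε ht ht1 hb
  obtain ⟨E, E', cE', dE, oE, hE, Enn, E'nn, E'up, Eup⟩ := exists_ext hε ht hb
  have cE : Continuous E := continuous_iff_continuousAt.2 fun y => (dE y).continuousAt
  have Eup' := Eup w hw.le
  rw [← hS0] at Eup' ⊢
  have haa : 0 < aa ε t := by unfold aa; positivity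
  have haat : t * aa ε t ≤ 1 := by
    unfold aa
    rw [← mul_div_assoc, div_le_one (by positivity)]
    nlinarith [sq_nonneg ε]
  have haat' : aa ε t ≤ 1 / t := by
    rw [le_div_iff₀ ht]; linarith
  obtain ⟨τ, hτ⟩ : ∃ τ, τ = t * H / S0 := ⟨_, rfl⟩
  rw [← hτ]
  have hτ0 : 0 < τ := by rw [hτ]; positivity
  have hτt : τ ≤ t := by
    rw [hτ, div_le_iff₀ hS00]
    exact mul_le_mul_of_nonneg_left hHS ht.le
  have hτa : τ * (aa ε t * (S0 / H)) = t * aa ε t := by
    rw [hτ]; field_simp
  have hst : 0 < √t := Real.sqrt_pos.2 ht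
  have hst1 : √t ≤ 1 := Real.sqrt_le_iff.mpr ⟨by norm_num, by simpa using ht1⟩
  -- the function
  obtain ⟨e, he⟩ : ∃ g : ℝ → ℝ, g = fun y => ζ y * E y := ⟨_, rfl⟩
  obtain ⟨e', he'⟩ : ∃ g : ℝ → ℝ, g = fun y => ζ' y * E y + ζ y * E' y := ⟨_, rfl⟩
  have ce : Continuous e := by rw [he]; exact hcζ.mul cE
  have ce' : Continuous e' := by rw [he']; exact (cζ'.mul cE).add (hcζ.mul cE')
  have de : ∀ y, HasDerivAt e (e' y) y := fun y => by
    rw [he, he']; exact (dζ y).mul (dE y)
  have oe : ∀ y, e (-y) = -e y := fun y => by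
    simp only [he]; rw [ζe, oE]; ring
  have enn : ∀ y, 0 ≤ y → 0 ≤ e y := fun y hy => by
    rw [he]; exact mul_nonneg (ζnn y) (Enn y hy)
  have ez : ∀ y, S0 ≤ |y| → e y = 0 := fun y hy => by simp only [he]; rw [ζz y hy, zero_mul]
  have e'z : ∀ y, S0 ≤ |y| → e' y = 0 := fun y hy => by
    simp only [he']; rw [ζz y hy, ζz' y hy, zero_mul, zero_mul, add_zero]
  have eup : ∀ y, 0 ≤ y → τ * e y ≤ 1 := by
    intro y hy
    rcases le_total S0 y with h | h
    · rw [ez y (h.trans (le_abs_self y)), mul_zero]; norm_num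
    · have h1 : e y ≤ E y := by
        simp only [he]
        exact mul_le_of_le_one_left (Enn y hy) (ζle y)
      calc τ * e y ≤ τ * (aa ε t * (S0 / H)) :=
            mul_le_mul_of_nonneg_left (h1.trans (Eup' y hy h)) hτ0.le
        _ = t * aa ε t := hτa
        _ ≤ 1 := haat
  -- bound of the derivative
  have hS2 : S0 / H ≤ 2 := by rw [div_le_iff₀ hH0, hS0]; linarith
  have hEabs : ∀ y, |y| ≤ S0 → |E y| ≤ 2 / t := by
    intro y hy
    have h1 : |E y| = E |y| := by
      rcases le_total 0 y with h | h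
      · rw [abs_of_nonneg h, abs_of_nonneg (Enn y h)]
      · rw [abs_of_nonpos h, oE, abs_of_nonpos]
        have := Enn (-y) (by linarith)
        rw [oE] at this
        linarith
    rw [h1]
    calc E |y| ≤ aa ε t * (S0 / H) := Eup' _ (abs_nonneg _) hy
      _ ≤ 1 / t * 2 := mul_le_mul haat' hS2 (by positivity) (by positivity)
      _ = 2 / t := by ring
  have hE'abs : ∀ y, |E' y| ≤ 2 / (t * √t) := by
    intro y
    rw [abs_of_nonneg (E'nn y)]
    calc E' y ≤ 2 * aa ε t / √t := E'up y
      _ ≤ 2 * (1 / t) / √t := by gcongr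
      _ = 2 / (t * √t) := by field_simp
  have he'b : ∀ y, |e' y| ≤ B / (t * √t) := by
    intro y
    by_cases hy : S0 ≤ |y|
    · rw [e'z y hy, abs_zero]; positivity
    · push Not at hy
      simp only [he']
      have h1 : |ζ' y * E y| ≤ Cz * (2 / t) := by
        rw [abs_mul]
        exact mul_le_mul (hζ'b y) (hEabs y hy.le) (abs_nonneg _) hCz0
      have h2 : |ζ y * E' y| ≤ 1 * (2 / (t * √t)) := by
        rw [abs_mul, abs_of_nonneg (ζnn y)]
        exact mul_le_mul (ζle y) (hE'abs y) (abs_nonneg _) (by norm_num)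
      have h3 : (2 : ℝ) / t ≤ 2 / (t * √t) := by
        apply div_le_div_of_nonneg_left (by norm_num) (by positivity)
        nlinarith
      have h4 : Cz * (2 / t) ≤ Cz * (2 / (t * √t)) := mul_le_mul_of_nonneg_left h3 hCz0
      have h5 : B / (t * √t) = Cz * (2 / (t * √t)) + 1 * (2 / (t * √t)) := by
        rw [hB]; field_simp
      rw [h5]
      exact (abs_add_le _ _).trans (add_le_add (h1.trans h4) h2)
  have hlip : ∀ a b, 0 ≤ a → 0 ≤ b → τ * √(c * t) * (e a - e b) ≤ |a - b| := by
    intro a b _ _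
    have h3 := Convex.norm_image_sub_le_of_norm_hasDerivWithin_le (f := e) (f' := e')
      (C := B / (t * √t)) (s := univ) (x := b) (y := a) (fun x _ => (de x).hasDerivWithinAt)
      (fun x _ => he'b x) convex_univ (mem_univ _) (mem_univ _)
    rw [Real.norm_eq_abs, Real.norm_eq_abs] at h3
    have h5 : e a - e b ≤ B / (t * √t) * |a - b| := (le_abs_self _).trans h3
    have h6 : √(c * t) = √c * √t := Real.sqrt_mul hc0.le t
    rw [h6]
    have hsc := Real.sqrt_nonneg c
    calc τ * (√c * √t) * (e a - e b) ≤ τ * (√c * √t) * (B / (t * √t) * |a - b|) := by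
          gcongr
      _ ≤ t * (1 / B * √t) * (B / (t * √t) * |a - b|) := by gcongr
      _ = |a - b| := by field_simp
  -- the weight
  obtain ⟨c0, hc0'⟩ := (isCompact_Icc (a := -S0) (b := S0)).exists_bound_of_continuousOn
    ce.continuousOn
  obtain ⟨M, hM⟩ : ∃ M, M = max (max c0 (B / (t * √t))) 1 := ⟨_, rfl⟩
  have hM1 : 1 ≤ M := by rw [hM]; exact le_max_right _ _
  have hMp : 0 < M := by linarith only [hM1]
  have bndom : ∀ y, |e y| ≤ M * Real.exp S0 * MP_79abb3_an.om y ∧ |e' y| ≤ M * Real.exp S0 * MP_79abb3_an.om y := by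
    intro y
    by_cases hy : S0 ≤ |y|
    · rw [ez y hy, e'z y hy, abs_zero]
      have := om_pos y
      exact ⟨by positivity, by positivity⟩
    · push Not at hy
      have hyI : y ∈ Icc (-S0) S0 := ⟨by linarith only [neg_abs_le y, hy],
        by linarith only [le_abs_self y, hy]⟩
      have h1 : 1 ≤ Real.exp S0 * MP_79abb3_an.om y := by
        rw [MP_79abb3_an.om, ← Real.exp_add]
        apply Real.one_le_exp
        linarith only [hy]
      have h2 : M ≤ M * Real.exp S0 * MP_79abb3_an.om y := by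
        calc M = M * 1 := (mul_one M).symm
          _ ≤ M * (Real.exp S0 * MP_79abb3_an.om y) := by gcongr
          _ = _ := by ring
      refine ⟨le_trans ?_ h2, le_trans ?_ h2⟩
      · rw [hM]
        exact (hc0' y hyI).trans ((le_max_left _ _).trans (le_max_left _ _))
      · rw [hM]
        exact (he'b y).trans ((le_max_right _ _).trans (le_max_left _ _))
  have hct : c * t ≤ τ := by
    rw [hτ, le_div_iff₀ hS00]
    have h1 : c * S0 ≤ H := by
      calc c * S0 ≤ 1 / 2 * S0 := mul_le_mul_of_nonneg_right hc2 hS00.le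
        _ ≤ H := by rw [hS0]; linarith
    calc c * t * S0 = t * (c * S0) := by ring
      _ ≤ t * H := mul_le_mul_of_nonneg_left h1 ht.le
  refine ⟨M * Real.exp S0, e, e', by positivity,
    ⟨⟨ce', de, oe, fun y => (bndom y).1, fun y => (bndom y).2⟩, enn, eup, hlip⟩, hct,
    fun z hz => ?_, fun y hy => ez y (hy.trans (le_abs_self y)), ?_⟩
  · have h1 : ζ z = 1 := ζone z (by rw [abs_of_nonneg hz.1]; exact hz.2)
    have h2 : ζ' z = 0 := by
      -- `ζ ≤ 1` has a maximum at `z`
      have hmax : IsLocalMax ζ z := Eventually.of_forall fun x => by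
        rw [h1]; exact ζle x
      have := hmax.deriv_eq_zero
      rwa [(dζ z).deriv] at this
    simp only [he, he', h1, h2, one_mul, zero_mul, zero_add]
    exact hE z hz
  · -- the potential
    have i1 : pot (fun _ => e) τ S0 = ∫ z in (0:ℝ)..S0, 2 * (S0 - z) * (1 - τ * e z) := by
      have j1 : IntervalIntegrable (fun z => 1 * e z) volume 0 S0 :=
        (ce.const_mul 1).intervalIntegrable _ _
      have j2 : IntervalIntegrable (fun z => z * e z) volume 0 S0 :=
        (continuous_id.mul ce).intervalIntegrable _ _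
      have j3 : (∫ z in (0:ℝ)..S0, 2 * (S0 - z) * (1 - τ * e z)) =
          ∫ z in (0:ℝ)..S0, ((2 * S0 - 2 * z) - 2 * τ * (S0 * (1 * e z) - z * e z)) := by
        refine intervalIntegral.integral_congr fun z _ => ?_
        ring
      rw [j3, intervalIntegral.integral_sub (by
          apply Continuous.intervalIntegrable; fun_prop) (by
          apply Continuous.intervalIntegrable; fun_prop), intervalIntegral.integral_const_mul,
        intervalIntegral.integral_sub (by apply Continuous.intervalIntegrable; fun_prop)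
          (by apply Continuous.intervalIntegrable; fun_prop),
        intervalIntegral.integral_const_mul, intervalIntegral.integral_sub
          (by apply Continuous.intervalIntegrable; fun_prop)
          (by apply Continuous.intervalIntegrable; fun_prop), intervalIntegral.integral_const_mul,
        intervalIntegral.integral_const_mul, integral_id, intervalIntegral.integral_const, smul_eq_mul]
      simp only [pot]
      ring
    rw [i1]
    obtain ⟨k, hk⟩ : ∃ k, k = 3 / (2 * √t) := ⟨_, rfl⟩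
    have hk0 : 0 < k := by rw [hk]; positivity
    have cf : Continuous fun z => 2 * (S0 - z) * (1 - τ * e z) := by fun_prop
    rw [← intervalIntegral.integral_add_adjacent_intervals (b := H) (cf.intervalIntegrable _ _)
      (cf.intervalIntegrable _ _)]
    have b2 : (∫ z in H..S0, 2 * (S0 - z) * (1 - τ * e z)) ≤ 2 * S0 * w := by
      calc (∫ z in H..S0, 2 * (S0 - z) * (1 - τ * e z)) ≤ ∫ z in H..S0, 2 * S0 := by
            refine intervalIntegral.integral_mono_on hHS (cf.intervalIntegrable _ _)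
              (by apply Continuous.intervalIntegrable; fun_prop) fun z hz => ?_
            have hz0 : 0 ≤ z := hH0.le.trans hz.1
            have h1 : 0 ≤ τ * e z := mul_nonneg hτ0.le (enn z hz0)
            have h2 : 2 * (S0 - z) ≤ 2 * S0 := by linarith
            have h3 : 0 ≤ 2 * (S0 - z) := by linarith [hz.2]
            calc 2 * (S0 - z) * (1 - τ * e z) ≤ 2 * (S0 - z) * 1 :=
                  mul_le_mul_of_nonneg_left (by linarith) h3
              _ ≤ 2 * S0 := by linarith
        _ = 2 * S0 * w := by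
            rw [intervalIntegral.integral_const, smul_eq_mul, hS0]; ring
    have hτa1 : τ * aa ε t ≤ 1 := by
      calc τ * aa ε t ≤ t * aa ε t := mul_le_mul_of_nonneg_right hτt haa.le
        _ ≤ 1 := haat
    have hdef : 1 - τ * aa ε t ≤ w / H + ε ^ 2 / t ^ 2 := by
      have h1 : τ * aa ε t = (1 - w / S0) * (1 - ε ^ 2 / (t ^ 2 + ε ^ 2)) := by
        have hS0' : S0 - w = H := by rw [hS0]; ring
        have h2 : 1 - w / S0 = H / S0 := by
          rw [← hS0']; field_simp
        rw [h2, hτ]
        unfold aa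
        have : 0 < t ^ 2 + ε ^ 2 := by positivity
        field_simp
        ring
      have h2 : w / S0 ≤ w / H := div_le_div_of_nonneg_left hw.le hH0 hHS
      have h3 : ε ^ 2 / (t ^ 2 + ε ^ 2) ≤ ε ^ 2 / t ^ 2 :=
        div_le_div_of_nonneg_left (by positivity) (by positivity) (by nlinarith)
      have h4 : 0 ≤ w / S0 := by positivity
      have h5 : 0 ≤ ε ^ 2 / (t ^ 2 + ε ^ 2) := by positivity
      rw [h1]
      nlinarith [mul_nonneg h4 h5]
    have b1 : (∫ z in (0:ℝ)..H, 2 * (S0 - z) * (1 - τ * e z)) ≤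
        2 * S0 * (w + H * (ε ^ 2 / t ^ 2) + 4 / 3 * √t) := by
      have b3 : (∫ z in (0:ℝ)..H, 2 * (S0 - z) * (1 - τ * e z)) ≤
          ∫ z in (0:ℝ)..H, 2 * S0 * ((w / H + ε ^ 2 / t ^ 2) + 2 * Real.exp (-k * z)) := by
        refine intervalIntegral.integral_mono_on hH0.le (cf.intervalIntegrable _ _)
          (by apply Continuous.intervalIntegrable; fun_prop) fun z hz => ?_
        have h1 : ζ z = 1 := ζone z (by rw [abs_of_nonneg hz.1]; exact hz.2)
        have h2 : e z = (ex g z).re := by
          have h3 := (hE z hz).1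
          have h4 := congrArg Complex.re h3
          rw [Complex.ofReal_re] at h4
          simp only [he, h1, one_mul]
          exact h4
        have h3 := hb.low z hz
        have h4 := tanh_low (3 * (z / √t) / 4)
        have h5 : -2 * (3 * (z / √t) / 4) = -k * z := by rw [hk]; field_simp; ring
        rw [h5] at h4
        have h6 : 1 - τ * e z ≤ (w / H + ε ^ 2 / t ^ 2) + 2 * Real.exp (-k * z) := by
          have h7 : τ * (aa ε t * Real.tanh (3 * (z / √t) / 4)) ≤ τ * e z := by
            rw [h2]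
            exact mul_le_mul_of_nonneg_left h3 hτ0.le
          have h8 : 0 ≤ 2 * Real.exp (-k * z) := by positivity
          have h9 : τ * aa ε t * (1 - Real.tanh (3 * (z / √t) / 4)) ≤
              τ * aa ε t * (2 * Real.exp (-k * z)) :=
            mul_le_mul_of_nonneg_left h4 (by positivity)
          have h10 : τ * aa ε t * (2 * Real.exp (-k * z)) ≤ 2 * Real.exp (-k * z) :=
            mul_le_of_le_one_left h8 hτa1
          linarith
        have h7 : 0 ≤ 1 - τ * e z := by linarith [eup z hz.1]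
        have h8 : 2 * (S0 - z) ≤ 2 * S0 := by linarith [hz.1]
        exact mul_le_mul h8 h6 h7 (by positivity)
      refine b3.trans ?_
      rw [intervalIntegral.integral_const_mul]
      refine mul_le_mul_of_nonneg_left ?_ (by positivity)
      rw [intervalIntegral.integral_add (by apply Continuous.intervalIntegrable; fun_prop)
        (by apply Continuous.intervalIntegrable; fun_prop), intervalIntegral.integral_const,
        intervalIntegral.integral_const_mul, smul_eq_mul]
      have h1 : (∫ z in (0:ℝ)..H, Real.exp (-k * z)) ≤ 1 / k := by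
        have h2 : ∀ z, HasDerivAt (fun z => -(1 / k) * Real.exp (-k * z)) (Real.exp (-k * z)) z := by
          intro z
          have h3 : HasDerivAt (fun z => -k * z) (-k) z := by
            simpa using (hasDerivAt_id z).const_mul (-k)
          have h4 := (h3.exp).const_mul (-(1 / k))
          refine h4.congr_deriv ?_
          field_simp
        rw [intervalIntegral.integral_eq_sub_of_hasDerivAt (fun z _ => h2 z)
          (by apply Continuous.intervalIntegrable; fun_prop)]
        have h5 : 0 < Real.exp (-k * H) := Real.exp_pos _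
        have h6 : 0 < 1 / k := by positivity
        rw [mul_zero, Real.exp_zero]
        nlinarith [mul_pos h6 h5]
      have h2 : 1 / k = 2 / 3 * √t := by rw [hk]; field_simp
      rw [h2] at h1
      have h3 : (H - 0) * (w / H + ε ^ 2 / t ^ 2) = w + H * (ε ^ 2 / t ^ 2) := by
        field_simp; ring
      rw [h3]
      linarith
    have h1 : 0 ≤ H * (ε ^ 2 / t ^ 2) := by positivity
    have h2 : 0 ≤ 2 * S0 * (H * (ε ^ 2 / t ^ 2)) := by positivity
    nlinarith [b1, b2, h2]

end Pool.Agent.Lib.MP_79abb3_an.P25
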