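import Pool.Agent.Lib.MP_79abb3_an.Piece
import Pool.Agent.Lib.MP_79abb3_an.P25.LTops
import Pool.Agent.Lib.MP_79abb3_an.P25.BaseExC

/-!
SB-3: planar pieces as trajectories of the mode system.
-/

set_option autoImplicit false
set_option linter.unusedSectionVars false

open MeasureTheory Set Filter Topology Function

namespace Pool.Agent.Lib.MP_79abb3_an.P25

open Pool.Agent.Lib.MP_79abb3_an

theorem ofTrL_curve {H : ℝ} [Fact (0 < H)] {a b : ℝ} (hab : a ≤ b) (G : ℝ → ℝ → ℝ)
    (hG : ContinuousOn (uncurry G) (Icc a b ×ˢ Icc 0 H)) :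
    ∃ g : ℝ → CI H, Continuous g ∧
      ∀ t ∈ Icc a b, ∀ z ∈ Icc (0:ℝ) H, ex (g t) z = ((G t z : ℝ) : ℂ) := by
  let F : C(ℝ × Icc (0:ℝ) H, ℂ) :=
    ⟨fun p => ((G (projIcc a b hab p.1) p.2 : ℝ) : ℂ), by
      refine Complex.continuous_ofReal.comp ?_
      have h1 : Continuous fun p : ℝ × Icc (0:ℝ) H =>
          (((projIcc a b hab p.1 : ℝ), (p.2 : ℝ)) : ℝ × ℝ) :=
        (continuous_subtype_val.comp (continuous_projIcc.comp continuous_fst)).prodMk
          (continuous_subtype_val.comp continuous_snd)
      exact hG.comp_continuous h1 (fun p => ⟨(projIcc a b hab p.1).2, p.2.2⟩)⟩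
  refine ⟨fun t => F.curry t, F.curry.continuous, ?_⟩
  intro t ht z hz
  rw [ex_apply _ hz]
  change ((G (projIcc a b hab t) z : ℝ) : ℂ) = _
  rw [projIcc_of_mem _ ht]

open BaseEx in
theorem LT_of_TrL {H : ℝ} [Fact (0 < H)] {a b C ω : ℝ} (hab : a ≤ b) {g v : ℝ → ℝ → ℝ}
    (h : TrL a b H C ∅ g g v (fun _ => 0)) : ∃ G G1 : ℝ → CI H, ContinuousOn G (Icc a b) ∧
      ContinuousOn G1 (Icc a b) ∧ (∀ t ∈ Icc a b, ∀ z ∈ Icc 0 H, ex (G t) z = (g t z : ℂ) ∧
        ex (G1 t) z = (v t z : ℂ)) ∧ (∀ t ∈ Icc a b, star (G t) = G t ∧ star (G1 t) = G1 t) ∧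
      LT ω a b ∅ (fun _ => 0) (fun t => Bf ω (U0 (G t) (G1 t)) (U0 (G t) (G1 t)))
        (fun t => U0 (G t) (G1 t)) := by
  have hH0 : 0 < H := Fact.out
  have hcv := h.cv
  rw [sdiff_empty] at hcv
  obtain ⟨G, hG, hGg⟩ := ofTrL_curve hab g h.cf
  obtain ⟨G1, hG1, hG1v⟩ := ofTrL_curve hab v hcv
  have h0H : (0:ℝ) ∈ Icc (0:ℝ) H := ⟨le_rfl, hH0.le⟩
  have hD : ∀ t ∈ Icc a b, IsD (G t) (G1 t) := by
    intro t ht z hz
    rw [hG1v t ht z hz]
    exact (h.df t ⟨ht, notMem_empty t⟩ z hz).ofReal_comp.congr (fun y hy => hGg t ht y hy)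
      (hGg t ht z hz)
  have hz0 : ∀ t ∈ Icc a b, ex (G t) 0 = 0 := fun t ht => by
    rw [hGg t ht 0 h0H, h.z t ht, Complex.ofReal_zero]
  have hst : ∀ t ∈ Icc a b, star (G t) = G t ∧ star (G1 t) = G1 t := by
    intro t ht
    constructor
    · refine ci_ext fun z hz => ?_
      rw [ex_star, hGg t ht z hz, Complex.star_def, Complex.conj_ofReal]
    · refine ci_ext fun z hz => ?_
      rw [ex_star, hG1v t ht z hz, Complex.star_def, Complex.conj_ofReal]
  refine ⟨G, G1, hG.continuousOn, hG1.continuousOn, fun t ht z hz => ⟨hGg t ht z hz, hG1v t ht z hz⟩,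
    hst, ?_⟩
  have hU : Continuous fun t => U0 (G t) (G1 t) := continuous_U0 hG hG1
  have hNc : Continuous fun t => Eop 0 (G t) * G1 t - G t * G t :=
    (((Eop 0).continuous.comp hG).mul hG1).sub (hG.mul hG)
  have hBc : Continuous fun t => ((Eop 0 (G t) * G1 t - G t * G t, 0) : Yn H) :=
    hNc.prodMk continuous_const
  have hBf : ∀ t n, Bf ω (U0 (G t) (G1 t)) (U0 (G t) (G1 t)) n =
      if n = 0 then ((Eop 0 (G t) * G1 t - G t * G t, 0) : Yn H) else 0 :=
    fun t n => Bf_U0 ω (G t) (G1 t) n
  exact
    { count := countable_empty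
      cY := ((jL H).continuous.comp hU).continuousOn
      cX := hU.continuousOn
      cP := continuousOn_const
      cG := fun n => by
        simp only [hBf]
        split_ifs with h
        · exact hBc.continuousOn
        · exact continuousOn_const
      bd := by
        have hF : Continuous fun t => ‖U0 (G t) (G1 t)‖ +
            ‖((Eop 0 (G t) * G1 t - G t * G t, 0) : Yn H)‖ := hU.norm.add hBc.norm
        obtain ⟨R, hR⟩ := (isCompact_Icc (a := a) (b := b)).exists_bound_of_continuousOn
          hF.continuousOn
        refine ⟨R, fun t ht => ?_⟩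
        have h1 := hR t ht.1
        have h3 := norm_nonneg (U0 (G t) (G1 t))
        have h4 := norm_nonneg ((Eop 0 (G t) * G1 t - G t * G t, 0) : Yn H)
        rw [Real.norm_eq_abs, abs_of_nonneg (by positivity)] at h1
        refine ⟨by rw [abs_zero]; linarith, by linarith, fun n => ?_⟩
        rw [hBf]
        split_ifs with h
        · linarith
        · rw [norm_zero]; linarith
      cm := fun t ht n => by
        rcases eq_or_ne n 0 with h | h
        · rw [h, U0_zero]
          exact
            { d1 := hD t ht.1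
              d2 := isD_zero'
              e1 := by
                change (0 : CI H) = |ω * ((0:ℤ) : ℝ)| • G t
                rw [Int.cast_zero, mul_zero, abs_zero, ci_rzero_smul']
              e2 := (ci_rsmul_zero' _).symm
              z1 := hz0 t ht.1
              z2 := rfl }
        · rw [U0_ne _ _ h]
          exact
            { d1 := isD_zero'
              d2 := isD_zero'
              e1 := (ci_rsmul_zero' _).symm
              e2 := (ci_rsmul_zero' _).symm
              z1 := rfl
              z2 := rfl }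
      z := fun t ht n => by
        rcases eq_or_ne n 0 with h | h
        · rw [h, U0_zero]
          exact ⟨hz0 t ht, rfl⟩
        · rw [U0_ne _ _ h]
          exact ⟨rfl, rfl⟩
      sy := fun t ht n => by
        rcases eq_or_ne n 0 with h | h
        · simp only [h, neg_zero, U0_zero]
          refine Prod.ext ?_ ?_
          · change G t = star (G t)
            exact (hst t ht).1.symm
          · change (0 : CI H) = star 0
            rw [star_zero]
        · have h' : -n ≠ 0 := neg_ne_zero.2 h
          simp only [U0_ne _ _ h, U0_ne _ _ h']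
          change (0 : Yn H) = star 0
          rw [star_zero]
      eq := fun n y hy t1 ht1 t2 ht2 => by
        have ht2' : t2 ∈ Icc a b := ⟨ht1.1.trans ht2.1, ht2.2⟩
        rcases eq_or_ne n 0 with hn | hn
        · subst hn
          have hp : ∀ t ∈ Icc a b, ∀ x ∈ Icc 0 H, prim (G t) x =
              ((∫ z in (0:ℝ)..x, g t z : ℝ) : ℂ) := by
            intro t ht x hx
            rw [prim, ← intervalIntegral.integral_ofReal]
            refine intervalIntegral.integral_congr fun z hz => ?_
            rw [uIcc_of_le hx.1] at hz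
            exact hGg t ht z ⟨hz.1, hz.2.trans hx.2⟩
          have hE : ∀ t ∈ Icc a b, ∀ x ∈ Icc 0 H, ex (Eop 0 (G t)) x =
              ((∫ z in (0:ℝ)..x, g t z : ℝ) : ℂ) := by
            intro t ht x hx
            rw [← hp t ht x hx, Eop_apply 0 _ hx, prim]
            refine intervalIntegral.integral_congr fun z _ => ?_
            simp
          have hN : ∀ t ∈ Icc a b, prim (Eop 0 (G t) * G1 t - G t * G t) y =
              ((∫ z in (0:ℝ)..y, ((∫ x in (0:ℝ)..z, g t x) * v t z - g t z * g t z) : ℝ) : ℂ) := by
            intro t ht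
            rw [prim, ← intervalIntegral.integral_ofReal]
            refine intervalIntegral.integral_congr fun z hz => ?_
            rw [uIcc_of_le hy.1] at hz
            have hz' : z ∈ Icc 0 H := ⟨hz.1, hz.2.trans hy.2⟩
            simp only [ex_sub, ex_mul]
            rw [hE t ht z hz', hGg t ht z hz', hG1v t ht z hz']
            push_cast
            ring
          simp only [U0_zero, hBf, if_true]
          have hcont : Continuous fun t => prim (G t) y := (primL y).continuous.comp hG
          have hcr : Continuous fun s => rh (ω * ((0:ℤ):ℝ)) (G s) (G1 s)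
              (Eop 0 (G s) * G1 s - G s * G s) y + ((0 * y : ℝ) : ℂ) := by
            unfold rh
            have c1 : Continuous fun s => ex (G1 s) y := (evL y).continuous.comp hG1
            have c2 : Continuous fun s => ex (G1 s) 0 := (evL 0).continuous.comp hG1
            have c3 : Continuous fun s => prim (Eop 0 (G s) * G1 s - G s * G s) y :=
              (primL y).continuous.comp hNc
            exact (((c1.sub c2).sub (continuous_const.mul hcont)).add c3).add continuous_const
          symm
          refine intervalIntegral.integral_eq_sub_of_hasDerivAt_of_le ht2.1 hcont.continuousOn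
            ?_ (hcr.intervalIntegrable _ _)
          intro s hs
          have hsI : s ∈ Ioo a b := ⟨ht1.1.trans_lt hs.1, hs.2.trans_le ht2.2⟩
          have hsI' : s ∈ Icc a b := ⟨hsI.1.le, hsI.2.le⟩
          have hd := (h.tf s ⟨hsI, notMem_empty s⟩ y hy).ofReal_comp
          have he : (fun s => prim (G s) y) =ᶠ[𝓝 s]
              fun s => ((∫ z in (0:ℝ)..y, g s z : ℝ) : ℂ) := by
            filter_upwards [Ioo_mem_nhds hsI.1 hsI.2] with r hr
            exact hp r ⟨hr.1.le, hr.2.le⟩ y hy
          refine (hd.congr_of_eventuallyEq he).congr_deriv ?_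
          simp only [rh]
          rw [hN s hsI', hG1v s hsI' y hy, hG1v s hsI' 0 h0H]
          push_cast
          ring
        · simp only [U0_ne _ _ hn, hBf, if_neg hn, add_zero]
          change prim (0 : CI H) y - prim (0 : CI H) y =
            ∫ s in t1..t2, rh (ω * n) (0 : CI H) 0 0 y
          simp only [rh_zero', prim_zero', sub_self, intervalIntegral.integral_zero]
      eq' := fun n y hy t1 ht1 t2 ht2 => by
        simp only [U0_snd, Bf_U0_snd]
        change prim (0 : CI H) y - prim (0 : CI H) y =
          ∫ s in t1..t2, rh (ω * n) (0 : CI H) 0 0 y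
        simp only [rh_zero', prim_zero', sub_self, intervalIntegral.integral_zero] }

end Pool.Agent.Lib.MP_79abb3_an.P25
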