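import Pool.Agent.Lib.MP_79abb3_an.GCtrl

/-!
The flushing stage with uniform bounds (SB-1).
-/

set_option autoImplicit false
set_option linter.unusedSectionVars false
set_option linter.unusedVariables false

open MeasureTheory Set Filter Topology Function

namespace Pool.Agent.Lib.MP_79abb3_an.P25

open Pool.Agent.Lib.MP_79abb3_an

section
open Real

/-- The flushing stage, with uniform bounds. -/
theorem stage2u {L T1 μ Λ : ℝ} (hL : 0 ≤ L) (hT1 : 0 < T1) (hT1' : T1 ≤ 1) (hμ : 0 < μ)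
    (hΛ : 2 / T1 * (√(T1 / 2))⁻¹ ≤ Λ) :
    ∃ η : ℝ, 0 < η ∧ η ≤ 1 ∧ η ≤ T1 / 2 ∧ ∀ (τ S0 M1 σ : ℝ) (g1 v1 : ℝ → ℝ), 0 < τ → τ ≤ η →
      0 < S0 → S0 ≤ L + 1 → 0 < M1 → Adm τ M1 σ g1 v1 → 0 < σ → σ ≤ τ → (∀ y, S0 ≤ y → g1 y = 0) →
      pot (fun _ => g1) τ S0 ≤ η → ∃ (C : ℝ) (g v : ℝ → ℝ → ℝ), 0 ≤ C ∧
        TrL τ T1 L C ∅ g g v (fun _ => 0) ∧ g τ = g1 ∧ v τ = v1 ∧ Odd1 μ Λ (g T1) (v T1) ∧
        ∀ t ∈ Icc τ T1, ∀ y ∈ Icc 0 L, |g t y| ≤ 1 / τ ∧ |v t y| ≤ 2 / τ * (√σ)⁻¹ := by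
  have hΛ0 : 0 < Λ := lt_of_lt_of_le (by positivity) hΛ
  obtain ⟨ε, hε⟩ : ∃ ε, ε = μ ^ 3 / (16 * Λ ^ 2) := ⟨_, rfl⟩
  have hε0 : 0 < ε := by rw [hε]; positivity
  obtain ⟨c, hc⟩ : ∃ c, c = (ε ^ 2 / 1100) ^ 2 := ⟨_, rfl⟩
  have hc0 : 0 < c := by rw [hc]; positivity
  obtain ⟨θ, hθ⟩ : ∃ θ, θ = T1 * exp (-(201 / c)) := ⟨_, rfl⟩
  have hθ0 : 0 < θ := by rw [hθ]; positivity
  have hθT : θ < T1 := by
    have h1 : exp (-(201 / c)) < 1 := by
      rw [exp_lt_one_iff]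
      have : 0 < 201 / c := by positivity
      linarith only [this]
    calc θ = T1 * exp (-(201 / c)) := hθ
      _ < T1 * 1 := by gcongr
      _ = T1 := mul_one _
  have hlog : 100 < (1/2) * (ε ^ 2 / 1100) ^ 2 * log (T1 / θ) := by
    have h1 : T1 / θ = exp (201 / c) := by
      rw [hθ, exp_neg]; field_simp
    rw [h1, log_exp, ← hc]
    have : (1/2) * c * (201 / c) = 201 / 2 := by field_simp
    rw [this]; norm_num
  obtain ⟨S, hS⟩ : ∃ S, S = L + 1 := ⟨_, rfl⟩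
  have hS1 : 1 ≤ S := by linarith only [hS, hL]
  obtain ⟨s, hs⟩ : ∃ s, s = θ / (34 * S) := ⟨_, rfl⟩
  have hs0 : 0 < s := by rw [hs]; positivity
  have hsS : s * (34 * S) = θ := by rw [hs]; field_simp
  have hθ1 : θ ≤ 1 := by linarith only [hθT, hT1']
  have hs34 : 34 * s ≤ θ := by
    have : s * (34 * 1) ≤ s * (34 * S) := by gcongr
    linarith only [this, hsS]
  have hs1 : s ≤ 1 := by linarith only [hs34, hθ1, hs0]
  have hssq : s ^ 2 ≤ s := by nlinarith only [hs0, hs1]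
  refine ⟨s ^ 2, by positivity, by linarith only [hssq, hs1], by linarith only [hssq, hs34, hθT, hs0], ?_⟩
  intro τ S0 M1 σ g1 v1 hτ hτη hS0 hS0S hM1 hA hσ hστ hsupp hpot
  have hτθ : τ < θ := by linarith only [hτη, hssq, hs34, hs0]
  have hτT : τ ≤ T1 / 2 := by linarith only [hτη, hssq, hs34, hs0, hθT]
  have hτb : τ < 2 * T1 := by linarith only [hτT, hT1]
  obtain ⟨g, v, w, hsol, hg, hv⟩ := global hτ hτb hM1 hA
  have hA' : Adm τ M1 σ (g τ) (v τ) := by rw [hg, hv]; exact hA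
  have hnn := hsol.nn' hτb hA'
  have hle := hsol.le' hτ hτb hA'
  have hgr := hsol.gr' hτ hτb hσ hστ hA'
  obtain ⟨C, hC, htr⟩ := hsol.trl hτb (by linarith only [hT1] : T1 ≤ 2 * T1) hL
  have hT1I : T1 ∈ Icc τ (2 * T1) := ⟨by linarith only [hτT, hT1], by linarith only [hT1]⟩
  have hsθ : 0 < √θ := sqrt_pos.2 hθ0
  have hflush : mom 1 (g T1) < ε := by
    refine hsol.flush hτ hτb hnn hle ?_ hS0 (fun y hy => by rw [hg]; exact hsupp y hy) hτθ hθT
      (by linarith only [hT1]) hε0 ?_ hlog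
    · intro t ht
      refine (hgr t ⟨ht.1.le, ht.2⟩ 0 le_rfl).trans ?_
      have h1 : 0 < t := hτ.trans ht.1
      have h2 : 0 < √(t - τ) := sqrt_pos.2 (by linarith only [ht.1])
      have h3 : √(t - τ) ≤ √(t - τ + σ) := sqrt_le_sqrt (by linarith only [hσ])
      gcongr
    · have e1 : pot g τ S0 = pot (fun _ => g1) τ S0 := by simp only [pot, hg]
      have hsτ : √τ ≤ s := by
        rw [← sqrt_sq hs0.le]; exact sqrt_le_sqrt hτη
      have hS0S' : S0 ≤ S := by rw [hS]; exact hS0S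
      have h1 : pot g τ S0 + 4 * π * S0 * √τ ≤ θ := by
        have h2 : 4 * π * S0 * √τ ≤ 4 * 4 * S * s := by
          have := pi_le_four
          gcongr
        have h3 : s ≤ S * s := by nlinarith only [hs0, hS1]
        rw [e1]
        linarith only [h2, h3, hpot, hssq, hsS, hs0]
      have h4 : √(pot g τ S0 + 4 * π * S0 * √τ) ≤ √θ := sqrt_le_sqrt h1
      have h5 : τ * S0 / θ ≤ √θ := by
        rw [div_le_iff₀ hθ0]
        have h6 : τ * S0 ≤ s ^ 2 * S := by gcongr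
        have h7 : s ^ 2 * S ≤ s * θ := by
          calc s ^ 2 * S = s * (s * S) := by ring
            _ ≤ s * θ := by
                have : s * S ≤ θ := by nlinarith only [hsS, hs0, hS1]
                gcongr
        have h8 : s ≤ √θ := by
          have h9 : θ ≤ √θ := by
            have h10 : √θ ≤ 1 := by rw [sqrt_le_one]; exact hθ1
            have h11 := mul_self_sqrt hθ0.le
            nlinarith only [h10, h11, hsθ]
          linarith only [h9, hs34, hs0]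
        calc τ * S0 ≤ s * θ := h6.trans h7
          _ ≤ √θ * θ := by gcongr
      linarith only [h4, h5]
  obtain ⟨C', hC'⟩ := hsol.bd
  have hvΛ : ∀ y, 0 ≤ y → |v T1 y| ≤ Λ := by
    intro y hy
    refine (hgr T1 ⟨hT1I.1, by linarith only [hT1]⟩ y hy).trans (le_trans ?_ hΛ)
    have h2 : 0 < √(T1 / 2) := sqrt_pos.2 (by positivity)
    have h3 : √(T1 / 2) ≤ √(T1 - τ + σ) := sqrt_le_sqrt (by linarith only [hσ, hτT])
    gcongr
  have hgμ : ∀ y, 0 ≤ y → |g T1 y| ≤ μ := by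
    intro y hy
    have h1 := sup_of_mom (hsol.dg T1 hT1I) (K := C') (fun ξ hξ => by
      have := (hC' T1 hT1I ξ).1
      rwa [om_of_nonneg hξ] at this) (hnn T1 hT1I) hΛ0 hvΛ hy
    have h2 : 16 * Λ ^ 2 * mom 1 (g T1) ≤ μ ^ 3 := by
      calc 16 * Λ ^ 2 * mom 1 (g T1) ≤ 16 * Λ ^ 2 * ε := by gcongr
        _ = μ ^ 3 := by rw [hε]; field_simp
    have h3 := hnn T1 hT1I y hy
    rw [abs_of_nonneg h3]
    exact le_of_pow_le_pow_left₀ (by norm_num) hμ.le (h1.trans h2)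
  have hev := even_of_odd (hsol.dg T1 hT1I) (hsol.odd T1 hT1I)
  have hunif : ∀ t ∈ Icc τ T1, ∀ y ∈ Icc 0 L, |g t y| ≤ 1 / τ ∧ |v t y| ≤ 2 / τ * (√σ)⁻¹ := by
    intro t ht y hy
    have htI : t ∈ Icc τ (2 * T1) := ⟨ht.1, by linarith only [ht.2, hT1]⟩
    have ht0 : 0 < t := lt_of_lt_of_le hτ ht.1
    have h1 := hnn t htI y hy.1
    have h2 := hle t htI y hy.1
    have h3 := hgr t ⟨ht.1, by linarith only [ht.2, hT1]⟩ y hy.1
    have hσs : 0 < √σ := sqrt_pos.2 hσ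
    refine ⟨?_, h3.trans ?_⟩
    · rw [abs_of_nonneg h1, le_div_iff₀ hτ]
      nlinarith only [h1, h2, ht.1]
    · have h4 : √σ ≤ √(t - τ + σ) := sqrt_le_sqrt (by linarith only [ht.1])
      have h5 : τ ≤ t := ht.1
      gcongr
  refine ⟨C, g, v, hC, htr, hg, hv, ⟨slice' hsol.cv hT1I, hsol.dg T1 hT1I, hsol.odd T1 hT1I,
    fun y => ?_, fun y => ?_⟩, hunif⟩
  · rcases le_total 0 y with hy | hy
    · exact hgμ y hy
    · have := hgμ (-y) (by linarith only [hy])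
      rwa [hsol.odd T1 hT1I, abs_neg] at this
  · rcases le_total 0 y with hy | hy
    · exact hvΛ y hy
    · have := hvΛ (-y) (by linarith only [hy])
      rwa [hev] at this

end

end Pool.Agent.Lib.MP_79abb3_an.P25
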