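import Pool.Agent.Lib.MP_79abb3_an.P25.ExGood

/-!
The perturbation is small at the end of stage A (SA-6).
-/

set_option autoImplicit false
set_option linter.unusedSectionVars false

open MeasureTheory Set Filter Topology Function

namespace Pool.Agent.Lib.MP_79abb3_an.P25

section
variable {H : ℝ} [hH : Fact (0 < H)]

/-- The low norm at a positive time is controlled by energy and dissipation, with a gain `1/q`. -/
theorem sta_low {ε ω t : ℝ} (hε : 0 < ε) (ht : 0 < t) (ht1 : t ≤ 1)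
    {u : ℝ → L1 (Xn H)} (hd : ∀ n : ℤ, Dmode (ω * n) (u t n))
    (sY : Summable fun n => Ye ε ω u n t) (sD : Summable fun n => De ε ω u n t) :
    ‖jL H (u t)‖ ≤ (2 * (1 + 1 / √t)) / qq ε t *
      (√(∑' n, Ye ε ω u n t) * √(∑' n, De ε ω u n t)) := by
  have hq : 1 ≤ qq ε t := qq_one_le
  have hq0 : 0 < qq ε t := by linarith
  have hst : 0 < √t := Real.sqrt_pos.2 ht
  have hst1 : 0 < 1 / √t := by positivity
  have key : ∀ n : ℤ, ‖jn (u t n)‖ ≤ (2 * (1 + 1 / √t)) / qq ε t * √(Ye ε ω u n t * De ε ω u n t) := by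
    intro n
    set k := ω * n with hk
    have hla : 0 ≤ la k := by unfold la; positivity
    have hkla : |k| ≤ la k := by
      unfold la
      have := abs_nonneg k
      linarith
    obtain ⟨hth, -, hinv, -, -, -, -, hbe, -⟩ := th_inv (k := k) hε ht ht1
    have h1 := jn_le hbe.le hth (hd n)
    obtain ⟨hW1, hW2⟩ := WW_one_le (k := k) hε ht.le ht1
    have hE := exg_En_nonneg (be ε t) (th ε k t) (u t n)
    have hD := exg_Dn_nonneg (be ε t) (th ε k t) (u t n)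
    set E := En (be ε t) (th ε k t) (u t n) with hEdef
    set D := Dn (be ε t) (th ε k t) (u t n) with hDdef
    have hW0 : 0 < WW ε k t := by linarith
    have h3 : √(Ye ε ω u n t * De ε ω u n t) = (qq ε t * WW ε k t) * √(E * D) := by
      have : Ye ε ω u n t * De ε ω u n t = (qq ε t * WW ε k t) ^ 2 * (E * D) := by
        unfold Ye De
        ring
      rw [this, Real.sqrt_mul (by positivity), Real.sqrt_sq (by positivity)]
    have h4 : (1 + (th ε k t)⁻¹) * √2 ≤ 2 * (1 + 1 / √t) * WW ε k t := by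
      have e1 : √2 ≤ 2 := by
        rw [Real.sqrt_le_left (by norm_num)]; norm_num
      have e2 : 1 + (th ε k t)⁻¹ ≤ (1 + 1 / √t) * (1 + 2 * la k) := by nlinarith
      have e3 : 0 < (th ε k t)⁻¹ := inv_pos.2 hth
      calc (1 + (th ε k t)⁻¹) * √2 ≤ ((1 + 1 / √t) * (1 + 2 * la k)) * 2 := by gcongr
        _ = 2 * (1 + 1 / √t) * (1 + 2 * la k) := by ring
        _ ≤ 2 * (1 + 1 / √t) * WW ε k t := by gcongr
    rw [h3]
    calc ‖jn (u t n)‖ ≤ (1 + (th ε k t)⁻¹) * √(2 * (E * D)) := h1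
      _ = ((1 + (th ε k t)⁻¹) * √2) * √(E * D) := by
          rw [Real.sqrt_mul (by norm_num)]; ring
      _ ≤ (2 * (1 + 1 / √t) * WW ε k t) * √(E * D) := by gcongr
      _ = (2 * (1 + 1 / √t)) / qq ε t * (qq ε t * WW ε k t * √(E * D)) := by
          field_simp
  have hY : ∀ n, 0 ≤ Ye ε ω u n t := by
    intro n
    unfold Ye
    obtain ⟨hW1, -⟩ := WW_one_le (k := ω * n) hε ht.le ht1
    exact mul_nonneg (mul_nonneg (by linarith) (by linarith)) (exg_En_nonneg _ _ _)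
  have hDe : ∀ n, 0 ≤ De ε ω u n t := by
    intro n
    unfold De
    obtain ⟨hW1, -⟩ := WW_one_le (k := ω * n) hε ht.le ht1
    exact mul_nonneg (mul_nonneg (by linarith) (by linarith)) (exg_Dn_nonneg _ _ _)
  obtain ⟨s1, s2⟩ := exg_cs hY hDe sY sD
  rw [lec_norm_jL_eq]
  calc ∑' n, ‖jn (u t n)‖ ≤ ∑' n, (2 * (1 + 1 / √t)) / qq ε t * √(Ye ε ω u n t * De ε ω u n t) :=
        Summable.tsum_le_tsum key (lec_summable_jn _) (s1.mul_left _)
    _ = (2 * (1 + 1 / √t)) / qq ε t * ∑' n, √(Ye ε ω u n t * De ε ω u n t) := tsum_mul_left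
    _ ≤ _ := by gcongr

/-- Growth of `q` as `ε → 0`. -/
theorem sta_qq {ε t M : ℝ} (hε : 0 < ε) (hM : 0 ≤ M) (ht : ε * M ^ 10 ≤ t) : M ≤ qq ε t := by
  unfold qq
  have h1 : M ^ 10 ≤ t / ε := by
    rw [le_div_iff₀ hε]; linarith
  have h2 : M ^ 20 ≤ 1 + t ^ 2 / ε ^ 2 := by
    have : (M ^ 10) ^ 2 ≤ (t / ε) ^ 2 := by gcongr
    rw [div_pow] at this
    calc M ^ 20 = (M ^ 10) ^ 2 := by ring
      _ ≤ t ^ 2 / ε ^ 2 := this
      _ ≤ 1 + t ^ 2 / ε ^ 2 := by linarith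
  calc M = (M ^ 20) ^ (1 / 20 : ℝ) := by
        rw [← Real.rpow_natCast, ← Real.rpow_mul hM]
        norm_num
    _ ≤ (1 + t ^ 2 / ε ^ 2) ^ (1 / 20 : ℝ) := by
        gcongr

end

/-! SA-6: the perturbation is small at the end of stage A. -/

theorem stageA (H : ℝ) [Fact (0 < H)] (hdir : ∃ S D A : ℝ → (CI H →L[ℂ] CI H), DirSG H S D A)
    {ω : ℝ} {x0 : L1 (Xn H)} (hd : ∀ n : ℤ, Dmode (ω * n) (x0 n)) (hs : Sy x0)
    (hx : Summable fun n => Wq 92 n * ‖x0 n‖) :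
    ∃ T0 > 0, ∀ t2 ∈ Ioc 0 T0, ∀ μ > 0, ∃ ε0 ∈ Ioc (0:ℝ) 1, ∀ ε ∈ Ioc 0 ε0, ∀ g g1 : ℝ → CI H,
      BaseFlow ε g g1 → (∀ t ∈ Icc (0:ℝ) 1, star (g t) = g t ∧ star (g1 t) = g1 t) →
      ∃ s ∈ Ioo (t2 / 2) t2, ∃ u : ℝ → L1 (Xn H),
        PT ω 0 s (fun t => U0 (g t) (g1 t)) (fun _ => 0) u ∧ u 0 = x0 ∧ ‖jL H (u s)‖ ≤ μ := by
  obtain ⟨T0, hT0, C1, hC1, hT01, hmain⟩ := exists_good H hdir hd hs hx
  refine ⟨T0, hT0, ?_⟩
  intro t2 ht2 μ hμ
  have ht20 : 0 < t2 := ht2.1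
  have ht21 : t2 ≤ 1 := by
    have := ht2.2
    linarith
  set K : ℝ := 2 * (1 + 1 / √(t2 / 2)) * (√C1 * √(√(C1 / (7 * t2 / 8 - 5 * t2 / 8)))) with hKdef
  have hK0 : 0 ≤ K := by positivity
  set M : ℝ := K / μ with hMdef
  have hM0 : 0 ≤ M := by positivity
  refine ⟨min 1 ((t2 / 2) / (M + 1) ^ 10), ⟨by positivity, min_le_left _ _⟩, ?_⟩
  intro ε hε g g1 hbase hstar
  have hε0 : 0 < ε := hε.1
  have hε1 : ε ≤ 1 := hε.2.trans (min_le_left _ _)
  have hε2 : ε * (M + 1) ^ 10 ≤ t2 / 2 := by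
    have := hε.2.trans (min_le_right _ _)
    rwa [le_div_iff₀ (by positivity)] at this
  obtain ⟨u, hu, hu0, hsum, hint, hintC⟩ := hmain t2 ht2 ε ⟨hε0, hε1⟩ g g1 hbase hstar
  have hsub : IntervalIntegrable (fun t => (∑' n, De ε ω u n t) ^ 2) volume (5 * t2 / 8) (7 * t2 / 8) := by
    refine hint.mono_set ?_
    rw [uIcc_of_le (by linarith), uIcc_of_le (by linarith)]
    exact Icc_subset_Icc (by linarith) (by linarith)
  have hsubC : ∫ t in (5 * t2 / 8)..(7 * t2 / 8), (∑' n, De ε ω u n t) ^ 2 ≤ C1 := by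
    refine le_trans ?_ hintC
    refine intervalIntegral.integral_mono_interval (by linarith) (by linarith) (by linarith) ?_ hint
    exact Eventually.of_forall fun t => sq_nonneg _
  obtain ⟨s, hsI, hsD⟩ := exg_mean (by linarith) hsub hsubC
  have hs1 : t2 / 2 < s := by
    have := hsI.1
    linarith
  have hs2 : s < t2 := by
    have := hsI.2
    linarith
  refine ⟨s, ⟨hs1, hs2⟩, u, hu.exg_mono le_rfl hs2.le, hu0, ?_⟩
  have hsIcc : s ∈ Icc 0 t2 := ⟨by linarith, hs2.le⟩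
  obtain ⟨sY, sD, hYC⟩ := hsum s hsIcc
  have hlow := sta_low (t := s) hε0 (by linarith) (by linarith) (fun n => hu.dm s hsIcc n) sY sD
  have hMq : M + 1 ≤ qq ε s := sta_qq hε0 (by linarith) (hε2.trans hs1.le)
  have hq0 : 0 < qq ε s := by linarith
  have hD0 : 0 ≤ ∑' n, De ε ω u n s := by
    refine tsum_nonneg fun n => ?_
    unfold De
    obtain ⟨hW1, -⟩ := WW_one_le (k := ω * n) (t := s) hε0 (by linarith) (by linarith)
    exact mul_nonneg (mul_nonneg (by linarith) (by linarith)) (exg_Dn_nonneg _ _ _)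
  have hD1 : ∑' n, De ε ω u n s ≤ √(C1 / (7 * t2 / 8 - 5 * t2 / 8)) := by
    rw [← Real.sqrt_sq hD0]
    exact Real.sqrt_le_sqrt hsD
  calc ‖jL H (u s)‖ ≤ (2 * (1 + 1 / √s)) / qq ε s *
      (√(∑' n, Ye ε ω u n s) * √(∑' n, De ε ω u n s)) := hlow
    _ ≤ (2 * (1 + 1 / √(t2 / 2))) / qq ε s *
      (√C1 * √(√(C1 / (7 * t2 / 8 - 5 * t2 / 8)))) := by
        have e1 : 0 < √(t2 / 2) := Real.sqrt_pos.2 (by linarith)
        have e2 : √(t2 / 2) ≤ √s := Real.sqrt_le_sqrt hs1.le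
        have e3 : 1 / √s ≤ 1 / √(t2 / 2) := one_div_le_one_div_of_le e1 e2
        gcongr
    _ = K / qq ε s := by rw [hKdef]; ring
    _ ≤ μ := by
        rw [div_le_iff₀ hq0]
        have : K = μ * M := by
          rw [hMdef]; field_simp
        rw [this]
        have h5 : M ≤ qq ε s := by linarith
        gcongr

end Pool.Agent.Lib.MP_79abb3_an.P25
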