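import Pool.Agent.Lib.MP_79abb3_an.P25.BackPT
import Pool.Agent.Lib.MP_79abb3_an.P25.BaseEx
import Pool.Agent.Lib.MP_79abb3_an.P25.Extend
import Pool.Agent.Lib.MP_79abb3_an.P25.OfTrL
import Pool.Agent.Lib.MP_79abb3_an.P25.Stage2u
import Pool.Agent.Lib.MP_79abb3_an.P25.StageA

/-!
Approximate control (SB-4).
-/

set_option autoImplicit false
set_option linter.unusedSectionVars false

open MeasureTheory Set Filter Topology Function

namespace Pool.Agent.Lib.MP_79abb3_an.P25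

open Pool.Agent.Lib.MP_79abb3_an

section
variable {H : ℝ} [hH : Fact (0 < H)]

theorem ap_Sy_U0 {g g1 : CI H} (hg : star g = g) (hg1 : star g1 = g1) : Sy (U0 g g1) := by
  intro n
  by_cases hn : n = 0
  · subst hn
    rw [neg_zero, U0_apply_zero]
    change _ = ((star g, star g1, star 0), (star 0, star 0, star 0))
    rw [hg, hg1, star_zero]
  · rw [U0_apply_ne _ _ hn, U0_apply_ne _ _ (neg_ne_zero.2 hn)]
    exact (star_zero (Xn H)).symm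

theorem ap_jL_U0 (g g1 : CI H) : ‖jL H (U0 g g1)‖ ≤ ‖g‖ := by
  rw [l1_norm, tsum_eq_single 0]
  · rw [jL_apply, U0_apply_zero]
    change ‖(g, (0 : CI H))‖ ≤ _
    rw [Prod.norm_mk, norm_zero]
    exact max_le le_rfl (norm_nonneg _)
  · intro n hn
    rw [jL_apply, U0_apply_ne _ _ hn]
    change ‖((0 : CI H), (0 : CI H))‖ = 0
    simp

theorem ap_star_eq {f : CI H} (h : ∀ z ∈ Icc (0:ℝ) H, (ex f z).im = 0) : star f = f := by
  refine ci_ext fun z hz => ?_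
  rw [ex_star]
  apply Complex.ext
  · simp
  · simp [h z hz]

theorem ap_norm_le {f : CI H} (h : ∀ z ∈ Icc (0:ℝ) H, (ex f z).im = 0) {C : ℝ} (hC : 0 ≤ C)
    (h1 : ∀ z ∈ Icc (0:ℝ) H, 0 ≤ (ex f z).re ∧ (ex f z).re ≤ C) : ‖f‖ ≤ C := by
  refine ci_norm_le hC fun z hz => ?_
  have h2 : ex f z = (((ex f z).re : ℝ) : ℂ) := by
    apply Complex.ext
    · simp
    · simp [h z hz]
  rw [h2, Complex.norm_real, Real.norm_eq_abs, abs_of_nonneg (h1 z hz).1]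
  exact (h1 z hz).2

theorem ap_aa_le {ε t : ℝ} (ht : 0 < t) : aa ε t ≤ 1 / t := by
  rw [aa, div_le_div_iff₀ (by positivity) ht]
  nlinarith [sq_nonneg ε]

theorem ap_aa_nonneg {ε t : ℝ} (ht : 0 < t) : 0 ≤ aa ε t := by
  rw [aa]
  positivity

theorem BaseAt.ap_norm {ε t : ℝ} {g g1 : CI H} (h : BaseAt ε t g g1) (ht : 0 < t) :
    ‖U0 g g1‖ ≤ 1 / t + 2 / t * (√t)⁻¹ := by
  have ha := ap_aa_nonneg (ε := ε) ht
  have ha1 := ap_aa_le (ε := ε) ht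
  have hs : 0 < √t := Real.sqrt_pos.2 ht
  refine (norm_U0_le g g1).trans (add_le_add ?_ ?_)
  · exact (ap_norm_le (fun z hz => (h.re z hz).1) ha fun z hz => ⟨h.nn z hz, h.le z hz⟩).trans ha1
  · have h2 : ‖g1‖ ≤ 2 * aa ε t / √t :=
      ap_norm_le (fun z hz => (h.re z hz).2) (by positivity) fun z hz => ⟨h.mono z hz, h.up z hz⟩
    refine h2.trans ?_
    rw [div_eq_mul_inv]
    gcongr
    calc 2 * aa ε t ≤ 2 * (1 / t) := by gcongr
      _ = 2 / t := by ring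

theorem ap_piece {ω a b : ℝ} {P : ℝ → ℝ} {U u : ℝ → L1 (Xn H)}
    (hU : LT ω a b ∅ P (fun t => Bf ω (U t) (U t)) U) (hu : PT ω a b U (fun _ => 0) u) :
    Traj ω a b ∅ P (fun t => U t + u t) := by
  refine Traj.of_PT (F := fun _ => 0) (hU.congr (fun _ _ => rfl) (fun t _ n => ?_) (fun _ _ => rfl)) hu
  change Bf ω (U t) (U t) n - 0 = _
  rw [sub_zero]

theorem ap_glue {ω a b c : ℝ} {J J' : Set ℝ} {P P' : ℝ → ℝ} {u u' : ℝ → L1 (Xn H)}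
    (h : Traj ω a b J P u) (h' : Traj ω b c J' P' u') (hab : a ≤ b) (hbc : b ≤ c)
    (hu : u b = u' b) :
    Traj ω a c (J ∪ J' ∪ {b}) (fun t => if t ≤ b then P t else P' t)
      (fun t => if t ≤ b then u t else u' t) := by
  refine (LT.glue h h' hab hbc (fun n => by rw [hu])).congr (fun _ _ => rfl) (fun t _ n => ?_)
    (fun _ _ => rfl)
  by_cases ht : t ≤ b
  · simp only [if_pos ht]
  · simp only [if_neg ht]

end

theorem approx_ctrl (H : ℝ) [Fact (0 < H)] (hH : 1 ≤ H)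
    (hdir : ∃ S D A : ℝ → (CI H →L[ℂ] CI H), DirSG H S D A) {ω T : ℝ} (hT : 0 < T) (hT1 : T ≤ 1) :
    ∃ Λ, 1 ≤ Λ ∧ ∀ (x0 : L1 (Xn H)), (∀ n : ℤ, Dmode (ω * n) (x0 n)) → Sy x0 →
      (Summable fun n => Wq 92 n * ‖x0 n‖) → ∀ μ > 0, ∃ b ∈ Ioc 0 T, ∃ (J : Set ℝ) (P : ℝ → ℝ)
        (u : ℝ → L1 (Xn H)), Traj ω 0 b J P u ∧ u 0 = x0 ∧ (∀ n : ℤ, Cmode (ω * n) (u b n)) ∧
          Sy (u b) ∧ ‖jL H (u b)‖ ≤ μ ∧ ‖u b‖ ≤ Λ := by
  have hH0 : 0 < H := by linarith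
  obtain ⟨T1, hT1e⟩ : ∃ T1, T1 = T / 4 := ⟨_, rfl⟩
  have hT1p : 0 < T1 := by linarith
  have hT1q : T1 ≤ 1 / 4 := by linarith
  obtain ⟨Λb, hΛb⟩ : ∃ Λb, Λb = max 1 (2 / T1 * (√(T1 / 2))⁻¹) := ⟨_, rfl⟩
  have hΛb1 : 1 ≤ Λb := by rw [hΛb]; exact le_max_left _ _
  have hΛb2 : 2 / T1 * (√(T1 / 2))⁻¹ ≤ Λb := by rw [hΛb]; exact le_max_right _ _
  refine ⟨Λb + 3, by linarith, ?_⟩
  intro x0 hd0 hs0 hx0 μ hμ
  obtain ⟨μm, hμm⟩ : ∃ μm, μm = min μ 1 := ⟨_, rfl⟩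
  have hμm0 : 0 < μm := by rw [hμm]; exact lt_min hμ one_pos
  have hμm1 : μm ≤ 1 := by rw [hμm]; exact min_le_right _ _
  have hμm2 : μm ≤ μ := by rw [hμm]; exact min_le_left _ _
  -- the flushing stage
  obtain ⟨η, hη0, hη1, hηT, hfl⟩ := stage2u (L := H) (T1 := T1) (μ := μm / 2) (Λ := Λb) hH0.le hT1p
    (by linarith) (by linarith) hΛb2
  obtain ⟨w, hwe⟩ : ∃ w, w = min 1 (η / (16 * (H + 1))) := ⟨_, rfl⟩
  have hw0 : 0 < w := by rw [hwe]; exact lt_min one_pos (by positivity)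
  have hw1 : w ≤ 1 := by rw [hwe]; exact min_le_left _ _
  have hw2 : w * (16 * (H + 1)) ≤ η := by
    rw [← le_div_iff₀ (by positivity), hwe]
    exact min_le_right _ _
  obtain ⟨c, hc0, hc1, hext⟩ := extend_base (H := H) hH hw0 hw1
  obtain ⟨T0, hT0, hA⟩ := stageA H hdir hd0 hs0 hx0
  -- the time t2
  obtain ⟨κ, hκe⟩ : ∃ κ, κ = 3 * η / (32 * (H + 1)) := ⟨_, rfl⟩
  have hκ0 : 0 < κ := by rw [hκe]; positivity
  obtain ⟨t2, ht2e⟩ : ∃ t2, t2 = min (min T0 η) (min (T / 4) (κ ^ 2)) := ⟨_, rfl⟩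
  have ht20 : 0 < t2 := by
    rw [ht2e]
    exact lt_min (lt_min hT0 hη0) (lt_min (by linarith) (by positivity))
  have ht2a : t2 ≤ T0 := by rw [ht2e]; exact (min_le_left _ _).trans (min_le_left _ _)
  have ht2b : t2 ≤ η := by rw [ht2e]; exact (min_le_left _ _).trans (min_le_right _ _)
  have ht2c : t2 ≤ T / 4 := by rw [ht2e]; exact (min_le_right _ _).trans (min_le_left _ _)
  have ht2d : √t2 ≤ κ := by
    rw [Real.sqrt_le_left hκ0.le, ht2e]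
    exact (min_le_right _ _).trans (min_le_right _ _)
  have ht21 : t2 ≤ 1 := by linarith
  obtain ⟨τ, hτe⟩ : ∃ τ, τ = t2 * H / (H + w) := ⟨_, rfl⟩
  have hτ0 : 0 < τ := by rw [hτe]; positivity
  have hτt : τ ≤ t2 := by
    rw [hτe, div_le_iff₀ (by positivity)]
    nlinarith
  have hτη : τ ≤ η := hτt.trans ht2b
  have hτT : τ ≤ T1 / 2 := hτη.trans hηT
  obtain ⟨σ, hσe⟩ : ∃ σ, σ = c * t2 := ⟨_, rfl⟩
  have hσ0 : 0 < σ := by rw [hσe]; positivity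
  -- the bound of the backgrounds
  obtain ⟨R0, hR0e⟩ : ∃ R0, R0 = 2 / t2 + 4 / t2 * (√(t2 / 2))⁻¹ := ⟨_, rfl⟩
  obtain ⟨R1, hR1e⟩ : ∃ R1, R1 = 1 / τ + 2 / τ * (√σ)⁻¹ := ⟨_, rfl⟩
  have hR0 : 0 ≤ R0 := by rw [hR0e]; positivity
  have hR1 : 0 ≤ R1 := by rw [hR1e]; positivity
  obtain ⟨μ1, hμ1, K, hK, hsd⟩ := small_data H hdir (R := R0 + R1) (by linarith)
  have hK0 : 0 < K := by linarith
  have hsT : 0 < √(T1 / 2) := Real.sqrt_pos.2 (by linarith)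
  obtain ⟨μ', hμ'e⟩ : ∃ μ', μ' = min (μ1 / K) (min (μm / (2 * K ^ 2)) (√(T1 / 2) / K ^ 2)) :=
    ⟨_, rfl⟩
  have hμ'0 : 0 < μ' := by
    rw [hμ'e]
    exact lt_min (by positivity) (lt_min (by positivity) (by positivity))
  have hμ'1 : K * μ' ≤ μ1 := by
    rw [mul_comm, ← le_div_iff₀ hK0, hμ'e]
    exact min_le_left _ _
  have hμ'2 : K ^ 2 * μ' ≤ μm / 2 := by
    have h1 : μ' ≤ μm / (2 * K ^ 2) := by
      rw [hμ'e]
      exact (min_le_right _ _).trans (min_le_left _ _)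
    calc K ^ 2 * μ' ≤ K ^ 2 * (μm / (2 * K ^ 2)) := by gcongr
      _ = μm / 2 := by field_simp
  have hμ'3 : K ^ 2 * μ' ≤ √(T1 / 2) := by
    have h1 : μ' ≤ √(T1 / 2) / K ^ 2 := by
      rw [hμ'e]
      exact (min_le_right _ _).trans (min_le_right _ _)
    calc K ^ 2 * μ' ≤ K ^ 2 * (√(T1 / 2) / K ^ 2) := by gcongr
      _ = √(T1 / 2) := by field_simp
  have hμ'4 : μ' ≤ μ1 := by nlinarith
  obtain ⟨ε0, hε0, hA⟩ := hA t2 ⟨ht20, ht2a⟩ μ' hμ'0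
  obtain ⟨ε, hεe⟩ : ∃ ε, ε = min ε0 (η * t2 ^ 2 / (16 * (H + 1) * H)) := ⟨_, rfl⟩
  have hε : 0 < ε := by rw [hεe]; exact lt_min hε0.1 (by positivity)
  have hεε0 : ε ≤ ε0 := by rw [hεe]; exact min_le_left _ _
  have hε1 : ε ≤ 1 := hεε0.trans hε0.2
  have hε2 : ε * (16 * (H + 1) * H) ≤ η * t2 ^ 2 := by
    rw [← le_div_iff₀ (by positivity), hεe]
    exact min_le_right _ _
  obtain ⟨g, g1, hgc, hg1c, hg00, hg10, hbase, hLT⟩ := exists_base H hH hdir hε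
  have hstar : ∀ t ∈ Icc (0:ℝ) 1, star (g t) = g t ∧ star (g1 t) = g1 t := by
    intro t ht
    rcases ht.1.eq_or_lt with h | h
    · rw [← h, hg00, hg10, star_zero]
      exact ⟨rfl, rfl⟩
    · have h1 := hbase t ⟨h, ht.2⟩
      exact ⟨ap_star_eq fun z hz => (h1.re z hz).1, ap_star_eq fun z hz => (h1.re z hz).2⟩
  obtain ⟨s, hs, u1, hu1, hu10, hu1s⟩ := hA ε ⟨hε, hεε0⟩ g g1 ⟨hgc, hg1c, hbase⟩ hstar
  have hs0' : 0 < s := by linarith [hs.1]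
  have hs1 : s ≤ 1 := hs.2.le.trans ht21
  -- first piece
  have hA1 : Traj ω 0 s ∅ (PP ε) (fun t => U0 (g t) (g1 t) + u1 t) :=
    ap_piece ((hLT ω).mono le_rfl hs1 (Subset.refl _) countable_empty) hu1
  -- second piece
  have hbdU : ∀ t ∈ Icc s t2, ‖U0 (g t) (g1 t)‖ ≤ R0 + R1 ∧ Sy (U0 (g t) (g1 t)) := by
    intro t ht
    have ht0 : 0 < t := hs0'.trans_le ht.1
    have htt : t2 / 2 ≤ t := hs.1.le.trans ht.1
    have ht1 : t ≤ 1 := ht.2.trans ht21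
    have hst := hstar t ⟨ht0.le, ht1⟩
    refine ⟨?_, ap_Sy_U0 hst.1 hst.2⟩
    refine ((hbase t ⟨ht0, ht1⟩).ap_norm ht0).trans ?_
    have h1 : 1 / t ≤ 2 / t2 := by
      rw [div_le_div_iff₀ ht0 ht20]
      linarith
    have h2 : (√t)⁻¹ ≤ (√(t2 / 2))⁻¹ :=
      inv_anti₀ (Real.sqrt_pos.2 (by linarith)) (Real.sqrt_le_sqrt htt)
    have h3 : 2 / t ≤ 4 / t2 := by
      rw [div_le_div_iff₀ ht0 ht20]
      linarith
    have h4 : 2 / t * (√t)⁻¹ ≤ 4 / t2 * (√(t2 / 2))⁻¹ := by gcongr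
    rw [hR0e]
    linarith
  have hUc : ContinuousOn (fun t => U0 (g t) (g1 t)) (Icc 0 1) := by
    have := (hLT 0).cX
    rwa [sdiff_empty] at this
  obtain ⟨u2, hu2, hu20, hu2b, -⟩ := hsd ω s t2 (fun t => U0 (g t) (g1 t)) (u1 s) hs.2
    (by linarith) (hUc.mono (Icc_subset_Icc hs0'.le ht21)) hbdU
    (hu1.dm s ⟨hs0'.le, le_rfl⟩) (hu1.sy s ⟨hs0'.le, le_rfl⟩) (hu1s.trans hμ'4)
  have hA2 : Traj ω s t2 ∅ (PP ε) (fun t => U0 (g t) (g1 t) + u2 t) :=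
    ap_piece ((hLT ω).mono hs0'.le ht21 (Subset.refl _) countable_empty) hu2
  have hu2e : ‖jL H (u2 t2)‖ ≤ K * μ' := by
    refine (hu2b t2 ⟨hs.2.le, le_rfl⟩).trans ?_
    gcongr
  -- the flushing stage
  obtain ⟨M1, e, e', hM1, hAdm, hcτ, hee, he0, hpot⟩ := hext ε t2 (g t2) (g1 t2) hε ht20 ht21
    (hbase t2 ⟨ht20, ht21⟩)
  rw [← hτe] at hAdm hcτ hpot
  rw [← hσe] at hAdm hcτ
  have hpot' : pot (fun _ => e) τ (H + w) ≤ η := by
    refine hpot.trans ?_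
    have h1 : 2 * (H + w) * (2 * w) ≤ η / 4 := by nlinarith
    have h2 : ε ^ 2 ≤ ε := by nlinarith
    have h3 : 2 * (H + w) * (2 * H * (ε ^ 2 / t2 ^ 2)) ≤ η / 4 := by
      have h4 : ε ^ 2 / t2 ^ 2 ≤ η / (16 * (H + 1) * H) := by
        rw [div_le_div_iff₀ (by positivity) (by positivity)]
        calc ε ^ 2 * (16 * (H + 1) * H) ≤ ε * (16 * (H + 1) * H) := by gcongr
          _ ≤ η * t2 ^ 2 := hε2
      calc 2 * (H + w) * (2 * H * (ε ^ 2 / t2 ^ 2))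
          ≤ 2 * (H + 1) * (2 * H * (η / (16 * (H + 1) * H))) := by gcongr
        _ = η / 4 := by field_simp; norm_num
    have h5 : 2 * (H + w) * (4 / 3 * √t2) ≤ η / 4 := by
      calc 2 * (H + w) * (4 / 3 * √t2) ≤ 2 * (H + 1) * (4 / 3 * κ) := by gcongr
        _ = η / 4 := by rw [hκe]; field_simp; norm_num
    nlinarith
  obtain ⟨C, gg, vv', hC, hTr, hgτ, hvτ, hodd, hbd⟩ := hfl τ (H + w) M1 σ e e' hτ0 hτη
    (by positivity) (by linarith) hM1 hAdm hσ0 hcτ he0 hpot'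
  have hτT1 : τ ≤ T1 := by linarith
  obtain ⟨G, G1, hGc, hG1c, hGex, hGst, hGLT⟩ := LT_of_TrL (ω := ω) hτT1 hTr
  obtain ⟨d, hde⟩ : ∃ d, d = t2 - τ := ⟨_, rfl⟩
  obtain ⟨b, hbe⟩ : ∃ b, b = T1 + d := ⟨_, rfl⟩
  have hτd : τ + d = t2 := by rw [hde]; ring
  have hbt : t2 < b := by rw [hbe, hde]; linarith
  have hGLT' : LT ω t2 b ∅ (fun _ => 0)
      (fun t => Bf ω (U0 (G (t - d)) (G1 (t - d))) (U0 (G (t - d)) (G1 (t - d))))
      (fun t => U0 (G (t - d)) (G1 (t - d))) := by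
    have h1 := hGLT.shift d
    rw [preimage_empty, hτd, ← hbe] at h1
    exact h1
  have hmem : ∀ t ∈ Icc t2 b, t - d ∈ Icc τ T1 := fun t ht =>
    ⟨by linarith [ht.1], by linarith [ht.2]⟩
  have hbdG : ∀ t ∈ Icc t2 b, ‖U0 (G (t - d)) (G1 (t - d))‖ ≤ R0 + R1 ∧
      Sy (U0 (G (t - d)) (G1 (t - d))) := by
    intro t ht
    have h1 := hmem t ht
    refine ⟨?_, ap_Sy_U0 (hGst _ h1).1 (hGst _ h1).2⟩
    refine (norm_U0_le _ _).trans ?_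
    have h2 : ‖G (t - d)‖ ≤ 1 / τ := by
      refine ci_norm_le (by positivity) fun z hz => ?_
      rw [(hGex _ h1 z hz).1, Complex.norm_real, Real.norm_eq_abs]
      exact (hbd _ h1 z hz).1
    have h3 : ‖G1 (t - d)‖ ≤ 2 / τ * (√σ)⁻¹ := by
      refine ci_norm_le (by positivity) fun z hz => ?_
      rw [(hGex _ h1 z hz).2, Complex.norm_real, Real.norm_eq_abs]
      exact (hbd _ h1 z hz).2
    rw [hR1e]
    linarith
  have hGUc : ContinuousOn (fun t => U0 (G (t - d)) (G1 (t - d))) (Icc t2 b) := by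
    have := hGLT'.cX
    rwa [sdiff_empty] at this
  have hb1 : b ≤ t2 + 1 := by rw [hbe, hde]; linarith
  obtain ⟨u3, hu3, hu30, hu3b, hu3e⟩ := hsd ω t2 b (fun t => U0 (G (t - d)) (G1 (t - d))) (u2 t2)
    hbt hb1 hGUc hbdG (hu2.dm t2 ⟨hs.2.le, le_rfl⟩) (hu2.sy t2 ⟨hs.2.le, le_rfl⟩)
    (hu2e.trans hμ'1)
  have hA3 : Traj ω t2 b ∅ (fun _ => 0) (fun t => U0 (G (t - d)) (G1 (t - d)) + u3 t) :=
    ap_piece hGLT' hu3
  -- gluing
  have hglue1 := ap_glue hA1 hA2 hs0'.le hs.2.le (by rw [hu20])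
  have hGg : U0 (G (t2 - d)) (G1 (t2 - d)) = U0 (g t2) (g1 t2) := by
    have h0 : t2 - d = τ := by rw [hde]; ring
    have h1 : τ ∈ Icc τ T1 := ⟨le_rfl, hτT1⟩
    rw [h0]
    congr 1
    · refine ci_ext fun z hz => ?_
      rw [(hGex τ h1 z hz).1, hgτ, (hee z hz).1]
    · refine ci_ext fun z hz => ?_
      rw [(hGex τ h1 z hz).2, hvτ, (hee z hz).2]
  have hglue2 := ap_glue hglue1 hA3 ht20.le hbt.le (by
    rw [if_neg (not_le.2 hs.2), hu30, hGg])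
  have hub : (if b ≤ t2 then (if b ≤ s then U0 (g b) (g1 b) + u1 b else
      U0 (g b) (g1 b) + u2 b) else U0 (G (b - d)) (G1 (b - d)) + u3 b) =
      U0 (G T1) (G1 T1) + u3 b := by
    have h0 : b - d = T1 := by rw [hbe]; ring
    rw [if_neg (not_le.2 hbt), h0]
  have hT1m : T1 ∈ Icc τ T1 := ⟨hτT1, le_rfl⟩
  have hju3 : ‖jL H (u3 b)‖ ≤ μm / 2 := by
    refine (hu3b b ⟨hbt.le, le_rfl⟩).trans ?_
    calc K * ‖jL H (u2 t2)‖ ≤ K * (K * μ') := by gcongr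
      _ = K ^ 2 * μ' := by ring
      _ ≤ μm / 2 := hμ'2
  have hu3n : ‖u3 b‖ ≤ 1 := by
    have h1 : √(T1 / 2) ≤ √(b - t2) := Real.sqrt_le_sqrt (by rw [hbe, hde]; linarith)
    have h2 : √(b - t2) * ‖u3 b‖ ≤ √(T1 / 2) := by
      refine hu3e.trans ?_
      calc K * ‖jL H (u2 t2)‖ ≤ K * (K * μ') := by gcongr
        _ = K ^ 2 * μ' := by ring
        _ ≤ _ := hμ'3
    have h3 : √(T1 / 2) * ‖u3 b‖ ≤ √(T1 / 2) * 1 := by
      rw [mul_one]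
      refine le_trans ?_ h2
      gcongr
    exact le_of_mul_le_mul_left h3 hsT
  have hGT : ‖G T1‖ ≤ μm / 2 := by
    refine ci_norm_le (by linarith) fun z hz => ?_
    rw [(hGex _ hT1m z hz).1, Complex.norm_real, Real.norm_eq_abs]
    exact hodd.b0 z
  have hG1T : ‖G1 T1‖ ≤ Λb := by
    refine ci_norm_le (by linarith) fun z hz => ?_
    rw [(hGex _ hT1m z hz).2, Complex.norm_real, Real.norm_eq_abs]
    exact hodd.b1 z
  refine ⟨b, ⟨by linarith, by rw [hbe, hde]; linarith⟩, _, _, _, hglue2, ?_, ?_, ?_, ?_, ?_⟩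
  · simp only [if_pos ht20.le, if_pos hs0'.le, hu10, hg00, hg10]
    have h1 : U0 (0 : CI H) 0 = 0 := by
      rw [← norm_eq_zero]
      refine le_antisymm ((norm_U0_le _ _).trans (by simp)) (norm_nonneg _)
    rw [h1, zero_add]
  · intro n
    refine (congrArg (fun x : L1 (Xn H) => Cmode (ω * n) (x n)) hub).mpr ?_
    have h1 := hA3.cm b ⟨⟨hbt.le, le_rfl⟩, notMem_empty _⟩ n
    have h0 : b - d = T1 := by rw [hbe]; ring
    simp only [h0] at h1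
    exact h1
  · refine (congrArg (fun x : L1 (Xn H) => Sy x) hub).mpr ?_
    intro n
    have h1 := ap_Sy_U0 (hGst _ hT1m).1 (hGst _ hT1m).2 n
    have h2 := hu3.sy b ⟨hbt.le, le_rfl⟩ n
    change U0 (G T1) (G1 T1) (-n) + u3 b (-n) = star (U0 (G T1) (G1 T1) n + u3 b n)
    rw [h1, h2]
    exact (star_add _ _).symm
  · refine (congrArg (fun x : L1 (Xn H) => ‖jL H x‖ ≤ μ) hub).mpr ?_
    rw [map_add]
    refine (norm_add_le _ _).trans ?_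
    have := (ap_jL_U0 (G T1) (G1 T1)).trans hGT
    linarith
  · refine (congrArg (fun x : L1 (Xn H) => ‖x‖ ≤ Λb + 3) hub).mpr ?_
    refine (norm_add_le _ _).trans ?_
    have := norm_U0_le (G T1) (G1 T1)
    linarith

end Pool.Agent.Lib.MP_79abb3_an.P25
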