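import Mathlib

/-!
A Gronwall lemma with a singular coefficient.
-/

set_option autoImplicit false

open MeasureTheory Set Filter Topology Function

namespace Pool.Agent.Lib.MP_79abb3_an.P25

/-- The energy inequality, integrated, in terms of the maximum `m` of `y`. -/
theorem gron_aux {b t m : ℝ} (hb0 : 0 ≤ b) (ht : t ∈ Icc 0 b) {y d F : ℝ → ℝ}
    (cy : ContinuousOn y (Icc 0 b)) (cd : ContinuousOn d (Icc 0 b))
    (cF : ContinuousOn F (Icc 0 b)) (hy : ∀ s ∈ Icc 0 b, 0 ≤ y s)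
    (hF : ∀ s ∈ Icc 0 b, 0 ≤ F s) (hm : ∀ s ∈ Icc 0 t, y s ≤ m)
    (h : ∀ s ∈ Ioo 0 b, ∃ y', HasDerivAt (fun s => y s ^ 2) y' s ∧
      y' ≤ -(1 / 5) * d s ^ 2 + 4 / √s * y s ^ 2 + 2 * F s * y s) :
    ∀ s ∈ Icc 0 t, y s ^ 2 + 1 / 5 * ∫ r in (0:ℝ)..s, d r ^ 2 ≤
      y 0 ^ 2 + 8 * √s * m ^ 2 + 2 * m * ∫ r in (0:ℝ)..s, F r := by
  set D : ℝ → ℝ := fun r => d (projIcc 0 b hb0 r) with hD
  set E : ℝ → ℝ := fun r => F (projIcc 0 b hb0 r) with hE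
  have cD : Continuous D := cd.comp_continuous (continuous_subtype_val.comp continuous_projIcc)
    (fun r => (projIcc 0 b hb0 r).2)
  have cE : Continuous E := cF.comp_continuous (continuous_subtype_val.comp continuous_projIcc)
    (fun r => (projIcc 0 b hb0 r).2)
  have hDd : ∀ r ∈ Icc 0 b, D r = d r := fun r hr => by
    rw [hD]; simp only [projIcc_of_mem hb0 hr]
  have hEF : ∀ r ∈ Icc 0 b, E r = F r := fun r hr => by
    rw [hE]; simp only [projIcc_of_mem hb0 hr]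
  have hiD : ∀ s ∈ Icc 0 b, ∫ r in (0:ℝ)..s, d r ^ 2 = ∫ r in (0:ℝ)..s, D r ^ 2 := by
    intro s hs
    refine intervalIntegral.integral_congr fun r hr => ?_
    rw [uIcc_of_le hs.1] at hr
    simp only [hDd r ⟨hr.1, hr.2.trans hs.2⟩]
  have hiE : ∀ s ∈ Icc 0 b, ∫ r in (0:ℝ)..s, F r = ∫ r in (0:ℝ)..s, E r := by
    intro s hs
    refine intervalIntegral.integral_congr fun r hr => ?_
    rw [uIcc_of_le hs.1] at hr
    simp only [hEF r ⟨hr.1, hr.2.trans hs.2⟩]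
  set Φ : ℝ → ℝ := fun s => y s ^ 2 + 1 / 5 * (∫ r in (0:ℝ)..s, D r ^ 2) - 8 * √s * m ^ 2 -
    2 * m * ∫ r in (0:ℝ)..s, E r with hΦ
  have cD2 : Continuous fun r => D r ^ 2 := cD.pow 2
  have hI1 : Continuous fun s => ∫ r in (0:ℝ)..s, D r ^ 2 :=
    intervalIntegral.continuous_primitive (fun a c => cD2.intervalIntegrable a c) 0
  have hI2 : Continuous fun s => ∫ r in (0:ℝ)..s, E r :=
    intervalIntegral.continuous_primitive (fun a c => cE.intervalIntegrable a c) 0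
  have htb : Icc 0 t ⊆ Icc 0 b := Icc_subset_Icc_right ht.2
  have hm0 : 0 ≤ m := (hy 0 ⟨le_rfl, hb0⟩).trans (hm 0 ⟨le_rfl, ht.1⟩)
  have cΦ : ContinuousOn Φ (Icc 0 t) := by
    have h1 : ContinuousOn (fun s => y s ^ 2) (Icc 0 t) := (cy.mono htb).pow 2
    have h2 : Continuous fun s : ℝ => 8 * √s * m ^ 2 := by fun_prop
    exact ((h1.add (hI1.const_smul (1 / 5 : ℝ)).continuousOn).sub h2.continuousOn).sub
      (continuous_const.mul hI2).continuousOn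
  have hder : ∀ s ∈ Ioo 0 t, ∃ Φ', HasDerivAt Φ Φ' s ∧ Φ' ≤ 0 := by
    intro s hs
    have hsb : s ∈ Ioo 0 b := ⟨hs.1, hs.2.trans_le ht.2⟩
    have hsI : s ∈ Icc 0 b := ⟨hs.1.le, hsb.2.le⟩
    obtain ⟨y', hy', hle⟩ := h s hsb
    have hs0 : s ≠ 0 := hs.1.ne'
    have hq : 0 < √s := Real.sqrt_pos.2 hs.1
    have h1 : HasDerivAt (fun s => ∫ r in (0:ℝ)..s, D r ^ 2) (D s ^ 2) s :=
      intervalIntegral.integral_hasDerivAt_right (cD2.intervalIntegrable _ _)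
        (cD2.stronglyMeasurableAtFilter _ _) cD2.continuousAt
    have h2 : HasDerivAt (fun s => ∫ r in (0:ℝ)..s, E r) (E s) s :=
      intervalIntegral.integral_hasDerivAt_right (cE.intervalIntegrable _ _)
        (cE.stronglyMeasurableAtFilter _ _) cE.continuousAt
    have h3 : HasDerivAt (fun s : ℝ => 8 * √s * m ^ 2) (8 * (1 / (2 * √s)) * m ^ 2) s :=
      ((Real.hasDerivAt_sqrt hs0).const_mul 8).mul_const _
    refine ⟨_, ((hy'.add (h1.const_mul (1 / 5))).sub h3).sub (h2.const_mul (2 * m)), ?_⟩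
    rw [hDd s hsI, hEF s hsI]
    have hys : y s ≤ m := hm s ⟨hs.1.le, hs.2.le⟩
    have hy0 := hy s hsI
    have hF0 := hF s hsI
    have h4 : 4 / √s * y s ^ 2 ≤ 4 / √s * m ^ 2 := by
      gcongr
    have h5 : 2 * F s * y s ≤ 2 * m * F s := by nlinarith
    have h6 : 8 * (1 / (2 * √s)) * m ^ 2 = 4 / √s * m ^ 2 := by
      field_simp
      ring
    linarith
  have hanti : AntitoneOn Φ (Icc 0 t) := by
    refine antitoneOn_of_deriv_nonpos (convex_Icc 0 t) cΦ ?_ ?_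
    · intro s hs
      rw [interior_Icc] at hs
      obtain ⟨Φ', h1, -⟩ := hder s hs
      exact h1.differentiableAt.differentiableWithinAt
    · intro s hs
      rw [interior_Icc] at hs
      obtain ⟨Φ', h1, h2⟩ := hder s hs
      rw [h1.deriv]
      exact h2
  intro s hs
  have h1 := hanti ⟨le_rfl, ht.1⟩ hs hs.1
  simp only [hΦ, intervalIntegral.integral_same, Real.sqrt_zero, mul_zero, zero_mul, sub_zero,
    add_zero] at h1
  rw [hiD s (htb hs), hiE s (htb hs)]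
  linarith

theorem gron {b : ℝ} (hb0 : 0 ≤ b) (hb : b ≤ 1 / 4096) {y d F : ℝ → ℝ} (cy : ContinuousOn y (Icc 0 b))
    (cd : ContinuousOn d (Icc 0 b)) (cF : ContinuousOn F (Icc 0 b)) (hy : ∀ t ∈ Icc 0 b, 0 ≤ y t)
    (hF : ∀ t ∈ Icc 0 b, 0 ≤ F t)
    (h : ∀ t ∈ Ioo 0 b, ∃ y', HasDerivAt (fun t => y t ^ 2) y' t ∧
      y' ≤ -(1 / 5) * d t ^ 2 + 4 / √t * y t ^ 2 + 2 * F t * y t) :
    ∀ t ∈ Icc 0 b, y t ≤ 3 * (y 0 + ∫ s in (0:ℝ)..t, F s) ∧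
      ∫ s in (0:ℝ)..t, d s ^ 2 ≤ 49 * (y 0 + ∫ s in (0:ℝ)..t, F s) ^ 2 := by
  intro t ht
  have htb : Icc 0 t ⊆ Icc 0 b := Icc_subset_Icc_right ht.2
  obtain ⟨s0, hs0, hmax⟩ := isCompact_Icc.exists_isMaxOn (nonempty_Icc.2 ht.1) (cy.mono htb)
  have hm : ∀ s ∈ Icc 0 t, y s ≤ y s0 := fun s hs => hmax hs
  have key := gron_aux hb0 ht cy cd cF hy hF hm h
  have hiF : ∀ a c : ℝ, a ∈ Icc 0 b → c ∈ Icc 0 b → IntervalIntegrable F volume a c :=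
    fun a c ha hc => (cF.mono (uIcc_subset_Icc ha hc)).intervalIntegrable
  have hI : ∀ s ∈ Icc 0 t, ∫ r in (0:ℝ)..s, F r ≤ ∫ r in (0:ℝ)..t, F r := by
    intro s hs
    have h0 : (0:ℝ) ∈ Icc 0 b := ⟨le_rfl, hb0⟩
    have h1 := intervalIntegral.integral_add_adjacent_intervals (hiF 0 s h0 (htb hs))
      (hiF s t (htb hs) ht)
    have h2 : 0 ≤ ∫ r in s..t, F r :=
      intervalIntegral.integral_nonneg hs.2 fun r hr => hF r ⟨hs.1.trans hr.1, hr.2.trans ht.2⟩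
    linarith
  have hsq : ∀ s ∈ Icc 0 t, √s ≤ 1 / 64 := by
    intro s hs
    have h1 : s ≤ 1 / 4096 := (hs.2.trans ht.2).trans hb
    calc √s ≤ √((1 / 64) ^ 2) := Real.sqrt_le_sqrt (by norm_num; linarith)
      _ = 1 / 64 := Real.sqrt_sq (by norm_num)
  have hI0 : 0 ≤ ∫ r in (0:ℝ)..t, F r :=
    intervalIntegral.integral_nonneg ht.1 fun r hr => hF r (htb hr)
  have hy0 : 0 ≤ y 0 := hy 0 ⟨le_rfl, hb0⟩
  have hm0 : 0 ≤ y s0 := hy s0 (htb hs0)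
  have h0m : y 0 ≤ y s0 := hm 0 ⟨le_rfl, ht.1⟩
  set I := ∫ r in (0:ℝ)..t, F r with hIdef
  set m := y s0 with hmdef
  have hd0 : ∀ s ∈ Icc 0 t, 0 ≤ ∫ r in (0:ℝ)..s, d r ^ 2 := fun s hs =>
    intervalIntegral.integral_nonneg hs.1 fun r _ => sq_nonneg _
  have key2 : ∀ s ∈ Icc 0 t, y s ^ 2 + 1 / 5 * ∫ r in (0:ℝ)..s, d r ^ 2 ≤
      y 0 ^ 2 + 1 / 8 * m ^ 2 + 2 * m * I := by
    intro s hs
    have h1 := key s hs
    have h2 : 8 * √s * m ^ 2 ≤ 1 / 8 * m ^ 2 := by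
      have := hsq s hs
      have := sq_nonneg m
      nlinarith
    have h3 : 2 * m * ∫ r in (0:ℝ)..s, F r ≤ 2 * m * I :=
      mul_le_mul_of_nonneg_left (hI s hs) (by linarith)
    linarith
  have h1 : m ^ 2 ≤ y 0 ^ 2 + 1 / 8 * m ^ 2 + 2 * m * I := by
    have := key2 s0 hs0
    have := hd0 s0 hs0
    linarith
  have h2 : m ≤ 3 * (y 0 + I) := by
    have h3 : 2 * m * I ≤ 1 / 4 * m ^ 2 + 4 * I ^ 2 := by nlinarith [sq_nonneg (m - 4 * I)]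
    have h4 : m ^ 2 ≤ (3 * (y 0 + I)) ^ 2 := by nlinarith [mul_nonneg hy0 hI0]
    exact (abs_le_of_sq_le_sq' h4 (by positivity)).2
  refine ⟨(hm t ⟨ht.1, le_rfl⟩).trans h2, ?_⟩
  have h5 := key2 t ⟨ht.1, le_rfl⟩
  have h6 := sq_nonneg (y t)
  have h7 : m ^ 2 ≤ (3 * (y 0 + I)) ^ 2 := pow_le_pow_left₀ hm0 h2 2
  have h8 : 2 * m * I ≤ 2 * (3 * (y 0 + I)) * (y 0 + I) := by
    have h9 : I ≤ y 0 + I := by linarith
    have := mul_le_mul h2 h9 hI0 (by positivity)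
    linarith
  nlinarith [mul_nonneg hy0 hI0, sq_nonneg I]

end Pool.Agent.Lib.MP_79abb3_an.P25
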