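import Pool.Agent.Lib.MP_79abb3_an.P25.Nrm
import Pool.Agent.Lib.MP_79abb3_an.P25.OpA

/-!
EN-3b: Hardy inequality and operator bounds.
-/

set_option autoImplicit false
set_option linter.unusedSectionVars false

open MeasureTheory Set Filter Topology Function

namespace Pool.Agent.Lib.MP_79abb3_an.P25

section
variable {H : ℝ} [hH : Fact (0 < H)]

/-- Cauchy-Schwarz for continuous functions. -/
theorem cs_int {a v : ℝ → ℝ} (ha : Continuous a) (hv : Continuous v) {x y : ℝ} (hxy : x ≤ y) :
    (∫ s in x..y, a s * v s) ^ 2 ≤ (∫ s in x..y, a s ^ 2) * ∫ s in x..y, v s ^ 2 := by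
  have h0 : ∀ t : ℝ, 0 ≤ (∫ s in x..y, a s ^ 2) * (t * t) + (2 * ∫ s in x..y, a s * v s) * t +
      ∫ s in x..y, v s ^ 2 := by
    intro t
    have h1 : 0 ≤ ∫ s in x..y, (t * a s + v s) ^ 2 :=
      intervalIntegral.integral_nonneg hxy fun s _ => sq_nonneg _
    have h2 : ∫ s in x..y, (t * a s + v s) ^ 2 = (∫ s in x..y, a s ^ 2) * (t * t) +
        (2 * ∫ s in x..y, a s * v s) * t + ∫ s in x..y, v s ^ 2 := by
      have e1 : (∫ s in x..y, a s ^ 2) * (t * t) = ∫ s in x..y, a s ^ 2 * (t * t) :=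
        (intervalIntegral.integral_mul_const _ _).symm
      have e2 : (2 * ∫ s in x..y, a s * v s) * t = ∫ s in x..y, a s * v s * (2 * t) := by
        rw [intervalIntegral.integral_mul_const]
        ring
      rw [e1, e2, ← intervalIntegral.integral_add, ← intervalIntegral.integral_add]
      · refine intervalIntegral.integral_congr fun s _ => ?_
        ring
      · exact Continuous.intervalIntegrable (by fun_prop) _ _
      · exact Continuous.intervalIntegrable (by fun_prop) _ _
      · exact Continuous.intervalIntegrable (by fun_prop) _ _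
      · exact Continuous.intervalIntegrable (by fun_prop) _ _
    rwa [h2] at h1
  have h2 := discrim_le_zero h0
  rw [discrim] at h2
  nlinarith

theorem exp_two_hasDerivAt (b x : ℝ) :
    HasDerivAt (fun x : ℝ => Real.exp (2 * b * x)) (Real.exp (2 * b * x) * (2 * b)) x := by
  have := ((hasDerivAt_id x).const_mul (2 * b)).exp
  simpa using this

/-- derivative of the weighted square -/
theorem wsq_hasDerivAt {b : ℝ} {f f1 : CI H} (hd : IsD f f1) {x : ℝ} (h1 : 0 < x) (h2 : x < H) :
    HasDerivAt (fun x => Real.exp (2 * b * x) * ‖ex f x‖ ^ 2)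
      (2 * (Real.exp (2 * b * x) * (ex (f1 + b • f) x * star (ex f x)).re)) x := by
  have hx' : x ∈ Icc (0:ℝ) H := ⟨h1.le, h2.le⟩
  have h1 : HasDerivAt (ex f) (ex f1 x) x := (hd x hx').hasDerivAt (Icc_mem_nhds h1 h2)
  have h2 := h1.norm_sq
  have h3 := exp_two_hasDerivAt b x
  refine (h3.mul h2).congr_deriv ?_
  simp only [ex_add, ex_rsmul, Complex.inner, add_mul, Complex.add_re, mul_assoc,
    Complex.re_ofReal_mul, re_mul_star_self]
  have h4 : (ex f1 x * (starRingEnd ℂ) (ex f x)).re = (ex f1 x * star (ex f x)).re := rfl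
  rw [h4]
  ring

theorem norm_le_mul {f f1 : CI H} (hd : IsD f f1) (h0 : ex f 0 = 0) {z : ℝ}
    (hz : z ∈ Icc (0:ℝ) H) : ‖ex f z‖ ≤ ‖f1‖ * z := by
  have h := (convex_Icc (0:ℝ) H).norm_image_sub_le_of_norm_hasDerivWithin_le
    (f := ex f) (f' := ex f1) (C := ‖f1‖) hd (fun x _ => norm_ex_le f1 x)
    ⟨le_refl _, hH.out.le⟩ hz
  rw [h0, sub_zero, sub_zero, Real.norm_eq_abs, abs_of_nonneg hz.1] at h
  exact h

/-- Hardy inequality with weight. -/
theorem hardy {b : ℝ} {f f1 : CI H} (hd : IsD f f1) (h0 : ex f 0 = 0) :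
    (IntervalIntegrable (fun z => Real.exp (2 * b * z) * (‖ex f z‖ ^ 2 / z ^ 2)) volume 0 H) ∧
    ∫ z in (0:ℝ)..H, Real.exp (2 * b * z) * (‖ex f z‖ ^ 2 / z ^ 2) ≤ 4 * nrm b (f1 + b • f) ^ 2 := by
  have hH0 := hH.out
  have hf := continuous_ex f
  have hg := continuous_ex (f1 + b • f)
  set M : ℝ := Real.exp (2 * |b| * H) * ‖f1‖ ^ 2 with hM
  have hM0 : 0 ≤ M := by positivity
  set G : ℝ → ℝ := fun z => Real.exp (2 * b * z) * (‖ex f z‖ ^ 2 / z ^ 2) with hG
  have hG0 : ∀ z, 0 ≤ G z := fun z => by positivity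
  have hexp : ∀ z ∈ Icc (0:ℝ) H, Real.exp (2 * b * z) ≤ Real.exp (2 * |b| * H) := by
    intro z hz
    apply Real.exp_le_exp.2
    have h1 : b * z ≤ |b| * H := by
      calc b * z ≤ |b| * z := mul_le_mul_of_nonneg_right (le_abs_self b) hz.1
        _ ≤ |b| * H := mul_le_mul_of_nonneg_left hz.2 (abs_nonneg b)
    linarith
  have hGM : ∀ z ∈ Icc (0:ℝ) H, G z ≤ M := by
    intro z hz
    have h1 := norm_le_mul hd h0 hz
    have h2 : ‖ex f z‖ ^ 2 / z ^ 2 ≤ ‖f1‖ ^ 2 := by
      rcases hz.1.eq_or_lt with h | h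
      · rw [← h]
        simp
      · rw [div_le_iff₀ (by positivity), ← mul_pow]
        exact pow_le_pow_left₀ (norm_nonneg _) h1 2
    exact mul_le_mul (hexp z hz) h2 (by positivity) (Real.exp_pos _).le
  have hGm : AEStronglyMeasurable G volume := by
    apply Measurable.aestronglyMeasurable
    have h1 : Measurable fun z => ‖ex f z‖ ^ 2 := (by fun_prop : Continuous fun z => ‖ex f z‖ ^ 2).measurable
    have h2 : Measurable fun z : ℝ => Real.exp (2 * b * z) :=
      (by fun_prop : Continuous fun z : ℝ => Real.exp (2 * b * z)).measurable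
    exact h2.mul (h1.div (by fun_prop))
  have hGi : ∀ x ∈ Icc (0:ℝ) H, ∀ y ∈ Icc (0:ℝ) H, x ≤ y → IntervalIntegrable G volume x y := by
    intro x hx y hy hxy
    rw [intervalIntegrable_iff_integrableOn_Ioc_of_le hxy]
    apply Measure.integrableOn_of_bounded (M := M)
    · exact measure_Ioc_lt_top.ne
    · exact hGm
    · refine (ae_restrict_iff' measurableSet_Ioc).2 (Filter.Eventually.of_forall fun z hz => ?_)
      rw [Real.norm_eq_abs, abs_of_nonneg (hG0 z)]
      exact hGM z ⟨hx.1.trans hz.1.le, hz.2.trans hy.2⟩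
  refine ⟨hGi 0 ⟨le_refl _, hH0.le⟩ H ⟨hH0.le, le_refl _⟩ hH0.le, ?_⟩
  -- main estimate on `(c,H)`
  have hmain : ∀ c, 0 < c → c < H → ∫ z in (0:ℝ)..H, G z ≤ 4 * nrm b (f1 + b • f) ^ 2 + 3 * M * c := by
    intro c hc hcH
    have hsplit := intervalIntegral.integral_add_adjacent_intervals
      (hGi 0 ⟨le_refl _, hH0.le⟩ c ⟨hc.le, hcH.le⟩ hc.le)
      (hGi c ⟨hc.le, hcH.le⟩ H ⟨hH0.le, le_refl _⟩ hcH.le)
    rw [← hsplit]
    have h1 : ∫ z in (0:ℝ)..c, G z ≤ M * c := by
      have := intervalIntegral.integral_mono_on hc.le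
        (hGi 0 ⟨le_refl _, hH0.le⟩ c ⟨hc.le, hcH.le⟩ hc.le)
        (intervalIntegrable_const (c := M)) (fun z hz => hGM z ⟨hz.1, hz.2.trans hcH.le⟩)
      rw [intervalIntegral.integral_const, smul_eq_mul, sub_zero] at this
      linarith
    -- the function u / (2z)
    set u : ℝ → ℝ := fun z => Real.exp (2 * b * z) * ‖ex f z‖ ^ 2 with hu
    set u' : ℝ → ℝ := fun z => 2 * (Real.exp (2 * b * z) * (ex (f1 + b • f) z * star (ex f z)).re)
      with hu'
    have huc : Continuous u := by fun_prop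
    have hu'c : Continuous u' := by
      refine continuous_const.mul (Continuous.mul (by fun_prop) ?_)
      exact Complex.continuous_re.comp (hg.mul (continuous_star.comp hf))
    have hu0 : ∀ z, 0 ≤ u z := fun z => by positivity
    set D : ℝ → ℝ := fun z => (u' z * (2 * z) - u z * 2) / (2 * z) ^ 2 with hD
    have hne : ∀ z ∈ uIcc c H, (2 * z) ^ 2 ≠ 0 := by
      intro z hz
      rw [uIcc_of_le hcH.le] at hz
      have : 0 < z := lt_of_lt_of_le hc hz.1
      positivity
    have hDc : ContinuousOn D (uIcc c H) := by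
      apply ContinuousOn.div _ _ hne
      · exact (by fun_prop : Continuous fun z => u' z * (2 * z) - u z * 2).continuousOn
      · exact (by fun_prop : Continuous fun z : ℝ => (2 * z) ^ 2).continuousOn
    have hder : ∀ z ∈ Ioo c H, HasDerivAt (fun z => u z / (2 * z)) (D z) z := by
      intro z hz
      have hz0 : 0 < z := hc.trans hz.1
      have h1 : HasDerivAt u (u' z) z := wsq_hasDerivAt hd hz0 hz.2
      have h2 : HasDerivAt (fun z : ℝ => 2 * z) 2 z := by
        simpa using (hasDerivAt_id z).const_mul 2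
      exact h1.div h2 (by positivity)
    have hcont : ContinuousOn (fun z => u z / (2 * z)) (Icc c H) := by
      apply ContinuousOn.div huc.continuousOn (by fun_prop)
      intro z hz
      have : 0 < z := lt_of_lt_of_le hc hz.1
      positivity
    have hint := intervalIntegral.integral_eq_sub_of_hasDerivAt_of_le hcH.le hcont hder
      (hDc.intervalIntegrable)
    have hpt : ∀ z ∈ Icc c H, G z ≤ 4 * (Real.exp (2 * b * z) * ‖ex (f1 + b • f) z‖ ^ 2) - 4 * D z := by
      intro z hz
      have hz0 : 0 < z := lt_of_lt_of_le hc hz.1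
      have hE := Real.exp_pos (2 * b * z)
      -- |g - f/(2z)|² ≥ 0
      have h2 : 0 ≤ ‖ex (f1 + b • f) z - ((1 / (2 * z) : ℝ) : ℂ) * ex f z‖ ^ 2 := by positivity
      have h3 : ‖ex (f1 + b • f) z - ((1 / (2 * z) : ℝ) : ℂ) * ex f z‖ ^ 2 =
          ‖ex (f1 + b • f) z‖ ^ 2 - (1 / z) * (ex (f1 + b • f) z * star (ex f z)).re +
          1 / (4 * z ^ 2) * ‖ex f z‖ ^ 2 := by
        generalize ex (f1 + b • f) z = p
        generalize ex f z = q
        rw [← Complex.normSq_eq_norm_sq, ← Complex.normSq_eq_norm_sq, ← Complex.normSq_eq_norm_sq]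
        simp only [Complex.normSq_apply, Complex.sub_re, Complex.sub_im, Complex.mul_re,
          Complex.mul_im, Complex.ofReal_re, Complex.ofReal_im, Complex.star_def,
          Complex.conj_re, Complex.conj_im]
        field_simp
        ring
      rw [h3] at h2
      simp only [hG, hD, hu, hu']
      generalize Real.exp (2 * b * z) = E at *
      generalize ‖ex (f1 + b • f) z‖ ^ 2 = P at *
      generalize (ex (f1 + b • f) z * star (ex f z)).re = R at *
      generalize ‖ex f z‖ ^ 2 = Q at *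
      have h4 := mul_nonneg hE.le h2
      have h5 : 4 * (E * P) - 4 * ((2 * (E * R) * (2 * z) - E * Q * 2) / (2 * z) ^ 2) - E * (Q / z ^ 2) =
          4 * (E * (P - 1 / z * R + 1 / (4 * z ^ 2) * Q)) := by
        field_simp
        ring
      linarith
    have hgi : IntervalIntegrable (fun z => Real.exp (2 * b * z) * ‖ex (f1 + b • f) z‖ ^ 2)
        volume c H := nrm_integrable b _ _ _
    have h2 : ∫ z in c..H, G z ≤ ∫ z in c..H,
        (4 * (Real.exp (2 * b * z) * ‖ex (f1 + b • f) z‖ ^ 2) - 4 * D z) :=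
      intervalIntegral.integral_mono_on hcH.le
        (hGi c ⟨hc.le, hcH.le⟩ H ⟨hH0.le, le_refl _⟩ hcH.le)
        ((hgi.const_mul 4).sub (hDc.intervalIntegrable.const_mul 4)) hpt
    rw [intervalIntegral.integral_sub (hgi.const_mul 4) (hDc.intervalIntegrable.const_mul 4),
      intervalIntegral.integral_const_mul, intervalIntegral.integral_const_mul, hint] at h2
    have h3 : ∫ z in c..H, Real.exp (2 * b * z) * ‖ex (f1 + b • f) z‖ ^ 2 ≤
        nrm b (f1 + b • f) ^ 2 := by
      rw [nrm_sq]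
      refine intervalIntegral.integral_mono_interval hc.le hcH.le le_rfl ?_
        (nrm_integrable b _ _ _)
      exact Filter.Eventually.of_forall fun x => by positivity
    have h4 : 0 ≤ u H / (2 * H) := div_nonneg (hu0 H) (by positivity)
    have h5 : u c / (2 * c) ≤ M * c / 2 := by
      have h6 := hGM c ⟨hc.le, hcH.le⟩
      have h7 : u c / (2 * c) = G c * c / 2 := by
        simp only [hG, hu]
        field_simp
      rw [h7]
      have := mul_le_mul_of_nonneg_right h6 hc.le
      linarith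
    linarith
  apply le_of_forall_pos_le_add
  intro e he
  set c : ℝ := min (H / 2) (e / (3 * M + 1)) with hc
  have hc0 : 0 < c := by
    apply lt_min
    · linarith
    · positivity
  have hcH : c < H := lt_of_le_of_lt (min_le_left _ _) (by linarith)
  have h1 := hmain c hc0 hcH
  have h2 : 3 * M * c ≤ e := by
    have h3 : c ≤ e / (3 * M + 1) := min_le_right _ _
    have h4 : 3 * M * c ≤ (3 * M + 1) * (e / (3 * M + 1)) :=
      mul_le_mul (by linarith) h3 hc0.le (by positivity)
    rw [mul_div_cancel₀ _ (by positivity : (3 * M + 1) ≠ 0)] at h4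
    exact h4
  linarith

theorem Top_nrm {k b : ℝ} (hb : 0 < b) (f : CI H) : nrm b (Top k f) ≤ (|k| + b)⁻¹ * nrm b f := by
  have hH0 := hH.out
  have hk := abs_nonneg k
  set w := Top k f with hw
  have hwd : IsD w (|k| • w - f) := Top_isD k f
  have hwH : ex w H = 0 := Top_H k f
  have hwc := continuous_ex w
  have hgc := continuous_ex ((|k| • w - f) + b • w)
  set u' : ℝ → ℝ := fun z => 2 * (Real.exp (2 * b * z) *
    (ex ((|k| • w - f) + b • w) z * star (ex w z)).re) with hu'
  have hu'c : Continuous u' := by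
    refine continuous_const.mul (Continuous.mul (by fun_prop) ?_)
    exact Complex.continuous_re.comp (hgc.mul (continuous_star.comp hwc))
  have hint : ∫ x in (0:ℝ)..H, u' x = Real.exp (2 * b * H) * ‖ex w H‖ ^ 2 -
      Real.exp (2 * b * 0) * ‖ex w 0‖ ^ 2 := by
    apply intervalIntegral.integral_eq_sub_of_hasDerivAt_of_le hH0.le
      (f := fun x => Real.exp (2 * b * x) * ‖ex w x‖ ^ 2)
    · exact (by fun_prop : Continuous fun x => Real.exp (2 * b * x) * ‖ex w x‖ ^ 2).continuousOn
    · intro x hx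
      exact wsq_hasDerivAt hwd hx.1 hx.2
    · exact hu'c.intervalIntegrable _ _
  have h1 : ∫ x in (0:ℝ)..H, u' x = 2 * inn b ((|k| • w - f) + b • w) w :=
    intervalIntegral.integral_const_mul _ _
  have h2 : inn b ((|k| • w - f) + b • w) w = (|k| + b) * nrm b w ^ 2 - inn b f w := by
    have e : (|k| • w - f) + b • w = (|k| + b) • w + (-1 : ℝ) • f := by
      apply ci_ext
      intro z _
      simp only [ex_add, ex_sub, ex_rsmul]
      push_cast
      ring
    rw [e, inn_add_left, inn_rsmul_left, inn_rsmul_left, nrm_sq']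
    ring
  rw [hwH, norm_zero, h1, h2] at hint
  have h3 : 0 ≤ Real.exp (2 * b * 0) * ‖ex w 0‖ ^ 2 := by positivity
  have h4 : (|k| + b) * nrm b w ^ 2 ≤ inn b f w := by
    have : Real.exp (2 * b * H) * (0:ℝ) ^ 2 = 0 := by ring
    rw [this] at hint
    linarith
  have h5 := (abs_le.1 (inn_le b f w)).2
  have hpos : 0 < |k| + b := by linarith
  rcases (nrm_nonneg b w).eq_or_lt with h6 | h6
  · rw [← h6]
    exact mul_nonneg (inv_nonneg.2 hpos.le) (nrm_nonneg b f)
  · rw [inv_mul_eq_div, le_div_iff₀ hpos]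
    have h7 : ((|k| + b) * nrm b w) * nrm b w ≤ nrm b f * nrm b w := by
      calc ((|k| + b) * nrm b w) * nrm b w = (|k| + b) * nrm b w ^ 2 := by ring
        _ ≤ _ := h4.trans h5
    have := le_of_mul_le_mul_right h7 h6
    linarith

/-- General bound of `Eop` by Cauchy-Schwarz. -/
theorem Eop_cs {k b A : ℝ} (hA : 0 ≤ A) (f : CI H) {z : ℝ} (hz : z ∈ Icc (0:ℝ) H)
    (h : ∫ x in (0:ℝ)..z, (Real.exp (-|k| * (z - x) - b * x)) ^ 2 ≤ A) :
    ‖ex (Eop k f) z‖ ≤ √A * nrm b f := by
  have hf := continuous_ex f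
  rw [Eop_apply k f hz]
  have h1 : ‖∫ x in (0:ℝ)..z, ((Real.exp (-|k| * (z - x)) : ℝ) : ℂ) * ex f x‖ ≤
      ∫ x in (0:ℝ)..z, Real.exp (-|k| * (z - x) - b * x) * (Real.exp (b * x) * ‖ex f x‖) := by
    apply intervalIntegral.norm_integral_le_of_norm_le hz.1
    · refine Filter.Eventually.of_forall fun x _ => ?_
      rw [norm_mul, Complex.norm_real, Real.norm_eq_abs, abs_of_pos (Real.exp_pos _),
        ← mul_assoc, ← Real.exp_add]
      have : -|k| * (z - x) - b * x + b * x = -|k| * (z - x) := by ring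
      rw [this]
    · exact Continuous.intervalIntegrable (by fun_prop) _ _
  refine h1.trans ?_
  have h2 := cs_int (a := fun x => Real.exp (-|k| * (z - x) - b * x))
    (v := fun x => Real.exp (b * x) * ‖ex f x‖) (by fun_prop) (by fun_prop) hz.1
  have h3 : ∫ x in (0:ℝ)..z, (Real.exp (b * x) * ‖ex f x‖) ^ 2 ≤ nrm b f ^ 2 := by
    rw [nrm_sq]
    have e : ∀ x : ℝ, (Real.exp (b * x) * ‖ex f x‖) ^ 2 = Real.exp (2 * b * x) * ‖ex f x‖ ^ 2 := by
      intro x
      rw [mul_pow, ← Real.exp_nat_mul]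
      congr 2
      push_cast
      ring
    simp only [e]
    refine intervalIntegral.integral_mono_interval le_rfl hz.1 hz.2 ?_ (nrm_integrable b _ _ _)
    exact Filter.Eventually.of_forall fun x => by positivity
  have h4 : 0 ≤ ∫ x in (0:ℝ)..z, (Real.exp (b * x) * ‖ex f x‖) ^ 2 :=
    intervalIntegral.integral_nonneg hz.1 fun s _ => sq_nonneg _
  have h5 : (∫ x in (0:ℝ)..z, Real.exp (-|k| * (z - x) - b * x) * (Real.exp (b * x) * ‖ex f x‖)) ^ 2 ≤
      A * nrm b f ^ 2 := h2.trans (mul_le_mul h h3 h4 hA)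
  have h6 := Real.le_sqrt_of_sq_le h5
  rwa [Real.sqrt_mul hA, Real.sqrt_sq (nrm_nonneg b f)] at h6

theorem Eop_sqrt {k b : ℝ} (hb : 0 ≤ b) (f : CI H) {z : ℝ} (hz : z ∈ Icc (0:ℝ) H) :
    ‖ex (Eop k f) z‖ ≤ √z * nrm b f := by
  apply Eop_cs hz.1 f hz
  have h1 : ∫ x in (0:ℝ)..z, (Real.exp (-|k| * (z - x) - b * x)) ^ 2 ≤ ∫ _x in (0:ℝ)..z, (1:ℝ) := by
    refine intervalIntegral.integral_mono_on hz.1
      (Continuous.intervalIntegrable (by fun_prop) _ _) (intervalIntegrable_const) fun x hx => ?_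
    apply pow_le_one₀ (Real.exp_pos _).le
    rw [Real.exp_le_one_iff]
    have h2 : 0 ≤ |k| * (z - x) := mul_nonneg (abs_nonneg _) (sub_nonneg.2 hx.2)
    have h3 : 0 ≤ b * x := mul_nonneg hb hx.1
    linarith
  rw [intervalIntegral.integral_const, smul_eq_mul, sub_zero, mul_one] at h1
  exact h1

theorem Eop_sup {k b : ℝ} (hb : 0 < b) (f : CI H) {z : ℝ} (hz : z ∈ Icc (0:ℝ) H) :
    ‖ex (Eop k f) z‖ ≤ √((|k| + b)⁻¹) * nrm b f := by
  have hk := abs_nonneg k
  have hpos : 0 < |k| + b := by linarith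
  apply Eop_cs (inv_nonneg.2 hpos.le) f hz
  rcases le_or_gt (|k|) b with h | h
  · have h1 : ∫ x in (0:ℝ)..z, (Real.exp (-|k| * (z - x) - b * x)) ^ 2 ≤
        ∫ x in (0:ℝ)..z, Real.exp (-(2 * b) * x) := by
      refine intervalIntegral.integral_mono_on hz.1
        (Continuous.intervalIntegrable (by fun_prop) _ _)
        (Continuous.intervalIntegrable (by fun_prop) _ _) fun x hx => ?_
      rw [← Real.exp_nat_mul]
      apply Real.exp_le_exp.2
      have h2 : 0 ≤ |k| * (z - x) := mul_nonneg hk (sub_nonneg.2 hx.2)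
      push_cast
      linarith
    refine h1.trans ((integral_exp_le (by positivity : 0 < 2 * b) z).trans ?_)
    rw [one_div]
    exact inv_anti₀ hpos (by linarith)
  · have hk0 : 0 < |k| := hb.trans h
    have h1 : ∫ x in (0:ℝ)..z, (Real.exp (-|k| * (z - x) - b * x)) ^ 2 ≤
        ∫ x in (0:ℝ)..z, Real.exp (-(2 * |k|) * (z - x)) := by
      refine intervalIntegral.integral_mono_on hz.1
        (Continuous.intervalIntegrable (by fun_prop) _ _)
        (Continuous.intervalIntegrable (by fun_prop) _ _) fun x hx => ?_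
      rw [← Real.exp_nat_mul]
      apply Real.exp_le_exp.2
      have h3 : 0 ≤ b * x := mul_nonneg hb.le hx.1
      push_cast
      linarith
    have h2 : ∫ x in (0:ℝ)..z, Real.exp (-(2 * |k|) * (z - x)) =
        ∫ x in (0:ℝ)..z, Real.exp (-(2 * |k|) * x) := by
      have := intervalIntegral.integral_comp_sub_left (fun x => Real.exp (-(2 * |k|) * x)) z
        (a := 0) (b := z)
      rw [sub_self, sub_zero] at this
      exact this
    rw [h2] at h1
    refine h1.trans ((integral_exp_le (by positivity : 0 < 2 * |k|) z).trans ?_)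
    rw [one_div]
    exact inv_anti₀ hpos (by linarith)

end

end Pool.Agent.Lib.MP_79abb3_an.P25
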