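import Pool.Agent.Lib.MP_79abb3_an.P25.BW
import Pool.Agent.Lib.MP_79abb3_an.P25.Hardy
import Pool.Agent.Lib.MP_79abb3_an.P25.Par

/-!
The quadratic estimate.
-/

set_option autoImplicit false
set_option linter.unusedSectionVars false

open MeasureTheory Set Filter Topology Function

namespace Pool.Agent.Lib.MP_79abb3_an.P25

section
variable {H : ℝ} [hH : Fact (0 < H)]

/-- `G' = D + t^{-1/2} E` -/
noncomputable def qd_Gq (b θ t : ℝ) (x : Xn H) : ℝ := Dn b θ x + (√t)⁻¹ * En b θ x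

theorem qd_En_nonneg (b θ : ℝ) (x : Xn H) : 0 ≤ En b θ x := Real.sqrt_nonneg _
theorem qd_Dn_nonneg (b θ : ℝ) (x : Xn H) : 0 ≤ Dn b θ x := Real.sqrt_nonneg _

theorem qd_Gq_nonneg (b θ t : ℝ) (x : Xn H) : 0 ≤ qd_Gq b θ t x :=
  add_nonneg (qd_Dn_nonneg _ _ _) (mul_nonneg (inv_nonneg.2 (Real.sqrt_nonneg _)) (qd_En_nonneg _ _ _))

theorem qd_nrm_nu_le (b θ : ℝ) (x : Xn H) : nrm b x.2.1 ≤ En b θ x := by
  refine Real.le_sqrt_of_sq_le ?_
  nlinarith [mul_nonneg (sq_nonneg θ) (sq_nonneg (nrm b x.1.1))]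

theorem qd_nrm_ga_le {θ : ℝ} (_hθ : 0 ≤ θ) (b : ℝ) (x : Xn H) : θ * nrm b x.1.1 ≤ En b θ x := by
  refine Real.le_sqrt_of_sq_le ?_
  nlinarith [sq_nonneg (nrm b x.2.1)]

theorem qd_nrm_nu1_le (b θ : ℝ) (x : Xn H) : nrm b (x.2.2.1 + b • x.2.1) ≤ Dn b θ x := by
  refine Real.le_sqrt_of_sq_le ?_
  have h1 := mul_nonneg (sq_nonneg θ) (add_nonneg (sq_nonneg (nrm b (x.1.2.1 + b • x.1.1)))
    (sq_nonneg (nrm b x.1.2.2)))
  nlinarith [sq_nonneg (nrm b x.2.2.2)]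

theorem qd_nrm_nu2_le (b θ : ℝ) (x : Xn H) : nrm b x.2.2.2 ≤ Dn b θ x := by
  refine Real.le_sqrt_of_sq_le ?_
  have h1 := mul_nonneg (sq_nonneg θ) (add_nonneg (sq_nonneg (nrm b (x.1.2.1 + b • x.1.1)))
    (sq_nonneg (nrm b x.1.2.2)))
  nlinarith [sq_nonneg (nrm b (x.2.2.1 + b • x.2.1))]

theorem qd_nrm_ga1_le {θ : ℝ} (_hθ : 0 ≤ θ) (b : ℝ) (x : Xn H) :
    θ * nrm b (x.1.2.1 + b • x.1.1) ≤ Dn b θ x := by
  refine Real.le_sqrt_of_sq_le ?_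
  have h1 := mul_nonneg (sq_nonneg θ) (sq_nonneg (nrm b x.1.2.2))
  nlinarith [sq_nonneg (nrm b (x.2.2.1 + b • x.2.1)), sq_nonneg (nrm b x.2.2.2)]

theorem qd_nrm_ga2_le {θ : ℝ} (_hθ : 0 ≤ θ) (b : ℝ) (x : Xn H) :
    θ * nrm b x.1.2.2 ≤ Dn b θ x := by
  refine Real.le_sqrt_of_sq_le ?_
  have h1 := mul_nonneg (sq_nonneg θ) (sq_nonneg (nrm b (x.1.2.1 + b • x.1.1)))
  nlinarith [sq_nonneg (nrm b (x.2.2.1 + b • x.2.1)), sq_nonneg (nrm b x.2.2.2)]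

theorem qd_kE_le_D {b θ k : ℝ} {x : Xn H} (hx : Dmode k x) : |k| * En b θ x ≤ Dn b θ x := by
  refine Real.le_sqrt_of_sq_le ?_
  rw [mul_pow, En, Real.sq_sqrt (by positivity), hx.e1, hx.e2, nrm_rsmul, nrm_rsmul, abs_abs]
  have h1 := mul_nonneg (sq_nonneg θ) (sq_nonneg (nrm b (x.1.2.1 + b • x.1.1)))
  nlinarith [sq_nonneg (nrm b (x.2.2.1 + b • x.2.1))]

/-- `2ED ≤ (t^{1/4} G')²` -/
theorem qd_two_ED_le {t : ℝ} (ht : 0 < t) (b θ : ℝ) (x : Xn H) :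
    2 * (En b θ x * Dn b θ x) ≤ (√(√t) * qd_Gq b θ t x) ^ 2 := by
  have hs : 0 < √t := Real.sqrt_pos.2 ht
  rw [mul_pow, Real.sq_sqrt hs.le, qd_Gq]
  have hi : √t * (√t)⁻¹ = 1 := mul_inv_cancel₀ hs.ne'
  have hi0 : 0 < (√t)⁻¹ := inv_pos.2 hs
  have e : √t * (Dn b θ x + (√t)⁻¹ * En b θ x) ^ 2 = √t * Dn b θ x ^ 2 +
      2 * (√t * (√t)⁻¹) * (En b θ x * Dn b θ x) + (√t * (√t)⁻¹) * (√t)⁻¹ * En b θ x ^ 2 := by ring
  rw [e, hi]
  have h1 : 0 ≤ √t * Dn b θ x ^ 2 := by positivity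
  have h2 : 0 ≤ (√t)⁻¹ * En b θ x ^ 2 := by positivity
  linarith

variable {ε t k : ℝ} {x : Xn H}

/-- Sup bound of `ν`. -/
theorem qd_nu_sup (hε : 0 < ε) (ht : 0 < t) (ht1 : t ≤ 1) (hx : Dmode k x) :
    ‖x.2.1‖ ≤ √(√t) * qd_Gq (be ε t) (th ε k t) t x := by
  obtain ⟨h1, h2, h3, h4, h5, h6, h7, h8, h9⟩ := th_inv (k := k) hε ht ht1
  have hG := qd_Gq_nonneg (be ε t) (th ε k t) t x
  refine ci_norm_le (by positivity) fun z hz => ?_
  refine abs_le_of_sq_le_sq' ?_ (by positivity) |>.2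
  have h10 := sup_le h8.le hx.d2 hx.z2 z hz
  refine h10.trans ((qd_two_ED_le ht (be ε t) (th ε k t) x).trans' ?_)
  have a1 := qd_nrm_nu_le (be ε t) (th ε k t) x
  have a2 := qd_nrm_nu1_le (be ε t) (th ε k t) x
  have := nrm_nonneg (be ε t) x.2.1
  have := nrm_nonneg (be ε t) (x.2.2.1 + be ε t • x.2.1)
  have := qd_En_nonneg (be ε t) (th ε k t) x
  gcongr

/-- Sup bound of `γ`. -/
theorem qd_ga_sup (hε : 0 < ε) (ht : 0 < t) (ht1 : t ≤ 1) (hx : Dmode k x) :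
    ∀ z ∈ Icc (0:ℝ) H, th ε k t * ‖ex x.1.1 z‖ ≤ √(√t) * qd_Gq (be ε t) (th ε k t) t x := by
  obtain ⟨h1, h2, h3, h4, h5, h6, h7, h8, h9⟩ := th_inv (k := k) hε ht ht1
  have hG := qd_Gq_nonneg (be ε t) (th ε k t) t x
  intro z hz
  refine abs_le_of_sq_le_sq' ?_ (by positivity) |>.2
  have h10 := sup_le h8.le hx.d1 hx.z1 z hz
  refine ((qd_two_ED_le ht (be ε t) (th ε k t) x).trans' ?_)
  have a1 := qd_nrm_ga_le h1.le (be ε t) x
  have a2 := qd_nrm_ga1_le h1.le (be ε t) x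
  have b1 := nrm_nonneg (be ε t) x.1.1
  have b2 := nrm_nonneg (be ε t) (x.1.2.1 + be ε t • x.1.1)
  have := qd_En_nonneg (be ε t) (th ε k t) x
  rw [mul_pow]
  calc th ε k t ^ 2 * ‖ex x.1.1 z‖ ^ 2
      ≤ th ε k t ^ 2 * (2 * (nrm (be ε t) x.1.1 * nrm (be ε t) (x.1.2.1 + be ε t • x.1.1))) := by
        gcongr
    _ = 2 * ((th ε k t * nrm (be ε t) x.1.1) *
        (th ε k t * nrm (be ε t) (x.1.2.1 + be ε t • x.1.1))) := by ring
    _ ≤ _ := by gcongr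

/-- Sup bound of `Eop γ`. -/
theorem qd_Ega_sup (hε : 0 < ε) (ht : 0 < t) (ht1 : t ≤ 1) (hx : Dmode k x) :
    ∀ z ∈ Icc (0:ℝ) H, ‖ex (Eop k x.1.1) z‖ ≤ √(√t) * qd_Gq (be ε t) (th ε k t) t x := by
  obtain ⟨h1, h2, h3, h4, h5, h6, h7, h8, h9⟩ := th_inv (k := k) hε ht ht1
  have hs : 0 < √t := Real.sqrt_pos.2 ht
  have hG := qd_Gq_nonneg (be ε t) (th ε k t) t x
  intro z hz
  have h10 := Eop_sup (k := k) h8 x.1.1 hz
  refine h10.trans ?_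
  rw [h4]
  have b1 := nrm_nonneg (be ε t) x.1.1
  refine abs_le_of_sq_le_sq' ?_ (by positivity) |>.2
  have a1 := qd_nrm_ga_le h1.le (be ε t) x
  have a3 := qd_kE_le_D (b := be ε t) (θ := th ε k t) hx
  have e0 := qd_En_nonneg (be ε t) (th ε k t) x
  have d0 := qd_Dn_nonneg (be ε t) (th ε k t) x
  rw [mul_pow, Real.sq_sqrt (by positivity), mul_pow, Real.sq_sqrt hs.le, qd_Gq]
  set E := En (be ε t) (th ε k t) x
  set D := Dn (be ε t) (th ε k t) x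
  set θ := th ε k t
  set N := nrm (be ε t) x.1.1
  have c1 : θ * N ^ 2 = θ⁻¹ * (θ * N) ^ 2 := by field_simp
  have c2 : θ⁻¹ * (θ * N) ^ 2 ≤ (1 / √t + |k|) * E ^ 2 := by gcongr
  have c3 : (1 / √t + |k|) * E ^ 2 ≤ (√t)⁻¹ * E ^ 2 + D * E := by
    have : |k| * E * E ≤ D * E := by gcongr
    calc (1 / √t + |k|) * E ^ 2 = (√t)⁻¹ * E ^ 2 + |k| * E * E := by ring
      _ ≤ _ := by linarith
  have hi : √t * (√t)⁻¹ = 1 := mul_inv_cancel₀ hs.ne'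
  have hi0 : 0 < (√t)⁻¹ := inv_pos.2 hs
  have e : √t * (D + (√t)⁻¹ * E) ^ 2 = √t * D ^ 2 +
      2 * (√t * (√t)⁻¹) * (D * E) + (√t * (√t)⁻¹) * (√t)⁻¹ * E ^ 2 := by ring
  rw [e, hi]
  have c4 : 0 ≤ √t * D ^ 2 := by positivity
  have c5 : 0 ≤ D * E := by positivity
  have c6 : 0 ≤ (√t)⁻¹ * E ^ 2 := by positivity
  have c7 : θ / 75 * N ^ 2 = (θ * N ^ 2) / 75 := by ring
  rw [c7, c1]
  have c8 : 0 ≤ θ⁻¹ * (θ * N) ^ 2 := by positivity
  linarith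

/-- Sup bound of `om`. -/
theorem qd_om_sup (hε : 0 < ε) (ht : 0 < t) (ht1 : t ≤ 1) (hx : Dmode k x) :
    ∀ z ∈ Icc (0:ℝ) H, ‖ex (om k (jn x)) z‖ ≤ 2 * (√(√t) * qd_Gq (be ε t) (th ε k t) t x) := by
  intro z hz
  have h1 := qd_Ega_sup hε ht ht1 hx z hz
  have h2 := qd_nu_sup hε ht ht1 hx
  have h3 := norm_kEop_le k x.2.1
  have h4 := norm_ex_le (Eop k x.2.1) z
  have e : ex (om k (jn x)) z = -ex (Eop k x.1.1) z -
      (is k * ((|k| : ℝ) : ℂ)) * ex (Eop k x.2.1) z := by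
    rw [om, ex_sub, ex_neg, ex_smul]; rfl
  rw [e]
  have h5 : ‖(is k * ((|k| : ℝ) : ℂ)) * ex (Eop k x.2.1) z‖ ≤ |k| * ‖Eop k x.2.1‖ := by
    rw [norm_mul, norm_mul, Complex.norm_real, Real.norm_eq_abs, abs_abs]
    have := norm_is_le k
    calc ‖is k‖ * |k| * ‖ex (Eop k x.2.1) z‖ ≤ 1 * |k| * ‖Eop k x.2.1‖ := by gcongr
      _ = _ := by ring
  calc _ ≤ ‖-ex (Eop k x.1.1) z‖ + ‖(is k * ((|k| : ℝ) : ℂ)) * ex (Eop k x.2.1) z‖ := norm_sub_le _ _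
    _ ≤ _ := by rw [norm_neg]; linarith

/-- Sup bound of `vv`. -/
theorem qd_vv_sup (hε : 0 < ε) (ht : 0 < t) (ht1 : t ≤ 1) (hx : Dmode k x) :
    ∀ z ∈ Icc (0:ℝ) H, ‖ex (vv k (jn x)) z‖ ≤ 3 * (√(√t) * qd_Gq (be ε t) (th ε k t) t x) := by
  intro z hz
  have h1 := qd_om_sup hε ht ht1 hx z hz
  have h2 := (norm_ex_le x.2.1 z).trans (qd_nu_sup hε ht ht1 hx)
  have e : ex (vv k (jn x)) z = ex x.2.1 z - is k * ex (om k (jn x)) z := by
    rw [vv, ex_sub, ex_smul]; rfl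
  rw [e]
  have h5 : ‖is k * ex (om k (jn x)) z‖ ≤ ‖ex (om k (jn x)) z‖ := by
    rw [norm_mul]
    exact mul_le_of_le_one_left (norm_nonneg _) (norm_is_le k)
  calc _ ≤ ‖ex x.2.1 z‖ + ‖is k * ex (om k (jn x)) z‖ := norm_sub_le _ _
    _ ≤ _ := by linarith

theorem qd_nrm_sub_le (b : ℝ) (f g : CI H) : nrm b (f - g) ≤ nrm b f + nrm b g := by
  rw [sub_eq_add_neg]
  exact (nrm_add b f (-g)).trans (by rw [nrm_neg])

/-- Norm of `ν_z`. -/
theorem qd_nrm_d_le {b : ℝ} (hb : 0 ≤ b) (f f1 : CI H) : nrm b f1 ≤ nrm b (f1 + b • f) + b * nrm b f := by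
  have h1 : f1 = (f1 + b • f) - b • f := by abel
  calc nrm b f1 = nrm b ((f1 + b • f) - b • f) := by rw [← h1]
    _ ≤ nrm b (f1 + b • f) + nrm b (b • f) := qd_nrm_sub_le _ _ _
    _ = _ := by rw [nrm_rsmul, abs_of_nonneg hb]

/-- Norm of `Om`. -/
theorem qd_Om_nrm (hε : 0 < ε) (ht : 0 < t) (ht1 : t ≤ 1) (hx : Dmode k x) :
    nrm (be ε t) (Om k x) ≤ 4 * qd_Gq (be ε t) (th ε k t) t x := by
  obtain ⟨h1, h2, h3, h4, h5, h6, h7, h8, h9⟩ := th_inv (k := k) hε ht ht1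
  have hs : 0 < √t := Real.sqrt_pos.2 ht
  have a1 := qd_nrm_nu_le (be ε t) (th ε k t) x
  have a2 := qd_nrm_nu1_le (be ε t) (th ε k t) x
  have a3 := qd_nrm_nu2_le (be ε t) (th ε k t) x
  have a4 := qd_nrm_ga_le h1.le (be ε t) x
  have a5 := qd_kE_le_D (b := be ε t) (θ := th ε k t) hx
  have a6 := qd_nrm_d_le h8.le x.2.1 x.2.2.1
  have e0 := qd_En_nonneg (be ε t) (th ε k t) x
  have d0 := qd_Dn_nonneg (be ε t) (th ε k t) x
  have b1 := nrm_nonneg (be ε t) x.1.1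
  have b2 := nrm_nonneg (be ε t) x.2.1
  have c1 : nrm (be ε t) (Om k x) ≤ nrm (be ε t) x.2.2.1 + nrm (be ε t) x.2.2.2 +
      nrm (be ε t) x.1.1 := by
    rw [Om]
    refine (qd_nrm_sub_le _ _ _).trans ?_
    have c2 := nrm_add (be ε t) (-x.2.2.1) x.2.2.2
    rw [nrm_neg] at c2
    have c3 : nrm (be ε t) (is k • x.1.1) ≤ nrm (be ε t) x.1.1 := by
      rw [nrm_smul]
      exact mul_le_of_le_one_left b1 (norm_is_le k)
    linarith
  rw [qd_Gq]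
  set E := En (be ε t) (th ε k t) x
  set D := Dn (be ε t) (th ε k t) x
  set θ := th ε k t
  set N := nrm (be ε t) x.1.1
  have c4 : N = θ⁻¹ * (θ * N) := by field_simp
  have c5 : θ⁻¹ * (θ * N) ≤ (1 / √t + |k|) * E := by gcongr
  have c6 : (1 / √t + |k|) * E = (√t)⁻¹ * E + |k| * E := by ring
  have c7 : be ε t * nrm (be ε t) x.2.1 ≤ (√t)⁻¹ * E := by
    calc be ε t * nrm (be ε t) x.2.1 ≤ (1 / √t / 100) * E := by gcongr
      _ ≤ (√t)⁻¹ * E := by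
        have : 0 ≤ (√t)⁻¹ * E := by positivity
        have e : 1 / √t / 100 * E = ((√t)⁻¹ * E) / 100 := by ring
        rw [e]; linarith
  have c8 : 0 ≤ (√t)⁻¹ * E := by positivity
  linarith

/-- Norm of `γ_z`. -/
theorem qd_ga1_nrm (hε : 0 < ε) (ht : 0 < t) (ht1 : t ≤ 1) :
    th ε k t * nrm (be ε t) x.1.2.1 ≤ 2 * qd_Gq (be ε t) (th ε k t) t x := by
  obtain ⟨h1, h2, h3, h4, h5, h6, h7, h8, h9⟩ := th_inv (k := k) hε ht ht1
  have hs : 0 < √t := Real.sqrt_pos.2 ht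
  have a2 := qd_nrm_ga1_le h1.le (be ε t) x
  have a4 := qd_nrm_ga_le h1.le (be ε t) x
  have a6 := qd_nrm_d_le h8.le x.1.1 x.1.2.1
  have e0 := qd_En_nonneg (be ε t) (th ε k t) x
  have d0 := qd_Dn_nonneg (be ε t) (th ε k t) x
  have b1 := nrm_nonneg (be ε t) x.1.1
  rw [qd_Gq]
  set E := En (be ε t) (th ε k t) x
  set D := Dn (be ε t) (th ε k t) x
  set θ := th ε k t
  have c7 : be ε t * (θ * nrm (be ε t) x.1.1) ≤ (√t)⁻¹ * E := by
    calc be ε t * (θ * nrm (be ε t) x.1.1) ≤ (1 / √t / 100) * E := by gcongr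
      _ ≤ (√t)⁻¹ * E := by
        have : 0 ≤ (√t)⁻¹ * E := by positivity
        have e : 1 / √t / 100 * E = ((√t)⁻¹ * E) / 100 := by ring
        rw [e]; linarith
  have c8 : 0 ≤ (√t)⁻¹ * E := by positivity
  have c9 : θ * nrm (be ε t) x.1.2.1 ≤ θ * nrm (be ε t) (x.1.2.1 + be ε t • x.1.1) +
      be ε t * (θ * nrm (be ε t) x.1.1) := by
    calc θ * nrm (be ε t) x.1.2.1 ≤
        θ * (nrm (be ε t) (x.1.2.1 + be ε t • x.1.1) + be ε t * nrm (be ε t) x.1.1) := by gcongr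
      _ = _ := by ring
  linarith

end

/-! Sums. -/

section
variable {H : ℝ} [hH : Fact (0 < H)]

theorem qd_nrm_zero (b : ℝ) : nrm b (0 : CI H) = 0 := by
  have h := nrm_smul b (0 : ℂ) (0 : CI H)
  rw [norm_zero, zero_mul] at h
  convert h using 2
  exact ci_ext fun z _ => by simp

theorem qd_nrm_sum_le {ι : Type} (b : ℝ) (s : Finset ι) (f : ι → CI H) :
    nrm b (∑ i ∈ s, f i) ≤ ∑ i ∈ s, nrm b (f i) := by
  classical
  induction s using Finset.induction_on with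
  | empty => rw [Finset.sum_empty, Finset.sum_empty, qd_nrm_zero]
  | insert a s ha ih =>
    rw [Finset.sum_insert ha, Finset.sum_insert ha]
    exact (nrm_add _ _ _).trans (by linarith)

theorem qd_nrm_tsum_le {b : ℝ} {f : ℤ → CI H} {g : ℤ → ℝ} (hf : Summable f) (hg : Summable g)
    (h : ∀ m, nrm b (f m) ≤ g m) : nrm b (∑' m, f m) ≤ ∑' m, g m := by
  have hc : Continuous fun f : CI H => nrm b f :=
    nrm_continuous.comp (continuous_const.prodMk continuous_id)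
  have h1 : Tendsto (fun s : Finset ℤ => nrm b (∑ m ∈ s, f m)) atTop (𝓝 (nrm b (∑' m, f m))) :=
    (hc.tendsto _).comp hf.hasSum
  have h2 : Tendsto (fun s : Finset ℤ => ∑ m ∈ s, g m) atTop (𝓝 (∑' m, g m)) := hg.hasSum
  exact le_of_tendsto_of_tendsto' h1 h2 fun s =>
    (qd_nrm_sum_le b s f).trans (Finset.sum_le_sum fun m _ => h m)

/-- Weighted norm of a convolution. -/
theorem qd_conv_nrm {b w C : ℝ} (hw : 0 ≤ w) {p q : ℤ → CI H} {n : ℤ} {g : ℤ → ℝ}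
    (hs : Summable fun m => p m * q (n - m)) (hg : Summable g)
    (h : ∀ m, w * nrm b (p m * q (n - m)) ≤ C * g m) :
    w * nrm b (conv p q n) ≤ C * ∑' m, g m := by
  rcases hw.eq_or_lt with h0 | h0
  · rw [← h0, zero_mul, ← tsum_mul_left]
    refine tsum_nonneg fun m => ?_
    have := h m
    rw [← h0, zero_mul] at this
    exact this
  · have h1 : nrm b (conv p q n) ≤ ∑' m, w⁻¹ * (C * g m) := by
      refine qd_nrm_tsum_le hs ((hg.mul_left C).mul_left w⁻¹) fun m => ?_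
      rw [le_inv_mul_iff₀ h0]
      exact h m
    rw [tsum_mul_left, tsum_mul_left] at h1
    calc w * nrm b (conv p q n) ≤ w * (w⁻¹ * (C * ∑' m, g m)) := by gcongr
      _ = _ := by rw [← mul_assoc, mul_inv_cancel₀ h0.ne', one_mul]

theorem qd_nrm_mul_comm_le {b : ℝ} {f g : CI H} {C : ℝ} (hC : 0 ≤ C)
    (h : ∀ z ∈ Icc (0:ℝ) H, ‖ex g z‖ ≤ C) : nrm b (f * g) ≤ C * nrm b f := by
  rw [mul_comm f g]
  exact nrm_mul_le hC h

end

theorem qd_ar_th {w W1 W2 θ q G1 G2 N X c d : ℝ} (hW1 : 0 ≤ W1) (hW2 : 0 ≤ W2)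
    (hq : 0 ≤ q) (hG1 : 0 ≤ G1) (hX : 0 ≤ X) (hθ : 0 ≤ θ) (hc : 0 ≤ c)
    (h1 : w ≤ 2 * W1 * (W2 * θ)) (h2 : X ≤ c * (q * G1) * N) (h3 : θ * N ≤ d * G2) :
    w * X ≤ 2 * c * d * q * ((W1 * G1) * (W2 * G2)) := by
  calc w * X ≤ (2 * W1 * (W2 * θ)) * (c * (q * G1) * N) := by gcongr
    _ = 2 * c * q * ((W1 * G1) * (W2 * (θ * N))) := by ring
    _ ≤ 2 * c * q * ((W1 * G1) * (W2 * (d * G2))) := by gcongr
    _ = _ := by ring

theorem qd_ar_w {w W1 W2 q G1 G2 N X c : ℝ} (hW1 : 0 ≤ W1) (hW2 : 0 ≤ W2)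
    (hq : 0 ≤ q) (hG2 : 0 ≤ G2) (hX : 0 ≤ X) (hc : 0 ≤ c)
    (h1 : w ≤ W1 * W2) (h2 : X ≤ c * (q * G2) * N) (h3 : N ≤ 4 * G1) :
    w * X ≤ 4 * c * q * ((W1 * G1) * (W2 * G2)) := by
  calc w * X ≤ (W1 * W2) * (c * (q * G2) * N) := by gcongr
    _ ≤ (W1 * W2) * (c * (q * G2) * (4 * G1)) := by gcongr
    _ = _ := by ring

theorem qd_ar_gg {w W1 W2 θ1 θ2 q G1 G2 N X E : ℝ} (hW1 : 0 ≤ W1) (hW2 : 0 ≤ W2)
    (hq : 0 ≤ q) (hG1 : 0 ≤ G1) (hX : 0 ≤ X) (hθ1 : 0 ≤ θ1) (hθ2 : 0 ≤ θ2)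
    (h1 : w ≤ 2 * W1 * (W2 * θ2)) (h2 : X ≤ θ1 * (q * G1) * N) (h3 : θ2 * N ≤ E)
    (h4 : θ1 * E ≤ G2) :
    w * X ≤ 2 * q * ((W1 * G1) * (W2 * G2)) := by
  calc w * X ≤ (2 * W1 * (W2 * θ2)) * (θ1 * (q * G1) * N) := by gcongr
    _ = 2 * q * ((W1 * G1) * (W2 * (θ1 * (θ2 * N)))) := by ring
    _ ≤ 2 * q * ((W1 * G1) * (W2 * (θ1 * E))) := by gcongr
    _ ≤ _ := by gcongr

theorem qd_ar_fin {W θ n0 n1 n2 R q S : ℝ} (hW : 0 ≤ W) (hq : 0 ≤ q) (hS : 0 ≤ S)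
    (hR : R ≤ 2 * n1 + n2 + θ * n0) (f0 : W * θ * n0 ≤ (16 * q) * S) (f1 : W * n1 ≤ (8 * q) * S)
    (f2 : W * n2 ≤ (12 * q) * S) : W * (R + θ * n0) ≤ 100 * q * S := by
  calc W * (R + θ * n0) ≤ W * ((2 * n1 + n2 + θ * n0) + θ * n0) := by gcongr
    _ = 2 * (W * n1) + W * n2 + 2 * (W * θ * n0) := by ring
    _ ≤ 2 * ((8 * q) * S) + (12 * q) * S + 2 * ((16 * q) * S) := by linarith
    _ = 60 * (q * S) := by ring
    _ ≤ 100 * (q * S) := by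
        have : 0 ≤ q * S := mul_nonneg hq hS
        linarith
    _ = _ := by ring

/-- Norm of the second component. -/
theorem qd_Rnu_nrm {H : ℝ} [hH : Fact (0 < H)] {ε t : ℝ} (hε : 0 < ε) (ht : 0 < t) (ht1 : t ≤ 1)
    (k : ℝ) (n0 n1 n2 : CI H) :
    nrm (be ε t) (Rν k n0 n1 n2) ≤ 2 * nrm (be ε t) n1 + nrm (be ε t) n2 +
      th ε k t * nrm (be ε t) n0 := by
  obtain ⟨h1, h2, h3, h4, h5, h6, h7, h8, h9⟩ := th_inv (k := k) hε ht ht1
  have hk := abs_nonneg k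
  have hkb : |k| * (|k| + be ε t)⁻¹ ≤ 1 := by
    rw [← div_eq_mul_inv, div_le_one (by positivity)]
    linarith
  have a1 := nrm_nonneg (be ε t) n1
  have a2 := nrm_nonneg (be ε t) n2
  have a0 := nrm_nonneg (be ε t) n0
  have b1 : nrm (be ε t) (|k| • Top k n1) ≤ nrm (be ε t) n1 := by
    rw [nrm_rsmul, abs_abs]
    calc |k| * nrm (be ε t) (Top k n1) ≤ |k| * ((|k| + be ε t)⁻¹ * nrm (be ε t) n1) := by
          gcongr; exact Top_nrm h8 n1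
      _ = |k| * (|k| + be ε t)⁻¹ * nrm (be ε t) n1 := by ring
      _ ≤ 1 * nrm (be ε t) n1 := by gcongr
      _ = _ := one_mul _
  have b2 : nrm (be ε t) ((Complex.I * (k : ℂ)) • Top k n2) ≤ nrm (be ε t) n2 := by
    rw [nrm_smul, norm_mul, Complex.norm_I, one_mul, Complex.norm_real, Real.norm_eq_abs]
    calc |k| * nrm (be ε t) (Top k n2) ≤ |k| * ((|k| + be ε t)⁻¹ * nrm (be ε t) n2) := by
          gcongr; exact Top_nrm h8 n2
      _ = |k| * (|k| + be ε t)⁻¹ * nrm (be ε t) n2 := by ring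
      _ ≤ 1 * nrm (be ε t) n2 := by gcongr
      _ = _ := one_mul _
  have b3 : nrm (be ε t) (is k • Top k n0) ≤ th ε k t * nrm (be ε t) n0 := by
    rw [nrm_smul]
    have c1 := Top_nrm (k := k) h8 n0
    rw [h4] at c1
    have c2 : nrm (be ε t) (Top k n0) ≤ th ε k t * nrm (be ε t) n0 := by
      refine c1.trans ?_
      have : 0 ≤ th ε k t * nrm (be ε t) n0 := by positivity
      have e : th ε k t / 75 * nrm (be ε t) n0 = (th ε k t * nrm (be ε t) n0) / 75 := by ring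
      rw [e]; linarith
    exact (mul_le_of_le_one_left (nrm_nonneg _ _) (norm_is_le k)).trans c2
  rw [Rν]
  have d1 := qd_nrm_sub_le (be ε t) (-n1 + |k| • Top k n1 - (Complex.I * (k : ℂ)) • Top k n2)
    (is k • Top k n0)
  have d2 := qd_nrm_sub_le (be ε t) (-n1 + |k| • Top k n1) ((Complex.I * (k : ℂ)) • Top k n2)
  have d3 := nrm_add (be ε t) (-n1) (|k| • Top k n1)
  rw [nrm_neg] at d3
  linarith

theorem quad : ∃ C : ℝ, 1 ≤ C ∧ ∀ (H : ℝ) [Fact (0 < H)] (ω ε t : ℝ) (u : L1 (Xn H)), 0 < ε → ε ≤ 1 →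
    0 < t → t ≤ 1 → (∀ n : ℤ, Dmode (ω * n) (u n)) →
    (Summable fun n : ℤ => WW ε (ω * n) t *
      (Dn (be ε t) (th ε (ω * n) t) (u n) + (√t)⁻¹ * En (be ε t) (th ε (ω * n) t) (u n))) →
    ∀ n : ℤ, WW ε (ω * n) t * (nrm (be ε t) (Bf ω u u n).2 +
        th ε (ω * n) t * nrm (be ε t) (Bf ω u u n).1) ≤
      C * √(√t) * ∑' m : ℤ,
        (WW ε (ω * m) t * (Dn (be ε t) (th ε (ω * m) t) (u m) +
          (√t)⁻¹ * En (be ε t) (th ε (ω * m) t) (u m))) *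
        (WW ε (ω * (n - m : ℤ)) t * (Dn (be ε t) (th ε (ω * (n - m : ℤ)) t) (u (n - m)) +
          (√t)⁻¹ * En (be ε t) (th ε (ω * (n - m : ℤ)) t) (u (n - m)))) := by
  refine ⟨100, by norm_num, ?_⟩
  intro H hH ω ε t u hε hε1 ht ht1 hu hsum n
  -- notation
  set b := be ε t with hb
  set q := √(√t) with hq
  have hq0 : 0 ≤ q := Real.sqrt_nonneg _
  let G : ℤ → ℝ := fun m => WW ε (ω * m) t * qd_Gq b (th ε (ω * m) t) t (u m)
  have hG0 : ∀ m, 0 ≤ G m := fun m =>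
    mul_nonneg (zero_le_one.trans (WW_one_le (k := ω * m) hε ht.le ht1).1) (qd_Gq_nonneg _ _ _ _)
  have hGs : Summable G := hsum
  let g : ℤ → ℝ := fun m => G m * G (n - m)
  have hgs : Summable g := (summable_shear hGs hGs hG0 hG0).1.prod_factor n
  have hg0 : ∀ m, 0 ≤ g m := fun m => mul_nonneg (hG0 m) (hG0 _)
  show WW ε (ω * n) t * (nrm b (Bf ω u u n).2 + th ε (ω * n) t * nrm b (Bf ω u u n).1) ≤
      100 * q * ∑' m, g m
  -- convergence of the convolutions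
  have hW1 : Wt 1 (fun _ : ℤ => (1:ℝ)) := ⟨fun _ => le_rfl, fun _ _ => by norm_num, rfl⟩
  have hus : Summable fun n => (1:ℝ) * ‖u n‖ := by
    simpa using l1_summable u
  have cs : CS ω u u := cs_of hW1 ω hus hus
  -- weights
  have hcast : ∀ m : ℤ, ω * (n : ℝ) = ω * (m : ℝ) + ω * ((n - m : ℤ) : ℝ) := fun m => by
    push_cast; ring
  have hWpos : ∀ m : ℤ, 0 ≤ WW ε (ω * m) t := fun m =>
    zero_le_one.trans (WW_one_le (k := ω * m) hε ht.le ht1).1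
  have hθpos : ∀ m : ℤ, 0 < th ε (ω * m) t := fun m => (th_inv (k := ω * m) hε ht ht1).1
  have hWsub : ∀ m : ℤ, WW ε (ω * n) t ≤ WW ε (ω * m) t * WW ε (ω * (n - m : ℤ)) t := fun m => by
    rw [hcast m]; exact WW_sub hε ht.le ht1
  have hWth : ∀ m : ℤ, WW ε (ω * n) t * th ε (ω * n) t ≤
      2 * WW ε (ω * m) t * (WW ε (ω * (n - m : ℤ)) t * th ε (ω * (n - m : ℤ)) t) := fun m => by
    rw [hcast m]; exact WW_th_sub hε ht.le ht1
  have hWth' : ∀ m : ℤ, WW ε (ω * n) t * th ε (ω * n) t ≤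
      2 * WW ε (ω * (n - m : ℤ)) t * (WW ε (ω * m) t * th ε (ω * m) t) := fun m => by
    rw [hcast m, add_comm (ω * (m : ℝ))]; exact WW_th_sub hε ht.le ht1
  have hGE : ∀ m : ℤ, (√t)⁻¹ * En b (th ε (ω * m) t) (u m) + Dn b (th ε (ω * m) t) (u m) =
      qd_Gq b (th ε (ω * m) t) t (u m) := fun m => add_comm _ _
  have hs0 : 0 ≤ (√t)⁻¹ := inv_nonneg.2 (Real.sqrt_nonneg _)
  have hDG : ∀ m : ℤ, Dn b (th ε (ω * m) t) (u m) ≤ qd_Gq b (th ε (ω * m) t) t (u m) := fun m =>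
    le_add_of_nonneg_right (mul_nonneg hs0 (qd_En_nonneg _ _ _))
  -- the term `v (κγ)`
  have ta : WW ε (ω * n) t * th ε (ω * n) t * nrm b (conv (A1 ω u) (A5 ω u) n) ≤
      (6 * q) * ∑' m, g m := by
    refine qd_conv_nrm (mul_nonneg (hWpos n) (hθpos n).le) (cs.a n) hgs fun m => ?_
    have s1 := qd_vv_sup hε ht ht1 (hu m)
    have G1 := qd_Gq_nonneg b (th ε (ω * m) t) t (u m)
    have s2 := nrm_mul_le (b := b) (f := A1 ω u m) (g := A5 ω u (n - m)) (C := 3 * (q * qd_Gq b (th ε (ω * m) t) t (u m)))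
      (by positivity) s1
    have s3 : nrm b (A5 ω u (n - m)) ≤ nrm b (u (n - m)).1.2.2 := by
      rw [A5, nrm_smul]
      exact mul_le_of_le_one_left (nrm_nonneg _ _) (norm_is_le _)
    have s4 := qd_nrm_ga2_le (hθpos (n - m)).le b (u (n - m))
    have s5 := hDG (n - m)
    have w1 := hWpos m
    have w2 := hWpos (n - m)
    have t2 := (hθpos (n - m)).le
    have n5 := nrm_nonneg b (A5 ω u (n - m))
    have n6 := nrm_nonneg b (u (n - m)).1.2.2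
    have r := qd_ar_th (c := 3) (d := 1) (G2 := qd_Gq b (th ε (ω * (n - m : ℤ)) t) t (u (n - m))) w1 w2 hq0 G1
      (nrm_nonneg b (A1 ω u m * A5 ω u (n - m))) t2 (by norm_num) (hWth m) (N := nrm b (u (n - m)).1.2.2)
      (s2.trans (mul_le_mul_of_nonneg_left s3 (mul_nonneg (by norm_num) (mul_nonneg hq0 G1))))
      (by rw [one_mul]; exact s4.trans s5)
    refine r.trans_eq ?_
    show _ = 6 * q * ((WW ε (ω * m) t * qd_Gq b (th ε (ω * m) t) t (u m)) *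
            (WW ε (ω * (n - m : ℤ)) t * qd_Gq b (th ε (ω * (n - m : ℤ)) t) t (u (n - m))))
    ring
  -- the term `w γ'`
  have tb : WW ε (ω * n) t * th ε (ω * n) t * nrm b (conv (A2 ω u) (A6 u) n) ≤
      (8 * q) * ∑' m, g m := by
    refine qd_conv_nrm (mul_nonneg (hWpos n) (hθpos n).le) (cs.b n) hgs fun m => ?_
    have s1 := qd_om_sup hε ht ht1 (hu m)
    have G1 := qd_Gq_nonneg b (th ε (ω * m) t) t (u m)
    have s2 := nrm_mul_le (b := b) (f := A2 ω u m) (g := A6 u (n - m)) (C := 2 * (q * qd_Gq b (th ε (ω * m) t) t (u m)))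
      (by positivity) s1
    have s4 := qd_ga1_nrm (k := ω * (n - m : ℤ)) (x := u (n - m)) hε ht ht1
    have w1 := hWpos m
    have w2 := hWpos (n - m)
    have t2 := (hθpos (n - m)).le
    have n5 := nrm_nonneg b (A6 u (n - m))
    have n6 := nrm_nonneg b (A2 ω u m * A6 u (n - m))
    have r := qd_ar_th (c := 2) (d := 2) (G2 := qd_Gq b (th ε (ω * (n - m : ℤ)) t) t (u (n - m))) w1 w2 hq0 G1
      n6 t2 (by norm_num) (hWth m) s2 s4
    refine r.trans_eq ?_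
    show _ = 8 * q * ((WW ε (ω * m) t * qd_Gq b (th ε (ω * m) t) t (u m)) *
            (WW ε (ω * (n - m : ℤ)) t * qd_Gq b (th ε (ω * (n - m : ℤ)) t) t (u (n - m))))
    ring
  -- the term `γ γ`
  have key : ∀ (k l W1 W2 w : ℝ) (x y : Xn H), Dmode k x → Dmode l y → |k| ≤ |l| → 0 ≤ W1 → 0 ≤ W2 →
      0 ≤ w → w ≤ 2 * W1 * (W2 * th ε l t) →
      w * nrm b (x.1.1 * y.1.1) ≤ 2 * q * ((W1 * qd_Gq b (th ε k t) t x) * (W2 * qd_Gq b (th ε l t) t y)) := by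
    intro k l W1 W2 w x y hx hy hkl hW1 hW2 hw0 hw
    obtain ⟨h1, h2, h3, h4, h5, h6, h7, h8, h9⟩ := th_inv (k := k) hε ht ht1
    obtain ⟨h1', -⟩ := th_inv (k := l) hε ht ht1
    have G1 := qd_Gq_nonneg b (th ε k t) t x
    have G2 := qd_Gq_nonneg b (th ε l t) t y
    have s1 : ∀ z ∈ Icc (0:ℝ) H, ‖ex x.1.1 z‖ ≤ (th ε k t)⁻¹ * (q * qd_Gq b (th ε k t) t x) := by
      intro z hz
      rw [le_inv_mul_iff₀ h1]
      exact qd_ga_sup hε ht ht1 hx z hz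
    have s2 := nrm_mul_le (b := b) (g := y.1.1) (by positivity) s1
    have s3 := qd_nrm_ga_le h1'.le b y
    have s4 := qd_kE_le_D (b := b) (θ := th ε l t) hy
    have e2 := qd_En_nonneg b (th ε l t) y
    have n1 := nrm_nonneg b y.1.1
    have n2 := nrm_nonneg b (x.1.1 * y.1.1)
    have s5 : (th ε k t)⁻¹ * En b (th ε l t) y ≤ qd_Gq b (th ε l t) t y := by
      calc (th ε k t)⁻¹ * En b (th ε l t) y ≤ (1 / √t + |k|) * En b (th ε l t) y := by gcongr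
        _ = (√t)⁻¹ * En b (th ε l t) y + |k| * En b (th ε l t) y := by ring
        _ ≤ (√t)⁻¹ * En b (th ε l t) y + |l| * En b (th ε l t) y := by gcongr
        _ ≤ (√t)⁻¹ * En b (th ε l t) y + Dn b (th ε l t) y := by gcongr
        _ = _ := add_comm _ _
    exact qd_ar_gg hW1 hW2 hq0 G1 n2 (inv_nonneg.2 h1.le) h1'.le hw s2 s3 s5
  have tc : WW ε (ω * n) t * th ε (ω * n) t * nrm b (conv (A3 u) (A3 u) n) ≤
      (2 * q) * ∑' m, g m := by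
    refine qd_conv_nrm (mul_nonneg (hWpos n) (hθpos n).le) (cs.c n) hgs fun m => ?_
    rcases le_total |ω * (m : ℝ)| |ω * ((n - m : ℤ) : ℝ)| with h | h
    · exact key _ _ _ _ _ _ _ (hu m) (hu (n - m)) h (hWpos m) (hWpos (n - m))
        (mul_nonneg (hWpos n) (hθpos n).le) (hWth m)
    · have := key _ _ _ _ _ _ _ (hu (n - m)) (hu m) h (hWpos (n - m)) (hWpos m)
        (mul_nonneg (hWpos n) (hθpos n).le) (hWth' m)
      show WW ε (ω * n) t * th ε (ω * n) t * nrm b ((u m).1.1 * (u (n - m)).1.1) ≤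
        2 * q * ((WW ε (ω * m) t * qd_Gq b (th ε (ω * m) t) t (u m)) *
            (WW ε (ω * (n - m : ℤ)) t * qd_Gq b (th ε (ω * (n - m : ℤ)) t) t (u (n - m))))
      rw [mul_comm (u m).1.1, mul_comm (WW ε (ω * m) t * qd_Gq b (th ε (ω * m) t) t (u m))]
      exact this
  -- the terms with vorticity
  have td : WW ε (ω * n) t * nrm b (conv (A4 ω u) (A2 ω u) n) ≤ (8 * q) * ∑' m, g m := by
    refine qd_conv_nrm (hWpos n) (cs.d n) hgs fun m => ?_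
    have s1 := qd_om_sup hε ht ht1 (hu (n - m))
    have G1 := qd_Gq_nonneg b (th ε (ω * m) t) t (u m)
    have G2 := qd_Gq_nonneg b (th ε (ω * (n - m : ℤ)) t) t (u (n - m))
    have s2 := qd_nrm_mul_comm_le (b := b) (f := A4 ω u m) (g := A2 ω u (n - m))
      (C := 2 * (q * qd_Gq b (th ε (ω * (n - m : ℤ)) t) t (u (n - m)))) (by positivity) s1
    have s4 := qd_Om_nrm hε ht ht1 (hu m)
    have w1 := hWpos m
    have w2 := hWpos (n - m)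
    have n5 := nrm_nonneg b (A4 ω u m)
    have n6 := nrm_nonneg b (A4 ω u m * A2 ω u (n - m))
    have r := qd_ar_w (c := 2) w1 w2 hq0 G2 n6 (by norm_num) (hWsub m) s2 s4
    refine r.trans_eq ?_
    show _ = 8 * q * ((WW ε (ω * m) t * qd_Gq b (th ε (ω * m) t) t (u m)) *
            (WW ε (ω * (n - m : ℤ)) t * qd_Gq b (th ε (ω * (n - m : ℤ)) t) t (u (n - m))))
    ring
  have te : WW ε (ω * n) t * nrm b (conv (A4 ω u) (A1 ω u) n) ≤ (12 * q) * ∑' m, g m := by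
    refine qd_conv_nrm (hWpos n) (cs.e n) hgs fun m => ?_
    have s1 := qd_vv_sup hε ht ht1 (hu (n - m))
    have G1 := qd_Gq_nonneg b (th ε (ω * m) t) t (u m)
    have G2 := qd_Gq_nonneg b (th ε (ω * (n - m : ℤ)) t) t (u (n - m))
    have s2 := qd_nrm_mul_comm_le (b := b) (f := A4 ω u m) (g := A1 ω u (n - m))
      (C := 3 * (q * qd_Gq b (th ε (ω * (n - m : ℤ)) t) t (u (n - m)))) (by positivity) s1
    have s4 := qd_Om_nrm hε ht ht1 (hu m)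
    have w1 := hWpos m
    have w2 := hWpos (n - m)
    have n5 := nrm_nonneg b (A4 ω u m)
    have n6 := nrm_nonneg b (A4 ω u m * A1 ω u (n - m))
    have r := qd_ar_w (c := 3) w1 w2 hq0 G2 n6 (by norm_num) (hWsub m) s2 s4
    refine r.trans_eq ?_
    show _ = 12 * q * ((WW ε (ω * m) t * qd_Gq b (th ε (ω * m) t) t (u m)) *
            (WW ε (ω * (n - m : ℤ)) t * qd_Gq b (th ε (ω * (n - m : ℤ)) t) t (u (n - m))))
    ring
  -- assembly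
  have hS0 : 0 ≤ ∑' m, g m := tsum_nonneg hg0
  have wth0 : 0 ≤ WW ε (ω * n) t * th ε (ω * n) t := mul_nonneg (hWpos n) (hθpos n).le
  have f0 : WW ε (ω * n) t * th ε (ω * n) t * nrm b (N0 ω u u n) ≤ (16 * q) * ∑' m, g m := by
    rw [N0_eq]
    have c1 := nrm_add b (conv (A1 ω u) (A5 ω u) n + conv (A2 ω u) (A6 u) n) (conv (A3 u) (A3 u) n)
    have c2 := nrm_add b (conv (A1 ω u) (A5 ω u) n) (conv (A2 ω u) (A6 u) n)
    have c3 : WW ε (ω * n) t * th ε (ω * n) t * nrm b (conv (A1 ω u) (A5 ω u) n +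
        conv (A2 ω u) (A6 u) n + conv (A3 u) (A3 u) n) ≤
        WW ε (ω * n) t * th ε (ω * n) t * (nrm b (conv (A1 ω u) (A5 ω u) n) +
          nrm b (conv (A2 ω u) (A6 u) n) + nrm b (conv (A3 u) (A3 u) n)) := by
      exact mul_le_mul_of_nonneg_left (by linarith) wth0
    have c4 : WW ε (ω * n) t * th ε (ω * n) t * (nrm b (conv (A1 ω u) (A5 ω u) n) +
          nrm b (conv (A2 ω u) (A6 u) n) + nrm b (conv (A3 u) (A3 u) n)) =
        WW ε (ω * n) t * th ε (ω * n) t * nrm b (conv (A1 ω u) (A5 ω u) n) +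
        WW ε (ω * n) t * th ε (ω * n) t * nrm b (conv (A2 ω u) (A6 u) n) +
        WW ε (ω * n) t * th ε (ω * n) t * nrm b (conv (A3 u) (A3 u) n) := by ring
    rw [c4] at c3
    linarith
  have f1 : WW ε (ω * n) t * nrm b (N1 ω u u n) ≤ (8 * q) * ∑' m, g m := by
    rw [N1_eq, nrm_neg]; exact td
  have f2 : WW ε (ω * n) t * nrm b (N2 ω u u n) ≤ (12 * q) * ∑' m, g m := by
    rw [N2_eq]; exact te
  have r1 := qd_Rnu_nrm hε ht ht1 (ω * n) (N0 ω u u n) (N1 ω u u n) (N2 ω u u n)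
  have e1 : (Bf ω u u n).1 = -N0 ω u u n := rfl
  have e2 : (Bf ω u u n).2 = Rν (ω * n) (N0 ω u u n) (N1 ω u u n) (N2 ω u u n) := rfl
  rw [e1, e2, nrm_neg]
  have w0 := hWpos n
  exact qd_ar_fin w0 hq0 hS0 r1 f0 f1 f2

end Pool.Agent.Lib.MP_79abb3_an.P25
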