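import Pool.Agent.Lib.MP_79abb3_an.P25.AprioriAbs
import Pool.Agent.Lib.MP_79abb3_an.P25.Gron
import Pool.Agent.Lib.MP_79abb3_an.P25.ModeOde
import Pool.Agent.Lib.MP_79abb3_an.P25.Quad

/-!
SA-3: the a priori bound.
-/

set_option autoImplicit false
set_option linter.unusedSectionVars false

open MeasureTheory Set Filter Topology Function

namespace Pool.Agent.Lib.MP_79abb3_an.P25

section
variable {H : ℝ} [hH : Fact (0 < H)]

namespace Apr

theorem la_nonneg (k : ℝ) : 0 ≤ la k := by unfold la; positivity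

theorem WW_nonneg {ε t k : ℝ} (hε : 0 < ε) (ht : 0 ≤ t) : 0 ≤ WW ε k t := by
  have h1 := la_nonneg k
  have h2 := (LL_bounds hε ht).2.2.2.1
  unfold WW
  positivity

theorem WW_le' {ε t ω : ℝ} (hε : 0 < ε) (ht : 0 ≤ t) (n : ℤ) :
    WW ε (ω * n) t ≤ (1 + 200 * |ω|) ^ 91 * Wq 91 n := by
  refine (WW_le hε ht).trans ?_
  rw [Wq, ← mul_pow]
  refine pow_le_pow_left₀ (by have := la_nonneg (ω * n); positivity) ?_ 91
  rw [la, abs_mul]
  have h1 := abs_nonneg ω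
  have h2 := abs_nonneg (n : ℝ)
  nlinarith

theorem th_bd {ε t k : ℝ} (hε : 0 < ε) (ht : 0 ≤ t) (ht1 : t ≤ 1) : 0 ≤ th ε k t ∧ th ε k t ≤ 15000 := by
  obtain ⟨h1, _, _, _, _, h2⟩ := LL_bounds (ε := ε) hε ht
  have h3 := la_nonneg k
  have h4 : √t ≤ 1 := Real.sqrt_le_one.2 ht1
  unfold th
  refine ⟨by positivity, ?_⟩
  rw [div_le_iff₀ (by positivity)]
  have h5 : 0 ≤ la k * LL ε t := by positivity
  nlinarith

theorem En_nonneg (b θ : ℝ) (x : Xn H) : 0 ≤ En b θ x := Real.sqrt_nonneg _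
theorem Dn_nonneg (b θ : ℝ) (x : Xn H) : 0 ≤ Dn b θ x := Real.sqrt_nonneg _

theorem En_le {b θ : ℝ} (hb : 0 ≤ b) (hθ : 0 ≤ θ) (x : Xn H) :
    En b θ x ≤ (1 + θ) * (√H * Real.exp (b * H)) * ‖x‖ := by
  have h1 := nrm_le hb x.2.1
  have h2 := nrm_le hb x.1.1
  have h3 : ‖x.2.1‖ ≤ ‖x‖ := (norm_fst_le x.2).trans (norm_snd_le x)
  have h4 : ‖x.1.1‖ ≤ ‖x‖ := (norm_fst_le x.1).trans (norm_fst_le x)
  set κ := √H * Real.exp (b * H) with hκ
  have hκ0 : 0 ≤ κ := by positivity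
  have h5 : nrm b x.2.1 ≤ κ * ‖x‖ := h1.trans (mul_le_mul_of_nonneg_left h3 hκ0)
  have h6 : nrm b x.1.1 ≤ κ * ‖x‖ := h2.trans (mul_le_mul_of_nonneg_left h4 hκ0)
  have n1 := nrm_nonneg b x.2.1
  have n2 := nrm_nonneg b x.1.1
  have h7 : 0 ≤ κ * ‖x‖ := by positivity
  rw [En]
  refine Real.sqrt_le_iff.2 ⟨by positivity, ?_⟩
  have h8 : nrm b x.2.1 ^ 2 ≤ (κ * ‖x‖) ^ 2 := pow_le_pow_left₀ n1 h5 2
  have h9 : nrm b x.1.1 ^ 2 ≤ (κ * ‖x‖) ^ 2 := pow_le_pow_left₀ n2 h6 2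
  have h10 : θ ^ 2 * nrm b x.1.1 ^ 2 ≤ θ ^ 2 * (κ * ‖x‖) ^ 2 := mul_le_mul_of_nonneg_left h9 (sq_nonneg _)
  have h11 : 0 ≤ θ * (κ * ‖x‖) ^ 2 := by positivity
  calc _ ≤ (κ * ‖x‖) ^ 2 + θ ^ 2 * (κ * ‖x‖) ^ 2 := add_le_add h8 h10
    _ ≤ (1 + θ) ^ 2 * (κ * ‖x‖) ^ 2 := by nlinarith
    _ = _ := by ring

theorem Dn_le {b θ : ℝ} (hb : 0 ≤ b) (hθ : 0 ≤ θ) (x : Xn H) :
    Dn b θ x ≤ (1 + θ) * (2 + b) * (√H * Real.exp (b * H)) * ‖x‖ := by
  set κ := √H * Real.exp (b * H) with hκ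
  have hκ0 : 0 ≤ κ := by positivity
  have hx := norm_nonneg x
  have h7 : 0 ≤ κ * ‖x‖ := by positivity
  have hn : ∀ f : CI H, ‖f‖ ≤ ‖x‖ → nrm b f ≤ κ * ‖x‖ := fun f hf =>
    (nrm_le hb f).trans (mul_le_mul_of_nonneg_left hf hκ0)
  have hn' : ∀ f g : CI H, ‖f‖ ≤ ‖x‖ → ‖g‖ ≤ ‖x‖ → nrm b (f + b • g) ≤ (1 + b) * (κ * ‖x‖) := by
    intro f g hf hg
    refine (nrm_add b _ _).trans ?_
    rw [nrm_rsmul, abs_of_nonneg hb]
    have h1 := hn f hf
    have h2 := mul_le_mul_of_nonneg_left (hn g hg) hb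
    linarith
  have a1 : ‖x.2.1‖ ≤ ‖x‖ := (norm_fst_le x.2).trans (norm_snd_le x)
  have a2 : ‖x.2.2.1‖ ≤ ‖x‖ := (norm_fst_le x.2.2).trans ((norm_snd_le x.2).trans (norm_snd_le x))
  have a3 : ‖x.2.2.2‖ ≤ ‖x‖ := (norm_snd_le x.2.2).trans ((norm_snd_le x.2).trans (norm_snd_le x))
  have b1 : ‖x.1.1‖ ≤ ‖x‖ := (norm_fst_le x.1).trans (norm_fst_le x)
  have b2 : ‖x.1.2.1‖ ≤ ‖x‖ := (norm_fst_le x.1.2).trans ((norm_snd_le x.1).trans (norm_fst_le x))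
  have b3 : ‖x.1.2.2‖ ≤ ‖x‖ := (norm_snd_le x.1.2).trans ((norm_snd_le x.1).trans (norm_fst_le x))
  have c1 := pow_le_pow_left₀ (nrm_nonneg _ _) (hn' _ _ a2 a1) 2
  have c2 := pow_le_pow_left₀ (nrm_nonneg _ _) (hn _ a3) 2
  have c3 := pow_le_pow_left₀ (nrm_nonneg _ _) (hn' _ _ b2 b1) 2
  have c4 := pow_le_pow_left₀ (nrm_nonneg _ _) (hn _ b3) 2
  rw [Dn]
  refine Real.sqrt_le_iff.2 ⟨by positivity, ?_⟩
  set X := κ * ‖x‖ with hX
  have e1 : ((1 + b) * X) ^ 2 + X ^ 2 ≤ ((2 + b) * X) ^ 2 := by nlinarith [mul_nonneg hb (sq_nonneg X), sq_nonneg X]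
  have e2 : (0:ℝ) ≤ ((2 + b) * X) ^ 2 := sq_nonneg _
  calc _ ≤ (((1 + b) * X) ^ 2 + X ^ 2) + θ ^ 2 * (((1 + b) * X) ^ 2 + X ^ 2) :=
        add_le_add (add_le_add c1 c2) (mul_le_mul_of_nonneg_left (add_le_add c3 c4) (sq_nonneg _))
    _ ≤ ((2 + b) * X) ^ 2 + θ ^ 2 * ((2 + b) * X) ^ 2 :=
        add_le_add e1 (mul_le_mul_of_nonneg_left e1 (sq_nonneg _))
    _ ≤ (1 + θ) ^ 2 * ((2 + b) * X) ^ 2 := by nlinarith
    _ = _ := by rw [hX]; ring

theorem cont_be {ε b : ℝ} (hε : 0 < ε) : ContinuousOn (be ε) (Icc 0 b) := by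
  have h1 : Continuous (el ε) := by
    unfold el
    refine continuous_const.div (by fun_prop) fun t => ?_
    have : 0 < t ^ 2 + ε ^ 2 := by positivity
    exact (Real.sqrt_pos.2 this).ne'
  have h2 : Continuous (LL ε) := by
    unfold LL
    exact h1.add Real.continuous_sqrt
  unfold be
  refine continuousOn_const.div (continuous_const.mul h2).continuousOn fun t ht => ?_
  have := (LL_bounds hε ht.1).1
  positivity

theorem cont_qq {ε b : ℝ} : ContinuousOn (qq ε) (Icc 0 b) := by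
  unfold qq
  refine Continuous.continuousOn (Continuous.rpow_const (by fun_prop) fun t => Or.inl ?_)
  positivity

theorem coef {ε ω b : ℝ} (hε : 0 < ε) (hb1 : b ≤ 1) (u : ℝ → L1 (Xn H)) :
    ∃ K, 0 ≤ K ∧ ∀ t ∈ Icc 0 b, ∀ n, Ye ε ω u n t ≤ K * (Wq 91 n * ‖u t n‖) ∧
      De ε ω u n t ≤ K * (Wq 91 n * ‖u t n‖) := by
  obtain ⟨B, hB⟩ := isCompact_Icc.exists_bound_of_continuousOn (cont_be (b := b) hε)
  obtain ⟨Q, hQ⟩ := isCompact_Icc.exists_bound_of_continuousOn (cont_qq (ε := ε) (b := b))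
  set B' := max B 0 with hB'
  set Q' := max Q 0 with hQ'
  refine ⟨Q' * (1 + 200 * |ω|) ^ 91 * (15001 * (2 + B') * (√H * Real.exp (B' * H))), by positivity, ?_⟩
  intro t ht n
  have hH0 := hH.out
  obtain ⟨h1, h2⟩ := th_bd (k := ω * n) hε ht.1 (ht.2.trans hb1)
  have h3 : be ε t ≤ B' := (le_abs_self _).trans ((hB t ht).trans (le_max_left _ _))
  have h3' : 0 ≤ be ε t := by
    have := (LL_bounds hε ht.1).1
    unfold be
    positivity
  have h4 : qq ε t ≤ Q' := (le_abs_self _).trans ((hQ t ht).trans (le_max_left _ _))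
  have h4' : 0 ≤ qq ε t := zero_le_one.trans qq_one_le
  have h5 := WW_le' (ω := ω) hε ht.1 n
  have h5' := WW_nonneg (k := ω * n) hε ht.1
  have h6 : Real.exp (be ε t * H) ≤ Real.exp (B' * H) := by
    apply Real.exp_le_exp.2
    gcongr
  have hB0 : 0 ≤ B' := le_max_right _ _
  have hQ0 : 0 ≤ Q' := le_max_right _ _
  have hE : En (be ε t) (th ε (ω * n) t) (u t n) ≤
      15001 * (2 + B') * (√H * Real.exp (B' * H)) * ‖u t n‖ := by
    refine (En_le h3' h1 _).trans ?_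
    have : 1 + th ε (ω * n) t ≤ 15001 * (2 + B') := by nlinarith
    gcongr
  have hD : Dn (be ε t) (th ε (ω * n) t) (u t n) ≤
      15001 * (2 + B') * (√H * Real.exp (B' * H)) * ‖u t n‖ := by
    refine (Dn_le h3' h1 _).trans ?_
    have : 1 + th ε (ω * n) t ≤ 15001 := by linarith
    gcongr
  have hWq : 0 ≤ Wq 91 n := by unfold Wq; positivity
  have hE0 := En_nonneg (be ε t) (th ε (ω * n) t) (u t n)
  have hD0 := Dn_nonneg (be ε t) (th ε (ω * n) t) (u t n)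
  have hc : (0:ℝ) ≤ (1 + 200 * |ω|) ^ 91 := by positivity
  have hk : 0 ≤ 15001 * (2 + B') * (√H * Real.exp (B' * H)) := by positivity
  have hx := norm_nonneg (u t n)
  generalize (1 + 200 * |ω|) ^ 91 = c at *
  generalize 15001 * (2 + B') * (√H * Real.exp (B' * H)) = k at *
  have key : ∀ e, 0 ≤ e → e ≤ k * ‖u t n‖ → qq ε t * WW ε (ω * n) t * e ≤
      Q' * c * k * (Wq 91 n * ‖u t n‖) := by
    intro e he0 he
    calc qq ε t * WW ε (ω * n) t * e ≤ (Q' * (c * Wq 91 n)) * (k * ‖u t n‖) := by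
          refine mul_le_mul (mul_le_mul h4 h5 h5' hQ0) he he0 ?_
          exact mul_nonneg hQ0 (mul_nonneg hc hWq)
      _ = _ := by ring
  exact ⟨key _ hE0 hE, key _ hD0 hD⟩

end Apr

/-- SA-3: the a priori bound. -/
theorem apriori : ∃ C0 : ℝ, 1 ≤ C0 ∧ ∀ (H : ℝ) [Fact (0 < H)] (ω ε b Φ R : ℝ) (g g1 : ℝ → CI H)
    (u : ℝ → L1 (Xn H)), 0 < ε → ε ≤ 1 → 0 ≤ b → b ≤ 1 / 4096 → BaseFlow ε g g1 →
    PT ω 0 b (fun t => U0 (g t) (g1 t)) (fun _ => 0) u →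
    (∀ t ∈ Icc 0 b, Summable (fun n => Wq 92 n * ‖u t n‖) ∧ ∑' n, Wq 92 n * ‖u t n‖ ≤ R) →
    HasSum (fun n => Ye ε ω u n 0) Φ → C0 * √(√b) * Φ ≤ 1 →
    (∀ t ∈ Icc 0 b, Summable (fun n => Ye ε ω u n t) ∧ Summable (fun n => De ε ω u n t) ∧
      ∑' n, Ye ε ω u n t ≤ C0 * Φ) ∧
    IntervalIntegrable (fun t => (∑' n, De ε ω u n t) ^ 2) volume 0 b ∧
    ∫ t in (0:ℝ)..b, (∑' n, De ε ω u n t) ^ 2 ≤ C0 * Φ ^ 2 := by
  obtain ⟨C, hC, hquad⟩ := quad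
  refine ⟨1360 * C, by linarith, ?_⟩
  intro H _ ω ε b Φ R g g1 u hε hε1 hb0 hb hg hu hR hΦ hs
  have hb1 : b ≤ 1 := by linarith
  obtain ⟨K, hK, hYD⟩ := Apr.coef (ω := ω) hε hb1 u
  have hy : ∀ n, ∀ t ∈ Icc 0 b, 0 ≤ Ye ε ω u n t := fun n t ht => by
    have h1 : 0 ≤ qq ε t := zero_le_one.trans qq_one_le
    have h2 := Apr.WW_nonneg (k := ω * n) hε ht.1
    have h3 := Apr.En_nonneg (be ε t) (th ε (ω * n) t) (u t n)
    unfold Ye
    positivity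
  have hd : ∀ n, ∀ t ∈ Icc 0 b, 0 ≤ De ε ω u n t := fun n t ht => by
    have h1 : 0 ≤ qq ε t := zero_le_one.trans qq_one_le
    have h2 := Apr.WW_nonneg (k := ω * n) hε ht.1
    have h3 := Apr.Dn_nonneg (be ε t) (th ε (ω * n) t) (u t n)
    unfold De
    positivity
  have hF : ∀ n, ∀ t ∈ Icc 0 b, 0 ≤ Fe ε ω u n t := fun n t ht => by
    have h1 : 0 ≤ qq ε t := zero_le_one.trans qq_one_le
    have h2 := Apr.WW_nonneg (k := ω * n) hε ht.1
    have h3 := nrm_nonneg (be ε t) (Bf ω (u t) (u t) n).2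
    have h4 := nrm_nonneg (be ε t) (Bf ω (u t) (u t) n).1
    have h5 := (Apr.th_bd (k := ω * n) hε ht.1 (ht.2.trans hb1)).1
    unfold Fe
    positivity
  have hsum : ∀ {x : ℤ → ℝ} {t : ℝ}, t ∈ Icc 0 b → (∀ n, x n ≤ K * (Wq 91 n * ‖u t n‖)) →
      ∀ s : Finset ℤ, ∑ n ∈ s, (1 + |(n : ℝ)|) * x n ≤ K * R := by
    intro x t ht hx s
    obtain ⟨h1, h2⟩ := hR t ht
    have h3 : ∑ n ∈ s, Wq 92 n * ‖u t n‖ ≤ R :=
      (h1.sum_le_tsum s fun n _ => mul_nonneg (by unfold Wq; positivity) (norm_nonneg _)).trans h2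
    refine le_trans ?_ (mul_le_mul_of_nonneg_left h3 hK)
    rw [Finset.mul_sum]
    refine Finset.sum_le_sum fun n _ => ?_
    calc (1 + |(n : ℝ)|) * x n ≤ (1 + |(n : ℝ)|) * (K * (Wq 91 n * ‖u t n‖)) :=
          mul_le_mul_of_nonneg_left (hx n) (by positivity)
      _ = K * (Wq 92 n * ‖u t n‖) := by
          rw [Wq, Wq, pow_succ (1 + |(n : ℝ)|) 91]
          ring
  have Ay : ∀ t ∈ Icc 0 b, ∀ s : Finset ℤ, ∑ n ∈ s, (1 + |(n : ℝ)|) * Ye ε ω u n t ≤ K * R :=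
    fun t ht => hsum ht fun n => (hYD t ht n).1
  have Ad : ∀ t ∈ Icc 0 b, ∀ s : Finset ℤ, ∑ n ∈ s, (1 + |(n : ℝ)|) * De ε ω u n t ≤ K * R :=
    fun t ht => hsum ht fun n => (hYD t ht n).2
  have ode := fun n => mode_ode hε hε1 hb0 hb1 hg hu n
  have hΦ0 : 0 ≤ Φ := hΦ.nonneg fun n => hy n 0 ⟨le_rfl, hb0⟩
  have key := Apr.main (C := C) (Φ := Φ) (A := K * R) hC hb0 (y := Ye ε ω u) (d := De ε ω u) (F := Fe ε ω u)
    (fun n => (ode n).1) (fun n => (ode n).2.1) (fun n => (ode n).2.2.1) hy hd hF Ay Ad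
    (by
      intro t ht s
      have ht' : t ∈ Icc 0 b := ⟨ht.1.le, ht.2⟩
      have hst : 0 < √t := Real.sqrt_pos.2 ht.1
      have sy := (Apr.tail (fun n => hy n t ht') (Ay t ht')).1
      have sd := (Apr.tail (fun n => hd n t ht') (Ad t ht')).1
      set G : ℤ → ℝ := fun n => De ε ω u n t + (√t)⁻¹ * Ye ε ω u n t with hG
      have hG0 : ∀ n, 0 ≤ G n := fun n =>
        add_nonneg (hd n t ht') (mul_nonneg (inv_nonneg.2 hst.le) (hy n t ht'))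
      have sG : Summable G := sd.add (sy.mul_left _)
      have tG : ∑' n, G n = ∑' n, De ε ω u n t + (√t)⁻¹ * ∑' n, Ye ε ω u n t := by
        rw [hG, sd.tsum_add (sy.mul_left _), tsum_mul_left]
      have q1 : 1 ≤ qq ε t := qq_one_le
      have q0 : 0 < qq ε t := by linarith
      set G0 : ℤ → ℝ := fun n => WW ε (ω * n) t * (Dn (be ε t) (th ε (ω * n) t) (u t n) +
          (√t)⁻¹ * En (be ε t) (th ε (ω * n) t) (u t n)) with hG0'
      have eG : ∀ n, G n = qq ε t * G0 n := fun n => by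
        simp only [hG, hG0', De, Ye]
        ring
      have sG0 : Summable G0 := by
        have h1 : Summable fun n => (qq ε t)⁻¹ * G n := sG.mul_left _
        refine h1.congr fun n => ?_
        rw [eG, inv_mul_cancel_left₀ q0.ne']
      have h0 : ∀ n, Fe ε ω u n t ≤ C * √(√t) * ∑' m, G m * G (n - m) := by
        intro n
        have h1 := hquad H ω ε t (u t) hε hε1 ht.1 (ht.2.trans hb1) (fun n => hu.dm t ht' n) sG0 n
        have h2 : ∑' m, G m * G (n - m) = qq ε t ^ 2 * ∑' m, G0 m * G0 (n - m) := by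
          rw [← tsum_mul_left]
          refine tsum_congr fun m => ?_
          rw [eG, eG]
          ring
        have h3 : 0 ≤ ∑' m, G0 m * G0 (n - m) := by
          have h4 : 0 ≤ ∑' m, G m * G (n - m) := tsum_nonneg fun m => mul_nonneg (hG0 _) (hG0 _)
          rw [h2] at h4
          exact nonneg_of_mul_nonneg_right h4 (by positivity)
        calc Fe ε ω u n t = qq ε t * (WW ε (ω * n) t * (nrm (be ε t) (Bf ω (u t) (u t) n).2 +
              th ε (ω * n) t * nrm (be ε t) (Bf ω (u t) (u t) n).1)) := by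
              unfold Fe; ring
          _ ≤ qq ε t * (C * √(√t) * ∑' m, G0 m * G0 (n - m)) :=
              mul_le_mul_of_nonneg_left h1 q0.le
          _ ≤ qq ε t ^ 2 * (C * √(√t) * ∑' m, G0 m * G0 (n - m)) := by
              refine mul_le_mul_of_nonneg_right (by nlinarith) ?_
              have := Real.sqrt_nonneg (√t)
              positivity
          _ = _ := by rw [h2]; ring
      have h5 := (Apr.conv_sum_le hG0 sG s).2
      calc ∑ n ∈ s, Fe ε ω u n t ≤ ∑ n ∈ s, C * √(√t) * ∑' m, G m * G (n - m) :=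
            Finset.sum_le_sum fun n _ => h0 n
        _ = C * √(√t) * ∑ n ∈ s, ∑' m, G m * G (n - m) := by rw [Finset.mul_sum]
        _ ≤ C * √(√t) * (∑' n, G n) ^ 2 := by gcongr
        _ ≤ C * √(√t) * (2 * (∑' n, De ε ω u n t) ^ 2 + 2 * ((√t)⁻¹ * ∑' n, Ye ε ω u n t) ^ 2) := by
            rw [tG]
            gcongr
            nlinarith [sq_nonneg (∑' n, De ε ω u n t - (√t)⁻¹ * ∑' n, Ye ε ω u n t)]
        _ = _ := by
            have h6 : (√t)⁻¹ ^ 2 = t⁻¹ := by rw [inv_pow, Real.sq_sqrt ht.1.le]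
            rw [mul_pow, h6]
            ring)
    (fun n => gron hb0 hb (ode n).1 (ode n).2.1 (ode n).2.2.1 (hy n) (hF n) (ode n).2.2.2) hΦ
    (by linarith)
  refine ⟨fun t ht => ⟨(key.1 t ht).1, (key.1 t ht).2.1, (key.1 t ht).2.2.trans ?_⟩, key.2.1,
    key.2.2.trans ?_⟩
  · exact mul_le_mul_of_nonneg_right (by linarith) hΦ0
  · exact mul_le_mul_of_nonneg_right (by linarith) (sq_nonneg _)

end

end Pool.Agent.Lib.MP_79abb3_an.P25
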