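import Mathlib

/-!
SA-3, abstract part: a bootstrap argument for series of nonnegative functions.
-/

set_option autoImplicit false
set_option linter.unusedSectionVars false

open MeasureTheory Set Filter Topology Function

namespace Pool.Agent.Lib.MP_79abb3_an.P25

namespace Apr

theorem conv_sum_le {G : ℤ → ℝ} (hG : ∀ n, 0 ≤ G n) (hs : Summable G) (s : Finset ℤ) :
    (∀ n, Summable fun m => G m * G (n - m)) ∧
    ∑ n ∈ s, ∑' m, G m * G (n - m) ≤ (∑' n, G n) ^ 2 := by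
  have h0 : ∀ m, G m ≤ ∑' n, G n := fun m => hs.le_tsum m fun j _ => hG j
  have h1 : ∀ n, Summable fun m => G m * G (n - m) := fun n =>
    Summable.of_nonneg_of_le (fun m => mul_nonneg (hG _) (hG _))
      (fun m => mul_le_mul_of_nonneg_left (h0 _) (hG _)) (hs.mul_right (∑' n, G n))
  refine ⟨h1, ?_⟩
  have h2 : ∀ m : ℤ, Summable fun n => G (n - m) := fun m => (Equiv.subRight m).summable_iff.2 hs
  have h3 : ∀ m : ℤ, ∑' n, G (n - m) = ∑' n, G n := fun m => (Equiv.subRight m).tsum_eq G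
  rw [← Summable.tsum_finsetSum fun n _ => h1 n]
  calc ∑' m, ∑ n ∈ s, G m * G (n - m) ≤ ∑' m, G m * ∑' n, G n := by
        refine Summable.tsum_le_tsum (fun m => ?_) (summable_sum fun n _ => h1 n) (hs.mul_right _)
        rw [← Finset.mul_sum]
        refine mul_le_mul_of_nonneg_left ?_ (hG m)
        rw [← h3 m]
        exact (h2 m).sum_le_tsum s fun n _ => hG _
    _ = (∑' n, G n) ^ 2 := by rw [tsum_mul_right]; ring

/-- the tail of a series controlled by weights -/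
theorem tail {x : ℤ → ℝ} {A : ℝ} (hx : ∀ n, 0 ≤ x n)
    (hA : ∀ s : Finset ℤ, ∑ n ∈ s, (1 + |(n : ℝ)|) * x n ≤ A) :
    Summable x ∧ ∑' n, x n ≤ A ∧ ∀ N : ℕ, ∑ n ∈ Finset.Icc (-(N:ℤ)) N, x n ≤ ∑' n, x n ∧
      ∑' n, x n ≤ ∑ n ∈ Finset.Icc (-(N:ℤ)) N, x n + A / (N + 1) := by
  have h0 : ∀ s : Finset ℤ, ∑ n ∈ s, x n ≤ A := fun s =>
    (Finset.sum_le_sum fun n _ => by
      have := abs_nonneg (n : ℝ)
      nlinarith [hx n]).trans (hA s)
  have hs : Summable x := summable_of_sum_le hx h0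
  refine ⟨hs, hs.tsum_le_of_sum_le h0, fun N => ⟨hs.sum_le_tsum _ fun n _ => hx n, ?_⟩⟩
  refine hs.tsum_le_of_sum_le fun s => ?_
  have hN : (0:ℝ) < N + 1 := by positivity
  have h1 : ∑ n ∈ s \ Finset.Icc (-(N:ℤ)) N, x n ≤ A / (N + 1) := by
    rw [le_div_iff₀ hN, Finset.sum_mul]
    refine (Finset.sum_le_sum fun n hn => ?_).trans (hA (s \ Finset.Icc (-(N:ℤ)) N))
    rw [Finset.mem_sdiff, Finset.mem_Icc, not_and_or, not_le, not_le] at hn
    rw [mul_comm]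
    refine mul_le_mul_of_nonneg_right ?_ (hx n)
    rcases hn.2 with h | h
    · have h2 : (n : ℝ) < -(N : ℝ) := by exact_mod_cast h
      have := neg_abs_le (n : ℝ)
      linarith
    · have h2 : (N : ℝ) < n := by exact_mod_cast h
      have := le_abs_self (n : ℝ)
      linarith
  calc ∑ n ∈ s, x n ≤ ∑ n ∈ Finset.Icc (-(N:ℤ)) N ∪ s \ Finset.Icc (-(N:ℤ)) N, x n := by
        refine Finset.sum_le_sum_of_subset_of_nonneg ?_ fun n _ _ => hx n
        rw [Finset.union_sdiff_self_eq_union]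
        exact Finset.subset_union_right
    _ = ∑ n ∈ Finset.Icc (-(N:ℤ)) N, x n + ∑ n ∈ s \ Finset.Icc (-(N:ℤ)) N, x n :=
        Finset.sum_union Finset.disjoint_sdiff
    _ ≤ _ := by linarith

theorem cont_tsum {x : ℤ → ℝ → ℝ} {A b : ℝ} (cx : ∀ n, ContinuousOn (x n) (Icc 0 b))
    (hx : ∀ n, ∀ t ∈ Icc 0 b, 0 ≤ x n t)
    (hA : ∀ t ∈ Icc 0 b, ∀ s : Finset ℤ, ∑ n ∈ s, (1 + |(n : ℝ)|) * x n t ≤ A) :
    ContinuousOn (fun t => ∑' n, x n t) (Icc 0 b) := by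
  have h1 : TendstoUniformlyOn (fun (N : ℕ) t => ∑ n ∈ Finset.Icc (-(N:ℤ)) N, x n t)
      (fun t => ∑' n, x n t) atTop (Icc 0 b) := by
    rw [Metric.tendstoUniformlyOn_iff]
    intro e he
    have h2 : Tendsto (fun N : ℕ => A / ((N : ℝ) + 1)) atTop (𝓝 0) :=
      Tendsto.div_atTop tendsto_const_nhds (tendsto_atTop_add_const_right _ _ tendsto_natCast_atTop_atTop)
    filter_upwards [h2.eventually (gt_mem_nhds he)] with N hN t ht
    obtain ⟨_, _, h3⟩ := tail (fun n => hx n t ht) (hA t ht)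
    have h4 := h3 N
    rw [Real.dist_eq, abs_of_nonneg (by linarith [h4.1])]
    linarith [h4.2]
  refine h1.continuousOn (Frequently.of_forall fun N => ?_)
  exact continuousOn_finsetSum _ fun n _ => cx n

/-- Minkowski inequality -/
theorem mink {x : ℤ → ℝ → ℝ} {ρ : ℤ → ℝ} {A b c M : ℝ} (hb : 0 ≤ b) (hc : 0 ≤ c)
    (cx : ∀ n, ContinuousOn (x n) (Icc 0 b))
    (hx : ∀ n, ∀ t ∈ Icc 0 b, 0 ≤ x n t)
    (hA : ∀ t ∈ Icc 0 b, ∀ s : Finset ℤ, ∑ n ∈ s, (1 + |(n : ℝ)|) * x n t ≤ A)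
    (hρ : ∀ n, 0 ≤ ρ n) (h : ∀ n, ∫ t in (0:ℝ)..b, x n t ^ 2 ≤ c * ρ n ^ 2)
    (hM : ∀ s : Finset ℤ, ∑ n ∈ s, ρ n ≤ M) :
    ∫ t in (0:ℝ)..b, (∑' n, x n t) ^ 2 ≤ c * M ^ 2 := by
  have hM0 : 0 ≤ M := (Finset.sum_nonneg fun n _ => hρ n).trans (hM ∅)
  have ii : ∀ {f : ℝ → ℝ}, ContinuousOn f (Icc 0 b) → IntervalIntegrable f volume 0 b := by
    intro f hf
    rw [← uIcc_of_le hb] at hf
    exact hf.intervalIntegrable
  have hA0 : 0 ≤ A := by
    have := hA 0 ⟨le_rfl, hb⟩ ∅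
    simpa using this
  -- finite sums
  have fin1 : ∀ (s : Finset ℤ) (δ : ℝ), 0 < δ →
      ∫ t in (0:ℝ)..b, (∑ n ∈ s, x n t) ^ 2 ≤ c * (∑ n ∈ s, (ρ n + δ)) ^ 2 := by
    intro s δ hδ
    have hp : ∀ n, 0 < ρ n + δ := fun n => by linarith [hρ n]
    have hS : 0 ≤ ∑ n ∈ s, (ρ n + δ) := Finset.sum_nonneg fun n _ => (hp n).le
    have c1 : ∀ n, ContinuousOn (fun t => x n t ^ 2 / (ρ n + δ)) (Icc 0 b) := fun n =>
      ((cx n).pow 2).div_const _
    calc ∫ t in (0:ℝ)..b, (∑ n ∈ s, x n t) ^ 2 ≤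
        ∫ t in (0:ℝ)..b, (∑ n ∈ s, (ρ n + δ)) * ∑ n ∈ s, x n t ^ 2 / (ρ n + δ) := by
          refine intervalIntegral.integral_mono_on hb (ii ?_) (ii ?_) fun t _ => ?_
          · exact (continuousOn_finsetSum _ fun n _ => cx n).pow 2
          · exact continuousOn_const.mul (continuousOn_finsetSum _ fun n _ => c1 n)
          · refine Finset.sum_sq_le_sum_mul_sum_of_sq_le_mul s (fun n _ => (hp n).le)
              (fun n _ => div_nonneg (sq_nonneg _) (hp n).le) fun n _ => ?_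
            rw [mul_div_cancel₀ _ (hp n).ne']
      _ = (∑ n ∈ s, (ρ n + δ)) * ∑ n ∈ s, (∫ t in (0:ℝ)..b, x n t ^ 2) / (ρ n + δ) := by
          rw [intervalIntegral.integral_const_mul, intervalIntegral.integral_finsetSum
            (fun n _ => ii (c1 n))]
          congr 1
          refine Finset.sum_congr rfl fun n _ => ?_
          rw [intervalIntegral.integral_div]
      _ ≤ (∑ n ∈ s, (ρ n + δ)) * ∑ n ∈ s, c * (ρ n + δ) := by
          refine mul_le_mul_of_nonneg_left (Finset.sum_le_sum fun n _ => ?_) hS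
          rw [div_le_iff₀ (hp n)]
          refine (h n).trans ?_
          have := hρ n
          have h3 : ρ n ^ 2 ≤ (ρ n + δ) * (ρ n + δ) := by nlinarith
          rw [mul_assoc]
          exact mul_le_mul_of_nonneg_left h3 hc
      _ = _ := by rw [← Finset.mul_sum]; ring
  have fin2 : ∀ s : Finset ℤ, ∫ t in (0:ℝ)..b, (∑ n ∈ s, x n t) ^ 2 ≤ c * M ^ 2 := by
    intro s
    have h1 : Tendsto (fun δ : ℝ => c * (M + s.card * δ) ^ 2) (𝓝[>] 0) (𝓝 (c * (M + s.card * 0) ^ 2)) := by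
      have : Continuous fun δ : ℝ => c * (M + s.card * δ) ^ 2 := by fun_prop
      exact (this.tendsto 0).mono_left nhdsWithin_le_nhds
    rw [mul_zero, add_zero] at h1
    refine ge_of_tendsto h1 ?_
    filter_upwards [self_mem_nhdsWithin] with δ hδ
    refine (fin1 s δ hδ).trans ?_
    have hδ0 : (0:ℝ) < δ := hδ
    have h2 : ∑ n ∈ s, (ρ n + δ) ≤ M + s.card * δ := by
      rw [Finset.sum_add_distrib, Finset.sum_const, nsmul_eq_mul]
      linarith [hM s]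
    have h3 : 0 ≤ ∑ n ∈ s, (ρ n + δ) := Finset.sum_nonneg fun n _ => by linarith [hρ n]
    exact mul_le_mul_of_nonneg_left (pow_le_pow_left₀ h3 h2 2) hc
  have h1 : Tendsto (fun N : ℕ => c * M ^ 2 + b * (2 * A * (A / ((N : ℝ) + 1)))) atTop
      (𝓝 (c * M ^ 2 + b * (2 * A * 0))) := by
    have h2 : Tendsto (fun N : ℕ => A / ((N : ℝ) + 1)) atTop (𝓝 0) :=
      Tendsto.div_atTop tendsto_const_nhds (tendsto_atTop_add_const_right _ _ tendsto_natCast_atTop_atTop)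
    exact ((h2.const_mul (2 * A)).const_mul b).const_add _
  rw [mul_zero, mul_zero, add_zero] at h1
  refine ge_of_tendsto' h1 fun N => ?_
  have cS : ContinuousOn (fun t => ∑ n ∈ Finset.Icc (-(N:ℤ)) N, x n t) (Icc 0 b) :=
    continuousOn_finsetSum _ fun n _ => cx n
  calc ∫ t in (0:ℝ)..b, (∑' n, x n t) ^ 2 ≤
      ∫ t in (0:ℝ)..b, ((∑ n ∈ Finset.Icc (-(N:ℤ)) N, x n t) ^ 2 + 2 * A * (A / ((N : ℝ) + 1))) := by
        refine intervalIntegral.integral_mono_on hb (ii ?_) (ii ?_) fun t ht => ?_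
        · exact (cont_tsum cx hx hA).pow 2
        · exact (cS.pow 2).add continuousOn_const
        · obtain ⟨h3, h4, h5⟩ := tail (fun n => hx n t ht) (hA t ht)
          obtain ⟨h6, h7⟩ := h5 N
          have h8 : 0 ≤ ∑ n ∈ Finset.Icc (-(N:ℤ)) N, x n t := Finset.sum_nonneg fun n _ => hx n t ht
          have h9 : 0 ≤ A / ((N : ℝ) + 1) := by positivity
          nlinarith
    _ = (∫ t in (0:ℝ)..b, (∑ n ∈ Finset.Icc (-(N:ℤ)) N, x n t) ^ 2) +
        b * (2 * A * (A / ((N : ℝ) + 1))) := by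
        have cS2 : ContinuousOn (fun t => (∑ n ∈ Finset.Icc (-(N:ℤ)) N, x n t) ^ 2) (Icc 0 b) := cS.pow 2
        rw [intervalIntegral.integral_add (ii cS2) (by simp), intervalIntegral.integral_const,
          smul_eq_mul, sub_zero]
    _ ≤ _ := by linarith [fin2 (Finset.Icc (-(N:ℤ)) N)]

theorem boot {b K Φ : ℝ} {v : ℝ → ℝ} (cv : ContinuousOn v (Icc 0 b)) (h0 : v 0 = Φ)
    (hΦ : 0 ≤ Φ) (hK : 0 ≤ K) (hv : ∀ t ∈ Icc 0 b, v t ≤ Φ + K * v t ^ 2) (h8 : 8 * K * Φ ≤ 1) :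
    ∀ t ∈ Icc 0 b, v t ≤ 2 * Φ := by
  intro t ht
  by_contra hlt
  rw [not_le] at hlt
  set w := min (v t) (2 * Φ + 1 / (4 * (K + 1))) with hw
  have hw1 : w ≤ v t := min_le_left _ _
  have hw2 : w ≤ 2 * Φ + 1 / (4 * (K + 1)) := min_le_right _ _
  have hw3 : 2 * Φ < w := lt_min hlt (by have : 0 < 1 / (4 * (K + 1)) := by positivity
                                         linarith)
  have hmem : w ∈ Icc (v 0) (v t) := ⟨by rw [h0]; linarith, hw1⟩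
  obtain ⟨s, hs, hsw⟩ := intermediate_value_Icc ht.1 (cv.mono (Icc_subset_Icc_right ht.2)) hmem
  have h1 := hv s ⟨hs.1, hs.2.trans ht.2⟩
  rw [hsw] at h1
  have h2 : K * w ≤ 1 / 2 := by
    calc K * w ≤ K * (2 * Φ + 1 / (4 * (K + 1))) := mul_le_mul_of_nonneg_left hw2 hK
      _ = (8 * K * Φ) / 4 + K / (K + 1) / 4 := by field_simp; ring
      _ ≤ 1 / 4 + 1 / 4 := by
          have : K / (K + 1) ≤ 1 := by rw [div_le_one (by linarith)]; linarith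
          linarith
      _ = 1 / 2 := by norm_num
  have h3 : 0 < w := by linarith
  nlinarith

theorem int_sqrt4 {t : ℝ} (ht : 0 ≤ t) : IntervalIntegrable (fun s : ℝ => √(√s) * s⁻¹) volume 0 t ∧
    ∫ s in (0:ℝ)..t, √(√s) * s⁻¹ = 4 * √(√t) := by
  have e1 : ∀ s : ℝ, 0 ≤ s → √(√s) = s ^ (1 / 4 : ℝ) := fun s hs => by
    rw [Real.sqrt_eq_rpow, Real.sqrt_eq_rpow, ← Real.rpow_mul hs]; norm_num
  have e2 : ∀ s ∈ Ioc (0:ℝ) t, √(√s) * s⁻¹ = s ^ (-(3 / 4) : ℝ) := fun s hs => by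
    rw [e1 s hs.1.le, ← Real.rpow_neg_one, ← Real.rpow_add hs.1]; norm_num
  have i1 : IntervalIntegrable (fun s : ℝ => s ^ (-(3 / 4) : ℝ)) volume 0 t :=
    intervalIntegral.intervalIntegrable_rpow' (by norm_num)
  constructor
  · refine i1.congr_uIoo fun s hs => ?_
    rw [uIoo_of_le ht] at hs
    exact (e2 s (Ioo_subset_Ioc_self hs)).symm
  · rw [e1 t ht]
    calc ∫ s in (0:ℝ)..t, √(√s) * s⁻¹ = ∫ s in (0:ℝ)..t, s ^ (-(3 / 4) : ℝ) := by
          refine intervalIntegral.integral_congr_ae ?_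
          refine Eventually.of_forall fun s hs => ?_
          rw [uIoc_of_le ht] at hs
          exact e2 s hs
      _ = _ := by
          rw [integral_rpow (Or.inl (by norm_num))]
          rw [show (-(3 / 4) : ℝ) + 1 = 1 / 4 by norm_num, Real.zero_rpow (by norm_num)]
          ring

theorem main {C b Φ A : ℝ} (hC : 1 ≤ C) (hb : 0 ≤ b) {y d F : ℤ → ℝ → ℝ}
    (cy : ∀ n, ContinuousOn (y n) (Icc 0 b)) (cd : ∀ n, ContinuousOn (d n) (Icc 0 b))
    (cF : ∀ n, ContinuousOn (F n) (Icc 0 b))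
    (hy : ∀ n, ∀ t ∈ Icc 0 b, 0 ≤ y n t) (hd : ∀ n, ∀ t ∈ Icc 0 b, 0 ≤ d n t)
    (hF : ∀ n, ∀ t ∈ Icc 0 b, 0 ≤ F n t)
    (Ay : ∀ t ∈ Icc 0 b, ∀ s : Finset ℤ, ∑ n ∈ s, (1 + |(n : ℝ)|) * y n t ≤ A)
    (Ad : ∀ t ∈ Icc 0 b, ∀ s : Finset ℤ, ∑ n ∈ s, (1 + |(n : ℝ)|) * d n t ≤ A)
    (hq : ∀ t ∈ Ioc 0 b, ∀ s : Finset ℤ, ∑ n ∈ s, F n t ≤
      2 * C * √(√t) * (∑' n, d n t) ^ 2 + 2 * C * (√(√t) * t⁻¹) * (∑' n, y n t) ^ 2)
    (hg : ∀ n, ∀ t ∈ Icc 0 b, y n t ≤ 3 * (y n 0 + ∫ s in (0:ℝ)..t, F n s) ∧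
      ∫ s in (0:ℝ)..t, d n s ^ 2 ≤ 49 * (y n 0 + ∫ s in (0:ℝ)..t, F n s) ^ 2)
    (hΦ : HasSum (fun n => y n 0) Φ) (h8 : 8 * (170 * C * √(√b)) * Φ ≤ 1) :
    (∀ t ∈ Icc 0 b, Summable (fun n => y n t) ∧ Summable (fun n => d n t) ∧
      ∑' n, y n t ≤ 6 * Φ) ∧
    IntervalIntegrable (fun t => (∑' n, d n t) ^ 2) volume 0 b ∧
    ∫ t in (0:ℝ)..b, (∑' n, d n t) ^ 2 ≤ 196 * Φ ^ 2 := by
  have hb' : b ∈ Icc 0 b := ⟨hb, le_rfl⟩
  have h0' : (0:ℝ) ∈ Icc 0 b := ⟨le_rfl, hb⟩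
  have hΦ0 : 0 ≤ Φ := hΦ.nonneg fun n => hy n 0 h0'
  have hA0 : 0 ≤ A := by
    have := Ay 0 h0' ∅
    simpa using this
  have ii : ∀ {f : ℝ → ℝ} {t : ℝ}, t ∈ Icc 0 b → ContinuousOn f (Icc 0 b) →
      IntervalIntegrable f volume 0 t := by
    intro f t ht hf
    have h1 := hf.mono (Icc_subset_Icc_right ht.2)
    rw [← uIcc_of_le ht.1] at h1
    exact h1.intervalIntegrable
  set Sy : ℝ → ℝ := fun t => ∑' n, y n t with hSy
  set Sd : ℝ → ℝ := fun t => ∑' n, d n t with hSd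
  have cSy : ContinuousOn Sy (Icc 0 b) := cont_tsum cy hy Ay
  have cSd : ContinuousOn Sd (Icc 0 b) := cont_tsum cd hd Ad
  have sy : ∀ t ∈ Icc 0 b, Summable (fun n => y n t) := fun t ht => (tail (fun n => hy n t ht) (Ay t ht)).1
  have sd : ∀ t ∈ Icc 0 b, Summable (fun n => d n t) := fun t ht => (tail (fun n => hd n t ht) (Ad t ht)).1
  have Sy0 : ∀ t ∈ Icc 0 b, 0 ≤ Sy t := fun t ht => tsum_nonneg fun n => hy n t ht
  have Sd0 : ∀ t ∈ Icc 0 b, 0 ≤ Sd t := fun t ht => tsum_nonneg fun n => hd n t ht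
  have SyA : ∀ t ∈ Icc 0 b, Sy t ≤ A := fun t ht => (tail (fun n => hy n t ht) (Ay t ht)).2.1
  -- the majorant
  set ρ : ℤ → ℝ → ℝ := fun n t => y n 0 + ∫ s in (0:ℝ)..t, F n s with hρ
  have ρ0 : ∀ n, ∀ t ∈ Icc 0 b, 0 ≤ ρ n t := fun n t ht =>
    add_nonneg (hy n 0 h0') (intervalIntegral.integral_nonneg ht.1 fun s hs => hF n s ⟨hs.1, hs.2.trans ht.2⟩)
  have ρm : ∀ n, ∀ s ∈ Icc 0 b, ∀ t ∈ Icc s b, ρ n s ≤ ρ n t := by
    intro n s hs t ht
    have ht' : t ∈ Icc 0 b := ⟨hs.1.trans ht.1, ht.2⟩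
    have h1 := intervalIntegral.integral_interval_sub_left (ii ht' (cF n)) (ii hs (cF n))
    have h2 : 0 ≤ ∫ x in s..t, F n x :=
      intervalIntegral.integral_nonneg ht.1 fun x hx => hF n x ⟨hs.1.trans hx.1, hx.2.trans ht.2⟩
    simp only [hρ]
    linarith
  have cρ : ∀ n, ContinuousOn (ρ n) (Icc 0 b) := by
    intro n
    have h1 : ContinuousOn (F n) (uIcc 0 b) := by rw [uIcc_of_le hb]; exact cF n
    have h2 := intervalIntegral.continuousOn_primitive_interval (h1.integrableOn_uIcc (μ := volume))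
    rw [uIcc_of_le hb] at h2
    exact continuousOn_const.add h2
  -- integrated inequality
  have iA : ∀ t ∈ Icc 0 b, IntervalIntegrable (fun s => 2 * C * √(√s) * Sd s ^ 2) volume 0 t := fun t ht =>
    ii ht ((continuousOn_const.mul (Continuous.continuousOn (by fun_prop))).mul (cSd.pow 2))
  have iB : ∀ t ∈ Icc 0 b, IntervalIntegrable (fun s => 2 * C * (√(√s) * s⁻¹) * Sy s ^ 2) volume 0 t := by
    intro t ht
    have h1 : ContinuousOn (fun s => 2 * C * Sy s ^ 2) (uIcc 0 t) := by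
      rw [uIcc_of_le ht.1]
      exact (continuousOn_const.mul (cSy.pow 2)).mono (Icc_subset_Icc_right ht.2)
    have h2 := (int_sqrt4 ht.1).1.mul_continuousOn h1
    refine h2.congr_ae (Eventually.of_forall fun s => ?_)
    ring
  have fin : ∀ t ∈ Icc 0 b, ∀ s : Finset ℤ, ∑ n ∈ s, ρ n t ≤ Φ +
      ((∫ x in (0:ℝ)..t, 2 * C * √(√x) * Sd x ^ 2) + ∫ x in (0:ℝ)..t, 2 * C * (√(√x) * x⁻¹) * Sy x ^ 2) := by
    intro t ht s
    have h1 : ∑ n ∈ s, y n 0 ≤ Φ := sum_le_hasSum s (fun n _ => hy n 0 h0') hΦ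
    have h2 : ∑ n ∈ s, ∫ x in (0:ℝ)..t, F n x ≤
        (∫ x in (0:ℝ)..t, 2 * C * √(√x) * Sd x ^ 2) + ∫ x in (0:ℝ)..t, 2 * C * (√(√x) * x⁻¹) * Sy x ^ 2 := by
      rw [← intervalIntegral.integral_finsetSum (fun n _ => ii ht (cF n)),
        ← intervalIntegral.integral_add (iA t ht) (iB t ht)]
      refine intervalIntegral.integral_mono_on_of_le_Ioo ht.1
        (ii ht (continuousOn_finsetSum _ fun n _ => cF n)) ((iA t ht).add (iB t ht)) fun x hx => ?_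
      exact hq x ⟨hx.1, hx.2.le.trans ht.2⟩ s
    simp only [hρ, Finset.sum_add_distrib]
    linarith
  have sρ : ∀ t ∈ Icc 0 b, Summable (fun n => ρ n t) := fun t ht =>
    summable_of_sum_le (fun n => ρ0 n t ht) (fin t ht)
  set Sρ : ℝ → ℝ := fun t => ∑' n, ρ n t with hSρ
  have cSρ : ContinuousOn Sρ (Icc 0 b) := by
    refine continuousOn_tsum cρ (sρ b hb') fun n t ht => ?_
    rw [Real.norm_eq_abs, abs_of_nonneg (ρ0 n t ht)]
    exact ρm n t ht b ⟨ht.2, le_rfl⟩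
  have Sρ0 : ∀ t ∈ Icc 0 b, 0 ≤ Sρ t := fun t ht => tsum_nonneg fun n => ρ0 n t ht
  have Sρm : ∀ s ∈ Icc 0 b, ∀ t ∈ Icc s b, Sρ s ≤ Sρ t := fun s hs t ht =>
    Summable.tsum_le_tsum (fun n => ρm n s hs t ht) (sρ s hs) (sρ t ⟨hs.1.trans ht.1, ht.2⟩)
  have yρ : ∀ t ∈ Icc 0 b, Sy t ≤ 3 * Sρ t := by
    intro t ht
    rw [hSρ, ← tsum_mul_left]
    exact Summable.tsum_le_tsum (fun n => (hg n t ht).1) (sy t ht) ((sρ t ht).mul_left 3)
  have dρ : ∀ t ∈ Icc 0 b, ∫ x in (0:ℝ)..t, Sd x ^ 2 ≤ 49 * Sρ t ^ 2 := by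
    intro t ht
    have sub : Icc (0:ℝ) t ⊆ Icc 0 b := Icc_subset_Icc_right ht.2
    exact mink (A := A) ht.1 (by norm_num) (fun n => (cd n).mono sub) (fun n x hx => hd n x (sub hx))
      (fun x hx => Ad x (sub hx)) (fun n => ρ0 n t ht) (fun n => (hg n t ht).2)
      (fun s => (sρ t ht).sum_le_tsum s fun n _ => ρ0 n t ht)
  have ineq : ∀ t ∈ Icc 0 b, Sρ t ≤ Φ + 170 * C * √(√b) * Sρ t ^ 2 := by
    intro t ht
    have h1 := (sρ t ht).tsum_le_of_sum_le (fin t ht)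
    have hs4 : √(√t) ≤ √(√b) := Real.sqrt_le_sqrt (Real.sqrt_le_sqrt ht.2)
    have hs40 : 0 ≤ √(√t) := Real.sqrt_nonneg _
    have h2 : ∫ x in (0:ℝ)..t, 2 * C * √(√x) * Sd x ^ 2 ≤ 98 * C * √(√t) * Sρ t ^ 2 := by
      calc ∫ x in (0:ℝ)..t, 2 * C * √(√x) * Sd x ^ 2 ≤ ∫ x in (0:ℝ)..t, 2 * C * √(√t) * Sd x ^ 2 := by
            refine intervalIntegral.integral_mono_on ht.1 (iA t ht)
              (ii ht (continuousOn_const.mul (cSd.pow 2))) fun x hx => ?_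
            have : √(√x) ≤ √(√t) := Real.sqrt_le_sqrt (Real.sqrt_le_sqrt hx.2)
            gcongr
        _ = 2 * C * √(√t) * ∫ x in (0:ℝ)..t, Sd x ^ 2 := by
            rw [intervalIntegral.integral_const_mul]
        _ ≤ 2 * C * √(√t) * (49 * Sρ t ^ 2) := mul_le_mul_of_nonneg_left (dρ t ht) (by positivity)
        _ = _ := by ring
    have h3 : ∫ x in (0:ℝ)..t, 2 * C * (√(√x) * x⁻¹) * Sy x ^ 2 ≤ 72 * C * √(√t) * Sρ t ^ 2 := by
      calc ∫ x in (0:ℝ)..t, 2 * C * (√(√x) * x⁻¹) * Sy x ^ 2 ≤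
          ∫ x in (0:ℝ)..t, (18 * C * Sρ t ^ 2) * (√(√x) * x⁻¹) := by
            refine intervalIntegral.integral_mono_on_of_le_Ioo ht.1 (iB t ht)
              ((int_sqrt4 ht.1).1.const_mul _) fun x hx => ?_
            have hx' : x ∈ Icc 0 b := ⟨hx.1.le, hx.2.le.trans ht.2⟩
            have h4 : Sy x ≤ 3 * Sρ t := (yρ x hx').trans (by linarith [Sρm x hx' t ⟨hx.2.le, ht.2⟩])
            have h5 : Sy x ^ 2 ≤ (3 * Sρ t) ^ 2 := pow_le_pow_left₀ (Sy0 x hx') h4 2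
            have h6 : 0 ≤ 2 * C * (√(√x) * x⁻¹) := by
              have := hx.1
              positivity
            calc _ ≤ 2 * C * (√(√x) * x⁻¹) * (3 * Sρ t) ^ 2 := mul_le_mul_of_nonneg_left h5 h6
              _ = _ := by ring
        _ = _ := by
            rw [intervalIntegral.integral_const_mul, (int_sqrt4 ht.1).2]
            ring
    have h7 : 0 ≤ C * Sρ t ^ 2 := by positivity
    have h8 : Sρ t ≤ Φ + (98 * C * √(√t) * Sρ t ^ 2 + 72 * C * √(√t) * Sρ t ^ 2) := by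
      refine h1.trans ?_
      linarith
    nlinarith [mul_le_mul_of_nonneg_right hs4 h7]
  have S00 : Sρ 0 = Φ := by
    simp only [hSρ, hρ, intervalIntegral.integral_same, add_zero]
    exact hΦ.tsum_eq
  have bd := boot cSρ S00 hΦ0 (by positivity) ineq h8
  refine ⟨fun t ht => ⟨sy t ht, sd t ht, ?_⟩, ii hb' (cSd.pow 2), ?_⟩
  · have := yρ t ht
    have := bd t ht
    linarith
  · refine (dρ b hb').trans ?_
    have h1 : Sρ b ^ 2 ≤ (2 * Φ) ^ 2 := pow_le_pow_left₀ (Sρ0 b hb') (bd b hb') 2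
    linarith

end Apr

end Pool.Agent.Lib.MP_79abb3_an.P25
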