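import Pool.Agent.Lib.MP_79abb3_an.P25.LTops

/-!
Sources: background plus perturbation.
-/

set_option autoImplicit false
set_option linter.unusedSectionVars false

open MeasureTheory Set Filter Topology Function

namespace Pool.Agent.Lib.MP_79abb3_an.P25

section
variable {H : ℝ} [hH : Fact (0 < H)]

/-- The trivial weight is admissible. -/
theorem wt_one : Wt 1 (fun _ : ℤ => (1:ℝ)) where
  one_le := fun _ => le_rfl
  sub := fun _ _ => by norm_num
  zero := rfl

/-- All convolutions of summable families converge. -/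
theorem cs_l1 (ω : ℝ) (x y : L1 (Xn H)) : CS ω x y :=
  cs_of wt_one ω (by simpa using l1_summable x) (by simpa using l1_summable y)

theorem Bf_l1_add_left {ω : ℝ} (x x' y : L1 (Xn H)) (n : ℤ) :
    Bf ω (x + x' : L1 (Xn H)) y n = Bf ω x y n + Bf ω x' y n :=
  Bf_add_left (cs_l1 ω x y) (cs_l1 ω x' y) n

theorem Bf_l1_add_right {ω : ℝ} (x y y' : L1 (Xn H)) (n : ℤ) :
    Bf ω x (y + y' : L1 (Xn H)) n = Bf ω x y n + Bf ω x y' n :=
  Bf_add_right (cs_l1 ω x y) (cs_l1 ω x y') n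

theorem Bf_l1_smul_left {ω : ℝ} (c : ℝ) (x y : L1 (Xn H)) (n : ℤ) :
    Bf ω (c • x : L1 (Xn H)) y n = c • Bf ω x y n :=
  Bf_smul_left ω c x y n

theorem Bf_l1_smul_right {ω : ℝ} (c : ℝ) (x y : L1 (Xn H)) (n : ℤ) :
    Bf ω x (c • y : L1 (Xn H)) n = c • Bf ω x y n :=
  Bf_smul_right ω c x y n

/-- Background plus perturbation. -/
theorem Traj.of_PT {ω a b : ℝ} {J : Set ℝ} {P : ℝ → ℝ} {U u : ℝ → L1 (Xn H)} {F : ℝ → L1 (Yn H)}
    (hU : LT ω a b J P (fun t n => Bf ω (U t) (U t) n - F t n) U) (hu : PT ω a b U F u) :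
    Traj ω a b J P (fun t => U t + u t) := by
  have h1 : LT ω a b J (fun _ => 0) (src ω U u F) u :=
    hu.lt.mono le_rfl le_rfl (empty_subset _) hU.count
  refine (hU.add h1).congr (fun t _ => by simp) (fun t _ n => ?_) (fun t _ => rfl)
  rw [Bf_l1_add_left, Bf_l1_add_right, Bf_l1_add_right, src]
  abel

end

end Pool.Agent.Lib.MP_79abb3_an.P25
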