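import Pool.Agent.Lib.MP_79abb3_an.P25.BaseDef
import Pool.Agent.Lib.MP_79abb3_an.Max

/-!
The base flow: maximum principle, `0 ≤ G ≤ a`.
-/

set_option autoImplicit false
set_option linter.unusedSectionVars false

open MeasureTheory Set Filter Topology Function

namespace Pool.Agent.Lib.MP_79abb3_an.P25

/-- Derivative of the strain rate. -/
theorem aa_hasDerivAt {ε : ℝ} (hε : 0 < ε) (t : ℝ) :
    HasDerivAt (aa ε) (PP ε t - aa ε t ^ 2) t := by
  have h0 : t ^ 2 + ε ^ 2 ≠ 0 := by positivity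
  have h1 : HasDerivAt (fun s : ℝ => s / (s ^ 2 + ε ^ 2))
      ((1 * (t ^ 2 + ε ^ 2) - t * (2 * t)) / (t ^ 2 + ε ^ 2) ^ 2) t := by
    have h2 := (hasDerivAt_pow 2 t).add_const (ε ^ 2)
    refine ((hasDerivAt_id' t).div h2 h0).congr_deriv ?_
    simp
  refine h1.congr_deriv ?_
  simp only [PP, aa]
  field_simp
  ring

theorem ba_aa_nonneg (ε : ℝ) {t : ℝ} (ht : 0 ≤ t) : 0 ≤ aa ε t := by
  unfold aa; positivity

theorem PP_nonneg (ε t : ℝ) : 0 ≤ PP ε t := by
  unfold PP; positivity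

/-- First touching time. -/
theorem touch {H b : ℝ} {f : ℝ → ℝ → ℝ}
    (hf : ContinuousOn (uncurry f) (Icc 0 b ×ˢ Icc 0 H)) (h0 : ∀ z ∈ Icc 0 H, f 0 z < 0)
    (ht : ∀ t ∈ Ioc 0 b, ∀ z ∈ Icc 0 H, f t z = 0 → (∀ y ∈ Icc 0 H, f t y ≤ 0) →
      (∀ s ∈ Ico 0 t, ∀ y ∈ Icc 0 H, f s y < 0) → False) :
    ∀ t ∈ Icc 0 b, ∀ z ∈ Icc 0 H, f t z < 0 := by
  by_contra hcon
  push Not at hcon
  obtain ⟨t1, ht1, z1, hz1, h1⟩ := hcon
  set S : Set (ℝ × ℝ) := (Icc 0 b ×ˢ Icc 0 H) ∩ (uncurry f) ⁻¹' (Ici 0) with hS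
  have hSc : IsCompact S := by
    have hcl : IsClosed S := hf.preimage_isClosed_of_isClosed
      (isClosed_Icc.prod isClosed_Icc) isClosed_Ici
    exact (isCompact_Icc.prod isCompact_Icc).of_isClosed_subset hcl inter_subset_left
  obtain ⟨⟨t0, z0⟩, hmem, hmin⟩ := hSc.exists_isMinOn ⟨(t1, z1), ⟨ht1, hz1⟩, h1⟩
    continuous_fst.continuousOn
  have ht0 : t0 ∈ Icc 0 b := hmem.1.1
  have hz0 : z0 ∈ Icc 0 H := hmem.1.2
  have hf0 : 0 ≤ f t0 z0 := hmem.2
  have hbefore : ∀ s ∈ Ico 0 t0, ∀ y ∈ Icc 0 H, f s y < 0 := by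
    intro s hs y hy
    by_contra hc
    rw [not_lt] at hc
    have : t0 ≤ s := hmin (show (s, y) ∈ S from ⟨⟨⟨hs.1, hs.2.le.trans ht0.2⟩, hy⟩, hc⟩)
    exact absurd hs.2 (not_lt.2 this)
  have ht0pos : 0 < t0 := by
    rcases eq_or_lt_of_le ht0.1 with h | h
    · subst h
      exact absurd (h0 z0 hz0) (not_lt.2 hf0)
    · exact h
  have hle : ∀ y ∈ Icc 0 H, f t0 y ≤ 0 := by
    intro y hy
    have hcy : ContinuousOn (fun s => f s y) (Icc 0 b) :=
      hf.comp (f := fun s : ℝ => (s, y)) (by fun_prop) fun s hs => ⟨hs, hy⟩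
    have h2 : Tendsto (fun s => f s y) (𝓝[<] t0) (𝓝 (f t0 y)) :=
      (hcy t0 ht0).mono_left (nhdsWithin_le_iff.2 (by
        filter_upwards [Ioo_mem_nhdsLT ht0pos] with s hs using ⟨hs.1.le, hs.2.le.trans ht0.2⟩))
    refine le_of_tendsto h2 ?_
    filter_upwards [Ioo_mem_nhdsLT ht0pos] with s hs
    exact (hbefore s ⟨hs.1.le, hs.2⟩ y hy).le
  exact ht t0 ⟨ht0pos, ht0.2⟩ z0 hz0 (le_antisymm (hle z0 hz0) hf0) hle hbefore

/-- The left derivative at a first touching time is nonnegative. -/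
theorem left_nonneg {φ : ℝ → ℝ} {t d : ℝ} (ht : 0 < t) (hd : HasDerivWithinAt φ d (Iic t) t)
    (h0 : φ t = 0) (hm : ∀ s ∈ Ico 0 t, φ s < 0) : 0 ≤ d := by
  have h1 := hasDerivWithinAt_iff_tendsto_slope.1 hd
  have h2 : Tendsto (slope φ t) (𝓝[<] t) (𝓝 d) :=
    h1.mono_left (nhdsWithin_mono t fun s hs => ⟨mem_Iic.2 (le_of_lt hs), ne_of_lt hs⟩)
  refine ge_of_tendsto h2 ?_
  filter_upwards [Ioo_mem_nhdsLT ht] with s hs
  rw [slope_def_field, h0]
  have := hm s ⟨hs.1.le, hs.2⟩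
  exact div_nonneg_of_nonpos (by linarith) (by linarith [hs.2])

section max
variable {ε H b : ℝ} {G G1 G2 : ℝ → ℝ → ℝ}

theorem BSol.d1' (h : BSol ε H b G G1 G2) {t : ℝ} (ht : t ∈ Icc 0 b) {z : ℝ} (hz : z ∈ Ioo 0 H) :
    HasDerivAt (G t) (G1 t z) z :=
  (h.d1 t ht z ⟨hz.1.le, hz.2.le⟩).hasDerivAt (Icc_mem_nhds hz.1 hz.2)

/-- Nonnegativity of the base flow. -/
theorem BSol.nonneg (h : BSol ε H b G G1 G2) (hH : 0 < H) (hε : 0 < ε) (hb : 0 ≤ b) :
    ∀ t ∈ Icc 0 b, ∀ z ∈ Icc 0 H, 0 ≤ G t z := by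
  have key : ∀ κ : ℝ, 0 < κ → κ * Real.exp b < 1 → ∀ t ∈ Icc 0 b, ∀ z ∈ Icc 0 H,
      -G t z - κ * Real.exp t < 0 := by
    intro κ hκ hκb
    refine touch (f := fun t z => -G t z - κ * Real.exp t) ?_ ?_ ?_
    · have h2 : ContinuousOn (fun p : ℝ × ℝ => κ * Real.exp p.1) (Icc 0 b ×ˢ Icc 0 H) := by
        fun_prop
      exact h.cG.neg.sub h2
    · intro z hz
      simp only [h.init z hz, Real.exp_zero]
      linarith
    · intro t ht z hz h0 hle hbef
      have htI : t ∈ Icc 0 b := ⟨ht.1.le, ht.2⟩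
      have he : 0 < κ * Real.exp t := by positivity
      have hz' : z ∈ Ioo 0 H := by
        refine ⟨lt_of_le_of_ne hz.1 ?_, lt_of_le_of_ne hz.2 ?_⟩
        · rintro rfl
          rw [h.z0 t htI] at h0
          linarith
        · rintro rfl
          rw [h.zH t htI] at h0
          have := ba_aa_nonneg ε ht.1.le
          linarith
      have hmin : ∀ᶠ q in 𝓝 z, -G t q ≤ -G t z := by
        filter_upwards [Icc_mem_nhds hz'.1 hz'.2] with q hq
        have := hle q hq
        linarith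
      have h2 := second_max (f := fun q => -G t q) (f' := fun q => -G1 t q) (f'' := -G2 t z) hmin
        (by
          filter_upwards [Ioo_mem_nhds hz'.1 hz'.2] with q hq
          exact (h.d1' htI hq).neg) (h.d2 t ht z hz').neg
      have hg1 : G1 t z = 0 := by linarith [h2.1]
      have hg2 : 0 ≤ G2 t z := by linarith [h2.2]
      have hd := ((h.dt t ht z hz').neg).sub
        ((((Real.hasDerivAt_exp t).const_mul κ)).hasDerivWithinAt (s := Iic t))
      have h3 := left_nonneg ht.1 hd (by simpa using h0) (fun s hs => by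
        simpa using hbef s hs z hz)
      have hG : G t z = -(κ * Real.exp t) := by linarith
      rw [hg1, hG] at h3
      have hP := PP_nonneg ε t
      have hexp : κ * Real.exp t ≤ κ * Real.exp b :=
        mul_le_mul_of_nonneg_left (Real.exp_le_exp.2 ht.2) hκ.le
      nlinarith
  intro t ht z hz
  by_contra hc
  rw [not_le] at hc
  set κ : ℝ := min (1 / (2 * Real.exp b)) (-G t z / (2 * Real.exp t)) with hκ
  have hκ0 : 0 < κ := lt_min (by positivity) (div_pos (by linarith) (by positivity))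
  have h1 : κ * Real.exp b < 1 := by
    have h2 : κ ≤ 1 / (2 * Real.exp b) := min_le_left _ _
    have h3 : κ * Real.exp b ≤ 1 / (2 * Real.exp b) * Real.exp b :=
      mul_le_mul_of_nonneg_right h2 (Real.exp_pos b).le
    have h4 : 1 / (2 * Real.exp b) * Real.exp b = 1 / 2 := by
      field_simp
    linarith
  have h5 := key κ hκ0 h1 t ht z hz
  have h6 : κ ≤ -G t z / (2 * Real.exp t) := min_le_right _ _
  have h7 : κ * Real.exp t ≤ -G t z / (2 * Real.exp t) * Real.exp t :=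
    mul_le_mul_of_nonneg_right h6 (Real.exp_pos t).le
  have h8 : -G t z / (2 * Real.exp t) * Real.exp t = -G t z / 2 := by
    have := (Real.exp_pos t).ne'
    field_simp
  linarith

/-- The upper bound of the base flow. -/
theorem BSol.le_aa (h : BSol ε H b G G1 G2) (hH : 0 < H) (hε : 0 < ε) (hb : 0 ≤ b) :
    ∀ t ∈ Icc 0 b, ∀ z ∈ Icc 0 H, G t z ≤ aa ε t := by
  have key : ∀ κ : ℝ, 0 < κ → ∀ t ∈ Icc 0 b, ∀ z ∈ Icc 0 H,
      G t z - aa ε t - κ * Real.exp t < 0 := by
    intro κ hκ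
    refine touch (f := fun t z => G t z - aa ε t - κ * Real.exp t) ?_ ?_ ?_
    · have h2 : ContinuousOn (fun p : ℝ × ℝ => κ * Real.exp p.1) (Icc 0 b ×ˢ Icc 0 H) := by
        fun_prop
      have h3 : Continuous (aa ε) :=
        continuous_iff_continuousAt.2 fun t => (aa_hasDerivAt hε t).continuousAt
      exact (h.cG.sub (h3.comp continuous_fst).continuousOn).sub h2
    · intro z hz
      simp only [h.init z hz, Real.exp_zero, aa, zero_div]
      linarith
    · intro t ht z hz h0 hle hbef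
      have htI : t ∈ Icc 0 b := ⟨ht.1.le, ht.2⟩
      have he : 0 < κ * Real.exp t := by positivity
      have ha := ba_aa_nonneg ε ht.1.le
      have hz' : z ∈ Ioo 0 H := by
        refine ⟨lt_of_le_of_ne hz.1 ?_, lt_of_le_of_ne hz.2 ?_⟩
        · rintro rfl
          rw [h.z0 t htI] at h0
          linarith
        · rintro rfl
          rw [h.zH t htI] at h0
          linarith
      have hmax : ∀ᶠ q in 𝓝 z, G t q ≤ G t z := by
        filter_upwards [Icc_mem_nhds hz'.1 hz'.2] with q hq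
        have := hle q hq
        linarith
      have h2 := second_max (f := fun q => G t q) (f' := fun q => G1 t q) (f'' := G2 t z) hmax
        (by
          filter_upwards [Ioo_mem_nhds hz'.1 hz'.2] with q hq
          exact h.d1' htI hq) (h.d2 t ht z hz')
      have hd := ((h.dt t ht z hz').sub ((aa_hasDerivAt hε t).hasDerivWithinAt (s := Iic t))).sub
        ((((Real.hasDerivAt_exp t).const_mul κ)).hasDerivWithinAt (s := Iic t))
      have h3 := left_nonneg ht.1 hd (by simpa using h0) (fun s hs => by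
        simpa using hbef s hs z hz)
      have hG : G t z = aa ε t + κ * Real.exp t := by linarith
      rw [h2.1, hG] at h3
      nlinarith [h2.2, mul_nonneg ha he.le, sq_nonneg (κ * Real.exp t)]
  intro t ht z hz
  refine le_of_forall_pos_le_add fun δ hδ => ?_
  have h1 := key (δ / Real.exp t) (by positivity) t ht z hz
  have h2 : δ / Real.exp t * Real.exp t = δ := by
    have := (Real.exp_pos t).ne'
    field_simp
  linarith

end max

end Pool.Agent.Lib.MP_79abb3_an.P25
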