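import Pool.Agent.Lib.MP_79abb3_an.P25.BaseA
import Pool.Agent.Lib.MP_79abb3_an.P25.Tanh

/-!
The base flow: lower barrier.
-/

set_option autoImplicit false
set_option linter.unusedSectionVars false

open MeasureTheory Set Filter Topology Function

namespace Pool.Agent.Lib.MP_79abb3_an.P25

/-- The lower barrier. -/
noncomputable def lS (ε t z : ℝ) : ℝ := aa ε t * Real.tanh (3 * (z / √t) / 4)

/-- Its first derivative. -/
noncomputable def lS1 (ε t z : ℝ) : ℝ :=
  aa ε t * (3 / 4 * (1 - Real.tanh (3 * (z / √t) / 4) ^ 2)) / √t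

/-- Its second derivative. -/
noncomputable def lS2 (ε t z : ℝ) : ℝ :=
  aa ε t * (-(9 / 8) * Real.tanh (3 * (z / √t) / 4) * (1 - Real.tanh (3 * (z / √t) / 4) ^ 2)) / t

theorem tanh_sq_le (y : ℝ) : Real.tanh y ^ 2 ≤ 1 := by
  have h1 := tanh_lt_one' y
  have h2 := tanh_lt_one' (-y)
  rw [Real.tanh_neg] at h2
  nlinarith

theorem lS_inner (t z : ℝ) : HasDerivAt (fun z : ℝ => 3 * (z / √t) / 4) (3 / 4 / √t) z := by
  have := (((hasDerivAt_id' z).div_const (√t)).const_mul 3).div_const 4
  refine this.congr_deriv ?_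
  ring

theorem lS_z {ε t : ℝ} (ht : 0 < t) (z : ℝ) : HasDerivAt (lS ε t) (lS1 ε t z) z := by
  have h1 := ((tanh_hasDerivAt (3 * (z / √t) / 4)).comp z (lS_inner t z)).const_mul (aa ε t)
  refine h1.congr_deriv ?_
  unfold lS1
  ring

theorem lS1_z {ε t : ℝ} (ht : 0 < t) (z : ℝ) : HasDerivAt (lS1 ε t) (lS2 ε t z) z := by
  have h0 := (tanh_hasDerivAt (3 * (z / √t) / 4)).comp z (lS_inner t z)
  have h1 := ((((h0.pow 2).const_sub 1).const_mul (3 / 4)).const_mul (aa ε t)).div_const (√t)
  refine h1.congr_deriv ?_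
  unfold lS2
  have h2 : 0 < √t := Real.sqrt_pos.2 ht
  have h3 : √t * √t = t := Real.mul_self_sqrt ht.le
  simp only [comp_apply]
  generalize Real.tanh (3 * (z / √t) / 4) = p
  have h4 : aa ε t * (-(9 / 8) * p * (1 - p ^ 2)) / t =
      aa ε t * (-(9 / 8) * p * (1 - p ^ 2)) / (√t * √t) := by rw [h3]
  rw [h4]
  field_simp
  ring

theorem lS_t {ε t : ℝ} (hε : 0 < ε) (ht : 0 < t) (z : ℝ) : HasDerivAt (fun s => lS ε s z)
    ((PP ε t - aa ε t ^ 2) * Real.tanh (3 * (z / √t) / 4) +
      aa ε t * ((1 - Real.tanh (3 * (z / √t) / 4) ^ 2) * (3 / 4 * (-((z / √t) / (2 * t)))))) t := by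
  have h2 : 0 < √t := Real.sqrt_pos.2 ht
  have h3 : √t * √t = t := Real.mul_self_sqrt ht.le
  have h4 : HasDerivAt (fun s : ℝ => 3 * (z / √s) / 4) (3 / 4 * (-((z / √t) / (2 * t)))) t := by
    have h5 := (((hasDerivAt_const t z).div (Real.hasDerivAt_sqrt ht.ne') h2.ne').const_mul 3).div_const 4
    refine h5.congr_deriv ?_
    have h6 : (z / √t) / (2 * t) = (z / √t) / (2 * (√t * √t)) := by rw [h3]
    rw [h6]
    field_simp
    ring
  have h7 : HasDerivAt (fun s => Real.tanh (3 * (z / √s) / 4))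
      ((1 - Real.tanh (3 * (z / √t) / 4) ^ 2) * (3 / 4 * (-((z / √t) / (2 * t))))) t :=
    HasDerivAt.comp (h := fun s : ℝ => 3 * (z / √s) / 4) t
      (tanh_hasDerivAt (3 * (z / √t) / 4)) h4
  exact (aa_hasDerivAt hε t).mul h7

theorem lS_int {ε t : ℝ} (ht : 0 < t) (z : ℝ) : ∫ y in (0:ℝ)..z, lS ε t y =
    aa ε t * (√t * (4 / 3 * Real.log (Real.cosh (3 * (z / √t) / 4)))) := by
  have h2 : 0 < √t := Real.sqrt_pos.2 ht
  have hd : ∀ y : ℝ, HasDerivAt
      (fun z => aa ε t * (√t * (4 / 3 * Real.log (Real.cosh (3 * (z / √t) / 4))))) (lS ε t y) y := by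
    intro y
    have h0 := (Real.hasDerivAt_cosh (3 * (y / √t) / 4)).comp y (lS_inner t y)
    have h1 := ((((h0.log (Real.cosh_pos _).ne').const_mul (4 / 3)).const_mul (√t)).const_mul (aa ε t))
    refine h1.congr_deriv ?_
    unfold lS
    rw [Real.tanh_eq_sinh_div_cosh]
    simp only [comp_apply]
    have := (Real.cosh_pos (3 * (y / √t) / 4)).ne'
    field_simp
  have hc : Continuous (lS ε t) := continuous_iff_continuousAt.2 fun y => (lS_z ht y).continuousAt
  rw [intervalIntegral.integral_eq_sub_of_hasDerivAt (fun y _ => hd y) (hc.intervalIntegrable _ _)]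
  simp

theorem lS_sub {ε t z : ℝ} (hε : 0 < ε) (ht : 0 < t) (hz : 0 ≤ z) :
    ((PP ε t - aa ε t ^ 2) * Real.tanh (3 * (z / √t) / 4) +
      aa ε t * ((1 - Real.tanh (3 * (z / √t) / 4) ^ 2) * (3 / 4 * (-((z / √t) / (2 * t)))))) -
      lS2 ε t z - (∫ y in (0:ℝ)..z, lS ε t y) * lS1 ε t z + lS ε t z ^ 2 - PP ε t ≤ 0 := by
  rw [lS_int ht]
  unfold lS lS1 lS2
  have h2 : 0 < √t := Real.sqrt_pos.2 ht
  have hx : 0 ≤ z / √t := by positivity
  have c1 := tanh_c1 hx
  have c2 := tanh_c2 hx
  generalize z / √t = x at *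
  generalize Real.log (Real.cosh (3 * x / 4)) = L at *
  generalize Real.tanh (3 * x / 4) = p at *
  have e : (PP ε t - aa ε t ^ 2) * p + aa ε t * ((1 - p ^ 2) * (3 / 4 * (-(x / (2 * t))))) -
      aa ε t * (-(9 / 8) * p * (1 - p ^ 2)) / t -
      aa ε t * (√t * (4 / 3 * L)) * (aa ε t * (3 / 4 * (1 - p ^ 2)) / √t) + (aa ε t * p) ^ 2 - PP ε t =
      -(ε ^ 2 * (1 - p + (-(9 / 8) * p * (1 - p ^ 2)) + x / 2 * (3 / 4 * (1 - p ^ 2))) +
        t ^ 2 * (p * (1 - p) + (4 / 3 * L) * (3 / 4 * (1 - p ^ 2)) +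
          (-(9 / 8) * p * (1 - p ^ 2)) + x / 2 * (3 / 4 * (1 - p ^ 2)))) / (t ^ 2 + ε ^ 2) ^ 2 := by
    have h5 : aa ε t * (√t * (4 / 3 * L)) * (aa ε t * (3 / 4 * (1 - p ^ 2)) / √t) =
        aa ε t ^ 2 * ((4 / 3 * L) * (3 / 4 * (1 - p ^ 2))) := by
      field_simp
    rw [h5]
    unfold aa PP
    have h0 : t ^ 2 + ε ^ 2 ≠ 0 := by positivity
    field_simp
    ring
  rw [e]
  apply div_nonpos_of_nonpos_of_nonneg
  · nlinarith [mul_nonneg (sq_nonneg ε) c1, mul_nonneg (sq_nonneg t) c2]
  · positivity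

theorem lS_abs (ε t z : ℝ) : |lS ε t z| ≤ |aa ε t| := by
  unfold lS
  rw [abs_mul]
  have h1 : |Real.tanh (3 * (z / √t) / 4)| ≤ 1 := by
    rw [← sq_le_one_iff_abs_le_one]
    exact tanh_sq_le _
  calc |aa ε t| * |Real.tanh (3 * (z / √t) / 4)| ≤ |aa ε t| * 1 :=
        mul_le_mul_of_nonneg_left h1 (abs_nonneg _)
    _ = |aa ε t| := mul_one _

theorem lS_cont {ε : ℝ} (hε : 0 < ε) (b H : ℝ) :
    ContinuousOn (uncurry (lS ε)) (Icc 0 b ×ˢ Icc 0 H) := by
  have ha : Continuous (aa ε) :=
    continuous_iff_continuousAt.2 fun t => (aa_hasDerivAt hε t).continuousAt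
  have ht : Continuous Real.tanh :=
    continuous_iff_continuousAt.2 fun t => (tanh_hasDerivAt t).continuousAt
  rintro ⟨t, z⟩ ⟨⟨ht0, -⟩, -⟩
  simp only at ht0
  apply ContinuousAt.continuousWithinAt
  rcases eq_or_lt_of_le ht0 with h | h
  · subst h
    have h0 : uncurry (lS ε) (0, z) = 0 := by
      simp [uncurry, lS, aa]
    rw [ContinuousAt, h0]
    have h1 : Tendsto (fun p : ℝ × ℝ => |aa ε p.1|) (𝓝 (0, z)) (𝓝 0) := by
      have h2 : Continuous fun p : ℝ × ℝ => |aa ε p.1| := (ha.comp continuous_fst).abs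
      have h3 := h2.tendsto ((0 : ℝ), z)
      simpa [aa] using h3
    rw [tendsto_zero_iff_abs_tendsto_zero]
    refine squeeze_zero (fun p => abs_nonneg _) (fun p => ?_) h1
    exact lS_abs ε p.1 p.2
  · have h2 : √t ≠ 0 := (Real.sqrt_pos.2 h).ne'
    have h3 : ContinuousAt (fun p : ℝ × ℝ => 3 * (p.2 / √p.1) / 4) (t, z) := by
      have h4 : ContinuousAt (fun p : ℝ × ℝ => p.2 / √p.1) (t, z) :=
        continuousAt_snd.div (Real.continuous_sqrt.continuousAt.comp continuousAt_fst) h2
      exact (continuousAt_const.mul h4).div_const 4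
    exact ((ha.comp continuous_fst).continuousAt).mul (ht.continuousAt.comp h3)

section max
variable {ε H b : ℝ} {G G1 G2 : ℝ → ℝ → ℝ}

/-- The lower barrier of the base flow. -/
theorem BSol.low (h : BSol ε H b G G1 G2) (hH : 0 < H) (hε : 0 < ε) (hb : 0 ≤ b) :
    ∀ t ∈ Ioc 0 b, ∀ z ∈ Icc 0 H, aa ε t * Real.tanh (3 * (z / √t) / 4) ≤ G t z := by
  set M : ℝ := √b / ε ^ 2 with hM
  have hM0 : 0 ≤ M := by positivity
  set K : ℝ := H * M + 2 with hK
  have hK0 : 0 ≤ K := by positivity
  have key : ∀ κ : ℝ, 0 < κ → κ * Real.exp (K * b) ≤ 1 → ∀ t ∈ Icc 0 b, ∀ z ∈ Icc 0 H,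
      lS ε t z - G t z - κ * Real.exp (K * t) < 0 := by
    intro κ hκ hκb
    refine touch (f := fun t z => lS ε t z - G t z - κ * Real.exp (K * t)) ?_ ?_ ?_
    · have h2 : ContinuousOn (fun p : ℝ × ℝ => κ * Real.exp (K * p.1)) (Icc 0 b ×ˢ Icc 0 H) := by
        fun_prop
      exact ((lS_cont hε b H).sub h.cG).sub h2
    · intro z hz
      simp only [h.init z hz, mul_zero, Real.exp_zero, lS, aa, zero_div, zero_mul]
      linarith
    · intro t ht z hz h0 hle hbef
      have htI : t ∈ Icc 0 b := ⟨ht.1.le, ht.2⟩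
      set E : ℝ := κ * Real.exp (K * t) with hE
      have he : 0 < E := by positivity
      have hE1 : E ≤ 1 := by
        refine le_trans ?_ hκb
        exact mul_le_mul_of_nonneg_left (Real.exp_le_exp.2 (mul_le_mul_of_nonneg_left ht.2 hK0)) hκ.le
      have ha := ba_aa_nonneg ε ht.1.le
      have hst : 0 < √t := Real.sqrt_pos.2 ht.1
      have hz' : z ∈ Ioo 0 H := by
        refine ⟨lt_of_le_of_ne hz.1 ?_, lt_of_le_of_ne hz.2 ?_⟩
        · rintro rfl
          rw [h.z0 t htI] at h0
          simp only [lS, zero_div, mul_zero, Real.tanh_zero] at h0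
          linarith
        · rintro rfl
          rw [h.zH t htI] at h0
          have h1 := (le_abs_self _).trans (lS_abs ε t z)
          rw [abs_of_nonneg ha] at h1
          linarith
      have hmax : ∀ᶠ q in 𝓝 z, lS ε t q - G t q ≤ lS ε t z - G t z := by
        filter_upwards [Icc_mem_nhds hz'.1 hz'.2] with q hq
        have := hle q hq
        linarith
      have h2 := second_max (f := fun q => lS ε t q - G t q) (f' := fun q => lS1 ε t q - G1 t q)
        (f'' := lS2 ε t z - G2 t z) hmax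
        (by
          filter_upwards [Ioo_mem_nhds hz'.1 hz'.2] with q hq
          exact (lS_z ht.1 q).sub (h.d1' htI hq)) ((lS1_z ht.1 z).sub (h.d2 t ht z hz'))
      have hg1 : G1 t z = lS1 ε t z := by linarith [h2.1]
      have hg2 : lS2 ε t z ≤ G2 t z := by linarith [h2.2]
      have hexp : HasDerivAt (fun s => κ * Real.exp (K * s)) (E * K) t := by
        have h3 := (((hasDerivAt_id' t).const_mul K).exp).const_mul κ
        refine h3.congr_deriv ?_
        rw [hE]
        ring
      have hd := (((lS_t hε ht.1 z).hasDerivWithinAt (s := Iic t)).sub (h.dt t ht z hz')).sub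
        (hexp.hasDerivWithinAt (s := Iic t))
      have h3 := left_nonneg ht.1 hd (by simpa using h0) (fun s hs => by
        simpa using hbef s hs z hz)
      have hG : G t z = lS ε t z - E := by linarith
      -- the integral
      have hcl : Continuous (lS ε t) :=
        continuous_iff_continuousAt.2 fun y => (lS_z ht.1 y).continuousAt
      have hcg : ContinuousOn (G t) (Icc 0 H) := fun y hy => (h.d1 t htI y hy).continuousWithinAt
      have hint : (∫ y in (0:ℝ)..z, lS ε t y) - E * H ≤ ∫ y in (0:ℝ)..z, G t y := by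
        have hgi : IntervalIntegrable (G t) volume 0 z :=
          (hcg.mono (Icc_subset_Icc_right hz.2)).intervalIntegrable_of_Icc hz.1
        have h4 : ∫ y in (0:ℝ)..z, (lS ε t y - E) ≤ ∫ y in (0:ℝ)..z, G t y := by
          refine intervalIntegral.integral_mono_on hz.1
            ((hcl.sub continuous_const).intervalIntegrable _ _) hgi fun y hy => ?_
          have := hle y ⟨hy.1, hy.2.trans hz.2⟩
          linarith
        rw [intervalIntegral.integral_sub (hcl.intervalIntegrable _ _)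
          (continuous_const.intervalIntegrable _ _), intervalIntegral.integral_const,
          smul_eq_mul, sub_zero] at h4
        have h5 : z * E ≤ E * H := by
          rw [mul_comm]
          exact mul_le_mul_of_nonneg_left hz.2 he.le
        linarith
      have hsub := lS_sub hε ht.1 hz.1
      have hS0 : 0 ≤ lS ε t z := by
        unfold lS
        refine mul_nonneg ha (tanh_nonneg' ?_)
        have := hz.1
        positivity
      have hS10 : 0 ≤ lS1 ε t z := by
        unfold lS1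
        have := tanh_sq_le (3 * (z / √t) / 4)
        have h6 : 0 ≤ 1 - Real.tanh (3 * (z / √t) / 4) ^ 2 := by linarith
        positivity
      have hS1M : lS1 ε t z ≤ M := by
        unfold lS1
        have h6 : 3 / 4 * (1 - Real.tanh (3 * (z / √t) / 4) ^ 2) ≤ 1 := by
          have := sq_nonneg (Real.tanh (3 * (z / √t) / 4))
          linarith
        have h7 : aa ε t ≤ t / ε ^ 2 := by
          unfold aa
          exact div_le_div_of_nonneg_left ht.1.le (by positivity) (by nlinarith [sq_nonneg t])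
        have h8 : √t * √t = t := Real.mul_self_sqrt ht.1.le
        calc aa ε t * (3 / 4 * (1 - Real.tanh (3 * (z / √t) / 4) ^ 2)) / √t
            ≤ aa ε t * 1 / √t := by gcongr
          _ ≤ t / ε ^ 2 * 1 / √t := by gcongr
          _ = √t / ε ^ 2 := by
              rw [mul_one, div_div, div_eq_div_iff (by positivity) (by positivity)]
              nlinarith
          _ ≤ √b / ε ^ 2 := by gcongr; exact ht.2
      rw [hg1, hG] at h3
      have h9 : ((∫ y in (0:ℝ)..z, lS ε t y) - E * H) * lS1 ε t z ≤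
          (∫ y in (0:ℝ)..z, G t y) * lS1 ε t z := mul_le_mul_of_nonneg_right hint hS10
      have h10 : E * H * lS1 ε t z ≤ E * (H * M) := by
        rw [mul_assoc]
        exact mul_le_mul_of_nonneg_left (mul_le_mul_of_nonneg_left hS1M hH.le) he.le
      have h11 : E ^ 2 ≤ E * 1 := by rw [sq]; exact mul_le_mul_of_nonneg_left hE1 he.le
      have h12 : 0 ≤ lS ε t z * E := mul_nonneg hS0 he.le
      have h13 : E * K = E * (H * M) + 2 * E := by rw [hK]; ring
      nlinarith
  intro t ht z hz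
  have htI : t ∈ Icc 0 b := ⟨ht.1.le, ht.2⟩
  change lS ε t z ≤ G t z
  by_contra hc
  rw [not_le] at hc
  set κ : ℝ := min (1 / Real.exp (K * b)) ((lS ε t z - G t z) / (2 * Real.exp (K * t))) with hκ
  have hκ0 : 0 < κ := lt_min (by positivity) (div_pos (by linarith) (by positivity))
  have h1 : κ * Real.exp (K * b) ≤ 1 := by
    have h2 : κ ≤ 1 / Real.exp (K * b) := min_le_left _ _
    have h3 : κ * Real.exp (K * b) ≤ 1 / Real.exp (K * b) * Real.exp (K * b) :=
      mul_le_mul_of_nonneg_right h2 (Real.exp_pos _).le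
    have h4 : 1 / Real.exp (K * b) * Real.exp (K * b) = 1 := by
      have := (Real.exp_pos (K * b)).ne'
      field_simp
    linarith
  have h5 := key κ hκ0 h1 t htI z hz
  have h6 : κ ≤ (lS ε t z - G t z) / (2 * Real.exp (K * t)) := min_le_right _ _
  have h7 : κ * Real.exp (K * t) ≤ (lS ε t z - G t z) / (2 * Real.exp (K * t)) * Real.exp (K * t) :=
    mul_le_mul_of_nonneg_right h6 (Real.exp_pos _).le
  have h8 : (lS ε t z - G t z) / (2 * Real.exp (K * t)) * Real.exp (K * t) =
      (lS ε t z - G t z) / 2 := by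
    have := (Real.exp_pos (K * t)).ne'
    field_simp
  linarith

end max

end Pool.Agent.Lib.MP_79abb3_an.P25
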