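import Mathlib

/-!
Theorem on 2.5D flows over a flat wall (MP_79abb3_an): basic spaces.
-/

set_option autoImplicit false
set_option linter.unusedSectionVars false

open MeasureTheory Set Filter Topology Function
open scoped ENNReal

namespace Pool.Agent.Lib.MP_79abb3_an.P25

/-- Continuous complex valued functions on `[0,H]`. -/
abbrev CI (H : ℝ) : Type := C(Icc (0:ℝ) H, ℂ)

section CI
variable {H : ℝ} [hH : Fact (0 < H)]

/-- Extension of `f ∈ C([0,H])` to the line (constant outside). -/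
noncomputable def ex (f : CI H) (z : ℝ) : ℂ := f (projIcc 0 H hH.out.le z)

theorem continuous_ex (f : CI H) : Continuous (ex f) :=
  f.continuous.comp (continuous_projIcc)

theorem ex_apply (f : CI H) {z : ℝ} (hz : z ∈ Icc (0:ℝ) H) : ex f z = f ⟨z, hz⟩ := by
  rw [ex, projIcc_of_mem _ hz]

theorem norm_ex_le (f : CI H) (z : ℝ) : ‖ex f z‖ ≤ ‖f‖ := f.norm_coe_le_norm _

@[simp] theorem ex_add (f g : CI H) (z : ℝ) : ex (f + g) z = ex f z + ex g z := rfl
@[simp] theorem ex_sub (f g : CI H) (z : ℝ) : ex (f - g) z = ex f z - ex g z := rfl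
@[simp] theorem ex_neg (f : CI H) (z : ℝ) : ex (-f) z = -ex f z := rfl
@[simp] theorem ex_mul (f g : CI H) (z : ℝ) : ex (f * g) z = ex f z * ex g z := rfl
@[simp] theorem ex_zero (z : ℝ) : ex (0 : CI H) z = 0 := rfl
@[simp] theorem ex_smul (c : ℂ) (f : CI H) (z : ℝ) : ex (c • f) z = c * ex f z := rfl
@[simp] theorem ex_rsmul (c : ℝ) (f : CI H) (z : ℝ) : ex (c • f) z = c * ex f z := rfl
@[simp] theorem ex_star (f : CI H) (z : ℝ) : ex (star f) z = star (ex f z) := rfl

theorem ci_norm_le {f : CI H} {C : ℝ} (hC : 0 ≤ C) (h : ∀ z ∈ Icc (0:ℝ) H, ‖ex f z‖ ≤ C) : ‖f‖ ≤ C := by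
  refine (ContinuousMap.norm_le f hC).2 fun z => ?_
  have := h z.1 z.2
  rwa [ex_apply f z.2] at this

theorem ci_ext {f g : CI H} (h : ∀ z ∈ Icc (0:ℝ) H, ex f z = ex g z) : f = g := by
  ext z
  have := h z.1 z.2
  rwa [ex_apply f z.2, ex_apply g z.2] at this

/-- Element of `C([0,H])` from a function on the line. -/
def mkCI (F : ℝ → ℂ) (hF : ContinuousOn F (Icc 0 H)) : CI H :=
  ⟨fun z => F z, continuousOn_iff_continuous_domRestrict.1 hF⟩

theorem ex_mkCI {F : ℝ → ℂ} (hF : ContinuousOn F (Icc 0 H)) {z : ℝ} (hz : z ∈ Icc (0:ℝ) H) :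
    ex (mkCI F hF) z = F z := by
  rw [ex_apply _ hz]; rfl

/-- Evaluation at a point, as a continuous linear map. -/
noncomputable def evL (z : ℝ) : CI H →L[ℝ] ℂ :=
  LinearMap.mkContinuous
    { toFun := fun f => ex f z
      map_add' := fun _ _ => rfl
      map_smul' := fun c f => by simp } 1 (fun f => by rw [one_mul]; exact norm_ex_le f z)

@[simp] theorem evL_apply (z : ℝ) (f : CI H) : evL z f = ex f z := rfl

/-- `f1` is the derivative of `f` on `[0,H]`. -/
def IsD (f f1 : CI H) : Prop :=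
  ∀ z ∈ Icc (0:ℝ) H, HasDerivWithinAt (ex f) (ex f1 z) (Icc 0 H) z

/-- Joint continuity of evaluations. -/
theorem continuousOn_ex {f : ℝ → CI H} {s : Set ℝ} (hf : ContinuousOn f s) :
    ContinuousOn (fun p : ℝ × ℝ => ex (f p.1) p.2) (s ×ˢ univ) := by
  have h1 : Continuous fun q : CI H × ℝ => ex q.1 q.2 := by
    have h2 : Continuous fun q : CI H × Icc (0:ℝ) H => q.1 q.2 := continuous_eval
    exact h2.comp (f := fun q : CI H × ℝ => (q.1, projIcc 0 H hH.out.le q.2))
      (continuous_fst.prodMk (continuous_projIcc.comp continuous_snd))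
  exact h1.comp_continuousOn ((hf.comp continuousOn_fst fun p hp => hp.1).prodMk continuousOn_snd)

/-- The operator `f ↦ ∫₀^z exp(-|k| (z - x)) f(x) dx`. -/
noncomputable def EopF (k : ℝ) (f : CI H) : CI H :=
  mkCI (fun z => ∫ x in (0:ℝ)..z, ((Real.exp (-|k| * (z - x)) : ℝ) : ℂ) * ex f x) (by
    have h : Continuous (fun z : ℝ => ∫ x in (0:ℝ)..z, ((Real.exp (-|k| * (z - x)) : ℝ) : ℂ) * ex f x) := by
      refine intervalIntegral.continuous_parametric_intervalIntegral_of_continuous ?_ continuous_id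
      have := continuous_ex f
      exact Continuous.mul (by fun_prop) (this.comp continuous_snd)
    exact h.continuousOn)

/-- The operator `f ↦ ∫_z^H exp(-|k| (x - z)) f(x) dx`. -/
noncomputable def TopF (k : ℝ) (f : CI H) : CI H :=
  mkCI (fun z => ∫ x in z..H, ((Real.exp (-|k| * (x - z)) : ℝ) : ℂ) * ex f x) (by
    have h : Continuous (fun z : ℝ => ∫ x in H..z, ((Real.exp (-|k| * (x - z)) : ℝ) : ℂ) * ex f x) := by
      refine intervalIntegral.continuous_parametric_intervalIntegral_of_continuous ?_ continuous_id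
      have := continuous_ex f
      exact Continuous.mul (by fun_prop) (this.comp continuous_snd)
    have h2 : (fun z : ℝ => ∫ x in z..H, ((Real.exp (-|k| * (x - z)) : ℝ) : ℂ) * ex f x) =
        fun z : ℝ => -∫ x in H..z, ((Real.exp (-|k| * (x - z)) : ℝ) : ℂ) * ex f x := by
      ext z; rw [intervalIntegral.integral_symm]
    rw [h2]
    exact h.neg.continuousOn)

theorem EopF_apply (k : ℝ) (f : CI H) {z : ℝ} (hz : z ∈ Icc (0:ℝ) H) :
    ex (EopF k f) z = ∫ x in (0:ℝ)..z, ((Real.exp (-|k| * (z - x)) : ℝ) : ℂ) * ex f x := ex_mkCI _ hz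

theorem TopF_apply (k : ℝ) (f : CI H) {z : ℝ} (hz : z ∈ Icc (0:ℝ) H) :
    ex (TopF k f) z = ∫ x in z..H, ((Real.exp (-|k| * (x - z)) : ℝ) : ℂ) * ex f x := ex_mkCI _ hz

theorem norm_EopF_le (k : ℝ) (f : CI H) : ‖EopF k f‖ ≤ H * ‖f‖ := by
  have hH0 := hH.out
  refine ci_norm_le (by positivity) fun z hz => ?_
  rw [EopF_apply k f hz]
  refine (intervalIntegral.norm_integral_le_of_norm_le_const (C := ‖f‖) fun x hx => ?_).trans ?_
  · rw [uIoc_of_le hz.1] at hx
    rw [norm_mul, Complex.norm_real, Real.norm_eq_abs, abs_of_pos (Real.exp_pos _)]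
    have h1 : Real.exp (-|k| * (z - x)) ≤ 1 := by
      rw [Real.exp_le_one_iff]
      have : 0 ≤ z - x := by linarith [hx.2]
      have := abs_nonneg k
      nlinarith
    calc Real.exp (-|k| * (z - x)) * ‖ex f x‖ ≤ 1 * ‖f‖ := by
          gcongr; exact norm_ex_le f x
      _ = ‖f‖ := one_mul _
  · rw [sub_zero, abs_of_nonneg hz.1, mul_comm]
    gcongr
    exact hz.2

theorem norm_TopF_le (k : ℝ) (f : CI H) : ‖TopF k f‖ ≤ H * ‖f‖ := by
  have hH0 := hH.out
  refine ci_norm_le (by positivity) fun z hz => ?_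
  rw [TopF_apply k f hz]
  refine (intervalIntegral.norm_integral_le_of_norm_le_const (C := ‖f‖) fun x hx => ?_).trans ?_
  · rw [uIoc_of_le hz.2] at hx
    rw [norm_mul, Complex.norm_real, Real.norm_eq_abs, abs_of_pos (Real.exp_pos _)]
    have h1 : Real.exp (-|k| * (x - z)) ≤ 1 := by
      rw [Real.exp_le_one_iff]
      have : 0 ≤ x - z := by linarith [hx.1]
      have := abs_nonneg k
      nlinarith
    calc Real.exp (-|k| * (x - z)) * ‖ex f x‖ ≤ 1 * ‖f‖ := by
          gcongr; exact norm_ex_le f x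
      _ = ‖f‖ := one_mul _
  · rw [abs_of_nonneg (by linarith [hz.2]), mul_comm]
    gcongr
    linarith [hz.1]

/-- The operator `E_k`. -/
noncomputable def Eop (k : ℝ) : CI H →L[ℂ] CI H :=
  LinearMap.mkContinuous
    { toFun := EopF k
      map_add' := fun f g => ci_ext fun z hz => by
        rw [ex_add, EopF_apply k _ hz, EopF_apply k _ hz, EopF_apply k _ hz,
          ← intervalIntegral.integral_add]
        · simp only [ex_add, mul_add]
        · exact Continuous.intervalIntegrable (by have := continuous_ex f; fun_prop) _ _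
        · exact Continuous.intervalIntegrable (by have := continuous_ex g; fun_prop) _ _
      map_smul' := fun c f => ci_ext fun z hz => by
        rw [RingHom.id_apply, ex_smul, EopF_apply k _ hz, EopF_apply k _ hz,
          ← intervalIntegral.integral_const_mul]
        congr 1
        ext x
        rw [ex_smul]
        ring } H (norm_EopF_le k)

/-- The operator `T_k`. -/
noncomputable def Top (k : ℝ) : CI H →L[ℂ] CI H :=
  LinearMap.mkContinuous
    { toFun := TopF k
      map_add' := fun f g => ci_ext fun z hz => by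
        rw [ex_add, TopF_apply k _ hz, TopF_apply k _ hz, TopF_apply k _ hz,
          ← intervalIntegral.integral_add]
        · simp only [ex_add, mul_add]
        · exact Continuous.intervalIntegrable (by have := continuous_ex f; fun_prop) _ _
        · exact Continuous.intervalIntegrable (by have := continuous_ex g; fun_prop) _ _
      map_smul' := fun c f => ci_ext fun z hz => by
        rw [RingHom.id_apply, ex_smul, TopF_apply k _ hz, TopF_apply k _ hz,
          ← intervalIntegral.integral_const_mul]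
        congr 1
        ext x
        rw [ex_smul]
        ring } H (norm_TopF_le k)

theorem Eop_apply (k : ℝ) (f : CI H) {z : ℝ} (hz : z ∈ Icc (0:ℝ) H) :
    ex (Eop k f) z = ∫ x in (0:ℝ)..z, ((Real.exp (-|k| * (z - x)) : ℝ) : ℂ) * ex f x :=
  EopF_apply k f hz

theorem Top_apply (k : ℝ) (f : CI H) {z : ℝ} (hz : z ∈ Icc (0:ℝ) H) :
    ex (Top k f) z = ∫ x in z..H, ((Real.exp (-|k| * (x - z)) : ℝ) : ℂ) * ex f x :=
  TopF_apply k f hz

theorem norm_Eop_le (k : ℝ) (f : CI H) : ‖Eop k f‖ ≤ H * ‖f‖ := norm_EopF_le k f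
theorem norm_Top_le (k : ℝ) (f : CI H) : ‖Top k f‖ ≤ H * ‖f‖ := norm_TopF_le k f

end CI

/-! ### Summable families of modes -/

/-- `ℓ¹(ℤ; E)` -/
abbrev L1 (E : Type) [NormedAddCommGroup E] : Type := lp (fun _ : ℤ => E) 1

section L1
variable {E F : Type} [NormedAddCommGroup E] [NormedSpace ℝ E] [NormedAddCommGroup F] [NormedSpace ℝ F]

theorem l1_summable (x : L1 E) : Summable fun n => ‖x n‖ := by
  have := (lp.memℓp x).summable (by simp)
  simpa using this

theorem l1_norm (x : L1 E) : ‖x‖ = ∑' n, ‖x n‖ := by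
  rw [lp.norm_eq_tsum_rpow (by simp)]; simp

/-- Element of `ℓ¹` from a family. -/
def mkL1 (a : ℤ → E) (h : Summable fun n => ‖a n‖) : L1 E :=
  ⟨a, memℓp_gen (by simpa using h)⟩

@[simp] theorem mkL1_apply (a : ℤ → E) (h : Summable fun n => ‖a n‖) (n : ℤ) : mkL1 a h n = a n := rfl

theorem norm_mkL1 (a : ℤ → E) (h : Summable fun n => ‖a n‖) : ‖mkL1 a h‖ = ∑' n, ‖a n‖ := l1_norm _

/-- Diagonal operators. -/
noncomputable def diagL (A : ℤ → (E →L[ℝ] F)) (C : ℝ) (hA : ∀ n x, ‖A n x‖ ≤ C * ‖x‖) :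
    L1 E →L[ℝ] L1 F :=
  LinearMap.mkContinuous
    { toFun := fun x => mkL1 (fun n => A n (x n))
        (Summable.of_nonneg_of_le (fun n => norm_nonneg _) (fun n => hA n (x n))
          ((l1_summable x).mul_left C))
      map_add' := fun x y => by
        ext n
        simp
      map_smul' := fun c x => by
        ext n
        simp } C (fun x => by
      have h1 := (l1_summable x).mul_left C
      have h2 := Summable.of_nonneg_of_le (fun n => norm_nonneg _) (fun n => hA n (x n)) h1
      show ‖mkL1 (fun n => A n (x n)) h2‖ ≤ C * ‖x‖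
      rw [norm_mkL1, l1_norm, ← tsum_mul_left]
      exact Summable.tsum_le_tsum (fun n => hA n (x n)) h2 h1)

@[simp] theorem diagL_apply (A : ℤ → (E →L[ℝ] F)) (C : ℝ) (hA : ∀ n x, ‖A n x‖ ≤ C * ‖x‖)
    (x : L1 E) (n : ℤ) : diagL A C hA x n = A n (x n) := rfl

theorem norm_diagL_le (A : ℤ → (E →L[ℝ] F)) (C : ℝ) (hA : ∀ n x, ‖A n x‖ ≤ C * ‖x‖)
    (x : L1 E) : ‖diagL A C hA x‖ ≤ C * ‖x‖ := by
  have h1 := (l1_summable x).mul_left C
  have h2 := Summable.of_nonneg_of_le (fun n => norm_nonneg _) (fun n => hA n (x n)) h1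
  show ‖mkL1 (fun n => A n (x n)) h2‖ ≤ C * ‖x‖
  rw [norm_mkL1, l1_norm, ← tsum_mul_left]
  exact Summable.tsum_le_tsum (fun n => hA n (x n)) h2 h1

end L1

end Pool.Agent.Lib.MP_79abb3_an.P25
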