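import Pool.Agent.Lib.MP_79abb3_an.P25.LTops
import Pool.Agent.Lib.MP_79abb3_an.P25.LEPT

/-!
Consequences of the local existence theorem for perturbations (TR-6).
-/

set_option autoImplicit false
set_option linter.unusedSectionVars false

open MeasureTheory Set Filter Topology Function

namespace Pool.Agent.Lib.MP_79abb3_an.P25

section
variable {H : ℝ} [hH : Fact (0 < H)]

/-! TR-6: consequences. -/

/-- Polynomial weights. -/
noncomputable def Wp (m : ℕ) (n : ℤ) : ℝ := (1 + |(n : ℝ)|) ^ m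

theorem PT.lec_glue {ω a b c : ℝ} {U : ℝ → L1 (Xn H)} {F : ℝ → L1 (Yn H)} {u u' : ℝ → L1 (Xn H)}
    (h : PT ω a b U F u) (h' : PT ω b c U F u') (hab : a ≤ b) (hbc : b ≤ c) (hu : u b = u' b) :
    PT ω a c U F (fun t => if t ≤ b then u t else u' t) := by
  refine ⟨?_, ?_, ?_⟩
  · have h1 := h.lt.glue' h'.lt hab hbc hu (fun n => by unfold src; rw [hu])
    refine h1.congr (fun _ _ => rfl) (fun t _ n => ?_) (fun _ _ => rfl)
    by_cases hb : t ≤ b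
    · simp only [src, if_pos hb]
    · simp only [src, if_neg hb]
  · intro t ht n
    by_cases h1 : t ≤ b
    · rw [if_pos h1]; exact h.dm t ⟨ht.1, h1⟩ n
    · rw [if_neg h1]; exact h'.dm t ⟨(not_le.1 h1).le, ht.2⟩ n
  · intro t ht
    by_cases h1 : t ≤ b
    · simp only [if_pos h1]; exact h.sy t ⟨ht.1, h1⟩
    · simp only [if_neg h1]; exact h'.sy t ⟨(not_le.1 h1).le, ht.2⟩

theorem lec_Wp_nonneg (m : ℕ) (n : ℤ) : 0 ≤ Wp m n := by unfold Wp; positivity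

/-- weights `(1 + β |n|)^m` -/
theorem lec_Wt1_pow {β : ℝ} (hβ : 0 ≤ β) (m : ℕ) : Wt1 (fun n : ℤ => (1 + β * |(n : ℝ)|) ^ m) := by
  refine ⟨⟨fun n => ?_, fun a b => ?_, ?_⟩, fun n => ?_⟩
  · exact one_le_pow₀ (by have := mul_nonneg hβ (abs_nonneg (n : ℝ)); linarith)
  · rw [one_mul, ← mul_pow]
    refine pow_le_pow_left₀ (by positivity) ?_ m
    push_cast
    have h1 := abs_add_le (a : ℝ) b
    have h2 := mul_le_mul_of_nonneg_left h1 hβ
    have h3 : 0 ≤ (β * |(a : ℝ)|) * (β * |(b : ℝ)|) := by positivity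
    nlinarith
  · simp
  · simp only [Int.cast_neg, abs_neg]

theorem lec_Wt1_Wp (m : ℕ) : Wt1 (Wp m) := by
  have h := lec_Wt1_pow zero_le_one m
  have e : Wp m = fun n : ℤ => (1 + 1 * |(n : ℝ)|) ^ m := by
    funext n
    rw [one_mul]; rfl
  rw [e]; exact h

theorem lec_Wt1_one : Wt1 (fun _ : ℤ => (1 : ℝ)) :=
  ⟨⟨fun _ => le_refl _, fun _ _ => by norm_num, rfl⟩, fun _ => rfl⟩

theorem lec_summable_jn (x : L1 (Xn H)) : Summable fun n => ‖jn (x n)‖ :=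
  Summable.of_nonneg_of_le (fun n => norm_nonneg _)
    (fun n => by have := norm_jnL_le (x n); rwa [one_mul] at this) (l1_summable x)

theorem lec_norm_jL_eq (x : L1 (Xn H)) : ‖jL H x‖ = ∑' n, ‖jn (x n)‖ := l1_norm _

theorem lec_Sy_zero_X : Sy (fun n => (0 : L1 (Xn H)) n) := by
  intro n
  show (0 : Xn H) = star (0 : Xn H)
  rw [star_zero]

theorem lec_Sy_zero_Y : Sy (fun n => (0 : L1 (Yn H)) n) := by
  intro n
  show (0 : Yn H) = star (0 : Yn H)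
  rw [star_zero]

/-- one more power of `n` is gained by the parabolic regularisation -/
theorem Dmode.lec_gain {k : ℝ} {x : Xn H} (h : Dmode k x) : |k| * ‖jn x‖ ≤ ‖x‖ := by
  have h1 : |k| * ‖x.1.1‖ ≤ ‖x‖ := by
    have e : ‖x.1.2.2‖ = |k| * ‖x.1.1‖ := by
      rw [h.e1, norm_smul, Real.norm_eq_abs, abs_abs]
    rw [← e]
    exact ((norm_snd_le x.1.2).trans (norm_snd_le x.1)).trans (norm_fst_le x)
  have h2 : |k| * ‖x.2.1‖ ≤ ‖x‖ := by
    have e : ‖x.2.2.2‖ = |k| * ‖x.2.1‖ := by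
      rw [h.e2, norm_smul, Real.norm_eq_abs, abs_abs]
    rw [← e]
    exact ((norm_snd_le x.2.2).trans (norm_snd_le x.2)).trans (norm_snd_le x)
  have h3 : ‖jn x‖ = max ‖x.1.1‖ ‖x.2.1‖ := rfl
  rw [h3, mul_max_of_nonneg _ _ (abs_nonneg k)]
  exact max_le h1 h2

theorem lec_norm_jn_le' (x : Xn H) : ‖jn x‖ ≤ ‖x‖ := by
  have := norm_jnL_le x; rwa [one_mul] at this

theorem lec_summable_gain {ω : ℝ} (hω : 0 < ω) {x : L1 (Xn H)} (hd : ∀ n : ℤ, Dmode (ω * n) (x n)) {m : ℕ}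
    (hs : Summable fun n : ℤ => Wp m n * ‖x n‖) : Summable fun n : ℤ => Wp (m + 1) n * ‖jn (x n)‖ := by
  refine Summable.of_nonneg_of_le (fun n => mul_nonneg (lec_Wp_nonneg _ _) (norm_nonneg _)) (fun n => ?_)
    (hs.mul_left (1 + ω⁻¹))
  have h1 := (hd n).lec_gain
  rw [abs_mul, abs_of_pos hω] at h1
  have h2 : |(n : ℝ)| * ‖jn (x n)‖ ≤ ω⁻¹ * ‖x n‖ := by
    rw [← div_eq_inv_mul, le_div_iff₀ hω]
    linarith
  have h3 := lec_norm_jn_le' (x n)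
  have h4 : Wp (m + 1) n = Wp m n * (1 + |(n : ℝ)|) := by unfold Wp; rw [pow_succ]
  rw [h4]
  have h5 := lec_Wp_nonneg m n
  calc Wp m n * (1 + |(n : ℝ)|) * ‖jn (x n)‖ = Wp m n * (‖jn (x n)‖ + |(n : ℝ)| * ‖jn (x n)‖) := by ring
    _ ≤ Wp m n * (‖x n‖ + ω⁻¹ * ‖x n‖) := by gcongr
    _ = (1 + ω⁻¹) * (Wp m n * ‖x n‖) := by ring

/-- a step size -/
theorem lec_exists_step {A c δ : ℝ} (hA : 0 ≤ A) (hc : 0 < c) (hδ : 0 < δ) :
    ∃ τ, 0 < τ ∧ τ ≤ 1 ∧ τ ≤ δ ∧ √τ * A ≤ c := by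
  refine ⟨min (min 1 δ) ((c / (A + 1)) ^ 2), ?_, ?_, ?_, ?_⟩
  · have : 0 < c / (A + 1) := by positivity
    positivity
  · exact (min_le_left _ _).trans (min_le_left _ _)
  · exact (min_le_left _ _).trans (min_le_right _ _)
  · have h1 : √(min (min 1 δ) ((c / (A + 1)) ^ 2)) ≤ c / (A + 1) := by
      rw [Real.sqrt_le_left (by positivity)]
      exact min_le_right _ _
    calc √(min (min 1 δ) ((c / (A + 1)) ^ 2)) * A ≤ c / (A + 1) * A := by gcongr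
      _ ≤ c := by
        rw [div_mul_eq_mul_div, div_le_iff₀ (by positivity)]
        nlinarith

/-- Regularisation in `y`. -/
theorem stage0 (H : ℝ) [Fact (0 < H)] (hdir : ∃ S D A : ℝ → (CI H →L[ℂ] CI H), DirSG H S D A) {ω : ℝ}
    (hω : 0 < ω) {x0 : L1 (Xn H)} (hd : ∀ n : ℤ, Dmode (ω * n) (x0 n)) (hs : Sy x0) {δ : ℝ} (hδ : 0 < δ)
    (m : ℕ) : ∃ t0 ∈ Ioc 0 δ, ∃ u : ℝ → L1 (Xn H), PT ω 0 t0 (fun _ => 0) (fun _ => 0) u ∧ u 0 = x0 ∧
      Summable fun n : ℤ => Wp m n * ‖u t0 n‖ := by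
  obtain ⟨c, hc, K, hK, hLE⟩ := LEPT H hdir
  have base : ∀ (m : ℕ) (s δ : ℝ) (x : L1 (Xn H)), 0 < δ → (∀ n : ℤ, Dmode (ω * n) (x n)) → Sy x →
      (Summable fun n : ℤ => Wp m n * ‖jn (x n)‖) → ∃ τ, 0 < τ ∧ τ ≤ δ ∧ ∃ u : ℝ → L1 (Xn H),
        PT ω s (s + τ) (fun _ => 0) (fun _ => 0) u ∧ u s = x ∧
        Summable fun n : ℤ => Wp m n * ‖u (s + τ) n‖ := by
    intro m s δ x hδ hd hs hsum
    obtain ⟨τ, h0, h1, h2, h3⟩ := lec_exists_step
      (A := ∑' n, Wp m n * ‖jn (x n)‖) (tsum_nonneg fun n => mul_nonneg (lec_Wp_nonneg _ _) (norm_nonneg _))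
      hc hδ
    obtain ⟨u, hu, hu0, hu1, -⟩ := hLE ω s τ 0 0 _ (Wp m) (fun _ => 0) (fun _ => 0) x h0 h1 le_rfl
      le_rfl (lec_Wt1_Wp m) continuousOn_const continuousOn_const
      (fun t _ => ⟨by rw [norm_zero], by rw [norm_zero], lec_Sy_zero_X, lec_Sy_zero_Y, fun n _ => ⟨rfl, rfl⟩⟩)
      hd hs hsum.hasSum (by rw [zero_add, mul_zero, add_zero]; exact h3)
    exact ⟨τ, h0, h2, u, hu, hu0, (hu1 (s + τ) ⟨by linarith, le_rfl⟩).1⟩
  induction m generalizing δ with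
  | zero =>
    obtain ⟨τ, h0, h1, u, hu, hu0, hu1⟩ := base 0 0 δ x0 hδ hd hs (by
      simpa [Wp] using lec_summable_jn x0)
    rw [zero_add] at hu hu1
    exact ⟨τ, ⟨h0, h1⟩, u, hu, hu0, hu1⟩
  | succ m ih =>
    obtain ⟨t0, ht0, u, hu, hu0, hu1⟩ := ih (half_pos hδ)
    have hmem : t0 ∈ Icc (0:ℝ) t0 := ⟨ht0.1.le, le_rfl⟩
    obtain ⟨τ, h0, h1, v, hv, hv0, hv1⟩ := base (m + 1) t0 (δ / 2) (u t0) (half_pos hδ)
      (hu.dm t0 hmem) (hu.sy t0 hmem) (lec_summable_gain hω (hu.dm t0 hmem) hu1)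
    refine ⟨t0 + τ, ⟨by linarith [ht0.1], by linarith [ht0.2]⟩,
      fun t => if t ≤ t0 then u t else v t, hu.lec_glue hv ht0.1.le (by linarith) hv0.symm, ?_, ?_⟩
    · simp only [if_pos ht0.1.le]; exact hu0
    · have : ¬ (t0 + τ ≤ t0) := by linarith
      simp only [if_neg this]
      exact hv1

theorem lec_norm_U0_le (g g1 : CI H) : ‖U0 g g1‖ ≤ ‖g‖ + ‖g1‖ := by
  have h1 : ‖U0 g g1‖ = ‖(((g, g1, 0), (0, 0, 0)) : Xn H)‖ := by
    unfold U0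
    exact lp.norm_single (by norm_num) 0 _
  rw [h1, Prod.norm_mk, Prod.norm_mk, Prod.norm_mk, Prod.norm_mk, Prod.norm_mk]
  simp only [norm_zero, max_self]
  have hg := norm_nonneg g
  have hg1 := norm_nonneg g1
  refine max_le (max_le (by linarith) (max_le (by linarith) (by linarith))) (by linarith)

theorem lec_U0_apply_ne (g g1 : CI H) {n : ℤ} (hn : n ≠ 0) : U0 g g1 n = 0 := by
  unfold U0
  exact lp.single_apply_ne _ _ _ hn

theorem lec_U0_apply_zero (g g1 : CI H) : U0 g g1 0 = (((g, g1, 0), (0, 0, 0)) : Xn H) := by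
  unfold U0
  exact lp.single_apply_self _ _ _

theorem lec_Sy_U0 {g g1 : CI H} (hg : star g = g) (hg1 : star g1 = g1) : Sy (U0 g g1) := by
  intro n
  by_cases hn : n = 0
  · subst hn
    rw [neg_zero, lec_U0_apply_zero]
    simp only [Prod.star_def, hg, hg1, star_zero]
  · rw [lec_U0_apply_ne g g1 hn, lec_U0_apply_ne g g1 (neg_ne_zero.2 hn), star_zero]

theorem lec_continuousOn_U0 {g g1 : ℝ → CI H} {s : Set ℝ} (hg : ContinuousOn g s) (hg1 : ContinuousOn g1 s) :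
    ContinuousOn (fun t => U0 (g t) (g1 t)) s := by
  rw [Metric.continuousOn_iff] at *
  intro t ht ε hε
  obtain ⟨d1, hd1, h1⟩ := hg t ht (ε / 2) (half_pos hε)
  obtain ⟨d2, hd2, h2⟩ := hg1 t ht (ε / 2) (half_pos hε)
  refine ⟨min d1 d2, lt_min hd1 hd2, fun r hr hrt => ?_⟩
  have e1 := h1 r hr (hrt.trans_le (min_le_left _ _))
  have e2 := h2 r hr (hrt.trans_le (min_le_right _ _))
  rw [dist_eq_norm] at e1 e2 ⊢
  have e3 : U0 (g r) (g1 r) - U0 (g t) (g1 t) = U0 (g r - g t) (g1 r - g1 t) := by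
    ext1
    funext n
    by_cases hn : n = 0
    · subst hn
      rw [lp.coeFn_sub, Pi.sub_apply, lec_U0_apply_zero, lec_U0_apply_zero, lec_U0_apply_zero]
      simp only [Prod.mk_sub_mk, sub_zero]
    · rw [lp.coeFn_sub, Pi.sub_apply, lec_U0_apply_ne _ _ hn, lec_U0_apply_ne _ _ hn, lec_U0_apply_ne _ _ hn,
        sub_zero]
  rw [e3]
  have e4 := lec_norm_U0_le (g r - g t) (g1 r - g1 t)
  linarith

theorem lec_pow_weight_le {β : ℝ} (hβ : 0 < β) (hβ1 : β ≤ 1) (m : ℕ) (n : ℤ) :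
    Wp m n ≤ (β⁻¹) ^ m * (1 + β * |(n : ℝ)|) ^ m := by
  rw [← mul_pow]
  unfold Wp
  refine pow_le_pow_left₀ (by positivity) ?_ m
  have h1 : (1:ℝ) ≤ β⁻¹ := one_le_inv₀ hβ |>.2 hβ1
  rw [mul_add, mul_one, ← mul_assoc, inv_mul_cancel₀ hβ.ne', one_mul]
  linarith

theorem lec_weight_le_Wp {β : ℝ} (hβ : 0 ≤ β) (hβ1 : β ≤ 1) (m : ℕ) (n : ℤ) :
    (1 + β * |(n : ℝ)|) ^ m ≤ Wp m n := by
  unfold Wp
  refine pow_le_pow_left₀ (by positivity) ?_ m
  have := mul_le_mul_of_nonneg_right hβ1 (abs_nonneg (n : ℝ))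
  linarith

/-- small weights do not change the norm much -/
theorem lec_exists_beta {a : ℤ → ℝ} (ha : ∀ n, 0 ≤ a n) {m : ℕ} (hs : Summable fun n => Wp m n * a n)
    {ε : ℝ} (hε : 0 < ε) : ∃ β, 0 < β ∧ β ≤ 1 ∧ (Summable fun n : ℤ => (1 + β * |(n : ℝ)|) ^ m * a n) ∧
      ∑' n : ℤ, (1 + β * |(n : ℝ)|) ^ m * a n ≤ (∑' n, a n) + ε := by
  have h1 : Tendsto (fun β : ℝ => ∑' n : ℤ, (1 + β * |(n : ℝ)|) ^ m * a n) (𝓝[>] 0)
      (𝓝 (∑' n : ℤ, (1 + 0 * |(n : ℝ)|) ^ m * a n)) := by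
    refine tendsto_tsum_of_dominated_convergence hs (fun n => ?_) ?_
    · have : Continuous fun β : ℝ => (1 + β * |(n : ℝ)|) ^ m * a n := by fun_prop
      exact (this.tendsto 0).mono_left nhdsWithin_le_nhds
    · have : ∀ᶠ β : ℝ in 𝓝[>] 0, β ∈ Ioc (0:ℝ) 1 := Ioc_mem_nhdsGT zero_lt_one
      filter_upwards [this] with β hβ n
      rw [Real.norm_eq_abs, abs_of_nonneg (mul_nonneg (by have := hβ.1; positivity) (ha n))]
      exact mul_le_mul_of_nonneg_right (lec_weight_le_Wp hβ.1.le hβ.2 m n) (ha n)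
  have h2 : ∑' n : ℤ, (1 + 0 * |(n : ℝ)|) ^ m * a n = ∑' n, a n := by
    congr 1
    funext n
    rw [zero_mul, add_zero, one_pow, one_mul]
  rw [h2] at h1
  have h3 : ∀ᶠ β : ℝ in 𝓝[>] 0, β ∈ Ioc (0:ℝ) 1 := Ioc_mem_nhdsGT zero_lt_one
  have h4 : ∀ᶠ β : ℝ in 𝓝[>] 0, ∑' n : ℤ, (1 + β * |(n : ℝ)|) ^ m * a n < (∑' n, a n) + ε :=
    h1.eventually_lt_const (by linarith)
  obtain ⟨β, hβ, hβ'⟩ := (h3.and h4).exists
  refine ⟨β, hβ.1, hβ.2, ?_, hβ'.le⟩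
  exact Summable.of_nonneg_of_le (fun n => mul_nonneg (by have := hβ.1; positivity) (ha n))
    (fun n => mul_le_mul_of_nonneg_right (lec_weight_le_Wp hβ.1.le hβ.2 m n) (ha n)) hs

/-- Local existence in the space with many derivatives in `y`; the lifespan is controlled by the low
norm. -/
theorem LEhigh (H : ℝ) [Fact (0 < H)] (hdir : ∃ S D A : ℝ → (CI H →L[ℂ] CI H), DirSG H S D A) :
    ∃ c > 0, ∀ (ω s τ R : ℝ) (m : ℕ) (g g1 : ℝ → CI H) (x0 : L1 (Xn H)), 0 < τ → τ ≤ 1 → 0 ≤ R →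
      ContinuousOn g (Icc s (s + τ)) → ContinuousOn g1 (Icc s (s + τ)) →
      (∀ t ∈ Icc s (s + τ), ‖g t‖ + ‖g1 t‖ ≤ R ∧ star (g t) = g t ∧ star (g1 t) = g1 t) →
      (∀ n : ℤ, Dmode (ω * n) (x0 n)) → Sy x0 → (Summable fun n => Wp m n * ‖x0 n‖) →
      √τ * (R + ‖jL H x0‖) ≤ c →
      ∃ u : ℝ → L1 (Xn H), PT ω s (s + τ) (fun t => U0 (g t) (g1 t)) (fun _ => 0) u ∧ u s = x0 ∧
        ∃ R', ∀ t ∈ Icc s (s + τ), Summable (fun n => Wp m n * ‖u t n‖) ∧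
          ∑' n, Wp m n * ‖u t n‖ ≤ R' := by
  obtain ⟨c, hc, K, hK, hLE⟩ := LEPT H hdir
  refine ⟨c / 2, half_pos hc, ?_⟩
  intro ω s τ R m g g1 x0 hτ hτ1 hR hg hg1 hgb hd hs hsum hle
  have hsq : 0 < √τ := Real.sqrt_pos.2 hτ
  have hsumj : Summable fun n => Wp m n * ‖jn (x0 n)‖ :=
    Summable.of_nonneg_of_le (fun n => mul_nonneg (lec_Wp_nonneg _ _) (norm_nonneg _))
      (fun n => mul_le_mul_of_nonneg_left (lec_norm_jn_le' _) (lec_Wp_nonneg _ _)) hsum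
  obtain ⟨β, hβ, hβ1, hβs, hβle⟩ := lec_exists_beta (fun n => norm_nonneg (jn (x0 n))) hsumj
    (ε := c / 2 / √τ) (by positivity)
  rw [← lec_norm_jL_eq] at hβle
  obtain ⟨u, hu, hu0, -, hu2⟩ := hLE ω s τ R 0 _ (fun n : ℤ => (1 + β * |(n : ℝ)|) ^ m)
    (fun t => U0 (g t) (g1 t)) (fun _ => 0) x0 hτ hτ1 hR le_rfl (lec_Wt1_pow hβ.le m)
    (lec_continuousOn_U0 hg hg1) continuousOn_const
    (fun t ht => ⟨(lec_norm_U0_le _ _).trans (hgb t ht).1, by rw [norm_zero],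
      lec_Sy_U0 (hgb t ht).2.1 (hgb t ht).2.2, lec_Sy_zero_Y, fun n hn => ⟨lec_U0_apply_ne _ _ (by
        rintro rfl
        exact hn (by simp)), rfl⟩⟩)
    hd hs hβs.hasSum (by
      rw [mul_zero, add_zero]
      calc √τ * (R + ∑' n : ℤ, (1 + β * |(n : ℝ)|) ^ m * ‖jn (x0 n)‖)
          ≤ √τ * (R + (‖jL H x0‖ + c / 2 / √τ)) := by gcongr
        _ = √τ * (R + ‖jL H x0‖) + c / 2 := by field_simp; ring
        _ ≤ c := by linarith)
  refine ⟨u, hu, hu0, β⁻¹ ^ m * (K * ((∑' n : ℤ, (1 + β * |(n : ℝ)|) ^ m * ‖x0 n‖) + √τ * 0)), ?_⟩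
  intro t ht
  have hsw : Summable fun n : ℤ => (1 + β * |(n : ℝ)|) ^ m * ‖x0 n‖ :=
    Summable.of_nonneg_of_le (fun n => by positivity)
      (fun n => mul_le_mul_of_nonneg_right (lec_weight_le_Wp hβ.le hβ1 m n) (norm_nonneg _)) hsum
  obtain ⟨e1, e2⟩ := hu2 hsw t ht
  have e3 : ∀ n : ℤ, Wp m n * ‖u t n‖ ≤ β⁻¹ ^ m * ((1 + β * |(n : ℝ)|) ^ m * ‖u t n‖) := by
    intro n
    rw [← mul_assoc]
    exact mul_le_mul_of_nonneg_right (lec_pow_weight_le hβ hβ1 m n) (norm_nonneg _)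
  have e4 : Summable fun n => Wp m n * ‖u t n‖ :=
    Summable.of_nonneg_of_le (fun n => mul_nonneg (lec_Wp_nonneg _ _) (norm_nonneg _)) e3 (e1.mul_left _)
  refine ⟨e4, ?_⟩
  calc ∑' n, Wp m n * ‖u t n‖ ≤ ∑' n : ℤ, β⁻¹ ^ m * ((1 + β * |(n : ℝ)|) ^ m * ‖u t n‖) :=
        Summable.tsum_le_tsum e3 e4 (e1.mul_left _)
    _ = β⁻¹ ^ m * ∑' n : ℤ, (1 + β * |(n : ℝ)|) ^ m * ‖u t n‖ := tsum_mul_left
    _ ≤ _ := by gcongr

/-- Small perturbations of bounded backgrounds. -/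
theorem small_data (H : ℝ) [Fact (0 < H)] (hdir : ∃ S D A : ℝ → (CI H →L[ℂ] CI H), DirSG H S D A)
    {R : ℝ} (hR : 0 ≤ R) : ∃ μ > 0, ∃ K, 1 ≤ K ∧ ∀ (ω a b : ℝ) (U : ℝ → L1 (Xn H)) (x0 : L1 (Xn H)),
      a < b → b ≤ a + 1 → ContinuousOn U (Icc a b) → (∀ t ∈ Icc a b, ‖U t‖ ≤ R ∧ Sy (U t)) →
      (∀ n : ℤ, Dmode (ω * n) (x0 n)) → Sy x0 → ‖jL H x0‖ ≤ μ →
      ∃ u : ℝ → L1 (Xn H), PT ω a b U (fun _ => 0) u ∧ u a = x0 ∧
        (∀ t ∈ Icc a b, ‖jL H (u t)‖ ≤ K * ‖jL H x0‖) ∧ √(b - a) * ‖u b‖ ≤ K * ‖jL H x0‖ := by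
  obtain ⟨c, hc, K, hK, hLE⟩ := LEPT H hdir
  obtain ⟨N, hN⟩ := exists_nat_gt (((R + 1) / c) ^ 2)
  have hK0 : 0 < K := by linarith
  have hN0 : (0:ℝ) < N := lt_of_le_of_lt (by positivity) hN
  have hN1 : (1:ℝ) ≤ N := by
    have : 0 < N := by exact_mod_cast hN0
    exact_mod_cast this
  refine ⟨(K ^ N)⁻¹, by positivity, N * K ^ N, ?_, ?_⟩
  · have := one_le_pow₀ hK (n := N)
    nlinarith
  intro ω a b U x0 hab hba hU hUb hd hs hx0
  have hstep : ∀ (s τ : ℝ) (x : L1 (Xn H)), a ≤ s → s + τ ≤ b → 0 < τ → τ ≤ 1 / N →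
      (∀ n : ℤ, Dmode (ω * n) (x n)) → Sy x → ‖jL H x‖ ≤ 1 →
      ∃ u : ℝ → L1 (Xn H), PT ω s (s + τ) U (fun _ => 0) u ∧ u s = x ∧
        (∀ t ∈ Icc s (s + τ), ‖jL H (u t)‖ ≤ K * ‖jL H x‖) ∧
        √τ * ‖u (s + τ)‖ ≤ K * ‖jL H x‖ := by
    intro s τ x has hsb hτ hτN hd hs hx
    have hsub : Icc s (s + τ) ⊆ Icc a b := Icc_subset_Icc has hsb
    have hτ1 : τ ≤ 1 := hτN.trans (by rw [div_le_one hN0]; exact hN1)
    have hsq : √τ * (R + 1) ≤ c := by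
      have h1 : √τ ≤ c / (R + 1) := by
        rw [Real.sqrt_le_left (by positivity)]
        refine hτN.trans ?_
        rw [div_pow, div_le_div_iff₀ hN0 (by positivity), one_mul]
        rw [div_pow, div_lt_iff₀ (by positivity)] at hN
        linarith
      rwa [le_div_iff₀ (by linarith)] at h1
    obtain ⟨u, hu, hu0, hu1, -⟩ := hLE ω s τ R 0 ‖jL H x‖ (fun _ => 1) U (fun _ => 0) x hτ hτ1 hR
      le_rfl lec_Wt1_one (hU.mono hsub) continuousOn_const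
      (fun t ht => ⟨(hUb t (hsub ht)).1, by rw [norm_zero], (hUb t (hsub ht)).2, lec_Sy_zero_Y,
        fun n hn => absurd rfl hn⟩) hd hs
      (by
        rw [lec_norm_jL_eq]
        simpa only [one_mul] using (lec_summable_jn x).hasSum)
      (by
        rw [mul_zero, add_zero]
        refine le_trans ?_ hsq
        gcongr)
    refine ⟨u, hu, hu0, ?_, ?_⟩
    · intro t ht
      rcases eq_or_lt_of_le ht.1 with h | h
      · rw [← h, hu0]
        exact le_mul_of_one_le_left (norm_nonneg _) hK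
      · have h2 := (hu1 t ⟨h, ht.2⟩).2.2
        rw [mul_zero, add_zero] at h2
        simp only [one_mul] at h2
        rwa [← lec_norm_jL_eq] at h2
    · have h2 := (hu1 (s + τ) ⟨by linarith, le_rfl⟩).2.1
      rw [mul_zero, add_zero, add_sub_cancel_left] at h2
      simp only [one_mul] at h2
      rwa [← l1_norm] at h2
  set τ : ℝ := (b - a) / N with hτdef
  have hτ : 0 < τ := div_pos (by linarith) hN0
  have hτN : τ ≤ 1 / N := by
    rw [hτdef]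
    gcongr
    linarith
  have hNτ : N * τ = b - a := by rw [hτdef]; field_simp
  have hKN : ∀ j : ℕ, j ≤ N → K ^ j * ‖jL H x0‖ ≤ 1 := by
    intro j hj
    calc K ^ j * ‖jL H x0‖ ≤ K ^ N * (K ^ N)⁻¹ := by
          gcongr
      _ = 1 := mul_inv_cancel₀ (by positivity)
  have main : ∀ j : ℕ, 1 ≤ j → j ≤ N → ∃ u : ℝ → L1 (Xn H), PT ω a (a + j * τ) U (fun _ => 0) u ∧
      u a = x0 ∧ (∀ t ∈ Icc a (a + j * τ), ‖jL H (u t)‖ ≤ K ^ j * ‖jL H x0‖) ∧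
      √τ * ‖u (a + j * τ)‖ ≤ K ^ j * ‖jL H x0‖ := by
    intro j hj1
    induction j, hj1 using Nat.le_induction with
    | base =>
      intro _
      have h1 : 1 * τ ≤ N * τ := by gcongr
      obtain ⟨u, hu, hu0, hu1, hu2⟩ := hstep a τ x0 le_rfl (by linarith) hτ hτN hd hs
        (by simpa using hKN 0 (Nat.zero_le _))
      refine ⟨u, ?_, hu0, ?_, ?_⟩
      · simpa using hu
      · simpa using hu1
      · simpa using hu2
    | succ j hj ih =>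
      intro hjN'
      obtain ⟨u, hu, hu0, hu1, -⟩ := ih (by omega)
      have hjN : ((j : ℝ) + 1) ≤ N := by exact_mod_cast hjN'
      have hjτ : 0 ≤ (j : ℝ) * τ := by positivity
      have hmem : a + j * τ ∈ Icc a (a + j * τ) := ⟨by linarith, le_rfl⟩
      have h1 : ((j : ℝ) + 1) * τ ≤ N * τ := by gcongr
      have heq : a + ((j + 1 : ℕ) : ℝ) * τ = a + j * τ + τ := by push_cast; ring
      obtain ⟨v, hv, hv0, hv1, hv2⟩ := hstep (a + j * τ) τ (u (a + j * τ)) (by linarith)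
        (by linarith) hτ hτN (hu.dm _ hmem) (hu.sy _ hmem)
        ((hu1 _ hmem).trans (hKN j (by omega)))
      have h2 : ∀ r : ℝ, r ≤ K * ‖jL H (u (a + j * τ))‖ → r ≤ K ^ (j + 1) * ‖jL H x0‖ := by
        intro r hr
        refine hr.trans ?_
        rw [pow_succ']
        calc K * ‖jL H (u (a + j * τ))‖ ≤ K * (K ^ j * ‖jL H x0‖) := by
              gcongr
              exact hu1 _ hmem
          _ = _ := by ring
      refine ⟨fun t => if t ≤ a + j * τ then u t else v t, ?_, ?_, ?_, ?_⟩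
      · rw [heq]
        exact hu.lec_glue hv (by linarith) (by linarith) hv0.symm
      · simp only [if_pos (show a ≤ a + j * τ by linarith)]; exact hu0
      · intro t ht
        rw [heq] at ht
        by_cases h3 : t ≤ a + j * τ
        · simp only [if_pos h3]
          refine (hu1 t ⟨ht.1, h3⟩).trans ?_
          gcongr
          omega
        · simp only [if_neg h3]
          exact h2 _ (hv1 t ⟨(not_le.1 h3).le, ht.2⟩)
      · rw [heq]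
        have h3 : ¬ (a + j * τ + τ ≤ a + j * τ) := by linarith
        simp only [if_neg h3]
        exact h2 _ hv2
  obtain ⟨u, hu, hu0, hu1, hu2⟩ := main N (by exact_mod_cast hN1) le_rfl
  rw [hNτ, add_sub_cancel] at hu hu1 hu2
  have hx0n := norm_nonneg (jL H x0)
  have hKN0 : 0 < K ^ N := by positivity
  refine ⟨u, hu, hu0, ?_, ?_⟩
  · intro t ht
    refine (hu1 t ht).trans ?_
    have : K ^ N * ‖jL H x0‖ ≤ N * (K ^ N * ‖jL H x0‖) := le_mul_of_one_le_left (by positivity) hN1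
    linarith
  · have e1 : √(b - a) = √N * √τ := by rw [← hNτ, Real.sqrt_mul hN0.le]
    have e2 : √(N:ℝ) ≤ N := by
      rw [Real.sqrt_le_left hN0.le]
      nlinarith
    calc √(b - a) * ‖u b‖ = √N * (√τ * ‖u b‖) := by rw [e1]; ring
      _ ≤ N * (K ^ N * ‖jL H x0‖) := by gcongr
      _ = _ := by ring

end

end Pool.Agent.Lib.MP_79abb3_an.P25
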