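import Pool.Agent.Lib.MP_79abb3_an.P25.EnDef

/-!
EN-3a: inequalities for weighted norms.
-/

set_option autoImplicit false
set_option linter.unusedSectionVars false

open MeasureTheory Set Filter Topology Function

namespace Pool.Agent.Lib.MP_79abb3_an.P25

section
variable {H : ℝ} [hH : Fact (0 < H)]

theorem inn_integrable (b : ℝ) (f g : CI H) (x y : ℝ) : IntervalIntegrable
    (fun z => Real.exp (2 * b * z) * (ex f z * star (ex g z)).re) volume x y := by
  have hf := continuous_ex f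
  have hg := continuous_ex g
  refine Continuous.intervalIntegrable (Continuous.mul (by fun_prop) ?_) _ _
  exact Complex.continuous_re.comp (hf.mul (continuous_star.comp hg))

theorem nrm_integrable (b : ℝ) (f : CI H) (x y : ℝ) : IntervalIntegrable
    (fun z => Real.exp (2 * b * z) * ‖ex f z‖ ^ 2) volume x y := by
  have hf := continuous_ex f
  exact Continuous.intervalIntegrable (by fun_prop) _ _

theorem re_mul_star_self (z : ℂ) : (z * star z).re = ‖z‖ ^ 2 := by
  rw [Complex.star_def, Complex.mul_conj, Complex.ofReal_re, Complex.normSq_eq_norm_sq]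

theorem inn_self (b : ℝ) (f : CI H) :
    inn b f f = ∫ z in (0:ℝ)..H, Real.exp (2 * b * z) * ‖ex f z‖ ^ 2 := by
  unfold inn
  simp only [re_mul_star_self]

theorem nrm_eq (b : ℝ) (f : CI H) : nrm b f = √(inn b f f) := by rw [inn_self]; rfl

theorem inn_self_nonneg (b : ℝ) (f : CI H) : 0 ≤ inn b f f := by
  rw [inn_self]
  exact intervalIntegral.integral_nonneg hH.out.le fun z _ => by positivity

theorem inn_symm (b : ℝ) (f g : CI H) : inn b f g = inn b g f := by
  unfold inn
  refine intervalIntegral.integral_congr fun z _ => ?_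
  have : (ex f z * star (ex g z)).re = (ex g z * star (ex f z)).re := by
    simp only [Complex.star_def, Complex.mul_re, Complex.conj_re, Complex.conj_im]
    ring
  simp only [this]

theorem inn_add_left (b : ℝ) (f g h : CI H) : inn b (f + g) h = inn b f h + inn b g h := by
  unfold inn
  rw [← intervalIntegral.integral_add (inn_integrable b f h _ _) (inn_integrable b g h _ _)]
  refine intervalIntegral.integral_congr fun z _ => ?_
  simp only [ex_add, add_mul, Complex.add_re, mul_add]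

theorem inn_rsmul_left (b c : ℝ) (f h : CI H) : inn b (c • f) h = c * inn b f h := by
  unfold inn
  rw [← intervalIntegral.integral_const_mul]
  refine intervalIntegral.integral_congr fun z _ => ?_
  simp only [ex_rsmul, mul_assoc, Complex.re_ofReal_mul]
  ring

/-! EN-3: inequalities for weighted norms. -/

theorem nrm_sq (b : ℝ) (f : CI H) : nrm b f ^ 2 = ∫ z in (0:ℝ)..H, Real.exp (2 * b * z) * ‖ex f z‖ ^ 2 := by
  rw [nrm_eq, Real.sq_sqrt (inn_self_nonneg b f), inn_self]

theorem nrm_sq' (b : ℝ) (f : CI H) : nrm b f ^ 2 = inn b f f := by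
  rw [nrm_eq, Real.sq_sqrt (inn_self_nonneg b f)]

theorem nrm_nonneg (b : ℝ) (f : CI H) : 0 ≤ nrm b f := Real.sqrt_nonneg _

theorem inn_le (b : ℝ) (f g : CI H) : |inn b f g| ≤ nrm b f * nrm b g := by
  have h0 : ∀ t : ℝ, 0 ≤ inn b g g * (t * t) + (2 * inn b f g) * t + inn b f f := by
    intro t
    have h1 := inn_self_nonneg b (f + t • g)
    rw [inn_add_left, inn_rsmul_left, inn_symm b f (f + t • g), inn_symm b g (f + t • g),
      inn_add_left, inn_add_left, inn_rsmul_left, inn_rsmul_left, inn_symm b g f] at h1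
    nlinarith
  have h2 := discrim_le_zero h0
  rw [discrim] at h2
  have h3 : inn b f g ^ 2 ≤ inn b f f * inn b g g := by nlinarith
  rw [nrm_eq, nrm_eq, ← Real.sqrt_mul (inn_self_nonneg b f)]
  exact Real.abs_le_sqrt h3

theorem nrm_add (b : ℝ) (f g : CI H) : nrm b (f + g) ≤ nrm b f + nrm b g := by
  have hf := nrm_nonneg b f
  have hg := nrm_nonneg b g
  refine abs_le_of_sq_le_sq' ?_ (add_nonneg hf hg) |>.2
  rw [nrm_sq', inn_add_left, inn_symm b f (f + g), inn_symm b g (f + g), inn_add_left,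
    inn_add_left, inn_symm b g f, ← nrm_sq', ← nrm_sq']
  have := (abs_le.1 (inn_le b f g)).2
  nlinarith

theorem nrm_smul (b : ℝ) (c : ℂ) (f : CI H) : nrm b (c • f) = ‖c‖ * nrm b f := by
  have h1 : (∫ z in (0:ℝ)..H, Real.exp (2 * b * z) * ‖ex (c • f) z‖ ^ 2) =
      ‖c‖ ^ 2 * ∫ z in (0:ℝ)..H, Real.exp (2 * b * z) * ‖ex f z‖ ^ 2 := by
    rw [← intervalIntegral.integral_const_mul]
    refine intervalIntegral.integral_congr fun z _ => ?_
    simp only [ex_smul, norm_mul, mul_pow]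
    ring
  rw [nrm, h1, Real.sqrt_mul (sq_nonneg _), Real.sqrt_sq (norm_nonneg _)]
  rfl

theorem nrm_rsmul (b c : ℝ) (f : CI H) : nrm b (c • f) = |c| * nrm b f := by
  have h : c • f = (c : ℂ) • f := by
    apply ci_ext
    intro z _
    rw [ex_rsmul, ex_smul]
  rw [h, nrm_smul, Complex.norm_real, Real.norm_eq_abs]

theorem nrm_neg (b : ℝ) (f : CI H) : nrm b (-f) = nrm b f := by
  unfold nrm
  simp only [ex_neg, norm_neg]

theorem nrm_mono {b : ℝ} {f g : CI H} {C : ℝ} (hC : 0 ≤ C)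
    (h : ∀ z ∈ Icc (0:ℝ) H, ‖ex f z‖ ≤ C * ‖ex g z‖) : nrm b f ≤ C * nrm b g := by
  have h1 : (∫ z in (0:ℝ)..H, Real.exp (2 * b * z) * ‖ex f z‖ ^ 2) ≤
      C ^ 2 * ∫ z in (0:ℝ)..H, Real.exp (2 * b * z) * ‖ex g z‖ ^ 2 := by
    rw [← intervalIntegral.integral_const_mul]
    refine intervalIntegral.integral_mono_on hH.out.le (nrm_integrable b f _ _)
      ((nrm_integrable b g _ _).const_mul _) fun z hz => ?_
    have h2 := h z hz
    have h3 : ‖ex f z‖ ^ 2 ≤ (C * ‖ex g z‖) ^ 2 := pow_le_pow_left₀ (norm_nonneg _) h2 2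
    have h4 := mul_le_mul_of_nonneg_left h3 (Real.exp_pos (2 * b * z)).le
    calc _ ≤ _ := h4
      _ = _ := by ring
  rw [nrm, nrm]
  calc _ ≤ √(C ^ 2 * ∫ z in (0:ℝ)..H, Real.exp (2 * b * z) * ‖ex g z‖ ^ 2) := Real.sqrt_le_sqrt h1
    _ = _ := by rw [Real.sqrt_mul (sq_nonneg _), Real.sqrt_sq hC]

theorem nrm_mul_le {b : ℝ} {f g : CI H} {C : ℝ} (hC : 0 ≤ C) (h : ∀ z ∈ Icc (0:ℝ) H, ‖ex f z‖ ≤ C) :
    nrm b (f * g) ≤ C * nrm b g := by
  refine nrm_mono hC fun z hz => ?_
  rw [ex_mul, norm_mul]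
  exact mul_le_mul_of_nonneg_right (h z hz) (norm_nonneg _)

theorem nrm_le_abs (b : ℝ) (f : CI H) : nrm b f ≤ √H * Real.exp (|b| * H) * ‖f‖ := by
  have hH0 := hH.out
  have h1 : (∫ z in (0:ℝ)..H, Real.exp (2 * b * z) * ‖ex f z‖ ^ 2) ≤
      ∫ z in (0:ℝ)..H, (Real.exp (|b| * H) * ‖f‖) ^ 2 := by
    refine intervalIntegral.integral_mono_on hH0.le (nrm_integrable b f _ _)
      (by simp) fun z hz => ?_
    rw [mul_pow, ← Real.exp_nat_mul]
    have h2 : 2 * b * z ≤ ((2 : ℕ) : ℝ) * (|b| * H) := by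
      push_cast
      have h3 : b * z ≤ |b| * H := by
        calc b * z ≤ |b| * z := mul_le_mul_of_nonneg_right (le_abs_self b) hz.1
          _ ≤ |b| * H := mul_le_mul_of_nonneg_left hz.2 (abs_nonneg b)
      linarith
    exact mul_le_mul (Real.exp_le_exp.2 h2) (pow_le_pow_left₀ (norm_nonneg _) (norm_ex_le f z) 2)
      (by positivity) (Real.exp_pos _).le
  rw [intervalIntegral.integral_const, smul_eq_mul, sub_zero] at h1
  rw [nrm]
  calc _ ≤ √(H * (Real.exp (|b| * H) * ‖f‖) ^ 2) := Real.sqrt_le_sqrt h1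
    _ = _ := by
      rw [Real.sqrt_mul hH0.le, Real.sqrt_sq (by positivity), mul_assoc]

theorem nrm_le {b : ℝ} (hb : 0 ≤ b) (f : CI H) : nrm b f ≤ √H * Real.exp (b * H) * ‖f‖ := by
  have := nrm_le_abs b f
  rwa [abs_of_nonneg hb] at this

theorem nrm_sub_abs (b : ℝ) (f g : CI H) : |nrm b f - nrm b g| ≤ nrm b (f - g) := by
  rw [abs_le]
  constructor
  · have := nrm_add b f (g - f)
    rw [add_sub_cancel, ← nrm_neg b (g - f), neg_sub] at this
    linarith
  · have := nrm_add b g (f - g)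
    rw [add_sub_cancel] at this
    linarith

/-- The function `z ↦ e^{bz}`. -/
noncomputable def expCI (H : ℝ) (b : ℝ) : CI H :=
  ContinuousMap.curry ⟨fun p : ℝ × Icc (0:ℝ) H => ((Real.exp (p.1 * (p.2 : ℝ)) : ℝ) : ℂ), by fun_prop⟩ b

theorem continuous_expCI : Continuous (expCI H) := ContinuousMap.continuous _

theorem ex_expCI (b : ℝ) {z : ℝ} (hz : z ∈ Icc (0:ℝ) H) :
    ex (expCI H b) z = ((Real.exp (b * z) : ℝ) : ℂ) := by
  rw [ex_apply _ hz]; rfl

theorem nrm_zero_eq (b : ℝ) (f : CI H) : nrm b f = nrm 0 (expCI H b * f) := by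
  unfold nrm
  congr 1
  refine intervalIntegral.integral_congr fun z hz => ?_
  rw [uIcc_of_le hH.out.le] at hz
  simp only [ex_mul, ex_expCI b hz, norm_mul, Complex.norm_real, Real.norm_eq_abs,
    abs_of_pos (Real.exp_pos _), mul_pow, mul_zero, zero_mul, Real.exp_zero, one_mul]
  rw [← Real.exp_nat_mul]
  congr 2
  push_cast
  ring

theorem nrm_zero_continuous : Continuous (fun f : CI H => nrm 0 f) := by
  rw [Metric.continuous_iff]
  intro f ε hε
  have hH0 := hH.out
  have hs : 0 < √H := Real.sqrt_pos.2 hH0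
  refine ⟨ε / √H, by positivity, fun g hg => ?_⟩
  rw [Real.dist_eq]
  rw [dist_eq_norm] at hg
  have h1 := nrm_sub_abs 0 g f
  have h2 := nrm_le_abs 0 (g - f)
  rw [abs_zero, zero_mul, Real.exp_zero, mul_one] at h2
  calc _ ≤ _ := h1
    _ ≤ _ := h2
    _ < √H * (ε / √H) := mul_lt_mul_of_pos_left hg hs
    _ = ε := by field_simp

theorem nrm_continuous : Continuous (fun p : ℝ × CI H => nrm p.1 p.2) := by
  have h : (fun p : ℝ × CI H => nrm p.1 p.2) =
      (fun f : CI H => nrm 0 f) ∘ fun p : ℝ × CI H => expCI H p.1 * p.2 := by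
    ext p
    exact nrm_zero_eq p.1 p.2
  rw [h]
  exact nrm_zero_continuous.comp ((continuous_expCI.comp continuous_fst).mul continuous_snd)

/-- The absolute value of `f`. -/
noncomputable def absCI (f : CI H) : CI H :=
  mkCI (fun z => ((‖ex f z‖ : ℝ) : ℂ)) (by
    have := continuous_ex f
    exact Continuous.continuousOn (by fun_prop))

theorem ex_absCI (f : CI H) {z : ℝ} (hz : z ∈ Icc (0:ℝ) H) :
    ex (absCI f) z = ((‖ex f z‖ : ℝ) : ℂ) := ex_mkCI _ hz

theorem nrm_absCI (b : ℝ) (f : CI H) : nrm b (absCI f) = nrm b f := by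
  unfold nrm
  congr 1
  refine intervalIntegral.integral_congr fun z hz => ?_
  rw [uIcc_of_le hH.out.le] at hz
  simp only [ex_absCI f hz, Complex.norm_real, norm_norm]

theorem inn_absCI (b : ℝ) (f g : CI H) : inn b (absCI f) (absCI g) =
    ∫ z in (0:ℝ)..H, Real.exp (2 * b * z) * (‖ex f z‖ * ‖ex g z‖) := by
  unfold inn
  refine intervalIntegral.integral_congr fun z hz => ?_
  rw [uIcc_of_le hH.out.le] at hz
  simp only [ex_absCI f hz, ex_absCI g hz, Complex.star_def, Complex.conj_ofReal,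
    ← Complex.ofReal_mul, Complex.ofReal_re]

theorem integral_norm_mul_le (b : ℝ) (f g : CI H) :
    ∫ z in (0:ℝ)..H, Real.exp (2 * b * z) * (‖ex f z‖ * ‖ex g z‖) ≤ nrm b f * nrm b g := by
  have := (abs_le.1 (inn_le b (absCI f) (absCI g))).2
  rwa [inn_absCI, nrm_absCI, nrm_absCI] at this

/-- Sup bound. -/
theorem sup_le {b : ℝ} (hb : 0 ≤ b) {f f1 : CI H} (hd : IsD f f1) (h0 : ex f 0 = 0) :
    ∀ z ∈ Icc (0:ℝ) H, ‖ex f z‖ ^ 2 ≤ 2 * (nrm b f * nrm b (f1 + b • f)) := by
  intro z hz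
  have hf := continuous_ex f
  have hf1 := continuous_ex f1
  have hg := continuous_ex (f1 + b • f)
  set F : ℝ → ℝ := fun x => Real.exp (2 * b * x) * ‖ex f x‖ ^ 2 with hF
  set F' : ℝ → ℝ := fun x => 2 * (Real.exp (2 * b * x) * (ex (f1 + b • f) x * star (ex f x)).re)
    with hF'
  have hFc : Continuous F := by fun_prop
  have hF'c : Continuous F' := by
    refine continuous_const.mul (Continuous.mul (by fun_prop) ?_)
    exact Complex.continuous_re.comp (hg.mul (continuous_star.comp hf))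
  have hder : ∀ x ∈ Ioo (0:ℝ) z, HasDerivAt F (F' x) x := by
    intro x hx
    have hx' : x ∈ Icc (0:ℝ) H := ⟨hx.1.le, hx.2.le.trans hz.2⟩
    have h1 : HasDerivAt (ex f) (ex f1 x) x :=
      (hd x hx').hasDerivAt (Icc_mem_nhds hx.1 (lt_of_lt_of_le hx.2 hz.2))
    have h2 := h1.norm_sq
    have h3 : HasDerivAt (fun x : ℝ => Real.exp (2 * b * x)) (Real.exp (2 * b * x) * (2 * b)) x := by
      have := ((hasDerivAt_id x).const_mul (2 * b)).exp
      simpa using this
    refine (h3.mul h2).congr_deriv ?_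
    simp only [hF', ex_add, ex_rsmul, Complex.inner, add_mul, Complex.add_re, mul_assoc,
      Complex.re_ofReal_mul, re_mul_star_self]
    have h4 : (ex f1 x * (starRingEnd ℂ) (ex f x)).re = (ex f1 x * star (ex f x)).re := rfl
    rw [h4]
    ring
  have hint : F z = ∫ x in (0:ℝ)..z, F' x := by
    rw [intervalIntegral.integral_eq_sub_of_hasDerivAt_of_le hz.1 hFc.continuousOn hder
      (hF'c.intervalIntegrable _ _)]
    have : F 0 = 0 := by simp [hF, h0]
    rw [this, sub_zero]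
  have hG : Continuous fun x : ℝ => Real.exp (2 * b * x) * (‖ex f x‖ * ‖ex (f1 + b • f) x‖) := by
    fun_prop
  have hle : (∫ x in (0:ℝ)..z, F' x) ≤
      ∫ x in (0:ℝ)..z, 2 * (Real.exp (2 * b * x) * (‖ex f x‖ * ‖ex (f1 + b • f) x‖)) := by
    refine intervalIntegral.integral_mono_on hz.1 (hF'c.intervalIntegrable _ _)
      ((hG.const_mul 2).intervalIntegrable _ _) fun x _ => ?_
    have h5 : (ex (f1 + b • f) x * star (ex f x)).re ≤ ‖ex f x‖ * ‖ex (f1 + b • f) x‖ := by
      refine (Complex.re_le_norm _).trans ?_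
      rw [norm_mul, norm_star, mul_comm]
    have h6 := mul_le_mul_of_nonneg_left h5 (Real.exp_pos (2 * b * x)).le
    simp only [hF']
    linarith
  have hle2 : (∫ x in (0:ℝ)..z, Real.exp (2 * b * x) * (‖ex f x‖ * ‖ex (f1 + b • f) x‖)) ≤
      ∫ x in (0:ℝ)..H, Real.exp (2 * b * x) * (‖ex f x‖ * ‖ex (f1 + b • f) x‖) := by
    refine intervalIntegral.integral_mono_interval le_rfl hz.1 hz.2 ?_ (hG.intervalIntegrable _ _)
    exact Filter.Eventually.of_forall fun x => by positivity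
  have hc : (∫ x in (0:ℝ)..z, 2 * (Real.exp (2 * b * x) * (‖ex f x‖ * ‖ex (f1 + b • f) x‖))) =
      2 * ∫ x in (0:ℝ)..z, Real.exp (2 * b * x) * (‖ex f x‖ * ‖ex (f1 + b • f) x‖) :=
    intervalIntegral.integral_const_mul _ _
  rw [hc] at hle
  have h7 := integral_norm_mul_le b f (f1 + b • f)
  have h8 : ‖ex f z‖ ^ 2 ≤ F z := by
    simp only [hF]
    refine le_mul_of_one_le_left (by positivity) (Real.one_le_exp ?_)
    have := mul_nonneg hb hz.1
    linarith
  rw [hint] at h8
  linarith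

end

end Pool.Agent.Lib.MP_79abb3_an.P25
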