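import Pool.Agent.Lib.MP_79abb3_an.P25.SumDef
import Pool.Agent.Lib.MP_79abb3_an.P25.Nrm

/-!
SA-4: the low norm and the initial energy.
-/

set_option autoImplicit false
set_option linter.unusedSectionVars false

open MeasureTheory Set Filter Topology Function

namespace Pool.Agent.Lib.MP_79abb3_an.P25

section
variable {H : ℝ} [hH : Fact (0 < H)]

theorem ln_En_nonneg (b θ : ℝ) (x : Xn H) : 0 ≤ En b θ x := Real.sqrt_nonneg _

theorem ln_Dn_nonneg (b θ : ℝ) (x : Xn H) : 0 ≤ Dn b θ x := Real.sqrt_nonneg _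

theorem ln_nrm_le_En (b θ : ℝ) (x : Xn H) : nrm b x.2.1 ≤ En b θ x := by
  rw [En]
  exact Real.le_sqrt_of_sq_le (le_add_of_nonneg_right (by positivity))

theorem ln_th_nrm_le_En (b θ : ℝ) (x : Xn H) : θ * nrm b x.1.1 ≤ En b θ x := by
  rw [En]
  refine Real.le_sqrt_of_sq_le ?_
  rw [mul_pow]
  exact le_add_of_nonneg_left (by positivity)

theorem ln_nrm_le_Dn (b θ : ℝ) (x : Xn H) : nrm b (x.2.2.1 + b • x.2.1) ≤ Dn b θ x := by
  rw [Dn]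
  refine Real.le_sqrt_of_sq_le ?_
  have h1 := sq_nonneg (nrm b x.2.2.2)
  have h2 : 0 ≤ θ ^ 2 * (nrm b (x.1.2.1 + b • x.1.1) ^ 2 + nrm b x.1.2.2 ^ 2) := by positivity
  linarith

theorem ln_th_nrm_le_Dn (b θ : ℝ) (x : Xn H) : θ * nrm b (x.1.2.1 + b • x.1.1) ≤ Dn b θ x := by
  rw [Dn]
  refine Real.le_sqrt_of_sq_le ?_
  have h1 : 0 ≤ nrm b (x.2.2.1 + b • x.2.1) ^ 2 + nrm b x.2.2.2 ^ 2 := by positivity
  have h2 : 0 ≤ θ ^ 2 * nrm b x.1.2.2 ^ 2 := by positivity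
  nlinarith

/-! SA-4: the low norm. -/

theorem jn_le {H : ℝ} [hH : Fact (0 < H)] {b θ k : ℝ} (hb : 0 ≤ b) (hθ : 0 < θ) {x : Xn H}
    (hx : Dmode k x) : ‖jn x‖ ≤ (1 + θ⁻¹) * √(2 * (En b θ x * Dn b θ x)) := by
  set R := 2 * (En b θ x * Dn b θ x) with hR
  have hE := ln_En_nonneg b θ x
  have hD := ln_Dn_nonneg b θ x
  have hθi : 0 < θ⁻¹ := inv_pos.2 hθ
  have hs := Real.sqrt_nonneg R
  have h1 : ‖x.2.1‖ ≤ √R := by
    refine ci_norm_le hs fun z hz => ?_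
    refine Real.le_sqrt_of_sq_le ((sup_le hb hx.d2 hx.z2 z hz).trans ?_)
    have := mul_le_mul (ln_nrm_le_En b θ x) (ln_nrm_le_Dn b θ x) (nrm_nonneg _ _) hE
    linarith
  have h2 : ‖x.1.1‖ ≤ θ⁻¹ * √R := by
    refine ci_norm_le (by positivity) fun z hz => ?_
    rw [inv_mul_eq_div, le_div_iff₀ hθ]
    refine Real.le_sqrt_of_sq_le ?_
    have h3 := sup_le hb hx.d1 hx.z1 z hz
    have h4 := mul_le_mul (ln_th_nrm_le_En b θ x) (ln_th_nrm_le_Dn b θ x)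
      (mul_nonneg hθ.le (nrm_nonneg _ _)) hE
    have h5 := mul_le_mul_of_nonneg_left h3 (sq_nonneg θ)
    calc (‖ex x.1.1 z‖ * θ) ^ 2 = θ ^ 2 * ‖ex x.1.1 z‖ ^ 2 := by ring
      _ ≤ _ := h5
      _ = 2 * (θ * nrm b x.1.1 * (θ * nrm b (x.1.2.1 + b • x.1.1))) := by ring
      _ ≤ R := by linarith
  refine max_le ?_ ?_
  · change ‖x.1.1‖ ≤ _
    nlinarith
  · change ‖x.2.1‖ ≤ _
    have := mul_nonneg hθi.le hs
    nlinarith

theorem ln_el_zero {ε : ℝ} (hε : 0 < ε) : el ε 0 = 1 := by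
  rw [el]
  have h : (0:ℝ) ^ 2 + ε ^ 2 = ε ^ 2 := by ring
  rw [h, Real.sqrt_sq hε.le, div_self hε.ne']

theorem ln_LL_zero {ε : ℝ} (hε : 0 < ε) : LL ε 0 = 1 := by
  rw [LL, ln_el_zero hε, Real.sqrt_zero, add_zero]

theorem ln_qq_zero (ε : ℝ) : qq ε 0 = 1 := by
  rw [qq]
  simp

/-- The initial energy does not depend on `ε`. -/
theorem Ye_zero {H : ℝ} [hH : Fact (0 < H)] {ε ω : ℝ} (hε : 0 < ε) (u : ℝ → L1 (Xn H)) (n : ℤ) :
    Ye ε ω u n 0 = (1 + 2 * la (ω * n)) ^ 61 * (1 + la (ω * n)) ^ 30 *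
      En (1 / 100) (7500 / (1 + la (ω * n))) (u 0 n) := by
  rw [Ye, ln_qq_zero, one_mul, WW, be, th, ln_LL_zero hε, ln_el_zero hε, Real.sqrt_zero]
  simp only [mul_one, mul_zero, add_zero, one_pow, div_one]

theorem ln_En_le {b θ : ℝ} (hb : 0 ≤ b) (hθ : 0 ≤ θ) (x : Xn H) :
    En b θ x ≤ (1 + θ) * (√H * Real.exp (b * H)) * ‖x‖ := by
  have h1 : ‖x.2.1‖ ≤ ‖x‖ := (norm_fst_le x.2).trans (norm_snd_le x)
  have h2 : ‖x.1.1‖ ≤ ‖x‖ := (norm_fst_le x.1).trans (norm_fst_le x)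
  have h3 := nrm_le hb x.2.1
  have h4 := nrm_le hb x.1.1
  have hC : 0 ≤ √H * Real.exp (b * H) := by positivity
  have h5 := nrm_nonneg b x.2.1
  have h6 := nrm_nonneg b x.1.1
  have h7 : nrm b x.2.1 ≤ √H * Real.exp (b * H) * ‖x‖ :=
    h3.trans (mul_le_mul_of_nonneg_left h1 hC)
  have h8 : nrm b x.1.1 ≤ √H * Real.exp (b * H) * ‖x‖ :=
    h4.trans (mul_le_mul_of_nonneg_left h2 hC)
  have h9 : En b θ x ≤ nrm b x.2.1 + θ * nrm b x.1.1 := by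
    rw [En]
    refine Real.sqrt_le_iff.2 ⟨by positivity, ?_⟩
    have := mul_nonneg h5 (mul_nonneg hθ h6)
    nlinarith
  have h10 := mul_le_mul_of_nonneg_left h8 hθ
  calc _ ≤ _ := h9
    _ ≤ √H * Real.exp (b * H) * ‖x‖ + θ * (√H * Real.exp (b * H) * ‖x‖) := add_le_add h7 h10
    _ = _ := by ring

theorem ln_Ye_zero_aux (ω : ℝ) (n : ℤ) : 0 ≤ (1 + 2 * la (ω * n)) ^ 61 * (1 + la (ω * n)) ^ 30 ∧
    (1 + 2 * la (ω * n)) ^ 61 * (1 + la (ω * n)) ^ 30 ≤ (1 + 200 * |ω|) ^ 91 * Wq 92 n := by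
  have hl : 0 ≤ la (ω * n) := by rw [la]; positivity
  refine ⟨by positivity, ?_⟩
  have hn := abs_nonneg (n : ℝ)
  have hw := abs_nonneg ω
  have hln : la (ω * n) = 100 * (|ω| * |(n : ℝ)|) := by rw [la, abs_mul]
  obtain ⟨A, hA⟩ : ∃ A : ℝ, A = (1 + 200 * |ω|) * (1 + |(n : ℝ)|) := ⟨_, rfl⟩
  have hA0 : 0 ≤ A := by rw [hA]; positivity
  have h1 : 1 + 2 * la (ω * n) ≤ A := by
    rw [hln, hA]; nlinarith [mul_nonneg hw hn]
  have h2 : 1 + la (ω * n) ≤ A := by linarith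
  have h3 : (1 + 2 * la (ω * n)) ^ 61 * (1 + la (ω * n)) ^ 30 ≤ A ^ 61 * A ^ 30 :=
    mul_le_mul (pow_le_pow_left₀ (by positivity) h1 61) (pow_le_pow_left₀ (by positivity) h2 30)
      (by positivity) (by positivity)
  have h4a : A ^ 61 * A ^ 30 = (1 + 200 * |ω|) ^ 91 * (1 + |(n : ℝ)|) ^ 91 := by
    rw [← pow_add, hA, mul_pow]
  have h4b : (1 + |(n : ℝ)|) ^ 91 ≤ Wq 92 n :=
    pow_le_pow_right₀ (le_add_of_nonneg_right hn) (Nat.le_succ 91)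
  rw [h4a] at h3
  exact h3.trans (mul_le_mul_of_nonneg_left h4b (by positivity))

theorem Ye_zero_summable {H : ℝ} [hH : Fact (0 < H)] {ω : ℝ} {x : L1 (Xn H)}
    (hx : Summable fun n => Wq 92 n * ‖x n‖) : Summable fun n : ℤ => (1 + 2 * la (ω * n)) ^ 61 *
      (1 + la (ω * n)) ^ 30 * En (1 / 100) (7500 / (1 + la (ω * n))) (x n) := by
  obtain ⟨P, hP⟩ : ∃ P : ℝ, P = (1 + 200 * |ω|) ^ 91 := ⟨_, rfl⟩
  have hP0 : 0 ≤ P := by rw [hP]; positivity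
  refine Summable.of_nonneg_of_le (fun n => mul_nonneg (ln_Ye_zero_aux ω n).1 (ln_En_nonneg _ _ _))
    (fun n => ?_) (hx.mul_left (P * (7501 * (√H * Real.exp (1 / 100 * H)))))
  have hl : 0 ≤ la (ω * n) := by rw [la]; positivity
  have hθ0 : 0 ≤ 7500 / (1 + la (ω * n)) := by positivity
  have hθ1 : 7500 / (1 + la (ω * n)) ≤ 7500 := div_le_self (by norm_num) (by linarith)
  have h5 := ln_En_le (b := 1 / 100) (by norm_num) hθ0 (x n)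
  have h6 : En (1 / 100) (7500 / (1 + la (ω * n))) (x n) ≤
      7501 * (√H * Real.exp (1 / 100 * H)) * ‖x n‖ := by
    refine h5.trans ?_
    gcongr
    linarith
  have h7 := (ln_Ye_zero_aux ω n).2
  rw [← hP] at h7
  have hW : 0 ≤ Wq 92 n := by unfold Wq; positivity
  calc _ ≤ (P * Wq 92 n) * (7501 * (√H * Real.exp (1 / 100 * H)) * ‖x n‖) :=
        mul_le_mul h7 h6 (ln_En_nonneg _ _ _) (mul_nonneg hP0 hW)
    _ = P * (7501 * (√H * Real.exp (1 / 100 * H))) * (Wq 92 n * ‖x n‖) := by ring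

end

end Pool.Agent.Lib.MP_79abb3_an.P25
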