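import Pool.Agent.Lib.MP_79abb3_an.P25.Apriori
import Pool.Agent.Lib.MP_79abb3_an.P25.LECons
import Pool.Agent.Lib.MP_79abb3_an.P25.LowNorm

/-!
Existence of the perturbation up to a time which does not depend on `ε` (SA-5).
-/

set_option autoImplicit false
set_option linter.unusedSectionVars false

open MeasureTheory Set Filter Topology Function

namespace Pool.Agent.Lib.MP_79abb3_an.P25

section
variable {H : ℝ} [hH : Fact (0 < H)]

theorem PT.exg_mono {ω a b a' b' : ℝ} {U : ℝ → L1 (Xn H)} {F : ℝ → L1 (Yn H)} {u : ℝ → L1 (Xn H)}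
    (h : PT ω a b U F u) (ha : a ≤ a') (hb : b' ≤ b) : PT ω a' b' U F u :=
  ⟨h.lt.mono ha hb (Subset.refl _) countable_empty, fun t ht => h.dm t ⟨ha.trans ht.1, ht.2.trans hb⟩,
    fun t ht => h.sy t ⟨ha.trans ht.1, ht.2.trans hb⟩⟩

/-- A perturbation on `[0,b]` with finite high norm. -/
def ExgGood (ω b : ℝ) (U : ℝ → L1 (Xn H)) (x0 : L1 (Xn H)) (u : ℝ → L1 (Xn H)) : Prop :=
  PT ω 0 b U (fun _ => 0) u ∧ u 0 = x0 ∧ ∃ R, ∀ t ∈ Icc 0 b, Summable (fun n => Wq 92 n * ‖u t n‖) ∧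
    ∑' n, Wq 92 n * ‖u t n‖ ≤ R

/-- one more step -/
theorem exg_step {ω b s τ : ℝ} {U : ℝ → L1 (Xn H)} {x0 : L1 (Xn H)} {u v : ℝ → L1 (Xn H)} {R' : ℝ}
    (hu : ExgGood ω b U x0 u) (hs : s ∈ Icc 0 b) (hτ : 0 ≤ τ)
    (hv : PT ω s (s + τ) U (fun _ => 0) v) (hv0 : v s = u s)
    (hv1 : ∀ t ∈ Icc s (s + τ), Summable (fun n => Wp 92 n * ‖v t n‖) ∧
      ∑' n, Wp 92 n * ‖v t n‖ ≤ R') :
    ExgGood ω (s + τ) U x0 (fun t => if t ≤ s then u t else v t) := by
  obtain ⟨h1, h2, R, h3⟩ := hu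
  refine ⟨(h1.exg_mono le_rfl hs.2).lec_glue hv hs.1 (by linarith) hv0.symm, ?_, max R R', ?_⟩
  · simp only [if_pos hs.1]; exact h2
  · intro t ht
    by_cases h : t ≤ s
    · simp only [if_pos h]
      obtain ⟨e1, e2⟩ := h3 t ⟨ht.1, h.trans hs.2⟩
      exact ⟨e1, e2.trans (le_max_left _ _)⟩
    · simp only [if_neg h]
      obtain ⟨e1, e2⟩ := hv1 t ⟨(not_le.1 h).le, ht.2⟩
      exact ⟨e1, e2.trans (le_max_right _ _)⟩

/-- Cauchy-Schwarz for sums -/
theorem exg_cs {a b : ℤ → ℝ} (ha : ∀ n, 0 ≤ a n) (hb : ∀ n, 0 ≤ b n) (sa : Summable a) (sb : Summable b) :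
    (Summable fun n => √(a n * b n)) ∧ ∑' n, √(a n * b n) ≤ √(∑' n, a n) * √(∑' n, b n) := by
  have h1 : Summable fun n => (a n + b n) := sa.add sb
  have h2 : Summable fun n => √(a n * b n) := by
    refine Summable.of_nonneg_of_le (fun n => Real.sqrt_nonneg _) (fun n => ?_) h1
    rw [Real.sqrt_le_left (by linarith [ha n, hb n])]
    nlinarith [ha n, hb n, mul_nonneg (ha n) (hb n), sq_nonneg (a n), sq_nonneg (b n)]
  refine ⟨h2, ?_⟩
  refine h2.tsum_le_of_sum_le fun s => ?_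
  calc ∑ n ∈ s, √(a n * b n) = ∑ n ∈ s, √(a n) * √(b n) :=
        Finset.sum_congr rfl fun n _ => Real.sqrt_mul (ha n) _
    _ ≤ √(∑ n ∈ s, √(a n) ^ 2) * √(∑ n ∈ s, √(b n) ^ 2) := Real.sum_mul_le_sqrt_mul_sqrt s _ _
    _ = √(∑ n ∈ s, a n) * √(∑ n ∈ s, b n) := by
        congr 2 <;> exact Finset.sum_congr rfl fun n _ => Real.sq_sqrt (by first | exact ha n | exact hb n)
    _ ≤ √(∑' n, a n) * √(∑' n, b n) := by
        gcongr
        · exact sa.sum_le_tsum s fun n _ => ha n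
        · exact sb.sum_le_tsum s fun n _ => hb n

theorem exg_En_nonneg (b θ : ℝ) (x : Xn H) : 0 ≤ En b θ x := Real.sqrt_nonneg _
theorem exg_Dn_nonneg (b θ : ℝ) (x : Xn H) : 0 ≤ Dn b θ x := Real.sqrt_nonneg _

/-- The low norm is controlled by energy and dissipation. -/
theorem exg_low {ε ω t : ℝ} (hε : 0 < ε) (ht : 0 ≤ t) (ht1 : t ≤ 1) (hε1 : ε ≤ 1)
    {u : ℝ → L1 (Xn H)} (hd : ∀ n : ℤ, Dmode (ω * n) (u t n))
    (sY : Summable fun n => Ye ε ω u n t) (sD : Summable fun n => De ε ω u n t) :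
    ‖jL H (u t)‖ ≤ (4 / ε) * (√(∑' n, Ye ε ω u n t) * √(∑' n, De ε ω u n t)) := by
  obtain ⟨hL0, -, hL1, hel, hel1, hL2⟩ := LL_bounds hε ht
  have hst : √t ≤ 1 := by rw [Real.sqrt_le_one]; exact ht1
  have hLle : LL ε t ≤ 2 := by linarith
  have hq : 1 ≤ qq ε t := qq_one_le
  have hLge : ε / 2 ≤ LL ε t := by
    refine le_trans ?_ hL1
    unfold el
    refine div_le_div_of_nonneg_left hε.le (Real.sqrt_pos.2 (by positivity)) ?_
    rw [Real.sqrt_le_left (by norm_num)]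
    nlinarith
  have hbe : 0 ≤ be ε t := by unfold be; positivity
  have key : ∀ n : ℤ, ‖jn (u t n)‖ ≤ (4 / ε) * √(Ye ε ω u n t * De ε ω u n t) := by
    intro n
    set k := ω * n with hk
    have hla : 0 ≤ la k := by unfold la; positivity
    have hth : 0 < th ε k t := by unfold th; positivity
    have h1 := jn_le hbe hth (hd n)
    obtain ⟨hW1, hW2⟩ := WW_one_le (k := k) hε ht ht1
    have hinv : (th ε k t)⁻¹ ≤ (1 + 2 * la k) / ε := by
      unfold th
      rw [inv_div, div_le_div_iff₀ (by positivity) hε]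
      have e1 : (1 + la k * LL ε t) ≤ (1 + 2 * la k) := by nlinarith
      have e2 : ε ≤ 7500 * LL ε t := by linarith
      calc (1 + la k * LL ε t) * ε ≤ (1 + 2 * la k) * (7500 * LL ε t) := by gcongr
        _ = _ := rfl
    have hE := exg_En_nonneg (be ε t) (th ε k t) (u t n)
    have hD := exg_Dn_nonneg (be ε t) (th ε k t) (u t n)
    set E := En (be ε t) (th ε k t) (u t n) with hEdef
    set D := Dn (be ε t) (th ε k t) (u t n) with hDdef
    have hq0 : 0 < qq ε t := by linarith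
    have hW0 : 0 < WW ε k t := by linarith
    have h3 : √(Ye ε ω u n t * De ε ω u n t) = (qq ε t * WW ε k t) * √(E * D) := by
      have : Ye ε ω u n t * De ε ω u n t = (qq ε t * WW ε k t) ^ 2 * (E * D) := by
        unfold Ye De
        ring
      rw [this, Real.sqrt_mul (by positivity), Real.sqrt_sq (by positivity)]
    have h4 : (1 + (th ε k t)⁻¹) * √2 ≤ 4 / ε * WW ε k t := by
      have e1 : √2 ≤ 2 := by
        rw [Real.sqrt_le_left (by norm_num)]; norm_num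
      have e2 : (1 : ℝ) ≤ (1 + 2 * la k) / ε := by
        rw [le_div_iff₀ hε]; nlinarith
      calc (1 + (th ε k t)⁻¹) * √2 ≤ ((1 + 2 * la k) / ε + (1 + 2 * la k) / ε) * 2 := by gcongr
        _ = 4 / ε * (1 + 2 * la k) := by ring
        _ ≤ 4 / ε * WW ε k t := by gcongr
    rw [h3]
    calc ‖jn (u t n)‖ ≤ (1 + (th ε k t)⁻¹) * √(2 * (E * D)) := h1
      _ = ((1 + (th ε k t)⁻¹) * √2) * √(E * D) := by
          rw [Real.sqrt_mul (by norm_num)]; ring
      _ ≤ (4 / ε * WW ε k t) * √(E * D) := by gcongr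
      _ = 4 / ε * (1 * WW ε k t * √(E * D)) := by ring
      _ ≤ 4 / ε * (qq ε t * WW ε k t * √(E * D)) := by gcongr
  have hY : ∀ n, 0 ≤ Ye ε ω u n t := by
    intro n
    unfold Ye
    obtain ⟨hW1, -⟩ := WW_one_le (k := ω * n) hε ht ht1
    exact mul_nonneg (mul_nonneg (by linarith) (by linarith)) (exg_En_nonneg _ _ _)
  have hDe : ∀ n, 0 ≤ De ε ω u n t := by
    intro n
    unfold De
    obtain ⟨hW1, -⟩ := WW_one_le (k := ω * n) hε ht ht1
    exact mul_nonneg (mul_nonneg (by linarith) (by linarith)) (exg_Dn_nonneg _ _ _)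
  obtain ⟨s1, s2⟩ := exg_cs hY hDe sY sD
  rw [lec_norm_jL_eq]
  calc ∑' n, ‖jn (u t n)‖ ≤ ∑' n, (4 / ε) * √(Ye ε ω u n t * De ε ω u n t) :=
        Summable.tsum_le_tsum key (lec_summable_jn _) (s1.mul_left _)
    _ = (4 / ε) * ∑' n, √(Ye ε ω u n t * De ε ω u n t) := tsum_mul_left
    _ ≤ _ := by gcongr

/-- A point where an integrable function is at most its mean value. -/
theorem exg_mean {f : ℝ → ℝ} {a b M : ℝ} (hab : a < b) (hf : IntervalIntegrable f volume a b)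
    (hM : ∫ t in a..b, f t ≤ M) : ∃ s ∈ Icc a b, f s ≤ M / (b - a) := by
  by_contra hcon
  push Not at hcon
  have h1 : ∫ t in a..b, (M / (b - a)) < ∫ t in a..b, f t := by
    refine intervalIntegral.integral_lt_integral_of_ae_le_of_measure_setOfPred_lt_ne_zero hab.le
      (by simp) hf ?_ ?_
    · refine (ae_restrict_iff' measurableSet_Ioc).2 (Eventually.of_forall fun t ht => ?_)
      exact (hcon t (Ioc_subset_Icc_self ht)).le
    · have : (volume.restrict (Ioc a b)) {x | M / (b - a) < f x} = volume.restrict (Ioc a b) univ := by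
        refine measure_congr ?_
        refine (ae_restrict_iff' measurableSet_Ioc).2 (Eventually.of_forall fun t ht => ?_)
        have := hcon t (Ioc_subset_Icc_self ht)
        exact propext ⟨fun _ => trivial, fun _ => this⟩
      rw [this]
      simp [hab]
  rw [intervalIntegral.integral_const, smul_eq_mul, mul_div_cancel₀ _ (by linarith)] at h1
  linarith

/-- the choice of the step -/
theorem exg_delta {c A B : ℝ} (hc : 0 < c) (hA : 0 ≤ A) (hB : 0 ≤ B) :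
    ∃ δ, 0 < δ ∧ ∀ τ, 0 ≤ τ → τ ≤ 2 * δ → ∀ x, 0 ≤ x → x ≤ A + √(B / √δ) → √τ * x ≤ c := by
  obtain ⟨η, hη, hη1, hη2⟩ : ∃ η, 0 < η ∧ η ≤ 1 ∧ 2 * (η * (A + √B)) ≤ c := by
    refine ⟨min 1 (c / (2 * (A + √B + 1))), ?_, min_le_left _ _, ?_⟩
    · have := Real.sqrt_nonneg B
      positivity
    · have h0 := Real.sqrt_nonneg B
      have h1 : min 1 (c / (2 * (A + √B + 1))) ≤ c / (2 * (A + √B + 1)) := min_le_right _ _
      rw [le_div_iff₀ (by positivity)] at h1
      have h2 : 0 ≤ min 1 (c / (2 * (A + √B + 1))) := by positivity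
      nlinarith
  refine ⟨η ^ 4, by positivity, ?_⟩
  intro τ hτ hτ2 x hx hx2
  have h1 : √(η ^ 4) = η ^ 2 := by
    rw [show η ^ 4 = (η ^ 2) ^ 2 by ring, Real.sqrt_sq (by positivity)]
  rw [h1] at hx2
  have h2 : √(B / η ^ 2) = √B / η := by
    rw [Real.sqrt_div hB, Real.sqrt_sq hη.le]
  rw [h2] at hx2
  have h3 : √τ ≤ 2 * η ^ 2 := by
    rw [Real.sqrt_le_left (by positivity)]
    refine hτ2.trans ?_
    nlinarith [pow_pos hη 4]
  have h0 := Real.sqrt_nonneg B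
  calc √τ * x ≤ (2 * η ^ 2) * (A + √B / η) := by gcongr
    _ = 2 * (η * (η * A + √B)) := by field_simp
    _ ≤ 2 * (η * (A + √B)) := by
        have : η * A ≤ A := mul_le_of_le_one_left hA hη1
        gcongr
    _ ≤ c := hη2

/-! SA-5: existence up to `t2`. -/

theorem exists_good (H : ℝ) [Fact (0 < H)] (hdir : ∃ S D A : ℝ → (CI H →L[ℂ] CI H), DirSG H S D A)
    {ω : ℝ} {x0 : L1 (Xn H)} (hd : ∀ n : ℤ, Dmode (ω * n) (x0 n)) (hs : Sy x0)
    (hx : Summable fun n => Wq 92 n * ‖x0 n‖) :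
    ∃ T0 > 0, ∃ C1, 0 ≤ C1 ∧ T0 ≤ 1 / 4096 ∧ ∀ t2 ∈ Ioc 0 T0, ∀ ε ∈ Ioc (0:ℝ) 1, ∀ g g1 : ℝ → CI H,
      BaseFlow ε g g1 → (∀ t ∈ Icc (0:ℝ) 1, star (g t) = g t ∧ star (g1 t) = g1 t) →
      ∃ u : ℝ → L1 (Xn H), PT ω 0 t2 (fun t => U0 (g t) (g1 t)) (fun _ => 0) u ∧
        u 0 = x0 ∧
        (∀ t ∈ Icc 0 t2, Summable (fun n => Ye ε ω u n t) ∧ Summable (fun n => De ε ω u n t) ∧
          ∑' n, Ye ε ω u n t ≤ C1) ∧
        IntervalIntegrable (fun t => (∑' n, De ε ω u n t) ^ 2) volume 0 t2 ∧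
        ∫ t in (0:ℝ)..t2, (∑' n, De ε ω u n t) ^ 2 ≤ C1 := by
  obtain ⟨C0, hC0, hap⟩ := apriori
  obtain ⟨c, hc, hLE⟩ := LEhigh H hdir
  set Φ : ℝ := ∑' n : ℤ, (1 + 2 * la (ω * n)) ^ 61 * (1 + la (ω * n)) ^ 30 *
    En (1 / 100) (7500 / (1 + la (ω * n))) (x0 n) with hΦdef
  have hΦs := Ye_zero_summable (ω := ω) hx
  have hΦ : 0 ≤ Φ := tsum_nonneg fun n => by
    have : 0 ≤ la (ω * n) := by unfold la; positivity
    have := exg_En_nonneg (1 / 100) (7500 / (1 + la (ω * n))) (x0 n)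
    positivity
  have hC0' : 0 < C0 := by linarith
  have hA1 : 0 < C0 * Φ + 1 := by positivity
  refine ⟨min (1 / 4096) (((C0 * Φ + 1) ^ 4)⁻¹), by positivity, C0 * Φ + C0 * Φ ^ 2, by positivity,
    min_le_left _ _, ?_⟩
  intro t2 ht2 ε hε g g1 hbase hstar
  have ht2a : t2 ≤ 1 / 4096 := ht2.2.trans (min_le_left _ _)
  have hsm : ∀ b, 0 ≤ b → b ≤ t2 → C0 * √(√b) * Φ ≤ 1 := by
    intro b hb0 hb
    have h1 : b ≤ ((C0 * Φ + 1)⁻¹ ^ 2) ^ 2 := by
      refine (hb.trans (ht2.2.trans (min_le_right _ _))).trans (le_of_eq ?_)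
      rw [← pow_mul, inv_pow]
    have h2 : √(√b) ≤ (C0 * Φ + 1)⁻¹ := by
      rw [Real.sqrt_le_left (by positivity), Real.sqrt_le_left (by positivity)]
      exact h1
    calc C0 * √(√b) * Φ ≤ C0 * (C0 * Φ + 1)⁻¹ * Φ := by gcongr
      _ = (C0 * Φ) / (C0 * Φ + 1) := by ring
      _ ≤ 1 := by
        rw [div_le_one hA1]; linarith
  -- the a priori bound for good perturbations
  have hgood : ∀ (b : ℝ) (u : ℝ → L1 (Xn H)), 0 ≤ b → b ≤ t2 →
      ExgGood ω b (fun t => U0 (g t) (g1 t)) x0 u →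
      (∀ t ∈ Icc 0 b, Summable (fun n => Ye ε ω u n t) ∧ Summable (fun n => De ε ω u n t) ∧
        ∑' n, Ye ε ω u n t ≤ C0 * Φ) ∧
      IntervalIntegrable (fun t => (∑' n, De ε ω u n t) ^ 2) volume 0 b ∧
      ∫ t in (0:ℝ)..b, (∑' n, De ε ω u n t) ^ 2 ≤ C0 * Φ ^ 2 := by
    intro b u hb0 hb hu
    obtain ⟨h1, h2, R, h3⟩ := hu
    refine hap H ω ε b Φ R g g1 u hε.1 hε.2 hb0 (hb.trans ht2a) hbase h1 h3 ?_ (hsm b hb0 hb)
    have : (fun n : ℤ => Ye ε ω u n 0) = fun n : ℤ => (1 + 2 * la (ω * n)) ^ 61 *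
      (1 + la (ω * n)) ^ 30 * En (1 / 100) (7500 / (1 + la (ω * n))) (x0 n) := by
      funext n
      rw [Ye_zero hε.1, h2]
    rw [this]
    exact hΦs.hasSum
  -- bound of the base flow
  obtain ⟨R, hR0, hR⟩ : ∃ R, 0 ≤ R ∧ ∀ t ∈ Icc (0:ℝ) 1, ‖g t‖ + ‖g1 t‖ ≤ R := by
    have hcont : ContinuousOn (fun t => ‖g t‖ + ‖g1 t‖) (Icc 0 1) := hbase.c.norm.add hbase.c1.norm
    obtain ⟨m, hm, hm'⟩ := isCompact_Icc.exists_isMaxOn (nonempty_Icc.2 zero_le_one) hcont
    exact ⟨‖g m‖ + ‖g1 m‖, by positivity, fun t ht => hm' ht⟩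
  -- the step
  set B : ℝ := (4 / ε) ^ 2 * (C0 * Φ) * √(C0 * Φ ^ 2) with hBdef
  have hB : 0 ≤ B := by have := hε.1; positivity
  obtain ⟨δ, hδ, hδle⟩ := exg_delta (A := R + ‖jL H x0‖) (B := B) hc (by positivity) hB
  have hone : ∀ (s τ : ℝ) (x : L1 (Xn H)), 0 ≤ s → 0 < τ → s + τ ≤ t2 → τ ≤ 2 * δ →
      (∀ n : ℤ, Dmode (ω * n) (x n)) → Sy x → (Summable fun n => Wq 92 n * ‖x n‖) →
      R + ‖jL H x‖ ≤ (R + ‖jL H x0‖) + √(B / √δ) →
      ∃ u : ℝ → L1 (Xn H), PT ω s (s + τ) (fun t => U0 (g t) (g1 t)) (fun _ => 0) u ∧ u s = x ∧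
        ∃ R', ∀ t ∈ Icc s (s + τ), Summable (fun n => Wp 92 n * ‖u t n‖) ∧
          ∑' n, Wp 92 n * ‖u t n‖ ≤ R' := by
    intro s τ x hs0 hτ hst hτδ hd hsy hsum hxb
    have hsub : Icc s (s + τ) ⊆ Icc 0 1 := Icc_subset_Icc hs0 (by linarith)
    exact hLE ω s τ R 92 g g1 x hτ (by linarith) hR0 (hbase.c.mono hsub) (hbase.c1.mono hsub)
      (fun t ht => ⟨hR t (hsub ht), hstar t (hsub ht)⟩) hd hsy hsum
      (hδle τ hτ.le hτδ _ (by positivity) hxb)
  have hiter : ∀ k : ℕ, ∃ u, ExgGood ω (min ((k + 1) * δ) t2) (fun t => U0 (g t) (g1 t)) x0 u := by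
    intro k
    induction k with
    | zero =>
      have hτ : 0 < min ((((0 : ℕ) : ℝ) + 1) * δ) t2 := by
        have := ht2.1
        positivity
      obtain ⟨u, hu, hu0, R', hu1⟩ := hone 0 (min ((((0 : ℕ) : ℝ) + 1) * δ) t2) x0 le_rfl hτ
        (by rw [zero_add]; exact min_le_right _ _)
        ((min_le_left _ _).trans (by push_cast; linarith)) hd hs hx
        (by have := Real.sqrt_nonneg (B / √δ); linarith)
      rw [zero_add] at hu hu1
      exact ⟨u, hu, hu0, R', hu1⟩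
    | succ k ih =>
      obtain ⟨u, hu⟩ := ih
      set b : ℝ := min (((k : ℝ) + 1) * δ) t2 with hbdef
      rcases le_or_gt t2 (((k : ℝ) + 1) * δ) with h | h
      · have hb : b = t2 := min_eq_right h
        have : min ((((k + 1 : ℕ) : ℝ) + 1) * δ) t2 = b := by
          rw [hb]
          refine min_eq_right (h.trans ?_)
          push_cast
          nlinarith
        rw [this]
        exact ⟨u, hu⟩
      · have hb : b = ((k : ℝ) + 1) * δ := min_eq_left h.le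
        have hbδ : δ ≤ b := by
          rw [hb]
          have : (0:ℝ) ≤ k := Nat.cast_nonneg k
          nlinarith
        have hbt : b < t2 := by rw [hb]; exact h
        have hb0 : 0 ≤ b := by linarith
        obtain ⟨e1, e2, e3⟩ := hgood b u hb0 hbt.le hu
        -- a good restarting time
        have hsubI : uIcc (b - δ) b ⊆ uIcc 0 b := by
          rw [uIcc_of_le (by linarith), uIcc_of_le hb0]
          exact Icc_subset_Icc (by linarith) le_rfl
        have e4 : ∫ t in (b - δ)..b, (∑' n, De ε ω u n t) ^ 2 ≤ C0 * Φ ^ 2 := by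
          refine le_trans ?_ e3
          refine intervalIntegral.integral_mono_interval (by linarith) (by linarith) le_rfl
            (Eventually.of_forall fun t => sq_nonneg _) e2
        obtain ⟨s, hs', hs2⟩ := exg_mean (by linarith) (e2.mono_set hsubI) e4
        rw [sub_sub_cancel] at hs2
        have hs0 : s ∈ Icc 0 b := ⟨by linarith [hs'.1], hs'.2⟩
        obtain ⟨f1, f2, f3⟩ := e1 s hs0
        have hlow := exg_low hε.1 hs0.1 (by linarith [hs0.2]) hε.2 (hu.1.dm s hs0) f1 f2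
        have hD0 : 0 ≤ ∑' n, De ε ω u n s := tsum_nonneg fun n => by
          unfold De
          obtain ⟨hW1, -⟩ := WW_one_le (k := ω * n) hε.1 hs0.1 (by linarith [hs0.2])
          have hq : 1 ≤ qq ε s := qq_one_le
          exact mul_nonneg (mul_nonneg (by linarith) (by linarith)) (exg_Dn_nonneg _ _ _)
        have hD1 : ∑' n, De ε ω u n s ≤ √(C0 * Φ ^ 2) / √δ := by
          rw [← Real.sqrt_div (by positivity)]
          exact Real.le_sqrt_of_sq_le hs2
        have hjL : ‖jL H (u s)‖ ≤ √(B / √δ) := by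
          refine hlow.trans ?_
          refine Real.le_sqrt_of_sq_le ?_
          have hε0 := hε.1
          rw [mul_pow, mul_pow, Real.sq_sqrt hD0]
          have hY2 : √(∑' n, Ye ε ω u n s) ^ 2 ≤ C0 * Φ := by
            rcases le_or_gt 0 (∑' n, Ye ε ω u n s) with hh | hh
            · rw [Real.sq_sqrt hh]; exact f3
            · rw [Real.sqrt_eq_zero_of_nonpos hh.le]
              have : 0 ≤ C0 * Φ := by positivity
              simpa using this
          calc (4 / ε) ^ 2 * (√(∑' n, Ye ε ω u n s) ^ 2 * ∑' n, De ε ω u n s)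
              ≤ (4 / ε) ^ 2 * ((C0 * Φ) * (√(C0 * Φ ^ 2) / √δ)) := by gcongr
            _ = B / √δ := by rw [hBdef]; ring
        obtain ⟨R1, hR1⟩ := hu.2.2
        have hτ0 : s < min (b + δ) t2 := lt_min (by linarith [hs'.2]) (by linarith [hs'.2])
        obtain ⟨v, hv, hv0, R', hv1⟩ := hone s (min (b + δ) t2 - s) (u s) hs0.1 (by linarith)
          (by rw [add_sub_cancel]; exact min_le_right _ _)
          (by
            have := min_le_left (b + δ) t2
            linarith [hs'.1])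
          (hu.1.dm s hs0) (hu.1.sy s hs0) (hR1 s hs0).1
          (by
            have := norm_nonneg (jL H x0)
            linarith)
        have hnew := exg_step hu hs0 (by linarith) hv hv0 hv1
        rw [add_sub_cancel] at hnew
        have hmin : min ((((k + 1 : ℕ) : ℝ) + 1) * δ) t2 = min (b + δ) t2 := by
          rw [hb]
          congr 1
          push_cast
          ring
        rw [hmin]
        exact ⟨_, hnew⟩
  obtain ⟨k, hk⟩ := exists_nat_gt (t2 / δ)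
  obtain ⟨u, hu⟩ := hiter k
  have hmin : min (((k : ℝ) + 1) * δ) t2 = t2 := by
    refine min_eq_right ?_
    rw [div_lt_iff₀ hδ] at hk
    nlinarith
  rw [hmin] at hu
  obtain ⟨e1, e2, e3⟩ := hgood t2 u ht2.1.le le_rfl hu
  have p1 : 0 ≤ C0 * Φ := by positivity
  have p2 : 0 ≤ C0 * Φ ^ 2 := by positivity
  refine ⟨u, hu.1, hu.2.1, fun t ht => ?_, e2, by linarith⟩
  obtain ⟨f1, f2, f3⟩ := e1 t ht
  exact ⟨f1, f2, by linarith⟩

end

end Pool.Agent.Lib.MP_79abb3_an.P25
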