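import Pool.Agent.Lib.MP_79abb3_an.Local

/-!
P6-1: the scalar heat equation on an interval, driven to zero by a flat control.
-/

set_option autoImplicit false
set_option linter.unusedSectionVars false
set_option linter.unusedVariables false

open MeasureTheory Set Filter Topology Function

namespace Pool.Agent.Lib.MP_79abb3_an.P25

open Pool.Agent.Lib.MP_79abb3_an

namespace FlatScalar

/-- Odd extension of a `C¹` function on `[0,H]` vanishing at `0`. -/
theorem exists_ext {H : ℝ} (hH : 1 ≤ H) {m m' : ℝ} {e e' : ℝ → ℝ}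
    (ce' : ContinuousOn e' (Icc 0 H))
    (de : ∀ z ∈ Icc 0 H, HasDerivWithinAt e (e' z) (Icc 0 H) z) (e0 : e 0 = 0)
    (be : ∀ z ∈ Icc 0 H, |e z| ≤ m) (be' : ∀ z ∈ Icc 0 H, |e' z| ≤ m') :
    ∃ E E' : ℝ → ℝ, Odd1 (2 * m) m' E E' ∧ (∀ z ∈ Icc 0 H, E z = e z) ∧
      ∀ z ∈ Icc 0 H, E' z = e' z := by
  have hH0 : 0 < H := by linarith
  have h0H : (0:ℝ) ∈ Icc 0 H := ⟨le_rfl, hH0.le⟩
  have hHH : H ∈ Icc 0 H := ⟨hH0.le, le_rfl⟩
  have hm : 0 ≤ m := (abs_nonneg _).trans (be 0 h0H)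
  have hm' : 0 ≤ m' := (abs_nonneg _).trans (be' 0 h0H)
  -- the width
  obtain ⟨β, hβ, hβe⟩ : ∃ β : ℝ, 0 < β ∧ |e' H| * β ≤ m := by
    rcases eq_or_lt_of_le hm with h | h
    · have hz : ∀ z ∈ Icc 0 H, e z = 0 := fun z hz => by
        have := be z hz
        rw [← h] at this
        exact abs_nonpos_iff.1 this
      have h1 : HasDerivWithinAt e 0 (Icc 0 H) H := by
        refine (hasDerivWithinAt_const H (Icc 0 H) (0:ℝ)).congr (fun z hz' => hz z hz') (hz H hHH)
      have h2 : e' H = 0 := by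
        have := (de H hHH).derivWithin ((uniqueDiffOn_Icc hH0) H hHH)
        rw [← this]
        exact h1.derivWithin ((uniqueDiffOn_Icc hH0) H hHH)
      exact ⟨1, one_pos, by rw [h2, abs_zero, zero_mul]; exact hm⟩
    · refine ⟨m / (|e' H| + 1), by positivity, ?_⟩
      rw [mul_div_assoc', div_le_iff₀ (by positivity)]
      nlinarith [abs_nonneg (e' H)]
  set g : ℝ → ℝ := fun z => e' (min |z| H) * Real.exp (-(max 0 (|z| - H) / β)) with hg
  have hmin : ∀ z : ℝ, min |z| H ∈ Icc 0 H := fun z =>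
    ⟨le_min (abs_nonneg z) hH0.le, min_le_right _ _⟩
  have gc : Continuous g := by
    refine Continuous.mul ?_ (by fun_prop)
    exact ce'.comp_continuous (by fun_prop) hmin
  have gev : ∀ z, g (-z) = g z := fun z => by simp only [hg, abs_neg]
  have gb : ∀ z, |g z| ≤ m' := fun z => by
    simp only [hg]
    rw [abs_mul, abs_of_pos (Real.exp_pos _)]
    have h1 := be' _ (hmin z)
    have h2 : Real.exp (-(max 0 (|z| - H) / β)) ≤ 1 := by
      rw [Real.exp_le_one_iff, neg_nonpos]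
      exact div_nonneg (le_max_left _ _) hβ.le
    calc |e' (min |z| H)| * Real.exp (-(max 0 (|z| - H) / β)) ≤ m' * 1 := by gcongr
      _ = m' := mul_one _
  have gin : ∀ z ∈ Icc 0 H, g z = e' z := fun z hz => by
    simp only [hg]
    rw [abs_of_nonneg hz.1, min_eq_left hz.2, max_eq_left (by linarith [hz.2])]
    simp
  have gout : ∀ z, H ≤ z → g z = e' H * Real.exp (-((z - H) / β)) := fun z hz => by
    simp only [hg]
    rw [abs_of_nonneg (by linarith), min_eq_right hz, max_eq_right (by linarith)]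
  set E : ℝ → ℝ := fun z => ∫ x in (0:ℝ)..z, g x with hE
  have dE : ∀ z, HasDerivAt E (g z) z := fun z =>
    (gc.integral_hasStrictDerivAt 0 z).hasDerivAt
  have oE : ∀ z, E (-z) = -E z := fun z => by
    simp only [hE]
    have := intervalIntegral.integral_comp_neg (a := 0) (b := z) (f := g)
    rw [neg_zero] at this
    rw [intervalIntegral.integral_symm (a := -z) (b := 0), ← this]
    congr 1
    exact intervalIntegral.integral_congr fun x _ => gev x
  have ein : ∀ z ∈ Icc 0 H, E z = e z := fun z hz => by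
    simp only [hE]
    have h1 : ∫ x in (0:ℝ)..z, g x = ∫ x in (0:ℝ)..z, e' x := by
      refine intervalIntegral.integral_congr fun x hx => ?_
      rw [uIcc_of_le hz.1] at hx
      exact gin x ⟨hx.1, hx.2.trans hz.2⟩
    rw [h1, intervalIntegral.integral_eq_sub_of_hasDerivAt_of_le hz.1 (f := e), e0, sub_zero]
    · exact fun x hx => ((de x ⟨hx.1, hx.2.trans hz.2⟩).continuousWithinAt).mono
        (Icc_subset_Icc le_rfl hz.2)
    · intro x hx
      exact (de x ⟨hx.1.le, hx.2.le.trans hz.2⟩).hasDerivAt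
        (Icc_mem_nhds hx.1 (hx.2.trans_le hz.2))
    · refine ContinuousOn.intervalIntegrable ?_
      rw [uIcc_of_le hz.1]
      exact ce'.mono (Icc_subset_Icc le_rfl hz.2)
  have eout : ∀ z, H ≤ z → E z = e H + e' H * (β * (1 - Real.exp (-((z - H) / β)))) := fun z hz => by
    have h1 : E z = E H + ∫ x in H..z, g x :=
      (intervalIntegral.integral_add_adjacent_intervals (gc.intervalIntegrable _ _)
        (gc.intervalIntegrable _ _)).symm
    rw [h1, ein H hHH]
    congr 1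
    have h2 : ∫ x in H..z, g x = ∫ x in H..z, e' H * Real.exp (-((x - H) / β)) := by
      refine intervalIntegral.integral_congr fun x hx => ?_
      rw [uIcc_of_le hz] at hx
      exact gout x hx.1
    rw [h2, intervalIntegral.integral_const_mul]
    congr 1
    have h3 : ∀ x ∈ uIcc H z, HasDerivAt (fun x => -(β * Real.exp (-((x - H) / β))))
        (Real.exp (-((x - H) / β))) x := fun x _ => by
      have h4 : HasDerivAt (fun x : ℝ => -((x - H) / β)) (-(1 / β)) x :=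
        (((hasDerivAt_id x).sub_const H).div_const β).neg
      have h5 := (h4.exp.const_mul β).neg
      refine h5.congr_deriv ?_
      field_simp
    rw [intervalIntegral.integral_eq_sub_of_hasDerivAt h3
      (Continuous.intervalIntegrable (by fun_prop) _ _)]
    simp
    ring
  have hbd0 : ∀ z, 0 ≤ z → |E z| ≤ 2 * m := fun z hz => by
    rcases le_total z H with h | h
    · rw [ein z ⟨hz, h⟩]
      have := be z ⟨hz, h⟩
      linarith
    · rw [eout z h]
      have h1 := be H hHH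
      have h2 : |e' H * (β * (1 - Real.exp (-((z - H) / β))))| ≤ m := by
        rw [abs_mul, abs_mul, abs_of_pos hβ]
        have h3 : Real.exp (-((z - H) / β)) ≤ 1 := by
          rw [Real.exp_le_one_iff, neg_nonpos]
          exact div_nonneg (by linarith) hβ.le
        have h4 := Real.exp_pos (-((z - H) / β))
        have h5 : |1 - Real.exp (-((z - H) / β))| ≤ 1 := by
          rw [abs_of_nonneg (by linarith)]
          linarith
        calc |e' H| * (β * |1 - Real.exp (-((z - H) / β))|) ≤ |e' H| * (β * 1) := by gcongr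
          _ = |e' H| * β := by ring
          _ ≤ m := hβe
      have := abs_add_le (e H) (e' H * (β * (1 - Real.exp (-((z - H) / β)))))
      linarith
  refine ⟨E, g, ⟨gc, dE, oE, fun z => ?_, gb⟩, ein, gin⟩
  rcases le_total 0 z with h | h
  · exact hbd0 z h
  · have := hbd0 (-z) (by linarith)
    rwa [oE, abs_neg] at this

/-- The flat background, with continuity on the closed interval. -/
theorem flat_back' {S : ℝ} (hS : 1 ≤ S) : ∃ D K : ℝ, 1 ≤ D ∧ 1 ≤ K ∧ ∀ l ∈ Ioc (0:ℝ) 1,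
    ∀ (m m' : ℝ) (e e' : ℝ → ℝ), Odd1 m m' e e' → ∃ w w' : ℝ → ℝ → ℝ,
      ContinuousOn (uncurry w) (Icc 0 (l / D) ×ˢ univ) ∧
      ContinuousOn (uncurry w') (Icc 0 (l / D) ×ˢ univ) ∧
      (∀ t ∈ Icc 0 (l / D), ∀ y, HasDerivAt (w t) (w' t y) y) ∧
      (∀ t, w t 0 = 0) ∧ (∀ y, w 0 y = H l e y) ∧
      (∀ y, w (l / D) y = 0) ∧
      (∀ t ∈ Icc 0 (l / D), ∀ y ∈ Icc 0 S, |w t y| ≤ m * (K * Real.exp (K / l ^ 2)) ∧
        |w' t y| ≤ m * (K * Real.exp (K / l ^ 2))) ∧
      ∀ t ∈ Icc 0 (l / D), ∀ y, (∫ z in (0:ℝ)..y, w t z) - (∫ z in (0:ℝ)..y, w 0 z) =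
        ∫ s in (0:ℝ)..t, (w' s y - w' s 0) := by
  obtain ⟨β, hβ, h0, h1, C, hC, hb⟩ := exists_gevrey
  obtain ⟨C', hC', hcoef⟩ := heat_coeff
  set C2 := max C C' with hC2
  have hC21 : 1 ≤ C2 := hC.trans (le_max_left _ _)
  obtain ⟨D, E, hD, hE, hfl⟩ := flat_series (C := C2) (S := S) hC21 hS hβ h0 h1 (fun j t => by
    refine (hb j t).trans ?_
    have : C ≤ C2 := le_max_left _ _
    gcongr)
  refine ⟨D, C' * (E + 1), hD, by nlinarith, ?_⟩
  intro l hl m m' e e' he
  have hl0 := hl.1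
  have hm := he.m0
  obtain ⟨c, hc, hsum⟩ := hcoef l hl m e he.ce he.odd he.b0
  obtain ⟨w, w', cw, cw', dw, ow, w0, w1, wb, wt⟩ := hfl l hl (m * C' * (√l)⁻¹) c (by positivity)
    (fun k => by
      refine (hc k).trans ?_
      have : C' ≤ C2 := le_max_right _ _
      gcongr)
  have hlD : 0 < l / D := by positivity
  have hbound : m * C' * (√l)⁻¹ * Real.exp (E / l ^ 2) ≤
      m * (C' * (E + 1) * Real.exp (C' * (E + 1) / l ^ 2)) := by
    have hsl : 0 < √l := Real.sqrt_pos.2 hl0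
    have hl2 : 0 < l ^ 2 := by positivity
    have a1 : (√l)⁻¹ ≤ Real.exp (1 / l ^ 2) := by
      have b1 : √l * √l = l := Real.mul_self_sqrt hl0.le
      have b2 : √l ≤ 1 := by rw [Real.sqrt_le_one]; exact hl.2
      have b3 : l ^ 2 ≤ √l := by
        have : l ^ 2 = √l * √l * √l * √l := by rw [mul_assoc, mul_assoc, b1, ← mul_assoc, b1]; ring
        rw [this]
        have b4 : √l * √l ≤ 1 := by nlinarith
        have b5 : √l * √l * √l ≤ 1 := by nlinarith
        nlinarith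
      have b6 : (√l)⁻¹ ≤ 1 / l ^ 2 := by
        rw [one_div]
        exact inv_anti₀ hl2 b3
      linarith [Real.add_one_le_exp (1 / l ^ 2)]
    have a2 : Real.exp (1 / l ^ 2) * Real.exp (E / l ^ 2) ≤ Real.exp (C' * (E + 1) / l ^ 2) := by
      rw [← Real.exp_add, ← add_div]
      apply Real.exp_le_exp.2
      gcongr
      nlinarith
    calc m * C' * (√l)⁻¹ * Real.exp (E / l ^ 2)
        ≤ m * C' * Real.exp (1 / l ^ 2) * Real.exp (E / l ^ 2) := by gcongr
      _ = m * C' * (Real.exp (1 / l ^ 2) * Real.exp (E / l ^ 2)) := by ring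
      _ ≤ m * C' * Real.exp (C' * (E + 1) / l ^ 2) := by gcongr
      _ ≤ m * (C' * (E + 1)) * Real.exp (C' * (E + 1) / l ^ 2) := by
          gcongr
          nlinarith
      _ = _ := by ring
  refine ⟨w, w', cw, cw', dw, fun t => ?_, fun y => ?_, w1, fun t ht y hy => ?_, wt⟩
  · have := ow t 0
    rw [neg_zero] at this
    linarith
  · rw [w0 y]
    exact (hsum y).tsum_eq
  · have h2 := wb t ht y (by rw [abs_of_nonneg hy.1]; exact hy.2)
    exact ⟨h2.1.trans hbound, h2.2.trans hbound⟩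

end FlatScalar

open FlatScalar

theorem flat_scalar {H : ℝ} (hH : 1 ≤ H) : ∃ D K : ℝ, 1 ≤ D ∧ 1 ≤ K ∧ ∀ l ∈ Ioc (0:ℝ) 1,
    ∀ (m m' : ℝ) (e e' : ℝ → ℝ), ContinuousOn e' (Icc 0 H) →
      (∀ z ∈ Icc 0 H, HasDerivWithinAt e (e' z) (Icc 0 H) z) → e 0 = 0 →
      (∀ z ∈ Icc 0 H, |e z| ≤ m) → (∀ z ∈ Icc 0 H, |e' z| ≤ m') → ∃ f f' : ℝ → ℝ → ℝ,
        ContinuousOn (uncurry f) (Icc 0 (l + l / D) ×ˢ Icc 0 H) ∧
        ContinuousOn (uncurry f') (Icc 0 (l + l / D) ×ˢ Icc 0 H) ∧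
        (∀ t ∈ Icc 0 (l + l / D), ∀ z ∈ Icc 0 H, HasDerivWithinAt (f t) (f' t z) (Icc 0 H) z) ∧
        (∀ t ∈ Icc 0 (l + l / D), f t 0 = 0) ∧ (∀ z ∈ Icc 0 H, f 0 z = e z) ∧
        (∀ z ∈ Icc 0 H, f (l + l / D) z = 0) ∧
        (∀ t ∈ Icc 0 l, ∀ z ∈ Icc 0 H, |f t z| ≤ K * m ∧ |f' t z| ≤ K * (m + m')) ∧
        (∀ t ∈ Icc l (l + l / D), ∀ z ∈ Icc 0 H, |f t z| ≤ m * (K * Real.exp (K / l ^ 2)) ∧
          |f' t z| ≤ m * (K * Real.exp (K / l ^ 2))) ∧
        ∀ y ∈ Icc 0 H, ∀ t1 ∈ Icc 0 (l + l / D), ∀ t2 ∈ Icc t1 (l + l / D),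
          (∫ z in (0:ℝ)..y, f t2 z) - (∫ z in (0:ℝ)..y, f t1 z) =
            ∫ s in t1..t2, (f' s y - f' s 0) := by
  obtain ⟨D, K, hD, hK, hflat⟩ := flat_back' hH
  have hcE := one_le_cE
  refine ⟨D, 2 * K + 2 * cE, hD, by linarith, ?_⟩
  intro l hl m m' e e' ce' de e0 be be'
  have hl0 := hl.1
  have hH0 : 0 < H := by linarith
  have h0H : (0:ℝ) ∈ Icc 0 H := ⟨le_rfl, hH0.le⟩
  have hm : 0 ≤ m := (abs_nonneg _).trans (be 0 h0H)
  have hm' : 0 ≤ m' := (abs_nonneg _).trans (be' 0 h0H)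
  obtain ⟨E, E', hE, hEe, hEe'⟩ := exists_ext hH ce' de e0 be be'
  obtain ⟨w, w', cw, cw', dw, wz, w0, w1, wb, wt⟩ := hflat l hl _ _ E E' hE
  have hback := hE.back hl.2 H
  have g0 := hE.wt.gr le_rfl
  have g1 := hE.wt'.gr le_rfl
  have hlD : 0 < l / D := by positivity
  have hT : 0 ≤ l + l / D := by positivity
  have mem1 : ∀ {t}, t ∈ Icc 0 l → t ∈ Icc (0:ℝ) 1 := fun ht => ⟨ht.1, ht.2.trans hl.2⟩
  -- derivatives agree at time `l`
  have w0' : ∀ y, w' 0 y = Pool.Agent.Lib.MP_79abb3_an.H l E' y := by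
    intro y
    have h1 := dw 0 ⟨le_rfl, hlD.le⟩ y
    have h2 := (hE.heat (t := l) ⟨hl0.le, hl.2⟩).d y
    have h3 : w 0 = Pool.Agent.Lib.MP_79abb3_an.H l E := funext w0
    rw [h3] at h1
    exact h1.unique h2
  set f : ℝ → ℝ → ℝ := fun t z =>
    if t ≤ l then Pool.Agent.Lib.MP_79abb3_an.H t E z else w (t - l) z with hf
  set f' : ℝ → ℝ → ℝ := fun t z =>
    if t ≤ l then Pool.Agent.Lib.MP_79abb3_an.H t E' z else w' (t - l) z with hf'
  have f1 : ∀ t, t ≤ l → f t = Pool.Agent.Lib.MP_79abb3_an.H t E := fun t ht => by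
    funext z; simp only [hf, if_pos ht]
  have f'1 : ∀ t, t ≤ l → f' t = Pool.Agent.Lib.MP_79abb3_an.H t E' := fun t ht => by
    funext z; simp only [hf', if_pos ht]
  have f2 : ∀ t, l ≤ t → f t = w (t - l) := fun t ht => by
    rcases eq_or_lt_of_le ht with h | h
    · rw [f1 t h.ge, ← h, sub_self]
      exact (funext w0).symm
    · funext z; simp only [hf, if_neg (not_le.2 h)]
  have f'2 : ∀ t, l ≤ t → f' t = w' (t - l) := fun t ht => by
    rcases eq_or_lt_of_le ht with h | h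
    · rw [f'1 t h.ge, ← h, sub_self]
      exact (funext w0').symm
    · funext z; simp only [hf', if_neg (not_le.2 h)]
  -- continuity
  have glue : ∀ {F G W : ℝ → ℝ → ℝ}, ContinuousOn (uncurry G) (Icc 0 l ×ˢ univ) →
      ContinuousOn (uncurry W) (Icc 0 (l / D) ×ˢ univ) → (∀ t, t ≤ l → F t = G t) →
      (∀ t, l ≤ t → F t = W (t - l)) →
      ContinuousOn (uncurry F) (Icc 0 (l + l / D) ×ˢ (univ : Set ℝ)) := by
    intro F G W cG cW h1 h2
    have hun : Icc 0 (l + l / D) ×ˢ (univ : Set ℝ) =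
        Icc 0 l ×ˢ univ ∪ Icc l (l + l / D) ×ˢ univ := by
      rw [← union_prod, Icc_union_Icc_eq_Icc hl0.le (by linarith)]
    rw [hun]
    refine ContinuousOn.union_of_isClosed ?_ ?_ (isClosed_Icc.prod isClosed_univ)
      (isClosed_Icc.prod isClosed_univ)
    · refine cG.congr ?_
      rintro ⟨t, z⟩ ⟨ht, -⟩
      simp only [uncurry]
      rw [h1 t ht.2]
    · have : ContinuousOn (fun p : ℝ × ℝ => uncurry W (p.1 - l, p.2))
          (Icc l (l + l / D) ×ˢ univ) :=
        cW.comp (by fun_prop) fun p hp => ⟨⟨by linarith [hp.1.1], by linarith [hp.1.2]⟩, mem_univ _⟩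
      refine this.congr ?_
      rintro ⟨t, z⟩ ⟨ht, -⟩
      simp only [uncurry]
      rw [h2 t ht.1]
  have cf : ContinuousOn (uncurry f) (Icc 0 (l + l / D) ×ˢ (univ : Set ℝ)) := by
    refine glue (G := fun t => Pool.Agent.Lib.MP_79abb3_an.H t E) (W := w) ?_ cw f1 f2
    exact g0.continuousOn_H.mono fun p hp => ⟨(mem1 hp.1).2, mem_univ _⟩
  have cf' : ContinuousOn (uncurry f') (Icc 0 (l + l / D) ×ˢ (univ : Set ℝ)) := by
    refine glue (G := fun t => Pool.Agent.Lib.MP_79abb3_an.H t E') (W := w') ?_ cw' f'1 f'2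
    exact g1.continuousOn_H.mono fun p hp => ⟨(mem1 hp.1).2, mem_univ _⟩
  have cfy : ∀ y, ContinuousOn (fun s => f' s y - f' s 0) (Icc 0 (l + l / D)) := fun y =>
    (cf'.comp (f := fun s : ℝ => (s, y)) (by fun_prop) fun s hs => ⟨hs, mem_univ _⟩).sub
      (cf'.comp (f := fun s : ℝ => (s, (0:ℝ))) (by fun_prop) fun s hs => ⟨hs, mem_univ _⟩)
  have ii : ∀ y, ∀ a ∈ Icc 0 (l + l / D), ∀ b ∈ Icc 0 (l + l / D),
      IntervalIntegrable (fun s => f' s y - f' s 0) volume a b := fun y a ha b hb =>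
    ((cfy y).mono (uIcc_subset_Icc ha hb)).intervalIntegrable
  have hl1 : l ∈ Icc 0 (l + l / D) := ⟨hl0.le, by linarith⟩
  -- the identity from time `0`
  have key1 : ∀ y, 0 ≤ y → ∀ t ∈ Icc 0 l, (∫ z in (0:ℝ)..y, f t z) - (∫ z in (0:ℝ)..y, f 0 z) =
      ∫ s in (0:ℝ)..t, (f' s y - f' s 0) := by
    intro y hy t ht
    have h1 := hback.ti t ht y hy
    rw [f1 t ht.2, f1 0 hl0.le]
    refine h1.trans (intervalIntegral.integral_congr fun s hs => ?_)
    rw [uIcc_of_le ht.1] at hs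
    simp only [f'1 s (hs.2.trans ht.2)]
    ring
  have key : ∀ y, 0 ≤ y → ∀ t ∈ Icc 0 (l + l / D),
      (∫ z in (0:ℝ)..y, f t z) - (∫ z in (0:ℝ)..y, f 0 z) =
      ∫ s in (0:ℝ)..t, (f' s y - f' s 0) := by
    intro y hy t ht
    rcases le_total t l with h | h
    · exact key1 y hy t ⟨ht.1, h⟩
    · have k1 := key1 y hy l ⟨hl0.le, le_rfl⟩
      have k2 := wt (t - l) ⟨by linarith, by linarith [ht.2]⟩ y
      have k3 : ∫ s in l..t, (f' s y - f' s 0) = ∫ s in (0:ℝ)..(t - l), (w' s y - w' s 0) := by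
        have := intervalIntegral.integral_comp_sub_right (a := l) (b := t)
          (fun s => w' s y - w' s 0) l
        rw [sub_self] at this
        rw [← this]
        refine intervalIntegral.integral_congr fun s hs => ?_
        rw [uIcc_of_le h] at hs
        simp only [f'2 s hs.1]
      rw [← intervalIntegral.integral_add_adjacent_intervals (ii y 0 ⟨le_rfl, hT⟩ l hl1)
        (ii y l hl1 t ht), ← k1, k3, ← k2, f2 t h, f2 l le_rfl, sub_self]
      ring
  refine ⟨f, f', cf.mono (by gcongr; exact subset_univ _), cf'.mono (by gcongr; exact subset_univ _),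
    ?_, ?_, ?_, ?_, ?_, ?_, ?_⟩
  · intro t ht z hz
    rcases le_total t l with h | h
    · rw [f1 t h, f'1 t h]
      exact ((hE.heat (mem1 ⟨ht.1, h⟩)).d z).hasDerivWithinAt
    · rw [f2 t h, f'2 t h]
      exact (dw (t - l) ⟨by linarith, by linarith [ht.2]⟩ z).hasDerivWithinAt
  · intro t ht
    rcases le_total t l with h | h
    · rw [f1 t h]
      exact hback.z t ⟨ht.1, h⟩
    · rw [f2 t h]
      exact wz _
  · intro z hz
    rw [f1 0 hl0.le, H_zero, hEe z hz]
  · intro z hz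
    rw [f2 _ (by linarith), add_sub_cancel_left]
    exact w1 z
  · intro t ht z hz
    have hh := hE.heat (mem1 ht)
    rw [f1 t ht.2, f'1 t ht.2]
    refine ⟨(hh.b0 z).trans ?_, (hh.b1 z).trans ?_⟩
    · have : 2 * m * cE ≤ (2 * K + 2 * cE) * m := by nlinarith
      exact this
    · nlinarith [mul_nonneg hm (by linarith : (0:ℝ) ≤ cE),
        mul_nonneg hm' (by linarith : (0:ℝ) ≤ K), mul_nonneg hm (by linarith : (0:ℝ) ≤ K),
        mul_nonneg hm' (by linarith : (0:ℝ) ≤ cE)]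
  · intro t ht z hz
    rw [f2 t ht.1, f'2 t ht.1]
    have h1 := wb (t - l) ⟨by linarith [ht.1], by linarith [ht.2]⟩ z hz
    have h2 : 2 * m * (K * Real.exp (K / l ^ 2)) ≤
        m * ((2 * K + 2 * cE) * Real.exp ((2 * K + 2 * cE) / l ^ 2)) := by
      have h3 : Real.exp (K / l ^ 2) ≤ Real.exp ((2 * K + 2 * cE) / l ^ 2) := by
        apply Real.exp_le_exp.2
        gcongr
        linarith
      calc 2 * m * (K * Real.exp (K / l ^ 2)) = m * (2 * K * Real.exp (K / l ^ 2)) := by ring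
        _ ≤ m * ((2 * K + 2 * cE) * Real.exp ((2 * K + 2 * cE) / l ^ 2)) := by
            gcongr
            linarith
    exact ⟨h1.1.trans h2, h1.2.trans h2⟩
  · intro y hy t1 ht1 t2 ht2
    have ht2' : t2 ∈ Icc 0 (l + l / D) := ⟨ht1.1.trans ht2.1, ht2.2⟩
    have k1 := key y hy.1 t1 ht1
    have k2 := key y hy.1 t2 ht2'
    have k3 := intervalIntegral.integral_add_adjacent_intervals (ii y 0 ⟨le_rfl, hT⟩ t1 ht1)
      (ii y t1 ht1 t2 ht2')
    linarith

end Pool.Agent.Lib.MP_79abb3_an.P25
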