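import Pool.Agent.Lib.MP_79abb3_an.P25.Approx
import Pool.Agent.Lib.MP_79abb3_an.P25.LocalNull

/-!
P6-5: null controllability of the mode system.
-/

set_option autoImplicit false
set_option linter.unusedSectionVars false

open MeasureTheory Set Filter Topology Function

namespace Pool.Agent.Lib.MP_79abb3_an.P25

section
variable {H : ℝ} [hH : Fact (0 < H)]

private theorem Yn_zero_smul_mc (y : Yn H) : (0:ℝ) • y = 0 := zero_smul ℝ y

private theorem Xn_zero_smul_mc (x : Xn H) : (0:ℝ) • x = 0 := zero_smul ℝ x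

private theorem Bf_zero_left_mc (ω : ℝ) (y : ℤ → Xn H) (n : ℤ) :
    Bf ω (0 : ℤ → Xn H) y n = 0 := by
  have h := (Bf_smul_left ω 0 (0 : ℤ → Xn H) y n).trans (Yn_zero_smul_mc _)
  rw [← h]
  congr 1
  funext m
  exact (Xn_zero_smul_mc _).symm

private theorem Bf_zero_right_mc (ω : ℝ) (x : ℤ → Xn H) (n : ℤ) :
    Bf ω x (0 : ℤ → Xn H) n = 0 := by
  have h := (Bf_smul_right ω 0 x (0 : ℤ → Xn H) n).trans (Yn_zero_smul_mc _)
  rw [← h]
  congr 1
  funext m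
  exact (Xn_zero_smul_mc _).symm

/-- A perturbation of the zero background without forcing is a trajectory. -/
private theorem PT.traj_mc {ω a b : ℝ} {u : ℝ → L1 (Xn H)}
    (h : PT ω a b (fun _ => 0) (fun _ => 0) u) : Traj ω a b ∅ (fun _ => 0) u := by
  refine h.lt.congr (fun _ _ => rfl) (fun t _ n => ?_) (fun _ _ => rfl)
  unfold src
  have h1 : Bf ω ((0 : L1 (Xn H)) : ℤ → Xn H) (u t) n = 0 := Bf_zero_left_mc ω (u t) n
  have h2 : Bf ω (u t) ((0 : L1 (Xn H)) : ℤ → Xn H) n = 0 := Bf_zero_right_mc ω (u t) n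
  have h3 : ((0 : L1 (Yn H)) : ℤ → Yn H) n = 0 := rfl
  rw [h1, h2, h3, zero_add, zero_add, add_zero]

/-- Concatenation of trajectories. -/
private theorem Traj.glue_mc {ω a b c : ℝ} {J J' : Set ℝ} {P P' : ℝ → ℝ} {u u' : ℝ → L1 (Xn H)}
    (h : Traj ω a b J P u) (h' : Traj ω b c J' P' u') (hab : a ≤ b) (hbc : b ≤ c)
    (hu : u b = u' b) : Traj ω a c (J ∪ J' ∪ {b}) (fun t => if t ≤ b then P t else P' t)
      (fun t => if t ≤ b then u t else u' t) := by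
  refine (LT.glue h h' hab hbc (fun n => by rw [hu])).congr (fun _ _ => rfl) (fun t _ n => ?_)
    (fun _ _ => rfl)
  by_cases h1 : t ≤ b
  · simp only [if_pos h1]
  · simp only [if_neg h1]

end

theorem mode_ctrl {H : ℝ} [Fact (0 < H)] (hH : 1 ≤ H)
    (hdir : ∃ S D A : ℝ → (CI H →L[ℂ] CI H), DirSG H S D A) {ω T : ℝ} (hω : 0 < ω) (hT : 0 < T)
    {x0 : L1 (Xn H)} (hd : ∀ n : ℤ, Dmode (ω * n) (x0 n)) (hs : Sy x0) :
    ∃ b ∈ Ioc 0 T, ∃ (J : Set ℝ) (P : ℝ → ℝ) (u : ℝ → L1 (Xn H)),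
      Traj ω 0 b J P u ∧ u 0 = x0 ∧ u b = 0 := by
  set T' := min T 1 / 4 with hT'
  have hm : 0 < min T 1 := lt_min hT one_pos
  have hT'0 : 0 < T' := by rw [hT']; linarith
  have hT'1 : T' ≤ 1 := by
    have := min_le_right T 1
    rw [hT']; linarith
  have hT'T : 3 * T' ≤ T := by
    have := min_le_left T 1
    rw [hT']; linarith
  obtain ⟨Λ, hΛ, happ⟩ := approx_ctrl H hH hdir (ω := ω) hT'0 hT'1
  obtain ⟨μ0, hμ0, hloc⟩ := local_null hH hdir hT'0 hΛ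
  obtain ⟨t0, ht0, u0, hu0, hu00, hsum⟩ := stage0 H hdir hω hd hs hT'0 92
  have ht0m : t0 ∈ Icc 0 t0 := ⟨ht0.1.le, le_rfl⟩
  obtain ⟨b1, hb1, J1, P1, u1, hu1, hu10, hc1, hs1, hj1, hn1⟩ :=
    happ (u0 t0) (hu0.dm t0 ht0m) (hu0.sy t0 ht0m) hsum μ0 hμ0
  obtain ⟨b2, hb2, J2, u2, hu2, hu20, hu2b⟩ := hloc ω (u1 b1) hc1 hs1 hj1 hn1
  -- shifted pieces
  have k1 : Traj ω t0 (b1 + t0) ((fun t => t - t0) ⁻¹' J1) (fun t => P1 (t - t0))
      (fun t => u1 (t - t0)) := by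
    have := LT.shift hu1 t0
    rwa [zero_add] at this
  have k2 : Traj ω (b1 + t0) (b2 + (b1 + t0)) ((fun t => t - (b1 + t0)) ⁻¹' J2) (fun _ => 0)
      (fun t => u2 (t - (b1 + t0))) := by
    have := LT.shift hu2 (b1 + t0)
    rwa [zero_add] at this
  have g1 := Traj.glue_mc hu0.traj_mc k1 ht0.1.le (by linarith [hb1.1])
    (by simp only [sub_self]; exact hu10.symm)
  have g2 := Traj.glue_mc g1 k2 (by linarith [hb1.1, ht0.1]) (by linarith [hb2.1]) (by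
    simp only [sub_self]
    rw [if_neg (by linarith [hb1.1]), add_sub_cancel_right]
    exact hu20.symm)
  refine ⟨b2 + (b1 + t0), ⟨by linarith [hb1.1, hb2.1, ht0.1], by linarith [hb1.2, hb2.2, ht0.2]⟩,
    _, _, _, g2, ?_, ?_⟩
  · rw [if_pos (by linarith [hb1.1, ht0.1]), if_pos ht0.1.le]
    exact hu00
  · rw [if_neg (by linarith [hb2.1]), add_sub_cancel_right]
    exact hu2b

end Pool.Agent.Lib.MP_79abb3_an.P25
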