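import Pool.Agent.Lib.MP_79abb3_an.P25.HEvolve
import Pool.Agent.Lib.MP_79abb3_an.P25.ModeCtrl

/-!
Null controllability of both components.
-/

set_option autoImplicit false
set_option linter.unusedSectionVars false

open MeasureTheory Set Filter Topology Function

namespace Pool.Agent.Lib.MP_79abb3_an.P25

section
variable {H : ℝ} [hH : Fact (0 < H)]

theorem fc_om_zero (k : ℝ) : om k (0 : Yn H) = 0 := by
  refine ci_ext fun t _ => ?_
  simp [om]

theorem fc_vv_zero (k : ℝ) : vv k (0 : Yn H) = 0 := by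
  refine ci_ext fun t _ => ?_
  simp [vv, fc_om_zero]

theorem fc_Om_zero (k : ℝ) : Om k (0 : Xn H) = 0 := by
  refine ci_ext fun t _ => ?_
  simp [Om]

theorem fc_conv_zero (a : ℤ → CI H) (n : ℤ) : conv (fun _ => 0) a n = 0 := by
  simp [conv]

theorem fc_N0_zero (ω : ℝ) (y : ℤ → Xn H) (n : ℤ) : N0 ω ((0 : L1 (Xn H)) : ℤ → Xn H) y n = 0 := by
  have h1 : (fun m : ℤ => vv (ω * m) (jn (((0 : L1 (Xn H)) : ℤ → Xn H) m))) = fun _ => 0 := by
    funext m; exact fc_vv_zero _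
  have h2 : (fun m : ℤ => om (ω * m) (jn (((0 : L1 (Xn H)) : ℤ → Xn H) m))) = fun _ => 0 := by
    funext m; exact fc_om_zero _
  have h3 : (fun m : ℤ => (((0 : L1 (Xn H)) : ℤ → Xn H) m).1.1) = fun _ => 0 := by
    funext m; rfl
  unfold N0
  rw [h1, h2, h3, fc_conv_zero, fc_conv_zero, fc_conv_zero, add_zero, add_zero]

theorem fc_Bf_zero (ω : ℝ) (y : ℤ → Xn H) (n : ℤ) :
    Bf ω ((0 : L1 (Xn H)) : ℤ → Xn H) y n = 0 := by
  have h4 : (fun m : ℤ => Om (ω * m) (((0 : L1 (Xn H)) : ℤ → Xn H) m)) = fun _ => 0 := by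
    funext m; exact fc_Om_zero _
  have h5 : N1 ω ((0 : L1 (Xn H)) : ℤ → Xn H) y n = 0 := by
    unfold N1
    rw [h4, fc_conv_zero, neg_zero]
  have h6 : N2 ω ((0 : L1 (Xn H)) : ℤ → Xn H) y n = 0 := by
    unfold N2
    rw [h4, fc_conv_zero]
  unfold Bf
  rw [fc_N0_zero, h5, h6]
  have h7 : Rν (ω * n) (0 : CI H) 0 0 = 0 := by
    refine ci_ext fun t _ => ?_
    simp [Rν]
  rw [h7, neg_zero]
  rfl

/-- The zero trajectory. -/
theorem fc_LT_zero (ω a b : ℝ) :
    LT ω a b ∅ (fun _ => 0) (fun _ _ => 0) (fun _ => (0 : L1 (Xn H))) where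
  count := countable_empty
  cY := continuousOn_const
  cX := continuousOn_const
  cP := continuousOn_const
  cG := fun _ => continuousOn_const
  bd := ⟨0, fun t _ => ⟨by simp, by simp, fun n => by simp⟩⟩
  cm := fun t _ n =>
    { d1 := fun z _ => hasDerivWithinAt_const z _ (0:ℂ)
      d2 := fun z _ => hasDerivWithinAt_const z _ (0:ℂ)
      e1 := ci_ext fun z _ => by
        rw [ex_rsmul]
        change (0:ℂ) = _ * 0
        rw [mul_zero]
      e2 := ci_ext fun z _ => by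
        rw [ex_rsmul]
        change (0:ℂ) = _ * 0
        rw [mul_zero]
      z1 := rfl
      z2 := rfl }
  z := fun t _ n => ⟨rfl, rfl⟩
  sy := fun t _ n => by
    change (0 : Yn H) = star (0 : Yn H)
    rw [star_zero]
  eq := fun n y _ t1 _ t2 _ => by
    have h : ∀ s : ℝ, (rh (ω * n) (((0 : L1 (Xn H)) n).1.1) (((0 : L1 (Xn H)) n).1.2.1)
        ((0 : Yn H)).1 y + if n = 0 then (((0:ℝ) * y : ℝ) : ℂ) else 0) = 0 := by
      intro s
      change rh (ω * n) (0 : CI H) 0 0 y + _ = 0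
      simp [rh, prim]
    rw [sub_self]
    exact (intervalIntegral.integral_zero.symm.trans
      (intervalIntegral.integral_congr fun s _ => (h s).symm))
  eq' := fun n y _ t1 _ t2 _ => by
    have h : ∀ s : ℝ, (rh (ω * n) (((0 : L1 (Xn H)) n).2.1) (((0 : L1 (Xn H)) n).2.2.1)
        ((0 : Yn H)).2 y) = 0 := by
      intro s
      change rh (ω * n) (0 : CI H) 0 0 y = 0
      simp [rh, prim]
    rw [sub_self]
    exact (intervalIntegral.integral_zero.symm.trans
      (intervalIntegral.integral_congr fun s _ => (h s).symm))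

end

theorem full_ctrl {H : ℝ} [Fact (0 < H)] (hH : 1 ≤ H)
    (hdir : ∃ S D A : ℝ → (CI H →L[ℂ] CI H), DirSG H S D A) {ω T : ℝ} (hω : 0 < ω) (hT : 0 < T)
    {x0 y0 : L1 (Xn H)} (hd : ∀ n : ℤ, Dmode (ω * n) (x0 n)) (hs : Sy x0)
    (hd' : ∀ n : ℤ, Dmode (ω * n) (y0 n)) (hs' : Sy y0) (h2 : ∀ n, (y0 n).2 = 0) :
    ∃ (J : Set ℝ) (P : ℝ → ℝ) (u h : ℝ → L1 (Xn H)), Traj ω 0 T J P u ∧
      LT ω 0 T J (fun _ => 0) (fun t n => (-N0 ω (u t) (h t) n, 0)) h ∧ u 0 = x0 ∧ h 0 = y0 ∧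
      u T = 0 ∧ h T = 0 ∧ ∀ t ∈ Icc 0 T, ∀ n, (h t n).2 = 0 := by
  obtain ⟨b, hb, J, P, u, hu, hu0, hub⟩ := mode_ctrl hH hdir hω (half_pos hT) hd hs
  have hb0 : 0 < b := hb.1
  have hbT : b < T := by linarith [hb.2]
  -- the passive component on `[0,b]`
  obtain ⟨h1, hh1, hh10, hh1p⟩ := h_evolve hdir hb0.le hu.cY hu.sy hd' hs' h2
  -- the linear step
  obtain ⟨D, K, hD, hK, hlin⟩ := lin_step hH
  set l : ℝ := min 1 ((T - b) / 2) with hl
  have hl0 : 0 < l := lt_min one_pos (by linarith)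
  have hl1 : l ≤ 1 := min_le_left _ _
  have hl2 : l ≤ (T - b) / 2 := min_le_right _ _
  have hlD : l / D ≤ l := div_le_self hl0.le hD
  have hlD0 : 0 < l / D := div_pos hl0 (by linarith)
  set c : ℝ := l + l / D with hc
  have hc0 : 0 < c := by positivity
  have hbb : b ∈ Icc 0 b := ⟨hb0.le, le_rfl⟩
  obtain ⟨U, hU, -, hU0, hUc, -, -, hU2⟩ := hlin ω l (h1 b) ⟨hl0, hl1⟩
    (fun n => ((hh1p b hbb).2 n).1.cmode) (hh1p b hbb).1
  have hU2' := hU2 fun n => ((hh1p b hbb).2 n).2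
  have hUs := hU.shift b
  rw [zero_add] at hUs
  have hcT : c + b ≤ T := by linarith
  -- extend by zero
  have hz1 : LT ω (c + b) T ∅ (fun _ => 0) (fun _ _ => 0) (fun _ => (0 : L1 (Xn H))) :=
    fc_LT_zero ω _ _
  have hg1 := hUs.glue hz1 (by linarith) hcT (fun n => by
    rw [add_sub_cancel_right, hUc])
  have hg2 := hh1.glue hg1 hb0.le hbT.le (fun n => by
    simp only
    rw [if_pos (by linarith : b ≤ c + b), sub_self, hU0])
  have hz2 : LT ω b T ∅ (fun _ => 0) (fun _ _ => 0) (fun _ => (0 : L1 (Xn H))) :=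
    fc_LT_zero ω _ _
  have hg3 := LT.glue hu hz2 hb0.le hbT.le (fun n => by rw [hub])
  set u' : ℝ → L1 (Xn H) := fun t => if t ≤ b then u t else 0 with hu'
  set h' : ℝ → L1 (Xn H) := fun t => if t ≤ b then h1 t else
    (if t ≤ c + b then U (t - b) else 0) with hh'
  set JJ : Set ℝ := (J ∪ ∅ ∪ {b}) ∪ (∅ ∪ ((fun t => t - b) ⁻¹' ∅ ∪ ∅ ∪ {c + b}) ∪ {b}) with hJJ
  have hcount : JJ.Countable := hg3.count.union hg2.count
  have hu'b : ∀ t, ¬ t ≤ b → u' t = 0 := fun t ht => if_neg ht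
  have hu'a : ∀ t, t ≤ b → u' t = u t := fun t ht => if_pos ht
  refine ⟨JJ, fun t => if t ≤ b then P t else 0, u', h', ?_, ?_, ?_, ?_, ?_, ?_, ?_⟩
  · have h3 := hg3.mono le_rfl le_rfl (J' := JJ) subset_union_left hcount
    refine h3.congr (fun t _ => rfl) (fun t _ n => ?_) (fun t _ => rfl)
    by_cases ht : t ≤ b
    · rw [if_pos ht, hu'a t ht]
    · rw [if_neg ht, hu'b t ht]
      exact fc_Bf_zero _ _ _
  · have h3 := hg2.mono le_rfl le_rfl (J' := JJ) subset_union_right hcount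
    refine h3.congr (fun t _ => ?_) (fun t _ n => ?_) (fun t _ => rfl)
    · simp
    · by_cases ht : t ≤ b
      · rw [if_pos ht, hu'a t ht]
        have : h' t = h1 t := if_pos ht
        rw [this]
      · rw [if_neg ht, hu'b t ht, fc_N0_zero, neg_zero]
        by_cases ht2 : t ≤ c + b
        · rw [if_pos ht2]; rfl
        · rw [if_neg ht2]; rfl
  · rw [hu'a 0 hb0.le, hu0]
  · have : h' 0 = h1 0 := if_pos hb0.le
    rw [this, hh10]
  · exact hu'b T (not_le.2 hbT)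
  · have h3 : h' T = if T ≤ c + b then U (T - b) else 0 := if_neg (not_le.2 hbT)
    rw [h3]
    by_cases ht : T ≤ c + b
    · rw [if_pos ht]
      have h4 : T - b = c := by linarith
      rw [h4, hUc]
    · rw [if_neg ht]
  · intro t ht n
    by_cases ht1 : t ≤ b
    · have : h' t = h1 t := if_pos ht1
      rw [this]
      exact ((hh1p t ⟨ht.1, ht1⟩).2 n).2
    · have h3 : h' t = if t ≤ c + b then U (t - b) else 0 := if_neg ht1
      rw [h3]
      by_cases ht2 : t ≤ c + b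
      · rw [if_pos ht2]
        exact hU2' _ ⟨by linarith [not_le.1 ht1], by linarith⟩ n
      · rw [if_neg ht2]
        rfl

end Pool.Agent.Lib.MP_79abb3_an.P25
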