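import Mathlib

/-!
Gaussian averages on the line (definitions).
-/

set_option autoImplicit false

open MeasureTheory Set Filter Topology Function

namespace Pool.Agent.Lib.MP_79abb3_an.P25

/-- The heat kernel and its first two derivatives. -/
noncomputable def gK0 (t x : ℝ) : ℝ := (√(4 * Real.pi * t))⁻¹ * Real.exp (-x ^ 2 / (4 * t))
noncomputable def gK1 (t x : ℝ) : ℝ := -(x / (2 * t)) * gK0 t x
noncomputable def gK2 (t x : ℝ) : ℝ := (x ^ 2 / (4 * t ^ 2) - 1 / (2 * t)) * gK0 t x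

/-- Convolutions with the heat kernel and its derivatives. -/
noncomputable def gP0 (t : ℝ) (h : ℝ → ℂ) (z : ℝ) : ℂ := ∫ x, ((gK0 t (z - x) : ℝ) : ℂ) * h x
noncomputable def gP1 (t : ℝ) (h : ℝ → ℂ) (z : ℝ) : ℂ := ∫ x, ((gK1 t (z - x) : ℝ) : ℂ) * h x
noncomputable def gP2 (t : ℝ) (h : ℝ → ℂ) (z : ℝ) : ℂ := ∫ x, ((gK2 t (z - x) : ℝ) : ℂ) * h x

/-- Bounded measurable functions. -/
structure BM (M : ℝ) (h : ℝ → ℂ) : Prop where
  meas : AEStronglyMeasurable h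
  bd : ∀ x, ‖h x‖ ≤ M

end Pool.Agent.Lib.MP_79abb3_an.P25
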