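import Pool.Agent.Lib.MP_79abb3_an.P25.AbsC
import Pool.Agent.Lib.MP_79abb3_an.P25.LTops
import Pool.Agent.Lib.MP_79abb3_an.P25.SymA
import Pool.Agent.Lib.MP_79abb3_an.P25.TI

/-!
PH-1: the evolution of the passive component.
-/

set_option autoImplicit false
set_option linter.unusedSectionVars false

open MeasureTheory Set Filter Topology Function

namespace Pool.Agent.Lib.MP_79abb3_an.P25

section
variable {H : ℝ} [hH : Fact (0 < H)]

/-! ### Lifting `(g, ν)` and projecting to the first component -/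

/-- `(g, ν) ↦ ((g, 0, 0), (ν, 0, 0))` -/
noncomputable def heLift (H : ℝ) [Fact (0 < H)] : Yn H →L[ℝ] Xn H :=
  ((ContinuousLinearMap.fst ℝ (CI H) (CI H)).prod 0).prod
    ((ContinuousLinearMap.snd ℝ (CI H) (CI H)).prod 0)

theorem heLift_apply (y : Yn H) : heLift H y = ((y.1, 0, 0), (y.2, 0, 0)) := rfl

theorem norm_heLift_le (y : Yn H) : ‖heLift H y‖ ≤ 1 * ‖y‖ := by
  rw [heLift_apply, one_mul]
  have h1 := norm_fst_le y
  have h2 := norm_snd_le y
  have h0 := norm_nonneg y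
  simp only [Prod.norm_mk, norm_zero]
  refine max_le (max_le h1 (max_le h0 h0)) (max_le h2 (max_le h0 h0))

/-- The lift of families. -/
noncomputable def heLL (H : ℝ) [Fact (0 < H)] : L1 (Yn H) →L[ℝ] L1 (Xn H) :=
  diagL (fun _ => heLift H) 1 (fun _ => norm_heLift_le)

theorem heLL_apply (y : L1 (Yn H)) (n : ℤ) : heLL H y n = ((((y n).1, 0, 0), ((y n).2, 0, 0)) : Xn H) := rfl

theorem norm_heLL_le (y : L1 (Yn H)) : ‖heLL H y‖ ≤ ‖y‖ := by
  have := norm_diagL_le (fun _ => heLift H) 1 (fun _ => norm_heLift_le) y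
  rwa [one_mul] at this

/-- `(g, ν) ↦ (g, 0)` -/
noncomputable def heP (H : ℝ) [Fact (0 < H)] : Yn H →L[ℝ] Yn H :=
  (ContinuousLinearMap.fst ℝ (CI H) (CI H)).prod 0

theorem norm_heP_le (y : Yn H) : ‖heP H y‖ ≤ 1 * ‖y‖ := by
  rw [one_mul]
  exact max_le (norm_fst_le y) ((norm_zero (E := CI H)).le.trans (norm_nonneg y))

/-- The projection of families. -/
noncomputable def hePL (H : ℝ) [Fact (0 < H)] : L1 (Yn H) →L[ℝ] L1 (Yn H) :=
  diagL (fun _ => heP H) 1 (fun _ => norm_heP_le)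

theorem hePL_apply (y : L1 (Yn H)) (n : ℤ) : hePL H y n = (((y n).1, 0) : Yn H) := rfl

theorem norm_hePL_le (y : L1 (Yn H)) : ‖hePL H y‖ ≤ ‖y‖ := by
  have := norm_diagL_le (fun _ => heP H) 1 (fun _ => norm_heP_le) y
  rwa [one_mul] at this

theorem N0_congr_jn (ω : ℝ) {x x' y : ℤ → Xn H} (h : ∀ m, jn (x m) = jn (x' m)) (n : ℤ) :
    N0 ω x y n = N0 ω x' y n := by
  have h1 : (fun m => (x m).1.1) = fun m => (x' m).1.1 := by
    funext m
    have h2 : (jn (x m)).1 = (jn (x' m)).1 := by rw [h m]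
    exact h2
  simp only [N0, h, h1]

/-! ### The linear operators -/

/-- `x ↦ (-N0 ω V x, 0)` -/
noncomputable def heΛ (B : L1 (Xn H) →L[ℝ] L1 (Xn H) →L[ℝ] L1 (Yn H)) (V : ℝ → L1 (Xn H)) (t : ℝ) :
    L1 (Xn H) →L[ℝ] L1 (Yn H) := (hePL H).comp (B (heLL H (jL H (V t))))

theorem heΛ_apply {ω : ℝ} {B : L1 (Xn H) →L[ℝ] L1 (Xn H) →L[ℝ] L1 (Yn H)}
    (hB : IsBW ω (fun _ => 1) B) (V : ℝ → L1 (Xn H)) (t : ℝ) (x : L1 (Xn H)) (n : ℤ) :
    heΛ B V t x n = ((-N0 ω (V t) x n, 0) : Yn H) := by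
  rw [heΛ, ContinuousLinearMap.comp_apply, hePL_apply, hB]
  simp only [inv_one, one_smul]
  rw [Bf, N0_congr_jn ω (x' := V t)]
  intro m
  rfl

theorem norm_heΛ_le {B : L1 (Xn H) →L[ℝ] L1 (Xn H) →L[ℝ] L1 (Yn H)} {C : ℝ}
    (hB : BilB (jL H) B C) (hC : 0 ≤ C) (V : ℝ → L1 (Xn H)) (t : ℝ) (x : L1 (Xn H)) :
    ‖heΛ B V t x‖ ≤ 2 * C * ‖jL H (V t)‖ * ‖x‖ := by
  have h1 : ‖heΛ B V t x‖ ≤ ‖B (heLL H (jL H (V t))) x‖ := norm_hePL_le _
  refine h1.trans ((hB _ _).trans ?_)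
  have h2 := norm_heLL_le (jL H (V t))
  have h3 : jL H (heLL H (jL H (V t))) = jL H (V t) := rfl
  have h4 : ‖jL H x‖ ≤ ‖x‖ := by
    have := norm_diagL_le (fun _ => jnL H) 1 (fun _ => norm_jnL_le) x
    rwa [one_mul] at this
  rw [h3]
  calc C * (‖jL H (V t)‖ * ‖x‖ + ‖heLL H (jL H (V t))‖ * ‖jL H x‖) ≤
      C * (‖jL H (V t)‖ * ‖x‖ + ‖jL H (V t)‖ * ‖x‖) := by gcongr
    _ = _ := by ring

theorem heΛ_cont {B : L1 (Xn H) →L[ℝ] L1 (Xn H) →L[ℝ] L1 (Yn H)} {V : ℝ → L1 (Xn H)} {s : Set ℝ}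
    (hV : ContinuousOn (fun t => jL H (V t)) s) {u : ℝ → L1 (Xn H)} (hu : ContinuousOn u s) :
    ContinuousOn (fun t => heΛ B V t (u t)) s := by
  have h1 : ContinuousOn (fun t => B (heLL H (jL H (V t)))) s :=
    B.continuous.comp_continuousOn ((heLL H).continuous.comp_continuousOn hV)
  exact (hePL H).continuous.comp_continuousOn (h1.clm_apply hu)

theorem hePL_cj (y : L1 (Yn H)) : hePL H (cjL _ y) = cjL _ (hePL H y) := by
  refine lp.ext (funext fun n => ?_)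
  rw [cjL_apply, hePL_apply, hePL_apply, cjL_apply]
  exact Prod.ext rfl (star_zero _).symm

theorem heΛ_cj {ω : ℝ} {B : L1 (Xn H) →L[ℝ] L1 (Xn H) →L[ℝ] L1 (Yn H)}
    (hB : IsBW ω (fun _ => 1) B) {V : ℝ → L1 (Xn H)} {t : ℝ} (hV : Sy fun n => jn (V t n))
    (x : L1 (Xn H)) : heΛ B V t (cjL _ x) = cjL _ (heΛ B V t x) := by
  have h1 : cjL _ (heLL H (jL H (V t))) = heLL H (jL H (V t)) := by
    rw [cjL_eq_iff]
    intro n
    have h2 := hV n
    rw [heLL_apply, heLL_apply, jL_apply, jL_apply]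
    have h3 : (jn (V t (-n))).1 = star (jn (V t n)).1 := congrArg Prod.fst h2
    have h4 : (jn (V t (-n))).2 = star (jn (V t n)).2 := congrArg Prod.snd h2
    rw [h3, h4]
    refine Prod.ext (Prod.ext rfl ?_) (Prod.ext rfl ?_)
    · exact (star_zero _).symm
    · exact (star_zero _).symm
  change hePL H (B (heLL H (jL H (V t))) (cjL _ x)) = cjL _ (hePL H (B (heLL H (jL H (V t))) x))
  rw [← hePL_cj, ← B_cj (fun _ => rfl) hB, h1]

/-! ### From mild solutions to integrated equations -/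

theorem he_left {F φ : ℝ → ℂ} {s b : ℝ} (hF : ContinuousOn F (Icc s b))
    (hφ : ∀ t ∈ Icc s b, IntervalIntegrable φ volume s t)
    (h : ∀ t1 ∈ Ioc s b, ∀ t2 ∈ Icc t1 b, F t2 - F t1 = ∫ r in t1..t2, φ r) :
    ∀ t1 ∈ Icc s b, ∀ t2 ∈ Icc t1 b, F t2 - F t1 = ∫ r in t1..t2, φ r := by
  intro t1 h1 t2 h2
  rcases h1.1.eq_or_lt with e | e
  swap
  · exact h t1 ⟨e, h1.2⟩ t2 h2
  subst e
  rcases h2.1.eq_or_lt with e | e
  · subst e; simp
  have hI := hφ t2 h2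
  have hc : ContinuousOn (fun x => ∫ r in s..x, φ r) (uIcc s t2) := by
    refine intervalIntegral.continuousOn_primitive_interval ?_
    rw [uIcc_of_le e.le]
    rwa [intervalIntegrable_iff_integrableOn_Icc_of_le e.le] at hI
  rw [uIcc_of_le e.le] at hc
  have t1 : Tendsto (fun x => ∫ r in s..x, φ r) (𝓝[>] s) (𝓝 0) := by
    have h3 := hc s ⟨le_rfl, e.le⟩
    have h4 : Tendsto (fun x => ∫ r in s..x, φ r) (𝓝[Icc s t2] s) (𝓝 (∫ r in s..s, φ r)) := h3
    rw [intervalIntegral.integral_same] at h4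
    exact h4.mono_left (nhdsWithin_le_iff.2 (mem_of_superset (Ioc_mem_nhdsGT e)
      fun x hx => ⟨hx.1.le, hx.2⟩))
  have t3 : Tendsto F (𝓝[>] s) (𝓝 (F s)) := by
    have h3 := hF s ⟨le_rfl, h2.1.trans h2.2⟩
    exact Tendsto.mono_left h3 (nhdsWithin_le_iff.2 (mem_of_superset
      (Ioc_mem_nhdsGT (e.trans_le h2.2)) fun x hx => ⟨hx.1.le, hx.2⟩))
  have t4 : Tendsto (fun x => F t2 - F x) (𝓝[>] s) (𝓝 (F t2 - F s)) := tendsto_const_nhds.sub t3
  have t5 : Tendsto (fun x => (∫ r in s..t2, φ r) - ∫ r in s..x, φ r) (𝓝[>] s)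
      (𝓝 ((∫ r in s..t2, φ r) - 0)) := tendsto_const_nhds.sub t1
  rw [sub_zero] at t5
  refine tendsto_nhds_unique t4 (t5.congr' ?_)
  filter_upwards [Ioc_mem_nhdsGT e] with x hx
  rw [h x ⟨hx.1, hx.2.trans h2.2⟩ t2 ⟨hx.2, h2.2⟩]
  have hx1 := hφ x ⟨hx.1.le, hx.2.trans h2.2⟩
  rw [intervalIntegral.integral_interval_sub_left hI hx1]

theorem he_bil0 : BilB (jL H) (0 : L1 (Xn H) →L[ℝ] L1 (Xn H) →L[ℝ] L1 (Yn H)) 1 := by
  intro x y
  have h : ((0 : L1 (Xn H) →L[ℝ] L1 (Xn H) →L[ℝ] L1 (Yn H)) x) y = 0 := rfl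
  rw [h, norm_zero]
  positivity

theorem he_coef {s b M : ℝ} (hM : 0 ≤ M) {Λ : ℝ → (L1 (Xn H) →L[ℝ] L1 (Yn H))}
    (cΛ : ∀ x, ContinuousOn (fun t => Λ t x) (Ioc s b))
    (bΛ : ∀ t ∈ Ioc s b, ∀ x, ‖Λ t x‖ ≤ M * ‖x‖) :
    Coef (jL H) s b M 0 Λ (fun _ => 0) where
  cΛ := cΛ
  cF := continuousOn_const
  bΛ := fun t ht x => by
    refine (bΛ t ht x).trans ?_
    have h1 : 0 ≤ (√(t - s))⁻¹ * ‖jL H x‖ := by positivity
    gcongr
    linarith
  bF := fun t ht => by rw [norm_zero, zero_mul]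

theorem he_LT {S D A : ℝ → (CI H →L[ℂ] CI H)} (hS : DirSG H S D A) {ω s b M : ℝ} (hM : 0 ≤ M)
    (hsb : s < b) (hsb' : b ≤ s + 1) {Λ : ℝ → (L1 (Xn H) →L[ℝ] L1 (Yn H))}
    (cΛ : ∀ v : ℝ → L1 (Xn H), ContinuousOn v (Icc s b) → ContinuousOn (fun t => Λ t (v t)) (Icc s b))
    (bΛ : ∀ t ∈ Ioc s b, ∀ x, ‖Λ t x‖ ≤ M * ‖x‖) {x0 : L1 (Xn H)}
    (hd : ∀ n : ℤ, Dmode (ω * n) (x0 n)) {u : ℝ → L1 (Xn H)}
    (h : Mild (jL H) (TT hS ω) 0 Λ (fun _ => 0) s b (jL H x0) u) (hus : u s = x0)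
    (hsy : ∀ t ∈ Icc s b, Sy (u t)) :
    LT ω s b ∅ (fun _ => 0) (fun t n => Λ t (u t) n) u ∧
      ∀ t ∈ Icc s b, ∀ n : ℤ, Dmode (ω * n) (u t n) := by
  have hX : CompleteSpace (L1 (Xn H)) := complete_L1 _
  have hT : SG (jL H) (TT hS ω) 1 := sg_TT hS ω le_rfl
  have hB := he_bil0 (H := H)
  have cΛ' : ∀ x, ContinuousOn (fun t => Λ t x) (Ioc s b) := fun x =>
    (cΛ (fun _ => x) continuousOn_const).mono Ioc_subset_Icc_self
  have hC := he_coef hM cΛ' bΛ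
  have hdm := Mild.dmode hS hB le_rfl hM hsb' hC h
  have hreg := Mild.reg hT hB hsb' hsb hM cΛ' continuousOn_const bΛ
    (fun t _ => by rw [norm_zero]; exact hM) (TT_init hS ω hd).1 h
  have hcu : ContinuousOn u (Icc s b) := by
    intro t ht
    rcases ht.1.eq_or_lt with e | e
    · subst e
      have h1 : ContinuousWithinAt u (Ici s) s := by
        rw [← continuousWithinAt_Ioi_iff_Ici]
        change Tendsto u (𝓝[>] s) (𝓝 (u s))
        rw [hus]
        exact hreg.1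
      exact h1.mono Icc_subset_Ici_self
    · refine (h.cont t ⟨e, ht.2⟩).mono_of_mem_nhdsWithin ?_
      filter_upwards [nhdsWithin_le_nhds (Ioi_mem_nhds e), self_mem_nhdsWithin] with r h1 h2
      exact ⟨h1, h2.2⟩
  have hdm' : ∀ t ∈ Icc s b, ∀ n : ℤ, Dmode (ω * n) (u t n) := by
    intro t ht n
    rcases ht.1.eq_or_lt with e | e
    · subst e; rw [hus]; exact hd n
    · exact hdm t ⟨e, ht.2⟩ n
  have hG := cΛ u hcu
  obtain ⟨R1, hR1⟩ := isCompact_Icc.exists_bound_of_continuousOn hcu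
  obtain ⟨R2, hR2⟩ := isCompact_Icc.exists_bound_of_continuousOn hG
  have hmode : ∀ t ∈ Ioc s b, ∀ n : ℤ,
      IntervalIntegrable (fun r => Tn S D (ω * n) (t - r) (Λ r (u r) n)) volume s t ∧
      u t n = Tn S D (ω * n) (t - s) (jn (x0 n)) +
        ∫ r in s..t, Tn S D (ω * n) (t - r) (Λ r (u r) n) := by
    intro t ht n
    have h1 := Mild.mode_aux hS hB le_rfl hM hsb' hC h t ht n
    have h2 : ∀ r, Λ r (u r) + (0 : L1 (Xn H) →L[ℝ] L1 (Xn H) →L[ℝ] L1 (Yn H)) (u r) (u r) + 0 =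
        Λ r (u r) := fun r => by
      rw [add_zero]; exact add_zero _
    simp only [h2] at h1
    exact h1
  have hGn : ∀ n : ℤ, ContinuousOn (fun t => Λ t (u t) n) (Icc s b) := fun n =>
    (evN (Yn H) n).continuous.comp_continuousOn hG
  have hR2' : ∀ n : ℤ, ∀ t ∈ Icc s b, ‖Λ t (u t) n‖ ≤ R2 := fun n t ht =>
    (norm_le_l1 n _).trans (hR2 t ht)
  have hR20 : 0 ≤ R2 := (norm_nonneg _).trans (hR2 s ⟨le_rfl, hsb.le⟩)
  have hsing : ∀ t ∈ Ioc s b, R2 ≤ R2 * (√(t - s))⁻¹ := fun t ht => by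
    have := one_le_inv_sqrt (x := t - s) (by linarith [ht.1]) (by linarith [ht.2])
    nlinarith
  have huq : ∀ (n : ℤ) (q : Xn H →L[ℝ] CI H), ContinuousOn (fun t => q (u t n)) (Icc s b) :=
    fun n q => q.continuous.comp_continuousOn ((evN (Xn H) n).continuous.comp_continuousOn hcu)
  refine ⟨⟨countable_empty, (jL H).continuous.comp_continuousOn hcu, hcu.mono sdiff_subset,
    continuousOn_const, fun n => (hGn n).mono sdiff_subset, ⟨max R1 R2, ?_⟩, ?_, ?_, ?_, ?_, ?_⟩,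
    hdm'⟩
  · intro t ht
    refine ⟨?_, (hR1 t ht.1).trans (le_max_left _ _), fun n => (hR2' n t ht.1).trans (le_max_right _ _)⟩
    rw [abs_zero]
    exact hR20.trans (le_max_right _ _)
  · intro t ht n
    exact (hdm' t ht.1 n).cmode
  · intro t ht n
    exact ⟨(hdm' t ht n).z1, (hdm' t ht n).z2⟩
  · intro t ht n
    have h1 := hsy t ht n
    show jn (u t (-n)) = star (jn (u t n))
    rw [h1]; rfl
  · intro n y hy
    have h1 := ti_mode hS (k := ω * n) (s := s) (b := b) (f0 := (jn (x0 n)).1)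
      (n := fun r => (Λ r (u r) n).1) (f := fun t => q1 H (u t n)) (f1 := fun t => q2 H (u t n))
      (R := R2) ((continuous_fst.comp_continuousOn (hGn n)).mono Ioc_subset_Icc_self)
      (fun t ht => ((norm_fst_le _).trans (hR2' n t (Ioc_subset_Icc_self ht))).trans (hsing t ht))
      (fun t ht => by
        obtain ⟨hI, he⟩ := hmode t ht n
        have h2 := congrArg (q1 H) he
        rw [map_add, ← ContinuousLinearMap.intervalIntegral_comp_comm _ hI] at h2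
        exact h2)
      (fun t ht => by
        obtain ⟨hI, he⟩ := hmode t ht n
        have h2 := congrArg (q2 H) he
        rw [map_add, ← ContinuousLinearMap.intervalIntegral_comp_comm _ hI] at h2
        exact h2)
    have hi : ∀ t ∈ Icc s b, IntervalIntegrable
        (fun r => rh (ω * n) (q1 H (u r n)) (q2 H (u r n)) (Λ r (u r) n).1 y) volume s t := by
      intro t ht
      have h3 := integrand_ok (ω := ω) (y := y) (P := fun _ => 0) (J := ∅) (R := max R1 R2)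
        (G := fun r => (Λ r (u r) n).1) (u := u) (q1 H) (q2 H) n countable_empty
        (hcu.mono sdiff_subset) continuousOn_const
        ((continuous_fst.comp_continuousOn (hGn n)).mono sdiff_subset)
        (fun t ht => by rw [abs_zero]; exact hR20.trans (le_max_right _ _))
        (fun t ht => (hR1 t ht.1).trans (le_max_left _ _))
        (fun t ht => (norm_fst_le _).trans ((hR2' n t ht.1).trans (le_max_right _ _)))
        (left_mem_Icc.2 hsb.le) ht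
      refine h3.congr fun r _ => ?_
      simp only [zero_mul, Complex.ofReal_zero, ite_self, add_zero]
    have h4 := he_left (F := fun t => prim (q1 H (u t n)) y)
      ((primL y).continuous.comp_continuousOn (huq n (q1 H))) hi
      (fun t1 ht1 t2 ht2 => h1 t1 ht1 t2 ht2 y hy)
    intro t1 ht1 t2 ht2
    simp only [zero_mul, Complex.ofReal_zero, ite_self, add_zero]
    exact h4 t1 ht1 t2 ht2
  · intro n y hy
    have h1 := ti_mode hS (k := ω * n) (s := s) (b := b) (f0 := (jn (x0 n)).2)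
      (n := fun r => (Λ r (u r) n).2) (f := fun t => q4 H (u t n)) (f1 := fun t => q5 H (u t n))
      (R := R2) ((continuous_snd.comp_continuousOn (hGn n)).mono Ioc_subset_Icc_self)
      (fun t ht => ((norm_snd_le _).trans (hR2' n t (Ioc_subset_Icc_self ht))).trans (hsing t ht))
      (fun t ht => by
        obtain ⟨hI, he⟩ := hmode t ht n
        have h2 := congrArg (q4 H) he
        rw [map_add, ← ContinuousLinearMap.intervalIntegral_comp_comm _ hI] at h2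
        exact h2)
      (fun t ht => by
        obtain ⟨hI, he⟩ := hmode t ht n
        have h2 := congrArg (q5 H) he
        rw [map_add, ← ContinuousLinearMap.intervalIntegral_comp_comm _ hI] at h2
        exact h2)
    have hi : ∀ t ∈ Icc s b, IntervalIntegrable
        (fun r => rh (ω * n) (q4 H (u r n)) (q5 H (u r n)) (Λ r (u r) n).2 y) volume s t := by
      intro t ht
      have h3 := integrand_ok (ω := ω) (y := y) (P := fun _ => 0) (J := ∅) (R := max R1 R2)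
        (G := fun r => (Λ r (u r) n).2) (u := u) (q4 H) (q5 H) n countable_empty
        (hcu.mono sdiff_subset) continuousOn_const
        ((continuous_snd.comp_continuousOn (hGn n)).mono sdiff_subset)
        (fun t ht => by rw [abs_zero]; exact hR20.trans (le_max_right _ _))
        (fun t ht => (hR1 t ht.1).trans (le_max_left _ _))
        (fun t ht => (norm_snd_le _).trans ((hR2' n t ht.1).trans (le_max_right _ _)))
        (left_mem_Icc.2 hsb.le) ht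
      refine h3.congr fun r _ => ?_
      simp only [zero_mul, Complex.ofReal_zero, ite_self, add_zero]
    exact he_left (F := fun t => prim (q4 H (u t n)) y)
      ((primL y).continuous.comp_continuousOn (huq n (q4 H))) hi
      (fun t1 ht1 t2 ht2 => h1 t1 ht1 t2 ht2 y hy)

/-! ### Properties of the linear mild solutions -/

theorem he_zero_add {Λ : ℝ → (L1 (Xn H) →L[ℝ] L1 (Yn H))} (r : ℝ) (x : L1 (Xn H)) :
    Λ r x + (0 : L1 (Xn H) →L[ℝ] L1 (Xn H) →L[ℝ] L1 (Yn H)) x x + 0 = Λ r x := by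
  rw [add_zero]; exact add_zero _

theorem he_sym {S D A : ℝ → (CI H →L[ℂ] CI H)} (hS : DirSG H S D A) {ω s b M : ℝ} (hM : 0 ≤ M)
    (hsb' : b ≤ s + 1) {Λ : ℝ → (L1 (Xn H) →L[ℝ] L1 (Yn H))}
    (cΛ : ∀ x, ContinuousOn (fun t => Λ t x) (Ioc s b))
    (bΛ : ∀ t ∈ Ioc s b, ∀ x, ‖Λ t x‖ ≤ M * ‖x‖)
    (hcj : ∀ t ∈ Ioc s b, ∀ x, Λ t (cjL _ x) = cjL _ (Λ t x)) {u0 : L1 (Yn H)} (hu0 : Sy u0)
    {u : ℝ → L1 (Xn H)}
    (h : Mild (jL H) (TT hS ω) 0 Λ (fun _ => 0) s b u0 u) : ∀ t ∈ Ioc s b, Sy (u t) := by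
  have hX : CompleteSpace (L1 (Xn H)) := complete_L1 _
  have hY : CompleteSpace (L1 (Yn H)) := complete_L1 _
  have hT : SG (jL H) (TT hS ω) 1 := sg_TT hS ω le_rfl
  have hB := he_bil0 (H := H)
  have hc := he_coef hM cΛ bΛ
  obtain ⟨hNc, R1, hR1, hNb⟩ := Mild.rhs hT hB hM hc h
  have hint := (duhamel hT hsb' hR1 hNc hNb).1
  have h' : Mild (jL H) (TT hS ω) 0 Λ (fun _ => 0) s b u0 (fun t => cjL _ (u t)) := by
    refine ⟨(cjL (Xn H)).continuous.comp_continuousOn h.cont, ?_, ?_⟩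
    · obtain ⟨R, hR⟩ := h.bd
      refine ⟨R, fun t ht => ?_⟩
      rw [jL_cj, norm_cjL, norm_cjL]
      exact hR t ht
    · intro t ht
      have e := congrArg (cjL (Xn H)) (h.eq t ht)
      rw [map_add, ← TT_cj, (cjL_eq_iff u0).2 hu0,
        ← ContinuousLinearMap.intervalIntegral_comp_comm _ (hint t ht)] at e
      rw [e]
      congr 1
      refine intervalIntegral.integral_congr_ae (Filter.Eventually.of_forall fun r hr => ?_)
      rw [uIoc_of_le ht.1.le] at hr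
      have hr' : r ∈ Ioc s b := ⟨hr.1, hr.2.trans ht.2⟩
      simp only [he_zero_add]
      rw [← TT_cj, hcj r hr']
  intro t ht
  exact (cjL_eq_iff (u t)).1 (Mild.unique hT hB hsb' hc h h' t ht).symm

theorem he_snd {S D A : ℝ → (CI H →L[ℂ] CI H)} (hS : DirSG H S D A) {ω s b M : ℝ} (hM : 0 ≤ M)
    (hsb' : b ≤ s + 1) {Λ : ℝ → (L1 (Xn H) →L[ℝ] L1 (Yn H))}
    (cΛ : ∀ x, ContinuousOn (fun t => Λ t x) (Ioc s b))
    (bΛ : ∀ t ∈ Ioc s b, ∀ x, ‖Λ t x‖ ≤ M * ‖x‖)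
    (h2 : ∀ t ∈ Ioc s b, ∀ x n, (Λ t x n).2 = 0) {u0 : L1 (Yn H)} (hu0 : ∀ n, (u0 n).2 = 0)
    {u : ℝ → L1 (Xn H)}
    (h : Mild (jL H) (TT hS ω) 0 Λ (fun _ => 0) s b u0 u) : ∀ t ∈ Ioc s b, ∀ n, (u t n).2 = 0 := by
  intro t ht n
  have hB := he_bil0 (H := H)
  have hc := he_coef hM cΛ bΛ
  obtain ⟨hI, he⟩ := Mild.mode_aux hS hB le_rfl hM hsb' hc h t ht n
  simp only [he_zero_add] at hI he
  have hz : ∀ (k r : ℝ) (y : Yn H), y.2 = 0 → (Tn S D k r y).2 = 0 := by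
    intro k r y hy
    have h0 : ∀ c : ℝ, c • (0 : CI H) = 0 := fun c =>
      ci_ext fun z _ => by rw [ex_rsmul, ex_zero, mul_zero]
    have h1 : (Tn S D k r y).2 = Real.exp (-k ^ 2 * r) • ((S r y.2, D r y.2, |k| • S r y.2) :
      CI H × CI H × CI H) := rfl
    rw [h1, hy, map_zero, map_zero, h0, Prod.smul_mk, Prod.smul_mk, h0]
    rfl
  have e := congrArg (ContinuousLinearMap.snd ℝ (CI H × CI H × CI H) (CI H × CI H × CI H)) he
  rw [map_add, ← ContinuousLinearMap.intervalIntegral_comp_comm _ hI] at e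
  have e2 : ∫ r in s..t, ContinuousLinearMap.snd ℝ (CI H × CI H × CI H) (CI H × CI H × CI H)
      (Tn S D (ω * n) (t - r) (Λ r (u r) n)) = ∫ r in s..t, (0 : CI H × CI H × CI H) := by
    refine intervalIntegral.integral_congr_ae (Filter.Eventually.of_forall fun r hr => ?_)
    rw [uIoc_of_le ht.1.le] at hr
    exact hz _ _ _ (h2 r ⟨hr.1, hr.2.trans ht.2⟩ _ _)
  rw [e2] at e
  have e3 : ContinuousLinearMap.snd ℝ (CI H × CI H × CI H) (CI H × CI H × CI H)
      (Tn S D (ω * n) (t - s) (u0 n)) = 0 := hz _ _ _ (hu0 n)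
  rw [e3, intervalIntegral.integral_zero, add_zero] at e
  exact e

theorem he_scale {S D A : ℝ → (CI H →L[ℂ] CI H)} (hS : DirSG H S D A) {ω s b : ℝ}
    {Λ : ℝ → (L1 (Xn H) →L[ℝ] L1 (Yn H))} {u0 : L1 (Yn H)}
    {u : ℝ → L1 (Xn H)} (c : ℝ)
    (h : Mild (jL H) (TT hS ω) 0 Λ (fun _ => 0) s b u0 u) :
    Mild (jL H) (TT hS ω) 0 Λ (fun _ => 0) s b (c • u0) (fun t => c • u t) := by
  refine ⟨h.cont.const_smul c, ?_, ?_⟩
  · obtain ⟨R, hR⟩ := h.bd
    refine ⟨|c| * R, fun t ht => ?_⟩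
    obtain ⟨h1, h2⟩ := hR t ht
    rw [map_smul, norm_smul, norm_smul, Real.norm_eq_abs]
    constructor
    · calc √(t - s) * (|c| * ‖u t‖) = |c| * (√(t - s) * ‖u t‖) := by ring
        _ ≤ |c| * R := by gcongr
    · gcongr
  · intro t ht
    have e := congrArg (fun x => c • x) (h.eq t ht)
    simp only [smul_add, ← intervalIntegral.integral_smul] at e
    rw [e, map_smul]
    congr 1
    refine intervalIntegral.integral_congr_ae (Filter.Eventually.of_forall fun r hr => ?_)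
    simp only [he_zero_add]
    rw [map_smul, map_smul]

/-! ### One step -/

theorem he_smul_zero {E : Type} [NormedAddCommGroup E] [NormedSpace ℝ E] (c : ℝ) :
    c • (0 : E) = 0 := smul_zero c

theorem he_step {S D A : ℝ → (CI H →L[ℂ] CI H)} (hS : DirSG H S D A) {ω b : ℝ}
    {V : ℝ → L1 (Xn H)} (hV : ContinuousOn (fun t => jL H (V t)) (Icc 0 b))
    (hVs : ∀ t ∈ Icc 0 b, Sy (fun n => jn (V t n))) :
    ∃ τ0 > 0, ∀ s τ : ℝ, 0 ≤ s → 0 < τ → τ ≤ τ0 → s + τ ≤ b → ∀ x0 : L1 (Xn H),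
      (∀ n : ℤ, Dmode (ω * n) (x0 n)) → Sy x0 → (∀ n, (x0 n).2 = 0) →
      ∃ h : ℝ → L1 (Xn H), LT ω s (s + τ) ∅ (fun _ => 0) (fun t n => (-N0 ω (V t) (h t) n, 0)) h ∧
        h s = x0 ∧ ∀ t ∈ Icc s (s + τ), Sy (h t) ∧ ∀ n : ℤ, Dmode (ω * n) (h t n) ∧ (h t n).2 = 0 := by
  have hX : CompleteSpace (L1 (Xn H)) := complete_L1 _
  have hY : CompleteSpace (L1 (Yn H)) := complete_L1 _
  obtain ⟨C, hC, hEx⟩ := exists_BW H
  obtain ⟨B, hBW, hB⟩ := hEx ω 1 (fun _ => 1) le_rfl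
    ⟨fun _ => le_rfl, fun _ _ => by norm_num, rfl⟩
  rw [mul_one] at hB
  obtain ⟨R, hR⟩ := isCompact_Icc.exists_bound_of_continuousOn hV
  have hT : SG (jL H) (TT hS ω) 1 := sg_TT hS ω le_rfl
  obtain ⟨c, hc, K, hK, hLEX⟩ := LEX hT (he_bil0 (H := H))
  set M : ℝ := 2 * C * |R| with hMdef
  have hM : 0 ≤ M := by positivity
  refine ⟨min 1 ((c / (M + 1)) ^ 2), lt_min one_pos (by positivity), ?_⟩
  intro s τ hs hτ hτ0 hsτ x0 hd hsy h2
  have hτ1 : τ ≤ 1 := hτ0.trans (min_le_left _ _)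
  have hτ2 : √τ ≤ c / (M + 1) := by
    rw [Real.sqrt_le_left (by positivity)]
    exact hτ0.trans (min_le_right _ _)
  have hsub : Icc s (s + τ) ⊆ Icc 0 b := Icc_subset_Icc hs hsτ
  have hsub' : Ioc s (s + τ) ⊆ Icc 0 b := Ioc_subset_Icc_self.trans hsub
  have cΛ : ∀ v : ℝ → L1 (Xn H), ContinuousOn v (Icc s (s + τ)) →
      ContinuousOn (fun t => heΛ B V t (v t)) (Icc s (s + τ)) := fun v hv =>
    heΛ_cont (hV.mono hsub) hv
  have cΛ' : ∀ x, ContinuousOn (fun t => heΛ B V t x) (Ioc s (s + τ)) := fun x =>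
    (cΛ (fun _ => x) continuousOn_const).mono Ioc_subset_Icc_self
  have bΛ : ∀ t ∈ Ioc s (s + τ), ∀ x, ‖heΛ B V t x‖ ≤ M * ‖x‖ := by
    intro t ht x
    refine (norm_heΛ_le hB (by linarith) V t x).trans ?_
    have h1 : ‖jL H (V t)‖ ≤ |R| := (hR t (hsub' ht)).trans (le_abs_self R)
    rw [hMdef]
    gcongr
  -- scaling of the datum
  set l : ℝ := (‖x0‖ + 1)⁻¹ with hl
  have hx0 := norm_nonneg x0
  have hl0 : 0 < l := by positivity
  have hlx : ‖l • x0‖ ≤ 1 := by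
    rw [norm_smul, Real.norm_eq_abs, abs_of_pos hl0, hl, inv_mul_le_iff₀ (by positivity)]
    linarith
  have hd' : ∀ n : ℤ, Dmode (ω * n) ((l • x0) n) := by
    intro n
    have h0 : (l • x0) n = l • x0 n := rfl
    rw [h0, dmode_iff, map_smul, (dmode_iff _ _).1 (hd n)]
    exact he_smul_zero l
  obtain ⟨u, hu, -⟩ := hLEX s τ M 0 (l • x0) (heΛ B V) (fun _ => 0) hτ hτ1 hM le_rfl cΛ'
    continuousOn_const bΛ (fun t _ => by rw [norm_zero])
    (TT_init hS ω hd').2 (by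
      rw [mul_zero, add_zero]
      calc √τ * (M + ‖l • x0‖) ≤ c / (M + 1) * (M + 1) := by gcongr
        _ = c := by field_simp)
  have hu1 := he_scale hS l⁻¹ hu
  have e1 : l⁻¹ • jL H (l • x0) = jL H x0 := by
    rw [map_smul, smul_smul, inv_mul_cancel₀ hl0.ne', one_smul]
  rw [e1] at hu1
  -- change the value at the initial time
  set h : ℝ → L1 (Xn H) := Function.update (fun t => l⁻¹ • u t) s x0 with hh
  have hne : ∀ t ∈ Ioc s (s + τ), h t = l⁻¹ • u t := fun t ht => by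
    rw [hh, Function.update_of_ne ht.1.ne']
  have hmild : Mild (jL H) (TT hS ω) 0 (heΛ B V) (fun _ => 0) s (s + τ) (jL H x0) h := by
    refine ⟨hu1.cont.congr hne, ?_, ?_⟩
    · obtain ⟨R', hR'⟩ := hu1.bd
      refine ⟨R', fun t ht => ?_⟩
      rw [hne t ht]
      exact hR' t ht
    · intro t ht
      rw [hne t ht, hu1.eq t ht]
      congr 1
      refine intervalIntegral.integral_congr_ae (Filter.Eventually.of_forall fun r hr => ?_)
      rw [uIoc_of_le ht.1.le] at hr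
      have e := hne r ⟨hr.1, hr.2.trans ht.2⟩
      simp only [e]
  have hhs : h s = x0 := by rw [hh, Function.update_self]
  have hsy' : ∀ t ∈ Icc s (s + τ), Sy (h t) := by
    intro t ht
    rcases ht.1.eq_or_lt with e | e
    · subst e; rw [hhs]; exact hsy
    · refine he_sym hS hM (by linarith) cΛ' bΛ (fun t ht x => ?_) (fun n => ?_) hmild t ⟨e, ht.2⟩
      · exact heΛ_cj hBW (hVs t (hsub' ht)) x
      · rw [jL_apply, jL_apply, hsy n]; rfl
  have hsnd : ∀ t ∈ Icc s (s + τ), ∀ n, (h t n).2 = 0 := by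
    intro t ht
    rcases ht.1.eq_or_lt with e | e
    · subst e; rw [hhs]; exact h2
    · refine he_snd hS hM (by linarith) cΛ' bΛ (fun t ht x n => ?_) (fun n => ?_) hmild t ⟨e, ht.2⟩
      · rw [heΛ_apply hBW]
      · rw [jL_apply]
        have h3 : (jn (x0 n)).2 = (x0 n).2.1 := rfl
        rw [h3, h2 n]; rfl
  obtain ⟨hLT, hdm⟩ := he_LT hS hM (by linarith) (by linarith) cΛ bΛ hd hmild hhs hsy'
  refine ⟨h, ?_, hhs, fun t ht => ⟨hsy' t ht, fun n => ⟨hdm t ht n, hsnd t ht n⟩⟩⟩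
  exact hLT.congr (fun _ _ => rfl) (fun t _ n => (heΛ_apply hBW V t (h t) n).symm) (fun _ _ => rfl)

/-! PH-1: the passive component. -/

theorem h_evolve {H : ℝ} [Fact (0 < H)] (hdir : ∃ S D A : ℝ → (CI H →L[ℂ] CI H), DirSG H S D A)
    {ω b : ℝ} (hb : 0 ≤ b) {V : ℝ → L1 (Xn H)} (hV : ContinuousOn (fun t => jL H (V t)) (Icc 0 b))
    (hVs : ∀ t ∈ Icc 0 b, Sy (fun n => jn (V t n))) {x0 : L1 (Xn H)}
    (hd : ∀ n : ℤ, Dmode (ω * n) (x0 n)) (hs : Sy x0) (h2 : ∀ n, (x0 n).2 = 0) :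
    ∃ h : ℝ → L1 (Xn H), LT ω 0 b ∅ (fun _ => 0) (fun t n => (-N0 ω (V t) (h t) n, 0)) h ∧ h 0 = x0 ∧
      ∀ t ∈ Icc 0 b, Sy (h t) ∧ ∀ n : ℤ, Dmode (ω * n) (h t n) ∧ (h t n).2 = 0 := by
  obtain ⟨S, D, A, hS⟩ := hdir
  -- the degenerate interval
  have base : ∃ h : ℝ → L1 (Xn H), LT ω 0 0 ∅ (fun _ => 0) (fun t n => (-N0 ω (V t) (h t) n, 0)) h ∧
      h 0 = x0 ∧ ∀ t ∈ Icc (0:ℝ) 0, Sy (h t) ∧ ∀ n : ℤ, Dmode (ω * n) (h t n) ∧ (h t n).2 = 0 := by
    refine ⟨fun _ => x0, ⟨countable_empty, continuousOn_const, continuousOn_const,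
      continuousOn_const, fun n => ?_, ?_, fun t _ n => (hd n).cmode, fun t _ n => ⟨(hd n).z1, (hd n).z2⟩,
      fun t _ n => ?_, ?_, ?_⟩, rfl, fun t _ => ⟨hs, fun n => ⟨hd n, h2 n⟩⟩⟩
    · rw [sdiff_empty, Icc_self]
      exact continuousOn_singleton _ _
    · obtain ⟨C, hC, hEx⟩ := exists_BW H
      obtain ⟨B, hBW, hB⟩ := hEx ω 1 (fun _ => 1) le_rfl
        ⟨fun _ => le_rfl, fun _ _ => by norm_num, rfl⟩
      refine ⟨max ‖x0‖ ‖heΛ B V 0 x0‖, fun t ht => ⟨?_, le_max_left _ _, fun n => ?_⟩⟩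
      · rw [abs_zero]
        exact (norm_nonneg _).trans (le_max_left _ _)
      · rw [sdiff_empty, Icc_self, mem_singleton_iff] at ht
        subst ht
        rw [← heΛ_apply hBW V 0 x0 n]
        exact (norm_le_l1 n _).trans (le_max_right _ _)
    · show jn (x0 (-n)) = star (jn (x0 n))
      rw [hs n]; rfl
    · intro n y _ t1 ht1 t2 ht2
      rw [Icc_self, mem_singleton_iff] at ht1
      subst ht1
      rw [Icc_self, mem_singleton_iff] at ht2
      subst ht2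
      simp
    · intro n y _ t1 ht1 t2 ht2
      rw [Icc_self, mem_singleton_iff] at ht1
      subst ht1
      rw [Icc_self, mem_singleton_iff] at ht2
      subst ht2
      simp
  rcases hb.eq_or_lt with e | hb'
  · subst e; exact base
  obtain ⟨τ0, hτ0, hstep⟩ := he_step hS (ω := ω) hV hVs
  obtain ⟨N, hN⟩ := exists_nat_gt (b / τ0)
  have hN0 : (0:ℝ) < N := lt_trans (by positivity) hN
  set τ : ℝ := b / N with hτ
  have hτp : 0 < τ := by positivity
  have hτle : τ ≤ τ0 := by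
    rw [hτ, div_le_iff₀ hN0]
    rw [div_lt_iff₀ hτ0] at hN
    linarith
  have ind : ∀ k : ℕ, k ≤ N → ∃ h : ℝ → L1 (Xn H),
      LT ω 0 (k * τ) ∅ (fun _ => 0) (fun t n => (-N0 ω (V t) (h t) n, 0)) h ∧ h 0 = x0 ∧
      ∀ t ∈ Icc 0 (k * τ), Sy (h t) ∧ ∀ n : ℤ, Dmode (ω * n) (h t n) ∧ (h t n).2 = 0 := by
    intro k
    induction k with
    | zero =>
      intro _
      rw [Nat.cast_zero, zero_mul]
      exact base
    | succ k ih =>
      intro hk
      obtain ⟨h, hLT, h0, hp⟩ := ih (by omega)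
      have hk0 : (0:ℝ) ≤ k * τ := by positivity
      have hkb : k * τ + τ ≤ b := by
        have h3 : ((k + 1 : ℕ) : ℝ) ≤ N := by exact_mod_cast hk
        have h4 : b = N * τ := by rw [hτ]; field_simp
        push_cast at h3
        nlinarith
      obtain ⟨hq1, hq2⟩ := hp (k * τ) ⟨hk0, le_rfl⟩
      obtain ⟨h', hLT', h0', hp'⟩ := hstep (k * τ) τ hk0 hτp hτle hkb (h (k * τ))
        (fun n => (hq2 n).1) hq1 (fun n => (hq2 n).2)
      have e : ((k + 1 : ℕ) : ℝ) * τ = k * τ + τ := by push_cast; ring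
      rw [e]
      refine ⟨fun t => if t ≤ k * τ then h t else h' t, ?_, ?_, ?_⟩
      · have hg := hLT.glue' hLT' hk0 (by linarith) h0'.symm (fun n => by rw [h0'])
        refine hg.congr (fun _ _ => rfl) (fun t _ n => ?_) (fun _ _ => rfl)
        by_cases ht : t ≤ k * τ
        · simp only [ht, if_true]
        · simp only [ht, if_false]
      · simp only [hk0, if_true]; exact h0
      · intro t ht
        by_cases ht' : t ≤ k * τ
        · simp only [ht', if_true]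
          exact hp t ⟨ht.1, ht'⟩
        · simp only [ht', if_false]
          exact hp' t ⟨(not_le.1 ht').le, ht.2⟩
  have hfin := ind N le_rfl
  have e : (N : ℝ) * τ = b := by rw [hτ]; field_simp
  rwa [e] at hfin

end

end Pool.Agent.Lib.MP_79abb3_an.P25
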