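import Pool.Agent.Lib.MP_79abb3_an.P25.Main3a
import Pool.Agent.Lib.MP_79abb3_an.P25.Data
import Pool.Agent.Lib.MP_79abb3_an.P25.Dir
import Pool.Agent.Lib.MP_79abb3_an.P25.FullCtrl

/-!
Small-time global exact null controllability of all planar flows (with a linear stretching part) over a
flat no-slip wall.
-/

set_option autoImplicit false
set_option linter.unusedSectionVars false

open MeasureTheory Set Filter Topology Function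

namespace Pool.Agent.Lib.MP_79abb3_an.P25

theorem main3 {Ω Γ : Set (ℝ × ℝ × ℝ)} (hb : Bornology.IsBounded Ω)
    (hpos : ∀ q ∈ Ω, 0 < q.2.2) (hΓ : ∀ q ∈ frontier Ω \ Γ, q.2.2 = 0) {T : ℝ} (hT : 0 < T)
    {v₀ w₀ h₀ : ℝ × ℝ → ℝ} (hv : ContDiff ℝ 4 v₀) (hw : ContDiff ℝ 4 w₀) (hh : ContDiff ℝ 3 h₀)
    (bv : ∀ y, v₀ (y, 0) = 0) (bw : ∀ y, w₀ (y, 0) = 0) (bw' : ∀ y, fderiv ℝ w₀ (y, 0) (0, 1) = 0)
    (bh : ∀ y, h₀ (y, 0) = 0) :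
    ∃ u₁ u₂ u₃ : ℝ × ℝ × ℝ × ℝ → ℝ, IsTrajectory Ω Γ T u₁ u₂ u₃ ∧
      (∀ q ∈ closure Ω, u₁ (0, q) = -q.1 * (fderiv ℝ v₀ q.2 (1, 0) + fderiv ℝ w₀ q.2 (0, 1)) + h₀ q.2 ∧
        u₂ (0, q) = v₀ q.2 ∧ u₃ (0, q) = w₀ q.2) ∧
      ∀ q ∈ closure Ω, u₁ (T, q) = 0 ∧ u₂ (T, q) = 0 ∧ u₃ (T, q) = 0 := by
  obtain ⟨r, hr1, hcl⟩ := closure_bounds hb hpos
  have hrp : 0 < r := by linarith
  have : Fact (0 < r + 2) := ⟨by linarith⟩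
  obtain ⟨ω, hω⟩ : ∃ ω, ω = Real.pi / (r + 2) := ⟨_, rfl⟩
  have hω0 : 0 < ω := by rw [hω]; have := Real.pi_pos; positivity
  obtain ⟨x0, y0, dx0, sx0, dy0, sy0, y02, hval⟩ := data_modes hrp hv hw hh bv bw bw' bh
  rw [← hω] at dx0 dy0 hval
  obtain ⟨J, P, u, h, hu, hhh, u0, h0, uT, hT0, -⟩ := full_ctrl (by linarith : (1:ℝ) ≤ r + 2)
    (exists_dir (r + 2)) hω0 hT dx0 sx0 dy0 sy0 y02
  refine ⟨_, _, _, traj_of_modes hω0 hT hrp.le (by linarith) hu hhh hpos hΓ hcl, fun q hq => ?_,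
    fun q hq => ?_⟩
  · obtain ⟨b1, b2, b3⟩ := hcl q hq
    obtain ⟨c1, c2, c3, c4⟩ := hval q.2.1 q.2.2 b2 b3
    simp only [u0, h0]
    rw [c1, c2, c3, c4]
    refine ⟨?_, rfl, rfl⟩
    ring
  · simp only [uT, hT0]
    rw [fld_of_zero (fun n => rfl : ∀ n, m1 (0 : L1 (Xn (r + 2))) n = 0), fld_of_zero (mw_zero ω),
      fld_of_zero (mv_zero ω)]
    simp

end Pool.Agent.Lib.MP_79abb3_an.P25
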